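import Pool.Agent.H43.PS.H91.PK.Defs

/-! The parts of this file: H87D.Defs, H10.GoldLoc.Comb, H87D.SmoothShort, H92.EH.Exp, H53.MID.Nz, H41.PrimesModFour, H87.WL.Defs, H87.WL.Gl, H92.EH.Farey, H92.EH.Ramanujan, H91.PK.CA, H97.VK.TailA, H80.LV.BoxDec, H80.LV.Tau4, H91.PK.Msq, H76.EHB.Mell, H91.EHA.T1fin, H76.EHB.JB, H76.EHB.Jred, H35.W.MeanV. -/

section

/-!
Random sets in the Erdős discrepancy problem: common definitions.
-/

namespace Pool.Agent.H87D

open MeasureTheory ProbabilityTheory Filter Finset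

/-- `n` is positive and all its prime factors are at most `y`. -/
def Sm (y n : ℕ) : Prop := n ≠ 0 ∧ ∀ p : ℕ, p.Prime → p ∣ n → p ≤ y

end Pool.Agent.H87D

end

section

/-!
The combinatorial part: residues for the small, medium and large primes.
-/

namespace Pool.Agent.H10.GoldLoc

open Finset

/-- The primes in `(a, b]`. -/
def PP (a b : ℕ) : Finset ℕ := (Ioc a b).filter Nat.Prime

lemma mem_PP {a b q : ℕ} : q ∈ PP a b ↔ a < q ∧ q ≤ b ∧ q.Prime := by
  unfold PP
  rw [mem_filter, mem_Ioc, and_assoc]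

end Pool.Agent.H10.GoldLoc

end

section

/-!
Upper bound for the number of `exp (mu L(n))`-smooth numbers `n` in short intervals.

PROOF PLAN.  First `z <= x` and `kap >= 0` (WLOG): put `Y = exp (mu L(2x))`.  An element `n ∈ (x, x+z]` with all prime
factors `<= Y` has a divisor `d ∈ (√x/Y, √x]` (maximal product of its primes that is `<= √x`), so the
count is at most `∑_{d ∈ (√x/Y, √x], d Y-smooth} (z/d + 1) <= 2 z ∑_{d > √x/Y, Y-smooth} 1/d`
(`√x <= z` for large `x`, `exp_Lf_le_rpow`) `<= 2 z (√x/Y)^(-α) ∏_{p <= Y} (1 - p^(α-1))⁻¹` (Rankin;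
Euler product over smooth numbers, or only finitely many `d`), with `α = log log x/(4 log Y)`, so
`Y^α = (log x)^(1/4)`.  The product is at most `exp (C Y^α ∑_{p <= Y} 1/p) <= exp (C' (log x)^(1/4)
log log x)` (`∑_{p <= Y} 1/p <= C log log Y`: dyadic blocks and Chebyshev) and
`(√x/Y)^α >= x^(α/4) = exp (log x log log x/(16 log Y)) >= exp (c'' L(x))`, since
`log Y = mu L(2x) <= 2 mu L(x)`.  For `z > x` add up dyadic blocks `(2^i x, 2^(i+1) x]` (`L` is
monotone), decreasing `c`.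
-/

namespace Pool.Agent.H87D

open Finset

open Pool.Agent.H10.GoldLoc (PP mem_PP)

/-- The Euler product bound. -/
theorem SmoothShort_euler (y : ℕ) (al : ℝ) (hal0 : 0 ≤ al) (hal : al ≤ 1 / 2) (D : Finset ℕ)
    (hD : ∀ d ∈ D, Sm y d) :
    ∑ d ∈ D, (d : ℝ) ^ (al - 1) ≤
      Real.exp (4 * ((y : ℝ) ^ al * ∑ p ∈ PP 0 y, (1 : ℝ) / p)) := by
  classical
  let f : ℕ →* ℝ :=
    { toFun := fun n => (n : ℝ) ^ (al - 1)
      map_one' := by simp
      map_mul' := by
        intro a b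
        push_cast
        exact Real.mul_rpow (Nat.cast_nonneg a) (Nat.cast_nonneg b) }
  have hfv : ∀ n : ℕ, f n = (n : ℝ) ^ (al - 1) := fun n => rfl
  have hf0 : ∀ n : ℕ, 0 ≤ f n := fun n => Real.rpow_nonneg (Nat.cast_nonneg n) _
  have hf34 : ∀ {p : ℕ}, p.Prime → f p ≤ 3 / 4 := by
    intro p hp
    rw [hfv]
    have h2p : (2 : ℝ) ≤ p := by exact_mod_cast hp.two_le
    have h1 : (p : ℝ) ^ (al - 1) ≤ (2 : ℝ) ^ (al - 1) :=
      Real.rpow_le_rpow_of_nonpos (by norm_num) h2p (by linarith)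
    have h2 : (2 : ℝ) ^ (al - 1) ≤ (2 : ℝ) ^ (-(1 / 2) : ℝ) :=
      Real.rpow_le_rpow_of_exponent_le (by norm_num) (by linarith)
    have h3 : (2 : ℝ) ^ (-(1 / 2) : ℝ) ≤ 3 / 4 := by
      rw [Real.rpow_neg (by norm_num), ← Real.sqrt_eq_rpow]
      have h4 : (4 : ℝ) / 3 ≤ Real.sqrt 2 := by
        apply Real.le_sqrt_of_sq_le
        norm_num
      rw [inv_le_comm₀ (by positivity) (by norm_num)]
      linarith
    linarith
  have hf1 : ∀ {p : ℕ}, p.Prime → ‖f p‖ < 1 := by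
    intro p hp
    rw [Real.norm_of_nonneg (hf0 p)]
    linarith [hf34 hp]
  obtain ⟨-, hsum⟩ :=
    EulerProduct.summable_and_hasSum_smoothNumbers_prod_primesBelow_geometric (f := f) hf1 (y + 1)
  have hPP : (y + 1).primesBelow = PP 0 y := by
    ext q
    rw [Nat.mem_primesBelow, mem_PP]
    constructor
    · rintro ⟨h1, h2⟩
      exact ⟨h2.pos, by omega, h2⟩
    · rintro ⟨h1, h2, h3⟩
      exact ⟨by omega, h3⟩
  have hmem : ∀ d ∈ D, d ∈ (y + 1).smoothNumbers := by
    intro d hd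
    rw [Nat.mem_smoothNumbers]
    refine ⟨(hD d hd).1, fun p hp => ?_⟩
    have h1 := Nat.prime_of_mem_primeFactorsList hp
    have h2 := Nat.dvd_of_mem_primeFactorsList hp
    have := (hD d hd).2 p h1 h2
    omega
  have h3 := sum_le_hasSum
    (D.attach.image (fun m => (⟨m.1, hmem m.1 m.2⟩ : (y + 1).smoothNumbers)))
    (fun m _ => hf0 m.1) hsum
  rw [Finset.sum_image (by
    intro a _ b _ hab
    simp only [Subtype.mk.injEq] at hab
    exact Subtype.ext hab)] at h3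
  have h4 : ∑ d ∈ D, (d : ℝ) ^ (al - 1) ≤ ∏ p ∈ (y + 1).primesBelow, (1 - f p)⁻¹ := by
    refine le_trans (le_of_eq ?_) h3
    rw [← Finset.sum_attach]
    rfl
  refine h4.trans ?_
  rw [hPP]
  have h5 : ∏ p ∈ PP 0 y, (1 - f p)⁻¹ ≤ ∏ p ∈ PP 0 y, Real.exp (4 * ((y : ℝ) ^ al * (1 / p))) := by
    refine Finset.prod_le_prod (fun p hp => ?_) (fun p hp => ?_)
    · have := hf34 (mem_PP.1 hp).2.2
      exact inv_nonneg.2 (by linarith)
    · obtain ⟨hp1, hp2, hp3⟩ := mem_PP.1 hp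
      have h34 := hf34 hp3
      have h0 := hf0 p
      have hp0 : (0 : ℝ) < p := by exact_mod_cast hp1
      have h6 : (1 - f p)⁻¹ ≤ 1 + 4 * f p := by
        rw [inv_le_comm₀ (by linarith) (by linarith), inv_le_iff_one_le_mul₀ (by linarith)]
        nlinarith
      have h7 : 1 + 4 * f p ≤ Real.exp (4 * f p) := by
        have := Real.add_one_le_exp (4 * f p)
        linarith
      have h8 : f p ≤ (y : ℝ) ^ al * (1 / p) := by
        rw [hfv, Real.rpow_sub_one hp0.ne', mul_one_div]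
        refine div_le_div_of_nonneg_right ?_ hp0.le
        exact Real.rpow_le_rpow hp0.le (by exact_mod_cast hp2) hal0
      have h9 : Real.exp (4 * f p) ≤ Real.exp (4 * ((y : ℝ) ^ al * (1 / p))) :=
        Real.exp_le_exp.2 (by linarith)
      linarith
  refine h5.trans (le_of_eq ?_)
  rw [← Real.exp_sum]
  congr 1
  rw [← Finset.mul_sum, ← Finset.mul_sum]

end Pool.Agent.H87D

end

section

/-!
The additive character `e t = exp (2 π i t)` and elementary estimates.
-/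

set_option autoImplicit false

namespace Pool.Agent.H92.EH

open Finset

/-- `e t = exp (2 π i t)`. -/
noncomputable def e (t : ℝ) : ℂ := Complex.exp (Complex.I * ((2 * Real.pi * t : ℝ) : ℂ))

theorem e_add (s t : ℝ) : e (s + t) = e s * e t := by
  unfold e
  rw [← Complex.exp_add]
  congr 1
  push_cast
  ring

theorem norm_e (t : ℝ) : ‖e t‖ = 1 := Complex.norm_exp_I_mul_ofReal _

theorem e_int (n : ℤ) : e n = 1 := by
  unfold e
  rw [Complex.exp_eq_one_iff]
  exact ⟨n, by push_cast; ring⟩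

theorem e_add_int (t : ℝ) (n : ℤ) : e (t + n) = e t := by
  rw [e_add, e_int, mul_one]

theorem e_sub_int (t : ℝ) (n : ℤ) : e (t - n) = e t := by
  have := e_add_int t (-n)
  push_cast at this
  rw [← sub_eq_add_neg] at this
  exact this

theorem e_nat_mul (n : ℕ) (t : ℝ) : e (n * t) = e t ^ n := by
  unfold e
  rw [← Complex.exp_nat_mul]
  congr 1
  push_cast
  ring

/-- Lower bound for `|e t - 1|` when `|t| ≤ 1/2`. -/
theorem le_norm_e_sub_one_of_abs_le {t : ℝ} (ht : |t| ≤ 1 / 2) : 4 * |t| ≤ ‖e t - 1‖ := by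
  unfold e
  rw [Complex.norm_exp_I_mul_ofReal_sub_one]
  have h1 : 2 * Real.pi * t / 2 = Real.pi * t := by ring
  rw [h1]
  have h2 : 2 / Real.pi * |Real.pi * t| ≤ |Real.sin (Real.pi * t)| := by
    apply Real.mul_abs_le_abs_sin
    rw [abs_mul, abs_of_pos Real.pi_pos]
    have := Real.pi_pos
    nlinarith
  rw [abs_mul, abs_of_pos Real.pi_pos] at h2
  have h3 : 2 / Real.pi * (Real.pi * |t|) = 2 * |t| := by
    field_simp
  rw [h3] at h2
  simp only [norm_mul, Real.norm_eq_abs]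
  rw [abs_of_pos (by norm_num : (0:ℝ) < 2)]
  linarith

/-- If `|t - m| ≥ δ` for all integers `m` then `|e t - 1| ≥ 4 δ`. -/
theorem le_norm_e_sub_one {t δ : ℝ} (h : ∀ m : ℤ, δ ≤ |t - m|) : 4 * δ ≤ ‖e t - 1‖ := by
  have h1 := h (round t)
  have h2 : |t - round t| ≤ 1 / 2 := abs_sub_round t
  have h3 := le_norm_e_sub_one_of_abs_le h2
  rw [e_sub_int] at h3
  linarith

end Pool.Agent.H92.EH

end

section

/-!
# MID Nz: distance to the nearest integer, and the one-step relation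

`nz t = |t - round t|`.  `Rel C n P η F F' α α' R`: `R` is a set of triples `(K, p, G)`, `K ∈ F`, `G ∈ F'`, `p` a prime in
`(P, 2P]`, with `|G p - K P| ≤ C P` and `‖p α(K) - α'(G)‖ ≤ η`; all indices of `F` and `F'` lie in `[n/C, C n]`.
-/

set_option autoImplicit false

namespace Pool.Agent.H53.MID

open Finset

/-- the distance to the nearest integer -/
noncomputable def nz (t : ℝ) : ℝ := |t - round t|

theorem nz_le_of (t : ℝ) (m : ℤ) : nz t ≤ |t - m| := round_le t m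

theorem nz_exists (t : ℝ) : ∃ m : ℤ, |t - m| = nz t := ⟨round t, rfl⟩

theorem nz_le_abs (t : ℝ) : nz t ≤ |t| := by simpa using nz_le_of t 0

theorem nz_add (s t : ℝ) : nz (s + t) ≤ nz s + nz t := by
  refine (nz_le_of (s + t) (round s + round t)).trans ?_
  unfold nz
  push_cast
  have h : s + t - (round s + round t) = (s - round s) + (t - round t) := by ring
  rw [h]
  exact abs_add_le _ _

theorem nz_neg (t : ℝ) : nz (-t) = nz t := by
  apply le_antisymm
  · refine (nz_le_of (-t) (-round t)).trans (le_of_eq ?_)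
    unfold nz
    push_cast
    rw [← abs_neg]
    congr 1
    ring
  · refine (nz_le_of t (-round (-t))).trans (le_of_eq ?_)
    unfold nz
    push_cast
    rw [← abs_neg]
    congr 1
    ring

theorem nz_sub (s t : ℝ) : nz (s - t) ≤ nz s + nz t := by
  rw [sub_eq_add_neg, ← nz_neg t]
  exact nz_add _ _

theorem nz_add_int (t : ℝ) (m : ℤ) : nz (t + m) = nz t := by
  unfold nz
  rw [round_add_intCast]
  push_cast
  congr 1
  ring

theorem nz_eq_abs (t : ℝ) (h : |t| < 1 / 2) : nz t = |t| := by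
  have h2 : round t = 0 := by
    rw [round_eq_zero_iff]
    rw [abs_lt] at h
    exact ⟨by linarith [h.1], by linarith [h.2]⟩
  unfold nz
  rw [h2]
  simp

/-- a fraction with denominator `d` which is not an integer is at distance `≥ 1/d` from the integers -/
theorem nz_frac_ge (a : ℤ) (d : ℕ) (hd : 0 < d) (h : ¬ (d : ℤ) ∣ a) : 1 / (d : ℝ) ≤ nz ((a : ℝ) / d) := by
  have hd0 : (0 : ℝ) < d := by exact_mod_cast hd
  obtain ⟨m, hm⟩ := nz_exists ((a : ℝ) / d)
  rw [← hm]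
  have h1 : (a : ℝ) / d - m = ((a - d * m : ℤ) : ℝ) / d := by
    push_cast
    field_simp
  rw [h1, abs_div, abs_of_pos hd0]
  refine div_le_div_of_nonneg_right ?_ hd0.le
  have h2 : a - d * m ≠ 0 := by
    intro h3
    exact h ⟨m, by linarith⟩
  have h3 : 1 ≤ |a - d * m| := Int.one_le_abs h2
  exact_mod_cast h3

end Pool.Agent.H53.MID

end

section

/-!
# Quantitative supply of primes congruent to one modulo four

Elementary Mertens-type estimate for the character modulo four, and the consequence that for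
every `δ > 0` there are at least `N ^ (1 - δ)` primes `p ≤ N` with `p % 4 = 1`, for all large `N`.
-/

namespace Pool.Agent.H41

open Finset Real

/-- the constant in Chebyshev's bound -/
noncomputable def c0 : ℝ := Real.log 4 + 4

lemma c0_pos : 0 < c0 := by
  have : 0 < Real.log 4 := Real.log_pos (by norm_num)
  unfold c0; linarith

lemma psi_bound (N : ℕ) : ∑ d ∈ Ioc 0 N, ArithmeticFunction.vonMangoldt d ≤ c0 * N := by
  have := Chebyshev.psi_le_const_mul_self (x := (N : ℝ)) (by positivity)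
  unfold Chebyshev.psi at this
  rwa [Nat.floor_natCast] at this

lemma log_factorial_eq (N : ℕ) :
    ∑ m ∈ Ioc 0 N, Real.log m =
      ∑ d ∈ Ioc 0 N, ArithmeticFunction.vonMangoldt d * ((N / d : ℕ) : ℝ) := by
  have := ArithmeticFunction.sum_Ioc_mul_zeta_eq_sum ArithmeticFunction.vonMangoldt N
  rw [ArithmeticFunction.vonMangoldt_mul_zeta] at this
  simpa [ArithmeticFunction.log_apply] using this

lemma sum_log_eq (N : ℕ) : ∑ m ∈ Ioc 0 N, Real.log m = Real.log (N.factorial) := by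
  induction N with
  | zero => simp
  | succ N ih =>
    rw [Finset.sum_Ioc_succ_top (by omega), ih, Nat.factorial_succ]
    push_cast
    rw [Real.log_mul (by positivity) (by positivity)]
    ring

lemma B_upper (N : ℕ) (hN : 0 < N) :
    ∑ d ∈ Ioc 0 N, ArithmeticFunction.vonMangoldt d / d ≤ Real.log N + c0 := by
  have hN' : (0 : ℝ) < N := by exact_mod_cast hN
  have h1 : ∑ m ∈ Ioc 0 N, Real.log m ≤ N * Real.log N := by
    calc ∑ m ∈ Ioc 0 N, Real.log m ≤ ∑ m ∈ Ioc 0 N, Real.log N := by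
          refine Finset.sum_le_sum fun m hm => ?_
          rw [Finset.mem_Ioc] at hm
          exact Real.log_le_log (by exact_mod_cast hm.1) (by exact_mod_cast hm.2)
      _ = N * Real.log N := by simp
  rw [log_factorial_eq] at h1
  have h2 : ∑ d ∈ Ioc 0 N, ArithmeticFunction.vonMangoldt d * ((N : ℝ) / d - 1) ≤
      ∑ d ∈ Ioc 0 N, ArithmeticFunction.vonMangoldt d * ((N / d : ℕ) : ℝ) := by
    refine Finset.sum_le_sum fun d hd => ?_
    rw [Finset.mem_Ioc] at hd
    have hd' : (0 : ℝ) < d := by exact_mod_cast hd.1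
    refine mul_le_mul_of_nonneg_left ?_ ArithmeticFunction.vonMangoldt_nonneg
    have : N < d * (N / d + 1) := Nat.lt_mul_div_succ N hd.1
    have h3 : (N : ℝ) < d * ((N / d : ℕ) + 1) := by exact_mod_cast this
    have h4 : (N : ℝ) / d < (N / d : ℕ) + 1 := by
      rw [div_lt_iff₀ hd']; linarith
    linarith
  have h3 : ∑ d ∈ Ioc 0 N, ArithmeticFunction.vonMangoldt d * ((N : ℝ) / d - 1) =
      N * ∑ d ∈ Ioc 0 N, ArithmeticFunction.vonMangoldt d / d -
        ∑ d ∈ Ioc 0 N, ArithmeticFunction.vonMangoldt d := by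
    rw [Finset.mul_sum, ← Finset.sum_sub_distrib]
    exact Finset.sum_congr rfl fun d _ => by ring
  have h4 := psi_bound N
  have h5 : N * ∑ d ∈ Ioc 0 N, ArithmeticFunction.vonMangoldt d / d ≤
      N * (Real.log N + c0) := by
    rw [h3] at h2
    nlinarith
  exact le_of_mul_le_mul_left h5 hN'

lemma B_lower (N : ℕ) (hN : 0 < N) :
    Real.log N - 1 ≤ ∑ d ∈ Ioc 0 N, ArithmeticFunction.vonMangoldt d / d := by
  have hN' : (0 : ℝ) < N := by exact_mod_cast hN
  have h1 : (N : ℝ) * Real.log N - N ≤ Real.log (N.factorial) := by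
    have := Real.pow_div_factorial_le_exp (N : ℝ) hN'.le N
    have hf : (0 : ℝ) < N.factorial := by positivity
    have h2 := Real.log_le_log (by positivity) this
    rw [Real.log_exp, Real.log_div (by positivity) (by positivity), Real.log_pow] at h2
    linarith
  rw [← sum_log_eq, log_factorial_eq] at h1
  have h2 : ∑ d ∈ Ioc 0 N, ArithmeticFunction.vonMangoldt d * ((N / d : ℕ) : ℝ) ≤
      ∑ d ∈ Ioc 0 N, ArithmeticFunction.vonMangoldt d * ((N : ℝ) / d) := by
    refine Finset.sum_le_sum fun d hd => ?_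
    exact mul_le_mul_of_nonneg_left Nat.cast_div_le ArithmeticFunction.vonMangoldt_nonneg
  have h3 : ∑ d ∈ Ioc 0 N, ArithmeticFunction.vonMangoldt d * ((N : ℝ) / d) =
      N * ∑ d ∈ Ioc 0 N, ArithmeticFunction.vonMangoldt d / d := by
    rw [Finset.mul_sum]
    exact Finset.sum_congr rfl fun d _ => by ring
  have h5 : N * (Real.log N - 1) ≤
      N * ∑ d ∈ Ioc 0 N, ArithmeticFunction.vonMangoldt d / d := by
    rw [h3] at h2
    nlinarith
  exact le_of_mul_le_mul_left h5 hN'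

end Pool.Agent.H41

end

section

/-!
# Project WL (MP_a78e8f_nt): definitions

Elliott-Halberstam for almost all residues in intervals of length `(log x)^C`, all levels `θ < 1`,
with exceptional sets of density `(log x)^{-c}`.  `Lam`, `lamR`, `hR`, `ramS`, `psiA`, `err` are those of
`Pool.Agent.H91.EHA.Defs`.
-/

set_option autoImplicit false

namespace Pool.Agent.H87.WL

open Finset

/-- the Möbius function with real values -/
noncomputable def mo (n : ℕ) : ℝ := (ArithmeticFunction.moebius n : ℝ)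

/-! ### Selberg's function -/

/-- `G = ∑_{h ≤ D, (h,q) = 1} μ(h)²/φ(h)` -/
noncomputable def Gs (D q : ℕ) : ℝ :=
  ∑ h ∈ (Icc 1 D).filter (fun h => Nat.Coprime h q), mo h ^ 2 / (h.totient : ℝ)

/-! ### The statements delivered by other projects -/

end Pool.Agent.H87.WL

end

section

/-!
# WL Gl: the lower bound for `G`

`(q/φ(q)) ∑_{h ≤ D, (h,q)=1} μ(h)²/φ(h) ≥ ∑_{h ≤ D} μ(h)²/φ(h) ≥ ∑_{n ≤ D} 1/n ≥ log (D+1)`.
First inequality: `q/φ(q) = ∑_{e | q} μ(e)²/φ(e)`; the products `e h` are different (`e = (eh, q)`) and run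
through all squarefree numbers `≤ D` (among others). Second: `1/φ(h) = (1/h) ∏_{p | h} (1-1/p)^{-1}` is the
sum of `1/n` over all `n` with squarefree kernel `h`. (Compare, if useful, landed proofs for the large
sieve: grep for `totient` and `log` in Pool/Agent/H91/PK, Pool/Agent/H92/EH, Pool/Agent/H35/V1.)
-/

set_option autoImplicit false

namespace Pool.Agent.H87.WL

open Finset

/-! ### The sum over the numbers with a given radical -/

/-- the product of the primes dividing `n` but not `M` -/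
def gl_rad (M n : ℕ) : ℕ := ∏ p ∈ n.primeFactors.filter (fun p => ¬ p ∣ M), p

theorem gl_rad_dvd (M n : ℕ) : gl_rad M n ∣ n :=
  (prod_dvd_prod_of_subset _ _ _ (filter_subset _ _)).trans (Nat.prod_primeFactors_dvd n)

theorem gl_sq (T : Finset ℕ) (hT : ∀ p ∈ T, p.Prime) : Squarefree (∏ p ∈ T, p) := by
  classical
  induction T using Finset.induction_on with
  | empty => simp
  | insert a T ha ih =>
    have ha' : a.Prime := hT a (mem_insert_self a T)
    have hT' : ∀ p ∈ T, p.Prime := fun p hp => hT p (mem_insert_of_mem hp)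
    have hcop : Nat.Coprime a (∏ p ∈ T, p) := by
      refine Nat.Coprime.prod_right ?_
      intro p hp
      rw [Nat.coprime_primes ha' (hT' p hp)]
      rintro rfl
      exact ha hp
    rw [prod_insert ha, Nat.squarefree_mul hcop]
    exact ⟨ha'.squarefree, ih hT'⟩

theorem gl_rad_sq (M n : ℕ) : Squarefree (gl_rad M n) :=
  gl_sq _ fun _ hp => Nat.prime_of_mem_primeFactors (mem_filter.1 hp).1

theorem gl_rad_coprime (M n : ℕ) : Nat.Coprime (gl_rad M n) M := by
  refine Nat.Coprime.prod_left ?_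
  intro p hp
  rw [mem_filter] at hp
  exact (Nat.Prime.coprime_iff_not_dvd (Nat.prime_of_mem_primeFactors hp.1)).2 hp.2

/-- the completely multiplicative function `1/n` -/
noncomputable def gl_inv : ℕ →* ℝ where
  toFun n := (n : ℝ)⁻¹
  map_one' := by simp
  map_mul' m n := by
    rw [Nat.cast_mul, mul_inv]

theorem gl_inv_apply (n : ℕ) : gl_inv n = (n : ℝ)⁻¹ := rfl

theorem gl_tot (K : ℕ) (hK : K ≠ 0) :
    ∏ p ∈ K.primeFactors with p.Prime, (1 - gl_inv p)⁻¹ = (K : ℝ) / K.totient := by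
  have h1 : (K.primeFactors.filter fun p => p.Prime) = K.primeFactors :=
    filter_true_of_mem fun p hp => Nat.prime_of_mem_primeFactors hp
  rw [h1]
  have h2 : (K.totient : ℝ) = K * ∏ p ∈ K.primeFactors, (1 - (p : ℝ)⁻¹) := by
    have h := congrArg (fun q : ℚ => (q : ℝ)) (Nat.totient_eq_mul_prod_factors K)
    push_cast at h
    exact h
  have hφ : (K.totient : ℝ) ≠ 0 := by
    have := Nat.totient_pos.2 (Nat.pos_of_ne_zero hK)
    positivity
  have hK' : (K : ℝ) ≠ 0 := by exact_mod_cast hK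
  rw [eq_div_iff hφ, h2, prod_inv_distrib]
  have h3 : ∏ p ∈ K.primeFactors, (1 - (p : ℝ)⁻¹) ≠ 0 := by
    intro h
    rw [h2, h, mul_zero] at hφ
    exact hφ rfl
  simp only [gl_inv_apply]
  generalize ∏ p ∈ K.primeFactors, (1 - (p : ℝ)⁻¹) = Q at h3
  field_simp

theorem gl_sum (K : ℕ) (hK : K ≠ 0) (T : Finset ℕ)
    (hT : ∀ m ∈ T, m ∈ Nat.factoredNumbers K.primeFactors) :
    ∑ m ∈ T, (m : ℝ)⁻¹ ≤ (K : ℝ) / K.totient := by
  classical
  obtain ⟨h1, h2⟩ := EulerProduct.summable_and_hasSum_factoredNumbers_prod_filter_prime_geometric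
    (f := gl_inv) (fun {p} hp => by
      rw [gl_inv_apply, norm_inv, Real.norm_natCast]
      exact inv_lt_one_of_one_lt₀ (by exact_mod_cast hp.one_lt)) K.primeFactors
  rw [gl_tot K hK] at h2
  rw [← h2.tsum_eq]
  have h3 : ∑ m ∈ T, (m : ℝ)⁻¹ = ∑ m ∈ T.attach.image (fun m => (⟨m.1, hT m.1 m.2⟩ :
      Nat.factoredNumbers K.primeFactors)), gl_inv m := by
    rw [sum_image]
    · rw [← sum_attach]
      rfl
    · intro x _ y _ h
      exact Subtype.ext (congrArg (fun z : Nat.factoredNumbers K.primeFactors => (z : ℕ)) h)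
  rw [h3]
  refine h2.summable.sum_le_tsum _ fun i _ => ?_
  rw [gl_inv_apply]
  positivity

theorem gl_fiber (M : ℕ) (hM : 1 ≤ M) (N r : ℕ) (hr : r ≠ 0) (hrM : Nat.Coprime r M) :
    ∑ n ∈ (Icc 1 N).filter (fun n => gl_rad M n = r), (n : ℝ)⁻¹ ≤
      (1 / (r.totient : ℝ)) * ((M : ℝ) / M.totient) := by
  classical
  have hM0 : M ≠ 0 := by omega
  have hK : r * M ≠ 0 := mul_ne_zero hr hM0
  have h1 : ∀ n ∈ (Icc 1 N).filter (fun n => gl_rad M n = r), r ∣ n := by
    intro n hn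
    rw [mem_filter] at hn
    rw [← hn.2]
    exact gl_rad_dvd M n
  have h2 := gl_sum (r * M) hK (((Icc 1 N).filter (fun n => gl_rad M n = r)).image (fun n => n / r))
    (by
      intro m hm
      rw [mem_image] at hm
      obtain ⟨n, hn, rfl⟩ := hm
      have hrn := h1 n hn
      rw [mem_filter, mem_Icc] at hn
      have hn0 : n ≠ 0 := by omega
      rw [Nat.mem_factoredNumbers]
      refine ⟨?_, ?_⟩
      · exact (Nat.div_pos (Nat.le_of_dvd (by omega) hrn) (Nat.pos_of_ne_zero hr)).ne'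
      · intro p hp
        have hpp := Nat.prime_of_mem_primeFactorsList hp
        have hpn : p ∣ n := (Nat.dvd_of_mem_primeFactorsList hp).trans (Nat.div_dvd_of_dvd hrn)
        rw [Nat.mem_primeFactors]
        refine ⟨hpp, ?_, hK⟩
        by_cases hpM : p ∣ M
        · exact hpM.mul_left r
        · refine Dvd.dvd.mul_right ?_ M
          rw [← hn.2]
          refine dvd_prod_of_mem _ ?_
          rw [mem_filter, Nat.mem_primeFactors]
          exact ⟨⟨hpp, hpn, hn0⟩, hpM⟩)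
  rw [sum_image] at h2
  · have h3 : ∑ n ∈ (Icc 1 N).filter (fun n => gl_rad M n = r), (n : ℝ)⁻¹ =
        (r : ℝ)⁻¹ * ∑ n ∈ (Icc 1 N).filter (fun n => gl_rad M n = r), ((n / r : ℕ) : ℝ)⁻¹ := by
      rw [mul_sum]
      refine sum_congr rfl fun n hn => ?_
      rw [← mul_inv]
      congr 1
      rw [← Nat.cast_mul, Nat.mul_div_cancel' (h1 n hn)]
    rw [h3]
    refine (mul_le_mul_of_nonneg_left h2 (by positivity)).trans (le_of_eq ?_)
    rw [Nat.totient_mul hrM, Nat.cast_mul, Nat.cast_mul]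
    have hr' : (r : ℝ) ≠ 0 := by exact_mod_cast hr
    field_simp
  · intro x hx y hy hxy
    have e1 := Nat.mul_div_cancel' (h1 x hx)
    have e2 := Nat.mul_div_cancel' (h1 y hy)
    have hxy' : x / r = y / r := hxy
    rw [← e1, ← e2, hxy']

/-- the set of moduli -/
def gl_S (M N : ℕ) : Finset ℕ := (Icc 1 N).filter (fun r => Squarefree r ∧ Nat.Coprime r M)

theorem gl_mem_S {M N r : ℕ} :
    r ∈ gl_S M N ↔ (1 ≤ r ∧ r ≤ N) ∧ Squarefree r ∧ Nat.Coprime r M := by
  unfold gl_S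
  rw [mem_filter, mem_Icc]

/-- the main sum -/
noncomputable def gl_G (M N : ℕ) : ℝ := ∑ r ∈ gl_S M N, 1 / (r.totient : ℝ)

theorem gl_G_ge (M : ℕ) (hM : 1 ≤ M) (N : ℕ) :
    ∑ n ∈ Icc 1 N, (n : ℝ)⁻¹ ≤ gl_G M N * ((M : ℝ) / M.totient) := by
  classical
  have hmaps : ∀ n ∈ Icc 1 N, gl_rad M n ∈ gl_S M N := by
    intro n hn
    rw [mem_Icc] at hn
    rw [gl_mem_S]
    have h0 : 0 < n := by omega
    exact ⟨⟨Nat.pos_of_dvd_of_pos (gl_rad_dvd M n) h0, (Nat.le_of_dvd h0 (gl_rad_dvd M n)).trans hn.2⟩,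
      gl_rad_sq M n, gl_rad_coprime M n⟩
  rw [← sum_fiberwise_of_maps_to hmaps]
  unfold gl_G
  rw [sum_mul]
  refine sum_le_sum fun r hr => ?_
  rw [gl_mem_S] at hr
  exact gl_fiber M hM N r (by omega) hr.2.2

theorem gs_ge (D q : ℕ) (hq : 1 ≤ q) :
    (q.totient : ℝ) / q * Real.log (D + 1) ≤ Gs D q := by
  have hq0 : (0 : ℝ) < q := by exact_mod_cast hq
  have hφ : (0 : ℝ) < q.totient := by exact_mod_cast Nat.totient_pos.2 hq
  have h1 : Gs D q = gl_G q D := by
    unfold Gs gl_G gl_S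
    rw [← filter_filter, sum_filter (s := Icc 1 D), sum_filter (s := (Icc 1 D).filter Squarefree),
      sum_filter (s := Icc 1 D)]
    refine sum_congr rfl fun h _ => ?_
    by_cases hs : Squarefree h
    · have h2 : mo h ^ 2 = 1 := by
        unfold mo
        exact_mod_cast ArithmeticFunction.moebius_sq_eq_one_of_squarefree hs
      rw [if_pos hs, h2]
    · have h2 : mo h = 0 := by
        unfold mo
        rw [ArithmeticFunction.moebius_eq_zero_of_not_squarefree hs, Int.cast_zero]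
      rw [if_neg hs, h2]
      simp
  have h2 := gl_G_ge q hq D
  have h3 : Real.log (D + 1) ≤ ∑ n ∈ Icc 1 D, (n : ℝ)⁻¹ := by
    have h4 := log_add_one_le_harmonic D
    rw [harmonic_eq_sum_Icc] at h4
    push_cast at h4
    exact h4
  rw [h1]
  have h5 : Real.log (D + 1) ≤ gl_G q D * ((q : ℝ) / q.totient) := h3.trans h2
  calc (q.totient : ℝ) / q * Real.log (D + 1)
      ≤ (q.totient : ℝ) / q * (gl_G q D * ((q : ℝ) / q.totient)) :=
        mul_le_mul_of_nonneg_left h5 (by positivity)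
    _ = gl_G q D := by field_simp

end Pool.Agent.H87.WL

end

section

/-!
Farey fractions are well spaced, and the resulting mean value estimate for exponential sums
over primes.
-/

set_option autoImplicit false

namespace Pool.Agent.H92.EH

open Finset

/-- Reduced residues modulo `r`, as natural numbers less than `r`. -/
def red (r : ℕ) : Finset ℕ := (range r).filter (fun b => Nat.Coprime b r)

theorem mem_red {r b : ℕ} : b ∈ red r ↔ b < r ∧ Nat.Coprime b r := by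
  simp [red]

end Pool.Agent.H92.EH

end

section

/-!
Complete exponential sums and Ramanujan sums.
-/

set_option autoImplicit false

namespace Pool.Agent.H92.EH

open Finset

/-- Complete sums of additive characters. -/
theorem sum_complete (n : ℕ) (hn : 0 < n) (m : ℤ) :
    ∑ b ∈ range n, e (m * ((b : ℝ) / n)) = if (n : ℤ) ∣ m then (n : ℂ) else 0 := by
  have hn0 : (n : ℝ) ≠ 0 := by exact_mod_cast hn.ne'
  have h1 : ∀ b : ℕ, e (m * ((b : ℝ) / n)) = e ((m : ℝ) / n) ^ b := by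
    intro b
    rw [← e_nat_mul]
    congr 1
    ring
  simp_rw [h1]
  split_ifs with h
  · obtain ⟨k, rfl⟩ := h
    have : ((n : ℤ) * k : ℤ) / (n : ℝ) = (k : ℝ) := by
      push_cast
      field_simp
    rw [this, e_int]
    simp
  · have hne : e ((m : ℝ) / n) ≠ 1 := by
      intro he
      apply h
      unfold e at he
      rw [Complex.exp_eq_one_iff] at he
      obtain ⟨k, hk⟩ := he
      refine ⟨k, ?_⟩
      have hpi : (Real.pi : ℂ) ≠ 0 := by exact_mod_cast Real.pi_ne_zero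
      have hI := Complex.I_ne_zero
      have hn0' : (n : ℂ) ≠ 0 := by exact_mod_cast hn.ne'
      push_cast at hk
      have h2 : (2 * Real.pi * Complex.I : ℂ) * (m / n) = (2 * Real.pi * Complex.I) * k := by
        linear_combination hk
      have h3 : ((m : ℂ) / n) = k := by
        apply mul_left_cancel₀ _ h2
        simp [hpi, hI]
      rw [div_eq_iff hn0'] at h3
      have h4 : (m : ℂ) = ((n : ℤ) * k : ℤ) := by
        rw [h3]
        push_cast
        ring
      exact_mod_cast h4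
    have h5 : (∑ b ∈ range n, e ((m : ℝ) / n) ^ b) * (e ((m : ℝ) / n) - 1) = 0 := by
      rw [geom_sum_mul, ← e_nat_mul]
      have : (n : ℝ) * ((m : ℝ) / n) = m := by field_simp
      rw [this, e_int, sub_self]
    rcases mul_eq_zero.mp h5 with h6 | h6
    · exact h6
    · exact absurd (sub_eq_zero.mp h6) hne

/-- The Ramanujan sum `c_r(m)`. -/
noncomputable def ram (r : ℕ) (m : ℤ) : ℂ := ∑ b ∈ red r, e (m * ((b : ℝ) / r))

theorem sum_ram_divisors (n : ℕ) (hn : 0 < n) (m : ℤ) :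
    ∑ d ∈ n.divisors, ram d m = if (n : ℤ) ∣ m then (n : ℂ) else 0 := by
  rw [← sum_complete n hn m]
  -- partition `range n` according to the gcd with `n`
  have h1 : ∑ b ∈ range n, e (m * ((b : ℝ) / n))
      = ∑ d ∈ n.divisors, ∑ b ∈ (range n).filter (fun b => n / Nat.gcd b n = d),
          e (m * ((b : ℝ) / n)) := by
    rw [sum_fiberwise_of_maps_to]
    intro b _
    rw [Nat.mem_divisors]
    exact ⟨Nat.div_dvd_of_dvd (Nat.gcd_dvd_right b n), hn.ne'⟩
  rw [h1]
  refine sum_congr rfl fun d hd => ?_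
  rw [Nat.mem_divisors] at hd
  obtain ⟨k, hk⟩ := hd.1
  have hdpos : 0 < d := Nat.pos_of_ne_zero (by rintro rfl; omega)
  have hkpos : 0 < k := Nat.pos_of_ne_zero (by rintro rfl; omega)
  unfold ram
  refine sum_bij (fun b _ => b * k) ?_ ?_ ?_ ?_
  · intro b hb
    rw [mem_red] at hb
    rw [mem_filter, mem_range]
    have hg : Nat.gcd (b * k) n = k := by
      rw [hk, Nat.gcd_mul_right]
      have : Nat.gcd b d = 1 := hb.2
      rw [this, one_mul]
    refine ⟨?_, ?_⟩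
    · rw [hk]
      exact Nat.mul_lt_mul_of_pos_right hb.1 hkpos
    · rw [hg, hk]
      exact Nat.mul_div_cancel _ hkpos
  · intro b _ b' _ h
    exact Nat.eq_of_mul_eq_mul_right hkpos h
  · intro c hc
    rw [mem_filter, mem_range] at hc
    obtain ⟨hc1, hc2⟩ := hc
    have hgpos : 0 < Nat.gcd c n := Nat.gcd_pos_of_pos_right _ hn
    have hgk : Nat.gcd c n = k := by
      have h2 : Nat.gcd c n ∣ n := Nat.gcd_dvd_right c n
      have h3 : n / Nat.gcd c n * Nat.gcd c n = n := Nat.div_mul_cancel h2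
      rw [hc2] at h3
      exact Nat.eq_of_mul_eq_mul_left hdpos (h3.trans hk)
    have hkc : k ∣ c := by rw [← hgk]; exact Nat.gcd_dvd_left c n
    obtain ⟨b, hb⟩ := hkc
    refine ⟨b, ?_, by rw [hb]; ring⟩
    rw [mem_red]
    constructor
    · have : k * b < k * d := by rw [← hb, mul_comm k d, ← hk]; exact hc1
      exact lt_of_mul_lt_mul_left this (Nat.zero_le _)
    · have h2 : Nat.gcd (k * b) (k * d) = k := by
        rw [← hb, mul_comm k d, ← hk]
        exact hgk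
      rw [Nat.gcd_mul_left] at h2
      have h3 : k * Nat.gcd b d = k * 1 := by rw [h2, mul_one]
      exact Nat.eq_of_mul_eq_mul_left hkpos h3
  · intro b _
    congr 2
    have hd0 : (d : ℝ) ≠ 0 := by exact_mod_cast hdpos.ne'
    have hk0 : (k : ℝ) ≠ 0 := by exact_mod_cast hkpos.ne'
    rw [hk]
    push_cast
    field_simp

/-- Formula for the Ramanujan sum. -/
theorem ram_eq (r : ℕ) (hr : 0 < r) (m : ℤ) :
    ram r m = ∑ x ∈ r.divisorsAntidiagonal,
      ((ArithmeticFunction.moebius x.1 : ℤ) : ℂ) * (if ((x.2 : ℕ) : ℤ) ∣ m then (x.2 : ℂ) else 0) := by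
  have h := (ArithmeticFunction.sum_eq_iff_sum_mul_moebius_eq
    (f := fun n => ram n m) (g := fun n : ℕ => if (n : ℤ) ∣ m then (n : ℂ) else 0)).mp
    (fun n hn => sum_ram_divisors n hn m) r hr
  exact h.symm

/-- The Ramanujan sum at an integer prime to the modulus. -/
theorem ram_of_coprime (r : ℕ) (hr : 0 < r) (m : ℤ) (hm : IsCoprime m (r : ℤ)) :
    ram r m = ((ArithmeticFunction.moebius r : ℤ) : ℂ) := by
  rw [ram_eq r hr m]
  rw [sum_eq_single (r, 1)]
  · simp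
  · rintro ⟨a, b⟩ hab hne
    rw [Nat.mem_divisorsAntidiagonal] at hab
    simp only at hab ⊢
    rw [if_neg, mul_zero]
    intro hb
    have h1 : (b : ℤ) ∣ (r : ℤ) := by
      rw [← hab.1]
      push_cast
      exact Dvd.intro_left _ rfl
    have h2 : IsUnit (b : ℤ) := hm.isUnit_of_dvd' hb h1
    have h3 : b = 1 := by
      rw [Int.isUnit_iff] at h2
      omega
    apply hne
    rw [h3, mul_one] at hab
    rw [h3, hab.1]
  · intro h
    exfalso
    apply h
    rw [Nat.mem_divisorsAntidiagonal]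
    exact ⟨by ring, hr.ne'⟩

end Pool.Agent.H92.EH

end

section

/-!
PK CA: Taylor coefficients of L-functions to the right of 1 and their trivial bounds.

aL f j s = ∑_n f(n) (log n)^j/j! n^{-s},  fL f j s = ∑_n f(n) Λ(n) (log n)^j/j! n^{-s}.

`aL_bound`: let |f| ≤ 1, all partial sums over [1,B] bounded by r (r ≥ 1 real), 1 < σ ≤ 2, y = r(|t|+2),
  A = log y + 5.  Then |aL f j (σ+it)| ≤ A^(j+1).
Proof. n ≤ y: ∑_{n≤y} (log n)^j/n ≤ (log y)^j (log y + 1).
 n > y: partial sums of f over (⌊y⌋, u] are ≤ 2r; Abel summation against h(u) = (log u)^j u^{-s}: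
   |∑_{n>y}| ≤ 2r (sup_{u≥y} |h| + ∫_y^∞ |h'|) (or directly with h(n)-h(n+1) = -∫_n^{n+1} h'), |h'(u)| ≤
   (j (log u)^{j-1} + |s| (log u)^j)/u².   I_j := ∫_y^∞ (log u)^j u^{-2} du = (1/y) ∑_{i≤j} (j!/i!) (log y)^i
   ≤ (j!/y)(1+log y)^j, and sup_{u≥y} (log u)^j/u ≤ I_j.  Total ≤ 2r (j!/y)(1+log y)^j (2+|s|) ≤ 4 j! (1+log y)^j as
   |s| ≤ 2+|t|.
 Sum: j! |aL| ≤ (log y)^j(log y+1) + 4 j!(1+log y)^j ≤ j! (1+log y)^j (log y + 5).
 (An alternative to integrals: the sequence h(n) for n > y and induction; free choice.)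
`aL_bound_principal`: if instead |∑_{n≤B} f(n) - κ B| ≤ r with 0 ≤ κ ≤ 1, then |aL f 0 s| ≤ log y + 8 + 1/|s-1|.
 (tail: ∑_{n>Y} n^{-s} = Y^{1-s}/(s-1) + O((|s|+1)/Y) with Y = ⌊y⌋ or ⌈y⌉, plus the part with f - κ bounded as before.)
`char_principal`: for the principal character mod r: |∑_{n≤B} 1_{(n,r)=1} - (φ(r)/r) B| ≤ r.
-/

set_option autoImplicit false

namespace Pool.Agent.H91.PK

open Finset

/-! ### auxiliary functions -/

/-- zeta at 1+x -/
theorem zeta_bound {x : ℝ} (hx : 0 < x) : ∑' n : ℕ, 1 / ((n : ℝ) + 1) ^ (1 + x) ≤ 1 + 1 / x := by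
  have key : ∀ a : ℝ, 1 ≤ a → 1 / (a + 1) ^ (1 + x) ≤ 1 / x * (a ^ (-x) - (a + 1) ^ (-x)) := by
    intro a ha
    have ha0 : 0 < a := by linarith
    have h1 : 1 + x / (a + 1) ≤ ((a + 1) / a) ^ x := by
      rw [Real.rpow_def_of_pos (by positivity)]
      have h2 := Real.add_one_le_exp (Real.log ((a + 1) / a) * x)
      have h3 := Real.one_sub_inv_le_log_of_pos (show 0 < (a + 1) / a by positivity)
      have h4 : 1 - ((a + 1) / a)⁻¹ = 1 / (a + 1) := by
        field_simp; ring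
      rw [h4] at h3
      have h5 : x / (a + 1) ≤ Real.log ((a + 1) / a) * x := by
        calc x / (a + 1) = 1 / (a + 1) * x := by ring
          _ ≤ _ := mul_le_mul_of_nonneg_right h3 hx.le
      linarith
    have h2 : ((a + 1) / a) ^ x = (a + 1) ^ x * a ^ (-x) := by
      rw [Real.div_rpow (by positivity) ha0.le, Real.rpow_neg ha0.le]; rfl
    have h3 : (a + 1) ^ (-x) * ((a + 1) ^ x * a ^ (-x)) = a ^ (-x) := by
      rw [← mul_assoc, ← Real.rpow_add (by positivity)]; simp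
    have h4 : 0 < (a + 1) ^ (-x) := Real.rpow_pos_of_pos (by positivity) _
    have h5 := mul_le_mul_of_nonneg_left h1 h4.le
    rw [h2, h3] at h5
    have h6 : 1 / (a + 1) ^ (1 + x) = (a + 1) ^ (-x) / (a + 1) := by
      rw [Real.rpow_add (by positivity), Real.rpow_one, Real.rpow_neg (by positivity)]
      field_simp
    rw [h6]
    have h7 : (a + 1) ^ (-x) / (a + 1) = 1 / x * ((a + 1) ^ (-x) * (1 + x / (a + 1)) - (a + 1) ^ (-x)) := by
      field_simp
      ring
    rw [h7]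
    apply mul_le_mul_of_nonneg_left _ (by positivity)
    linarith
  have part : ∀ M : ℕ, ∑ n ∈ range (M + 1), 1 / ((n : ℝ) + 1) ^ (1 + x)
      ≤ 1 + 1 / x * (1 - ((M : ℝ) + 1) ^ (-x)) := by
    intro M
    induction M with
    | zero => simp
    | succ M ih =>
      rw [Finset.sum_range_succ]
      have h := key ((M : ℝ) + 1) (by linarith [Nat.cast_nonneg (α := ℝ) M])
      push_cast
      have : 1 + 1 / x * (1 - ((M : ℝ) + 1 + 1) ^ (-x)) = 1 + 1 / x * (1 - ((M : ℝ) + 1) ^ (-x))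
        + 1 / x * (((M : ℝ) + 1) ^ (-x) - ((M : ℝ) + 1 + 1) ^ (-x)) := by ring
      rw [this]
      exact add_le_add ih h
  apply Real.tsum_le_of_sum_range_le
  · intro n; positivity
  · intro n
    cases n with
    | zero => simp; positivity
    | succ M =>
      refine (part M).trans ?_
      have h1 : 0 < ((M : ℝ) + 1) ^ (-x) := by positivity
      have h2 : 1 / x * (1 - ((M : ℝ) + 1) ^ (-x)) ≤ 1 / x * 1 :=
        mul_le_mul_of_nonneg_left (by linarith) (by positivity)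
      linarith

end Pool.Agent.H91.PK

end

section

/-!
# VK TailA: tails of Dirichlet series by Abel summation

Proof.  `g(u) = (log u)^k u^{-σ}`, `S(u) = ∑_{n ≤ u} f n`.
`∑_{N<n≤M} f(n) g(n) = S(M) g(M) - S(N) g(N+1) + ∑_{N<n<M} S(n) (g(n) - g(n+1))` (for `M > N`), and `|g(n) - g(n+1)| ≤ sup |g'|` on `[n,n+1]`,
`|g'(u)| ≤ (k (log u)^{k-1} + σ (log u)^k) u^{-σ-1} ≤ (k+2) (1 + log(n+1))^k n^{-σ-1}`.  So everything is at most
`3 (k+2) δ (sup_n n g(n) + ∑_n (1 + log(n+1))^k n^{-σ})`.  With `a = (σ-1)/2 ≤ 1/2`: `w^k ≤ k! a^{-k} e^{a w}` for `w = 1 + log(n+1)`, so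
`(1+log(n+1))^k ≤ 4 k! (2/(σ-1))^k n^{(σ-1)/2}` and `∑_n n^{-1-(σ-1)/2} ≤ 1 + 2/(σ-1) ≤ 3/(σ-1)`.
-/

set_option autoImplicit false

namespace Pool.Agent.H97.VK

open Finset

/-- the weight -/
private noncomputable def tailA_g (k : ℕ) (σ : ℝ) (n : ℕ) : ℝ := Real.log n ^ k * (n : ℝ) ^ (-σ)

private lemma tailA_diff (k : ℕ) (σ : ℝ) (h1 : 1 < σ) (h2 : σ ≤ 2) (n : ℕ) (hn : 1 ≤ n) :
    |tailA_g k σ n - tailA_g k σ (n + 1)| ≤
      (k + 2) * ((1 + Real.log (n + 1)) ^ k * (n : ℝ) ^ (-σ - 1)) := by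
  have hn0 : (0 : ℝ) < n := by exact_mod_cast (show 0 < n by omega)
  have hn1 : (1 : ℝ) ≤ n := by exact_mod_cast hn
  have hder : ∀ u ∈ Set.Icc (n : ℝ) (n + 1), HasDerivWithinAt
      (fun u : ℝ => Real.log u ^ k * u ^ (-σ))
      ((k : ℝ) * Real.log u ^ (k - 1) * u⁻¹ * u ^ (-σ) + Real.log u ^ k * (-σ * u ^ (-σ - 1)))
      (Set.Icc (n : ℝ) (n + 1)) u := by
    intro u hu
    have hu0 : u ≠ 0 := by
      have := hu.1
      linarith
    exact (((Real.hasDerivAt_log hu0).pow k).mul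
      (Real.hasDerivAt_rpow_const (Or.inl hu0))).hasDerivWithinAt
  have hbd : ∀ u ∈ Set.Icc (n : ℝ) (n + 1),
      ‖(k : ℝ) * Real.log u ^ (k - 1) * u⁻¹ * u ^ (-σ) +
        Real.log u ^ k * (-σ * u ^ (-σ - 1))‖ ≤
      (k + 2) * ((1 + Real.log (n + 1)) ^ k * (n : ℝ) ^ (-σ - 1)) := by
    intro u hu
    have hu0 : 0 < u := lt_of_lt_of_le hn0 hu.1
    have hu1 : 1 ≤ u := hn1.trans hu.1
    have hlu : 0 ≤ Real.log u := Real.log_nonneg hu1
    have hlw : Real.log u ≤ 1 + Real.log (n + 1) := by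
      have := Real.log_le_log hu0 hu.2
      linarith
    have hw1 : 1 ≤ 1 + Real.log ((n : ℝ) + 1) := by
      have : 0 ≤ Real.log ((n : ℝ) + 1) := Real.log_nonneg (by linarith)
      linarith
    have hinv : u⁻¹ * u ^ (-σ) = u ^ (-σ - 1) := by
      rw [← Real.rpow_neg_one u, ← Real.rpow_add hu0]
      congr 1
      ring
    have hun : u ^ (-σ - 1) ≤ (n : ℝ) ^ (-σ - 1) :=
      Real.rpow_le_rpow_of_nonpos hn0 hu.1 (by linarith)
    have hun0 : 0 ≤ u ^ (-σ - 1) := by positivity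
    have hp1 : Real.log u ^ (k - 1) ≤ (1 + Real.log ((n : ℝ) + 1)) ^ k :=
      (pow_le_pow_left₀ hlu hlw _).trans (pow_le_pow_right₀ hw1 (Nat.sub_le k 1))
    have hp2 : Real.log u ^ k ≤ (1 + Real.log ((n : ℝ) + 1)) ^ k := pow_le_pow_left₀ hlu hlw _
    have hlp1 : 0 ≤ Real.log u ^ (k - 1) := pow_nonneg hlu _
    have hlp2 : 0 ≤ Real.log u ^ k := pow_nonneg hlu _
    have hk : (0 : ℝ) ≤ k := Nat.cast_nonneg k
    have hm1 : Real.log u ^ (k - 1) * u ^ (-σ - 1) ≤
        (1 + Real.log ((n : ℝ) + 1)) ^ k * (n : ℝ) ^ (-σ - 1) :=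
      mul_le_mul hp1 hun hun0 (by positivity)
    have hm2 : Real.log u ^ k * u ^ (-σ - 1) ≤
        (1 + Real.log ((n : ℝ) + 1)) ^ k * (n : ℝ) ^ (-σ - 1) :=
      mul_le_mul hp2 hun hun0 (by positivity)
    have e1 : (k : ℝ) * Real.log u ^ (k - 1) * u⁻¹ * u ^ (-σ) +
        Real.log u ^ k * (-σ * u ^ (-σ - 1)) =
        k * (Real.log u ^ (k - 1) * u ^ (-σ - 1)) - σ * (Real.log u ^ k * u ^ (-σ - 1)) := by
      rw [← hinv]
      ring
    rw [e1, Real.norm_eq_abs, abs_le]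
    have hA := mul_le_mul_of_nonneg_left hm1 hk
    have hB : σ * (Real.log u ^ k * u ^ (-σ - 1)) ≤
        2 * ((1 + Real.log ((n : ℝ) + 1)) ^ k * (n : ℝ) ^ (-σ - 1)) :=
      mul_le_mul h2 hm2 (by positivity) (by norm_num)
    have hA0 : 0 ≤ (k : ℝ) * (Real.log u ^ (k - 1) * u ^ (-σ - 1)) := by positivity
    have hB0 : 0 ≤ σ * (Real.log u ^ k * u ^ (-σ - 1)) := by positivity
    have hX : 0 ≤ (1 + Real.log ((n : ℝ) + 1)) ^ k * (n : ℝ) ^ (-σ - 1) := by positivity
    have hkX : 0 ≤ (k : ℝ) * ((1 + Real.log ((n : ℝ) + 1)) ^ k * (n : ℝ) ^ (-σ - 1)) := by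
      positivity
    constructor
    · linarith
    · linarith
  have h := Convex.norm_image_sub_le_of_norm_hasDerivWithin_le hder hbd (convex_Icc _ _)
    (Set.right_mem_Icc.2 (by linarith)) (Set.left_mem_Icc.2 (by linarith))
  have e2 : ‖(n : ℝ) - ((n : ℝ) + 1)‖ = 1 := by
    rw [show (n : ℝ) - ((n : ℝ) + 1) = -1 by ring]
    simp
  rw [e2, mul_one, Real.norm_eq_abs] at h
  unfold tailA_g
  push_cast
  exact h

private lemma tailA_sum (a : ℝ) (ha : 0 < a) (ha1 : a ≤ 1) (M : ℕ) :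
    ∑ n ∈ Icc 1 M, (n : ℝ) ^ (-1 - a) ≤ 1 + 1 / a := by
  have key : ∀ n : ℕ, 1 ≤ n →
      a * ((n + 1 : ℕ) : ℝ) ^ (-1 - a) ≤ (n : ℝ) ^ (-a) - ((n + 1 : ℕ) : ℝ) ^ (-a) := by
    intro n hn
    have hn0 : (0 : ℝ) < n := by exact_mod_cast (show 0 < n by omega)
    have hm0 : (0 : ℝ) < (n : ℝ) + 1 := by linarith
    push_cast
    set m : ℝ := (n : ℝ) + 1 with hm
    have h1 : (n / m) ^ a ≤ 1 - a / m := by
      have h := rpow_one_add_le_one_add_mul_self (s := -(1 / m)) (by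
        rw [neg_le_neg_iff, div_le_one hm0]
        linarith) ha.le ha1
      have e1 : 1 + -(1 / m) = n / m := by
        field_simp
        rw [hm]
        ring
      rw [e1] at h
      refine h.trans (le_of_eq ?_)
      ring
    have hnm : 0 < (n : ℝ) / m := by positivity
    have hx0 : 0 < ((n : ℝ) / m) ^ a := Real.rpow_pos_of_pos hnm a
    have ham : 0 ≤ a / m := by positivity
    have h2 : 1 + a / m ≤ (n / m) ^ (-a) := by
      rw [Real.rpow_neg hnm.le, ← one_div, le_div_iff₀ hx0]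
      nlinarith
    have h3 : (n : ℝ) ^ (-a) = (n / m) ^ (-a) * m ^ (-a) := by
      rw [← Real.mul_rpow hnm.le hm0.le]
      congr 1
      field_simp
    have h4 : m ^ (-1 - a) = m ^ (-a) / m := by
      rw [show (-1 - a) = -a - 1 by ring, Real.rpow_sub hm0, Real.rpow_one]
    have h5 : 0 ≤ m ^ (-a) := by positivity
    rw [h3, h4]
    have h6 := mul_le_mul_of_nonneg_right h2 h5
    have e3 : a * (m ^ (-a) / m) = a / m * m ^ (-a) := by ring
    rw [e3]
    linarith
  have hind : ∀ M : ℕ, 1 ≤ M → a * ∑ n ∈ Icc 1 M, (n : ℝ) ^ (-1 - a) ≤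
      a + 1 - (M : ℝ) ^ (-a) := by
    intro M hM
    induction M, hM using Nat.le_induction with
    | base => simp
    | succ M hM ih =>
      rw [sum_Icc_succ_top (by omega)]
      have := key M hM
      rw [mul_add]
      linarith
  rcases Nat.eq_zero_or_pos M with rfl | hM
  · simp
    positivity
  · have h := hind M hM
    have h0 : 0 ≤ (M : ℝ) ^ (-a) := by positivity
    have e : 1 + 1 / a = (a + 1) / a := by field_simp
    rw [e, le_div_iff₀ ha, mul_comm]
    linarith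

private lemma tailA_pow (k : ℕ) (a w : ℝ) (ha : 0 < a) (hw : 0 ≤ w) :
    w ^ k ≤ (k.factorial : ℝ) * (1 / a) ^ k * Real.exp (a * w) := by
  have h := Real.pow_div_factorial_le_exp (a * w) (by positivity) k
  have hf : (0 : ℝ) < k.factorial := by exact_mod_cast Nat.factorial_pos k
  rw [div_le_iff₀ hf, mul_pow] at h
  have e : w ^ k = (1 / a) ^ k * (a ^ k * w ^ k) := by
    rw [← mul_assoc, ← mul_pow, one_div, inv_mul_cancel₀ ha.ne', one_pow, one_mul]
  rw [e]
  calc (1 / a) ^ k * (a ^ k * w ^ k) ≤ (1 / a) ^ k * (Real.exp (a * w) * k.factorial) :=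
        mul_le_mul_of_nonneg_left h (by positivity)
    _ = _ := by ring

private lemma tailA_abel (f : ℕ → ℂ) (g : ℕ → ℝ) (N M : ℕ) (hM : N ≤ M) :
    ∑ n ∈ Ioc N M, f n * (g n : ℂ) = (∑ n ∈ Ioc N M, f n) * (g M : ℂ) +
      ∑ n ∈ Ico N M, (∑ j ∈ Ioc N n, f j) * ((g n - g (n + 1) : ℝ) : ℂ) := by
  induction M, hM using Nat.le_induction with
  | base => simp
  | succ M hM ih =>
    rw [sum_Ioc_succ_top (by omega), sum_Ico_succ_top (by omega), sum_Ioc_succ_top (by omega), ih]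
    push_cast
    ring

theorem tail_abel (k : ℕ) : ∃ C : ℝ, 1 ≤ C ∧ ∀ (f : ℕ → ℂ) (δ σ : ℝ) (N : ℕ), 0 ≤ δ → 1 < σ → σ ≤ 2 → 1 ≤ N →
    (∀ u : ℕ, N ≤ u → ‖∑ n ∈ Icc 1 u, f n‖ ≤ δ * u) → ∀ M : ℕ, N ≤ M →
    ‖∑ n ∈ Ioc N M, f n * ((Real.log n ^ k * (n : ℝ) ^ (-σ) : ℝ) : ℂ)‖ ≤ C * δ * (1 / (σ - 1)) ^ (k + 1) := by
  have hf1 : (1 : ℝ) ≤ k.factorial := by exact_mod_cast Nat.factorial_pos k
  have hk0 : (0 : ℝ) ≤ k := Nat.cast_nonneg k
  have h2k : (1 : ℝ) ≤ 2 ^ k := one_le_pow₀ (by norm_num)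
  refine ⟨(k.factorial : ℝ) * 2 ^ k * (2 + 24 * (k + 2)), ?_, ?_⟩
  · have h1 : (1 : ℝ) ≤ k.factorial * 2 ^ k := one_le_mul_of_one_le_of_one_le hf1 h2k
    nlinarith
  intro f δ σ N hδ h1 h2 hN hS M hM
  set a : ℝ := (σ - 1) / 2 with ha
  have ha0 : 0 < a := by rw [ha]; linarith
  have ha1 : a ≤ 1 / 2 := by rw [ha]; linarith
  set X : ℝ := 1 / (σ - 1) with hX
  have hX1 : 1 ≤ X := by
    rw [hX, le_div_iff₀ (by linarith)]
    linarith
  have hinva : 1 / a = 2 * X := by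
    rw [ha, hX]
    field_simp
  have hinvak : (1 / a) ^ k = 2 ^ k * X ^ k := by rw [hinva, mul_pow]
  have hfg : ∀ n : ℕ, ((Real.log n ^ k * (n : ℝ) ^ (-σ) : ℝ) : ℂ) = (tailA_g k σ n : ℂ) :=
    fun n => rfl
  simp only [hfg]
  rw [tailA_abel f (tailA_g k σ) N M hM]
  have hT : ∀ n : ℕ, N ≤ n → ‖∑ j ∈ Ioc N n, f j‖ ≤ 2 * δ * n := by
    intro n hn
    have e : ∑ j ∈ Ioc N n, f j = ∑ j ∈ Icc 1 n, f j - ∑ j ∈ Icc 1 N, f j := by
      have h3 : Icc 1 n = Icc 1 N ∪ Ioc N n := by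
        ext j
        simp only [mem_Icc, mem_union, mem_Ioc]
        omega
      have h4 : Disjoint (Icc 1 N) (Ioc N n) := by
        rw [disjoint_left]
        intro j hj hj'
        rw [mem_Icc] at hj
        rw [mem_Ioc] at hj'
        omega
      rw [h3, sum_union h4]
      ring
    rw [e]
    have h5 := norm_sub_le (∑ j ∈ Icc 1 n, f j) (∑ j ∈ Icc 1 N, f j)
    have h6 := hS n hn
    have h7 := hS N le_rfl
    have h8 : δ * N ≤ δ * n := mul_le_mul_of_nonneg_left (by exact_mod_cast hn) hδ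
    linarith
  have hgM : (M : ℝ) * |tailA_g k σ M| ≤ k.factorial * (2 ^ k * X ^ k) := by
    have hM1 : 1 ≤ M := hN.trans hM
    have hM0 : (0 : ℝ) < M := by exact_mod_cast (show 0 < M by omega)
    have hM1' : (1 : ℝ) ≤ M := by exact_mod_cast hM1
    have hlM : 0 ≤ Real.log M := Real.log_nonneg hM1'
    have h3 := tailA_pow k a (Real.log M) ha0 hlM
    have e1 : Real.exp (a * Real.log M) = (M : ℝ) ^ a := by
      rw [Real.rpow_def_of_pos hM0, mul_comm]
    rw [e1, hinvak] at h3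
    unfold tailA_g
    rw [abs_of_nonneg (by positivity)]
    have h4 : (M : ℝ) ^ a * (M : ℝ) ^ (-σ) * M ≤ 1 := by
      have : (M : ℝ) ^ a * (M : ℝ) ^ (-σ) * M = (M : ℝ) ^ (-a) := by
        rw [← Real.rpow_add hM0]
        nth_rewrite 2 [← Real.rpow_one (M : ℝ)]
        rw [← Real.rpow_add hM0]
        congr 1
        rw [ha]
        ring
      rw [this]
      exact Real.rpow_le_one_of_one_le_of_nonpos hM1' (by linarith)
    have h5 : 0 ≤ (M : ℝ) ^ (-σ) * M := by positivity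
    calc (M : ℝ) * (Real.log M ^ k * (M : ℝ) ^ (-σ)) = Real.log M ^ k * ((M : ℝ) ^ (-σ) * M) := by
          ring
      _ ≤ (k.factorial * (2 ^ k * X ^ k) * (M : ℝ) ^ a) * ((M : ℝ) ^ (-σ) * M) :=
          mul_le_mul_of_nonneg_right h3 h5
      _ = (k.factorial * (2 ^ k * X ^ k)) * ((M : ℝ) ^ a * (M : ℝ) ^ (-σ) * M) := by ring
      _ ≤ (k.factorial * (2 ^ k * X ^ k)) * 1 := mul_le_mul_of_nonneg_left h4 (by positivity)
      _ = _ := mul_one _
  have hterm : ∀ n ∈ Ico N M, ‖(∑ j ∈ Ioc N n, f j) * ((tailA_g k σ n - tailA_g k σ (n + 1) : ℝ) : ℂ)‖ ≤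
      8 * δ * (k + 2) * (k.factorial * (2 ^ k * X ^ k)) * (n : ℝ) ^ (-1 - a) := by
    intro n hn
    rw [mem_Ico] at hn
    have hn1 : 1 ≤ n := hN.trans hn.1
    have hn0 : (0 : ℝ) < n := by exact_mod_cast (show 0 < n by omega)
    have hn1' : (1 : ℝ) ≤ n := by exact_mod_cast hn1
    have hd := tailA_diff k σ h1 h2 n hn1
    have hw : 0 ≤ 1 + Real.log ((n : ℝ) + 1) := by
      have : 0 ≤ Real.log ((n : ℝ) + 1) := Real.log_nonneg (by linarith)
      linarith
    have h3 := tailA_pow k a (1 + Real.log ((n : ℝ) + 1)) ha0 hw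
    rw [hinvak] at h3
    have h4 : Real.exp (a * (1 + Real.log ((n : ℝ) + 1))) ≤ 4 * (n : ℝ) ^ a := by
      have e1 : a * (1 + Real.log ((n : ℝ) + 1)) = a + a * Real.log ((n : ℝ) + 1) := by ring
      have e2 : Real.exp (a * Real.log ((n : ℝ) + 1)) = ((n : ℝ) + 1) ^ a := by
        rw [Real.rpow_def_of_pos (by linarith), mul_comm]
      rw [e1, Real.exp_add, e2]
      have h5 : Real.exp a ≤ 2 := by
        have h6 : Real.exp a ≤ Real.exp (1 / 2) := Real.exp_le_exp.2 ha1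
        have h7 : Real.exp (1 / 2) ^ 2 = Real.exp 1 := by
          rw [← Real.exp_nat_mul]
          norm_num
        have h8 := Real.exp_one_lt_d9
        have h9 : 0 < Real.exp (1 / 2) := Real.exp_pos _
        nlinarith
      have h6 : ((n : ℝ) + 1) ^ a ≤ 2 * (n : ℝ) ^ a := by
        calc ((n : ℝ) + 1) ^ a ≤ (2 * (n : ℝ)) ^ a :=
              Real.rpow_le_rpow (by linarith) (by linarith) ha0.le
          _ = 2 ^ a * (n : ℝ) ^ a := Real.mul_rpow (by norm_num) hn0.le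
          _ ≤ 2 * (n : ℝ) ^ a := by
              refine mul_le_mul_of_nonneg_right ?_ (by positivity)
              calc (2 : ℝ) ^ a ≤ (2 : ℝ) ^ (1 : ℝ) :=
                    Real.rpow_le_rpow_of_exponent_le (by norm_num) (by linarith)
                _ = 2 := Real.rpow_one 2
      calc Real.exp a * ((n : ℝ) + 1) ^ a ≤ 2 * (2 * (n : ℝ) ^ a) :=
            mul_le_mul h5 h6 (by positivity) (by norm_num)
        _ = 4 * (n : ℝ) ^ a := by ring
    have h5 : (1 + Real.log ((n : ℝ) + 1)) ^ k ≤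
        k.factorial * (2 ^ k * X ^ k) * (4 * (n : ℝ) ^ a) :=
      h3.trans (mul_le_mul_of_nonneg_left h4 (by positivity))
    have h6 : (n : ℝ) ^ a * (n : ℝ) ^ (-σ - 1) * n = (n : ℝ) ^ (-1 - a) := by
      rw [← Real.rpow_add hn0]
      nth_rewrite 2 [← Real.rpow_one (n : ℝ)]
      rw [← Real.rpow_add hn0]
      congr 1
      rw [ha]
      ring
    rw [norm_mul, Complex.norm_real, Real.norm_eq_abs]
    have hp : 0 ≤ (n : ℝ) ^ (-σ - 1) := by positivity
    calc ‖∑ j ∈ Ioc N n, f j‖ * |tailA_g k σ n - tailA_g k σ (n + 1)|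
        ≤ (2 * δ * n) * ((k + 2) * ((1 + Real.log (n + 1)) ^ k * (n : ℝ) ^ (-σ - 1))) :=
          mul_le_mul (hT n hn.1) hd (abs_nonneg _) (by positivity)
      _ ≤ (2 * δ * n) * ((k + 2) * ((k.factorial * (2 ^ k * X ^ k) * (4 * (n : ℝ) ^ a)) *
            (n : ℝ) ^ (-σ - 1))) := by
          refine mul_le_mul_of_nonneg_left ?_ (by positivity)
          refine mul_le_mul_of_nonneg_left ?_ (by positivity)
          exact mul_le_mul_of_nonneg_right h5 hp
      _ = 8 * δ * (k + 2) * (k.factorial * (2 ^ k * X ^ k)) *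
            ((n : ℝ) ^ a * (n : ℝ) ^ (-σ - 1) * n) := by ring
      _ = _ := by rw [h6]
  have hsum : ‖∑ n ∈ Ico N M, (∑ j ∈ Ioc N n, f j) *
      ((tailA_g k σ n - tailA_g k σ (n + 1) : ℝ) : ℂ)‖ ≤
      8 * δ * (k + 2) * (k.factorial * (2 ^ k * X ^ k)) * (3 * X) := by
    refine (norm_sum_le _ _).trans ((sum_le_sum hterm).trans ?_)
    rw [← mul_sum]
    refine mul_le_mul_of_nonneg_left ?_ (by positivity)
    have h3 : ∑ n ∈ Ico N M, (n : ℝ) ^ (-1 - a) ≤ ∑ n ∈ Icc 1 M, (n : ℝ) ^ (-1 - a) := by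
      refine sum_le_sum_of_subset_of_nonneg ?_ fun _ _ _ => by positivity
      intro n hn
      rw [mem_Ico] at hn
      rw [mem_Icc]
      omega
    refine h3.trans ((tailA_sum a ha0 (by linarith) M).trans ?_)
    rw [hinva]
    linarith
  have hfirst : ‖(∑ n ∈ Ioc N M, f n) * (tailA_g k σ M : ℂ)‖ ≤
      2 * δ * (k.factorial * (2 ^ k * X ^ k)) := by
    rw [norm_mul, Complex.norm_real, Real.norm_eq_abs]
    calc ‖∑ n ∈ Ioc N M, f n‖ * |tailA_g k σ M| ≤ (2 * δ * M) * |tailA_g k σ M| :=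
          mul_le_mul_of_nonneg_right (hT M hM) (abs_nonneg _)
      _ = 2 * δ * (M * |tailA_g k σ M|) := by ring
      _ ≤ _ := mul_le_mul_of_nonneg_left hgM (by positivity)
  refine (norm_add_le _ _).trans ((add_le_add hfirst hsum).trans ?_)
  have hD : 0 ≤ δ * (k.factorial * (2 ^ k * X ^ k)) := by positivity
  have e1 : (k.factorial : ℝ) * 2 ^ k * (2 + 24 * (k + 2)) * δ * X ^ (k + 1) =
      δ * (k.factorial * (2 ^ k * X ^ k)) * (2 * X + 24 * (k + 2) * X) := by
    rw [pow_succ]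
    ring
  have e2 : 2 * δ * (k.factorial * (2 ^ k * X ^ k)) +
      8 * δ * (k + 2) * (k.factorial * (2 ^ k * X ^ k)) * (3 * X) =
      δ * (k.factorial * (2 ^ k * X ^ k)) * (2 + 24 * (k + 2) * X) := by
    ring
  rw [e1, e2]
  refine mul_le_mul_of_nonneg_left ?_ hD
  linarith

end Pool.Agent.H97.VK

end

section

/-!
# LV BoxDec: decomposition of a bilinear sum over `m n ≤ y` into boxes

Define `v 0 = U`, `v (j+1) = v j + v j / q` (natural division).  As `v j ≥ U ≥ 2 q`: `v j / q ≥ 2`, `v` is strictly increasing,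
`q * v (j+1) ≤ (q+1) * v j`, and `v (j+1) ≥ v j + v j/q - 1 ≥ v j (1 + 1/(2q))` (real division; `v j ≥ 2q`).  Let `J` be the
least `j` with `y ≤ v j`; then `v (J-1) < y` if `J ≥ 1`, `(1 + 1/(2q))^{J-1} ≤ y` (as `U ≥ 1`), and
`log(1 + 1/(2q)) ≥ 1/(4q)`, so `J ≤ 4 q log y + 1`.
`Ioc U y ⊆` the disjoint union of the `Ioc (v j) (v (j+1))`, `j < J`; the `m` with `m > y` give nothing
(`Ioc U (y/m) = ∅`, `y / m = 0`).  For `m ∈ Ioc (v j) (v (j+1))`: `y / v (j+1) ≤ y / m`, so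
`Ioc U (y/m) = Ioc U (y / v (j+1)) ∪ Ioc (max U (y / v (j+1))) (y/m)`.  The second parts are collected according to `k = m n`:
`e k = ∑ lam m * cc (k/m)` over the `m ∣ k` with `m ∈ Ioc (v j) (v (j+1))` for some `j < J`, `U < k/m`, `y / v (j+1) < k/m`, (and `k ≤ y`).
If `n > y / v (j+1)` then `n * v (j+1) > y`, so `k q = m n q ≥ n q (v j + 1) ... `: precisely
`k (q+1) = m n (q+1) > n v j (q+1) ≥ n q v (j+1) > ... ≥ q y`, i.e. `k (q+1) > q y`, so `k > y - y/(q+1)` and
`k ∉ Ioc (y - y/q - 1) y` is impossible for such `k`.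
-/

set_option autoImplicit false

namespace Pool.Agent.H80.LV

open Finset

/-- the box ends -/
private def bdv (U q : ℕ) : ℕ → ℕ
  | 0 => U
  | (j + 1) => bdv U q j + bdv U q j / q

private lemma bdv_zero (U q : ℕ) : bdv U q 0 = U := rfl

private lemma bdv_succ (U q j : ℕ) : bdv U q (j + 1) = bdv U q j + bdv U q j / q := rfl

private lemma bdv_ge (U q j : ℕ) : U ≤ bdv U q j := by
  induction j with
  | zero => exact le_refl _
  | succ j ih =>
    rw [bdv_succ]
    exact le_trans ih (Nat.le_add_right _ _)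

private lemma bdv_lt (U q j : ℕ) (hq : 1 ≤ q) (hU : 2 * q ≤ U) : bdv U q j < bdv U q (j + 1) := by
  have h1 := bdv_ge U q j
  have h2 : 1 ≤ bdv U q j / q := by
    rw [Nat.one_le_div_iff (by omega)]
    omega
  rw [bdv_succ]
  omega

private lemma bdv_mono (U q : ℕ) (hq : 1 ≤ q) (hU : 2 * q ≤ U) : StrictMono (bdv U q) :=
  strictMono_nat_of_lt_succ (fun j => bdv_lt U q j hq hU)

private lemma bdv_q (U q j : ℕ) : q * bdv U q (j + 1) ≤ (q + 1) * bdv U q j := by
  rw [bdv_succ]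
  have h := Nat.mul_div_le (bdv U q j) q
  nlinarith

private lemma bdv_grow (U q j : ℕ) (hq : 1 ≤ q) (hU : 2 * q ≤ U) :
    (1 + 1 / (2 * (q : ℝ))) ^ j ≤ (bdv U q j : ℝ) := by
  induction j with
  | zero =>
    rw [bdv_zero, pow_zero]
    have : 1 ≤ U := by omega
    exact_mod_cast this
  | succ j ih =>
    have hqp : (0 : ℝ) < q := by exact_mod_cast hq
    have h1 := bdv_ge U q j
    have h2 : 2 * (q : ℝ) ≤ (bdv U q j : ℝ) := by exact_mod_cast le_trans hU h1
    have h3 : bdv U q j < q * (bdv U q j / q) + q := by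
      have h4 := Nat.div_add_mod (bdv U q j) q
      have h5 := Nat.mod_lt (bdv U q j) (show 0 < q by omega)
      omega
    have h6 : (bdv U q j : ℝ) < q * ((bdv U q j / q : ℕ) : ℝ) + q := by exact_mod_cast h3
    rw [pow_succ, bdv_succ]
    push_cast
    have h7 : (bdv U q j : ℝ) * (1 / (2 * (q : ℝ))) ≤ ((bdv U q j / q : ℕ) : ℝ) := by
      rw [mul_one_div, div_le_iff₀ (by positivity)]
      nlinarith
    have h8 : (1 + 1 / (2 * (q : ℝ))) ^ j * (1 + 1 / (2 * (q : ℝ)))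
        ≤ (bdv U q j : ℝ) * (1 + 1 / (2 * (q : ℝ))) :=
      mul_le_mul_of_nonneg_right ih (by positivity)
    nlinarith

private lemma bdv_J (y U q J : ℕ) (hq : 1 ≤ q) (hU : 2 * q ≤ U) (hUy : U ≤ y)
    (hJ : ∀ j, j < J → bdv U q j < y) : (J : ℝ) ≤ 4 * q * Real.log y + 1 := by
  have hqp : (1 : ℝ) ≤ q := by exact_mod_cast hq
  have hy : 1 ≤ y := by omega
  have hyp : (1 : ℝ) ≤ y := by exact_mod_cast hy
  have hlog : 0 ≤ Real.log y := Real.log_nonneg hyp
  rcases Nat.eq_zero_or_pos J with h0 | h0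
  · subst h0
    push_cast
    positivity
  · have h1 := hJ (J - 1) (by omega)
    have h2 := bdv_grow U q (J - 1) hq hU
    have h3 : (1 + 1 / (2 * (q : ℝ))) ^ (J - 1) ≤ (y : ℝ) :=
      le_trans h2 (by exact_mod_cast h1.le)
    have h4 : ((J - 1 : ℕ) : ℝ) * Real.log (1 + 1 / (2 * (q : ℝ))) ≤ Real.log y := by
      rw [← Real.log_pow]
      exact Real.log_le_log (by positivity) h3
    have h5 : 1 / (4 * (q : ℝ)) ≤ Real.log (1 + 1 / (2 * (q : ℝ))) := by
      have h6 := Real.one_sub_inv_le_log_of_pos (show (0 : ℝ) < 1 + 1 / (2 * (q : ℝ)) by positivity)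
      refine le_trans ?_ h6
      have h7 : 1 - (1 + 1 / (2 * (q : ℝ)))⁻¹ = 1 / (2 * q + 1) := by
        field_simp
        ring
      rw [h7]
      apply one_div_le_one_div_of_le (by positivity)
      linarith
    have h8 : ((J - 1 : ℕ) : ℝ) = (J : ℝ) - 1 := by
      rw [Nat.cast_sub (by omega)]
      push_cast
      ring
    have h9 : ((J - 1 : ℕ) : ℝ) * (1 / (4 * (q : ℝ))) ≤ Real.log y :=
      le_trans (mul_le_mul_of_nonneg_left h5 (by positivity)) h4
    rw [mul_one_div, div_le_iff₀ (by positivity), h8] at h9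
    linarith

private lemma bd_sum {R : Type*} [AddCommMonoid R] (v : ℕ → ℕ) (hv : Monotone v) (J : ℕ) (F : ℕ → R) :
    ∑ j ∈ range J, ∑ m ∈ Ioc (v j) (v (j + 1)), F m = ∑ m ∈ Ioc (v 0) (v J), F m := by
  induction J with
  | zero => simp
  | succ J ih =>
    rw [sum_range_succ, ih]
    exact Finset.sum_Ioc_consecutive F (hv (Nat.zero_le J)) (hv (Nat.le_succ J))

private lemma bd_one (S : Finset ℕ) (m k : ℕ) (hm : 1 ≤ m) (hS : ∀ n ∈ S, 1 ≤ n) (a : ℝ) (c : ℕ → ℝ) :
    |∑ n ∈ S, (if m * n = k then a * c n else 0)| ≤ if m ∈ k.divisors then |a| * |c (k / m)| else 0 := by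
  by_cases hex : ∃ n ∈ S, m * n = k
  · obtain ⟨n, hn, hk⟩ := hex
    have h1 : ∑ n' ∈ S, (if m * n' = k then a * c n' else 0) = a * c n := by
      rw [Finset.sum_eq_single_of_mem n hn]
      · rw [if_pos hk]
      · intro b _ hbn
        rw [if_neg]
        intro h
        apply hbn
        exact Nat.eq_of_mul_eq_mul_left (by omega) (h.trans hk.symm)
    have hn1 := hS n hn
    have hmk : m ∈ k.divisors := by
      rw [Nat.mem_divisors]
      refine ⟨⟨n, hk.symm⟩, ?_⟩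
      rw [← hk]
      exact Nat.mul_ne_zero (by omega) (by omega)
    have hkm : k / m = n := by
      rw [← hk]
      exact Nat.mul_div_cancel_left n (by omega)
    rw [h1, if_pos hmk, hkm, abs_mul]
  · have h1 : ∑ n' ∈ S, (if m * n' = k then a * c n' else 0) = 0 := by
      apply Finset.sum_eq_zero
      intro n hn
      rw [if_neg]
      intro h
      exact hex ⟨n, hn, h⟩
    rw [h1, abs_zero]
    split_ifs
    · positivity
    · exact le_refl _

theorem box_dec (y U q : ℕ) (hq : 1 ≤ q) (hU : 2 * q ≤ U) (hUy : U ≤ y) (lam cc : ℕ → ℝ) :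
    ∃ (J : ℕ) (v : ℕ → ℕ) (e : ℕ → ℝ), (J : ℝ) ≤ 4 * q * Real.log y + 1 ∧
      (∀ j, U ≤ v j) ∧ (∀ j, v j < v (j + 1)) ∧ (∀ j, j < J → v (j + 1) ≤ 2 * y) ∧
      (∀ k, |e k| ≤ ∑ m ∈ k.divisors, |lam m| * |cc (k / m)|) ∧
      (∀ k, k ∉ Ioc (y - y / q - 1) y → e k = 0) ∧
      ∀ g : ℕ → ℂ, ∑ m ∈ Ioc U y, ((lam m : ℝ) : ℂ) *
          ∑ n ∈ Ioc U (y / m), ((cc n : ℝ) : ℂ) * g (m * n)
        = ∑ j ∈ range J, ∑ m ∈ Ioc (v j) (v (j + 1)), ((lam m : ℝ) : ℂ) *
            ∑ n ∈ Ioc U (y / v (j + 1)), ((cc n : ℝ) : ℂ) * g (m * n)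
          + ∑ k ∈ Icc 1 y, ((e k : ℝ) : ℂ) * g k := by
  classical
  have hsm := bdv_mono U q hq hU
  have hex : ∃ j, y ≤ bdv U q j := ⟨y, hsm.le_apply⟩
  set J := Nat.find hex with hJdef
  have hJ1 : y ≤ bdv U q J := Nat.find_spec hex
  have hJ2 : ∀ j, j < J → bdv U q j < y := by
    intro j hj
    have := Nat.find_min hex hj
    omega
  set v := bdv U q with hvdef
  have hU1 : 1 ≤ U := by omega
  have hvpos : ∀ j, 1 ≤ v j := fun j => le_trans hU1 (bdv_ge U q j)
  refine ⟨J, v, fun k => ∑ j ∈ range J, ∑ m ∈ Ioc (v j) (v (j + 1)),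
    ∑ n ∈ Ioc (max U (y / v (j + 1))) (y / m), (if m * n = k then lam m * cc n else 0),
    bdv_J y U q J hq hU hUy hJ2, bdv_ge U q, fun j => bdv_lt U q j hq hU, ?_, ?_, ?_, ?_⟩
  · intro j hj
    have h1 := hJ2 j hj
    have h2 : v (j + 1) = v j + v j / q := bdv_succ U q j
    have h3 : v j / q ≤ v j := Nat.div_le_self _ _
    rw [h2]
    omega
  · intro k
    have hterm : ∀ j m, m ∈ Ioc (v j) (v (j + 1)) →
        |∑ n ∈ Ioc (max U (y / v (j + 1))) (y / m), (if m * n = k then lam m * cc n else 0)|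
          ≤ if m ∈ k.divisors then |lam m| * |cc (k / m)| else 0 := by
      intro j m hm
      rw [mem_Ioc] at hm
      apply bd_one _ _ _ (by omega)
      intro n hn
      rw [mem_Ioc] at hn
      omega
    calc |∑ j ∈ range J, ∑ m ∈ Ioc (v j) (v (j + 1)),
            ∑ n ∈ Ioc (max U (y / v (j + 1))) (y / m), (if m * n = k then lam m * cc n else 0)|
        ≤ ∑ j ∈ range J, ∑ m ∈ Ioc (v j) (v (j + 1)),
            (if m ∈ k.divisors then |lam m| * |cc (k / m)| else 0) := by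
          refine le_trans (Finset.abs_sum_le_sum_abs _ _) (Finset.sum_le_sum fun j _ => ?_)
          exact le_trans (Finset.abs_sum_le_sum_abs _ _)
            (Finset.sum_le_sum fun m hm => hterm j m hm)
      _ = ∑ m ∈ Ioc (v 0) (v J), (if m ∈ k.divisors then |lam m| * |cc (k / m)| else 0) :=
          bd_sum v hsm.monotone J _
      _ = ∑ m ∈ (Ioc (v 0) (v J)).filter (fun m => m ∈ k.divisors), |lam m| * |cc (k / m)| := by
          rw [Finset.sum_filter]
      _ ≤ ∑ m ∈ k.divisors, |lam m| * |cc (k / m)| := by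
          apply Finset.sum_le_sum_of_subset_of_nonneg
          · intro m hm
            exact (Finset.mem_filter.1 hm).2
          · intro m _ _
            positivity
  · intro k hk
    apply Finset.sum_eq_zero
    intro j _
    apply Finset.sum_eq_zero
    intro m hm
    apply Finset.sum_eq_zero
    intro n hn
    rw [if_neg]
    intro hmn
    apply hk
    rw [mem_Ioc] at hm hn ⊢
    have hvj := hvpos (j + 1)
    have hvj0 := hvpos j
    have hm1 : 1 ≤ m := by omega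
    have hn1 : 1 ≤ n := by omega
    have hky : k ≤ y := by
      rw [← hmn, mul_comm]
      exact (Nat.le_div_iff_mul_le (by omega)).1 hn.2
    refine ⟨?_, hky⟩
    by_contra hcon
    have hk1 : 1 ≤ k := by
      rw [← hmn]
      exact Nat.mul_pos (by omega) (by omega)
    have h1 : k + y / q + 1 ≤ y := by omega
    have h2 : y < q * (y / q) + q := by
      have h4 := Nat.div_add_mod y q
      have h5 := Nat.mod_lt y (show 0 < q by omega)
      omega
    have h3 : q * k + y < q * y := by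
      have h4 : q * (k + y / q + 1) ≤ q * y := Nat.mul_le_mul_left q h1
      have h5 : q * (k + y / q + 1) = q * k + q * (y / q) + q := by ring
      omega
    have h6 : y < n * v (j + 1) := by
      have h7 : y / v (j + 1) < n := lt_of_le_of_lt (le_max_right _ _) hn.1
      exact (Nat.div_lt_iff_lt_mul (by omega)).1 h7
    have h8 : q * v (j + 1) ≤ (q + 1) * v j := bdv_q U q j
    have h9 : q * y ≤ q * (n * v (j + 1)) := Nat.mul_le_mul_left q h6.le
    have h10 : n * (q * v (j + 1)) ≤ n * ((q + 1) * v j) := Nat.mul_le_mul_left n h8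
    have h11 : n * (q + 1) * v j ≤ n * (q + 1) * m := Nat.mul_le_mul_left _ hm.1.le
    have h12 : n * (q + 1) * m = q * k + k := by
      rw [← hmn]
      ring
    have h13 : q * (n * v (j + 1)) = n * (q * v (j + 1)) := by ring
    have h14 : n * ((q + 1) * v j) = n * (q + 1) * v j := by ring
    omega
  · intro g
    have hext : ∑ m ∈ Ioc U y, ((lam m : ℝ) : ℂ) *
          ∑ n ∈ Ioc U (y / m), ((cc n : ℝ) : ℂ) * g (m * n)
        = ∑ m ∈ Ioc (v 0) (v J), ((lam m : ℝ) : ℂ) *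
          ∑ n ∈ Ioc U (y / m), ((cc n : ℝ) : ℂ) * g (m * n) := by
      apply Finset.sum_subset
      · intro m hm
        rw [mem_Ioc] at hm ⊢
        have h0 : v 0 = U := rfl
        rw [h0]
        omega
      · intro m hm hm2
        rw [mem_Ioc] at hm hm2
        have h0 : v 0 = U := rfl
        rw [h0] at hm
        have hmy : y < m := by
          by_contra hc
          exact hm2 ⟨hm.1, by omega⟩
        rw [Nat.div_eq_of_lt hmy]
        rw [Finset.Ioc_eq_empty (by omega)]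
        simp
    rw [hext, ← bd_sum v hsm.monotone J]
    have hsplit : ∀ j m, m ∈ Ioc (v j) (v (j + 1)) →
        ((lam m : ℝ) : ℂ) * ∑ n ∈ Ioc U (y / m), ((cc n : ℝ) : ℂ) * g (m * n)
          = ((lam m : ℝ) : ℂ) * ∑ n ∈ Ioc U (y / v (j + 1)), ((cc n : ℝ) : ℂ) * g (m * n)
            + ∑ n ∈ Ioc (max U (y / v (j + 1))) (y / m),
                ((lam m : ℝ) : ℂ) * (((cc n : ℝ) : ℂ) * g (m * n)) := by
      intro j m hm
      rw [mem_Ioc] at hm
      have hvj0 := hvpos j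
      have hle : y / v (j + 1) ≤ y / m := Nat.div_le_div_left hm.2 (by omega)
      rw [← Finset.mul_sum, ← mul_add]
      congr 1
      by_cases hc : U ≤ y / v (j + 1)
      · rw [max_eq_right hc]
        exact (Finset.sum_Ioc_consecutive _ hc hle).symm
      · rw [max_eq_left (by omega)]
        rw [Finset.Ioc_eq_empty (show ¬ U < y / v (j + 1) by omega)]
        simp
    rw [Finset.sum_congr rfl fun j _ => Finset.sum_congr rfl fun m hm => hsplit j m hm]
    simp only [Finset.sum_add_distrib]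
    congr 1
    have hk : ∀ k, (((∑ j ∈ range J, ∑ m ∈ Ioc (v j) (v (j + 1)),
        ∑ n ∈ Ioc (max U (y / v (j + 1))) (y / m), (if m * n = k then lam m * cc n else 0) : ℝ)) : ℂ) * g k
        = ∑ j ∈ range J, ∑ m ∈ Ioc (v j) (v (j + 1)),
          ∑ n ∈ Ioc (max U (y / v (j + 1))) (y / m),
            (if m * n = k then ((lam m : ℝ) : ℂ) * (((cc n : ℝ) : ℂ) * g (m * n)) else 0) := by
      intro k
      push_cast
      rw [Finset.sum_mul]
      refine Finset.sum_congr rfl fun j _ => ?_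
      rw [Finset.sum_mul]
      refine Finset.sum_congr rfl fun m _ => ?_
      rw [Finset.sum_mul]
      refine Finset.sum_congr rfl fun n _ => ?_
      split_ifs with h
      · rw [← h]
        push_cast
        ring
      · rw [Complex.ofReal_zero, zero_mul]
    rw [Finset.sum_congr rfl fun k _ => hk k]
    rw [Finset.sum_comm]
    refine Finset.sum_congr rfl fun j _ => ?_
    rw [Finset.sum_comm]
    refine Finset.sum_congr rfl fun m hm => ?_
    rw [Finset.sum_comm]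
    refine Finset.sum_congr rfl fun n hn => ?_
    rw [mem_Ioc] at hm hn
    have hvj0 := hvpos j
    have hmem : m * n ∈ Icc 1 y := by
      rw [mem_Icc]
      constructor
      · exact Nat.mul_pos (by omega) (by omega)
      · rw [mul_comm]
        exact (Nat.le_div_iff_mul_le (by omega)).1 hn.2
    rw [Finset.sum_ite_eq, if_pos hmem]

end Pool.Agent.H80.LV

end

section

/-!
# LV Tau4: the fourth moment of the divisor function and its square over sparse sets

(1) `∑_{k ≤ y} τ(k)^4 / k ≤ (1 + log y)^16`: proved in `Pool/Agent/H70/EHC/Tau.lean` as the private theorems `tau_S_succ`,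
`tau_S_pow` (copy them: `τ(mn) ≤ τ(m) τ(n)` and `∑_{m ≤ n} τ(m)^{k+1}/m ≤ (∑_{m ≤ n} τ(m)^k/m)^2`).  So
`∑_{k ≤ y} τ(k)^4 ≤ y ∑ τ(k)^4/k ≤ y (1 + log y)^16`.
(2) Cauchy-Schwarz over `S ⊆ [1,y]`: `(∑_S τ^2)^2 ≤ |S| ∑_S τ^4`.
-/

set_option autoImplicit false

namespace Pool.Agent.H80.LV

open Finset

open scoped Pointwise in
private theorem tau_mul_le (d e : ℕ) :
    (d * e).divisors.card ≤ d.divisors.card * e.divisors.card := by
  rw [Nat.divisors_mul]
  exact card_mul_le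

private noncomputable def tau_S (k n : ℕ) : ℝ := ∑ m ∈ Icc 1 n, (m.divisors.card : ℝ) ^ k / m

private theorem tau_S_nonneg (k n : ℕ) : 0 ≤ tau_S k n :=
  sum_nonneg fun _ _ => by positivity

private theorem tau_S_succ (k n : ℕ) : tau_S (k + 1) n ≤ tau_S k n ^ 2 := by
  obtain ⟨f, hf⟩ : ∃ f : ℕ × ℕ → ℝ, f = fun p => ((p.1.divisors.card : ℝ) ^ k / p.1) *
      ((p.2.divisors.card : ℝ) ^ k / p.2) := ⟨_, rfl⟩
  have hf0 : ∀ p, 0 ≤ f p := fun p => by rw [hf]; positivity
  have h1 : tau_S k n ^ 2 = ∑ p ∈ Icc 1 n ×ˢ Icc 1 n, f p := by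
    unfold tau_S
    rw [sq, sum_mul_sum, sum_product, hf]
  have h2 : ∀ m ∈ Icc 1 n, (m.divisors.card : ℝ) ^ (k + 1) / m ≤
      ∑ p ∈ ((Icc 1 n ×ˢ Icc 1 n).filter (fun p => p.1 * p.2 ∈ Icc 1 n)).filter
        (fun p => p.1 * p.2 = m), f p := by
    intro m hm
    have hm' := mem_Icc.1 hm
    have e1 : ((Icc 1 n ×ˢ Icc 1 n).filter (fun p => p.1 * p.2 ∈ Icc 1 n)).filter
        (fun p => p.1 * p.2 = m) = m.divisorsAntidiagonal := by
      ext p
      rw [mem_filter, mem_filter, mem_product, mem_Icc, mem_Icc, Nat.mem_divisorsAntidiagonal]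
      constructor
      · rintro ⟨_, h⟩
        exact ⟨h, by omega⟩
      · rintro ⟨h, _⟩
        have hp1 : 1 ≤ p.1 := Nat.one_le_iff_ne_zero.2 (by rintro h0; rw [h0, zero_mul] at h; omega)
        have hp2 : 1 ≤ p.2 := Nat.one_le_iff_ne_zero.2 (by rintro h0; rw [h0, mul_zero] at h; omega)
        have h3 : p.1 ≤ m := h ▸ Nat.le_mul_of_pos_right _ hp2
        have h4 : p.2 ≤ m := h ▸ Nat.le_mul_of_pos_left _ hp1
        exact ⟨⟨⟨⟨hp1, by omega⟩, ⟨hp2, by omega⟩⟩, h ▸ hm⟩, h⟩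
    rw [e1]
    have e2 : (m.divisors.card : ℝ) = ∑ _p ∈ m.divisorsAntidiagonal, (1:ℝ) := by
      rw [Nat.sum_divisorsAntidiagonal (fun _ _ => (1:ℝ))]
      simp
    have e3 : (m.divisors.card : ℝ) ^ (k + 1) / m =
        ∑ _p ∈ m.divisorsAntidiagonal, (m.divisors.card : ℝ) ^ k / m := by
      rw [← mul_one ((m.divisors.card : ℝ) ^ k / m), ← mul_sum, ← e2, pow_succ]
      ring
    rw [e3]
    refine sum_le_sum fun p hp => ?_
    rw [Nat.mem_divisorsAntidiagonal] at hp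
    rw [hf]
    have h5 := tau_mul_le p.1 p.2
    rw [hp.1] at h5
    have h6 : (m.divisors.card : ℝ) ≤ (p.1.divisors.card : ℝ) * (p.2.divisors.card : ℝ) := by
      exact_mod_cast h5
    have h7 : (m : ℝ) = (p.1 : ℝ) * p.2 := by rw [← hp.1]; push_cast; rfl
    show (m.divisors.card : ℝ) ^ k / m ≤ ((p.1.divisors.card : ℝ) ^ k / p.1) *
      ((p.2.divisors.card : ℝ) ^ k / p.2)
    rw [div_mul_div_comm, ← mul_pow, ← h7]
    exact div_le_div_of_nonneg_right (pow_le_pow_left₀ (by positivity) h6 k) (by positivity)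
  rw [h1]
  unfold tau_S
  calc ∑ m ∈ Icc 1 n, (m.divisors.card : ℝ) ^ (k + 1) / m
      ≤ ∑ m ∈ Icc 1 n, ∑ p ∈ ((Icc 1 n ×ˢ Icc 1 n).filter (fun p => p.1 * p.2 ∈ Icc 1 n)).filter
        (fun p => p.1 * p.2 = m), f p := sum_le_sum h2
    _ = ∑ p ∈ (Icc 1 n ×ˢ Icc 1 n).filter (fun p => p.1 * p.2 ∈ Icc 1 n), f p :=
        sum_fiberwise_of_maps_to (fun p hp => (mem_filter.1 hp).2) f
    _ ≤ ∑ p ∈ Icc 1 n ×ˢ Icc 1 n, f p :=
        sum_le_sum_of_subset_of_nonneg (filter_subset _ _) (fun p _ _ => hf0 p)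

private theorem tau_S_zero (n : ℕ) : tau_S 0 n ≤ 1 + Real.log n := by
  have h := harmonic_le_one_add_log n
  refine le_trans (le_of_eq ?_) h
  unfold tau_S
  rw [harmonic_eq_sum_Icc]
  push_cast
  refine sum_congr rfl fun m _ => ?_
  rw [pow_zero, one_div]

private theorem tau_S_pow (n k : ℕ) : tau_S k n ≤ (1 + Real.log n) ^ (2 ^ k) := by
  induction k with
  | zero => simpa using tau_S_zero n
  | succ k ih =>
    refine (tau_S_succ k n).trans ?_
    rw [pow_succ 2 k, pow_mul]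
    exact pow_le_pow_left₀ (tau_S_nonneg k n) ih 2

theorem tau4 (y : ℕ) : ∑ k ∈ Icc 1 y, (k.divisors.card : ℝ) ^ 4 ≤ y * (1 + Real.log y) ^ 16 := by
  have h := tau_S_pow y 4
  have h1 : ∑ k ∈ Icc 1 y, (k.divisors.card : ℝ) ^ 4 ≤ y * tau_S 4 y := by
    unfold tau_S
    rw [mul_sum]
    refine sum_le_sum fun m hm => ?_
    have hm' := mem_Icc.1 hm
    have hm0 : (0:ℝ) < m := by exact_mod_cast hm'.1
    have hmy : (m:ℝ) ≤ y := by exact_mod_cast hm'.2
    rw [← mul_div_assoc, le_div_iff₀ hm0, mul_comm]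
    exact mul_le_mul_of_nonneg_right hmy (by positivity)
  refine h1.trans (mul_le_mul_of_nonneg_left (h.trans (le_of_eq ?_)) (by positivity))
  norm_num

theorem tau2_sparse (y : ℕ) (S : Finset ℕ) (hS : S ⊆ Icc 1 y) :
    (∑ k ∈ S, (k.divisors.card : ℝ) ^ 2) ^ 2 ≤ S.card * (y * (1 + Real.log y) ^ 16) := by
  have h1 : (∑ k ∈ S, (k.divisors.card : ℝ) ^ 2) ^ 2 ≤
      S.card * ∑ k ∈ S, ((k.divisors.card : ℝ) ^ 2) ^ 2 := sq_sum_le_card_mul_sum_sq
  refine h1.trans (mul_le_mul_of_nonneg_left ?_ (by positivity))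
  refine le_trans ?_ (tau4 y)
  calc ∑ k ∈ S, ((k.divisors.card : ℝ) ^ 2) ^ 2 ≤ ∑ k ∈ Icc 1 y, ((k.divisors.card : ℝ) ^ 2) ^ 2 :=
        sum_le_sum_of_subset_of_nonneg hS (fun k _ _ => by positivity)
    _ = ∑ k ∈ Icc 1 y, (k.divisors.card : ℝ) ^ 4 := sum_congr rfl fun k _ => by ring

end Pool.Agent.H80.LV

end

section

/-!
PK Msq: mean squares of the type II coefficients.

* `sum_moebius_coprime`: for y ≥ 1, g ≥ 1: |∑_{e ≤ y, (e,g)=1} μ(e)/e| ≤ 1.
  Proof: y ∑ μ(e)/e = ∑ μ(e) floor(y/e) + ∑ μ(e) frac(y/e), and ∑_{e ≤ y,(e,g)=1} μ(e) floor(y/e)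
   = ∑_{n ≤ y} ∑_{e | n, (e,g)=1} μ(e) = κ := #{n ≤ y : every prime factor of n divides g} ≥ 1 (n = 1).
  The fractional parts are in [0,1) and 0 for e = 1; the e > 1 coprime to g are not counted in κ, so
   κ + #{2 ≤ e ≤ y, (e,g)=1} ≤ y, hence |y ∑ μ(e)/e| ≤ y.
* `cV_sq_large`: for n ≥ 2, cV V n = - ∑_{d | n, d ≤ V} μ(d).  ∑_{n ≤ Y} (∑_{d|n,d≤V} μ(d))²
   = ∑_{d1,d2 ≤ V} μ(d1)μ(d2) floor(Y/[d1,d2]) ≤ Y ∑ μ(d1)μ(d2)/[d1,d2] + V², and
   ∑_{d1,d2≤V} μμ/[d1,d2] = ∑_{g ≤ V} φ(g) (∑_{d ≤ V, g | d} μ(d)/d)²   ((d1,d2) = ∑_{g | d1, g | d2} φ(g)), and for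
   squarefree g, ∑_{d≤V, g|d} μ(d)/d = (μ(g)/g) ∑_{e ≤ V/g, (e,g)=1} μ(e)/e (0 if g is not squarefree), so the sum is
   ≤ ∑_{g≤V} φ(g)/g² ≤ ∑_{g ≤ V} 1/g ≤ log V + 1.   With V² ≤ Y: total ≤ Y (log V + 2).
* `cV_sq_all`: |cV V n| ≤ τ(n), and ∑_{n≤Y} τ(n)² ≤ Y (log Y + 1)³:
   ∑_{n≤Y} τ(n)² = ∑_{n} ∑_{d m = n} τ(dm) ≤ ∑_{d≤Y} τ(d) ∑_{m ≤ Y/d} τ(m) ≤ ∑_d τ(d) (Y/d)(1+log Y)
   ≤ Y (1+log Y) (∑_{a≤Y} 1/a)².
* `Lam_sq`: ∑_{M<m≤2M} Λ(m)² ≤ log(2M) ψ(2M) ≤ log(2M) (log 3) 2M  (`Pool.Agent.H91.Gold.psi_le_log_three`),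
   log 3 ≤ 1.0987 (`Pool.Agent.H91.Gold.log_three_bounds`).
-/

set_option autoImplicit false

namespace Pool.Agent.H91.PK

open Finset ArithmeticFunction

theorem Msq_abs_moebius (e : ℕ) : |(moebius e : ℝ)| ≤ 1 := by
  have := @abs_moebius_le_one e
  have h2 : ((|moebius e| : ℤ) : ℝ) ≤ ((1 : ℤ) : ℝ) := by exact_mod_cast this
  simpa using h2

theorem Msq_harmonic (n : ℕ) : ∑ g ∈ Icc 1 n, (1 : ℝ) / g ≤ 1 + Real.log n := by
  have h := harmonic_le_one_add_log n
  rw [harmonic_eq_sum_Icc] at h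
  push_cast at h
  simpa [one_div] using h

/-- reorganising a double sum -/
theorem Msq_sum_divisors (Y : ℕ) (f : ℕ → ℕ → ℝ) :
    ∑ n ∈ Icc 1 Y, ∑ d ∈ n.divisors, f d (n / d) =
      ∑ d ∈ Icc 1 Y, ∑ m ∈ Icc 1 (Y / d), f d m := by
  rw [Finset.sum_sigma', Finset.sum_sigma']
  refine Finset.sum_nbij' (fun x => ⟨x.2, x.1 / x.2⟩) (fun x => ⟨x.1 * x.2, x.1⟩) ?_ ?_ ?_ ?_ ?_
  · rintro ⟨n, d⟩ hx
    simp only [mem_sigma, mem_Icc, Nat.mem_divisors] at hx ⊢
    obtain ⟨⟨h1, h2⟩, h3, -⟩ := hx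
    have hd : 0 < d := Nat.pos_of_dvd_of_pos h3 h1
    exact ⟨⟨hd, (Nat.le_of_dvd h1 h3).trans h2⟩, Nat.div_pos (Nat.le_of_dvd h1 h3) hd,
      Nat.div_le_div_right h2⟩
  · rintro ⟨d, m⟩ hx
    simp only [mem_sigma, mem_Icc, Nat.mem_divisors] at hx ⊢
    obtain ⟨⟨h1, h2⟩, h3, h4⟩ := hx
    have h5 : d * m ≤ Y := by
      calc d * m ≤ d * (Y / d) := Nat.mul_le_mul_left _ h4
        _ ≤ Y := Nat.mul_div_le _ _
    have h6 : 0 < d * m := Nat.mul_pos h1 h3
    exact ⟨⟨h6, h5⟩, dvd_mul_right _ _, h6.ne'⟩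
  · rintro ⟨n, d⟩ hx
    simp only [mem_sigma, mem_Icc, Nat.mem_divisors] at hx ⊢
    rw [Nat.mul_div_cancel' hx.2.1]
  · rintro ⟨d, m⟩ hx
    simp only [mem_sigma, mem_Icc] at hx ⊢
    rw [Nat.mul_div_cancel_left m hx.1.1]
  · rintro ⟨n, d⟩ _
    rfl

theorem Msq_tau_sum (x : ℕ) :
    ∑ m ∈ Icc 1 x, (m.divisors.card : ℝ) ≤ x * (1 + Real.log x) := by
  have h1 : ∑ m ∈ Icc 1 x, (m.divisors.card : ℝ) = ∑ d ∈ Icc 1 x, ((x / d : ℕ) : ℝ) := by
    have := Msq_sum_divisors x (fun _ _ => (1 : ℝ))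
    simpa using this
  rw [h1]
  calc ∑ d ∈ Icc 1 x, ((x / d : ℕ) : ℝ) ≤ ∑ d ∈ Icc 1 x, (x : ℝ) * (1 / d) := by
        apply sum_le_sum
        intro d _
        have : ((x / d : ℕ) : ℝ) ≤ (x : ℝ) / d := Nat.cast_div_le
        rwa [mul_one_div]
    _ = x * ∑ d ∈ Icc 1 x, (1 : ℝ) / d := by rw [mul_sum]
    _ ≤ x * (1 + Real.log x) :=
        mul_le_mul_of_nonneg_left (Msq_harmonic x) (Nat.cast_nonneg _)

theorem Msq_tau_sq (Y : ℕ) (hY : 1 ≤ Y) :
    ∑ n ∈ Icc 1 Y, (n.divisors.card : ℝ) ^ 2 ≤ Y * (Real.log Y + 1) ^ 3 := by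
  have hlog : 0 ≤ Real.log Y := Real.log_natCast_nonneg Y
  have hY0 : (0 : ℝ) < Y := by exact_mod_cast hY
  calc ∑ n ∈ Icc 1 Y, (n.divisors.card : ℝ) ^ 2
      ≤ ∑ n ∈ Icc 1 Y, ∑ d ∈ n.divisors, (d.divisors.card : ℝ) * ((n / d).divisors.card : ℝ) := by
        apply sum_le_sum
        intro n hn
        have h1 : (n.divisors.card : ℝ) ^ 2 = ∑ d ∈ n.divisors, (n.divisors.card : ℝ) := by
          rw [sum_const, nsmul_eq_mul, pow_two]
        rw [h1]
        apply sum_le_sum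
        intro d hd
        rw [Nat.mem_divisors] at hd
        have h2 : n.divisors.card ≤ d.divisors.card * (n / d).divisors.card := by
          conv_lhs => rw [← Nat.mul_div_cancel' hd.1]
          rw [Nat.divisors_mul]
          exact card_mul_le
        exact_mod_cast h2
    _ = ∑ d ∈ Icc 1 Y, ∑ m ∈ Icc 1 (Y / d), (d.divisors.card : ℝ) * (m.divisors.card : ℝ) :=
        Msq_sum_divisors Y (fun d m => (d.divisors.card : ℝ) * (m.divisors.card : ℝ))
    _ ≤ ∑ d ∈ Icc 1 Y, (d.divisors.card : ℝ) * ((Y : ℝ) / d * (1 + Real.log Y)) := by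
        apply sum_le_sum
        intro d hd
        rw [mem_Icc] at hd
        rw [← mul_sum]
        apply mul_le_mul_of_nonneg_left _ (Nat.cast_nonneg _)
        have hd0 : (0 : ℝ) < d := by exact_mod_cast hd.1
        have h1 := Msq_tau_sum (Y / d)
        have h2 : ((Y / d : ℕ) : ℝ) ≤ (Y : ℝ) / d := Nat.cast_div_le
        have h3 : 1 ≤ Y / d := Nat.div_pos hd.2 hd.1
        have h4 : Real.log ((Y / d : ℕ) : ℝ) ≤ Real.log Y := by
          apply Real.log_le_log
          · exact_mod_cast h3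
          · exact_mod_cast Nat.div_le_self Y d
        refine h1.trans ?_
        apply mul_le_mul h2 (by linarith) _ (by positivity)
        have : 0 ≤ Real.log ((Y / d : ℕ) : ℝ) := Real.log_natCast_nonneg _
        linarith
    _ = Y * (1 + Real.log Y) * ∑ d ∈ Icc 1 Y, (d.divisors.card : ℝ) * (1 / d) := by
        rw [mul_sum]
        apply sum_congr rfl
        intro d _
        ring
    _ ≤ Y * (1 + Real.log Y) * (1 + Real.log Y) ^ 2 := by
        apply mul_le_mul_of_nonneg_left _ (by positivity)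
        have h1 : ∑ d ∈ Icc 1 Y, (d.divisors.card : ℝ) * (1 / d) =
            ∑ a ∈ Icc 1 Y, ∑ b ∈ Icc 1 (Y / a), (1 : ℝ) / a * (1 / b) := by
          rw [← Msq_sum_divisors Y (fun a b => (1 : ℝ) / a * (1 / b))]
          apply sum_congr rfl
          intro n hn
          rw [mem_Icc] at hn
          rw [← nsmul_eq_mul, ← sum_const]
          apply sum_congr rfl
          intro d hd
          rw [Nat.mem_divisors] at hd
          have hd0 : d ≠ 0 := fun h => by
            rw [h] at hd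
            exact hd.2 (Nat.eq_zero_of_zero_dvd hd.1)
          have h5 : (d : ℝ) * ((n / d : ℕ) : ℝ) = n := by
            exact_mod_cast Nat.mul_div_cancel' hd.1
          rw [div_mul_div_comm, one_mul, h5]
        rw [h1]
        calc ∑ a ∈ Icc 1 Y, ∑ b ∈ Icc 1 (Y / a), (1 : ℝ) / a * (1 / b)
            ≤ ∑ a ∈ Icc 1 Y, ∑ b ∈ Icc 1 Y, (1 : ℝ) / a * (1 / b) := by
              apply sum_le_sum
              intro a _
              apply sum_le_sum_of_subset_of_nonneg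
              · exact Icc_subset_Icc_right (Nat.div_le_self _ _)
              · intro b _ _
                positivity
          _ = (∑ a ∈ Icc 1 Y, (1 : ℝ) / a) ^ 2 := by
              rw [pow_two, sum_mul_sum]
          _ ≤ (1 + Real.log Y) ^ 2 := by
              apply pow_le_pow_left₀ _ (Msq_harmonic Y)
              apply sum_nonneg
              intro a _
              positivity
    _ = Y * (Real.log Y + 1) ^ 3 := by ring

theorem cV_sq_all (V Y : ℕ) (hV : 1 ≤ V) (hY : 1 ≤ Y) :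
    ∑ n ∈ Ioc V Y, (cV V n) ^ 2 ≤ Y * (Real.log Y + 1) ^ 3 := by
  refine le_trans ?_ (Msq_tau_sq Y hY)
  calc ∑ n ∈ Ioc V Y, (cV V n) ^ 2 ≤ ∑ n ∈ Ioc V Y, (n.divisors.card : ℝ) ^ 2 := by
        apply sum_le_sum
        intro n _
        rw [← sq_abs]
        apply pow_le_pow_left₀ (abs_nonneg _)
        unfold cV
        refine (abs_sum_le_sum_abs _ _).trans ?_
        calc ∑ d ∈ n.divisors.filter (fun d => V < d), |(moebius d : ℝ)|
            ≤ ∑ d ∈ n.divisors.filter (fun d => V < d), (1 : ℝ) :=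
              sum_le_sum fun d _ => Msq_abs_moebius d
          _ ≤ n.divisors.card := by
              rw [sum_const, nsmul_eq_mul, mul_one]
              exact_mod_cast card_filter_le _ _
    _ ≤ ∑ n ∈ Icc 1 Y, (n.divisors.card : ℝ) ^ 2 := by
        apply sum_le_sum_of_subset_of_nonneg
        · intro n hn
          rw [mem_Ioc] at hn
          rw [mem_Icc]
          omega
        · intro n _ _
          positivity

end Pool.Agent.H91.PK

end

section

/-!
# EHB Mell: Mellin transform on the line 1/2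

`Mel g t = ∫_0^∞ g(θ) θ^{-1/2 - i t} dθ` (Mathlib's `mellin g (1/2 - t i)`).
`mel_planch`: with `G(u) = exp(-u/2) g(exp(-u))`, Mathlib's `mellin_eq_fourier` gives
`mellin g (1/2 - i t) = Ĝ(-t/(2π))`.  `g` bounded by `B`, zero outside `(0, Θ]`: `G` is integrable and square integrable,
`∫ |G|^2 du = ∫_0^∞ |g|^2 dθ` (substitution `θ = exp(-u)`), so `planch` and the substitution `ξ = -t/(2π)` give the claim.
`mel_sum`: `mellin_comp_mul_left`.  `int_sum_sq`: combine (the function `∑ g(k ·)` is again bounded with bounded support).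
-/

set_option autoImplicit false

namespace Pool.Agent.H76.EHB

open Finset MeasureTheory

/-- Mellin transform at `1/2 - i t` -/
noncomputable def Mel (g : ℝ → ℂ) (t : ℝ) : ℂ := mellin g (1 / 2 - t * Complex.I)

/-- `∑_{k ∈ S} k^{-1/2 + i t}` -/
noncomputable def ZZ (S : Finset ℕ) (t : ℝ) : ℂ := ∑ k ∈ S, (k : ℂ) ^ (-(1 / 2 : ℂ) + t * Complex.I)

end Pool.Agent.H76.EHB

end

section

/-!
# From the second moment of `hR` to the range `Q A ≥ x^{1+ε}`
-/

set_option autoImplicit false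

namespace Pool.Agent.H91.EHA

open Finset

/-- powers of `log x` are eventually smaller than any positive power of `x`. -/
lemma log_pow_le_rpow (m : ℕ) (δ : ℝ) (hδ : 0 < δ) : ∃ x0 : ℕ, ∀ x : ℕ, x0 ≤ x →
    Real.log x ^ m ≤ (x : ℝ) ^ δ := by
  have h := isLittleO_log_rpow_rpow_atTop (m : ℝ) hδ
  have h2 := h.bound (show (0:ℝ) < 1 by norm_num)
  have h3 := (tendsto_natCast_atTop_atTop (R := ℝ)).eventually h2
  obtain ⟨x0, hx0⟩ := Filter.eventually_atTop.1 h3
  refine ⟨max x0 1, fun x hx => ?_⟩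
  have h4 := hx0 x (le_trans (le_max_left _ _) hx)
  have h5 : (1:ℝ) ≤ x := by exact_mod_cast le_trans (le_max_right _ _) hx
  have h6 : 0 ≤ Real.log x := Real.log_nonneg h5
  rw [Real.norm_of_nonneg (by positivity), Real.norm_of_nonneg (by positivity), one_mul,
    Real.rpow_natCast] at h4
  exact h4

/-- the logarithm is eventually larger than any constant. -/
lemma log_ge (K : ℝ) : ∃ x0 : ℕ, ∀ x : ℕ, x0 ≤ x → K ≤ Real.log x := by
  have h := Real.tendsto_log_atTop.comp (tendsto_natCast_atTop_atTop (R := ℝ))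
  have h2 := h.eventually (Filter.eventually_ge_atTop K)
  obtain ⟨x0, hx0⟩ := Filter.eventually_atTop.1 h2
  exact ⟨x0, fun x hx => hx0 x hx⟩

end Pool.Agent.H91.EHA

end

section

/-!
# EHB JB: the bound for `II`

`int_sum_sq`; `‖ZZ S t‖ ≤ ∑_{k ≤ K} k^{-1/2} ≤ 2 √K` for `S ⊆ Icc 1 K`.  Split the `t`-integral of `‖ZZ‖²‖Mel‖²` into `|t| ≤ T0`
(`≤ 4K * 2 T0 * MB²`), `T0 < |t| ≤ T1` (`≤ ZB * ∫‖Mel‖² ≤ ZB * 2π S2`, `mel_planch`, `gg_L2`), `|t| > T1`
(`≤ 4K * 2 * (7 (N+|a|+1) F1)²/T1`, `mel_tail`, `∫_{T1}^∞ dt/t² = 1/T1`).  Divide by `2π`.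
-/

set_option autoImplicit false

namespace Pool.Agent.H76.EHB

open Finset MeasureTheory

theorem jb_sum (K : ℕ) : ∑ k ∈ Icc 1 K, 1 / Real.sqrt (k : ℝ) ≤ 2 * Real.sqrt K := by
  induction K with
  | zero => simp
  | succ n ih =>
    rw [Finset.sum_Icc_succ_top (by omega)]
    have h0 : (0 : ℝ) ≤ n := Nat.cast_nonneg n
    have h1 : (0 : ℝ) < ((n + 1 : ℕ) : ℝ) := by positivity
    have hb : 0 < Real.sqrt ((n + 1 : ℕ) : ℝ) := Real.sqrt_pos.2 h1
    have ha : 0 ≤ Real.sqrt (n : ℝ) := Real.sqrt_nonneg _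
    have hb2 : Real.sqrt ((n + 1 : ℕ) : ℝ) ^ 2 = (n : ℝ) + 1 := by
      rw [Real.sq_sqrt h1.le]; push_cast; ring
    have ha2 : Real.sqrt (n : ℝ) ^ 2 = (n : ℝ) := Real.sq_sqrt h0
    have key : 1 / Real.sqrt ((n + 1 : ℕ) : ℝ)
        ≤ 2 * Real.sqrt ((n + 1 : ℕ) : ℝ) - 2 * Real.sqrt (n : ℝ) := by
      rw [div_le_iff₀ hb]
      nlinarith [sq_nonneg (Real.sqrt ((n + 1 : ℕ) : ℝ) - Real.sqrt (n : ℝ))]
    linarith

theorem jb_norm_term (k : ℕ) (hk : 1 ≤ k) (t : ℝ) :
    ‖(k : ℂ) ^ (-(1 / 2 : ℂ) + t * Complex.I)‖ = 1 / Real.sqrt (k : ℝ) := by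
  rw [Complex.norm_natCast_cpow_of_pos (by omega)]
  have h : (-(1 / 2 : ℂ) + t * Complex.I).re = -(1 / 2 : ℝ) := by
    simp
  rw [h, Real.rpow_neg (Nat.cast_nonneg k), ← Real.sqrt_eq_rpow, one_div]

theorem norm_ZZ_sq_le (K : ℕ) (S : Finset ℕ) (hS : S ⊆ Icc 1 K) (t : ℝ) : ‖ZZ S t‖ ^ 2 ≤ 4 * K := by
  have h1 : ‖ZZ S t‖ ≤ 2 * Real.sqrt K := by
    unfold ZZ
    refine (norm_sum_le _ _).trans ?_
    have h2 : ∑ k ∈ S, ‖(k : ℂ) ^ (-(1 / 2 : ℂ) + t * Complex.I)‖
        = ∑ k ∈ S, 1 / Real.sqrt (k : ℝ) :=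
      Finset.sum_congr rfl fun k hk => jb_norm_term k (Finset.mem_Icc.1 (hS hk)).1 t
    rw [h2]
    refine (Finset.sum_le_sum_of_subset_of_nonneg hS ?_).trans (jb_sum K)
    intro i _ _
    positivity
  have h3 : (2 * Real.sqrt K) ^ 2 = 4 * (K : ℝ) := by
    rw [mul_pow, Real.sq_sqrt (Nat.cast_nonneg K)]; norm_num
  rw [← h3]
  exact pow_le_pow_left₀ (norm_nonneg _) h1 2

end Pool.Agent.H76.EHB

end

section

/-!
# EHB Jred: from `JJ` to Mellin transforms

`gg f N α a Θ s` (`s = 1` or `-1`) is `FF(α + s θ) e(-a s θ)` on `(0, Θ]`, zero elsewhere.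
For `0 < y ≤ Y` (`K Y ≤ Θ`) the inner sum of `JJ` is `∑_{k ∈ S+} gg_{+}(k y) + ∑_{k ∈ S-} gg_{-}(k y)` with
`S+ = {1 ≤ k ≤ K : d ∣ k - l}`, `S- = {1 ≤ k ≤ K : d ∣ -k - l}` (from `k < 0`); for `y = -z < 0` it is
`∑_{S+} gg_{-}(k z) + ∑_{S-} gg_{+}(k z)`.  Use `|u+v|^2 ≤ 2|u|^2 + 2|v|^2` and enlarge `(0, Y]` to `(0, ∞)`
(integrable, since the functions are bounded with bounded support).
-/

set_option autoImplicit false

namespace Pool.Agent.H76.EHB

open Finset MeasureTheory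

/-- `∫_0^∞ |∑_{k ∈ S} g(k y)|^2 dy` -/
noncomputable def II (S : Finset ℕ) (g : ℝ → ℂ) : ℝ :=
  ∫ y in Set.Ioi (0 : ℝ), ‖∑ k ∈ S, g (k * y)‖ ^ 2

end Pool.Agent.H76.EHB

end

section

/-!
# W MeanV: mean value theorem for Dirichlet polynomials (elementary)

Proof.  Expand: `∫_{-T}^T ‖∑‖^2 = ∑_{m,m'} a_m conj(a_m') (m m')^{-1/2} ∫_{-T}^T (m/m')^{it} dt`; the diagonal gives
`2T ∑ |a_m|^2/m`; for `m ≠ m'` the integral is `≤ 2/|log(m/m')| ≤ 2 X/|m - m'|` in absolute value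
(`|log(m/m')| ≥ |m-m'|/max(m,m')`), `|a_m a_m'| (m m')^{-1/2} ≤ (|a_m|^2/m + |a_m'|^2/m')/2`, and
`∑_{m' ≠ m, m' ≤ X} 1/|m-m'| ≤ 2 (1 + log X)`.
-/

set_option autoImplicit false

namespace Pool.Agent.H35.W

open Finset MeasureTheory

/-- the integral of a character -/
private theorem mv_int (T c : ℝ) (hc : c ≠ 0) :
    ‖∫ t in (-T)..T, Complex.exp ((c * Complex.I) * (t : ℂ))‖ ≤ 2 / |c| := by
  have hc' : (c * Complex.I : ℂ) ≠ 0 := by
    simp [hc]
  rw [integral_exp_mul_complex hc', norm_div]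
  have h1 : ‖(c * Complex.I : ℂ)‖ = |c| := by simp
  rw [h1]
  refine div_le_div_of_nonneg_right ?_ (abs_nonneg _)
  have e : ∀ s : ℝ, ‖Complex.exp ((c * Complex.I) * (s : ℂ))‖ = 1 := by
    intro s
    have : (c * Complex.I) * (s : ℂ) = ((c * s : ℝ) : ℂ) * Complex.I := by push_cast; ring
    rw [this, Complex.norm_exp_ofReal_mul_I]
  refine (norm_sub_le _ _).trans ?_
  rw [e, e]
  norm_num

/-- expansion of the mean square -/
private theorem mv_expand (b : ℕ → ℂ) (l : ℕ → ℝ) (S : Finset ℕ) (T : ℝ) :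
    ∫ t in (-T)..T, ‖∑ m ∈ S, b m * Complex.exp ((l m * Complex.I) * (t : ℂ))‖ ^ 2
      ≤ ∑ m ∈ S, ∑ n ∈ S, ‖b m‖ * ‖b n‖ *
        ‖∫ t in (-T)..T, Complex.exp ((((l m - l n : ℝ) : ℂ) * Complex.I) * (t : ℂ))‖ := by
  have hpt : ∀ t : ℝ, ((‖∑ m ∈ S, b m * Complex.exp ((l m * Complex.I) * (t : ℂ))‖ ^ 2 : ℝ) : ℂ)
      = ∑ m ∈ S, ∑ n ∈ S, b m * (starRingEnd ℂ) (b n) *
        Complex.exp ((((l m - l n : ℝ) : ℂ) * Complex.I) * (t : ℂ)) := by
    intro t
    rw [← Complex.normSq_eq_norm_sq, ← Complex.mul_conj, map_sum, Finset.sum_mul_sum]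
    refine Finset.sum_congr rfl fun m _ => Finset.sum_congr rfl fun n _ => ?_
    rw [map_mul, ← Complex.exp_conj]
    have : (starRingEnd ℂ) ((l n * Complex.I) * (t : ℂ)) = -((l n * Complex.I) * (t : ℂ)) := by
      simp
    rw [this]
    have e : Complex.exp ((((l m - l n : ℝ) : ℂ) * Complex.I) * (t : ℂ)) =
        Complex.exp ((l m * Complex.I) * (t : ℂ)) * Complex.exp (-((l n * Complex.I) * (t : ℂ))) := by
      rw [← Complex.exp_add]
      congr 1
      push_cast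
      ring
    rw [e]
    ring
  have hcont : ∀ c : ℝ, Continuous fun t : ℝ => Complex.exp ((c * Complex.I) * (t : ℂ)) := by
    intro c
    fun_prop
  have hint : ((∫ t in (-T)..T, ‖∑ m ∈ S, b m * Complex.exp ((l m * Complex.I) * (t : ℂ))‖ ^ 2 : ℝ) : ℂ)
      = ∑ m ∈ S, ∑ n ∈ S, b m * (starRingEnd ℂ) (b n) *
        ∫ t in (-T)..T, Complex.exp ((((l m - l n : ℝ) : ℂ) * Complex.I) * (t : ℂ)) := by
    rw [← intervalIntegral.integral_ofReal]
    have : (fun t : ℝ => ((‖∑ m ∈ S, b m * Complex.exp ((l m * Complex.I) * (t : ℂ))‖ ^ 2 : ℝ) : ℂ))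
        = fun t : ℝ => ∑ m ∈ S, ∑ n ∈ S, b m * (starRingEnd ℂ) (b n) *
        Complex.exp ((((l m - l n : ℝ) : ℂ) * Complex.I) * (t : ℂ)) := funext hpt
    rw [intervalIntegral.integral_congr (g := fun t : ℝ => ∑ m ∈ S, ∑ n ∈ S,
      b m * (starRingEnd ℂ) (b n) *
        Complex.exp ((((l m - l n : ℝ) : ℂ) * Complex.I) * (t : ℂ))) (fun t _ => hpt t)]
    rw [intervalIntegral.integral_finsetSum]
    · refine Finset.sum_congr rfl fun m _ => ?_
      rw [intervalIntegral.integral_finsetSum]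
      · refine Finset.sum_congr rfl fun n _ => ?_
        rw [intervalIntegral.integral_const_mul]
      · intro n _
        exact ((hcont _).const_mul _).intervalIntegrable _ _
    · intro m _
      refine Continuous.intervalIntegrable ?_ _ _
      refine continuous_finsetSum _ fun n _ => ?_
      exact continuous_const.mul (hcont _)
  have hn : ∫ t in (-T)..T, ‖∑ m ∈ S, b m * Complex.exp ((l m * Complex.I) * (t : ℂ))‖ ^ 2 ≤
      ‖((∫ t in (-T)..T, ‖∑ m ∈ S, b m * Complex.exp ((l m * Complex.I) * (t : ℂ))‖ ^ 2 : ℝ) : ℂ)‖ := by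
    rw [Complex.norm_real]
    exact le_abs_self _
  refine hn.trans ?_
  rw [hint]
  refine (norm_sum_le _ _).trans (Finset.sum_le_sum fun m _ => ?_)
  refine (norm_sum_le _ _).trans (Finset.sum_le_sum fun n _ => ?_)
  rw [norm_mul, norm_mul, Complex.norm_conj]

/-- harmonic bound -/
private theorem mv_harm (X : ℕ) : ∑ i ∈ range X, (1 : ℝ) / ((i : ℝ) + 1) ≤ 1 + Real.log X := by
  have h := harmonic_le_one_add_log X
  have e : ((harmonic X : ℚ) : ℝ) = ∑ i ∈ range X, (1 : ℝ) / ((i : ℝ) + 1) := by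
    unfold harmonic
    push_cast
    exact Finset.sum_congr rfl fun i _ => by rw [one_div]
  linarith

private theorem mv_row (X m : ℕ) (hm : m ∈ Icc 1 X) :
    ∑ n ∈ (Icc 1 X).filter (fun n => n ≠ m), (1 : ℝ) / |(m : ℝ) - n| ≤ 2 * (1 + Real.log X) := by
  have hm' := Finset.mem_Icc.1 hm
  have hsplit : (Icc 1 X).filter (fun n => n ≠ m) =
      (Icc 1 X).filter (fun n => n < m) ∪ (Icc 1 X).filter (fun n => m < n) := by
    ext n
    simp only [Finset.mem_filter, Finset.mem_union, Finset.mem_Icc]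
    omega
  have hdisj : Disjoint ((Icc 1 X).filter (fun n => n < m)) ((Icc 1 X).filter (fun n => m < n)) := by
    rw [Finset.disjoint_left]
    intro n h1 h2
    have := (Finset.mem_filter.1 h1).2
    have := (Finset.mem_filter.1 h2).2
    omega
  rw [hsplit, Finset.sum_union hdisj]
  have h1 : ∑ n ∈ (Icc 1 X).filter (fun n => n < m), (1 : ℝ) / |(m : ℝ) - n| ≤ 1 + Real.log X := by
    refine le_trans ?_ (mv_harm X)
    have hinj : Set.InjOn (fun n => m - n - 1) ((Icc 1 X).filter (fun n => n < m) : Finset ℕ) := by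
      intro a ha b hb hab
      have ha' := (Finset.mem_filter.1 (Finset.mem_coe.1 ha)).2
      have hb' := (Finset.mem_filter.1 (Finset.mem_coe.1 hb)).2
      simp only at hab
      omega
    have hsub : ((Icc 1 X).filter (fun n => n < m)).image (fun n => m - n - 1) ⊆ range X := by
      intro k hk
      obtain ⟨n, hn, rfl⟩ := Finset.mem_image.1 hk
      have hn' := Finset.mem_filter.1 hn
      have := Finset.mem_Icc.1 hn'.1
      rw [Finset.mem_range]
      omega
    calc ∑ n ∈ (Icc 1 X).filter (fun n => n < m), (1 : ℝ) / |(m : ℝ) - n|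
        = ∑ n ∈ (Icc 1 X).filter (fun n => n < m), (1 : ℝ) / (((m - n - 1 : ℕ) : ℝ) + 1) := by
          refine Finset.sum_congr rfl fun n hn => ?_
          have hn' := (Finset.mem_filter.1 hn).2
          have e : ((m - n - 1 : ℕ) : ℝ) + 1 = (m : ℝ) - n := by
            have : m - n - 1 + 1 + n = m := by omega
            have h3 : (((m - n - 1 + 1 + n : ℕ)) : ℝ) = (m : ℝ) := by rw [this]
            push_cast at h3
            linarith
          rw [e, abs_of_pos]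
          have : (n : ℝ) < m := by exact_mod_cast hn'
          linarith
      _ = ∑ k ∈ ((Icc 1 X).filter (fun n => n < m)).image (fun n => m - n - 1),
            (1 : ℝ) / ((k : ℝ) + 1) := by
          rw [Finset.sum_image hinj]
      _ ≤ ∑ i ∈ range X, (1 : ℝ) / ((i : ℝ) + 1) :=
          Finset.sum_le_sum_of_subset_of_nonneg hsub fun i _ _ => by positivity
  have h2 : ∑ n ∈ (Icc 1 X).filter (fun n => m < n), (1 : ℝ) / |(m : ℝ) - n| ≤ 1 + Real.log X := by
    refine le_trans ?_ (mv_harm X)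
    have hinj : Set.InjOn (fun n => n - m - 1) ((Icc 1 X).filter (fun n => m < n) : Finset ℕ) := by
      intro a ha b hb hab
      have ha' := (Finset.mem_filter.1 (Finset.mem_coe.1 ha)).2
      have hb' := (Finset.mem_filter.1 (Finset.mem_coe.1 hb)).2
      simp only at hab
      omega
    have hsub : ((Icc 1 X).filter (fun n => m < n)).image (fun n => n - m - 1) ⊆ range X := by
      intro k hk
      obtain ⟨n, hn, rfl⟩ := Finset.mem_image.1 hk
      have hn' := Finset.mem_filter.1 hn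
      have := Finset.mem_Icc.1 hn'.1
      rw [Finset.mem_range]
      omega
    calc ∑ n ∈ (Icc 1 X).filter (fun n => m < n), (1 : ℝ) / |(m : ℝ) - n|
        = ∑ n ∈ (Icc 1 X).filter (fun n => m < n), (1 : ℝ) / (((n - m - 1 : ℕ) : ℝ) + 1) := by
          refine Finset.sum_congr rfl fun n hn => ?_
          have hn' := (Finset.mem_filter.1 hn).2
          have e : ((n - m - 1 : ℕ) : ℝ) + 1 = (n : ℝ) - m := by
            have : n - m - 1 + 1 + m = n := by omega
            have h3 : (((n - m - 1 + 1 + m : ℕ)) : ℝ) = (n : ℝ) := by rw [this]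
            push_cast at h3
            linarith
          rw [e, abs_sub_comm, abs_of_pos]
          have : (m : ℝ) < n := by exact_mod_cast hn'
          linarith
      _ = ∑ k ∈ ((Icc 1 X).filter (fun n => m < n)).image (fun n => n - m - 1),
            (1 : ℝ) / ((k : ℝ) + 1) := by
          rw [Finset.sum_image hinj]
      _ ≤ ∑ i ∈ range X, (1 : ℝ) / ((i : ℝ) + 1) :=
          Finset.sum_le_sum_of_subset_of_nonneg hsub fun i _ _ => by positivity
  linarith

private theorem mv_log {m n X : ℕ} (hm : m ∈ Icc 1 X) (hn : n ∈ Icc 1 X) (hne : n ≠ m) :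
    |(m : ℝ) - n| / X ≤ |Real.log m - Real.log n| := by
  have key : ∀ a b : ℕ, a ∈ Icc 1 X → b ∈ Icc 1 X → b < a →
      ((a : ℝ) - b) / X ≤ Real.log a - Real.log b := by
    intro a b ha hb hlt
    have ha' := Finset.mem_Icc.1 ha
    have hb' := Finset.mem_Icc.1 hb
    have ha0 : (0 : ℝ) < a := by exact_mod_cast (show 0 < a by omega)
    have hb0 : (0 : ℝ) < b := by exact_mod_cast (show 0 < b by omega)
    have hX : (0 : ℝ) < X := by exact_mod_cast (show 0 < X by omega)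
    have haX : (a : ℝ) ≤ X := by exact_mod_cast ha'.2
    have hlt' : (b : ℝ) < a := by exact_mod_cast hlt
    have h := Real.log_le_sub_one_of_pos (div_pos hb0 ha0)
    rw [Real.log_div hb0.ne' ha0.ne'] at h
    have e : (b : ℝ) / a - 1 = -(((a : ℝ) - b) / a) := by field_simp; ring
    rw [e] at h
    have h2 : ((a : ℝ) - b) / X ≤ ((a : ℝ) - b) / a :=
      div_le_div_of_nonneg_left (by linarith) ha0 haX
    linarith
  rcases lt_or_gt_of_ne hne with h | h
  · have h1 := key m n hm hn h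
    have h2 : (n : ℝ) < m := by exact_mod_cast h
    rw [abs_of_pos (by linarith : (0 : ℝ) < (m : ℝ) - n)]
    exact h1.trans (le_abs_self _)
  · have h1 := key n m hn hm h
    have h2 : (m : ℝ) < n := by exact_mod_cast h
    rw [abs_sub_comm, abs_of_pos (by linarith : (0 : ℝ) < (n : ℝ) - m), abs_sub_comm]
    exact h1.trans (le_abs_self _)

/-- the kernel -/
private noncomputable def mvK (X : ℕ) (T : ℝ) (m n : ℕ) : ℝ :=
  if n = m then 2 * T else 2 * X * (1 / |(m : ℝ) - n|)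

private theorem mvK_symm (X : ℕ) (T : ℝ) (m n : ℕ) : mvK X T m n = mvK X T n m := by
  unfold mvK
  by_cases h : n = m
  · rw [if_pos h, if_pos h.symm]
  · rw [if_neg h, if_neg (Ne.symm h), abs_sub_comm]

private theorem mvK_nonneg (X : ℕ) {T : ℝ} (hT : 0 ≤ T) (m n : ℕ) : 0 ≤ mvK X T m n := by
  unfold mvK
  split_ifs <;> positivity

private theorem mvK_row (X m : ℕ) (T : ℝ) (hm : m ∈ Icc 1 X) :
    ∑ n ∈ Icc 1 X, mvK X T m n ≤ 2 * T + 4 * X * (1 + Real.log X) := by
  rw [← Finset.sum_filter_add_sum_filter_not (Icc 1 X) (fun n => n = m)]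
  have h1 : ∑ n ∈ (Icc 1 X).filter (fun n => n = m), mvK X T m n = 2 * T := by
    rw [Finset.filter_eq' (Icc 1 X) m, if_pos hm, Finset.sum_singleton]
    unfold mvK
    rw [if_pos rfl]
  have h2 : ∑ n ∈ (Icc 1 X).filter (fun n => ¬ n = m), mvK X T m n
      = 2 * X * ∑ n ∈ (Icc 1 X).filter (fun n => n ≠ m), (1 : ℝ) / |(m : ℝ) - n| := by
    rw [Finset.mul_sum]
    refine Finset.sum_congr rfl fun n hn => ?_
    unfold mvK
    rw [if_neg (Finset.mem_filter.1 hn).2]
  rw [h1, h2]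
  have h3 := mul_le_mul_of_nonneg_left (mv_row X m hm) (by positivity : (0 : ℝ) ≤ 2 * X)
  linarith

private theorem mv_kernel {X m n : ℕ} {T : ℝ} (hT : 0 ≤ T) (hm : m ∈ Icc 1 X) (hn : n ∈ Icc 1 X) :
    ‖∫ t in (-T)..T, Complex.exp ((((Real.log m - Real.log n : ℝ) : ℂ) * Complex.I) * (t : ℂ))‖
      ≤ mvK X T m n := by
  unfold mvK
  by_cases h : n = m
  · rw [if_pos h, h]
    have e : ∀ t : ℝ, Complex.exp ((((Real.log m - Real.log m : ℝ) : ℂ) * Complex.I) * (t : ℂ)) = 1 := by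
      intro t
      rw [sub_self]
      simp
    simp only [e]
    rw [intervalIntegral.integral_const]
    simp only [Complex.real_smul, mul_one]
    rw [Complex.norm_real, Real.norm_eq_abs, abs_of_nonneg (by linarith)]
    linarith
  · rw [if_neg h]
    have hX : (0 : ℝ) < X := by
      have := Finset.mem_Icc.1 hm
      exact_mod_cast (show 0 < X by omega)
    have hne : (m : ℝ) - n ≠ 0 := by
      intro h0
      apply h
      have : (n : ℝ) = m := by linarith
      exact_mod_cast this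
    have hpos : 0 < |(m : ℝ) - n| := abs_pos.2 hne
    have hl := mv_log hm hn h
    have hlpos : 0 < |Real.log m - Real.log n| := lt_of_lt_of_le (div_pos hpos hX) hl
    refine (mv_int T _ (abs_pos.1 hlpos)).trans ?_
    calc 2 / |Real.log m - Real.log n| ≤ 2 / (|(m : ℝ) - n| / X) :=
          div_le_div_of_nonneg_left (by norm_num) (div_pos hpos hX) hl
      _ = 2 * X * (1 / |(m : ℝ) - n|) := by field_simp

theorem mean_v (a : ℕ → ℂ) (X : ℕ) (T : ℝ) (hX : 1 ≤ X) (hT : 0 ≤ T) :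
    ∫ t in (-T)..T, ‖∑ m ∈ Icc 1 X, a m * (m : ℂ) ^ (-(1 / 2 : ℂ) + t * Complex.I)‖ ^ 2
      ≤ (2 * T + 4 * X * (1 + Real.log X)) * ∑ m ∈ Icc 1 X, ‖a m‖ ^ 2 / m := by
  set b : ℕ → ℂ := fun m => a m * (m : ℂ) ^ (-(1 / 2 : ℂ)) with hb
  have hbn : ∀ m ∈ Icc 1 X, ‖b m‖ ^ 2 = ‖a m‖ ^ 2 / m := by
    intro m hm
    have hm' := Finset.mem_Icc.1 hm
    have hm0 : (0 : ℝ) < m := by exact_mod_cast (show 0 < m by omega)
    rw [hb]
    simp only
    rw [norm_mul, mul_pow, Complex.norm_natCast_cpow_of_pos (by omega)]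
    have e : (-(1 / 2 : ℂ)).re = -(1 / 2 : ℝ) := by simp
    rw [e, ← Real.rpow_natCast, ← Real.rpow_natCast, ← Real.rpow_mul hm0.le]
    norm_num
    rw [Real.rpow_neg_one]
    ring
  have hpt : ∀ t : ℝ, ∑ m ∈ Icc 1 X, a m * (m : ℂ) ^ (-(1 / 2 : ℂ) + t * Complex.I)
      = ∑ m ∈ Icc 1 X, b m * Complex.exp ((((Real.log m : ℝ) : ℂ) * Complex.I) * (t : ℂ)) := by
    intro t
    refine Finset.sum_congr rfl fun m hm => ?_
    have hm' := Finset.mem_Icc.1 hm
    have hm0 : (m : ℂ) ≠ 0 := by exact_mod_cast (show m ≠ 0 by omega)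
    rw [hb]
    simp only
    rw [Complex.cpow_add _ _ hm0, mul_assoc]
    congr 2
    rw [Complex.cpow_def_of_ne_zero hm0, ← Complex.natCast_log]
    congr 1
    ring
  simp_rw [hpt]
  refine (mv_expand b (fun m => Real.log m) (Icc 1 X) T).trans ?_
  calc ∑ m ∈ Icc 1 X, ∑ n ∈ Icc 1 X, ‖b m‖ * ‖b n‖ *
        ‖∫ t in (-T)..T, Complex.exp ((((Real.log m - Real.log n : ℝ) : ℂ) * Complex.I) * (t : ℂ))‖
      ≤ ∑ m ∈ Icc 1 X, ∑ n ∈ Icc 1 X, (‖b m‖ ^ 2 / 2 * mvK X T m n + ‖b n‖ ^ 2 / 2 * mvK X T m n) := by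
        refine Finset.sum_le_sum fun m hm => Finset.sum_le_sum fun n hn => ?_
        have h1 := mv_kernel hT hm hn
        have h2 : ‖b m‖ * ‖b n‖ ≤ ‖b m‖ ^ 2 / 2 + ‖b n‖ ^ 2 / 2 := by
          nlinarith [sq_nonneg (‖b m‖ - ‖b n‖)]
        have h3 := mvK_nonneg X hT m n
        calc ‖b m‖ * ‖b n‖ * ‖∫ t in (-T)..T,
              Complex.exp ((((Real.log m - Real.log n : ℝ) : ℂ) * Complex.I) * (t : ℂ))‖
            ≤ ‖b m‖ * ‖b n‖ * mvK X T m n := mul_le_mul_of_nonneg_left h1 (by positivity)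
          _ ≤ (‖b m‖ ^ 2 / 2 + ‖b n‖ ^ 2 / 2) * mvK X T m n := mul_le_mul_of_nonneg_right h2 h3
          _ = _ := by ring
    _ = ∑ m ∈ Icc 1 X, ‖b m‖ ^ 2 * ∑ n ∈ Icc 1 X, mvK X T m n := by
        simp_rw [Finset.sum_add_distrib]
        have e1 : ∑ m ∈ Icc 1 X, ∑ n ∈ Icc 1 X, ‖b n‖ ^ 2 / 2 * mvK X T m n
            = ∑ m ∈ Icc 1 X, ∑ n ∈ Icc 1 X, ‖b m‖ ^ 2 / 2 * mvK X T m n := by
          rw [Finset.sum_comm]
          refine Finset.sum_congr rfl fun m _ => Finset.sum_congr rfl fun n _ => ?_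
          rw [mvK_symm]
        rw [e1, ← Finset.sum_add_distrib]
        refine Finset.sum_congr rfl fun m _ => ?_
        rw [← Finset.sum_add_distrib, Finset.mul_sum]
        refine Finset.sum_congr rfl fun n _ => ?_
        ring
    _ ≤ ∑ m ∈ Icc 1 X, ‖b m‖ ^ 2 * (2 * T + 4 * X * (1 + Real.log X)) := by
        refine Finset.sum_le_sum fun m hm => ?_
        exact mul_le_mul_of_nonneg_left (mvK_row X m T hm) (by positivity)
    _ = (2 * T + 4 * X * (1 + Real.log X)) * ∑ m ∈ Icc 1 X, ‖a m‖ ^ 2 / m := by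
        rw [Finset.mul_sum]
        refine Finset.sum_congr rfl fun m hm => ?_
        rw [hbn m hm]
        ring

end Pool.Agent.H35.W

end
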