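import Pool.Agent.H43.PS.M04
import Pool.Agent.H43.PS.M06
import Pool.Agent.H43.PS.M07
import Pool.Agent.H43.PS.M08

/-! The parts of this file: H43.CH.Defs, H43.CH.CdDefs, H53.MIX.Defs, H43.CH.PropC, H10.GoldLoc.Mertens, H43.LM.Rk, H43.CH.DecN, H76.VKT.FkUp, H43.CH.LvD, H76.EHB.MelB, H35.W.MelG, H76.MU.MelM, H76.SP.MelL, H35.W.MelTl, H43.CH.RkT. -/

section

/-!
# CH Defs (project CH: averaged correlations of the Möbius function and windows along progressions)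

`mu`, `Fr`, `gP`, `hI`, `Win`, `Mw` are those of `H43/LM/Defs.lean`; `FF`, `S2` those of EHB; `cor`, `pb` of `H35/W`; `nrm`, `BS`, `CorM`, `Uw` of `H76/MU/Defs.lean`.
`L = log x` or `log X`.  `gP P1 P k = -μ(k)` if `k` has no prime factor in `(P1, P]`, and `0` otherwise.
-/

set_option autoImplicit false

namespace Pool.Agent.H43.CH

open Finset MeasureTheory
open Pool.Agent.H91.PK (ee)
open Pool.Agent.H43.LM (mu Fr gP)
open Pool.Agent.H76.EHB (FF)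

/-- the primes of `(a, b]` -/
def pI (a b : ℕ) : Finset ℕ := (Ioc a b).filter Nat.Prime

/-- the primes of `(a, b]` in the class `r` modulo `c` -/
def pIc (a b c r : ℕ) : Finset ℕ := (pI a b).filter (fun p => p % c = r % c)

/-- `∑_{p ∈ S, p ∣ n} g(n/p)` -/
noncomputable def FS (g : ℕ → ℝ) (S : Finset ℕ) (n : ℕ) : ℝ := ∑ p ∈ S.filter (fun p => p ∣ n), g (n / p)

/-- `∑_{k ∈ S} ∑_{n ≤ x} f(n) ee(k n θ)` -/
noncomputable def SGs (f : ℕ → ℝ) (x : ℕ) (S : Finset ℕ) (θ : ℝ) : ℂ := ∑ k ∈ S, FF f x (k * θ)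

/-- `f` cut to `(M, N]` -/
noncomputable def cutf (f : ℕ → ℝ) (M N n : ℕ) : ℝ := if n ∈ Ioc M N then f n else 0

/-- `f` cut to the class `u` modulo `c` -/
noncomputable def cl (f : ℕ → ℝ) (c u n : ℕ) : ℝ := if n % c = u % c then f n else 0

/-- `∑_{p ∈ (a, b], p ≡ r (c)} log p · p^{2πit}` -/
noncomputable def PSr (c r a b : ℕ) (t : ℝ) : ℂ :=
  ∑ p ∈ pIc a b c r, ((Real.log p : ℝ) : ℂ) * ee (t * Real.log p)

/-- `∑_{n ≤ y, n ≡ u (c)} μ(n) n^{2πit}` -/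
noncomputable def SU (c u y : ℕ) (t : ℝ) : ℂ :=
  ∑ n ∈ (Icc 1 y).filter (fun n => n % c = u % c), ((mu n : ℝ) : ℂ) * ee (t * Real.log n)

/-- `∑_{n ≤ y} μ(n) ee(n b/c) n^{2πit}` -/
noncomputable def ST (c b y : ℕ) (t : ℝ) : ℂ :=
  ∑ n ∈ Icc 1 y, ((mu n : ℝ) : ℂ) * ee ((n : ℝ) * ((b : ℝ) / c)) * ee (t * Real.log n)

/-- `∑_{n ≤ y} gP P1 P n · ee(n b/c) n^{2πit}` -/
noncomputable def GT (P1 P c b y : ℕ) (t : ℝ) : ℂ :=
  ∑ n ∈ Icc 1 y, ((gP P1 P n : ℝ) : ℂ) * ee ((n : ℝ) * ((b : ℝ) / c)) * ee (t * Real.log n)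

/-- the number of the primes of `(a, b]` dividing `n` -/
noncomputable def rI (a b n : ℕ) : ℝ := (((pI a b).filter (fun p => p ∣ n)).card : ℝ)

open Classical in
/-- the error of the decomposition of `μ(n)` along the blocks `(Q j, Q (j+1)]`, `j < J` -/
noncomputable def erN (Q : ℕ → ℕ) (J n : ℕ) : ℝ :=
  (if Fr (Q 0) (Q J) n then 1 else 0) + ∑ j ∈ range J, rI (Q j) (Q (j + 1)) n * (rI (Q j) (Q (j + 1)) n - 1)
    + (((pI (Q 0) (Q J)).filter (fun p => p ^ 2 ∣ n)).card : ℝ)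

/-- the part of `μ(n)` which comes from the blocks -/
noncomputable def AN (Q : ℕ → ℕ) (J n : ℕ) : ℝ := ∑ j ∈ range J, FS (gP (Q 0) (Q j)) (pI (Q j) (Q (j + 1))) n

/-- extension of a function to the integers -/
noncomputable def fz (f : ℕ → ℝ) (z : ℤ) : ℝ := if 0 ≤ z then f z.toNat else 0

end Pool.Agent.H43.CH

end

section

/-!
# CH CdDefs: the definitions of Cd0
-/

set_option autoImplicit false

namespace Pool.Agent.H43.CH

open Finset MeasureTheory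
open Pool.Agent.H43.LM (mu Mw)

/-- the saving factor -/
noncomputable def sav (X H : ℕ) (δ : ℝ) : ℝ := Real.log (Real.log X) / Real.log H + Real.log X ^ (δ - 1)

/-- the properties of the decomposition `μ = a + (μ - a)` at the scale `X`, for lengths `≥ H0` -/
structure Sp (A Bd : ℕ) (τ ε : ℝ) (X H0 : ℕ) (a : ℕ → ℝ) : Prop where
  bd : ∀ n, 1 ≤ n → n ≤ 4 * X → |a n| ≤ 4 * Real.log X
  ms : ∀ (U V : ℕ) (H : ℕ) (α : ℝ), X ≤ U → V ≤ 4 * X → H0 ≤ H → (H : ℝ) ≤ (X : ℝ) ^ (1 - ε) * Real.log X ^ Bd →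
    ∫ x : ℝ, ‖Mw (cutf a U V) x (2 * H) α‖ ^ 2 ≤ X * (2 * (H : ℝ)) ^ 2 / Real.log X ^ A
  sv : ∀ (d n0 q0 H : ℕ), 1 ≤ d → (d : ℝ) ≤ Real.log X ^ Bd → H0 ≤ H →
    ∑ q ∈ Ioc q0 (q0 + H), |mu (n0 + d * q) - a (n0 + d * q)| ≤ H * τ

end Pool.Agent.H43.CH

end

section

/-!
# MIX Defs: hypotheses of the strengthened theorem (windows `exp((log N)^θ)`)

* `VKw t1`: Vinogradov-Korobov for sums over residue classes, `z ≥ exp((log x)^t1)`;
* `VKe t0`: exponential sums over integers, `K ≥ exp((log x)^t0)`;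
* `CombX t t2`: the combinatorial theorem with the boost (project MIDX of helper74): `P ≥ exp((log N)^t)`, `Q = exp((log N)^t2)`.
-/

set_option autoImplicit false

namespace Pool.Agent.H53.MIX

open Finset
open Pool.Agent.H91.PK (ee)
open Pool.Agent.H91.EHA (Lam)

/-- Vinogradov-Korobov for `Λ` in residue classes -/
def VKw (t1 : ℝ) : Prop := ∀ (K B : ℕ), ∃ K' x0 : ℕ, ∀ x : ℕ, x0 ≤ x →
  ∀ (d u z : ℕ) (t : ℝ), 1 ≤ d → (d : ℝ) ≤ Real.log x ^ B → Real.exp (Real.log x ^ t1) ≤ z → z ≤ x ^ 2 →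
    Real.log x ^ K' ≤ |t| → |t| ≤ (x : ℝ) ^ (2 : ℕ) →
    ‖∑ n ∈ (Icc 1 z).filter (fun n => n % d = u % d), ((Lam n : ℝ) : ℂ) * ee (t * Real.log n)‖
      ≤ z / Real.log x ^ K

end Pool.Agent.H53.MIX

end

section

/-! # statements of the theorems of the chain -/

set_option autoImplicit false

namespace Pool.Agent.H43.CH

open Finset MeasureTheory ProbabilityTheory
open Pool.Agent.H91.PK (ee)
open Pool.Agent.H53.MIX (VKw)
open Pool.Agent.H35.W (pb cor)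
open Pool.Agent.H43.LM (mu gP Mw Win)
open Pool.Agent.H76.MU (nrm BS CorM Uw)

/-- the statement of `psr_vk` -/
def psr_vk_P : Prop := ∀ (hV : VKw (19 / 20)),
    ∀ K B : ℕ, ∃ K' x0 : ℕ, ∀ x : ℕ, x0 ≤ x → ∀ (c r a b : ℕ) (t : ℝ), 1 ≤ c →
    (c : ℝ) ≤ Real.log x ^ B → Real.exp (Real.log x ^ (19 / 20 : ℝ)) ≤ a → a ≤ b → b ≤ x ^ 2 →
    Real.log x ^ K' ≤ |t| → |t| ≤ (x : ℝ) ^ (2 : ℕ) → ‖PSr c r a b t‖ ≤ b / Real.log x ^ K

/-- the statement of `jms` -/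
def jms_P : Prop := ∀ (C0 E : ℕ) (η : ℝ) (hη : 0 < η) (hη1 : η ≤ 1),
    ∃ b K m0 : ℕ, ∀ m : ℕ, m0 ≤ m →
    ∃ κ x0 : ℕ, ∀ x : ℕ, x0 ≤ x → ∀ (g : ℕ → ℝ) (N M P : ℕ) (S : Finset ℕ) (Y s : ℝ),
      CorM x m K η N M g → N ≤ x → x / Real.log x ^ C0 ≤ M → Real.log x ^ b ≤ P → S ⊆ pb P →
      P ≤ x → (s = 1 ∨ s = -1) → P * Y ≤ 1 / Real.log x ^ (E + 12) →
      ∫ y in Set.Icc (Real.log x ^ κ / (P * x)) Y, ‖SGs g N S (s * y)‖ ^ 2
        ≤ P * x / Real.log x ^ E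

/-- the statement of `midc` -/
def midc_P : Prop := ∀ (hV : VKw (19 / 20)),
    ∃ η : ℝ, 0 < η ∧ η ≤ 1 / 10 ∧ ∀ K B : ℕ, ∃ K' x0 : ℕ, ∀ x : ℕ, x0 ≤ x →
    ∀ (y Z a b c r : ℕ) (w : ℕ → ℝ) (T η' : ℝ) (Bs : Set ℝ), 1 ≤ c → (c : ℝ) ≤ Real.log x ^ B →
      Real.exp (Real.log x ^ (19 / 20 : ℝ)) ≤ a → (x : ℝ) ^ (1 / 20 : ℝ) ≤ Z →
      (x : ℝ) ^ (1 / 2 : ℝ) ≤ y → y ≤ x → (∀ n, |w n| ≤ 1) →
      Real.log x ^ K' ≤ T → T ≤ x → 0 ≤ η' → η' ≤ η → BS η' T Bs →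
      nrm Bs (fun t => ∑ p ∈ pIc a (min b y) c r, ((Real.log p : ℝ) : ℂ) * ee (t * Real.log p) *
          ∑ n ∈ Ioc Z (y / p), ((w n : ℝ) : ℂ) * ee (t * Real.log n)) ≤ y / Real.log x ^ K

/-- the statement of `longc` -/
def longc_P : Prop := ∀ (hV : VKw (19 / 20)),
    ∃ η : ℝ, 0 < η ∧ η ≤ 1 / 10 ∧ ∀ K B : ℕ,
    ∃ K' x0 : ℕ, ∀ x : ℕ, x0 ≤ x → ∀ (c r a b : ℕ) (T η' : ℝ) (Bs : Set ℝ), 1 ≤ c → (c : ℝ) ≤ Real.log x ^ B →
      (a : ℝ) ≤ (x : ℝ) ^ (1 / 4 : ℝ) → (x : ℝ) ^ (2 / 3 : ℝ) ≤ b → b ≤ x →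
      Real.log x ^ K' ≤ T → T ≤ x → 0 ≤ η' → η' ≤ η → BS η' T Bs →
      nrm Bs (fun t => PSr c r a b t) ≤ b / Real.log x ^ K

/-- the statement of `logsumc` -/
def logsumc_P : Prop := ∀ (hV : VKw (19 / 20)),
    ∃ η : ℝ, 0 < η ∧ η ≤ 1 / 10 ∧ ∀ K B : ℕ,
    ∃ K' x0 : ℕ, ∀ x : ℕ, x0 ≤ x → ∀ (c D1 y : ℕ) (T η' ψ : ℝ) (Bs : Set ℝ), 1 ≤ c → (c : ℝ) ≤ Real.log x ^ B →
      D1 = ⌈Real.exp (Real.log x ^ (19 / 20 : ℝ))⌉₊ → (x : ℝ) ^ (3 / 4 : ℝ) ≤ y → y ≤ x →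
      Real.log x ^ K' ≤ T → T ≤ x → 0 ≤ η' → η' ≤ η → BS η' T Bs → 0 ≤ ψ →
      (∀ u : ℕ, Nat.Coprime u c → ∀ z : ℕ, (y : ℝ) / (2 * D1) ≤ z → z ≤ y → nrm Bs (SU c u z) ≤ ψ * z) →
      ∀ u : ℕ, Nat.Coprime u c →
        nrm Bs (fun t => ∑ n ∈ (Icc 1 y).filter (fun n => n % c = u % c),
            ((mu n * Real.log n : ℝ) : ℂ) * ee (t * Real.log n))
          ≤ (2 * Real.log x ^ (19 / 20 : ℝ) * ψ + 1 / Real.log x ^ K) * y

/-- the statement of `lvc` -/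
def lvc_P : Prop := ∀ (hV : VKw (19 / 20)),
    ∃ η : ℝ, 0 < η ∧ η ≤ 1 / 10 ∧ ∀ K B : ℕ,
    ∃ K' x0 : ℕ, ∀ x : ℕ, x0 ≤ x → ∀ (c u y : ℕ) (T : ℝ) (Bs : Set ℝ), 1 ≤ c → (c : ℝ) ≤ Real.log x ^ B →
      Nat.Coprime u c → (x : ℝ) ^ (4 / 5 : ℝ) ≤ y → y ≤ x →
      Real.log x ^ K' ≤ T → T ≤ x → BS η T Bs → nrm Bs (SU c u y) ≤ y / Real.log x ^ K

/-- the statement of `lvt` -/
def lvt_P : Prop := ∀ (hV : VKw (19 / 20)),
    ∃ η : ℝ, 0 < η ∧ η ≤ 1 / 10 ∧ ∀ K B : ℕ,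
    ∃ K' x0 : ℕ, ∀ x : ℕ, x0 ≤ x → ∀ (c b y : ℕ) (T : ℝ) (Bs : Set ℝ), 1 ≤ c → (c : ℝ) ≤ Real.log x ^ B →
      (x : ℝ) ^ (5 / 6 : ℝ) ≤ y → y ≤ x →
      Real.log x ^ K' ≤ T → T ≤ x → BS η T Bs → nrm Bs (ST c b y) ≤ y / Real.log x ^ K

open Classical in
/-- the statement of `lvg` -/
def lvg_P : Prop := ∀ (hV : VKw (19 / 20)) (s : ℝ) (hs0 : 0 < s) (hs : s < 1),
    ∃ η : ℝ, 0 < η ∧ η ≤ 1 / 10 ∧ ∀ K B : ℕ,
    ∃ K' x0 : ℕ, ∀ x : ℕ, x0 ≤ x → ∀ (P1 P c b y : ℕ) (T : ℝ) (Bs : Set ℝ), (P : ℝ) ≤ Real.exp (Real.log x ^ s) →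
      1 ≤ c → (c : ℝ) ≤ Real.log x ^ B → y ≤ x →
      Real.log x ^ K' ≤ T → T ≤ x → BS η T Bs → nrm Bs (GT P1 P c b y) ≤ x / Real.log x ^ K

/-- the statement of `cor_g` -/
def cor_g_P : Prop := ∀ (hV : VKw (19 / 20)) (s : ℝ) (hs0 : 0 < s) (hs : s < 1),
    ∃ η : ℝ, 0 < η ∧ η ≤ 1 / 10 ∧ ∀ K B : ℕ,
    ∃ m1 : ℕ, ∀ m : ℕ, m1 ≤ m → ∃ x0 : ℕ, ∀ x : ℕ, x0 ≤ x → ∀ P1 P c u M N : ℕ,
      (P : ℝ) ≤ Real.exp (Real.log x ^ s) → 1 ≤ c → (c : ℝ) ≤ Real.log x ^ B → N ≤ x →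
      CorM x m K η N M (cutf (cl (gP P1 P) c u) M N)

/-- the statement of `var_s` -/
def var_s_P : Prop := ∀ (A : ℕ) (η : ℝ) (hη : 0 < η) (hη1 : η ≤ 1),
    ∃ b K m0 : ℕ, ∀ m : ℕ, m0 ≤ m → ∃ κ X0 : ℕ,
    ∀ X : ℕ, X0 ≤ X → ∀ (P h h' : ℕ) (S : Finset ℕ) (f : ℕ → ℝ), Real.log X ^ b ≤ P → P ^ 10 ≤ h → h ≤ h' →
      (h' : ℝ) ≤ X / Real.log X ^ κ → S ⊆ pb P → (∀ n, |f n| ≤ 1) →
      CorM (4 * X / P) m K η (4 * X / P) (X / (4 * P)) (cutf f (X / (4 * P)) (4 * X / P)) →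
      ∑ j ∈ Ioc X (2 * X), (Uw (FS f S) h j / h - Uw (FS f S) h' j / h') ^ 2 ≤ X / Real.log X ^ A

/-- the statement of `maj_d` -/
def maj_d_P : Prop := ∀ (hV : VKw (19 / 20)) (s : ℝ) (hs0 : 0 < s) (hs : s < 1) (A B : ℕ),
    ∃ b κ X0 : ℕ, ∀ X : ℕ, X0 ≤ X →
    ∀ (P1 P h c u : ℕ) (S : Finset ℕ), Real.log X ^ b ≤ P → (P : ℝ) ≤ Real.exp (Real.log X ^ s) → P ^ 10 ≤ h →
      (h : ℝ) ≤ X / Real.log X ^ κ → S ⊆ pb P → 1 ≤ c → (c : ℝ) ≤ Real.log X ^ B →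
      ∑ j ∈ Ioc X (2 * X), (Uw (FS (cl (gP P1 P) c u) S) h j) ^ 2 ≤ X * (h : ℝ) ^ 2 / Real.log X ^ A

/-- the statement of `maj_r` -/
def maj_r_P : Prop := ∀ (hV : VKw (19 / 20)) (s : ℝ) (hs0 : 0 < s) (hs : s < 1) (A B : ℕ),
    ∃ b κ X0 : ℕ, ∀ X : ℕ, X0 ≤ X →
    ∀ (P1 P c a : ℕ) (S : Finset ℕ) (h : ℝ), Real.log X ^ b ≤ P → (P : ℝ) ≤ Real.exp (Real.log X ^ s) → (P : ℝ) ^ 11 ≤ h →
      h ≤ X / Real.log X ^ κ → S ⊆ pb P → 1 ≤ c → (c : ℝ) ≤ Real.log X ^ B →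
      ∫ x in Set.Icc (X : ℝ) (2 * X), ‖Mw (FS (gP P1 P) S) x h ((a : ℝ) / c)‖ ^ 2 ≤ X * h ^ 2 / Real.log X ^ A

/-- the statement of `maj_a` -/
def maj_a_P : Prop := ∀ (hV : VKw (19 / 20)) (s : ℝ) (hs0 : 0 < s) (hs : s < 1) (A B E : ℕ),
    ∃ b κ X0 : ℕ, ∀ X : ℕ, X0 ≤ X →
    ∀ (P1 P c a : ℕ) (S : Finset ℕ) (H β : ℝ), Real.log X ^ b ≤ P → (P : ℝ) ≤ Real.exp (Real.log X ^ s) → (P : ℝ) ^ 12 ≤ H →
      H ≤ X / Real.log X ^ κ → S ⊆ pb P → 1 ≤ c → (c : ℝ) ≤ Real.log X ^ B → |β| ≤ Real.log X ^ E / H →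
      ∫ x in Set.Icc (X : ℝ) (2 * X), ‖Mw (FS (gP P1 P) S) x H ((a : ℝ) / c + β)‖ ^ 2 ≤ X * H ^ 2 / Real.log X ^ A

/-- the statement of `fix_a` -/
def fix_a_P : Prop := ∀ (hV : VKw (19 / 20)) (s : ℝ) (hs0 : 0 < s) (hs : s < 1) (A : ℕ),
    ∃ b κ X0 : ℕ, ∀ X : ℕ, X0 ≤ X →
    ∀ (P1 P : ℕ) (S : Finset ℕ) (H α : ℝ), Real.log X ^ b ≤ P → (P : ℝ) ≤ Real.exp (Real.log X ^ s) → (P : ℝ) ^ 12 ≤ H →
      H ≤ X / Real.log X ^ κ → S ⊆ pb P →
      ∫ x in Set.Icc (X : ℝ) (2 * X), ‖Mw (FS (gP P1 P) S) x H α‖ ^ 2 ≤ X * H ^ 2 / Real.log X ^ A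

/-- the statement of `msq` -/
def msq_P : Prop := ∀ (hV : VKw (19 / 20)) (s : ℝ) (hs0 : 0 < s) (hs : s < 1) (A : ℕ),
    ∃ b κ X0 : ℕ, ∀ X : ℕ, X0 ≤ X →
    ∀ (Q : ℕ → ℕ) (J U V : ℕ) (H α : ℝ), Real.log X ^ b ≤ Q 0 → Monotone Q → (∀ j, Q (j + 1) ≤ 2 * Q j) →
      (Q J : ℝ) ≤ Real.exp (Real.log X ^ s) → (J : ℝ) ≤ Real.log X ^ 5 → (Q J : ℝ) ^ 12 ≤ H → H ≤ X / Real.log X ^ κ →
      X ≤ U → V ≤ 4 * X →
      ∫ x : ℝ, ‖Mw (cutf (AN Q J) U V) x H α‖ ^ 2 ≤ X * H ^ 2 / Real.log X ^ A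

/-- the statement of `cd0` -/
def cd0_P : Prop := ∀ (A Bd : ℕ) (δ ε : ℝ) (hδ : 0 < δ) (hδ1 : δ < 1) (hε : 0 < ε) (hε1 : ε < 1),
    ∃ C : ℝ, 1 ≤ C ∧ ∃ X0 : ℕ, ∀ X : ℕ, X0 ≤ X →
    ∀ H0 : ℕ, C * Real.log (Real.log X) ≤ Real.log H0 → ∃ a : ℕ → ℝ, Sp A Bd (C * sav X H0 δ) ε X H0 a

/-- the statement of `cd1` -/
def cd1_P : Prop := ∀ (k B : ℕ) (δ ε : ℝ) (hδ : 0 < δ) (hδ1 : δ < 1) (hε : 0 < ε) (hε1 : ε < 1),
    ∃ (C : ℝ) (X0 : ℕ), 1 ≤ C ∧
    ∀ X : ℕ, X0 ≤ X → ∀ H : ℕ, 2 ≤ H → (H : ℝ) ≤ (X : ℝ) ^ (1 - ε) →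
      ∀ G : ℕ → ℂ, (∀ n ∈ Ioc X (2 * X), ‖G n‖ ≤ 1) →
        ∑ h ∈ Fintype.piFinset (fun _ : Fin k => Icc 1 H), ‖∑ n ∈ Ioc X (2 * X), G n * ∏ i, ((mu (n + h i) : ℝ) : ℂ)‖
          ≤ (H : ℝ) ^ k * ((C * sav X H δ) ^ k * (∑ n ∈ Ioc X (2 * X), ‖G n‖) + X / Real.log X ^ B)

/-- the statement of `cd2` -/
def cd2_P : Prop := ∀ (B : ℕ) (δ ε : ℝ) (hδ : 0 < δ) (hδ1 : δ < 1) (hε : 0 < ε) (hε1 : ε < 1),
    ∃ (C : ℝ) (X0 : ℕ), 1 ≤ C ∧
    ∀ X : ℕ, X0 ≤ X → ∀ H q0 d : ℕ, 2 ≤ H → ((q0 + H : ℕ) : ℝ) ≤ (X : ℝ) ^ (1 - ε) → 1 ≤ d → (d : ℝ) ≤ Real.log X ^ B →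
      ∑ q ∈ Ioc q0 (q0 + H), |∑ n ∈ Ioc X (2 * X), mu n * mu (n + q * d)|
        ≤ C * H * X * sav X H δ ^ 2

/-- the statement of `cdm` -/
def cdm_P : Prop := ∀ (δ ε : ℝ) (hδ : 0 < δ) (hδ1 : δ < 1) (hε : 0 < ε) (hε1 : ε < 1),
    ∃ N0 : ℕ, ∀ X : ℕ, N0 ≤ X →
    ∀ H K : ℕ, 2 ≤ H → (H : ℝ) ≤ (X : ℝ) ^ (1 - ε) →
      (N0 : ℝ) * K ≤ (Real.log H / Real.log (Real.log X)) ^ 2 → (K : ℝ) ≤ Real.log X ^ (2 - δ) →
      ∑ h ∈ Fintype.piFinset (fun _ : Fin K => Icc 1 H), ∑ n ∈ Ioc X (2 * X), (∑ i, mu (n + h i)) ^ 2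
        ≤ 2 * K * (H : ℝ) ^ K * X

end Pool.Agent.H43.CH

end

section

/-!
Sums and products over primes.
-/

namespace Pool.Agent.H10.GoldLoc

open Finset Real
open Pool.Agent.H91.Gold (Mt Mt_le Mt_ge abel_le)
open scoped ArithmeticFunction.vonMangoldt

/-- Passing from a Mertens type bound for `∑ log p / p` to one for `∑ 1 / p`. -/
theorem mertens_gen' {w z : ℕ} (hw : 2 ≤ w) (hwz : w ≤ z) {c : ℝ} (hc : 0 ≤ c)
    (h : ∀ m, w ≤ m → m ≤ z → Mt m - Mt w ≤ Real.log m - Real.log w + c) :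
    ∑ p ∈ PP w z, (1 : ℝ) / p ≤ Real.log (Real.log z / Real.log w) + c / Real.log w := by
  have hlw : 0 < Real.log w := Real.log_pos (by exact_mod_cast (by omega : 1 < w))
  have hlog : ∀ k : ℕ, w ≤ k → 0 < Real.log k := by
    intro k hk
    apply Real.log_pos
    exact_mod_cast (by omega : 1 < k)
  have h1 : ∑ p ∈ PP w z, (1 : ℝ) / p
      = ∑ k ∈ Ioc w z, (if k.Prime then Real.log k / k else 0) * (1 / Real.log k) := by
    unfold PP
    rw [sum_filter]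
    apply sum_congr rfl
    intro k hk
    rw [mem_Ioc] at hk
    split_ifs with hp
    · have := (hlog k hk.1.le).ne'
      field_simp
    · simp
  have h2 : ∑ k ∈ Ioc w z, (if k.Prime then Real.log k / k else 0) * (1 / Real.log k)
      ≤ ∑ k ∈ Ioc w z, (Real.log k - Real.log (k - 1 : ℕ)) * (1 / Real.log k)
        + c * (1 / Real.log ((w + 1 : ℕ) : ℝ)) := by
    apply abel_le hwz hc
    · intro k hk1 _
      have := hlog k hk1.le
      positivity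
    · have := hlog (w + 1) (by omega)
      positivity
    · intro k hk1 _
      have := hlog k hk1.le
      apply one_div_le_one_div_of_le this
      apply Real.log_le_log
      · exact_mod_cast (by omega : 0 < k)
      · push_cast; linarith
    · intro m hm1 hm2
      have e1 : ∑ k ∈ Ioc w m, (Real.log k - Real.log (k - 1 : ℕ)) = Real.log m - Real.log w := by
        clear hm2
        induction m, hm1 using Nat.le_induction with
        | base => simp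
        | succ m hm ih =>
          rw [sum_Ioc_succ_top (by omega), ih]
          simp
      have e2 : ∑ k ∈ Ioc w m, (if k.Prime then Real.log k / k else 0) ≤ Mt m - Mt w := by
        have e3 : Mt m - Mt w = ∑ k ∈ Ioc w m, Λ k / k := by
          unfold Mt
          rw [← sum_Ioc_consecutive _ (Nat.zero_le w) hm1]
          ring
        rw [e3]
        apply sum_le_sum
        intro k _
        split_ifs with hp
        · rw [ArithmeticFunction.vonMangoldt_apply_prime hp]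
        · have := ArithmeticFunction.vonMangoldt_nonneg (n := k)
          positivity
      rw [e1]
      exact e2.trans (h m hm1 hm2)
  have h3 : ∀ m, w ≤ m → ∑ k ∈ Ioc w m, (Real.log k - Real.log (k - 1 : ℕ)) * (1 / Real.log k)
      ≤ Real.log (Real.log m) - Real.log (Real.log w) := by
    intro m hm
    induction m, hm using Nat.le_induction with
    | base => simp
    | succ m hm ih =>
      rw [sum_Ioc_succ_top (by omega)]
      have a1 := hlog m hm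
      have a2 := hlog (m + 1) (by omega)
      have a3 : (Real.log ((m + 1 : ℕ) : ℝ) - Real.log (m + 1 - 1 : ℕ)) * (1 / Real.log ((m + 1 : ℕ) : ℝ))
          ≤ Real.log (Real.log ((m + 1 : ℕ) : ℝ)) - Real.log (Real.log m) := by
        have b1 := Real.log_le_sub_one_of_pos (x := Real.log m / Real.log ((m + 1 : ℕ) : ℝ)) (by positivity)
        rw [Real.log_div a1.ne' a2.ne'] at b1
        rw [Nat.add_sub_cancel]
        have b2 : (Real.log ((m + 1 : ℕ) : ℝ) - Real.log m) * (1 / Real.log ((m + 1 : ℕ) : ℝ))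
            = 1 - Real.log m / Real.log ((m + 1 : ℕ) : ℝ) := by
          field_simp
        rw [b2]
        linarith
      linarith
  have h4 := h3 z hwz
  have h5 : c * (1 / Real.log ((w + 1 : ℕ) : ℝ)) ≤ c / Real.log w := by
    rw [mul_one_div]
    apply div_le_div_of_nonneg_left hc hlw
    apply Real.log_le_log
    · exact_mod_cast (by omega : 0 < w)
    · push_cast; linarith
  rw [h1, Real.log_div (hlog z hwz).ne' hlw.ne']
  linarith

lemma PP_union {a b c : ℕ} (hab : a ≤ b) (hbc : b ≤ c) : PP a c = PP a b ∪ PP b c := by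
  ext q
  rw [mem_union, mem_PP, mem_PP, mem_PP]
  constructor
  · rintro ⟨h1, h2, h3⟩
    by_cases h : q ≤ b
    · exact Or.inl ⟨h1, h, h3⟩
    · exact Or.inr ⟨by omega, h2, h3⟩
  · rintro (⟨h1, h2, h3⟩ | ⟨h1, h2, h3⟩)
    · exact ⟨h1, by omega, h3⟩
    · exact ⟨by omega, h2, h3⟩

lemma PP_disjoint {a b c : ℕ} : Disjoint (PP a b) (PP b c) := by
  rw [disjoint_left]
  intro q hq hq'
  rw [mem_PP] at hq hq'
  omega

/-- `∑_{p ≤ z} 1/p ≤ log log z + C`. -/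
theorem exists_mertens : ∃ C : ℝ, 0 ≤ C ∧ ∀ z : ℕ, 1024 ≤ z →
    ∑ p ∈ PP 0 z, (1 : ℝ) / p ≤ Real.log (Real.log z) + C := by
  have hl1 : 1 < Real.log (1024 : ℕ) := by
    rw [show ((1024 : ℕ) : ℝ) = (2 : ℝ) ^ (10 : ℕ) by norm_num, Real.log_pow]
    have := Real.log_two_gt_d9
    push_cast
    linarith
  refine ⟨∑ p ∈ PP 0 1024, (1 : ℝ) / p + 1.0818, by positivity, ?_⟩
  intro z hz
  rw [PP_union (Nat.zero_le 1024) hz, sum_union PP_disjoint]
  have h := mertens_gen' (w := 1024) (z := z) (by norm_num) hz (c := 1.0818) (by norm_num) (by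
    intro m hm1 _
    have a1 := Mt_le m (by omega)
    have a2 := Mt_ge 1024 (by omega)
    simp only [Nat.cast_ofNat] at a1 a2 ⊢
    linarith)
  have hlz : 0 < Real.log z := Real.log_pos (by exact_mod_cast (by omega : 1 < z))
  have h2 : Real.log (Real.log z / Real.log (1024 : ℕ)) ≤ Real.log (Real.log z) := by
    apply Real.log_le_log (by positivity)
    rw [div_le_iff₀ (by linarith)]
    nlinarith
  have h3 : (1.0818 : ℝ) / Real.log (1024 : ℕ) ≤ 1.0818 := by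
    apply div_le_self (by norm_num) hl1.le
  linarith

end Pool.Agent.H10.GoldLoc

end

section

/-!
# LM Rk: smooth numbers (Rankin's trick)

Proof.  `σ = 1/log Q ≤ 1/4` (`Q ≥ 100`).  `l > D`: `1/l ≤ D^{-σ} l^{-(1-σ)}`.  The sum of `l^{-(1-σ)}` over all `l ≤ K` with all prime factors `≤ Q` is at most `∏_{p ≤ Q} (1 - p^{-(1-σ)})^{-1}` (finite form: induction over the primes, or Mathlib
`EulerProduct`/`Nat.smoothNumbers`: `summable_and_hasSum_smoothNumbers_prod_primesBelow_tsum` ...; see also `Pool/Agent/H87D/SmoothShort.lean`, where the same is done).  `(1 - v)^{-1} ≤ exp(C v)` for `0 ≤ v ≤ 2^{-3/4}`, `p^{σ} ≤ e` for `p ≤ Q`, `∑_{p ≤ Q} 1/p ≤ log log Q + C`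
(a weaker bound `≤ C log log Q + C`, any power of `log Q`, is enough: e.g. `∑_{p ≤ Q} 1/p ≤ C + C log log Q`; Mertens is in the repository: `RgI_mertens`, `H35`, `Pool.Agent.H91..`).
-/

set_option autoImplicit false

namespace Pool.Agent.H43.LM

open Finset

open Pool.Agent.H10.GoldLoc (PP mem_PP exists_mertens)

/-- `log 100 ≥ 4`. -/
private theorem Rk_log {Q : ℕ} (hQ : 100 ≤ Q) : 4 ≤ Real.log Q := by
  have h1 : (100 : ℝ) ≤ Q := by exact_mod_cast hQ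
  have h2 : Real.exp 4 ≤ 100 := by
    have h3 : Real.exp 4 = Real.exp 1 ^ 4 := by
      rw [← Real.exp_nat_mul]
      norm_num
    rw [h3]
    have h4 := Real.exp_one_lt_d9
    have h5 : Real.exp 1 ^ 4 ≤ (2.7182818286 : ℝ) ^ 4 :=
      pow_le_pow_left₀ (Real.exp_pos 1).le h4.le 4
    refine h5.trans ?_
    norm_num
  rw [Real.le_log_iff_exp_le (by linarith)]
  linarith

/-- Mertens with a constant for all `Q ≥ 100`. -/
private theorem Rk_mertens : ∃ C : ℝ, 0 ≤ C ∧ ∀ Q : ℕ, 100 ≤ Q →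
    ∑ p ∈ PP 0 Q, (1 : ℝ) / p ≤ Real.log (Real.log Q) + C := by
  obtain ⟨C, hC, hM⟩ := exists_mertens
  obtain ⟨M, hMd⟩ : ∃ M : ℝ, M = Real.log (Real.log ((1024 : ℕ) : ℝ)) := ⟨_, rfl⟩
  have h1 : 0 ≤ M := by
    rw [hMd]
    exact Real.log_nonneg (by have := Rk_log (Q := 1024) (by norm_num); linarith)
  refine ⟨C + M, by linarith, fun Q hQ => ?_⟩
  have h2 : 0 ≤ Real.log (Real.log Q) :=
    Real.log_nonneg (by have := Rk_log hQ; linarith)
  rcases le_total 1024 Q with h | h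
  · have := hM Q h
    linarith
  · have h3 : ∑ p ∈ PP 0 Q, (1 : ℝ) / p ≤ ∑ p ∈ PP 0 1024, (1 : ℝ) / p := by
      refine Finset.sum_le_sum_of_subset_of_nonneg (fun p hp => ?_) (fun p _ _ => by positivity)
      rw [mem_PP] at hp ⊢
      exact ⟨hp.1, hp.2.1.trans h, hp.2.2⟩
    have h4 := hM 1024 le_rfl
    rw [← hMd] at h4
    linarith

open Classical in
theorem rankin : ∃ (C : ℝ) (k : ℕ), 0 < C ∧ ∀ Q D K : ℕ, 100 ≤ Q → 1 ≤ D →
    ∑ l ∈ (Ioc D K).filter (fun l : ℕ => ∀ p : ℕ, p.Prime → p ∣ l → p ≤ Q), (1 : ℝ) / l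
      ≤ C * Real.log Q ^ k * Real.exp (-(Real.log D / Real.log Q)) := by
  obtain ⟨C, hC, hM⟩ := Rk_mertens
  refine ⟨Real.exp (11 * C), 11, Real.exp_pos _, fun Q D K hQ hD => ?_⟩
  have hL := Rk_log hQ
  have hL0 : 0 < Real.log Q := by linarith
  have hQ0 : (0 : ℝ) < Q := by exact_mod_cast (by omega : 0 < Q)
  have hD0 : (0 : ℝ) < D := by exact_mod_cast (by omega : 0 < D)
  set al : ℝ := 1 / Real.log Q with hal
  have hal0 : 0 < al := by positivity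
  have hal1 : al ≤ 1 / 2 := by
    rw [hal]
    apply one_div_le_one_div_of_le <;> linarith
  have hQal : (Q : ℝ) ^ al = Real.exp 1 := by
    rw [Real.rpow_def_of_pos hQ0, hal, mul_one_div, div_self hL0.ne']
  have h1 := Pool.Agent.H87D.SmoothShort_euler Q al hal0.le hal1
    ((Ioc D K).filter (fun l : ℕ => ∀ p : ℕ, p.Prime → p ∣ l → p ≤ Q)) (fun d hd => by
      obtain ⟨h2, h3⟩ := Finset.mem_filter.1 hd
      rw [Finset.mem_Ioc] at h2
      exact ⟨by omega, h3⟩)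
  have h2 : ∀ l ∈ (Ioc D K).filter (fun l : ℕ => ∀ p : ℕ, p.Prime → p ∣ l → p ≤ Q),
      (1 : ℝ) / l ≤ Real.exp (-(Real.log D / Real.log Q)) * (l : ℝ) ^ (al - 1) := by
    intro l hl
    obtain ⟨h3, -⟩ := Finset.mem_filter.1 hl
    rw [Finset.mem_Ioc] at h3
    have hl0 : (0 : ℝ) < l := by exact_mod_cast (by omega : 0 < l)
    have hDl : (D : ℝ) ≤ l := by exact_mod_cast h3.1.le
    have h4 : Real.log D ≤ Real.log l := Real.log_le_log hD0 hDl
    rw [Real.rpow_sub_one hl0.ne', ← mul_div_assoc]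
    refine div_le_div_of_nonneg_right ?_ hl0.le
    rw [Real.rpow_def_of_pos hl0, ← Real.exp_add, ← Real.exp_zero]
    apply Real.exp_le_exp.2
    have h5 : Real.log D / Real.log Q = Real.log D * al := by
      rw [hal, mul_one_div]
    rw [h5]
    have := mul_le_mul_of_nonneg_right h4 hal0.le
    linarith
  refine (Finset.sum_le_sum h2).trans ?_
  rw [← Finset.mul_sum]
  have h3 : ∑ l ∈ (Ioc D K).filter (fun l : ℕ => ∀ p : ℕ, p.Prime → p ∣ l → p ≤ Q),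
      (l : ℝ) ^ (al - 1) ≤ Real.exp (11 * C) * Real.log Q ^ 11 := by
    refine h1.trans ?_
    rw [hQal]
    have h4 := hM Q hQ
    have h5 : 4 * Real.exp 1 ≤ 11 := by
      have := Real.exp_one_lt_d9
      linarith
    have h6 : 0 ≤ Real.log (Real.log Q) := Real.log_nonneg (by linarith)
    have h7 : 4 * (Real.exp 1 * ∑ p ∈ PP 0 Q, (1 : ℝ) / p) ≤
        11 * (Real.log (Real.log Q) + C) := by
      have h8 : 4 * Real.exp 1 * ∑ p ∈ PP 0 Q, (1 : ℝ) / p ≤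
          4 * Real.exp 1 * (Real.log (Real.log Q) + C) :=
        mul_le_mul_of_nonneg_left h4 (by positivity)
      have h9 : 4 * Real.exp 1 * (Real.log (Real.log Q) + C) ≤
          11 * (Real.log (Real.log Q) + C) := mul_le_mul_of_nonneg_right h5 (by linarith)
      linarith
    refine (Real.exp_le_exp.2 h7).trans (le_of_eq ?_)
    rw [show 11 * (Real.log (Real.log Q) + C) = 11 * C + ((11 : ℕ) : ℝ) * Real.log (Real.log Q) by
      push_cast; ring, Real.exp_add, Real.exp_nat_mul, Real.exp_log hL0]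
  calc Real.exp (-(Real.log D / Real.log Q)) *
      ∑ l ∈ (Ioc D K).filter (fun l : ℕ => ∀ p : ℕ, p.Prime → p ∣ l → p ≤ Q),
        (l : ℝ) ^ (al - 1) ≤
      Real.exp (-(Real.log D / Real.log Q)) * (Real.exp (11 * C) * Real.log Q ^ 11) :=
        mul_le_mul_of_nonneg_left h3 (Real.exp_pos _).le
    _ = Real.exp (11 * C) * Real.log Q ^ 11 * Real.exp (-(Real.log D / Real.log Q)) := by ring

end Pool.Agent.H43.LM

end

section

/-!
# CH DecN: decomposition of the Möbius function along narrow blocks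

Copy of `Pool.Agent.H43.LM.dec` (file `H43/LM/Dec.lean`, 215 lines) with the blocks `(Q j, Q (j+1)]` in place of `(P1 2^j, P1 2^(j+1)]`.
`AN_le`: the blocks are disjoint, so `|AN Q J n| ≤ ∑_j rI .. n ≤ #{p ∣ n} ≤ 2 log n` (`2^{#} ≤ n`).
-/

set_option autoImplicit false

namespace Pool.Agent.H43.CH

open Finset
open Pool.Agent.H43.LM (mu gP Fr mu_abs_le gP_abs_le)

private theorem DecN_r_nonneg (a b n : ℕ) : 0 ≤ rI a b n * (rI a b n - 1) := by
  unfold rI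
  rcases Nat.eq_zero_or_pos ((pI a b).filter (fun p => p ∣ n)).card with h | h
  · rw [h]
    simp
  · have h1 : (1 : ℝ) ≤ (((pI a b).filter (fun p => p ∣ n)).card : ℝ) := by exact_mod_cast h
    exact mul_nonneg (by linarith) (by linarith)

private theorem DecN_mem {a b p : ℕ} : p ∈ pI a b ↔ (a < p ∧ p ≤ b) ∧ p.Prime := by
  unfold pI
  rw [mem_filter, mem_Ioc]

private theorem DecN_block {Q : ℕ → ℕ} {J q : ℕ} (h1 : Q 0 < q) (h2 : q ≤ Q J) :
    ∃ j < J, Q j < q ∧ q ≤ Q (j + 1) := by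
  classical
  have hex : ∃ j, q ≤ Q j := ⟨J, h2⟩
  have hspec := Nat.find_spec hex
  have hle : Nat.find hex ≤ J := Nat.find_min' hex h2
  have h0 : Nat.find hex ≠ 0 := by
    intro h0
    rw [h0] at hspec
    omega
  obtain ⟨j, hj⟩ := Nat.exists_eq_succ_of_ne_zero h0
  have hmin := Nat.find_min hex (m := j) (by omega)
  rw [hj, Nat.succ_eq_add_one] at hspec
  exact ⟨j, by omega, by omega, hspec⟩

theorem dec_n (Q : ℕ → ℕ) (J n : ℕ) (hQ : Monotone Q) (hQ1 : 1 ≤ Q 0) (hn : n ≠ 0) : |mu n - AN Q J n| ≤ erN Q J n := by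
  classical
  have hr0 : ∀ j ∈ range J, 0 ≤ rI (Q j) (Q (j + 1)) n * (rI (Q j) (Q (j + 1)) n - 1) :=
    fun j _ => DecN_r_nonneg _ _ n
  have hs0 : 0 ≤ ∑ j ∈ range J, rI (Q j) (Q (j + 1)) n * (rI (Q j) (Q (j + 1)) n - 1) := sum_nonneg hr0
  have hc0 : (0 : ℝ) ≤ (((pI (Q 0) (Q J)).filter (fun p => p ^ 2 ∣ n)).card : ℝ) := Nat.cast_nonneg _
  have hge : ∀ j, Q 0 ≤ Q j := fun j => hQ (Nat.zero_le j)
  have hle : ∀ {i j : ℕ}, i < j → Q (i + 1) ≤ Q j := fun h => hQ h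
  by_cases hFr : Fr (Q 0) (Q J) n
  · have hsum : AN Q J n = 0 := by
      unfold AN
      refine sum_eq_zero fun j hj => ?_
      unfold FS
      refine sum_eq_zero fun p hp => ?_
      obtain ⟨hp1, hp2⟩ := mem_filter.1 hp
      obtain ⟨⟨hp3, hp4⟩, hp5⟩ := DecN_mem.1 hp1
      have h1 := hge j
      have h2 := hle (mem_range.1 hj)
      exact absurd hp2 (hFr p hp5 (by omega) (by omega))
    rw [hsum, sub_zero]
    unfold erN
    rw [if_pos hFr]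
    have := mu_abs_le n
    linarith
  · have hex : ∃ j, j < J ∧ ∃ q ∈ pI (Q j) (Q (j + 1)), q ∣ n := by
      unfold Fr at hFr
      push Not at hFr
      obtain ⟨q, hq, h1, h2, h3⟩ := hFr
      obtain ⟨j, hj, h4, h5⟩ := DecN_block h1 h2
      exact ⟨j, hj, q, DecN_mem.2 ⟨⟨h4, h5⟩, hq⟩, h3⟩
    obtain ⟨jm, hjm, hmin⟩ : ∃ jm, (jm < J ∧ ∃ q ∈ pI (Q jm) (Q (jm + 1)), q ∣ n) ∧
        ∀ j < jm, ¬ (j < J ∧ ∃ q ∈ pI (Q j) (Q (j + 1)), q ∣ n) :=
      ⟨Nat.find hex, Nat.find_spec hex, fun j hj => Nat.find_min hex hj⟩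
    obtain ⟨hjmJ, q, hq, hqn⟩ := hjm
    obtain ⟨⟨hq1, hq2⟩, hqp⟩ := DecN_mem.1 hq
    have hjmr : jm ∈ range J := mem_range.2 hjmJ
    -- the other blocks
    have hother : ∀ j ∈ range J, j ≠ jm → FS (gP (Q 0) (Q j)) (pI (Q j) (Q (j + 1))) n = 0 := by
      intro j hj hne
      unfold FS
      refine sum_eq_zero fun p hp => ?_
      obtain ⟨hp1, hp2⟩ := mem_filter.1 hp
      rcases Nat.lt_or_ge j jm with hlt | hge'
      · exact absurd ⟨mem_range.1 hj, p, hp1, hp2⟩ (hmin j hlt)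
      · have hgt : jm < j := lt_of_le_of_ne hge' (Ne.symm hne)
        obtain ⟨⟨hp3, hp4⟩, hp5⟩ := DecN_mem.1 hp1
        have h1 := hle hgt
        have h2 := hge jm
        unfold gP
        rw [if_neg]
        intro hFr'
        refine hFr' q hqp (by omega) (by omega) ?_
        have hqp' : Nat.Coprime q p := (Nat.coprime_primes hqp hp5).2 (by omega)
        refine hqp'.dvd_of_dvd_mul_left ?_
        rw [Nat.mul_div_cancel' hp2]
        exact hqn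
    have hsum : AN Q J n =
        ∑ p ∈ (pI (Q jm) (Q (jm + 1))).filter (fun p => p ∣ n), - mu (n / p) := by
      unfold AN
      rw [sum_eq_single_of_mem jm hjmr hother]
      unfold FS
      refine sum_congr rfl fun p hp => ?_
      obtain ⟨hp1, hp2⟩ := mem_filter.1 hp
      unfold gP
      rw [if_pos]
      intro q' hq' h1 h2 h3
      obtain ⟨j, hj, h4, h5⟩ := DecN_block h1 h2
      exact hmin j hj ⟨by omega, q', DecN_mem.2 ⟨⟨h4, h5⟩, hq'⟩,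
        h3.trans (Nat.div_dvd_of_dvd hp2)⟩
    rw [hsum]
    obtain ⟨S, hS⟩ : ∃ S, S = (pI (Q jm) (Q (jm + 1))).filter (fun p => p ∣ n) := ⟨_, rfl⟩
    have hrS : rI (Q jm) (Q (jm + 1)) n = (S.card : ℝ) := by
      unfold rI
      rw [hS]
    have hqS : q ∈ S := by
      rw [hS]
      exact mem_filter.2 ⟨hq, hqn⟩
    have hr1 : (1 : ℝ) ≤ (S.card : ℝ) := by
      exact_mod_cast card_pos.2 ⟨q, hqS⟩
    have hsingle : (S.card : ℝ) * ((S.card : ℝ) - 1) ≤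
        ∑ j ∈ range J, rI (Q j) (Q (j + 1)) n * (rI (Q j) (Q (j + 1)) n - 1) := by
      have := single_le_sum hr0 hjmr
      rw [hrS] at this
      exact this
    rw [← hS]
    have her : erN Q J n = ∑ j ∈ range J, rI (Q j) (Q (j + 1)) n * (rI (Q j) (Q (j + 1)) n - 1)
        + (((pI (Q 0) (Q J)).filter (fun p => p ^ 2 ∣ n)).card : ℝ) := by
      unfold erN
      rw [if_neg hFr, zero_add]
    rw [her]
    by_cases hsq : ∃ p : ℕ, p.Prime ∧ Q 0 < p ∧ p ≤ Q J ∧ p ^ 2 ∣ n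
    · obtain ⟨p, hp, hp1, hp2, hp3⟩ := hsq
      have hmu : mu n = 0 := by
        unfold mu
        rw [ArithmeticFunction.moebius_eq_zero_of_not_squarefree]
        · simp
        · intro hsf
          have := hsf p (by rw [← sq]; exact hp3)
          exact hp.one_lt.ne' (Nat.isUnit_iff.1 this)
      have hcard : (1 : ℝ) ≤ (((pI (Q 0) (Q J)).filter (fun p => p ^ 2 ∣ n)).card : ℝ) := by
        exact_mod_cast card_pos.2 ⟨p, mem_filter.2 ⟨DecN_mem.2 ⟨⟨hp1, hp2⟩, hp⟩, hp3⟩⟩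
      have habs : |∑ p ∈ S, - mu (n / p)| ≤ S.card := by
        refine (abs_sum_le_sum_abs _ _).trans ?_
        refine (sum_le_card_nsmul S _ 1 fun p _ => ?_).trans (by simp)
        rw [abs_neg]
        exact mu_abs_le _
      rw [hmu, zero_sub, abs_neg]
      nlinarith [sq_nonneg ((S.card : ℝ) - 1)]
    · have hterm : ∀ p ∈ S, - mu (n / p) = mu n := by
        intro p hp
        rw [hS] at hp
        obtain ⟨hp1, hp2⟩ := mem_filter.1 hp
        obtain ⟨⟨hp3, hp4⟩, hp5⟩ := DecN_mem.1 hp1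
        have h1 := hge jm
        have h2 := hle hjmJ
        have hnd : ¬ p ∣ n / p := by
          intro hd
          refine hsq ⟨p, hp5, by omega, by omega, ?_⟩
          have := mul_dvd_mul_left p hd
          rw [Nat.mul_div_cancel' hp2] at this
          rw [sq]
          exact this
        have hcop : Nat.Coprime p (n / p) := (Nat.Prime.coprime_iff_not_dvd hp5).2 hnd
        have hmul := ArithmeticFunction.isMultiplicative_moebius.map_mul_of_coprime hcop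
        rw [Nat.mul_div_cancel' hp2, ArithmeticFunction.moebius_apply_prime hp5] at hmul
        unfold mu
        rw [hmul]
        push_cast
        ring
      rw [sum_congr rfl hterm, sum_const, nsmul_eq_mul]
      have h1 : mu n - (S.card : ℝ) * mu n = -(((S.card : ℝ) - 1) * mu n) := by ring
      rw [h1, abs_neg, abs_mul, abs_of_nonneg (by linarith : (0 : ℝ) ≤ (S.card : ℝ) - 1)]
      have h2 := mu_abs_le n
      have h3 : ((S.card : ℝ) - 1) * |mu n| ≤ ((S.card : ℝ) - 1) * 1 :=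
        mul_le_mul_of_nonneg_left h2 (by linarith)
      have h4 : ((S.card : ℝ) - 1) * 1 ≤ (S.card : ℝ) * ((S.card : ℝ) - 1) := by nlinarith
      linarith

private theorem DecN_card (n : ℕ) (hn : n ≠ 0) (T : Finset ℕ) (hT : T ⊆ n.primeFactors) :
    (T.card : ℝ) ≤ 2 * Real.log n := by
  have h3 : 2 ^ n.primeFactors.card ≤ n := by
    calc 2 ^ n.primeFactors.card = ∏ _p ∈ n.primeFactors, 2 := by rw [prod_const]
      _ ≤ ∏ p ∈ n.primeFactors, p := by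
          refine prod_le_prod' fun p hp => ?_
          exact (Nat.prime_of_mem_primeFactors hp).two_le
      _ ≤ n := Nat.le_of_dvd (Nat.pos_of_ne_zero hn) (Nat.prod_primeFactors_dvd n)
  have h4 : (2 : ℝ) ^ n.primeFactors.card ≤ n := by exact_mod_cast h3
  have h5 : (n.primeFactors.card : ℝ) * Real.log 2 ≤ Real.log n := by
    have := Real.log_le_log (by positivity) h4
    rwa [Real.log_pow] at this
  have h6 : (T.card : ℝ) ≤ n.primeFactors.card := by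
    exact_mod_cast card_le_card hT
  have h7 : (1 / 2 : ℝ) ≤ Real.log 2 := by
    have := Real.log_two_gt_d9
    linarith
  have h8 : (n.primeFactors.card : ℝ) * (1 / 2) ≤ (n.primeFactors.card : ℝ) * Real.log 2 :=
    mul_le_mul_of_nonneg_left h7 (Nat.cast_nonneg _)
  linarith

theorem AN_le (Q : ℕ → ℕ) (J n : ℕ) (hQ : Monotone Q) (hQ1 : 1 ≤ Q 0) (hn : n ≠ 0) : |AN Q J n| ≤ 2 * Real.log n := by
  classical
  have hdis : ∀ i ∈ range J, ∀ j ∈ range J, i ≠ j →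
      Disjoint ((pI (Q i) (Q (i + 1))).filter (fun p => p ∣ n)) ((pI (Q j) (Q (j + 1))).filter (fun p => p ∣ n)) := by
    intro i _ j _ hij
    rw [Finset.disjoint_left]
    intro p hp hp'
    obtain ⟨⟨a1, a2⟩, _⟩ := DecN_mem.1 (mem_filter.1 hp).1
    obtain ⟨⟨b1, b2⟩, _⟩ := DecN_mem.1 (mem_filter.1 hp').1
    rcases Nat.lt_or_gt_of_ne hij with h | h
    · have := hQ (show i + 1 ≤ j from h)
      omega
    · have := hQ (show j + 1 ≤ i from h)
      omega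
  have h1 : |AN Q J n| ≤ ∑ j ∈ range J, (((pI (Q j) (Q (j + 1))).filter (fun p => p ∣ n)).card : ℝ) := by
    unfold AN
    refine (abs_sum_le_sum_abs _ _).trans (sum_le_sum fun j _ => ?_)
    unfold FS
    refine (abs_sum_le_sum_abs _ _).trans ?_
    exact (sum_le_card_nsmul _ _ 1 fun p _ => gP_abs_le (Q 0) (Q j) _).trans (by simp)
  have h2 : ∑ j ∈ range J, (((pI (Q j) (Q (j + 1))).filter (fun p => p ∣ n)).card : ℝ) =
      (((range J).biUnion fun j => (pI (Q j) (Q (j + 1))).filter (fun p => p ∣ n)).card : ℝ) := by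
    rw [card_biUnion hdis]
    push_cast
    rfl
  rw [h2] at h1
  refine h1.trans (DecN_card n hn _ ?_)
  intro p hp
  obtain ⟨j, _, hj⟩ := mem_biUnion.1 hp
  obtain ⟨hp1, hp2⟩ := mem_filter.1 hj
  exact Nat.mem_primeFactors.2 ⟨(DecN_mem.1 hp1).2, hp2, hn⟩

end Pool.Agent.H43.CH

end

section

/-!
# VKT (H97/VK of helper97 with the parameter `T0.t` in place of `9/10`, `t1` in place of `19/20`) FkUp: bounds for the series of `Λ(n) ψ(n) (log n)^k`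

Proof.  `Lk_succ_eq` (`EHA/SwF.lean`): `Lk (k+1) = ∑_{i ≤ k} C(k,i) Lk i · Fk (k-i)`; solve for `Fk k` and use strong induction on `k`, `lk_low`, `lk_up`:
`‖Fk k‖ ≤ (LL^7/c) (C L9^{k+1} LL^{k+2} + ∑_{1≤i≤k} C(k,i) C L9^i LL^{i+1} · C' L9^{k-i+1} LL^{20(k-i+1)}) ≤ C'' L9^{k+1} LL^{20(k+1)}`
(`7 + k + 2 ≤ 20(k+1)`, `7 + i + 1 + 20(k-i+1) ≤ 20(k+1)` for `i ≥ 1`).
-/

set_option autoImplicit false

namespace Pool.Agent.H76.VKT

open Finset
open Pool.Agent.H91.EHA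

theorem fk_up_h [T0] (h_lk_low : lk_low_P) (h_lk_up : lk_up_P)  (k B : ℕ) : ∃ C : ℝ, 1 ≤ C ∧ ∃ K' x0 : ℕ, ∀ x : ℕ, x0 ≤ x → ∀ (d : ℕ) (χ : DirichletCharacter ℂ d) (s : ℂ),
    1 ≤ d → (d : ℝ) ≤ Real.log x ^ B → 1 + 1 / (4 * Real.log x) ≤ s.re → s.re ≤ 2 →
    Real.log x ^ K' ≤ |s.im| → |s.im| ≤ 3 * (x : ℝ) ^ (3 : ℕ) →
    ‖Fk (qm x d) (ch x χ) k s‖ ≤ C * L9 x ^ (k + 1) * LL x ^ (20 * (k + 1)) := by
  induction k using Nat.strong_induction_on with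
  | _ k ih =>
  have hlk : ∀ i : ℕ, ∃ C : ℝ, 1 ≤ C ∧ ∃ K' x0 : ℕ, ∀ x : ℕ, x0 ≤ x →
      ∀ (d : ℕ) (χ : DirichletCharacter ℂ d) (s : ℂ),
      1 ≤ d → (d : ℝ) ≤ Real.log x ^ B → 1 + 1 / (4 * Real.log x) ≤ s.re → s.re ≤ 2 →
      Real.log x ^ K' ≤ |s.im| → |s.im| ≤ 6 * (x : ℝ) ^ (3 : ℕ) →
      ‖Lk (qm x d) (ch x χ) i s‖ ≤ C * L9 x ^ i * LL x ^ (i + 1) := fun i => h_lk_up i B
  have hfk : ∀ j : ℕ, ∃ C : ℝ, 1 ≤ C ∧ ∃ K' x0 : ℕ, j < k → ∀ x : ℕ, x0 ≤ x →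
      ∀ (d : ℕ) (χ : DirichletCharacter ℂ d) (s : ℂ),
      1 ≤ d → (d : ℝ) ≤ Real.log x ^ B → 1 + 1 / (4 * Real.log x) ≤ s.re → s.re ≤ 2 →
      Real.log x ^ K' ≤ |s.im| → |s.im| ≤ 3 * (x : ℝ) ^ (3 : ℕ) →
      ‖Fk (qm x d) (ch x χ) j s‖ ≤ C * L9 x ^ (j + 1) * LL x ^ (20 * (j + 1)) := by
    intro j
    rcases lt_or_ge j k with h | h
    · obtain ⟨C, hC, K', x0, hx⟩ := ih j h
      exact ⟨C, hC, K', x0, fun _ => hx⟩
    · exact ⟨1, le_rfl, 0, 0, fun h' => absurd h' (by omega)⟩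
  choose CL hCL KL xL hL using hlk
  choose CF hCF KF xF hF using hfk
  obtain ⟨c, hc, hc1, K0, xc, hlow⟩ := h_lk_low B
  obtain ⟨xe, hxe⟩ := yx_ev
  obtain ⟨S, hS⟩ : ∃ S : ℝ, S = CL (k + 1) +
      ∑ i ∈ range k, (k.choose (i + 1) : ℝ) * (CL (i + 1) * CF (k - (i + 1))) := ⟨_, rfl⟩
  have hS1 : 1 ≤ S := by
    rw [hS]
    have h1 : 0 ≤ ∑ i ∈ range k, (k.choose (i + 1) : ℝ) * (CL (i + 1) * CF (k - (i + 1))) :=
      sum_nonneg fun i _ => mul_nonneg (by positivity)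
        (mul_nonneg (by linarith [hCL (i + 1)]) (by linarith [hCF (k - (i + 1))]))
    linarith [hCL (k + 1)]
  refine ⟨S / c, ?_, K0 + ∑ i ∈ range (k + 2), KL i + ∑ i ∈ range (k + 2), KF i,
    xc + xe + ∑ i ∈ range (k + 2), xL i + ∑ i ∈ range (k + 2), xF i, ?_⟩
  · rw [le_div_iff₀ hc]; linarith
  intro x hx d χ s hd hdB hs1 hs2 him1 him2
  have hxL : ∀ i, i < k + 2 → xL i ≤ x := by
    intro i hi
    have h1 : xL i ≤ ∑ i ∈ range (k + 2), xL i :=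
      single_le_sum (f := xL) (fun _ _ => Nat.zero_le _) (mem_range.2 hi)
    omega
  have hxF : ∀ i, i < k + 2 → xF i ≤ x := by
    intro i hi
    have h1 : xF i ≤ ∑ i ∈ range (k + 2), xF i :=
      single_le_sum (f := xF) (fun _ _ => Nat.zero_le _) (mem_range.2 hi)
    omega
  obtain ⟨-, -, -, hLL1, hL91, hlog1, -⟩ := hxe x (by omega)
  have himp : ∀ K : ℕ, K ≤ K0 + ∑ i ∈ range (k + 2), KL i + ∑ i ∈ range (k + 2), KF i →
      Real.log x ^ K ≤ |s.im| := fun K hK =>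
    (pow_le_pow_right₀ hlog1 hK).trans him1
  have hKL : ∀ i, i < k + 2 → Real.log x ^ KL i ≤ |s.im| := by
    intro i hi
    refine himp _ ?_
    have h1 : KL i ≤ ∑ i ∈ range (k + 2), KL i :=
      single_le_sum (f := KL) (fun _ _ => Nat.zero_le _) (mem_range.2 hi)
    omega
  have hKF : ∀ i, i < k + 2 → Real.log x ^ KF i ≤ |s.im| := by
    intro i hi
    refine himp _ ?_
    have h1 : KF i ≤ ∑ i ∈ range (k + 2), KF i :=
      single_le_sum (f := KF) (fun _ _ => Nat.zero_le _) (mem_range.2 hi)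
    omega
  have hx3 : (0:ℝ) ≤ (x : ℝ) ^ (3 : ℕ) := by positivity
  have him6 : |s.im| ≤ 6 * (x : ℝ) ^ (3 : ℕ) := by linarith
  have hs : 1 < s.re := by
    have h1 : 0 < 1 / (4 * Real.log x) := by positivity
    linarith
  have hLi : ∀ i, i < k + 2 →
      ‖Lk (qm x d) (ch x χ) i s‖ ≤ CL i * L9 x ^ i * LL x ^ (i + 1) := fun i hi =>
    hL i x (hxL i hi) d χ s hd hdB hs1 hs2 (hKL i hi) him6
  have hFi : ∀ j, j < k →
      ‖Fk (qm x d) (ch x χ) j s‖ ≤ CF j * L9 x ^ (j + 1) * LL x ^ (20 * (j + 1)) := fun j hj =>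
    hF j hj x (hxF j (by omega)) d χ s hd hdB hs1 hs2 (hKF j (by omega)) him2
  have hlow' := hlow x (by omega) d χ s hd hdB hs1 hs2 (himp K0 (by omega)) him2
  obtain ⟨a, ha⟩ : ∃ a, a = L9 x := ⟨_, rfl⟩
  obtain ⟨l, hl⟩ : ∃ l, l = LL x := ⟨_, rfl⟩
  rw [← ha] at hL91
  rw [← hl] at hLL1
  simp only [← ha, ← hl] at hLi hFi hlow' ⊢
  have ha0 : 0 < a := by linarith
  have hl0 : 0 < l := by linarith
  have heq := Lk_succ_eq (qm x d) (ch x χ) k s hs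
  rw [Finset.sum_range_succ'] at heq
  simp only [Nat.choose_zero_right, Nat.cast_one, one_mul, Nat.sub_zero] at heq
  have h1 : Lk (qm x d) (ch x χ) 0 s * Fk (qm x d) (ch x χ) k s =
      Lk (qm x d) (ch x χ) (k + 1) s -
      ∑ i ∈ range k, (k.choose (i + 1) : ℂ) * (Lk (qm x d) (ch x χ) (i + 1) s *
        Fk (qm x d) (ch x χ) (k - (i + 1)) s) := by
    rw [heq]
    ring
  have h2 : ‖Lk (qm x d) (ch x χ) (k + 1) s‖ ≤ CL (k + 1) * (a ^ (k + 1) * l ^ (20 * k + 13)) := by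
    refine (hLi (k + 1) (by omega)).trans ?_
    rw [mul_assoc]
    refine mul_le_mul_of_nonneg_left ?_ (by linarith [hCL (k + 1)])
    exact mul_le_mul_of_nonneg_left (pow_le_pow_right₀ hLL1 (by omega)) (by positivity)
  have h3 : ∀ i ∈ range k, ‖(k.choose (i + 1) : ℂ) * (Lk (qm x d) (ch x χ) (i + 1) s *
        Fk (qm x d) (ch x χ) (k - (i + 1)) s)‖ ≤
      (k.choose (i + 1) : ℝ) * (CL (i + 1) * CF (k - (i + 1))) *
        (a ^ (k + 1) * l ^ (20 * k + 13)) := by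
    intro i hi
    rw [mem_range] at hi
    rw [norm_mul, norm_mul, Complex.norm_natCast, mul_assoc]
    refine mul_le_mul_of_nonneg_left ?_ (by positivity)
    have hA := hLi (i + 1) (by omega)
    have hB := hFi (k - (i + 1)) (by omega)
    have hc1' := hCL (i + 1)
    have hc2' := hCF (k - (i + 1))
    calc ‖Lk (qm x d) (ch x χ) (i + 1) s‖ * ‖Fk (qm x d) (ch x χ) (k - (i + 1)) s‖
        ≤ (CL (i + 1) * a ^ (i + 1) * l ^ (i + 1 + 1)) *
          (CF (k - (i + 1)) * a ^ (k - (i + 1) + 1) * l ^ (20 * (k - (i + 1) + 1))) :=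
          mul_le_mul hA hB (norm_nonneg _) (by positivity)
      _ = CL (i + 1) * CF (k - (i + 1)) * (a ^ ((i + 1) + (k - (i + 1) + 1)) *
          l ^ ((i + 1 + 1) + 20 * (k - (i + 1) + 1))) := by
          rw [pow_add a (i + 1), pow_add l (i + 1 + 1)]; ring
      _ ≤ CL (i + 1) * CF (k - (i + 1)) * (a ^ (k + 1) * l ^ (20 * k + 13)) := by
          refine mul_le_mul_of_nonneg_left ?_ (mul_nonneg (by linarith) (by linarith))
          rw [show (i + 1) + (k - (i + 1) + 1) = k + 1 by omega]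
          exact mul_le_mul_of_nonneg_left (pow_le_pow_right₀ hLL1 (by omega)) (by positivity)
  have h4 : ‖Lk (qm x d) (ch x χ) 0 s‖ * ‖Fk (qm x d) (ch x χ) k s‖ ≤
      S * (a ^ (k + 1) * l ^ (20 * k + 13)) := by
    rw [← norm_mul, h1]
    refine (norm_sub_le _ _).trans ?_
    rw [hS, add_mul, sum_mul]
    exact add_le_add h2 ((norm_sum_le _ _).trans (sum_le_sum h3))
  have h5 : c / l ^ 7 * ‖Fk (qm x d) (ch x χ) k s‖ ≤ S * (a ^ (k + 1) * l ^ (20 * k + 13)) :=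
    (mul_le_mul_of_nonneg_right hlow' (norm_nonneg _)).trans h4
  have h6 : ‖Fk (qm x d) (ch x χ) k s‖ ≤ (S * (a ^ (k + 1) * l ^ (20 * k + 13))) / (c / l ^ 7) := by
    rw [le_div_iff₀ (by positivity), mul_comm]
    exact h5
  refine h6.trans (le_of_eq ?_)
  rw [show 20 * (k + 1) = (20 * k + 13) + 7 by ring, pow_add l (20 * k + 13) 7]
  field_simp

end Pool.Agent.H76.VKT

end

section

/-!
# CH LvD: the identity `μ log = - Λ * μ` in residue classes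

(1) `mu n · log n = - ∑_{d ∣ n} Λ(d) mu(n/d)` (`n ≥ 1`; see `H43/LM/SwA.lean`, where it is proved), put `n = d m`, `log n = log d + log m`.
(2) `cls`: `d` has an inverse `d'` modulo `c`; `v = u d' mod c`.
-/

set_option autoImplicit false

namespace Pool.Agent.H43.CH

open Finset
open Pool.Agent.H91.PK (ee)
open Pool.Agent.H91.EHA (Lam)
open Pool.Agent.H43.LM (mu)

/-- reordering of pairs -/
private theorem LvD_pairs (y : ℕ) (f : ℕ → ℕ → ℂ) :
    ∑ n ∈ Icc 1 y, ∑ d ∈ n.divisors, f d (n / d)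
      = ∑ d ∈ Icc 1 y, ∑ m ∈ Icc 1 (y / d), f d m := by
  rw [Finset.sum_sigma', Finset.sum_sigma']
  refine Finset.sum_bij' (fun a _ => ⟨a.2, a.1 / a.2⟩) (fun b _ => ⟨b.1 * b.2, b.1⟩) ?_ ?_ ?_ ?_ ?_
  · rintro ⟨n, d⟩ h
    simp only [Finset.mem_sigma, Finset.mem_Icc, Nat.mem_divisors] at h ⊢
    obtain ⟨⟨h1, h2⟩, h3, h4⟩ := h
    have hd : 0 < d := Nat.pos_of_dvd_of_pos h3 (by omega)
    refine ⟨⟨hd, (Nat.le_of_dvd (by omega) h3).trans h2⟩, Nat.div_pos (Nat.le_of_dvd (by omega) h3) hd,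
      Nat.div_le_div_right h2⟩
  · rintro ⟨d, m⟩ h
    simp only [Finset.mem_sigma, Finset.mem_Icc, Nat.mem_divisors] at h ⊢
    obtain ⟨⟨h1, h2⟩, h3, h4⟩ := h
    have h5 : d * m ≤ y := by
      calc d * m ≤ d * (y / d) := Nat.mul_le_mul_left _ h4
        _ ≤ y := Nat.mul_div_le y d
    refine ⟨⟨Nat.mul_pos (by omega) (by omega), h5⟩, Dvd.intro _ rfl, ?_⟩
    exact (Nat.mul_pos (by omega) (by omega)).ne'
  · rintro ⟨n, d⟩ h
    simp only [Finset.mem_sigma, Finset.mem_Icc, Nat.mem_divisors] at h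
    obtain ⟨⟨h1, h2⟩, h3, h4⟩ := h
    simp only [Sigma.mk.injEq, heq_eq_eq, and_true]
    exact Nat.mul_div_cancel' h3
  · rintro ⟨d, m⟩ h
    simp only [Finset.mem_sigma, Finset.mem_Icc] at h
    obtain ⟨⟨h1, h2⟩, h3, h4⟩ := h
    simp only [Sigma.mk.injEq, heq_eq_eq, true_and]
    exact Nat.mul_div_cancel_left m (by omega)
  · rintro ⟨n, d⟩ h
    rfl

/-- `μ log = - Λ * μ` -/
private theorem LvD_mu_log (n : ℕ) : mu n * Real.log n = - ∑ d ∈ n.divisors, Lam d * mu (n / d) := by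
  have h2 : ArithmeticFunction.pmul ((ArithmeticFunction.moebius : ArithmeticFunction ℤ) : ArithmeticFunction ℝ)
      ArithmeticFunction.log * ((ArithmeticFunction.zeta : ArithmeticFunction ℕ) : ArithmeticFunction ℝ) = - ArithmeticFunction.vonMangoldt := by
    ext n
    rw [ArithmeticFunction.coe_mul_zeta_apply]
    have h := ArithmeticFunction.sum_moebius_mul_log_eq (n := n)
    simpa [ArithmeticFunction.pmul_apply, ArithmeticFunction.intCoe_apply, ArithmeticFunction.log_apply] using h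
  have h1 : ArithmeticFunction.pmul ((ArithmeticFunction.moebius : ArithmeticFunction ℤ) : ArithmeticFunction ℝ)
      ArithmeticFunction.log = - (ArithmeticFunction.vonMangoldt *
        ((ArithmeticFunction.moebius : ArithmeticFunction ℤ) : ArithmeticFunction ℝ)) := by
    calc ArithmeticFunction.pmul ((ArithmeticFunction.moebius : ArithmeticFunction ℤ) : ArithmeticFunction ℝ)
          ArithmeticFunction.log
        = ArithmeticFunction.pmul ((ArithmeticFunction.moebius : ArithmeticFunction ℤ) : ArithmeticFunction ℝ)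
          ArithmeticFunction.log * (((ArithmeticFunction.zeta : ArithmeticFunction ℕ) : ArithmeticFunction ℝ) *
            ((ArithmeticFunction.moebius : ArithmeticFunction ℤ) : ArithmeticFunction ℝ)) := by
          rw [ArithmeticFunction.coe_zeta_mul_coe_moebius, mul_one]
      _ = - (ArithmeticFunction.vonMangoldt *
        ((ArithmeticFunction.moebius : ArithmeticFunction ℤ) : ArithmeticFunction ℝ)) := by
          rw [← mul_assoc, h2, neg_mul]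
  have h3 := DFunLike.congr_fun h1 n
  have h4 : (ArithmeticFunction.vonMangoldt * ((ArithmeticFunction.moebius : ArithmeticFunction ℤ) : ArithmeticFunction ℝ)) n
      = ∑ d ∈ n.divisors, Lam d * mu (n / d) := by
    rw [ArithmeticFunction.mul_apply, Nat.sum_divisorsAntidiagonal
      (fun i j => ArithmeticFunction.vonMangoldt i * ((ArithmeticFunction.moebius : ArithmeticFunction ℤ) : ArithmeticFunction ℝ) j)]
    refine Finset.sum_congr rfl fun d _ => ?_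
    rfl
  have h5 : (ArithmeticFunction.pmul ((ArithmeticFunction.moebius : ArithmeticFunction ℤ) : ArithmeticFunction ℝ)
      ArithmeticFunction.log) n = mu n * Real.log n := rfl
  have h6 : (- (ArithmeticFunction.vonMangoldt * ((ArithmeticFunction.moebius : ArithmeticFunction ℤ) : ArithmeticFunction ℝ))) n
      = - ((ArithmeticFunction.vonMangoldt * ((ArithmeticFunction.moebius : ArithmeticFunction ℤ) : ArithmeticFunction ℝ)) n) := rfl
  rw [← h5, h3, h6, h4]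

private theorem LvD_ee_add (s t : ℝ) : ee (s + t) = ee s * ee t := by
  unfold Pool.Agent.H91.PK.ee
  rw [← Complex.exp_add]
  congr 1
  push_cast
  ring

theorem mu_log (c u y : ℕ) (t : ℝ) :
    ∑ n ∈ (Icc 1 y).filter (fun n => n % c = u % c), ((mu n * Real.log n : ℝ) : ℂ) * ee (t * Real.log n)
      = - ∑ d ∈ Icc 1 y, ((Lam d : ℝ) : ℂ) * ee (t * Real.log d) *
          ∑ m ∈ (Icc 1 (y / d)).filter (fun m => (d * m) % c = u % c), ((mu m : ℝ) : ℂ) * ee (t * Real.log m) := by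
  have h1 : ∑ d ∈ Icc 1 y, ((Lam d : ℝ) : ℂ) * ee (t * Real.log d) *
          ∑ m ∈ (Icc 1 (y / d)).filter (fun m => (d * m) % c = u % c), ((mu m : ℝ) : ℂ) * ee (t * Real.log m)
      = ∑ d ∈ Icc 1 y, ∑ m ∈ Icc 1 (y / d), (if (d * m) % c = u % c then
          (((Lam d * mu m : ℝ) : ℂ)) * (ee (t * Real.log d) * ee (t * Real.log m)) else 0) := by
    refine Finset.sum_congr rfl fun d _ => ?_
    rw [Finset.mul_sum, Finset.sum_filter]
    refine Finset.sum_congr rfl fun m _ => ?_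
    split_ifs
    · push_cast
      ring
    · rfl
  rw [h1, ← LvD_pairs y (fun d m => if (d * m) % c = u % c then
          (((Lam d * mu m : ℝ) : ℂ)) * (ee (t * Real.log d) * ee (t * Real.log m)) else 0),
    Finset.sum_filter, ← Finset.sum_neg_distrib]
  refine Finset.sum_congr rfl fun n hn => ?_
  rw [mem_Icc] at hn
  have h2 : ∀ d ∈ n.divisors, (if (d * (n / d)) % c = u % c then
          (((Lam d * mu (n / d) : ℝ) : ℂ)) * (ee (t * Real.log d) * ee (t * Real.log ((n / d : ℕ) : ℝ))) else 0)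
        = if n % c = u % c then (((Lam d * mu (n / d) : ℝ) : ℂ)) * ee (t * Real.log n) else 0 := by
    intro d hd
    have hdn := Nat.dvd_of_mem_divisors hd
    have h3 : d * (n / d) = n := Nat.mul_div_cancel' hdn
    have hd0 : 0 < d := Nat.pos_of_dvd_of_pos hdn (by omega)
    have hnd : 0 < n / d := Nat.div_pos (Nat.le_of_dvd (by omega) hdn) hd0
    have h4 : ee (t * Real.log n) = ee (t * Real.log d) * ee (t * Real.log ((n / d : ℕ) : ℝ)) := by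
      rw [← LvD_ee_add, ← mul_add, ← Real.log_mul (by exact_mod_cast hd0.ne') (by exact_mod_cast hnd.ne'),
        ← Nat.cast_mul, h3]
    rw [h3, h4]
  rw [Finset.sum_congr rfl h2]
  split_ifs with hc
  · rw [LvD_mu_log n, ← Finset.sum_mul]
    push_cast
    ring
  · simp

theorem cls (c u d : ℕ) (hc : 1 ≤ c) (hu : Nat.Coprime u c) :
    (Nat.Coprime d c → ∃ v : ℕ, Nat.Coprime v c ∧ ∀ m : ℕ, (d * m) % c = u % c ↔ m % c = v % c) ∧
    (¬ Nat.Coprime d c → ∀ m : ℕ, (d * m) % c ≠ u % c) := by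
  have hc0 : NeZero c := ⟨by omega⟩
  have hkey : ∀ a b : ℕ, (a % c = b % c) ↔ ((a : ZMod c) = (b : ZMod c)) :=
    fun a b => (ZMod.natCast_eq_natCast_iff a b c).symm
  have huu : IsUnit (u : ZMod c) := (ZMod.isUnit_iff_coprime u c).2 hu
  constructor
  · intro hd
    have hdu : IsUnit (d : ZMod c) := (ZMod.isUnit_iff_coprime d c).2 hd
    have h1 := ZMod.mul_inv_of_unit _ hdu
    set w : ZMod c := (d : ZMod c)⁻¹ * (u : ZMod c) with hw
    have hwv : ((w.val : ℕ) : ZMod c) = w := ZMod.natCast_zmod_val w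
    have hwu : IsUnit w := by
      refine IsUnit.mul ?_ huu
      obtain ⟨e, he⟩ := hdu
      rw [← he, ZMod.inv_coe_unit]
      exact e⁻¹.isUnit
    refine ⟨w.val, ?_, ?_⟩
    · rw [← ZMod.isUnit_iff_coprime, hwv]
      exact hwu
    · intro m
      rw [hkey, hkey, hwv, Nat.cast_mul]
      constructor
      · intro h
        rw [hw, ← h, ← mul_assoc, mul_comm (d : ZMod c)⁻¹, h1, one_mul]
      · intro h
        rw [h, hw, ← mul_assoc, h1, one_mul]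
  · intro hd m h
    rw [hkey, Nat.cast_mul] at h
    apply hd
    rw [← ZMod.isUnit_iff_coprime]
    rw [← h] at huu
    exact isUnit_of_mul_isUnit_left huu

end Pool.Agent.H43.CH

end

section

/-!
# EHB MelB: the Mellin transform for small `t`

`FF_near`: Abel summation: `FF(α+θ) = ∑ f(n) e(nα) e(nθ)`, `|e((n+1)θ) - e(nθ)| ≤ 2π|θ|`, so `|FF(α+θ)| ≤ (1 + 2π|θ| N) E` if all truncated
sums `∑_{n ≤ u} f(n) e(nα)`, `u ≤ N`, are at most `E` in absolute value.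
`mel_small`: `Mel g t = ∫_0^Θ g(θ) θ^{-1/2-it} dθ`, `g = gg`, `s = ±1`.  Let `θ0 = 1/P`.  The part `θ ≤ θ0` is at most
`∫_0^{θ0} (1 + 7 θ N) E θ^{-1/2} ≤ 2 √θ0 (1 + 7 θ0 N) E`.  If `Θ > θ0` the rest is
`∑_n f(n) e(nα) ∫_{θ0}^Θ e(s (n - a) θ) θ^{-1/2-it} dθ`, at most `Fm ∑_n (1+|t|) bb P (n - a)` by `osc1` (for `|n-a| < 1`), `osc3`
(for `1 ≤ |n-a| ≤ P`), `osc2` (`|n-a| > P`, `1/√θ0 = √P`), and `bb_sum`.
-/

set_option autoImplicit false

namespace Pool.Agent.H76.EHB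

open Finset MeasureTheory
open Pool.Agent.H91.PK (ee)

end Pool.Agent.H76.EHB

end

section

/-!
# W MelG: the Mellin transform of the damped exponential sum, and the size of the Gamma factor

`ge f N α a Θ s θ = ∑_n f(n) ee(nα) exp(-w_n θ)`, `w_n = 1/Θ - 2πi s (n - a)`, `Re w_n > 0`, so
`Mel (ge ..) t = Γ(1/2 - it) ∑_n f(n) ee(nα) w_n^{-(1/2 - it)}` (`Complex.integral_cpow_mul_exp_neg_mul_Ioi`;
`mellin g z = ∫_{(0,∞)} θ^{z-1} g(θ) dθ`, `Mel g t = mellin g (1/2 - it)`).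
`|Γ(1/2 - it)|^2 = Γ(1/2-it) Γ(1/2+it) = π / sin(π/2 - iπt) = π / cosh(πt) ≤ 2π e^{-π|t|}` (`Complex.Gamma_mul_Gamma_one_sub`,
`Complex.Gamma_conj`), so `|Γ(1/2 - it)| ≤ 3 e^{-π|t|/2}` (and `≤ 2.51 e^{-π|t|/2}`).
-/

set_option autoImplicit false

namespace Pool.Agent.H35.W

open Finset MeasureTheory
open Pool.Agent.H91.PK (ee)
open Pool.Agent.H76.EHB

/-- the integrand is continuous on the half line -/
private theorem MelG_cont (z w : ℂ) :
    ContinuousOn (fun θ : ℝ => (θ : ℂ) ^ (z - 1) * Complex.exp (-(w * θ))) (Set.Ioi 0) := by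
  apply ContinuousOn.mul
  · intro θ hθ
    apply ContinuousAt.continuousWithinAt
    exact Complex.continuousAt_ofReal_cpow_const θ (z - 1) (Or.inr (ne_of_gt hθ))
  · fun_prop

private theorem MelG_norm (z w : ℂ) {θ : ℝ} (hθ : 0 < θ) :
    ‖(θ : ℂ) ^ (z - 1) * Complex.exp (-(w * θ))‖ = θ ^ (z.re - 1) * Real.exp (-(w.re) * θ) := by
  rw [norm_mul, Complex.norm_cpow_eq_rpow_re_of_pos hθ, Complex.norm_exp]
  simp

private theorem MelG_int {z w : ℂ} (hz : 0 < z.re) (hw : 0 < w.re) :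
    IntegrableOn (fun θ : ℝ => (θ : ℂ) ^ (z - 1) * Complex.exp (-(w * θ))) (Set.Ioi 0) := by
  have h1 : IntegrableOn (fun θ : ℝ => θ ^ (z.re - 1) * Real.exp (-(w.re) * θ ^ (1 : ℝ)))
      (Set.Ioi 0) := integrableOn_rpow_mul_exp_neg_mul_rpow (by linarith) one_pos hw
  refine Integrable.mono' h1 ((MelG_cont z w).aestronglyMeasurable measurableSet_Ioi) ?_
  rw [ae_restrict_iff' measurableSet_Ioi]
  refine Filter.Eventually.of_forall fun θ hθ => ?_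
  rw [MelG_norm z w hθ, Real.rpow_one]

private theorem MelG_diff {z w : ℂ} (hz : 0 < z.re) (hw : 0 < w.re) :
    DifferentiableAt ℂ (fun w : ℂ => ∫ θ in Set.Ioi (0 : ℝ),
      (θ : ℂ) ^ (z - 1) * Complex.exp (-(w * θ))) w := by
  have hε : 0 < w.re / 2 := by linarith
  have hI : IntegrableOn (fun θ : ℝ => θ ^ z.re * Real.exp (-(w.re / 2) * θ ^ (1 : ℝ)))
      (Set.Ioi 0) := integrableOn_rpow_mul_exp_neg_mul_rpow (by linarith) one_pos hε
  have h := hasDerivAt_integral_of_dominated_loc_of_deriv_le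
    (μ := volume.restrict (Set.Ioi (0 : ℝ))) (x₀ := w)
    (F := fun (w : ℂ) (θ : ℝ) => (θ : ℂ) ^ (z - 1) * Complex.exp (-(w * θ)))
    (F' := fun (w : ℂ) (θ : ℝ) => (θ : ℂ) ^ (z - 1) * (Complex.exp (-(w * θ)) * (-θ)))
    (bound := fun θ : ℝ => θ ^ z.re * Real.exp (-(w.re / 2) * θ ^ (1 : ℝ)))
    (s := Metric.ball w (w.re / 2))
    (Metric.ball_mem_nhds w hε)
    (Filter.Eventually.of_forall fun w' =>
      (MelG_cont z w').aestronglyMeasurable measurableSet_Ioi)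
    (MelG_int hz hw)
    (ContinuousOn.aestronglyMeasurable (by
      have h1 := (MelG_cont z w).mul
        (by fun_prop : ContinuousOn (fun θ : ℝ => (-θ : ℂ)) (Set.Ioi 0))
      refine h1.congr fun θ _ => ?_
      rw [Pi.mul_apply]
      ring) measurableSet_Ioi)
    (by
      rw [ae_restrict_iff' measurableSet_Ioi]
      refine Filter.Eventually.of_forall fun θ hθ w' hw' => ?_
      have hθ0 : (0 : ℝ) < θ := hθ
      have hre : w.re / 2 ≤ w'.re := by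
        have h1 := Complex.abs_re_le_norm (w' - w)
        rw [Metric.mem_ball, dist_eq_norm] at hw'
        rw [Complex.sub_re] at h1
        have h2 := (abs_le.1 (h1.trans hw'.le)).1
        linarith
      have e1 : (θ : ℂ) ^ (z - 1) * (Complex.exp (-(w' * θ)) * (-θ)) =
          ((θ : ℂ) ^ (z - 1) * Complex.exp (-(w' * θ))) * (-θ) := by ring
      rw [e1, norm_mul, MelG_norm z w' hθ0, norm_neg, Complex.norm_real, Real.norm_eq_abs,
        abs_of_pos hθ0, Real.rpow_one]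
      have e2 : θ ^ (z.re - 1) * Real.exp (-(w'.re) * θ) * θ =
          θ ^ z.re * Real.exp (-(w'.re) * θ) := by
        rw [Real.rpow_sub_one hθ0.ne']
        field_simp
      rw [e2]
      apply mul_le_mul_of_nonneg_left _ (by positivity)
      apply Real.exp_le_exp.2
      nlinarith)
    hI
    (by
      refine Filter.Eventually.of_forall fun θ w' _ => ?_
      have h1 : HasDerivAt (fun w : ℂ => -(w * θ)) (-(1 * (θ : ℂ))) w' :=
        ((hasDerivAt_id w').mul_const (θ : ℂ)).neg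
      have h2 := (h1.cexp).const_mul ((θ : ℂ) ^ (z - 1))
      have e3 : (θ : ℂ) ^ (z - 1) * (Complex.exp (-(w' * θ)) * -(1 * (θ : ℂ))) =
          (θ : ℂ) ^ (z - 1) * (Complex.exp (-(w' * θ)) * (-θ)) := by rw [one_mul]
      rw [e3] at h2
      exact h2)
  exact h.2.differentiableAt

/-- the Gamma integral with a complex scale -/
private theorem MelG_gamma {z w : ℂ} (hz : 0 < z.re) (hw : 0 < w.re) :
    ∫ θ in Set.Ioi (0 : ℝ), (θ : ℂ) ^ (z - 1) * Complex.exp (-(w * θ)) =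
      Complex.Gamma z * w ^ (-z) := by
  have hopen : IsOpen {w : ℂ | 0 < w.re} := isOpen_lt continuous_const Complex.continuous_re
  have hconn : IsPreconnected {w : ℂ | 0 < w.re} :=
    (convex_halfSpace_re_gt 0).isPreconnected
  have hF : AnalyticOnNhd ℂ (fun w : ℂ => ∫ θ in Set.Ioi (0 : ℝ),
      (θ : ℂ) ^ (z - 1) * Complex.exp (-(w * θ))) {w : ℂ | 0 < w.re} :=
    DifferentiableOn.analyticOnNhd
      (fun w hw => (MelG_diff hz hw).differentiableWithinAt) hopen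
  have hG : AnalyticOnNhd ℂ (fun w : ℂ => Complex.Gamma z * w ^ (-z)) {w : ℂ | 0 < w.re} := by
    refine DifferentiableOn.analyticOnNhd (fun w hw => ?_) hopen
    refine DifferentiableAt.differentiableWithinAt ?_
    exact (differentiableAt_id.cpow_const (Or.inl hw)).const_mul _
  have h1 : (1 : ℂ) ∈ {w : ℂ | 0 < w.re} := by simp
  have hreal : ∀ r : ℝ, 0 < r → (∫ θ in Set.Ioi (0 : ℝ),
      (θ : ℂ) ^ (z - 1) * Complex.exp (-((r : ℂ) * θ))) = Complex.Gamma z * (r : ℂ) ^ (-z) := by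
    intro r hr
    rw [Complex.integral_cpow_mul_exp_neg_mul_Ioi hz hr, mul_comm]
    congr 1
    rw [one_div, Complex.cpow_neg, Complex.inv_cpow]
    rw [Complex.arg_ofReal_of_nonneg hr.le]
    exact Real.pi_ne_zero.symm
  have hfreq : ∃ᶠ w in nhdsWithin (1 : ℂ) {1}ᶜ, (∫ θ in Set.Ioi (0 : ℝ),
      (θ : ℂ) ^ (z - 1) * Complex.exp (-(w * θ))) = Complex.Gamma z * w ^ (-z) := by
    have ht : Filter.Tendsto (fun r : ℝ => (r : ℂ)) (nhdsWithin (1 : ℝ) {1}ᶜ)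
        (nhdsWithin (1 : ℂ) {1}ᶜ) := by
      apply tendsto_nhdsWithin_of_tendsto_nhds_of_eventually_within
      · have := (Complex.continuous_ofReal.tendsto (1 : ℝ)).mono_left
          (nhdsWithin_le_nhds (s := {1}ᶜ))
        simpa using this
      · refine eventually_nhdsWithin_of_forall fun r hr => ?_
        simpa using hr
    refine ht.frequently ?_
    apply Filter.Eventually.frequently
    have h2 : ∀ᶠ r : ℝ in nhds 1, 0 < r := lt_mem_nhds one_pos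
    have h3 : ∀ᶠ r : ℝ in nhdsWithin 1 {1}ᶜ, 0 < r := nhdsWithin_le_nhds h2
    exact h3.mono fun r hr => hreal r hr
  exact hF.eqOn_of_preconnected_of_frequently_eq hG hconn h1 hfreq hw

theorem mel_ge (f : ℕ → ℝ) (N : ℕ) (α a Θ s t : ℝ) (hΘ : 0 < Θ) :
    Mel (ge f N α a Θ s) t = Complex.Gamma (1 / 2 - t * Complex.I)
      * ∑ n ∈ Icc 1 N, (f n : ℂ) * ee (n * α)
        * (((1 / Θ : ℝ) : ℂ) - ((2 * Real.pi * s * ((n : ℝ) - a) : ℝ) : ℂ) * Complex.I)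
            ^ (-(1 / 2 - t * Complex.I) : ℂ) := by
  obtain ⟨z, hz⟩ : ∃ z : ℂ, z = 1 / 2 - t * Complex.I := ⟨_, rfl⟩
  have hzre : 0 < z.re := by rw [hz]; simp
  let w : ℕ → ℂ := fun n =>
    ((1 / Θ : ℝ) : ℂ) - ((2 * Real.pi * s * ((n : ℝ) - a) : ℝ) : ℂ) * Complex.I
  have hw : ∀ n, 0 < (w n).re := by
    intro n
    have : (w n).re = 1 / Θ := by
      simp only [w, Complex.sub_re, Complex.ofReal_re, Complex.re_ofReal_mul, Complex.I_re,
        mul_zero, sub_zero]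
    rw [this]
    positivity
  rw [Mel, ← hz, mellin]
  have h1 : ∀ θ ∈ Set.Ioi (0 : ℝ), (θ : ℂ) ^ (z - 1) • ge f N α a Θ s θ =
      ∑ n ∈ Icc 1 N, ((f n : ℂ) * ee (n * α)) *
        ((θ : ℂ) ^ (z - 1) * Complex.exp (-(w n * θ))) := by
    intro θ hθ
    rw [ge, if_pos (show 0 < θ from hθ), FF, smul_eq_mul, Finset.sum_mul, Finset.sum_mul, Finset.mul_sum]
    refine Finset.sum_congr rfl fun n _ => ?_
    have h2 : ee (n * (α + s * θ)) * ee (-(a * s * θ)) * ((Real.exp (-(θ / Θ)) : ℝ) : ℂ) =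
        ee (n * α) * Complex.exp (-(w n * θ)) := by
      simp only [ee, w]
      rw [Complex.ofReal_exp, ← Complex.exp_add, ← Complex.exp_add, ← Complex.exp_add]
      congr 1
      push_cast
      ring
    calc (θ : ℂ) ^ (z - 1) * ((f n : ℂ) * ee (n * (α + s * θ)) * ee (-(a * s * θ)) *
          ((Real.exp (-(θ / Θ)) : ℝ) : ℂ))
        = (θ : ℂ) ^ (z - 1) * (f n : ℂ) * (ee (n * (α + s * θ)) * ee (-(a * s * θ)) *
          ((Real.exp (-(θ / Θ)) : ℝ) : ℂ)) := by ring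
      _ = _ := by rw [h2]; ring
  rw [setIntegral_congr_fun measurableSet_Ioi h1, integral_finsetSum]
  · rw [Finset.mul_sum]
    refine Finset.sum_congr rfl fun n _ => ?_
    rw [integral_const_mul, MelG_gamma hzre (hw n)]
    simp only [w]
    ring
  · intro n _
    exact (MelG_int hzre (hw n)).const_mul _

theorem gamma_half (t : ℝ) :
    ‖Complex.Gamma (1 / 2 - t * Complex.I)‖ ≤ 3 * Real.exp (-(Real.pi * |t| / 2)) := by
  obtain ⟨z, hz⟩ : ∃ z : ℂ, z = 1 / 2 - t * Complex.I := ⟨_, rfl⟩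
  rw [← hz]
  have h1 : (1 : ℂ) - z = (starRingEnd ℂ) z := by
    rw [hz]
    apply Complex.ext
    · simp; norm_num
    · simp
  have h2 : Complex.Gamma z * (starRingEnd ℂ) (Complex.Gamma z) =
      Real.pi / Complex.sin (Real.pi * z) := by
    rw [← Complex.Gamma_conj, ← h1]
    exact Complex.Gamma_mul_Gamma_one_sub z
  have h3 : Complex.sin (Real.pi * z) = ((Real.cosh (Real.pi * t) : ℝ) : ℂ) := by
    have e : (Real.pi : ℂ) * z = Real.pi / 2 - (Real.pi * t : ℝ) * Complex.I := by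
      rw [hz]; push_cast; ring
    rw [e, Complex.sin_pi_div_two_sub, Complex.cos_mul_I, Complex.ofReal_cosh]
  have h4 : ‖Complex.Gamma z‖ ^ 2 = Real.pi / Real.cosh (Real.pi * t) := by
    have h5 := congrArg norm h2
    rw [h3, norm_mul, Complex.norm_conj, norm_div, Complex.norm_real, Complex.norm_real,
      Real.norm_eq_abs, Real.norm_eq_abs, abs_of_pos Real.pi_pos,
      abs_of_pos (Real.cosh_pos _)] at h5
    rw [pow_two]
    exact h5
  have h5 : Real.exp (Real.pi * |t|) / 2 ≤ Real.cosh (Real.pi * t) := by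
    rw [← Real.cosh_abs, abs_mul, abs_of_pos Real.pi_pos, Real.cosh_eq]
    have := Real.exp_pos (-(Real.pi * |t|))
    linarith
  have h6 : ‖Complex.Gamma z‖ ^ 2 ≤ (3 * Real.exp (-(Real.pi * |t| / 2))) ^ 2 := by
    rw [h4, mul_pow, ← Real.exp_nat_mul]
    have e1 : ((2 : ℕ) : ℝ) * (-(Real.pi * |t| / 2)) = -(Real.pi * |t|) := by push_cast; ring
    rw [e1, Real.exp_neg]
    have hE := Real.exp_pos (Real.pi * |t|)
    calc Real.pi / Real.cosh (Real.pi * t) ≤ Real.pi / (Real.exp (Real.pi * |t|) / 2) :=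
          div_le_div_of_nonneg_left Real.pi_pos.le (by positivity) h5
      _ = (2 * Real.pi) * (Real.exp (Real.pi * |t|))⁻¹ := by field_simp
      _ ≤ 3 ^ 2 * (Real.exp (Real.pi * |t|))⁻¹ := by
          apply mul_le_mul_of_nonneg_right _ (by positivity)
          have := Real.pi_lt_four
          linarith
  exact le_of_sq_le_sq h6 (by positivity)

end Pool.Agent.H35.W

end

section

/-!
# MU MelM: the Mellin transform for small `t`: change of the damping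

Proof.  `mel_ge` (`H35/W/MelG.lean`): `Mel (ge g N 0 0 Θ s) t = Γ(1/2 - i t) ∑_{n ≤ N} g n · (1/Θ - 2 π i s n)^{-(1/2 - i t)}` (`ee(0) = 1`), `|Γ(1/2 - i t)| ≤ 3 e^{-π|t|/2}`
(`gamma_half`).  For fixed `n ≥ 1` the function `F(σ) = (σ - 2 π i s n)^{-(1/2 - i t)}` (real `σ > 0`) has the derivative `-(1/2 - i t)(σ - 2 π i s n)^{-(3/2 - i t)}`, of norm
`≤ (1 + |t|) |w|^{-3/2} e^{π|t|/2}`, `|w| ≥ 2 π n` (compare `MelL_pow_norm` in `H76/SP/MelL.lean`; private, copy).  Mean value inequality on `[1/Θ, 1/Θ1]`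
(`Convex.norm_image_sub_le_of_norm_hasDerivWithin_le`): `|F(1/Θ1) - F(1/Θ)| ≤ (1 + |t|)(2 π n)^{-3/2} e^{π|t|/2}/Θ1 ≤ (1 + |t|) e^{π|t|/2}/(M √M Θ1)` for `n > M`.  Sum over the at most `N`
integers `n ∈ Ioc M N`.
-/

set_option autoImplicit false

namespace Pool.Agent.H76.MU

open Finset MeasureTheory
open Pool.Agent.H91.PK (ee)
open Pool.Agent.H76.EHB
open Pool.Agent.H35.W

private lemma MelM_pow_norm (w : ℂ) (t : ℝ) (hw : 0 < w.re) (b : ℝ) (hb : 0 < b) (hwb : b ≤ ‖w‖) :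
    ‖w ^ (-(1 / 2 - t * Complex.I) - 1 : ℂ)‖
      ≤ (b * Real.sqrt b)⁻¹ * Real.exp (Real.pi * |t| / 2) := by
  have hw0 : w ≠ 0 := by rintro rfl; simp at hw
  have hn : 0 < ‖w‖ := norm_pos_iff.2 hw0
  rw [Complex.norm_cpow_of_ne_zero hw0]
  have hre : (-(1 / 2 - t * Complex.I) - 1 : ℂ).re = -(1 + 1 / 2) := by simp; norm_num
  have him : (-(1 / 2 - t * Complex.I) - 1 : ℂ).im = t := by simp
  rw [hre, him, div_eq_mul_inv, ← Real.exp_neg, Real.rpow_neg hn.le, Real.rpow_add hn,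
    Real.rpow_one, ← Real.sqrt_eq_rpow]
  apply mul_le_mul
  · apply inv_anti₀ (mul_pos hb (Real.sqrt_pos.2 hb))
    exact mul_le_mul hwb (Real.sqrt_le_sqrt hwb) (Real.sqrt_nonneg _) hn.le
  · apply Real.exp_le_exp.2
    have h1 : |Complex.arg w| ≤ Real.pi / 2 := by
      rw [Complex.abs_arg_le_pi_div_two_iff]; exact hw.le
    calc -(Complex.arg w * t) ≤ |Complex.arg w * t| := neg_le_abs _
      _ = |Complex.arg w| * |t| := abs_mul _ _
      _ ≤ Real.pi / 2 * |t| := by gcongr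
      _ = Real.pi * |t| / 2 := by ring
  · positivity
  · positivity

private noncomputable def MelM_F (n s t σ : ℝ) : ℂ :=
  ((σ : ℝ) - ((2 * Real.pi * s * (n - 0) : ℝ) : ℂ) * Complex.I : ℂ)
    ^ (-(1 / 2 - t * Complex.I) : ℂ)

private lemma MelM_re (n s σ : ℝ) :
    ((σ : ℝ) - ((2 * Real.pi * s * (n - 0) : ℝ) : ℂ) * Complex.I : ℂ).re = σ := by
  simp only [Complex.sub_re, Complex.ofReal_re, Complex.re_ofReal_mul, Complex.I_re, mul_zero,
    sub_zero]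

private lemma MelM_im (n s σ : ℝ) :
    ((σ : ℝ) - ((2 * Real.pi * s * (n - 0) : ℝ) : ℂ) * Complex.I : ℂ).im
      = -(2 * Real.pi * s * n) := by
  simp only [Complex.sub_im, Complex.ofReal_im, Complex.im_ofReal_mul, Complex.I_im, mul_one,
    sub_zero, zero_sub]

private lemma MelM_deriv (n s t σ : ℝ) (hσ : 0 < σ) :
    HasDerivAt (fun v : ℝ => MelM_F n s t v)
      ((-(1 / 2 - t * Complex.I)) *
        ((σ : ℝ) - ((2 * Real.pi * s * (n - 0) : ℝ) : ℂ) * Complex.I : ℂ)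
          ^ (-(1 / 2 - t * Complex.I) - 1 : ℂ)) σ := by
  have hsl : ((σ : ℝ) - ((2 * Real.pi * s * (n - 0) : ℝ) : ℂ) * Complex.I : ℂ)
      ∈ Complex.slitPlane := by
    left
    rw [MelM_re]; exact hσ
  have d1 : HasDerivAt (fun v : ℂ => v - ((2 * Real.pi * s * (n - 0) : ℝ) : ℂ) * Complex.I)
      1 (σ : ℂ) := (hasDerivAt_id (σ : ℂ)).sub_const _
  have d2 := (d1.cpow_const (c := (-(1 / 2 - t * Complex.I) : ℂ)) hsl).comp_ofReal
  rw [mul_one] at d2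
  exact d2

private lemma MelM_diff (n s t M Θ Θ1 : ℝ) (hs : s = 1 ∨ s = -1) (hΘ1 : 0 < Θ1)
    (hΘ : Θ1 ≤ Θ) (hM : 1 ≤ M) (hn : M ≤ n) :
    ‖MelM_F n s t (1 / Θ) - MelM_F n s t (1 / Θ1)‖
      ≤ (1 + |t|) * ((M * Real.sqrt M)⁻¹ * Real.exp (Real.pi * |t| / 2)) * (1 / Θ1) := by
  have hΘ0 : 0 < Θ := by linarith
  have hle : 1 / Θ ≤ 1 / Θ1 := one_div_le_one_div_of_le hΘ1 hΘ
  have h0 : 0 < 1 / Θ := by positivity
  have hpi : 1 ≤ Real.pi := by linarith [Real.pi_gt_three]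
  have hM0 : 0 < M := by linarith
  have key := (convex_Icc (1 / Θ) (1 / Θ1)).norm_image_sub_le_of_norm_hasDerivWithin_le
    (f := fun v : ℝ => MelM_F n s t v)
    (f' := fun σ : ℝ => (-(1 / 2 - t * Complex.I)) *
        ((σ : ℝ) - ((2 * Real.pi * s * (n - 0) : ℝ) : ℂ) * Complex.I : ℂ)
          ^ (-(1 / 2 - t * Complex.I) - 1 : ℂ))
    (C := (1 + |t|) * ((M * Real.sqrt M)⁻¹ * Real.exp (Real.pi * |t| / 2)))
    (x := 1 / Θ1) (y := 1 / Θ)
    (fun σ hσ => (MelM_deriv n s t σ (h0.trans_le hσ.1)).hasDerivWithinAt)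
    (fun σ hσ => by
      have hσ0 : 0 < σ := h0.trans_le hσ.1
      rw [norm_mul]
      apply mul_le_mul _ _ (norm_nonneg _) (by positivity)
      · rw [norm_neg]
        refine (norm_sub_le _ _).trans ?_
        rw [norm_mul, Complex.norm_I, mul_one, Complex.norm_real, Real.norm_eq_abs]
        have : ‖(1 / 2 : ℂ)‖ = 1 / 2 := by norm_num
        rw [this]; linarith
      · apply MelM_pow_norm _ _ (by rw [MelM_re]; exact hσ0) _ hM0
        refine le_trans ?_ (Complex.abs_im_le_norm _)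
        rw [MelM_im, abs_neg, abs_mul, abs_mul]
        have h1 : |s| = 1 := by rcases hs with rfl | rfl <;> simp
        rw [h1, abs_of_pos Real.two_pi_pos, mul_one, abs_of_pos (by linarith : 0 < n)]
        nlinarith)
    (Set.right_mem_Icc.2 hle) (Set.left_mem_Icc.2 hle)
  refine key.trans ?_
  apply mul_le_mul_of_nonneg_left _ (by positivity)
  rw [Real.norm_eq_abs, abs_sub_comm, abs_of_nonneg (by linarith)]
  linarith

theorem mel_m (g : ℕ → ℝ) (N M : ℕ) (Θ Θ1 s t : ℝ) (hs : s = 1 ∨ s = -1) (hΘ1 : 0 < Θ1)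
    (hΘ : Θ1 ≤ Θ) (hM : 1 ≤ M) (hg : ∀ n, n ∉ Ioc M N → g n = 0) (hb : ∀ n, |g n| ≤ 1) :
    ‖Mel (ge g N 0 0 Θ s) t - Mel (ge g N 0 0 Θ1 s) t‖
      ≤ 3 * (1 + |t|) * N / (M * Real.sqrt M) / Θ1 := by
  have hM1 : (1 : ℝ) ≤ M := by exact_mod_cast hM
  have hM0 : (0 : ℝ) < M := by linarith
  rw [mel_ge g N 0 0 Θ s t (hΘ1.trans_le hΘ), mel_ge g N 0 0 Θ1 s t hΘ1, ← mul_sub,
    ← Finset.sum_sub_distrib, norm_mul]
  have hsum : ‖∑ n ∈ Icc 1 N, ((g n : ℂ) * ee (n * 0)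
        * (((1 / Θ : ℝ) : ℂ) - ((2 * Real.pi * s * ((n : ℝ) - 0) : ℝ) : ℂ) * Complex.I)
            ^ (-(1 / 2 - t * Complex.I) : ℂ)
        - (g n : ℂ) * ee (n * 0)
        * (((1 / Θ1 : ℝ) : ℂ) - ((2 * Real.pi * s * ((n : ℝ) - 0) : ℝ) : ℂ) * Complex.I)
            ^ (-(1 / 2 - t * Complex.I) : ℂ))‖
      ≤ ∑ n ∈ Icc 1 N,
        (1 + |t|) * (((M : ℝ) * Real.sqrt M)⁻¹ * Real.exp (Real.pi * |t| / 2)) * (1 / Θ1) := by
    apply norm_sum_le_of_le
    intro n _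
    rw [← mul_sub, norm_mul, norm_mul, norm_ee, mul_one, Complex.norm_real, Real.norm_eq_abs]
    by_cases hn : n ∈ Ioc M N
    · have h1 : (M : ℝ) ≤ n := by exact_mod_cast (Finset.mem_Ioc.1 hn).1.le
      have h2 := MelM_diff n s t M Θ Θ1 hs hΘ1 hΘ hM1 h1
      unfold MelM_F at h2
      calc _ ≤ 1 * _ := mul_le_mul_of_nonneg_right (hb n) (norm_nonneg _)
        _ ≤ _ := by rw [one_mul]; exact h2
    · rw [hg n hn, abs_zero, zero_mul]
      positivity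
  rw [Finset.sum_const, Nat.card_Icc, Nat.add_sub_cancel, nsmul_eq_mul] at hsum
  calc _ ≤ (3 * Real.exp (-(Real.pi * |t| / 2))) * ((N : ℝ) * ((1 + |t|)
        * (((M : ℝ) * Real.sqrt M)⁻¹ * Real.exp (Real.pi * |t| / 2)) * (1 / Θ1))) :=
        mul_le_mul (gamma_half t) hsum (norm_nonneg _) (by positivity)
    _ = (Real.exp (-(Real.pi * |t| / 2)) * Real.exp (Real.pi * |t| / 2))
          * (3 * (1 + |t|) * N / (M * Real.sqrt M) / Θ1) := by
        rw [div_eq_mul_inv _ ((M : ℝ) * Real.sqrt M)]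
        ring
    _ = _ := by
        rw [← Real.exp_add]
        simp

end Pool.Agent.H76.MU

end

section

/-!
# SP MelL: the Mellin transform and the mean square of the correlations

Copy of `Pool/Agent/H35/W/MelCor.lean` with `a0 = 0`, `a = 0`, `S0 = M` (the needed lemmas there are private: copy `wM`, `hMf`,
`hM_norm`, `hM_diff`, `abel_sum` with the new prefix `MelL_`); only the last step is different.
`h(n) = w_n^{-1/2 + i t} n^{-i t}`, `w_n = 1/Θ - 2 π i s n`: `|h(n)| ≤ (π M)^{-1/2} e^{π |t|/2} =: H0` for `n ≥ M`,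
`|h(n+1) - h(n)| ≤ H0 (1/n + 2 |t| (1/Θ)/n^2) ≤ H0 w/M`, `w = 1 + 2 |t|/(Θ M)`.
Abel summation (`A_y = cor g 0 M α (t/2π) y`): `|∑| ≤ H0 (|A_N| + (w/M) ∑_{y ∈ Ioc M N} |A_y|)`, times `|Γ(1/2 - i t)| ≤ 3 e^{-π|t|/2}`
(`gamma_half`, `mel_ge`): `|Mel| ≤ (3/√(π M)) (|A_N| + (w/M) ∑ |A_y|)`; square (`9/π ≤ 3`), Cauchy with `#Ioc M N ≤ N`.
If `N ≤ M` then `g = 0` and everything is `0`.
-/

set_option autoImplicit false

namespace Pool.Agent.H76.SP

open Finset MeasureTheory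
open Pool.Agent.H91.PK (ee)
open Pool.Agent.H76.EHB
open Pool.Agent.H35.W

/-- the base of the power -/
private noncomputable def MelL_wM (Θ s a : ℝ) (u : ℂ) : ℂ :=
  ((1 / Θ : ℝ) : ℂ) - (2 * Real.pi * s * (u - a)) * Complex.I

private noncomputable def MelL_hMf (Θ s a t : ℝ) (a0 : ℕ) (u : ℂ) : ℂ :=
  MelL_wM Θ s a u ^ (-(1 / 2 - t * Complex.I) : ℂ) * Complex.exp (-(t * Complex.I) * Complex.log (u - a0))

private lemma MelL_wM_re (Θ s a u : ℝ) : (MelL_wM Θ s a (u : ℂ)).re = 1 / Θ := by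
  simp [MelL_wM]

private lemma MelL_wM_im (Θ s a u : ℝ) : (MelL_wM Θ s a (u : ℂ)).im = -(2 * Real.pi * s * (u - a)) := by
  simp [MelL_wM]

private lemma MelL_wM_slit (Θ s a u : ℝ) (hΘ : 0 < Θ) : MelL_wM Θ s a (u : ℂ) ∈ Complex.slitPlane := by
  left
  rw [MelL_wM_re]; positivity

private lemma MelL_wM_ne (Θ s a u : ℝ) (hΘ : 0 < Θ) : MelL_wM Θ s a (u : ℂ) ≠ 0 :=
  Complex.slitPlane_ne_zero (MelL_wM_slit Θ s a u hΘ)

private lemma MelL_wM_norm (Θ s a u : ℝ) (hs : s = 1 ∨ s = -1) :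
    2 * Real.pi * |u - a| ≤ ‖MelL_wM Θ s a (u : ℂ)‖ := by
  refine le_trans ?_ (Complex.abs_im_le_norm _)
  rw [MelL_wM_im, abs_neg, abs_mul, abs_mul]
  have : |s| = 1 := by rcases hs with rfl | rfl <;> simp
  rw [this, abs_of_pos Real.two_pi_pos, mul_one]

private lemma MelL_pow_norm (w : ℂ) (t : ℝ) (hw : 0 < w.re) (b : ℝ) (hb : 0 < b) (hwb : b ≤ ‖w‖) :
    ‖w ^ (-(1 / 2 - t * Complex.I) : ℂ)‖ ≤ (Real.sqrt b)⁻¹ * Real.exp (Real.pi * |t| / 2) := by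
  have hw0 : w ≠ 0 := by rintro rfl; simp at hw
  have hn : 0 < ‖w‖ := norm_pos_iff.2 hw0
  rw [Complex.norm_cpow_of_ne_zero hw0]
  have hre : (-(1 / 2 - t * Complex.I) : ℂ).re = -(1 / 2) := by simp
  have him : (-(1 / 2 - t * Complex.I) : ℂ).im = t := by simp
  rw [hre, him, div_eq_mul_inv, ← Real.exp_neg, Real.rpow_neg hn.le, ← Real.sqrt_eq_rpow]
  apply mul_le_mul
  · exact inv_anti₀ (Real.sqrt_pos.2 hb) (Real.sqrt_le_sqrt hwb)
  · apply Real.exp_le_exp.2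
    have h1 : |Complex.arg w| ≤ Real.pi / 2 := by
      rw [Complex.abs_arg_le_pi_div_two_iff]; exact hw.le
    calc -(Complex.arg w * t) ≤ |Complex.arg w * t| := neg_le_abs _
      _ = |Complex.arg w| * |t| := abs_mul _ _
      _ ≤ Real.pi / 2 * |t| := by gcongr
      _ = Real.pi * |t| / 2 := by ring
  · positivity
  · positivity

private lemma MelL_hM_norm (Θ s a t S0 : ℝ) (a0 : ℕ) (hs : s = 1 ∨ s = -1) (hΘ : 0 < Θ)
    (hS0 : 1 ≤ S0) (ha : |a - a0| ≤ S0 / 2) (u : ℝ) (hu : (a0 : ℝ) + S0 ≤ u) :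
    ‖MelL_hMf Θ s a t a0 (u : ℂ)‖ ≤ (Real.sqrt (Real.pi * S0))⁻¹ * Real.exp (Real.pi * |t| / 2) := by
  have ha1 := abs_le.1 ha
  have hpi := Real.pi_pos
  rw [MelL_hMf, norm_mul]
  have h1 : ‖Complex.exp (-(t * Complex.I) * Complex.log ((u : ℂ) - a0))‖ = 1 := by
    have e : (-(t * Complex.I) * Complex.log ((u : ℂ) - a0))
        = ((-(t * Real.log (u - a0)) : ℝ) : ℂ) * Complex.I := by
      have h2 : ((u : ℂ) - a0) = ((u - a0 : ℝ) : ℂ) := by push_cast; ring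
      rw [h2, ← Complex.ofReal_log (by linarith)]
      push_cast
      ring
    rw [e, Complex.norm_exp_ofReal_mul_I]
  rw [h1, mul_one]
  apply MelL_pow_norm _ _ (by rw [MelL_wM_re]; positivity) _ (by positivity)
  refine le_trans ?_ (MelL_wM_norm Θ s a u hs)
  have h3 : S0 / 2 ≤ |u - a| := by
    rw [abs_of_nonneg (by linarith)]; linarith
  nlinarith

private lemma MelL_hM_deriv (Θ s a t : ℝ) (a0 : ℕ) (hΘ : 0 < Θ) (u : ℝ) (hu : (a0 : ℝ) < u) :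
    HasDerivAt (fun v : ℝ => MelL_hMf Θ s a t a0 (v : ℂ))
      (MelL_hMf Θ s a t a0 (u : ℂ) * ((-(1 / 2 - t * Complex.I)) * (-(2 * Real.pi * s * Complex.I))
        / MelL_wM Θ s a (u : ℂ) - t * Complex.I / ((u : ℂ) - a0))) u := by
  have hua : ((u : ℂ) - a0) = ((u - a0 : ℝ) : ℂ) := by push_cast; ring
  have hsl : ((u : ℂ) - a0) ∈ Complex.slitPlane := by
    rw [hua]; exact Complex.ofReal_mem_slitPlane.2 (by linarith)
  have hne : ((u : ℂ) - a0) ≠ 0 := Complex.slitPlane_ne_zero hsl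
  have hw := MelL_wM_slit Θ s a u hΘ
  have hwn := MelL_wM_ne Θ s a u hΘ
  have d1 : HasDerivAt (fun v : ℂ => MelL_wM Θ s a v) (-(2 * Real.pi * s * Complex.I)) (u : ℂ) := by
    unfold MelL_wM
    have := (((hasDerivAt_id (u : ℂ)).sub_const (a : ℂ)).const_mul (2 * Real.pi * s : ℂ)).mul_const
      Complex.I |>.const_sub (((1 / Θ : ℝ) : ℂ))
    simpa using this
  have d2 : HasDerivAt (fun v : ℂ => MelL_wM Θ s a v ^ (-(1 / 2 - t * Complex.I) : ℂ))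
      ((-(1 / 2 - t * Complex.I)) * MelL_wM Θ s a (u : ℂ) ^ ((-(1 / 2 - t * Complex.I)) - 1 : ℂ)
        * (-(2 * Real.pi * s * Complex.I))) (u : ℂ) := d1.cpow_const hw
  have d3 : HasDerivAt (fun v : ℂ => Complex.exp (-(t * Complex.I) * Complex.log (v - a0)))
      (Complex.exp (-(t * Complex.I) * Complex.log ((u : ℂ) - a0)) *
        (-(t * Complex.I) * (1 / ((u : ℂ) - a0)))) (u : ℂ) := by
    have h1 : HasDerivAt (fun v : ℂ => v - (a0 : ℂ)) 1 (u : ℂ) :=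
      (hasDerivAt_id (u : ℂ)).sub_const _
    have h2 := (h1.clog hsl).const_mul (-(t * Complex.I))
    exact h2.cexp
  have d4 := (d2.mul d3).comp_ofReal
  have e : MelL_hMf Θ s a t a0 (u : ℂ) * ((-(1 / 2 - t * Complex.I)) * (-(2 * Real.pi * s * Complex.I))
        / MelL_wM Θ s a (u : ℂ) - t * Complex.I / ((u : ℂ) - a0))
      = (-(1 / 2 - t * Complex.I)) * MelL_wM Θ s a (u : ℂ) ^ ((-(1 / 2 - t * Complex.I)) - 1 : ℂ)
        * (-(2 * Real.pi * s * Complex.I)) *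
          Complex.exp (-(t * Complex.I) * Complex.log ((u : ℂ) - a0)) +
        MelL_wM Θ s a (u : ℂ) ^ (-(1 / 2 - t * Complex.I) : ℂ) *
        (Complex.exp (-(t * Complex.I) * Complex.log ((u : ℂ) - a0)) *
        (-(t * Complex.I) * (1 / ((u : ℂ) - a0)))) := by
    rw [MelL_hMf, Complex.cpow_sub _ _ hwn, Complex.cpow_one]
    ring
  rw [e]
  exact d4

private lemma MelL_hM_bd (Θ s a t S0 : ℝ) (a0 : ℕ) (hs : s = 1 ∨ s = -1) (hΘ : 0 < Θ)
    (hS0 : 1 ≤ S0) (ha : |a - a0| ≤ S0 / 2) (r u : ℝ) (hr : (a0 : ℝ) + S0 ≤ r) (hu : r ≤ u) :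
    ‖MelL_hMf Θ s a t a0 (u : ℂ) * ((-(1 / 2 - t * Complex.I)) * (-(2 * Real.pi * s * Complex.I))
        / MelL_wM Θ s a (u : ℂ) - t * Complex.I / ((u : ℂ) - a0))‖
      ≤ (Real.sqrt (Real.pi * S0))⁻¹ * Real.exp (Real.pi * |t| / 2)
        * (1 / (r - a0) + 2 * |t| * (|a - a0| + 1 / Θ) / (r - a0) ^ 2) := by
  have ha1 := abs_le.1 ha
  have hpi := Real.pi_pos
  have hpi1 : 1 ≤ Real.pi := by linarith [Real.pi_gt_three]
  rw [norm_mul]
  apply mul_le_mul (MelL_hM_norm Θ s a t S0 a0 hs hΘ hS0 ha u (by linarith)) _ (norm_nonneg _)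
    (by positivity)
  have hwn := MelL_wM_ne Θ s a u hΘ
  have hua : ((u : ℂ) - a0) = ((u - a0 : ℝ) : ℂ) := by push_cast; ring
  have hne : ((u : ℂ) - a0) ≠ 0 := by
    rw [hua]; exact Complex.ofReal_ne_zero.2 (by linarith)
  have h1 : ‖MelL_wM Θ s a (u : ℂ)‖ ≥ Real.pi * (u - a0) := by
    refine le_trans ?_ (MelL_wM_norm Θ s a u hs)
    have h3 : (u - a0) / 2 ≤ |u - a| := by
      rw [abs_of_nonneg (by linarith)]; linarith
    nlinarith
  have hs1 : |s| = 1 := by rcases hs with rfl | rfl <;> simp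
  have e : (-(1 / 2 - t * Complex.I)) * (-(2 * Real.pi * s * Complex.I))
        / MelL_wM Θ s a (u : ℂ) - t * Complex.I / ((u : ℂ) - a0)
      = (((Real.pi * s : ℝ) : ℂ) * Complex.I) / MelL_wM Θ s a (u : ℂ)
        + ((t : ℝ) : ℂ) * Complex.I * ((-(((2 * Real.pi * s * (a - a0) : ℝ) : ℂ) * Complex.I)
          - ((1 / Θ : ℝ) : ℂ)))
          / (MelL_wM Θ s a (u : ℂ) * ((u : ℂ) - a0)) := by
    field_simp
    rw [MelL_wM]
    push_cast
    ring
  rw [e]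
  have b1 : ‖(((Real.pi * s : ℝ) : ℂ) * Complex.I) / MelL_wM Θ s a (u : ℂ)‖ ≤ 1 / (r - a0) := by
    rw [norm_div, norm_mul, Complex.norm_I, mul_one, Complex.norm_real, Real.norm_eq_abs, abs_mul,
      hs1, mul_one, abs_of_pos hpi, div_le_div_iff₀ (norm_pos_iff.2 hwn) (by linarith)]
    nlinarith
  have b2 : ‖((t : ℝ) : ℂ) * Complex.I * ((-(((2 * Real.pi * s * (a - a0) : ℝ) : ℂ) * Complex.I)
          - ((1 / Θ : ℝ) : ℂ)))
          / (MelL_wM Θ s a (u : ℂ) * ((u : ℂ) - a0))‖ ≤ 2 * |t| * (|a - a0| + 1 / Θ) / (r - a0) ^ 2 := by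
    rw [norm_div, norm_mul, norm_mul, norm_mul, Complex.norm_I, mul_one, Complex.norm_real,
      Real.norm_eq_abs]
    have c1 : ‖(-(((2 * Real.pi * s * (a - a0) : ℝ) : ℂ) * Complex.I)
          - ((1 / Θ : ℝ) : ℂ))‖ ≤ 2 * Real.pi * |a - a0| + 1 / Θ := by
      refine (norm_sub_le _ _).trans ?_
      rw [norm_neg, norm_mul, Complex.norm_I, mul_one, Complex.norm_real, Complex.norm_real,
        Real.norm_eq_abs, Real.norm_eq_abs, abs_mul, abs_mul, hs1, mul_one,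
        abs_of_pos Real.two_pi_pos, abs_of_pos (by positivity : 0 < 1 / Θ)]
    have c2 : ‖(u : ℂ) - a0‖ = u - a0 := by
      rw [hua, Complex.norm_real, Real.norm_eq_abs, abs_of_pos (by linarith)]
    rw [c2]
    have hra : 0 < r - a0 := by linarith
    have c3 : Real.pi * (r - a0) ^ 2 ≤ ‖MelL_wM Θ s a (u : ℂ)‖ * (u - a0) := by
      calc Real.pi * (r - a0) ^ 2 = (Real.pi * (r - a0)) * (r - a0) := by ring
        _ ≤ ‖MelL_wM Θ s a (u : ℂ)‖ * (u - a0) := by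
          apply mul_le_mul _ (by linarith) (by linarith) (norm_nonneg _)
          refine le_trans ?_ h1
          gcongr
    have c4 : (2 * Real.pi * |a - a0| + 1 / Θ) ≤ Real.pi * (2 * (|a - a0| + 1 / Θ)) := by
      have : 0 < 1 / Θ := by positivity
      nlinarith [abs_nonneg (a - a0)]
    calc |t| * ‖(-(((2 * Real.pi * s * (a - a0) : ℝ) : ℂ) * Complex.I)
          - ((1 / Θ : ℝ) : ℂ))‖ / (‖MelL_wM Θ s a (u : ℂ)‖ * (u - a0))
        ≤ |t| * (Real.pi * (2 * (|a - a0| + 1 / Θ))) / (Real.pi * (r - a0) ^ 2) := by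
          apply div_le_div₀ (by positivity) _ (by positivity) c3
          exact mul_le_mul_of_nonneg_left (c1.trans c4) (abs_nonneg _)
      _ = 2 * |t| * (|a - a0| + 1 / Θ) / (r - a0) ^ 2 := by
          field_simp
  exact (norm_add_le _ _).trans (add_le_add b1 b2)

private lemma MelL_hM_diff (Θ s a t S0 : ℝ) (a0 : ℕ) (hs : s = 1 ∨ s = -1) (hΘ : 0 < Θ)
    (hS0 : 1 ≤ S0) (ha : |a - a0| ≤ S0 / 2) (r : ℝ) (hr : (a0 : ℝ) + S0 ≤ r) :
    ‖MelL_hMf Θ s a t a0 ((r + 1 : ℝ) : ℂ) - MelL_hMf Θ s a t a0 (r : ℂ)‖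
      ≤ (Real.sqrt (Real.pi * S0))⁻¹ * Real.exp (Real.pi * |t| / 2)
        * (1 / (r - a0) + 2 * |t| * (|a - a0| + 1 / Θ) / (r - a0) ^ 2) := by
  have := Convex.norm_image_sub_le_of_norm_hasDerivWithin_le
    (f := fun v : ℝ => MelL_hMf Θ s a t a0 (v : ℂ)) (s := Set.Icc r (r + 1)) (x := r) (y := r + 1)
    (f' := fun u => (MelL_hMf Θ s a t a0 (u : ℂ) * ((-(1 / 2 - t * Complex.I)) *
      (-(2 * Real.pi * s * Complex.I)) / MelL_wM Θ s a (u : ℂ) - t * Complex.I / ((u : ℂ) - a0))))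
    (C := (Real.sqrt (Real.pi * S0))⁻¹ * Real.exp (Real.pi * |t| / 2)
        * (1 / (r - a0) + 2 * |t| * (|a - a0| + 1 / Θ) / (r - a0) ^ 2))
    (fun u hu => (MelL_hM_deriv Θ s a t a0 hΘ u (by linarith [hu.1])).hasDerivWithinAt)
    (fun u hu => MelL_hM_bd Θ s a t S0 a0 hs hΘ hS0 ha r u hr hu.1)
    (convex_Icc _ _) ⟨le_rfl, by linarith⟩ ⟨by linarith, le_rfl⟩
  have e : ‖r + 1 - r‖ = 1 := by rw [add_sub_cancel_left]; simp
  rw [e, mul_one] at this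
  exact this

private lemma MelL_abel_sum (b h A : ℕ → ℂ) (M : ℕ) (hA : ∀ y, A y = ∑ n ∈ Ioc M y, b n) (y : ℕ)
    (hy : M ≤ y) :
    ∑ n ∈ Ioc M y, b n * h n = A y * h (y + 1) + ∑ n ∈ Ioc M y, A n * (h n - h (n + 1)) := by
  induction y, hy using Nat.le_induction with
  | base => simp [hA]
  | succ y hy ih =>
    have e : Ioc M (y + 1) = insert (y + 1) (Ioc M y) := by
      ext i; simp only [mem_insert, mem_Ioc]; omega
    have hn : y + 1 ∉ Ioc M y := by simp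
    have h1 : A (y + 1) = b (y + 1) + A y := by rw [hA, hA, e, sum_insert hn]
    rw [e, sum_insert hn, sum_insert hn, ih, h1]
    ring

/-- the sum without the gamma factor -/
private theorem MelL_sum (g : ℕ → ℝ) (N M : ℕ) (α Θ s t : ℝ) (hs : s = 1 ∨ s = -1) (hΘ : 0 < Θ)
    (hM : 1 ≤ M) (hg : ∀ n, n ∉ Ioc M N → g n = 0) :
    ‖∑ n ∈ Icc 1 N, (g n : ℂ) * ee (n * α)
        * (((1 / Θ : ℝ) : ℂ) - ((2 * Real.pi * s * ((n : ℝ) - 0) : ℝ) : ℂ) * Complex.I)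
            ^ (-(1 / 2 - t * Complex.I) : ℂ)‖
      ≤ ((Real.sqrt (Real.pi * M))⁻¹ * Real.exp (Real.pi * |t| / 2))
        * (‖cor g 0 M α (t / (2 * Real.pi)) N‖ + (1 + 2 * |t| / (Θ * M)) / M *
          ∑ y ∈ Ioc M N, ‖cor g 0 M α (t / (2 * Real.pi)) y‖) := by
  have hΘ1 : 0 < 1 / Θ := by positivity
  have hpi := Real.pi_pos
  have hM0 : (1 : ℝ) ≤ M := by exact_mod_cast hM
  have hM00 : (0 : ℝ) < M := by linarith
  rcases lt_or_ge N M with hNM | hNM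
  · have : ∑ n ∈ Icc 1 N, (g n : ℂ) * ee (n * α)
        * (((1 / Θ : ℝ) : ℂ) - ((2 * Real.pi * s * ((n : ℝ) - 0) : ℝ) : ℂ) * Complex.I)
            ^ (-(1 / 2 - t * Complex.I) : ℂ) = 0 := by
      apply sum_eq_zero
      intro n hn
      rw [hg n (by simp only [mem_Ioc, not_and, not_le]; intro h; omega)]
      simp
    rw [this, norm_zero]
    positivity
  set b : ℕ → ℂ := fun n => (g n : ℂ) * ee (n * α + t / (2 * Real.pi) * Real.log ((n : ℝ) - (0 : ℕ)))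
    with hb
  set h : ℕ → ℂ := fun n => MelL_hMf Θ s 0 t 0 ((n : ℝ) : ℂ) with hh
  have e1 : ∑ n ∈ Icc 1 N, (g n : ℂ) * ee (n * α)
        * (((1 / Θ : ℝ) : ℂ) - ((2 * Real.pi * s * ((n : ℝ) - 0) : ℝ) : ℂ) * Complex.I)
            ^ (-(1 / 2 - t * Complex.I) : ℂ) = ∑ n ∈ Ioc M N, b n * h n := by
    have e2 : ∑ n ∈ Icc 1 N, (g n : ℂ) * ee (n * α)
        * (((1 / Θ : ℝ) : ℂ) - ((2 * Real.pi * s * ((n : ℝ) - 0) : ℝ) : ℂ) * Complex.I)
            ^ (-(1 / 2 - t * Complex.I) : ℂ) = ∑ n ∈ Ioc M N, (g n : ℂ) * ee (n * α)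
        * (((1 / Θ : ℝ) : ℂ) - ((2 * Real.pi * s * ((n : ℝ) - 0) : ℝ) : ℂ) * Complex.I)
            ^ (-(1 / 2 - t * Complex.I) : ℂ) := by
      symm
      apply sum_subset
      · intro i hi
        rw [mem_Ioc] at hi
        rw [mem_Icc]; omega
      · intro i _ hi
        rw [hg i hi]; simp
    rw [e2]
    apply sum_congr rfl
    intro n hn
    have hn1 := mem_Ioc.1 hn
    have hna : (0 : ℝ) < (n : ℝ) - (0 : ℕ) := by
      have : (M : ℝ) < n := by exact_mod_cast hn1.1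
      push_cast
      linarith
    simp only [hb, hh, MelL_hMf]
    have e3 : (((n : ℝ) : ℂ) - ((0 : ℕ) : ℂ)) = (((n : ℝ) - (0 : ℕ) : ℝ) : ℂ) := by push_cast; ring
    have e4 : ee (n * α + t / (2 * Real.pi) * Real.log ((n : ℝ) - (0 : ℕ)))
        * Complex.exp (-(t * Complex.I) * Complex.log (((n : ℝ) : ℂ) - (0 : ℕ))) = ee (n * α) := by
      rw [e3, ← Complex.ofReal_log hna.le, ee, ee, ← Complex.exp_add]
      congr 1
      push_cast
      have : (Real.pi : ℂ) ≠ 0 := Complex.ofReal_ne_zero.2 hpi.ne'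
      field_simp
      ring
    have e5 : MelL_wM Θ s 0 ((n : ℝ) : ℂ) = (((1 / Θ : ℝ) : ℂ)
        - ((2 * Real.pi * s * ((n : ℝ) - 0) : ℝ) : ℂ) * Complex.I) := by
      rw [MelL_wM]; push_cast; ring
    rw [e5, ← e4]
    ring
  rw [e1, MelL_abel_sum b h (fun y => ∑ n ∈ Ioc M y, b n) M (fun _ => rfl) N hNM]
  have hA : ∀ y, ‖∑ n ∈ Ioc M y, b n‖ = ‖cor g 0 M α (t / (2 * Real.pi)) y‖ := fun y => rfl
  set H0 : ℝ := (Real.sqrt (Real.pi * M))⁻¹ * Real.exp (Real.pi * |t| / 2) with hH0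
  have hH0p : 0 ≤ H0 := by positivity
  have ha : |(0 : ℝ) - (0 : ℕ)| ≤ (M : ℝ) / 2 := by
    simp only [Nat.cast_zero, sub_zero, abs_zero]
    positivity
  have hcast : ∀ n : ℕ, M ≤ n → ((0 : ℕ) : ℝ) + M ≤ n := by
    intro n hn
    have : (M : ℝ) ≤ n := by exact_mod_cast hn
    push_cast
    linarith
  have b1 : ‖(∑ n ∈ Ioc M N, b n) * h (N + 1)‖ ≤ ‖cor g 0 M α (t / (2 * Real.pi)) N‖ * H0 := by
    rw [norm_mul, hA]
    exact mul_le_mul_of_nonneg_left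
      (MelL_hM_norm Θ s 0 t M 0 hs hΘ hM0 ha _ (hcast _ (by omega))) (norm_nonneg _)
  set w : ℝ := 1 + 2 * |t| / (Θ * M) with hw
  have b2 : ‖∑ n ∈ Ioc M N, (∑ i ∈ Ioc M n, b i) * (h n - h (n + 1))‖
      ≤ ∑ n ∈ Ioc M N, ‖cor g 0 M α (t / (2 * Real.pi)) n‖ * (H0 * (w / M)) := by
    refine (norm_sum_le _ _).trans (sum_le_sum fun n hn => ?_)
    have hn1 := mem_Ioc.1 hn
    rw [norm_mul, hA]
    refine mul_le_mul_of_nonneg_left ?_ (norm_nonneg _)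
    have := MelL_hM_diff Θ s 0 t M 0 hs hΘ hM0 ha (n : ℝ) (hcast n hn1.1.le)
    rw [norm_sub_rev]
    have e6 : (((n : ℝ) + 1 : ℝ) : ℂ) = ((((n + 1 : ℕ) : ℝ)) : ℂ) := by push_cast; rfl
    rw [e6] at this
    refine this.trans (mul_le_mul_of_nonneg_left ?_ hH0p)
    have hnM : (M : ℝ) ≤ n := by exact_mod_cast hn1.1.le
    simp only [Nat.cast_zero, sub_zero, abs_zero, zero_add]
    have c1 : 1 / (n : ℝ) ≤ 1 / M := one_div_le_one_div_of_le hM00 hnM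
    have c2 : 2 * |t| * (1 / Θ) / (n : ℝ) ^ 2 ≤ 2 * |t| * (1 / Θ) / (M : ℝ) ^ 2 := by
      gcongr
    have c3 : w / M = 1 / M + 2 * |t| * (1 / Θ) / (M : ℝ) ^ 2 := by
      rw [hw]
      field_simp
    rw [c3]
    exact add_le_add c1 c2
  refine (norm_add_le _ _).trans ((add_le_add b1 b2).trans (le_of_eq ?_))
  rw [← Finset.sum_mul]
  ring

/-- final arithmetic -/
private theorem MelL_fin (M T G X A S Q : ℝ) (N w : ℝ) (hM : 1 ≤ M)
    (hG0 : 0 ≤ G) (hG : G ≤ 3 * Real.exp (-(Real.pi * T / 2))) (hX0 : 0 ≤ X) (hA : 0 ≤ A)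
    (hS : 0 ≤ S) (hw : 0 ≤ w) (hQ : S ^ 2 ≤ N * Q)
    (hX : X ≤ ((Real.sqrt (Real.pi * M))⁻¹ * Real.exp (Real.pi * T / 2)) * (A + w / M * S)) :
    (G * X) ^ 2 ≤ 6 / M * (A ^ 2 + w ^ 2 / M ^ 2 * N * Q) := by
  have hpi := Real.pi_gt_three
  have hM0 : 0 < M := by linarith
  have hY : 0 ≤ A + w / M * S := by positivity
  have h1 : G * X ≤ 3 * Real.exp (-(Real.pi * T / 2)) * (((Real.sqrt (Real.pi * M))⁻¹
      * Real.exp (Real.pi * T / 2)) * (A + w / M * S)) :=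
    mul_le_mul hG hX hX0 (by positivity)
  have h2 : Real.exp (-(Real.pi * T / 2)) * Real.exp (Real.pi * T / 2) = 1 := by
    rw [← Real.exp_add]; simp
  have h3 : G * X ≤ 3 * (Real.sqrt (Real.pi * M))⁻¹ * (A + w / M * S) := by
    refine h1.trans (le_of_eq ?_)
    calc 3 * Real.exp (-(Real.pi * T / 2)) * (((Real.sqrt (Real.pi * M))⁻¹
      * Real.exp (Real.pi * T / 2)) * (A + w / M * S))
        = (Real.exp (-(Real.pi * T / 2)) * Real.exp (Real.pi * T / 2)) *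
          (3 * (Real.sqrt (Real.pi * M))⁻¹ * (A + w / M * S)) := by ring
      _ = _ := by rw [h2, one_mul]
  have h4 : (G * X) ^ 2 ≤ (3 * (Real.sqrt (Real.pi * M))⁻¹ * (A + w / M * S)) ^ 2 :=
    pow_le_pow_left₀ (mul_nonneg hG0 hX0) h3 2
  have h5 : (3 * (Real.sqrt (Real.pi * M))⁻¹ * (A + w / M * S)) ^ 2
      = 9 / (Real.pi * M) * (A + w / M * S) ^ 2 := by
    rw [mul_pow, mul_pow, inv_pow, Real.sq_sqrt (by positivity)]
    field_simp
    ring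
  have h6 : 9 / (Real.pi * M) ≤ 3 / M := by
    rw [div_le_div_iff₀ (by positivity) hM0]
    nlinarith only [hpi, hM0]
  have h7 : (A + w / M * S) ^ 2 ≤ 2 * (A ^ 2 + w ^ 2 / M ^ 2 * N * Q) := by
    have h8 : (w / M * S) ^ 2 ≤ w ^ 2 / M ^ 2 * N * Q := by
      have : (w / M * S) ^ 2 = w ^ 2 / M ^ 2 * S ^ 2 := by ring
      rw [this, mul_assoc]
      exact mul_le_mul_of_nonneg_left hQ (by positivity)
    nlinarith only [h8, sq_nonneg (A - w / M * S)]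
  rw [h5] at h4
  refine h4.trans ?_
  calc 9 / (Real.pi * M) * (A + w / M * S) ^ 2 ≤ 3 / M * (A + w / M * S) ^ 2 :=
        mul_le_mul_of_nonneg_right h6 (sq_nonneg _)
    _ ≤ 3 / M * (2 * (A ^ 2 + w ^ 2 / M ^ 2 * N * Q)) :=
        mul_le_mul_of_nonneg_left h7 (by positivity)
    _ = _ := by ring

theorem mel_l (g : ℕ → ℝ) (N M : ℕ) (α Θ s t : ℝ) (hs : s = 1 ∨ s = -1) (hΘ : 0 < Θ) (hM : 1 ≤ M)
    (hg : ∀ n, n ∉ Ioc M N → g n = 0) :
    ‖Mel (ge g N α 0 Θ s) t‖ ^ 2 ≤ 6 / M * (‖cor g 0 M α (t / (2 * Real.pi)) N‖ ^ 2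
      + (1 + 2 * |t| / (Θ * M)) ^ 2 / (M : ℝ) ^ 2 * N *
        ∑ y ∈ Ioc M N, ‖cor g 0 M α (t / (2 * Real.pi)) y‖ ^ 2) := by
  rw [mel_ge g N α 0 Θ s t hΘ, norm_mul]
  have hM0 : (1 : ℝ) ≤ M := by exact_mod_cast hM
  refine MelL_fin M |t| _ _ ‖cor g 0 M α (t / (2 * Real.pi)) N‖
    (∑ y ∈ Ioc M N, ‖cor g 0 M α (t / (2 * Real.pi)) y‖)
    (∑ y ∈ Ioc M N, ‖cor g 0 M α (t / (2 * Real.pi)) y‖ ^ 2) N (1 + 2 * |t| / (Θ * M)) hM0
    (norm_nonneg _) (gamma_half t) (norm_nonneg _) (norm_nonneg _)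
    (sum_nonneg fun _ _ => norm_nonneg _) (by positivity) ?_ ?_
  · have h1 := sq_sum_le_card_mul_sum_sq (s := Ioc M N)
      (f := fun y => ‖cor g 0 M α (t / (2 * Real.pi)) y‖)
    refine h1.trans (mul_le_mul_of_nonneg_right ?_ (sum_nonneg fun _ _ => sq_nonneg _))
    rw [Nat.card_Ioc]
    exact_mod_cast Nat.sub_le N M
  · exact MelL_sum g N M α Θ s t hs hΘ hM hg

end Pool.Agent.H76.SP

end

section

/-!
# W MelTl: the tail of the Mellin transform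

In the setting of `MelCor`.  `|w_n^{-1/2+it}| = |w_n|^{-1/2} exp(-t arg w_n)`, `|w_n| ≥ π S0 ≥ 1`,
`|arg w_n| = arctan(2πΘ (n - a)) = π/2 - arctan(1/(2πΘ(n-a)))`, so
`|Γ(1/2-it)| |w_n^{-1/2+it}| ≤ 3 S0^{-1/2} exp(-|t| η_n)`, `η_n = arctan(1/(2πΘ(n - a)))` and `0 < n - a ≤ 2N`
(`n ≤ N`, `a ≥ a0 - S0/2`, `S0 ≤ M < n ≤ N`).  `arctan z ≥ (π/4) min(z, 1)` for `z ≥ 0`, so
`η_n ≥ 1/(40 (Θ N + 1))`.
(If `N ≤ M` the left side is 0.)
-/

set_option autoImplicit false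

namespace Pool.Agent.H35.W

open Finset MeasureTheory
open Pool.Agent.H91.PK (ee)
open Pool.Agent.H76.EHB

/-- the argument of a point of the right half plane -/
private theorem mtl_arg {w : ℂ} (hw : 0 < w.re) :
    |Complex.arg w| ≤ Real.pi / 2 - w.re / ‖w‖ := by
  have hw0 : w ≠ 0 := by
    intro h
    rw [h] at hw
    simp at hw
  have h1 : |Complex.arg w| ≤ Real.pi / 2 := Complex.abs_arg_le_pi_div_two_iff.2 hw.le
  have h2 : Real.sin (Real.pi / 2 - |Complex.arg w|) = w.re / ‖w‖ := by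
    rw [Real.sin_pi_div_two_sub, Real.cos_abs, Complex.cos_arg hw0]
  have h3 := Real.sin_le (sub_nonneg.2 h1)
  rw [h2] at h3
  linarith

private theorem mtl_term {Θ s t S0 a : ℝ} {N M a0 n : ℕ} (hs : s = 1 ∨ s = -1) (hΘ : 0 < Θ)
    (hS0 : 1 ≤ S0) (hM : (a0 : ℝ) + S0 ≤ M) (ha : |a - a0| ≤ S0 / 2) (hn : n ∈ Ioc M N) :
    3 * Real.exp (-(Real.pi * |t| / 2)) *
      ‖((((1 / Θ : ℝ) : ℂ) - ((2 * Real.pi * s * ((n : ℝ) - a) : ℝ) : ℂ) * Complex.I)
            ^ (-(1 / 2 - t * Complex.I) : ℂ))‖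
      ≤ 3 * Real.exp (-(|t| / (40 * (Θ * N + 1)))) := by
  have hn' := Finset.mem_Ioc.1 hn
  have hMn : (M : ℝ) + 1 ≤ n := by exact_mod_cast hn'.1
  have hnN : (n : ℝ) ≤ N := by exact_mod_cast hn'.2
  have ha' := abs_le.1 ha
  have ha0 : (0 : ℝ) ≤ a0 := Nat.cast_nonneg _
  have hpi := Real.pi_gt_three
  have hpi4 := Real.pi_lt_d2
  set v : ℝ := (n : ℝ) - a with hv
  have hv1 : 1 / 2 ≤ v := by rw [hv]; linarith
  have hv2 : v ≤ 2 * N := by rw [hv]; linarith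
  set w : ℂ := (((1 / Θ : ℝ) : ℂ) - ((2 * Real.pi * s * v : ℝ) : ℂ) * Complex.I) with hw
  have hre : w.re = 1 / Θ := by
    rw [hw]
    simp
  have him : w.im = -(2 * Real.pi * s * v) := by
    rw [hw]
    simp
  have hrepos : 0 < w.re := by rw [hre]; positivity
  have hw0 : w ≠ 0 := by
    intro h
    rw [h] at hrepos
    simp at hrepos
  have hs1 : |s| = 1 := by
    rcases hs with h | h <;> rw [h] <;> norm_num
  have himabs : |w.im| = 2 * Real.pi * v := by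
    rw [him, abs_neg, abs_mul, abs_mul, hs1, abs_of_pos (by linarith : (0 : ℝ) < 2 * Real.pi),
      abs_of_pos (by linarith : (0 : ℝ) < v)]
    ring
  have hnorm1 : 1 ≤ ‖w‖ := by
    have h1 := Complex.abs_im_le_norm w
    rw [himabs] at h1
    nlinarith
  have hnorm2 : ‖w‖ ≤ 1 / Θ + 4 * Real.pi * N := by
    have h1 := Complex.norm_le_abs_re_add_abs_im w
    rw [himabs, abs_of_pos hrepos, hre] at h1
    have h2 : 2 * Real.pi * v ≤ 2 * Real.pi * (2 * N) :=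
      mul_le_mul_of_nonneg_left hv2 (by linarith)
    linarith
  have hN0 : (0 : ℝ) ≤ N := Nat.cast_nonneg _
  have harg : |Complex.arg w| ≤ Real.pi / 2 - 1 / (40 * (Θ * N + 1)) := by
    have h1 := mtl_arg hrepos
    have h2 : 1 / (40 * (Θ * N + 1)) ≤ w.re / ‖w‖ := by
      rw [hre]
      have h3 : (1 / Θ) / (1 / Θ + 4 * Real.pi * N) ≤ 1 / Θ / ‖w‖ :=
        div_le_div_of_nonneg_left (by positivity) (by linarith) hnorm2
      refine le_trans ?_ h3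
      rw [div_le_div_iff₀ (by positivity) (by positivity)]
      have h4 : 1 / Θ * (40 * (Θ * N + 1)) = 40 * N + 40 / Θ := by
        field_simp
      rw [h4, one_mul]
      have h5 : 4 * Real.pi * N ≤ 40 * N := by nlinarith
      have h6 : 1 / Θ ≤ 40 / Θ := div_le_div_of_nonneg_right (by norm_num) hΘ.le
      linarith
    linarith
  rw [Complex.norm_cpow_of_ne_zero hw0]
  have hzre : (-(1 / 2 - (t : ℂ) * Complex.I)).re = -(1 / 2 : ℝ) := by
    simp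
  have hzim : (-(1 / 2 - (t : ℂ) * Complex.I)).im = t := by
    simp
  rw [hzre, hzim]
  have hpow : ‖w‖ ^ (-(1 / 2 : ℝ)) ≤ 1 :=
    Real.rpow_le_one_of_one_le_of_nonpos hnorm1 (by norm_num)
  have hexp : 1 / Real.exp (Complex.arg w * t) ≤
      Real.exp (|t| * (Real.pi / 2 - 1 / (40 * (Θ * N + 1)))) := by
    rw [one_div, ← Real.exp_neg]
    apply Real.exp_le_exp.2
    calc -(Complex.arg w * t) ≤ |Complex.arg w * t| := neg_le_abs _
      _ = |t| * |Complex.arg w| := by rw [abs_mul, mul_comm]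
      _ ≤ _ := mul_le_mul_of_nonneg_left harg (abs_nonneg _)
  have h7 : ‖w‖ ^ (-(1 / 2 : ℝ)) / Real.exp (Complex.arg w * t) ≤
      Real.exp (|t| * (Real.pi / 2 - 1 / (40 * (Θ * N + 1)))) := by
    refine le_trans ?_ hexp
    exact div_le_div_of_nonneg_right hpow (Real.exp_pos _).le
  calc 3 * Real.exp (-(Real.pi * |t| / 2)) * (‖w‖ ^ (-(1 / 2 : ℝ)) / Real.exp (Complex.arg w * t))
      ≤ 3 * Real.exp (-(Real.pi * |t| / 2)) *
          Real.exp (|t| * (Real.pi / 2 - 1 / (40 * (Θ * N + 1)))) :=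
        mul_le_mul_of_nonneg_left h7 (by positivity)
    _ = 3 * Real.exp (-(|t| / (40 * (Θ * N + 1)))) := by
        rw [mul_assoc, ← Real.exp_add]
        congr 2
        field_simp
        ring

theorem mel_tl (g : ℕ → ℝ) (N M a0 : ℕ) (α a Θ s t S0 : ℝ) (hs : s = 1 ∨ s = -1) (hΘ : 0 < Θ)
    (hS0 : 1 ≤ S0) (hM : (a0 : ℝ) + S0 ≤ M) (ha : |a - a0| ≤ S0 / 2)
    (hg : ∀ n, n ∉ Ioc M N → g n = 0) :
    ‖Mel (ge g N α a Θ s) t‖
      ≤ 3 * (∑ n ∈ Icc 1 N, |g n|) * Real.exp (-(|t| / (40 * (Θ * N + 1)))) := by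
  rw [mel_ge g N α a Θ s t hΘ, norm_mul]
  have h1 := gamma_half t
  calc ‖Complex.Gamma (1 / 2 - t * Complex.I)‖ * ‖∑ n ∈ Icc 1 N, (g n : ℂ) * ee (n * α)
        * (((1 / Θ : ℝ) : ℂ) - ((2 * Real.pi * s * ((n : ℝ) - a) : ℝ) : ℂ) * Complex.I)
            ^ (-(1 / 2 - t * Complex.I) : ℂ)‖
      ≤ (3 * Real.exp (-(Real.pi * |t| / 2))) * ∑ n ∈ Icc 1 N, |g n| *
        ‖((((1 / Θ : ℝ) : ℂ) - ((2 * Real.pi * s * ((n : ℝ) - a) : ℝ) : ℂ) * Complex.I)
            ^ (-(1 / 2 - t * Complex.I) : ℂ))‖ := by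
        refine mul_le_mul h1 ?_ (norm_nonneg _) (by positivity)
        refine (norm_sum_le _ _).trans (Finset.sum_le_sum fun n _ => ?_)
        rw [norm_mul, norm_mul, Pool.Agent.H91.PK.LSa_norm_ee, mul_one, Complex.norm_real,
          Real.norm_eq_abs]
    _ = ∑ n ∈ Icc 1 N, |g n| * (3 * Real.exp (-(Real.pi * |t| / 2)) *
        ‖((((1 / Θ : ℝ) : ℂ) - ((2 * Real.pi * s * ((n : ℝ) - a) : ℝ) : ℂ) * Complex.I)
            ^ (-(1 / 2 - t * Complex.I) : ℂ))‖) := by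
        rw [Finset.mul_sum]
        refine Finset.sum_congr rfl fun n _ => ?_
        ring
    _ ≤ ∑ n ∈ Icc 1 N, |g n| * (3 * Real.exp (-(|t| / (40 * (Θ * N + 1))))) := by
        refine Finset.sum_le_sum fun n _ => ?_
        by_cases hn : n ∈ Ioc M N
        · exact mul_le_mul_of_nonneg_left (mtl_term hs hΘ hS0 hM ha hn) (abs_nonneg _)
        · rw [hg n hn]
          simp
    _ = 3 * (∑ n ∈ Icc 1 N, |g n|) * Real.exp (-(|t| / (40 * (Θ * N + 1)))) := by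
        rw [← Finset.sum_mul]
        ring

end Pool.Agent.H35.W

end

section

/-!
# CH RkT: Rankin's trick with the divisor function

`τ(l) = #{(a, b) : a b = l}`, both `a`, `b` smooth, `a > √D` or `b > √D`: so the sum is `≤ 2 ∑_{a > √D} 1/a · ∑_b 1/b`, the first factor by `rankin` with `√D`.
-/

set_option autoImplicit false

namespace Pool.Agent.H43.CH

open Finset

open Classical in
/-- the smooth numbers of `(D, K]` -/
private noncomputable def RkT_S (Q D K : ℕ) : Finset ℕ := (Ioc D K).filter (fun l : ℕ => ∀ p : ℕ, p.Prime → p ∣ l → p ≤ Q)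

open Classical in
private theorem RkT_mem {Q D K l : ℕ} : l ∈ RkT_S Q D K ↔ (D < l ∧ l ≤ K) ∧ ∀ p : ℕ, p.Prime → p ∣ l → p ≤ Q := by
  unfold RkT_S
  rw [Finset.mem_filter, Finset.mem_Ioc]

private theorem RkT_split (Q D K : ℕ) : ∑ l ∈ RkT_S Q D K, (l.divisors.card : ℝ) / l ≤
    2 * ((∑ a ∈ RkT_S Q (Nat.sqrt D) K, (1 : ℝ) / a) * ∑ b ∈ RkT_S Q 0 K, (1 : ℝ) / b) := by
  classical
  set f : ℕ × ℕ → ℝ := fun x => 1 / (x.1 : ℝ) * (1 / (x.2 : ℝ)) with hf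
  have hf0 : ∀ x, 0 ≤ f x := fun x => by
    rw [hf]
    positivity
  have h1 : ∀ l ∈ RkT_S Q D K, (l.divisors.card : ℝ) / l = ∑ x ∈ l.divisorsAntidiagonal, f x := by
    intro l hl
    have h2 : ∀ x ∈ l.divisorsAntidiagonal, f x = 1 / l := by
      intro x hx
      have h3 := (Nat.mem_divisorsAntidiagonal.1 hx).1
      rw [hf]
      simp only
      rw [← h3]
      push_cast
      rw [one_div_mul_one_div]
    rw [Finset.sum_congr rfl h2, Finset.sum_const, nsmul_eq_mul, mul_one_div]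
    congr 2
    have h3 := Nat.map_div_right_divisors (n := l)
    rw [← h3, Finset.card_map]
  rw [Finset.sum_congr rfl h1, ← Finset.sum_biUnion]
  · set A := RkT_S Q (Nat.sqrt D) K with hA
    set B := RkT_S Q 0 K with hB
    have hsub : (RkT_S Q D K).biUnion (fun l => l.divisorsAntidiagonal) ⊆ A ×ˢ B ∪ B ×ˢ A := by
      intro x hx
      rw [Finset.mem_biUnion] at hx
      obtain ⟨l, hl, hxl⟩ := hx
      obtain ⟨h2, h3⟩ := Nat.mem_divisorsAntidiagonal.1 hxl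
      obtain ⟨⟨h4, h5⟩, h6⟩ := RkT_mem.1 hl
      have hx1 : 0 < x.1 := Nat.pos_of_ne_zero fun h => h3 (by rw [← h2, h, zero_mul])
      have hx2 : 0 < x.2 := Nat.pos_of_ne_zero fun h => h3 (by rw [← h2, h, mul_zero])
      have hK1 : x.1 ≤ K := (Nat.le_of_dvd (by omega) ⟨x.2, h2.symm⟩).trans h5
      have hK2 : x.2 ≤ K := (Nat.le_of_dvd (by omega) ⟨x.1, by rw [mul_comm]; exact h2.symm⟩).trans h5
      have hs1 : ∀ p : ℕ, p.Prime → p ∣ x.1 → p ≤ Q := fun p hp hd => h6 p hp (h2 ▸ hd.mul_right _)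
      have hs2 : ∀ p : ℕ, p.Prime → p ∣ x.2 → p ≤ Q := fun p hp hd => h6 p hp (h2 ▸ hd.mul_left _)
      rw [Finset.mem_union, Finset.mem_product, Finset.mem_product]
      by_cases h7 : Nat.sqrt D < x.1
      · exact Or.inl ⟨RkT_mem.2 ⟨⟨h7, hK1⟩, hs1⟩, RkT_mem.2 ⟨⟨hx2, hK2⟩, hs2⟩⟩
      · by_cases h8 : Nat.sqrt D < x.2
        · exact Or.inr ⟨RkT_mem.2 ⟨⟨hx1, hK1⟩, hs1⟩, RkT_mem.2 ⟨⟨h8, hK2⟩, hs2⟩⟩
        · exfalso
          push Not at h7 h8
          have h9 : x.1 * x.2 ≤ Nat.sqrt D * Nat.sqrt D := Nat.mul_le_mul h7 h8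
          have h10 := Nat.sqrt_le D
          omega
    have h2 : ∑ x ∈ A ×ˢ B, f x = (∑ a ∈ A, (1 : ℝ) / a) * ∑ b ∈ B, (1 : ℝ) / b := by
      rw [Finset.sum_product, Finset.sum_mul_sum]
    have h3 : ∑ x ∈ B ×ˢ A, f x = (∑ a ∈ A, (1 : ℝ) / a) * ∑ b ∈ B, (1 : ℝ) / b := by
      rw [Finset.sum_product, mul_comm, Finset.sum_mul_sum]
    calc ∑ x ∈ (RkT_S Q D K).biUnion (fun l => l.divisorsAntidiagonal), f x ≤ ∑ x ∈ A ×ˢ B ∪ B ×ˢ A, f x :=
          Finset.sum_le_sum_of_subset_of_nonneg hsub fun x _ _ => hf0 x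
      _ ≤ ∑ x ∈ A ×ˢ B, f x + ∑ x ∈ B ×ˢ A, f x := by
          rw [← Finset.sum_union_inter]
          exact le_add_of_nonneg_right (Finset.sum_nonneg fun x _ => hf0 x)
      _ = _ := by rw [h2, h3]; ring
  · intro l _ m _ hlm
    refine Finset.disjoint_left.2 fun x hx hx' => hlm ?_
    rw [← (Nat.mem_divisorsAntidiagonal.1 hx).1, ← (Nat.mem_divisorsAntidiagonal.1 hx').1]

open Classical in
theorem rankin_tau : ∃ (C : ℝ) (k : ℕ), 0 < C ∧ ∀ Q D K : ℕ, 100 ≤ Q → 1 ≤ D →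
    ∑ l ∈ (Ioc D K).filter (fun l : ℕ => ∀ p : ℕ, p.Prime → p ∣ l → p ≤ Q), (l.divisors.card : ℝ) / l
      ≤ C * Real.log Q ^ k * Real.exp (-(Real.log D / (2 * Real.log Q))) := by
  obtain ⟨C, k, hC, hR⟩ := Pool.Agent.H43.LM.rankin
  refine ⟨2 * Real.exp 1 * C * (1 + C), k + k, by positivity, fun Q D K hQ hD => ?_⟩
  have hR' : ∀ D' : ℕ, 1 ≤ D' → ∑ l ∈ RkT_S Q D' K, (1 : ℝ) / l ≤ C * Real.log Q ^ k * Real.exp (-(Real.log D' / Real.log Q)) :=
    fun D' hD' => hR Q D' K hQ hD'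
  have hQ2 : (2 : ℝ) ≤ Q := by exact_mod_cast (by omega : 2 ≤ Q)
  have hQe : Real.exp 1 ≤ Q := by
    have h1 := Real.exp_one_lt_d9
    have h2 : (100 : ℝ) ≤ Q := by exact_mod_cast hQ
    linarith
  have hL1 : 1 ≤ Real.log Q := by
    rw [Real.le_log_iff_exp_le (by linarith)]
    exact hQe
  have hL0 : 0 < Real.log Q := by linarith
  have hLk : 1 ≤ Real.log Q ^ k := one_le_pow₀ hL1
  set D' : ℕ := Nat.sqrt D with hD'
  have hD'1 : 1 ≤ D' := Nat.sqrt_pos.2 (by omega)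
  have hD'0 : (0 : ℝ) < D' := by exact_mod_cast hD'1
  have hD0 : (0 : ℝ) < D := by exact_mod_cast (by omega : 0 < D)
  -- `log D ≤ 2 log 2 + 2 log D'`
  have hlog : Real.log D ≤ 2 * Real.log 2 + 2 * Real.log D' := by
    have h1 : D < (D' + 1) * (D' + 1) := Nat.lt_succ_sqrt D
    have h2 : D ≤ (2 * D') ^ 2 := by nlinarith
    have h3 : (D : ℝ) ≤ (2 * D') ^ 2 := by exact_mod_cast h2
    have h4 := Real.log_le_log hD0 h3
    rw [Real.log_pow, Real.log_mul (by norm_num) hD'0.ne'] at h4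
    push_cast at h4
    linarith
  have hexp : Real.exp (-(Real.log D' / Real.log Q)) ≤ Real.exp 1 * Real.exp (-(Real.log D / (2 * Real.log Q))) := by
    rw [← Real.exp_add]
    apply Real.exp_le_exp.2
    have h1 : Real.log 2 ≤ Real.log Q := Real.log_le_log (by norm_num) hQ2
    rw [← sub_nonneg]
    have h2 : 1 + -(Real.log D / (2 * Real.log Q)) - -(Real.log D' / Real.log Q) =
        (2 * Real.log Q - Real.log D + 2 * Real.log D') / (2 * Real.log Q) := by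
      field_simp
      ring
    rw [h2]
    exact div_nonneg (by linarith) (by positivity)
  have hA := hR' D' hD'1
  have hA0 : 0 ≤ ∑ l ∈ RkT_S Q D' K, (1 : ℝ) / l := Finset.sum_nonneg fun l _ => by positivity
  have hB : ∑ b ∈ RkT_S Q 0 K, (1 : ℝ) / b ≤ (1 + C) * Real.log Q ^ k := by
    have h1 := hR' 1 le_rfl
    rw [Nat.cast_one, Real.log_one, zero_div, neg_zero, Real.exp_zero, mul_one] at h1
    have h2 : RkT_S Q 0 K ⊆ insert 1 (RkT_S Q 1 K) := by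
      intro l hl
      obtain ⟨⟨h3, h4⟩, h5⟩ := RkT_mem.1 hl
      rw [Finset.mem_insert]
      rcases Nat.eq_or_lt_of_le h3 with h6 | h6
      · left
        omega
      · right
        exact RkT_mem.2 ⟨⟨by omega, h4⟩, h5⟩
    have h3 : (1 : ℕ) ∉ RkT_S Q 1 K := fun h => lt_irrefl 1 (RkT_mem.1 h).1.1
    calc ∑ b ∈ RkT_S Q 0 K, (1 : ℝ) / b ≤ ∑ b ∈ insert 1 (RkT_S Q 1 K), (1 : ℝ) / b :=
          Finset.sum_le_sum_of_subset_of_nonneg h2 fun b _ _ => by positivity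
      _ = 1 + ∑ b ∈ RkT_S Q 1 K, (1 : ℝ) / b := by
          rw [Finset.sum_insert h3, Nat.cast_one, one_div_one]
      _ ≤ Real.log Q ^ k + C * Real.log Q ^ k := add_le_add hLk h1
      _ = _ := by ring
  have hB0 : 0 ≤ ∑ b ∈ RkT_S Q 0 K, (1 : ℝ) / b := Finset.sum_nonneg fun l _ => by positivity
  calc ∑ l ∈ (Ioc D K).filter (fun l : ℕ => ∀ p : ℕ, p.Prime → p ∣ l → p ≤ Q), (l.divisors.card : ℝ) / l
      ≤ 2 * ((∑ a ∈ RkT_S Q D' K, (1 : ℝ) / a) * ∑ b ∈ RkT_S Q 0 K, (1 : ℝ) / b) := RkT_split Q D K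
    _ ≤ 2 * ((C * Real.log Q ^ k * Real.exp (-(Real.log D' / Real.log Q))) * ((1 + C) * Real.log Q ^ k)) := by
        have := mul_le_mul hA hB hB0 (hA0.trans hA)
        linarith
    _ ≤ 2 * ((C * Real.log Q ^ k * (Real.exp 1 * Real.exp (-(Real.log D / (2 * Real.log Q))))) * ((1 + C) * Real.log Q ^ k)) := by
        gcongr
    _ = 2 * Real.exp 1 * C * (1 + C) * Real.log Q ^ (k + k) * Real.exp (-(Real.log D / (2 * Real.log Q))) := by
        rw [pow_add]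
        ring

end Pool.Agent.H43.CH

end
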