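import Pool.Agent.H43.PS.H43.LM.SwA
import Pool.Agent.H43.PS.M09

/-! The parts of this file: H43.LM.SwB, H43.LM.SwG. -/

section

/-!
# LM SwB: the Möbius function with additive characters and `n^{it}`

Proof.  (1) Partial summation: with `A(u) = ∑_{n ≤ u} mu n ee(-n b/c)`, `|A(u)| ≤ x/L^{A+m+3}` for all `u ≤ x`: `∑_{n ≤ y} a_n φ(n) = A(y) φ(y) - ∑_{n < y} A(n) (φ(n+1) - φ(n))`, `φ(n) = ee(-t log n)`, `|φ(n+1) - φ(n)| ≤ 2π |t| log((n+1)/n) ≤ 7 |t|/n`
(`1 ≤ n`), so at most `x/L^{A+m+3} (1 + 7 |t| (1 + log y)) ≤ x/L^A`.  (compare `H43/PX`, `H91/PK/LSa.lean` for `ee`: `LSa_ee_add`, `LSa_norm_ee`.)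
(2) `A(u)`: split by `g = gcd(n, c)`, `g ∣ c`, `n = g n'`, `gcd(n', c/g) = 1`: `mu (g n') = mu g · mu n'` if `gcd(g, n') = 1` (`ArithmeticFunction.isMultiplicative_moebius`) and `0` otherwise (`g n'` is not squarefree); so only `n'` prime to `g · (c/g) = c` count.  `ee(-g n' b/c)` depends on `n' mod c` only:
split `n'` into the classes `r mod c`, `(r,c) = 1` (at most `c` of them), `sw_a (A + m + 3 + 2B + 1) (B)` with `y' = u/g`: total `≤ ∑_{g ∣ c} c · x/L^{A+m+4+2B} ≤ c^2 x/L^{..} ≤ x/L^{A+m+3}`.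
-/

set_option autoImplicit false

namespace Pool.Agent.H43.LM

open Finset
open Pool.Agent.H91.PK (ee)

private theorem SwB_norm_ee (t : ℝ) : ‖ee t‖ = 1 := by
  unfold Pool.Agent.H91.PK.ee
  have e : 2 * Real.pi * (t : ℂ) * Complex.I = ((2 * Real.pi * t : ℝ) : ℂ) * Complex.I := by
    push_cast
    ring
  rw [e, Complex.norm_exp_ofReal_mul_I]

private theorem SwB_ee_add (s t : ℝ) : ee (s + t) = ee s * ee t := by
  unfold Pool.Agent.H91.PK.ee
  rw [← Complex.exp_add]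
  congr 1
  push_cast
  ring

private theorem SwB_ee_sub (s t : ℝ) : ‖ee s - ee t‖ ≤ 2 * Real.pi * |s - t| := by
  have h1 : ee s - ee t = ee t * (ee (s - t) - 1) := by
    have : ee s = ee t * ee (s - t) := by rw [← SwB_ee_add]; congr 1; ring
    rw [this]; ring
  rw [h1, norm_mul, SwB_norm_ee, one_mul]
  have h2 : ee (s - t) = Complex.exp (Complex.I * ((2 * Real.pi * (s - t) : ℝ) : ℂ)) := by
    unfold Pool.Agent.H91.PK.ee
    congr 1
    push_cast
    ring
  rw [h2]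
  refine (Real.norm_exp_I_mul_ofReal_sub_one_le).trans (le_of_eq ?_)
  rw [Real.norm_eq_abs, abs_mul, abs_of_pos (by positivity : (0:ℝ) < 2 * Real.pi)]

/-- the additive character depends only on the residue class -/
private theorem SwB_ee_mod {c n r : ℕ} (g b : ℕ) (hc : 1 ≤ c) (h : n % c = r % c) :
    ee (-(((g * n : ℕ) : ℝ) * ((b : ℝ) / c))) = ee (-(((g * r : ℕ) : ℝ) * ((b : ℝ) / c))) := by
  have hc0 : (c : ℝ) ≠ 0 := by exact_mod_cast (by omega : c ≠ 0)
  have h1 : (c : ℤ) ∣ (n : ℤ) - r := by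
    have : r ≡ n [MOD c] := h.symm
    exact (Nat.modEq_iff_dvd.mp this)
  obtain ⟨k, hk⟩ := h1
  have h2 : (n : ℝ) = r + c * k := by
    have : ((n : ℤ) : ℝ) = ((r + c * k : ℤ) : ℝ) := by
      congr 1
      linarith
    push_cast at this
    exact this
  have h3 : -(((g * n : ℕ) : ℝ) * ((b : ℝ) / c)) = -(((g * r : ℕ) : ℝ) * ((b : ℝ) / c)) + ((-(g * b * k) : ℤ) : ℝ) := by
    push_cast
    rw [h2]
    field_simp
    ring
  rw [h3]
  unfold Pool.Agent.H91.PK.ee
  set w : ℝ := -(((g * r : ℕ) : ℝ) * ((b : ℝ) / c)) with hw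
  set K : ℤ := -(g * b * k) with hK
  have e : 2 * Real.pi * ((w + (K : ℝ) : ℝ) : ℂ) * Complex.I =
      2 * Real.pi * (w : ℂ) * Complex.I + K * (2 * Real.pi * Complex.I) := by
    push_cast
    ring
  rw [e, Complex.exp_add, Complex.exp_int_mul_two_pi_mul_I, mul_one]

private theorem SwB_mu_mul {g n : ℕ} (h : Nat.Coprime g n) : mu (g * n) = mu g * mu n := by
  unfold mu
  rw [ArithmeticFunction.isMultiplicative_moebius.map_mul_of_coprime h]
  push_cast
  rfl

private theorem SwB_mu_zero {g n : ℕ} (h : ¬ Nat.Coprime g n) : mu (g * n) = 0 := by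
  unfold mu
  rw [ArithmeticFunction.moebius_eq_zero_of_not_squarefree]
  · norm_num
  · rw [Nat.squarefree_mul_iff]
    tauto

/-- the integers `n` with `gcd(n, c) = g` -/
private theorem SwB_gcd (u c g : ℕ) (hc : 1 ≤ c) (hg : g ∣ c) (ψ : ℕ → ℂ) :
    ∑ n ∈ (Icc 1 u).filter (fun n => Nat.gcd n c = g), (mu n : ℂ) * ψ n =
      (mu g : ℂ) * ∑ n ∈ (Icc 1 (u / g)).filter (fun n => Nat.Coprime n c), (mu n : ℂ) * ψ (g * n) := by
  have hg0 : 0 < g := Nat.pos_of_dvd_of_pos hg (by omega)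
  have hcg : c = g * (c / g) := (Nat.mul_div_cancel' hg).symm
  have e1 : ∑ n ∈ (Icc 1 u).filter (fun n => Nat.gcd n c = g), (mu n : ℂ) * ψ n =
      ∑ n ∈ (Icc 1 (u / g)).filter (fun n => Nat.Coprime n (c / g)), (mu (g * n) : ℂ) * ψ (g * n) := by
    refine Finset.sum_bij' (fun n _ => n / g) (fun n _ => g * n) ?_ ?_ ?_ ?_ ?_
    · intro n hn
      rw [mem_filter, mem_Icc] at hn ⊢
      obtain ⟨⟨h1, h2⟩, h3⟩ := hn
      have hgn : g ∣ n := h3 ▸ Nat.gcd_dvd_left n c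
      refine ⟨⟨Nat.div_pos (Nat.le_of_dvd (by omega) hgn) hg0, Nat.div_le_div_right h2⟩, ?_⟩
      have h4 := Nat.coprime_div_gcd_div_gcd (m := n) (n := c) (by rw [h3]; exact hg0)
      rwa [h3] at h4
    · intro n hn
      rw [mem_filter, mem_Icc] at hn ⊢
      obtain ⟨⟨h1, h2⟩, h3⟩ := hn
      refine ⟨⟨Nat.mul_pos hg0 (by omega), ?_⟩, ?_⟩
      · calc g * n ≤ g * (u / g) := Nat.mul_le_mul_left g h2
          _ ≤ u := Nat.mul_div_le u g
      · rw [hcg, Nat.gcd_mul_left, h3, mul_one]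
    · intro n hn
      rw [mem_filter] at hn
      exact Nat.mul_div_cancel' (hn.2 ▸ Nat.gcd_dvd_left n c)
    · intro n _
      exact Nat.mul_div_cancel_left n hg0
    · intro n hn
      rw [mem_filter] at hn
      rw [Nat.mul_div_cancel' (hn.2 ▸ Nat.gcd_dvd_left n c)]
  rw [e1, Finset.mul_sum, Finset.sum_filter, Finset.sum_filter]
  refine Finset.sum_congr rfl fun n _ => ?_
  by_cases h1 : Nat.Coprime n c
  · have h2 : Nat.Coprime n g := Nat.Coprime.coprime_dvd_right hg h1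
    have h3 : Nat.Coprime n (c / g) := Nat.Coprime.coprime_dvd_right (Nat.div_dvd_of_dvd hg) h1
    rw [if_pos h1, if_pos h3, SwB_mu_mul h2.symm]
    push_cast
    ring
  · rw [if_neg h1]
    by_cases h3 : Nat.Coprime n (c / g)
    · rw [if_pos h3, SwB_mu_zero, Complex.ofReal_zero, zero_mul]
      intro h4
      apply h1
      rw [hcg]
      exact Nat.Coprime.mul_right h4.symm h3
    · rw [if_neg h3]

/-- the integers prime to `c`, with an additive character -/
private theorem SwB_cop (v c g b : ℕ) (hc : 1 ≤ c) (D : ℝ)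
    (hD : ∀ r : ℕ, Nat.Coprime r c → |∑ n ∈ (Icc 1 v).filter (fun n => n % c = r % c), mu n| ≤ D) :
    ‖∑ n ∈ (Icc 1 v).filter (fun n => Nat.Coprime n c), (mu n : ℂ) * ee (-(((g * n : ℕ) : ℝ) * ((b : ℝ) / c)))‖ ≤ c * D := by
  have hD0 : 0 ≤ D := (abs_nonneg _).trans (hD 1 (Nat.coprime_one_left c))
  have hmaps : ∀ n ∈ (Icc 1 v).filter (fun n => Nat.Coprime n c), n % c ∈ (range c).filter (fun r => Nat.Coprime r c) := by
    intro n hn
    rw [mem_filter] at hn ⊢
    refine ⟨mem_range.mpr (Nat.mod_lt n (by omega)), ?_⟩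
    have h1 := hn.2
    rw [Nat.coprime_iff_gcd_eq_one, ← Nat.gcd_rec, Nat.gcd_comm] at *
    first
      | exact h1
      | (rw [Nat.gcd_comm]; exact h1)
  rw [← Finset.sum_fiberwise_of_maps_to hmaps]
  refine (norm_sum_le _ _).trans ?_
  have hcard : (((range c).filter (fun r => Nat.Coprime r c)).card : ℝ) ≤ c := by
    have := card_filter_le (range c) (fun r => Nat.Coprime r c)
    rw [card_range] at this
    exact_mod_cast this
  calc ∑ r ∈ (range c).filter (fun r => Nat.Coprime r c),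
        ‖∑ n ∈ ((Icc 1 v).filter (fun n => Nat.Coprime n c)).filter (fun n => n % c = r),
          (mu n : ℂ) * ee (-(((g * n : ℕ) : ℝ) * ((b : ℝ) / c)))‖
      ≤ ∑ r ∈ (range c).filter (fun r => Nat.Coprime r c), D := by
        refine Finset.sum_le_sum fun r hr => ?_
        rw [mem_filter, mem_range] at hr
        have hrc : r % c = r := Nat.mod_eq_of_lt hr.1
        have hset : ((Icc 1 v).filter (fun n => Nat.Coprime n c)).filter (fun n => n % c = r) =
            (Icc 1 v).filter (fun n => n % c = r % c) := by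
          rw [Finset.filter_filter]
          refine Finset.filter_congr fun n _ => ?_
          rw [hrc]
          constructor
          · exact fun h => h.2
          · intro h
            refine ⟨?_, h⟩
            have h2 := hr.2
            rw [← h] at h2
            rw [Nat.coprime_iff_gcd_eq_one, ← Nat.gcd_rec, Nat.gcd_comm] at h2
            exact h2
        rw [hset]
        have e : ∑ n ∈ (Icc 1 v).filter (fun n => n % c = r % c), (mu n : ℂ) * ee (-(((g * n : ℕ) : ℝ) * ((b : ℝ) / c))) =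
            ((∑ n ∈ (Icc 1 v).filter (fun n => n % c = r % c), mu n : ℝ) : ℂ) * ee (-(((g * r : ℕ) : ℝ) * ((b : ℝ) / c))) := by
          push_cast
          rw [Finset.sum_mul]
          refine Finset.sum_congr rfl fun n hn => ?_
          rw [mem_filter] at hn
          have h5 := SwB_ee_mod g b hc hn.2
          push_cast at h5
          rw [h5]
        rw [e, norm_mul, SwB_norm_ee, mul_one, Complex.norm_real, Real.norm_eq_abs]
        exact hD r hr.2
    _ = ((range c).filter (fun r => Nat.Coprime r c)).card * D := by rw [Finset.sum_const, nsmul_eq_mul]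
    _ ≤ c * D := mul_le_mul_of_nonneg_right hcard hD0

/-- the sum with an additive character -/
private theorem SwB_add (u c b : ℕ) (hc : 1 ≤ c) (D : ℝ)
    (hD : ∀ v r : ℕ, v ≤ u → Nat.Coprime r c → |∑ n ∈ (Icc 1 v).filter (fun n => n % c = r % c), mu n| ≤ D) :
    ‖∑ n ∈ Icc 1 u, (mu n : ℂ) * ee (-((n : ℝ) * ((b : ℝ) / c)))‖ ≤ c * (c * D) := by
  have hD0 : 0 ≤ D := (abs_nonneg _).trans (hD 0 1 (Nat.zero_le u) (Nat.coprime_one_left c))
  have hmaps : ∀ n ∈ Icc 1 u, Nat.gcd n c ∈ c.divisors := by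
    intro n _
    rw [Nat.mem_divisors]
    exact ⟨Nat.gcd_dvd_right n c, by omega⟩
  rw [← Finset.sum_fiberwise_of_maps_to hmaps]
  refine (norm_sum_le _ _).trans ?_
  calc ∑ g ∈ c.divisors, ‖∑ n ∈ (Icc 1 u).filter (fun n => Nat.gcd n c = g), (mu n : ℂ) * ee (-((n : ℝ) * ((b : ℝ) / c)))‖
      ≤ ∑ g ∈ c.divisors, (c : ℝ) * D := by
        refine Finset.sum_le_sum fun g hg => ?_
        rw [Nat.mem_divisors] at hg
        rw [SwB_gcd u c g hc hg.1 (fun n => ee (-((n : ℝ) * ((b : ℝ) / c)))), norm_mul, Complex.norm_real, Real.norm_eq_abs]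
        have h1 := SwB_cop (u / g) c g b hc D (fun r hr => hD _ r (Nat.div_le_self u g) hr)
        calc |mu g| * _ ≤ 1 * (c * D) := mul_le_mul (mu_abs_le g) h1 (norm_nonneg _) zero_le_one
          _ = c * D := one_mul _
    _ = (c.divisors.card : ℝ) * (c * D) := by rw [Finset.sum_const, nsmul_eq_mul]
    _ ≤ c * (c * D) := by
        refine mul_le_mul_of_nonneg_right ?_ (by positivity)
        exact_mod_cast Nat.card_divisors_le_self c

/-- partial summation -/
private theorem SwB_ps (a : ℕ → ℂ) (t D : ℝ) (y : ℕ) (hD : ∀ u ≤ y, ‖∑ n ∈ Icc 1 u, a n‖ ≤ D) :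
    ∀ u, 1 ≤ u → u ≤ y → ‖∑ n ∈ Icc 1 u, a n * ee (-(t * Real.log n)) - (∑ n ∈ Icc 1 u, a n) * ee (-(t * Real.log u))‖ ≤
      D * (2 * Real.pi * |t| * Real.log u) := by
  intro u hu
  induction u, hu using Nat.le_induction with
  | base =>
    intro _
    simp
  | succ u hu ih =>
    intro huy
    have ih' := ih (by omega)
    rw [Finset.sum_Icc_succ_top (by omega), Finset.sum_Icc_succ_top (by omega)]
    have e1 : ∑ n ∈ Icc 1 u, a n * ee (-(t * Real.log n)) + a (u + 1) * ee (-(t * Real.log ((u + 1 : ℕ) : ℝ))) -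
        (∑ n ∈ Icc 1 u, a n + a (u + 1)) * ee (-(t * Real.log ((u + 1 : ℕ) : ℝ))) =
        (∑ n ∈ Icc 1 u, a n * ee (-(t * Real.log n)) - (∑ n ∈ Icc 1 u, a n) * ee (-(t * Real.log u))) +
        (∑ n ∈ Icc 1 u, a n) * (ee (-(t * Real.log u)) - ee (-(t * Real.log ((u + 1 : ℕ) : ℝ)))) := by ring
    rw [e1]
    have hu0 : (0 : ℝ) < u := by exact_mod_cast hu
    have hlog : Real.log u ≤ Real.log ((u + 1 : ℕ) : ℝ) := Real.log_le_log hu0 (by push_cast; linarith)
    have h2 : ‖ee (-(t * Real.log u)) - ee (-(t * Real.log ((u + 1 : ℕ) : ℝ)))‖ ≤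
        2 * Real.pi * |t| * (Real.log ((u + 1 : ℕ) : ℝ) - Real.log u) := by
      refine (SwB_ee_sub _ _).trans (le_of_eq ?_)
      have e2 : -(t * Real.log u) - -(t * Real.log ((u + 1 : ℕ) : ℝ)) = t * (Real.log ((u + 1 : ℕ) : ℝ) - Real.log u) := by ring
      rw [e2, abs_mul, abs_of_nonneg (by linarith : 0 ≤ Real.log ((u + 1 : ℕ) : ℝ) - Real.log u)]
      ring
    have hD0 : 0 ≤ D := (norm_nonneg _).trans (hD 0 (Nat.zero_le y))
    calc _ ≤ D * (2 * Real.pi * |t| * Real.log u) + D * (2 * Real.pi * |t| * (Real.log ((u + 1 : ℕ) : ℝ) - Real.log u)) := by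
          refine (norm_add_le _ _).trans (add_le_add ih' ?_)
          rw [norm_mul]
          exact mul_le_mul (hD u (by omega)) h2 (norm_nonneg _) hD0
      _ = D * (2 * Real.pi * |t| * Real.log ((u + 1 : ℕ) : ℝ)) := by ring

theorem sw_b (A B m : ℕ) : ∃ x0 : ℕ, ∀ x : ℕ, x0 ≤ x → ∀ (c b y : ℕ) (t : ℝ), 1 ≤ c → (c : ℝ) ≤ Real.log x ^ B →
    |t| ≤ Real.log x ^ m → y ≤ x →
    ‖∑ n ∈ Icc 1 y, (mu n : ℂ) * ee (-((n : ℝ) * ((b : ℝ) / c))) * ee (-(t * Real.log n))‖ ≤ x / Real.log x ^ A := by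
  obtain ⟨x0, hx0⟩ := sw_a (A + m + 3 + 2 * B) B
  refine ⟨max x0 (⌈Real.exp 4⌉₊ + 1), fun x hx c b y t hc hcL ht hy => ?_⟩
  have hx1 : x0 ≤ x := le_trans (le_max_left _ _) hx
  have hx2 : Real.exp 4 ≤ x := by
    have h1 : ⌈Real.exp 4⌉₊ + 1 ≤ x := le_trans (le_max_right _ _) hx
    have h2 := Nat.le_ceil (Real.exp 4)
    have h3 : ((⌈Real.exp 4⌉₊ : ℕ) : ℝ) + 1 ≤ x := by exact_mod_cast h1
    linarith
  have hxpos : (0 : ℝ) < x := (Real.exp_pos 4).trans_le hx2
  set L : ℝ := Real.log x with hL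
  have hL4 : 4 ≤ L := by
    rw [hL, Real.le_log_iff_exp_le hxpos]
    exact hx2
  have hL0 : 0 < L := by linarith
  have hc0 : (0 : ℝ) ≤ c := Nat.cast_nonneg c
  set D₀ : ℝ := x / L ^ (A + m + 3 + 2 * B) with hD₀
  have hD₀0 : 0 ≤ D₀ := by positivity
  set D : ℝ := x / L ^ (A + m + 3) with hDdef
  have hD0 : 0 ≤ D := by positivity
  have hDD : c * (c * D₀) ≤ D := by
    have h1 : (c : ℝ) * (c * D₀) ≤ L ^ B * (L ^ B * D₀) := by
      refine mul_le_mul hcL (mul_le_mul_of_nonneg_right hcL hD₀0) (by positivity) (by positivity)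
    refine h1.trans (le_of_eq ?_)
    rw [hD₀, hDdef]
    have h2 : L ^ (A + m + 3 + 2 * B) = L ^ (A + m + 3) * (L ^ B * L ^ B) := by
      rw [← pow_add, ← pow_add]
      congr 1
      ring
    rw [h2]
    field_simp
  have hA : ∀ u ≤ y, ‖∑ n ∈ Icc 1 u, (mu n : ℂ) * ee (-((n : ℝ) * ((b : ℝ) / c)))‖ ≤ D := by
    intro u hu
    refine (SwB_add u c b hc D₀ fun v r hv hr => ?_).trans hDD
    exact hx0 x hx1 c r v hc hcL hr (by omega)
  rcases Nat.eq_zero_or_pos y with hy0 | hy0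
  · rw [hy0]
    simp only [show Icc 1 0 = (∅ : Finset ℕ) by decide, sum_empty, norm_zero]
    positivity
  have h1 := SwB_ps (fun n => (mu n : ℂ) * ee (-((n : ℝ) * ((b : ℝ) / c)))) t D y hA y hy0 le_rfl
  have h2 := hA y le_rfl
  have hlogy : Real.log y ≤ L := Real.log_le_log (by exact_mod_cast hy0) (by exact_mod_cast hy)
  have hlogy0 : 0 ≤ Real.log y := Real.log_natCast_nonneg y
  have hpi : Real.pi ≤ 3.15 := Real.pi_lt_d2.le
  have h3 : D * (2 * Real.pi * |t| * Real.log y) ≤ D * (6.3 * L ^ m * L) := by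
    refine mul_le_mul_of_nonneg_left ?_ hD0
    have h4 : 2 * Real.pi * |t| ≤ 6.3 * L ^ m := by
      have h5 : 2 * Real.pi ≤ 6.3 := by linarith
      exact mul_le_mul h5 ht (abs_nonneg t) (by norm_num)
    exact mul_le_mul h4 hlogy hlogy0 (by positivity)
  set S : ℂ := ∑ n ∈ Icc 1 y, (mu n : ℂ) * ee (-((n : ℝ) * ((b : ℝ) / c))) * ee (-(t * Real.log n)) with hS
  set T : ℂ := ∑ n ∈ Icc 1 y, (mu n : ℂ) * ee (-((n : ℝ) * ((b : ℝ) / c))) with hT
  have h5 : ‖S‖ ≤ D * (6.3 * L ^ m * L) + D := by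
    have e1 : S = (S - T * ee (-(t * Real.log y))) + T * ee (-(t * Real.log y)) := by ring
    rw [e1]
    refine (norm_add_le _ _).trans (add_le_add (h1.trans h3) ?_)
    rw [norm_mul, SwB_norm_ee, mul_one]
    exact h2
  refine h5.trans ?_
  have h6 : D * (6.3 * L ^ m * L) + D ≤ D * L ^ (m + 3) := by
    have h7 : 6.3 * L ^ m * L + 1 ≤ L ^ (m + 3) := by
      have h8 : 1 ≤ L ^ m := one_le_pow₀ (by linarith)
      have h9 : L ^ (m + 3) = L ^ m * L ^ 3 := pow_add L m 3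
      have h10 : 6.3 * L + 1 ≤ L ^ 3 := by nlinarith [mul_self_nonneg (L - 4)]
      calc 6.3 * L ^ m * L + 1 ≤ 6.3 * L ^ m * L + L ^ m := by linarith
        _ = L ^ m * (6.3 * L + 1) := by ring
        _ ≤ L ^ m * L ^ 3 := mul_le_mul_of_nonneg_left h10 (by positivity)
        _ = L ^ (m + 3) := h9.symm
    calc D * (6.3 * L ^ m * L) + D = D * (6.3 * L ^ m * L + 1) := by ring
      _ ≤ D * L ^ (m + 3) := mul_le_mul_of_nonneg_left h7 hD0
  refine h6.trans (le_of_eq ?_)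
  rw [hDdef]
  have h11 : L ^ (A + m + 3) = L ^ A * L ^ (m + 3) := by
    rw [← pow_add]
    congr 1
  rw [h11]
  field_simp

end Pool.Agent.H43.LM

end

section

/-!
# LM SwG: the twisted Siegel-Walfisz condition for `gP P1 P`

Proof.  (1) Identity: for `k ≥ 1`: `gP P1 P k = - ∑_{l ∣ k} hI P1 P l · mu (k/l)` (both sides are multiplicative up to the sign; or: write `k = u v`, `u` the part of `k` composed of the primes in `(P1,P]`: the divisors `l` with `hI l = 1` are the divisors of `u`,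
`k/l = (u/l) v`, `mu` multiplicative, `∑_{l ∣ u} mu(u/l) = [u = 1]`).
(2) `y = N/(16P)` or `12N/P` (natural division), `L = log N`, `y ≤ 12 N/P`: `∑_{n ≤ y} gP(n) ee(-n b/c) ee(-t log n) = - ∑_{l ≤ y} hI(l) ee(-t log l) ∑_{m ≤ y/l} mu m ee(-m (l b)/c) ee(-t log m)`.
 `l ≤ D = ⌈N^{1/8}⌉₊` (`P ≤ exp(L^s) ≤ N^{1/8}`): `sw_b (k + 3) (C'+1) (m+1)` at the scale `x = 12N/(P l) ≥ N^{1/2}` (`L/2 ≤ log x ≤ L + 3`, so `c ≤ L^C' ≤ (log x)^{C'+1}`, `|t| ≤ (log x)^{m+1}`; `log x ^(k+3) ≥ (L/2)^{k+3}`): `≤ ∑_{l ≤ D} 12 N/(P l) · 2^{k+3}/L^{k+3} ≤ (N/P)/(4 L^k)`.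
 `l > D`: trivially `≤ ∑_{l > D} hI(l) · 12N/(P l)`, `rankin` with `Q = max P 100`: `≤ (12 N/P) C (L^s)^{k0} exp(-(1/8) L^{1-s}) ≤ (N/P)/(4 L^k)` for large `N`.
-/

set_option autoImplicit false

namespace Pool.Agent.H43.LM

open Finset
open Pool.Agent.H91.PK (ee)

/-- `hI` as an arithmetic function -/
noncomputable def SwG_h (a b : ℕ) : ArithmeticFunction ℝ := ⟨hI a b, by simp [hI]⟩

open Classical in
/-- `-gP` as an arithmetic function -/
noncomputable def SwG_g (a b : ℕ) : ArithmeticFunction ℝ :=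
  ⟨fun n => if Fr a b n then mu n else 0, by simp [mu]⟩

theorem SwG_hmul (a b : ℕ) : (SwG_h a b).IsMultiplicative := by
  classical
  rw [ArithmeticFunction.IsMultiplicative.iff_ne_zero]
  refine ⟨?_, ?_⟩
  · show hI a b 1 = 1
    unfold hI
    rw [if_pos]
    refine ⟨one_ne_zero, fun p hp hp1 => ?_⟩
    exact absurd (Nat.dvd_one.mp hp1) hp.one_lt.ne'
  · intro m n hm hn _
    show hI a b (m * n) = hI a b m * hI a b n
    unfold hI
    by_cases h1 : ∀ p : ℕ, p.Prime → p ∣ m → a < p ∧ p ≤ b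
    · by_cases h2 : ∀ p : ℕ, p.Prime → p ∣ n → a < p ∧ p ≤ b
      · rw [if_pos, if_pos ⟨hm, h1⟩, if_pos ⟨hn, h2⟩, one_mul]
        refine ⟨mul_ne_zero hm hn, fun p hp hpd => ?_⟩
        rcases hp.dvd_mul.mp hpd with h | h
        · exact h1 p hp h
        · exact h2 p hp h
      · have e2 : ¬ (n ≠ 0 ∧ ∀ p : ℕ, p.Prime → p ∣ n → a < p ∧ p ≤ b) := fun h => h2 h.2
        rw [if_neg, if_neg e2, mul_zero]
        rintro ⟨_, h⟩
        exact h2 (fun p hp hpd => h p hp (dvd_mul_of_dvd_right hpd m))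
    · have e1 : ¬ (m ≠ 0 ∧ ∀ p : ℕ, p.Prime → p ∣ m → a < p ∧ p ≤ b) := fun h => h1 h.2
      rw [if_neg, if_neg e1, zero_mul]
      rintro ⟨_, h⟩
      exact h1 (fun p hp hpd => h p hp (dvd_mul_of_dvd_left hpd n))

theorem SwG_gmul (a b : ℕ) : (SwG_g a b).IsMultiplicative := by
  classical
  rw [ArithmeticFunction.IsMultiplicative.iff_ne_zero]
  refine ⟨?_, ?_⟩
  · show (if Fr a b 1 then mu 1 else 0) = (1 : ℝ)
    rw [if_pos]
    · simp [mu]
    · intro p hp _ _ hpd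
      exact absurd (Nat.dvd_one.mp hpd) hp.one_lt.ne'
  · intro m n hm hn hc
    show (if Fr a b (m * n) then mu (m * n) else 0) = (if Fr a b m then mu m else 0) * (if Fr a b n then mu n else 0)
    have hmu : mu (m * n) = mu m * mu n := by
      unfold mu
      rw [ArithmeticFunction.isMultiplicative_moebius.map_mul_of_coprime hc]
      push_cast
      ring
    by_cases h1 : Fr a b m
    · by_cases h2 : Fr a b n
      · rw [if_pos, if_pos h1, if_pos h2, hmu]
        intro p hp ha hb hpd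
        rcases hp.dvd_mul.mp hpd with h | h
        · exact h1 p hp ha hb h
        · exact h2 p hp ha hb h
      · rw [if_neg, if_neg h2, mul_zero]
        intro h
        exact h2 (fun p hp ha hb hpd => h p hp ha hb (dvd_mul_of_dvd_right hpd m))
    · rw [if_neg, if_neg h1, zero_mul]
      intro h
      exact h1 (fun p hp ha hb hpd => h p hp ha hb (dvd_mul_of_dvd_left hpd n))

theorem SwG_conv (a b : ℕ) : SwG_h a b * ((ArithmeticFunction.moebius : ArithmeticFunction ℤ) : ArithmeticFunction ℝ) = SwG_g a b := by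
  classical
  have hm1 : (SwG_h a b * ((ArithmeticFunction.moebius : ArithmeticFunction ℤ) : ArithmeticFunction ℝ)).IsMultiplicative :=
    (SwG_hmul a b).mul ArithmeticFunction.isMultiplicative_moebius.intCast
  rw [ArithmeticFunction.IsMultiplicative.eq_iff_eq_on_prime_powers _ hm1 _ (SwG_gmul a b)]
  intro p i hp
  rcases i with _ | i
  · rw [pow_zero, hm1.map_one, (SwG_gmul a b).map_one]
  have hhp : ∀ j : ℕ, hI a b (p ^ (j + 1)) = if a < p ∧ p ≤ b then 1 else 0 := by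
    intro j
    unfold hI
    by_cases h : a < p ∧ p ≤ b
    · rw [if_pos h, if_pos]
      refine ⟨pow_ne_zero _ hp.ne_zero, fun q hq hqd => ?_⟩
      have : q = p := (Nat.prime_dvd_prime_iff_eq hq hp).mp (hq.dvd_of_dvd_pow hqd)
      rw [this]; exact h
    · rw [if_neg h, if_neg]
      rintro ⟨_, h'⟩
      exact h (h' p hp (dvd_pow_self p (Nat.succ_ne_zero j)))
  have hh1 : hI a b 1 = 1 := (SwG_hmul a b).map_one
  have hFr : Fr a b (p ^ (i + 1)) ↔ ¬ (a < p ∧ p ≤ b) := by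
    constructor
    · intro h h'
      exact h p hp h'.1 h'.2 (dvd_pow_self p (Nat.succ_ne_zero i))
    · intro h q hq ha hb hqd
      have : q = p := (Nat.prime_dvd_prime_iff_eq hq hp).mp (hq.dvd_of_dvd_pow hqd)
      exact h (by rw [← this]; exact ⟨ha, hb⟩)
  show (SwG_h a b * ((ArithmeticFunction.moebius : ArithmeticFunction ℤ) : ArithmeticFunction ℝ)) (p ^ (i + 1))
    = (if Fr a b (p ^ (i + 1)) then mu (p ^ (i + 1)) else 0)
  rw [ArithmeticFunction.mul_apply, Nat.sum_divisorsAntidiagonal (f := fun x y => (SwG_h a b) x * ((ArithmeticFunction.moebius : ArithmeticFunction ℤ) : ArithmeticFunction ℝ) y),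
    Nat.divisors_prime_pow hp, Finset.sum_map]
  rw [Finset.sum_range_succ, Finset.sum_range_succ, Finset.sum_eq_zero]
  · simp only [Function.Embedding.coeFn_mk]
    rw [Nat.pow_div (Nat.le_succ i) hp.pos, Nat.pow_div le_rfl hp.pos]
    have e1 : i + 1 - i = 1 := by omega
    have e2 : i + 1 - (i + 1) = 0 := by omega
    rw [e1, e2, pow_one, pow_zero]
    have m1 : ((ArithmeticFunction.moebius : ArithmeticFunction ℤ) : ArithmeticFunction ℝ) p = -1 := by
      rw [ArithmeticFunction.intCoe_apply, ArithmeticFunction.moebius_apply_prime hp]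
      norm_num
    have m2 : ((ArithmeticFunction.moebius : ArithmeticFunction ℤ) : ArithmeticFunction ℝ) 1 = 1 := by
      rw [ArithmeticFunction.intCoe_apply]
      simp
    rw [m1, m2]
    have g1 : (SwG_h a b) (p ^ (i + 1)) = if a < p ∧ p ≤ b then 1 else 0 := hhp i
    rw [g1]
    by_cases h : a < p ∧ p ≤ b
    · rw [if_pos h, if_neg (fun h' => (hFr.mp h') h)]
      have g0 : (SwG_h a b) (p ^ i) = 1 := by
        rcases i with _ | i
        · rw [pow_zero]; exact hh1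
        · show hI a b (p ^ (i + 1)) = 1
          rw [hhp i, if_pos h]
      rw [g0]; ring
    · rw [if_neg h, if_pos (hFr.mpr h)]
      rcases i with _ | i
      · have g0 : (SwG_h a b) (p ^ 0) = 1 := by rw [pow_zero]; exact hh1
        rw [g0]
        unfold mu
        rw [zero_add, pow_one, ArithmeticFunction.moebius_apply_prime hp]
        norm_num
      · have g0 : (SwG_h a b) (p ^ (i + 1)) = 0 := by
          show hI a b (p ^ (i + 1)) = 0
          rw [hhp i, if_neg h]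
        rw [g0]
        unfold mu
        rw [ArithmeticFunction.moebius_apply_prime_pow hp (by omega), if_neg (by omega)]
        norm_num
  · intro j hj
    rw [Finset.mem_range] at hj
    simp only [Function.Embedding.coeFn_mk]
    rw [Nat.pow_div (by omega) hp.pos, ArithmeticFunction.intCoe_apply,
      ArithmeticFunction.moebius_apply_prime_pow hp (by omega), if_neg (by omega)]
    simp

theorem SwG_id (P1 P n : ℕ) : gP P1 P n = - ∑ l ∈ n.divisors, hI P1 P l * mu (n / l) := by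
  classical
  have h : (SwG_h P1 P * ((ArithmeticFunction.moebius : ArithmeticFunction ℤ) : ArithmeticFunction ℝ)) n = SwG_g P1 P n := by
    rw [SwG_conv P1 P]
  rw [ArithmeticFunction.mul_apply, Nat.sum_divisorsAntidiagonal (f := fun x y => (SwG_h P1 P) x * ((ArithmeticFunction.moebius : ArithmeticFunction ℤ) : ArithmeticFunction ℝ) y)] at h
  have h2 : ∑ l ∈ n.divisors, hI P1 P l * mu (n / l) = (if Fr P1 P n then mu n else 0) := by
    rw [← show (SwG_g P1 P) n = (if Fr P1 P n then mu n else 0) from rfl, ← h]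
    rfl
  rw [h2]
  unfold gP
  split_ifs <;> simp

theorem SwG_swap (F : ℕ → ℕ → ℂ) (y : ℕ) :
    ∑ n ∈ Icc 1 y, ∑ l ∈ n.divisors, F l (n / l) = ∑ l ∈ Icc 1 y, ∑ m ∈ Icc 1 (y / l), F l m := by
  rw [Finset.sum_sigma', Finset.sum_sigma']
  refine Finset.sum_bij' (fun x _ => ⟨x.2, x.1 / x.2⟩) (fun x _ => ⟨x.1 * x.2, x.1⟩) ?_ ?_ ?_ ?_ ?_
  · rintro ⟨n, l⟩ h
    simp only [Finset.mem_sigma, Finset.mem_Icc, Nat.mem_divisors] at h ⊢
    obtain ⟨⟨h1, h2⟩, h3, h4⟩ := h
    have hl : 0 < l := Nat.pos_of_dvd_of_pos h3 (by omega)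
    refine ⟨⟨hl, (Nat.le_of_dvd (by omega) h3).trans h2⟩, ?_, Nat.div_le_div_right h2⟩
    exact Nat.div_pos (Nat.le_of_dvd (by omega) h3) hl
  · rintro ⟨l, m⟩ h
    simp only [Finset.mem_sigma, Finset.mem_Icc, Nat.mem_divisors] at h ⊢
    obtain ⟨⟨h1, h2⟩, h3, h4⟩ := h
    have h5 : l * m ≤ y := by
      rw [mul_comm]
      exact (Nat.le_div_iff_mul_le (by omega)).mp h4
    refine ⟨⟨Nat.mul_pos (by omega) (by omega), h5⟩, dvd_mul_right l m, ?_⟩
    exact Nat.ne_of_gt (Nat.mul_pos (by omega) (by omega))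
  · rintro ⟨n, l⟩ h
    simp only [Finset.mem_sigma, Finset.mem_Icc, Nat.mem_divisors] at h
    simp only [Sigma.mk.injEq, heq_eq_eq, and_true]
    exact Nat.mul_div_cancel' h.2.1
  · rintro ⟨l, m⟩ h
    simp only [Finset.mem_sigma, Finset.mem_Icc] at h
    simp only [Sigma.mk.injEq, heq_eq_eq, true_and]
    exact Nat.mul_div_cancel_left m (by omega)
  · rintro ⟨n, l⟩ h
    rfl

/-- the inner sum -/
noncomputable def SwG_T (c b z : ℕ) (t : ℝ) : ℂ :=
  ∑ n ∈ Icc 1 z, (mu n : ℂ) * ee (-((n : ℝ) * ((b : ℝ) / c))) * ee (-(t * Real.log n))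

theorem SwG_sum (P1 P y c b : ℕ) (t : ℝ) :
    ∑ n ∈ Icc 1 y, (gP P1 P n : ℂ) * ee (-((n : ℝ) * ((b : ℝ) / c))) * ee (-(t * Real.log n))
    = - ∑ l ∈ Icc 1 y, (hI P1 P l : ℂ) * ee (-(t * Real.log l)) * SwG_T c (l * b) (y / l) t := by
  have h1 : ∀ n ∈ Icc 1 y, (gP P1 P n : ℂ) * ee (-((n : ℝ) * ((b : ℝ) / c))) * ee (-(t * Real.log n))
      = - ∑ l ∈ n.divisors, (hI P1 P l : ℂ) * (mu (n / l) : ℂ) * ee (-(((l : ℝ) * ((n / l : ℕ) : ℝ)) * ((b : ℝ) / c)))
          * ee (-(t * Real.log ((l : ℝ) * ((n / l : ℕ) : ℝ)))) := by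
    intro n hn
    rw [SwG_id]
    push_cast
    rw [neg_mul, neg_mul, Finset.sum_mul, Finset.sum_mul]
    congr 1
    refine Finset.sum_congr rfl fun l hl => ?_
    have hln : (l : ℝ) * ((n / l : ℕ) : ℝ) = (n : ℝ) := by
      rw [← Nat.cast_mul, Nat.mul_div_cancel' (Nat.dvd_of_mem_divisors hl)]
    rw [hln]
  rw [Finset.sum_congr rfl h1, Finset.sum_neg_distrib]
  congr 1
  rw [SwG_swap (fun l m => (hI P1 P l : ℂ) * (mu m : ℂ) * ee (-(((l : ℝ) * (m : ℝ)) * ((b : ℝ) / c)))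
          * ee (-(t * Real.log ((l : ℝ) * (m : ℝ))))) y]
  refine Finset.sum_congr rfl fun l hl => ?_
  unfold SwG_T
  rw [Finset.mul_sum]
  refine Finset.sum_congr rfl fun m hm => ?_
  rw [Finset.mem_Icc] at hl hm
  have hl0 : (l : ℝ) ≠ 0 := by
    have : (0 : ℝ) < l := by exact_mod_cast hl.1
    exact this.ne'
  have hm0 : (m : ℝ) ≠ 0 := by
    have : (0 : ℝ) < m := by exact_mod_cast hm.1
    exact this.ne'
  rw [Real.log_mul hl0 hm0]
  have e1 : -(t * (Real.log l + Real.log m)) = -(t * Real.log l) + -(t * Real.log m) := by ring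
  rw [e1, Pool.Agent.H91.PK.LSa_ee_add]
  have e2 : -(((l : ℝ) * (m : ℝ)) * ((b : ℝ) / c)) = -((m : ℝ) * (((l * b : ℕ) : ℝ) / c)) := by
    push_cast; ring
  rw [e2]
  ring

theorem SwG_T_triv (c b z : ℕ) (t : ℝ) : ‖SwG_T c b z t‖ ≤ z := by
  unfold SwG_T
  refine (norm_sum_le _ _).trans ?_
  have : ∀ n ∈ Icc 1 z, ‖(mu n : ℂ) * ee (-((n : ℝ) * ((b : ℝ) / c))) * ee (-(t * Real.log n))‖ ≤ 1 := by
    intro n _
    rw [norm_mul, norm_mul, Pool.Agent.H91.PK.LSa_norm_ee, Pool.Agent.H91.PK.LSa_norm_ee, mul_one, mul_one,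
      Complex.norm_real]
    exact mu_abs_le n
  refine (Finset.sum_le_sum this).trans ?_
  simp

theorem SwG_hI_nonneg (a b l : ℕ) : 0 ≤ hI a b l := by
  unfold hI; split_ifs <;> norm_num

theorem SwG_hI_le (a b l : ℕ) : hI a b l ≤ 1 := by
  unfold hI; split_ifs <;> norm_num

open Classical in
/-- the sum over `l`, split at `D` -/
theorem SwG_split (P1 P y c b D Q : ℕ) (t B : ℝ) (hQ : P ≤ Q) (hB : 0 ≤ B)
    (h : ∀ l ∈ Icc 1 D, ‖SwG_T c (l * b) (y / l) t‖ ≤ B * (1 / l)) :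
    ‖∑ n ∈ Icc 1 y, (gP P1 P n : ℂ) * ee (-((n : ℝ) * ((b : ℝ) / c))) * ee (-(t * Real.log n))‖
      ≤ B * (1 + Real.log D) + y * ∑ l ∈ (Ioc D y).filter (fun l : ℕ => ∀ p : ℕ, p.Prime → p ∣ l → p ≤ Q), (1 : ℝ) / l := by
  rw [SwG_sum, norm_neg]
  refine (norm_sum_le _ _).trans ?_
  have hterm : ∀ l, ‖(hI P1 P l : ℂ) * ee (-(t * Real.log l)) * SwG_T c (l * b) (y / l) t‖
      = hI P1 P l * ‖SwG_T c (l * b) (y / l) t‖ := by
    intro l
    rw [norm_mul, norm_mul, Pool.Agent.H91.PK.LSa_norm_ee, mul_one, Complex.norm_real, Real.norm_eq_abs,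
      abs_of_nonneg (SwG_hI_nonneg _ _ _)]
  simp only [hterm]
  have hsub : Icc 1 y ⊆ Icc 1 D ∪ Ioc D y := by
    intro l hl
    rw [Finset.mem_union, Finset.mem_Icc, Finset.mem_Ioc]
    rw [Finset.mem_Icc] at hl
    by_cases h1 : l ≤ D
    · left; exact ⟨hl.1, h1⟩
    · right; exact ⟨by omega, hl.2⟩
  have hnn : ∀ l, 0 ≤ hI P1 P l * ‖SwG_T c (l * b) (y / l) t‖ := fun l =>
    mul_nonneg (SwG_hI_nonneg _ _ _) (norm_nonneg _)
  refine (Finset.sum_le_sum_of_subset_of_nonneg hsub (fun l _ _ => hnn l)).trans ?_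
  have hdisj : Disjoint (Icc 1 D) (Ioc D y) := by
    rw [Finset.disjoint_left]
    intro l h1 h2
    rw [Finset.mem_Icc] at h1
    rw [Finset.mem_Ioc] at h2
    omega
  rw [Finset.sum_union hdisj]
  refine add_le_add ?_ ?_
  · have h1 : ∀ l ∈ Icc 1 D, hI P1 P l * ‖SwG_T c (l * b) (y / l) t‖ ≤ B * (1 / l) := by
      intro l hl
      refine (mul_le_of_le_one_left (norm_nonneg _) (SwG_hI_le _ _ _)).trans (h l hl)
    refine (Finset.sum_le_sum h1).trans ?_
    rw [← Finset.mul_sum]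
    refine mul_le_mul_of_nonneg_left ?_ hB
    have := harmonic_le_one_add_log D
    rw [harmonic_eq_sum_Icc] at this
    push_cast at this
    simpa [one_div] using this
  · rw [Finset.mul_sum, Finset.sum_filter]
    refine Finset.sum_le_sum fun l hl => ?_
    rw [Finset.mem_Ioc] at hl
    by_cases hc : ∀ p : ℕ, p.Prime → p ∣ l → p ≤ Q
    · rw [if_pos hc]
      refine (mul_le_of_le_one_left (norm_nonneg _) (SwG_hI_le _ _ _)).trans ((SwG_T_triv _ _ _ _).trans ?_)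
      rw [mul_one_div]
      exact Nat.cast_div_le
    · rw [if_neg hc]
      have : hI P1 P l = 0 := by
        unfold hI
        rw [if_neg]
        rintro ⟨_, h'⟩
        exact hc (fun p hp hpd => ((h' p hp hpd).2).trans hQ)
      rw [this, zero_mul]

theorem SwG_large (s : ℝ) (hs0 : 0 < s) (hs : s < 1) (C' m k k0 : ℕ) (C x0 : ℝ) : ∃ L0 : ℝ, ∀ L : ℝ, L0 ≤ L →
    16 ≤ L ∧ (2 : ℝ) ^ (C' + 1) ≤ L ∧ (2 : ℝ) ^ (m + 1) ≤ L ∧ 48 * (2 : ℝ) ^ (k + 3) ≤ L ^ 2 ∧ L ^ s ≤ L / 8 ∧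
      Real.log 100 ≤ L ^ s ∧ x0 ≤ Real.exp (L / 2) ∧
      12 * C * L ^ k0 * Real.exp (-(L ^ (1 - s) / 8)) ≤ 1 / (4 * L ^ k) := by
  have e1 : ∀ᶠ L : ℝ in Filter.atTop, (16 : ℝ) ≤ L := Filter.eventually_ge_atTop _
  have e2 : ∀ᶠ L : ℝ in Filter.atTop, (2 : ℝ) ^ (C' + 1) ≤ L := Filter.eventually_ge_atTop _
  have e3 : ∀ᶠ L : ℝ in Filter.atTop, (2 : ℝ) ^ (m + 1) ≤ L := Filter.eventually_ge_atTop _
  have e4 : ∀ᶠ L : ℝ in Filter.atTop, 48 * (2 : ℝ) ^ (k + 3) ≤ L ^ 2 :=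
    (Filter.tendsto_pow_atTop (two_ne_zero)).eventually_ge_atTop _
  have hs1 : 0 < 1 - s := by linarith only [hs]
  have e5 : ∀ᶠ L : ℝ in Filter.atTop, (8 : ℝ) ≤ L ^ (1 - s) := (tendsto_rpow_atTop hs1).eventually_ge_atTop _
  have e6 : ∀ᶠ L : ℝ in Filter.atTop, Real.log 100 ≤ L ^ s := (tendsto_rpow_atTop hs0).eventually_ge_atTop _
  have e7 : ∀ᶠ L : ℝ in Filter.atTop, x0 ≤ Real.exp (L / 2) :=
    (Real.tendsto_exp_atTop.comp (Filter.tendsto_id.atTop_div_const (by norm_num : (0 : ℝ) < 2))).eventually_ge_atTop _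
  have e8 : ∀ᶠ L : ℝ in Filter.atTop, 12 * C * L ^ k0 * Real.exp (-(L ^ (1 - s) / 8)) * (4 * L ^ k) ≤ 1 := by
    have h1 := (tendsto_rpow_mul_exp_neg_mul_atTop_nhds_zero (((k0 + k : ℕ) : ℝ) / (1 - s)) (1 / 8) (by norm_num)).comp
      (tendsto_rpow_atTop hs1)
    have h2 := h1.const_mul (48 * C)
    rw [mul_zero] at h2
    filter_upwards [h2.eventually (ge_mem_nhds (zero_lt_one)), e1] with L hL hL16
    have hL0 : 0 < L := by linarith only [hs0, hs, hL16]
    refine le_trans (le_of_eq ?_) hL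
    simp only [Function.comp]
    rw [← Real.rpow_mul hL0.le, mul_div_cancel₀ _ hs1.ne', Real.rpow_natCast, pow_add]
    have : -(1 / 8 : ℝ) * L ^ (1 - s) = -(L ^ (1 - s) / 8) := by ring
    rw [this]
    ring
  obtain ⟨L0, hL0⟩ := (e1.and (e2.and (e3.and (e4.and (e5.and (e6.and (e7.and e8))))))).exists_forall_of_atTop
  refine ⟨L0, fun L hL => ?_⟩
  obtain ⟨a1, a2, a3, a4, a5, a6, a7, a8⟩ := hL0 L hL
  have hLpos : 0 < L := by linarith only [hs0, hs, a1]
  refine ⟨a1, a2, a3, a4, ?_, a6, a7, ?_⟩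
  · have : L ^ s * L ^ (1 - s) = L := by
      rw [← Real.rpow_add hLpos]; simp
    have hp : 0 < L ^ s := Real.rpow_pos_of_pos hLpos s
    nlinarith only [this, hs0, hs, a5, hp]
  · rw [le_div_iff₀ (by positivity)]
    exact a8

/-- the bound for the sum up to `y` -/
theorem SwG_bound (s : ℝ) (hs0 : 0 < s) (hs : s < 1) (C' m k : ℕ) : ∃ N0 : ℕ, ∀ N : ℕ, N0 ≤ N → ∀ P1 P : ℕ, 1 ≤ P →
    (P : ℝ) ≤ Real.exp (Real.log N ^ s) → ∀ (c b : ℕ) (t : ℝ), 1 ≤ c → (c : ℝ) ≤ Real.log N ^ C' → |t| ≤ Real.log N ^ m →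
    ∀ y : ℕ, y ≤ 12 * N / P →
    ‖∑ n ∈ Icc 1 y, (gP P1 P n : ℂ) * ee (-((n : ℝ) * ((b : ℝ) / c))) * ee (-(t * Real.log n))‖
      ≤ (N / P : ℝ) / Real.log N ^ k / 2 := by
  classical
  obtain ⟨C, k0, hC, hrank⟩ := rankin
  obtain ⟨x0, hx0⟩ := sw_b (k + 3) (C' + 1) (m + 1)
  obtain ⟨L0, hL0⟩ := SwG_large s hs0 hs C' m k k0 C x0
  have hN0 : ∀ᶠ N : ℕ in Filter.atTop, L0 ≤ Real.log N :=
    (Real.tendsto_log_atTop.comp tendsto_natCast_atTop_atTop).eventually_ge_atTop _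
  obtain ⟨N0, hN0⟩ := (hN0.and (Filter.eventually_ge_atTop 1)).exists_forall_of_atTop
  refine ⟨N0, fun N hN P1 P hP1 hP c b t hc1 hc ht y hy => ?_⟩
  obtain ⟨hL, hN1⟩ := hN0 N hN
  obtain ⟨a1, a2, a3, a4, a5, a6, a7, a8⟩ := hL0 _ hL
  set L := Real.log N with hLdef
  have hLpos : 0 < L := by linarith only [hs0, hs, a1]
  have hNexp : (N : ℝ) = Real.exp L := by
    rw [hLdef, Real.exp_log]
    exact_mod_cast hN1
  have hPpos : (0 : ℝ) < P := by exact_mod_cast hP1
  have hP8 : (P : ℝ) ≤ Real.exp (L / 8) := hP.trans (Real.exp_le_exp.mpr a5)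
  set D := ⌈Real.exp (L / 8)⌉₊ with hD
  have hE1 : 1 ≤ Real.exp (L / 8) := Real.one_le_exp (by linarith only [hs0, hs, a1])
  have hD1 : 1 ≤ D := by
    rw [hD]; exact Nat.one_le_iff_ne_zero.mpr (by
      intro h
      rw [Nat.ceil_eq_zero] at h
      linarith only [hs0, hs, hE1, h])
  have hDlow : Real.exp (L / 8) ≤ D := Nat.le_ceil _
  have hDup : (D : ℝ) ≤ 2 * Real.exp (L / 8) := by
    have := (Nat.ceil_lt_add_one (by linarith only [hs0, hs, hE1] : 0 ≤ Real.exp (L / 8))).le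
    rw [← hD] at this
    linarith only [hE1, this]
  have hDpos : (0 : ℝ) < D := by exact_mod_cast hD1
  -- the inner sums for l ≤ D
  set B := 12 * (N / P : ℝ) / (L / 2) ^ (k + 3) with hB
  have hNP : 0 ≤ (N / P : ℝ) := by positivity
  have hB0 : 0 ≤ B := by positivity
  have hT : ∀ l ∈ Icc 1 D, ‖SwG_T c (l * b) (y / l) t‖ ≤ B * (1 / l) := by
    intro l hl
    rw [Finset.mem_Icc] at hl
    have hl0 : (0 : ℝ) < l := by exact_mod_cast hl.1
    have hlD : (l : ℝ) ≤ D := by exact_mod_cast hl.2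
    have hxlow : Real.exp (L / 2) ≤ ((12 * N / P / l : ℕ) : ℝ) := by
      rw [Nat.div_div_eq_div_mul]
      have h1 : ((12 * N : ℕ) : ℝ) / ((P * l : ℕ) : ℝ) < ((12 * N / (P * l) : ℕ) : ℝ) + 1 := by
        rw [div_lt_iff₀ (by push_cast; positivity)]
        have := Nat.lt_div_mul_add (a := 12 * N) (b := P * l) (Nat.mul_pos hP1 hl.1)
        have h2 : ((12 * N : ℕ) : ℝ) < (((12 * N / (P * l)) * (P * l) + P * l : ℕ) : ℝ) := by exact_mod_cast this
        push_cast at h2 ⊢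
        linarith only [h2]
      have h2 : 6 * Real.exp (3 * L / 4) ≤ ((12 * N : ℕ) : ℝ) / ((P * l : ℕ) : ℝ) := by
        rw [le_div_iff₀ (by push_cast; positivity)]
        push_cast
        rw [hNexp]
        have h3 : (P : ℝ) * l ≤ Real.exp (L / 8) * (2 * Real.exp (L / 8)) :=
          mul_le_mul hP8 (hlD.trans hDup) hl0.le (by positivity)
        have h4 : Real.exp L = Real.exp (3 * L / 4) * (Real.exp (L / 8) * Real.exp (L / 8)) := by
          rw [← Real.exp_add, ← Real.exp_add]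
          congr 1
          ring
        have h5 : 0 < Real.exp (3 * L / 4) := Real.exp_pos _
        rw [h4]
        nlinarith only [hs0, hs, h3, h5]
      have h3 : Real.exp (L / 2) ≤ Real.exp (3 * L / 4) := Real.exp_le_exp.mpr (by linarith only [hs0, hs, a1])
      have h4 : 1 ≤ Real.exp (L / 2) := Real.one_le_exp (by linarith only [hs0, hs, a1])
      linarith only [hs0, hs, h1, h2, h3, h4]
    have hxup : ((12 * N / P / l : ℕ) : ℝ) ≤ 12 * (N / P : ℝ) / l := by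
      refine Nat.cast_div_le.trans ?_
      refine div_le_div_of_nonneg_right ?_ hl0.le
      refine Nat.cast_div_le.trans (le_of_eq ?_)
      push_cast
      ring
    set x := 12 * N / P / l with hx
    have hxpos : (0 : ℝ) < x := (Real.exp_pos _).trans_le hxlow
    have hlog : L / 2 ≤ Real.log x := (Real.le_log_iff_exp_le hxpos).mpr hxlow
    have hx0x : x0 ≤ x := by
      have := a7.trans hxlow
      exact_mod_cast this
    have key : ∀ (a : ℝ) (j : ℕ), a ≤ L ^ j → (2 : ℝ) ^ (j + 1) ≤ L → a ≤ Real.log x ^ (j + 1) := by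
      intro a j ha hj
      refine ha.trans ?_
      have h1 : (L / 2) ^ (j + 1) ≤ Real.log x ^ (j + 1) := pow_le_pow_left₀ (by linarith only [hs0, hs, a1]) hlog _
      refine le_trans ?_ h1
      rw [div_pow, le_div_iff₀ (by positivity), pow_succ L j]
      exact mul_le_mul_of_nonneg_left hj (by positivity)
    have h := hx0 x hx0x c (l * b) (y / l) t hc1 (key _ _ hc a2) (key _ _ ht a3) (Nat.div_le_div_right hy)
    refine h.trans ?_
    have h1 : (x : ℝ) / Real.log x ^ (k + 3) ≤ (12 * (N / P : ℝ) / l) / (L / 2) ^ (k + 3) :=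
      div_le_div₀ (by positivity) hxup (by positivity) (pow_le_pow_left₀ (by linarith only [hs0, hs, a1]) hlog _)
    refine h1.trans (le_of_eq ?_)
    rw [hB]
    ring
  set Q := max P 100 with hQ
  refine (SwG_split P1 P y c b D Q t B (le_max_left _ _) hB0 hT).trans ?_
  have hlogD : Real.log D ≤ 1 + L / 8 := by
    have h1 : (D : ℝ) ≤ Real.exp (1 + L / 8) := by
      rw [Real.exp_add]
      have : (2 : ℝ) ≤ Real.exp 1 := by
        have := Real.add_one_le_exp (1 : ℝ)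
        linarith only [this]
      refine hDup.trans (mul_le_mul_of_nonneg_right this (by positivity))
    rw [← Real.log_exp (1 + L / 8)]
    exact Real.log_le_log hDpos h1
  have hpart1 : B * (1 + Real.log D) ≤ (N / P : ℝ) / L ^ k / 4 := by
    have h1 : B * (1 + Real.log D) ≤ B * L := mul_le_mul_of_nonneg_left (by linarith only [hs0, hs, a1, hlogD]) hB0
    refine h1.trans ?_
    have h2 : B * L = (12 * (2 : ℝ) ^ (k + 3) / L ^ 2) * ((N / P : ℝ) / L ^ k) := by
      rw [hB, div_pow]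
      field_simp
      ring
    rw [h2]
    have h3 : 12 * (2 : ℝ) ^ (k + 3) / L ^ 2 ≤ 1 / 4 := by
      rw [div_le_iff₀ (by positivity)]
      linarith only [a4]
    have h4 : 0 ≤ (N / P : ℝ) / L ^ k := by positivity
    calc _ ≤ 1 / 4 * ((N / P : ℝ) / L ^ k) := mul_le_mul_of_nonneg_right h3 h4
      _ = _ := by ring
  have hQ100 : 100 ≤ Q := le_max_right _ _
  have hlogQ : Real.log Q ≤ L ^ s := by
    rw [hQ]
    push_cast
    rcases le_total (P : ℝ) 100 with h | h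
    · rw [max_eq_right h]; exact a6
    · rw [max_eq_left h, ← Real.log_exp (L ^ s)]
      exact Real.log_le_log hPpos hP
  have hlogQ1 : 0 < Real.log Q := Real.log_pos (by
    have : (100 : ℝ) ≤ Q := by exact_mod_cast hQ100
    linarith only [hs0, hs, this])
  have hLs : 0 < L ^ s := Real.rpow_pos_of_pos hLpos s
  have hLsL : L ^ s ≤ L := by linarith only [hs0, hs, a1, a5]
  have hpart2 : (y : ℝ) * ∑ l ∈ (Ioc D y).filter (fun l : ℕ => ∀ p : ℕ, p.Prime → p ∣ l → p ≤ Q), (1 : ℝ) / l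
      ≤ (N / P : ℝ) / L ^ k / 4 := by
    have hy' : (y : ℝ) ≤ 12 * (N / P : ℝ) := by
      have h1 : (y : ℝ) ≤ ((12 * N / P : ℕ) : ℝ) := by exact_mod_cast hy
      refine h1.trans (Nat.cast_div_le.trans (le_of_eq ?_))
      push_cast
      ring
    have h1 := hrank Q D y hQ100 hD1
    have hlogD2 : L / 8 ≤ Real.log D := (Real.le_log_iff_exp_le hDpos).mpr hDlow
    have h2 : Real.exp (-(Real.log D / Real.log Q)) ≤ Real.exp (-(L ^ (1 - s) / 8)) := by
      rw [Real.exp_le_exp, neg_le_neg_iff, le_div_iff₀ hlogQ1]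
      have h3 : L ^ s * L ^ (1 - s) = L := by
        rw [← Real.rpow_add hLpos]; simp
      have h4 : 0 < L ^ (1 - s) := Real.rpow_pos_of_pos hLpos _
      nlinarith only [hlogD2, h3, hs0, hs, hlogQ, h4]
    have h3 : Real.log Q ^ k0 ≤ L ^ k0 := pow_le_pow_left₀ hlogQ1.le (hlogQ.trans hLsL) _
    have h4 : C * Real.log Q ^ k0 * Real.exp (-(Real.log D / Real.log Q)) ≤ C * L ^ k0 * Real.exp (-(L ^ (1 - s) / 8)) := by
      refine mul_le_mul (mul_le_mul_of_nonneg_left h3 hC.le) h2 (Real.exp_pos _).le (by positivity)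
    have h5 : 0 ≤ C * L ^ k0 * Real.exp (-(L ^ (1 - s) / 8)) := by positivity
    calc (y : ℝ) * _ ≤ (12 * (N / P : ℝ)) * (C * L ^ k0 * Real.exp (-(L ^ (1 - s) / 8))) := by
          refine mul_le_mul hy' (h1.trans h4) ?_ (by positivity)
          exact Finset.sum_nonneg (fun l _ => by positivity)
      _ = (N / P : ℝ) * (12 * C * L ^ k0 * Real.exp (-(L ^ (1 - s) / 8))) := by ring
      _ ≤ (N / P : ℝ) * (1 / (4 * L ^ k)) := mul_le_mul_of_nonneg_left a8 hNP
      _ = _ := by ring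
  linarith only [hpart1, hpart2]

end Pool.Agent.H43.LM

end
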