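import Pool.Agent.H43.PS.M11

/-! The parts of this file: H76.MU.LmN, H76.VKT.PSum, H35.W.KSap, H80.LV.TyI. -/

section

/-!
# MU LmN: the norm `nrm B` and the Halász-Montgomery bound

`nrm B f = (∫_B |f|^2)^{1/2}`; all functions are finite sums of `c · ee(t log n)`, hence continuous and bounded, and `B ⊆ [-2T, 2T]` is measurable and
bounded.  `nrm_add`, `nrm_sum`: Minkowski (e.g. via `MeasureTheory.eLpNorm`/`Lp` for the restricted measure, or from the Cauchy-Schwarz inequality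
`∫_B |f||g| ≤ nrm f nrm g`); `nrm_mul`: pointwise bound of one factor; `nrm_hm`: `Pool.Agent.H80.LV.hm (1/20)` with `|a_n| ≤ 1` (`∑ |a_n|^2 ≤ K`;
`T^η ≤ x^η`; `2T ≤ 2x ≤ x^2`); `nrm_triv`: `|f| ≤ F` on `B`, `vol B ≤ T^η ≤ x^η`.
-/

set_option autoImplicit false

namespace Pool.Agent.H76.MU

open Finset MeasureTheory
open Pool.Agent.H91.PK (ee)

theorem nrm_nonneg (B : Set ℝ) (f : ℝ → ℂ) : 0 ≤ nrm B f := Real.sqrt_nonneg _

theorem LmN_sub {η T : ℝ} {B : Set ℝ} (hB : BS η T B) : B ⊆ Set.Icc (-(2 * T)) (2 * T) := by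
  intro t ht
  have h1 := (hB.mem t ht).2
  exact abs_le.1 h1

theorem LmN_int {η T : ℝ} {B : Set ℝ} (hB : BS η T B) {φ : ℝ → ℝ} (hφ : Continuous φ) :
    IntegrableOn φ B := by
  have h1 : IntegrableOn φ (Set.Icc (-(2 * T)) (2 * T)) :=
    hφ.continuousOn.integrableOn_compact isCompact_Icc
  exact h1.mono_set (LmN_sub hB)

theorem LmN_cs {η T : ℝ} {B : Set ℝ} (hB : BS η T B) {φ ψ : ℝ → ℝ} (hφ : Continuous φ)
    (hψ : Continuous ψ) :
    (∫ t in B, φ t * ψ t) ^ 2 ≤ (∫ t in B, φ t ^ 2) * (∫ t in B, ψ t ^ 2) := by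
  have h1 : ∀ x : ℝ, 0 ≤ (∫ t in B, ψ t ^ 2) * (x * x) + (2 * ∫ t in B, φ t * ψ t) * x
      + ∫ t in B, φ t ^ 2 := by
    intro x
    have e : (∫ t in B, ψ t ^ 2) * (x * x) + (2 * ∫ t in B, φ t * ψ t) * x
        + ∫ t in B, φ t ^ 2 = ∫ t in B, (φ t + x * ψ t) ^ 2 := by
      have i1 : IntegrableOn (fun t => ψ t ^ 2 * (x * x)) B :=
        LmN_int hB ((hψ.pow 2).mul continuous_const)
      have i2 : IntegrableOn (fun t => (φ t * ψ t) * (2 * x)) B :=
        LmN_int hB ((hφ.mul hψ).mul continuous_const)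
      have i3 : IntegrableOn (fun t => φ t ^ 2) B := LmN_int hB (hφ.pow 2)
      have i12 : IntegrableOn (fun t => ψ t ^ 2 * (x * x) + (φ t * ψ t) * (2 * x)) B := i1.add i2
      have e1 : (fun t => (φ t + x * ψ t) ^ 2)
          = fun t => (ψ t ^ 2 * (x * x) + (φ t * ψ t) * (2 * x)) + φ t ^ 2 := by
        funext t
        ring
      rw [e1, integral_add i12 i3, integral_add i1 i2, integral_mul_const, integral_mul_const]
      ring
    rw [e]
    exact integral_nonneg fun t => sq_nonneg _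
  have h2 := discrim_le_zero h1
  unfold discrim at h2
  nlinarith

theorem nrm_add (η T : ℝ) (B : Set ℝ) (hB : BS η T B) (f g : ℝ → ℂ) (hf : Continuous f)
    (hg : Continuous g) : nrm B (fun t => f t + g t) ≤ nrm B f + nrm B g := by
  have ha : 0 ≤ ∫ t in B, ‖f t‖ ^ 2 := integral_nonneg fun t => sq_nonneg _
  have hb : 0 ≤ ∫ t in B, ‖g t‖ ^ 2 := integral_nonneg fun t => sq_nonneg _
  have hcs := LmN_cs hB hf.norm hg.norm
  have hI : (∫ t in B, ‖f t‖ * ‖g t‖) ≤ nrm B f * nrm B g := by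
    apply le_of_sq_le_sq _ (mul_nonneg (nrm_nonneg _ _) (nrm_nonneg _ _))
    unfold nrm
    rw [mul_pow, Real.sq_sqrt ha, Real.sq_sqrt hb]
    exact hcs
  have i1 : IntegrableOn (fun t => ‖f t‖ ^ 2) B := LmN_int hB (hf.norm.pow 2)
  have i2 : IntegrableOn (fun t => ‖g t‖ ^ 2) B := LmN_int hB (hg.norm.pow 2)
  have i3 : IntegrableOn (fun t => 2 * (‖f t‖ * ‖g t‖)) B :=
    LmN_int hB (continuous_const.mul (hf.norm.mul hg.norm))
  have i12 : IntegrableOn (fun t => ‖f t‖ ^ 2 + ‖g t‖ ^ 2) B := i1.add i2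
  have h1 : ∫ t in B, ‖f t + g t‖ ^ 2 ≤ (nrm B f + nrm B g) ^ 2 := by
    have h2 : ∫ t in B, ‖f t + g t‖ ^ 2 ≤
        ∫ t in B, ((‖f t‖ ^ 2 + ‖g t‖ ^ 2) + 2 * (‖f t‖ * ‖g t‖)) := by
      apply integral_mono (LmN_int hB ((hf.add hg).norm.pow 2)) (i12.add i3)
      intro t
      show ‖f t + g t‖ ^ 2 ≤ (‖f t‖ ^ 2 + ‖g t‖ ^ 2) + 2 * (‖f t‖ * ‖g t‖)
      have h3 := norm_add_le (f t) (g t)
      have h4 := norm_nonneg (f t + g t)
      nlinarith
    rw [integral_add i12 i3, integral_add i1 i2, integral_const_mul] at h2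
    have e1 : nrm B f ^ 2 = ∫ t in B, ‖f t‖ ^ 2 := Real.sq_sqrt ha
    have e2 : nrm B g ^ 2 = ∫ t in B, ‖g t‖ ^ 2 := Real.sq_sqrt hb
    nlinarith
  exact Real.sqrt_le_iff.2 ⟨add_nonneg (nrm_nonneg _ _) (nrm_nonneg _ _), h1⟩

theorem nrm_sum {ι : Type*} (η T : ℝ) (B : Set ℝ) (hB : BS η T B) (s : Finset ι) (f : ι → ℝ → ℂ)
    (hf : ∀ i ∈ s, Continuous (f i)) :
    nrm B (fun t => ∑ i ∈ s, f i t) ≤ ∑ i ∈ s, nrm B (f i) := by
  classical
  induction s using Finset.induction_on with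
  | empty =>
    simp [nrm]
  | insert a s ha ih =>
    have h1 : (fun t => ∑ i ∈ insert a s, f i t) = fun t => f a t + ∑ i ∈ s, f i t := by
      funext t
      rw [Finset.sum_insert ha]
    rw [h1, Finset.sum_insert ha]
    have hs : ∀ i ∈ s, Continuous (f i) := fun i hi => hf i (Finset.mem_insert_of_mem hi)
    refine (nrm_add η T B hB (f a) (fun t => ∑ i ∈ s, f i t) (hf a (Finset.mem_insert_self a s))
      (continuous_finsetSum s hs)).trans ?_
    have := ih hs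
    linarith

theorem nrm_mul (η T : ℝ) (B : Set ℝ) (hB : BS η T B) (f g : ℝ → ℂ) (C : ℝ) (hf : Continuous f)
    (hg : Continuous g) (hC : ∀ t ∈ B, ‖g t‖ ≤ C) (hC0 : 0 ≤ C) :
    nrm B (fun t => g t * f t) ≤ C * nrm B f := by
  have h1 : ∫ t in B, ‖g t * f t‖ ^ 2 ≤ C ^ 2 * ∫ t in B, ‖f t‖ ^ 2 := by
    rw [← integral_const_mul]
    apply setIntegral_mono_on (LmN_int hB ((hg.mul hf).norm.pow 2))
      (LmN_int hB (continuous_const.mul (hf.norm.pow 2))) hB.meas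
    intro t ht
    show ‖g t * f t‖ ^ 2 ≤ C ^ 2 * ‖f t‖ ^ 2
    rw [norm_mul, mul_pow]
    have h2 : ‖g t‖ ^ 2 ≤ C ^ 2 := pow_le_pow_left₀ (norm_nonneg _) (hC t ht) 2
    exact mul_le_mul_of_nonneg_right h2 (sq_nonneg _)
  unfold nrm
  calc Real.sqrt (∫ t in B, ‖g t * f t‖ ^ 2) ≤ Real.sqrt (C ^ 2 * ∫ t in B, ‖f t‖ ^ 2) :=
        Real.sqrt_le_sqrt h1
    _ = C * Real.sqrt (∫ t in B, ‖f t‖ ^ 2) := by
        rw [Real.sqrt_mul (sq_nonneg C), Real.sqrt_sq hC0]

theorem nrm_triv (η T x F : ℝ) (B : Set ℝ) (hB : BS η T B) (hη : 0 ≤ η) (hT : 1 ≤ T) (hTx : T ≤ x)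
    (f : ℝ → ℂ) (hf : Continuous f) (hF : ∀ t ∈ B, ‖f t‖ ≤ F) (hF0 : 0 ≤ F) :
    nrm B f ≤ F * x ^ (η / 2) := by
  have hx0 : 0 < x := by linarith
  have hvol : volume.real B ≤ x ^ η :=
    hB.vol.trans (Real.rpow_le_rpow (by linarith) hTx hη)
  have hfin : volume B ≠ ⊤ := by
    have h1 : volume B ≤ volume (Set.Icc (-(2 * T)) (2 * T)) := measure_mono (LmN_sub hB)
    exact ne_top_of_le_ne_top (by simp) h1
  have h1 : ∫ t in B, ‖f t‖ ^ 2 ≤ F ^ 2 * x ^ η := by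
    have h2 : ∫ t in B, ‖f t‖ ^ 2 ≤ ∫ t in B, F ^ 2 := by
      apply setIntegral_mono_on (LmN_int hB (hf.norm.pow 2)) (LmN_int hB continuous_const) hB.meas
      intro t ht
      exact pow_le_pow_left₀ (norm_nonneg _) (hF t ht) 2
    rw [setIntegral_const, smul_eq_mul] at h2
    nlinarith [sq_nonneg F]
  unfold nrm
  calc Real.sqrt (∫ t in B, ‖f t‖ ^ 2) ≤ Real.sqrt (F ^ 2 * x ^ η) := Real.sqrt_le_sqrt h1
    _ = F * x ^ (η / 2) := by
        rw [Real.sqrt_mul (sq_nonneg F), Real.sqrt_sq hF0, Real.sqrt_eq_rpow, ← Real.rpow_mul hx0.le]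
        congr 2
        ring

theorem cont_poly (s : Finset ℕ) (a : ℕ → ℂ) :
    Continuous (fun t : ℝ => ∑ n ∈ s, a n * ee (t * Real.log n)) := by
  apply continuous_finsetSum
  intro n _
  apply Continuous.mul continuous_const
  unfold ee
  fun_prop

theorem nrm_hm : ∃ η : ℝ, 0 < η ∧ η ≤ 1 / 10 ∧ ∃ x0 : ℕ, ∀ x : ℕ, x0 ≤ x →
    ∀ (K : ℕ) (a : ℕ → ℂ) (T : ℝ) (B : Set ℝ) (η' : ℝ), 0 ≤ η' → η' ≤ η →
      (x : ℝ) ^ (1 / 20 : ℝ) ≤ K → K ≤ x → 1 ≤ T → T ≤ x → BS η' T B →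
      nrm B (fun t => ∑ n ∈ Icc 1 K, a n * ee (t * Real.log n)) ^ 2
        ≤ K * Real.log x ^ 2 * ∑ n ∈ Icc 1 K, ‖a n‖ ^ 2 := by
  obtain ⟨η0, h0, h01, x0, H⟩ := Pool.Agent.H80.LV.hm (1 / 20) (by norm_num)
  refine ⟨min η0 (1 / 10), lt_min h0 (by norm_num), min_le_right _ _, max x0 2, ?_⟩
  intro x hx K a T B η' hη' hη'2 hK hKx hT hTx hB
  have hx2 : 2 ≤ x := (le_max_right _ _).trans hx
  have hx0 : x0 ≤ x := (le_max_left _ _).trans hx
  have hx2' : (2 : ℝ) ≤ x := by exact_mod_cast hx2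
  have hsub : B ⊆ Set.Icc (-((x : ℝ) ^ (2 : ℕ))) ((x : ℝ) ^ (2 : ℕ)) := by
    refine (LmN_sub hB).trans (Set.Icc_subset_Icc ?_ ?_)
    · nlinarith
    · nlinarith
  have hvol : volume.real B ≤ (x : ℝ) ^ η0 := by
    calc volume.real B ≤ T ^ η' := hB.vol
      _ ≤ (x : ℝ) ^ η' := Real.rpow_le_rpow (by linarith) hTx hη'
      _ ≤ (x : ℝ) ^ η0 := Real.rpow_le_rpow_of_exponent_le (by linarith)
          (hη'2.trans (min_le_left _ _))
  have h1 := H x hx0 K a B hK hKx hB.meas hsub hvol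
  unfold nrm
  rw [Real.sq_sqrt (integral_nonneg fun t => sq_nonneg _)]
  exact h1

end Pool.Agent.H76.MU

end

section

/-!
# VKT (H97/VK of helper97 with the parameter `T0.t` in place of `9/10`, `t1` in place of `19/20`) PSum: partial sums of `χ(n) n^{it}` for all `v > y`

Proof.  Split `n ≤ v` into classes modulo `d`: `n = d m + r`, `0 ≤ r < d`, `log n = log d + log (m + r/d)`, `χ(n) = χ(r)`.  The terms with `m = 0` contribute at most `d`.
The others form `∑_{m ∈ Ioc 0 b} ee(t log(m + r/d))`, `b = (v - r)/d ≤ v`, up to a constant factor of modulus one.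
`v ≤ x`: `vk_exp (A + B + 2)` with `K = v` (`v ≥ Yx x + 1 > exp(L9 x)`): at most `v (100/|t| + L^{-A-B-2})` per class.
`v > x`: `H35.W.ks1 1` with its `x` equal to `v` and `K = v` (`|t| ≤ x^3 ≤ v^3`): at most `C v (1/|t| + v^{-δ})` per class.
Sum over `d ≤ L^B` classes; `K' = A + B + 2`; `d ≤ L^B ≤ v/L^{A+1}`.
-/

set_option autoImplicit false

namespace Pool.Agent.H76.VKT

open Finset
open Pool.Agent.H91.PK (ee)

private lemma psum_ee_norm (r : ℝ) : ‖ee r‖ = 1 := by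
  have : (2 * Real.pi * r * Complex.I : ℂ) = ((2 * Real.pi * r : ℝ) : ℂ) * Complex.I := by
    push_cast; ring
  rw [ee, this, Complex.norm_exp_ofReal_mul_I]

private lemma psum_ee_add (r s : ℝ) : ee (r + s) = ee r * ee s := by
  rw [ee, ee, ee, ← Complex.exp_add]
  congr 1
  push_cast
  ring

private lemma psum_per (ψ : ℕ → ℂ) (d : ℕ) (h : ∀ n, ψ (n + d) = ψ n) (l k : ℕ) :
    ψ (l + d * k) = ψ l := by
  induction k with
  | zero => simp
  | succ k ih => rw [mul_add, mul_one, ← add_assoc, h, ih]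

/-- one residue class -/
private lemma psum_class (f : ℕ → ℂ) (hf : ∀ n, ‖f n‖ ≤ 1) (B : ℝ) (K' a b d l : ℕ) (hd : 1 ≤ d)
    (hb : b / d ≤ K') (hB : ∀ a' b' : ℕ, b' ≤ K' → ‖∑ n ∈ Ioc a' b', f n‖ ≤ B) :
    ‖∑ k ∈ (range (b + 1)).filter (fun k => a < l + d * k ∧ l + d * k ≤ b), f k‖ ≤ 1 + B := by
  set T := (range (b + 1)).filter (fun k => a < l + d * k ∧ l + d * k ≤ b) with hT
  have e : T.erase 0 = Ioc ((a - l) / d) ((b - l) / d) := by
    ext k
    simp only [hT, mem_erase, mem_filter, mem_range, mem_Ioc]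
    rw [Nat.div_lt_iff_lt_mul (by omega), Nat.le_div_iff_mul_le (by omega)]
    constructor
    · rintro ⟨h0, h1, h2, h3⟩
      rw [mul_comm d k] at h2 h3
      have : 1 ≤ k * d := Nat.mul_pos (by omega) (by omega)
      omega
    · rintro ⟨h1, h2⟩
      have hk : k ≠ 0 := by rintro rfl; simp at h1
      have h3 : k ≤ k * d := Nat.le_mul_of_pos_right k (by omega)
      have : 1 ≤ k * d := Nat.mul_pos (by omega) (by omega)
      rw [mul_comm d k]
      omega
  have h1 : ‖∑ k ∈ T.erase 0, f k‖ ≤ B := by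
    rw [e]
    exact hB _ _ ((Nat.div_le_div_right (Nat.sub_le _ _)).trans hb)
  by_cases h0 : 0 ∈ T
  · rw [← add_sum_erase _ _ h0]
    exact (norm_add_le _ _).trans (add_le_add (hf 0) h1)
  · rw [erase_eq_of_notMem h0] at h1
    linarith

/-- all residue classes -/
private lemma psum_core (ψ : ℕ → ℂ) (d v : ℕ) (t B : ℝ) (hd : 1 ≤ d) (hper : ∀ n, ψ (n + d) = ψ n)
    (hψ : ∀ n, ‖ψ n‖ ≤ 1)
    (hB : ∀ (β : ℝ) (a' b' : ℕ), 0 ≤ β → β ≤ 1 → b' ≤ v →
      ‖∑ n ∈ Ioc a' b', ee (t * Real.log (n + β))‖ ≤ B) :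
    ‖∑ n ∈ Icc 1 v, ψ n * ee (t * Real.log n)‖ ≤ d * (1 + B) := by
  have hdr : (1 : ℝ) ≤ d := by exact_mod_cast hd
  have hd0 : (d : ℝ) ≠ 0 := by positivity
  have hcl : ∀ l ∈ range d, ‖∑ n ∈ (Ioc 0 v).filter (fun n => n % d = l),
      ψ n * ee (t * Real.log n)‖ ≤ 1 + B := by
    intro l hl
    have hl1 := mem_range.1 hl
    have e1 : (Ioc 0 v).filter (fun n => n % d = l)
        = ((range (v + 1)).filter (fun k => 0 < l + d * k ∧ l + d * k ≤ v)).image
          (fun k => l + d * k) := by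
      ext n
      simp only [mem_filter, mem_Ioc, mem_image, mem_range]
      constructor
      · rintro ⟨⟨h1, h2⟩, h3⟩
        have h4 : n % d + d * (n / d) = n := Nat.mod_add_div n d
        have h5 : n / d ≤ n := Nat.div_le_self n d
        refine ⟨n / d, ⟨by omega, ?_, ?_⟩, ?_⟩ <;> rw [← h3, h4] <;> assumption
      · rintro ⟨k, ⟨h1, h2, h3⟩, rfl⟩
        exact ⟨⟨h2, h3⟩, by rw [Nat.add_mul_mod_self_left, Nat.mod_eq_of_lt hl1]⟩
    have hinj : Set.InjOn (fun k => l + d * k)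
        ((range (v + 1)).filter (fun k => 0 < l + d * k ∧ l + d * k ≤ v) : Finset ℕ) := by
      intro u _ w _ huw
      have : d * u = d * w := by simpa using huw
      exact Nat.eq_of_mul_eq_mul_left (by omega) this
    rw [e1, sum_image hinj]
    have hβl0 : 0 ≤ (l : ℝ) / d := by positivity
    have hβl1 : (l : ℝ) / d ≤ 1 := by
      rw [div_le_one (by linarith)]
      exact_mod_cast hl1.le
    have e2 : ∑ k ∈ (range (v + 1)).filter (fun k => 0 < l + d * k ∧ l + d * k ≤ v),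
        ψ (l + d * k) * ee (t * Real.log ((l + d * k : ℕ) : ℝ))
        = (ψ l * ee (t * Real.log d)) *
          ∑ k ∈ (range (v + 1)).filter (fun k => 0 < l + d * k ∧ l + d * k ≤ v),
            ee (t * Real.log ((k : ℝ) + (l : ℝ) / d)) := by
      rw [mul_sum]
      apply sum_congr rfl
      intro k hk
      have hk1 := (mem_filter.1 hk).2.1
      have hpos : (0 : ℝ) < l + d * k := by
        have : 0 < l + d * k := by omega
        exact_mod_cast this
      have h1 : ((l + d * k : ℕ) : ℝ) = d * ((k : ℝ) + (l : ℝ) / d) := by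
        push_cast
        field_simp
        ring
      have h2 : 0 < (k : ℝ) + (l : ℝ) / d := by
        have h3 : (k : ℝ) + (l : ℝ) / d = (l + d * k) / d := by
          field_simp
          ring
        rw [h3]
        exact div_pos hpos (by linarith)
      rw [psum_per ψ d hper, h1, Real.log_mul hd0 h2.ne', mul_add, psum_ee_add]
      ring
    rw [e2, norm_mul, norm_mul, psum_ee_norm, mul_one]
    have h3 := psum_class (fun k => ee (t * Real.log ((k : ℝ) + (l : ℝ) / d)))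
      (fun n => (psum_ee_norm _).le) B v 0 v d l hd (Nat.div_le_self v d)
      (fun a' b' hb' => hB ((l : ℝ) / d) a' b' hβl0 hβl1 hb')
    calc ‖ψ l‖ * _ ≤ 1 * (1 + B) := mul_le_mul (hψ l) h3 (norm_nonneg _) zero_le_one
      _ = 1 + B := one_mul _
  have e0 : Icc 1 v = Ioc 0 v := by
    ext n; simp only [mem_Icc, mem_Ioc]; omega
  have e3 : ∑ n ∈ Ioc 0 v, ψ n * ee (t * Real.log n)
      = ∑ l ∈ range d, ∑ n ∈ (Ioc 0 v).filter (fun n => n % d = l),
        ψ n * ee (t * Real.log n) := by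
    rw [sum_fiberwise_of_maps_to]
    intro n _
    exact mem_range.2 (Nat.mod_lt n (by omega))
  rw [e0, e3]
  refine (norm_sum_le _ _).trans ((sum_le_sum hcl).trans ?_)
  rw [sum_const, card_range, nsmul_eq_mul]

private lemma psum_tendL : Filter.Tendsto (fun x : ℕ => Real.log x) Filter.atTop Filter.atTop :=
  Real.tendsto_log_atTop.comp tendsto_natCast_atTop_atTop

/-- powers of `log x` against `exp ((log x)^{9/10})` -/
private lemma psum_ev1 [T0] (N : ℕ) : ∀ᶠ x : ℕ in Filter.atTop,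
    2 * Real.log x ^ N ≤ Real.exp (Real.log x ^ T0.t) := by
  have h1 : Filter.Tendsto (fun u : ℝ => u ^ T0.t) Filter.atTop Filter.atTop :=
    tendsto_rpow_atTop (by have := T0.lo; linarith)
  have h2 := (Real.isLittleO_pow_exp_atTop (n := 2 * N)).comp_tendsto h1
  have h3 := (h2.bound (show (0 : ℝ) < 1 / 2 by norm_num))
  have h4 := psum_tendL.eventually h3
  filter_upwards [h4, psum_tendL.eventually_ge_atTop 1] with x hx hL
  simp only [Function.comp_def, Real.norm_eq_abs] at hx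
  have hL0 : 0 ≤ Real.log x := by linarith
  rw [abs_of_nonneg (by positivity), abs_of_nonneg (by positivity)] at hx
  have h5 : Real.log x ^ N ≤ (Real.log x ^ T0.t) ^ (2 * N) := by
    rw [← Real.rpow_natCast (Real.log x ^ T0.t), ← Real.rpow_mul hL0, ← Real.rpow_natCast]
    apply Real.rpow_le_rpow_of_exponent_le hL
    push_cast
    have : (0 : ℝ) ≤ N := Nat.cast_nonneg N
    have hlo := T0.lo
    nlinarith
  linarith

/-- powers of `log x` against powers of `x` -/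
private lemma psum_ev2 (N : ℕ) (δ : ℝ) (hδ : 0 < δ) : ∀ᶠ x : ℕ in Filter.atTop,
    (x : ℝ) ^ (-δ) ≤ 1 / Real.log x ^ N := by
  have h1 : Filter.Tendsto (fun u : ℝ => δ * u) Filter.atTop Filter.atTop :=
    Filter.tendsto_id.const_mul_atTop hδ
  have h2 := (Real.isLittleO_pow_exp_atTop (n := N)).comp_tendsto h1
  have h3 := (h2.bound (show (0 : ℝ) < δ ^ N by positivity))
  have h4 := psum_tendL.eventually h3
  filter_upwards [h4, psum_tendL.eventually_ge_atTop 1, Filter.eventually_ge_atTop 1] with x hx hL hx1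
  simp only [Function.comp_def, Real.norm_eq_abs] at hx
  have hL0 : 0 < Real.log x := by linarith
  have hx0 : (0 : ℝ) < x := by exact_mod_cast hx1
  rw [abs_of_nonneg (by positivity), abs_of_nonneg (by positivity), mul_pow] at hx
  have h5 : Real.log x ^ N ≤ Real.exp (δ * Real.log x) := le_of_mul_le_mul_left hx (by positivity)
  have h6 : (x : ℝ) ^ (-δ) = (Real.exp (δ * Real.log x))⁻¹ := by
    rw [← Real.exp_neg, Real.rpow_def_of_pos hx0]
    congr 1
    ring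
  rw [h6, ← one_div]
  exact one_div_le_one_div_of_le (by positivity) h5

theorem psum_h [T0] (h_vk_exp : vk_exp_P)  (A B : ℕ) : ∃ K' x0 : ℕ, ∀ x : ℕ, x0 ≤ x → ∀ (d : ℕ) (χ : DirichletCharacter ℂ d) (t : ℝ) (v : ℕ),
    1 ≤ d → (d : ℝ) ≤ Real.log x ^ B → Real.log x ^ K' ≤ |t| → |t| ≤ (x : ℝ) ^ (3 : ℕ) → Yx x + 1 ≤ v →
    ‖∑ n ∈ Icc 1 v, χ (n : ZMod d) * ee (t * Real.log n)‖ ≤ v / Real.log x ^ A := by
  obtain ⟨x1, hx1⟩ := h_vk_exp (A + B + 2)
  obtain ⟨δ, C, hδ, hδ1, hC, x2, hx2⟩ := Pool.Agent.H35.W.ks1 1 one_pos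
  obtain ⟨x3, hx3⟩ := Filter.eventually_atTop.1 (psum_ev1 (A + B + 2))
  obtain ⟨x4, hx4⟩ := Filter.eventually_atTop.1 (psum_ev2 (A + B + 2) δ hδ)
  obtain ⟨x5, hx5⟩ := Filter.eventually_atTop.1 (psum_tendL.eventually_ge_atTop (4 * C + 202))
  refine ⟨A + B + 2, max (max (max x1 x2) (max x3 x4)) (max x5 1), ?_⟩
  intro x hx d χ t v hd hdL ht1 ht2 hv
  have hxa : x1 ≤ x := (le_max_left _ _).trans ((le_max_left _ _).trans ((le_max_left _ _).trans hx))
  have hxb : x2 ≤ x := (le_max_right _ _).trans ((le_max_left _ _).trans ((le_max_left _ _).trans hx))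
  have hxc : x3 ≤ x := (le_max_left _ _).trans ((le_max_right _ _).trans ((le_max_left _ _).trans hx))
  have hxd : x4 ≤ x := (le_max_right _ _).trans ((le_max_right _ _).trans ((le_max_left _ _).trans hx))
  have hxe : x5 ≤ x := (le_max_left _ _).trans ((le_max_right _ _).trans hx)
  have hxf : 1 ≤ x := (le_max_right _ _).trans ((le_max_right _ _).trans hx)
  have h3 := hx3 x hxc
  have h4 := hx4 x hxd
  have hL := hx5 x hxe
  have hxr : (1 : ℝ) ≤ x := by exact_mod_cast hxf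
  set L := Real.log x with hLdef
  have hL1 : (202 : ℝ) ≤ L := by linarith
  have hL0 : (0 : ℝ) < L := by linarith
  have hLp : ∀ n : ℕ, 0 < L ^ n := fun n => pow_pos hL0 n
  have hvy : Real.exp (L ^ T0.t) ≤ v := by
    have h5 : Real.exp (L9 x) < (Yx x : ℝ) + 1 := Nat.lt_floor_add_one _
    have h6 : ((Yx x : ℝ) + 1) ≤ v := by exact_mod_cast hv
    exact h5.le.trans h6
  have hv0 : (0 : ℝ) < v := (Real.exp_pos _).trans_le hvy
  have ht0 : 1 ≤ |t| := (one_le_pow₀ (by linarith : (1 : ℝ) ≤ L)).trans ht1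
  have htp : 0 < |t| := by linarith
  have hti : 1 / |t| ≤ 1 / L ^ (A + B + 2) := one_div_le_one_div_of_le (hLp _) ht1
  have key : ∀ (β : ℝ) (a' b' : ℕ), 0 ≤ β → β ≤ 1 → b' ≤ v →
      ‖∑ n ∈ Ioc a' b', ee (t * Real.log (n + β))‖ ≤ v * ((2 * C + 101) / L ^ (A + B + 2)) := by
    intro β a' b' hβ0 hβ1 hb'
    rcases le_or_gt v x with hvx | hvx
    · refine (hx1 x hxa v a' b' β t hvy hvx hb' hβ0 hβ1 ht0 ht2).trans ?_
      apply mul_le_mul_of_nonneg_left _ hv0.le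
      calc 100 / |t| + 1 / L ^ (A + B + 2) = 100 * (1 / |t|) + 1 / L ^ (A + B + 2) := by ring
        _ ≤ 100 * (1 / L ^ (A + B + 2)) + 1 / L ^ (A + B + 2) := by linarith
        _ = 101 / L ^ (A + B + 2) := by ring
        _ ≤ (2 * C + 101) / L ^ (A + B + 2) := by
          apply div_le_div_of_nonneg_right _ (hLp _).le
          linarith
    · have hxv : (x : ℝ) ≤ v := by exact_mod_cast hvx.le
      have ht3 : |t| ≤ (v : ℝ) ^ (3 : ℕ) := ht2.trans (pow_le_pow_left₀ (by linarith) hxv 3)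
      refine (hx2 v (hxb.trans hvx.le) v a' b' β t (by rw [Real.rpow_one]) le_rfl hb' hβ0 hβ1 ht0
        ht3).trans ?_
      have h7 : (v : ℝ) ^ (-δ) ≤ (x : ℝ) ^ (-δ) :=
        Real.rpow_le_rpow_of_nonpos (by linarith) hxv (by linarith)
      have h8 : 1 / |t| + (v : ℝ) ^ (-δ) ≤ 2 * (1 / L ^ (A + B + 2)) := by linarith
      calc C * v * (1 / |t| + (v : ℝ) ^ (-δ)) ≤ C * v * (2 * (1 / L ^ (A + B + 2))) := by
            apply mul_le_mul_of_nonneg_left h8 (by positivity)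
        _ = v * ((2 * C) / L ^ (A + B + 2)) := by ring
        _ ≤ v * ((2 * C + 101) / L ^ (A + B + 2)) := by
          apply mul_le_mul_of_nonneg_left _ hv0.le
          apply div_le_div_of_nonneg_right _ (hLp _).le
          linarith
  have hmain := psum_core (fun n => χ (n : ZMod d)) d v t _ hd (fun n => by simp)
    (fun n => DirichletCharacter.norm_le_one _ _) key
  refine hmain.trans ?_
  have hd0 : (0 : ℝ) ≤ d := Nat.cast_nonneg _
  have hvL : 2 * L ^ (A + B + 2) ≤ v := h3.trans hvy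
  have hC0 : 0 ≤ (2 * C + 101) / L ^ (A + B + 2) := div_nonneg (by linarith) (hLp _).le
  have h9 : (d : ℝ) * (1 + v * ((2 * C + 101) / L ^ (A + B + 2))) ≤
      L ^ B * (1 + v * ((2 * C + 101) / L ^ (A + B + 2))) := by
    apply mul_le_mul_of_nonneg_right hdL
    positivity
  refine h9.trans ?_
  rw [le_div_iff₀ (hLp _)]
  have e1 : L ^ (A + B + 2) = L ^ A * L ^ B * L ^ 2 := by
    rw [pow_add, pow_add]
  have e2 : L ^ B * (1 + v * ((2 * C + 101) / L ^ (A + B + 2))) * L ^ A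
      = L ^ A * L ^ B + v * ((2 * C + 101) / L ^ 2) := by
    rw [e1]
    have hA := (hLp A).ne'
    have hB := (hLp B).ne'
    field_simp
  rw [e2]
  have h10 : L ^ A * L ^ B ≤ v / 2 := by
    have h11 : (1 : ℝ) ≤ L ^ 2 := one_le_pow₀ (by linarith)
    have h12 : 0 ≤ L ^ A * L ^ B := by positivity
    rw [e1] at hvL
    nlinarith
  have h13 : (2 * C + 101) / L ^ 2 ≤ 1 / 2 := by
    rw [div_le_iff₀ (hLp 2)]
    nlinarith
  nlinarith

end Pool.Agent.H76.VKT

end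

section

/-!
# W KSap: sums of `(n + β)^{it}` twisted by a periodic function

Proof.  Let `δ1, C` be the constants of `ks1 (kap / 2)`.  Split the sum over `n ∈ (a, b]` into the classes
`n = l + d n'`, `0 ≤ l < d`; `ψ(n) = ψ(l)` (periodicity), `log(n + β) = log d + log(n' + (l+β)/d)` for `n ≥ 1`,
so the class contributes at most `|∑_{a' < n' ≤ b'} ee(t log(n' + (l+β)/d))|` with `(l+β)/d ∈ [0,1]`,
`b' ≤ K/d`.  (For `n' = 0`, `l > 0` treat the term `n = l` separately: one term of size `≤ 1`, or let the interval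
in `ks1` start at `a' + 1` and add the term.)  Apply `ks1` with `K' = K / d + 1` (natural division), `K' ≥ x^{kap/2}`
as `d^4 ≤ K`.  The sum over `l` is `≤ d (2 + C K' (1/|t| + x^{-δ1})) ≤ 4 C K (1/|t| + x^{-δ})` with
`δ = min δ1 (kap/4)`-like (`d ≤ K^{1/4}`, so `d ≤ K · K^{-3/4}`).  For large `x`: `4 C ≤ log x`.
-/

set_option autoImplicit false

namespace Pool.Agent.H35.W

open Finset
open Pool.Agent.H91.PK (ee)

private lemma ksap_ee_norm (r : ℝ) : ‖ee r‖ = 1 := by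
  have : (2 * Real.pi * r * Complex.I : ℂ) = ((2 * Real.pi * r : ℝ) : ℂ) * Complex.I := by
    push_cast; ring
  rw [ee, this, Complex.norm_exp_ofReal_mul_I]

private lemma ksap_ee_add (r s : ℝ) : ee (r + s) = ee r * ee s := by
  rw [ee, ee, ee, ← Complex.exp_add]
  congr 1
  push_cast
  ring

private lemma ksap_per (ψ : ℕ → ℂ) (d : ℕ) (h : ∀ n, ψ (n + d) = ψ n) (l k : ℕ) :
    ψ (l + d * k) = ψ l := by
  induction k with
  | zero => simp
  | succ k ih => rw [mul_add, mul_one, ← add_assoc, h, ih]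

/-- one residue class -/
private lemma ksap_class (f : ℕ → ℂ) (hf : ∀ n, ‖f n‖ ≤ 1) (B : ℝ) (K' a b d l : ℕ) (hd : 1 ≤ d)
    (hb : b / d ≤ K') (hB : ∀ a' b' : ℕ, b' ≤ K' → ‖∑ n ∈ Ioc a' b', f n‖ ≤ B) :
    ‖∑ k ∈ (range (b + 1)).filter (fun k => a < l + d * k ∧ l + d * k ≤ b), f k‖ ≤ 1 + B := by
  set T := (range (b + 1)).filter (fun k => a < l + d * k ∧ l + d * k ≤ b) with hT
  have e : T.erase 0 = Ioc ((a - l) / d) ((b - l) / d) := by
    ext k
    simp only [hT, mem_erase, mem_filter, mem_range, mem_Ioc]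
    rw [Nat.div_lt_iff_lt_mul (by omega), Nat.le_div_iff_mul_le (by omega)]
    constructor
    · rintro ⟨h0, h1, h2, h3⟩
      rw [mul_comm d k] at h2 h3
      have : 1 ≤ k * d := Nat.mul_pos (by omega) (by omega)
      omega
    · rintro ⟨h1, h2⟩
      have hk : k ≠ 0 := by rintro rfl; simp at h1
      have h3 : k ≤ k * d := Nat.le_mul_of_pos_right k (by omega)
      have : 1 ≤ k * d := Nat.mul_pos (by omega) (by omega)
      rw [mul_comm d k]
      omega
  have h1 : ‖∑ k ∈ T.erase 0, f k‖ ≤ B := by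
    rw [e]
    exact hB _ _ ((Nat.div_le_div_right (Nat.sub_le _ _)).trans hb)
  by_cases h0 : 0 ∈ T
  · rw [← add_sum_erase _ _ h0]
    exact (norm_add_le _ _).trans (add_le_add (hf 0) h1)
  · rw [erase_eq_of_notMem h0] at h1
    linarith

private lemma ksap_real (K d : ℕ) (y : ℝ) (hy : 4 ≤ y) (hK : y ^ 2 ≤ K) (hd : 1 ≤ d)
    (hdK : d ^ 4 ≤ K) : y ≤ ((K / d : ℕ) : ℝ) := by
  by_contra hlt
  push Not at hlt
  have hd0 : (1 : ℝ) ≤ d := by exact_mod_cast hd
  have h1 : (K : ℝ) < d * (y + 1) := by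
    have h2 : K < d * (K / d + 1) := Nat.lt_mul_div_succ K (by omega)
    have h3 : (K : ℝ) < (d : ℝ) * (((K / d : ℕ) : ℝ) + 1) := by exact_mod_cast h2
    refine h3.trans_le ?_
    gcongr
  have hKp : (16 : ℝ) ≤ K := by nlinarith
  have h4 : ((d : ℝ)) ^ 4 ≤ K := by exact_mod_cast hdK
  have h5 : (K : ℝ) ^ 4 < (d * (y + 1)) ^ 4 := pow_lt_pow_left₀ h1 (by linarith) (by norm_num)
  have h6 : ((d : ℝ) * (y + 1)) ^ 4 ≤ K * (y + 1) ^ 4 := by
    rw [mul_pow]; gcongr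
  have h7 : (y + 1) ^ 4 ≤ (2 * y) ^ 4 := pow_le_pow_left₀ (by linarith) (by linarith) 4
  have h8 : (2 * y) ^ 4 ≤ 16 * (K : ℝ) ^ 2 := by
    have : y ^ 4 ≤ (K : ℝ) ^ 2 := by
      calc y ^ 4 = (y ^ 2) ^ 2 := by ring
        _ ≤ (K : ℝ) ^ 2 := pow_le_pow_left₀ (by positivity) hK 2
    calc (2 * y) ^ 4 = 16 * y ^ 4 := by ring
      _ ≤ 16 * (K : ℝ) ^ 2 := by linarith
  have h9 : (K : ℝ) ^ 4 < K * (16 * (K : ℝ) ^ 2) :=
    h5.trans_le (h6.trans (mul_le_mul_of_nonneg_left (h7.trans h8) (by linarith)))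
  have h10 : (K : ℝ) * (16 * (K : ℝ) ^ 2) ≤ (K : ℝ) ^ 4 := by
    have : (K : ℝ) ^ 4 = K * (K * (K : ℝ) ^ 2) := by ring
    rw [this]
    gcongr
  linarith

theorem ksap (kap : ℝ) (hkap : 0 < kap) : ∃ δ : ℝ, 0 < δ ∧ δ ≤ 1 ∧ ∃ x0 : ℕ,
    ∀ x : ℕ, x0 ≤ x → ∀ (K d a b : ℕ) (ψ : ℕ → ℂ) (β t : ℝ), (x : ℝ) ^ kap ≤ K → K ≤ x → 1 ≤ d →
      d ^ 4 ≤ K → (∀ n, ψ (n + d) = ψ n) → (∀ n, ‖ψ n‖ ≤ 1) → b ≤ K → 0 ≤ β → β ≤ 1 →
      1 ≤ |t| → |t| ≤ (x : ℝ) ^ (3 : ℕ) →
      ‖∑ n ∈ Ioc a b, ψ n * ee (t * Real.log (n + β))‖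
        ≤ K * Real.log x * (1 / |t| + (x : ℝ) ^ (-δ)) := by
  obtain ⟨δ1, C, hδ1, hδ1', hC, x1, hx1⟩ := ks1 (kap / 2) (by linarith)
  have ev1 : ∀ᶠ x : ℕ in Filter.atTop, (4 : ℝ) ≤ (x : ℝ) ^ (kap / 2) :=
    ((tendsto_rpow_atTop (by linarith : 0 < kap / 2)).comp
      tendsto_natCast_atTop_atTop).eventually_ge_atTop 4
  have ev2 : ∀ᶠ x : ℕ in Filter.atTop, C + 1 ≤ Real.log x :=
    (Real.tendsto_log_atTop.comp tendsto_natCast_atTop_atTop).eventually_ge_atTop (C + 1)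
  obtain ⟨x2, hx2⟩ := Filter.eventually_atTop.1 ev1
  obtain ⟨x3, hx3⟩ := Filter.eventually_atTop.1 ev2
  refine ⟨min δ1 (kap / 2), lt_min hδ1 (by linarith), (min_le_left _ _).trans hδ1',
    max (max x1 x2) (max x3 1), ?_⟩
  intro x hx K d a b ψ β t hK hKx hd hdK hper hψ hb hβ0 hβ1 ht1 ht2
  have hxa : x1 ≤ x := (le_max_left _ _).trans ((le_max_left _ _).trans hx)
  have hxb : x2 ≤ x := (le_max_right _ _).trans ((le_max_left _ _).trans hx)
  have hxc : x3 ≤ x := (le_max_left _ _).trans ((le_max_right _ _).trans hx)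
  have hxd : 1 ≤ x := (le_max_right _ _).trans ((le_max_right _ _).trans hx)
  have hxr : (1 : ℝ) ≤ x := by exact_mod_cast hxd
  have hdr : (1 : ℝ) ≤ d := by exact_mod_cast hd
  have hd0 : (d : ℝ) ≠ 0 := by positivity
  have hlog := hx3 x hxc
  have hy := hx2 x hxb
  set y : ℝ := (x : ℝ) ^ (kap / 2) with hydef
  have hyK : y ^ 2 ≤ K := by
    refine le_trans (le_of_eq ?_) hK
    rw [hydef, ← Real.rpow_natCast, ← Real.rpow_mul (by linarith)]
    congr 1
    push_cast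
    ring
  have hK' : y ≤ ((K / d : ℕ) : ℝ) := ksap_real K d y hy hyK hd hdK
  have hdKK : (d : ℝ) * ((K / d : ℕ) : ℝ) ≤ K := by exact_mod_cast Nat.mul_div_le K d
  have hK'x : K / d ≤ x := (Nat.div_le_self K d).trans hKx
  set B : ℝ := C * ((K / d : ℕ) : ℝ) * (1 / |t| + (x : ℝ) ^ (-δ1)) with hBdef
  -- the sum over a class
  have hcl : ∀ l ∈ range d, ‖∑ n ∈ (Ioc a b).filter (fun n => n % d = l),
      ψ n * ee (t * Real.log (n + β))‖ ≤ 1 + B := by
    intro l hl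
    have hl1 := mem_range.1 hl
    have e1 : (Ioc a b).filter (fun n => n % d = l)
        = ((range (b + 1)).filter (fun k => a < l + d * k ∧ l + d * k ≤ b)).image
          (fun k => l + d * k) := by
      ext n
      simp only [mem_filter, mem_Ioc, mem_image, mem_range]
      constructor
      · rintro ⟨⟨h1, h2⟩, h3⟩
        have h4 : n % d + d * (n / d) = n := Nat.mod_add_div n d
        have h5 : n / d ≤ n := Nat.div_le_self n d
        refine ⟨n / d, ⟨by omega, ?_, ?_⟩, ?_⟩ <;> rw [← h3, h4] <;> assumption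
      · rintro ⟨k, ⟨h1, h2, h3⟩, rfl⟩
        exact ⟨⟨h2, h3⟩, by rw [Nat.add_mul_mod_self_left, Nat.mod_eq_of_lt hl1]⟩
    have hinj : Set.InjOn (fun k => l + d * k)
        ((range (b + 1)).filter (fun k => a < l + d * k ∧ l + d * k ≤ b) : Finset ℕ) := by
      intro u _ v _ huv
      have : d * u = d * v := by simpa using huv
      exact Nat.eq_of_mul_eq_mul_left (by omega) this
    rw [e1, sum_image hinj]
    have hβl0 : 0 ≤ ((l : ℝ) + β) / d := by positivity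
    have hβl1 : ((l : ℝ) + β) / d ≤ 1 := by
      rw [div_le_one (by linarith)]
      have : ((l + 1 : ℕ) : ℝ) ≤ d := by exact_mod_cast hl1
      push_cast at this
      linarith
    have e2 : ∑ k ∈ (range (b + 1)).filter (fun k => a < l + d * k ∧ l + d * k ≤ b),
        ψ (l + d * k) * ee (t * Real.log (((l + d * k : ℕ) : ℝ) + β))
        = (ψ l * ee (t * Real.log d)) *
          ∑ k ∈ (range (b + 1)).filter (fun k => a < l + d * k ∧ l + d * k ≤ b),
            ee (t * Real.log ((k : ℝ) + ((l : ℝ) + β) / d)) := by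
      rw [mul_sum]
      apply sum_congr rfl
      intro k hk
      have hk1 := (mem_filter.1 hk).2.1
      have hpos : (0 : ℝ) < l + d * k := by
        have : 0 < l + d * k := by omega
        exact_mod_cast this
      have h1 : (((l + d * k : ℕ) : ℝ) + β) = d * ((k : ℝ) + ((l : ℝ) + β) / d) := by
        push_cast
        field_simp
        ring
      have h2 : 0 < (k : ℝ) + ((l : ℝ) + β) / d := by
        have h3 : (k : ℝ) + ((l : ℝ) + β) / d = (l + d * k + β) / d := by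
          field_simp
          ring
        rw [h3]
        apply div_pos _ (by linarith)
        linarith
      rw [ksap_per ψ d hper, h1, Real.log_mul hd0 h2.ne', mul_add, ksap_ee_add]
      ring
    rw [e2, norm_mul, norm_mul, ksap_ee_norm, mul_one]
    have h3 := ksap_class (fun k => ee (t * Real.log ((k : ℝ) + ((l : ℝ) + β) / d)))
      (fun n => (ksap_ee_norm _).le) B (K / d) a b d l hd (Nat.div_le_div_right hb)
      (fun a' b' hb' => hx1 x hxa (K / d) a' b' (((l : ℝ) + β) / d) t hK' hK'x hb' hβl0 hβl1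
        ht1 ht2)
    calc ‖ψ l‖ * _ ≤ 1 * (1 + B) := mul_le_mul (hψ l) h3 (norm_nonneg _) zero_le_one
      _ = 1 + B := one_mul _
  have e3 : ∑ n ∈ Ioc a b, ψ n * ee (t * Real.log (n + β))
      = ∑ l ∈ range d, ∑ n ∈ (Ioc a b).filter (fun n => n % d = l),
        ψ n * ee (t * Real.log (n + β)) := by
    rw [sum_fiberwise_of_maps_to]
    intro n _
    exact mem_range.2 (Nat.mod_lt n (by omega))
  rw [e3]
  refine (norm_sum_le _ _).trans ((sum_le_sum hcl).trans ?_)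
  rw [sum_const, card_range, nsmul_eq_mul]
  have htp : 0 < |t| := by linarith
  have hmin1 : (x : ℝ) ^ (-δ1) ≤ (x : ℝ) ^ (-(min δ1 (kap / 2))) :=
    Real.rpow_le_rpow_of_exponent_le hxr (neg_le_neg (min_le_left _ _))
  have hmin2 : (x : ℝ) ^ (-(kap / 2)) ≤ (x : ℝ) ^ (-(min δ1 (kap / 2))) :=
    Real.rpow_le_rpow_of_exponent_le hxr (neg_le_neg (min_le_right _ _))
  set Z : ℝ := (x : ℝ) ^ (-(min δ1 (kap / 2))) with hZ
  have hZ0 : 0 ≤ Z := by positivity
  have hdZ : (d : ℝ) ≤ K * Z := by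
    have h1 : (d : ℝ) * y ≤ K := (mul_le_mul_of_nonneg_left hK' (by linarith)).trans hdKK
    have h2 : (x : ℝ) ^ (-(kap / 2)) * y = 1 := by
      rw [hydef, ← Real.rpow_add (by linarith)]; simp
    calc (d : ℝ) = (d * y) * (x : ℝ) ^ (-(kap / 2)) := by
          rw [mul_assoc, mul_comm y, h2, mul_one]
      _ ≤ K * Z := by
          apply mul_le_mul h1 hmin2 (by positivity) (Nat.cast_nonneg _)
  have hB2 : (d : ℝ) * B ≤ C * K * (1 / |t| + Z) := by
    calc (d : ℝ) * B = C * (d * ((K / d : ℕ) : ℝ)) * (1 / |t| + (x : ℝ) ^ (-δ1)) := by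
          rw [hBdef]; ring
      _ ≤ C * K * (1 / |t| + Z) := by
          gcongr
  have hKn : (0 : ℝ) ≤ K := Nat.cast_nonneg _
  have htn : 0 ≤ 1 / |t| := by positivity
  calc (d : ℝ) * (1 + B) = d + d * B := by ring
    _ ≤ K * Z + C * K * (1 / |t| + Z) := add_le_add hdZ hB2
    _ ≤ (C + 1) * (K * (1 / |t| + Z)) := by nlinarith [mul_nonneg hKn htn]
    _ ≤ Real.log x * (K * (1 / |t| + Z)) := by
        apply mul_le_mul_of_nonneg_right hlog (by positivity)
    _ = K * Real.log x * (1 / |t| + Z) := by ring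

end Pool.Agent.H35.W

end

section

/-!
# LV TyI: type I sums, pointwise

Proof.  (1) `gE (c/d) t (a b) = ee(a b c/d) ee(t log a) ee(t log b)` (`gE_mul`); `ψ(b) = ee(a b c/d)` has period `d` and norm 1;
`ksap (1/8)` with `β = 0`, `K = K`, interval `Ioc 0 j`, `j ≤ K`, gives for EVERY `j ≤ K`:
`|W(j)| ≤ K L (1/|t| + x^{-δ})`, `W(j) = ∑_{b ≤ j} gE (c/d) t (a b)` (`d^4 ≤ L^{4A} ≤ x^{1/8} ≤ K`, `x^2 ≤ x^3`).
(2) Abel summation: `∑_{b ≤ K} log b w_b = W(K) log K - ∑_{j < K} W(j) (log(j+1) - log j)`, so it is at most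
`2 log K max |W(j)| ≤ 2 K L^2 (1/|t| + x^{-δ})`.  `δ` is the one of `ksap (1/8)`, independent of `A`.  (Compare `GB/TypeI.lean`, `typeI_abel`, `ty1log`.)
-/

set_option autoImplicit false

namespace Pool.Agent.H80.LV

open Finset
open Pool.Agent.H91.PK (ee)

private theorem TyI_ee_int (k : ℤ) : ee (k : ℝ) = 1 := by
  unfold ee
  have h := Complex.exp_int_mul_two_pi_mul_I k
  rw [← h]
  congr 1
  push_cast
  ring

/-- Abel summation with logarithms. -/
private theorem TyI_abel (w : ℕ → ℂ) (X : ℕ) :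
    ∑ b ∈ Icc 1 X, ((Real.log b : ℝ) : ℂ) * w b =
      ∑ i ∈ Ico 1 X, ((Real.log (i + 1 : ℕ) - Real.log i : ℝ) : ℂ) * ∑ b ∈ Ioc i X, w b := by
  induction X with
  | zero => simp
  | succ X ih =>
    rcases Nat.eq_zero_or_pos X with rfl | hX
    · simp
    rw [Finset.sum_Icc_succ_top (by omega), ih, Finset.sum_Ico_succ_top hX]
    have h1 : ∀ i ∈ Ico 1 X, ((Real.log (i + 1 : ℕ) - Real.log i : ℝ) : ℂ) *
        ∑ b ∈ Ioc i (X + 1), w b =
        ((Real.log (i + 1 : ℕ) - Real.log i : ℝ) : ℂ) * ∑ b ∈ Ioc i X, w b +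
          ((Real.log (i + 1 : ℕ) - Real.log i : ℝ) : ℂ) * w (X + 1) := by
      intro i hi
      rw [mem_Ico] at hi
      rw [← mul_add]
      congr 1
      rw [Finset.sum_Ioc_succ_top (by omega)]
    rw [Finset.sum_congr rfl h1, Finset.sum_add_distrib, ← Finset.sum_mul]
    have h2 : ∑ i ∈ Ico 1 X, ((Real.log (i + 1 : ℕ) - Real.log i : ℝ) : ℂ) =
        ((Real.log X : ℝ) : ℂ) := by
      rw [← Complex.ofReal_sum]
      congr 1
      have h3 := Finset.sum_Ico_sub (fun i : ℕ => Real.log i) (show 1 ≤ X from hX)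
      rw [h3]
      simp
    rw [h2, Nat.Ioc_succ_singleton, Finset.sum_singleton]
    push_cast
    ring

theorem tyI : ∃ δ : ℝ, 0 < δ ∧ δ ≤ 1 ∧ ∀ A : ℕ, ∃ x0 : ℕ, ∀ x : ℕ, x0 ≤ x →
    ∀ (a K d : ℕ) (c : ℤ) (t : ℝ), 1 ≤ a → 1 ≤ d → (d : ℝ) ≤ Real.log x ^ A →
      (x : ℝ) ^ (1 / 8 : ℝ) ≤ K → K ≤ x → 1 ≤ |t| → |t| ≤ (x : ℝ) ^ (2 : ℕ) →
      ‖∑ b ∈ Icc 1 K, gE ((c : ℝ) / d) t (a * b)‖
        ≤ K * Real.log x * (1 / |t| + (x : ℝ) ^ (-δ)) ∧
      ‖∑ b ∈ Icc 1 K, ((Real.log b : ℝ) : ℂ) * gE ((c : ℝ) / d) t (a * b)‖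
        ≤ 2 * K * Real.log x ^ 2 * (1 / |t| + (x : ℝ) ^ (-δ)) := by
  obtain ⟨δ, hδ0, hδ1, x1, hx1⟩ := Pool.Agent.H35.W.ksap (1 / 8) (by norm_num)
  refine ⟨δ, hδ0, hδ1, fun A => ?_⟩
  obtain ⟨x2, hx2⟩ := log_pow_le (1 / 8) 1 (by norm_num) (by norm_num) (4 * A)
  refine ⟨max (max x1 x2) 1, ?_⟩
  intro x hx a K d c t ha hd hdA hKbig hKx ht1 ht2
  have hxa : x1 ≤ x := (le_max_left _ _).trans ((le_max_left _ _).trans hx)
  have hxb : x2 ≤ x := (le_max_right _ _).trans ((le_max_left _ _).trans hx)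
  have hxd : 1 ≤ x := (le_max_right _ _).trans hx
  have hxr : (1 : ℝ) ≤ x := by exact_mod_cast hxd
  have har : (1 : ℝ) ≤ a := by exact_mod_cast ha
  have hdr : (1 : ℝ) ≤ d := by exact_mod_cast hd
  have hlog : 0 ≤ Real.log x := Real.log_nonneg hxr
  have htp : 0 < |t| := by linarith only [ht1]
  have hpow0 : (0 : ℝ) ≤ (x : ℝ) ^ (-δ) := Real.rpow_nonneg (by linarith only [hxr]) _
  have hKr : (1 : ℝ) ≤ K := (Real.one_le_rpow hxr (by norm_num)).trans hKbig
  have hK1 : 1 ≤ K := by exact_mod_cast hKr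
  have hdK : d ^ 4 ≤ K := by
    have h1 : (d : ℝ) ^ 4 ≤ (Real.log x ^ A) ^ 4 := pow_le_pow_left₀ (by linarith only [hdr]) hdA 4
    have h2 := hx2 x hxb
    have h3 : (Real.log x ^ A) ^ 4 = 1 * Real.log x ^ (4 * A) := by
      rw [one_mul, ← pow_mul, mul_comm]
    have h4 : ((d ^ 4 : ℕ) : ℝ) ≤ K := by
      push_cast
      exact h1.trans ((h3.le.trans h2).trans hKbig)
    exact_mod_cast h4
  -- all intervals
  have key : ∀ i : ℕ, ‖∑ b ∈ Ioc i K, gE ((c : ℝ) / d) t (a * b)‖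
      ≤ K * Real.log x * (1 / |t| + (x : ℝ) ^ (-δ)) := by
    intro i
    have hterm : ∀ b ∈ Ioc i K, gE ((c : ℝ) / d) t (a * b) =
        ee (t * Real.log a) * (ee ((a : ℝ) * b * ((c : ℝ) / d)) *
          ee (t * Real.log ((b : ℝ) + 0))) := by
      intro b hb
      rw [mem_Ioc] at hb
      rw [gE_mul _ _ a b ha (by omega), add_zero]
      ring
    rw [Finset.sum_congr rfl hterm, ← Finset.mul_sum, norm_mul, Pool.Agent.H91.PK.LSa_norm_ee,
      one_mul]
    refine hx1 x hxa K d i K (fun j => ee ((a : ℝ) * j * ((c : ℝ) / d))) 0 t hKbig hKx hd hdK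
      ?_ (fun n => (Pool.Agent.H91.PK.LSa_norm_ee _).le) le_rfl le_rfl zero_le_one ht1 ?_
    · intro n
      have hd0 : (d : ℝ) ≠ 0 := by positivity
      have h1 : (a : ℝ) * ((n + d : ℕ) : ℝ) * ((c : ℝ) / d) =
          (a : ℝ) * n * ((c : ℝ) / d) + (((a : ℤ) * c : ℤ) : ℝ) := by
        push_cast
        field_simp
      rw [h1, Pool.Agent.H91.PK.LSa_ee_add, TyI_ee_int, mul_one]
    · refine ht2.trans ?_
      exact pow_le_pow_right₀ hxr (by norm_num)
  have hB0 : 0 ≤ K * Real.log x * (1 / |t| + (x : ℝ) ^ (-δ)) := by positivity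
  constructor
  · have h1 : Icc 1 K = Ioc 0 K := by
      ext b
      simp only [mem_Icc, mem_Ioc]
      omega
    rw [h1]
    exact key 0
  · rw [TyI_abel]
    refine (norm_sum_le _ _).trans ?_
    have h1 : ∀ i ∈ Ico 1 K, ‖((Real.log (i + 1 : ℕ) - Real.log i : ℝ) : ℂ) *
        ∑ b ∈ Ioc i K, gE ((c : ℝ) / d) t (a * b)‖ ≤
        (Real.log (i + 1 : ℕ) - Real.log i) * (K * Real.log x * (1 / |t| + (x : ℝ) ^ (-δ))) := by
      intro i hi
      rw [mem_Ico] at hi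
      have h2 : 0 ≤ Real.log (i + 1 : ℕ) - Real.log i := by
        have h3 : Real.log i ≤ Real.log (i + 1 : ℕ) := by
          apply Real.log_le_log
          · exact_mod_cast hi.1
          · push_cast
            linarith only
        linarith only [h3]
      rw [norm_mul, Complex.norm_real, Real.norm_eq_abs, abs_of_nonneg h2]
      exact mul_le_mul_of_nonneg_left (key i) h2
    refine (Finset.sum_le_sum h1).trans ?_
    rw [← Finset.sum_mul, Finset.sum_Ico_sub (fun i : ℕ => Real.log i) hK1]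
    have h2 : Real.log (K : ℝ) - Real.log ((1 : ℕ) : ℝ) ≤ Real.log x := by
      rw [Nat.cast_one, Real.log_one, sub_zero]
      apply Real.log_le_log
      · linarith only [hKr]
      · exact_mod_cast hKx
    have h3 : Real.log x * (K * Real.log x * (1 / |t| + (x : ℝ) ^ (-δ))) =
        K * Real.log x ^ 2 * (1 / |t| + (x : ℝ) ^ (-δ)) := by ring
    have h4 : 0 ≤ K * Real.log x ^ 2 * (1 / |t| + (x : ℝ) ^ (-δ)) := by positivity
    calc _ ≤ Real.log x * (K * Real.log x * (1 / |t| + (x : ℝ) ^ (-δ))) :=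
          mul_le_mul_of_nonneg_right h2 hB0
      _ ≤ 2 * K * Real.log x ^ 2 * (1 / |t| + (x : ℝ) ^ (-δ)) := by
          rw [h3]
          linarith only [h4]

end Pool.Agent.H80.LV

end
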