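import Pool.Agent.H43.PS.H91.PK.Defs

/-! The parts of this file: H76.EHB.Defs, H35.W.Defs, H76.EHB.Lap, H76.EHB.Vdc1, H43.LM.Defs, H91.PK.DiA, H92.EH.Totient, H91.GoldWeight. -/

section

/-!
# PROJECT EHB (MP_a78e8f_nt): common definitions

The exponential sum `FF f N θ = ∑_{n ≤ N} f(n) e(n θ)`, `S2 f N = ∑_{n ≤ N} f(n)^2`, the set `ks K` of the
integers `k ≠ 0` with `|k| ≤ K`, the Gaussian weight `wt A u = exp(-π (u/A)^2)`.
-/

set_option autoImplicit false

namespace Pool.Agent.H76.EHB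

open Finset MeasureTheory
open Pool.Agent.H91.PK (ee)

/-- `∑_{n ≤ N} f(n) e(n θ)` -/
noncomputable def FF (f : ℕ → ℝ) (N : ℕ) (θ : ℝ) : ℂ := ∑ n ∈ Icc 1 N, (f n : ℂ) * ee (n * θ)

/-- `∑_{n ≤ N} f(n)^2` -/
noncomputable def S2 (f : ℕ → ℝ) (N : ℕ) : ℝ := ∑ n ∈ Icc 1 N, f n ^ 2

end Pool.Agent.H76.EHB

end

section

/-!
# PROJECT W (MP_a78e8f_nt): common definitions

Elliott-Halberstam with the saving `(log x)^(-1/2+o(1))` for almost all residues `a` in every interval of
length `x^ε`.  Notation: `L = log x`, `f = hR R` with `R = ⌊L^20⌋`, `ee(t) = exp(2 π i t)`.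
`FF f N θ = ∑_{n ≤ N} f(n) ee(n θ)`, `S2 f N = ∑_{n ≤ N} f(n)^2`, `ZZ S t = ∑_{k ∈ S} k^{-1/2 + i t}`,
`Mel g t = ∫_0^∞ g(θ) θ^{-1/2 - i t} dθ`, `II S g = ∫_0^∞ |∑_{k ∈ S} g(k y)|^2 dy` are those of EHB.
-/

set_option autoImplicit false

namespace Pool.Agent.H35.W

open Finset MeasureTheory
open Pool.Agent.H91.PK (ee)
open Pool.Agent.H76.EHB

/-- the primes of the block `(P, 2P]` -/
def pb (P : ℕ) : Finset ℕ := (Ioc P (2 * P)).filter Nat.Prime

/-- `k` has no prime factor in the blocks `pb (P 2^i)`, `i < J`, i.e. in `(P, P 2^J]` -/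
def Rk (P J k : ℕ) : Prop := ∀ i, i < J → ∀ p ∈ pb (P * 2 ^ i), ¬ p ∣ k

open Classical in
/-- the `k ≤ y` without prime factor in `(P, P 2^J]` -/
noncomputable def rgh (P J y : ℕ) : Finset ℕ := (Icc 1 y).filter (fun k => Rk P J k)

/-- the correlation of `g` with `ee(n α + t log (n - a0))` on `(M, y]` -/
noncomputable def cor (g : ℕ → ℝ) (a0 M : ℕ) (α t : ℝ) (y : ℕ) : ℂ :=
  ∑ n ∈ Ioc M y, (g n : ℂ) * ee (n * α + t * Real.log ((n : ℝ) - a0))

/-- the exponentially damped exponential sum -/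
noncomputable def ge (f : ℕ → ℝ) (N : ℕ) (α a Θ s θ : ℝ) : ℂ :=
  if 0 < θ then FF f N (α + s * θ) * ee (-(a * s * θ)) * ((Real.exp (-(θ / Θ)) : ℝ) : ℂ) else 0

end Pool.Agent.H35.W

end

section

/-!
# EHB Lap: iterated differences of `1/(x+β)`

`LL hs β x = ∫_0^∞ exp(-(x+β) s) ∏_{h ∈ hs} (1 - exp(-h s)) ds` for `x + β > 0`, all `h > 0`.
`LL_nil`: `1/(x+β)`.  `LL_cons`: `(1 - e^{-hs}) e^{-(x+β)s} = e^{-(x+β)s} - e^{-(x+h+β)s}`.
`LL_le`, `LL_ge`: `h s e^{-hs} ≤ 1 - e^{-hs} ≤ h s` and `∫_0^∞ e^{-c s} s^J ds = J!/c^{J+1}` (`Real.integral_rpow_mul_exp_neg_mul_Ioi` or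
`integral_exp_neg_mul_rpow`...).
`LL_deriv`: by induction on `hs` from `LL_cons` (derivative of `LL (h :: hs)` at `x` is the difference of the derivatives), the derivative at `x`
is `-∫_0^∞ s exp(-(x+β)s) ∏(1 - e^{-hs}) ds ≤ 0`; it may be simplest to define `LD` by this integral, prove `LD_nil` (`1/(x+β)^2`), `LD_cons`,
`0 ≤ LD`, `HasDerivAt (LL hs β) (-LD hs β x) x`, and the continuity of `LD` by the same induction.
-/

set_option autoImplicit false

namespace Pool.Agent.H76.EHB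

open MeasureTheory

noncomputable def LL (hs : List ℝ) (β x : ℝ) : ℝ :=
  ∫ s in Set.Ioi (0 : ℝ), Real.exp (-(x + β) * s) * (hs.map (fun h => 1 - Real.exp (-h * s))).prod

noncomputable def LD (hs : List ℝ) (β x : ℝ) : ℝ :=
  ∫ s in Set.Ioi (0 : ℝ), s * (Real.exp (-(x + β) * s) * (hs.map (fun h => 1 - Real.exp (-h * s))).prod)

private lemma lap_prod_nonneg (hs : List ℝ) (hpos : ∀ g ∈ hs, 0 < g) {s : ℝ} (h0 : 0 < s) :
    0 ≤ (hs.map (fun h => 1 - Real.exp (-h * s))).prod := by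
  induction hs with
  | nil => simp
  | cons a l ih =>
    rw [List.map_cons, List.prod_cons]
    have ha : 0 < a := hpos a (by simp)
    have h1 : Real.exp (-a * s) ≤ 1 := by
      rw [Real.exp_le_one_iff]
      nlinarith
    exact mul_nonneg (by linarith) (ih (fun g hg => hpos g (by simp [hg])))

private lemma lap_prod_le_one (hs : List ℝ) (hpos : ∀ g ∈ hs, 0 < g) {s : ℝ} (h0 : 0 < s) :
    (hs.map (fun h => 1 - Real.exp (-h * s))).prod ≤ 1 := by
  induction hs with
  | nil => simp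
  | cons a l ih =>
    rw [List.map_cons, List.prod_cons]
    have h1 : 0 < Real.exp (-a * s) := Real.exp_pos _
    have h2 := ih (fun g hg => hpos g (by simp [hg]))
    have h3 := lap_prod_nonneg l (fun g hg => hpos g (by simp [hg])) h0
    have ha : 0 < a := hpos a (by simp)
    have h4 : Real.exp (-a * s) ≤ 1 := by
      rw [Real.exp_le_one_iff]
      nlinarith
    calc (1 - Real.exp (-a * s)) * (l.map (fun h => 1 - Real.exp (-h * s))).prod
        ≤ 1 * 1 := mul_le_mul (by linarith) h2 h3 (by norm_num)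
      _ = 1 := by norm_num

private lemma lap_prod_le (hs : List ℝ) (hpos : ∀ g ∈ hs, 0 < g) {s : ℝ} (h0 : 0 < s) :
    (hs.map (fun h => 1 - Real.exp (-h * s))).prod ≤ hs.prod * s ^ hs.length := by
  induction hs with
  | nil => simp
  | cons a l ih =>
    rw [List.map_cons, List.prod_cons, List.prod_cons, List.length_cons]
    have h2 := ih (fun g hg => hpos g (by simp [hg]))
    have h3 := lap_prod_nonneg l (fun g hg => hpos g (by simp [hg])) h0
    have ha : 0 < a := hpos a (by simp)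
    have h4 : 1 - Real.exp (-a * s) ≤ a * s := by
      have := Real.add_one_le_exp (-a * s)
      nlinarith
    calc (1 - Real.exp (-a * s)) * (l.map (fun h => 1 - Real.exp (-h * s))).prod
        ≤ (a * s) * (l.prod * s ^ l.length) := mul_le_mul h4 h2 h3 (by positivity)
      _ = a * l.prod * s ^ (l.length + 1) := by ring

private lemma lap_prod_pos (hs : List ℝ) (hpos : ∀ g ∈ hs, 0 < g) : 0 < hs.prod := by
  induction hs with
  | nil => simp
  | cons a l ih =>
    rw [List.prod_cons]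
    exact mul_pos (hpos a (by simp)) (ih (fun g hg => hpos g (by simp [hg])))

private lemma lap_sum_nonneg (hs : List ℝ) (hpos : ∀ g ∈ hs, 0 < g) : 0 ≤ hs.sum := by
  induction hs with
  | nil => simp
  | cons a l ih =>
    rw [List.sum_cons]
    have := hpos a (by simp)
    have := ih (fun g hg => hpos g (by simp [hg]))
    linarith

private lemma lap_prod_ge (hs : List ℝ) (hpos : ∀ g ∈ hs, 0 < g) {s : ℝ} (h0 : 0 < s) :
    hs.prod * s ^ hs.length * Real.exp (-hs.sum * s) ≤
      (hs.map (fun h => 1 - Real.exp (-h * s))).prod := by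
  induction hs with
  | nil => simp
  | cons a l ih =>
    rw [List.map_cons, List.prod_cons, List.prod_cons, List.length_cons, List.sum_cons]
    have h2 := ih (fun g hg => hpos g (by simp [hg]))
    have hl := lap_prod_pos l (fun g hg => hpos g (by simp [hg]))
    have h3 := lap_prod_nonneg l (fun g hg => hpos g (by simp [hg])) h0
    have ha : 0 < a := hpos a (by simp)
    have h4 : a * s * Real.exp (-a * s) ≤ 1 - Real.exp (-a * s) := by
      have h5 := Real.add_one_le_exp (a * s)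
      have h6 : Real.exp (a * s) * Real.exp (-a * s) = 1 := by
        rw [← Real.exp_add]; simp
      have h7 := Real.exp_pos (-a * s)
      nlinarith [mul_le_mul_of_nonneg_right h5 h7.le]
    have h8 : Real.exp (-(a + l.sum) * s) = Real.exp (-a * s) * Real.exp (-l.sum * s) := by
      rw [← Real.exp_add]; ring_nf
    calc a * l.prod * s ^ (l.length + 1) * Real.exp (-(a + l.sum) * s)
        = (a * s * Real.exp (-a * s)) * (l.prod * s ^ l.length * Real.exp (-l.sum * s)) := by
          rw [h8]; ring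
      _ ≤ (1 - Real.exp (-a * s)) * (l.map (fun h => 1 - Real.exp (-h * s))).prod := by
          apply mul_le_mul h4 h2 (by positivity)
          exact le_trans (by positivity) h4

private lemma lap_cont (hs : List ℝ) :
    Continuous (fun s : ℝ => (hs.map (fun h => 1 - Real.exp (-h * s))).prod) := by
  induction hs with
  | nil => simpa using continuous_const
  | cons a l ih =>
    simp only [List.map_cons, List.prod_cons]
    fun_prop

private lemma lap_pow_int (n : ℕ) {c : ℝ} (hc : 0 < c) :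
    IntegrableOn (fun s : ℝ => s ^ n * Real.exp (-c * s)) (Set.Ioi 0) := by
  have h := integrableOn_rpow_mul_exp_neg_mul_rpow (p := 1) (s := (n : ℝ)) (b := c)
    (by have : (0 : ℝ) ≤ n := Nat.cast_nonneg n
        linarith) one_pos hc
  refine h.congr_fun (fun s _ => ?_) measurableSet_Ioi
  simp [Real.rpow_natCast]

private lemma lap_pow_integral (n : ℕ) {c : ℝ} (hc : 0 < c) :
    ∫ s in Set.Ioi (0 : ℝ), s ^ n * Real.exp (-c * s) = (n.factorial : ℝ) / c ^ (n + 1) := by
  have h := Real.integral_rpow_mul_exp_neg_mul_Ioi (a := (n : ℝ) + 1) (r := c) (by positivity) hc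
  have h1 : ∫ s in Set.Ioi (0 : ℝ), s ^ n * Real.exp (-c * s)
      = ∫ t : ℝ in Set.Ioi 0, t ^ ((n : ℝ) + 1 - 1) * Real.exp (-(c * t)) := by
    apply setIntegral_congr_fun measurableSet_Ioi
    intro s _
    simp [Real.rpow_natCast]
  rw [h1, h, Real.Gamma_nat_eq_factorial]
  have h2 : (1 / c) ^ ((n : ℝ) + 1) = 1 / c ^ (n + 1) := by
    have : ((n : ℝ) + 1) = ((n + 1 : ℕ) : ℝ) := by push_cast; ring
    rw [this, Real.rpow_natCast, one_div, one_div, inv_pow]
  rw [h2]
  ring

private lemma lap_int (hs : List ℝ) (hpos : ∀ g ∈ hs, 0 < g) {c : ℝ} (hc : 0 < c) :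
    IntegrableOn (fun s : ℝ => Real.exp (-c * s) * (hs.map (fun h => 1 - Real.exp (-h * s))).prod)
      (Set.Ioi 0) := by
  have h := lap_pow_int 0 hc
  refine Integrable.mono' h ?_ ?_
  · exact (Continuous.aestronglyMeasurable (by
      have := lap_cont hs
      fun_prop))
  · refine (ae_restrict_iff' measurableSet_Ioi).mpr (Filter.Eventually.of_forall (fun s hs0 => ?_))
    have h0 : 0 < s := hs0
    have h1 := lap_prod_nonneg hs hpos h0
    have h2 := lap_prod_le_one hs hpos h0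
    have h3 := Real.exp_pos (-c * s)
    rw [Real.norm_of_nonneg (by positivity)]
    simp only [pow_zero, one_mul]
    nlinarith

private lemma lap_int' (hs : List ℝ) (hpos : ∀ g ∈ hs, 0 < g) {c : ℝ} (hc : 0 < c) :
    IntegrableOn (fun s : ℝ =>
      s * (Real.exp (-c * s) * (hs.map (fun h => 1 - Real.exp (-h * s))).prod)) (Set.Ioi 0) := by
  have h := lap_pow_int 1 hc
  refine Integrable.mono' h ?_ ?_
  · exact (Continuous.aestronglyMeasurable (by
      have := lap_cont hs
      fun_prop))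
  · refine (ae_restrict_iff' measurableSet_Ioi).mpr (Filter.Eventually.of_forall (fun s hs0 => ?_))
    have h0 : 0 < s := hs0
    have h1 := lap_prod_nonneg hs hpos h0
    have h2 := lap_prod_le_one hs hpos h0
    have h3 := Real.exp_pos (-c * s)
    rw [Real.norm_of_nonneg (by positivity)]
    simp only [pow_one]
    apply mul_le_mul_of_nonneg_left _ h0.le
    nlinarith

theorem LL_nil (β x : ℝ) (hx : 0 < x + β) : LL [] β x = 1 / (x + β) := by
  have h := lap_pow_integral 0 hx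
  simp only [pow_zero, one_mul, Nat.factorial_zero, Nat.cast_one, zero_add, pow_one] at h
  simpa [LL] using h

theorem LL_cons (h : ℝ) (hs : List ℝ) (β x : ℝ) (hx : 0 < x + β) (hh : 0 < h) (hpos : ∀ g ∈ hs, 0 < g) :
    LL (h :: hs) β x = LL hs β x - LL hs β (x + h) := by
  have h1 := lap_int hs hpos hx
  have h2 := lap_int hs hpos (c := x + h + β) (by linarith)
  unfold LL
  rw [← integral_sub h1 h2]
  apply setIntegral_congr_fun measurableSet_Ioi
  intro s _
  simp only [List.map_cons, List.prod_cons]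
  have h3 : Real.exp (-(x + h + β) * s) = Real.exp (-(x + β) * s) * Real.exp (-h * s) := by
    rw [← Real.exp_add]; ring_nf
  rw [h3]
  ring

private lemma LD_nil (β x : ℝ) (hx : 0 < x + β) : LD [] β x = 1 / (x + β) ^ 2 := by
  have h := lap_pow_integral 1 hx
  simp only [pow_one, Nat.factorial_one, Nat.cast_one, one_add_one_eq_two] at h
  simpa [LD] using h

private lemma LD_cons (h : ℝ) (hs : List ℝ) (β x : ℝ) (hx : 0 < x + β) (hh : 0 < h)
    (hpos : ∀ g ∈ hs, 0 < g) :
    LD (h :: hs) β x = LD hs β x - LD hs β (x + h) := by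
  have h1 := lap_int' hs hpos hx
  have h2 := lap_int' hs hpos (c := x + h + β) (by linarith)
  unfold LD
  rw [← integral_sub h1 h2]
  apply setIntegral_congr_fun measurableSet_Ioi
  intro s _
  simp only [List.map_cons, List.prod_cons]
  have h3 : Real.exp (-(x + h + β) * s) = Real.exp (-(x + β) * s) * Real.exp (-h * s) := by
    rw [← Real.exp_add]; ring_nf
  rw [h3]
  ring

theorem LL_le (hs : List ℝ) (β x : ℝ) (hx : 0 < x + β) (hpos : ∀ g ∈ hs, 0 < g) :
    LL hs β x ≤ (hs.length.factorial : ℝ) * hs.prod / (x + β) ^ (hs.length + 1) := by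
  have h1 := lap_int hs hpos hx
  have h2 := (lap_pow_int hs.length hx).const_mul hs.prod
  have h3 : LL hs β x ≤ ∫ s in Set.Ioi (0 : ℝ),
      hs.prod * (s ^ hs.length * Real.exp (-(x + β) * s)) := by
    unfold LL
    apply setIntegral_mono_on h1 h2 measurableSet_Ioi
    intro s hs0
    have h0 : 0 < s := hs0
    have h4 := lap_prod_le hs hpos h0
    have h5 := Real.exp_pos (-(x + β) * s)
    nlinarith [mul_le_mul_of_nonneg_left h4 h5.le]
  rw [integral_const_mul, lap_pow_integral hs.length hx] at h3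
  calc LL hs β x ≤ hs.prod * ((hs.length.factorial : ℝ) / (x + β) ^ (hs.length + 1)) := h3
    _ = (hs.length.factorial : ℝ) * hs.prod / (x + β) ^ (hs.length + 1) := by ring

theorem LL_ge (hs : List ℝ) (β x : ℝ) (hx : 0 < x + β) (hpos : ∀ g ∈ hs, 0 < g) :
    (hs.length.factorial : ℝ) * hs.prod / (x + β + hs.sum) ^ (hs.length + 1) ≤ LL hs β x := by
  have h1 := lap_int hs hpos hx
  have hs0 := lap_sum_nonneg hs hpos
  have hx2 : 0 < x + β + hs.sum := by linarith
  have h2 := (lap_pow_int hs.length hx2).const_mul hs.prod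
  have h3 : ∫ s in Set.Ioi (0 : ℝ),
      hs.prod * (s ^ hs.length * Real.exp (-(x + β + hs.sum) * s)) ≤ LL hs β x := by
    unfold LL
    apply setIntegral_mono_on h2 h1 measurableSet_Ioi
    intro s hs0
    have h0 : 0 < s := hs0
    have h4 := lap_prod_ge hs hpos h0
    have h5 := Real.exp_pos (-(x + β) * s)
    have h6 : Real.exp (-(x + β + hs.sum) * s)
        = Real.exp (-(x + β) * s) * Real.exp (-hs.sum * s) := by
      rw [← Real.exp_add]; ring_nf
    rw [h6]
    calc hs.prod * (s ^ hs.length * (Real.exp (-(x + β) * s) * Real.exp (-hs.sum * s)))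
        = Real.exp (-(x + β) * s) * (hs.prod * s ^ hs.length * Real.exp (-hs.sum * s)) := by ring
      _ ≤ Real.exp (-(x + β) * s) * (hs.map (fun h => 1 - Real.exp (-h * s))).prod :=
          mul_le_mul_of_nonneg_left h4 h5.le
  rw [integral_const_mul, lap_pow_integral hs.length hx2] at h3
  calc (hs.length.factorial : ℝ) * hs.prod / (x + β + hs.sum) ^ (hs.length + 1)
      = hs.prod * ((hs.length.factorial : ℝ) / (x + β + hs.sum) ^ (hs.length + 1)) := by ring
    _ ≤ LL hs β x := h3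

theorem LD_nonneg (hs : List ℝ) (β x : ℝ) (hpos : ∀ g ∈ hs, 0 < g) : 0 ≤ LD hs β x := by
  unfold LD
  apply setIntegral_nonneg measurableSet_Ioi
  intro s hs0
  have h0 : 0 < s := hs0
  have h1 := lap_prod_nonneg hs hpos h0
  positivity

theorem LL_hasDerivAt (hs : List ℝ) (β x : ℝ) (hx : 0 < x + β) (hpos : ∀ g ∈ hs, 0 < g) :
    HasDerivAt (LL hs β) (-LD hs β x) x := by
  induction hs generalizing x with
  | nil =>
    rw [LD_nil β x hx]
    have h1 : HasDerivAt (fun y : ℝ => (y + β)⁻¹) (-1 / (x + β) ^ 2) x :=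
      ((hasDerivAt_id x).add_const β).inv hx.ne'
    have h2 : (LL [] β) =ᶠ[nhds x] (fun y : ℝ => (y + β)⁻¹) := by
      have h3 : ∀ᶠ y in nhds x, -β < y := lt_mem_nhds (by linarith)
      filter_upwards [h3] with y hy
      rw [LL_nil β y (by linarith), one_div]
    have h4 := h1.congr_of_eventuallyEq h2
    have h5 : -(1 / (x + β) ^ 2) = -1 / (x + β) ^ 2 := by ring
    rw [h5]
    exact h4
  | cons a l ih =>
    have ha : 0 < a := hpos a (by simp)
    have hl : ∀ g ∈ l, 0 < g := fun g hg => hpos g (by simp [hg])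
    rw [LD_cons a l β x hx ha hl]
    have h1 := ih x hx hl
    have h2 := (ih (x + a) (by linarith) hl).comp_add_const x a
    have h3 : (LL (a :: l) β) =ᶠ[nhds x] (fun y : ℝ => LL l β y - LL l β (y + a)) := by
      have h4 : ∀ᶠ y in nhds x, -β < y := lt_mem_nhds (by linarith)
      filter_upwards [h4] with y hy
      exact LL_cons a l β y (by linarith) ha hl
    have h5 := (h1.sub h2).congr_of_eventuallyEq h3
    have h6 : -(LD l β x - LD l β (x + a)) = -LD l β x - -LD l β (x + a) := by ring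
    rw [h6]
    exact h5

theorem LD_continuousOn (hs : List ℝ) (β : ℝ) (hpos : ∀ g ∈ hs, 0 < g) :
    ContinuousOn (LD hs β) (Set.Ioi (-β)) := by
  induction hs with
  | nil =>
    have h1 : ContinuousOn (fun y : ℝ => 1 / (y + β) ^ 2) (Set.Ioi (-β)) := by
      apply ContinuousOn.div continuousOn_const (by fun_prop)
      intro y hy
      have : 0 < y + β := by
        have : -β < y := hy
        linarith
      positivity
    refine h1.congr (fun y hy => ?_)
    have : -β < y := hy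
    exact LD_nil β y (by linarith)
  | cons a l ih =>
    have ha : 0 < a := hpos a (by simp)
    have hl : ∀ g ∈ l, 0 < g := fun g hg => hpos g (by simp [hg])
    have h1 := ih hl
    have h2 : ContinuousOn (fun y : ℝ => LD l β (y + a)) (Set.Ioi (-β)) := by
      refine h1.comp (by fun_prop) (fun y hy => ?_)
      have : -β < y := hy
      show -β < y + a
      linarith
    refine (h1.sub h2).congr (fun y hy => ?_)
    have : -β < y := hy
    exact LD_cons a l β y (by linarith) ha hl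

end Pool.Agent.H76.EHB

end

section

/-!
# EHB Vdc1: the inequality of Weyl and van der Corput

Put `z n = 0` outside `Ioc a b`.  `H ∑_n z_n = ∑_m ∑_{0 ≤ h < H} z_{m+h}` where `m` runs over at most `Y + H ≤ 2Y` integers; Cauchy:
`H^2 |∑ z|^2 ≤ (Y+H) ∑_m |∑_{h<H} z_{m+h}|^2 = (Y+H) ∑_{h1,h2<H} ∑_m z_{m+h1} conj z_{m+h2}
 ≤ (Y+H) (H Y + 2 H ∑_{h=1}^{H-1} |∑_n z_{n+h} conj z_n|)`, the inner sum over `n ∈ Ioc a (b-h)`.
(Work with integers or shift; with natural numbers take `m + h` with `m` from `a + 1 - H`: use `ℤ` or replace `z_{m+h}` by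
`z_{m-h}`, `m ∈ Ioc a (b + H)`.)
-/

set_option autoImplicit false

namespace Pool.Agent.H76.EHB

open Finset

private theorem vdc_shift (g : ℕ → ℂ) (c d h : ℕ) :
    ∑ n ∈ Ioc c d, g (n + h) = ∑ m ∈ Ioc (c + h) (d + h), g m := by
  rw [← Finset.map_add_right_Ioc, Finset.sum_map]
  simp

private theorem vdc_pair (z w : ℕ → ℂ) (a b H : ℕ)
    (hw1 : ∀ n ∈ Ioc a b, w n = z n) (hw0 : ∀ n, n ∉ Ioc a b → w n = 0) (h1 h2 : ℕ)
    (h12 : h1 ≤ h2) (h2H : h2 ≤ H) :
    ∑ m ∈ Ioc a (b + H), w (m - h1) * (starRingEnd ℂ) (w (m - h2))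
      = ∑ n ∈ Ioc a (b - (h2 - h1)), z (n + (h2 - h1)) * (starRingEnd ℂ) (z n) := by
  have e1 : ∑ n ∈ Ioc a (b - (h2 - h1)), z (n + (h2 - h1)) * (starRingEnd ℂ) (z n)
      = ∑ n ∈ Ioc a (b - (h2 - h1)), (fun m => w (m - h1) * (starRingEnd ℂ) (w (m - h2))) (n + h2) := by
    refine Finset.sum_congr rfl fun n hn => ?_
    rw [mem_Ioc] at hn
    show z (n + (h2 - h1)) * (starRingEnd ℂ) (z n)
      = w (n + h2 - h1) * (starRingEnd ℂ) (w (n + h2 - h2))
    have e2 : n + h2 - h2 = n := by omega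
    have e3 : n + h2 - h1 = n + (h2 - h1) := by omega
    rw [e2, e3, hw1 n (mem_Ioc.2 ⟨by omega, by omega⟩), hw1 _ (mem_Ioc.2 ⟨by omega, by omega⟩)]
  rw [e1, vdc_shift (fun m => w (m - h1) * (starRingEnd ℂ) (w (m - h2))) _ _ h2]
  symm
  apply Finset.sum_subset
  · intro m hm
    rw [mem_Ioc] at hm ⊢
    omega
  · intro m hm hm2
    rw [mem_Ioc] at hm hm2
    by_cases hc : m - h1 ∈ Ioc a b
    · have hc2 : m - h2 ∉ Ioc a b := by
        intro hc2
        rw [mem_Ioc] at hc hc2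
        apply hm2
        omega
      rw [hw0 _ hc2]; simp
    · rw [hw0 _ hc]; simp

private theorem vdc_single (z w : ℕ → ℂ) (a b H : ℕ)
    (hw1 : ∀ n ∈ Ioc a b, w n = z n) (hw0 : ∀ n, n ∉ Ioc a b → w n = 0) (h : ℕ) (hH : h ≤ H) :
    ∑ m ∈ Ioc a (b + H), w (m - h) = ∑ n ∈ Ioc a b, z n := by
  have e1 : ∑ n ∈ Ioc a b, z n = ∑ n ∈ Ioc a b, (fun m => w (m - h)) (n + h) := by
    refine Finset.sum_congr rfl fun n hn => ?_
    show z n = w (n + h - h)
    rw [show n + h - h = n by omega, hw1 n hn]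
  rw [e1, vdc_shift (fun m => w (m - h)) _ _ h]
  symm
  apply Finset.sum_subset
  · intro m hm
    rw [mem_Ioc] at hm ⊢
    omega
  · intro m hm hm2
    rw [mem_Ioc] at hm hm2
    refine hw0 _ fun hc => ?_
    rw [mem_Ioc] at hc
    apply hm2
    omega

theorem vdc_step (z : ℕ → ℂ) (hz : ∀ n, ‖z n‖ ≤ 1) (a b Y H : ℕ) (hab : b - a ≤ Y) (hH : 1 ≤ H)
    (hHY : H ≤ Y) :
    ‖∑ n ∈ Ioc a b, z n‖ ^ 2
      ≤ 2 * (Y : ℝ) ^ 2 / H + 4 * (Y : ℝ) / H * ∑ h ∈ Icc 1 H,
          ‖∑ n ∈ Ioc a (b - h), z (n + h) * (starRingEnd ℂ) (z n)‖ := by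
  classical
  set w : ℕ → ℂ := fun n => if n ∈ Ioc a b then z n else 0 with hw
  have hw1 : ∀ n ∈ Ioc a b, w n = z n := fun n hn => by simp only [hw, if_pos hn]
  have hw0 : ∀ n, n ∉ Ioc a b → w n = 0 := fun n hn => by simp only [hw, if_neg hn]
  set C : ℕ → ℝ := fun h => ‖∑ n ∈ Ioc a (b - h), z (n + h) * (starRingEnd ℂ) (z n)‖ with hC
  have hC0 : ∀ h, 0 ≤ C h := fun h => norm_nonneg _
  set Sg : ℝ := ∑ h ∈ Icc 1 H, C h with hSg
  have hSg0 : 0 ≤ Sg := Finset.sum_nonneg fun h _ => hC0 h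
  have hCz : C 0 ≤ Y := by
    simp only [hC]
    refine (norm_sum_le _ _).trans ?_
    calc ∑ n ∈ Ioc a (b - 0), ‖z (n + 0) * (starRingEnd ℂ) (z n)‖
        ≤ ∑ n ∈ Ioc a (b - 0), (1:ℝ) := by
          refine Finset.sum_le_sum fun n _ => ?_
          rw [norm_mul, RCLike.norm_conj]
          calc ‖z (n + 0)‖ * ‖z n‖ ≤ 1 * 1 := mul_le_mul (hz _) (hz _) (norm_nonneg _) (by norm_num)
            _ = 1 := by norm_num
      _ = ((b - a : ℕ) : ℝ) := by simp
      _ ≤ Y := by exact_mod_cast hab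
  -- pairs
  set T : ℕ → ℕ → ℂ := fun h1 h2 => ∑ m ∈ Ioc a (b + H), w (m - h1) * (starRingEnd ℂ) (w (m - h2))
    with hT
  have hTle : ∀ h1 h2, h1 ≤ h2 → h2 ≤ H → ‖T h1 h2‖ = C (h2 - h1) := by
    intro h1 h2 h12 h2H
    simp only [hT, hC]
    rw [vdc_pair z w a b H hw1 hw0 h1 h2 h12 h2H]
  have hTsymm : ∀ h1 h2, ‖T h1 h2‖ = ‖T h2 h1‖ := by
    intro h1 h2
    rw [← RCLike.norm_conj (T h1 h2)]
    congr 1
    simp only [hT, map_sum, map_mul, Complex.conj_conj]
    exact Finset.sum_congr rfl fun m _ => mul_comm _ _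
  -- row sums
  have hrow : ∀ h1 ∈ range H, ∑ h2 ∈ range H, ‖T h1 h2‖ ≤ Y + 2 * Sg := by
    intro h1 hh1
    rw [mem_range] at hh1
    have hsplit : ∑ h2 ∈ range H, ‖T h1 h2‖
        = ∑ h2 ∈ range h1, ‖T h1 h2‖ + ∑ h2 ∈ Ico h1 H, ‖T h1 h2‖ := by
      rw [Finset.sum_range_add_sum_Ico _ hh1.le]
    rw [hsplit]
    have hA : ∑ h2 ∈ range h1, ‖T h1 h2‖ ≤ Sg := by
      have e : ∑ h2 ∈ range h1, ‖T h1 h2‖ = ∑ h2 ∈ range h1, C (h1 - h2) := by
        refine Finset.sum_congr rfl fun h2 hh2 => ?_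
        rw [mem_range] at hh2
        rw [hTsymm, hTle h2 h1 hh2.le hh1.le]
      rw [e]
      have e2 : ∑ h2 ∈ range h1, C (h1 - h2) = ∑ d ∈ Icc 1 h1, C d := by
        refine Finset.sum_nbij' (fun h2 => h1 - h2) (fun d => h1 - d) ?_ ?_ ?_ ?_ ?_
        · intro x hx
          rw [mem_range] at hx
          rw [mem_Icc]; omega
        · intro x hx
          rw [mem_Icc] at hx
          rw [mem_range]; omega
        · intro x hx
          rw [mem_range] at hx
          show h1 - (h1 - x) = x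
          omega
        · intro x hx
          rw [mem_Icc] at hx
          show h1 - (h1 - x) = x
          omega
        · intro x _
          rfl
      rw [e2]
      refine Finset.sum_le_sum_of_subset_of_nonneg ?_ fun h _ _ => hC0 h
      exact Finset.Icc_subset_Icc le_rfl hh1.le
    have hB : ∑ h2 ∈ Ico h1 H, ‖T h1 h2‖ ≤ Y + Sg := by
      have e : ∑ h2 ∈ Ico h1 H, ‖T h1 h2‖ = ∑ h2 ∈ Ico h1 H, C (h2 - h1) := by
        refine Finset.sum_congr rfl fun h2 hh2 => ?_
        rw [mem_Ico] at hh2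
        rw [hTle h1 h2 hh2.1 hh2.2.le]
      rw [e, Finset.sum_Ico_eq_sum_range]
      have e2 : ∑ i ∈ range (H - h1), C (h1 + i - h1) = ∑ i ∈ range (H - h1), C i :=
        Finset.sum_congr rfl fun i _ => by rw [Nat.add_sub_cancel_left]
      rw [e2]
      obtain ⟨m, hm⟩ : ∃ m, H - h1 = m + 1 := ⟨H - h1 - 1, by omega⟩
      rw [hm, Finset.sum_range_succ']
      have e3 : ∑ k ∈ range m, C (k + 1) ≤ Sg := by
        have e4 : ∑ k ∈ range m, C (k + 1) = ∑ d ∈ Ico 1 (m + 1), C d := by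
          rw [Finset.sum_Ico_eq_sum_range]
          simp [add_comm]
        rw [e4]
        refine Finset.sum_le_sum_of_subset_of_nonneg ?_ fun h _ _ => hC0 h
        intro x hx
        rw [mem_Ico] at hx
        rw [mem_Icc]; omega
      linarith
    linarith
  -- the main identity
  have hS1 : (H : ℂ) * ∑ n ∈ Ioc a b, z n = ∑ m ∈ Ioc a (b + H), ∑ h ∈ range H, w (m - h) := by
    rw [Finset.sum_comm]
    rw [Finset.sum_congr rfl (fun h hh => vdc_single z w a b H hw1 hw0 h (by
      rw [mem_range] at hh; exact hh.le))]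
    simp
  have hS2 : ((∑ m ∈ Ioc a (b + H), ‖∑ h ∈ range H, w (m - h)‖ ^ 2 : ℝ) : ℂ)
      = ∑ h1 ∈ range H, ∑ h2 ∈ range H, T h1 h2 := by
    push_cast
    have e : ∀ m, ((‖∑ h ∈ range H, w (m - h)‖ : ℂ)) ^ 2
        = ∑ h1 ∈ range H, ∑ h2 ∈ range H, w (m - h1) * (starRingEnd ℂ) (w (m - h2)) := by
      intro m
      rw [← Complex.mul_conj']
      rw [map_sum, Finset.sum_mul_sum]
    rw [Finset.sum_congr rfl (fun m _ => e m), Finset.sum_comm]
    refine Finset.sum_congr rfl fun h1 _ => ?_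
    rw [Finset.sum_comm]
  have hS3 : ∑ m ∈ Ioc a (b + H), ‖∑ h ∈ range H, w (m - h)‖ ^ 2 ≤ H * (Y + 2 * Sg) := by
    have hnn : 0 ≤ ∑ m ∈ Ioc a (b + H), ‖∑ h ∈ range H, w (m - h)‖ ^ 2 :=
      Finset.sum_nonneg fun m _ => by positivity
    have e : ∑ m ∈ Ioc a (b + H), ‖∑ h ∈ range H, w (m - h)‖ ^ 2
        = ‖((∑ m ∈ Ioc a (b + H), ‖∑ h ∈ range H, w (m - h)‖ ^ 2 : ℝ) : ℂ)‖ := by
      rw [Complex.norm_real, Real.norm_of_nonneg hnn]
    rw [e, hS2]
    refine (norm_sum_le _ _).trans ?_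
    calc ∑ h1 ∈ range H, ‖∑ h2 ∈ range H, T h1 h2‖
        ≤ ∑ h1 ∈ range H, (Y + 2 * Sg) :=
          Finset.sum_le_sum fun h1 hh1 => (norm_sum_le _ _).trans (hrow h1 hh1)
      _ = H * (Y + 2 * Sg) := by
        rw [Finset.sum_const, card_range, nsmul_eq_mul]
  have hcs : ‖∑ m ∈ Ioc a (b + H), ∑ h ∈ range H, w (m - h)‖ ^ 2
      ≤ ((Ioc a (b + H)).card : ℝ) * ∑ m ∈ Ioc a (b + H), ‖∑ h ∈ range H, w (m - h)‖ ^ 2 := by
    have h1 : ‖∑ m ∈ Ioc a (b + H), ∑ h ∈ range H, w (m - h)‖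
        ≤ ∑ m ∈ Ioc a (b + H), ‖∑ h ∈ range H, w (m - h)‖ := norm_sum_le _ _
    have h2 : (∑ m ∈ Ioc a (b + H), ‖∑ h ∈ range H, w (m - h)‖) ^ 2
        ≤ ((Ioc a (b + H)).card : ℝ) * ∑ m ∈ Ioc a (b + H), ‖∑ h ∈ range H, w (m - h)‖ ^ 2 :=
      sq_sum_le_card_mul_sum_sq
    exact (pow_le_pow_left₀ (norm_nonneg _) h1 2).trans h2
  have hcard : ((Ioc a (b + H)).card : ℝ) ≤ 2 * Y := by
    rw [Nat.card_Ioc]
    have : b + H - a ≤ 2 * Y := by omega
    exact_mod_cast this
  have hH0 : (0:ℝ) < H := by exact_mod_cast hH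
  have hfin : (H:ℝ) ^ 2 * ‖∑ n ∈ Ioc a b, z n‖ ^ 2 ≤ 2 * Y * (H * (Y + 2 * Sg)) := by
    have e : (H:ℝ) ^ 2 * ‖∑ n ∈ Ioc a b, z n‖ ^ 2 = ‖(H : ℂ) * ∑ n ∈ Ioc a b, z n‖ ^ 2 := by
      rw [norm_mul, mul_pow, Complex.norm_natCast]
    rw [e, hS1]
    refine hcs.trans ?_
    have hnn : 0 ≤ ∑ m ∈ Ioc a (b + H), ‖∑ h ∈ range H, w (m - h)‖ ^ 2 :=
      Finset.sum_nonneg fun m _ => by positivity
    exact mul_le_mul hcard hS3 hnn (by positivity)
  have e : 2 * (Y : ℝ) ^ 2 / H + 4 * (Y : ℝ) / H * Sg = 2 * Y * (H * (Y + 2 * Sg)) / H ^ 2 := by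
    field_simp; ring
  rw [e, le_div_iff₀ (by positivity)]
  linarith

end Pool.Agent.H76.EHB

end

section

/-!
# LM Defs (project LM: local Fourier uniformity of the Möbius function with a rate)

* `mu n` = the Möbius function with real values;
* `Fr a b n`: `n` has no prime factor in `(a, b]`;
* `gP P1 P k = -μ(k)` if `k` has no prime factor in `(P1, P]`, `0` otherwise;
* `hI a b l = 1` if all prime factors of `l` lie in `(a, b]` (and `l ≥ 1`), `0` otherwise;
* `Win x H`: the window `|n - x| < H/2`;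
* `Mw F x H α = ∑_{n ∈ Win x H} F(n) ee(n α)`.
Notation in the comments: `L = log N` or `log X`; `Fp f P m = ∑_{p ∈ pb P, p ∣ m} f(m/p)` (`H53/MID/Defs.lean`), `pb P` = the primes in `(P, 2P]`.
-/

set_option autoImplicit false

namespace Pool.Agent.H43.LM

open Finset
open Pool.Agent.H91.PK (ee)

/-- the Möbius function as a real number -/
noncomputable def mu (n : ℕ) : ℝ := ((ArithmeticFunction.moebius n : ℤ) : ℝ)

/-- `n` has no prime factor in `(a, b]` -/
def Fr (a b n : ℕ) : Prop := ∀ p : ℕ, p.Prime → a < p → p ≤ b → ¬ p ∣ n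

open Classical in
/-- `-μ(k)` if `k` has no prime factor in `(P1, P]`, and `0` otherwise -/
noncomputable def gP (P1 P k : ℕ) : ℝ := if Fr P1 P k then - mu k else 0

open Classical in
/-- the indicator function of the integers all of whose prime factors are in `(a, b]` -/
noncomputable def hI (a b l : ℕ) : ℝ := if l ≠ 0 ∧ (∀ p : ℕ, p.Prime → p ∣ l → a < p ∧ p ≤ b) then 1 else 0

/-- the integers of the window of length `H` around `x` -/
noncomputable def Win (x H : ℝ) : Finset ℕ :=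
  (Finset.range (⌈x + H⌉₊ + 1)).filter (fun n : ℕ => |(n : ℝ) - x| < H / 2)

/-- the exponential sum of `F` over the window -/
noncomputable def Mw (F : ℕ → ℝ) (x H α : ℝ) : ℂ := ∑ n ∈ Win x H, (F n : ℂ) * ee (n * α)

theorem mu_abs_le (n : ℕ) : |mu n| ≤ 1 := by
  have := ArithmeticFunction.abs_moebius_le_one (n := n)
  unfold mu
  exact_mod_cast this

theorem gP_abs_le (P1 P k : ℕ) : |gP P1 P k| ≤ 1 := by
  unfold gP
  split_ifs
  · rw [abs_neg]
    exact mu_abs_le k
  · simp

end Pool.Agent.H43.LM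

end

section

/-!
PK DiA: Λ in one residue class through primitive characters.

Let L = log N, N ≥ 3, 1 ≤ d ≤ N, (N,d) = 1,
  A(d) = ∑_{n ≤ N, d | N - n} Λ(n) W(n),   MW = ∑_{n ≤ N} Λ(n) W(n).
Then |A(d) - MW/φ(d)| ≤ L² + (1/φ(d)) ∑_{χ mod d, χ ≠ 1} |TT N k χ*|, χ* = the primitive character inducing χ.

Proof.  d | N-n with (N,d)=1 forces (n,d)=1 and n ≡ N; by `DirichletCharacter.sum_char_inv_mul_char_eq`
  A(d) = (1/φ(d)) ∑_χ χ(N)⁻¹ TT N k χ  (|χ(N)⁻¹| ≤ 1).  For χ = 1: TT N k 1 = MW - ∑_{(n,d)>1} Λ(n)W(n).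
For every χ: TT N k χ = TT N k χ* - ∑_{(n,d)>1} Λ(n) χ*(n) W(n) (χ(n) = χ*(n) for (n,d)=1:
`DirichletCharacter.primitiveCharacter_apply_of_isCoprime`, and χ(n) = 0 otherwise).
Error: ∑_{n ≤ N, (n,d)>1} Λ(n) W(n) ≤ (4/27) ∑_{q | d} ∑_{j : q^j ≤ N} log q ≤ (4/27) ω(d) L ≤ (4/27)(1.45) L²  ≤ 0.22 L²
 (0 ≤ W ≤ 4/27 as log n/log N ≤ 1; 2^ω(d) ≤ d ≤ N).  Two such errors.
-/

set_option autoImplicit false

namespace Pool.Agent.H91.PK

open Finset

theorem DiA_omega_le {d : ℕ} (hd : 1 ≤ d) : (d.primeFactors.card : ℝ) * Real.log 2 ≤ Real.log d := by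
  have h1 : 2 ^ d.primeFactors.card ≤ d := by
    calc 2 ^ d.primeFactors.card ≤ ∏ p ∈ d.primeFactors, p :=
          Finset.pow_card_le_prod _ _ _ (fun p hp => (Nat.prime_of_mem_primeFactors hp).two_le)
      _ ≤ d := Nat.le_of_dvd hd (Nat.prod_primeFactors_dvd d)
  have h2 : ((2 : ℝ) ^ d.primeFactors.card) ≤ d := by exact_mod_cast h1
  have h3 := Real.log_le_log (by positivity) h2
  rwa [Real.log_pow] at h3

theorem DiA_psi_noncoprime {N d : ℕ} (hN : 1 ≤ N) (hd : 1 ≤ d) :
    ∑ n ∈ (Icc 1 N).filter (fun n => ¬ Nat.Coprime n d), ArithmeticFunction.vonMangoldt n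
      ≤ (d.primeFactors.card : ℝ) * Real.log N := by
  classical
  have key : ∀ n ∈ (Icc 1 N).filter (fun n => ¬ Nat.Coprime n d),
      ArithmeticFunction.vonMangoldt n ≤ ∑ q ∈ d.primeFactors,
        (if n ∈ (Icc 1 (Nat.log q N)).image (fun j => q ^ j) then
          ArithmeticFunction.vonMangoldt n else 0) := by
    intro n hn
    rw [mem_filter, mem_Icc] at hn
    have hnn : ∀ q ∈ d.primeFactors,
        0 ≤ (if n ∈ (Icc 1 (Nat.log q N)).image (fun j => q ^ j) then
          ArithmeticFunction.vonMangoldt n else 0) := by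
      intro q _
      split_ifs
      · exact ArithmeticFunction.vonMangoldt_nonneg
      · exact le_rfl
    by_cases hp : IsPrimePow n
    · obtain ⟨p, j, hp1, hj, rfl⟩ := hp
      have hpp : p.Prime := Nat.prime_iff.mpr hp1
      have hpd : p ∣ d := by
        by_contra hcon
        exact hn.2 (Nat.Coprime.pow_left _ ((Nat.Prime.coprime_iff_not_dvd hpp).mpr hcon))
      have hmem : p ∈ d.primeFactors := Nat.mem_primeFactors.mpr ⟨hpp, hpd, by omega⟩
      refine le_trans ?_ (single_le_sum hnn hmem)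
      rw [if_pos]
      refine mem_image.mpr ⟨j, ?_, rfl⟩
      rw [mem_Icc]
      exact ⟨hj, (Nat.le_log_iff_pow_le hpp.one_lt (by omega)).mpr hn.1.2⟩
    · rw [ArithmeticFunction.vonMangoldt_eq_zero_iff.mpr hp]
      simp
  calc ∑ n ∈ (Icc 1 N).filter (fun n => ¬ Nat.Coprime n d), ArithmeticFunction.vonMangoldt n
      ≤ ∑ n ∈ (Icc 1 N).filter (fun n => ¬ Nat.Coprime n d), ∑ q ∈ d.primeFactors,
        (if n ∈ (Icc 1 (Nat.log q N)).image (fun j => q ^ j) then
          ArithmeticFunction.vonMangoldt n else 0) := sum_le_sum key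
    _ = ∑ q ∈ d.primeFactors, ∑ n ∈ (Icc 1 N).filter (fun n => ¬ Nat.Coprime n d),
        (if n ∈ (Icc 1 (Nat.log q N)).image (fun j => q ^ j) then
          ArithmeticFunction.vonMangoldt n else 0) := sum_comm
    _ ≤ ∑ q ∈ d.primeFactors, Real.log N := by
        refine sum_le_sum fun q hq => ?_
        have hqp := Nat.prime_of_mem_primeFactors hq
        rw [← sum_filter]
        calc ∑ n ∈ ((Icc 1 N).filter (fun n => ¬ Nat.Coprime n d)).filter
              (fun n => n ∈ (Icc 1 (Nat.log q N)).image (fun j => q ^ j)),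
              ArithmeticFunction.vonMangoldt n
            ≤ ∑ n ∈ (Icc 1 (Nat.log q N)).image (fun j => q ^ j),
              ArithmeticFunction.vonMangoldt n := by
              refine sum_le_sum_of_subset_of_nonneg ?_
                (fun _ _ _ => ArithmeticFunction.vonMangoldt_nonneg)
              intro n hn
              exact (mem_filter.mp hn).2
          _ = ∑ j ∈ Icc 1 (Nat.log q N), ArithmeticFunction.vonMangoldt (q ^ j) := by
              refine sum_image ?_
              intro a _ b _ hab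
              exact Nat.pow_right_injective hqp.two_le hab
          _ = ∑ j ∈ Icc 1 (Nat.log q N), Real.log q := by
              refine sum_congr rfl fun j hj => ?_
              rw [mem_Icc] at hj
              rw [ArithmeticFunction.vonMangoldt_apply_pow (by omega),
                ArithmeticFunction.vonMangoldt_apply_prime hqp]
          _ = (Nat.log q N : ℝ) * Real.log q := by
              rw [sum_const, Nat.card_Icc, nsmul_eq_mul]
              norm_num
          _ ≤ Real.log N := by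
              rw [← Real.log_pow]
              refine Real.log_le_log ?_ ?_
              · have : (0 : ℝ) < q := by exact_mod_cast hqp.pos
                positivity
              · exact_mod_cast Nat.pow_log_le_self q (by omega)
    _ = (d.primeFactors.card : ℝ) * Real.log N := by
        rw [sum_const, nsmul_eq_mul]

theorem DiA_norm_char_le {m : ℕ} (χ : DirichletCharacter ℂ m) (a : ZMod m) : ‖χ a‖ ≤ 1 :=
  χ.norm_le_one a

/-- values of the primitive character -/
theorem DiA_prim_eq {d n : ℕ} (χ : DirichletCharacter ℂ d) (h : Nat.Coprime n d) :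
    χ.primitiveCharacter (n : ZMod χ.conductor) = χ (n : ZMod d) := by
  have h1 : IsCoprime (n : ℤ) (d : ℤ) := Nat.isCoprime_iff_coprime.mpr h
  have h2 := DirichletCharacter.primitiveCharacter_apply_of_isCoprime χ h1
  simpa using h2

theorem DiA_char_zero {d n : ℕ} (χ : DirichletCharacter ℂ d) (h : ¬ Nat.Coprime n d) :
    χ (n : ZMod d) = 0 := by
  refine χ.map_nonunit ?_
  intro hu
  exact h ((ZMod.isUnit_iff_coprime n d).mp hu)

end Pool.Agent.H91.PK

end

section

/-!
A lower bound for Euler's function in terms of the number of prime factors, and a bound for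
that number.
-/

set_option autoImplicit false

namespace Pool.Agent.H92.EH

open Finset

theorem prod_one_sub_inv_ge (S : Finset ℕ) (hS : ∀ p ∈ S, 2 ≤ p) :
    (1 : ℝ) / (S.card + 1) ≤ ∏ p ∈ S, (1 - (p : ℝ)⁻¹) := by
  induction S using Finset.induction_on_max with
  | empty => simp
  | insert a s hmax ih =>
    have ha : a ∉ s := fun h => lt_irrefl _ (hmax a h)
    rw [prod_insert ha, card_insert_of_notMem ha]
    have h1 := ih (fun p hp => hS p (mem_insert_of_mem hp))
    -- `a ≥ card s + 2`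
    have h2 : s.card + 2 ≤ a := by
      have hsub : s ⊆ Ico 2 a := by
        intro p hp
        rw [mem_Ico]
        exact ⟨hS p (mem_insert_of_mem hp), hmax p hp⟩
      have h3 := card_le_card hsub
      rw [Nat.card_Ico] at h3
      have h4 := hS a (mem_insert_self _ _)
      omega
    have h2' : ((s.card : ℝ) + 2) ≤ a := by exact_mod_cast h2
    have hc : (0 : ℝ) ≤ s.card := by positivity
    have h5 : (1 : ℝ) - ((s.card : ℝ) + 2)⁻¹ ≤ 1 - (a : ℝ)⁻¹ := by
      have : (a : ℝ)⁻¹ ≤ ((s.card : ℝ) + 2)⁻¹ := inv_anti₀ (by positivity) h2'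
      linarith
    have h6 : (1 : ℝ) - ((s.card : ℝ) + 2)⁻¹ = ((s.card : ℝ) + 1) / (s.card + 2) := by
      field_simp
      ring
    have h7 : (0 : ℝ) ≤ ((s.card : ℝ) + 1) / (s.card + 2) := by positivity
    push_cast
    calc (1 : ℝ) / ((s.card : ℝ) + 1 + 1)
        = (((s.card : ℝ) + 1) / (s.card + 2)) * (1 / (s.card + 1)) := by
          field_simp
          ring
      _ ≤ (1 - (a : ℝ)⁻¹) * ∏ p ∈ s, (1 - (p : ℝ)⁻¹) := by
          rw [← h6] at h7
          apply mul_le_mul (by rw [← h6]; exact h5) h1 (by positivity) (h7.trans h5)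

theorem le_totient_mul (q : ℕ) :
    (q : ℝ) ≤ Nat.totient q * (q.primeFactors.card + 1) := by
  have h1 : (Nat.totient q : ℝ) = q * ∏ p ∈ q.primeFactors, (1 - (p : ℝ)⁻¹) := by
    have := Nat.totient_eq_mul_prod_factors q
    have h2 : ((Nat.totient q : ℚ) : ℝ) = ((q * ∏ p ∈ q.primeFactors, (1 - (p : ℚ)⁻¹) : ℚ) : ℝ) := by
      rw [this]
    push_cast at h2
    exact h2
  have h3 := prod_one_sub_inv_ge q.primeFactors (fun p hp => (Nat.prime_of_mem_primeFactors hp).two_le)
  rw [h1]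
  have hc : (0 : ℝ) < (q.primeFactors.card : ℝ) + 1 := by positivity
  rw [div_le_iff₀ hc] at h3
  have hq : (0 : ℝ) ≤ q := by positivity
  nlinarith

theorem card_primeFactors_le (q : ℕ) : q.primeFactors.card ≤ Nat.log 2 q := by
  rcases Nat.eq_zero_or_pos q with rfl | hq
  · simp
  · apply Nat.le_log_of_pow_le (by norm_num)
    calc 2 ^ q.primeFactors.card ≤ ∏ p ∈ q.primeFactors, p := by
          rw [← prod_const]
          exact prod_le_prod' fun p hp => (Nat.prime_of_mem_primeFactors hp).two_le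
      _ ≤ q := Nat.le_of_dvd hq (Nat.prod_primeFactors_dvd q)

end Pool.Agent.H92.EH

end

section

/-!
The logarithmic weights of Richert combined with the sieve of `GoldChain`.
-/

namespace Pool.Agent.H91.Gold

open Finset

/-- The primes in the interval `(x, y]`. -/
def Pr (x y : ℕ) : Finset ℕ := (Ioc x y).filter Nat.Prime

end Pool.Agent.H91.Gold

end
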