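import Pool.Agent.H43.PS.M01
import Pool.Agent.H43.PS.M02
import Pool.Agent.H43.PS.M03

/-! The parts of this file: H76.EHB.Ibp, H76.EHB.AvA, H76.EHB.Vdc2, H91.EHA.SwJ2, H97.VK.Fou, H97.VK.Bil. -/

section

/-!
# EHB Ibp: sums with a small monotone derivative of the phase

`∑_{a<n≤b} ee(φ n) - ∫_a^b ee(φ x) dx = ∑_n ∫_{n-1}^n (ee(φ n) - ee(φ x)) dx`, at most `2π Λ (b-a)` in absolute value (mean value theorem,
`|φ'| ≤ Λ`).  And `∫_a^b ee(φ) = ∫ (2πi σ ψ ee(φ)) * 1/(2πi σ ψ)`: by parts `= [ee(φ)/(2πiσψ)]_a^b + ∫ ee(φ) ψ'/(2πiσψ²)`, at most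
`2/(2πλ) + (1/2π) ∫ (-ψ')/ψ² = 2/(2πλ) + (1/2π)(1/ψ(b) - 1/ψ(a)) ≤ 3/(2πλ) ≤ 1/λ`.
-/

set_option autoImplicit false

namespace Pool.Agent.H76.EHB

open Finset MeasureTheory
open Pool.Agent.H91.PK (ee)

theorem Ibp_ee_hasDerivAt (φ : ℝ → ℝ) (φ' x : ℝ) (h : HasDerivAt φ φ' x) :
    HasDerivAt (fun y => ee (φ y)) (2 * Real.pi * φ' * Complex.I * ee (φ x)) x := by
  unfold ee
  have h1 : HasDerivAt (fun y : ℝ => ((φ y : ℝ) : ℂ)) (φ' : ℂ) x := h.ofReal_comp
  have h2 : HasDerivAt (fun y : ℝ => 2 * (Real.pi : ℂ) * ((φ y : ℝ) : ℂ) * Complex.I)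
      (2 * (Real.pi : ℂ) * (φ' : ℂ) * Complex.I) x := (h1.const_mul _).mul_const _
  have h3 := h2.cexp
  convert h3 using 1
  ring

theorem Ibp_norm_ee (t : ℝ) : ‖ee t‖ = 1 := Pool.Agent.H91.PK.LSa_norm_ee t

theorem Ibp_norm_deriv (s t : ℝ) :
    ‖(2 * Real.pi * (s : ℂ) * Complex.I * ee t : ℂ)‖ = 2 * Real.pi * |s| := by
  rw [norm_mul, Ibp_norm_ee, norm_mul, Complex.norm_I, norm_mul, norm_mul, Complex.norm_real,
    Complex.norm_real, Complex.norm_ofNat, Real.norm_eq_abs, Real.norm_eq_abs,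
    abs_of_pos Real.pi_pos]
  ring

/-- the sum against the integral -/
theorem Ibp_sum_int (φ ψ : ℝ → ℝ) (a b : ℕ) (hab : a ≤ b) (σ Lam : ℝ) (hσ : |σ| = 1)
    (h1 : ∀ x ∈ Set.Icc (a : ℝ) b, HasDerivAt φ (σ * ψ x) x)
    (h5 : ∀ x ∈ Set.Icc (a : ℝ) b, 0 < ψ x ∧ ψ x ≤ Lam) :
    ‖∑ n ∈ Ioc a b, ee (φ n) - ∫ x in (a : ℝ)..b, ee (φ x)‖ ≤
      2 * Real.pi * Lam * ((b : ℝ) - a) := by
  have habR : (a : ℝ) ≤ b := by exact_mod_cast hab
  have hcont : ContinuousOn (fun x => ee (φ x)) (Set.Icc (a : ℝ) b) := fun x hx =>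
    (Ibp_ee_hasDerivAt φ _ x (h1 x hx)).continuousAt.continuousWithinAt
  have hsub : ∀ k ∈ Ico a b, Set.uIcc ((k : ℕ) : ℝ) ((k + 1 : ℕ) : ℝ) ⊆ Set.Icc (a : ℝ) b := by
    intro k hk
    rw [mem_Ico] at hk
    rw [Set.uIcc_of_le (by push_cast; linarith)]
    apply Set.Icc_subset_Icc
    · exact_mod_cast hk.1
    · exact_mod_cast hk.2
  have hint : ∀ k ∈ Ico a b, IntervalIntegrable (fun x => ee (φ x)) volume ((k : ℕ) : ℝ)
      ((k + 1 : ℕ) : ℝ) := fun k hk => (hcont.mono (hsub k hk)).intervalIntegrable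
  have hI : ∑ k ∈ Ico a b, ∫ x in ((k : ℕ) : ℝ)..((k + 1 : ℕ) : ℝ), ee (φ x) =
      ∫ x in (a : ℝ)..b, ee (φ x) :=
    intervalIntegral.sum_integral_adjacent_intervals_Ico (a := fun k : ℕ => (k : ℝ)) hab
      (fun k hk => hint k (by rw [mem_Ico]; exact hk))
  have hS : ∑ n ∈ Ioc a b, ee (φ n) = ∑ k ∈ Ico a b, ee (φ ((k + 1 : ℕ) : ℝ)) := by
    rw [Finset.sum_Ico_add' (fun n : ℕ => ee (φ (n : ℝ))) a b 1]
    apply Finset.sum_congr _ (fun _ _ => rfl)
    ext x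
    simp only [mem_Ioc, mem_Ico]
    omega
  rw [hS, ← hI, ← Finset.sum_sub_distrib]
  have hterm : ∀ k ∈ Ico a b, ‖ee (φ ((k + 1 : ℕ) : ℝ)) -
      ∫ x in ((k : ℕ) : ℝ)..((k + 1 : ℕ) : ℝ), ee (φ x)‖ ≤ 2 * Real.pi * Lam := by
    intro k hk
    have e1 : ee (φ ((k + 1 : ℕ) : ℝ)) =
        ∫ x in ((k : ℕ) : ℝ)..((k + 1 : ℕ) : ℝ), ee (φ ((k + 1 : ℕ) : ℝ)) := by
      rw [intervalIntegral.integral_const]
      push_cast
      rw [show (k : ℝ) + 1 - k = 1 by ring, one_smul]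
    have e2 : ee (φ ((k + 1 : ℕ) : ℝ)) - ∫ x in ((k : ℕ) : ℝ)..((k + 1 : ℕ) : ℝ), ee (φ x) =
        ∫ x in ((k : ℕ) : ℝ)..((k + 1 : ℕ) : ℝ), (ee (φ ((k + 1 : ℕ) : ℝ)) - ee (φ x)) := by
      rw [intervalIntegral.integral_sub intervalIntegrable_const (hint k hk), ← e1]
    rw [e2]
    have hLam0 : 0 ≤ Lam := by
      have hb : (b : ℝ) ∈ Set.Icc (a : ℝ) b := ⟨habR, le_refl _⟩
      have := h5 _ hb
      linarith
    have hb := intervalIntegral.norm_integral_le_of_norm_le_const (a := ((k : ℕ) : ℝ))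
      (b := ((k + 1 : ℕ) : ℝ)) (C := 2 * Real.pi * Lam)
      (f := fun x => ee (φ ((k + 1 : ℕ) : ℝ)) - ee (φ x)) ?_
    · have e3 : |((k + 1 : ℕ) : ℝ) - ((k : ℕ) : ℝ)| = 1 := by
        push_cast
        rw [show (k : ℝ) + 1 - k = 1 by ring, abs_one]
      rw [e3, mul_one] at hb
      exact hb
    · intro x hx
      have hxI : x ∈ Set.Icc (a : ℝ) b := hsub k hk (Set.uIoc_subset_uIcc hx)
      have hk1 : ((k + 1 : ℕ) : ℝ) ∈ Set.Icc (a : ℝ) b := hsub k hk Set.right_mem_uIcc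
      have hm := (convex_Icc (a : ℝ) b).norm_image_sub_le_of_norm_hasDerivWithin_le
        (f := fun x => ee (φ x)) (f' := fun x => 2 * Real.pi * ((σ * ψ x : ℝ) : ℂ) *
          Complex.I * ee (φ x)) (C := 2 * Real.pi * Lam)
        (fun y hy => (Ibp_ee_hasDerivAt φ _ y (h1 y hy)).hasDerivWithinAt)
        (fun y hy => by
          rw [Ibp_norm_deriv, abs_mul, hσ, one_mul, abs_of_pos (h5 y hy).1]
          exact mul_le_mul_of_nonneg_left (h5 y hy).2 (by positivity)) hxI hk1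
      refine hm.trans ?_
      have h6 : ‖((k + 1 : ℕ) : ℝ) - x‖ ≤ 1 := by
        rw [Set.uIoc_of_le (by push_cast; linarith)] at hx
        have h7 := hx.1
        have h8 := hx.2
        push_cast at h8 ⊢
        rw [Real.norm_eq_abs, abs_le]
        constructor <;> linarith
      calc 2 * Real.pi * Lam * ‖((k + 1 : ℕ) : ℝ) - x‖ ≤ 2 * Real.pi * Lam * 1 :=
            mul_le_mul_of_nonneg_left h6 (by positivity)
        _ = 2 * Real.pi * Lam := mul_one _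
  calc ‖∑ k ∈ Ico a b, (ee (φ ((k + 1 : ℕ) : ℝ)) -
        ∫ x in ((k : ℕ) : ℝ)..((k + 1 : ℕ) : ℝ), ee (φ x))‖
      ≤ ∑ k ∈ Ico a b, 2 * Real.pi * Lam := norm_sum_le_of_le _ hterm
    _ = 2 * Real.pi * Lam * ((b : ℝ) - a) := by
        rw [Finset.sum_const, Nat.card_Ico, nsmul_eq_mul, Nat.cast_sub hab]
        ring

/-- the integral -/
theorem Ibp_int (φ ψ ψ' : ℝ → ℝ) (a b : ℝ) (hab : a ≤ b) (σ lam : ℝ) (hσ : |σ| = 1)
    (hlam : 0 < lam) (h1 : ∀ x ∈ Set.Icc a b, HasDerivAt φ (σ * ψ x) x)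
    (h2 : ∀ x ∈ Set.Icc a b, HasDerivAt ψ (ψ' x) x)
    (h3 : ∀ x ∈ Set.Icc a b, ψ' x ≤ 0) (h4 : ContinuousOn ψ' (Set.Icc a b))
    (h5 : ∀ x ∈ Set.Icc a b, lam ≤ ψ x) :
    ‖∫ x in a..b, ee (φ x)‖ ≤ 1 / lam := by
  have hσ2 : σ * σ = 1 := by
    have := congrArg (fun t => t * t) hσ
    simpa [abs_mul_abs_self] using this
  have hpos : ∀ x ∈ Set.Icc a b, 0 < ψ x := fun x hx => lt_of_lt_of_le hlam (h5 x hx)
  have hψc : ContinuousOn ψ (Set.Icc a b) := fun x hx => (h2 x hx).continuousAt.continuousWithinAt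
  have hcont : ContinuousOn (fun x => ee (φ x)) (Set.Icc a b) := fun x hx =>
    (Ibp_ee_hasDerivAt φ _ x (h1 x hx)).continuousAt.continuousWithinAt
  have huIcc : Set.uIcc a b = Set.Icc a b := Set.uIcc_of_le hab
  -- derivative of 1/ψ
  have hinv : ∀ x ∈ Set.Icc a b, HasDerivAt (fun y => (ψ y)⁻¹) (-ψ' x / (ψ x) ^ 2) x :=
    fun x hx => (h2 x hx).inv (hpos x hx).ne'
  have hgc : ContinuousOn (fun x => -ψ' x / (ψ x) ^ 2) (Set.Icc a b) :=
    (h4.neg).div (hψc.pow 2) (fun x hx => by have := hpos x hx; positivity)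
  have hFTC1 : ∫ x in a..b, -ψ' x / (ψ x) ^ 2 = (ψ b)⁻¹ - (ψ a)⁻¹ :=
    intervalIntegral.integral_eq_sub_of_hasDerivAt (fun x hx => hinv x (huIcc ▸ hx))
      ((huIcc ▸ hgc : ContinuousOn _ (Set.uIcc a b)).intervalIntegrable)
  -- the main function
  set c : ℂ := (σ : ℂ) / (2 * Real.pi * Complex.I) with hc
  have hcn : ‖c‖ = 1 / (2 * Real.pi) := by
    rw [hc, norm_div, norm_mul, norm_mul, Complex.norm_real, Complex.norm_real, Complex.norm_I,
      Complex.norm_ofNat, Real.norm_eq_abs, Real.norm_eq_abs, hσ, abs_of_pos Real.pi_pos, mul_one]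
  have hc2 : ∀ s : ℝ, c * (2 * Real.pi * ((σ * s : ℝ) : ℂ) * Complex.I) = s := by
    intro s
    have hpi : (Real.pi : ℂ) ≠ 0 := by exact_mod_cast Real.pi_ne_zero
    have hI : Complex.I ≠ 0 := Complex.I_ne_zero
    rw [hc]
    push_cast
    field_simp
    have : (σ : ℂ) * σ = 1 := by exact_mod_cast hσ2
    linear_combination (s : ℂ) * this
  have hG : ∀ x ∈ Set.Icc a b, HasDerivAt (fun y => c * ee (φ y) * (((ψ y)⁻¹ : ℝ) : ℂ))
      (ee (φ x) + c * ee (φ x) * ((-ψ' x / (ψ x) ^ 2 : ℝ) : ℂ)) x := by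
    intro x hx
    have hd := ((Ibp_ee_hasDerivAt φ _ x (h1 x hx)).const_mul c).mul (hinv x hx).ofReal_comp
    have h7 := hc2 (ψ x)
    have h8 : ((ψ x : ℝ) : ℂ) * (((ψ x)⁻¹ : ℝ) : ℂ) = 1 := by
      rw [← Complex.ofReal_mul, mul_inv_cancel₀ (hpos x hx).ne', Complex.ofReal_one]
    have h9 : c * (2 * Real.pi * ((σ * ψ x : ℝ) : ℂ) * Complex.I * ee (φ x)) *
        (((ψ x)⁻¹ : ℝ) : ℂ) = ee (φ x) := by
      calc c * (2 * Real.pi * ((σ * ψ x : ℝ) : ℂ) * Complex.I * ee (φ x)) *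
        (((ψ x)⁻¹ : ℝ) : ℂ) = (c * (2 * Real.pi * ((σ * ψ x : ℝ) : ℂ) * Complex.I)) * 
          (((ψ x)⁻¹ : ℝ) : ℂ) * ee (φ x) := by ring
        _ = ee (φ x) := by rw [h7, h8, one_mul]
    rw [h9] at hd
    exact hd
  have hint1 : IntervalIntegrable (fun x => ee (φ x)) volume a b :=
    (huIcc ▸ hcont : ContinuousOn _ (Set.uIcc a b)).intervalIntegrable
  have hcont2 : ContinuousOn (fun x => c * ee (φ x) * ((-ψ' x / (ψ x) ^ 2 : ℝ) : ℂ))
      (Set.Icc a b) :=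
    (continuousOn_const.mul hcont).mul (Complex.continuous_ofReal.comp_continuousOn hgc)
  have hint2 : IntervalIntegrable (fun x => c * ee (φ x) * ((-ψ' x / (ψ x) ^ 2 : ℝ) : ℂ))
      volume a b := (huIcc ▸ hcont2 : ContinuousOn _ (Set.uIcc a b)).intervalIntegrable
  have hFTC2 : ∫ x in a..b, (ee (φ x) + c * ee (φ x) * ((-ψ' x / (ψ x) ^ 2 : ℝ) : ℂ)) =
      c * ee (φ b) * (((ψ b)⁻¹ : ℝ) : ℂ) - c * ee (φ a) * (((ψ a)⁻¹ : ℝ) : ℂ) :=
    intervalIntegral.integral_eq_sub_of_hasDerivAt (fun x hx => hG x (huIcc ▸ hx))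
      (hint1.add hint2)
  rw [intervalIntegral.integral_add hint1 hint2] at hFTC2
  have hmain : ∫ x in a..b, ee (φ x) = (c * ee (φ b) * (((ψ b)⁻¹ : ℝ) : ℂ) -
      c * ee (φ a) * (((ψ a)⁻¹ : ℝ) : ℂ)) -
      ∫ x in a..b, c * ee (φ x) * ((-ψ' x / (ψ x) ^ 2 : ℝ) : ℂ) := by
    rw [← hFTC2]; ring
  have ha : a ∈ Set.Icc a b := ⟨le_refl _, hab⟩
  have hb : b ∈ Set.Icc a b := ⟨hab, le_refl _⟩
  have hia : (ψ a)⁻¹ ≤ 1 / lam := by
    rw [← one_div]; exact one_div_le_one_div_of_le hlam (h5 a ha)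
  have hib : (ψ b)⁻¹ ≤ 1 / lam := by
    rw [← one_div]; exact one_div_le_one_div_of_le hlam (h5 b hb)
  have hia0 : 0 < (ψ a)⁻¹ := inv_pos.mpr (hpos a ha)
  have hib0 : 0 < (ψ b)⁻¹ := inv_pos.mpr (hpos b hb)
  have hbd : ∀ x : ℝ, 0 < (ψ x)⁻¹ → ‖c * ee (φ x) * (((ψ x)⁻¹ : ℝ) : ℂ)‖ =
      1 / (2 * Real.pi) * (ψ x)⁻¹ := by
    intro x hx
    rw [norm_mul, norm_mul, hcn, Ibp_norm_ee, Complex.norm_real, Real.norm_eq_abs, abs_of_pos hx,
      mul_one]
  have hI2 : ‖∫ x in a..b, c * ee (φ x) * ((-ψ' x / (ψ x) ^ 2 : ℝ) : ℂ)‖ ≤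
      1 / (2 * Real.pi) * ((ψ b)⁻¹ - (ψ a)⁻¹) := by
    rw [← hFTC1, ← intervalIntegral.integral_const_mul]
    apply intervalIntegral.norm_integral_le_of_norm_le hab
    · refine Filter.Eventually.of_forall fun x hx => ?_
      have hx' : x ∈ Set.Icc a b := Set.Ioc_subset_Icc_self hx
      rw [norm_mul, norm_mul, hcn, Ibp_norm_ee, Complex.norm_real, Real.norm_eq_abs, abs_of_nonneg,
        mul_one]
      have := h3 x hx'
      have h0 : 0 ≤ -ψ' x := by linarith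
      positivity
    · exact ((huIcc ▸ hgc : ContinuousOn _ (Set.uIcc a b)).intervalIntegrable).const_mul _
  rw [hmain]
  have hpi3 : (3 : ℝ) < Real.pi := Real.pi_gt_three
  have hq : 1 / (2 * Real.pi) ≤ 1 / 3 := by
    apply one_div_le_one_div_of_le <;> linarith
  have hq0 : 0 < 1 / (2 * Real.pi) := by positivity
  calc ‖(c * ee (φ b) * (((ψ b)⁻¹ : ℝ) : ℂ) - c * ee (φ a) * (((ψ a)⁻¹ : ℝ) : ℂ)) -
      ∫ x in a..b, c * ee (φ x) * ((-ψ' x / (ψ x) ^ 2 : ℝ) : ℂ)‖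
      ≤ (‖c * ee (φ b) * (((ψ b)⁻¹ : ℝ) : ℂ)‖ + ‖c * ee (φ a) * (((ψ a)⁻¹ : ℝ) : ℂ)‖) +
        ‖∫ x in a..b, c * ee (φ x) * ((-ψ' x / (ψ x) ^ 2 : ℝ) : ℂ)‖ :=
        (norm_sub_le _ _).trans (by gcongr; exact norm_sub_le _ _)
    _ ≤ (1 / (2 * Real.pi) * (ψ b)⁻¹ + 1 / (2 * Real.pi) * (ψ a)⁻¹) +
        1 / (2 * Real.pi) * ((ψ b)⁻¹ - (ψ a)⁻¹) := by
        rw [hbd b hib0, hbd a hia0]
        gcongr
    _ = 1 / (2 * Real.pi) * (2 * (ψ b)⁻¹) := by ring
    _ ≤ 1 / 3 * (2 * (ψ b)⁻¹) := by gcongr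
    _ ≤ 1 / lam := by nlinarith

theorem first_deriv (φ ψ ψ' : ℝ → ℝ) (a b : ℕ) (hab : a ≤ b) (σ lam Lam : ℝ) (hσ : |σ| = 1)
    (hlam : 0 < lam) (h1 : ∀ x ∈ Set.Icc (a : ℝ) b, HasDerivAt φ (σ * ψ x) x)
    (h2 : ∀ x ∈ Set.Icc (a : ℝ) b, HasDerivAt ψ (ψ' x) x)
    (h3 : ∀ x ∈ Set.Icc (a : ℝ) b, ψ' x ≤ 0) (h4 : ContinuousOn ψ' (Set.Icc (a : ℝ) b))
    (h5 : ∀ x ∈ Set.Icc (a : ℝ) b, lam ≤ ψ x ∧ ψ x ≤ Lam) :
    ‖∑ n ∈ Ioc a b, ee (φ n)‖ ≤ 1 / lam + 7 * Lam * ((b : ℝ) - a) := by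
  have habR : (a : ℝ) ≤ b := by exact_mod_cast hab
  have hA := Ibp_sum_int φ ψ a b hab σ Lam hσ h1
    (fun x hx => ⟨lt_of_lt_of_le hlam (h5 x hx).1, (h5 x hx).2⟩)
  have hB := Ibp_int φ ψ ψ' a b habR σ lam hσ hlam h1 h2 h3 h4 (fun x hx => (h5 x hx).1)
  have hLam0 : 0 ≤ Lam := by
    have hb : (b : ℝ) ∈ Set.Icc (a : ℝ) b := ⟨habR, le_refl _⟩
    have := h5 _ hb
    linarith [this.1, this.2]
  have hpi : 2 * Real.pi ≤ 7 := by
    have := Real.pi_lt_d2
    linarith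
  calc ‖∑ n ∈ Ioc a b, ee (φ n)‖
      = ‖(∑ n ∈ Ioc a b, ee (φ n) - ∫ x in (a : ℝ)..b, ee (φ x)) +
          ∫ x in (a : ℝ)..b, ee (φ x)‖ := by rw [sub_add_cancel]
    _ ≤ 2 * Real.pi * Lam * ((b : ℝ) - a) + 1 / lam :=
        (norm_add_le _ _).trans (add_le_add hA hB)
    _ ≤ 7 * Lam * ((b : ℝ) - a) + 1 / lam := by
        gcongr
    _ = 1 / lam + 7 * Lam * ((b : ℝ) - a) := by ring

end Pool.Agent.H76.EHB

end

section

/-!
# EHB AvA: the differenced sums of `t log(x+β)`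

`PH hs t β` is the iterated difference of `x ↦ t log(x+β)`; derivative `(-1)^J t LL hs β x`, `J = hs.length` (induction, `LL_nil`, `LL_cons`).
`av_base` (`J` differences already made, all `h ≥ 1`, on an interval `[a,b] ⊆ [M, 2M]`, `hs.sum ≤ M`, `0 ≤ β ≤ 1`, `t ≠ 0`): `first_deriv` with
`ψ = |t| LL hs β`, `σ = ±1`, `λ = |t| J! ∏h/(4M)^{J+1}` (`x + β + ∑h ≤ 2M + 1 + M ≤ 4M`), `Λ = |t| J! ∏h/M^{J+1}`, `b - a ≤ M`.
-/

set_option autoImplicit false

namespace Pool.Agent.H76.EHB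

open Finset
open Pool.Agent.H91.PK (ee)

/-- iterated differences of `x ↦ t log(x + β)` -/
noncomputable def PH : List ℝ → ℝ → ℝ → ℝ → ℝ
  | [], t, β, x => t * Real.log (x + β)
  | (h :: hs), t, β, x => PH hs t β (x + h) - PH hs t β x

theorem AvA_deriv (hs : List ℝ) (t β : ℝ) (hpos : ∀ g ∈ hs, 0 < g) : ∀ x : ℝ, 0 < x + β →
    HasDerivAt (PH hs t β) ((-1) ^ hs.length * t * LL hs β x) x := by
  induction hs with
  | nil =>
    intro x hx
    have h1 : HasDerivAt (fun y : ℝ => t * Real.log (y + β)) (t * (1 / (x + β))) x := by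
      have h2 : HasDerivAt (fun y : ℝ => y + β) 1 x := (hasDerivAt_id x).add_const β
      exact (h2.log hx.ne').const_mul t
    rw [LL_nil β x hx]
    simpa [PH] using h1
  | cons h hs ih =>
    intro x hx
    have hh : 0 < h := hpos h (by simp)
    have hpos' : ∀ g ∈ hs, 0 < g := fun g hg => hpos g (by simp [hg])
    have h1 := ih hpos' (x + h) (by linarith)
    have h2 := ih hpos' x hx
    have h3 : HasDerivAt (fun y : ℝ => PH hs t β (y + h))
        ((-1) ^ hs.length * t * LL hs β (x + h)) x := by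
      have h4 : HasDerivAt (fun y : ℝ => y + h) 1 x := (hasDerivAt_id x).add_const h
      have h5 := HasDerivAt.comp x h1 h4
      rw [mul_one] at h5
      exact h5
    have h6 := h3.sub h2
    rw [LL_cons h hs β x hx hh hpos', List.length_cons, pow_succ]
    have e : (-1 : ℝ) ^ hs.length * t * LL hs β (x + h) - (-1) ^ hs.length * t * LL hs β x =
        (-1) ^ hs.length * (-1) * t * (LL hs β x - LL hs β (x + h)) := by ring
    rw [← e]
    exact h6

theorem av_base (hs : List ℝ) (t β : ℝ) (M a b : ℕ) (hM : 1 ≤ M) (ha : M ≤ a) (hb : b ≤ 2 * M)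
    (hβ : 0 ≤ β) (hβ1 : β ≤ 1) (ht : t ≠ 0) (hpos : ∀ g ∈ hs, 1 ≤ g) (hsum : hs.sum ≤ M) :
    ‖∑ n ∈ Ioc a b, ee (PH hs t β n)‖
      ≤ (4 * M : ℝ) ^ (hs.length + 1) / (|t| * hs.prod)
        + 7 * (hs.length.factorial : ℝ) * |t| * hs.prod / (M : ℝ) ^ hs.length := by
  have hM' : (1 : ℝ) ≤ M := by exact_mod_cast hM
  have hpos' : ∀ g ∈ hs, 0 < g := fun g hg => lt_of_lt_of_le one_pos (hpos g hg)
  have hprod : 0 < hs.prod := List.prod_pos hpos'
  have hsum0 : 0 ≤ hs.sum := List.sum_nonneg (fun g hg => (hpos' g hg).le)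
  have ht' : 0 < |t| := abs_pos.mpr ht
  have hfac : (1 : ℝ) ≤ (hs.length.factorial : ℝ) := by exact_mod_cast Nat.succ_le_of_lt (Nat.factorial_pos _)
  have hfac0 : (0 : ℝ) < (hs.length.factorial : ℝ) := by linarith
  rcases le_total a b with hab | hab
  swap
  · rw [Finset.Ioc_eq_empty_of_le hab, Finset.sum_empty, norm_zero]
    positivity
  have haR : (M : ℝ) ≤ a := by exact_mod_cast ha
  have hbR : (b : ℝ) ≤ 2 * M := by exact_mod_cast hb
  have hxpos : ∀ x ∈ Set.Icc (a : ℝ) b, (M : ℝ) ≤ x + β ∧ x + β + hs.sum ≤ 4 * M := by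
    intro x hx
    exact ⟨by linarith [hx.1], by linarith [hx.2]⟩
  have key := first_deriv (PH hs t β) (fun x => |t| * LL hs β x) (fun x => |t| * (-LD hs β x)) a b hab
    ((-1) ^ hs.length * SignType.sign t)
    (|t| * ((hs.length.factorial : ℝ) * hs.prod / (4 * M) ^ (hs.length + 1)))
    (|t| * ((hs.length.factorial : ℝ) * hs.prod / (M : ℝ) ^ (hs.length + 1))) ?_ (by positivity)
    ?_ ?_ ?_ ?_ ?_
  · refine key.trans (add_le_add ?_ ?_)
    · rw [one_div, mul_div_assoc', inv_div]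
      refine div_le_div_of_nonneg_left (by positivity) (by positivity) ?_
      refine mul_le_mul_of_nonneg_left ?_ ht'.le
      calc hs.prod = 1 * hs.prod := (one_mul _).symm
        _ ≤ (hs.length.factorial : ℝ) * hs.prod := mul_le_mul_of_nonneg_right hfac hprod.le
    · have hba : (b : ℝ) - a ≤ M := by linarith
      calc 7 * (|t| * ((hs.length.factorial : ℝ) * hs.prod / (M : ℝ) ^ (hs.length + 1))) *
            ((b : ℝ) - a)
          ≤ 7 * (|t| * ((hs.length.factorial : ℝ) * hs.prod / (M : ℝ) ^ (hs.length + 1))) * M :=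
            mul_le_mul_of_nonneg_left hba (by positivity)
        _ = 7 * (hs.length.factorial : ℝ) * |t| * hs.prod / (M : ℝ) ^ hs.length := by
            rw [pow_succ]
            field_simp
  · rw [abs_mul, abs_pow, abs_neg, abs_one, one_pow, one_mul]
    rcases lt_or_gt_of_ne ht with h | h
    · rw [sign_neg h]; simp
    · rw [sign_pos h]; simp
  · intro x hx
    have h1 := AvA_deriv hs t β hpos' x (by linarith [(hxpos x hx).1])
    have e : (-1 : ℝ) ^ hs.length * t * LL hs β x =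
        (-1) ^ hs.length * (SignType.sign t : ℝ) * (|t| * LL hs β x) := by
      have h2 : (SignType.sign t : ℝ) * |t| = t := sign_mul_abs t
      calc (-1 : ℝ) ^ hs.length * t * LL hs β x =
          (-1 : ℝ) ^ hs.length * ((SignType.sign t : ℝ) * |t|) * LL hs β x := by rw [h2]
        _ = _ := by ring
    rw [← e]
    exact h1
  · intro x hx
    exact (LL_hasDerivAt hs β x (by linarith [(hxpos x hx).1]) hpos').const_mul |t|
  · intro x hx
    have := LD_nonneg hs β x hpos'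
    nlinarith
  · refine ContinuousOn.mul continuousOn_const ?_
    refine ((LD_continuousOn hs β hpos').mono ?_).neg
    intro x hx
    have := (hxpos x hx).1
    simp only [Set.mem_Ioi]
    linarith
  · intro x hx
    obtain ⟨h1, h2⟩ := hxpos x hx
    have hx0 : 0 < x + β := by linarith
    constructor
    · refine mul_le_mul_of_nonneg_left ?_ ht'.le
      refine le_trans ?_ (LL_ge hs β x hx0 hpos')
      refine div_le_div_of_nonneg_left (by positivity) (by positivity) ?_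
      exact pow_le_pow_left₀ (by linarith) h2 _
    · refine mul_le_mul_of_nonneg_left ?_ ht'.le
      refine (LL_le hs β x hx0 hpos').trans ?_
      refine div_le_div_of_nonneg_left (by positivity) (by positivity) ?_
      exact pow_le_pow_left₀ (by linarith) h1 _

end Pool.Agent.H76.EHB

end

section

/-!
# EHB Vdc2: iteration

`AvS H J φ a b` is the average over `h_1, …, h_J ∈ [1, H]` of the absolute value of the sum with the `J`-fold difference of the phase.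
Induction on `J` (for all `φ, a, b` with `b - a ≤ Y`): with `S = |∑ ee(φ n)|`,
`(S/Y)^2 ≤ 2/H + 4 (1/H) ∑_h S_h/Y` (`vdc_step` with `z n = ee (φ n)`, `z(n+h) conj z n = ee(φ(n+h) - φ n)`), so
`(S/Y)^{2^{J+1}} ≤ 2^{2^J} ((2/H)^{2^J} + 4^{2^J} (1/H) ∑_h (S_h/Y)^{2^J})` (convexity; Jensen `inner_le_nnorm_mul_nnorm` or
`Finset.inner_mul_le_norm_mul_norm`, e.g. `Real.pow_arith_mean_le_arith_mean_pow`) `≤ 8^{2^J} (1/H + (1/H) ∑_h (S_h/Y)^{2^J})`, and the induction hypothesis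
for each `h` (interval `Ioc a (b-h)`, length `≤ Y`).  Constants: `C_{J+1} ≤ 8^{2^J} (1 + C_J) ≤ 16^{2^{J+1}}` if `C_J = 16^{2^J}`, `C_0 ≥ 1`.
-/

set_option autoImplicit false

namespace Pool.Agent.H76.EHB

open Finset
open Pool.Agent.H91.PK (ee)

/-- average of the differenced sums -/
noncomputable def AvS (H : ℕ) : ℕ → (ℕ → ℝ) → ℕ → ℕ → ℝ
  | 0, φ, a, b => ‖∑ n ∈ Ioc a b, ee (φ n)‖
  | (J + 1), φ, a, b => 1 / (H : ℝ) * ∑ h ∈ Icc 1 H, AvS H J (fun n => φ (n + h) - φ n) a (b - h)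

theorem AvS_nonneg (H J : ℕ) (φ : ℕ → ℝ) (a b : ℕ) : 0 ≤ AvS H J φ a b := by
  induction J generalizing φ b with
  | zero => exact norm_nonneg _
  | succ J ih =>
    unfold AvS
    apply mul_nonneg (by positivity)
    exact Finset.sum_nonneg (fun h _ => ih _ _)

theorem vdc_iter (J : ℕ) (φ : ℕ → ℝ) (a b Y H : ℕ) (hab : b - a ≤ Y) (hH : 1 ≤ H) (hHY : H ≤ Y) :
    (‖∑ n ∈ Ioc a b, ee (φ n)‖ / Y) ^ (2 ^ J) ≤ 16 ^ (2 ^ J) * (1 / (H : ℝ) + AvS H J φ a b / Y) := by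
  have hH0 : (0 : ℝ) < H := by exact_mod_cast hH
  have hY0 : (0 : ℝ) < Y := by exact_mod_cast (lt_of_lt_of_le hH hHY)
  have hH1 : (1 : ℝ) ≤ H := by exact_mod_cast hH
  induction J generalizing φ b with
  | zero =>
    simp only [pow_zero, pow_one, AvS]
    have h1 : 0 ≤ ‖∑ n ∈ Ioc a b, ee (φ n)‖ / (Y : ℝ) := by positivity
    have h2 : 0 ≤ 1 / (H : ℝ) := by positivity
    linarith
  | succ J ih =>
    have hN0 : (2 : ℕ) ^ (J + 1) = 2 * 2 ^ J := by rw [pow_succ]; ring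
    rw [hN0]
    have hN1 : 1 ≤ 2 ^ J := Nat.one_le_two_pow
    generalize hN : 2 ^ J = N at ih hN1 ⊢
    set S : ℝ := ‖∑ n ∈ Ioc a b, ee (φ n)‖ with hS
    set X : ℕ → ℝ := fun h => ‖∑ n ∈ Ioc a (b - h), ee (φ (n + h) - φ n)‖ / Y with hX
    have hX0 : ∀ h, 0 ≤ X h := fun h => by rw [hX]; positivity
    have hstep := vdc_step (fun n => ee (φ n)) (fun n => by rw [Pool.Agent.H91.PK.LSa_norm_ee]) a b Y H hab hH hHY
    have hXe : ∀ h, ‖∑ n ∈ Ioc a (b - h), ee (φ (n + h)) * (starRingEnd ℂ) (ee (φ n))‖ = Y * X h := by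
      intro h
      have e1 : ∀ n, ee (φ (n + h)) * (starRingEnd ℂ) (ee (φ n)) = ee (φ (n + h) - φ n) := by
        intro n
        rw [Pool.Agent.H91.PK.LSa_conj_ee, ← Pool.Agent.H91.PK.LSa_ee_add, sub_eq_add_neg]
      simp only [e1, hX]
      field_simp
    have h1 : (S / Y) ^ 2 ≤ 2 / H + 4 * (1 / (H : ℝ) * ∑ h ∈ Icc 1 H, X h) := by
      have h2 : S ^ 2 ≤ 2 * (Y : ℝ) ^ 2 / H + 4 * (Y : ℝ) / H * ∑ h ∈ Icc 1 H, (Y * X h) := by
        have h3 := hstep
        simp only [hXe] at h3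
        exact h3
      rw [div_pow, div_le_iff₀ (by positivity)]
      refine h2.trans (le_of_eq ?_)
      rw [← Finset.mul_sum]
      field_simp
    have hm0 : 0 ≤ 1 / (H : ℝ) * ∑ h ∈ Icc 1 H, X h :=
      mul_nonneg (by positivity) (Finset.sum_nonneg fun h _ => hX0 h)
    -- Jensen
    have hJen : (1 / (H : ℝ) * ∑ h ∈ Icc 1 H, X h) ^ N ≤ 1 / (H : ℝ) * ∑ h ∈ Icc 1 H, X h ^ N := by
      have h3 := Real.pow_arith_mean_le_arith_mean_pow (Icc 1 H) (fun _ => 1 / (H : ℝ)) X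
        (fun _ _ => by positivity) (by simp [Nat.card_Icc]; field_simp) (fun h _ => hX0 h) N
      rw [← Finset.mul_sum, ← Finset.mul_sum] at h3
      exact h3
    have hIH : ∀ h ∈ Icc 1 H, X h ^ N ≤ 16 ^ N * (1 / (H : ℝ)
        + AvS H J (fun n => φ (n + h) - φ n) a (b - h) / Y) := by
      intro h _
      exact ih (fun n => φ (n + h) - φ n) (b - h) (by omega)
    have hA : 1 / (H : ℝ) * ∑ h ∈ Icc 1 H, X h ^ N
        ≤ 16 ^ N * (1 / (H : ℝ) + AvS H (J + 1) φ a b / Y) := by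
      calc 1 / (H : ℝ) * ∑ h ∈ Icc 1 H, X h ^ N
          ≤ 1 / (H : ℝ) * ∑ h ∈ Icc 1 H, 16 ^ N * (1 / (H : ℝ)
              + AvS H J (fun n => φ (n + h) - φ n) a (b - h) / Y) :=
            mul_le_mul_of_nonneg_left (Finset.sum_le_sum hIH) (by positivity)
        _ = 16 ^ N * (1 / (H : ℝ) + AvS H (J + 1) φ a b / Y) := by
            have e7 : AvS H (J + 1) φ a b
                = 1 / (H : ℝ) * ∑ h ∈ Icc 1 H, AvS H J (fun n => φ (n + h) - φ n) a (b - h) := rfl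
            have e8 : ∑ h ∈ Icc 1 H, AvS H J (fun n => φ (n + h) - φ n) a (b - h) / (Y : ℝ)
                = (∑ h ∈ Icc 1 H, AvS H J (fun n => φ (n + h) - φ n) a (b - h)) / (Y : ℝ) :=
              (Finset.sum_div _ _ _).symm
            have e9 : ∑ _h ∈ Icc 1 H, (1 / (H : ℝ)) = 1 := by
              simp only [Finset.sum_const, Nat.card_Icc, nsmul_eq_mul]
              have : ((H + 1 - 1 : ℕ) : ℝ) = H := by simp
              rw [this]; field_simp
            rw [← Finset.mul_sum, Finset.sum_add_distrib, e8, e9, e7]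
            ring
    set Z : ℝ := 1 / (H : ℝ) + AvS H (J + 1) φ a b / Y with hZ
    have hZ0 : 1 / (H : ℝ) ≤ Z := by
      rw [hZ]
      have := AvS_nonneg H (J + 1) φ a b
      have : 0 ≤ AvS H (J + 1) φ a b / Y := by positivity
      linarith
    have hZp : 0 ≤ Z := le_trans (by positivity) hZ0
    have hinv : (1 / (H : ℝ)) ^ N ≤ 1 / (H : ℝ) := by
      have h5 : 1 / (H : ℝ) ≤ 1 := by rw [div_le_one hH0]; exact hH1
      calc (1 / (H : ℝ)) ^ N ≤ (1 / (H : ℝ)) ^ 1 := pow_le_pow_of_le_one (by positivity) h5 hN1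
        _ = _ := pow_one _
    clear_value Z
    generalize (1 / (H : ℝ) * ∑ h ∈ Icc 1 H, X h) = m at h1 hm0 hJen
    have k1 : (S / Y) ^ (2 * N) ≤ (2 / H + 4 * m) ^ N := by
      rw [pow_mul]
      exact pow_le_pow_left₀ (sq_nonneg _) h1 N
    have k2 : (2 / (H : ℝ) + 4 * m) ^ N ≤ 2 ^ (N - 1) * ((2 / (H : ℝ)) ^ N + (4 * m) ^ N) :=
      add_pow_le (by positivity) (by linarith) N
    have e1 : (2 / (H : ℝ)) ^ N = 2 ^ N * (1 / (H : ℝ)) ^ N := by
      rw [← mul_pow]; ring_nf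
    have e10 : (2 : ℝ) ^ N ≤ 64 ^ N :=
      pow_le_pow_left₀ (by norm_num : (0 : ℝ) ≤ 2) (by norm_num : (2 : ℝ) ≤ 64) N
    have k3 : (2 / (H : ℝ)) ^ N ≤ 64 ^ N * Z := by
      rw [e1]
      exact mul_le_mul e10 (hinv.trans hZ0) (by positivity) (by positivity)
    have e2 : (4 : ℝ) ^ N * (16 ^ N * Z) = 64 ^ N * Z := by
      rw [← mul_assoc, ← mul_pow]; norm_num
    have k4 : (4 * m) ^ N ≤ 64 ^ N * Z := by
      rw [mul_pow, ← e2]
      exact mul_le_mul_of_nonneg_left (hJen.trans hA) (by positivity)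
    have e3 : (2 : ℝ) ^ N = 2 ^ (N - 1) * 2 := by
      rw [← pow_succ]; congr 1; omega
    have k5 : (2 : ℝ) ^ (N - 1) * ((2 / (H : ℝ)) ^ N + (4 * m) ^ N) ≤ 2 ^ N * 64 ^ N * Z := by
      have h6 : (2 : ℝ) ^ (N - 1) * ((2 / (H : ℝ)) ^ N + (4 * m) ^ N)
          ≤ 2 ^ (N - 1) * (64 ^ N * Z + 64 ^ N * Z) :=
        mul_le_mul_of_nonneg_left (add_le_add k3 k4) (by positivity)
      refine h6.trans (le_of_eq ?_)
      rw [e3]; ring
    have e4 : (16 : ℝ) ^ (2 * N) = 256 ^ N := by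
      rw [pow_mul]; norm_num
    have k6 : (2 : ℝ) ^ N * 64 ^ N * Z ≤ 16 ^ (2 * N) * Z := by
      apply mul_le_mul_of_nonneg_right _ hZp
      rw [e4, ← mul_pow]
      exact pow_le_pow_left₀ (by norm_num) (by norm_num) N
    exact k1.trans (k2.trans (k5.trans k6))

end Pool.Agent.H76.EHB

end

section

/-!
# The series of `(Λ(n) - 1)(log n)^k` for `|Im s| ≤ 1`

The series is `(-1)^k G^{(k)}(s)`, `G = -ζ'/ζ - ζ`, and `G` extends to a function analytic in a neighbourhood of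
`{1 ≤ Re s ≤ 2, |Im s| ≤ 1}`: `ζ(s) = h(s)/(s-1)` with `h` entire (removable singularity), `h(1) = 1`,
`h ≠ 0` on `Re s ≥ 1` (`riemannZeta_ne_zero_of_one_le_re`), so
`-ζ'/ζ - ζ = -h'/h + 1/(s-1) - h/(s-1) = -h'/h - (h(s)-h(1))/(s-1)`.
A continuous function on a compact set is bounded.
-/

set_option autoImplicit false

namespace Pool.Agent.H91.EHA

open Finset

/-- The function `Λ - 1` with complex values. -/
private noncomputable def swj2F (n : ℕ) : ℂ := ((Lam n : ℝ) : ℂ) - 1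

/-- The analytic continuation of `-ζ'/ζ - ζ`. -/
private noncomputable def swj2G (s : ℂ) : ℂ :=
  -(deriv riemannZeta₁ s / riemannZeta₁ s) - riemannZeta₀ s

private theorem swj2_ne (s : ℂ) (hs : 1 ≤ s.re) : riemannZeta₁ s ≠ 0 := by
  by_cases h1 : s = 1
  · rw [h1, riemannZeta₁_one]
    exact one_ne_zero
  · intro h0
    have h2 := riemannZeta_ne_zero_of_one_le_re hs
    apply h2
    rw [riemannZeta_eq_inv_sub_mul h1, h0, mul_zero]

private theorem swj2_analytic (s : ℂ) (hs : 1 ≤ s.re) : AnalyticAt ℂ swj2G s := by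
  have h1 : AnalyticAt ℂ riemannZeta₁ s := differentiable_riemannZeta₁.analyticAt s
  have h0 : AnalyticAt ℂ riemannZeta₀ s := differentiable_riemannZeta₀.analyticAt s
  exact ((h1.deriv.div h1 (swj2_ne s hs)).neg).sub h0

private theorem swj2_summable (s : ℂ) (hs : 1 < s.re) : LSeriesSummable swj2F s := by
  have h1 : LSeriesSummable (fun n : ℕ => ((ArithmeticFunction.vonMangoldt n : ℝ) : ℂ)) s :=
    ArithmeticFunction.LSeriesSummable_vonMangoldt hs
  have h2 : LSeriesSummable (1 : ℕ → ℂ) s := LSeriesSummable_one_iff.mpr hs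
  exact h1.sub h2

private theorem swj2_eq (s : ℂ) (hs : 1 < s.re) : LSeries swj2F s = swj2G s := by
  have h1 : LSeriesSummable (fun n : ℕ => ((ArithmeticFunction.vonMangoldt n : ℝ) : ℂ)) s :=
    ArithmeticFunction.LSeriesSummable_vonMangoldt hs
  have h2 : LSeriesSummable (1 : ℕ → ℂ) s := LSeriesSummable_one_iff.mpr hs
  have h3 : LSeries swj2F s = LSeries (fun n : ℕ => ((ArithmeticFunction.vonMangoldt n : ℝ) : ℂ)) s -
      LSeries 1 s := LSeries_sub h1 h2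
  have hne : s ≠ 1 := by
    intro h
    rw [h, Complex.one_re] at hs
    exact lt_irrefl _ hs
  have hz1 := swj2_ne s hs.le
  have hs1 : s - 1 ≠ 0 := sub_ne_zero.mpr hne
  rw [h3, ArithmeticFunction.LSeries_vonMangoldt_eq_deriv_riemannZeta_div hs,
    LSeries_one_eq_riemannZeta hs, deriv_riemannZeta_eq_neg_inv_sub_sq_mul_add hne]
  have h4 : riemannZeta s = (s - 1)⁻¹ * riemannZeta₁ s := riemannZeta_eq_inv_sub_mul hne
  have h5 : riemannZeta s = (s - 1)⁻¹ + riemannZeta₀ s := riemannZeta_eq_inv_sub_add hne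
  have h6 : riemannZeta₀ s = (s - 1)⁻¹ * riemannZeta₁ s - (s - 1)⁻¹ := by
    rw [← h4, h5]; ring
  unfold swj2G
  rw [h4, h6]
  field_simp
  ring

private theorem swj2_logMul (k n : ℕ) :
    (LSeries.logMul^[k] swj2F) n = Complex.log n ^ k * swj2F n := by
  induction k generalizing n with
  | zero => simp
  | succ k ih =>
    rw [Function.iterate_succ_apply', LSeries.logMul, ih, pow_succ]
    ring

theorem zetaF_low (k : ℕ) : ∃ C : ℝ, 0 < C ∧ ∀ s : ℂ, 1 < s.re → s.re ≤ 2 → |s.im| ≤ 1 →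
    ‖LSeries (fun n => (((Lam n - 1) * Real.log n ^ k : ℝ) : ℂ)) s‖ ≤ C := by
  have hK : IsCompact ((Set.Icc (1 : ℝ) 2) ×ℂ (Set.Icc (-1 : ℝ) 1)) :=
    isCompact_Icc.reProdIm isCompact_Icc
  have hc : ContinuousOn (iteratedDeriv k swj2G) ((Set.Icc (1 : ℝ) 2) ×ℂ (Set.Icc (-1 : ℝ) 1)) := by
    intro s hs
    rw [iteratedDeriv_eq_iterate]
    exact ((swj2_analytic s hs.1.1).iterated_deriv k).continuousAt.continuousWithinAt
  obtain ⟨B, hB⟩ := hK.exists_bound_of_continuousOn hc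
  refine ⟨|B| + 1, by positivity, fun s h1 h2 h3 => ?_⟩
  have hab : LSeries.abscissaOfAbsConv swj2F ≤ ((1 : ℝ) : EReal) := by
    refine LSeries.abscissaOfAbsConv_le_of_forall_lt_LSeriesSummable fun y hy => ?_
    exact swj2_summable y (by simpa using hy)
  have hab2 : LSeries.abscissaOfAbsConv swj2F < (s.re : EReal) :=
    lt_of_le_of_lt hab (by exact_mod_cast h1)
  have h4 := LSeries_iteratedDeriv (f := swj2F) k hab2
  have h5 : LSeries swj2F =ᶠ[nhds s] swj2G := by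
    have ho : IsOpen {z : ℂ | 1 < z.re} := isOpen_lt continuous_const Complex.continuous_re
    filter_upwards [ho.mem_nhds h1] with z hz
    exact swj2_eq z hz
  rw [h5.iteratedDeriv_eq k] at h4
  have h6 : LSeries (fun n => (((Lam n - 1) * Real.log n ^ k : ℝ) : ℂ)) s =
      LSeries (LSeries.logMul^[k] swj2F) s := by
    refine LSeries_congr (fun {n} _ => ?_) s
    rw [swj2_logMul, Complex.ofReal_mul, Complex.ofReal_pow, Complex.ofReal_log (Nat.cast_nonneg n),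
      Complex.ofReal_natCast]
    unfold swj2F
    push_cast
    ring
  have h7 : ‖LSeries (LSeries.logMul^[k] swj2F) s‖ = ‖iteratedDeriv k swj2G s‖ := by
    rw [h4, norm_mul, norm_pow, norm_neg, norm_one, one_pow, one_mul]
  rw [h6, h7]
  have hs : s ∈ (Set.Icc (1 : ℝ) 2) ×ℂ (Set.Icc (-1 : ℝ) 1) :=
    ⟨⟨h1.le, h2⟩, abs_le.mp h3⟩
  have h8 := hB s hs
  have h9 := le_abs_self B
  linarith

end Pool.Agent.H91.EHA

end

section

/-!
# VK Fou: counting with exponential sums on a finite grid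

Proofs.  `fs_orth`: the sum is the product over `j` of the geometric sums `∑_{a < Q} ee(a v_j / Q)` (`Finset.prod_univ_sum`), each is `Q` if
`Q ∣ v_j`, else `0`.
`fs_count`: expand the right side, `fs_orth` for `v = φ x - ψ y - h`; by `hb` divisibility of `v_j` by `Q` means `v_j = 0`.
`fs_pow`: `FS` of the power set with `∑ pv` is the product (`Finset.prod_univ_sum` / `Fintype.piFinset`), `pv` of `u : Fin s → ℕ` is the sum of the
values of the single coordinates.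
`shift_le`: Cauchy's inequality (either with `fs_count`, `Q` large, or directly: with `r(v) = #{x ∈ X : φ x = v}` the left side is `∑ r(v) r(v - h)`).
`sc_class`: `SC` is `(1/Q^k) ∑_α |FS W φ|^2 |f|^{2s}`, `f = FS A`, `f = ∑_{b < p} f_b`; Hölder (`inner_le_nnorm_mul_nnorm` or
`Real.pow_arith_mean_le_arith_mean_pow`, Mathlib `inner_mul_le_norm_mul_norm`, `Finset.sum_pow_le ...`): `|∑_b f_b|^{2s} ≤ p^{2s-1} ∑_b |f_b|^{2s}`.
(`W` and `A` are finite, so some `Q` satisfies the bounds needed in `fs_count`.)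
`jv_mono`, `jv_two`: `JV k (s + r) M ≤ M^{2r} JV k s M` (`|f| ≤ M`, or fix the last `r` coordinates of both tuples and use `shift_le`).
-/

set_option autoImplicit false

namespace Pool.Agent.H97.VK

open Finset
open Pool.Agent.H91.PK (ee)

private theorem ee_add' (s t : ℝ) : ee (s + t) = ee s * ee t :=
  Pool.Agent.H91.PK.LSa_ee_add s t

private theorem ee_zero' : ee 0 = 1 := by
  simp [ee]

private theorem ee_sum' {ι : Type*} (s : Finset ι) (f : ι → ℝ) :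
    ee (∑ i ∈ s, f i) = ∏ i ∈ s, ee (f i) := by
  classical
  induction s using Finset.induction_on with
  | empty => simp [ee_zero']
  | insert a s ha ih => rw [sum_insert ha, prod_insert ha, ee_add', ih]

private theorem ee_nsmul' (n : ℕ) (t : ℝ) : ee ((n : ℝ) * t) = ee t ^ n := by
  induction n with
  | zero => simp [ee_zero']
  | succ n ih => rw [pow_succ, ← ih, ← ee_add']; congr 1; push_cast; ring

private theorem ee_eq_one_iff' (t : ℝ) : ee t = 1 ↔ ∃ n : ℤ, t = n := by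
  unfold ee
  rw [Complex.exp_eq_one_iff]
  constructor
  · rintro ⟨n, hn⟩
    refine ⟨n, ?_⟩
    have h2 : (2 * (Real.pi : ℂ) * Complex.I) ≠ 0 := by
      simp [Real.pi_ne_zero, Complex.I_ne_zero]
    have h3 : (t : ℂ) * (2 * (Real.pi : ℂ) * Complex.I) = n * (2 * (Real.pi : ℂ) * Complex.I) := by
      rw [← hn]; ring
    have h4 := mul_right_cancel₀ h2 h3
    exact_mod_cast h4
  · rintro ⟨n, rfl⟩
    exact ⟨n, by push_cast; ring⟩

private theorem geom' (Q : ℕ) (hQ : 1 ≤ Q) (v : ℤ) :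
    ∑ a ∈ range Q, ee ((a : ℝ) * (v : ℝ) / Q) = if (Q : ℤ) ∣ v then (Q : ℂ) else 0 := by
  have hQ0 : (Q : ℝ) ≠ 0 := by positivity
  have h1 : ∀ a : ℕ, ee ((a : ℝ) * (v : ℝ) / Q) = ee ((v : ℝ) / Q) ^ a := by
    intro a
    rw [← ee_nsmul']
    congr 1
    ring
  simp_rw [h1]
  by_cases hd : (Q : ℤ) ∣ v
  · rw [if_pos hd]
    obtain ⟨m, rfl⟩ := hd
    have : ee ((((Q : ℤ) * m : ℤ) : ℝ) / Q) = 1 := by
      rw [ee_eq_one_iff']
      refine ⟨m, ?_⟩
      push_cast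
      field_simp
    rw [this]
    simp
  · rw [if_neg hd]
    have hne : ee ((v : ℝ) / Q) ≠ 1 := by
      rw [Ne, ee_eq_one_iff']
      rintro ⟨n, hn⟩
      apply hd
      refine ⟨n, ?_⟩
      rw [div_eq_iff hQ0] at hn
      have : (v : ℝ) = ((Q * n : ℤ) : ℝ) := by rw [hn]; push_cast; ring
      exact_mod_cast this
    have h3 := geom_sum_mul (ee ((v : ℝ) / Q)) Q
    have h4 : ee ((v : ℝ) / Q) ^ Q = 1 := by
      rw [← ee_nsmul', ee_eq_one_iff']
      exact ⟨v, by field_simp⟩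
    rw [h4, sub_self] at h3
    rcases mul_eq_zero.1 h3 with h | h
    · exact h
    · exact absurd (sub_eq_zero.1 h) hne

theorem fs_orth (k Q : ℕ) (hQ : 1 ≤ Q) (v : Fin k → ℤ) :
    ∑ α ∈ grid k Q, ee ((∑ j, (α j : ℝ) * (v j : ℝ)) / Q) = if ∀ j, (Q : ℤ) ∣ v j then ((Q : ℂ) ^ k) else 0 := by
  have h1 : ∀ α : Fin k → ℕ, ee ((∑ j, (α j : ℝ) * (v j : ℝ)) / Q) =
      ∏ j, ee ((α j : ℝ) * (v j : ℝ) / Q) := by
    intro α
    rw [sum_div, ee_sum']
  simp_rw [h1]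
  unfold grid
  rw [← Finset.prod_univ_sum (fun _ => range Q) (fun (j : Fin k) (a : ℕ) => ee ((a : ℝ) * (v j : ℝ) / Q))]
  simp_rw [geom' Q hQ]
  by_cases hd : ∀ j, (Q : ℤ) ∣ v j
  · rw [if_pos hd]
    rw [prod_congr rfl (fun j _ => if_pos (hd j))]
    simp
  · rw [if_neg hd]
    push Not at hd
    obtain ⟨j, hj⟩ := hd
    exact prod_eq_zero (mem_univ j) (if_neg hj)

theorem fs_count {ι κ : Type} {k : ℕ} (X : Finset ι) (Y : Finset κ) (φ : ι → Fin k → ℤ)
    (ψ : κ → Fin k → ℤ) (h : Fin k → ℤ) (Q : ℕ) (hQ : 1 ≤ Q)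
    (hb : ∀ x ∈ X, ∀ y ∈ Y, ∀ j, |φ x j - ψ y j - h j| < Q) :
    ((((X ×ˢ Y).filter (fun w => ∀ j, φ w.1 j = ψ w.2 j + h j)).card : ℕ) : ℂ) =
      (1 / (Q : ℂ) ^ k) * ∑ α ∈ grid k Q, FS X φ Q α * (starRingEnd ℂ) (FS Y ψ Q α) *
        ee (-(∑ j, (α j : ℝ) * (h j : ℝ)) / Q) := by
  have hQ0 : (Q : ℂ) ^ k ≠ 0 := by
    apply pow_ne_zero
    have : (Q : ℂ) ≠ 0 := by exact_mod_cast (by omega : Q ≠ 0)
    exact this
  have key : ∀ α : Fin k → ℕ, FS X φ Q α * (starRingEnd ℂ) (FS Y ψ Q α) *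
        ee (-(∑ j, (α j : ℝ) * (h j : ℝ)) / Q) =
      ∑ w ∈ X ×ˢ Y, ee ((∑ j, (α j : ℝ) * (((φ w.1 j - ψ w.2 j - h j : ℤ)) : ℝ)) / Q) := by
    intro α
    unfold FS
    rw [map_sum, sum_mul_sum, ← sum_product', sum_mul]
    apply sum_congr rfl
    intro w _
    rw [Pool.Agent.H91.PK.LSa_conj_ee, ← ee_add', ← ee_add']
    congr 1
    rw [← neg_div, ← add_div, ← add_div]
    congr 1
    rw [← sum_neg_distrib, ← sum_neg_distrib, ← sum_add_distrib, ← sum_add_distrib]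
    apply sum_congr rfl
    intro j _
    push_cast
    ring
  simp_rw [key]
  rw [sum_comm]
  simp_rw [fs_orth k Q hQ]
  rw [card_filter]
  push_cast
  rw [mul_sum]
  apply sum_congr rfl
  intro w hw
  rw [mem_product] at hw
  have hiff : (∀ j, (Q : ℤ) ∣ φ w.1 j - ψ w.2 j - h j) ↔ (∀ j, φ w.1 j = ψ w.2 j + h j) := by
    constructor
    · intro hd j
      have h1 := Int.eq_zero_of_abs_lt_dvd (hd j) (hb w.1 hw.1 w.2 hw.2 j)
      omega
    · intro he j
      have : φ w.1 j - ψ w.2 j - h j = 0 := by rw [he j]; ring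
      rw [this]
      exact dvd_zero _
  by_cases hc : ∀ j, φ w.1 j = ψ w.2 j + h j
  · rw [if_pos hc, if_pos (hiff.2 hc)]
    field_simp
  · rw [if_neg hc, if_neg (fun h => hc (hiff.1 h))]
    simp

theorem fs_pow (k s Q : ℕ) (A : Finset ℕ) (α : Fin k → ℕ) :
    FS (Fintype.piFinset (fun _ : Fin s => A)) (pv k) Q α =
      (∑ n ∈ A, ee ((∑ j : Fin k, (α j : ℝ) * (n : ℝ) ^ ((j : ℕ) + 1)) / Q)) ^ s := by
  unfold FS
  have h1 : ∀ x : Fin s → ℕ, ee ((∑ j, (α j : ℝ) * ((pv k x j : ℤ) : ℝ)) / Q) =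
      ∏ i, ee ((∑ j : Fin k, (α j : ℝ) * (x i : ℝ) ^ ((j : ℕ) + 1)) / Q) := by
    intro x
    rw [← ee_sum']
    congr 1
    rw [← sum_div]
    congr 1
    rw [sum_comm]
    apply sum_congr rfl
    intro j _
    rw [← mul_sum]
    congr 1
    unfold pv
    push_cast
    rfl
  simp_rw [h1]
  rw [← Finset.prod_univ_sum (fun _ : Fin s => A) (fun (_ : Fin s) (n : ℕ) =>
    ee ((∑ j : Fin k, (α j : ℝ) * (n : ℝ) ^ ((j : ℕ) + 1)) / Q))]
  simp

theorem shift_le {ι : Type} {k : ℕ} (X : Finset ι) (φ : ι → Fin k → ℤ) (h : Fin k → ℤ) :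
    ((X ×ˢ X).filter (fun w => ∀ j, φ w.1 j = φ w.2 j + h j)).card ≤
      ((X ×ˢ X).filter (fun w => ∀ j, φ w.1 j = φ w.2 j)).card := by
  classical
  -- r(v) = # {x ∈ X : φ x = v}
  set r : (Fin k → ℤ) → ℕ := fun v => (X.filter (fun x => φ x = v)).card with hr
  set V : Finset (Fin k → ℤ) := X.image φ ∪ X.image (fun x => φ x + h) with hV
  have hsum : ∀ g : Fin k → ℤ, (∀ x ∈ X, φ x + g ∈ V) →
      ((X ×ˢ X).filter (fun w => ∀ j, φ w.1 j = φ w.2 j + g j)).card =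
        ∑ v ∈ V, r v * r (v - g) := by
    intro g hg
    rw [card_eq_sum_card_fiberwise (f := fun w => φ w.2 + g) (t := V)]
    · apply sum_congr rfl
      intro v _
      rw [hr]
      simp only
      rw [← card_product]
      congr 1
      ext w
      simp only [mem_filter, mem_product]
      constructor
      · rintro ⟨⟨⟨h1, h2⟩, h3⟩, h4⟩
        refine ⟨⟨h1, ?_⟩, h2, ?_⟩
        · rw [← h4]; funext j; exact h3 j
        · rw [← h4]; simp
      · rintro ⟨⟨h1, h2⟩, h3, h4⟩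
        refine ⟨⟨⟨h1, h3⟩, ?_⟩, ?_⟩
        · intro j
          rw [h2, h4]; simp
        · rw [h4]; simp
    · intro w hw
      rw [mem_coe, mem_filter, mem_product] at hw
      exact hg _ hw.1.2
  have e1 := hsum h (fun x hx => by
    rw [hV, mem_union]; right; exact mem_image.2 ⟨x, hx, rfl⟩)
  have e0 := hsum 0 (fun x hx => by
    rw [hV, mem_union, add_zero]; left; exact mem_image.2 ⟨x, hx, rfl⟩)
  have e0' : ((X ×ˢ X).filter (fun w => ∀ j, φ w.1 j = φ w.2 j)).card =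
        ∑ v ∈ V, r v * r v := by
    simpa using e0
  rw [e1, e0']
  have hshift : ∑ v ∈ V, r (v - h) ^ 2 ≤ ∑ v ∈ V, r v ^ 2 := by
    -- support of r is image φ
    have hs : ∀ v, r v ≠ 0 → v ∈ X.image φ := by
      intro v hv
      rw [hr] at hv
      simp only at hv
      obtain ⟨x, hx⟩ := card_pos.1 (Nat.pos_of_ne_zero hv)
      rw [mem_filter] at hx
      exact mem_image.2 ⟨x, hx.1, hx.2⟩
    calc ∑ v ∈ V, r (v - h) ^ 2 = ∑ v ∈ V.filter (fun v => r (v - h) ≠ 0), r (v - h) ^ 2 := by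
          rw [sum_filter_of_ne]
          intro v _ hv hv'
          apply hv
          rw [hv']; simp
      _ = ∑ u ∈ (V.filter (fun v => r (v - h) ≠ 0)).image (fun v => v - h), r u ^ 2 := by
          rw [sum_image]
          intro a _ b _ hab
          simpa using hab
      _ ≤ ∑ v ∈ V, r v ^ 2 := by
          apply sum_le_sum_of_subset
          intro u hu
          rw [mem_image] at hu
          obtain ⟨v, hv, rfl⟩ := hu
          rw [mem_filter] at hv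
          rw [hV, mem_union]
          left
          exact hs _ hv.2
  have hcs : 2 * ∑ v ∈ V, r v * r (v - h) ≤ ∑ v ∈ V, r v ^ 2 + ∑ v ∈ V, r (v - h) ^ 2 := by
    rw [mul_sum, ← sum_add_distrib]
    apply sum_le_sum
    intro v _
    nlinarith [sq_nonneg ((r v : ℤ) - r (v - h)), two_mul_le_add_sq (r v) (r (v - h))]
  have hsq : ∑ v ∈ V, r v * r v = ∑ v ∈ V, r v ^ 2 := by
    apply sum_congr rfl
    intro v _
    ring
  omega

/-- combined counting set -/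
private theorem sc_fs {ι : Type} {k : ℕ} (s : ℕ) (W : Finset ι) (φ : ι → Fin k → ℤ) (A : Finset ℕ)
    (Q : ℕ) (hQ : 1 ≤ Q)
    (hb : ∀ x ∈ W ×ˢ (Fintype.piFinset (fun _ : Fin s => A)),
      ∀ y ∈ W ×ˢ (Fintype.piFinset (fun _ : Fin s => A)),
      ∀ j, |(φ x.1 j + pv k x.2 j) - (φ y.1 j + pv k y.2 j)| < (Q : ℤ)) :
    ((SC s W φ A : ℕ) : ℝ) =
      (1 / (Q : ℝ) ^ k) * ∑ α ∈ grid k Q, ‖FS W φ Q α‖ ^ 2 *
        ‖∑ n ∈ A, ee ((∑ j : Fin k, (α j : ℝ) * (n : ℝ) ^ ((j : ℕ) + 1)) / Q)‖ ^ (2 * s) := by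
  have h1 := fs_count (W ×ˢ (Fintype.piFinset (fun _ : Fin s => A)))
    (W ×ˢ (Fintype.piFinset (fun _ : Fin s => A)))
    (fun x j => φ x.1 j + pv k x.2 j) (fun x j => φ x.1 j + pv k x.2 j) 0 Q hQ
    (by
      intro x hx y hy j
      have := hb x hx y hy j
      simpa using this)
  have hcard : (((W ×ˢ (Fintype.piFinset (fun _ : Fin s => A))) ×ˢ
      (W ×ˢ (Fintype.piFinset (fun _ : Fin s => A)))).filter
        (fun w => ∀ j, φ w.1.1 j + pv k w.1.2 j = φ w.2.1 j + pv k w.2.2 j + (0 : Fin k → ℤ) j)).card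
      = SC s W φ A := by
    unfold SC
    apply card_bij (fun z _ => ((z.1.1, z.2.1), (z.1.2, z.2.2)))
    · intro z hz
      simp only [mem_filter, mem_product, Pi.zero_apply, add_zero] at hz ⊢
      tauto
    · intro z _ z' _ he
      simp only [Prod.mk.injEq] at he
      obtain ⟨⟨h1, h2⟩, h3, h4⟩ := he
      exact Prod.ext (Prod.ext h1 h3) (Prod.ext h2 h4)
    · intro z hz
      refine ⟨((z.1.1, z.2.1), (z.1.2, z.2.2)), ?_, rfl⟩
      simp only [mem_filter, mem_product, Pi.zero_apply, add_zero] at hz ⊢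
      tauto
  rw [hcard] at h1
  have hFS : ∀ α : Fin k → ℕ, FS (W ×ˢ (Fintype.piFinset (fun _ : Fin s => A)))
      (fun x j => φ x.1 j + pv k x.2 j) Q α = FS W φ Q α *
        (∑ n ∈ A, ee ((∑ j : Fin k, (α j : ℝ) * (n : ℝ) ^ ((j : ℕ) + 1)) / Q)) ^ s := by
    intro α
    rw [← fs_pow]
    unfold FS
    rw [sum_mul_sum, ← sum_product']
    apply sum_congr rfl
    intro x _
    rw [← ee_add', ← add_div, ← sum_add_distrib]
    congr 2
    apply sum_congr rfl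
    intro j _
    push_cast
    ring
  have h2 : ((SC s W φ A : ℕ) : ℂ) = (((1 / (Q : ℝ) ^ k) * ∑ α ∈ grid k Q, ‖FS W φ Q α‖ ^ 2 *
        ‖∑ n ∈ A, ee ((∑ j : Fin k, (α j : ℝ) * (n : ℝ) ^ ((j : ℕ) + 1)) / Q)‖ ^ (2 * s) : ℝ) : ℂ) := by
    rw [h1]
    push_cast
    congr 1
    apply sum_congr rfl
    intro α _
    have : ee (-(∑ j, (α j : ℝ) * (((0 : Fin k → ℤ) j : ℤ) : ℝ)) / Q) = 1 := by
      simp [ee_zero']
    rw [this, mul_one, Complex.mul_conj', hFS, norm_mul, norm_pow]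
    push_cast
    ring
  exact_mod_cast h2

private theorem hoelder' (p s : ℕ) (hs : 1 ≤ s) (g : ℕ → ℂ) :
    ‖∑ b ∈ range p, g b‖ ^ (2 * s) ≤ (p : ℝ) ^ (2 * s - 1) * ∑ b ∈ range p, ‖g b‖ ^ (2 * s) := by
  obtain ⟨m, hm⟩ : ∃ m, 2 * s = m + 1 := ⟨2 * s - 1, by omega⟩
  rw [hm, Nat.add_sub_cancel]
  have h1 : ‖∑ b ∈ range p, g b‖ ^ (m + 1) ≤ (∑ b ∈ range p, ‖g b‖) ^ (m + 1) :=
    pow_le_pow_left₀ (norm_nonneg _) (norm_sum_le _ _) _
  refine h1.trans ?_
  rcases Nat.eq_zero_or_pos p with rfl | hp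
  · simp
  have h3 := pow_sum_div_card_le_sum_pow (s := range p) (f := fun b => ‖g b‖)
    (hf := fun b _ => norm_nonneg _) m
  rw [card_range, div_le_iff₀ (by positivity)] at h3
  linarith

private theorem bound' {κ : Type} {k : ℕ} (X : Finset κ) (f : κ → Fin k → ℤ) :
    ∃ B : ℤ, 0 ≤ B ∧ ∀ x ∈ X, ∀ j, |f x j| ≤ B := by
  classical
  induction X using Finset.induction_on with
  | empty => exact ⟨0, le_refl _, by simp⟩
  | insert a X ha ih =>
    obtain ⟨B, hB, h⟩ := ih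
    have h0 : 0 ≤ ∑ j, |f a j| := sum_nonneg fun j _ => abs_nonneg _
    refine ⟨B + ∑ j, |f a j|, add_nonneg hB h0, ?_⟩
    intro x hx j
    rcases mem_insert.1 hx with rfl | hx
    · have h1 : |f x j| ≤ ∑ j, |f x j| :=
        single_le_sum (f := fun j => |f x j|) (fun j _ => abs_nonneg _) (mem_univ j)
      linarith
    · have := h x hx j
      linarith

theorem sc_class {ι : Type} {k : ℕ} (s p : ℕ) (hs : 1 ≤ s) (hp : 1 ≤ p) (W : Finset ι)
    (φ : ι → Fin k → ℤ) (A : Finset ℕ) :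
    SC s W φ A ≤ p ^ (2 * s - 1) * ∑ b ∈ range p, SC s W φ (A.filter (fun n => n % p = b)) := by
  classical
  -- choose Q
  set X := W ×ˢ (Fintype.piFinset (fun _ : Fin s => A)) with hX
  obtain ⟨B, hB0, hxB⟩ := bound' X (fun x j => φ x.1 j + pv k x.2 j)
  obtain ⟨Q, hQB⟩ : ∃ Q : ℕ, (Q : ℤ) = 2 * B + 1 :=
    ⟨(2 * B + 1).toNat, Int.toNat_of_nonneg (by linarith)⟩
  have hQ1 : 1 ≤ Q := by
    have : (1 : ℤ) ≤ Q := by linarith
    exact_mod_cast this
  have hb : ∀ x ∈ X, ∀ y ∈ X,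
      ∀ j, |(φ x.1 j + pv k x.2 j) - (φ y.1 j + pv k y.2 j)| < (Q : ℤ) := by
    intro x hx y hy j
    have h1 := hxB x hx j
    have h2 := hxB y hy j
    calc |(φ x.1 j + pv k x.2 j) - (φ y.1 j + pv k y.2 j)| ≤
          |φ x.1 j + pv k x.2 j| + |φ y.1 j + pv k y.2 j| := abs_sub _ _
      _ < Q := by rw [hQB]; linarith
  have hsub : ∀ b, ∀ x ∈ W ×ˢ (Fintype.piFinset (fun _ : Fin s => A.filter (fun n => n % p = b))),
      x ∈ X := by
    intro b x hx
    rw [mem_product, Fintype.mem_piFinset] at hx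
    rw [hX, mem_product, Fintype.mem_piFinset]
    exact ⟨hx.1, fun i => (mem_filter.1 (hx.2 i)).1⟩
  have e1 := sc_fs s W φ A Q hQ1 hb
  have e2 : ∀ b, ((SC s W φ (A.filter (fun n => n % p = b)) : ℕ) : ℝ) =
      (1 / (Q : ℝ) ^ k) * ∑ α ∈ grid k Q, ‖FS W φ Q α‖ ^ 2 *
        ‖∑ n ∈ A.filter (fun n => n % p = b),
          ee ((∑ j : Fin k, (α j : ℝ) * (n : ℝ) ^ ((j : ℕ) + 1)) / Q)‖ ^ (2 * s) := by
    intro b
    exact sc_fs s W φ _ Q hQ1 (fun x hx y hy j => hb x (hsub b x hx) y (hsub b y hy) j)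
  have main : ((SC s W φ A : ℕ) : ℝ) ≤ (p : ℝ) ^ (2 * s - 1) *
      ∑ b ∈ range p, ((SC s W φ (A.filter (fun n => n % p = b)) : ℕ) : ℝ) := by
    rw [e1]
    simp_rw [e2]
    rw [← mul_sum, sum_comm, mul_left_comm]
    apply mul_le_mul_of_nonneg_left _ (by positivity)
    rw [mul_sum]
    apply sum_le_sum
    intro α _
    rw [← mul_sum, mul_left_comm]
    apply mul_le_mul_of_nonneg_left _ (by positivity)
    have h5 : ∑ n ∈ A, ee ((∑ j : Fin k, (α j : ℝ) * (n : ℝ) ^ ((j : ℕ) + 1)) / Q) =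
        ∑ b ∈ range p, ∑ n ∈ A.filter (fun n => n % p = b),
          ee ((∑ j : Fin k, (α j : ℝ) * (n : ℝ) ^ ((j : ℕ) + 1)) / Q) := by
      rw [sum_fiberwise_of_maps_to]
      intro n _
      rw [mem_range]
      exact Nat.mod_lt _ hp
    rw [h5]
    exact hoelder' p s hs _
  exact_mod_cast main

theorem jv_mono (k s M M' : ℕ) (h : M ≤ M') : JV k s M ≤ JV k s M' := by
  unfold JV
  apply card_le_card
  apply filter_subset_filter
  have : box s M ⊆ box s M' := by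
    unfold box
    intro x hx
    rw [Fintype.mem_piFinset] at hx ⊢
    intro i
    have := mem_Icc.1 (hx i)
    exact mem_Icc.2 ⟨this.1, this.2.trans h⟩
  exact product_subset_product this this

theorem jv_add (k s r M : ℕ) : JV k (s + r) M ≤ M ^ (2 * r) * JV k s M := by
  classical
  have hpv : ∀ (x : Fin (s + r) → ℕ) (j : Fin k), pv k x j =
      pv k (fun i : Fin s => x (Fin.castAdd r i)) j + pv k (fun i : Fin r => x (Fin.natAdd s i)) j := by
    intro x j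
    unfold pv
    rw [Fin.sum_univ_add]
  -- map a pair to the pair of the last coordinates
  unfold JV
  have hmaps : ∀ w ∈ ((box (s + r) M) ×ˢ (box (s + r) M)).filter (fun w => pv k w.1 = pv k w.2),
      ((fun i : Fin r => w.1 (Fin.natAdd s i)), (fun i : Fin r => w.2 (Fin.natAdd s i))) ∈
        (box r M) ×ˢ (box r M) := by
    intro w hw
    rw [mem_filter, mem_product] at hw
    unfold box at hw ⊢
    rw [Fintype.mem_piFinset, Fintype.mem_piFinset] at hw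
    rw [mem_product, Fintype.mem_piFinset, Fintype.mem_piFinset]
    exact ⟨fun i => hw.1.1 _, fun i => hw.1.2 _⟩
  rw [card_eq_sum_card_fiberwise (f := fun w : (Fin (s + r) → ℕ) × (Fin (s + r) → ℕ) =>
    ((fun i : Fin r => w.1 (Fin.natAdd s i)), (fun i : Fin r => w.2 (Fin.natAdd s i))))
    (t := (box r M) ×ˢ (box r M)) (by intro w hw; exact hmaps w hw)]
  have hfib : ∀ y ∈ (box r M) ×ˢ (box r M),
      ((((box (s + r) M) ×ˢ (box (s + r) M)).filter (fun w => pv k w.1 = pv k w.2)).filter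
        (fun w => ((fun i : Fin r => w.1 (Fin.natAdd s i)), (fun i : Fin r => w.2 (Fin.natAdd s i))) = y)).card
        ≤ (((box s M) ×ˢ (box s M)).filter (fun w => pv k w.1 = pv k w.2)).card := by
    intro y _
    calc _ ≤ (((box s M) ×ˢ (box s M)).filter (fun w => ∀ j, pv k w.1 j = pv k w.2 j +
          (pv k y.2 - pv k y.1) j)).card := by
          apply card_le_card_of_injOn (fun w => ((fun i : Fin s => w.1 (Fin.castAdd r i)),
            (fun i : Fin s => w.2 (Fin.castAdd r i))))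
          · intro w hw
            rw [mem_coe, mem_filter, mem_filter, mem_product] at hw
            rw [mem_coe, mem_filter, mem_product]
            obtain ⟨⟨⟨h1, h2⟩, h3⟩, h4⟩ := hw
            unfold box at h1 h2 ⊢
            rw [Fintype.mem_piFinset] at h1 h2
            refine ⟨⟨Fintype.mem_piFinset.2 fun i => h1 _, Fintype.mem_piFinset.2 fun i => h2 _⟩, ?_⟩
            intro j
            have h5 := congrFun h3 j
            rw [hpv, hpv] at h5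
            rw [← h4]
            simp only [Pi.sub_apply]
            linarith
          · intro w hw w' hw' he
            rw [mem_coe, mem_filter, mem_filter] at hw hw'
            have h4 := hw.2.trans hw'.2.symm
            simp only [Prod.mk.injEq] at he h4
            apply Prod.ext
            · funext i
              refine Fin.addCases (fun i => ?_) (fun i => ?_) i
              · exact congrFun he.1 i
              · exact congrFun h4.1 i
            · funext i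
              refine Fin.addCases (fun i => ?_) (fun i => ?_) i
              · exact congrFun he.2 i
              · exact congrFun h4.2 i
      _ ≤ (((box s M) ×ˢ (box s M)).filter (fun w => ∀ j, pv k w.1 j = pv k w.2 j)).card :=
          shift_le _ _ _
      _ = _ := by
          congr 1
          apply filter_congr
          intro w _
          exact funext_iff.symm
  refine (sum_le_card_nsmul _ _ _ hfib).trans ?_
  rw [smul_eq_mul, card_product]
  have hbc : (box r M).card = M ^ r := by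
    unfold box
    rw [Fintype.card_piFinset]
    simp
  rw [hbc]
  apply le_of_eq
  ring

end Pool.Agent.H97.VK

end

section

/-!
# VK Bil: the bilinear sum and the mean value

Write `U = ‖bil k X α‖`, `ψ(v) = ∑_j α_j v_j`.
(1) `U ≤ ∑_a |∑_b ee(∑_j α_j a^j b^j)|`, so `U^{2s} ≤ X^{2s-1} ∑_a |∑_b ..|^{2s}
 = X^{2s-1} ∑_a ∑_{y,y' ∈ [1,X]^s} ee(∑_j α_j a^j (pv(y)_j - pv(y')_j)) ≤ X^{2s-1} ∑_v R(v) |T(v)|`, where
 `R(v) = #{(y,y') : pv(y) - pv(y') = v}`, `T(v) = ∑_{a ≤ X} ee(∑_j α_j v_j a^j)`; `v` runs over `V = {|v_j| ≤ s X^j}` (finite).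
(2) Hölder (exponents `s/(s-1), 2s, 2s`; or Cauchy-Schwarz-type steps):
 `(∑ R|T|)^{2s} ≤ (∑ R)^{2s-2} (∑ R^2) (∑_{v ∈ V} |T(v)|^{2s})`.  (E.g. `(∑ R |T|)^s ≤ (∑ R)^{s-1} ∑ R |T|^s` and
 `(∑ R|T|^s)^2 ≤ ∑ R^2 ∑ |T|^{2s}`.)
(3) `∑ R = X^{2s}`; `∑ R^2 ≤ JV k (2s) X` (equality after renaming: `pv(y) - pv(y') = pv(z) - pv(z')`).
(4) `∑_{v ∈ V} |T(v)|^{2s} = ∑_w R(w) ∑_{v ∈ V} ee(∑_j α_j v_j w_j) ≤ JV k s X ∏_j GG (α_j) (s X^j)`: `R(w) ≤ R(0) = JV k s X` (`shift_le`),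
 `w` runs over `V`, and the sum over `v ∈ V` is the product over `j` of `∑_{|v| ≤ s X^j} ee(α_j w_j v)`.
Exponents: `2s(2s-1) + 2s(2s-2) = 8s^2 - 6s`.  Here `j` = `(j : Fin k) + 1`.
-/

set_option autoImplicit false

namespace Pool.Agent.H97.VK

open Finset
open Pool.Agent.H91.PK (ee)

private theorem Bil_ee_zero : ee 0 = 1 := by
  simp [ee]

private theorem Bil_ee_sum {ι : Type} (S : Finset ι) (f : ι → ℝ) :
    ee (∑ i ∈ S, f i) = ∏ i ∈ S, ee (f i) := by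
  classical
  induction S using Finset.induction_on with
  | empty => simp [Bil_ee_zero]
  | insert a S ha ih => rw [Finset.sum_insert ha, Finset.prod_insert ha,
      Pool.Agent.H91.PK.LSa_ee_add, ih]

/-- the one variable exponential sum with coefficients `c` -/
private noncomputable def BilE {k : ℕ} (X : ℕ) (c : Fin k → ℝ) : ℂ :=
  ∑ n ∈ Icc 1 X, ee (∑ j : Fin k, c j * (n : ℝ) ^ ((j : ℕ) + 1))

private noncomputable def BilD {k s : ℕ} (w : (Fin s → ℕ) × (Fin s → ℕ)) (j : Fin k) : ℤ :=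
  pv k w.1 j - pv k w.2 j

private theorem Bil_pow (k s X : ℕ) (c : Fin k → ℝ) :
    (BilE X c) ^ s = ∑ y ∈ box s X, ee (∑ j : Fin k, c j * (pv k y j : ℝ)) := by
  have h1 : (BilE X c) ^ s = ∏ _i : Fin s, BilE X c := by
    rw [Finset.prod_const, Finset.card_univ, Fintype.card_fin]
  rw [h1]
  unfold BilE
  rw [Finset.prod_univ_sum]
  unfold box
  refine Finset.sum_congr rfl fun y _ => ?_
  rw [← Bil_ee_sum]
  congr 1
  rw [Finset.sum_comm]
  refine Finset.sum_congr rfl fun j _ => ?_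
  rw [← Finset.mul_sum]
  congr 1
  unfold pv
  push_cast
  rfl

private theorem Bil_norm_pow (k s X : ℕ) (c : Fin k → ℝ) :
    ((‖BilE X c‖ ^ (2 * s) : ℝ) : ℂ) =
      ∑ w ∈ box s X ×ˢ box s X, ee (∑ j : Fin k, c j * (BilD w j : ℝ)) := by
  have h1 : ((‖BilE X c‖ ^ (2 * s) : ℝ) : ℂ) = (BilE X c) ^ s * (starRingEnd ℂ) ((BilE X c) ^ s) := by
    rw [map_pow, ← mul_pow, Complex.mul_conj, Complex.normSq_eq_norm_sq, pow_mul]
    push_cast
    rfl
  rw [h1, Bil_pow, map_sum, Finset.sum_mul_sum, Finset.sum_product]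
  refine Finset.sum_congr rfl fun y _ => Finset.sum_congr rfl fun y' _ => ?_
  rw [Pool.Agent.H91.PK.LSa_conj_ee, ← Pool.Agent.H91.PK.LSa_ee_add]
  congr 1
  rw [← sub_eq_add_neg, ← Finset.sum_sub_distrib]
  refine Finset.sum_congr rfl fun j _ => ?_
  unfold BilD
  push_cast
  ring

private noncomputable def BilV (k s X : ℕ) : Finset (Fin k → ℤ) :=
  Fintype.piFinset (fun j : Fin k => Icc (-((s * X ^ ((j : ℕ) + 1) : ℕ) : ℤ)) ((s * X ^ ((j : ℕ) + 1) : ℕ) : ℤ))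

private theorem Bil_pv_le {k s X : ℕ} {y : Fin s → ℕ} (hy : y ∈ box s X) (j : Fin k) :
    0 ≤ pv k y j ∧ pv k y j ≤ ((s * X ^ ((j : ℕ) + 1) : ℕ) : ℤ) := by
  unfold box at hy
  rw [Fintype.mem_piFinset] at hy
  unfold pv
  refine ⟨Finset.sum_nonneg fun i _ => by positivity, ?_⟩
  calc ∑ i, (y i : ℤ) ^ ((j : ℕ) + 1) ≤ ∑ _i : Fin s, (X : ℤ) ^ ((j : ℕ) + 1) := by
        refine Finset.sum_le_sum fun i _ => ?_
        have := (Finset.mem_Icc.mp (hy i)).2
        exact pow_le_pow_left₀ (by positivity) (by exact_mod_cast this) _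
    _ = ((s * X ^ ((j : ℕ) + 1) : ℕ) : ℤ) := by
        rw [Finset.sum_const, Finset.card_univ, Fintype.card_fin]
        push_cast
        simp

private theorem Bil_mem {k s X : ℕ} {w : (Fin s → ℕ) × (Fin s → ℕ)} (hw : w ∈ box s X ×ˢ box s X) :
    (BilD w : Fin k → ℤ) ∈ BilV k s X := by
  rw [Finset.mem_product] at hw
  unfold BilV
  rw [Fintype.mem_piFinset]
  intro j
  rw [Finset.mem_Icc]
  have h1 := Bil_pv_le hw.1 j
  have h2 := Bil_pv_le hw.2 j
  unfold BilD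
  constructor <;> linarith [h1.1, h1.2, h2.1, h2.2]

private noncomputable def BilR (k s X : ℕ) (v : Fin k → ℤ) : ℕ :=
  ((box s X ×ˢ box s X).filter (fun w => BilD w = v)).card

private theorem Bil_fiber (k s X : ℕ) (f : (Fin k → ℤ) → ℝ) :
    ∑ w ∈ box s X ×ˢ box s X, f (BilD w) = ∑ v ∈ BilV k s X, (BilR k s X v : ℝ) * f v := by
  rw [← Finset.sum_fiberwise_of_maps_to' (fun w hw => Bil_mem (k := k) hw) f]
  refine Finset.sum_congr rfl fun v _ => ?_
  rw [Finset.sum_const, nsmul_eq_mul]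
  rfl

private theorem Bil_R_le (k s X : ℕ) (v : Fin k → ℤ) : BilR k s X v ≤ JV k s X := by
  have h := shift_le (box s X) (pv k) v
  unfold BilR JV
  calc ((box s X ×ˢ box s X).filter (fun w => BilD w = v)).card
      = ((box s X ×ˢ box s X).filter (fun w => ∀ j, pv k w.1 j = pv k w.2 j + v j)).card := by
        congr 1
        refine Finset.filter_congr fun w _ => ?_
        rw [funext_iff]
        refine forall_congr' fun j => ?_
        unfold BilD
        constructor <;> intro h <;> linarith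
    _ ≤ ((box s X ×ˢ box s X).filter (fun w => ∀ j, pv k w.1 j = pv k w.2 j)).card := h
    _ = ((box s X ×ˢ box s X).filter (fun w => pv k w.1 = pv k w.2)).card := by
        congr 1
        refine Finset.filter_congr fun w _ => ?_
        rw [funext_iff]

private theorem Bil_pv_append (k s : ℕ) (a b : Fin s → ℕ) (j : Fin k) :
    pv k (Fin.append a b) j = pv k a j + pv k b j := by
  unfold pv
  rw [Fin.sum_univ_add]
  simp only [Fin.append_left, Fin.append_right]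

private theorem Bil_append_mem {s X : ℕ} {a b : Fin s → ℕ} (ha : a ∈ box s X) (hb : b ∈ box s X) :
    Fin.append a b ∈ box (s + s) X := by
  unfold box at *
  rw [Fintype.mem_piFinset] at *
  intro i
  refine Fin.addCases (fun i => ?_) (fun i => ?_) i
  · rw [Fin.append_left]; exact ha i
  · rw [Fin.append_right]; exact hb i

private theorem Bil_append_inj {s : ℕ} {a b a' b' : Fin s → ℕ}
    (h : Fin.append a b = Fin.append a' b') : a = a' ∧ b = b' := by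
  constructor
  · funext i
    have := congrFun h (Fin.castAdd s i)
    rwa [Fin.append_left, Fin.append_left] at this
  · funext i
    have := congrFun h (Fin.natAdd s i)
    rwa [Fin.append_right, Fin.append_right] at this

private theorem Bil_sumR_sq (k s X : ℕ) :
    ∑ v ∈ BilV k s X, (BilR k s X v : ℝ) ^ 2 ≤ (JV k (2 * s) X : ℝ) := by
  have h1 : ∑ v ∈ BilV k s X, (BilR k s X v : ℝ) ^ 2 =
      ∑ w ∈ box s X ×ˢ box s X, (BilR k s X (BilD w) : ℝ) := by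
    refine Eq.trans ?_ (Bil_fiber k s X (fun v => (BilR k s X v : ℝ))).symm
    exact Finset.sum_congr rfl fun v _ => pow_two _
  have h2' : ∑ w ∈ box s X ×ˢ box s X, BilR k s X (BilD w) =
      (((box s X ×ˢ box s X) ×ˢ (box s X ×ˢ box s X)).filter
        (fun z => (BilD z.2 : Fin k → ℤ) = BilD z.1)).card := by
    rw [Finset.card_filter]
    refine Eq.symm ((Finset.sum_product (box s X ×ˢ box s X) (box s X ×ˢ box s X) _).trans ?_)
    refine Finset.sum_congr rfl fun w _ => ?_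
    unfold BilR
    rw [Finset.card_filter]
  have h2 : ∑ w ∈ box s X ×ˢ box s X, (BilR k s X (BilD w) : ℝ) =
      ((((box s X ×ˢ box s X) ×ˢ (box s X ×ˢ box s X)).filter
        (fun z => (BilD z.2 : Fin k → ℤ) = BilD z.1)).card : ℝ) := by
    rw [← h2', Nat.cast_sum]
  rw [h1, h2]
  have h3 : JV k (2 * s) X = JV k (s + s) X := by rw [two_mul]
  rw [h3]
  unfold JV
  rw [Nat.cast_le]
  refine Finset.card_le_card_of_injOn
    (fun z => (Fin.append z.1.1 z.2.2, Fin.append z.1.2 z.2.1)) ?_ ?_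
  · intro z hz
    rw [Finset.mem_coe, Finset.mem_filter, Finset.mem_product, Finset.mem_product,
      Finset.mem_product] at hz
    obtain ⟨⟨⟨h11, h12⟩, ⟨h21, h22⟩⟩, he⟩ := hz
    rw [Finset.mem_coe, Finset.mem_filter, Finset.mem_product]
    refine ⟨⟨Bil_append_mem h11 h22, Bil_append_mem h12 h21⟩, ?_⟩
    funext j
    simp only
    rw [Bil_pv_append, Bil_pv_append]
    have := congrFun he j
    unfold BilD at this
    linarith
  · intro z _ z' _ h
    simp only [Prod.mk.injEq] at h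
    have h1 := Bil_append_inj h.1
    have h2 := Bil_append_inj h.2
    ext1
    · ext1
      · exact h1.1
      · exact h2.1
    · ext1
      · exact h2.2
      · exact h1.2

private theorem Bil_prod_norm (k s X : ℕ) (α : Fin k → ℝ) (u : Fin k → ℤ) :
    ‖∑ v ∈ BilV k s X, ee (∑ j : Fin k, α j * (v j : ℝ) * (u j : ℝ))‖ =
      ∏ j : Fin k, ‖∑ v ∈ Icc (-((s * X ^ ((j : ℕ) + 1) : ℕ) : ℤ)) ((s * X ^ ((j : ℕ) + 1) : ℕ) : ℤ),
        ee (α j * (u j : ℝ) * (v : ℝ))‖ := by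
  rw [← norm_prod, Finset.prod_univ_sum]
  unfold BilV
  congr 1
  refine Finset.sum_congr rfl fun v _ => ?_
  rw [Bil_ee_sum]
  refine Finset.prod_congr rfl fun j _ => ?_
  congr 1
  ring

private theorem Bil_sumT (k s X : ℕ) (α : Fin k → ℝ) :
    ∑ v ∈ BilV k s X, ‖BilE X (fun j => α j * (v j : ℝ))‖ ^ (2 * s) ≤
      (JV k s X : ℝ) * ∏ j : Fin k, GG (α j) (s * X ^ ((j : ℕ) + 1)) := by
  have h1 : ((∑ v ∈ BilV k s X, ‖BilE X (fun j => α j * (v j : ℝ))‖ ^ (2 * s) : ℝ) : ℂ) =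
      ∑ w ∈ box s X ×ˢ box s X, ∑ v ∈ BilV k s X,
        ee (∑ j : Fin k, α j * (v j : ℝ) * (BilD w j : ℝ)) := by
    rw [Complex.ofReal_sum, Finset.sum_comm]
    refine Finset.sum_congr rfl fun v _ => ?_
    exact Bil_norm_pow k s X (fun j => α j * (v j : ℝ))
  have h0 : 0 ≤ ∑ v ∈ BilV k s X, ‖BilE X (fun j => α j * (v j : ℝ))‖ ^ (2 * s) :=
    Finset.sum_nonneg fun v _ => by positivity
  have h2 : ∑ v ∈ BilV k s X, ‖BilE X (fun j => α j * (v j : ℝ))‖ ^ (2 * s) =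
      ‖((∑ v ∈ BilV k s X, ‖BilE X (fun j => α j * (v j : ℝ))‖ ^ (2 * s) : ℝ) : ℂ)‖ := by
    rw [Complex.norm_real, Real.norm_of_nonneg h0]
  rw [h2, h1]
  calc ‖∑ w ∈ box s X ×ˢ box s X, ∑ v ∈ BilV k s X,
        ee (∑ j : Fin k, α j * (v j : ℝ) * (BilD w j : ℝ))‖
      ≤ ∑ w ∈ box s X ×ˢ box s X, ‖∑ v ∈ BilV k s X,
        ee (∑ j : Fin k, α j * (v j : ℝ) * (BilD w j : ℝ))‖ := norm_sum_le _ _
    _ = ∑ u ∈ BilV k s X, (BilR k s X u : ℝ) * ‖∑ v ∈ BilV k s X,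
        ee (∑ j : Fin k, α j * (v j : ℝ) * (u j : ℝ))‖ :=
        Bil_fiber k s X (fun u => ‖∑ v ∈ BilV k s X,
          ee (∑ j : Fin k, α j * (v j : ℝ) * (u j : ℝ))‖)
    _ ≤ ∑ u ∈ BilV k s X, (JV k s X : ℝ) * ‖∑ v ∈ BilV k s X,
        ee (∑ j : Fin k, α j * (v j : ℝ) * (u j : ℝ))‖ := by
        refine Finset.sum_le_sum fun u _ => ?_
        refine mul_le_mul_of_nonneg_right ?_ (norm_nonneg _)
        exact_mod_cast Bil_R_le k s X u
    _ = (JV k s X : ℝ) * ∏ j : Fin k, GG (α j) (s * X ^ ((j : ℕ) + 1)) := by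
        rw [← Finset.mul_sum]
        congr 1
        unfold GG
        rw [Finset.prod_univ_sum]
        refine Finset.sum_congr rfl fun u _ => ?_
        exact Bil_prod_norm k s X α u

private theorem Bil_box_card (s X : ℕ) : (box s X ×ˢ box s X).card = X ^ (2 * s) := by
  rw [Finset.card_product]
  unfold box
  rw [Fintype.card_piFinset]
  simp only [Nat.card_Icc, Finset.prod_const, Finset.card_univ, Fintype.card_fin,
    Nat.add_sub_cancel]
  rw [two_mul, pow_add]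

/-- the sum of the norms of `T(v)` over the pairs -/
private noncomputable def BilA (k s X : ℕ) (α : Fin k → ℝ) : ℝ :=
  ∑ w ∈ box s X ×ˢ box s X, ‖BilE X (fun j : Fin k => α j * (BilD w j : ℝ))‖

private theorem Bil_step1 (k s X : ℕ) (hs : 1 ≤ s) (α : Fin k → ℝ) :
    ‖bil k X α‖ ^ (2 * s) ≤ (X : ℝ) ^ (2 * s - 1) * BilA k s X α := by
  have hE : ∀ a : ℕ, (∑ b ∈ Icc 1 X, ee (∑ j : Fin k, α j * ((a : ℝ) * b) ^ ((j : ℕ) + 1))) =
      BilE X (fun j : Fin k => α j * (a : ℝ) ^ ((j : ℕ) + 1)) := by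
    intro a
    unfold BilE
    refine Finset.sum_congr rfl fun b _ => ?_
    congr 1
    refine Finset.sum_congr rfl fun j _ => ?_
    rw [mul_pow]
    ring
  have h1 : ‖bil k X α‖ ≤ ∑ a ∈ Icc 1 X, ‖BilE X (fun j : Fin k => α j * (a : ℝ) ^ ((j : ℕ) + 1))‖ := by
    unfold bil
    refine (norm_sum_le _ _).trans (le_of_eq ?_)
    refine Finset.sum_congr rfl fun a _ => ?_
    rw [hE a]
  have h2 : (∑ a ∈ Icc 1 X, ‖BilE X (fun j : Fin k => α j * (a : ℝ) ^ ((j : ℕ) + 1))‖) ^ (2 * s) ≤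
      (X : ℝ) ^ (2 * s - 1) *
        ∑ a ∈ Icc 1 X, ‖BilE X (fun j : Fin k => α j * (a : ℝ) ^ ((j : ℕ) + 1))‖ ^ (2 * s) := by
    obtain ⟨n, hn⟩ : ∃ n, 2 * s = n + 1 := ⟨2 * s - 1, by omega⟩
    rw [hn, Nat.add_sub_cancel]
    have := pow_sum_le_card_mul_sum_pow (s := Icc 1 X)
      (f := fun a : ℕ => ‖BilE X (fun j : Fin k => α j * (a : ℝ) ^ ((j : ℕ) + 1))‖)
      (fun a _ => norm_nonneg _) n
    rw [Nat.card_Icc, Nat.add_sub_cancel] at this
    exact this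
  have h3 : ∑ a ∈ Icc 1 X, ‖BilE X (fun j : Fin k => α j * (a : ℝ) ^ ((j : ℕ) + 1))‖ ^ (2 * s) ≤
      BilA k s X α := by
    have e : ((∑ a ∈ Icc 1 X, ‖BilE X (fun j : Fin k => α j * (a : ℝ) ^ ((j : ℕ) + 1))‖ ^ (2 * s) : ℝ) : ℂ)
        = ∑ w ∈ box s X ×ˢ box s X, BilE X (fun j : Fin k => α j * (BilD w j : ℝ)) := by
      rw [Complex.ofReal_sum]
      unfold BilE
      rw [Finset.sum_comm]
      refine Finset.sum_congr rfl fun a _ => ?_
      have := Bil_norm_pow k s X (fun j : Fin k => α j * (a : ℝ) ^ ((j : ℕ) + 1))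
      unfold BilE at this
      rw [this]
      refine Finset.sum_congr rfl fun w _ => ?_
      congr 1
      refine Finset.sum_congr rfl fun j _ => ?_
      ring
    have h0 : 0 ≤ ∑ a ∈ Icc 1 X, ‖BilE X (fun j : Fin k => α j * (a : ℝ) ^ ((j : ℕ) + 1))‖ ^ (2 * s) :=
      Finset.sum_nonneg fun v _ => by positivity
    have e2 : ∑ a ∈ Icc 1 X, ‖BilE X (fun j : Fin k => α j * (a : ℝ) ^ ((j : ℕ) + 1))‖ ^ (2 * s) =
        ‖((∑ a ∈ Icc 1 X, ‖BilE X (fun j : Fin k => α j * (a : ℝ) ^ ((j : ℕ) + 1))‖ ^ (2 * s) : ℝ) : ℂ)‖ := by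
      rw [Complex.norm_real, Real.norm_of_nonneg h0]
    rw [e2, e]
    exact norm_sum_le _ _
  calc ‖bil k X α‖ ^ (2 * s)
      ≤ (∑ a ∈ Icc 1 X, ‖BilE X (fun j : Fin k => α j * (a : ℝ) ^ ((j : ℕ) + 1))‖) ^ (2 * s) :=
        pow_le_pow_left₀ (norm_nonneg _) h1 _
    _ ≤ _ := h2
    _ ≤ _ := mul_le_mul_of_nonneg_left h3 (by positivity)

private theorem Bil_step2 (k s X : ℕ) (hs : 1 ≤ s) (α : Fin k → ℝ) :
    BilA k s X α ^ (2 * s) ≤ (X : ℝ) ^ (2 * s * (2 * s - 2)) * ((JV k (2 * s) X : ℝ) *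
      ((JV k s X : ℝ) * ∏ j : Fin k, GG (α j) (s * X ^ ((j : ℕ) + 1)))) := by
  have hA0 : 0 ≤ BilA k s X α := Finset.sum_nonneg fun w _ => norm_nonneg _
  set B : ℝ := ∑ w ∈ box s X ×ˢ box s X, ‖BilE X (fun j : Fin k => α j * (BilD w j : ℝ))‖ ^ s with hB
  have hB0 : 0 ≤ B := Finset.sum_nonneg fun w _ => by positivity
  have h1 : BilA k s X α ^ s ≤ (X : ℝ) ^ (2 * s * (s - 1)) * B := by
    obtain ⟨n, hn⟩ : ∃ n, s = n + 1 := ⟨s - 1, by omega⟩
    have := pow_sum_le_card_mul_sum_pow (s := box s X ×ˢ box s X)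
      (f := fun w => ‖BilE X (fun j : Fin k => α j * (BilD w j : ℝ))‖)
      (fun a _ => norm_nonneg _) (s - 1)
    rw [Bil_box_card, Nat.sub_add_cancel hs] at this
    unfold BilA
    rw [hB]
    push_cast at this
    rw [← pow_mul] at this
    exact this
  have h2 : B = ∑ v ∈ BilV k s X, (BilR k s X v : ℝ) * ‖BilE X (fun j => α j * (v j : ℝ))‖ ^ s := by
    rw [hB]
    exact Bil_fiber k s X (fun v => ‖BilE X (fun j => α j * (v j : ℝ))‖ ^ s)
  have h3 : B ^ 2 ≤ (JV k (2 * s) X : ℝ) *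
      ((JV k s X : ℝ) * ∏ j : Fin k, GG (α j) (s * X ^ ((j : ℕ) + 1))) := by
    rw [h2]
    refine (Finset.sum_mul_sq_le_sq_mul_sq _ _ _).trans ?_
    have e : ∑ v ∈ BilV k s X, (‖BilE X (fun j => α j * (v j : ℝ))‖ ^ s) ^ 2 =
        ∑ v ∈ BilV k s X, ‖BilE X (fun j => α j * (v j : ℝ))‖ ^ (2 * s) := by
      refine Finset.sum_congr rfl fun v _ => ?_
      rw [← pow_mul, mul_comm s 2]
    rw [e]
    refine mul_le_mul (Bil_sumR_sq k s X) (Bil_sumT k s X α) ?_ (by positivity)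
    exact Finset.sum_nonneg fun v _ => by positivity
  calc BilA k s X α ^ (2 * s) = (BilA k s X α ^ s) ^ 2 := by rw [← pow_mul, mul_comm s 2]
    _ ≤ ((X : ℝ) ^ (2 * s * (s - 1)) * B) ^ 2 := pow_le_pow_left₀ (by positivity) h1 2
    _ = (X : ℝ) ^ (2 * s * (2 * s - 2)) * B ^ 2 := by
        rw [mul_pow, ← pow_mul]
        congr 2
        have : 2 * s - 2 = 2 * (s - 1) := by omega
        rw [this]
        ring
    _ ≤ _ := mul_le_mul_of_nonneg_left h3 (by positivity)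

theorem bil_bound (k s X : ℕ) (hs : 1 ≤ s) (hX : 1 ≤ X) (α : Fin k → ℝ) :
    ‖bil k X α‖ ^ (4 * s ^ 2) ≤ (X : ℝ) ^ (8 * s ^ 2 - 6 * s) * (JV k (2 * s) X : ℝ) * (JV k s X : ℝ) *
      ∏ j : Fin k, GG (α j) (s * X ^ ((j : ℕ) + 1)) := by
  have hA0 : 0 ≤ BilA k s X α := Finset.sum_nonneg fun w _ => norm_nonneg _
  have e1 : ‖bil k X α‖ ^ (4 * s ^ 2) = (‖bil k X α‖ ^ (2 * s)) ^ (2 * s) := by
    rw [← pow_mul]
    congr 1
    ring
  have e2 : (2 * s - 1) * (2 * s) + 2 * s * (2 * s - 2) = 8 * s ^ 2 - 6 * s := by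
    obtain ⟨n, rfl⟩ : ∃ n, s = n + 1 := ⟨s - 1, by omega⟩
    have a1 : 2 * (n + 1) - 1 = 2 * n + 1 := by omega
    have a2 : 2 * (n + 1) - 2 = 2 * n := by omega
    rw [a1, a2]
    refine (Nat.sub_eq_of_eq_add ?_).symm
    ring
  rw [e1]
  calc (‖bil k X α‖ ^ (2 * s)) ^ (2 * s)
      ≤ ((X : ℝ) ^ (2 * s - 1) * BilA k s X α) ^ (2 * s) :=
        pow_le_pow_left₀ (by positivity) (Bil_step1 k s X hs α) _
    _ = (X : ℝ) ^ ((2 * s - 1) * (2 * s)) * BilA k s X α ^ (2 * s) := by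
        rw [mul_pow, ← pow_mul]
    _ ≤ (X : ℝ) ^ ((2 * s - 1) * (2 * s)) * ((X : ℝ) ^ (2 * s * (2 * s - 2)) * ((JV k (2 * s) X : ℝ) *
      ((JV k s X : ℝ) * ∏ j : Fin k, GG (α j) (s * X ^ ((j : ℕ) + 1))))) :=
        mul_le_mul_of_nonneg_left (Bil_step2 k s X hs α) (by positivity)
    _ = _ := by
        rw [← e2, pow_add]
        ring

end Pool.Agent.H97.VK

end
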