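import Pool.Agent.H43.PS.M04
import Pool.Agent.H43.PS.M07
import Pool.Agent.H43.PS.M08

/-! The parts of this file: H43.CH.MinB, H91.PK.MB, H35.W.Rough, H91.PK.Vau, H76.SP.IIL. -/

section

/-!
# CH MinB: many close differences force a rational approximation

Proof.  `τ = D P/H`, `K = {k ∈ [1, P] : nz(k α) < τ}`.  The number of pairs is `≤ 2 P #K` (given `k = |p - p'| ∈ [1, P]`; `nz` is even), so `#K > 2P/D ≥ 2`, `#K ≥ 3`.  Among the `#K - 1 ≥ #K/2` gaps of consecutive elements of `K` one is `≤ P/(#K/2) < D`: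
there is `1 ≤ d0 < D` with `nz(d0 α) ≤ 2τ`.  Let `c` be the least positive integer with `nz(c α) ≤ 2τ` (`c < D`), `α = a/c + β`, `c |β| = nz(c α) ≤ 2τ`; `gcd(a, c) = 1` by minimality (`c/g` would do as well).
`k ∈ K`, `c ∤ k`: `nz(k a/c) ≥ 1/c ≥ 1/D`, `k |β| ≤ 2 P τ`, so `nz(k α) ≥ 1/D - 2 P τ ≥ τ` as `3 P^2 D^2 ≤ H`: contradiction.  So `K` consists of multiples of `c`; the largest one is `k = c j`, `j ≥ #K`, `j c |β| ≤ P · 2τ/c ≤ 1/2`, so `nz(k α) = j c |β| < τ` and
`|β| < τ/(c #K) ≤ (D P/H)/(2P/D) ≤ D^2/H`.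
-/

set_option autoImplicit false

namespace Pool.Agent.H43.CH

open Finset
open Pool.Agent.H35.W (pb)
open Pool.Agent.H53.MID (nz)

private theorem MinB_card (P : ℕ) (S : Finset ℕ) (hS : S ⊆ pb P) (α τ : ℝ) :
    (((S ×ˢ S).filter (fun z : ℕ × ℕ => z.1 ≠ z.2 ∧ nz (((z.1 : ℝ) - z.2) * α) < τ)).card : ℝ) ≤
      2 * P * (((Icc 1 P).filter (fun k : ℕ => nz (k * α) < τ)).card : ℝ) := by
  classical
  set K := (Icc 1 P).filter (fun k : ℕ => nz (k * α) < τ) with hK
  have h := Finset.card_le_card_of_injOn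
    (s := (S ×ˢ S).filter (fun z : ℕ × ℕ => z.1 ≠ z.2 ∧ nz (((z.1 : ℝ) - z.2) * α) < τ))
    (t := (Ioc P (2 * P)) ×ˢ (K ×ˢ (Finset.univ : Finset Bool)))
    (fun z => (z.1, (z.1 - z.2) + (z.2 - z.1), decide (z.2 < z.1))) ?_ ?_
  · rw [card_product, card_product, Nat.card_Ioc, Finset.card_univ, Fintype.card_bool] at h
    have h2 : 2 * P - P = P := by omega
    rw [h2] at h
    have h3 : (((S ×ˢ S).filter (fun z : ℕ × ℕ => z.1 ≠ z.2 ∧ nz (((z.1 : ℝ) - z.2) * α) < τ)).card : ℝ)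
        ≤ ((P * (K.card * 2) : ℕ) : ℝ) := by exact_mod_cast h
    refine h3.trans (le_of_eq ?_)
    push_cast
    ring
  · rintro ⟨p, q⟩ hz
    rw [mem_coe, mem_filter, mem_product] at hz
    obtain ⟨⟨h1, h2⟩, h3, h4⟩ := hz
    have hp := mem_Ioc.1 (mem_filter.1 (hS h1)).1
    have hq := mem_Ioc.1 (mem_filter.1 (hS h2)).1
    simp only [ne_eq] at h3 h4 hp hq
    rw [mem_coe, mem_product, mem_product]
    refine ⟨mem_Ioc.2 hp, ?_, mem_univ _⟩
    rw [hK, mem_filter, mem_Icc]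
    refine ⟨⟨by simp only; omega, by simp only; omega⟩, ?_⟩
    simp only
    rcases lt_or_gt_of_ne h3 with h5 | h5
    · have h6 : p - q = 0 := by omega
      rw [h6, zero_add, Nat.cast_sub h5.le]
      rw [← Pool.Agent.H53.MID.nz_neg]
      convert h4 using 2
      ring
    · have h6 : q - p = 0 := by omega
      rw [h6, add_zero, Nat.cast_sub h5.le]
      exact h4
  · rintro ⟨p, q⟩ hz ⟨p', q'⟩ hz' he
    rw [mem_coe, mem_filter] at hz hz'
    have h3 := hz.2.1
    have h3' := hz'.2.1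
    simp only [ne_eq] at h3 h3'
    simp only [Prod.mk.injEq, decide_eq_decide] at he
    obtain ⟨e1, e2, e3⟩ := he
    rw [Prod.mk.injEq]
    refine ⟨e1, ?_⟩
    rcases lt_or_gt_of_ne h3 with h5 | h5
    · have h6 : ¬ q' < p' := fun h7 => by
        have := e3.2 h7
        omega
      omega
    · have h6 : q' < p' := e3.1 h5
      omega

/-- two elements of a large set are close -/
private theorem MinB_gap (P : ℕ) (K : Finset ℕ) (D : ℝ) (hK : K ⊆ Icc 1 P) (hD : 2 ≤ D) (hDP : D ≤ P)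
    (hc : 2 * (P : ℝ) / D < K.card) : ∃ k ∈ K, ∃ k' ∈ K, k < k' ∧ ((k' - k : ℕ) : ℝ) < D := by
  classical
  have hD0 : 0 < D := by linarith only [hD]
  have hcard : (Finset.range (⌊((P : ℝ) - 1) / D⌋₊ + 1)).card < K.card := by
    rw [card_range]
    have hP1 : (2 : ℝ) ≤ P := hD.trans hDP
    have h1 : (⌊((P : ℝ) - 1) / D⌋₊ : ℝ) ≤ ((P : ℝ) - 1) / D := Nat.floor_le (by
      apply div_nonneg <;> linarith only [hD, hDP])
    have h2 : ((P : ℝ) - 1) / D + 1 ≤ 2 * P / D := by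
      rw [div_add_one hD0.ne']
      exact div_le_div_of_nonneg_right (by linarith only [hDP]) hD0.le
    have h3 : ((⌊((P : ℝ) - 1) / D⌋₊ + 1 : ℕ) : ℝ) < (K.card : ℝ) := by
      push_cast
      linarith only [hc, h1, h2]
    exact_mod_cast h3
  have hmaps : ∀ k ∈ K, ⌊((k : ℝ) - 1) / D⌋₊ ∈ Finset.range (⌊((P : ℝ) - 1) / D⌋₊ + 1) := by
    intro k hk
    have h1 := (mem_Icc.1 (hK hk)).2
    rw [Finset.mem_range]
    have h2 : ⌊((k : ℝ) - 1) / D⌋₊ ≤ ⌊((P : ℝ) - 1) / D⌋₊ := by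
      apply Nat.floor_le_floor
      apply div_le_div_of_nonneg_right _ hD0.le
      have : (k : ℝ) ≤ P := by exact_mod_cast h1
      linarith only [this]
    omega
  obtain ⟨k, hk, k', hk', hne, he⟩ := Finset.exists_ne_map_eq_of_card_lt_of_maps_to hcard hmaps
  have key : ∀ k ∈ K, ∀ k' ∈ K, k < k' → ⌊((k : ℝ) - 1) / D⌋₊ = ⌊((k' : ℝ) - 1) / D⌋₊ →
      ((k' - k : ℕ) : ℝ) < D := by
    intro k hk k' hk' hlt he
    have g1 := (mem_Icc.1 (hK hk)).1
    have g1' : (1 : ℝ) ≤ k := by exact_mod_cast g1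
    have h1 := Nat.floor_le (show 0 ≤ ((k : ℝ) - 1) / D by apply div_nonneg <;> linarith only [g1', hD])
    have h2 := Nat.lt_floor_add_one (((k' : ℝ) - 1) / D)
    rw [← he] at h2
    have h3 : ((k' : ℝ) - 1) / D < ((k : ℝ) - 1) / D + 1 := by linarith only [h1, h2]
    rw [div_add_one hD0.ne', div_lt_div_iff_of_pos_right hD0] at h3
    rw [Nat.cast_sub hlt.le]
    linarith only [h3]
  rcases lt_or_gt_of_ne hne with h | h
  · exact ⟨k, hk, k', hk', h, key k hk k' hk' h he⟩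
  · exact ⟨k', hk', k, hk, h, key k' hk' k hk h he.symm⟩

/-- the multiples of `c` -/
private theorem MinB_mult (K : Finset ℕ) (c : ℕ) (hc : 1 ≤ c) (hK1 : ∀ k ∈ K, 1 ≤ k) (hK : ∀ k ∈ K, c ∣ k)
    (hne : K.Nonempty) : ∃ k ∈ K, c * K.card ≤ k := by
  classical
  refine ⟨K.max' hne, K.max'_mem hne, ?_⟩
  have h1 : K ⊆ (Icc 1 (K.max' hne / c)).image (fun j => c * j) := by
    intro k hk
    obtain ⟨j, hj⟩ := hK k hk
    rw [mem_image]
    refine ⟨j, ?_, hj.symm⟩
    rw [mem_Icc]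
    have h2 := K.le_max' k hk
    have h3 := hK1 k hk
    constructor
    · rcases Nat.eq_zero_or_pos j with h4 | h4
      · rw [h4] at hj
        omega
      · exact h4
    · rw [Nat.le_div_iff_mul_le (by omega), mul_comm, ← hj]
      exact h2
  have h2 := (card_le_card h1).trans card_image_le
  rw [Nat.card_Icc, Nat.add_sub_cancel] at h2
  have h3 : K.card ≤ K.max' hne / c := h2
  calc c * K.card ≤ c * (K.max' hne / c) := Nat.mul_le_mul_left c h3
    _ ≤ K.max' hne := Nat.mul_div_le _ _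

theorem min_b (P : ℕ) (S : Finset ℕ) (H α D : ℝ) (hP : 1 ≤ P) (hS : S ⊆ pb P) (hD : 2 ≤ D) (hDP : D ≤ P)
    (hH : 3 * (P : ℝ) ^ 2 * D ^ 2 ≤ H)
    (hN : 4 * (P : ℝ) ^ 2 / D <
      (((S ×ˢ S).filter (fun z : ℕ × ℕ => z.1 ≠ z.2 ∧ nz (((z.1 : ℝ) - z.2) * α) < D * P / H)).card : ℝ)) :
    ∃ (c : ℕ) (a : ℤ), 1 ≤ c ∧ (c : ℝ) ≤ D ∧ |α - a / c| ≤ D ^ 2 / H := by
  classical
  have hD0 : 0 < D := by linarith only [hD]
  have hP0 : (1 : ℝ) ≤ P := by exact_mod_cast hP
  have hH0 : 0 < H := lt_of_lt_of_le (by positivity) hH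
  obtain ⟨τ, hτ⟩ : ∃ τ : ℝ, τ = D * P / H := ⟨_, rfl⟩
  rw [← hτ] at hN
  have hτ0 : 0 < τ := by rw [hτ]; positivity
  have hτH : τ * H = D * P := by rw [hτ]; field_simp
  obtain ⟨K, hK⟩ : ∃ K : Finset ℕ, K = (Icc 1 P).filter (fun k : ℕ => nz (k * α) < τ) := ⟨_, rfl⟩
  have hN2 := hN.trans_le (MinB_card P S hS α τ)
  rw [← hK] at hN2
  have hKc : 2 * (P : ℝ) / D < K.card := by
    rw [div_lt_iff₀ hD0] at hN2 ⊢
    nlinarith only [hN2]
  have hKs : K ⊆ Icc 1 P := by rw [hK]; exact filter_subset _ _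
  have hK1 : ∀ k ∈ K, 1 ≤ k := fun k hk => (mem_Icc.1 (hKs hk)).1
  have hKP : ∀ k ∈ K, (k : ℝ) ≤ P := fun k hk => by exact_mod_cast (mem_Icc.1 (hKs hk)).2
  have hKn : ∀ k ∈ K, nz (k * α) < τ := fun k hk => by
    rw [hK] at hk
    exact (mem_filter.1 hk).2
  -- a small multiplier
  obtain ⟨k, hk, k', hk', hlt, hd⟩ := MinB_gap P K D hKs hD hDP hKc
  have hex : ∃ c : ℕ, 1 ≤ c ∧ nz (c * α) ≤ 2 * τ := by
    refine ⟨k' - k, by omega, ?_⟩
    rw [Nat.cast_sub hlt.le, sub_mul]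
    have := Pool.Agent.H53.MID.nz_sub ((k' : ℝ) * α) (k * α)
    linarith only [this, hKn, hk, hk', hKn k hk, hKn k' hk']
  obtain ⟨c, ⟨hc1, hc2⟩, hcm⟩ : ∃ c : ℕ, (1 ≤ c ∧ nz (c * α) ≤ 2 * τ) ∧
      ∀ d : ℕ, 1 ≤ d → nz (d * α) ≤ 2 * τ → c ≤ d :=
    ⟨Nat.find hex, Nat.find_spec hex, fun d h1 h2 => Nat.find_min' hex ⟨h1, h2⟩⟩
  have hcD : (c : ℝ) < D := by
    have h1 : c ≤ k' - k := by
      refine hcm _ (by omega) ?_
      rw [Nat.cast_sub hlt.le, sub_mul]
      have := Pool.Agent.H53.MID.nz_sub ((k' : ℝ) * α) (k * α)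
      linarith only [this, hKn, hk, hk', hKn k hk, hKn k' hk']
    have h2 : (c : ℝ) ≤ ((k' - k : ℕ) : ℝ) := by exact_mod_cast h1
    linarith only [hd, h2]
  have hc0 : (0 : ℝ) < c := by exact_mod_cast hc1
  obtain ⟨a, ha⟩ := Pool.Agent.H53.MID.nz_exists ((c : ℝ) * α)
  obtain ⟨β, hβ⟩ : ∃ β : ℝ, β = α - a / c := ⟨_, rfl⟩
  have hcβ : (c : ℝ) * α - a = c * β := by
    rw [hβ]
    field_simp
  have hβ1 : (c : ℝ) * |β| ≤ 2 * τ := by
    have e1 : (c : ℝ) * |β| = |(c : ℝ) * β| := by rw [abs_mul, abs_of_pos hc0]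
    rw [e1, ← hcβ, ha]
    exact hc2
  -- coprime
  have hcop : IsCoprime (a : ℤ) (c : ℤ) := by
    rw [Int.isCoprime_iff_gcd_eq_one]
    by_contra hg
    set g : ℕ := Int.gcd a c with hgd
    have hg0 : g ≠ 0 := by
      intro h0
      rw [hgd, Int.gcd_eq_zero_iff] at h0
      have := h0.2
      omega
    have hg2 : 2 ≤ g := by omega
    obtain ⟨a', ha'⟩ : (g : ℤ) ∣ a := Int.gcd_dvd_left _ _
    obtain ⟨c', hc'⟩ : g ∣ c := by
      have : (g : ℤ) ∣ (c : ℤ) := Int.gcd_dvd_right _ _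
      exact_mod_cast this
    have hc'1 : 1 ≤ c' := by
      rcases Nat.eq_zero_or_pos c' with h4 | h4
      · rw [h4] at hc'
        omega
      · exact h4
    have hgR : (2 : ℝ) ≤ g := by exact_mod_cast hg2
    have h1 : nz ((c' : ℝ) * α) ≤ 2 * τ := by
      refine (Pool.Agent.H53.MID.nz_le_of _ a').trans ?_
      have h2 : (g : ℝ) * ((c' : ℝ) * α - a') = c * α - a := by
        have e1 : (c : ℝ) = g * c' := by exact_mod_cast hc'
        have e2 : (a : ℝ) = g * a' := by exact_mod_cast ha'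
        rw [e1, e2]
        ring
      have h3 : (g : ℝ) * |(c' : ℝ) * α - a'| ≤ 2 * τ := by
        have e1 : (g : ℝ) * |(c' : ℝ) * α - a'| = |(g : ℝ) * ((c' : ℝ) * α - a')| := by
          rw [abs_mul, abs_of_pos (by linarith only [hgR] : (0 : ℝ) < g)]
        rw [e1, h2, ha]
        exact hc2
      have h4 := abs_nonneg ((c' : ℝ) * α - a')
      nlinarith only [hτ0, h3, hgR]
    have h2 := hcm c' hc'1 h1
    rw [hc'] at h2
    nlinarith only [hg2, hc', hc'1, h2]
  -- multiples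
  have hPτ : 3 * (P : ℝ) * (τ * D) ≤ 1 := by
    have h1 : 3 * (P : ℝ) * (τ * D) * H ≤ 1 * H := by
      have : 3 * (P : ℝ) * (τ * D) * H = 3 * (P : ℝ) * D * (τ * H) := by ring
      rw [this, hτH]
      nlinarith only [hH]
    exact le_of_mul_le_mul_right h1 hH0
  have hcβ1 : |β| ≤ 2 * τ := by
    have h1 : (1 : ℝ) ≤ c := by exact_mod_cast hc1
    have h2 := abs_nonneg β
    nlinarith only [hβ1, hτ0, h1, hc0]
  have hkβ : ∀ k ∈ K, (k : ℝ) * |β| ≤ 2 * P * τ := by
    intro k hk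
    have h1 := hKP k hk
    have h2 : (0 : ℝ) ≤ k := Nat.cast_nonneg _
    calc (k : ℝ) * |β| ≤ P * (2 * τ) := mul_le_mul h1 hcβ1 (abs_nonneg _) (by linarith only [hD, hDP])
      _ = 2 * P * τ := by ring
  have hdvd : ∀ k ∈ K, c ∣ k := by
    intro k hk
    by_contra hnd
    have h1 : ¬ (c : ℤ) ∣ (k : ℤ) * a := by
      intro h2
      have h3 : (c : ℤ) ∣ (k : ℤ) := hcop.symm.dvd_of_dvd_mul_right h2
      exact hnd (by exact_mod_cast h3)
    have h2 := Pool.Agent.H53.MID.nz_frac_ge ((k : ℤ) * a) c (by omega) h1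
    have h3 : (((k : ℤ) * a : ℤ) : ℝ) / c = k * α - k * β := by
      rw [hβ]
      push_cast
      field_simp
      ring
    rw [h3] at h2
    have h4 := Pool.Agent.H53.MID.nz_sub ((k : ℝ) * α) (k * β)
    have h5 := Pool.Agent.H53.MID.nz_le_abs ((k : ℝ) * β)
    have h6 : |(k : ℝ) * β| = k * |β| := by
      rw [abs_mul, abs_of_nonneg (Nat.cast_nonneg _)]
    have h7 := hkβ k hk
    have h8 := hKn k hk
    have h9 : 1 / D ≤ 1 / (c : ℝ) := one_div_le_one_div_of_le hc0 hcD.le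
    have h10 : 3 * (P : ℝ) * τ ≤ 1 / D := by
      rw [le_div_iff₀ hD0]
      linarith only [hPτ]
    nlinarith only [hτ0, h2, h4, h5, h6, h7, h8, h9, h10, hD, hDP]
  have hne : K.Nonempty := ⟨k, hk⟩
  obtain ⟨m, hm, hmc⟩ := MinB_mult K c hc1 hK1 hdvd hne
  refine ⟨c, a, hc1, hcD.le, ?_⟩
  rw [← hβ]
  obtain ⟨j, hj⟩ := hdvd m hm
  have h1 : (m : ℝ) * α = m * β + ((j * a : ℤ) : ℝ) := by
    rw [hβ]
    have e1 : (m : ℝ) = c * j := by exact_mod_cast hj
    push_cast
    rw [e1]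
    field_simp
    ring
  have h2 := hKn m hm
  rw [h1, Pool.Agent.H53.MID.nz_add_int] at h2
  have h3 := hkβ m hm
  have h6 : |(m : ℝ) * β| = m * |β| := by
    rw [abs_mul, abs_of_nonneg (Nat.cast_nonneg _)]
  have h7 : |(m : ℝ) * β| < 1 / 2 := by
    rw [h6]
    nlinarith only [hD, hPτ, h3]
  rw [Pool.Agent.H53.MID.nz_eq_abs _ h7, h6] at h2
  have h8 : (K.card : ℝ) ≤ m := by
    have h9 : K.card ≤ m := by nlinarith only [hmc, hc1]
    exact_mod_cast h9
  -- |β| m < τ, m ≥ #K > 2P/D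
  have h9 : 2 * (P : ℝ) / D * |β| ≤ τ := by
    have h10 := abs_nonneg β
    nlinarith only [h2, hKc, h10, h8]
  rw [le_div_iff₀ hH0]
  have h11 : 2 * (P : ℝ) * |β| ≤ τ * D := by
    have : 2 * (P : ℝ) / D * |β| * D = 2 * P * |β| := by field_simp
    nlinarith only [h9, this, hD]
  have h12 : 2 * (P : ℝ) * (|β| * H) ≤ P * D ^ 2 := by
    calc 2 * (P : ℝ) * (|β| * H) = (2 * (P : ℝ) * |β|) * H := by ring
      _ ≤ τ * D * H := mul_le_mul_of_nonneg_right h11 hH0.le
      _ = (τ * H) * D := by ring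
      _ = P * D ^ 2 := by rw [hτH]; ring
  have h13 : 0 ≤ |β| * H := by positivity
  nlinarith only [hD, h12, hDP]

end Pool.Agent.H43.CH

end

section

/-!
PK MB: the Mertens product.

`mertens_lower`: naturals 65536 ≤ w ≤ z: ∑_{w<p≤z} 1/p ≥ log(log z/log w) - 0.25/log w.
 (`Gold.Mt_osc` with the roles of n, m exchanged gives Mt z - Mt w ≥ log z - log w - 0.2295 (Mt n = ∑_{d≤n} Λ(d)/d);
  Abel summation against 1/log as in `Gold.mertens_gen`.  The prime powers with exponent at least two are handled by the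
  bound ψ(m) - θ(m) ≤ 2 ψ(√m) ≤ 2 log 3 √m and another Abel summation: their total is ≤ 4 log 3/(√w log w).)
`prod_65536`: ∏_{p ≤ 65536} (1 - 1/p) ≤ 0.05065   (kernel computation).
`prod_z`: for natural al ≥ 16: ∏_{p ≤ 2^al} (1 - 1/p) ≤ 0.575/(al log 2).
-/

set_option autoImplicit false

namespace Pool.Agent.H91.PK

open Finset Gold
open scoped ArithmeticFunction.vonMangoldt

/-! ### The prime powers -/

theorem MB_psi_sub_theta (m : ℕ) :
    Chebyshev.psi m - Chebyshev.theta m ≤ 2 * Real.log 3 * Real.sqrt m := by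
  have h0 : Chebyshev.psi m - Chebyshev.theta m
      = ∑ p ∈ Nat.primesLE m.sqrt, ((Nat.log p m : ℝ) * Real.log p - Real.log p) := by
    rw [Chebyshev.psi_eq_sum_mul_log_prime, Chebyshev.theta_eq_sum_primesLE_log, ← sum_sub_distrib]
    have hsub : Nat.primesLE m.sqrt ⊆ Nat.primesLE m := by
      intro p hp
      rw [Nat.mem_primesLE] at hp ⊢
      exact ⟨hp.1.trans (Nat.sqrt_le_self m), hp.2⟩
    symm
    apply sum_subset hsub
    intro p hp hnp
    rw [Nat.mem_primesLE] at hp hnp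
    have hlt : m.sqrt < p := by
      by_contra h
      push Not at h
      exact hnp ⟨h, hp.2⟩
    have h1 : m < p * p := Nat.sqrt_lt.1 hlt
    have h2 : Nat.log p m = 1 := by
      rw [Nat.log_eq_iff]
      · refine ⟨by simp; exact hp.1, by rw [sq]; exact h1⟩
      · left; norm_num
    rw [h2]; simp
  rw [h0]
  have h1 : ∀ p ∈ Nat.primesLE m.sqrt, ((Nat.log p m : ℝ) * Real.log p - Real.log p)
      ≤ 2 * ((Nat.log p m.sqrt : ℝ) * Real.log p) := by
    intro p hp
    rw [Nat.mem_primesLE] at hp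
    have hp1 := hp.2.one_lt
    have h2 : m < p ^ (2 * Nat.log p m.sqrt + 2) := by
      have h3 := Nat.lt_pow_succ_log_self hp1 m.sqrt
      have h4 := Nat.sqrt_lt.1 h3
      calc m < _ := h4
        _ = p ^ (2 * Nat.log p m.sqrt + 2) := by rw [← pow_add]; congr 1; omega
    have h5 : Nat.log p m ≤ 2 * Nat.log p m.sqrt + 1 := by
      have := Nat.log_lt_of_lt_pow' (by omega) h2
      omega
    have h6 : (Nat.log p m : ℝ) ≤ 2 * (Nat.log p m.sqrt : ℝ) + 1 := by exact_mod_cast h5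
    have h7 : 0 ≤ Real.log p := Real.log_natCast_nonneg p
    nlinarith only [h6, h7]
  refine (sum_le_sum h1).trans ?_
  rw [← mul_sum]
  have h2 := Chebyshev.psi_eq_sum_mul_log_prime (m.sqrt)
  have h3 := psi_le_log_three m.sqrt
  have h4 : (m.sqrt : ℝ) ≤ Real.sqrt m := Real.nat_sqrt_le_real_sqrt
  have h5 : 0 ≤ Real.log 3 := Real.log_nonneg (by norm_num)
  rw [h2] at h3
  nlinarith only [h3, h4, h5]

theorem MB_nonprime (w m : ℕ) :
    ∑ k ∈ Ioc w m, (if k.Prime then 0 else Λ k) ≤ 2 * Real.log 3 * Real.sqrt m := by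
  have h1 : ∑ k ∈ Ioc w m, (if k.Prime then 0 else Λ k) ≤ ∑ k ∈ Ioc 0 m, (if k.Prime then 0 else Λ k) := by
    apply sum_le_sum_of_subset_of_nonneg
    · intro k hk
      rw [mem_Ioc] at hk ⊢
      exact ⟨by omega, hk.2⟩
    · intro k _ _
      split_ifs
      · exact le_rfl
      · exact ArithmeticFunction.vonMangoldt_nonneg
  refine h1.trans (le_trans (le_of_eq ?_) (MB_psi_sub_theta m))
  rw [Chebyshev.psi, Chebyshev.theta, sum_filter]
  simp only [Nat.floor_natCast]
  rw [← sum_sub_distrib]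
  apply sum_congr rfl
  intro k _
  split_ifs with h
  · rw [ArithmeticFunction.vonMangoldt_apply_prime h]; ring
  · ring

theorem MB_log_pos {w : ℕ} (hw : 2 ≤ w) {k : ℕ} (hk : w ≤ k) : 0 < Real.log k := by
  apply Real.log_pos
  exact_mod_cast (by omega : 1 < k)

theorem MB_powers {w z : ℕ} (hw : 2 ≤ w) (hwz : w ≤ z) :
    ∑ k ∈ Ioc w z, (if k.Prime then 0 else Λ k) * (1 / (k * Real.log k))
      ≤ 4 * Real.log 3 / (Real.sqrt w * Real.log w) := by
  have hw0 : (0 : ℝ) < w := by exact_mod_cast (by omega : 0 < w)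
  have hsw : 0 < Real.sqrt w := Real.sqrt_pos.2 hw0
  have hlw := MB_log_pos hw le_rfl
  have l3 : 0 ≤ Real.log 3 := Real.log_nonneg (by norm_num)
  set C : ℝ := 2 * Real.log 3 with hC
  have hC0 : 0 ≤ C := by positivity
  have h1 : ∑ k ∈ Ioc w z, (if k.Prime then 0 else Λ k) * (1 / (k * Real.log k))
      ≤ ∑ k ∈ Ioc w z, (C * (Real.sqrt k - Real.sqrt (k - 1 : ℕ))) * (1 / (k * Real.log k))
        + (C * Real.sqrt w) * (1 / (((w + 1 : ℕ) : ℝ) * Real.log ((w + 1 : ℕ) : ℝ))) := by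
    apply abel_le (f := fun k : ℕ => 1 / ((k : ℝ) * Real.log k)) hwz (by positivity)
    · intro k hk1 _
      have := MB_log_pos hw hk1.le
      positivity
    · have := MB_log_pos hw (Nat.le_succ w)
      positivity
    · intro k hk1 _
      have h2 := MB_log_pos hw hk1.le
      have h3 : (0 : ℝ) < k := by exact_mod_cast (by omega : 0 < k)
      apply one_div_le_one_div_of_le (by positivity)
      apply mul_le_mul
      · push_cast; linarith only
      · apply Real.log_le_log h3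
        push_cast; linarith only
      · exact h2.le
      · positivity
    · intro m hm1 _
      have e1 : ∑ k ∈ Ioc w m, (C * (Real.sqrt k - Real.sqrt (k - 1 : ℕ)))
          = C * (Real.sqrt m - Real.sqrt w) := by
        rw [← mul_sum]
        congr 1
        induction m, hm1 using Nat.le_induction with
        | base => simp
        | succ m hm ih =>
          rw [sum_Ioc_succ_top (by omega), ih (by omega)]
          simp
      rw [e1]
      have := MB_nonprime w m
      linarith only [this]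
  have h2 : ∀ m, w ≤ m → ∑ k ∈ Ioc w m, (C * (Real.sqrt k - Real.sqrt (k - 1 : ℕ))) * (1 / (k * Real.log k))
      ≤ C / Real.log w * (1 / Real.sqrt w - 1 / Real.sqrt m) := by
    intro m hm
    induction m, hm using Nat.le_induction with
    | base => simp
    | succ m hm ih =>
      rw [sum_Ioc_succ_top (by omega)]
      have hm0 : (0 : ℝ) < m := by exact_mod_cast (by omega : 0 < m)
      have hs0 : 0 < Real.sqrt m := Real.sqrt_pos.2 hm0
      have hs1 : Real.sqrt m ≤ Real.sqrt ((m + 1 : ℕ) : ℝ) := by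
        apply Real.sqrt_le_sqrt; push_cast; linarith only
      have hs2 : 0 < Real.sqrt ((m + 1 : ℕ) : ℝ) := by linarith only [hs0, hs1]
      have hl := MB_log_pos hw (show w ≤ m + 1 by omega)
      have hl2 : Real.log w ≤ Real.log ((m + 1 : ℕ) : ℝ) := by
        apply Real.log_le_log hw0
        exact_mod_cast (by omega : w ≤ m + 1)
      have hss : ((m + 1 : ℕ) : ℝ) = Real.sqrt ((m + 1 : ℕ) : ℝ) * Real.sqrt ((m + 1 : ℕ) : ℝ) :=
        (Real.mul_self_sqrt (by positivity)).symm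
      have key : (C * (Real.sqrt ((m + 1 : ℕ) : ℝ) - Real.sqrt (m + 1 - 1 : ℕ)))
            * (1 / (((m + 1 : ℕ) : ℝ) * Real.log ((m + 1 : ℕ) : ℝ)))
          ≤ C / Real.log w * (1 / Real.sqrt m - 1 / Real.sqrt ((m + 1 : ℕ) : ℝ)) := by
        rw [Nat.add_sub_cancel]
        have a1 : 1 / (((m + 1 : ℕ) : ℝ) * Real.log ((m + 1 : ℕ) : ℝ))
            ≤ 1 / (Real.sqrt m * Real.sqrt ((m + 1 : ℕ) : ℝ) * Real.log w) := by
          apply one_div_le_one_div_of_le (by positivity)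
          apply mul_le_mul _ hl2 hlw.le (by positivity)
          exact (mul_le_mul_of_nonneg_right hs1 hs2.le).trans hss.ge
        have a2 : 0 ≤ C * (Real.sqrt ((m + 1 : ℕ) : ℝ) - Real.sqrt m) :=
          mul_nonneg hC0 (by linarith only [hs1])
        refine (mul_le_mul_of_nonneg_left a1 a2).trans (le_of_eq ?_)
        field_simp
      have e : C / Real.log w * (1 / Real.sqrt w - 1 / Real.sqrt ((m + 1 : ℕ) : ℝ))
          = C / Real.log w * (1 / Real.sqrt w - 1 / Real.sqrt m)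
            + C / Real.log w * (1 / Real.sqrt m - 1 / Real.sqrt ((m + 1 : ℕ) : ℝ)) := by ring
      rw [e]
      linarith only [ih, key]
  have h3 := h2 z hwz
  have h4 : C / Real.log w * (1 / Real.sqrt w - 1 / Real.sqrt z) ≤ C / (Real.sqrt w * Real.log w) := by
    have hz0 : (0 : ℝ) < z := by exact_mod_cast (by omega : 0 < z)
    have : 0 ≤ 1 / Real.sqrt z := by positivity
    calc C / Real.log w * (1 / Real.sqrt w - 1 / Real.sqrt z) ≤ C / Real.log w * (1 / Real.sqrt w) :=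
          mul_le_mul_of_nonneg_left (by linarith only [this]) (by positivity)
      _ = C / (Real.sqrt w * Real.log w) := by field_simp
  have h5 : (C * Real.sqrt w) * (1 / (((w + 1 : ℕ) : ℝ) * Real.log ((w + 1 : ℕ) : ℝ)))
      ≤ C / (Real.sqrt w * Real.log w) := by
    have a1 : 1 / (((w + 1 : ℕ) : ℝ) * Real.log ((w + 1 : ℕ) : ℝ)) ≤ 1 / (w * Real.log w) := by
      apply one_div_le_one_div_of_le (by positivity)
      apply mul_le_mul
      · push_cast; linarith only
      · apply Real.log_le_log hw0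
        push_cast; linarith only
      · exact hlw.le
      · positivity
    refine (mul_le_mul_of_nonneg_left a1 (by positivity)).trans (le_of_eq ?_)
    have hss : (w : ℝ) = Real.sqrt w * Real.sqrt w := (Real.mul_self_sqrt (by positivity)).symm
    rw [mul_one_div, div_eq_div_iff (by positivity) (by positivity)]
    calc C * Real.sqrt w * (Real.sqrt w * Real.log w) = C * (Real.sqrt w * Real.sqrt w * Real.log w) := by ring
      _ = C * (w * Real.log w) := by rw [← hss]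
  have e : 4 * Real.log 3 / (Real.sqrt w * Real.log w) = C / (Real.sqrt w * Real.log w) + C / (Real.sqrt w * Real.log w) := by
    rw [hC]; ring
  rw [e]
  linarith only [h1, h3, h4, h5]

/-! ### The lower bound -/

theorem MB_loglog {w z : ℕ} (hw : 2 ≤ w) (hwz : w ≤ z) :
    Real.log (Real.log z) - Real.log (Real.log w) - 1 / (w * Real.log w)
      ≤ ∑ k ∈ Ioc w z, (Real.log k - Real.log (k - 1 : ℕ)) * (1 / Real.log k) := by
  have hw0 : (0 : ℝ) < w := by exact_mod_cast (by omega : 0 < w)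
  have h1 : ∀ m, w ≤ m → Real.log (Real.log m) - Real.log (Real.log w)
        - 1 / w * (1 / Real.log w - 1 / Real.log m)
      ≤ ∑ k ∈ Ioc w m, (Real.log k - Real.log (k - 1 : ℕ)) * (1 / Real.log k) := by
    intro m hm
    induction m, hm using Nat.le_induction with
    | base => simp
    | succ m hm ih =>
      rw [sum_Ioc_succ_top (by omega), Nat.add_sub_cancel]
      have hm0 : (0 : ℝ) < m := by exact_mod_cast (by omega : 0 < m)
      have a1 := MB_log_pos hw hm
      have a2 := MB_log_pos hw (show w ≤ m + 1 by omega)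
      have a3 : Real.log m ≤ Real.log ((m + 1 : ℕ) : ℝ) := by
        apply Real.log_le_log hm0; push_cast; linarith only
      have b1 := Real.log_le_sub_one_of_pos (x := Real.log ((m + 1 : ℕ) : ℝ) / Real.log m) (by positivity)
      rw [Real.log_div a2.ne' a1.ne'] at b1
      have b2 : Real.log ((m + 1 : ℕ) : ℝ) / Real.log m - 1
          = (Real.log ((m + 1 : ℕ) : ℝ) - Real.log m) * (1 / Real.log ((m + 1 : ℕ) : ℝ))
            + (Real.log ((m + 1 : ℕ) : ℝ) - Real.log m) * (1 / Real.log m - 1 / Real.log ((m + 1 : ℕ) : ℝ)) := by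
        field_simp
        ring
      have b3 : Real.log ((m + 1 : ℕ) : ℝ) - Real.log m ≤ 1 / w := by
        have h := Real.log_le_sub_one_of_pos (x := ((m + 1 : ℕ) : ℝ) / m) (by positivity)
        rw [Real.log_div (by positivity) hm0.ne'] at h
        have e : ((m + 1 : ℕ) : ℝ) / m - 1 = 1 / m := by push_cast; field_simp; ring
        have h2 : 1 / (m : ℝ) ≤ 1 / w := one_div_le_one_div_of_le hw0 (by exact_mod_cast hm)
        linarith only [h, e, h2]
      have b4 : 0 ≤ 1 / Real.log m - 1 / Real.log ((m + 1 : ℕ) : ℝ) := by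
        have := one_div_le_one_div_of_le a1 a3
        linarith only [this]
      have b5 := mul_le_mul_of_nonneg_right b3 b4
      have e2 : 1 / (w : ℝ) * (1 / Real.log w - 1 / Real.log ((m + 1 : ℕ) : ℝ))
          = 1 / (w : ℝ) * (1 / Real.log w - 1 / Real.log m)
            + 1 / (w : ℝ) * (1 / Real.log m - 1 / Real.log ((m + 1 : ℕ) : ℝ)) := by ring
      rw [e2]
      linarith only [ih, b1, b2, b5]
  have h2 := h1 z hwz
  have h3 := MB_log_pos hw hwz
  have h4 := MB_log_pos hw le_rfl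
  have h5 : 1 / (w : ℝ) * (1 / Real.log w - 1 / Real.log z) ≤ 1 / (w * Real.log w) := by
    have : 0 ≤ 1 / Real.log z := by positivity
    calc 1 / (w : ℝ) * (1 / Real.log w - 1 / Real.log z) ≤ 1 / (w : ℝ) * (1 / Real.log w) :=
          mul_le_mul_of_nonneg_left (by linarith only [this]) (by positivity)
      _ = 1 / (w * Real.log w) := by field_simp
  linarith only [h2, h5]

theorem mertens_lower {w z : ℕ} (hw : 65536 ≤ w) (hwz : w ≤ z) :
    Real.log (Real.log z / Real.log w) - 0.25 / Real.log w ≤ ∑ p ∈ Pr w z, (1 : ℝ) / p := by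
  have hw2 : 2 ≤ w := by omega
  have hw0 : (65536 : ℝ) ≤ w := by exact_mod_cast hw
  have hwp : (0 : ℝ) < w := by linarith only [hw0]
  have hlw := MB_log_pos hw2 le_rfl
  have hlz := MB_log_pos hw2 hwz
  -- Abel summation
  have h1 : ∑ k ∈ Ioc w z, (Real.log k - Real.log (k - 1 : ℕ)) * (1 / Real.log k)
      ≤ ∑ k ∈ Ioc w z, (Λ k / k) * (1 / Real.log k) + 0.2295 * (1 / Real.log ((w + 1 : ℕ) : ℝ)) := by
    apply abel_le (f := fun k : ℕ => 1 / Real.log k) hwz (by norm_num)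
    · intro k hk1 _
      have := MB_log_pos hw2 hk1.le
      positivity
    · have := MB_log_pos hw2 (Nat.le_succ w)
      positivity
    · intro k hk1 _
      have h2 := MB_log_pos hw2 hk1.le
      apply one_div_le_one_div_of_le h2
      apply Real.log_le_log
      · exact_mod_cast (by omega : 0 < k)
      · push_cast; linarith only
    · intro m hm1 _
      have e1 : ∑ k ∈ Ioc w m, (Real.log k - Real.log (k - 1 : ℕ)) = Real.log m - Real.log w := by
        induction m, hm1 using Nat.le_induction with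
        | base => simp
        | succ m hm ih =>
          rw [sum_Ioc_succ_top (by omega), ih (by omega)]
          simp
      have e3 : Mt m - Mt w = ∑ k ∈ Ioc w m, Λ k / k := by
        unfold Mt
        rw [← sum_Ioc_consecutive _ (Nat.zero_le w) hm1]
        ring
      have h2 := Mt_osc (n := m) (m := w) (by omega) hw
      rw [e1, ← e3]
      linarith only [h2]
  -- splitting off the primes
  have h2 : ∑ k ∈ Ioc w z, (Λ k / k) * (1 / Real.log k)
      = ∑ p ∈ Pr w z, (1 : ℝ) / p + ∑ k ∈ Ioc w z, (if k.Prime then 0 else Λ k) * (1 / (k * Real.log k)) := by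
    unfold Pr
    rw [sum_filter, ← sum_add_distrib]
    apply sum_congr rfl
    intro k hk
    rw [mem_Ioc] at hk
    have hk0 : (0 : ℝ) < k := by exact_mod_cast (by omega : 0 < k)
    have hl := MB_log_pos hw2 hk.1.le
    split_ifs with hp
    · rw [ArithmeticFunction.vonMangoldt_apply_prime hp]
      field_simp
      ring
    · field_simp
      ring
  have h3 := MB_powers hw2 hwz
  have h4 := MB_loglog hw2 hwz
  have h5 : 0.2295 * (1 / Real.log ((w + 1 : ℕ) : ℝ)) ≤ 0.2295 / Real.log w := by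
    rw [mul_one_div]
    apply div_le_div_of_nonneg_left (by norm_num) hlw
    apply Real.log_le_log hwp
    push_cast; linarith only
  have l3 : Real.log 3 ≤ 1.098617 := by
    have := log_three_bounds.2
    have l2 := Real.log_two_lt_d9
    linarith only [this, l2]
  have hs : (256 : ℝ) ≤ Real.sqrt w := by
    rw [show (256 : ℝ) = Real.sqrt 65536 by
      rw [show (65536 : ℝ) = 256 ^ 2 by norm_num, Real.sqrt_sq (by norm_num)]]
    exact Real.sqrt_le_sqrt hw0
  have h6 : 4 * Real.log 3 / (Real.sqrt w * Real.log w) ≤ 0.0172 / Real.log w := by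
    rw [div_le_div_iff₀ (by positivity) hlw]
    have : 4 * Real.log 3 ≤ 0.0172 * Real.sqrt w := by linarith only [l3, hs]
    nlinarith only [hlw, l3, hs]
  have h7 : 1 / (w * Real.log w) ≤ 0.0001 / Real.log w := by
    rw [div_le_div_iff₀ (by positivity) hlw]
    have : 1 ≤ 0.0001 * (w : ℝ) := by linarith only [hw0]
    nlinarith only [hlw, hw0]
  have h8 : 0.25 / Real.log w = 0.2295 / Real.log w + 0.0172 / Real.log w + 0.0001 / Real.log w
      + 0.0032 / Real.log w := by ring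
  have h9 : 0 ≤ 0.0032 / Real.log w := by positivity
  rw [Real.log_div hlz.ne' hlw.ne']
  rw [h2] at h1
  linarith only [h1, h3, h4, h5, h6, h7, h8, h9]

/-! ### The product up to 65536 -/

end Pool.Agent.H91.PK

end

section

/-!
# W Rough: the density of the integers without prime factor in `(P, P 2^J]`

Proof.  Let `Z = P 2^J`, `f(k) = 1` if `k` has no prime factor in `(P, Z]` (these are the primes of the blocks
`pb (P 2^i)`, `i < J`), else `0`.  If `y < Z` the number is `≤ y ≤ Z`.  Let `y ≥ Z`.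
(Hall-Tenenbaum) `∑_{n ≤ y} f(n) log n = ∑_{n ≤ y} f(n) ∑_{d ∣ n} Λ(d) ≤ ∑_{m ≤ y} f(m) ψ(y/m) ≤ C1 y ∑_{m ≤ y} f(m)/m`
(`n = m d`, `f(n) ≤ f(m)`; `ψ(u) ≤ C1 u`, e.g. `Chebyshev.psi_le` or `psi_le_log_three`), and
`∑_{n ≤ y} f(n) log(y/n) ≤ ∑ f(n) y/n`; so `log y · ∑_{n ≤ y} f(n) ≤ (C1 + 1) y ∑_{m ≤ y} f(m)/m`.
(Euler product) `∑_{m ≤ y} f(m)/m ≤ ∏_{p ≤ y, p ∉ (P, Z]} (1 - 1/p)^{-1}`, and
`∏_{p ≤ y} (1 - 1/p)^{-1} ≤ C2 log y` (Mertens upper bound, `MR_sum_inv` for `∑ 1/p`), and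
`∏_{P < p ≤ Z} (1 - 1/p) ≤ exp (- ∑_{P < p ≤ Z} 1/p) ≤ C3 log P / log Z` (`mertens_lower` in `H91/PK/MB.lean` for `P ≥ 65536`;
for smaller `P` use `P' = 65536`: then `log P' / log Z ≤ 16 log P / log Z · ...`, if `Z ≤ 65536` the claim is trivial with
a large `C`).  So `#{n ≤ y : f(n) = 1} ≤ C y log P / log Z`.
-/

set_option autoImplicit false

namespace Pool.Agent.H35.W

open Finset

private theorem rough_upper : ∃ C : ℝ, 0 < C ∧ ∀ y : ℕ, 2 ≤ y →
    ∑ p ∈ (Icc 1 y).filter Nat.Prime, (1 : ℝ) / p ≤ Real.log (Real.log y) + C :=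
  Pool.Agent.H43.MP.mrt_upper

open Pool.Agent.H91.Gold (Pr) in
private theorem rough_Pr_mono (P w Z : ℕ) (h : P ≤ w) :
    ∑ p ∈ Pr w Z, (1 : ℝ) / p ≤ ∑ p ∈ (Ioc P Z).filter Nat.Prime, (1 : ℝ) / p := by
  apply Finset.sum_le_sum_of_subset_of_nonneg
  · intro p hp
    unfold Pr at hp
    rw [mem_filter, mem_Ioc] at hp ⊢
    exact ⟨⟨lt_of_le_of_lt h hp.1.1, hp.1.2⟩, hp.2⟩
  · intro _ _ _; positivity

open Pool.Agent.H91.Gold (Pr) in
private theorem rough_lower (P Z : ℕ) (hP : 2 ≤ P) (hPZ : P ≤ Z) :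
    Real.log (Real.log Z / Real.log P) - 4 ≤ ∑ p ∈ (Ioc P Z).filter Nat.Prime, (1 : ℝ) / p := by
  have hlP : (0 : ℝ) < Real.log P := Real.log_pos (by exact_mod_cast hP)
  have hlZ : (0 : ℝ) < Real.log Z := Real.log_pos (by exact_mod_cast (by omega : 1 < Z))
  have hZ0 : (0 : ℝ) < Z := by
    have : 0 < Z := by omega
    exact_mod_cast this
  have hl2 : (0 : ℝ) < Real.log 2 := Real.log_pos (by norm_num)
  have hl6 : Real.log 65536 = 16 * Real.log 2 := by
    rw [show (65536 : ℝ) = 2 ^ 16 by norm_num, Real.log_pow]; norm_num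
  have hl6' : (11 : ℝ) ≤ Real.log 65536 := by
    rw [hl6]; have := Real.log_two_gt_d9; linarith
  have hl16 : Real.log 16 ≤ 3 := by
    rw [show (16 : ℝ) = 2 ^ 4 by norm_num, Real.log_pow]
    have := Real.log_two_lt_d9; push_cast; linarith
  rcases Nat.lt_or_ge P 65536 with h | h
  · have hP2 : Real.log 2 ≤ Real.log P := Real.log_le_log (by norm_num) (by exact_mod_cast hP)
    rcases Nat.lt_or_ge Z 65536 with hz | hz
    · have h1 : Real.log Z ≤ Real.log 65536 := Real.log_le_log (by positivity) (by exact_mod_cast hz.le)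
      have h2 : Real.log Z / Real.log P ≤ 16 := by
        rw [div_le_iff₀ hlP]; rw [hl6] at h1; nlinarith
      have h3 : Real.log (Real.log Z / Real.log P) ≤ Real.log 16 :=
        Real.log_le_log (by positivity) h2
      have h4 : (0 : ℝ) ≤ ∑ p ∈ (Ioc P Z).filter Nat.Prime, (1 : ℝ) / p :=
        Finset.sum_nonneg (fun _ _ => by positivity)
      linarith
    · have h1 := Pool.Agent.H91.PK.mertens_lower (le_refl 65536) hz
      have h2 : ∑ p ∈ Pr 65536 Z, (1 : ℝ) / p ≤ ∑ p ∈ (Ioc P Z).filter Nat.Prime, (1 : ℝ) / p :=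
        rough_Pr_mono P 65536 Z h.le
      have h3 : (0.25 : ℝ) / Real.log ((65536 : ℕ) : ℝ) ≤ 1 := by
        push_cast
        rw [div_le_one (by linarith)]; linarith
      have h4 : Real.log (Real.log Z / Real.log P) - Real.log 16 ≤
          Real.log (Real.log Z / Real.log ((65536 : ℕ) : ℝ)) := by
        push_cast
        rw [← Real.log_div (by positivity) (by norm_num)]
        apply Real.log_le_log (by positivity)
        rw [div_div]
        apply div_le_div_of_nonneg_left hlZ.le (by linarith)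
        rw [hl6]; nlinarith
      linarith
  · have h1 := Pool.Agent.H91.PK.mertens_lower h hPZ
    have h3 : (0.25 : ℝ) / Real.log P ≤ 1 := by
      have : Real.log 65536 ≤ Real.log P := Real.log_le_log (by norm_num) (by exact_mod_cast h)
      rw [div_le_one hlP]; linarith
    have h2 : ∑ p ∈ Pr P Z, (1 : ℝ) / p = ∑ p ∈ (Ioc P Z).filter Nat.Prime, (1 : ℝ) / p := rfl
    linarith

/-- the block primes fill `(P, P 2^J]` -/
private theorem rough_block (P J p : ℕ) (hp : p.Prime) (h1 : P < p) (h2 : p ≤ P * 2 ^ J) :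
    ∃ i, i < J ∧ p ∈ pb (P * 2 ^ i) := by
  induction J with
  | zero => simp at h2; omega
  | succ J ih =>
    rcases Nat.lt_or_ge (P * 2 ^ J) p with h | h
    · refine ⟨J, Nat.lt_succ_self J, ?_⟩
      unfold pb
      rw [mem_filter, mem_Ioc]
      refine ⟨⟨h, ?_⟩, hp⟩
      rw [pow_succ] at h2
      linarith [h2, Nat.mul_comm 2 (P * 2 ^ J)]
    · obtain ⟨i, hi, hi'⟩ := ih h
      exact ⟨i, hi.trans (Nat.lt_succ_self J), hi'⟩

private theorem rough_dvd (P J m n : ℕ) (h : Rk P J n) (hmn : m ∣ n) : Rk P J m :=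
  fun i hi p hp hpm => h i hi p hp (hpm.trans hmn)

/-- Hall-Tenenbaum -/
private theorem rough_HT (P J y : ℕ) (hy : 2 ≤ y) :
    Real.log y * ((rgh P J y).card : ℝ) ≤
      (Real.log 4 + 5) * y * ∑ m ∈ rgh P J y, (1 : ℝ) / m := by
  classical
  have hy0 : (0 : ℝ) < y := by positivity
  have mem : ∀ n, n ∈ rgh P J y ↔ (1 ≤ n ∧ n ≤ y) ∧ Rk P J n := by
    intro n; unfold rgh; rw [mem_filter, mem_Icc]
  have h1 : Real.log y * ((rgh P J y).card : ℝ) =
      ∑ n ∈ rgh P J y, Real.log n + ∑ n ∈ rgh P J y, Real.log ((y : ℝ) / n) := by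
    rw [← Finset.sum_add_distrib, mul_comm, ← nsmul_eq_mul, ← Finset.sum_const]
    apply Finset.sum_congr rfl
    intro n hn
    have hn1 := ((mem n).1 hn).1.1
    have hn0 : (0 : ℝ) < n := by positivity
    rw [Real.log_div hy0.ne' hn0.ne']; ring
  have h2 : ∑ n ∈ rgh P J y, Real.log ((y : ℝ) / n) ≤ y * ∑ m ∈ rgh P J y, (1 : ℝ) / m := by
    rw [Finset.mul_sum]
    apply Finset.sum_le_sum
    intro n hn
    have hn1 := ((mem n).1 hn).1.1
    have hn0 : (0 : ℝ) < n := by positivity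
    have := Real.log_le_self (show (0 : ℝ) ≤ y / n by positivity)
    rw [mul_one_div]; exact this
  have h3 : ∑ n ∈ rgh P J y, Real.log n ≤
      ∑ m ∈ rgh P J y, ∑ d ∈ Ioc 0 (y / m), ArithmeticFunction.vonMangoldt d := by
    have e1 : ∀ n ∈ rgh P J y, Real.log n =
        ∑ m ∈ rgh P J y, if m ∣ n then ArithmeticFunction.vonMangoldt (n / m) else 0 := by
      intro n hn
      have hn1 := (mem n).1 hn
      rw [← ArithmeticFunction.vonMangoldt_sum,
        ← Nat.sum_div_divisors n (fun d => ArithmeticFunction.vonMangoldt d), ← Finset.sum_filter]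
      apply Finset.sum_congr _ (fun _ _ => rfl)
      ext m
      rw [Nat.mem_divisors, mem_filter, mem]
      constructor
      · rintro ⟨hm, _⟩
        refine ⟨⟨⟨Nat.pos_of_dvd_of_pos hm hn1.1.1, ?_⟩, rough_dvd P J m n hn1.2 hm⟩, hm⟩
        exact (Nat.le_of_dvd hn1.1.1 hm).trans hn1.1.2
      · rintro ⟨_, hm⟩
        exact ⟨hm, by omega⟩
    rw [Finset.sum_congr rfl e1, Finset.sum_comm]
    apply Finset.sum_le_sum
    intro m hm
    have hm1 := ((mem m).1 hm).1.1
    rw [← Finset.sum_filter]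
    have e2 : ∑ n ∈ (rgh P J y).filter (fun n => m ∣ n), ArithmeticFunction.vonMangoldt (n / m) =
        ∑ d ∈ ((rgh P J y).filter (fun n => m ∣ n)).image (fun n => n / m),
          ArithmeticFunction.vonMangoldt d := by
      rw [Finset.sum_image]
      intro a ha b hb hab
      rw [Finset.coe_filter] at ha hb
      have ha' := Nat.div_mul_cancel ha.2
      have hb' := Nat.div_mul_cancel hb.2
      have hab' : a / m = b / m := hab
      rw [← ha', ← hb', hab']
    rw [e2]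
    apply Finset.sum_le_sum_of_subset_of_nonneg
    · intro d hd
      rw [mem_image] at hd
      obtain ⟨n, hn, rfl⟩ := hd
      rw [mem_filter] at hn
      have hn1 := (mem n).1 hn.1
      rw [mem_Ioc]
      exact ⟨Nat.div_pos (Nat.le_of_dvd hn1.1.1 hn.2) hm1, Nat.div_le_div_right hn1.1.2⟩
    · intro _ _ _
      exact ArithmeticFunction.vonMangoldt_nonneg
  have h4 : ∑ m ∈ rgh P J y, ∑ d ∈ Ioc 0 (y / m), ArithmeticFunction.vonMangoldt d ≤
      (Real.log 4 + 4) * y * ∑ m ∈ rgh P J y, (1 : ℝ) / m := by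
    rw [Finset.mul_sum]
    apply Finset.sum_le_sum
    intro m hm
    have hm1 := ((mem m).1 hm).1.1
    have hm0 : (0 : ℝ) < m := by positivity
    have e3 := Chebyshev.psi_le_const_mul_self (show (0 : ℝ) ≤ ((y / m : ℕ) : ℝ) by positivity)
    unfold Chebyshev.psi at e3
    rw [Nat.floor_natCast] at e3
    refine e3.trans ?_
    have e4 : ((y / m : ℕ) : ℝ) ≤ y / m := Nat.cast_div_le
    have e5 : (0 : ℝ) ≤ Real.log 4 + 4 := by
      have := Real.log_nonneg (show (1 : ℝ) ≤ 4 by norm_num); linarith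
    calc (Real.log 4 + 4) * ((y / m : ℕ) : ℝ) ≤ (Real.log 4 + 4) * (y / m) :=
          mul_le_mul_of_nonneg_left e4 e5
      _ = (Real.log 4 + 4) * y * (1 / m) := by ring
  rw [h1]
  calc _ ≤ (Real.log 4 + 4) * y * ∑ m ∈ rgh P J y, (1 : ℝ) / m +
        y * ∑ m ∈ rgh P J y, (1 : ℝ) / m := add_le_add (h3.trans h4) h2
    _ = _ := by ring

/-- Euler product -/
private theorem rough_Euler (P J y : ℕ) (hy : 2 ≤ y) :
    ∑ m ∈ rgh P J y, (1 : ℝ) / m ≤
      Real.exp (∑ p ∈ ((Icc 1 y).filter Nat.Prime).filter (fun p => ¬ (P < p ∧ p ≤ P * 2 ^ J)),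
        (1 : ℝ) / p + 2) := by
  classical
  set T := ((Icc 1 y).filter Nat.Prime).filter (fun p => ¬ (P < p ∧ p ≤ P * 2 ^ J)) with hT
  have memT : ∀ p, p ∈ T ↔ ((1 ≤ p ∧ p ≤ y) ∧ p.Prime) ∧ ¬ (P < p ∧ p ≤ P * 2 ^ J) := by
    intro p; rw [hT, mem_filter, mem_filter, mem_Icc]
  let f : ℕ →* ℝ :=
    { toFun := fun n => (n : ℝ)⁻¹
      map_one' := by simp
      map_mul' := by intro a b; push_cast; rw [mul_inv] }
  have hf : ∀ n, f n = (n : ℝ)⁻¹ := fun _ => rfl
  have hlt : ∀ {p : ℕ}, Nat.Prime p → ‖f p‖ < 1 := by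
    intro p hp
    have : (2 : ℝ) ≤ p := by exact_mod_cast hp.two_le
    rw [hf, norm_inv, Real.norm_of_nonneg (by positivity)]
    exact inv_lt_one_of_one_lt₀ (by linarith)
  obtain ⟨hs, hsum⟩ := EulerProduct.summable_and_hasSum_factoredNumbers_prod_filter_prime_geometric
    (f := f) hlt T
  have hTp : T.filter Nat.Prime = T := by
    apply Finset.filter_true_of_mem
    intro p hp
    exact ((memT p).1 hp).1.2
  rw [hTp] at hsum
  have h1 : ∑ m ∈ rgh P J y, (1 : ℝ) / m ≤ ∏ p ∈ T, (1 - f p)⁻¹ := by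
    have e1 : ∀ m ∈ rgh P J y, m ∈ Nat.factoredNumbers T := by
      intro m hm
      unfold rgh at hm
      rw [mem_filter, mem_Icc] at hm
      rw [Nat.mem_factoredNumbers]
      refine ⟨by omega, ?_⟩
      intro p hp
      have hpp := Nat.prime_of_mem_primeFactorsList hp
      have hpd := Nat.dvd_of_mem_primeFactorsList hp
      rw [memT]
      refine ⟨⟨⟨hpp.one_lt.le, (Nat.le_of_dvd hm.1.1 hpd).trans hm.1.2⟩, hpp⟩, ?_⟩
      rintro ⟨h1, h2⟩
      obtain ⟨i, hi, hi'⟩ := rough_block P J p hpp h1 h2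
      exact hm.2 i hi p hi' hpd
    have e2 : ∑ m ∈ rgh P J y, (1 : ℝ) / m =
        ∑ m ∈ (rgh P J y).attach, f m.1 := by
      rw [Finset.sum_attach (rgh P J y) (fun m => f m)]
      apply Finset.sum_congr rfl
      intro m _
      rw [hf, one_div]
    rw [e2]
    let g : {m // m ∈ rgh P J y} → Nat.factoredNumbers T := fun m => ⟨m.1, e1 m.1 m.2⟩
    have hg : Function.Injective g := by
      intro a b hab
      have : a.1 = b.1 := congrArg (fun z : Nat.factoredNumbers T => z.1) hab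
      exact Subtype.ext this
    have e3 : ∑ m ∈ (rgh P J y).attach, f m.1 =
        ∑ z ∈ (rgh P J y).attach.image g, f (z : ℕ) := by
      rw [Finset.sum_image (fun a _ b _ h => hg h)]
    rw [e3]
    apply sum_le_hasSum _ _ hsum
    intro z _
    rw [hf]; positivity
  refine h1.trans ?_
  rw [Real.exp_add, Real.exp_sum]
  have h2 : ∏ p ∈ T, (1 - f p)⁻¹ ≤ ∏ p ∈ T, Real.exp (1 / (p : ℝ)) * Real.exp (1 / (p : ℝ) ^ 2) := by
    apply Finset.prod_le_prod
    · intro p hp
      have hpp := ((memT p).1 hp).1.2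
      have := hlt hpp
      rw [Real.norm_of_nonneg (by rw [hf]; positivity)] at this
      have : 0 < 1 - f p := by linarith
      positivity
    · intro p hp
      have hpp := ((memT p).1 hp).1.2
      have hp2 : (2 : ℝ) ≤ p := by exact_mod_cast hpp.two_le
      rw [hf, ← Real.exp_add]
      have hp0 : (0 : ℝ) < p := by linarith
      set t := (p : ℝ)⁻¹ with ht
      have ht1 : t ≤ 1 / 2 := by
        rw [ht, inv_le_comm₀ hp0 (by norm_num)]; linarith
      have ht0 : 0 < t := by positivity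
      have e4 : (1 : ℝ) / p + 1 / (p : ℝ) ^ 2 = t + t ^ 2 := by
        rw [ht]; field_simp
      rw [e4]
      have e5 : (1 - t)⁻¹ ≤ 1 + (t + t ^ 2) + (t + t ^ 2) ^ 2 / 2 := by
        rw [inv_le_iff_one_le_mul₀ (by linarith)]
        nlinarith [pow_pos ht0 2, pow_pos ht0 3, pow_pos ht0 4, mul_pos ht0 ht0]
      exact e5.trans (Real.quadratic_le_exp_of_nonneg (by positivity))
  refine h2.trans ?_
  rw [Finset.prod_mul_distrib]
  apply mul_le_mul_of_nonneg_left _ (Finset.prod_nonneg (fun _ _ => (Real.exp_pos _).le))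
  rw [← Real.exp_sum]
  apply Real.exp_le_exp.2
  have h3 : ∑ p ∈ T, 1 / (p : ℝ) ^ 2 ≤ ∑ p ∈ Icc 1 y, 1 / (p : ℝ) ^ 2 := by
    apply Finset.sum_le_sum_of_subset_of_nonneg
    · intro p hp
      rw [mem_Icc]
      exact ((memT p).1 hp).1.1
    · intro _ _ _; positivity
  refine h3.trans ?_
  have h4 : ∀ n : ℕ, 1 ≤ n → ∑ p ∈ Icc 1 n, 1 / (p : ℝ) ^ 2 ≤ 2 - 1 / (n : ℝ) := by
    intro n hn
    induction n, hn using Nat.le_induction with
    | base => norm_num
    | succ n hn ih =>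
      rw [Finset.sum_Icc_succ_top (by omega)]
      have hn0 : (0 : ℝ) < n := by positivity
      have : 1 / ((n + 1 : ℕ) : ℝ) ^ 2 ≤ 1 / n - 1 / ((n + 1 : ℕ) : ℝ) := by
        push_cast
        rw [div_sub_div _ _ hn0.ne' (by positivity), div_le_div_iff₀ (by positivity) (by positivity)]
        nlinarith
      linarith
  have h5 := h4 y (by omega)
  have : (0 : ℝ) ≤ 1 / y := by positivity
  linarith

theorem rough_count : ∃ C : ℝ, 0 < C ∧ ∀ (P J : ℕ), 2 ≤ P → ∀ y : ℕ,
    ((rgh P J y).card : ℝ) ≤ C * (Real.log P / Real.log ((P : ℝ) * 2 ^ J)) * y + P * 2 ^ J := by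
  classical
  obtain ⟨C2, hC2, hup⟩ := rough_upper
  refine ⟨(Real.log 4 + 5) * Real.exp (C2 + 6), ?_, ?_⟩
  · have := Real.log_nonneg (show (1 : ℝ) ≤ 4 by norm_num)
    positivity
  intro P J hP y
  have hPZ : P ≤ P * 2 ^ J := Nat.le_mul_of_pos_right P (by positivity)
  have hlP : (0 : ℝ) < Real.log P := Real.log_pos (by exact_mod_cast hP)
  have hZr : (P : ℝ) * 2 ^ J = ((P * 2 ^ J : ℕ) : ℝ) := by push_cast; ring
  rw [hZr]
  set Z := P * 2 ^ J with hZ
  have hlZ : Real.log P ≤ Real.log Z :=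
    Real.log_le_log (by positivity) (by exact_mod_cast hPZ)
  have hlZ0 : 0 < Real.log Z := lt_of_lt_of_le hlP hlZ
  have hl4 := Real.log_nonneg (show (1 : ℝ) ≤ 4 by norm_num)
  rcases Nat.lt_or_ge y Z with hyZ | hyZ
  · have h1 : ((rgh P J y).card : ℝ) ≤ y := by
      have : (rgh P J y).card ≤ y := by
        unfold rgh
        refine (Finset.card_filter_le _ _).trans ?_
        simp
      exact_mod_cast this
    have h2 : (y : ℝ) ≤ Z := by exact_mod_cast hyZ.le
    have h3 : 0 ≤ (Real.log 4 + 5) * Real.exp (C2 + 6) * (Real.log P / Real.log Z) * y := by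
      positivity
    linarith
  · have hy2 : 2 ≤ y := by omega
    have hly : 0 < Real.log y := Real.log_pos (by exact_mod_cast (by omega : 1 < y))
    have h1 := rough_HT P J y hy2
    have h2 := rough_Euler P J y hy2
    have h3 := hup y hy2
    have h4 := rough_lower P Z hP hPZ
    have h5 : ∑ p ∈ ((Icc 1 y).filter Nat.Prime).filter (fun p => ¬ (P < p ∧ p ≤ P * 2 ^ J)),
        (1 : ℝ) / p + ∑ p ∈ (Ioc P Z).filter Nat.Prime, (1 : ℝ) / p =
        ∑ p ∈ (Icc 1 y).filter Nat.Prime, (1 : ℝ) / p := by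
      rw [← Finset.sum_filter_add_sum_filter_not ((Icc 1 y).filter Nat.Prime)
        (fun p => P < p ∧ p ≤ P * 2 ^ J), add_comm]
      congr 1
      apply Finset.sum_congr _ (fun _ _ => rfl)
      ext p
      rw [mem_filter, mem_filter, mem_filter, mem_Ioc, mem_Icc]
      constructor
      · rintro ⟨⟨h, h'⟩, hp⟩
        exact ⟨⟨⟨hp.one_lt.le, h'.trans hyZ⟩, hp⟩, h, h'⟩
      · rintro ⟨⟨_, hp⟩, h, h'⟩
        exact ⟨⟨h, h'⟩, hp⟩
    have h6 : ∑ m ∈ rgh P J y, (1 : ℝ) / m ≤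
        Real.exp (C2 + 6) * (Real.log y * (Real.log P / Real.log Z)) := by
      refine h2.trans ?_
      have e1 : Real.log y * (Real.log P / Real.log Z) =
          Real.exp (Real.log (Real.log y) - Real.log (Real.log Z / Real.log P)) := by
        rw [Real.exp_sub, Real.exp_log hly, Real.exp_log (by positivity)]
        field_simp
      rw [e1, ← Real.exp_add]
      apply Real.exp_le_exp.2
      linarith
    have h7 : Real.log y * ((rgh P J y).card : ℝ) ≤
        Real.log y * ((Real.log 4 + 5) * Real.exp (C2 + 6) * (Real.log P / Real.log Z) * y) := by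
      refine h1.trans ?_
      have : (Real.log 4 + 5) * (y : ℝ) * ∑ m ∈ rgh P J y, (1 : ℝ) / m ≤
          (Real.log 4 + 5) * (y : ℝ) *
            (Real.exp (C2 + 6) * (Real.log y * (Real.log P / Real.log Z))) :=
        mul_le_mul_of_nonneg_left h6 (by positivity)
      refine this.trans (le_of_eq ?_)
      ring
    have h8 := le_of_mul_le_mul_left h7 hly
    have h9 : (0 : ℝ) ≤ P * 2 ^ J := by positivity
    linarith

end Pool.Agent.H35.W

end

section

/-!
PK Vau: Vaughan's identity, summed against an arbitrary function `g`.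

Pointwise: for n ≥ 1
 Λ(n) = [n ≤ U] Λ(n) + ∑_{ab=n, a ≤ V} μ(a) log b - ∑_{ab=n} nuV(a) + ∑_{ml=n, m > U} Λ(m) cV(l),
 (cV(l) = ∑_{d|l, d>V} μ(d), nuV(a) = ∑_{de=a, d≤V, e≤U} μ(d)Λ(e)).
Proof: Λ·[>U] * (μ * 1) = Λ·[>U]; split μ = μ·[≤V] + μ·[>V]; and (μ[≤V]) * 1 * Λ[>U] = (μ[≤V]) * log - (μ[≤V])*Λ[≤U]*1
 because Λ * 1 = log.  One can work with ArithmeticFunction (ℝ) and its ring structure: define the arithmetic functions
 ΛU, ΛU', μV, μV' (restrictions, all vanish at 0) and compute in the commutative ring.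
Then multiply by g(n), sum over n in [1,N] and reorder the sum over pairs (a,b) with ab ≤ N.
In the last sum cV V n = 0 for n ≤ V, so the restriction n > V is harmless.
nuV(a) ≠ 0 only for a ≤ U V (a = d e, d ≤ V, e ≤ U).
-/

set_option autoImplicit false

namespace Pool.Agent.H91.PK

open Finset

/-- restriction of an arithmetic function to `n ≤ U` -/
noncomputable def Vau_lo (f : ArithmeticFunction ℝ) (U : ℕ) : ArithmeticFunction ℝ :=
  ⟨fun n => if n ≤ U then f n else 0, by simp⟩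

/-- restriction of an arithmetic function to `n > U` -/
noncomputable def Vau_hi (f : ArithmeticFunction ℝ) (U : ℕ) : ArithmeticFunction ℝ :=
  ⟨fun n => if n ≤ U then 0 else f n, by simp⟩

theorem Vau_lo_apply (f : ArithmeticFunction ℝ) (U n : ℕ) : Vau_lo f U n = if n ≤ U then f n else 0 := rfl

theorem Vau_hi_apply (f : ArithmeticFunction ℝ) (U n : ℕ) : Vau_hi f U n = if n ≤ U then 0 else f n := rfl

theorem Vau_split (f : ArithmeticFunction ℝ) (U : ℕ) : f = Vau_lo f U + Vau_hi f U := by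
  ext n
  rw [ArithmeticFunction.add_apply, Vau_lo_apply, Vau_hi_apply]
  split_ifs <;> simp

/-- the real Moebius function -/
noncomputable def Vau_mu : ArithmeticFunction ℝ := ((ArithmeticFunction.moebius : ArithmeticFunction ℤ) : ArithmeticFunction ℝ)

/-- the real zeta function -/
noncomputable def Vau_z : ArithmeticFunction ℝ := ((ArithmeticFunction.zeta : ArithmeticFunction ℕ) : ArithmeticFunction ℝ)

theorem Vau_mu_apply (n : ℕ) : Vau_mu n = (ArithmeticFunction.moebius n : ℝ) := rfl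

theorem Vau_mu_z : Vau_mu * Vau_z = 1 := ArithmeticFunction.coe_moebius_mul_coe_zeta

theorem Vau_Lam_z : ArithmeticFunction.vonMangoldt * Vau_z = ArithmeticFunction.log :=
  ArithmeticFunction.vonMangoldt_mul_zeta

theorem Vau_id (U V : ℕ) :
    (ArithmeticFunction.vonMangoldt : ArithmeticFunction ℝ)
      = Vau_lo ArithmeticFunction.vonMangoldt U + Vau_lo Vau_mu V * ArithmeticFunction.log
        - Vau_lo Vau_mu V * Vau_lo ArithmeticFunction.vonMangoldt U * Vau_z
        + Vau_hi ArithmeticFunction.vonMangoldt U * (Vau_hi Vau_mu V * Vau_z) := by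
  have h1 := Vau_split ArithmeticFunction.vonMangoldt U
  have h2 := Vau_split Vau_mu V
  have h3 := Vau_mu_z
  have h4 := Vau_Lam_z
  set Lam : ArithmeticFunction ℝ := ArithmeticFunction.vonMangoldt
  set A := Vau_lo Lam U
  set B := Vau_hi Lam U
  set C := Vau_lo Vau_mu V
  set D := Vau_hi Vau_mu V
  rw [← h4]
  have h5 : (C + D) * Vau_z = 1 := by rw [← h2]; exact h3
  have h6 : B * ((C + D) * Vau_z) = B := by rw [h5, mul_one]
  calc Lam = A + B := h1
    _ = A + B * ((C + D) * Vau_z) := by rw [h6]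
    _ = A + C * ((A + B) * Vau_z) - C * A * Vau_z + B * (D * Vau_z) := by ring
    _ = _ := by rw [← h1]

theorem Vau_sum_conv (F H : ArithmeticFunction ℝ) (N : ℕ) (g : ℕ → ℂ) :
    ∑ n ∈ Icc 1 N, (((F * H) n : ℝ) : ℂ) * g n
      = ∑ a ∈ Icc 1 N, ((F a : ℝ) : ℂ) * ∑ b ∈ Icc 1 (N / a), ((H b : ℝ) : ℂ) * g (a * b) := by
  have h1 : ∀ n ∈ Icc 1 N, (((F * H) n : ℝ) : ℂ) * g n
      = ∑ p ∈ n.divisorsAntidiagonal, ((F p.1 : ℝ) : ℂ) * (((H p.2 : ℝ) : ℂ) * g (p.1 * p.2)) := by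
    intro n hn
    rw [ArithmeticFunction.mul_apply, Complex.ofReal_sum, Finset.sum_mul]
    refine Finset.sum_congr rfl fun p hp => ?_
    rw [(Nat.mem_divisorsAntidiagonal.mp hp).1, Complex.ofReal_mul]
    ring
  rw [Finset.sum_congr rfl h1, Finset.sum_sigma']
  simp_rw [Finset.mul_sum]
  rw [Finset.sum_sigma']
  refine Finset.sum_bij' (fun x _ => ⟨x.2.1, x.2.2⟩) (fun y _ => ⟨y.1 * y.2, (y.1, y.2)⟩) ?_ ?_ ?_ ?_ ?_
  · rintro ⟨n, a, b⟩ hx
    simp only [Finset.mem_sigma, Finset.mem_Icc, Nat.mem_divisorsAntidiagonal] at hx ⊢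
    obtain ⟨⟨hn1, hnN⟩, hab, hn0⟩ := hx
    have ha : 1 ≤ a := by
      rcases Nat.eq_zero_or_pos a with h | h
      · subst h; simp at hab; omega
      · exact h
    have hb : 1 ≤ b := by
      rcases Nat.eq_zero_or_pos b with h | h
      · subst h; simp at hab; omega
      · exact h
    refine ⟨⟨ha, ?_⟩, hb, ?_⟩
    · calc a = a * 1 := (mul_one a).symm
        _ ≤ a * b := Nat.mul_le_mul_left a hb
        _ ≤ N := by rw [hab]; exact hnN
    · rw [Nat.le_div_iff_mul_le (by omega)]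
      calc b * a = a * b := mul_comm b a
        _ ≤ N := by rw [hab]; exact hnN
  · rintro ⟨a, b⟩ hy
    simp only [Finset.mem_sigma, Finset.mem_Icc, Nat.mem_divisorsAntidiagonal] at hy ⊢
    obtain ⟨⟨ha1, haN⟩, hb1, hb⟩ := hy
    rw [Nat.le_div_iff_mul_le (by omega)] at hb
    have : 0 < a * b := Nat.mul_pos (by omega) (by omega)
    refine ⟨⟨this, ?_⟩, trivial, this.ne'⟩
    calc a * b = b * a := mul_comm a b
      _ ≤ N := hb
  · rintro ⟨n, a, b⟩ hx
    simp only [Finset.mem_sigma, Finset.mem_Icc, Nat.mem_divisorsAntidiagonal] at hx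
    obtain ⟨⟨hn1, hnN⟩, hab, hn0⟩ := hx
    subst hab
    rfl
  · rintro ⟨a, b⟩ hy
    rfl
  · rintro ⟨n, a, b⟩ hx
    rfl

theorem Vau_restrict (F : ℕ → ℂ) (G : ℕ → ℂ) (N M : ℕ) (hF : ∀ a, M < a → F a = 0)
    (hG : ∀ a, N < a → G a = 0) : ∑ a ∈ Icc 1 N, F a * G a = ∑ a ∈ Icc 1 M, F a * G a := by
  have h1 : ∑ a ∈ Icc 1 N, F a * G a = ∑ a ∈ Icc 1 (max N M), F a * G a := by
    refine Finset.sum_subset (Finset.Icc_subset_Icc_right (le_max_left _ _)) fun a ha hna => ?_
    rw [hG a, mul_zero]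
    simp only [Finset.mem_Icc, not_and, not_le] at ha hna
    exact hna ha.1
  have h2 : ∑ a ∈ Icc 1 M, F a * G a = ∑ a ∈ Icc 1 (max N M), F a * G a := by
    refine Finset.sum_subset (Finset.Icc_subset_Icc_right (le_max_right _ _)) fun a ha hna => ?_
    rw [hF a, zero_mul]
    simp only [Finset.mem_Icc, not_and, not_le] at ha hna
    exact hna ha.1
  rw [h1, h2]

theorem Vau_nuV (U V a : ℕ) :
    (Vau_lo Vau_mu V * Vau_lo ArithmeticFunction.vonMangoldt U) a = nuV U V a := by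
  rw [ArithmeticFunction.mul_apply, nuV, Finset.sum_filter,
    Nat.sum_divisorsAntidiagonal (fun x y => Vau_lo Vau_mu V x * Vau_lo ArithmeticFunction.vonMangoldt U y)]
  refine Finset.sum_congr rfl fun d _ => ?_
  rw [Vau_lo_apply, Vau_lo_apply, Vau_mu_apply]
  by_cases h1 : d ≤ V <;> by_cases h2 : a / d ≤ U <;> simp [h1, h2]

theorem Vau_cV (V n : ℕ) : (Vau_hi Vau_mu V * Vau_z) n = cV V n := by
  rw [Vau_z, ArithmeticFunction.coe_mul_zeta_apply, cV, Finset.sum_filter]
  refine Finset.sum_congr rfl fun d _ => ?_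
  rw [Vau_hi_apply, Vau_mu_apply]
  by_cases h1 : d ≤ V
  · simp [h1]
  · simp [h1]

theorem Vau_cV_zero {V n : ℕ} (h : n ≤ V) : cV V n = 0 := by
  rw [cV]
  refine Finset.sum_eq_zero fun d hd => ?_
  rw [Finset.mem_filter, Nat.mem_divisors] at hd
  have := Nat.le_of_dvd (Nat.pos_of_ne_zero hd.1.2) hd.1.1
  omega

theorem Vau_nuV_zero {U V a : ℕ} (h : U * V < a) : nuV U V a = 0 := by
  rw [nuV]
  refine Finset.sum_eq_zero fun d hd => ?_
  rw [Finset.mem_filter, Nat.mem_divisors] at hd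
  exfalso
  have h1 : d * (a / d) = a := Nat.mul_div_cancel' hd.1.1
  have h2 : d * (a / d) ≤ V * U := Nat.mul_le_mul hd.2.1 hd.2.2
  rw [h1, mul_comm] at h2
  omega

theorem vaughan (N U V : ℕ) (g : ℕ → ℂ) :
    ∑ n ∈ Icc 1 N, ((ArithmeticFunction.vonMangoldt n : ℝ) : ℂ) * g n
      = ∑ n ∈ Icc 1 (min U N), ((ArithmeticFunction.vonMangoldt n : ℝ) : ℂ) * g n
      + ∑ a ∈ Icc 1 V, ((ArithmeticFunction.moebius a : ℝ) : ℂ) *
          ∑ b ∈ Icc 1 (N / a), ((Real.log b : ℝ) : ℂ) * g (a * b)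
      - ∑ a ∈ Icc 1 (U * V), ((nuV U V a : ℝ) : ℂ) * ∑ b ∈ Icc 1 (N / a), g (a * b)
      + ∑ m ∈ Ioc U N, ((ArithmeticFunction.vonMangoldt m : ℝ) : ℂ) *
          ∑ n ∈ Ioc V (N / m), ((cV V n : ℝ) : ℂ) * g (m * n) := by
  have hid := Vau_id U V
  have hpt : ∀ n, ((ArithmeticFunction.vonMangoldt n : ℝ) : ℂ) * g n
      = ((Vau_lo ArithmeticFunction.vonMangoldt U n : ℝ) : ℂ) * g n
        + (((Vau_lo Vau_mu V * ArithmeticFunction.log) n : ℝ) : ℂ) * g n
        - (((Vau_lo Vau_mu V * Vau_lo ArithmeticFunction.vonMangoldt U * Vau_z) n : ℝ) : ℂ) * g n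
        + (((Vau_hi ArithmeticFunction.vonMangoldt U * (Vau_hi Vau_mu V * Vau_z)) n : ℝ) : ℂ) * g n := by
    intro n
    conv_lhs => rw [hid]
    rw [ArithmeticFunction.add_apply, sub_eq_add_neg, ArithmeticFunction.add_apply,
      ArithmeticFunction.add_apply, ArithmeticFunction.neg_apply]
    push_cast
    ring
  rw [Finset.sum_congr rfl fun n _ => hpt n, Finset.sum_add_distrib, Finset.sum_sub_distrib,
    Finset.sum_add_distrib, Vau_sum_conv (Vau_lo Vau_mu V) ArithmeticFunction.log,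
    Vau_sum_conv (Vau_lo Vau_mu V * Vau_lo ArithmeticFunction.vonMangoldt U) Vau_z,
    Vau_sum_conv (Vau_hi ArithmeticFunction.vonMangoldt U) (Vau_hi Vau_mu V * Vau_z)]
  have hGz : ∀ (H : ℕ → ℂ) (a : ℕ), N < a → ∑ b ∈ Icc 1 (N / a), H b * g (a * b) = 0 := by
    intro H a ha
    rw [Nat.div_eq_of_lt ha]
    simp
  congr 1
  · congr 1
    · congr 1
      · rw [show ∑ n ∈ Icc 1 (min U N), ((ArithmeticFunction.vonMangoldt n : ℝ) : ℂ) * g n
          = ∑ n ∈ Icc 1 (min U N), ((Vau_lo ArithmeticFunction.vonMangoldt U n : ℝ) : ℂ) * g n from ?_]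
        · symm
          refine Finset.sum_subset (Finset.Icc_subset_Icc_right (min_le_right _ _)) fun a ha hna => ?_
          simp only [Finset.mem_Icc, not_and, not_le] at ha hna
          have h1 := hna ha.1
          rw [min_lt_iff] at h1
          have h2 : ¬ a ≤ U := by
            rcases h1 with h1 | h1
            · omega
            · omega
          rw [Vau_lo_apply, if_neg h2]
          simp
        · refine Finset.sum_congr rfl fun n hn => ?_
          rw [Finset.mem_Icc, le_min_iff] at hn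
          rw [Vau_lo_apply, if_pos hn.2.1]
      · rw [Vau_restrict (fun a => ((Vau_lo Vau_mu V a : ℝ) : ℂ))
          (fun a => ∑ b ∈ Icc 1 (N / a), ((ArithmeticFunction.log b : ℝ) : ℂ) * g (a * b)) N V]
        · refine Finset.sum_congr rfl fun a ha => ?_
          rw [Finset.mem_Icc] at ha
          rw [Vau_lo_apply, if_pos ha.2, Vau_mu_apply]
          simp only [ArithmeticFunction.log_apply]
        · intro a ha
          rw [Vau_lo_apply, if_neg (by omega)]
          simp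
        · intro a ha
          exact hGz _ a ha
    · rw [Vau_restrict (fun a => (((Vau_lo Vau_mu V * Vau_lo ArithmeticFunction.vonMangoldt U) a : ℝ) : ℂ))
          (fun a => ∑ b ∈ Icc 1 (N / a), ((Vau_z b : ℝ) : ℂ) * g (a * b)) N (U * V)]
      · refine Finset.sum_congr rfl fun a ha => ?_
        rw [Vau_nuV]
        congr 1
        refine Finset.sum_congr rfl fun b hb => ?_
        rw [Finset.mem_Icc] at hb
        rw [Vau_z, ArithmeticFunction.natCoe_apply, ArithmeticFunction.zeta_apply_ne (by omega)]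
        simp
      · intro a ha
        rw [Vau_nuV, Vau_nuV_zero ha]
        simp
      · intro a ha
        exact hGz _ a ha
  · have hsub : Ioc U N ⊆ Icc 1 N := by
      intro a ha
      rw [Finset.mem_Ioc] at ha
      rw [Finset.mem_Icc]
      omega
    rw [← Finset.sum_subset hsub]
    · refine Finset.sum_congr rfl fun a ha => ?_
      rw [Finset.mem_Ioc] at ha
      rw [Vau_hi_apply, if_neg (by omega)]
      congr 1
      simp only [Vau_cV]
      have hsub2 : Ioc V (N / a) ⊆ Icc 1 (N / a) := by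
        intro b hb
        rw [Finset.mem_Ioc] at hb
        rw [Finset.mem_Icc]
        omega
      rw [← Finset.sum_subset hsub2]
      intro b hb hnb
      rw [Finset.mem_Icc] at hb
      rw [Finset.mem_Ioc] at hnb
      have hbV : b ≤ V := by
        by_contra hcon
        exact hnb ⟨by omega, hb.2⟩
      rw [Vau_cV_zero hbV]
      simp
    · intro a ha hna
      rw [Finset.mem_Icc] at ha
      rw [Finset.mem_Ioc] at hna
      have haU : a ≤ U := by
        by_contra hcon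
        exact hna ⟨by omega, ha.2⟩
      rw [Vau_hi_apply, if_pos haU]
      simp

/-- `|nuV(a)| ≤ log a` (as `∑_{e | a} Λ(e) = log a`). -/
theorem abs_nuV_le (U V a : ℕ) (ha : 1 ≤ a) : |nuV U V a| ≤ Real.log a := by
  rw [nuV]
  refine (Finset.abs_sum_le_sum_abs _ _).trans ?_
  have h1 : ∀ d ∈ a.divisors.filter (fun d => d ≤ V ∧ a / d ≤ U),
      |(ArithmeticFunction.moebius d : ℝ) * ArithmeticFunction.vonMangoldt (a / d)|
        ≤ ArithmeticFunction.vonMangoldt (a / d) := by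
    intro d _
    rw [abs_mul, abs_of_nonneg (ArithmeticFunction.vonMangoldt_nonneg)]
    have h2 : |(ArithmeticFunction.moebius d : ℝ)| ≤ 1 := by
      have := ArithmeticFunction.abs_moebius_le_one (n := d)
      exact_mod_cast this
    calc |(ArithmeticFunction.moebius d : ℝ)| * ArithmeticFunction.vonMangoldt (a / d)
        ≤ 1 * ArithmeticFunction.vonMangoldt (a / d) :=
          mul_le_mul_of_nonneg_right h2 ArithmeticFunction.vonMangoldt_nonneg
      _ = _ := one_mul _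
  refine (Finset.sum_le_sum h1).trans ?_
  calc ∑ d ∈ a.divisors.filter (fun d => d ≤ V ∧ a / d ≤ U), ArithmeticFunction.vonMangoldt (a / d)
      ≤ ∑ d ∈ a.divisors, ArithmeticFunction.vonMangoldt (a / d) :=
        Finset.sum_le_sum_of_subset_of_nonneg (Finset.filter_subset _ _)
          (fun _ _ _ => ArithmeticFunction.vonMangoldt_nonneg)
    _ = ∑ d ∈ a.divisors, ArithmeticFunction.vonMangoldt d := by
        exact Nat.sum_div_divisors a (fun d => ArithmeticFunction.vonMangoldt d)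
    _ = Real.log a := ArithmeticFunction.vonMangoldt_sum

end Pool.Agent.H91.PK

end

section

/-!
# SP IIL: the bound of `II S (ge ..)` (the heart of Part III)

Modelled on `Pool/Agent/H35/W/IIE.lean` (copy it; its lemmas are private): `a0 = 0`, `a = 0`, `Θ = 1/L^6` fixed, and part (2) uses
the mean square hypothesis `CorL.large` instead of a pointwise bound.  Notation: `L = log x`, `G = ge g N (c/d) 0 Θ s`,
`T0 = L^{4m}`, `T1 = L^4 (Θ x + 1) = x/L^2 + L^4 ≤ x`, `M ≥ x/L^{C0}`, `C6 = 5 C0 + 14`.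
`II S G = (1/2π) ∫ |ZZ S t|^2 |Mel G t|^2 dt` (`int_sum_sq_e`), `|ZZ S t|^2 ≤ 8 P`.
`mel_l` for `|t| ≤ T1`: `2|t|/(Θ M) ≤ 2 (x/L^2 + L^4) L^6 L^{C0}/x ≤ 4 L^{C0+4}`, so with `A_y(t) = cor g 0 M (c/d) (t/2π) y`
   `|Mel G t|^2 ≤ (L^{C6}/x) (|A_N(t)|^2 + (1/x) ∑_{y ∈ Ioc M N} |A_y(t)|^2)`.                                       (*)
 (0) `|t| ≤ T0`: `|A_y| ≤ x/L^{3m}` (`CorL.low` at `t/2π`): `|Mel G t|^2 ≤ 2 x L^{C6 - 6m}`; contribution `≤ 2 T0 · 8 P · 2 x L^{C6-6m} ≤ 32 P x L^{C6-2m}`.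
 (1) `T0 < |t| ≤ T1`, `|ZZ S t|^2 ≤ P/L^{E+3}`: `≤ (P/L^{E+3}) ∫ |Mel G|^2 ≤ (P/L^{E+3}) 4π x L^2`?  NO: as in IIE use `ZB = P/L^{E+3}` and
     `∫|Mel G|^2 ≤ 4π S2`, `S2 ≤ x L^2`; take `ZB = P/L^{E+4}` (adapt `bad_n (E+4)`), contribution `≤ 13 P x/L^{E+2}`.
 (2) `T0 < |t| ≤ T1`, `|ZZ S t|^2 > P/L^{E+4}`: dyadic sets `𝓑_i = {2^i T0 ≤ |t| ≤ min(2^{i+1} T0, T1), ...}`, `i < n = ⌈4L⌉`; `vol 𝓑_i ≤ (2^i T0)^η`
     (`bad_n (E+4) η`, this gives `b`).  `𝓑' = {τ : 2π τ ∈ 𝓑_i}` lies in `T ≤ |τ| ≤ 2T`, `T = 2^i T0/(2π)`, and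
     `vol 𝓑' = vol 𝓑_i/(2π) ≤ (2^i T0)^η/(2π) ≤ T^η` as `(2π)^{η-1} ≤ 1`; `T ≥ L^m`, `2T ≤ x ≤ x^2`.  By (*) and `CorL.large`
     `∫_{𝓑_i} |Mel G|^2 = ... ≤ (L^{C6}/x) · 2π · 2 x^2/L^K = 4π x L^{C6-K}`; contribution `≤ n · 8 P · 4π x L^{C6-K} ≤ P x L^{C6+2-K}`; `K = C6 + E + 4`.
     (`IIE_core` must be changed: `hBμ` becomes `∀ i ∈ I, ∫ t in 𝓑 i, M t ≤ μ i`, and `g3 t = ∑ i ∈ I, (𝓑 i).indicator (fun t => P8 * M t) t`.)
 (3) `|t| > T1`: `mel_tl` (with `S0 = M`, `a0 = 0`, `a = 0`), as in IIE, part 3.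
 `m0`: `2m ≥ C6 + E + 4`, `4m ≥` the `m` of `bad_n`, `m ≥ 1`.
-/

set_option autoImplicit false

namespace Pool.Agent.H76.SP

open Finset MeasureTheory
open Pool.Agent.H91.PK (ee)
open Pool.Agent.H76.EHB
open Pool.Agent.H35.W

end Pool.Agent.H76.SP

end
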