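import Pool.Agent.H43.PS.M09
import Pool.Agent.H43.PS.M12
import Pool.Agent.H43.PS.M13
import Pool.Agent.H43.PS.M14

/-! The parts of this file: H80.LV.Pre, H43.CH.LvC. -/

section

/-!
# LV Pre: `∫_B |∑_{n ≤ y} Λ(n) e(n c/d) n^{2 π i t}|^2 dt`

Proof.  Let `η2` be that of `tyII`, `δ` that of `tyI` (both absolute), `η = min (η2, δ, 1/2) / 3`.
`vol B ≤ T^η L^A ≤ x^{2η} L^A ≤ x^{3η}` (`T ≤ x^2`), `3 η ≤ min (η2, δ, 1/2)`.
Case `y < x^{1/2}`: the sum is `≤ y L ≤ x^{1/2} L`, the integral `≤ x L^2 x^{3η} ≤ x^2/L^K`.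
Case `x^{1/2} ≤ y`: `vaughan y U U (gE (c/d) t)`, `U = ⌈x^{1/8}⌉₊ ≤ 2 x^{1/8}` (`U^4 ≤ 16 x^{1/2} ≤ x`):
 (i) first sum `≤ U L`; (ii) `≤ ∑_{a ≤ U} 2 (y/a) L^2 (1/|t| + x^{-δ}) ≤ x L^4 (1/T + x^{-δ})` (`tyI`, natural number `K = y/a ≥ x^{1/8}`);
 (iii) `|nuV U U a| ≤ log a ≤ L` (`abs_nuV_le`), `a ≤ U^2 ≤ 4 x^{1/4}`, `y/a ≥ x^{1/8}`: `≤ x L^4 (1/T + x^{-δ})`;
 (iv) `tyII`.
 `|sum of the four|^2 ≤ 4 (sum of the squares)`; (i) `4 x^{1/4} L^2 x^{3η}`; (ii),(iii): `2 x^2 L^8 (T^{-2} + x^{-2δ}) vol B ≤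
 2 x^2 L^8 (T^{-1} L^A + x^{-δ}) ≤ x^2/L^{K+2}` if `K' ≥ K + A + 12`.
 (Compare `GB/HiLam.lean`.)
-/

set_option autoImplicit false

namespace Pool.Agent.H80.LV

open Finset MeasureTheory
open Pool.Agent.H91.PK (ee cV nuV)
open Pool.Agent.H91.EHA (Lam)

private theorem Pre_Lam_le (x n : ℕ) (hn : 1 ≤ n) (hnx : n ≤ x) :
    |ArithmeticFunction.vonMangoldt n| ≤ Real.log x := by
  rw [abs_of_nonneg ArithmeticFunction.vonMangoldt_nonneg]
  refine ArithmeticFunction.vonMangoldt_le_log.trans ?_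
  exact Real.log_le_log (by exact_mod_cast hn) (by exact_mod_cast hnx)

private theorem Pre_cont_gE (α : ℝ) (n : ℕ) : Continuous (fun t : ℝ => gE α t n) := by
  unfold gE ee
  fun_prop

/-- `∫_B F ≤ C vol B + 4 ∫_B G` if `F ≤ C + 4 G` on `B` -/
private theorem Pre_int (F G : ℝ → ℝ) (hF : Continuous F) (hG : Continuous G) (B : Set ℝ)
    (R C : ℝ) (hB : MeasurableSet B) (hBR : ∀ t ∈ B, |t| ≤ R)
    (h : ∀ t ∈ B, F t ≤ C + 4 * G t) :
    ∫ t in B, F t ≤ C * volume.real B + 4 * ∫ t in B, G t := by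
  have hsub : B ⊆ Set.Icc (-R) R := fun t ht => abs_le.mp (hBR t ht)
  have hfin : volume B ≠ ⊤ := by
    refine ne_top_of_le_ne_top ?_ (measure_mono hsub)
    rw [Real.volume_Icc]
    exact ENNReal.ofReal_ne_top
  have hFi : IntegrableOn F B := (hF.integrableOn_Icc).mono_set hsub
  have hGi : IntegrableOn G B := (hG.integrableOn_Icc).mono_set hsub
  have hCi : IntegrableOn (fun _ : ℝ => C) B := integrableOn_const hfin
  have h1 : ∫ t in B, F t ≤ ∫ t in B, (C + 4 * G t) :=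
    setIntegral_mono_on hFi (hCi.add (hGi.const_mul 4)) hB h
  refine h1.trans (le_of_eq ?_)
  rw [integral_add hCi (hGi.const_mul 4), integral_const_mul, setIntegral_const, smul_eq_mul]
  ring

private theorem Pre_sq4 (a b c d : ℝ) : (a + b + c + d) ^ 2 ≤ 4 * (a ^ 2 + b ^ 2 + c ^ 2 + d ^ 2) := by
  nlinarith only [sq_nonneg (a - b), sq_nonneg (a - c), sq_nonneg (a - d), sq_nonneg (b - c),
    sq_nonneg (b - d), sq_nonneg (c - d)]

/-- the pointwise bound, large `y` -/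
private theorem Pre_pt (δ : ℝ) (x y d U : ℕ) (c : ℤ) (t E : ℝ) (r L : ℝ)
    (hL : L = Real.log x) (hL8 : 8 ≤ L)
    (hr8 : 8 ≤ r) (hU : U = ⌈r⌉₊) (hyr : r ^ 4 ≤ y) (hyx : y ≤ x) (hrx : r ^ 8 = x)
    (hE : 1 / |t| + (x : ℝ) ^ (-δ) ≤ E)
    (H1 : ∀ (a K : ℕ), 1 ≤ a → r ≤ K → K ≤ x →
      ‖∑ b ∈ Icc 1 K, gE ((c : ℝ) / d) t (a * b)‖
        ≤ K * L * (1 / |t| + (x : ℝ) ^ (-δ)) ∧
      ‖∑ b ∈ Icc 1 K, ((Real.log b : ℝ) : ℂ) * gE ((c : ℝ) / d) t (a * b)‖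
        ≤ 2 * K * L ^ 2 * (1 / |t| + (x : ℝ) ^ (-δ))) :
    ‖∑ n ∈ Icc 1 y, ((Lam n : ℝ) : ℂ) * gE ((c : ℝ) / d) t n‖ ^ 2
      ≤ 4 * ((2 * r * L) ^ 2 + 2 * (x * L ^ 4 * E) ^ 2) +
        4 * ‖∑ m ∈ Ioc U y, ((Lam m : ℝ) : ℂ) *
          ∑ n ∈ Ioc U (y / m), ((cV U n : ℝ) : ℂ) * gE ((c : ℝ) / d) t (m * n)‖ ^ 2 := by
  have hr0 : 0 < r := by linarith only [hr8]
  have hx0 : (0 : ℝ) < (x : ℝ) := by rw [← hrx]; positivity
  have hE0 : 0 ≤ 1 / |t| + (x : ℝ) ^ (-δ) := by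
    have h1 := Real.rpow_nonneg hx0.le (-δ)
    have h2 : 0 ≤ 1 / |t| := by positivity
    linarith only [h1, h2]
  have hE00 : 0 ≤ E := hE0.trans hE
  have hU1 : r ≤ (U : ℝ) := by rw [hU]; exact Nat.le_ceil r
  have hU2 : (U : ℝ) ≤ 2 * r := by
    have := Nat.ceil_lt_add_one hr0.le
    rw [hU]
    linarith only [hr8, this]
  have hUpos : 1 ≤ U := by
    have : (1 : ℝ) ≤ (U : ℝ) := by linarith only [hr8, hU1]
    exact_mod_cast this
  have hr2 : 8 * r ≤ r ^ 2 := by nlinarith only [hr8]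
  have hr4 : r ^ 2 * 64 ≤ r ^ 4 := by nlinarith only [hr8, hr2]
  have hUUr : ((U * U : ℕ) : ℝ) ≤ 4 * r ^ 2 := by
    push_cast
    nlinarith only [hU2, hr8]
  have hxr4 : r ^ 4 ≤ (x : ℝ) := hyr.trans (by exact_mod_cast hyx)
  have hUU : U * U ≤ x := by
    have h1 : ((U * U : ℕ) : ℝ) ≤ (x : ℝ) := by nlinarith only [hr8, hr2, hr4, hUUr, hxr4]
    exact_mod_cast h1
  have hUx : U ≤ x := le_trans (Nat.le_mul_self U) hUU
  have hUy : U ≤ y := by
    have h1 : (U : ℝ) ≤ (y : ℝ) := by nlinarith only [hr8, hyr, hU2, hr2, hr4]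
    exact_mod_cast h1
  -- the length of the inner sums
  have hKr : ∀ a : ℕ, 1 ≤ a → (a : ℝ) ≤ 4 * r ^ 2 → r ≤ ((y / a : ℕ) : ℝ) := by
    intro a ha ha2
    have ha0 : (0 : ℝ) < (a : ℝ) := by exact_mod_cast ha
    have h1 : (y : ℝ) < ((y / a : ℕ) + 1 : ℝ) * a := by
      have h2 : y < (y / a + 1) * a := by
        have := Nat.lt_div_mul_add (a := y) ha
        calc y < y / a * a + a := this
          _ = (y / a + 1) * a := by ring
      exact_mod_cast h2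
    have h3 : (y : ℝ) < ((y / a : ℕ) + 1 : ℝ) * (4 * r ^ 2) :=
      h1.trans_le (mul_le_mul_of_nonneg_left ha2 (by positivity))
    have h4 : r ^ 2 * r ^ 2 < ((y / a : ℕ) + 1 : ℝ) * 4 * r ^ 2 := by nlinarith only [hyr, h3]
    have h5 : r ^ 2 < ((y / a : ℕ) + 1 : ℝ) * 4 := lt_of_mul_lt_mul_right h4 (by positivity)
    nlinarith only [hr8, hr2, h5]
  have hKx : ∀ a : ℕ, y / a ≤ x := fun a => (Nat.div_le_self y a).trans hyx
  have hKdiv : ∀ a : ℕ, 1 ≤ a → ((y / a : ℕ) : ℝ) ≤ x * ((1 : ℝ) / a) := by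
    intro a ha
    have ha0 : (0 : ℝ) < (a : ℝ) := by exact_mod_cast ha
    calc ((y / a : ℕ) : ℝ) ≤ (y : ℝ) / a := Nat.cast_div_le
      _ ≤ (x : ℝ) / a := div_le_div_of_nonneg_right (by exact_mod_cast hyx) ha0.le
      _ = x * ((1 : ℝ) / a) := by ring
  have hharm : ∀ n : ℕ, 1 ≤ n → n ≤ x → ∑ a ∈ Icc 1 n, (1 : ℝ) / a ≤ 1 + L := by
    intro n hn hnx
    refine (Pool.Agent.H91.PK.Msq_harmonic n).trans ?_
    have : Real.log n ≤ Real.log x :=
      Real.log_le_log (by exact_mod_cast hn) (by exact_mod_cast hnx)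
    rw [hL]
    linarith only [this]
  set g : ℕ → ℂ := gE ((c : ℝ) / d) t with hg
  have hg1 : ∀ k, ‖g k‖ ≤ 1 := fun k => (norm_gE _ _ _).le
  have hV := Pool.Agent.H91.PK.vaughan y U U g
  -- (i)
  have hS1 : ‖∑ n ∈ Icc 1 (min U y), ((ArithmeticFunction.vonMangoldt n : ℝ) : ℂ) * g n‖ ≤
      2 * r * L := by
    have h1 : ‖∑ n ∈ Icc 1 (min U y), ((ArithmeticFunction.vonMangoldt n : ℝ) : ℂ) * g n‖ ≤
        ∑ n ∈ Icc 1 (min U y), L := by
      refine (norm_sum_le _ _).trans (sum_le_sum fun n hn => ?_)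
      rw [mem_Icc, le_min_iff] at hn
      rw [norm_mul, Complex.norm_real, Real.norm_eq_abs]
      have h2 := Pre_Lam_le x n hn.1 (hn.2.2.trans hyx)
      have h3 := hg1 n
      calc |ArithmeticFunction.vonMangoldt n| * ‖g n‖ ≤ L * 1 :=
            mul_le_mul (by rw [hL]; exact h2) h3 (norm_nonneg _) (by linarith only [hL8])
        _ = L := mul_one L
    rw [sum_const, Nat.card_Icc, nsmul_eq_mul, Nat.add_sub_cancel] at h1
    have h4 : ((min U y : ℕ) : ℝ) ≤ 2 * r := by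
      have h5 : ((min U y : ℕ) : ℝ) ≤ (U : ℝ) := by exact_mod_cast min_le_left U y
      linarith only [hU2, h5]
    exact h1.trans (mul_le_mul_of_nonneg_right h4 (by linarith only [hL8]))
  have hcoef : ∀ z : ℝ, 0 ≤ z → z * (1 + L) * (2 * L ^ 2) ≤ z * L ^ 4 := by
    intro z hz
    have h1 : (1 + L) * (2 * L ^ 2) ≤ L ^ 4 := by
      have h2 : 0 ≤ L ^ 2 := by positivity
      have h3 : 2 * (1 + L) ≤ L ^ 2 := by nlinarith only [hL8]
      nlinarith only [h3]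
    calc z * (1 + L) * (2 * L ^ 2) = z * ((1 + L) * (2 * L ^ 2)) := by ring
      _ ≤ z * L ^ 4 := mul_le_mul_of_nonneg_left h1 hz
  have hxE : 0 ≤ x * E := by positivity
  -- (ii)
  have hS2 : ‖∑ a ∈ Icc 1 U, ((ArithmeticFunction.moebius a : ℝ) : ℂ) *
      ∑ b ∈ Icc 1 (y / a), ((Real.log b : ℝ) : ℂ) * g (a * b)‖ ≤ x * L ^ 4 * E := by
    have h1 : ‖∑ a ∈ Icc 1 U, ((ArithmeticFunction.moebius a : ℝ) : ℂ) *
        ∑ b ∈ Icc 1 (y / a), ((Real.log b : ℝ) : ℂ) * g (a * b)‖ ≤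
        ∑ a ∈ Icc 1 U, (1 : ℝ) / a * (2 * L ^ 2 * (x * E)) := by
      refine (norm_sum_le _ _).trans (sum_le_sum fun a ha => ?_)
      rw [mem_Icc] at ha
      have haU : (a : ℝ) ≤ (U : ℝ) := by exact_mod_cast ha.2
      have h2 := (H1 a (y / a) ha.1 (hKr a ha.1 (by nlinarith only [hr8, hU2, hr2, haU])) (hKx a)).2
      rw [norm_mul, Complex.norm_real, Real.norm_eq_abs]
      have h3 := Pool.Agent.H91.PK.Msq_abs_moebius a
      have h4 := hKdiv a ha.1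
      calc |(ArithmeticFunction.moebius a : ℝ)| *
            ‖∑ b ∈ Icc 1 (y / a), ((Real.log b : ℝ) : ℂ) * g (a * b)‖
          ≤ 1 * (2 * ((y / a : ℕ) : ℝ) * L ^ 2 * (1 / |t| + (x : ℝ) ^ (-δ))) :=
            mul_le_mul h3 h2 (norm_nonneg _) zero_le_one
        _ = ((y / a : ℕ) : ℝ) * (2 * L ^ 2) * (1 / |t| + (x : ℝ) ^ (-δ)) := by ring
        _ ≤ (x * ((1 : ℝ) / a)) * (2 * L ^ 2) * E := by
            apply mul_le_mul _ hE hE0 (by positivity)
            exact mul_le_mul_of_nonneg_right h4 (by positivity)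
        _ = (1 : ℝ) / a * (2 * L ^ 2 * (x * E)) := by ring
    rw [← sum_mul] at h1
    calc _ ≤ (∑ a ∈ Icc 1 U, (1 : ℝ) / a) * (2 * L ^ 2 * (x * E)) := h1
      _ ≤ (1 + L) * (2 * L ^ 2 * (x * E)) :=
          mul_le_mul_of_nonneg_right (hharm U hUpos hUx) (by positivity)
      _ = (x * E) * (1 + L) * (2 * L ^ 2) := by ring
      _ ≤ (x * E) * L ^ 4 := hcoef _ hxE
      _ = _ := by ring
  -- (iii)
  have hS3 : ‖∑ a ∈ Icc 1 (U * U), ((Pool.Agent.H91.PK.nuV U U a : ℝ) : ℂ) *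
      ∑ b ∈ Icc 1 (y / a), g (a * b)‖ ≤ x * L ^ 4 * E := by
    have h1 : ‖∑ a ∈ Icc 1 (U * U), ((Pool.Agent.H91.PK.nuV U U a : ℝ) : ℂ) *
        ∑ b ∈ Icc 1 (y / a), g (a * b)‖ ≤
        ∑ a ∈ Icc 1 (U * U), (1 : ℝ) / a * (L ^ 2 * (x * E)) := by
      refine (norm_sum_le _ _).trans (sum_le_sum fun a ha => ?_)
      rw [mem_Icc] at ha
      have haU : (a : ℝ) ≤ ((U * U : ℕ) : ℝ) := by exact_mod_cast ha.2
      have hax : a ≤ x := ha.2.trans hUU
      have h2 := (H1 a (y / a) ha.1 (hKr a ha.1 (haU.trans hUUr)) (hKx a)).1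
      rw [norm_mul, Complex.norm_real, Real.norm_eq_abs]
      have h3 : |Pool.Agent.H91.PK.nuV U U a| ≤ L := by
        refine (Pool.Agent.H91.PK.abs_nuV_le U U a ha.1).trans ?_
        rw [hL]
        exact Real.log_le_log (by exact_mod_cast ha.1) (by exact_mod_cast hax)
      have h4 := hKdiv a ha.1
      calc |Pool.Agent.H91.PK.nuV U U a| * ‖∑ b ∈ Icc 1 (y / a), g (a * b)‖
          ≤ L * (((y / a : ℕ) : ℝ) * L * (1 / |t| + (x : ℝ) ^ (-δ))) :=
            mul_le_mul h3 h2 (norm_nonneg _) (by linarith only [hL8])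
        _ = ((y / a : ℕ) : ℝ) * (L ^ 2) * (1 / |t| + (x : ℝ) ^ (-δ)) := by ring
        _ ≤ (x * ((1 : ℝ) / a)) * (L ^ 2) * E := by
            apply mul_le_mul _ hE hE0 (by positivity)
            exact mul_le_mul_of_nonneg_right h4 (by positivity)
        _ = (1 : ℝ) / a * (L ^ 2 * (x * E)) := by ring
    rw [← sum_mul] at h1
    calc _ ≤ (∑ a ∈ Icc 1 (U * U), (1 : ℝ) / a) * (L ^ 2 * (x * E)) := h1
      _ ≤ (1 + L) * (L ^ 2 * (x * E)) :=
          mul_le_mul_of_nonneg_right (hharm (U * U) (Nat.mul_pos hUpos hUpos) hUU)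
            (by positivity)
      _ ≤ (1 + L) * (2 * L ^ 2 * (x * E)) := by
          apply mul_le_mul_of_nonneg_left _ (by linarith only [hL8])
          have : 0 ≤ L ^ 2 * (x * E) := by positivity
          linarith only [this]
      _ = (x * E) * (1 + L) * (2 * L ^ 2) := by ring
      _ ≤ (x * E) * L ^ 4 := hcoef _ hxE
      _ = _ := by ring
  have h1 : ∑ k ∈ Icc 1 y, ((Lam k : ℝ) : ℂ) * g k =
      ∑ n ∈ Icc 1 y, ((ArithmeticFunction.vonMangoldt n : ℝ) : ℂ) * g n := rfl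
  have h2 : ∑ m ∈ Ioc U y, ((Lam m : ℝ) : ℂ) *
          ∑ n ∈ Ioc U (y / m), ((cV U n : ℝ) : ℂ) * g (m * n) =
      ∑ m ∈ Ioc U y, ((ArithmeticFunction.vonMangoldt m : ℝ) : ℂ) *
          ∑ n ∈ Ioc U (y / m), ((cV U n : ℝ) : ℂ) * g (m * n) := rfl
  rw [h1, h2, hV]
  refine le_trans (pow_le_pow_left₀ (norm_nonneg _)
    (?_ : _ ≤ 2 * r * L + x * L ^ 4 * E + x * L ^ 4 * E +
      ‖∑ m ∈ Ioc U y, ((ArithmeticFunction.vonMangoldt m : ℝ) : ℂ) *
          ∑ n ∈ Ioc U (y / m), ((cV U n : ℝ) : ℂ) * g (m * n)‖) 2) ?_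
  · refine (norm_add_le _ _).trans ?_
    refine (add_le_add_left (norm_sub_le _ _) _).trans ?_
    refine (add_le_add_left (add_le_add_left (norm_add_le _ _) _) _).trans ?_
    linarith only [hS1, hS2, hS3]
  · refine (Pre_sq4 _ _ _ _).trans (le_of_eq ?_)
    ring

theorem pre (hVK : VK) : ∃ η : ℝ, 0 < η ∧ η ≤ 1 ∧ ∀ K A : ℕ, ∃ K' x0 : ℕ, ∀ x : ℕ, x0 ≤ x →
    ∀ (y d : ℕ) (c : ℤ) (T : ℝ) (B : Set ℝ), 1 ≤ d → (d : ℝ) ≤ Real.log x ^ A → y ≤ x →
      Real.log x ^ K' ≤ T → 2 * T ≤ (x : ℝ) ^ (2 : ℕ) →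
      MeasurableSet B → (∀ t ∈ B, T ≤ |t| ∧ |t| ≤ 2 * T) →
      volume.real B ≤ T ^ η * Real.log x ^ A →
      ∫ t in B, ‖∑ n ∈ Icc 1 y, ((Lam n : ℝ) : ℂ) * gE ((c : ℝ) / d) t n‖ ^ 2
        ≤ (x : ℝ) ^ 2 / Real.log x ^ K := by
  obtain ⟨η2, h2a, h2b, H2⟩ := tyII hVK
  obtain ⟨δ, hd0, hd1, H1⟩ := tyI
  have hm1 : min (min η2 δ) (1 / 2) ≤ η2 := (min_le_left _ _).trans (min_le_left _ _)
  have hm2 : min (min η2 δ) (1 / 2) ≤ δ := (min_le_left _ _).trans (min_le_right _ _)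
  have hm3 : min (min η2 δ) (1 / 2) ≤ 1 / 2 := min_le_right _ _
  have hm0 : 0 < min (min η2 δ) (1 / 2) := by positivity
  generalize min (min η2 δ) (1 / 2) = s at hm0 hm1 hm2 hm3
  refine ⟨s / 3, by positivity, by linarith only [hm0, hm3], ?_⟩
  intro K A
  obtain ⟨K2, x2, H2⟩ := H2 (K + 2) A
  obtain ⟨x1, H1⟩ := H1 A
  obtain ⟨x3, H3⟩ := log_ge 8
  obtain ⟨x4, H4⟩ := pow_ge (1 / 8) 8 (by norm_num)
  obtain ⟨x5, H5⟩ := log_pow_le (s / 3) 1 (by positivity) one_pos A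
  obtain ⟨x6, H6⟩ := log_pow_le (1 / 2) 64 (by norm_num) (by norm_num) (K + 2)
  obtain ⟨x7, H7⟩ := log_pow_le δ 128 hd0 (by norm_num) (K + 8 + A)
  refine ⟨K2 + (K + A + 12), x1 + x2 + x3 + x4 + x5 + x6 + x7, ?_⟩
  intro x hx y d c T B hd hdL hyx hT1 hT2 hB hBT hBv
  have h8 : 8 ≤ Real.log x := H3 x (by omega)
  have hr8 : 8 ≤ (x : ℝ) ^ (1 / 8 : ℝ) := H4 x (by omega)
  have hA := H5 x (by omega)
  have hK2 := H6 x (by omega)
  have hKA := H7 x (by omega)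
  replace H1 := H1 x (by omega)
  replace H2 := H2 x (by omega)
  set L := Real.log x with hLdef
  set r := (x : ℝ) ^ (1 / 8 : ℝ) with hr
  have hxN : x ≠ 0 := by
    rintro rfl
    rw [hLdef] at h8
    norm_num at h8
  have hx1 : (1 : ℝ) ≤ (x : ℝ) := by exact_mod_cast Nat.one_le_iff_ne_zero.mpr hxN
  have hx0 : (0 : ℝ) < (x : ℝ) := by linarith only [hm0, hm3, hx1]
  have hrx : r ^ 8 = x := by
    rw [hr, ← Real.rpow_natCast, ← Real.rpow_mul hx0.le]
    norm_num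
  have hL1 : 1 ≤ L := by linarith only [hm0, hm3, h8]
  have hL0 : 0 < L := by linarith only [hm0, hm3, h8]
  have hT0 : 1 ≤ T := (one_le_pow₀ hL1).trans hT1
  have hTx : T ≤ (x : ℝ) ^ (2 : ℕ) := by linarith only [hm0, hm3, hT2, hT0]
  have hr4 : (x : ℝ) ^ (1 / 2 : ℝ) = r ^ 4 := by
    rw [hr, ← Real.rpow_natCast, ← Real.rpow_mul hx0.le]
    norm_num
  have hTs : T ^ (s / 3) ≤ ((x : ℝ) ^ (s / 3)) ^ 2 := by
    calc T ^ (s / 3) ≤ ((x : ℝ) ^ (2 : ℕ)) ^ (s / 3) :=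
          Real.rpow_le_rpow (by linarith only [hm0, hm3, hT0]) hTx (by positivity)
      _ = ((x : ℝ) ^ (s / 3)) ^ 2 := by
          rw [← Real.rpow_natCast, ← Real.rpow_natCast, ← Real.rpow_mul hx0.le,
            ← Real.rpow_mul hx0.le, mul_comm]
  have hxs : 0 < (x : ℝ) ^ (s / 3) := Real.rpow_pos_of_pos hx0 _
  have hxs3 : ((x : ℝ) ^ (s / 3)) ^ 3 = (x : ℝ) ^ s := by
    rw [← Real.rpow_natCast, ← Real.rpow_mul hx0.le]
    congr 1
    push_cast
    ring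
  have hV0 : 0 ≤ volume.real B := measureReal_nonneg
  have hV1 : volume.real B ≤ (x : ℝ) ^ s := by
    rw [← hxs3]
    calc volume.real B ≤ T ^ (s / 3) * L ^ A := hBv
      _ ≤ ((x : ℝ) ^ (s / 3)) ^ 2 * (x : ℝ) ^ (s / 3) :=
          mul_le_mul hTs (by linarith only [hA]) (by positivity) (by positivity)
      _ = _ := by ring
  have hV2 : volume.real B ≤ (x : ℝ) ^ η2 :=
    hV1.trans (Real.rpow_le_rpow_of_exponent_le hx1 hm1)
  have hV3 : volume.real B ≤ r ^ 4 := by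
    rw [← hr4]
    exact hV1.trans (Real.rpow_le_rpow_of_exponent_le hx1 hm3)
  have hcontF : ∀ (N : Finset ℕ) (u : ℕ → ℝ), Continuous (fun t : ℝ =>
      ‖∑ n ∈ N, ((u n : ℝ) : ℂ) * gE ((c : ℝ) / d) t n‖ ^ 2) := by
    intro N u
    refine (Continuous.norm ?_).pow 2
    exact continuous_finsetSum _ fun n _ => continuous_const.mul (Pre_cont_gE _ n)
  have hLK0 : 0 < L ^ K := by positivity
  by_cases hy : r ^ 4 ≤ (y : ℝ)
  · -- large y
    set U := ⌈r⌉₊ with hU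
    have hr0 : 0 < r := by linarith only [hm0, hm3, hr8]
    have hU1 : r ≤ (U : ℝ) := Nat.le_ceil r
    have hU2 : (U : ℝ) ≤ 2 * r := by
      have := Nat.ceil_lt_add_one hr0.le
      linarith only [hm0, hm3, hr8, this]
    have hr16 : 16 ≤ r ^ 4 := by
      have : (8 : ℝ) ^ 4 ≤ r ^ 4 := pow_le_pow_left₀ (by norm_num) hr8 4
      linarith only [hm0, hm3, this]
    have hU4 : U ^ 4 ≤ x := by
      have h1 : (U : ℝ) ^ 4 ≤ (2 * r) ^ 4 := pow_le_pow_left₀ (Nat.cast_nonneg _) hU2 4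
      have h2 : (2 * r) ^ 4 ≤ (x : ℝ) := by
        rw [← hrx]
        nlinarith only [hV0, hr16, hV3]
      have h3 : ((U ^ 4 : ℕ) : ℝ) ≤ (x : ℝ) := by
        push_cast
        linarith only [h1, h2]
      exact_mod_cast h3
    have hII := H2 U y d c B hd hdL hU1 hU4 (by rw [hr4]; exact hy) hyx hB
      (fun t ht => ⟨((pow_le_pow_right₀ hL1 (by omega)).trans hT1).trans (hBT t ht).1,
        (hBT t ht).2.trans hT2⟩) hV2
    set E := 1 / T + (x : ℝ) ^ (-δ) with hE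
    have hxd : 0 < (x : ℝ) ^ (-δ) := Real.rpow_pos_of_pos hx0 _
    have hpt := Pre_int
      (fun t => ‖∑ n ∈ Icc 1 y, ((Lam n : ℝ) : ℂ) * gE ((c : ℝ) / d) t n‖ ^ 2)
      (fun t => ‖∑ m ∈ Ioc U y, ((Lam m : ℝ) : ℂ) *
          ∑ n ∈ Ioc U (y / m), ((cV U n : ℝ) : ℂ) * gE ((c : ℝ) / d) t (m * n)‖ ^ 2)
      (hcontF _ _)
      (by
        refine (Continuous.norm ?_).pow 2
        refine continuous_finsetSum _ fun n _ => continuous_const.mul ?_
        exact continuous_finsetSum _ fun m _ => continuous_const.mul (Pre_cont_gE _ _))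
      B (2 * T) (4 * ((2 * r * L) ^ 2 + 2 * (x * L ^ 4 * E) ^ 2)) hB
      (fun t ht => (hBT t ht).2)
      (by
        intro t ht
        have ht1 := (hBT t ht).1
        have ht2 := (hBT t ht).2
        refine Pre_pt δ x y d U c t E r L hLdef h8 hr8 hU hy hyx hrx ?_ ?_
        · have : 1 / |t| ≤ 1 / T := one_div_le_one_div_of_le (by linarith only [hm0, hm3, hT0]) ht1
          linarith only [this]
        · intro a k ha hrk hkx
          exact H1 a k d c t ha hd hdL hrk hkx (hT0.trans ht1) (ht2.trans hT2))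
    refine hpt.trans ?_
    generalize ∫ t in B, ‖∑ m ∈ Ioc U y, ((Lam m : ℝ) : ℂ) *
          ∑ n ∈ Ioc U (y / m), ((cV U n : ℝ) : ℂ) * gE ((c : ℝ) / d) t (m * n)‖ ^ 2 = J at hII
    rw [le_div_iff₀ hLK0]
    rw [hr4] at hK2
    have hT00 : 0 < T := by linarith only [hm0, hm3, hT0]
    have hE0 : 0 ≤ E := by rw [hE]; positivity
    -- (a)
    have ha : 4 * J * L ^ K ≤ (x : ℝ) ^ 2 / 16 := by
      rw [le_div_iff₀ (by positivity)] at hII
      have h1 : J * L ^ K * L ^ 2 ≤ (x : ℝ) ^ 2 := by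
        calc J * L ^ K * L ^ 2 = J * L ^ (K + 2) := by ring
          _ ≤ _ := hII
      have h2 : 64 ≤ L ^ 2 := by nlinarith only [h8]
      by_cases hJ : 0 ≤ J
      · have h3 : J * L ^ K * 64 ≤ J * L ^ K * L ^ 2 :=
          mul_le_mul_of_nonneg_left h2 (by positivity)
        linarith only [h1, h3]
      · have h3 : J * L ^ K ≤ 0 := mul_nonpos_of_nonpos_of_nonneg (by linarith only [hJ]) hLK0.le
        have h4 : 0 ≤ (x : ℝ) ^ 2 := by positivity
        linarith only [hm0, hm3, hT2, hT0, h3]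
    -- (b)
    have hb : 4 * (2 * r * L) ^ 2 * volume.real B * L ^ K ≤ (x : ℝ) ^ 2 / 4 := by
      calc 4 * (2 * r * L) ^ 2 * volume.real B * L ^ K
          = r ^ 2 * volume.real B * (64 * L ^ (K + 2)) / 4 := by ring
        _ ≤ r ^ 2 * r ^ 4 * r ^ 4 / 4 := by
            apply div_le_div_of_nonneg_right _ (by norm_num)
            apply mul_le_mul _ hK2 (by positivity) (by positivity)
            exact mul_le_mul_of_nonneg_left hV3 (by positivity)
        _ = r ^ 10 / 4 := by ring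
        _ ≤ r ^ 16 / 4 := by
            apply div_le_div_of_nonneg_right _ (by norm_num)
            exact pow_le_pow_right₀ (by linarith only [hm0, hm3, hr8]) (by norm_num)
        _ = (x : ℝ) ^ 2 / 4 := by rw [← hrx]; ring
    -- (c)
    have hTT : T ^ (s / 3) ≤ T := by
      calc T ^ (s / 3) ≤ T ^ (1 : ℝ) :=
            Real.rpow_le_rpow_of_exponent_le hT0 (by linarith only [hm0, hm3])
        _ = T := Real.rpow_one T
    have hTd : T ^ (s / 3) ≤ (x : ℝ) ^ δ := by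
      refine hTs.trans ?_
      rw [← Real.rpow_natCast, ← Real.rpow_mul hx0.le]
      apply Real.rpow_le_rpow_of_exponent_le hx1
      push_cast
      linarith only [hd0, hm2]
    have hxdd : (x : ℝ) ^ (-δ) * (x : ℝ) ^ δ = 1 := by
      rw [← Real.rpow_add hx0]
      simp
    have hEV : E ^ 2 * volume.real B ≤ 2 * E * L ^ A := by
      have h1 : E ^ 2 ≤ 2 * ((1 / T) ^ 2 + ((x : ℝ) ^ (-δ)) ^ 2) := by
        rw [hE]
        nlinarith only [sq_nonneg (1 / T - (x : ℝ) ^ (-δ))]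
      have hTs0 : 0 ≤ T ^ (s / 3) := Real.rpow_nonneg hT00.le _
      calc E ^ 2 * volume.real B
          ≤ (2 * ((1 / T) ^ 2 + ((x : ℝ) ^ (-δ)) ^ 2)) * (T ^ (s / 3) * L ^ A) :=
            mul_le_mul h1 hBv hV0 (by positivity)
        _ = 2 * ((1 / T) ^ 2 * T ^ (s / 3) + ((x : ℝ) ^ (-δ)) ^ 2 * T ^ (s / 3)) * L ^ A := by
            ring
        _ ≤ 2 * ((1 / T) ^ 2 * T + ((x : ℝ) ^ (-δ)) ^ 2 * (x : ℝ) ^ δ) * L ^ A := by
            apply mul_le_mul_of_nonneg_right _ (by positivity)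
            apply mul_le_mul_of_nonneg_left _ (by norm_num)
            apply add_le_add
            · exact mul_le_mul_of_nonneg_left hTT (by positivity)
            · exact mul_le_mul_of_nonneg_left hTd (by positivity)
        _ = 2 * E * L ^ A := by
            have h2 : (1 / T) ^ 2 * T = 1 / T := by
              field_simp
            have h3 : ((x : ℝ) ^ (-δ)) ^ 2 * (x : ℝ) ^ δ = (x : ℝ) ^ (-δ) := by
              rw [pow_two, mul_assoc, hxdd, mul_one]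
            rw [h2, h3]
    have hc1 : L ^ (K + 8 + A) * (1 / T) ≤ 1 / 64 := by
      rw [mul_one_div, div_le_div_iff₀ hT00 (by norm_num), one_mul]
      calc L ^ (K + 8 + A) * 64 ≤ L ^ (K + 8 + A) * L ^ 4 := by
            apply mul_le_mul_of_nonneg_left _ (by positivity)
            have : (8 : ℝ) ^ 4 ≤ L ^ 4 := pow_le_pow_left₀ (by norm_num) h8 4
            linarith only [hm0, hm3, this]
        _ = L ^ (K + A + 12) := by
            rw [← pow_add]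
            congr 1
            omega
        _ ≤ L ^ (K2 + (K + A + 12)) := pow_le_pow_right₀ hL1 (by omega)
        _ ≤ T := hT1
    have hc2 : L ^ (K + 8 + A) * (x : ℝ) ^ (-δ) ≤ 1 / 128 := by
      have h1 : 128 * L ^ (K + 8 + A) * (x : ℝ) ^ (-δ) ≤ (x : ℝ) ^ δ * (x : ℝ) ^ (-δ) :=
        mul_le_mul_of_nonneg_right hKA hxd.le
      rw [mul_comm ((x : ℝ) ^ δ), hxdd] at h1
      linarith only [h1]
    have hc : 8 * (x * L ^ 4 * E) ^ 2 * volume.real B * L ^ K ≤ (x : ℝ) ^ 2 / 2 := by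
      calc 8 * (x * L ^ 4 * E) ^ 2 * volume.real B * L ^ K
          = 8 * (x : ℝ) ^ 2 * L ^ (K + 8) * (E ^ 2 * volume.real B) := by ring
        _ ≤ 8 * (x : ℝ) ^ 2 * L ^ (K + 8) * (2 * E * L ^ A) :=
            mul_le_mul_of_nonneg_left hEV (by positivity)
        _ = 16 * (x : ℝ) ^ 2 * (L ^ (K + 8 + A) * (1 / T) + L ^ (K + 8 + A) * (x : ℝ) ^ (-δ)) := by
            rw [hE, pow_add L (K + 8) A]
            ring
        _ ≤ 16 * (x : ℝ) ^ 2 * (1 / 64 + 1 / 128) := by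
            apply mul_le_mul_of_nonneg_left _ (by positivity)
            linarith only [hc1, hc2]
        _ ≤ (x : ℝ) ^ 2 / 2 := by
            have : 0 ≤ (x : ℝ) ^ 2 := by positivity
            linarith only [hm0, hm3, hT2, hT0]
    have hx2 : 0 ≤ (x : ℝ) ^ 2 := by positivity
    calc (4 * ((2 * r * L) ^ 2 + 2 * (x * L ^ 4 * E) ^ 2) * volume.real B + 4 * J) * L ^ K
        = 4 * (2 * r * L) ^ 2 * volume.real B * L ^ K +
          8 * (x * L ^ 4 * E) ^ 2 * volume.real B * L ^ K + 4 * J * L ^ K := by ring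
      _ ≤ (x : ℝ) ^ 2 / 4 + (x : ℝ) ^ 2 / 2 + (x : ℝ) ^ 2 / 16 :=
          add_le_add (add_le_add hb hc) ha
      _ ≤ (x : ℝ) ^ 2 := by linarith only [hm0, hm3, hT2, hT0]
  · -- small y
    have hy' : (y : ℝ) ≤ r ^ 4 := (not_le.mp hy).le
    have hpt := Pre_int
      (fun t => ‖∑ n ∈ Icc 1 y, ((Lam n : ℝ) : ℂ) * gE ((c : ℝ) / d) t n‖ ^ 2)
      (fun _ => 0) (hcontF _ _) continuous_const
      B (2 * T) ((r ^ 4 * L) ^ 2) hB (fun t ht => (hBT t ht).2)
      (by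
        intro t _
        rw [mul_zero, add_zero]
        apply pow_le_pow_left₀ (norm_nonneg _)
        refine (norm_sum_le _ _).trans ?_
        calc ∑ n ∈ Icc 1 y, ‖((Lam n : ℝ) : ℂ) * gE ((c : ℝ) / d) t n‖
            ≤ ∑ n ∈ Icc 1 y, L := by
              refine sum_le_sum fun n hn => ?_
              rw [mem_Icc] at hn
              rw [norm_mul, norm_gE, mul_one, Complex.norm_real, Real.norm_eq_abs]
              exact Pre_Lam_le x n hn.1 (hn.2.trans hyx)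
          _ = y * L := by
              rw [sum_const, Nat.card_Icc, nsmul_eq_mul, Nat.add_sub_cancel]
          _ ≤ r ^ 4 * L := mul_le_mul_of_nonneg_right hy' hL0.le)
    refine hpt.trans ?_
    rw [integral_zero, mul_zero, add_zero, le_div_iff₀ hLK0]
    rw [hr4] at hK2
    have h1 : L ^ (K + 2) ≤ r ^ 4 := by
      have : 0 ≤ L ^ (K + 2) := by positivity
      linarith only [hK2, hy]
    calc (r ^ 4 * L) ^ 2 * volume.real B * L ^ K
        = (r ^ 4) ^ 2 * volume.real B * L ^ (K + 2) := by ring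
      _ ≤ (r ^ 4) ^ 2 * r ^ 4 * r ^ 4 := by
          apply mul_le_mul _ h1 (by positivity) (by positivity)
          exact mul_le_mul_of_nonneg_left hV3 (by positivity)
      _ = (r ^ 8) ^ 2 := by ring
      _ = (x : ℝ) ^ 2 := by rw [hrx]

end Pool.Agent.H80.LV

end

section

/-!
# CH LvC: long sums over primes in a residue class, in mean square

Copy of `Pool.Agent.H76.MU.longp` (file `H76/MU/LmC.lean`, 224 lines): `Pool.Agent.H80.LV.pre hVK` is used there with `A = 0`, `d = 1`, `c = 0`; now with `d = c` and all numerators `e < c`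
(`A` of `pre` = `B + 1`, `log b ≥ (2/3) L`, so `c ≤ (log b)^(B+1)`): `1_{n ≡ r (c)} = (1/c) ∑_{e < c} ee(e (n - r)/c)`, so the norm of the sum over the class is at most the maximum over `e` of the norms of
`∑_{n ≤ b} Λ(n) gE (e/c) t n`.  Prime powers and `n ≤ a` as there.  `vk_of_vkw`: `VKw (19/20)` implies `Pool.Agent.H80.LV.VK` (`x^e0 ≥ exp((log x)^(19/20))` for large `x`).
-/

set_option autoImplicit false

namespace Pool.Agent.H43.CH

open Finset MeasureTheory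
open Pool.Agent.H91.PK (ee)
open Pool.Agent.H91.EHA (Lam)
open Pool.Agent.H53.MIX (VKw)
open Pool.Agent.H76.MU (nrm BS)

theorem vk_of_vkw (hV : VKw (19 / 20)) : Pool.Agent.H80.LV.VK := by
  intro K B e0 he0
  obtain ⟨K', x1, h1⟩ := hV K B
  have h2 : Filter.Tendsto (fun y : ℝ => y ^ (1 / 20 : ℝ)) Filter.atTop Filter.atTop :=
    tendsto_rpow_atTop (by norm_num)
  have h3 := (h2.comp (Real.tendsto_log_atTop.comp
    (tendsto_natCast_atTop_atTop (R := ℝ)))).eventually (Filter.eventually_ge_atTop (1 / e0))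
  have h4 := (Real.tendsto_log_atTop.comp (tendsto_natCast_atTop_atTop (R := ℝ))).eventually
    (Filter.eventually_ge_atTop 1)
  obtain ⟨x2, h5⟩ := Filter.eventually_atTop.1 (h3.and h4)
  refine ⟨K', max x1 (max x2 1), fun x hx d u z t hd hdB hz hzx ht1 ht2 => ?_⟩
  have hx1 : x1 ≤ x := (le_max_left _ _).trans hx
  have hx2 : x2 ≤ x := (le_max_left _ _).trans ((le_max_right _ _).trans hx)
  have hx3 : 1 ≤ x := (le_max_right _ _).trans ((le_max_right _ _).trans hx)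
  refine h1 x hx1 d u z t hd hdB (le_trans ?_ hz) hzx ht1 ht2
  obtain ⟨h6, h7⟩ := h5 x hx2
  simp only [Function.comp_apply] at h6 h7
  have hxR : (0 : ℝ) < x := by exact_mod_cast hx3
  rw [Real.rpow_def_of_pos hxR]
  apply Real.exp_le_exp.2
  have hL : 0 < Real.log x := by linarith only [h7]
  have h8 : Real.log x = Real.log x ^ (19 / 20 : ℝ) * Real.log x ^ (1 / 20 : ℝ) := by
    rw [← Real.rpow_add hL]
    norm_num
  have h9 : 0 ≤ Real.log x ^ (19 / 20 : ℝ) := Real.rpow_nonneg hL.le _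
  have h10 : 1 ≤ Real.log x ^ (1 / 20 : ℝ) * e0 := by
    rw [div_le_iff₀ he0] at h6
    exact h6
  calc Real.log x ^ (19 / 20 : ℝ) = Real.log x ^ (19 / 20 : ℝ) * 1 := (mul_one _).symm
    _ ≤ Real.log x ^ (19 / 20 : ℝ) * (Real.log x ^ (1 / 20 : ℝ) * e0) :=
        mul_le_mul_of_nonneg_left h10 h9
    _ = (Real.log x ^ (19 / 20 : ℝ) * Real.log x ^ (1 / 20 : ℝ)) * e0 := by ring
    _ = Real.log x * e0 := by rw [← h8]

private theorem LvC_orth (c n r : ℕ) (hc : 1 ≤ c) :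
    ∑ e ∈ range c, ee ((n : ℝ) * (((e : ℤ) : ℝ) / (c : ℝ))) * ee (-((r : ℝ) * ((e : ℝ) / c))) =
      if n % c = r % c then (c : ℂ) else 0 := by
  have hc0 : (c : ℝ) ≠ 0 := by positivity
  set w : ℂ := ee (((n : ℝ) - r) / c) with hw
  have h1 : ∀ e ∈ range c, ee ((n : ℝ) * (((e : ℤ) : ℝ) / (c : ℝ))) * ee (-((r : ℝ) * ((e : ℝ) / c))) = w ^ e := by
    intro e _
    rw [← Pool.Agent.H91.PK.LSa_ee_add, hw]
    unfold ee
    rw [← Complex.exp_nat_mul]
    congr 1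
    push_cast
    ring
  rw [Finset.sum_congr rfl h1]
  have hwc : w ^ c = 1 := by
    rw [hw]
    unfold ee
    rw [← Complex.exp_nat_mul, Complex.exp_eq_one_iff]
    refine ⟨(n : ℤ) - r, ?_⟩
    have hcc : (c : ℂ) ≠ 0 := by exact_mod_cast hc0
    push_cast
    field_simp
  by_cases h : n % c = r % c
  · rw [if_pos h]
    have hw1 : w = 1 := by
      rw [hw]
      unfold ee
      rw [Complex.exp_eq_one_iff]
      have h2 : (c : ℤ) ∣ (n : ℤ) - r := by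
        have h3 : r ≡ n [MOD c] := by
          unfold Nat.ModEq
          exact h.symm
        exact (Nat.modEq_iff_dvd.1 h3)
      obtain ⟨k, hk⟩ := h2
      refine ⟨k, ?_⟩
      have h4 : ((n : ℝ) - r) = c * k := by exact_mod_cast hk
      rw [h4, mul_div_cancel_left₀ _ hc0]
      push_cast
      ring
    rw [hw1]
    simp
  · rw [if_neg h]
    have hw1 : w ≠ 1 := by
      intro hw2
      apply h
      rw [hw] at hw2
      unfold ee at hw2
      rw [Complex.exp_eq_one_iff] at hw2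
      obtain ⟨k, hk⟩ := hw2
      have hpi : (2 * (Real.pi : ℂ) * Complex.I) ≠ 0 := by
        simp [Real.pi_ne_zero]
      have h2 : ((((n : ℝ) - r) / c : ℝ) : ℂ) = (k : ℂ) := by
        apply mul_right_cancel₀ hpi
        linear_combination hk
      have h3 : ((n : ℝ) - r) / c = k := by exact_mod_cast h2
      rw [div_eq_iff hc0] at h3
      have h4 : (n : ℤ) - r = k * c := by exact_mod_cast h3
      have h5 : r ≡ n [MOD c] := Nat.modEq_iff_dvd.2 ⟨k, by rw [h4]; ring⟩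
      exact h5.symm
    have h2 := geom_sum_mul w c
    rw [hwc, sub_self] at h2
    exact (mul_eq_zero.1 h2).resolve_right (sub_ne_zero.2 hw1)

private theorem LvC_split (c r y : ℕ) (t : ℝ) (hc : 1 ≤ c) :
    ∑ n ∈ (Icc 1 y).filter (fun n => n % c = r % c), ((Lam n : ℝ) : ℂ) * ee (t * Real.log n) =
      ∑ e ∈ range c, (ee (-((r : ℝ) * ((e : ℝ) / c))) / (c : ℂ)) *
        ∑ n ∈ Icc 1 y, ((Lam n : ℝ) : ℂ) * Pool.Agent.H80.LV.gE (((e : ℤ) : ℝ) / (c : ℝ)) t n := by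
  have hc0 : (c : ℂ) ≠ 0 := by
    have : (c : ℕ) ≠ 0 := by omega
    exact_mod_cast this
  simp_rw [Finset.mul_sum]
  rw [Finset.sum_comm, Finset.sum_filter]
  refine Finset.sum_congr rfl fun n _ => ?_
  have h1 : ∀ e ∈ range c, (ee (-((r : ℝ) * ((e : ℝ) / c))) / (c : ℂ)) *
      (((Lam n : ℝ) : ℂ) * Pool.Agent.H80.LV.gE (((e : ℤ) : ℝ) / (c : ℝ)) t n) =
      (((Lam n : ℝ) : ℂ) * ee (t * Real.log n) / (c : ℂ)) *
        (ee ((n : ℝ) * (((e : ℤ) : ℝ) / (c : ℝ))) * ee (-((r : ℝ) * ((e : ℝ) / c)))) := by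
    intro e _
    unfold Pool.Agent.H80.LV.gE
    rw [Pool.Agent.H91.PK.LSa_ee_add]
    ring
  rw [Finset.sum_congr rfl h1, ← Finset.mul_sum, LvC_orth c n r hc]
  split_ifs
  · field_simp
  · simp

private theorem LvC_cont (c r a b : ℕ) : Continuous (fun t => PSr c r a b t) := by
  unfold PSr
  exact Pool.Agent.H76.MU.cont_poly _ _

private theorem LvC_Lam (n : ℕ) (L : ℝ) (h : Real.log n ≤ L) :
    ‖((Lam n : ℝ) : ℂ)‖ ≤ L := by
  rw [Complex.norm_real, Real.norm_eq_abs]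
  unfold Lam
  rw [abs_of_nonneg ArithmeticFunction.vonMangoldt_nonneg]
  exact ArithmeticFunction.vonMangoldt_le_log.trans h

private theorem LvC_sum (c r a : ℕ) (L t : ℝ) (hL : 0 ≤ L) (h : ∀ n ∈ Icc 1 a, Real.log n ≤ L) :
    ‖∑ n ∈ (Icc 1 a).filter (fun n => n % c = r % c), ((Lam n : ℝ) : ℂ) * ee (t * Real.log n)‖ ≤ a * L := by
  refine (norm_sum_le _ _).trans ?_
  have h1 : ∀ n ∈ (Icc 1 a).filter (fun n => n % c = r % c),
      ‖((Lam n : ℝ) : ℂ) * ee (t * Real.log n)‖ ≤ L := by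
    intro n hn
    rw [norm_mul, Pool.Agent.H76.MU.norm_ee, mul_one]
    exact LvC_Lam n L (h n (Finset.mem_filter.1 hn).1)
  refine (Finset.sum_le_sum h1).trans ?_
  rw [Finset.sum_const, nsmul_eq_mul]
  apply mul_le_mul_of_nonneg_right _ hL
  have h2 : ((Icc 1 a).filter (fun n => n % c = r % c)).card ≤ a := by
    refine (Finset.card_filter_le _ _).trans ?_
    simp
  exact_mod_cast h2

/-- the prime powers -/
private theorem LvC_diff (c r a b : ℕ) (t : ℝ) (hab : a ≤ b) (hb : 2 ≤ b) :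
    ‖PSr c r a b t - (∑ n ∈ (Icc 1 b).filter (fun n => n % c = r % c), ((Lam n : ℝ) : ℂ) * ee (t * Real.log n)
      - ∑ n ∈ (Icc 1 a).filter (fun n => n % c = r % c), ((Lam n : ℝ) : ℂ) * ee (t * Real.log n))‖
      ≤ 4 * Real.sqrt b * Real.log b ^ 2 := by
  have h1 : ∑ n ∈ (Icc 1 b).filter (fun n => n % c = r % c), ((Lam n : ℝ) : ℂ) * ee (t * Real.log n)
      - ∑ n ∈ (Icc 1 a).filter (fun n => n % c = r % c), ((Lam n : ℝ) : ℂ) * ee (t * Real.log n)
      = ∑ n ∈ (Ioc a b).filter (fun n => n % c = r % c), ((Lam n : ℝ) : ℂ) * ee (t * Real.log n) := by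
    have h2 : (Icc 1 b).filter (fun n => n % c = r % c) =
        (Icc 1 a).filter (fun n => n % c = r % c) ∪ (Ioc a b).filter (fun n => n % c = r % c) := by
      rw [← Finset.filter_union]
      congr 1
      ext n; simp only [mem_Icc, mem_union, mem_Ioc]; omega
    have h3 : Disjoint ((Icc 1 a).filter (fun n => n % c = r % c))
        ((Ioc a b).filter (fun n => n % c = r % c)) := by
      apply Finset.disjoint_filter_filter
      rw [Finset.disjoint_left]; intro n hn hn'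
      simp only [mem_Icc, mem_Ioc] at hn hn'; omega
    rw [h2, sum_union h3]; ring
  have h4 : ∑ n ∈ (Ioc a b).filter (fun n => n % c = r % c), ((Lam n : ℝ) : ℂ) * ee (t * Real.log n)
      = PSr c r a b t + ∑ n ∈ ((Ioc a b).filter (fun n => n % c = r % c)).filter (fun n => ¬ n.Prime),
        ((Lam n : ℝ) : ℂ) * ee (t * Real.log n) := by
    unfold PSr
    rw [← sum_filter_add_sum_filter_not ((Ioc a b).filter (fun n => n % c = r % c)) Nat.Prime]
    congr 1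
    have h5 : pIc a b c r = ((Ioc a b).filter (fun n => n % c = r % c)).filter Nat.Prime := by
      unfold pIc pI
      rw [Finset.filter_comm]
    rw [h5]
    refine sum_congr rfl fun n hn => ?_
    rw [mem_filter] at hn
    unfold Lam
    rw [ArithmeticFunction.vonMangoldt_apply_prime hn.2]
  rw [h1, h4]
  have h5 : ∀ z w : ℂ, z - (z + w) = -w := fun z w => by ring
  rw [h5, norm_neg]
  have h6 : ‖∑ n ∈ ((Ioc a b).filter (fun n => n % c = r % c)).filter (fun n => ¬ n.Prime), ((Lam n : ℝ) : ℂ) * ee (t * Real.log n)‖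
      ≤ ∑ n ∈ (Ioc 0 b).filter (fun n => ¬ n.Prime), ArithmeticFunction.vonMangoldt n := by
    refine (norm_sum_le _ _).trans ?_
    have h7 : ∑ n ∈ ((Ioc a b).filter (fun n => n % c = r % c)).filter (fun n => ¬ n.Prime), ‖((Lam n : ℝ) : ℂ) * ee (t * Real.log n)‖
        = ∑ n ∈ ((Ioc a b).filter (fun n => n % c = r % c)).filter (fun n => ¬ n.Prime), ArithmeticFunction.vonMangoldt n := by
      refine sum_congr rfl fun n _ => ?_
      rw [norm_mul, Pool.Agent.H76.MU.norm_ee, mul_one, Complex.norm_real, Real.norm_eq_abs]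
      exact abs_of_nonneg ArithmeticFunction.vonMangoldt_nonneg
    rw [h7]
    refine sum_le_sum_of_subset_of_nonneg ?_ fun n _ _ => ArithmeticFunction.vonMangoldt_nonneg
    intro n hn
    simp only [mem_filter, mem_Ioc] at hn ⊢
    exact ⟨⟨by omega, hn.1.1.2⟩, hn.2⟩
  have h8 := Chebyshev.psi_sub_theta_eq_sum_not_prime (b : ℝ)
  rw [Nat.floor_natCast] at h8
  have hb1 : (1 : ℝ) ≤ b := by exact_mod_cast (by omega : 1 ≤ b)
  have h9 := Chebyshev.psi_sub_theta_le hb1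
  rw [h8] at h9
  refine h6.trans (h9.trans ?_)
  have hb2 : (2 : ℝ) ≤ b := by exact_mod_cast hb
  have hl : (1 / 2 : ℝ) ≤ Real.log b := by
    have := Real.log_le_log (by norm_num) hb2
    have h2 := Real.log_two_gt_d9
    linarith only [this, h2]
  have hs : 0 ≤ Real.sqrt b := Real.sqrt_nonneg _
  have h10 : Real.log b ≤ 2 * Real.log b ^ 2 := by nlinarith only [hl]
  calc 2 * Real.sqrt b * Real.log b ≤ 2 * Real.sqrt b * (2 * Real.log b ^ 2) :=
        mul_le_mul_of_nonneg_left h10 (by positivity)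
    _ = 4 * Real.sqrt b * Real.log b ^ 2 := by ring

private theorem LvC_final (x : ℕ) (K : ℕ) (L b lb : ℝ) (hx1 : (1 : ℝ) ≤ x) (hL1 : 1 ≤ L)
    (hL2 : (2 : ℝ) ^ (K + 3) ≤ L) (hlb : L / 2 ≤ lb) (hb : (x : ℝ) ^ (2 / 3 : ℝ) ≤ b)
    (hpow : 10 * L ^ (K + 2) ≤ (x : ℝ) ^ (7 / 60 : ℝ)) :
    b / lb ^ (K + 2) + (4 * Real.sqrt x * L ^ 2 + (x : ℝ) ^ (1 / 4 : ℝ) * L) *
      (x : ℝ) ^ (1 / 20 : ℝ) ≤ b / L ^ K := by
  have hx0 : (0 : ℝ) < x := by linarith only [hx1]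
  have hL0 : 0 < L := by linarith only [hL1]
  have hb0 : 0 < b := lt_of_lt_of_le (Real.rpow_pos_of_pos hx0 _) hb
  have hLK : 0 < L ^ K := by positivity
  have e1 : b / lb ^ (K + 2) ≤ b / (2 * L ^ K) := by
    apply div_le_div_of_nonneg_left hb0.le (by positivity)
    have h1 : (L / 2) ^ (K + 2) ≤ lb ^ (K + 2) := pow_le_pow_left₀ (by positivity) hlb _
    refine le_trans ?_ h1
    rw [div_pow, le_div_iff₀ (by positivity)]
    calc 2 * L ^ K * 2 ^ (K + 2) = 2 ^ (K + 3) * L ^ K := by ring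
      _ ≤ L ^ 2 * L ^ K := by
          apply mul_le_mul_of_nonneg_right _ hLK.le
          nlinarith only [hL1, hL2]
      _ = L ^ (K + 2) := by ring
  have e2 : (4 * Real.sqrt x * L ^ 2 + (x : ℝ) ^ (1 / 4 : ℝ) * L) * (x : ℝ) ^ (1 / 20 : ℝ) ≤
      b / (2 * L ^ K) := by
    have h1 : (x : ℝ) ^ (1 / 4 : ℝ) ≤ (x : ℝ) ^ (1 / 2 : ℝ) :=
      Real.rpow_le_rpow_of_exponent_le hx1 (by norm_num)
    have h2 : L ≤ L ^ 2 := by nlinarith only [hL1]
    have hs : 0 ≤ (x : ℝ) ^ (1 / 2 : ℝ) := by positivity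
    have h3 : 4 * Real.sqrt x * L ^ 2 + (x : ℝ) ^ (1 / 4 : ℝ) * L ≤
        5 * (x : ℝ) ^ (1 / 2 : ℝ) * L ^ 2 := by
      rw [Real.sqrt_eq_rpow]
      have h4 : (x : ℝ) ^ (1 / 4 : ℝ) * L ≤ (x : ℝ) ^ (1 / 2 : ℝ) * L ^ 2 :=
        mul_le_mul h1 h2 hL0.le hs
      linarith only [h4]
    rw [le_div_iff₀ (by positivity)]
    have h5 : (x : ℝ) ^ (2 / 3 : ℝ) = (x : ℝ) ^ (1 / 2 : ℝ) * (x : ℝ) ^ (1 / 20 : ℝ) *
        (x : ℝ) ^ (7 / 60 : ℝ) := by
      rw [← Real.rpow_add hx0, ← Real.rpow_add hx0]; norm_num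
    have h20 : 0 ≤ (x : ℝ) ^ (1 / 20 : ℝ) := by positivity
    calc (4 * Real.sqrt x * L ^ 2 + (x : ℝ) ^ (1 / 4 : ℝ) * L) * (x : ℝ) ^ (1 / 20 : ℝ) *
          (2 * L ^ K) ≤ (5 * (x : ℝ) ^ (1 / 2 : ℝ) * L ^ 2) * (x : ℝ) ^ (1 / 20 : ℝ) *
          (2 * L ^ K) := by
          apply mul_le_mul_of_nonneg_right _ (by positivity)
          exact mul_le_mul_of_nonneg_right h3 h20
      _ = (x : ℝ) ^ (1 / 2 : ℝ) * (x : ℝ) ^ (1 / 20 : ℝ) * (10 * L ^ (K + 2)) := by ring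
      _ ≤ (x : ℝ) ^ (1 / 2 : ℝ) * (x : ℝ) ^ (1 / 20 : ℝ) * (x : ℝ) ^ (7 / 60 : ℝ) :=
          mul_le_mul_of_nonneg_left hpow (by positivity)
      _ ≤ b := by rw [← h5]; exact hb
  have e3 : b / (2 * L ^ K) + b / (2 * L ^ K) = b / L ^ K := by field_simp; ring
  linarith only [e1, e2, e3]

private theorem LvC_gE_cont (α : ℝ) (s : Finset ℕ) :
    Continuous (fun t : ℝ => ∑ n ∈ s, ((Lam n : ℝ) : ℂ) * Pool.Agent.H80.LV.gE α t n) := by
  apply continuous_finsetSum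
  intro n _
  apply Continuous.mul continuous_const
  unfold Pool.Agent.H80.LV.gE ee
  fun_prop

theorem longc_h  (hV : VKw (19 / 20)) : ∃ η : ℝ, 0 < η ∧ η ≤ 1 / 10 ∧ ∀ K B : ℕ,
    ∃ K' x0 : ℕ, ∀ x : ℕ, x0 ≤ x → ∀ (c r a b : ℕ) (T η' : ℝ) (Bs : Set ℝ), 1 ≤ c → (c : ℝ) ≤ Real.log x ^ B →
      (a : ℝ) ≤ (x : ℝ) ^ (1 / 4 : ℝ) → (x : ℝ) ^ (2 / 3 : ℝ) ≤ b → b ≤ x →
      Real.log x ^ K' ≤ T → T ≤ x → 0 ≤ η' → η' ≤ η → BS η' T Bs →
      nrm Bs (fun t => PSr c r a b t) ≤ b / Real.log x ^ K := by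
  obtain ⟨η1, hη0, -, hpre⟩ := Pool.Agent.H80.LV.pre (vk_of_vkw hV)
  refine ⟨min η1 (1 / 10), by positivity, min_le_right _ _, fun K B => ?_⟩
  obtain ⟨K', x1, h1⟩ := hpre (2 * K + 4) (B + 1)
  obtain ⟨x2, h2⟩ := Pool.Agent.H80.LV.log_ge (2 ^ (K + 3))
  obtain ⟨x3, h3⟩ := Pool.Agent.H80.LV.log_pow_le (7 / 60) 10 (by norm_num) (by norm_num) (K + 2)
  obtain ⟨x4, h4'⟩ := Pool.Agent.H80.LV.log_ge (2 ^ (B + 1))
  refine ⟨K', (x1 + x2 + x3 + x4 + 8) ^ 2, fun x hx c r a b T η' Bs hc hcL ha hb hbx hT hTx hη' hη'η hB => ?_⟩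
  set m := x1 + x2 + x3 + x4 + 8 with hm
  have hm8 : 8 ≤ m := by omega
  have hmx : m ≤ x := le_trans (by nlinarith only [hm]) hx
  have hxR8 : (8 : ℝ) ≤ x := by exact_mod_cast hm8.trans hmx
  have hx0 : (0 : ℝ) < x := by linarith only [hxR8]
  have hxR1 : (1 : ℝ) ≤ x := by linarith only [hxR8]
  have hL2 := h2 x (by omega)
  have hL1 : 1 ≤ Real.log x := le_trans (one_le_pow₀ (by norm_num)) hL2
  have hpow := h3 x (by omega)
  have hL4 := h4' x (by omega)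
  have hbR0 : (0 : ℝ) < b := lt_of_lt_of_le (Real.rpow_pos_of_pos hx0 _) hb
  have hmb : m ≤ b := by
    have h4 : ((m : ℝ)) ≤ (x : ℝ) ^ (2 / 3 : ℝ) := by
      have h5 : ((m : ℝ)) ^ (2 : ℕ) ≤ x := by exact_mod_cast hx
      have h6 : (((m : ℝ)) ^ (2 : ℕ)) ^ (2 / 3 : ℝ) ≤ (x : ℝ) ^ (2 / 3 : ℝ) :=
        Real.rpow_le_rpow (by positivity) h5 (by norm_num)
      refine le_trans ?_ h6
      rw [← Real.rpow_natCast, ← Real.rpow_mul (by positivity)]
      have h7 : (1 : ℝ) ≤ m := by exact_mod_cast (by omega : 1 ≤ m)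
      calc (m : ℝ) = (m : ℝ) ^ (1 : ℝ) := (Real.rpow_one _).symm
        _ ≤ (m : ℝ) ^ (((2 : ℕ) : ℝ) * (2 / 3)) :=
            Real.rpow_le_rpow_of_exponent_le h7 (by norm_num)
    exact_mod_cast h4.trans hb
  have hbxR : (b : ℝ) ≤ x := by exact_mod_cast hbx
  have hlb0 : 0 ≤ Real.log b := Real.log_nonneg (by exact_mod_cast (by omega : 1 ≤ b))
  have hlbx : Real.log b ≤ Real.log x := Real.log_le_log hbR0 hbxR
  have hlb : Real.log x / 2 ≤ Real.log b := by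
    have h4 : Real.log ((x : ℝ) ^ (2 / 3 : ℝ)) ≤ Real.log b :=
      Real.log_le_log (Real.rpow_pos_of_pos hx0 _) hb
    rw [Real.log_rpow hx0] at h4
    linarith only [hL1, h4]
  have hT1 : 1 ≤ T := le_trans (one_le_pow₀ hL1) hT
  have hab : a ≤ b := by
    have h4 : (a : ℝ) ≤ b := ha.trans ((Real.rpow_le_rpow_of_exponent_le hxR1
      (by norm_num)).trans hb)
    exact_mod_cast h4
  have h2T : 2 * T ≤ (b : ℝ) ^ (2 : ℕ) := by
    have h4 : ((x : ℝ) ^ (2 / 3 : ℝ)) ^ (2 : ℕ) ≤ (b : ℝ) ^ (2 : ℕ) :=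
      pow_le_pow_left₀ (by positivity) hb _
    refine le_trans ?_ h4
    rw [← Real.rpow_natCast, ← Real.rpow_mul hx0.le]
    have h5 : (x : ℝ) ^ (2 / 3 * ((2 : ℕ) : ℝ)) = x * (x : ℝ) ^ (1 / 3 : ℝ) := by
      nth_rw 2 [← Real.rpow_one (x : ℝ)]
      rw [← Real.rpow_add hx0]
      norm_num
    have h6 : (2 : ℝ) ≤ (x : ℝ) ^ (1 / 3 : ℝ) := by
      have h7 : (8 : ℝ) ^ (1 / 3 : ℝ) ≤ (x : ℝ) ^ (1 / 3 : ℝ) :=
        Real.rpow_le_rpow (by norm_num) hxR8 (by norm_num)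
      have h8 : (8 : ℝ) ^ (1 / 3 : ℝ) = 2 := by
        rw [show (8 : ℝ) = 2 ^ (3 : ℝ) by norm_num, ← Real.rpow_mul (by norm_num)]
        norm_num
      linarith only [h7]
    rw [h5]
    nlinarith only [hTx, h6]
  -- the modulus
  have hlb1 : 1 ≤ Real.log b := by
    have h5 : (2 : ℝ) ≤ 2 ^ (B + 1) := by
      calc (2 : ℝ) = 2 ^ 1 := (pow_one _).symm
        _ ≤ 2 ^ (B + 1) := pow_le_pow_right₀ (by norm_num) (by omega)
    linarith only [hL4, hlb, h5]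
  have hcb : (c : ℝ) ≤ Real.log b ^ (B + 1) := by
    refine hcL.trans ?_
    have h5 : (Real.log x / 2) ^ (B + 1) ≤ Real.log b ^ (B + 1) :=
      pow_le_pow_left₀ (by linarith only [hL1]) hlb _
    refine le_trans ?_ h5
    rw [div_pow, le_div_iff₀ (by positivity), pow_succ (Real.log x) B]
    exact mul_le_mul_of_nonneg_left hL4 (by positivity)
  have hvol : volume.real Bs ≤ T ^ η1 * Real.log b ^ (B + 1) := by
    have h5 : volume.real Bs ≤ T ^ η1 :=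
      hB.vol.trans (Real.rpow_le_rpow_of_exponent_le hT1 (hη'η.trans (min_le_left _ _)))
    have h6 : (1 : ℝ) ≤ Real.log b ^ (B + 1) := one_le_pow₀ hlb1
    have h7 : 0 ≤ T ^ η1 := Real.rpow_nonneg (by linarith only [hT1]) _
    nlinarith only [h5, h6, h7]
  have hlbp : 0 < Real.log b := by linarith only [hlb1]
  have h4 : ∀ e ∈ range c, nrm Bs (fun t => ∑ n ∈ Icc 1 b, ((Lam n : ℝ) : ℂ) *
      Pool.Agent.H80.LV.gE (((e : ℤ) : ℝ) / (c : ℝ)) t n) ≤ b / Real.log b ^ (K + 2) := by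
    intro e _
    have h5 := h1 b (by omega) b c (e : ℤ) T Bs hc hcb le_rfl
      (le_trans (pow_le_pow_left₀ hlb0 hlbx _) hT) h2T hB.meas hB.mem hvol
    unfold nrm
    refine Real.sqrt_le_iff.2 ⟨by positivity, h5.trans (le_of_eq ?_)⟩
    rw [div_pow, ← pow_mul]
    congr 2
    ring
  have hcR : (1 : ℝ) ≤ c := by exact_mod_cast hc
  -- the main term
  have hmain : nrm Bs (fun t => ∑ n ∈ (Icc 1 b).filter (fun n => n % c = r % c), ((Lam n : ℝ) : ℂ) * ee (t * Real.log n)) ≤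
      b / Real.log b ^ (K + 2) := by
    have h5 : (fun t => ∑ n ∈ (Icc 1 b).filter (fun n => n % c = r % c), ((Lam n : ℝ) : ℂ) * ee (t * Real.log n)) =
        fun t => ∑ e ∈ range c, (ee (-((r : ℝ) * ((e : ℝ) / c))) / (c : ℂ)) *
          ∑ n ∈ Icc 1 b, ((Lam n : ℝ) : ℂ) * Pool.Agent.H80.LV.gE (((e : ℤ) : ℝ) / (c : ℝ)) t n := by
      funext t
      exact LvC_split c r b t hc
    rw [h5]
    refine (Pool.Agent.H76.MU.nrm_sum η' T Bs hB (range c)
      (fun e t => (ee (-((r : ℝ) * ((e : ℝ) / c))) / (c : ℂ)) *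
          ∑ n ∈ Icc 1 b, ((Lam n : ℝ) : ℂ) * Pool.Agent.H80.LV.gE (((e : ℤ) : ℝ) / (c : ℝ)) t n)
      (fun e _ => continuous_const.mul (LvC_gE_cont _ _))).trans ?_
    have h6 : ∀ e ∈ range c, nrm Bs (fun t => (ee (-((r : ℝ) * ((e : ℝ) / c))) / (c : ℂ)) *
          ∑ n ∈ Icc 1 b, ((Lam n : ℝ) : ℂ) * Pool.Agent.H80.LV.gE (((e : ℤ) : ℝ) / (c : ℝ)) t n) ≤
        (1 / c) * (b / Real.log b ^ (K + 2)) := by
      intro e he
      refine (Pool.Agent.H76.MU.nrm_mul η' T Bs hB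
        (fun t => ∑ n ∈ Icc 1 b, ((Lam n : ℝ) : ℂ) * Pool.Agent.H80.LV.gE (((e : ℤ) : ℝ) / (c : ℝ)) t n)
        (fun _ => (ee (-((r : ℝ) * ((e : ℝ) / c))) / (c : ℂ))) (1 / c) (LvC_gE_cont _ _) continuous_const
        (fun t _ => ?_) (by positivity)).trans ?_
      · rw [norm_div, Pool.Agent.H76.MU.norm_ee, Complex.norm_natCast]
      · exact mul_le_mul_of_nonneg_left (h4 e he) (by positivity)
    refine (Finset.sum_le_sum h6).trans (le_of_eq ?_)
    rw [Finset.sum_const, Finset.card_range, nsmul_eq_mul]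
    field_simp
  -- the rest
  have hrest : nrm Bs (fun t => PSr c r a b t - ∑ n ∈ (Icc 1 b).filter (fun n => n % c = r % c), ((Lam n : ℝ) : ℂ) *
      ee (t * Real.log n)) ≤ (4 * Real.sqrt x * Real.log x ^ 2 +
        (x : ℝ) ^ (1 / 4 : ℝ) * Real.log x) * (x : ℝ) ^ (1 / 20 : ℝ) := by
    have h5 := Pool.Agent.H76.MU.nrm_triv η' T x (4 * Real.sqrt x * Real.log x ^ 2 +
        (x : ℝ) ^ (1 / 4 : ℝ) * Real.log x) Bs hB hη' hT1 hTx
      (fun t => PSr c r a b t - ∑ n ∈ (Icc 1 b).filter (fun n => n % c = r % c), ((Lam n : ℝ) : ℂ) * ee (t * Real.log n))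
      ((LvC_cont c r a b).sub (Pool.Agent.H76.MU.cont_poly _ _)) ?_ (by positivity)
    · refine h5.trans ?_
      apply mul_le_mul_of_nonneg_left _ (by positivity)
      apply Real.rpow_le_rpow_of_exponent_le hxR1
      have h6 : η' ≤ 1 / 10 := hη'η.trans (min_le_right _ _)
      linarith only [h6]
    · intro t _
      have h6 := LvC_diff c r a b t hab (by omega)
      have h7 := LvC_sum c r a (Real.log x) t (by linarith only [hL1]) (fun n hn => by
        have h8 := mem_Icc.1 hn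
        exact Real.log_le_log (by exact_mod_cast h8.1) (by exact_mod_cast (by omega : n ≤ x)))
      have h8 : PSr c r a b t - ∑ n ∈ (Icc 1 b).filter (fun n => n % c = r % c), ((Lam n : ℝ) : ℂ) * ee (t * Real.log n) =
          (PSr c r a b t - (∑ n ∈ (Icc 1 b).filter (fun n => n % c = r % c), ((Lam n : ℝ) : ℂ) * ee (t * Real.log n)
            - ∑ n ∈ (Icc 1 a).filter (fun n => n % c = r % c), ((Lam n : ℝ) : ℂ) * ee (t * Real.log n))) -
          ∑ n ∈ (Icc 1 a).filter (fun n => n % c = r % c), ((Lam n : ℝ) : ℂ) * ee (t * Real.log n) := by ring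
      rw [h8]
      refine (norm_sub_le _ _).trans (add_le_add (h6.trans ?_) (h7.trans ?_))
      · have h9 : Real.sqrt b ≤ Real.sqrt x := Real.sqrt_le_sqrt hbxR
        have h10 : Real.log b ^ 2 ≤ Real.log x ^ 2 := pow_le_pow_left₀ hlb0 hlbx _
        exact mul_le_mul (mul_le_mul_of_nonneg_left h9 (by norm_num)) h10 (by positivity)
          (by positivity)
      · exact mul_le_mul_of_nonneg_right ha (by linarith only [hL1])
  have hsum : nrm Bs (fun t => PSr c r a b t) ≤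
      nrm Bs (fun t => ∑ n ∈ (Icc 1 b).filter (fun n => n % c = r % c), ((Lam n : ℝ) : ℂ) * ee (t * Real.log n)) +
      nrm Bs (fun t => PSr c r a b t - ∑ n ∈ (Icc 1 b).filter (fun n => n % c = r % c), ((Lam n : ℝ) : ℂ) * ee (t * Real.log n)) := by
    have h5 := Pool.Agent.H76.MU.nrm_add η' T Bs hB
      (fun t => ∑ n ∈ (Icc 1 b).filter (fun n => n % c = r % c), ((Lam n : ℝ) : ℂ) * ee (t * Real.log n))
      (fun t => PSr c r a b t - ∑ n ∈ (Icc 1 b).filter (fun n => n % c = r % c), ((Lam n : ℝ) : ℂ) * ee (t * Real.log n))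
      (Pool.Agent.H76.MU.cont_poly _ _) ((LvC_cont c r a b).sub (Pool.Agent.H76.MU.cont_poly _ _))
    refine le_trans (le_of_eq ?_) h5
    congr 1
    funext t
    ring
  exact hsum.trans ((add_le_add hmain hrest).trans
    (LvC_final x K (Real.log x) b (Real.log b) hxR1 hL1 hL2 hlb hb hpow))

end Pool.Agent.H43.CH

end
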