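import Pool.Agent.H43.PS.M01
import Pool.Agent.H43.PS.M02
import Pool.Agent.H43.PS.M03

/-! The parts of this file: H76.MU.Defs, H80.LV.Dual, H80.LV.Defs, H76.VKT.SDef, H76.VKT.PropB, H97.VK.SmTwo, H43.MP.Mrt, H97.VK.Lin1, H97.VK.Lin2, H76.GB.PbCard. -/

section

/-!
# PROJECT MU (MP_0575cc_nt): common definitions

THEOREM. There is `C` with `V(X;H) ≤ C H^2 (log log X/log H)^2` for all `X ≥ 16`, `3 ≤ H ≤ X`, where `V(X;H)` is the mean square of
`∑_{|n-x| < H/2} μ(n)` over `x ∈ [X, 2X]`.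

`L = log x`, `ee(t) = exp(2 π i t)` (`Pool.Agent.H91.PK.ee`; `LSa_ee_add`, `LSa_norm_ee`, `LSa_conj_ee` in
`H91/PK/LSa.lean`), `FF f N θ = ∑_{n ≤ N} f(n) ee(n θ)`, `pb P` = primes in `(P, 2P]`, `Rk P J k`: `k` has no prime factor in
`(P, P 2^J]`, `cor`, `ge` as in `H35/W/Defs.lean`.

* `lio n = (-1)^Ω(n)` (Liouville; `0` at `n = 0`);
* `Om P J n` = number of prime factors of `n` in `(P, P 2^J]` counted with multiplicity;
* `gl j P J n = lio n / (j + Om P J n)`;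
* `SL j P J y t = ∑_{n ≤ y} gl j P J n · n^{2 π i t}`, `nrm B f = (∫_B |f|^2)^{1/2}`;
* `CorM` : the hypothesis of the part on exponential sums;
* `VK1` : cancellation in `∑ Λ(n) n^{2 π i t}` (helper97).
-/

set_option autoImplicit false

namespace Pool.Agent.H76.MU

open Finset MeasureTheory
open Pool.Agent.H91.PK (ee)
open Pool.Agent.H76.EHB
open Pool.Agent.H35.W

/-- the `L^2` norm on `B` -/
noncomputable def nrm (B : Set ℝ) (f : ℝ → ℂ) : ℝ := Real.sqrt (∫ t in B, ‖f t‖ ^ 2)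

/-- the sets of `t` which occur: measurable, in a dyadic annulus, of measure at most `T^η` -/
structure BS (η T : ℝ) (B : Set ℝ) : Prop where
  meas : MeasurableSet B
  mem : ∀ t ∈ B, T ≤ |t| ∧ |t| ≤ 2 * T
  vol : volume.real B ≤ T ^ η

/-- the hypotheses on `g` in the part on exponential sums -/
structure CorM (x m K : ℕ) (η : ℝ) (N M : ℕ) (g : ℕ → ℝ) : Prop where
  supp : ∀ n, n ∉ Ioc M N → g n = 0
  bd : ∀ n, |g n| ≤ 1
  large : ∀ (y : ℕ) (T : ℝ) (B : Set ℝ), y ≤ N → Real.log x ^ m ≤ T → T ≤ x → BS η T B →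
      ∫ t in B, ‖cor g 0 M 0 t y‖ ^ 2 ≤ (x : ℝ) ^ 2 / Real.log x ^ K

/-- the sum over the window `[j - h, j)` -/
noncomputable def Uw (G : ℕ → ℝ) (h j : ℕ) : ℝ := ∑ n ∈ Ico (j - h) j, G n

/-- the kernel `(1/h) ∑_{r=1}^h ee(r θ)` -/
noncomputable def kap (h : ℕ) (θ : ℝ) : ℂ := (1 / (h : ℂ)) * ∑ r ∈ Icc 1 h, ee (r * θ)

theorem norm_ee (t : ℝ) : ‖ee t‖ = 1 := Pool.Agent.H91.PK.LSa_norm_ee t

/-- logarithms are smaller than powers -/
theorem log_pow_le (s C : ℝ) (hs : 0 < s) (hC : 0 < C) (c : ℕ) :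
    ∃ x0 : ℕ, ∀ x : ℕ, x0 ≤ x → C * Real.log x ^ c ≤ (x : ℝ) ^ s := by
  have h1 := (isLittleO_log_rpow_rpow_atTop (c : ℝ) hs).bound (c := 1 / C) (by positivity)
  have h2 := h1.and (Filter.eventually_ge_atTop (1 : ℝ))
  have h3 := tendsto_natCast_atTop_atTop (R := ℝ) |>.eventually h2
  obtain ⟨x0, hx0⟩ := Filter.eventually_atTop.1 h3
  refine ⟨x0, fun x hx => ?_⟩
  obtain ⟨h4, h5⟩ := hx0 x hx
  have hl : 0 ≤ Real.log x := Real.log_nonneg h5
  have hp : (0 : ℝ) ≤ (x : ℝ) ^ s := Real.rpow_nonneg (by positivity) _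
  rw [Real.rpow_natCast, Real.norm_eq_abs, Real.norm_eq_abs, abs_of_nonneg (by positivity),
    abs_of_nonneg hp] at h4
  rw [div_mul_eq_mul_div, one_mul, le_div_iff₀ hC] at h4
  linarith

/-- logarithms are large -/
theorem log_ge (C : ℝ) : ∃ x0 : ℕ, ∀ x : ℕ, x0 ≤ x → C ≤ Real.log x := by
  have h := (Real.tendsto_log_atTop.comp (tendsto_natCast_atTop_atTop (R := ℝ))).eventually
    (Filter.eventually_ge_atTop C)
  exact Filter.eventually_atTop.1 h

/-- `exp ((log x)^(19/20) (log x)^...)` is smaller than every power of `x` -/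
theorem exp_pow_le (s C : ℝ) (hs : 0 < s) (hC : 0 < C) : ∃ x0 : ℕ, ∀ x : ℕ, x0 ≤ x →
    Real.exp (C * Real.log x ^ (19 / 20 : ℝ)) ≤ (x : ℝ) ^ s := by
  have h1 : Filter.Tendsto (fun y : ℝ => y ^ (1 / 20 : ℝ)) Filter.atTop Filter.atTop :=
    tendsto_rpow_atTop (by norm_num)
  have h2 := (h1.comp (Real.tendsto_log_atTop.comp
    (tendsto_natCast_atTop_atTop (R := ℝ)))).eventually (Filter.eventually_ge_atTop (C / s))
  have h3 := (Real.tendsto_log_atTop.comp (tendsto_natCast_atTop_atTop (R := ℝ))).eventually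
    (Filter.eventually_ge_atTop 1)
  obtain ⟨x0, hx0⟩ := Filter.eventually_atTop.1
    ((h2.and h3).and (Filter.eventually_ge_atTop 1))
  refine ⟨x0, fun x hx => ?_⟩
  obtain ⟨⟨h4, h5⟩, h6⟩ := hx0 x hx
  simp only [Function.comp_apply] at h4 h5
  have hx0' : (0 : ℝ) < x := by exact_mod_cast h6
  have hL : 0 < Real.log x := by linarith
  rw [Real.rpow_def_of_pos hx0']
  apply Real.exp_le_exp.2
  have e1 : Real.log x = Real.log x ^ (19 / 20 : ℝ) * Real.log x ^ (1 / 20 : ℝ) := by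
    rw [← Real.rpow_add hL]; norm_num
  rw [div_le_iff₀ hs] at h4
  have h7 : 0 ≤ Real.log x ^ (19 / 20 : ℝ) := by positivity
  calc C * Real.log x ^ (19 / 20 : ℝ) ≤ (Real.log x ^ (1 / 20 : ℝ) * s) * Real.log x ^ (19 / 20 : ℝ) :=
        mul_le_mul_of_nonneg_right h4 h7
    _ = (Real.log x ^ (19 / 20 : ℝ) * Real.log x ^ (1 / 20 : ℝ)) * s := by ring
    _ = Real.log x * s := by rw [← e1]

end Pool.Agent.H76.MU

end

section

/-!
# LV Dual: the duality inequality (Halász-Montgomery) on a bounded measurable set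

Write `e_n(t) = ee(t log n)`, `F(t) = ∑_{n ≤ K} a_n e_n(t)`, `D(u) = ∑_{n ≤ K} e_n(u)`, `I = ∫_B |F|^2` (all functions are
continuous and bounded, `B` is bounded, so everything is integrable on `B` and on `B × B`).
`I = ∫_B F conj F = ∑_n a_n c_n`, `c_n = ∫_B e_n(t) conj(F(t)) dt`, so `I^2 ≤ (∑ |a_n|^2) (∑ |c_n|^2)` (Cauchy-Schwarz), and
`∑_n |c_n|^2 = ∫_B ∫_B conj(F(t)) F(s) ∑_n e_n(t) conj(e_n(s)) ds dt = ∫_B ∫_B conj(F(t)) F(s) D(t - s) ds dt`
`≤ ∫_B ∫_B (|F(t)|^2 + |F(s)|^2)/2 |D(t-s)| ds dt = ∫_B |F(t)|^2 (∫_B |D(t-s)| ds) dt ≤ G I`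
(`|D(-u)| = |D(u)|`, Fubini).  So `I^2 ≤ G (∑ |a_n|^2) I`; if `I = 0` there is nothing to prove, otherwise divide.
-/

set_option autoImplicit false

namespace Pool.Agent.H80.LV

open Finset MeasureTheory
open Pool.Agent.H91.PK (ee)

theorem dual_ee_cont (c : ℝ) : Continuous fun t : ℝ => ee (t * c) := by
  unfold ee
  fun_prop

theorem dual_D_cont (K : ℕ) : Continuous fun u : ℝ => ∑ n ∈ Icc 1 K, ee (u * Real.log n) :=
  continuous_finsetSum _ fun _ _ => dual_ee_cont _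

theorem dual_F_cont (K : ℕ) (a : ℕ → ℂ) :
    Continuous fun u : ℝ => ∑ n ∈ Icc 1 K, a n * ee (u * Real.log n) :=
  continuous_finsetSum _ fun _ _ => continuous_const.mul (dual_ee_cont _)

theorem dual_D_bound (K : ℕ) (u : ℝ) : ‖∑ n ∈ Icc 1 K, ee (u * Real.log n)‖ ≤ K := by
  refine (norm_sum_le _ _).trans ?_
  simp [Pool.Agent.H91.PK.LSa_norm_ee]

theorem dual_F_bound (K : ℕ) (a : ℕ → ℂ) (u : ℝ) :
    ‖∑ n ∈ Icc 1 K, a n * ee (u * Real.log n)‖ ≤ ∑ n ∈ Icc 1 K, ‖a n‖ := by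
  refine (norm_sum_le _ _).trans (le_of_eq ?_)
  refine Finset.sum_congr rfl fun n _ => ?_
  rw [norm_mul, Pool.Agent.H91.PK.LSa_norm_ee, mul_one]

theorem dual_D_neg (K : ℕ) (u : ℝ) :
    ‖∑ n ∈ Icc 1 K, ee (-u * Real.log n)‖ = ‖∑ n ∈ Icc 1 K, ee (u * Real.log n)‖ := by
  rw [← Complex.norm_conj (∑ n ∈ Icc 1 K, ee (u * Real.log n)), map_sum]
  congr 1
  refine Finset.sum_congr rfl fun n _ => ?_
  rw [Pool.Agent.H91.PK.LSa_conj_ee]
  congr 1
  ring

theorem dual_ineq (B : Set ℝ) (Y : ℝ) (hB : MeasurableSet B) (hb : B ⊆ Set.Icc (-Y) Y) (K : ℕ)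
    (a : ℕ → ℂ) (G : ℝ) (hG0 : 0 ≤ G)
    (hG : ∀ t ∈ B, ∫ s in B, ‖∑ n ∈ Icc 1 K, ee ((t - s) * Real.log n)‖ ≤ G) :
    ∫ t in B, ‖∑ n ∈ Icc 1 K, a n * ee (t * Real.log n)‖ ^ 2
      ≤ G * ∑ n ∈ Icc 1 K, ‖a n‖ ^ 2 := by
  have hfin : volume B < ⊤ :=
    lt_of_le_of_lt (measure_mono hb) (by rw [Real.volume_Icc]; exact ENNReal.ofReal_lt_top)
  haveI : IsFiniteMeasure (volume.restrict B) := ⟨by rw [Measure.restrict_apply_univ]; exact hfin⟩
  set μ : Measure ℝ := volume.restrict B with hμ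
  set F : ℝ → ℂ := fun t => ∑ n ∈ Icc 1 K, a n * ee (t * Real.log n) with hF
  set D : ℝ → ℂ := fun t => ∑ n ∈ Icc 1 K, ee (t * Real.log n) with hD
  have hFc : Continuous F := dual_F_cont K a
  have hDc : Continuous D := dual_D_cont K
  set M : ℝ := ∑ n ∈ Icc 1 K, ‖a n‖ with hM
  have hM0 : 0 ≤ M := Finset.sum_nonneg fun n _ => norm_nonneg _
  have hFb : ∀ t, ‖F t‖ ≤ M := fun t => dual_F_bound K a t
  have hDb : ∀ t, ‖D t‖ ≤ K := fun t => dual_D_bound K t
  have int1 : ∀ (f : ℝ → ℂ) (C : ℝ), Continuous f → (∀ t, ‖f t‖ ≤ C) → Integrable f μ :=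
    fun f C hf hC => Integrable.of_bound hf.aestronglyMeasurable C (Filter.Eventually.of_forall hC)
  have int2 : ∀ (f : ℝ → ℝ) (C : ℝ), Continuous f → (∀ t, ‖f t‖ ≤ C) → Integrable f μ :=
    fun f C hf hC => Integrable.of_bound hf.aestronglyMeasurable C (Filter.Eventually.of_forall hC)
  have int3 : ∀ (f : ℝ × ℝ → ℂ) (C : ℝ), Continuous f → (∀ t, ‖f t‖ ≤ C) →
      Integrable f (μ.prod μ) :=
    fun f C hf hC => Integrable.of_bound hf.aestronglyMeasurable C (Filter.Eventually.of_forall hC)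
  have int4 : ∀ (f : ℝ × ℝ → ℝ) (C : ℝ), Continuous f → (∀ t, ‖f t‖ ≤ C) →
      Integrable f (μ.prod μ) :=
    fun f C hf hC => Integrable.of_bound hf.aestronglyMeasurable C (Filter.Eventually.of_forall hC)
  set I : ℝ := ∫ t, ‖F t‖ ^ 2 ∂μ with hI
  have hI0 : 0 ≤ I := integral_nonneg fun t => by positivity
  set c : ℕ → ℂ := fun n => ∫ t, ee (t * Real.log n) * (starRingEnd ℂ) (F t) ∂μ with hc
  have hconjF : Continuous fun t => (starRingEnd ℂ) (F t) := Complex.continuous_conj.comp hFc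
  have hec : ∀ n : ℕ, Continuous fun t : ℝ => ee (t * Real.log n) := fun n => dual_ee_cont _
  have hIc : (I : ℂ) = ∑ n ∈ Icc 1 K, a n * c n := by
    have h1 : (I : ℂ) = ∫ t, ((‖F t‖ ^ 2 : ℝ) : ℂ) ∂μ := by
      rw [hI]; exact integral_ofReal.symm
    rw [h1]
    have h2 : ∀ t, ((‖F t‖ ^ 2 : ℝ) : ℂ)
        = ∑ n ∈ Icc 1 K, a n * (ee (t * Real.log n) * (starRingEnd ℂ) (F t)) := by
      intro t
      have h3 : ((‖F t‖ ^ 2 : ℝ) : ℂ) = F t * (starRingEnd ℂ) (F t) := by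
        rw [Complex.mul_conj, Complex.normSq_eq_norm_sq]
      rw [h3, hF, Finset.sum_mul]
      refine Finset.sum_congr rfl fun n _ => ?_
      rw [mul_assoc]
    rw [integral_congr_ae (Filter.Eventually.of_forall h2), integral_finsetSum]
    · refine Finset.sum_congr rfl fun n _ => ?_
      rw [integral_const_mul]
    · intro n _
      refine (int1 _ M ((hec n).mul hconjF) fun t => ?_).const_mul _
      rw [Pi.mul_apply, norm_mul, Pool.Agent.H91.PK.LSa_norm_ee, one_mul, Complex.norm_conj]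
      exact hFb t
  have hCS : I ^ 2 ≤ (∑ n ∈ Icc 1 K, ‖a n‖ ^ 2) * ∑ n ∈ Icc 1 K, ‖c n‖ ^ 2 := by
    have h1 : I ≤ ∑ n ∈ Icc 1 K, ‖a n‖ * ‖c n‖ := by
      have h2 : I = ‖(I : ℂ)‖ := by rw [Complex.norm_real, Real.norm_of_nonneg hI0]
      rw [h2, hIc]
      refine (norm_sum_le _ _).trans (le_of_eq ?_)
      exact Finset.sum_congr rfl fun n _ => norm_mul _ _
    calc I ^ 2 ≤ (∑ n ∈ Icc 1 K, ‖a n‖ * ‖c n‖) ^ 2 := by gcongr
      _ ≤ _ := Finset.sum_mul_sq_le_sq_mul_sq _ _ _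
  have hsum : ((∑ n ∈ Icc 1 K, ‖c n‖ ^ 2 : ℝ) : ℂ)
      = ∫ z : ℝ × ℝ, (starRingEnd ℂ) (F z.1) * F z.2 * D (z.1 - z.2) ∂(μ.prod μ) := by
    have h1 : ∀ n : ℕ, ((‖c n‖ ^ 2 : ℝ) : ℂ) = ∫ z : ℝ × ℝ,
        (ee (z.1 * Real.log n) * (starRingEnd ℂ) (F z.1))
          * ((starRingEnd ℂ) (ee (z.2 * Real.log n)) * F z.2) ∂(μ.prod μ) := by
      intro n
      rw [integral_prod_mul (fun t : ℝ => ee (t * Real.log n) * (starRingEnd ℂ) (F t))
        (fun t : ℝ => (starRingEnd ℂ) (ee (t * Real.log n)) * F t)]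
      have h2 : ∫ t, (starRingEnd ℂ) (ee (t * Real.log n)) * F t ∂μ = (starRingEnd ℂ) (c n) := by
        rw [hc]
        simp only
        rw [← integral_conj]
        refine integral_congr_ae (Filter.Eventually.of_forall fun t => ?_)
        simp only [map_mul, Complex.conj_conj]
      rw [h2]
      have h3 : ((‖c n‖ ^ 2 : ℝ) : ℂ) = c n * (starRingEnd ℂ) (c n) := by
        rw [Complex.mul_conj, Complex.normSq_eq_norm_sq]
      rw [h3]
    rw [Complex.ofReal_sum, Finset.sum_congr rfl fun n _ => h1 n, ← integral_finsetSum]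
    · refine integral_congr_ae (Filter.Eventually.of_forall fun z => ?_)
      simp only [hD]
      rw [Finset.mul_sum]
      refine Finset.sum_congr rfl fun n _ => ?_
      rw [Pool.Agent.H91.PK.LSa_conj_ee, sub_mul, sub_eq_add_neg, Pool.Agent.H91.PK.LSa_ee_add]
      ring
    · intro n _
      refine int3 _ (M * M) ?_ fun z => ?_
      · exact (((hec n).comp continuous_fst).mul (hconjF.comp continuous_fst)).mul
          ((Complex.continuous_conj.comp ((hec n).comp continuous_snd)).mul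
            (hFc.comp continuous_snd))
      · rw [norm_mul, norm_mul, norm_mul, Complex.norm_conj, Complex.norm_conj,
          Pool.Agent.H91.PK.LSa_norm_ee, Pool.Agent.H91.PK.LSa_norm_ee, one_mul, one_mul]
        exact mul_le_mul (hFb _) (hFb _) (norm_nonneg _) hM0
  set H : ℝ × ℝ → ℝ := fun z => ‖F z.1‖ ^ 2 * ‖D (z.1 - z.2)‖ with hH
  have hHc : Continuous H :=
    ((hFc.comp continuous_fst).norm.pow 2).mul
      (hDc.comp (continuous_fst.sub continuous_snd)).norm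
  have hHi : Integrable H (μ.prod μ) := by
    refine int4 H (M ^ 2 * K) hHc fun z => ?_
    rw [Real.norm_of_nonneg (by positivity)]
    exact mul_le_mul (pow_le_pow_left₀ (norm_nonneg _) (hFb _) 2) (hDb _) (norm_nonneg _)
      (by positivity)
  have hHI : ∫ z, H z ∂(μ.prod μ) ≤ G * I := by
    rw [integral_prod H hHi]
    have h1 : ∀ t ∈ B, ∫ s, H (t, s) ∂μ ≤ G * ‖F t‖ ^ 2 := by
      intro t ht
      have h2 : ∫ s, H (t, s) ∂μ = ‖F t‖ ^ 2 * ∫ s, ‖D (t - s)‖ ∂μ := by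
        rw [← integral_const_mul]
      rw [h2, mul_comm G]
      exact mul_le_mul_of_nonneg_left (hG t ht) (by positivity)
    have h3 : ∫ t, ∫ s, H (t, s) ∂μ ∂μ ≤ ∫ t, G * ‖F t‖ ^ 2 ∂μ := by
      refine integral_mono_ae hHi.integral_prod_left ?_ ?_
      · refine (int2 _ (M ^ 2) (hFc.norm.pow 2) fun t => ?_).const_mul _
        rw [Pi.pow_apply, Real.norm_of_nonneg (by positivity)]
        exact pow_le_pow_left₀ (norm_nonneg _) (hFb _) 2
      · rw [hμ]
        exact (ae_restrict_iff' hB).2 (Filter.Eventually.of_forall h1)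
    rw [integral_const_mul] at h3
    exact h3
  have hHI2 : ∫ z : ℝ × ℝ, ‖F z.2‖ ^ 2 * ‖D (z.1 - z.2)‖ ∂(μ.prod μ) ≤ G * I := by
    have h1 : ∫ z : ℝ × ℝ, ‖F z.2‖ ^ 2 * ‖D (z.1 - z.2)‖ ∂(μ.prod μ)
        = ∫ z : ℝ × ℝ, H z.swap ∂(μ.prod μ) := by
      refine integral_congr_ae (Filter.Eventually.of_forall fun z => ?_)
      simp only [hH, Prod.fst_swap, Prod.snd_swap]
      congr 1
      have := dual_D_neg K (z.1 - z.2)
      rw [← this]
      congr 2
      funext n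
      ring_nf
    rw [h1, integral_prod_swap]
    exact hHI
  have hH2i : Integrable (fun z : ℝ × ℝ => ‖F z.2‖ ^ 2 * ‖D (z.1 - z.2)‖) (μ.prod μ) := by
    refine int4 _ (M ^ 2 * K) ?_ fun z => ?_
    · exact ((hFc.comp continuous_snd).norm.pow 2).mul
        (hDc.comp (continuous_fst.sub continuous_snd)).norm
    · rw [Real.norm_of_nonneg (by positivity)]
      exact mul_le_mul (pow_le_pow_left₀ (norm_nonneg _) (hFb _) 2) (hDb _) (norm_nonneg _)
        (by positivity)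
  have hc2 : ∑ n ∈ Icc 1 K, ‖c n‖ ^ 2 ≤ G * I := by
    have h0 : 0 ≤ ∑ n ∈ Icc 1 K, ‖c n‖ ^ 2 := Finset.sum_nonneg fun n _ => by positivity
    have h1 : ∑ n ∈ Icc 1 K, ‖c n‖ ^ 2 = ‖((∑ n ∈ Icc 1 K, ‖c n‖ ^ 2 : ℝ) : ℂ)‖ := by
      rw [Complex.norm_real, Real.norm_of_nonneg h0]
    rw [h1, hsum]
    refine (norm_integral_le_integral_norm _).trans ?_
    have h2 : ∫ z : ℝ × ℝ, ‖(starRingEnd ℂ) (F z.1) * F z.2 * D (z.1 - z.2)‖ ∂(μ.prod μ)
        ≤ ∫ z : ℝ × ℝ, ((1 / 2) * H z + (1 / 2) * (‖F z.2‖ ^ 2 * ‖D (z.1 - z.2)‖))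
            ∂(μ.prod μ) := by
      refine integral_mono ?_ ((hHi.const_mul _).add (hH2i.const_mul _)) fun z => ?_
      · refine int4 _ (M * M * K) ?_ fun z => ?_
        · exact (((hconjF.comp continuous_fst).mul (hFc.comp continuous_snd)).mul
            (hDc.comp (continuous_fst.sub continuous_snd))).norm
        · rw [Real.norm_of_nonneg (norm_nonneg _), norm_mul, norm_mul, Complex.norm_conj]
          exact mul_le_mul (mul_le_mul (hFb _) (hFb _) (norm_nonneg _) hM0) (hDb _)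
            (norm_nonneg _) (by positivity)
      · simp only [hH]
        rw [norm_mul, norm_mul, Complex.norm_conj]
        nlinarith [mul_nonneg (sq_nonneg (‖F z.1‖ - ‖F z.2‖)) (norm_nonneg (D (z.1 - z.2)))]
    refine h2.trans ?_
    rw [integral_add (hHi.const_mul _) (hH2i.const_mul _), integral_const_mul, integral_const_mul]
    linarith
  have hfinal : I * I ≤ (G * ∑ n ∈ Icc 1 K, ‖a n‖ ^ 2) * I := by
    have h0 : 0 ≤ ∑ n ∈ Icc 1 K, ‖a n‖ ^ 2 := Finset.sum_nonneg fun n _ => by positivity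
    calc I * I = I ^ 2 := by ring
      _ ≤ (∑ n ∈ Icc 1 K, ‖a n‖ ^ 2) * ∑ n ∈ Icc 1 K, ‖c n‖ ^ 2 := hCS
      _ ≤ (∑ n ∈ Icc 1 K, ‖a n‖ ^ 2) * (G * I) := mul_le_mul_of_nonneg_left hc2 h0
      _ = _ := by ring
  rcases hI0.lt_or_eq with hpos | hzero
  · exact le_of_mul_le_mul_right hfinal hpos
  · rw [← hzero]
    have h0 : 0 ≤ ∑ n ∈ Icc 1 K, ‖a n‖ ^ 2 := Finset.sum_nonneg fun n _ => by positivity
    positivity

end Pool.Agent.H80.LV

end

section

/-!
# PROJECT SP, Part II (large values): common definitions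

`L = log x`, `ee(t) = exp(2 π i t)` (`Pool.Agent.H91.PK.ee`; `LSa_ee_add`, `LSa_norm_ee`, `LSa_conj_ee` in
`H91/PK/LSa.lean`).  `gE α t n = e(n α) n^{2 π i t}`.  `VK` is the statement of Part I (helper97,
`vk_class`).
-/

set_option autoImplicit false

namespace Pool.Agent.H80.LV

open Finset
open Pool.Agent.H91.PK (ee)
open Pool.Agent.H91.EHA (Lam)

/-- `e(n α) n^{2 π i t}` -/
noncomputable def gE (α t : ℝ) (n : ℕ) : ℂ := ee ((n : ℝ) * α + t * Real.log n)

/-- Part I: cancellation in `∑ Λ(n) n^{2 π i t}` over residue classes, `L^K' ≤ |t| ≤ x^2`. -/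
def VK : Prop := ∀ (K B : ℕ) (e0 : ℝ), 0 < e0 → ∃ K' x0 : ℕ, ∀ x : ℕ, x0 ≤ x →
  ∀ (d u z : ℕ) (t : ℝ), 1 ≤ d → (d : ℝ) ≤ Real.log x ^ B → (x : ℝ) ^ e0 ≤ z → z ≤ x ^ 2 →
    Real.log x ^ K' ≤ |t| → |t| ≤ (x : ℝ) ^ (2 : ℕ) →
    ‖∑ n ∈ (Icc 1 z).filter (fun n => n % d = u % d), ((Lam n : ℝ) : ℂ) * ee (t * Real.log n)‖
      ≤ z / Real.log x ^ K

theorem norm_gE (α t : ℝ) (n : ℕ) : ‖gE α t n‖ = 1 := by
  unfold gE
  exact Pool.Agent.H91.PK.LSa_norm_ee _

theorem gE_mul (α t : ℝ) (m n : ℕ) (hm : 1 ≤ m) (hn : 1 ≤ n) :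
    gE α t (m * n) = ee ((m : ℝ) * n * α) * ee (t * Real.log m) * ee (t * Real.log n) := by
  have hm0 : (m : ℝ) ≠ 0 := by positivity
  have hn0 : (n : ℝ) ≠ 0 := by positivity
  unfold gE
  rw [← Pool.Agent.H91.PK.LSa_ee_add, ← Pool.Agent.H91.PK.LSa_ee_add]
  congr 1
  push_cast
  rw [Real.log_mul hm0 hn0]
  ring

/-- logarithms are smaller than powers -/
theorem log_pow_le (s C : ℝ) (hs : 0 < s) (hC : 0 < C) (c : ℕ) :
    ∃ x0 : ℕ, ∀ x : ℕ, x0 ≤ x → C * Real.log x ^ c ≤ (x : ℝ) ^ s := by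
  have h1 := (isLittleO_log_rpow_rpow_atTop (c : ℝ) hs).bound (c := 1 / C) (by positivity)
  have h2 := h1.and (Filter.eventually_ge_atTop (1 : ℝ))
  have h3 := tendsto_natCast_atTop_atTop (R := ℝ) |>.eventually h2
  obtain ⟨x0, hx0⟩ := Filter.eventually_atTop.1 h3
  refine ⟨x0, fun x hx => ?_⟩
  obtain ⟨h4, h5⟩ := hx0 x hx
  have hl : 0 ≤ Real.log x := Real.log_nonneg h5
  have hp : (0 : ℝ) ≤ (x : ℝ) ^ s := Real.rpow_nonneg (by positivity) _
  rw [Real.rpow_natCast, Real.norm_eq_abs, Real.norm_eq_abs, abs_of_nonneg (by positivity),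
    abs_of_nonneg hp] at h4
  rw [div_mul_eq_mul_div, one_mul, le_div_iff₀ hC] at h4
  linarith

/-- logarithms are large -/
theorem log_ge (C : ℝ) : ∃ x0 : ℕ, ∀ x : ℕ, x0 ≤ x → C ≤ Real.log x := by
  have h := (Real.tendsto_log_atTop.comp (tendsto_natCast_atTop_atTop (R := ℝ))).eventually
    (Filter.eventually_ge_atTop C)
  exact Filter.eventually_atTop.1 h

/-- powers are large -/
theorem pow_ge (s C : ℝ) (hs : 0 < s) : ∃ x0 : ℕ, ∀ x : ℕ, x0 ≤ x → C ≤ (x : ℝ) ^ s := by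
  have h := ((tendsto_rpow_atTop hs).comp (tendsto_natCast_atTop_atTop (R := ℝ))).eventually
    (Filter.eventually_ge_atTop C)
  exact Filter.eventually_atTop.1 h

end Pool.Agent.H80.LV

end

section

/-!
# PROJECT VKT (H97/VK of helper97 with the parameter `T0.t` in place of `9/10`), Part I.b: sieved Dirichlet characters

Notation: `L = log x`, `L9 x = L^{9/10}`, `LL x = log L`, `y = Yx x = ⌊exp(L^{9/10})⌋`.  A character `χ` mod `d` is replaced by the character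
`ch x χ` modulo `qm x d = d · y#` induced by it: `ch x χ n = χ(n)` if `n` has no prime factor `≤ y`, otherwise `0`.
The tools `Lk`, `Fk` (`∑ χ(n) (log n)^k n^{-s}`, `∑ Λ(n) χ(n) (log n)^k n^{-s}`) of EHA are applied to `ch x χ`.
-/

set_option autoImplicit false

namespace Pool.Agent.H76.VKT

open Finset

/-- the parameter `t ∈ (2/3, 1)`; it replaces `9/10` in `Pool.Agent.H97.VK` -/
class T0 where
  /-- the exponent -/
  t : ℝ
  lo : 2 / 3 < t
  hi : t < 1

variable [T0]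

/-- `(log x)^t` -/
noncomputable def L9 (x : ℕ) : ℝ := Real.log x ^ T0.t

/-- `log log x` -/
noncomputable def LL (x : ℕ) : ℝ := Real.log (Real.log x)

/-- the sieving level -/
noncomputable def Yx (x : ℕ) : ℕ := ⌊Real.exp (L9 x)⌋₊

/-- the modulus `d · y#` -/
noncomputable def qm (x d : ℕ) : ℕ := d * primorial (Yx x)

/-- the character modulo `qm x d` induced by `χ` -/
noncomputable def ch (x : ℕ) {d : ℕ} (χ : DirichletCharacter ℂ d) : DirichletCharacter ℂ (qm x d) :=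
  DirichletCharacter.changeLevel (Dvd.intro _ rfl) χ

theorem qm_pos (x d : ℕ) (hd : 1 ≤ d) : 1 ≤ qm x d :=
  Nat.mul_pos hd (primorial_pos _)

theorem ch_sq (x : ℕ) {d : ℕ} (χ : DirichletCharacter ℂ d) : ch x χ ^ 2 = ch x (χ ^ 2) := by
  unfold ch
  rw [map_pow]
  rfl

theorem ch_apply (x : ℕ) {d : ℕ} (hd : 1 ≤ d) (χ : DirichletCharacter ℂ d) (n : ℕ) :
    ch x χ (n : ZMod (qm x d)) =
      if n.Coprime (primorial (Yx x)) then χ (n : ZMod d) else 0 := by
  have hq0 : qm x d ≠ 0 := by have := qm_pos x d hd; omega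
  by_cases h1 : n.Coprime (qm x d)
  · have h2 : n.Coprime (primorial (Yx x)) := by
      unfold qm at h1
      exact (Nat.coprime_mul_iff_right.1 h1).2
    rw [if_pos h2]
    unfold ch
    have h3 : IsCoprime (n : ℤ) (qm x d : ℤ) := Nat.isCoprime_iff_coprime.2 h1
    have h4 := DirichletCharacter.changeLevel_eq_cast_of_dvd' χ
      (Dvd.intro (primorial (Yx x)) rfl : d ∣ qm x d) h3
    rw [Int.cast_natCast, Int.cast_natCast] at h4
    exact h4
  · have h2 : ¬ IsUnit (n : ZMod (qm x d)) := by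
      rw [ZMod.isUnit_iff_coprime]; exact h1
    rw [MulChar.map_nonunit _ h2]
    split_ifs with h3
    · have h4 : ¬ n.Coprime d := by
        intro h5
        apply h1
        unfold qm
        exact Nat.coprime_mul_iff_right.2 ⟨h5, h3⟩
      have h5 : ¬ IsUnit (n : ZMod d) := by
        rw [ZMod.isUnit_iff_coprime]; exact h4
      rw [MulChar.map_nonunit _ h5]
    · rfl

theorem ch_norm_le (x : ℕ) {d : ℕ} (χ : DirichletCharacter ℂ d) (n : ZMod (qm x d)) : ‖ch x χ n‖ ≤ 1 :=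
  DirichletCharacter.norm_le_one _ _

omit [T0] in
theorem cop_gt (y n : ℕ) (hy : 2 ≤ y) (hn : n.Coprime (primorial y)) : n = 1 ∨ y < n := by
  by_contra hcon
  push Not at hcon
  obtain ⟨h1, h2⟩ := hcon
  have h3 : n.minFac.Prime := Nat.minFac_prime h1
  rcases Nat.eq_zero_or_pos n with h0 | h0
  · subst h0
    have h4 : 2 ∣ primorial y := Nat.prime_two.dvd_primorial_iff.2 hy
    rw [Nat.coprime_zero_left] at hn
    rw [hn] at h4
    omega
  · have h4 : n.minFac ≤ y := (Nat.minFac_le h0).trans h2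
    have h5 : n.minFac ∣ primorial y := h3.dvd_primorial_iff.2 h4
    exact Nat.not_coprime_of_dvd_of_dvd h3.one_lt (Nat.minFac_dvd n) h5 hn

theorem yx_ev : ∃ x0 : ℕ, ∀ x : ℕ, x0 ≤ x → 3 ≤ Yx x ∧ Real.log (Yx x) ≤ L9 x ∧ L9 x / 2 ≤ Real.log (Yx x) ∧
    1 ≤ LL x ∧ 1 ≤ L9 x ∧ 1 ≤ Real.log x ∧ (Yx x : ℝ) + 1 ≤ x := by
  have hlo := T0.lo
  have hhi := T0.hi
  have hev : ∀ᶠ L : ℝ in Filter.atTop, 1024 ≤ L ∧ 512 ≤ L ^ T0.t ∧ 2 ≤ L ^ (1 - T0.t) := by
    filter_upwards [Filter.eventually_ge_atTop (1024 : ℝ),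
      (tendsto_rpow_atTop (show 0 < T0.t by linarith)).eventually_ge_atTop 512,
      (tendsto_rpow_atTop (show 0 < 1 - T0.t by linarith)).eventually_ge_atTop 2] with L h1 h2 h3
    exact ⟨h1, h2, h3⟩
  obtain ⟨x1, hx1'⟩ := Filter.eventually_atTop.1
    ((Real.tendsto_log_atTop.comp tendsto_natCast_atTop_atTop).eventually hev)
  refine ⟨max x1 1, fun x hx => ?_⟩
  obtain ⟨hL1, h512', hpow2⟩ := hx1' x ((le_max_left _ _).trans hx)
  simp only [Function.comp_apply] at hL1 h512' hpow2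
  have hx0 : (0:ℝ) < x := by
    have : 1 ≤ x := (le_max_right _ _).trans hx
    exact_mod_cast this
  obtain ⟨L, hL⟩ : ∃ L, L = Real.log x := ⟨_, rfl⟩
  rw [← hL] at hL1 h512' hpow2
  have hL0 : 0 < L := by linarith
  obtain ⟨M, hM⟩ : ∃ M, M = L9 x := ⟨_, rfl⟩
  have hM1 : M = L ^ T0.t := by rw [hM, hL]; rfl
  have h512 : (512:ℝ) ≤ M := by rw [hM1]; exact h512'
  have hML : M ≤ L / 2 := by
    have h2 : M * L ^ (1 - T0.t) = L := by
      rw [hM1, ← Real.rpow_add hL0]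
      rw [show T0.t + (1 - T0.t) = 1 by ring, Real.rpow_one]
    have h3 : 0 ≤ M := by linarith
    nlinarith
  have hexpM : 512 ≤ Real.exp (M / 2) := by
    have := Real.add_one_le_exp (M / 2)
    have h4 : Real.exp (M / 4) ^ 2 = Real.exp (M / 2) := by
      rw [← Real.exp_nat_mul]; congr 1; push_cast; ring
    have h5 := Real.add_one_le_exp (M / 4)
    nlinarith
  have hsq : Real.exp M = Real.exp (M / 2) * Real.exp (M / 2) := by
    rw [← Real.exp_add]; congr 1; ring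
  have hY1 : (Yx x : ℝ) ≤ Real.exp M := by
    unfold Yx; rw [← hM]; exact Nat.floor_le (Real.exp_pos _).le
  have hY2 : Real.exp (M / 2) + 3 ≤ (Yx x : ℝ) := by
    have h1 : Real.exp M < (Yx x : ℝ) + 1 := by
      unfold Yx; rw [← hM]; exact Nat.lt_floor_add_one _
    nlinarith
  have hY0 : (0:ℝ) < Yx x := by linarith
  refine ⟨?_, ?_, ?_, ?_, ?_, ?_, ?_⟩
  · have h1 : (3:ℝ) ≤ (Yx x : ℝ) := by linarith
    exact_mod_cast h1
  · rw [← hM, Real.log_le_iff_le_exp hY0]; exact hY1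
  · rw [← hM, Real.le_log_iff_exp_le hY0]; linarith
  · unfold LL
    rw [← hL, Real.le_log_iff_exp_le hL0]
    have := Real.exp_one_lt_d9
    linarith
  · rw [← hM]; linarith
  · rw [← hL]; linarith
  · have h1 : Real.exp L = x := by rw [hL, Real.exp_log hx0]
    have h2 : Real.exp M ≤ Real.exp (L / 2) := Real.exp_le_exp.2 hML
    have h3 : Real.exp L = Real.exp (L / 2) * Real.exp (L / 2) := by
      rw [← Real.exp_add]; congr 1; ring
    have h4 : 512 ≤ Real.exp (L / 2) := by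
      have := Real.add_one_le_exp (L / 2)
      linarith
    rw [← h1]
    nlinarith

end Pool.Agent.H76.VKT

end

section

set_option autoImplicit false

namespace Pool.Agent.H76.VKT

open Finset
open Pool.Agent.H91.EHA
open Pool.Agent.H91.PK (ee)

/-- the statement of `vk_exp` -/
def vk_exp_P [T0] : Prop := ∀ (A : ℕ),
    ∃ x0 : ℕ, ∀ x : ℕ, x0 ≤ x → ∀ (K a b : ℕ) (β t : ℝ),
    Real.exp (Real.log x ^ T0.t) ≤ K → K ≤ x → b ≤ K → 0 ≤ β → β ≤ 1 →
    1 ≤ |t| → |t| ≤ (x : ℝ) ^ (3 : ℕ) →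
    ‖∑ n ∈ Ioc a b, ee (t * Real.log (n + β))‖ ≤ K * (100 / |t| + 1 / Real.log x ^ A)

/-- the statement of `psum` -/
def psum_P [T0] : Prop := ∀ (A B : ℕ),
    ∃ K' x0 : ℕ, ∀ x : ℕ, x0 ≤ x → ∀ (d : ℕ) (χ : DirichletCharacter ℂ d) (t : ℝ) (v : ℕ),
    1 ≤ d → (d : ℝ) ≤ Real.log x ^ B → Real.log x ^ K' ≤ |t| → |t| ≤ (x : ℝ) ^ (3 : ℕ) → Yx x + 1 ≤ v →
    ‖∑ n ∈ Icc 1 v, χ (n : ZMod d) * ee (t * Real.log n)‖ ≤ v / Real.log x ^ A

/-- the statement of `rtw` -/
def rtw_P [T0] : Prop := ∀ (A B : ℕ),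
    ∃ K' D x0 : ℕ, ∀ x : ℕ, x0 ≤ x → ∀ (d : ℕ) (χ : DirichletCharacter ℂ d) (t : ℝ) (u : ℕ),
    1 ≤ d → (d : ℝ) ≤ Real.log x ^ B → Real.log x ^ K' ≤ |t| → |t| ≤ (x : ℝ) ^ (3 : ℕ) → D * (LL x * L9 x) ≤ Real.log u →
    ‖∑ n ∈ Icc 1 u, ch x χ (n : ZMod (qm x d)) * ee (t * Real.log n)‖ ≤ u / Real.log x ^ A

/-- the statement of `lk_up` -/
def lk_up_P [T0] : Prop := ∀ (k B : ℕ),
    ∃ C : ℝ, 1 ≤ C ∧ ∃ K' x0 : ℕ, ∀ x : ℕ, x0 ≤ x → ∀ (d : ℕ) (χ : DirichletCharacter ℂ d) (s : ℂ),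
    1 ≤ d → (d : ℝ) ≤ Real.log x ^ B → 1 + 1 / (4 * Real.log x) ≤ s.re → s.re ≤ 2 →
    Real.log x ^ K' ≤ |s.im| → |s.im| ≤ 6 * (x : ℝ) ^ (3 : ℕ) →
    ‖Lk (qm x d) (ch x χ) k s‖ ≤ C * L9 x ^ k * LL x ^ (k + 1)

/-- the statement of `zy_up` -/
def zy_up_P [T0] : Prop :=
    ∃ C : ℝ, 1 ≤ C ∧ ∃ x0 : ℕ, ∀ x : ℕ, x0 ≤ x → ∀ (d : ℕ) (s : ℂ), 1 ≤ d → 1 < s.re → s.re ≤ 2 →
    ‖Lk (qm x d) 1 0 s‖ ≤ C * (1 + 1 / ((s.re - 1) * L9 x))

/-- the statement of `lk_low` -/
def lk_low_P [T0] : Prop := ∀ (B : ℕ),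
    ∃ c : ℝ, 0 < c ∧ c ≤ 1 ∧ ∃ K' x0 : ℕ, ∀ x : ℕ, x0 ≤ x → ∀ (d : ℕ) (χ : DirichletCharacter ℂ d) (s : ℂ),
    1 ≤ d → (d : ℝ) ≤ Real.log x ^ B → 1 + 1 / (4 * Real.log x) ≤ s.re → s.re ≤ 2 →
    Real.log x ^ K' ≤ |s.im| → |s.im| ≤ 3 * (x : ℝ) ^ (3 : ℕ) →
    c / LL x ^ 7 ≤ ‖Lk (qm x d) (ch x χ) 0 s‖

/-- the statement of `fk_up` -/
def fk_up_P [T0] : Prop := ∀ (k B : ℕ),
    ∃ C : ℝ, 1 ≤ C ∧ ∃ K' x0 : ℕ, ∀ x : ℕ, x0 ≤ x → ∀ (d : ℕ) (χ : DirichletCharacter ℂ d) (s : ℂ),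
    1 ≤ d → (d : ℝ) ≤ Real.log x ^ B → 1 + 1 / (4 * Real.log x) ≤ s.re → s.re ≤ 2 →
    Real.log x ^ K' ≤ |s.im| → |s.im| ≤ 3 * (x : ℝ) ^ (3 : ℕ) →
    ‖Fk (qm x d) (ch x χ) k s‖ ≤ C * L9 x ^ (k + 1) * LL x ^ (20 * (k + 1))

/-- the statement of `sm_sharp_w` -/
def sm_sharp_w_P [T0] : Prop := ∀ (t1 : ℝ) (ht1' : T0.t < t1) (k κ B : ℕ) (hκ : 1 ≤ κ),
    ∃ C : ℝ, 1 ≤ C ∧ ∃ K' x0 : ℕ, ∀ x : ℕ, x0 ≤ x →
    ∀ (d : ℕ) (χ : DirichletCharacter ℂ d) (t : ℝ) (v z : ℕ), 1 ≤ d → (d : ℝ) ≤ Real.log x ^ B →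
    Real.exp (Real.log x ^ t1) ≤ z → z ≤ x ^ 2 → v ≤ z → Real.log x ^ K' ≤ |t| → |t| ≤ (x : ℝ) ^ (2 : ℕ) →
    ‖∑ n ∈ Icc 1 v, ((Lam n * Real.log n ^ k : ℝ) : ℂ) * ch x χ (n : ZMod (qm x d)) * ee (t * Real.log n)‖ ≤
      C * z * (L9 x ^ (k + 1) * LL x ^ (20 * (k + 1)) * Real.log x ^ (3 * κ) +
        Real.log (2 * z) ^ (k + 1) / Real.log x ^ κ)

end Pool.Agent.H76.VKT

end

section

/-!
# VK SmTwo: smooth sums from a bound on one vertical line

Proof (as in `EHA/SwG.lean`, `smooth_gen`).  `om(n/N) = (1/2π) ∫ KK β τ (N/n)^{β+iτ} dτ` (`om_fourier'` in `PK/Om.lean`), interchange the (absolutely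
convergent) sum and integral: `∑_{n≤N} a_n om(n/N) = (1/2π) ∫ KK β τ N^{β+iτ} LSeries a (β+iτ) dτ`.  `‖KK β τ‖ ≤ 0.4386/(1+τ^2)` (`norm_KK_le`) on `|τ| ≤ T`
and `‖KK β τ‖ ≤ 2/|τ|^3` (`norm_KK_le'`) on `|τ| > T`: `∫_{|τ|>T} 2/|τ|^3 = 2/T^2`.
-/

set_option autoImplicit false

namespace Pool.Agent.H97.VK

open Finset
open Pool.Agent.H91.PK
open MeasureTheory

/-- the summand -/
private noncomputable def smTwo_F (a : ℕ → ℂ) (β : ℝ) (N n : ℕ) (t : ℝ) : ℂ :=
  KK β t * ((N : ℂ) ^ (t * Complex.I) * LSeries.term a ((β : ℂ) + t * Complex.I) n)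

private theorem smTwo_F_eq (a : ℕ → ℂ) (β : ℝ) (N n : ℕ) (hn : 1 ≤ n) (t : ℝ) :
    smTwo_F a β N n t = (a n / (n : ℂ) ^ (β : ℂ)) *
      (KK β t * ((N : ℂ) ^ (t * Complex.I) * (n : ℂ) ^ (-(t * Complex.I)))) := by
  unfold smTwo_F
  have hn0 : (n : ℂ) ≠ 0 := by exact_mod_cast (by omega : n ≠ 0)
  rw [LSeries.term_of_ne_zero (by omega), Complex.cpow_add _ _ hn0, Complex.cpow_neg]
  have h1 : (n : ℂ) ^ (β : ℂ) ≠ 0 := by
    rw [Complex.cpow_def_of_ne_zero hn0]; exact Complex.exp_ne_zero _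
  have h2 : (n : ℂ) ^ ((t : ℂ) * Complex.I) ≠ 0 := by
    rw [Complex.cpow_def_of_ne_zero hn0]; exact Complex.exp_ne_zero _
  field_simp

private theorem smTwo_norm_F (a : ℕ → ℂ) (β : ℝ) (N n : ℕ) (hN : 1 ≤ N) (t : ℝ) :
    ‖smTwo_F a β N n t‖ = ‖LSeries.term a (β : ℂ) n‖ * ‖KK β t‖ := by
  unfold smTwo_F
  rw [norm_mul, norm_mul, Complex.norm_natCast_cpow_of_pos (by omega)]
  have h1 : ((t : ℂ) * Complex.I).re = 0 := by simp
  have h2 : ‖LSeries.term a ((β : ℂ) + t * Complex.I) n‖ = ‖LSeries.term a (β : ℂ) n‖ := by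
    rw [LSeries.norm_term_eq, LSeries.norm_term_eq]
    simp
  rw [h1, Real.rpow_zero, one_mul, h2, mul_comm]

private theorem smTwo_F_cont (a : ℕ → ℂ) (β : ℝ) (hβ : 0 ≤ β) (N n : ℕ) (hN : 1 ≤ N) :
    Continuous (smTwo_F a β N n) := by
  rcases Nat.eq_zero_or_pos n with rfl | hn
  · have : smTwo_F a β N 0 = fun _ => 0 := by
      funext t; unfold smTwo_F; rw [LSeries.term_zero, mul_zero, mul_zero]
    rw [this]; exact continuous_const
  · have : smTwo_F a β N n = fun t : ℝ => (a n / (n : ℂ) ^ (β : ℂ)) *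
      (KK β t * ((N : ℂ) ^ (t * Complex.I) * (n : ℂ) ^ (-(t * Complex.I)))) := by
      funext t; exact smTwo_F_eq a β N n hn t
    rw [this]
    have hn0 : (n : ℂ) ≠ 0 := by exact_mod_cast (by omega : n ≠ 0)
    have hN0 : (N : ℂ) ≠ 0 := by exact_mod_cast (by omega : N ≠ 0)
    refine continuous_const.mul ((KK_continuous β hβ).mul (Continuous.mul ?_ ?_))
    · exact Continuous.const_cpow (by fun_prop) (Or.inl hN0)
    · exact Continuous.const_cpow (by fun_prop) (Or.inl hn0)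

private theorem smTwo_F_int (a : ℕ → ℂ) (β : ℝ) (hβ : 0 ≤ β) (N n : ℕ) (hN : 1 ≤ N) :
    Integrable (smTwo_F a β N n) := by
  refine Integrable.mono' ((KK_integrable β hβ).norm.const_mul ‖LSeries.term a (β : ℂ) n‖)
    (smTwo_F_cont a β hβ N n hN).aestronglyMeasurable (Filter.Eventually.of_forall fun t => ?_)
  rw [smTwo_norm_F a β N n hN t]

private theorem smTwo_identity (a : ℕ → ℂ) (β : ℝ) (hβ : 0 ≤ β) (N : ℕ) (hN : 1 ≤ N)
    (hs : LSeriesSummable a (β : ℂ)) :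
    ∑ n ∈ Icc 1 N, a n * ((om ((n : ℝ) / N) : ℝ) : ℂ) =
      (((N : ℝ) ^ β : ℝ) : ℂ) * (1 / (2 * Real.pi)) *
        ∫ t : ℝ, KK β t * ((N : ℂ) ^ (t * Complex.I) * LSeries a ((β : ℂ) + t * Complex.I)) := by
  have hN0 : (0 : ℝ) < N := by exact_mod_cast hN
  have h1 : HasSum (fun n => ∫ t, smTwo_F a β N n t) (∫ t, ∑' n, smTwo_F a β N n t) := by
    apply hasSum_integral_of_summable_integral_norm (smTwo_F_int a β hβ N · hN)
    have h2 : (fun n => ∫ t, ‖smTwo_F a β N n t‖) =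
        fun n => ‖LSeries.term a (β : ℂ) n‖ * ∫ t, ‖KK β t‖ := by
      funext n
      simp only [smTwo_norm_F a β N n hN]
      rw [integral_const_mul]
    rw [h2]
    exact (Summable.norm hs).mul_right _
  have h3 : ∀ t : ℝ, ∑' n, smTwo_F a β N n t =
      KK β t * ((N : ℂ) ^ (t * Complex.I) * LSeries a ((β : ℂ) + t * Complex.I)) := by
    intro t
    unfold smTwo_F LSeries
    rw [tsum_mul_left, tsum_mul_left]
  simp only [h3] at h1
  have h4 := h1.mul_left ((((N : ℝ) ^ β : ℝ) : ℂ) * (1 / (2 * Real.pi)))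
  have hval : ∀ n : ℕ, 1 ≤ n → (((N : ℝ) ^ β : ℝ) : ℂ) * (1 / (2 * Real.pi)) *
      (∫ t, smTwo_F a β N n t) = a n * ((om ((n : ℝ) / N) : ℝ) : ℂ) := by
    intro n hn
    have hn0 : (0 : ℝ) < n := by exact_mod_cast hn
    have e1 : ∫ t, smTwo_F a β N n t = (a n / (n : ℂ) ^ (β : ℂ)) *
        ∫ t : ℝ, KK β t * ((N : ℂ) ^ (t * Complex.I) * (n : ℂ) ^ (-(t * Complex.I))) := by
      simp only [smTwo_F_eq a β N n hn]
      rw [integral_const_mul]
    rw [e1, om_fourier' β hβ hN hn, Real.div_rpow hN0.le hn0.le]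
    have e2 : (n : ℂ) ^ (β : ℂ) = (((n : ℝ) ^ β : ℝ) : ℂ) := by
      rw [Complex.ofReal_cpow hn0.le]; simp
    rw [e2]
    push_cast
    ring
  have h5 : HasSum (fun n => (((N : ℝ) ^ β : ℝ) : ℂ) * (1 / (2 * Real.pi)) *
      (∫ t, smTwo_F a β N n t)) (∑ n ∈ Icc 1 N, (((N : ℝ) ^ β : ℝ) : ℂ) * (1 / (2 * Real.pi)) *
      (∫ t, smTwo_F a β N n t)) := by
    apply hasSum_sum_of_ne_finset_zero
    intro n hn
    rcases Nat.eq_zero_or_pos n with rfl | hn1
    · have : ∀ t, smTwo_F a β N 0 t = 0 := by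
        intro t; unfold smTwo_F; rw [LSeries.term_zero, mul_zero, mul_zero]
      simp only [this, integral_zero, mul_zero]
    · rw [hval n hn1]
      have hnN : N < n := by
        by_contra h
        exact hn (Finset.mem_Icc.2 ⟨hn1, not_lt.1 h⟩)
      rw [om_eq_zero, Complex.ofReal_zero, mul_zero]
      rw [le_div_iff₀ hN0, one_mul]
      exact_mod_cast hnN.le
  rw [← h5.unique h4]
  apply Finset.sum_congr rfl
  intro n hn
  rw [hval n (Finset.mem_Icc.1 hn).1]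

private theorem smTwo_tail {T t : ℝ} (hT : 1 ≤ T) (ht : T < |t|) :
    2 / |t| ^ 3 ≤ 16 * (1 / T ^ 3 * (1 + ‖t / T‖) ^ (-(3 : ℝ))) := by
  have hT0 : 0 < T := by linarith
  have ht0 : 0 < |t| := by linarith
  have h1 : (1 + ‖t / T‖) ^ (-(3 : ℝ)) = 1 / (1 + |t| / T) ^ 3 := by
    rw [Real.norm_eq_abs, abs_div, abs_of_pos hT0, Real.rpow_neg (by positivity), one_div]
    congr 1
    exact_mod_cast Real.rpow_natCast (1 + |t| / T) 3
  have h2 : 1 / T ^ 3 * (1 / (1 + |t| / T) ^ 3) = 1 / (T + |t|) ^ 3 := by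
    have h3 : T + |t| = T * (1 + |t| / T) := by field_simp
    rw [h3, mul_pow]
    have h4 : (1 + |t| / T) ≠ 0 := by positivity
    field_simp
  rw [h1, h2, mul_one_div, div_le_div_iff₀ (by positivity) (by positivity)]
  have h5 : (T + |t|) ^ 3 ≤ (2 * |t|) ^ 3 := pow_le_pow_left₀ (by positivity) (by linarith) 3
  calc 2 * (T + |t|) ^ 3 ≤ 2 * (2 * |t|) ^ 3 := by linarith
    _ = 16 * |t| ^ 3 := by ring

theorem smooth_two : ∃ C : ℝ, 1 ≤ C ∧ ∀ (a : ℕ → ℂ) (β B1 B2 T : ℝ), 1 < β → β ≤ 2 → LSeriesSummable a (β : ℂ) →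
    0 ≤ B1 → 0 ≤ B2 → 1 ≤ T → (∀ τ : ℝ, |τ| ≤ T → ‖LSeries a (β + τ * Complex.I)‖ ≤ B1) →
    (∀ τ : ℝ, ‖LSeries a (β + τ * Complex.I)‖ ≤ B2) → ∀ N : ℕ, 1 ≤ N →
    ‖∑ n ∈ Icc 1 N, a n * ((om ((n : ℝ) / N) : ℝ) : ℂ)‖ ≤ C * (N : ℝ) ^ β * (B1 + B2 / T ^ 2) := by
  obtain ⟨I3, hI3⟩ : ∃ I3 : ℝ, I3 = ∫ t : ℝ, (1 + ‖t‖) ^ (-(3 : ℝ)) := ⟨_, rfl⟩
  have hI3nn : 0 ≤ I3 := by
    rw [hI3]; exact integral_nonneg (fun t => by positivity)
  have hint3 : Integrable (fun t : ℝ => (1 + ‖t‖) ^ (-(3 : ℝ))) :=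
    integrable_one_add_norm (by simp)
  refine ⟨0.4386 * Real.pi + 16 * I3 + 1, ?_, ?_⟩
  · have := Real.pi_pos
    have h1 : 0 ≤ 0.4386 * Real.pi := by positivity
    linarith
  intro a β B1 B2 T hβ1 hβ2 hs hB1 hB2 hT hb1 hb2 N hN
  have hT0 : 0 < T := by linarith
  have hN0 : (0 : ℝ) < N := by exact_mod_cast (by omega : 0 < N)
  rw [smTwo_identity a β (by linarith) N hN hs]
  have hintT : Integrable (fun t : ℝ => (1 + ‖t / T‖) ^ (-(3 : ℝ))) :=
    hint3.comp_div hT0.ne'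
  have hintval : ∫ t : ℝ, (1 + ‖t / T‖) ^ (-(3 : ℝ)) = T * I3 := by
    have := MeasureTheory.Measure.integral_comp_div (fun t : ℝ => (1 + ‖t‖) ^ (-(3 : ℝ))) T
    rw [this, abs_of_pos hT0, smul_eq_mul, hI3]
  have hbound : ‖∫ t : ℝ, KK β t * ((N : ℂ) ^ (t * Complex.I) *
      LSeries a ((β : ℂ) + t * Complex.I))‖ ≤ ∫ t : ℝ, (B1 * (0.4386 * (1 + t ^ 2)⁻¹) +
        B2 * (16 * (1 / T ^ 3 * (1 + ‖t / T‖) ^ (-(3 : ℝ))))) := by
    apply norm_integral_le_of_norm_le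
      (((integrable_inv_one_add_sq.const_mul 0.4386).const_mul B1).add
        (((hintT.const_mul (1 / T ^ 3)).const_mul 16).const_mul B2))
    refine Filter.Eventually.of_forall fun t => ?_
    rw [norm_mul, norm_mul, Complex.norm_natCast_cpow_of_pos (by omega)]
    have h1 : ((t : ℂ) * Complex.I).re = 0 := by simp
    rw [h1, Real.rpow_zero, one_mul]
    have hnn1 : 0 ≤ B1 * (0.4386 * (1 + t ^ 2)⁻¹) := by positivity
    have hnn2 : 0 ≤ B2 * (16 * (1 / T ^ 3 * (1 + ‖t / T‖) ^ (-(3 : ℝ)))) := by positivity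
    rcases le_or_gt |t| T with ht | ht
    · have h2 : ‖KK β t‖ ≤ 0.4386 * (1 + t ^ 2)⁻¹ := by
        have := norm_KK_le β t (by linarith)
        rwa [div_eq_mul_inv] at this
      have h3 := hb1 t ht
      calc ‖KK β t‖ * ‖LSeries a ((β : ℂ) + t * Complex.I)‖
          ≤ 0.4386 * (1 + t ^ 2)⁻¹ * B1 := by gcongr
        _ = B1 * (0.4386 * (1 + t ^ 2)⁻¹) := by ring
        _ ≤ _ := le_add_of_nonneg_right hnn2
    · have ht0 : t ≠ 0 := by
        intro h
        rw [h, abs_zero] at ht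
        linarith
      have h2 := (norm_KK_le' β t (by linarith) ht0).trans (smTwo_tail hT ht)
      have h3 := hb2 t
      calc ‖KK β t‖ * ‖LSeries a ((β : ℂ) + t * Complex.I)‖
          ≤ 16 * (1 / T ^ 3 * (1 + ‖t / T‖) ^ (-(3 : ℝ))) * B2 := by gcongr
        _ = B2 * (16 * (1 / T ^ 3 * (1 + ‖t / T‖) ^ (-(3 : ℝ)))) := by ring
        _ ≤ _ := le_add_of_nonneg_left hnn1
  rw [integral_add ((integrable_inv_one_add_sq.const_mul 0.4386).const_mul B1)
        (((hintT.const_mul (1 / T ^ 3)).const_mul 16).const_mul B2),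
    integral_const_mul, integral_const_mul, integral_univ_inv_one_add_sq,
    integral_const_mul, integral_const_mul, integral_const_mul, hintval] at hbound
  have hval : B1 * (0.4386 * Real.pi) + B2 * (16 * (1 / T ^ 3 * (T * I3))) ≤
      (0.4386 * Real.pi + 16 * I3 + 1) * (B1 + B2 / T ^ 2) := by
    have h1 : B2 * (16 * (1 / T ^ 3 * (T * I3))) = 16 * I3 * (B2 / T ^ 2) := by
      field_simp
    rw [h1]
    have h2 : 0 ≤ B2 / T ^ 2 := by positivity
    have h3 : 0 ≤ 0.4386 * Real.pi := by positivity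
    have h4 : 0 ≤ 16 * I3 * B1 := by positivity
    have h5 : 0 ≤ 0.4386 * Real.pi * (B2 / T ^ 2) := by positivity
    linarith
  rw [norm_mul, norm_mul]
  have e1 : ‖(((N : ℝ) ^ β : ℝ) : ℂ)‖ = (N : ℝ) ^ β := by
    rw [Complex.norm_real, Real.norm_of_nonneg (by positivity)]
  have e2 : ‖(1 / (2 * Real.pi) : ℂ)‖ = 1 / (2 * Real.pi) := by
    have : (1 / (2 * Real.pi) : ℂ) = ((1 / (2 * Real.pi) : ℝ) : ℂ) := by push_cast; rfl
    rw [this, Complex.norm_real, Real.norm_of_nonneg (by positivity)]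
  rw [e1, e2]
  have hpi0 : 0 < 1 / (2 * Real.pi) := by positivity
  have hpi1 : 1 / (2 * Real.pi) ≤ 1 := by
    rw [div_le_one (by positivity)]
    have := Real.pi_gt_three
    linarith
  have hC0 : 0 ≤ (0.4386 * Real.pi + 16 * I3 + 1) * (B1 + B2 / T ^ 2) := by positivity
  calc (N : ℝ) ^ β * (1 / (2 * Real.pi)) * ‖∫ t : ℝ, KK β t * ((N : ℂ) ^ (t * Complex.I) *
        LSeries a ((β : ℂ) + t * Complex.I))‖
      ≤ (N : ℝ) ^ β * 1 * ((0.4386 * Real.pi + 16 * I3 + 1) * (B1 + B2 / T ^ 2)) := by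
        gcongr
        exact hbound.trans hval
    _ = (0.4386 * Real.pi + 16 * I3 + 1) * (N : ℝ) ^ β * (B1 + B2 / T ^ 2) := by ring

end Pool.Agent.H97.VK

end

section

/-!
# Mrt: the upper bound of Mertens for the sum of the reciprocals of the primes, elementary
-/

set_option autoImplicit false

namespace Pool.Agent.H43.MP

open Finset

private theorem mrt_log {n : ℕ} (hn : 1 ≤ n) :
    ∑ p ∈ (Icc 1 n).filter Nat.Prime, Real.log p / p ≤ Real.log n + Real.log 4 := by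
  have hn0 : (0 : ℝ) < n := by exact_mod_cast hn
  have h1 : ∑ k ∈ Ioc 0 n, Real.log k = ∑ d ∈ Ioc 0 n, ArithmeticFunction.vonMangoldt d * ((n / d : ℕ) : ℝ) := by
    rw [← ArithmeticFunction.sum_Ioc_mul_zeta_eq_sum, ArithmeticFunction.vonMangoldt_mul_zeta]
    rfl
  have h2 : ∑ k ∈ Ioc 0 n, Real.log (k : ℝ) ≤ n * Real.log n := by
    calc ∑ k ∈ Ioc 0 n, Real.log (k : ℝ) ≤ ∑ _k ∈ Ioc 0 n, Real.log n := by
          refine sum_le_sum fun k hk => ?_
          rw [mem_Ioc] at hk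
          exact Real.log_le_log (by exact_mod_cast hk.1) (by exact_mod_cast hk.2)
      _ = n * Real.log n := by
          rw [sum_const, Nat.card_Ioc, nsmul_eq_mul]
          simp
  have h3 : ∑ p ∈ (Icc 1 n).filter Nat.Prime, Real.log p ≤ Real.log 4 * n := by
    have h := Chebyshev.theta_le_log4_mul_x (x := (n : ℝ)) (by positivity)
    unfold Chebyshev.theta at h
    rw [Nat.floor_natCast] at h
    refine le_trans (le_of_eq ?_) h
    refine sum_congr ?_ fun _ _ => rfl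
    ext p
    simp only [mem_filter, mem_Icc, mem_Ioc]
    constructor
    · rintro ⟨⟨a, b⟩, c⟩
      exact ⟨⟨by omega, b⟩, c⟩
    · rintro ⟨⟨a, b⟩, c⟩
      exact ⟨⟨by omega, b⟩, c⟩
  have h4 : n * ∑ p ∈ (Icc 1 n).filter Nat.Prime, Real.log p / p ≤
      ∑ d ∈ Ioc 0 n, ArithmeticFunction.vonMangoldt d * ((n / d : ℕ) : ℝ) +
        ∑ p ∈ (Icc 1 n).filter Nat.Prime, Real.log p := by
    have h5 : ∑ p ∈ (Icc 1 n).filter Nat.Prime, ArithmeticFunction.vonMangoldt p * ((n / p : ℕ) : ℝ) ≤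
        ∑ d ∈ Ioc 0 n, ArithmeticFunction.vonMangoldt d * ((n / d : ℕ) : ℝ) := by
      refine sum_le_sum_of_subset_of_nonneg ?_ fun d _ _ =>
        mul_nonneg ArithmeticFunction.vonMangoldt_nonneg (Nat.cast_nonneg _)
      intro p hp
      simp only [mem_filter, mem_Icc] at hp
      rw [mem_Ioc]
      omega
    refine le_trans ?_ (add_le_add_left h5 _)
    rw [mul_sum, ← sum_add_distrib]
    refine sum_le_sum fun p hp => ?_
    rw [mem_filter, mem_Icc] at hp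
    have hp0 : (0 : ℝ) < p := by exact_mod_cast hp.1.1
    rw [ArithmeticFunction.vonMangoldt_apply_prime hp.2]
    have hlp : 0 ≤ Real.log p := Real.log_nonneg (by exact_mod_cast hp.1.1)
    have h6 : (n : ℝ) / p ≤ ((n / p : ℕ) : ℝ) + 1 := by
      rw [div_le_iff₀ hp0]
      have h7 : n < (n / p + 1) * p := by
        have := Nat.lt_div_mul_add (a := n) (b := p) hp.1.1
        rw [add_mul, one_mul]
        exact this
      exact_mod_cast h7.le
    calc (n : ℝ) * (Real.log p / p) = Real.log p * (n / p) := by ring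
      _ ≤ Real.log p * (((n / p : ℕ) : ℝ) + 1) := mul_le_mul_of_nonneg_left h6 hlp
      _ = Real.log p * ((n / p : ℕ) : ℝ) + Real.log p := by ring
  rw [← h1] at h4
  have h8 : n * ∑ p ∈ (Icc 1 n).filter Nat.Prime, Real.log p / p ≤ n * (Real.log n + Real.log 4) := by
    linarith
  exact le_of_mul_le_mul_left h8 hn0

private theorem mrt_step (y : ℕ) (hy : 2 ≤ y) :
    ∑ p ∈ (Icc 1 y).filter Nat.Prime, (1 : ℝ) / p -
      (∑ p ∈ (Icc 1 y).filter Nat.Prime, Real.log p / p - Real.log y - Real.log 4) / Real.log y ≤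
      Real.log (Real.log y) + (2 + Real.log 4 / Real.log 2 - Real.log (Real.log 2)) := by
  have hl2 : 0 < Real.log 2 := Real.log_pos (by norm_num)
  induction y, hy using Nat.le_induction with
  | base =>
    have e : (Icc 1 2).filter Nat.Prime = {2} := by decide
    rw [e, sum_singleton, sum_singleton]
    push_cast
    have h1 : (1 : ℝ) / 2 - (Real.log 2 / 2 - Real.log 2 - Real.log 4) / Real.log 2 =
        1 + Real.log 4 / Real.log 2 := by
      field_simp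
      ring
    rw [h1]
    linarith
  | succ y hy ih =>
    have hL : 0 < Real.log y := Real.log_pos (by exact_mod_cast (by omega : 1 < y))
    have hLL : Real.log y ≤ Real.log ((y + 1 : ℕ) : ℝ) :=
      Real.log_le_log (by exact_mod_cast (by omega : 0 < y)) (by exact_mod_cast (by omega))
    have hA := mrt_log (n := y) (by omega)
    obtain ⟨L, hLd⟩ : ∃ L, L = Real.log y := ⟨_, rfl⟩
    obtain ⟨M, hMd⟩ : ∃ M, M = Real.log ((y + 1 : ℕ) : ℝ) := ⟨_, rfl⟩
    obtain ⟨A, hAd⟩ : ∃ A, A = ∑ p ∈ (Icc 1 y).filter Nat.Prime, Real.log p / p := ⟨_, rfl⟩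
    obtain ⟨S, hSd⟩ : ∃ S, S = ∑ p ∈ (Icc 1 y).filter Nat.Prime, (1 : ℝ) / p := ⟨_, rfl⟩
    rw [← hLd, ← hAd, ← hSd] at ih
    rw [← hLd] at hL
    rw [← hLd, ← hMd] at hLL
    rw [← hLd, ← hAd] at hA
    have hM : 0 < M := lt_of_lt_of_le hL hLL
    have hlog : 1 - L / M ≤ Real.log M - Real.log L := by
      have h := Real.one_sub_inv_le_log_of_pos (div_pos hM hL)
      rw [Real.log_div hM.ne' hL.ne', inv_div] at h
      exact h
    have key : (A - Real.log 4) * (1 / L - 1 / M) ≤ 1 - L / M := by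
      have h1 : 0 ≤ 1 / L - 1 / M := sub_nonneg.2 (one_div_le_one_div_of_le hL hLL)
      calc (A - Real.log 4) * (1 / L - 1 / M) ≤ L * (1 / L - 1 / M) :=
            mul_le_mul_of_nonneg_right (by linarith) h1
        _ = 1 - L / M := by field_simp
    have hfin : ∀ S' A' : ℝ, (S' - (A' - M - Real.log 4) / M) =
        (S - (A - L - Real.log 4) / L) + (A - Real.log 4) * (1 / L - 1 / M) →
        S' - (A' - M - Real.log 4) / M ≤
          Real.log M + (2 + Real.log 4 / Real.log 2 - Real.log (Real.log 2)) := by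
      intro S' A' h
      rw [h]
      linarith
    rw [← hMd]
    apply hfin
    have hins : Icc 1 y.succ = insert y.succ (Icc 1 y) := by
      ext k
      rw [mem_insert, mem_Icc, mem_Icc]
      omega
    rw [← Nat.succ_eq_add_one, hins, Finset.filter_insert]
    have hni : y.succ ∉ (Icc 1 y).filter Nat.Prime := by
      rw [mem_filter, mem_Icc]
      omega
    by_cases hp : y.succ.Prime
    · rw [if_pos hp, sum_insert hni, sum_insert hni, ← hAd, ← hSd]
      rw [Nat.succ_eq_add_one, ← hMd]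
      have hy0 : ((y + 1 : ℕ) : ℝ) ≠ 0 := by positivity
      field_simp
      ring
    · rw [if_neg hp, ← hAd, ← hSd]
      field_simp
      ring

theorem mrt_upper : ∃ C : ℝ, 0 < C ∧ ∀ y : ℕ, 2 ≤ y →
    ∑ p ∈ (Icc 1 y).filter Nat.Prime, (1 : ℝ) / p ≤ Real.log (Real.log y) + C := by
  have hl2 : 0 < Real.log 2 := Real.log_pos (by norm_num)
  have hl4 : 0 < Real.log 4 := Real.log_pos (by norm_num)
  have hll : Real.log (Real.log 2) ≤ 0 := by
    refine Real.log_nonpos hl2.le ?_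
    have := Real.log_two_lt_d9
    linarith
  refine ⟨2 + Real.log 4 / Real.log 2 - Real.log (Real.log 2), ?_, fun y hy => ?_⟩
  · have : 0 < Real.log 4 / Real.log 2 := div_pos hl4 hl2
    linarith
  · have h1 := mrt_step y hy
    have hL : 0 < Real.log y := Real.log_pos (by exact_mod_cast (by omega : 1 < y))
    have h2 := mrt_log (n := y) (by omega)
    have h3 : (∑ p ∈ (Icc 1 y).filter Nat.Prime, Real.log p / p - Real.log y - Real.log 4) / Real.log y ≤ 0 :=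
      div_nonpos_of_nonpos_of_nonneg (by linarith) hL.le
    linarith

end Pool.Agent.H43.MP

end

section

/-!
# VK Lin1: power sums modulo `p^m` determine the tuple up to order

Proof.  Newton's identities (Mathlib `MvPolynomial.mul_esymm_eq_sum`, or `MvPolynomial.psum`/`esymm` identities
specialised by `MvPolynomial.aeval`): `j e_j = ∑ ± e_{j-i} p_i`; `j ≤ k < p` is a unit in `ZMod (p^m)`, so the elementary symmetric
functions of `x` and `y` agree, hence `∏ (T - x_i) = ∏ (T - y_i)` as polynomials over `ZMod (p^m)` (Vieta,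
`Multiset.prod_X_sub_X_eq_sum_esymm` or `MvPolynomial.prod_C_add_X_eq_sum_esymm`).  Put `T = y_i`: `∏_{i'} (y_i - x_{i'}) = 0`.
If all factors but one are units the remaining one is `0`.  A factor `y_i - x_{i'}` is a unit iff it is not divisible by `p`
(`ZMod (p^m)` is local with maximal ideal `(p)`); two factors `y_i - x_{i'}`, `y_i - x_{i''}` cannot both be nonunits because their
difference `x_{i''} - x_{i'}` is a unit (in a local ring the sum of nonunits is a nonunit).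
`lin_card`: fix one member `x0` of the set; every member `y` is `x0 ∘ σ` with `σ : Fin k → Fin k`; `σ` is injective as `y` is (differences are
units and the ring is nontrivial), so it is one of the `k!` permutations.
-/

set_option autoImplicit false

namespace Pool.Agent.H97.VK

open Finset

private theorem Lin1_esymm {R : Type*} [CommRing R] {k : ℕ} (x y : Fin k → R)
    (hc : ∀ j : ℕ, 1 ≤ j → j ≤ k → ∀ a b : R, (j : R) * a = (j : R) * b → a = b)
    (h : ∀ j, 1 ≤ j → j ≤ k → ∑ i, x i ^ j = ∑ i, y i ^ j) (n : ℕ) (hn : n ≤ k) :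
    (univ.val.map x).esymm n = (univ.val.map y).esymm n := by
  have hN : ∀ (z : Fin k → R) (n : ℕ), (n : R) * (univ.val.map z).esymm n = (-1) ^ (n + 1) *
      ∑ a ∈ antidiagonal n with a.1 < n, (-1) ^ a.1 * (univ.val.map z).esymm a.1 *
        ∑ i, z i ^ a.2 := by
    intro z n
    have h1 := congrArg (MvPolynomial.aeval z) (MvPolynomial.mul_esymm_eq_sum (Fin k) R n)
    simp only [map_mul, map_natCast, map_pow, map_neg, map_one, map_sum,
      MvPolynomial.aeval_esymm_eq_multiset_esymm, MvPolynomial.psum, MvPolynomial.aeval_X] at h1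
    exact h1
  induction n using Nat.strong_induction_on with
  | _ n ih =>
    rcases Nat.eq_zero_or_pos n with h0 | h0
    · subst h0
      simp [Multiset.esymm]
    · refine hc n h0 hn _ _ ?_
      rw [hN x n, hN y n]
      congr 1
      refine sum_congr rfl fun a ha => ?_
      rw [mem_filter, HasAntidiagonal.mem_antidiagonal] at ha
      rw [ih a.1 ha.2 (by omega), h a.2 (by omega) (by omega)]

private theorem Lin1_prod {R : Type*} [CommRing R] {k : ℕ} (x y : Fin k → R)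
    (hc : ∀ j : ℕ, 1 ≤ j → j ≤ k → ∀ a b : R, (j : R) * a = (j : R) * b → a = b)
    (h : ∀ j, 1 ≤ j → j ≤ k → ∑ i, x i ^ j = ∑ i, y i ^ j) :
    ((univ.val.map x).map fun t => Polynomial.X - Polynomial.C t).prod =
      ((univ.val.map y).map fun t => Polynomial.X - Polynomial.C t).prod := by
  rw [Multiset.prod_X_sub_X_eq_sum_esymm, Multiset.prod_X_sub_X_eq_sum_esymm]
  have hx : Multiset.card (univ.val.map x) = k := by simp
  have hy : Multiset.card (univ.val.map y) = k := by simp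
  rw [hx, hy]
  refine sum_congr rfl fun j hj => ?_
  rw [mem_range] at hj
  rw [Lin1_esymm x y hc h j (by omega)]

private theorem Lin1_eval {R : Type*} [CommRing R] {k : ℕ} (x y : Fin k → R)
    (hc : ∀ j : ℕ, 1 ≤ j → j ≤ k → ∀ a b : R, (j : R) * a = (j : R) * b → a = b)
    (h : ∀ j, 1 ≤ j → j ≤ k → ∑ i, x i ^ j = ∑ i, y i ^ j) (i : Fin k) :
    ∏ i', (y i - x i') = 0 := by
  have h1 := congrArg (Polynomial.eval (y i)) (Lin1_prod x y hc h)
  have h2 : ∀ z : Fin k → R, Polynomial.eval (y i)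
      ((univ.val.map z).map fun t => Polynomial.X - Polynomial.C t).prod = ∏ i', (y i - z i') := by
    intro z
    rw [Multiset.map_map, Finset.prod_map_val, Polynomial.eval_prod]
    refine prod_congr rfl fun i' _ => ?_
    simp
  rw [h2, h2] at h1
  rw [h1]
  exact prod_eq_zero (mem_univ i) (sub_self _)

private theorem Lin1_unit {p m : ℕ} (hp : p.Prime) (hm : 1 ≤ m) (a : ZMod (p ^ m)) :
    IsUnit a ↔ ZMod.castHom (dvd_pow_self p (by omega : m ≠ 0)) (ZMod p) a ≠ 0 := by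
  have : NeZero (p ^ m) := ⟨(pow_pos hp.pos m).ne'⟩
  obtain ⟨v, rfl⟩ : ∃ v : ℕ, (v : ZMod (p ^ m)) = a := ⟨a.val, ZMod.natCast_zmod_val a⟩
  rw [ZMod.isUnit_iff_coprime, map_natCast, Ne, ZMod.natCast_eq_zero_iff,
    Nat.coprime_pow_right_iff (by omega), Nat.coprime_comm, hp.coprime_iff_not_dvd]

private theorem Lin1_nontriv {p m : ℕ} (hp : p.Prime) (hm : 1 ≤ m) : Nontrivial (ZMod (p ^ m)) := by
  have : Fact (1 < p ^ m) := ⟨Nat.one_lt_pow (by omega) hp.one_lt⟩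
  infer_instance

private theorem Lin1_cancel {k p m : ℕ} (hp : p.Prime) (hk : k < p) (j : ℕ)
    (h1 : 1 ≤ j) (h2 : j ≤ k) (a b : ZMod (p ^ m))
    (h : (j : ZMod (p ^ m)) * a = (j : ZMod (p ^ m)) * b) : a = b := by
  have h3 : IsUnit (j : ZMod (p ^ m)) := by
    rw [ZMod.isUnit_iff_coprime]
    refine Nat.Coprime.pow_right m ?_
    rw [Nat.coprime_comm, hp.coprime_iff_not_dvd]
    exact fun h4 => absurd (Nat.le_of_dvd (by omega) h4) (by omega)
  exact h3.mul_left_cancel h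

/-- equal multisets: the tuples differ by a permutation -/
private theorem Lin1_perm {α : Type*} {k : ℕ} (x y : Fin k → α)
    (h : univ.val.map x = univ.val.map y) : ∃ σ : Equiv.Perm (Fin k), y = x ∘ σ := by
  classical
  have h1 : ∀ c, Fintype.card {i // y i = c} = Fintype.card {i // x i = c} := by
    intro c
    rw [Fintype.card_subtype, Fintype.card_subtype]
    have h2 := congrArg (Multiset.count c) h
    rw [Multiset.count_map, Multiset.count_map] at h2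
    have h3 : ∀ z : Fin k → α, #{i | z i = c} = (Multiset.filter (fun i => c = z i) univ.val).card := by
      intro z
      rw [← Finset.filter_val, Finset.card_val]
      congr 1
      ext i
      simp [eq_comm]
    rw [h3, h3, h2]
  refine ⟨Equiv.ofFiberEquiv (fun c => Fintype.equivOfCardEq (h1 c)), ?_⟩
  funext i
  exact (Equiv.ofFiberEquiv_map (fun c => Fintype.equivOfCardEq (h1 c)) i).symm

theorem lin_perm {k p m : ℕ} (hp : p.Prime) (hk : k < p) (hm : 1 ≤ m) (x y : Fin k → ZMod (p ^ m))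
    (h : ∀ j, 1 ≤ j → j ≤ k → ∑ i, x i ^ j = ∑ i, y i ^ j)
    (hinj : ∀ i i', i ≠ i' → IsUnit (x i - x i')) (i : Fin k) : ∃ i', y i = x i' := by
  have := Lin1_nontriv hp hm
  have h0 := Lin1_eval x y (fun j h1 h2 => Lin1_cancel hp hk j h1 h2) h i
  have h1 : ∃ i', ¬ IsUnit (y i - x i') := by
    by_contra hcon
    push Not at hcon
    have h2 : IsUnit (∏ i', (y i - x i')) := by
      exact IsUnit.prod_univ_iff.2 hcon
    rw [h0] at h2
    exact not_isUnit_zero h2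
  obtain ⟨i', hi'⟩ := h1
  refine ⟨i', ?_⟩
  have h3 : ∀ i'', i'' ≠ i' → IsUnit (y i - x i'') := by
    intro i'' hne
    by_contra hcon
    have h4 := hinj i'' i' hne
    rw [Lin1_unit hp hm] at hi' hcon h4
    push Not at hi' hcon
    apply h4
    have h5 : x i'' - x i' = (y i - x i') - (y i - x i'') := by ring
    rw [h5, map_sub, hi', hcon, sub_zero]
  have h6 : (y i - x i') * ∏ i'' ∈ univ.erase i', (y i - x i'') = 0 := by
    rw [mul_prod_erase univ (fun i'' => y i - x i'') (mem_univ i')]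
    exact h0
  have h7 : IsUnit (∏ i'' ∈ univ.erase i', (y i - x i'')) := by
    rw [IsUnit.prod_iff]
    exact fun i'' hi'' => h3 i'' (ne_of_mem_erase hi'')
  have h8 := (h7.mul_left_eq_zero).1 h6
  exact sub_eq_zero.1 h8

theorem lin_card {k p m : ℕ} (hp : p.Prime) (hk : k < p) (hm : 1 ≤ m) (c : ℕ → ZMod (p ^ m))
    (X : Finset (Fin k → ZMod (p ^ m)))
    (hX : ∀ x ∈ X, (∀ j, 1 ≤ j → j ≤ k → ∑ i, x i ^ j = c j) ∧ ∀ i i', i ≠ i' → IsUnit (x i - x i')) :
    X.card ≤ k.factorial := by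
  classical
  have := Lin1_nontriv hp hm
  rcases X.eq_empty_or_nonempty with h0 | ⟨x0, hx0⟩
  · rw [h0, card_empty]; exact Nat.zero_le _
  · have h1 : X ⊆ (univ : Finset (Equiv.Perm (Fin k))).image (fun σ : Equiv.Perm (Fin k) => x0 ∘ ⇑σ) := by
      intro y hy
      rw [mem_image]
      have h2 : ∀ i, ∃ i', y i = x0 i' := fun i => lin_perm hp hk hm x0 y
        (fun j h1 h2 => by rw [(hX x0 hx0).1 j h1 h2, (hX y hy).1 j h1 h2]) (hX x0 hx0).2 i
      choose σ hσ using h2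
      have h3 : Function.Injective σ := by
        intro i i' h4
        by_contra hne
        have h5 := (hX y hy).2 i i' hne
        rw [hσ i, hσ i', h4, sub_self] at h5
        exact not_isUnit_zero h5
      refine ⟨Equiv.ofBijective σ (Finite.injective_iff_bijective.1 h3), mem_univ _, ?_⟩
      funext i
      exact (hσ i).symm
    calc X.card ≤ ((univ : Finset (Equiv.Perm (Fin k))).image (fun σ : Equiv.Perm (Fin k) => x0 ∘ ⇑σ)).card :=
          card_le_card h1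
      _ ≤ (univ : Finset (Equiv.Perm (Fin k))).card := card_image_le
      _ = k.factorial := by rw [card_univ, Fintype.card_perm, Fintype.card_fin]

/-- the same over the integers: `J_{k,k}(M) ≤ k! M^k` (here no condition on the differences is needed: `ℤ` is a domain, the multisets of
the `x_i` and of the `y_i` agree, so `y = x ∘ σ` with a permutation `σ`) -/
theorem jv_base (k M : ℕ) : JV k k M ≤ k.factorial * M ^ k := by
  classical
  have h1 : ((box k M) ×ˢ (box k M)).filter (fun w => pv k w.1 = pv k w.2) ⊆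
      ((box k M) ×ˢ (univ : Finset (Equiv.Perm (Fin k)))).image (fun w : (Fin k → ℕ) × Equiv.Perm (Fin k) => (w.1, w.1 ∘ ⇑w.2)) := by
    intro w hw
    rw [mem_filter, mem_product] at hw
    obtain ⟨⟨hw1, hw2⟩, hw3⟩ := hw
    have h2 : ∀ j, 1 ≤ j → j ≤ k → ∑ i, (w.1 i : ℤ) ^ j = ∑ i, (w.2 i : ℤ) ^ j := by
      intro j hj1 hj2
      have h3 := congrFun hw3 ⟨j - 1, by omega⟩
      unfold pv at h3
      have h4 : j - 1 + 1 = j := by omega
      simp only [h4] at h3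
      exact h3
    have h5 := Lin1_prod (fun i => (w.1 i : ℤ)) (fun i => (w.2 i : ℤ)) (fun j hj1 _ a b hab =>
      mul_left_cancel₀ (by exact_mod_cast (by omega : j ≠ 0)) hab) h2
    have h6 := congrArg Polynomial.roots h5
    rw [Polynomial.roots_multiset_prod_X_sub_C, Polynomial.roots_multiset_prod_X_sub_C] at h6
    obtain ⟨σ, hσ⟩ := Lin1_perm _ _ h6
    rw [mem_image]
    refine ⟨(w.1, σ), mem_product.2 ⟨hw1, mem_univ _⟩, ?_⟩
    refine Prod.ext rfl ?_
    funext i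
    have h7 := congrFun hσ i
    simp only [Function.comp_apply] at h7 ⊢
    exact_mod_cast h7.symm
  unfold JV
  calc _ ≤ _ := card_le_card h1
    _ ≤ ((box k M) ×ˢ (univ : Finset (Equiv.Perm (Fin k)))).card := card_image_le
    _ = k.factorial * M ^ k := by
        rw [card_product, card_univ, Fintype.card_perm, Fintype.card_fin, box,
          Fintype.card_piFinset]
        simp [mul_comm]

end Pool.Agent.H97.VK

end

section

/-!
# VK Lin2: Linnik's lemma

Proof.  Map `x` to the tuple `(x_i - b) mod p^k` (injective on the box because `M ≤ p^k`).  The power sums `S_j(x) = ∑ (x_i - b)^j` are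
`≡ c_j mod p^j`, so their residues modulo `p^k` lie in a set of `p^{k-j}` residues; altogether `∏_{j=1}^k p^{k-j} = p^{k(k-1)/2}` vectors of
residues mod `p^k`.  For each vector at most `k!` tuples (`lin_card` with `m = k`; differences of the coordinates are not divisible by `p`,
hence units).  (`k = 0`: the box has one element.)
-/

set_option autoImplicit false

namespace Pool.Agent.H97.VK

open Finset

theorem lin_count (k p M b : ℕ) (c : ℕ → ℤ) (hp : p.Prime) (hk : k < p) (hM : M ≤ p ^ k) :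
    ((inj k p M).filter (fun x => ∀ j ∈ Icc 1 k,
      ((p : ℤ) ^ j) ∣ (∑ i, ((x i : ℤ) - b) ^ j) - c j)).card ≤ k.factorial * p ^ (k * (k - 1) / 2) := by
  rcases Nat.eq_zero_or_pos k with hk0 | hkpos
  · subst hk0
    have h1 : ((inj 0 p M).filter (fun x => ∀ j ∈ Icc 1 0,
      ((p : ℤ) ^ j) ∣ (∑ i, ((x i : ℤ) - b) ^ j) - c j)).card ≤ 1 := by
      apply Finset.card_le_one.2
      intro a _ b _
      exact Subsingleton.elim _ _
    simpa using h1
  set S := (inj k p M).filter (fun x => ∀ j ∈ Icc 1 k,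
      ((p : ℤ) ^ j) ∣ (∑ i, ((x i : ℤ) - b) ^ j) - c j) with hS
  let φ : (Fin k → ℕ) → (Fin k → ZMod (p ^ k)) := fun x j =>
    ∑ i, (((x i : ℤ) - b : ℤ) : ZMod (p ^ k)) ^ ((j : ℕ) + 1)
  let V : Fin k → Finset (ZMod (p ^ k)) := fun j =>
    (range (p ^ (k - 1 - (j : ℕ)))).image
      (fun t : ℕ => ((c ((j : ℕ) + 1) + (p : ℤ) ^ ((j : ℕ) + 1) * (t : ℤ) : ℤ) : ZMod (p ^ k)))
  have himg : S.image φ ⊆ Fintype.piFinset V := by
    intro v hv
    obtain ⟨x, hx, rfl⟩ := Finset.mem_image.1 hv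
    rw [Fintype.mem_piFinset]
    intro j
    have hx2 := (Finset.mem_filter.1 hx).2 ((j : ℕ) + 1)
      (Finset.mem_Icc.2 ⟨by omega, by have := j.2; omega⟩)
    obtain ⟨q, hq⟩ := hx2
    refine Finset.mem_image.2 ⟨(q % ((p ^ (k - 1 - (j : ℕ)) : ℕ) : ℤ)).toNat, ?_, ?_⟩
    · rw [Finset.mem_range]
      have hpos : (0 : ℤ) < ((p ^ (k - 1 - (j : ℕ)) : ℕ) : ℤ) := by
        exact_mod_cast pow_pos hp.pos _
      have h1 := Int.emod_lt_of_pos q hpos
      have h2 := Int.emod_nonneg q hpos.ne'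
      omega
    · have hpos : (0 : ℤ) < ((p ^ (k - 1 - (j : ℕ)) : ℕ) : ℤ) := by
        exact_mod_cast pow_pos hp.pos _
      have h2 := Int.emod_nonneg q hpos.ne'
      have h3 : (((q % ((p ^ (k - 1 - (j : ℕ)) : ℕ) : ℤ)).toNat : ℕ) : ℤ)
          = q % ((p ^ (k - 1 - (j : ℕ)) : ℕ) : ℤ) := Int.toNat_of_nonneg h2
      have h4 : (∑ i, (((x i : ℤ) - b : ℤ) : ZMod (p ^ k)) ^ ((j : ℕ) + 1))
          = (((∑ i, ((x i : ℤ) - b) ^ ((j : ℕ) + 1)) : ℤ) : ZMod (p ^ k)) := by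
        push_cast
        rfl
      show _ = (∑ i, (((x i : ℤ) - b : ℤ) : ZMod (p ^ k)) ^ ((j : ℕ) + 1))
      rw [h4, ZMod.intCast_eq_intCast_iff_dvd_sub]
      rw [h3]
      have h5 : (∑ i, ((x i : ℤ) - b) ^ ((j : ℕ) + 1))
          = c ((j : ℕ) + 1) + (p : ℤ) ^ ((j : ℕ) + 1) * q := by linarith
      rw [h5]
      have h6 : c ((j : ℕ) + 1) + (p : ℤ) ^ ((j : ℕ) + 1) * q
          - (c ((j : ℕ) + 1) + (p : ℤ) ^ ((j : ℕ) + 1) * (q % ((p ^ (k - 1 - (j : ℕ)) : ℕ) : ℤ)))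
          = (p : ℤ) ^ ((j : ℕ) + 1) * (q - q % ((p ^ (k - 1 - (j : ℕ)) : ℕ) : ℤ)) := by ring
      rw [h6]
      have h7 : ((p ^ k : ℕ) : ℤ) = (p : ℤ) ^ ((j : ℕ) + 1) * ((p ^ (k - 1 - (j : ℕ)) : ℕ) : ℤ) := by
        push_cast
        rw [← pow_add]
        congr 1
        have := j.2
        omega
      rw [h7]
      exact mul_dvd_mul_left _ (Int.dvd_self_sub_emod)
  have hcardV : (Fintype.piFinset V).card ≤ p ^ (k * (k - 1) / 2) := by
    rw [Fintype.card_piFinset]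
    calc ∏ j : Fin k, (V j).card ≤ ∏ j : Fin k, p ^ (k - 1 - (j : ℕ)) := by
          apply Finset.prod_le_prod'
          intro j _
          exact (Finset.card_image_le).trans (by rw [Finset.card_range])
      _ = p ^ (k * (k - 1) / 2) := by
          rw [Finset.prod_pow_eq_pow_sum]
          congr 1
          rw [Fin.sum_univ_eq_sum_range (fun j => k - 1 - j) k, Finset.sum_range_reflect (fun j => j) k,
            Finset.sum_range_id]
  have hfib : ∀ v ∈ S.image φ, (S.filter (fun x => φ x = v)).card ≤ k.factorial := by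
    intro v hv
    obtain ⟨x0, hx0, hx0v⟩ := Finset.mem_image.1 hv
    let ψ : (Fin k → ℕ) → (Fin k → ZMod (p ^ k)) := fun x i => (((x i : ℤ) - b : ℤ) : ZMod (p ^ k))
    have hinj : Set.InjOn ψ (S.filter (fun x => φ x = v) : Finset _) := by
      intro x hx y hy hxy
      have hx1 := (Finset.mem_filter.1 (Finset.mem_coe.1 hx)).1
      have hy1 := (Finset.mem_filter.1 (Finset.mem_coe.1 hy)).1
      have hx2 := (Finset.mem_filter.1 (Finset.mem_filter.1 hx1).1).1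
      have hy2 := (Finset.mem_filter.1 (Finset.mem_filter.1 hy1).1).1
      funext i
      have hxi := Finset.mem_Icc.1 (Fintype.mem_piFinset.1 hx2 i)
      have hyi := Finset.mem_Icc.1 (Fintype.mem_piFinset.1 hy2 i)
      have h1 := congrFun hxy i
      have h2 : (((x i : ℤ) - b : ℤ) : ZMod (p ^ k)) = (((y i : ℤ) - b : ℤ) : ZMod (p ^ k)) := h1
      rw [ZMod.intCast_eq_intCast_iff_dvd_sub] at h2
      have h3 : ((y i : ℤ) - b - ((x i : ℤ) - b)) = (y i : ℤ) - x i := by ring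
      rw [h3] at h2
      have hM' : (M : ℤ) ≤ ((p ^ k : ℕ) : ℤ) := by exact_mod_cast hM
      have h4 : |(y i : ℤ) - x i| < ((p ^ k : ℕ) : ℤ) := by
        rw [abs_lt]
        constructor
        · have : (x i : ℤ) ≤ M := by exact_mod_cast hxi.2
          have : (1 : ℤ) ≤ y i := by exact_mod_cast hyi.1
          linarith
        · have : (y i : ℤ) ≤ M := by exact_mod_cast hyi.2
          have : (1 : ℤ) ≤ x i := by exact_mod_cast hxi.1
          linarith
      have h5 := Int.eq_zero_of_abs_lt_dvd h2 h4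
      have h6 : (y i : ℤ) = x i := by linarith
      exact_mod_cast h6.symm
    rw [← Finset.card_image_of_injOn hinj]
    apply lin_card hp hk hkpos (fun j => ∑ i, ψ x0 i ^ j)
    intro w hw
    obtain ⟨x, hx, rfl⟩ := Finset.mem_image.1 hw
    obtain ⟨hx1, hxv⟩ := Finset.mem_filter.1 hx
    constructor
    · intro j hj1 hjk
      have h1 : φ x = φ x0 := by rw [hxv, hx0v]
      have h2 := congrFun h1 ⟨j - 1, by omega⟩
      have h3 : (∑ i, (((x i : ℤ) - b : ℤ) : ZMod (p ^ k)) ^ ((j - 1) + 1))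
          = ∑ i, (((x0 i : ℤ) - b : ℤ) : ZMod (p ^ k)) ^ ((j - 1) + 1) := h2
      rw [Nat.sub_add_cancel hj1] at h3
      exact h3
    · intro i i' hii
      have hx2 := (Finset.mem_filter.1 (Finset.mem_filter.1 hx1).1).2 i i' hii
      have h1 : ψ x i - ψ x i' = (((x i : ℤ) - x i' : ℤ) : ZMod (p ^ k)) := by
        show (((x i : ℤ) - b : ℤ) : ZMod (p ^ k)) - (((x i' : ℤ) - b : ℤ) : ZMod (p ^ k)) = _
        push_cast
        ring
      rw [h1, ZMod.coe_int_isUnit_iff_isCoprime]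
      rw [Nat.cast_pow]
      apply IsCoprime.pow_left
      rw [(Nat.prime_iff_prime_int.1 hp).coprime_iff_not_dvd]
      intro hdvd
      apply hx2
      have h2 : (x i' : ℤ) ≡ (x i : ℤ) [ZMOD p] := (Int.modEq_iff_dvd).2 hdvd
      have h3 : x i' ≡ x i [MOD p] := by exact_mod_cast h2
      exact h3.symm
  calc S.card ≤ k.factorial * (S.image φ).card := Finset.card_le_mul_card_image S _ hfib
    _ ≤ k.factorial * p ^ (k * (k - 1) / 2) :=
        Nat.mul_le_mul_left _ ((Finset.card_le_card himg).trans hcardV)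

end Pool.Agent.H97.VK

end

section

/-!
# GB PbCard: a lower bound for the number of primes in `(P, 2P]` (elementary, central binomial coefficient)
-/

set_option autoImplicit false

namespace Pool.Agent.H76.GB

open Finset
open Pool.Agent.H35.W

private theorem pbcard_binom (n : ℕ) (hn : 2 < n) :
    n.centralBinom ≤ (2 * n) ^ (Nat.sqrt (2 * n) + (pb n).card) * 4 ^ (2 * n / 3) := by
  have h0 : 0 < 2 * n := by omega
  have h1 : n.centralBinom =
      ∏ p ∈ (range (2 * n + 1)).filter Nat.Prime, p ^ n.centralBinom.factorization p := by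
    conv_lhs => rw [← Nat.prod_pow_factorization_centralBinom n]
    symm
    refine Finset.prod_filter_of_ne fun p _ h => ?_
    contrapose h
    rw [Nat.factorization_eq_zero_of_not_prime n.centralBinom h, pow_zero]
  have h2 : ∀ p ∈ (range (2 * n + 1)).filter Nat.Prime, p ^ n.centralBinom.factorization p ≤
      (if p ≤ Nat.sqrt (2 * n) ∨ n < p then 2 * n else 1) * (if p ≤ 2 * n / 3 then p else 1) := by
    intro p hp
    rw [mem_filter, mem_range] at hp
    have hp1 : 1 ≤ p := hp.2.one_lt.le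
    have hb : 1 ≤ (if p ≤ 2 * n / 3 then p else 1) := by split_ifs <;> omega
    have hf : p ^ n.centralBinom.factorization p ≤ 2 * n := Nat.pow_factorization_choose_le h0
    by_cases ha : p ≤ Nat.sqrt (2 * n) ∨ n < p
    · rw [if_pos ha]
      nlinarith
    · rw [if_neg ha, one_mul]
      push Not at ha
      have h3 : n.centralBinom.factorization p ≤ 1 :=
        Nat.factorization_choose_le_one (Nat.sqrt_lt'.mp ha.1)
      by_cases hc : p ≤ 2 * n / 3
      · rw [if_pos hc]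
        exact (Nat.pow_le_pow_right hp1 h3).trans (pow_one p).le
      · rw [if_neg hc]
        have h4 : n.centralBinom.factorization p = 0 :=
          Nat.factorization_centralBinom_of_two_mul_self_lt_three_mul hn ha.2 (by omega)
        rw [h4, pow_zero]
  rw [h1]
  refine (Finset.prod_le_prod' h2).trans ?_
  rw [Finset.prod_mul_distrib]
  refine Nat.mul_le_mul ?_ ?_
  · rw [← Finset.prod_filter, Finset.prod_const]
    refine Nat.pow_le_pow_right h0 ?_
    have h5 : ((range (2 * n + 1)).filter Nat.Prime).filter (fun p => p ≤ Nat.sqrt (2 * n) ∨ n < p) ⊆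
        Icc 1 (Nat.sqrt (2 * n)) ∪ pb n := by
      intro p hp
      simp only [mem_filter, mem_range] at hp
      unfold pb
      simp only [mem_union, mem_Icc, mem_filter, mem_Ioc]
      have := hp.1.2.one_lt
      rcases hp.2 with h | h
      · left
        omega
      · right
        exact ⟨by omega, hp.1.2⟩
    refine (card_le_card h5).trans ((card_union_le _ _).trans ?_)
    rw [Nat.card_Icc]
    omega
  · rw [← Finset.prod_filter]
    refine le_trans ?_ (primorial_le_four_pow (2 * n / 3))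
    unfold primorial
    refine Finset.prod_le_prod_of_subset_of_one_le' ?_ ?_
    · intro p hp
      simp only [mem_filter, mem_range] at hp ⊢
      exact ⟨by omega, hp.1.2⟩
    · intro p hp _
      exact (mem_filter.1 hp).2.one_lt.le

theorem pb_card : ∃ P0 : ℕ, ∀ P : ℕ, P0 ≤ P → (P : ℝ) / (8 * Real.log P) ≤ ((pb P).card : ℝ) := by
  have h1 := (isLittleO_log_rpow_atTop (r := 1 / 4) (by norm_num)).bound (c := 1)
    (by norm_num)
  obtain ⟨x1, hx1⟩ := Filter.eventually_atTop.1 (tendsto_natCast_atTop_atTop (R := ℝ) |>.eventually h1)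
  refine ⟨max x1 (10 ^ 12), fun P hP => ?_⟩
  have hPx : x1 ≤ P := (le_max_left _ _).trans hP
  have hP1 : 10 ^ 12 ≤ P := (le_max_right _ _).trans hP
  have hPR : (10 : ℝ) ^ 12 ≤ P := by exact_mod_cast hP1
  have hP0 : (0 : ℝ) < P := by linarith [pow_pos (show (0:ℝ) < 10 by norm_num) 12]
  obtain ⟨k, hk⟩ : ∃ k, k = (pb P).card := ⟨_, rfl⟩
  have hlogP : Real.log P ≤ (P : ℝ) ^ (1 / 4 : ℝ) := by
    have h := hx1 P hPx
    rw [Real.norm_eq_abs, Real.norm_eq_abs, one_mul] at h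
    exact (le_abs_self _).trans (h.trans (le_of_eq (abs_of_nonneg (by positivity))))
  have hL1 : 1 ≤ Real.log P := by
    rw [Real.le_log_iff_exp_le hP0]
    linarith [Real.exp_one_lt_d9, show (2.7182818286 : ℝ) < 10 ^ 12 by norm_num]
  have b1 : (4 : ℝ) ^ P < P * ((2 * P : ℕ) : ℝ) ^ (Nat.sqrt (2 * P) + k) * 4 ^ (2 * P / 3) := by
    have h2 := Nat.four_pow_lt_mul_centralBinom P (by omega)
    have h3 := pbcard_binom P (by omega)
    rw [← hk] at h3
    have h4 : 4 ^ P < P * ((2 * P) ^ (Nat.sqrt (2 * P) + k) * 4 ^ (2 * P / 3)) :=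
      h2.trans_le (Nat.mul_le_mul_left _ h3)
    rw [← mul_assoc] at h4
    exact_mod_cast h4
  have b2 := Real.log_lt_log (by positivity) b1
  rw [Real.log_mul (by positivity) (by positivity), Real.log_mul (by positivity) (by positivity),
    Real.log_pow, Real.log_pow, Real.log_pow] at b2
  have l4 : Real.log 4 = 2 * Real.log 2 := by
    rw [show (4 : ℝ) = 2 ^ 2 by norm_num, Real.log_pow]
    norm_num
  have l2a := Real.log_two_gt_d9
  have l2b := Real.log_two_lt_d9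
  have b3 : ((2 * P / 3 : ℕ) : ℝ) ≤ 2 * P / 3 := by
    have := @Nat.cast_div_le ℝ _ _ _ (2 * P) 3
    push_cast at this
    exact this
  have b4 : Real.log ((2 * P : ℕ) : ℝ) ≤ 2 * Real.log P := by
    push_cast
    rw [Real.log_mul (by norm_num) hP0.ne']
    linarith
  have b5 : ((Nat.sqrt (2 * P) : ℕ) : ℝ) ≤ 2 * (P : ℝ) ^ (1 / 2 : ℝ) := by
    have h5 : Nat.sqrt (2 * P) * Nat.sqrt (2 * P) ≤ 2 * P := Nat.sqrt_le _
    have h6 : ((Nat.sqrt (2 * P) : ℕ) : ℝ) * ((Nat.sqrt (2 * P) : ℕ) : ℝ) ≤ 2 * P := by exact_mod_cast h5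
    have h7 : (P : ℝ) ^ (1 / 2 : ℝ) * (P : ℝ) ^ (1 / 2 : ℝ) = P := by
      rw [← Real.rpow_add hP0]
      norm_num
    have h8 : 0 ≤ (P : ℝ) ^ (1 / 2 : ℝ) := by positivity
    by_contra hc
    push Not at hc
    nlinarith [mul_pos_of_neg_of_neg (sub_neg.2 hc) (sub_neg.2 hc)]
  have hq : (P : ℝ) ^ (1 / 4 : ℝ) * (P : ℝ) ^ (1 / 4 : ℝ) = (P : ℝ) ^ (1 / 2 : ℝ) := by
    rw [← Real.rpow_add hP0]
    norm_num
  have hq2 : (P : ℝ) ^ (1 / 2 : ℝ) * (P : ℝ) ^ (1 / 4 : ℝ) * (P : ℝ) ^ (1 / 4 : ℝ) = P := by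
    rw [mul_assoc, hq, ← Real.rpow_add hP0]
    norm_num
  have hq3 : (1000 : ℝ) ≤ (P : ℝ) ^ (1 / 4 : ℝ) := by
    have h9 := Real.rpow_le_rpow (by positivity) hPR (show (0 : ℝ) ≤ 1 / 4 by norm_num)
    refine le_trans (le_of_eq ?_) h9
    rw [← Real.rpow_natCast, ← Real.rpow_mul (by norm_num)]
    norm_num
  set r : ℝ := (P : ℝ) ^ (1 / 2 : ℝ) with hr
  set t : ℝ := (P : ℝ) ^ (1 / 4 : ℝ) with ht
  have hr0 : 0 ≤ r := by positivity
  -- the main inequality
  have b6 : ((Nat.sqrt (2 * P) : ℕ) : ℝ) * Real.log ((2 * P : ℕ) : ℝ) ≤ 4 * (r * t) := by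
    have hs0 : (0 : ℝ) ≤ ((Nat.sqrt (2 * P) : ℕ) : ℝ) := Nat.cast_nonneg _
    calc ((Nat.sqrt (2 * P) : ℕ) : ℝ) * Real.log ((2 * P : ℕ) : ℝ) ≤ (2 * r) * (2 * t) :=
          mul_le_mul b5 (b4.trans (by linarith)) (Real.log_nonneg (by exact_mod_cast (by omega : 1 ≤ 2 * P)))
            (by positivity)
      _ = 4 * (r * t) := by ring
  have b7 : r * t * 1000 ≤ P := by
    rw [← hq2]
    exact mul_le_mul_of_nonneg_left hq3 (by positivity)
  have b8 : Real.log P ≤ r * t := by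
    have : (1 : ℝ) ≤ r := by
      rw [← hq]
      nlinarith
    nlinarith
  have b9 : (k : ℝ) * Real.log ((2 * P : ℕ) : ℝ) ≤ k * (2 * Real.log P) :=
    mul_le_mul_of_nonneg_left b4 (Nat.cast_nonneg _)
  push_cast at b2 b6 b9
  rw [l4] at b2
  have b10 : (2 * P / 3 : ℝ) * (2 * Real.log 2) = (P : ℝ) * (4 / 3 * Real.log 2) := by ring
  have b11 : ((2 * P / 3 : ℕ) : ℝ) * (2 * Real.log 2) ≤ (P : ℝ) * (4 / 3 * Real.log 2) := by
    rw [← b10]
    exact mul_le_mul_of_nonneg_right b3 (by linarith)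
  rw [← hk, div_le_iff₀ (by positivity)]
  nlinarith

end Pool.Agent.H76.GB

end
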