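import Pool.Agent.H43.PS.M01

/-! The parts of this file: H97.VK.Sft, H97.VK.GGB. -/

section

/-!
# VK Sft: from sums of `(n+β)^{it}` to the bilinear sums

Proof.  For `1 ≤ a', b' ≤ X`: `∑_{n ∈ Ioc a b} ee(t log(n+β)) = ∑_{n ∈ Ioc a b} ee(t log(n+β+a'b')) + O(2 a' b')` (shift of an interval: at most
`2 a' b' ≤ 2 X^2` terms change).  Sum over `a', b'` and divide by `X^2`.
Taylor: `log(n+β+z) = log(n+β) + ∑_{i=1}^k (-1)^{i-1} (z/(n+β))^i / i + R`, `|R| ≤ (z/(n+β))^{k+1}` for `0 ≤ z ≤ n+β`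
(`z = a'b' ≤ X^2 ≤ N`; Mathlib: `Real.abs_log_sub_add_sum_range_le` for `x = -z/(n+β)`, which needs `|x| < 1`: use `X^2 < N`).
`|ee u - ee v| ≤ 2 π |u - v|`.  So
`|∑_n ee(t log(n+β))| ≤ (1/X^2) ∑_n |bil k X (α_n)| + 2 X^2 + 2 π |t| (b-a) · 2 (X^2/N)^{k+1}`, `b - a ≤ N`
(the factor `2` covers the `1/(1-|x|)` of the Mathlib bound when `2 X^2 ≤ N`).
-/

set_option autoImplicit false

namespace Pool.Agent.H97.VK

open Finset
open Pool.Agent.H91.PK (ee)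

/-- the Taylor coefficients of `t log (n + β)` -/
noncomputable def tay (k : ℕ) (t β : ℝ) (n : ℕ) (j : Fin k) : ℝ :=
  (-1) ^ (j : ℕ) * t / (((j : ℕ) + 1) * ((n : ℝ) + β) ^ ((j : ℕ) + 1))

private theorem Sft_lip (u v : ℝ) : ‖ee u - ee v‖ ≤ 2 * Real.pi * |u - v| := by
  have h1 : ee u = ee v * ee (u - v) := by
    rw [← Pool.Agent.H91.PK.LSa_ee_add]
    congr 1
    ring
  have h2 : ee u - ee v = ee v * (ee (u - v) - 1) := by
    rw [h1]
    ring
  rw [h2, norm_mul, Pool.Agent.H91.PK.LSa_norm_ee, one_mul]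
  have h3 : ee (u - v) = Complex.exp (Complex.I * ((2 * Real.pi * (u - v) : ℝ) : ℂ)) := by
    unfold ee
    congr 1
    push_cast
    ring
  rw [h3]
  refine Real.norm_exp_I_mul_ofReal_sub_one_le.trans ?_
  rw [Real.norm_eq_abs, abs_mul, abs_of_nonneg (by positivity : (0 : ℝ) ≤ 2 * Real.pi)]

private theorem Sft_tel (F : ℕ → ℂ) (a b : ℕ) (h : a ≤ b) :
    ∑ n ∈ Ioc a b, (F (n + 1) - F n) = F (b + 1) - F (a + 1) := by
  induction b, h using Nat.le_induction with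
  | base => simp
  | succ b hb ih =>
    rw [Finset.sum_Ioc_succ_top (by omega), ih]
    ring

private theorem Sft_shift (f : ℕ → ℂ) (hf : ∀ n, ‖f n‖ ≤ 1) (a b z : ℕ) :
    ‖∑ n ∈ Ioc a b, f n - ∑ n ∈ Ioc a b, f (n + z)‖ ≤ 2 * z := by
  rcases le_total b a with h | h
  · rw [Ioc_eq_empty (by omega), sum_empty, sum_empty, sub_zero, norm_zero]
    positivity
  induction z with
  | zero => simp
  | succ z ih =>
    have h1 : ∑ n ∈ Ioc a b, f (n + (z + 1)) - ∑ n ∈ Ioc a b, f (n + z) =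
        f (b + 1 + z) - f (a + 1 + z) := by
      rw [← sum_sub_distrib, ← Sft_tel (fun n => f (n + z)) a b h]
      refine sum_congr rfl fun n _ => ?_
      rw [show n + (z + 1) = n + 1 + z by ring]
    have h2 : ∑ n ∈ Ioc a b, f n - ∑ n ∈ Ioc a b, f (n + (z + 1)) =
        (∑ n ∈ Ioc a b, f n - ∑ n ∈ Ioc a b, f (n + z)) -
          (∑ n ∈ Ioc a b, f (n + (z + 1)) - ∑ n ∈ Ioc a b, f (n + z)) := by ring
    rw [h2, h1]
    calc _ ≤ 2 * (z : ℝ) + (1 + 1) := by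
          refine (norm_sub_le _ _).trans (add_le_add ih ?_)
          exact (norm_sub_le _ _).trans (add_le_add (hf _) (hf _))
      _ = 2 * ((z + 1 : ℕ) : ℝ) := by push_cast; ring

private theorem Sft_log (k : ℕ) (y z q : ℝ) (hy : 0 < y) (hz : 0 ≤ z) (hq : z / y ≤ q)
    (hq2 : q ≤ 1 / 2) :
    |(∑ i ∈ range k, (-z / y) ^ (i + 1) / ((i : ℝ) + 1)) + (Real.log (y + z) - Real.log y)| ≤
      2 * q ^ (k + 1) := by
  have hx0 : 0 ≤ z / y := by positivity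
  have habs : |(-z / y)| = z / y := by
    rw [neg_div, abs_neg, abs_of_nonneg hx0]
  have h1 := Real.abs_log_sub_add_sum_range_le (x := -z / y) (by rw [habs]; linarith) k
  have h2 : Real.log (1 - -z / y) = Real.log (y + z) - Real.log y := by
    rw [← Real.log_div (by linarith) hy.ne']
    congr 1
    field_simp
    ring
  rw [h2, habs] at h1
  refine h1.trans ?_
  have h3 : (z / y) ^ (k + 1) ≤ q ^ (k + 1) := pow_le_pow_left₀ hx0 hq _
  have h4 : 0 ≤ q ^ (k + 1) := (pow_nonneg hx0 _).trans h3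
  rw [div_le_iff₀ (by linarith)]
  nlinarith

private theorem Sft_pt (k X N n z : ℕ) (t β : ℝ) (hX : 1 ≤ X) (hXN : 2 * X ^ 2 ≤ N)
    (hn : N < n) (hz : z ≤ X ^ 2) (hβ : 0 ≤ β) :
    ‖ee (t * Real.log (((n + z : ℕ) : ℝ) + β)) -
      ee (t * Real.log (n + β)) * ee (∑ j : Fin k, tay k t β n j * (z : ℝ) ^ ((j : ℕ) + 1))‖ ≤
      4 * Real.pi * |t| * ((X : ℝ) ^ 2 / N) ^ (k + 1) := by
  have hX2 : 1 ≤ X ^ 2 := Nat.one_le_pow _ _ hX
  have hN0 : (0 : ℝ) < (N : ℝ) := by exact_mod_cast (by omega : 0 < N)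
  have hnN : (N : ℝ) ≤ (n : ℝ) := by exact_mod_cast hn.le
  have hy : 0 < (n : ℝ) + β := by linarith
  have hzX : (z : ℝ) ≤ (X : ℝ) ^ 2 := by exact_mod_cast hz
  have hz0 : (0 : ℝ) ≤ (z : ℝ) := Nat.cast_nonneg _
  have hXN' : 2 * (X : ℝ) ^ 2 ≤ (N : ℝ) := by exact_mod_cast hXN
  rw [← Pool.Agent.H91.PK.LSa_ee_add]
  refine (Sft_lip _ _).trans ?_
  have h1 := Sft_log k ((n : ℝ) + β) z ((X : ℝ) ^ 2 / N) hy hz0
    (div_le_div₀ (by positivity) hzX hN0 (by linarith))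
    (by rw [div_le_div_iff₀ hN0 (by norm_num)]; linarith)
  have h2 : ∑ j : Fin k, tay k t β n j * (z : ℝ) ^ ((j : ℕ) + 1) =
      -t * ∑ i ∈ range k, (-z / ((n : ℝ) + β)) ^ (i + 1) / ((i : ℝ) + 1) := by
    rw [mul_sum, ← Fin.sum_univ_eq_sum_range
      (fun i => -t * ((-z / ((n : ℝ) + β)) ^ (i + 1) / ((i : ℝ) + 1)))]
    refine sum_congr rfl fun j _ => ?_
    unfold tay
    have h3 : (-(z : ℝ) / ((n : ℝ) + β)) ^ ((j : ℕ) + 1) =
        (-1) ^ ((j : ℕ) + 1) * (z : ℝ) ^ ((j : ℕ) + 1) / ((n : ℝ) + β) ^ ((j : ℕ) + 1) := by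
      rw [div_pow, neg_pow]
    have h5 : ((n : ℝ) + β) ^ ((j : ℕ) + 1) ≠ 0 := (pow_pos hy _).ne'
    have h6 : ((j : ℕ) : ℝ) + 1 ≠ 0 := by positivity
    rw [h3, pow_succ (-1 : ℝ)]
    field_simp
  have h4 : t * Real.log (((n + z : ℕ) : ℝ) + β) - (t * Real.log (n + β) +
      ∑ j : Fin k, tay k t β n j * (z : ℝ) ^ ((j : ℕ) + 1)) =
      t * ((∑ i ∈ range k, (-z / ((n : ℝ) + β)) ^ (i + 1) / ((i : ℝ) + 1)) +
        (Real.log (((n : ℝ) + β) + z) - Real.log ((n : ℝ) + β))) := by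
    rw [h2]
    have h5 : ((n + z : ℕ) : ℝ) + β = ((n : ℝ) + β) + z := by push_cast; ring
    rw [h5]
    ring
  rw [h4, abs_mul]
  have hpi : 0 ≤ 2 * Real.pi := by positivity
  calc 2 * Real.pi * (|t| * |(∑ i ∈ range k, (-z / ((n : ℝ) + β)) ^ (i + 1) / ((i : ℝ) + 1)) +
        (Real.log (((n : ℝ) + β) + z) - Real.log ((n : ℝ) + β))|)
      ≤ 2 * Real.pi * (|t| * (2 * ((X : ℝ) ^ 2 / N) ^ (k + 1))) := by
        apply mul_le_mul_of_nonneg_left _ hpi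
        exact mul_le_mul_of_nonneg_left h1 (abs_nonneg _)
    _ = _ := by ring

theorem sft (k X N a b : ℕ) (t β : ℝ) (hX : 1 ≤ X) (hXN : 2 * X ^ 2 ≤ N) (ha : N ≤ a) (hb : b ≤ 2 * N)
    (hβ : 0 ≤ β) :
    ‖∑ n ∈ Ioc a b, ee (t * Real.log (n + β))‖ ≤
      (1 / (X : ℝ) ^ 2) * ∑ n ∈ Ioc a b, ‖bil k X (tay k t β n)‖ + 2 * (X : ℝ) ^ 2 +
        4 * Real.pi * |t| * N * ((X : ℝ) ^ 2 / N) ^ (k + 1) := by
  set f : ℕ → ℂ := fun n => ee (t * Real.log (n + β)) with hf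
  have hf1 : ∀ n, ‖f n‖ ≤ 1 := fun n => (Pool.Agent.H91.PK.LSa_norm_ee _).le
  set S := ∑ n ∈ Ioc a b, f n with hS
  set D := 4 * Real.pi * |t| * ((X : ℝ) ^ 2 / N) ^ (k + 1) with hD
  have hD0 : 0 ≤ D := by rw [hD]; positivity
  have hX0 : (0 : ℝ) < (X : ℝ) := by exact_mod_cast hX
  have hX2 : (0 : ℝ) < (X : ℝ) ^ 2 := by positivity
  have huv : ∀ u ∈ Icc 1 X, ∀ v ∈ Icc 1 X, u * v ≤ X ^ 2 := by
    intro u hu v hv
    rw [mem_Icc] at hu hv
    calc u * v ≤ X * X := Nat.mul_le_mul hu.2 hv.2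
      _ = X ^ 2 := by ring
  -- the shifted sums
  have h1 : ‖∑ u ∈ Icc 1 X, ∑ v ∈ Icc 1 X, (S - ∑ n ∈ Ioc a b, f (n + u * v))‖ ≤
      (X : ℝ) ^ 2 * (2 * (X : ℝ) ^ 2) := by
    calc _ ≤ ∑ u ∈ Icc 1 X, ∑ v ∈ Icc 1 X, (2 * (X : ℝ) ^ 2) := by
          refine (norm_sum_le _ _).trans (sum_le_sum fun u hu => ?_)
          refine (norm_sum_le _ _).trans (sum_le_sum fun v hv => ?_)
          refine (Sft_shift f hf1 a b (u * v)).trans ?_
          have := huv u hu v hv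
          have h2 : ((u * v : ℕ) : ℝ) ≤ (X : ℝ) ^ 2 := by exact_mod_cast this
          linarith
      _ = _ := by
          rw [sum_const, sum_const, Nat.card_Icc, nsmul_eq_mul, nsmul_eq_mul,
            Nat.add_sub_cancel]
          ring
  have h2 : ∑ u ∈ Icc 1 X, ∑ v ∈ Icc 1 X, ∑ n ∈ Ioc a b, f (n + u * v) =
      ∑ n ∈ Ioc a b, ∑ u ∈ Icc 1 X, ∑ v ∈ Icc 1 X, f (n + u * v) := by
    rw [sum_comm' (s := Ioc a b) (t := fun _ => Icc 1 X) (t' := Icc 1 X)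
      (s' := fun _ => Ioc a b) (by intro x y; tauto)]
    refine sum_congr rfl fun u _ => ?_
    rw [sum_comm]
  have h3 : ∀ n ∈ Ioc a b, ‖∑ u ∈ Icc 1 X, ∑ v ∈ Icc 1 X, f (n + u * v)‖ ≤
      ‖bil k X (tay k t β n)‖ + (X : ℝ) ^ 2 * D := by
    intro n hn
    rw [mem_Ioc] at hn
    have h4 : ∑ u ∈ Icc 1 X, ∑ v ∈ Icc 1 X, f (n + u * v) =
        f n * bil k X (tay k t β n) +
        ∑ u ∈ Icc 1 X, ∑ v ∈ Icc 1 X, (f (n + u * v) -
          f n * ee (∑ j : Fin k, tay k t β n j * ((u : ℝ) * v) ^ ((j : ℕ) + 1))) := by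
      unfold bil
      simp_rw [sum_sub_distrib, mul_sum]
      ring
    rw [h4]
    refine (norm_add_le _ _).trans (add_le_add ?_ ?_)
    · rw [norm_mul]
      calc ‖f n‖ * ‖bil k X (tay k t β n)‖ ≤ 1 * ‖bil k X (tay k t β n)‖ :=
            mul_le_mul_of_nonneg_right (hf1 n) (norm_nonneg _)
        _ = _ := one_mul _
    · calc _ ≤ ∑ u ∈ Icc 1 X, ∑ v ∈ Icc 1 X, D := by
            refine (norm_sum_le _ _).trans (sum_le_sum fun u hu => ?_)
            refine (norm_sum_le _ _).trans (sum_le_sum fun v hv => ?_)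
            have h5 := Sft_pt k X N n (u * v) t β hX hXN (by omega) (huv u hu v hv) hβ
            rw [Nat.cast_mul u v] at h5
            exact h5
        _ = _ := by
            rw [sum_const, sum_const, Nat.card_Icc, nsmul_eq_mul, nsmul_eq_mul,
              Nat.add_sub_cancel]
            ring
  have h4 : (X : ℂ) ^ 2 * S = ∑ u ∈ Icc 1 X, ∑ v ∈ Icc 1 X,
      (S - ∑ n ∈ Ioc a b, f (n + u * v)) +
      ∑ n ∈ Ioc a b, ∑ u ∈ Icc 1 X, ∑ v ∈ Icc 1 X, f (n + u * v) := by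
    rw [← h2]
    simp_rw [sum_sub_distrib]
    rw [sub_add_cancel, sum_const, sum_const, Nat.card_Icc, nsmul_eq_mul, nsmul_eq_mul,
      Nat.add_sub_cancel]
    ring
  have h5 : ‖∑ n ∈ Ioc a b, ∑ u ∈ Icc 1 X, ∑ v ∈ Icc 1 X, f (n + u * v)‖ ≤
      ∑ n ∈ Ioc a b, ‖bil k X (tay k t β n)‖ + N * ((X : ℝ) ^ 2 * D) := by
    refine (norm_sum_le _ _).trans ((sum_le_sum h3).trans ?_)
    rw [sum_add_distrib, sum_const, Nat.card_Ioc, nsmul_eq_mul]
    have h6 : ((b - a : ℕ) : ℝ) ≤ (N : ℝ) := by exact_mod_cast (by omega : b - a ≤ N)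
    have h7 : ((b - a : ℕ) : ℝ) * ((X : ℝ) ^ 2 * D) ≤ (N : ℝ) * ((X : ℝ) ^ 2 * D) :=
      mul_le_mul_of_nonneg_right h6 (by positivity)
    linarith
  have h6 : (X : ℝ) ^ 2 * ‖S‖ ≤ (X : ℝ) ^ 2 * (2 * (X : ℝ) ^ 2) +
      (∑ n ∈ Ioc a b, ‖bil k X (tay k t β n)‖ + N * ((X : ℝ) ^ 2 * D)) := by
    have h7 : ‖(X : ℂ) ^ 2 * S‖ = (X : ℝ) ^ 2 * ‖S‖ := by
      rw [norm_mul, norm_pow, Complex.norm_natCast]
    rw [← h7, h4]
    exact (norm_add_le _ _).trans (add_le_add h1 h5)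
  have h7 : ‖S‖ = (1 / (X : ℝ) ^ 2) * ((X : ℝ) ^ 2 * ‖S‖) := by
    field_simp
  rw [h7]
  calc (1 / (X : ℝ) ^ 2) * ((X : ℝ) ^ 2 * ‖S‖)
      ≤ (1 / (X : ℝ) ^ 2) * ((X : ℝ) ^ 2 * (2 * (X : ℝ) ^ 2) +
        (∑ n ∈ Ioc a b, ‖bil k X (tay k t β n)‖ + N * ((X : ℝ) ^ 2 * D))) :=
        mul_le_mul_of_nonneg_left h6 (by positivity)
    _ = _ := by
        rw [hD]
        field_simp
        ring

end Pool.Agent.H97.VK

end

section

/-!
# VK GGB: bounds for `GG`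

`gg_triv`: at most `(2W+1)^2` terms of size `≤ 1`.
`gg_bound`: the inner sum is `≤ min (2W+1, 1/(2‖α w‖))` (geometric series; `|1 - ee θ| ≥ 4‖θ‖`).  The map
`w ↦ (n, m, s)`, `n = round (α w)`, `m = ⌊|α w - n| / |α|⌋`, `s = (n ≤ α w)` is injective, so the sum is at most
`(2 |α| W + 2) * 2 * (2 W + 1 + ∑_{1 ≤ m ≤ 1/(2|α|)} 1/(2 m |α|))`.
-/

set_option autoImplicit false

namespace Pool.Agent.H97.VK

open Finset
open Pool.Agent.H91.PK (ee LSa_ee_add LSa_norm_ee)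

private theorem GGB_card (W : ℕ) : ((Icc (-(W : ℤ)) W).card : ℝ) = 2 * (W : ℝ) + 1 := by
  rw [Int.card_Icc]
  have h : ((W : ℤ) + 1 - -(W : ℤ)).toNat = 2 * W + 1 := by omega
  rw [h]
  push_cast
  ring

private theorem GGB_inner_triv (θ : ℝ) (W : ℕ) :
    ‖∑ v ∈ Icc (-(W : ℤ)) W, ee (θ * v)‖ ≤ 2 * (W : ℝ) + 1 := by
  refine (norm_sum_le _ _).trans ?_
  have h : ∑ v ∈ Icc (-(W : ℤ)) W, ‖ee (θ * v)‖ = ((Icc (-(W : ℤ)) W).card : ℝ) := by
    simp only [LSa_norm_ee, Finset.sum_const, nsmul_eq_mul, mul_one]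
  rw [h, GGB_card]

theorem gg_triv (α : ℝ) (W : ℕ) : GG α W ≤ (2 * (W : ℝ) + 1) ^ 2 := by
  unfold GG
  refine (Finset.sum_le_sum (fun (w : ℤ) _ => GGB_inner_triv (α * (w : ℝ)) W)).trans ?_
  rw [Finset.sum_const, nsmul_eq_mul, GGB_card, sq]

theorem gg_nonneg (α : ℝ) (W : ℕ) : 0 ≤ GG α W :=
  Finset.sum_nonneg fun _ _ => norm_nonneg _

private theorem GGB_ee_int (θ : ℝ) (n : ℤ) : ee (θ - n) = ee θ := by
  unfold ee
  rw [Complex.exp_eq_exp_iff_exists_int]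
  refine ⟨-n, ?_⟩
  push_cast
  ring

private theorem GGB_lower (x : ℝ) (h : |x| ≤ 1 / 2) : 4 * |x| ≤ ‖ee x - 1‖ := by
  have h1 : ee x = Complex.exp (Complex.I * ((2 * Real.pi * x : ℝ) : ℂ)) := by
    unfold ee
    congr 1
    push_cast
    ring
  rw [h1, Complex.norm_exp_I_mul_ofReal_sub_one, norm_mul, Real.norm_eq_abs, Real.norm_eq_abs]
  have h2 : 2 * Real.pi * x / 2 = Real.pi * x := by ring
  rw [h2]
  have h3 : |Real.pi * x| ≤ Real.pi / 2 := by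
    rw [abs_mul, abs_of_pos Real.pi_pos]
    nlinarith [Real.pi_pos]
  have h4 := Real.mul_abs_le_abs_sin h3
  rw [abs_mul, abs_of_pos Real.pi_pos] at h4
  have h5 : 2 / Real.pi * (Real.pi * |x|) = 2 * |x| := by
    field_simp
  rw [h5] at h4
  have h6 : |(2 : ℝ)| = 2 := abs_of_pos (by norm_num)
  rw [h6]
  linarith

private theorem GGB_shift (θ : ℝ) (W : ℕ) :
    ∑ v ∈ Icc (-(W : ℤ)) W, ee (θ * v) = ee (-(θ * W)) * ∑ i ∈ range (2 * W + 1), ee θ ^ i := by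
  have hp : ∀ i : ℕ, ee (θ * i) = ee θ ^ i := by
    intro i
    induction i with
    | zero =>
      simp [ee]
    | succ i ih =>
      rw [pow_succ, ← ih, ← LSa_ee_add]
      congr 1
      push_cast
      ring
  rw [Finset.mul_sum]
  symm
  refine Finset.sum_nbij' (fun i : ℕ => (i : ℤ) - W) (fun v : ℤ => (v + W).toNat) ?_ ?_ ?_ ?_ ?_
  · intro i hi
    rw [Finset.mem_range] at hi
    rw [Finset.mem_Icc]
    omega
  · intro v hv
    rw [Finset.mem_Icc] at hv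
    rw [Finset.mem_range]
    omega
  · intro i hi
    simp
  · intro v hv
    rw [Finset.mem_Icc] at hv
    omega
  · intro i hi
    rw [← hp, ← LSa_ee_add]
    congr 1
    push_cast
    ring

private theorem GGB_inner (θ : ℝ) (n : ℤ) (W : ℕ) (h : |θ - n| ≤ 1 / 2) :
    ‖∑ v ∈ Icc (-(W : ℤ)) W, ee (θ * v)‖ * (4 * |θ - n|) ≤ 2 := by
  have h1 : 4 * |θ - n| ≤ ‖ee θ - 1‖ := by
    have := GGB_lower (θ - n) h
    rwa [GGB_ee_int] at this
  refine (mul_le_mul_of_nonneg_left h1 (norm_nonneg _)).trans ?_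
  rw [← norm_mul, GGB_shift, mul_assoc, geom_sum_mul, norm_mul, LSa_norm_ee, one_mul]
  refine (norm_sub_le _ _).trans ?_
  rw [norm_pow, LSa_norm_ee, one_pow, norm_one]
  norm_num

/-- The bound of the term with `⌊|α w - round (α w)| / |α|⌋ = m`. -/
private noncomputable def GGB_b (a : ℝ) (W m : ℕ) : ℝ :=
  if m = 0 then 2 * (W : ℝ) + 1 else 1 / (2 * m * a)

private theorem GGB_term (α : ℝ) (hα : α ≠ 0) (W : ℕ) (w : ℤ) :
    ‖∑ v ∈ Icc (-(W : ℤ)) W, ee (α * w * v)‖ ≤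
      GGB_b |α| W ⌊|α * w - round (α * w)| / |α|⌋₊ := by
  have ha : 0 < |α| := abs_pos.2 hα
  set m := ⌊|α * w - round (α * w)| / |α|⌋₊ with hm
  unfold GGB_b
  split_ifs with h0
  · exact GGB_inner_triv _ W
  · have hm1 : 1 ≤ m := Nat.one_le_iff_ne_zero.2 h0
    have hm2 : (m : ℝ) ≤ |α * w - round (α * w)| / |α| :=
      Nat.floor_le (div_nonneg (abs_nonneg _) ha.le)
    have hm3 : (m : ℝ) * |α| ≤ |α * w - round (α * w)| := by
      rwa [le_div_iff₀ ha] at hm2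
    have hmp : (0 : ℝ) < m := by exact_mod_cast hm1
    have h1 := GGB_inner (α * w) (round (α * w)) W (abs_sub_round _)
    have h2 : ‖∑ v ∈ Icc (-(W : ℤ)) W, ee (α * w * v)‖ * (4 * (m * |α|)) ≤ 2 :=
      (mul_le_mul_of_nonneg_left (by linarith) (norm_nonneg _)).trans h1
    have h3 : (0 : ℝ) < 2 * m * |α| := by positivity
    rw [le_div_iff₀ h3]
    linarith

private theorem GGB_inj (α : ℝ) (hα : α ≠ 0) (w w' : ℤ)
    (hn : round (α * w) = round (α * w'))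
    (hm : ⌊|α * w - round (α * w)| / |α|⌋₊ = ⌊|α * w' - round (α * w')| / |α|⌋₊)
    (hs : ((round (α * w) : ℤ) : ℝ) ≤ α * w ↔ ((round (α * w') : ℤ) : ℝ) ≤ α * w') : w = w' := by
  have ha : 0 < |α| := abs_pos.2 hα
  set n := round (α * w) with hn'
  rw [← hn] at hm hs
  set x := α * w - n with hx
  set y := α * w' - n with hy
  set m := ⌊|x| / |α|⌋₊ with hmx
  have h1 : (m : ℝ) ≤ |x| / |α| := Nat.floor_le (div_nonneg (abs_nonneg _) ha.le)
  have h2 : |x| / |α| < m + 1 := Nat.lt_floor_add_one _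
  have h3 : (m : ℝ) ≤ |y| / |α| := by
    rw [hm]
    exact Nat.floor_le (div_nonneg (abs_nonneg _) ha.le)
  have h4 : |y| / |α| < m + 1 := by
    rw [hm]
    exact Nat.lt_floor_add_one _
  rw [le_div_iff₀ ha] at h1 h3
  rw [div_lt_iff₀ ha] at h2 h4
  have h5 : |x - y| < |α| := by
    by_cases hc : (n : ℝ) ≤ α * w
    · have hc' := hs.1 hc
      have e1 : |x| = x := abs_of_nonneg (by linarith)
      have e2 : |y| = y := abs_of_nonneg (by linarith)
      rw [e1] at h1 h2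
      rw [e2] at h3 h4
      rw [abs_lt]
      constructor <;> linarith
    · have hc' : ¬ (n : ℝ) ≤ α * w' := fun h => hc (hs.2 h)
      push Not at hc hc'
      have e1 : |x| = -x := abs_of_nonpos (by linarith)
      have e2 : |y| = -y := abs_of_nonpos (by linarith)
      rw [e1] at h1 h2
      rw [e2] at h3 h4
      rw [abs_lt]
      constructor <;> linarith
  have h6 : x - y = α * ((w - w' : ℤ) : ℝ) := by
    rw [hx, hy]
    push_cast
    ring
  rw [h6, abs_mul] at h5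
  have h7 : |((w - w' : ℤ) : ℝ)| < 1 := by
    by_contra hc
    push Not at hc
    have := mul_le_mul_of_nonneg_left hc ha.le
    linarith
  have h8 : |w - w'| < 1 := by
    have : ((|w - w'| : ℤ) : ℝ) < 1 := by
      rw [Int.cast_abs]
      exact h7
    exact_mod_cast this
  rw [Int.abs_lt_one_iff] at h8
  omega

private theorem GGB_main (α : ℝ) (hα : α ≠ 0) (W : ℕ) :
    GG α W ≤ (2 * |α| * W + 2) * (2 * ∑ m ∈ range (⌊1 / (2 * |α|)⌋₊ + 1), GGB_b |α| W m) := by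
  classical
  have ha : 0 < |α| := abs_pos.2 hα
  set J := ⌊1 / (2 * |α|)⌋₊ with hJ
  set B := ⌊|α| * W + 1 / 2⌋₊ with hB
  have hb0 : ∀ m, 0 ≤ GGB_b |α| W m := by
    intro m
    unfold GGB_b
    split_ifs
    · positivity
    · positivity
  let key : ℤ → ℤ × ℕ × Bool := fun w =>
    (round (α * w), ⌊|α * w - round (α * w)| / |α|⌋₊,
      decide (((round (α * w) : ℤ) : ℝ) ≤ α * w))
  have hinj : Set.InjOn key (Icc (-(W : ℤ)) W : Finset ℤ) := by
    intro w _ w' _ h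
    simp only [key, Prod.mk.injEq, decide_eq_decide] at h
    exact GGB_inj α hα w w' h.1 h.2.1 h.2.2
  have hmaps : ∀ w ∈ Icc (-(W : ℤ)) W, key w ∈ (Icc (-(B : ℤ)) B) ×ˢ (range (J + 1) ×ˢ
      (Finset.univ : Finset Bool)) := by
    intro w hw
    rw [Finset.mem_Icc] at hw
    have hw' : |(w : ℝ)| ≤ W := by
      rw [abs_le]
      constructor
      · have := hw.1
        exact_mod_cast this
      · have := hw.2
        exact_mod_cast this
    have hr := abs_sub_round (α * w)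
    rw [Finset.mem_product, Finset.mem_product]
    refine ⟨?_, ?_, Finset.mem_univ _⟩
    · have h1 : |((round (α * w) : ℤ) : ℝ)| ≤ |α| * W + 1 / 2 := by
        have h2 : ((round (α * w) : ℤ) : ℝ) = α * w - (α * w - round (α * w)) := by ring
        rw [h2]
        refine (abs_sub _ _).trans ?_
        rw [abs_mul]
        have := mul_le_mul_of_nonneg_left hw' ha.le
        linarith
      have h3 : (round (α * w)).natAbs ≤ B := by
        rw [hB]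
        refine Nat.le_floor ?_
        rw [Nat.cast_natAbs]
        push_cast
        exact h1
      rw [Finset.mem_Icc]
      show -(B : ℤ) ≤ round (α * w) ∧ round (α * w) ≤ B
      omega
    · rw [Finset.mem_range]
      show ⌊|α * w - round (α * w)| / |α|⌋₊ < J + 1
      refine Nat.lt_succ_of_le (Nat.floor_le_floor ?_)
      rw [div_le_div_iff₀ ha (by positivity)]
      nlinarith
  have hstep : GG α W ≤ ∑ z ∈ (Icc (-(B : ℤ)) B) ×ˢ (range (J + 1) ×ˢ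
      (Finset.univ : Finset Bool)), GGB_b |α| W z.2.1 := by
    unfold GG
    calc ∑ w ∈ Icc (-(W : ℤ)) W, ‖∑ v ∈ Icc (-(W : ℤ)) W, ee (α * w * v)‖
        ≤ ∑ w ∈ Icc (-(W : ℤ)) W, GGB_b |α| W (key w).2.1 :=
          Finset.sum_le_sum fun w _ => GGB_term α hα W w
      _ = ∑ z ∈ (Icc (-(W : ℤ)) W).image key, GGB_b |α| W z.2.1 :=
          (Finset.sum_image (f := fun z : ℤ × ℕ × Bool => GGB_b |α| W z.2.1) hinj).symm
      _ ≤ _ := by
          refine Finset.sum_le_sum_of_subset_of_nonneg ?_ (fun z _ _ => hb0 _)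
          intro z hz
          obtain ⟨w, hw, rfl⟩ := Finset.mem_image.1 hz
          exact hmaps w hw
  refine hstep.trans ?_
  rw [Finset.sum_product]
  simp only [Finset.sum_product, Finset.sum_const, nsmul_eq_mul, Finset.card_univ,
    Fintype.card_bool, GGB_card, ← Finset.mul_sum]
  have hBle : (B : ℝ) ≤ |α| * W + 1 / 2 := Nat.floor_le (by positivity)
  have hsum : 0 ≤ ∑ m ∈ range (J + 1), GGB_b |α| W m := Finset.sum_nonneg fun m _ => hb0 m
  push_cast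
  refine mul_le_mul_of_nonneg_right ?_ (by positivity)
  linarith

theorem gg_bound : ∃ C : ℝ, 1 ≤ C ∧ ∀ (α Δ : ℝ) (W : ℕ), 1 ≤ W → 0 < Δ → Δ ≤ 1 / 2 → |α| ≤ Δ →
    1 ≤ Δ * W → 1 ≤ Δ * (W : ℝ) ^ 2 * |α| → GG α W ≤ C * Δ * (W : ℝ) ^ 2 * (1 + Real.log W) := by
  refine ⟨28, by norm_num, ?_⟩
  intro α Δ W hW hΔ hΔ2 haΔ h1 h2
  have hα : α ≠ 0 := by
    rintro rfl
    rw [abs_zero, mul_zero] at h2
    linarith
  have ha : 0 < |α| := abs_pos.2 hα
  have hW1 : (1 : ℝ) ≤ W := by exact_mod_cast hW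
  have hL : 0 ≤ Real.log W := Real.log_nonneg hW1
  refine (GGB_main α hα W).trans ?_
  set a := |α| with haa
  set J := ⌊1 / (2 * a)⌋₊ with hJ
  set L := Real.log W with hLL
  have hinv : 1 / a ≤ Δ * (W : ℝ) ^ 2 := by
    rw [div_le_iff₀ ha]
    exact h2
  have hJle : (J : ℝ) ≤ 1 / (2 * a) := Nat.floor_le (by positivity)
  have hJW : (J : ℝ) ≤ (W : ℝ) ^ 2 := by
    have e1 : 1 / (2 * a) = 1 / a / 2 := by ring
    have e2 : 0 < 1 / a := by positivity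
    have e3 : Δ * (W : ℝ) ^ 2 ≤ 1 / 2 * (W : ℝ) ^ 2 :=
      mul_le_mul_of_nonneg_right hΔ2 (by positivity)
    have e4 : 0 ≤ (W : ℝ) ^ 2 := by positivity
    rw [e1] at hJle
    linarith
  have hlogJ : Real.log J ≤ 2 * L := by
    rcases Nat.eq_zero_or_pos J with h0 | h0
    · rw [h0, Nat.cast_zero, Real.log_zero]
      linarith
    · have e1 : (0 : ℝ) < J := by exact_mod_cast h0
      have e2 := Real.log_le_log e1 hJW
      rw [Real.log_pow] at e2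
      exact_mod_cast e2
  have hsum : ∑ m ∈ range (J + 1), GGB_b a W m ≤
      (2 * (W : ℝ) + 1) + 1 / a * (1 / 2 * (1 + 2 * L)) := by
    rw [Finset.sum_range_succ']
    have e0 : GGB_b a W 0 = 2 * (W : ℝ) + 1 := by
      unfold GGB_b
      rw [if_pos rfl]
    have e1 : ∑ m ∈ range J, GGB_b a W (m + 1) = 1 / a * (1 / 2 * (harmonic J : ℝ)) := by
      rw [harmonic]
      push_cast
      rw [Finset.mul_sum, Finset.mul_sum]
      refine Finset.sum_congr rfl fun m _ => ?_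
      unfold GGB_b
      rw [if_neg (Nat.succ_ne_zero m)]
      push_cast
      field_simp
    rw [e0, e1]
    have e2 : (harmonic J : ℝ) ≤ 1 + Real.log J := harmonic_le_one_add_log J
    have e3 : (0 : ℝ) ≤ 1 / a := by positivity
    have e4 : 1 / 2 * (harmonic J : ℝ) ≤ 1 / 2 * (1 + 2 * L) := by linarith
    have e5 := mul_le_mul_of_nonneg_left e4 e3
    linarith
  have hfac : (0 : ℝ) ≤ 2 * a * W + 2 := by positivity
  refine (mul_le_mul_of_nonneg_left (mul_le_mul_of_nonneg_left hsum (by norm_num)) hfac).trans ?_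
  have hexp : (2 * a * W + 2) * (2 * ((2 * (W : ℝ) + 1) + 1 / a * (1 / 2 * (1 + 2 * L)))) =
      4 * a * W * (2 * W + 1) + 2 * W * (1 + 2 * L) + 4 * (2 * W + 1) +
        2 * (1 / a) * (1 + 2 * L) := by
    field_simp
    ring
  rw [hexp]
  set D := Δ * (W : ℝ) ^ 2 with hD
  have hWD : (W : ℝ) ≤ D := by
    have e1 := mul_le_mul_of_nonneg_right h1 (by positivity : (0 : ℝ) ≤ W)
    rw [hD]
    calc (W : ℝ) = 1 * W := (one_mul _).symm
      _ ≤ Δ * W * W := e1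
      _ = Δ * (W : ℝ) ^ 2 := by ring
  have t1 : 4 * a * W * (2 * W + 1) ≤ 12 * D := by
    have e1 : 4 * a * W * (2 * W + 1) ≤ 4 * a * W * (3 * W) :=
      mul_le_mul_of_nonneg_left (by linarith) (by positivity)
    have e2 : 4 * a * W * (3 * W) = 12 * (a * (W : ℝ) ^ 2) := by ring
    have e3 : a * (W : ℝ) ^ 2 ≤ D := mul_le_mul_of_nonneg_right haΔ (by positivity)
    linarith
  have hL2 : (0 : ℝ) ≤ 1 + 2 * L := by linarith
  have t2 : 2 * W * (1 + 2 * L) ≤ 2 * D * (1 + 2 * L) :=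
    mul_le_mul_of_nonneg_right (by linarith) hL2
  have t3 : 4 * (2 * (W : ℝ) + 1) ≤ 12 * D := by linarith
  have t4 : 2 * (1 / a) * (1 + 2 * L) ≤ 2 * D * (1 + 2 * L) :=
    mul_le_mul_of_nonneg_right (by linarith) hL2
  have hD0 : 0 ≤ D := by linarith
  have t5 : 28 * Δ * (W : ℝ) ^ 2 * (1 + L) = 28 * D + 28 * (D * L) := by
    rw [hD]
    ring
  have t6 : 2 * D * (1 + 2 * L) = 2 * D + 4 * (D * L) := by ring
  have t7 : 0 ≤ D * L := mul_nonneg hD0 hL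
  rw [t5]
  rw [t6] at t2 t4
  linarith

end Pool.Agent.H97.VK

end
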