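import Pool.Agent.H43.PS.M09

/-! The parts of this file: H35.V1.NT, H76.MU.RgI, H43.CH.DecP. -/

section

/-!
Mertens type estimates used for the order of vanishing at one.
-/

namespace Pool.Agent.H35.V1

open Finset Real
open Pool.Agent.H41 (c0 c0_pos B_lower B_upper)
open scoped ArithmeticFunction.vonMangoldt

noncomputable section

/-- Primes in `(w, z]`. -/
def PPr (w z : ℕ) : Finset ℕ := (Ioc w z).filter Nat.Prime

theorem mem_PPr {w z p : ℕ} : p ∈ PPr w z ↔ (w < p ∧ p ≤ z) ∧ p.Prime := by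
  simp [PPr]

theorem sum_recip_le {w z : ℕ} (hw : 2 ≤ w) (hwz : w ≤ z) {c : ℝ} (hc : 0 ≤ c)
    (h : ∀ m, w ≤ m → m ≤ z → ∑ d ∈ Ioc w m, ArithmeticFunction.vonMangoldt d / d
      ≤ Real.log m - Real.log w + c) :
    ∑ p ∈ PPr w z, (1 : ℝ) / p ≤ Real.log (Real.log z / Real.log w) + c / Real.log w := by
  have hlw : 0 < Real.log w := Real.log_pos (by exact_mod_cast (by omega : 1 < w))
  have hlog : ∀ k : ℕ, w ≤ k → 0 < Real.log k := by
    intro k hk
    apply Real.log_pos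
    exact_mod_cast (by omega : 1 < k)
  have h1 : ∑ p ∈ PPr w z, (1 : ℝ) / p
      = ∑ k ∈ Ioc w z, (if k.Prime then Real.log k / k else 0) * (1 / Real.log k) := by
    unfold PPr
    rw [sum_filter]
    apply sum_congr rfl
    intro k hk
    rw [mem_Ioc] at hk
    split_ifs with hp
    · have := (hlog k hk.1.le).ne'
      field_simp
    · simp
  have h2 : ∑ k ∈ Ioc w z, (if k.Prime then Real.log k / k else 0) * (1 / Real.log k)
      ≤ ∑ k ∈ Ioc w z, (Real.log k - Real.log (k - 1 : ℕ)) * (1 / Real.log k)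
        + c * (1 / Real.log ((w + 1 : ℕ) : ℝ)) := by
    apply Pool.Agent.H91.Gold.abel_le hwz hc
    · intro k hk1 _
      have := hlog k hk1.le
      positivity
    · have := hlog (w + 1) (by omega)
      positivity
    · intro k hk1 _
      have := hlog k hk1.le
      apply one_div_le_one_div_of_le this
      apply Real.log_le_log
      · exact_mod_cast (by omega : 0 < k)
      · push_cast; linarith
    · intro m hm1 hm2
      have e1 : ∑ k ∈ Ioc w m, (Real.log k - Real.log (k - 1 : ℕ)) = Real.log m - Real.log w := by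
        clear hm2
        induction m, hm1 using Nat.le_induction with
        | base => simp
        | succ m hm ih =>
          rw [sum_Ioc_succ_top (by omega), ih]
          simp
      have e2 : ∑ k ∈ Ioc w m, (if k.Prime then Real.log k / k else 0)
          ≤ ∑ k ∈ Ioc w m, Λ k / k := by
        apply sum_le_sum
        intro k _
        split_ifs with hp
        · rw [ArithmeticFunction.vonMangoldt_apply_prime hp]
        · have := ArithmeticFunction.vonMangoldt_nonneg (n := k)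
          positivity
      rw [e1]
      exact e2.trans (h m hm1 hm2)
  have h3 : ∀ m, w ≤ m → ∑ k ∈ Ioc w m, (Real.log k - Real.log (k - 1 : ℕ)) * (1 / Real.log k)
      ≤ Real.log (Real.log m) - Real.log (Real.log w) := by
    intro m hm
    induction m, hm using Nat.le_induction with
    | base => simp
    | succ m hm ih =>
      rw [sum_Ioc_succ_top (by omega)]
      have a1 := hlog m hm
      have a2 := hlog (m + 1) (by omega)
      have a3 : (Real.log ((m + 1 : ℕ) : ℝ) - Real.log (m + 1 - 1 : ℕ)) * (1 / Real.log ((m + 1 : ℕ) : ℝ))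
          ≤ Real.log (Real.log ((m + 1 : ℕ) : ℝ)) - Real.log (Real.log m) := by
        have b1 := Real.log_le_sub_one_of_pos (x := Real.log m / Real.log ((m + 1 : ℕ) : ℝ)) (by positivity)
        rw [Real.log_div a1.ne' a2.ne'] at b1
        rw [Nat.add_sub_cancel]
        have b2 : (Real.log ((m + 1 : ℕ) : ℝ) - Real.log m) * (1 / Real.log ((m + 1 : ℕ) : ℝ))
            = 1 - Real.log m / Real.log ((m + 1 : ℕ) : ℝ) := by
          field_simp
        rw [b2]
        linarith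
      linarith
  have h4 := h3 z hwz
  have h5 : c * (1 / Real.log ((w + 1 : ℕ) : ℝ)) ≤ c / Real.log w := by
    rw [mul_one_div]
    apply div_le_div_of_nonneg_left hc hlw
    apply Real.log_le_log
    · exact_mod_cast (by omega : 0 < w)
    · push_cast; linarith
  rw [h1, Real.log_div (hlog z hwz).ne' hlw.ne']
  linarith

theorem sum_tele {w z : ℕ} (hw : 2 ≤ w) (hwz : w ≤ z) :
    ∑ k ∈ Ioc w z, 1 / ((k : ℝ) * ((k : ℝ) - 1)) ≤ 1 / w - 1 / z := by
  induction z, hwz using Nat.le_induction with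
  | base => simp
  | succ m hm ih =>
    rw [sum_Ioc_succ_top (by omega)]
    have hm0 : (0 : ℝ) < m := by exact_mod_cast (by omega : 0 < m)
    have h1 : 1 / (((m + 1 : ℕ) : ℝ) * (((m + 1 : ℕ) : ℝ) - 1)) = 1 / m - 1 / ((m + 1 : ℕ) : ℝ) := by
      push_cast
      rw [add_sub_cancel_right]
      field_simp
      ring
    rw [h1]
    linarith

theorem exists_mertens_prod : ∃ C : ℝ, 0 < C ∧ ∀ w z : ℕ, 3 ≤ w → w ≤ z →
    ∏ p ∈ PPr w z, (1 + 1 / ((p : ℝ) - 1)) ≤ C * (Real.log z / Real.log w) := by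
  have hc0 := c0_pos
  refine ⟨Real.exp (c0 + 2), Real.exp_pos _, fun w z hw hwz => ?_⟩
  have hw' : (3 : ℝ) ≤ w := by exact_mod_cast hw
  have hlw : 1 ≤ Real.log w := by
    rw [Real.le_log_iff_exp_le (by linarith)]
    have := Real.exp_one_lt_d9
    linarith
  have hlz : 0 < Real.log z := by
    apply Real.log_pos
    exact_mod_cast (by omega : 1 < z)
  have hgen := sum_recip_le (w := w) (z := z) (by omega) hwz (c := c0 + 1) (by linarith) (by
    intro m hm1 _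
    have h1 := B_upper m (by omega)
    have h2 := B_lower w (by omega)
    have h3 : ∑ d ∈ Ioc 0 m, ArithmeticFunction.vonMangoldt d / d
        = ∑ d ∈ Ioc 0 w, ArithmeticFunction.vonMangoldt d / d
          + ∑ d ∈ Ioc w m, ArithmeticFunction.vonMangoldt d / d :=
      (sum_Ioc_consecutive _ (Nat.zero_le w) hm1).symm
    linarith)
  have h1 : ∏ p ∈ PPr w z, (1 + 1 / ((p : ℝ) - 1))
      ≤ Real.exp (∑ p ∈ PPr w z, 1 / ((p : ℝ) - 1)) := by
    rw [Real.exp_sum]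
    apply prod_le_prod
    · intro p hp
      rw [mem_PPr] at hp
      have : (1 : ℝ) < p := by exact_mod_cast hp.2.one_lt
      have : 0 < 1 / ((p : ℝ) - 1) := by
        apply div_pos one_pos
        linarith
      linarith
    · intro p _
      rw [add_comm]
      exact Real.add_one_le_exp _
  have h2 : ∑ p ∈ PPr w z, 1 / ((p : ℝ) - 1)
      = ∑ p ∈ PPr w z, 1 / (p : ℝ) + ∑ p ∈ PPr w z, 1 / ((p : ℝ) * ((p : ℝ) - 1)) := by
    rw [← sum_add_distrib]
    apply sum_congr rfl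
    intro p hp
    rw [mem_PPr] at hp
    have h3 : (1 : ℝ) < p := by exact_mod_cast hp.2.one_lt
    have h4 : (p : ℝ) - 1 ≠ 0 := by linarith
    have h5 : (p : ℝ) ≠ 0 := by linarith
    field_simp
    ring
  have h3 : ∑ p ∈ PPr w z, 1 / ((p : ℝ) * ((p : ℝ) - 1)) ≤ 1 := by
    have h4 : ∑ p ∈ PPr w z, 1 / ((p : ℝ) * ((p : ℝ) - 1))
        ≤ ∑ k ∈ Ioc w z, 1 / ((k : ℝ) * ((k : ℝ) - 1)) := by
      apply sum_le_sum_of_subset_of_nonneg (filter_subset _ _)
      intro k hk _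
      rw [mem_Ioc] at hk
      have : (1 : ℝ) < k := by exact_mod_cast (by omega : 1 < k)
      apply div_nonneg zero_le_one
      nlinarith
    have h5 := sum_tele (by omega : 2 ≤ w) hwz
    have h6 : 1 / (w : ℝ) ≤ 1 := by
      rw [div_le_one (by linarith)]
      linarith
    have h7 : 0 ≤ 1 / (z : ℝ) := by positivity
    linarith
  have h4 : (c0 + 1) / Real.log w ≤ c0 + 1 := div_le_self (by linarith) hlw
  have h5 : ∑ p ∈ PPr w z, 1 / ((p : ℝ) - 1) ≤ Real.log (Real.log z / Real.log w) + (c0 + 2) := by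
    rw [h2]
    linarith
  refine h1.trans ((Real.exp_le_exp.2 h5).trans (le_of_eq ?_))
  rw [Real.exp_add, Real.exp_log (by positivity)]
  ring

end

end Pool.Agent.H35.V1

end

section

/-!
# MU RgI: rough numbers in short intervals (upper bound sieve)

Proof.  `q = ∏_{p ≤ P} p`, `D = P 2^J`.  For `n` with `Rk P J n` every squarefree `l ≤ D` prime to `q` has all its prime factors in `(P, D]`, so `(l, n) = 1` and `ramS l n = μ(l)`
(Ramanujan sum); so `Ps D q n = Gs D q` (`H87/WL/Defs.lean`).  Additive large sieve (dual form; see `H91/PK/LSa.lean` and `H76/EHB`, `H76/GB`):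
`∑_{n ∈ Ico a (a+h)} Ps D q n ^ 2 ≤ (h + D^2) Gs D q`, because `Ps D q n = ∑_{l} ∑_{r mod l, (r,l)=1} (μ(l)/φ(l)) ee(n r/l)`, the fractions are `1/D^2`-separated and the sum of the squares
of the coefficients is `∑ μ(l)^2/φ(l)^2 · φ(l) = Gs D q`.  So the number is `≤ 2 h/Gs D q` (`D^2 ≤ h`; if the large sieve is available only with a constant, `C` absorbs it; alternatively expand
`∑_n (∑_{s | n} ls D q s)^2` with Selberg's weights `ls`, `H87/WL/Sel*.lean`, if `(P 2^J)^4 ≤ h`), `Gs D q ≥ (φ(q)/q) log (D + 1)` (`gs_ge`) and `q/φ(q) = ∏_{p ≤ P} (1 - 1/p)^{-1} ≤ C log P`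
(Mertens upper bound, `P ≥ 2`).
-/

set_option autoImplicit false

namespace Pool.Agent.H76.MU

open Finset MeasureTheory
open Pool.Agent.H91.PK (ee)
open Pool.Agent.H76.EHB
open Pool.Agent.H35.W

/-- the product of the primes up to `P` -/
private def RgI_q (P : ℕ) : ℕ := ∏ p ∈ Pool.Agent.H35.V1.PPr 0 P, p

private theorem RgI_primeFactors (P : ℕ) :
    (RgI_q P).primeFactors = Pool.Agent.H35.V1.PPr 0 P := by
  unfold RgI_q
  exact Nat.primeFactors_prod fun p hp => (Pool.Agent.H35.V1.mem_PPr.1 hp).2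

private theorem RgI_q_ne (P : ℕ) : RgI_q P ≠ 0 := by
  unfold RgI_q
  rw [prod_ne_zero_iff]
  intro p hp
  exact (Pool.Agent.H35.V1.mem_PPr.1 hp).2.ne_zero

private theorem RgI_ratio (P : ℕ) : ((RgI_q P : ℕ) : ℝ) / (RgI_q P).totient =
    ∏ p ∈ Pool.Agent.H35.V1.PPr 0 P, (1 + 1 / ((p : ℝ) - 1)) := by
  have h := Pool.Agent.H87.WL.gl_tot (RgI_q P) (RgI_q_ne P)
  rw [← h, RgI_primeFactors]
  have h1 : (Pool.Agent.H35.V1.PPr 0 P).filter (fun p => p.Prime) =
      Pool.Agent.H35.V1.PPr 0 P :=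
    filter_true_of_mem fun p hp => (Pool.Agent.H35.V1.mem_PPr.1 hp).2
  rw [h1]
  refine prod_congr rfl fun p hp => ?_
  have hp2 : (1 : ℝ) < p := by
    exact_mod_cast (Pool.Agent.H35.V1.mem_PPr.1 hp).2.one_lt
  rw [Pool.Agent.H87.WL.gl_inv_apply]
  have h2 : (p : ℝ) ≠ 0 := by linarith
  have h3 : (p : ℝ) - 1 ≠ 0 := by linarith
  field_simp
  ring

private theorem RgI_mertens : ∃ C : ℝ, 0 < C ∧ ∀ P : ℕ, 2 ≤ P →
    ((RgI_q P : ℕ) : ℝ) / (RgI_q P).totient ≤ C * Real.log P := by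
  obtain ⟨C, hC, hM⟩ := Pool.Agent.H35.V1.exists_mertens_prod
  have hl2 : 0 < Real.log 2 := Real.log_pos (by norm_num)
  have hl3 : 0 < Real.log 3 := Real.log_pos (by norm_num)
  refine ⟨3 * C / Real.log 3 + 2 / Real.log 2, by positivity, fun P hP => ?_⟩
  rw [RgI_ratio]
  have hlP : 0 < Real.log P := Real.log_pos (by exact_mod_cast (by omega : 1 < P))
  rcases Nat.lt_or_ge P 3 with h | h
  · have h2 : P = 2 := by omega
    subst h2
    have e : Pool.Agent.H35.V1.PPr 0 2 = {2} := by decide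
    rw [e, prod_singleton]
    have h3 : (2 / Real.log 2) * Real.log ((2 : ℕ) : ℝ) = 2 := by
      push_cast
      field_simp
    have h4 : 0 ≤ 3 * C / Real.log 3 * Real.log ((2 : ℕ) : ℝ) := by positivity
    rw [add_mul, h3]
    push_cast
    push_cast at h4
    linarith
  · have e : Pool.Agent.H35.V1.PPr 0 P = Pool.Agent.H35.V1.PPr 0 3 ∪
        Pool.Agent.H35.V1.PPr 3 P := by
      ext p
      rw [mem_union, Pool.Agent.H35.V1.mem_PPr, Pool.Agent.H35.V1.mem_PPr,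
        Pool.Agent.H35.V1.mem_PPr]
      constructor
      · rintro ⟨⟨h1, h2⟩, h3⟩
        rcases Nat.lt_or_ge 3 p with h4 | h4
        · exact Or.inr ⟨⟨h4, h2⟩, h3⟩
        · exact Or.inl ⟨⟨h1, h4⟩, h3⟩
      · rintro (⟨⟨h1, h2⟩, h3⟩ | ⟨⟨h1, h2⟩, h3⟩)
        · exact ⟨⟨h1, h2.trans h⟩, h3⟩
        · exact ⟨⟨by omega, h2⟩, h3⟩
    have hd : Disjoint (Pool.Agent.H35.V1.PPr 0 3) (Pool.Agent.H35.V1.PPr 3 P) := by
      rw [disjoint_left]
      intro p h1 h2
      rw [Pool.Agent.H35.V1.mem_PPr] at h1 h2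
      omega
    rw [e, prod_union hd]
    have e3 : Pool.Agent.H35.V1.PPr 0 3 = {2, 3} := by decide
    have e4 : ∏ p ∈ Pool.Agent.H35.V1.PPr 0 3, (1 + 1 / ((p : ℝ) - 1)) = 3 := by
      rw [e3, prod_pair (by norm_num)]
      norm_num
    rw [e4]
    have h5 := hM 3 P le_rfl h
    have h6 : 0 ≤ 2 / Real.log 2 * Real.log P := by positivity
    rw [add_mul]
    have h7 : 3 * (C * (Real.log P / Real.log ((3 : ℕ) : ℝ))) =
        3 * C / Real.log 3 * Real.log P := by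
      push_cast
      field_simp
    calc 3 * ∏ p ∈ Pool.Agent.H35.V1.PPr 3 P, (1 + 1 / ((p : ℝ) - 1))
        ≤ 3 * (C * (Real.log P / Real.log ((3 : ℕ) : ℝ))) :=
          mul_le_mul_of_nonneg_left h5 (by norm_num)
      _ = 3 * C / Real.log 3 * Real.log P := h7
      _ ≤ _ := by linarith

private theorem RgI_e_eq (t : ℝ) : Pool.Agent.H92.EH.e t = ee t := by
  unfold Pool.Agent.H92.EH.e ee
  congr 1
  push_cast
  ring

/-- Ramanujan sums at coprime arguments -/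
private theorem RgI_ram (l n : ℕ) (hl : 0 < l) (h : Nat.Coprime n l) :
    ∑ b ∈ (Icc 1 l).filter (fun b => Nat.Coprime b l), ee ((n : ℝ) * b / l) =
      ((ArithmeticFunction.moebius l : ℤ) : ℂ) := by
  have h1 := Pool.Agent.H92.EH.ram_of_coprime l hl (n : ℤ) (Nat.isCoprime_iff_coprime.2 h)
  rw [← h1]
  unfold Pool.Agent.H92.EH.ram
  rcases Nat.lt_or_ge 1 l with h2 | h2
  · have e : (Icc 1 l).filter (fun b => Nat.Coprime b l) = Pool.Agent.H92.EH.red l := by
      ext b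
      rw [mem_filter, mem_Icc, Pool.Agent.H92.EH.mem_red]
      constructor
      · rintro ⟨⟨h3, h4⟩, h5⟩
        refine ⟨lt_of_le_of_ne h4 ?_, h5⟩
        rintro rfl
        rw [Nat.coprime_self] at h5
        omega
      · rintro ⟨h3, h4⟩
        refine ⟨⟨?_, h3.le⟩, h4⟩
        by_contra h5
        have h6 : b = 0 := by omega
        subst h6
        rw [Nat.coprime_zero_left] at h4
        omega
    rw [e]
    refine sum_congr rfl fun b _ => ?_
    rw [RgI_e_eq]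
    congr 1
    push_cast
    ring
  · have h3 : l = 1 := by omega
    subst h3
    have e1 : (Icc 1 1).filter (fun b => Nat.Coprime b 1) = {1} := by decide
    have e2 : Pool.Agent.H92.EH.red 1 = {0} := by decide
    rw [e1, e2, sum_singleton, sum_singleton, RgI_e_eq]
    have h4 : ee ((n : ℝ) * ((1 : ℕ) : ℝ) / ((1 : ℕ) : ℝ)) = 1 := by
      unfold ee
      rw [Complex.exp_eq_one_iff]
      exact ⟨n, by push_cast; ring⟩
    have h5 : ee (((n : ℤ) : ℝ) * (((0 : ℕ) : ℝ) / ((1 : ℕ) : ℝ))) = 1 := by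
      unfold ee
      rw [Complex.exp_eq_one_iff]
      exact ⟨0, by push_cast; ring⟩
    rw [h4, h5]

/-- a prime in `(P, P 2^J]` lies in a block -/
private theorem RgI_block (P J p : ℕ) (hp : p.Prime) (h1 : P < p) (h2 : p ≤ P * 2 ^ J) :
    ∃ i < J, p ∈ pb (P * 2 ^ i) := by
  induction J with
  | zero =>
    rw [pow_zero, mul_one] at h2
    omega
  | succ J ih =>
    by_cases h3 : p ≤ P * 2 ^ J
    · obtain ⟨i, hi, h4⟩ := ih h3
      exact ⟨i, by omega, h4⟩
    · refine ⟨J, by omega, ?_⟩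
      unfold pb
      rw [mem_filter, mem_Ioc]
      refine ⟨⟨by omega, ?_⟩, hp⟩
      rw [pow_succ] at h2
      linarith [h2]

private theorem RgI_coprime (P J n l : ℕ) (hn : Rk P J n) (hl0 : 0 < l) (hl : l ≤ P * 2 ^ J)
    (hc : Nat.Coprime l (RgI_q P)) : Nat.Coprime n l := by
  rw [Nat.coprime_comm]
  refine Nat.Coprime.symm ?_
  refine Nat.Coprime.symm (Nat.coprime_of_dvd ?_)
  intro p hp hpl hpn
  have h1 : P < p := by
    by_contra hcon
    have h2 : p ∣ RgI_q P := by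
      unfold RgI_q
      refine dvd_prod_of_mem _ ?_
      rw [Pool.Agent.H35.V1.mem_PPr]
      exact ⟨⟨hp.pos, by omega⟩, hp⟩
    have h3 := Nat.eq_one_of_dvd_coprimes hc hpl h2
    exact hp.one_lt.ne' h3
  obtain ⟨i, hi, h4⟩ := RgI_block P J p hp h1 ((Nat.le_of_dvd hl0 hpl).trans hl)
  exact hn i hi p h4 hpn

private theorem RgI_term (P J l : ℕ) (T : Finset ℕ) (hT : ∀ n ∈ T, Rk P J n) (hl0 : 0 < l)
    (hl : l ≤ P * 2 ^ J) (hc : Nat.Coprime l (RgI_q P)) :
    Pool.Agent.H87.WL.mo l ^ 2 / (l.totient : ℝ) * (T.card : ℝ) ^ 2 ≤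
      ∑ b ∈ (Icc 1 l).filter (fun b => Nat.Coprime b l),
        ‖∑ n ∈ T, ee ((n : ℝ) * b / l)‖ ^ 2 := by
  have hφ : (0 : ℝ) < l.totient := by exact_mod_cast Nat.totient_pos.2 hl0
  have h1 : ∑ b ∈ (Icc 1 l).filter (fun b => Nat.Coprime b l),
      ∑ n ∈ T, ee ((n : ℝ) * b / l) = (T.card : ℂ) * ((ArithmeticFunction.moebius l : ℤ) : ℂ) := by
    rw [sum_comm, sum_congr rfl fun n hn => RgI_ram l n hl0
      (RgI_coprime P J n l (hT n hn) hl0 hl hc), sum_const, nsmul_eq_mul]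
  have h2 : ‖(T.card : ℂ) * ((ArithmeticFunction.moebius l : ℤ) : ℂ)‖ =
      (T.card : ℝ) * |Pool.Agent.H87.WL.mo l| := by
    rw [norm_mul, Complex.norm_natCast, Complex.norm_intCast]
    rfl
  have h3 : (T.card : ℝ) * |Pool.Agent.H87.WL.mo l| ≤
      ∑ b ∈ (Icc 1 l).filter (fun b => Nat.Coprime b l), ‖∑ n ∈ T, ee ((n : ℝ) * b / l)‖ := by
    rw [← h2, ← h1]
    exact norm_sum_le _ _
  have h4 := sq_sum_le_card_mul_sum_sq (s := (Icc 1 l).filter (fun b => Nat.Coprime b l))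
    (f := fun b => ‖∑ n ∈ T, ee ((n : ℝ) * b / l)‖)
  have h5 : (((Icc 1 l).filter (fun b => Nat.Coprime b l)).card : ℝ) = l.totient := by
    congr 1
    rw [Nat.totient_eq_card_coprime]
    rcases Nat.lt_or_ge 1 l with h2 | h2
    · apply congrArg card
      ext b
      rw [mem_filter, mem_Icc, mem_filter, mem_range, Nat.coprime_comm]
      constructor
      · rintro ⟨⟨h3, h4⟩, h5⟩
        refine ⟨lt_of_le_of_ne h4 ?_, h5⟩
        rintro rfl
        rw [Nat.coprime_self] at h5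
        omega
      · rintro ⟨h3, h4⟩
        refine ⟨⟨?_, h3.le⟩, h4⟩
        by_contra h5
        have h6 : b = 0 := by omega
        subst h6
        rw [Nat.coprime_zero_right] at h4
        omega
    · have h3 : l = 1 := by omega
      subst h3
      decide
  rw [h5] at h4
  have h6 : ((T.card : ℝ) * |Pool.Agent.H87.WL.mo l|) ^ 2 ≤
      (∑ b ∈ (Icc 1 l).filter (fun b => Nat.Coprime b l),
        ‖∑ n ∈ T, ee ((n : ℝ) * b / l)‖) ^ 2 :=
    pow_le_pow_left₀ (by positivity) h3 2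
  rw [mul_pow, sq_abs] at h6
  rw [div_mul_eq_mul_div, div_le_iff₀ hφ]
  calc Pool.Agent.H87.WL.mo l ^ 2 * (T.card : ℝ) ^ 2
      = (T.card : ℝ) ^ 2 * Pool.Agent.H87.WL.mo l ^ 2 := by ring
    _ ≤ _ := h6.trans h4
    _ = _ := by ring

private theorem RgI_main (P J K0 K : ℕ) (T : Finset ℕ) (hT : ∀ n ∈ T, Rk P J n)
    (hTs : T ⊆ Ioc K0 (K0 + K)) :
    (T.card : ℝ) * Pool.Agent.H87.WL.Gs (P * 2 ^ J) (RgI_q P) ≤
      ((P * 2 ^ J : ℕ) : ℝ) ^ 2 + Real.pi * K := by
  rcases Nat.eq_zero_or_pos T.card with h0 | h0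
  · rw [h0, Nat.cast_zero, zero_mul]
    positivity
  have hc0 : (0 : ℝ) < T.card := by exact_mod_cast h0
  have h1 := Pool.Agent.H91.PK.additive_ls (P * 2 ^ J) K0 K (fun n => if n ∈ T then 1 else 0)
  have h2 : ∀ t : ℕ → ℂ, ∑ n ∈ Ioc K0 (K0 + K), (if n ∈ T then (1 : ℂ) else 0) * t n =
      ∑ n ∈ T, t n := by
    intro t
    rw [← sum_filter_add_sum_filter_not (Ioc K0 (K0 + K)) (fun n => n ∈ T)]
    have e1 : (Ioc K0 (K0 + K)).filter (fun n => n ∈ T) = T := by
      ext n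
      rw [mem_filter]
      exact ⟨fun h => h.2, fun h => ⟨hTs h, h⟩⟩
    rw [e1]
    have e2 : ∑ n ∈ (Ioc K0 (K0 + K)).filter (fun n => ¬ n ∈ T),
        (if n ∈ T then (1 : ℂ) else 0) * t n = 0 := by
      refine sum_eq_zero fun n hn => ?_
      rw [if_neg (mem_filter.1 hn).2, zero_mul]
    rw [e2, add_zero]
    refine sum_congr rfl fun n hn => ?_
    rw [if_pos hn, one_mul]
  have h3 : ∑ n ∈ Ioc K0 (K0 + K), ‖(if n ∈ T then (1 : ℂ) else 0)‖ ^ 2 = (T.card : ℝ) := by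
    have e1 : ∀ n, ‖(if n ∈ T then (1 : ℂ) else 0)‖ ^ 2 = if n ∈ T then (1 : ℝ) else 0 := by
      intro n
      split_ifs <;> simp
    simp only [e1]
    rw [← sum_filter]
    have e2 : (Ioc K0 (K0 + K)).filter (fun n => n ∈ T) = T := by
      ext n
      rw [mem_filter]
      exact ⟨fun h => h.2, fun h => ⟨hTs h, h⟩⟩
    rw [e2, sum_const, nsmul_eq_mul, mul_one]
  rw [h3] at h1
  simp only [h2] at h1
  have h4 : Pool.Agent.H87.WL.Gs (P * 2 ^ J) (RgI_q P) * (T.card : ℝ) ^ 2 ≤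
      (((P * 2 ^ J : ℕ) : ℝ) ^ 2 + Real.pi * K) * T.card := by
    refine le_trans ?_ h1
    unfold Pool.Agent.H87.WL.Gs
    rw [sum_mul]
    refine le_trans (sum_le_sum (g := fun l : ℕ =>
      ∑ b ∈ (Icc 1 l).filter (fun b => Nat.Coprime b l),
        ‖∑ n ∈ T, ee ((n : ℝ) * b / l)‖ ^ 2) fun l hl => ?_) ?_
    · rw [mem_filter, mem_Icc] at hl
      exact RgI_term P J l T hT (by omega) hl.1.2 hl.2
    · refine sum_le_sum_of_subset_of_nonneg (filter_subset _ _) fun l _ _ => ?_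
      exact sum_nonneg fun b _ => by positivity
  have h5 : (T.card : ℝ) * ((T.card : ℝ) * Pool.Agent.H87.WL.Gs (P * 2 ^ J) (RgI_q P)) ≤
      T.card * (((P * 2 ^ J : ℕ) : ℝ) ^ 2 + Real.pi * K) := by
    calc _ = Pool.Agent.H87.WL.Gs (P * 2 ^ J) (RgI_q P) * (T.card : ℝ) ^ 2 := by ring
      _ ≤ _ := h4
      _ = _ := by ring
  exact le_of_mul_le_mul_left h5 hc0

open Classical in
theorem rg_int : ∃ C : ℝ, 0 < C ∧ ∀ P J a h : ℕ, 2 ≤ P → (P * 2 ^ J) ^ 4 ≤ h →
    (((Ico a (a + h)).filter (fun n => Rk P J n)).card : ℝ)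
      ≤ C * h * Real.log P / Real.log ((P * 2 ^ J : ℕ) : ℝ) := by
  obtain ⟨C, hC, hM⟩ := RgI_mertens
  refine ⟨5 * C + 2, by positivity, fun P J a h hP hh => ?_⟩
  set D : ℕ := P * 2 ^ J with hD
  have hD2 : 2 ≤ D := hP.trans (Nat.le_mul_of_pos_right P (by positivity))
  have hlP : 0 < Real.log P := Real.log_pos (by exact_mod_cast (by omega : 1 < P))
  have hlD : 0 < Real.log D := Real.log_pos (by exact_mod_cast (by omega : 1 < D))
  have hDh2 : D ^ 2 ≤ h := (Nat.pow_le_pow_right (by omega) (by norm_num)).trans hh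
  have hDh : D ≤ h := (Nat.le_self_pow (by norm_num) D).trans hh
  set T : Finset ℕ := (Ioc (a - 1) (a - 1 + h)).filter (fun n => Rk P J n) with hT
  have hmain := RgI_main P J (a - 1) h T (fun n hn => (mem_filter.1 hn).2) (filter_subset _ _)
  rw [← hD] at hmain
  have hcard : ((Ico a (a + h)).filter (fun n => Rk P J n)).card ≤ T.card + 1 := by
    have hsub : (Ico a (a + h)).filter (fun n => Rk P J n) ⊆ insert 0 T := by
      intro n hn
      rw [mem_filter, mem_Ico] at hn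
      rw [mem_insert, hT, mem_filter, mem_Ioc]
      rcases Nat.eq_zero_or_pos n with h0 | h0
      · exact Or.inl h0
      · exact Or.inr ⟨⟨by omega, by omega⟩, hn.2⟩
    exact (card_le_card hsub).trans (card_insert_le _ _)
  have hGs := Pool.Agent.H87.WL.gs_ge D (RgI_q P) (Nat.one_le_iff_ne_zero.2 (RgI_q_ne P))
  have hq := hM P hP
  have hq0 : (0 : ℝ) < RgI_q P := by exact_mod_cast Nat.pos_of_ne_zero (RgI_q_ne P)
  have hφ0 : (0 : ℝ) < (RgI_q P).totient := by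
    exact_mod_cast Nat.totient_pos.2 (Nat.pos_of_ne_zero (RgI_q_ne P))
  have hlD1 : Real.log D ≤ Real.log (D + 1) :=
    Real.log_le_log (by exact_mod_cast (by omega : 0 < D)) (by linarith)
  have h1 : Real.log D ≤ C * Real.log P * Pool.Agent.H87.WL.Gs D (RgI_q P) := by
    have h2 : 0 ≤ Pool.Agent.H87.WL.Gs D (RgI_q P) := by
      refine le_trans ?_ hGs
      have : 0 ≤ Real.log ((D : ℝ) + 1) := by linarith
      positivity
    calc Real.log D ≤ Real.log (D + 1) := hlD1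
      _ = ((RgI_q P : ℕ) : ℝ) / (RgI_q P).totient *
          (((RgI_q P).totient : ℝ) / RgI_q P * Real.log (D + 1)) := by
        field_simp
      _ ≤ ((RgI_q P : ℕ) : ℝ) / (RgI_q P).totient * Pool.Agent.H87.WL.Gs D (RgI_q P) :=
        mul_le_mul_of_nonneg_left hGs (by positivity)
      _ ≤ _ := mul_le_mul_of_nonneg_right hq h2
  have h2 : (T.card : ℝ) * Pool.Agent.H87.WL.Gs D (RgI_q P) ≤ 5 * h := by
    have h3 : ((D : ℕ) : ℝ) ^ 2 ≤ h := by exact_mod_cast hDh2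
    have h4 := Real.pi_le_four
    have h5 : Real.pi * (h : ℝ) ≤ 4 * h := mul_le_mul_of_nonneg_right h4 (Nat.cast_nonneg h)
    linarith
  have h3 : (T.card : ℝ) * Real.log D ≤ 5 * C * h * Real.log P := by
    calc (T.card : ℝ) * Real.log D
        ≤ T.card * (C * Real.log P * Pool.Agent.H87.WL.Gs D (RgI_q P)) :=
          mul_le_mul_of_nonneg_left h1 (Nat.cast_nonneg _)
      _ = C * Real.log P * ((T.card : ℝ) * Pool.Agent.H87.WL.Gs D (RgI_q P)) := by ring
      _ ≤ C * Real.log P * (5 * h) := mul_le_mul_of_nonneg_left h2 (by positivity)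
      _ = _ := by ring
  have h4 : Real.log D ≤ 2 * h * Real.log P := by
    have h5 : Real.log D ≤ D := (Real.log_le_self (Nat.cast_nonneg D))
    have h6 : (D : ℝ) ≤ h := by exact_mod_cast hDh
    have h7 : Real.log 2 ≤ Real.log P :=
      Real.log_le_log (by norm_num) (by exact_mod_cast hP)
    have h8 := Real.log_two_gt_d9
    have h9 : (0 : ℝ) ≤ h := Nat.cast_nonneg h
    nlinarith
  rw [le_div_iff₀ hlD]
  have h5 : (((Ico a (a + h)).filter (fun n => Rk P J n)).card : ℝ) ≤ T.card + 1 := by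
    exact_mod_cast hcard
  calc (((Ico a (a + h)).filter (fun n => Rk P J n)).card : ℝ) * Real.log D
      ≤ (T.card + 1) * Real.log D := mul_le_mul_of_nonneg_right h5 hlD.le
    _ = T.card * Real.log D + Real.log D := by ring
    _ ≤ 5 * C * h * Real.log P + 2 * h * Real.log P := add_le_add h3 h4
    _ = _ := by ring

end Pool.Agent.H76.MU

end

section

/-!
# CH DecP: the error of the decomposition along progressions

Proof (compare `dec_w`, file `H43/LM/DecW.lean`).  `D = Q J`, `K ≥ D^4`; all primes `p ∈ (Q 0, D]` are prime to `d` (`1 ≤ d ≤ Q 0 < p`), so the number of `q` in an interval of `K` integers with `m ∣ n0 + d q` is `≤ K/m + 1` for `m` = a product of such primes.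
(a) `Fr (Q 0) D (n0 + d q)`: CRT: there is a natural number `e` with `d e ≡ n0 (mod p)` for all primes `p ∈ (Q 0, D]`; then `p ∣ n0 + d q` iff `p ∣ e + q`; so the number is at most the number of `n ∈ Ico (e + q0 + 1) (e + q0 + 1 + K)` without prime factor in `(Q 0, D]`; `rg_int` (`H76/MU/RgI.lean`;
 `Rk P J' n` = no prime factor in `(P, P 2^{J'}]`) with `P = Q 0`, `J' = Nat.log 2 (D / Q 0)`, `Q 0 · 2^{J'} > D/2`: `≤ 2 C K log(Q 0)/log D` if `D ≥ 4` (if `D < 4` everything is trivial: `Q J < 4`; then take `C ≥ ..`: `log (Q 0)/log D ≥ log 2/log 4`).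
(b) `∑_j` over the pairs `p ≠ p'` of the block: `≤ ∑_j ((2/W)^2 K + (2 Q j/W)^2)` since the block has at most `Q (j+1) - Q j ≤ 2 Q j/W` elements, each `> Q j`: `≤ 4 K J/W^2 + D^2 ≤ 16 K log D/W + D^2` (`∑_j #_j^2 ≤ (∑_j #_j)^2 ≤ D^2`), `W ≥ (log D)^3`.
(c) `∑_{Q 0 < p ≤ D} (K/p^2 + 1) ≤ K/Q 0 + D`, `Q 0 ≥ log D`.
All `≤ C K/log D · (..)`, and `log (Q 0) ≥ log 2`; `D^2 + D ≤ 2 K^{1/2} ≤ C K/log D`.
-/

set_option autoImplicit false

namespace Pool.Agent.H43.CH

open Finset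
open Pool.Agent.H43.LM (Fr)
open Pool.Agent.H35.W (pb Rk)

/-- multiples in an interval -/
private theorem DecP_mul (a h m : ℕ) (hm : 1 ≤ m) :
    (((Ico a (a + h)).filter (fun n => m ∣ n)).card : ℝ) ≤ (h : ℝ) / m + 1 := by
  have h1 : ((Ico a (a + h)).filter (fun n => m ∣ n)).card
      ≤ (Ico ((a + m - 1) / m) ((a + h + m - 1) / m)).card := by
    refine card_le_card_of_injOn (fun n => n / m) ?_ ?_
    · intro n hn
      simp only [coe_filter, mem_Ico, Set.mem_ofPred_eq] at hn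
      obtain ⟨⟨h1, h2⟩, k, rfl⟩ := hn
      simp only [coe_Ico, Set.mem_Ico]
      rw [Nat.mul_div_cancel_left k (by omega)]
      constructor
      · rw [← Nat.lt_succ_iff, Nat.div_lt_iff_lt_mul (by omega)]
        have : (k + 1) * m = m * k + m := by ring
        rw [Nat.succ_eq_add_one, this]
        omega
      · rw [Nat.lt_iff_add_one_le, Nat.le_div_iff_mul_le (by omega)]
        have : (k + 1) * m = m * k + m := by ring
        rw [this]
        omega
    · intro n hn n' hn' he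
      simp only [coe_filter, mem_Ico, Set.mem_ofPred_eq] at hn hn'
      obtain ⟨-, k, rfl⟩ := hn
      obtain ⟨-, k', rfl⟩ := hn'
      simp only at he
      rw [Nat.mul_div_cancel_left k (by omega), Nat.mul_div_cancel_left k' (by omega)] at he
      rw [he]
  rw [Nat.card_Ico] at h1
  have hm0 : (0 : ℝ) < m := by exact_mod_cast hm
  have e1 : (((a + h + m - 1) / m : ℕ) : ℝ) ≤ ((a + h + m - 1 : ℕ) : ℝ) / m := Nat.cast_div_le
  have e2 : ((a + m - 1 : ℕ) : ℝ) / m ≤ (((a + m - 1) / m : ℕ) : ℝ) + 1 := by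
    rw [div_le_iff₀ hm0]
    have e3 := Nat.div_add_mod (a + m - 1) m
    have e4 := Nat.mod_lt (a + m - 1) (show 0 < m by omega)
    have e5 : a + m - 1 ≤ ((a + m - 1) / m + 1) * m := by
      have : ((a + m - 1) / m + 1) * m = m * ((a + m - 1) / m) + m := by ring
      rw [this]
      omega
    exact_mod_cast e5
  have e6 : ((a + h + m - 1 : ℕ) : ℝ) = ((a + m - 1 : ℕ) : ℝ) + h := by
    have : a + h + m - 1 = (a + m - 1) + h := by omega
    rw [this]
    push_cast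
    ring
  rw [e6, add_div] at e1
  have e7 : (((Ico a (a + h)).filter (fun n => m ∣ n)).card : ℝ)
      ≤ (((a + h + m - 1) / m - (a + m - 1) / m : ℕ) : ℝ) := by exact_mod_cast h1
  rcases Nat.le_total ((a + m - 1) / m) ((a + h + m - 1) / m) with hle | hle
  · rw [Nat.cast_sub hle] at e7
    linarith only [e1, e2, e7]
  · rw [Nat.sub_eq_zero_of_le hle] at e7
    have : (0 : ℝ) ≤ (h : ℝ) / m := by positivity
    push_cast at e7
    linarith only [this, e7]

/-- pairs of primes -/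
private theorem DecP_pairs (P P' a h : ℕ) (hP : 1 ≤ P) :
    ∑ n ∈ Ico a (a + h), rI P P' n * (rI P P' n - 1) ≤
      ((pI P P').card : ℝ) ^ 2 * ((h : ℝ) / (P : ℝ) ^ 2 + 1) := by
  have h1 : ∀ n, rI P P' n * (rI P P' n - 1) =
      ∑ t ∈ (pI P P').offDiag, if t.1 ∣ n ∧ t.2 ∣ n then (1 : ℝ) else 0 := by
    intro n
    have e1 : ∑ t ∈ (pI P P').offDiag, (if t.1 ∣ n ∧ t.2 ∣ n then (1 : ℝ) else 0)
        = (((pI P P').filter (fun p => p ∣ n)).offDiag.card : ℝ) := by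
      rw [← sum_filter, sum_const, nsmul_eq_mul, mul_one]
      have : (pI P P').offDiag.filter (fun t => t.1 ∣ n ∧ t.2 ∣ n) =
          ((pI P P').filter (fun p => p ∣ n)).offDiag := by
        ext t
        simp only [mem_filter, mem_offDiag]
        tauto
      rw [this]
    rw [e1, offDiag_card, Nat.cast_sub (Nat.le_mul_self _)]
    unfold rI
    push_cast
    ring
  have h2 : ∑ n ∈ Ico a (a + h), rI P P' n * (rI P P' n - 1)
      = ∑ t ∈ (pI P P').offDiag, ∑ n ∈ Ico a (a + h), if t.1 ∣ n ∧ t.2 ∣ n then (1 : ℝ) else 0 := by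
    rw [sum_comm]
    exact sum_congr rfl fun n _ => h1 n
  rw [h2]
  have hP0 : (0 : ℝ) < P := by exact_mod_cast hP
  have h3 : ∀ t ∈ (pI P P').offDiag, ∑ n ∈ Ico a (a + h), (if t.1 ∣ n ∧ t.2 ∣ n then (1 : ℝ) else 0)
      ≤ (h : ℝ) / (P : ℝ) ^ 2 + 1 := by
    intro t ht
    rw [mem_offDiag] at ht
    obtain ⟨ht1, ht2, ht3⟩ := ht
    unfold pI at ht1 ht2
    rw [mem_filter, mem_Ioc] at ht1 ht2
    have hc : Nat.Coprime t.1 t.2 := (Nat.coprime_primes ht1.2 ht2.2).2 ht3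
    rw [← sum_filter, sum_const, nsmul_eq_mul, mul_one]
    have h4 : ((Ico a (a + h)).filter (fun n => t.1 ∣ n ∧ t.2 ∣ n)).card
        ≤ ((Ico a (a + h)).filter (fun n => t.1 * t.2 ∣ n)).card := by
      refine card_le_card fun n hn => ?_
      rw [mem_filter] at hn ⊢
      exact ⟨hn.1, hc.mul_dvd_of_dvd_of_dvd hn.2.1 hn.2.2⟩
    have h5 := DecP_mul a h (t.1 * t.2) (Nat.mul_pos ht1.2.pos ht2.2.pos)
    have h6 : (h : ℝ) / ((t.1 * t.2 : ℕ) : ℝ) ≤ (h : ℝ) / (P : ℝ) ^ 2 := by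
      refine div_le_div_of_nonneg_left (by positivity) (by positivity) ?_
      push_cast
      have e1 : (P : ℝ) ≤ t.1 := by exact_mod_cast ht1.1.1.le
      have e2 : (P : ℝ) ≤ t.2 := by exact_mod_cast ht2.1.1.le
      nlinarith only [e1, e2]
    have h7 : (((Ico a (a + h)).filter (fun n => t.1 ∣ n ∧ t.2 ∣ n)).card : ℝ)
        ≤ (((Ico a (a + h)).filter (fun n => t.1 * t.2 ∣ n)).card : ℝ) := by exact_mod_cast h4
    linarith only [h5, h6, h7]
  refine (sum_le_sum h3).trans ?_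
  rw [sum_const, nsmul_eq_mul]
  refine mul_le_mul_of_nonneg_right ?_ (by positivity)
  have h8 : (pI P P').offDiag.card ≤ (pI P P').card ^ 2 := by
    rw [offDiag_card, sq]
    exact Nat.sub_le _ _
  exact_mod_cast h8

/-- squares of primes -/
private theorem DecP_sq (P1 D a h : ℕ) (hP1 : 1 ≤ P1) (hD : P1 ≤ D) :
    ∑ n ∈ Ico a (a + h), (((pI P1 D).filter (fun p => p ^ 2 ∣ n)).card : ℝ)
      ≤ (h : ℝ) / P1 + D := by
  unfold pI
  have h1 : ∀ n, ((((Ioc P1 D).filter Nat.Prime).filter (fun p => p ^ 2 ∣ n)).card : ℝ)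
      = ∑ p ∈ (Ioc P1 D).filter Nat.Prime, if p ^ 2 ∣ n then (1 : ℝ) else 0 := by
    intro n
    rw [← sum_filter, sum_const, nsmul_eq_mul, mul_one]
  rw [sum_congr rfl fun n _ => h1 n, sum_comm]
  have h3 : ∀ p ∈ (Ioc P1 D).filter Nat.Prime, ∑ n ∈ Ico a (a + h), (if p ^ 2 ∣ n then (1 : ℝ) else 0)
      ≤ (h : ℝ) * ((p : ℝ) ^ 2)⁻¹ + 1 := by
    intro p hp
    rw [mem_filter, mem_Ioc] at hp
    rw [← sum_filter, sum_const, nsmul_eq_mul, mul_one]
    have h5 := DecP_mul a h (p ^ 2) (Nat.pos_of_ne_zero (pow_ne_zero 2 hp.2.ne_zero))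
    push_cast at h5
    rw [← div_eq_mul_inv]
    exact h5
  refine (sum_le_sum h3).trans ?_
  have h4 : ∑ p ∈ (Ioc P1 D).filter Nat.Prime, ((h : ℝ) * ((p : ℝ) ^ 2)⁻¹ + 1)
      ≤ ∑ p ∈ Ioc P1 D, ((h : ℝ) * ((p : ℝ) ^ 2)⁻¹ + 1) :=
    sum_le_sum_of_subset_of_nonneg (filter_subset _ _) fun p _ _ => by positivity
  refine h4.trans ?_
  rw [sum_add_distrib, ← mul_sum, sum_const, nsmul_eq_mul, mul_one, Nat.card_Ioc]
  have h6 := sum_Ioc_inv_sq_le_sub (α := ℝ) (k := P1) (n := D) (by omega) hD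
  have h7 : ∑ p ∈ Ioc P1 D, ((p : ℝ) ^ 2)⁻¹ ≤ (P1 : ℝ)⁻¹ := by
    have : (0 : ℝ) ≤ (D : ℝ)⁻¹ := by positivity
    linarith only [h6, this]
  have h8 : ((D - P1 : ℕ) : ℝ) ≤ D := by exact_mod_cast Nat.sub_le _ _
  have h9 : (h : ℝ) * ∑ p ∈ Ioc P1 D, ((p : ℝ) ^ 2)⁻¹ ≤ (h : ℝ) * (P1 : ℝ)⁻¹ :=
    mul_le_mul_of_nonneg_left h7 (by positivity)
  rw [div_eq_mul_inv]
  linarith only [h8, h9]

/-- the shift -/
private theorem DecP_shift (d n0 M : ℕ) (hM : 1 ≤ M) (hd : Nat.Coprime d M) :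
    ∃ e : ℕ, ∀ m q : ℕ, m ∣ M → (m ∣ n0 + d * q ↔ m ∣ e + q) := by
  haveI : NeZero M := ⟨by omega⟩
  refine ⟨((n0 : ZMod M) * ((ZMod.unitOfCoprime d hd)⁻¹ : (ZMod M)ˣ)).val, fun m q hm => ?_⟩
  obtain ⟨e, he⟩ : ∃ e, e = ((n0 : ZMod M) * ((ZMod.unitOfCoprime d hd)⁻¹ : (ZMod M)ˣ)).val := ⟨_, rfl⟩
  rw [← he]
  have h1 : ((d * e : ℕ) : ZMod M) = (n0 : ZMod M) := by
    rw [he]
    push_cast
    rw [ZMod.natCast_val, ZMod.cast_id', id_eq]
    have h2 : (d : ZMod M) = (ZMod.unitOfCoprime d hd : ZMod M) := (ZMod.coe_unitOfCoprime d hd).symm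
    rw [h2, mul_left_comm, Units.mul_inv, mul_one]
  have h2 : d * e ≡ n0 [MOD M] := (ZMod.natCast_eq_natCast_iff _ _ _).mp h1
  have h3 : d * e ≡ n0 [MOD m] := h2.of_dvd hm
  have h4 : n0 + d * q ≡ d * (e + q) [MOD m] := by
    have h5 := (h3.add_right (d * q)).symm
    rw [mul_add]
    exact h5
  have h5 : Nat.Coprime m d := (Nat.Coprime.coprime_dvd_right hm hd).symm
  rw [(h4.dvd_iff dvd_rfl)]
  exact h5.dvd_mul_left

private theorem DecP_Fr (P1 D J n : ℕ) (hJ : P1 * 2 ^ J ≤ D) (h : Fr P1 D n) : Rk P1 J n := by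
  intro i hi p hp
  unfold pb at hp
  rw [mem_filter, mem_Ioc] at hp
  refine h p hp.2 ?_ ?_
  · have : P1 * 1 ≤ P1 * 2 ^ i := Nat.mul_le_mul_left _ Nat.one_le_two_pow
    omega
  · refine hp.1.2.trans (le_trans ?_ hJ)
    have : 2 ^ (i + 1) ≤ 2 ^ J := Nat.pow_le_pow_right (by norm_num) (by omega)
    calc 2 * (P1 * 2 ^ i) = P1 * 2 ^ (i + 1) := by ring
      _ ≤ P1 * 2 ^ J := Nat.mul_le_mul_left _ this

private theorem DecP_tel (Q : ℕ → ℕ) (hQ : Monotone Q) (J : ℕ) :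
    ∑ j ∈ range J, ((Q (j + 1) - Q j : ℕ) : ℝ) ≤ Q J := by
  have h1 : ∑ j ∈ range J, ((Q (j + 1) - Q j : ℕ) : ℝ) = (Q J : ℝ) - Q 0 := by
    rw [← sum_range_sub (fun j => (Q j : ℝ))]
    refine sum_congr rfl fun j _ => ?_
    rw [Nat.cast_sub (hQ (Nat.le_succ j))]
  rw [h1]
  have : (0 : ℝ) ≤ Q 0 := by positivity
  linarith only

theorem dec_p : ∃ C : ℝ, 0 < C ∧ ∀ (Q : ℕ → ℕ) (J W d n0 q0 K : ℕ), 2 ≤ Q 0 → Monotone Q → 1 ≤ W →
    (∀ j, j < J → (Q (j + 1) - Q j) * W ≤ 2 * Q j) → (J : ℝ) ≤ 4 * W * Real.log (Q J) → Real.log (Q J) ^ 3 ≤ W →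
    Real.log (Q J) ≤ Q 0 → 1 ≤ d → d ≤ Q 0 → Q J ^ 4 ≤ K →
    ∑ q ∈ Ioc q0 (q0 + K), erN Q J (n0 + d * q) ≤ C * K * Real.log (Q 0) / Real.log (Q J) := by
  classical
  obtain ⟨C, hC, hR⟩ := Pool.Agent.H76.MU.rg_int
  refine ⟨2 * C + 40, by positivity, fun Q J W d n0 q0 K hQ0 hQm hW hblk hJ hWl hlQ hd1 hd2 hK => ?_⟩
  obtain ⟨D, hD⟩ : ∃ D, D = Q J := ⟨_, rfl⟩
  rw [← hD] at hJ hWl hlQ hK ⊢
  have hQD : Q 0 ≤ D := hD ▸ hQm (Nat.zero_le J)
  have hD2 : 2 ≤ D := hQ0.trans hQD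
  have hlQ0 : 0 < Real.log (Q 0) := Real.log_pos (by exact_mod_cast (by omega : 1 < Q 0))
  have hlD : 0 < Real.log D := Real.log_pos (by exact_mod_cast (by omega : 1 < D))
  have hl2 := Real.log_two_gt_d9
  have hlQ2 : Real.log 2 ≤ Real.log (Q 0) :=
    Real.log_le_log (by norm_num) (by exact_mod_cast hQ0)
  have hlD2 : Real.log 2 ≤ Real.log D := Real.log_le_log (by norm_num) (by exact_mod_cast hD2)
  have hDr : (2 : ℝ) ≤ D := by exact_mod_cast hD2
  have hQ0r : (2 : ℝ) ≤ Q 0 := by exact_mod_cast hQ0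
  have hKr : (D : ℝ) ^ 4 ≤ K := by exact_mod_cast hK
  have hK0 : (0 : ℝ) < K := lt_of_lt_of_le (by positivity) hKr
  have hWr : (1 : ℝ) ≤ W := by exact_mod_cast hW
  have hlDD : Real.log D ≤ D := by
    have := Real.log_le_sub_one_of_pos (show (0 : ℝ) < D by linarith only [hDr])
    linarith only [this]
  -- the modulus
  obtain ⟨M0, hM0⟩ : ∃ M0, M0 = ∏ p ∈ pI (Q 0) D, p := ⟨_, rfl⟩
  have hpI : ∀ p ∈ pI (Q 0) D, p.Prime ∧ Q 0 < p := by
    intro p hp
    unfold pI at hp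
    rw [mem_filter, mem_Ioc] at hp
    exact ⟨hp.2, hp.1.1⟩
  have hM0d : Nat.Coprime d M0 := by
    rw [hM0]
    refine Nat.Coprime.prod_right fun p hp => ?_
    have h1 := hpI p hp
    refine ((Nat.Prime.coprime_iff_not_dvd h1.1).2 fun h2 => ?_).symm
    have := Nat.le_of_dvd (by omega) h2
    omega
  have hM1 : 1 ≤ M0 ^ 2 := by
    refine Nat.one_le_iff_ne_zero.2 (pow_ne_zero 2 ?_)
    rw [hM0]
    exact prod_ne_zero_iff.2 fun p hp => (hpI p hp).1.ne_zero
  obtain ⟨e, he⟩ := DecP_shift d n0 (M0 ^ 2) hM1 (Nat.Coprime.pow_right 2 hM0d)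
  have hdv : ∀ p ∈ pI (Q 0) D, p ∣ M0 := fun p hp => hM0 ▸ dvd_prod_of_mem _ hp
  have hp1 : ∀ p ∈ pI (Q 0) D, ∀ q, (p ∣ n0 + d * q ↔ p ∣ e + q) := fun p hp q =>
    he p q ((hdv p hp).trans (dvd_pow_self M0 (by norm_num)))
  have hp2 : ∀ p ∈ pI (Q 0) D, ∀ q, (p ^ 2 ∣ n0 + d * q ↔ p ^ 2 ∣ e + q) := fun p hp q =>
    he (p ^ 2) q (pow_dvd_pow_of_dvd (hdv p hp) 2)
  have hmemI : ∀ p, p ∈ pI (Q 0) D ↔ (Q 0 < p ∧ p ≤ D) ∧ p.Prime := by
    intro p
    unfold pI
    rw [mem_filter, mem_Ioc]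
  have hsub : ∀ j ∈ range J, ∀ p ∈ pI (Q j) (Q (j + 1)), p ∈ pI (Q 0) D := by
    intro j hj p hp
    rw [mem_range] at hj
    unfold pI at hp
    rw [mem_filter, mem_Ioc] at hp
    rw [hmemI]
    have h1 : Q 0 ≤ Q j := hQm (Nat.zero_le j)
    have h2 : Q (j + 1) ≤ D := hD ▸ hQm hj
    exact ⟨⟨by omega, by omega⟩, hp.2⟩
  have hsum : ∑ q ∈ Ioc q0 (q0 + K), erN Q J (n0 + d * q) =
      ∑ n ∈ Ico (e + q0 + 1) (e + q0 + 1 + K), erN Q J n := by
    have h1 : ∀ q, erN Q J (n0 + d * q) = erN Q J (e + q) := by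
      intro q
      unfold erN
      rw [← hD]
      have h2 : Fr (Q 0) D (n0 + d * q) = Fr (Q 0) D (e + q) := by
        refine propext ⟨fun h p hp h3 h4 h5 => ?_, fun h p hp h3 h4 h5 => ?_⟩
        · exact h p hp h3 h4 ((hp1 p ((hmemI p).2 ⟨⟨h3, h4⟩, hp⟩) q).2 h5)
        · exact h p hp h3 h4 ((hp1 p ((hmemI p).2 ⟨⟨h3, h4⟩, hp⟩) q).1 h5)
      have h3 : ∀ j ∈ range J, rI (Q j) (Q (j + 1)) (n0 + d * q) = rI (Q j) (Q (j + 1)) (e + q) := by
        intro j hj
        unfold rI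
        congr 2
        refine filter_congr fun p hp => ?_
        exact hp1 p (hsub j hj p hp) q
      have h4 : (pI (Q 0) D).filter (fun p => p ^ 2 ∣ n0 + d * q) =
          (pI (Q 0) D).filter (fun p => p ^ 2 ∣ e + q) :=
        filter_congr fun p hp => hp2 p hp q
      rw [h2, h4, sum_congr rfl fun j hj => by rw [h3 j hj]]
    rw [sum_congr rfl fun q _ => h1 q]
    refine sum_nbij' (fun q => e + q) (fun n => n - e) ?_ ?_ ?_ ?_ ?_
    · intro q hq
      rw [mem_Ioc] at hq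
      rw [mem_Ico]
      omega
    · intro n hn
      rw [mem_Ico] at hn
      rw [mem_Ioc]
      omega
    · intro q _
      simp
    · intro n hn
      rw [mem_Ico] at hn
      show e + (n - e) = n
      omega
    · intro q _
      rfl
  rw [hsum]
  obtain ⟨a, ha⟩ : ∃ a, a = e + q0 + 1 := ⟨_, rfl⟩
  rw [← ha]
  unfold erN
  rw [sum_add_distrib, sum_add_distrib, ← hD]
  obtain ⟨Y, hY⟩ : ∃ Y, Y = K * (Real.log (Q 0) / Real.log D) := ⟨_, rfl⟩
  have hY0 : 0 ≤ Y := by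
    rw [hY]
    positivity
  -- basic comparison
  have hinv : 1 / Real.log D ≤ 2 * (Real.log (Q 0) / Real.log D) := by
    rw [← mul_div_assoc]
    refine div_le_div_of_nonneg_right ?_ hlD.le
    linarith only [hlQ0, hl2, hlQ2]
  have hDY : (D : ℝ) ^ 2 ≤ Y := by
    have h1 : (D : ℝ) ^ 2 * Real.log D ≤ K * Real.log (Q 0) := by
      have h2 : (D : ℝ) ^ 2 * Real.log D ≤ (D : ℝ) ^ 2 * D := mul_le_mul_of_nonneg_left hlDD (by positivity)
      have h3 : (D : ℝ) ^ 4 * (1 / 2) ≤ K * Real.log (Q 0) :=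
        mul_le_mul hKr (by linarith only [hlQ0, hl2, hlQ2]) (by norm_num) hK0.le
      have h4 : (D : ℝ) ^ 2 * D ≤ (D : ℝ) ^ 4 * (1 / 2) := by
        have h5 : (D : ℝ) ^ 4 * (1 / 2) = (D : ℝ) ^ 2 * D * (D / 2) := by ring
        rw [h5]
        exact le_mul_of_one_le_right (by positivity) (by linarith only [hDr])
      linarith only [h2, h3, h4]
    rw [hY, ← mul_div_assoc, le_div_iff₀ hlD]
    exact h1
  -- part (a)
  have hA : ∑ n ∈ Ico a (a + K), (if Fr (Q 0) D n then (1 : ℝ) else 0) ≤ 2 * C * Y := by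
    rw [← sum_filter, sum_const, nsmul_eq_mul, mul_one]
    obtain ⟨J', hJ'⟩ : ∃ J', J' = Nat.log 2 (D / Q 0) := ⟨_, rfl⟩
    have hdiv : D / Q 0 ≠ 0 := (Nat.div_pos hQD (by omega)).ne'
    have h1 : Q 0 * 2 ^ J' ≤ D := by
      have h2 : 2 ^ J' ≤ D / Q 0 := hJ' ▸ Nat.pow_log_le_self 2 hdiv
      calc Q 0 * 2 ^ J' ≤ Q 0 * (D / Q 0) := Nat.mul_le_mul_left _ h2
        _ ≤ D := Nat.mul_div_le D (Q 0)
    have h2 : D < Q 0 * 2 ^ (J' + 1) := by
      have h3 : D / Q 0 < 2 ^ (J' + 1) := hJ' ▸ Nat.lt_pow_succ_log_self (by norm_num) _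
      rw [mul_comm]
      exact (Nat.div_lt_iff_lt_mul (by omega)).1 h3
    have e1 : ((Ico a (a + K)).filter (fun n => Fr (Q 0) D n)).card
        ≤ ((Ico a (a + K)).filter (fun n => Rk (Q 0) J' n)).card := by
      refine card_le_card fun n hn => ?_
      rw [mem_filter] at hn ⊢
      exact ⟨hn.1, DecP_Fr (Q 0) D J' n h1 hn.2⟩
    have e2 := hR (Q 0) J' a K hQ0 ((Nat.pow_le_pow_left h1 4).trans hK)
    have e3 : (((Ico a (a + K)).filter (fun n => Fr (Q 0) D n)).card : ℝ)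
        ≤ (((Ico a (a + K)).filter (fun n => Rk (Q 0) J' n)).card : ℝ) := by exact_mod_cast e1
    have e4 : Real.log D ≤ 2 * Real.log ((Q 0 * 2 ^ J' : ℕ) : ℝ) := by
      have h3 : 2 ≤ Q 0 * 2 ^ J' := by
        have : Q 0 * 1 ≤ Q 0 * 2 ^ J' := Nat.mul_le_mul_left _ Nat.one_le_two_pow
        omega
      have h4 : D ≤ (Q 0 * 2 ^ J') ^ 2 := by
        have h5 : Q 0 * 2 ^ (J' + 1) = (Q 0 * 2 ^ J') * 2 := by ring
        rw [h5] at h2
        have h6 : (Q 0 * 2 ^ J') * 2 ≤ (Q 0 * 2 ^ J') * (Q 0 * 2 ^ J') := Nat.mul_le_mul_left _ h3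
        rw [pow_two]
        omega
      have h5 : Real.log D ≤ Real.log (((Q 0 * 2 ^ J') ^ 2 : ℕ) : ℝ) :=
        Real.log_le_log (by linarith only [hDr]) (by exact_mod_cast h4)
      rw [Nat.cast_pow, Real.log_pow] at h5
      exact_mod_cast h5
    have h5 : 0 < Real.log ((Q 0 * 2 ^ J' : ℕ) : ℝ) := by linarith only [hlD, e4]
    have e5 : C * K * Real.log (Q 0) / Real.log ((Q 0 * 2 ^ J' : ℕ) : ℝ) ≤ 2 * C * Y := by
      rw [div_le_iff₀ h5, hY]
      have h6 : C * K * Real.log (Q 0) = C * (K * (Real.log (Q 0) / Real.log D)) * Real.log D := by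
        field_simp
      rw [h6]
      have h7 : 0 ≤ C * (K * (Real.log (Q 0) / Real.log D)) := by positivity
      nlinarith only [e4, h7, mul_le_mul_of_nonneg_left e4 h7]
    exact e3.trans (e2.trans e5)
  -- part (b)
  have hB : ∑ n ∈ Ico a (a + K), ∑ j ∈ range J, rI (Q j) (Q (j + 1)) n * (rI (Q j) (Q (j + 1)) n - 1)
      ≤ 37 * Y := by
    rw [sum_comm]
    have e1 : ∀ j ∈ range J, ∑ n ∈ Ico a (a + K), rI (Q j) (Q (j + 1)) n * (rI (Q j) (Q (j + 1)) n - 1)
        ≤ 4 * K / (W : ℝ) ^ 2 + D * ((Q (j + 1) - Q j : ℕ) : ℝ) := by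
      intro j hj
      have hj' := mem_range.1 hj
      have hQj : 1 ≤ Q j := by
        have : Q 0 ≤ Q j := hQm (Nat.zero_le j)
        omega
      have hQjr : (0 : ℝ) < Q j := by exact_mod_cast hQj
      refine (DecP_pairs (Q j) (Q (j + 1)) a K hQj).trans ?_
      have e2 : (pI (Q j) (Q (j + 1))).card ≤ Q (j + 1) - Q j := by
        unfold pI
        refine (card_filter_le _ _).trans ?_
        rw [Nat.card_Ioc]
      have e3 : ((pI (Q j) (Q (j + 1))).card : ℝ) ≤ ((Q (j + 1) - Q j : ℕ) : ℝ) := by exact_mod_cast e2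
      have e4 : ((Q (j + 1) - Q j : ℕ) : ℝ) * W ≤ 2 * Q j := by exact_mod_cast hblk j hj'
      have e5 : ((Q (j + 1) - Q j : ℕ) : ℝ) ≤ D := by
        have h2 : Q (j + 1) ≤ D := hD ▸ hQm hj'
        exact_mod_cast (Nat.sub_le _ _).trans h2
      obtain ⟨c, hc⟩ : ∃ c : ℝ, c = ((pI (Q j) (Q (j + 1))).card : ℝ) := ⟨_, rfl⟩
      obtain ⟨c', hc'⟩ : ∃ c' : ℝ, c' = ((Q (j + 1) - Q j : ℕ) : ℝ) := ⟨_, rfl⟩
      rw [← hc, ← hc'] at e3
      rw [← hc'] at e4 e5
      rw [← hc, ← hc']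
      have hc0 : 0 ≤ c := by
        rw [hc]
        exact Nat.cast_nonneg _
      have hc'0 : 0 ≤ c' := hc0.trans e3
      have e6 : c ^ 2 ≤ c' ^ 2 := pow_le_pow_left₀ hc0 e3 2
      rw [mul_add, mul_one]
      refine add_le_add ?_ ?_
      · have e7 : c * W ≤ 2 * Q j := (mul_le_mul_of_nonneg_right e3 (by linarith only [hWr])).trans e4
        have e8 : (c * W) ^ 2 ≤ (2 * Q j) ^ 2 := pow_le_pow_left₀ (by positivity) e7 2
        rw [← mul_div_assoc, div_le_div_iff₀ (by positivity) (by positivity)]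
        have e9 := mul_le_mul_of_nonneg_right e8 hK0.le
        nlinarith only [e9]
      · have e7 : c' ^ 2 ≤ D * c' := by
          rw [pow_two]
          exact mul_le_mul_of_nonneg_right e5 hc'0
        linarith only [e6, e7]
    refine (sum_le_sum e1).trans ?_
    rw [sum_add_distrib, sum_const, card_range, nsmul_eq_mul, ← mul_sum]
    have e2 : (D : ℝ) * ∑ j ∈ range J, ((Q (j + 1) - Q j : ℕ) : ℝ) ≤ Y := by
      have h1 := DecP_tel Q hQm J
      rw [← hD] at h1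
      have h2 : (D : ℝ) * ∑ j ∈ range J, ((Q (j + 1) - Q j : ℕ) : ℝ) ≤ D * D :=
        mul_le_mul_of_nonneg_left h1 (by linarith only [hDr])
      rw [pow_two] at hDY
      exact h2.trans hDY
    have e3 : (J : ℝ) * (4 * K / (W : ℝ) ^ 2) ≤ 36 * Y := by
      have hW0 : (0 : ℝ) < W := by linarith only [hWr]
      have h1 : (J : ℝ) * (4 * K / (W : ℝ) ^ 2) ≤ (4 * W * Real.log D) * (4 * K / (W : ℝ) ^ 2) :=
        mul_le_mul_of_nonneg_right hJ (by positivity)
      have h2 : (4 * W * Real.log D) * (4 * K / (W : ℝ) ^ 2) = 16 * K * (Real.log D / W) := by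
        field_simp
        ring
      have h3 : Real.log D / W ≤ 1 / Real.log D ^ 2 := by
        rw [div_le_div_iff₀ hW0 (by positivity), one_mul]
        have h9 : Real.log D * Real.log D ^ 2 = Real.log D ^ 3 := by ring
        rw [h9]
        exact hWl
      have h4 : 1 / Real.log D ^ 2 ≤ (9 / 4) * (Real.log (Q 0) / Real.log D) := by
        rw [← mul_div_assoc, div_le_div_iff₀ (by positivity) hlD]
        have h5 : 1 ≤ (9 / 4) * Real.log (Q 0) * Real.log D := by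
          have h6 : (2 / 3 : ℝ) * (2 / 3) ≤ Real.log (Q 0) * Real.log D :=
            mul_le_mul (by linarith only [hlQ0, hl2, hlQ2]) (by linarith only [hlD, hl2, hlD2]) (by norm_num) hlQ0.le
          nlinarith only [h6]
        nlinarith only [h5, hlD, mul_le_mul_of_nonneg_left h5 hlD.le]
      have h5 : 16 * K * (Real.log D / W) ≤ 16 * K * ((9 / 4) * (Real.log (Q 0) / Real.log D)) :=
        mul_le_mul_of_nonneg_left (h3.trans h4) (by positivity)
      have h6 : 16 * K * ((9 / 4) * (Real.log (Q 0) / Real.log D)) = 36 * Y := by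
        rw [hY]
        ring
      linarith only [hY, h1, h2, h5]
    linarith only [e2, e3]
  -- part (c)
  have hCc : ∑ n ∈ Ico a (a + K), (((pI (Q 0) D).filter (fun p => p ^ 2 ∣ n)).card : ℝ) ≤ 3 * Y := by
    refine (DecP_sq (Q 0) D a K (by omega) hQD).trans ?_
    have e1 : (D : ℝ) ≤ Y := by
      have : (D : ℝ) ≤ (D : ℝ) ^ 2 := by nlinarith only [hDr]
      linarith only [hDY, this]
    have e2 : (K : ℝ) / Q 0 ≤ 2 * Y := by
      have h1 : (K : ℝ) / Q 0 ≤ K / Real.log D := div_le_div_of_nonneg_left hK0.le hlD hlQ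
      have h2 : (K : ℝ) / Real.log D = K * (1 / Real.log D) := by ring
      have h3 : (K : ℝ) * (1 / Real.log D) ≤ K * (2 * (Real.log (Q 0) / Real.log D)) :=
        mul_le_mul_of_nonneg_left hinv hK0.le
      rw [hY]
      linarith only [h1, h2, h3]
    linarith only [e1, e2]
  have hfin : (2 * C + 40) * K * Real.log (Q 0) / Real.log D = (2 * C + 40) * Y := by
    rw [hY]
    ring
  rw [hfin]
  have hexp : (2 * C + 40) * Y = 2 * C * Y + 37 * Y + 3 * Y := by ring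
  rw [hexp]
  linarith only [hA, hB, hCc]

end Pool.Agent.H43.CH

end
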