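import Pool.Agent.H43.PS.M04

/-! The parts of this file: H18.RM.Sqf, H43.CH.Sqf, H43.CH.LevU, H43.CH.Tel, H43.CH.Mwm, H43.CH.Blk, H76.VKT.Low, H43.CH.Ch4L. -/

section

/-!
# Counting squarefree numbers

`#{n < N : n squarefree} = (6/π²) N + O(√N)`.  Proof: the indicator of squarefree numbers is
`∑_{d² ∣ n} μ(d)`, hence the count is `∑_{d ≤ √N} μ(d) ⌊(N-1)/d²⌋ = N ∑_{d ≤ √N} μ(d)/d² + O(√N)`,
the tail `∑_{d > √N} 1/d²` is `O(1/√N)`, and `∑ μ(d)/d² = 1/ζ(2) = 6/π²` (in Mathlib: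
`ArithmeticFunction.LSeries_zeta_mul_Lseries_moebius`, `riemannZeta_two`).
-/

set_option autoImplicit false

namespace Pool.Agent.H18.RM

open Finset

/-- `d² ∣ b² a` with `a` squarefree means `d ∣ b` -/
private theorem sqf_dvd {a b d : ℕ} (ha : Squarefree a) (hb : 0 < b) :
    d ^ 2 ∣ b ^ 2 * a ↔ d ∣ b := by
  constructor
  · intro h
    have ha0 : a ≠ 0 := ha.ne_zero
    have hn0 : b ^ 2 * a ≠ 0 := mul_ne_zero (pow_ne_zero 2 hb.ne') ha0
    have hd0 : d ≠ 0 := by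
      rintro rfl
      rw [zero_pow (by norm_num)] at h
      exact hn0 (Nat.eq_zero_of_zero_dvd h)
    rw [← Nat.factorization_le_iff_dvd hd0 hb.ne']
    rw [← Nat.factorization_le_iff_dvd (pow_ne_zero 2 hd0) hn0] at h
    intro p
    have h1 := h p
    rw [Nat.factorization_mul (pow_ne_zero 2 hb.ne') ha0, Nat.factorization_pow,
      Nat.factorization_pow] at h1
    simp only [Finsupp.coe_add, Finsupp.coe_smul, Pi.add_apply, Pi.smul_apply, smul_eq_mul] at h1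
    have h2 : a.factorization p ≤ 1 := ha.natFactorization_le_one p
    omega
  · intro h
    exact Dvd.dvd.mul_right (pow_dvd_pow_of_dvd h 2) a

private theorem sqf_moebius_sum (n : ℕ) :
    ∑ d ∈ n.divisors, (ArithmeticFunction.moebius d : ℤ) = if n = 1 then 1 else 0 := by
  rw [← ArithmeticFunction.coe_mul_zeta_apply, ArithmeticFunction.moebius_mul_coe_zeta,
    ArithmeticFunction.one_apply]

/-- the indicator of the squarefree numbers -/
private theorem sqf_ind {n D : ℕ} (hn : 0 < n) (hD : ∀ d : ℕ, d ^ 2 ∣ n → d ≤ D) :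
    ∑ d ∈ Icc 1 D, (if d ^ 2 ∣ n then (ArithmeticFunction.moebius d : ℤ) else 0) =
      if Squarefree n then 1 else 0 := by
  obtain ⟨a, b, ha0, hb0, hab, ha⟩ := Nat.sq_mul_squarefree_of_pos hn
  have h1 : ∀ d, d ^ 2 ∣ n ↔ d ∣ b := by
    intro d
    rw [← hab]
    exact sqf_dvd ha hb0
  rw [← sum_filter]
  have h2 : (Icc 1 D).filter (fun d => d ^ 2 ∣ n) = b.divisors := by
    ext d
    rw [mem_filter, Nat.mem_divisors, h1, mem_Icc]
    constructor
    · rintro ⟨_, h⟩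
      exact ⟨h, hb0.ne'⟩
    · rintro ⟨h, _⟩
      refine ⟨⟨Nat.pos_of_dvd_of_pos h hb0, hD d ((h1 d).2 h)⟩, h⟩
  rw [h2, sqf_moebius_sum]
  have h3 : b = 1 ↔ Squarefree n := by
    constructor
    · intro h
      rw [← hab, h, one_pow, one_mul]
      exact ha
    · intro h
      have h4 : b * b ∣ n := by
        rw [← hab, pow_two]
        exact dvd_mul_right _ _
      exact Nat.isUnit_iff.1 (h b h4)
  simp only [h3]

private theorem sqf_card_dvd (n d : ℕ) : ((Icc 1 n).filter (fun x => d ∣ x)).card = n / d := by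
  rw [← Nat.Ioc_filter_dvd_card_eq_div]
  congr 1

private theorem sqf_count_eq (n : ℕ) :
    (((range (n + 1)).filter Squarefree).card : ℤ) =
      ∑ d ∈ Icc 1 (Nat.sqrt (n + 1)), (ArithmeticFunction.moebius d : ℤ) * ((n / d ^ 2 : ℕ) : ℤ) := by
  have h1 : (range (n + 1)).filter Squarefree = (Icc 1 n).filter Squarefree := by
    ext x
    rw [mem_filter, mem_filter, mem_range, mem_Icc]
    constructor
    · rintro ⟨h, hx⟩
      have := hx.ne_zero
      exact ⟨by omega, hx⟩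
    · rintro ⟨h, hx⟩
      exact ⟨by omega, hx⟩
  rw [h1, card_filter]
  push_cast
  have h2 : ∀ x ∈ Icc 1 n, (if Squarefree x then (1 : ℤ) else 0) =
      ∑ d ∈ Icc 1 (Nat.sqrt (n + 1)), (if d ^ 2 ∣ x then (ArithmeticFunction.moebius d : ℤ) else 0) := by
    intro x hx
    rw [mem_Icc] at hx
    rw [sqf_ind (by omega)]
    intro d hd
    have h3 : d ^ 2 ≤ x := Nat.le_of_dvd (by omega) hd
    rw [Nat.le_sqrt]
    nlinarith
  rw [sum_congr rfl h2, sum_comm]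
  refine sum_congr rfl fun d _ => ?_
  rw [← sum_filter, sum_const, nsmul_eq_mul, mul_comm]
  congr 1
  rw [sqf_card_dvd]
  push_cast
  rfl

/-- the series `∑ μ(d)/d²` -/
private theorem sqf_hasSum :
    HasSum (fun d : ℕ => (ArithmeticFunction.moebius d : ℝ) / (d : ℝ) ^ 2) (6 / Real.pi ^ 2) := by
  have hs : 1 < (2 : ℂ).re := by norm_num
  have h1 := ArithmeticFunction.LSeriesSummable_moebius_iff.2 hs
  have h2 := ArithmeticFunction.LSeries_zeta_mul_Lseries_moebius hs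
  rw [ArithmeticFunction.LSeries_zeta_eq_riemannZeta hs, riemannZeta_two] at h2
  have hpi : (Real.pi : ℂ) ≠ 0 := by exact_mod_cast Real.pi_ne_zero
  have h3 : LSeries (fun n => (ArithmeticFunction.moebius n : ℂ)) 2 = ((6 / Real.pi ^ 2 : ℝ) : ℂ) := by
    push_cast
    field_simp at h2 ⊢
    linear_combination h2
  have h4 := h1.hasSum
  have h5 : HasSum (fun d : ℕ => (((ArithmeticFunction.moebius d : ℝ) / (d : ℝ) ^ 2 : ℝ) : ℂ))
      ((6 / Real.pi ^ 2 : ℝ) : ℂ) := by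
    rw [← h3]
    unfold LSeries
    convert h4 using 1
    funext d
    rcases eq_or_ne d 0 with rfl | hd
    · simp
    · rw [LSeries.term_of_ne_zero hd]
      push_cast
      norm_cast
  exact_mod_cast h5

private theorem sqf_abs_moebius (d : ℕ) : |(ArithmeticFunction.moebius d : ℝ)| ≤ 1 := by
  have h := ArithmeticFunction.abs_moebius_le_one (n := d)
  exact_mod_cast h

/-- the tail -/
private theorem sqf_tail (D : ℕ) (hD : 1 ≤ D) :
    |6 / Real.pi ^ 2 - ∑ d ∈ Icc 1 D, (ArithmeticFunction.moebius d : ℝ) / (d : ℝ) ^ 2| ≤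
      1 / (D : ℝ) := by
  have h1 := sqf_hasSum.tendsto_sum_nat
  have h2 : Filter.Tendsto (fun M : ℕ => |∑ i ∈ range M, (ArithmeticFunction.moebius i : ℝ) /
      (i : ℝ) ^ 2 - ∑ d ∈ Icc 1 D, (ArithmeticFunction.moebius d : ℝ) / (d : ℝ) ^ 2|) Filter.atTop
      (nhds |6 / Real.pi ^ 2 - ∑ d ∈ Icc 1 D, (ArithmeticFunction.moebius d : ℝ) / (d : ℝ) ^ 2|) :=
    (h1.sub_const _).abs
  refine le_of_tendsto h2 ?_
  filter_upwards [Filter.eventually_ge_atTop (D + 1)] with M hM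
  obtain ⟨m, rfl⟩ : ∃ m, M = m + 1 := ⟨M - 1, by omega⟩
  have hDm : D ≤ m := by omega
  have h3 : range (m + 1) = insert 0 (Icc 1 D ∪ Ioc D m) := by
    ext x
    simp only [mem_range, mem_insert, mem_union, mem_Icc, mem_Ioc]
    omega
  have hdis : Disjoint (Icc 1 D) (Ioc D m) := by
    rw [disjoint_left]
    intro x hx hx'
    rw [mem_Icc] at hx
    rw [mem_Ioc] at hx'
    omega
  rw [h3, sum_insert, sum_union hdis]
  · have h4 : (ArithmeticFunction.moebius 0 : ℝ) / ((0 : ℕ) : ℝ) ^ 2 = 0 := by simp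
    rw [h4, zero_add, add_sub_cancel_left]
    refine (abs_sum_le_sum_abs _ _).trans ?_
    have h5 : ∑ i ∈ Ioc D m, |(ArithmeticFunction.moebius i : ℝ) / (i : ℝ) ^ 2| ≤
        ∑ i ∈ Ioc D m, ((i : ℝ) ^ 2)⁻¹ := by
      refine sum_le_sum fun i _ => ?_
      rw [abs_div, abs_of_nonneg (sq_nonneg (i : ℝ)), div_eq_mul_inv]
      exact mul_le_of_le_one_left (inv_nonneg.2 (sq_nonneg _)) (sqf_abs_moebius i)
    refine h5.trans ((sum_Ioc_inv_sq_le_sub (by omega) hDm).trans ?_)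
    rw [one_div]
    have : (0 : ℝ) ≤ (m : ℝ)⁻¹ := by positivity
    linarith
  · simp only [mem_union, mem_Icc, mem_Ioc]
    omega

theorem sqf_count : ∃ C : ℝ, 0 < C ∧ ∀ N : ℕ,
    |(((range N).filter Squarefree).card : ℝ) - 6 / Real.pi ^ 2 * N| ≤ C * Real.sqrt N := by
  refine ⟨3, by norm_num, ?_⟩
  intro N
  rcases Nat.eq_zero_or_pos N with rfl | hN
  · simp
  obtain ⟨n, rfl⟩ : ∃ n, N = n + 1 := ⟨N - 1, by omega⟩
  set D : ℕ := Nat.sqrt (n + 1) with hD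
  have hD1 : 1 ≤ D := by
    rw [hD, Nat.le_sqrt]
    omega
  have hD0 : (0 : ℝ) < D := by exact_mod_cast hD1
  have hDsq : (D : ℝ) ^ 2 ≤ ((n + 1 : ℕ) : ℝ) := by
    have := Nat.sqrt_le' (n + 1)
    exact_mod_cast this
  have hDsq2 : ((n + 1 : ℕ) : ℝ) ≤ (2 * (D : ℝ)) ^ 2 := by
    have h1 := Nat.lt_succ_sqrt' (n + 1)
    rw [← hD] at h1
    have h2 : n + 1 ≤ (2 * D) ^ 2 := by
      have h3 : Nat.succ D ≤ 2 * D := by omega
      have h4 := Nat.pow_le_pow_left h3 2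
      omega
    exact_mod_cast h2
  have hDle : (D : ℝ) ≤ Real.sqrt ((n + 1 : ℕ) : ℝ) := Real.le_sqrt_of_sq_le hDsq
  have hsq : Real.sqrt ((n + 1 : ℕ) : ℝ) ≤ 2 * (D : ℝ) := by
    rw [Real.sqrt_le_left (by positivity)]
    exact hDsq2
  -- the main term
  have hcount : (((range (n + 1)).filter Squarefree).card : ℝ) =
      ∑ d ∈ Icc 1 D, (ArithmeticFunction.moebius d : ℝ) * ((n / d ^ 2 : ℕ) : ℝ) := by
    have h := congrArg (Int.cast : ℤ → ℝ) (sqf_count_eq n)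
    rw [Int.cast_natCast, Int.cast_sum] at h
    rw [h]
    refine sum_congr rfl fun d _ => ?_
    rw [Int.cast_mul, Int.cast_natCast]
  have h1 : |(((range (n + 1)).filter Squarefree).card : ℝ) -
      ((n + 1 : ℕ) : ℝ) * ∑ d ∈ Icc 1 D, (ArithmeticFunction.moebius d : ℝ) / (d : ℝ) ^ 2| ≤ D := by
    rw [hcount, mul_sum, ← sum_sub_distrib]
    refine (abs_sum_le_sum_abs _ _).trans ?_
    have h2 : ∀ d ∈ Icc 1 D, |(ArithmeticFunction.moebius d : ℝ) * ((n / d ^ 2 : ℕ) : ℝ) -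
        ((n + 1 : ℕ) : ℝ) * ((ArithmeticFunction.moebius d : ℝ) / (d : ℝ) ^ 2)| ≤ 1 := by
      intro d hd
      rw [mem_Icc] at hd
      have hd0 : (0 : ℝ) < (d : ℝ) ^ 2 := by
        have : (0 : ℝ) < d := by exact_mod_cast hd.1
        positivity
      have e1 : (ArithmeticFunction.moebius d : ℝ) * ((n / d ^ 2 : ℕ) : ℝ) -
          ((n + 1 : ℕ) : ℝ) * ((ArithmeticFunction.moebius d : ℝ) / (d : ℝ) ^ 2) =
          (ArithmeticFunction.moebius d : ℝ) * (((n / d ^ 2 : ℕ) : ℝ) -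
            ((n + 1 : ℕ) : ℝ) / (d : ℝ) ^ 2) := by ring
      rw [e1, abs_mul]
      have h3 : |((n / d ^ 2 : ℕ) : ℝ) - ((n + 1 : ℕ) : ℝ) / (d : ℝ) ^ 2| ≤ 1 := by
        rw [abs_le]
        constructor
        · have h4 : n + 1 ≤ (n / d ^ 2 + 1) * d ^ 2 := by
            have := Nat.lt_div_mul_add (a := n) (b := d ^ 2) (pow_pos hd.1 2)
            nlinarith
          have h5 : ((n + 1 : ℕ) : ℝ) ≤ (((n / d ^ 2 : ℕ) : ℝ) + 1) * (d : ℝ) ^ 2 := by
            exact_mod_cast h4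
          have h6 : ((n + 1 : ℕ) : ℝ) / (d : ℝ) ^ 2 ≤ ((n / d ^ 2 : ℕ) : ℝ) + 1 := by
            rw [div_le_iff₀ hd0]
            exact h5
          linarith
        · have h4 : n / d ^ 2 * d ^ 2 ≤ n + 1 := (Nat.div_mul_le_self n (d ^ 2)).trans (by omega)
          have h5 : ((n / d ^ 2 : ℕ) : ℝ) * (d : ℝ) ^ 2 ≤ ((n + 1 : ℕ) : ℝ) := by
            exact_mod_cast h4
          have h6 : ((n / d ^ 2 : ℕ) : ℝ) ≤ ((n + 1 : ℕ) : ℝ) / (d : ℝ) ^ 2 := by
            rw [le_div_iff₀ hd0]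
            exact h5
          linarith
      exact mul_le_one₀ (sqf_abs_moebius d) (abs_nonneg _) h3
    refine (sum_le_sum h2).trans ?_
    rw [sum_const, Nat.card_Icc, nsmul_eq_mul, mul_one]
    norm_num
  have h2 := sqf_tail D hD1
  have h3 : |((n + 1 : ℕ) : ℝ) * ∑ d ∈ Icc 1 D, (ArithmeticFunction.moebius d : ℝ) / (d : ℝ) ^ 2 -
      6 / Real.pi ^ 2 * ((n + 1 : ℕ) : ℝ)| ≤ 2 * Real.sqrt ((n + 1 : ℕ) : ℝ) := by
    have e1 : ((n + 1 : ℕ) : ℝ) * ∑ d ∈ Icc 1 D, (ArithmeticFunction.moebius d : ℝ) / (d : ℝ) ^ 2 -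
      6 / Real.pi ^ 2 * ((n + 1 : ℕ) : ℝ) = -(((n + 1 : ℕ) : ℝ) * (6 / Real.pi ^ 2 -
        ∑ d ∈ Icc 1 D, (ArithmeticFunction.moebius d : ℝ) / (d : ℝ) ^ 2)) := by ring
    rw [e1, abs_neg, abs_mul, abs_of_nonneg (Nat.cast_nonneg (n + 1) : (0 : ℝ) ≤ ((n + 1 : ℕ) : ℝ))]
    have h4 : ((n + 1 : ℕ) : ℝ) * |6 / Real.pi ^ 2 -
        ∑ d ∈ Icc 1 D, (ArithmeticFunction.moebius d : ℝ) / (d : ℝ) ^ 2| ≤
        ((n + 1 : ℕ) : ℝ) * (1 / (D : ℝ)) := mul_le_mul_of_nonneg_left h2 (Nat.cast_nonneg _)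
    refine h4.trans ?_
    rw [mul_one_div, div_le_iff₀ hD0]
    have h5 : ((n + 1 : ℕ) : ℝ) = Real.sqrt ((n + 1 : ℕ) : ℝ) * Real.sqrt ((n + 1 : ℕ) : ℝ) :=
      (Real.mul_self_sqrt (Nat.cast_nonneg _)).symm
    calc ((n + 1 : ℕ) : ℝ) = Real.sqrt ((n + 1 : ℕ) : ℝ) * Real.sqrt ((n + 1 : ℕ) : ℝ) := h5
      _ ≤ Real.sqrt ((n + 1 : ℕ) : ℝ) * (2 * (D : ℝ)) :=
        mul_le_mul_of_nonneg_left hsq (Real.sqrt_nonneg _)
      _ = 2 * Real.sqrt ((n + 1 : ℕ) : ℝ) * (D : ℝ) := by ring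
  have h6 := abs_sub_le (((range (n + 1)).filter Squarefree).card : ℝ)
    (((n + 1 : ℕ) : ℝ) * ∑ d ∈ Icc 1 D, (ArithmeticFunction.moebius d : ℝ) / (d : ℝ) ^ 2)
    (6 / Real.pi ^ 2 * ((n + 1 : ℕ) : ℝ))
  linarith

end Pool.Agent.H18.RM

end

section

/-!
# CH Sqf: squarefree numbers in long intervals

`∑_{n ≤ N} μ(n)^2 = ∑_{d ≤ √N} μ(d) ⌊N/d^2⌋ = N/ζ(2) + O(√N)` (`μ(n)^2 = ∑_{d^2 ∣ n} μ(d)`, `∑ μ(d)/d^2 = 1/ζ(2) = 6/π^2`): this is `sqf_count` of `H18/RM/Sqf.lean`, used at `2X + a + 1` and `X + a + 1`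
(`a ≤ X`).
-/

set_option autoImplicit false

namespace Pool.Agent.H43.CH

open Finset
open Pool.Agent.H43.LM (mu)

private theorem Sqf_mu_sq (n : ℕ) : mu n ^ 2 = if Squarefree n then (1 : ℝ) else 0 := by
  unfold mu
  by_cases h : Squarefree n
  · rw [if_pos h]
    have h1 := ArithmeticFunction.moebius_sq_eq_one_of_squarefree h
    exact_mod_cast h1
  · rw [if_neg h, ArithmeticFunction.moebius_eq_zero_of_not_squarefree h]
    norm_num

private theorem Sqf_sum (M N : ℕ) (h : M ≤ N) :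
    ∑ n ∈ Ioc M N, mu n ^ 2 = (((range (N + 1)).filter Squarefree).card : ℝ) -
      (((range (M + 1)).filter Squarefree).card : ℝ) := by
  have h1 : ∀ K : ℕ, (((range K).filter Squarefree).card : ℝ) = ∑ n ∈ range K, mu n ^ 2 := by
    intro K
    rw [card_filter]
    push_cast
    exact sum_congr rfl (fun n _ => (Sqf_mu_sq n).symm)
  rw [h1, h1]
  have h2 : Ioc M N = Ico (M + 1) (N + 1) := by
    ext x
    rw [mem_Ioc, mem_Ico]
    omega
  rw [h2, ← Finset.sum_range_add_sum_Ico _ (by omega : M + 1 ≤ N + 1)]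
  ring

theorem sqf : ∃ C : ℝ, 0 < C ∧ ∀ X a : ℕ, 1 ≤ X → a ≤ X →
    |∑ n ∈ Ioc (X + a) (2 * X + a), mu n ^ 2 - 6 / Real.pi ^ 2 * X| ≤ C * Real.sqrt X := by
  obtain ⟨C, hC, h⟩ := Pool.Agent.H18.RM.sqf_count
  refine ⟨4 * C, by positivity, fun X a hX ha => ?_⟩
  rw [Sqf_sum _ _ (by omega)]
  have h1 := h (2 * X + a + 1)
  have h2 := h (X + a + 1)
  have hX1 : (1 : ℝ) ≤ X := by exact_mod_cast hX
  have haX : (a : ℝ) ≤ X := by exact_mod_cast ha
  have s1 : Real.sqrt ((2 * X + a + 1 : ℕ) : ℝ) ≤ 2 * Real.sqrt X := by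
    have : 2 * Real.sqrt X = Real.sqrt (4 * X) := by
      rw [Real.sqrt_mul (by norm_num), show (4 : ℝ) = 2 ^ 2 by norm_num,
        Real.sqrt_sq (by norm_num)]
    rw [this]
    apply Real.sqrt_le_sqrt
    push_cast
    linarith
  have s2 : Real.sqrt ((X + a + 1 : ℕ) : ℝ) ≤ 2 * Real.sqrt X := by
    have : 2 * Real.sqrt X = Real.sqrt (4 * X) := by
      rw [Real.sqrt_mul (by norm_num), show (4 : ℝ) = 2 ^ 2 by norm_num,
        Real.sqrt_sq (by norm_num)]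
    rw [this]
    apply Real.sqrt_le_sqrt
    push_cast
    linarith
  have t1 := mul_le_mul_of_nonneg_left s1 hC.le
  have t2 := mul_le_mul_of_nonneg_left s2 hC.le
  have e : (((range (2 * X + a + 1)).filter Squarefree).card : ℝ) -
      (((range (X + a + 1)).filter Squarefree).card : ℝ) - 6 / Real.pi ^ 2 * X =
      ((((range (2 * X + a + 1)).filter Squarefree).card : ℝ) -
        6 / Real.pi ^ 2 * ((2 * X + a + 1 : ℕ) : ℝ)) -
      ((((range (X + a + 1)).filter Squarefree).card : ℝ) -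
        6 / Real.pi ^ 2 * ((X + a + 1 : ℕ) : ℝ)) := by
    push_cast
    ring
  rw [e]
  calc _ ≤ _ := abs_sub _ _
    _ ≤ _ := add_le_add (h1.trans t1) (h2.trans t2)
    _ = 4 * C * Real.sqrt X := by ring

end Pool.Agent.H43.CH

end

section

/-!
# CH LevU: from characteristic functions to distribution functions, uniformly

Step 1 (fixed `u`): for every `η' > 0` there are a finite set `T` of rational numbers and `ζ > 0` such that the conclusion holds at `u`.  Otherwise, with `r_0, r_1, ..` an enumeration of the rational numbers, for every `N` there are `I_N, Z_N`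
(second moment `≤ C`) with `‖φ_N(r_j) - exp(-r_j^2/2)‖ ≤ 1/(N+1)` for `j ≤ N` and `|F_N(u) - Φ(u)| > η'`.  `φ_N(r) → exp(-r^2/2)` for rational `r`; `‖φ_N(t) - φ_N(t')‖ ≤ |t - t'| (1/#I) ∑ |Z| ≤ |t - t'| √C`, so for all real `t`.
`ν_N` = the law of `Z_N` under the uniform distribution on `I_N` (a probability measure on `ℝ`, `(1/#I) ∑ dirac`), `ProbabilityMeasure.tendsto_of_tendsto_charFun`, `ProbabilityMeasure.tendsto_measure_of_null_frontier_of_tendsto'`: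
`F_N(u) → Φ(u)` (see the proof of `Pool.Agent.H41.RG.levy`, `H41/RG/LevyA.lean` in the graded repository, where all this is done for another sequence of laws).
Step 2 (all `u`): `R ≥ 1` with `C/R^2 ≤ η/4`, `1/R^2 ≤ η/4`; grid `u_i = -R + 2 R i/M`, `2R/M ≤ η/4`; `T` = the union and `ζ` = the minimum for the points of the grid with `η' = η/4`.
`u < -R`: `F(u) ≤ C/R^2` (Chebyshev), `Φ(u) ≤ 1/R^2`; `u > R` in the same way; `u_i ≤ u ≤ u_{i+1}`: `F(u_i) ≤ F(u) ≤ F(u_{i+1})`, `|Φ(u_{i+1}) - Φ(u_i)| ≤ u_{i+1} - u_i` (density `≤ 1`).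
-/

set_option autoImplicit false

namespace Pool.Agent.H43.CH

open Finset MeasureTheory ProbabilityTheory

noncomputable def LevU_m (J : Finset ℕ) (Z : ℕ → ℝ) : Measure ℝ :=
  ((J.card : ENNReal)⁻¹) • ∑ n ∈ J, Measure.dirac (Z n)

theorem LevU_prob {J : Finset ℕ} (hJ : J.Nonempty) (Z : ℕ → ℝ) :
    IsProbabilityMeasure (LevU_m J Z) := by
  constructor
  unfold LevU_m
  rw [Measure.smul_apply, Measure.finsetSum_apply, smul_eq_mul]
  simp only [measure_univ, Finset.sum_const, nsmul_eq_mul, mul_one]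
  refine ENNReal.inv_mul_cancel ?_ (ENNReal.natCast_ne_top _)
  exact_mod_cast hJ.card_pos.ne'

theorem LevU_char (J : Finset ℕ) (Z : ℕ → ℝ) (t : ℝ) :
    charFun (LevU_m J Z) t =
      (1 / (J.card : ℂ)) * ∑ n ∈ J, Complex.exp (((t * Z n : ℝ) : ℂ) * Complex.I) := by
  rw [charFun_apply_real]
  unfold LevU_m
  rw [integral_smul_measure, integral_finsetSum_measure, Complex.real_smul]
  · simp only [integral_dirac]
    congr 1
    · simp
    · refine Finset.sum_congr rfl fun n _ => ?_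
      push_cast
      rfl
  · intro n _
    have hm : Measurable fun x : ℝ => Complex.exp (t * x * Complex.I) := by fun_prop
    refine Integrable.of_bound (C := 1) hm.aestronglyMeasurable (Filter.Eventually.of_forall fun x => ?_)
    have : (t : ℂ) * x * Complex.I = ((t * x : ℝ) : ℂ) * Complex.I := by push_cast; rfl
    rw [this, Complex.norm_exp_ofReal_mul_I]

theorem LevU_Iic (J : Finset ℕ) (Z : ℕ → ℝ) (u : ℝ) :
    ((LevU_m J Z) (Set.Iic u)).toReal = ((J.filter (fun n => Z n ≤ u)).card : ℝ) / J.card := by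
  unfold LevU_m
  rw [Measure.smul_apply, Measure.finsetSum_apply, smul_eq_mul]
  have h1 : ∀ n ∈ J, Measure.dirac (Z n) (Set.Iic u) = if Z n ≤ u then (1 : ENNReal) else 0 := by
    intro n _
    rw [Measure.dirac_apply' _ measurableSet_Iic]
    simp [Set.indicator]
  rw [Finset.sum_congr rfl h1, Finset.sum_boole, ENNReal.toReal_mul, ENNReal.toReal_inv,
    ENNReal.toReal_natCast, ENNReal.toReal_natCast, div_eq_inv_mul]

theorem LevU_exp (a b : ℝ) :
    ‖Complex.exp ((a : ℂ) * Complex.I) - Complex.exp ((b : ℂ) * Complex.I)‖ ≤ |a - b| := by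
  have h1 : Complex.exp ((a : ℂ) * Complex.I) - Complex.exp ((b : ℂ) * Complex.I) =
      Complex.exp ((b : ℂ) * Complex.I) * (Complex.exp (Complex.I * ((a - b : ℝ) : ℂ)) - 1) := by
    rw [mul_sub, ← Complex.exp_add, mul_one]
    congr 2
    push_cast
    ring
  rw [h1, norm_mul, Complex.norm_exp_ofReal_mul_I, one_mul]
  exact Real.norm_exp_I_mul_ofReal_sub_one_le

theorem LevU_lip {J : Finset ℕ} (hJ : J.Nonempty) (Z : ℕ → ℝ) {C : ℝ}
    (hC : ∑ n ∈ J, Z n ^ 2 ≤ C * J.card) (t t' : ℝ) :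
    ‖(1 / (J.card : ℂ)) * ∑ n ∈ J, Complex.exp (((t * Z n : ℝ) : ℂ) * Complex.I) -
      (1 / (J.card : ℂ)) * ∑ n ∈ J, Complex.exp (((t' * Z n : ℝ) : ℂ) * Complex.I)‖ ≤
      |t - t'| * ((1 + C) / 2) := by
  have hJ0 : (0 : ℝ) < J.card := by exact_mod_cast hJ.card_pos
  rw [← mul_sub, ← Finset.sum_sub_distrib, norm_mul]
  have h1 : ‖∑ n ∈ J, (Complex.exp (((t * Z n : ℝ) : ℂ) * Complex.I) -
      Complex.exp (((t' * Z n : ℝ) : ℂ) * Complex.I))‖ ≤
      ∑ n ∈ J, |t - t'| * ((1 + Z n ^ 2) / 2) := by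
    refine (norm_sum_le _ _).trans (Finset.sum_le_sum fun n _ => ?_)
    refine (LevU_exp _ _).trans ?_
    rw [← sub_mul, abs_mul]
    apply mul_le_mul_of_nonneg_left _ (abs_nonneg _)
    nlinarith only [sq_nonneg (|Z n| - 1), sq_abs (Z n)]
  rw [← Finset.mul_sum, ← Finset.sum_div, Finset.sum_add_distrib] at h1
  simp only [Finset.sum_const, nsmul_eq_mul, mul_one] at h1
  have h3 : ‖(1 / (J.card : ℂ))‖ = 1 / J.card := by
    rw [norm_div, norm_one, Complex.norm_natCast]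
  rw [h3]
  calc 1 / (J.card : ℝ) * _ ≤ 1 / J.card * (|t - t'| * ((J.card + C * J.card) / 2)) := by
        apply mul_le_mul_of_nonneg_left _ (by positivity)
        refine h1.trans ?_
        apply mul_le_mul_of_nonneg_left _ (abs_nonneg _)
        linarith only [hC]
    _ = |t - t'| * ((1 + C) / 2) := by
        field_simp

theorem LevU_pt (u η C : ℝ) (hη : 0 < η) (hC : 0 ≤ C) : ∃ (T : Finset ℝ) (ζ : ℝ), 0 < ζ ∧
    ∀ (I : Finset ℕ) (Z : ℕ → ℝ), I.Nonempty → ∑ n ∈ I, Z n ^ 2 ≤ C * I.card →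
      (∀ t ∈ T, ‖(1 / (I.card : ℂ)) * ∑ n ∈ I, Complex.exp (((t * Z n : ℝ) : ℂ) * Complex.I)
        - ((Real.exp (-t ^ 2 / 2) : ℝ) : ℂ)‖ ≤ ζ) →
      |((I.filter (fun n => Z n ≤ u)).card : ℝ) / I.card - (gaussianReal 0 1).real (Set.Iic u)|
        ≤ η := by
  by_contra hneg
  push Not at hneg
  obtain ⟨r, hr⟩ := exists_surjective_nat ℚ
  have h2 : ∀ N : ℕ, ∃ (I : Finset ℕ) (Z : ℕ → ℝ), I.Nonempty ∧
      ∑ n ∈ I, Z n ^ 2 ≤ C * I.card ∧
      (∀ t ∈ (Finset.range (N + 1)).image (fun j => ((r j : ℚ) : ℝ)),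
        ‖(1 / (I.card : ℂ)) * ∑ n ∈ I, Complex.exp (((t * Z n : ℝ) : ℂ) * Complex.I)
        - ((Real.exp (-t ^ 2 / 2) : ℝ) : ℂ)‖ ≤ 1 / ((N : ℝ) + 1)) ∧
      η < |((I.filter (fun n => Z n ≤ u)).card : ℝ) / I.card -
        (gaussianReal 0 1).real (Set.Iic u)| := fun N =>
    hneg ((Finset.range (N + 1)).image (fun j => ((r j : ℚ) : ℝ))) (1 / ((N : ℝ) + 1))
      (by positivity)
  choose J Z hJ hZ hT hu using h2
  have hphi : ∀ t : ℝ, Filter.Tendsto (fun N => (1 / ((J N).card : ℂ)) *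
      ∑ n ∈ J N, Complex.exp (((t * Z N n : ℝ) : ℂ) * Complex.I)) Filter.atTop
      (nhds ((Real.exp (-t ^ 2 / 2) : ℝ) : ℂ)) := by
    intro t
    rw [Metric.tendsto_atTop]
    intro ε hε
    have hcont : ContinuousAt (fun s : ℝ => ((Real.exp (-s ^ 2 / 2) : ℝ) : ℂ)) t := by
      have : Continuous (fun s : ℝ => ((Real.exp (-s ^ 2 / 2) : ℝ) : ℂ)) := by fun_prop
      exact this.continuousAt
    obtain ⟨δ, hδ, hδ'⟩ := Metric.continuousAt_iff.mp hcont (ε / 4) (by positivity)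
    obtain ⟨q, hq1, hq2⟩ := exists_rat_btwn
      (show t < t + min δ (ε / (4 * (1 + C))) by
        have : 0 < min δ (ε / (4 * (1 + C))) := lt_min hδ (by positivity)
        linarith only [this])
    obtain ⟨j, hj⟩ := hr q
    obtain ⟨N1, hN1⟩ := exists_nat_gt (4 / ε)
    refine ⟨max j N1, fun N hN => ?_⟩
    have hNj : j ≤ N := (le_max_left _ _).trans hN
    have hNN : N1 ≤ N := (le_max_right _ _).trans hN
    have hd1 : |t - (q : ℝ)| < δ := by
      rw [abs_sub_comm, abs_of_pos (by linarith only [hq1])]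
      have := min_le_left δ (ε / (4 * (1 + C)))
      linarith only [hq2, this]
    have hd2 : |t - (q : ℝ)| ≤ ε / (4 * (1 + C)) := by
      rw [abs_sub_comm, abs_of_pos (by linarith)]
      have := min_le_right δ (ε / (4 * (1 + C)))
      linarith only [hq2, this]
    have e1 := LevU_lip (hJ N) (Z N) (hZ N) t q
    have e2 := hT N (q : ℝ) (by
      rw [Finset.mem_image]
      exact ⟨j, by rw [Finset.mem_range]; omega, by rw [hj]⟩)
    have e3 : dist ((Real.exp (-(q : ℝ) ^ 2 / 2) : ℝ) : ℂ) ((Real.exp (-t ^ 2 / 2) : ℝ) : ℂ) <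
        ε / 4 := hδ' (by rw [Real.dist_eq, abs_sub_comm]; exact hd1)
    rw [dist_eq_norm] at e3
    have e4 : 1 / ((N : ℝ) + 1) ≤ ε / 4 := by
      rw [div_le_div_iff₀ (by positivity) (by norm_num)]
      have h5 : (N1 : ℝ) ≤ N := by exact_mod_cast hNN
      have h6 : 4 / ε < (N : ℝ) + 1 := by linarith only [hN1, h5]
      rw [div_lt_iff₀ hε] at h6
      linarith only [h6]
    have e5 : |t - (q : ℝ)| * ((1 + C) / 2) ≤ ε / 4 := by
      calc |t - (q : ℝ)| * ((1 + C) / 2) ≤ ε / (4 * (1 + C)) * ((1 + C) / 2) := by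
            apply mul_le_mul_of_nonneg_right hd2 (by positivity)
        _ = ε / 8 := by
            field_simp
            norm_num
        _ ≤ ε / 4 := by linarith only [hε]
    rw [dist_eq_norm]
    have e6 : (1 / ((J N).card : ℂ)) *
        ∑ n ∈ J N, Complex.exp (((t * Z N n : ℝ) : ℂ) * Complex.I) -
        ((Real.exp (-t ^ 2 / 2) : ℝ) : ℂ) =
        ((1 / ((J N).card : ℂ)) *
          ∑ n ∈ J N, Complex.exp (((t * Z N n : ℝ) : ℂ) * Complex.I) -
        (1 / ((J N).card : ℂ)) *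
          ∑ n ∈ J N, Complex.exp ((((q : ℝ) * Z N n : ℝ) : ℂ) * Complex.I)) +
        ((1 / ((J N).card : ℂ)) *
          ∑ n ∈ J N, Complex.exp ((((q : ℝ) * Z N n : ℝ) : ℂ) * Complex.I) -
          ((Real.exp (-(q : ℝ) ^ 2 / 2) : ℝ) : ℂ)) +
        (((Real.exp (-(q : ℝ) ^ 2 / 2) : ℝ) : ℂ) - ((Real.exp (-t ^ 2 / 2) : ℝ) : ℂ)) := by
      ring
    rw [e6]
    refine (norm_add_le _ _).trans_lt ?_
    have e7 := norm_add_le ((1 / ((J N).card : ℂ)) *
          ∑ n ∈ J N, Complex.exp (((t * Z N n : ℝ) : ℂ) * Complex.I) -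
        (1 / ((J N).card : ℂ)) *
          ∑ n ∈ J N, Complex.exp ((((q : ℝ) * Z N n : ℝ) : ℂ) * Complex.I))
        ((1 / ((J N).card : ℂ)) *
          ∑ n ∈ J N, Complex.exp ((((q : ℝ) * Z N n : ℝ) : ℂ) * Complex.I) -
          ((Real.exp (-(q : ℝ) ^ 2 / 2) : ℝ) : ℂ))
    linarith only [hε, e1, e2, e3, e4, e5, e7]
  let μ : ℕ → ProbabilityMeasure ℝ := fun N => ⟨LevU_m (J N) (Z N), LevU_prob (hJ N) (Z N)⟩
  let μ0 : ProbabilityMeasure ℝ := ⟨gaussianReal 0 1, inferInstance⟩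
  have hlim : Filter.Tendsto μ Filter.atTop (nhds μ0) := by
    apply ProbabilityMeasure.tendsto_of_tendsto_charFun
    intro t
    have hc : ∀ N, charFun (μ N : Measure ℝ) t = (1 / ((J N).card : ℂ)) *
        ∑ n ∈ J N, Complex.exp (((t * Z N n : ℝ) : ℂ) * Complex.I) := fun N =>
      LevU_char (J N) (Z N) t
    simp_rw [hc]
    have h0 : charFun (μ0 : Measure ℝ) t = ((Real.exp (-t ^ 2 / 2) : ℝ) : ℂ) := by
      change charFun (gaussianReal 0 1) t = _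
      rw [charFun_gaussianReal]
      push_cast
      congr 1
      simp
      ring
    rw [h0]
    exact hphi t
  have hfr : (μ0 : Measure ℝ) (frontier (Set.Iic u)) = 0 := by
    rw [frontier_Iic]
    change gaussianReal 0 1 {u} = 0
    have := nullSingletonClass_gaussianReal (μ := 0) (v := 1) one_ne_zero
    exact measure_singleton u
  have h1 := ProbabilityMeasure.tendsto_measure_of_null_frontier_of_tendsto' hlim hfr
  have h3 : Filter.Tendsto (fun N => ((μ N : Measure ℝ) (Set.Iic u)).toReal) Filter.atTop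
      (nhds ((gaussianReal 0 1).real (Set.Iic u))) :=
    (ENNReal.tendsto_toReal (measure_ne_top _ _)).comp h1
  rw [Metric.tendsto_atTop] at h3
  obtain ⟨N, hN⟩ := h3 η hη
  have h4 := hN N le_rfl
  have h5 : ((μ N : Measure ℝ) (Set.Iic u)).toReal =
      (((J N).filter (fun n => Z N n ≤ u)).card : ℝ) / (J N).card := LevU_Iic (J N) (Z N) u
  rw [h5, Real.dist_eq] at h4
  exact absurd h4 (not_lt.mpr (hu N).le)

theorem LevU_pdf (x : ℝ) : gaussianPDFReal 0 1 x ≤ 1 := by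
  rw [gaussianPDFReal_def]
  simp only [NNReal.coe_one, mul_one, sub_zero]
  have h1 : (1 : ℝ) ≤ √(2 * Real.pi) := by
    rw [Real.one_le_sqrt]
    linarith only [Real.pi_gt_three]
  have h2 : (√(2 * Real.pi))⁻¹ ≤ 1 := inv_le_one_of_one_le₀ h1
  have h3 : Real.exp (-x ^ 2 / 2) ≤ 1 := by
    rw [Real.exp_le_one_iff]
    nlinarith only [sq_nonneg x]
  calc (√(2 * Real.pi))⁻¹ * Real.exp (-x ^ 2 / 2) ≤ 1 * 1 :=
        mul_le_mul h2 h3 (Real.exp_pos _).le zero_le_one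
    _ = 1 := one_mul _

theorem LevU_Phi {u v : ℝ} (huv : u ≤ v) :
    (gaussianReal 0 1).real (Set.Iic v) ≤ (gaussianReal 0 1).real (Set.Iic u) + (v - u) := by
  have h1 : Set.Iic v = Set.Iic u ∪ Set.Ioc u v := (Set.Iic_union_Ioc_eq_Iic huv).symm
  rw [h1]
  refine (measureReal_union_le _ _).trans ?_
  gcongr
  rw [measureReal_def, gaussianReal_apply_eq_integral 0 one_ne_zero,
    ENNReal.toReal_ofReal (integral_nonneg (gaussianPDFReal_nonneg _ _))]
  calc ∫ x in Set.Ioc u v, gaussianPDFReal 0 1 x ≤ ∫ _x in Set.Ioc u v, (1 : ℝ) := by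
        apply integral_mono (integrable_gaussianPDFReal 0 1).integrableOn
        · exact integrable_const _
        · intro x
          exact LevU_pdf x
    _ = v - u := by
        rw [setIntegral_const, smul_eq_mul, mul_one, measureReal_def, Real.volume_Ioc,
          ENNReal.toReal_ofReal (by linarith)]

theorem LevU_tails {η : ℝ} (hη : 0 < η) : ∃ R : ℝ, 1 ≤ R ∧
    (gaussianReal 0 1).real (Set.Iic (-R)) ≤ η ∧ 1 - η ≤ (gaussianReal 0 1).real (Set.Iic R) := by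
  have h1 := tendsto_cdf_atBot (gaussianReal 0 1)
  have h2 := tendsto_cdf_atTop (gaussianReal 0 1)
  have h3 := (h1.eventually_le_const hη)
  have h4 := (h2.eventually_const_le (show 1 - η < 1 by linarith))
  rw [Filter.eventually_atBot] at h3
  rw [Filter.eventually_atTop] at h4
  obtain ⟨a, ha⟩ := h3
  obtain ⟨b, hb⟩ := h4
  refine ⟨max 1 (max (-a) b), le_max_left _ _, ?_, ?_⟩
  · rw [← cdf_eq_real]
    apply ha
    have : -a ≤ max 1 (max (-a) b) := (le_max_left _ _).trans (le_max_right _ _)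
    linarith
  · rw [← cdf_eq_real]
    apply hb
    exact (le_max_right _ _).trans (le_max_right _ _)

theorem levy_fin (η C : ℝ) (hη : 0 < η) (hC : 0 ≤ C) : ∃ (T : Finset ℝ) (ζ : ℝ), 0 < ζ ∧
    ∀ (I : Finset ℕ) (Z : ℕ → ℝ), I.Nonempty → ∑ n ∈ I, Z n ^ 2 ≤ C * I.card →
      (∀ t ∈ T, ‖(1 / (I.card : ℂ)) * ∑ n ∈ I, Complex.exp (((t * Z n : ℝ) : ℂ) * Complex.I)
        - ((Real.exp (-t ^ 2 / 2) : ℝ) : ℂ)‖ ≤ ζ) →
      ∀ u : ℝ, |((I.filter (fun n => Z n ≤ u)).card : ℝ) / I.card - (gaussianReal 0 1).real (Set.Iic u)| ≤ η := by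
  obtain ⟨R, hR1, hRa, hRb⟩ := LevU_tails (show 0 < η / 4 by positivity)
  obtain ⟨M, hM⟩ := exists_nat_gt (8 * R / η)
  have hM0 : (0 : ℝ) < M := lt_of_le_of_lt (by positivity) hM
  have hstep : 2 * R / M ≤ η / 4 := by
    rw [div_le_div_iff₀ hM0 (by norm_num)]
    rw [div_lt_iff₀ hη] at hM
    nlinarith only [hM]
  choose T ζ hζ hT using fun i : ℕ => LevU_pt (-R + 2 * R * i / M) (η / 4) C (by positivity) hC
  have hne : (Finset.range (M + 1)).Nonempty := ⟨0, by simp⟩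
  refine ⟨(Finset.range (M + 1)).biUnion T, (Finset.range (M + 1)).inf' hne ζ, ?_, ?_⟩
  · rw [Finset.lt_inf'_iff]
    exact fun i _ => hζ i
  intro I Z hI hZ hclose u
  have hgrid : ∀ i : ℕ, i ≤ M → |((I.filter (fun n => Z n ≤ -R + 2 * R * i / M)).card : ℝ) /
      I.card - (gaussianReal 0 1).real (Set.Iic (-R + 2 * R * i / M))| ≤ η / 4 := by
    intro i hi
    have hi' : i ∈ Finset.range (M + 1) := by rw [Finset.mem_range]; omega
    refine hT i I Z hI hZ fun t ht => ?_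
    exact (hclose t (Finset.mem_biUnion.mpr ⟨i, hi', ht⟩)).trans (Finset.inf'_le ζ hi')
  have hI0 : (0 : ℝ) < I.card := by exact_mod_cast hI.card_pos
  have hmono : ∀ a b : ℝ, a ≤ b → ((I.filter (fun n => Z n ≤ a)).card : ℝ) / I.card ≤
      ((I.filter (fun n => Z n ≤ b)).card : ℝ) / I.card := by
    intro a b hab
    apply div_le_div_of_nonneg_right _ hI0.le
    exact_mod_cast Finset.card_le_card fun n hn => by
      rw [Finset.mem_filter] at hn ⊢
      exact ⟨hn.1, hn.2.trans hab⟩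
  have hle1 : ∀ a : ℝ, ((I.filter (fun n => Z n ≤ a)).card : ℝ) / I.card ≤ 1 := by
    intro a
    rw [div_le_one hI0]
    exact_mod_cast Finset.card_filter_le _ _
  have hge0 : ∀ a : ℝ, 0 ≤ ((I.filter (fun n => Z n ≤ a)).card : ℝ) / I.card := fun a => by
    positivity
  have hP1 : ∀ a : ℝ, (gaussianReal 0 1).real (Set.Iic a) ≤ 1 := fun a => measureReal_le_one
  have hP0 : ∀ a : ℝ, 0 ≤ (gaussianReal 0 1).real (Set.Iic a) := fun a => measureReal_nonneg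
  have hPm : ∀ a b : ℝ, a ≤ b → (gaussianReal 0 1).real (Set.Iic a) ≤
      (gaussianReal 0 1).real (Set.Iic b) := fun a b hab =>
    measureReal_mono (Set.Iic_subset_Iic.mpr hab)
  have h0 := hgrid 0 (Nat.zero_le _)
  have hMM := hgrid M le_rfl
  have e0 : -R + 2 * R * ((0 : ℕ) : ℝ) / M = -R := by simp
  have eM : -R + 2 * R * (M : ℝ) / M = R := by
    field_simp
    ring
  rw [e0] at h0
  rw [eM] at hMM
  rw [abs_le] at h0 hMM
  rw [abs_le]
  rcases le_or_gt u (-R) with hu | hu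
  · have a1 := hmono u (-R) hu
    have a2 := hPm u (-R) hu
    have a3 := hge0 u
    have a4 := hP0 u
    constructor <;> linarith only [hη, hRa, a2, a3, h0, a1, a4, h0.1, h0.2]
  rcases le_or_gt R u with hu2 | hu2
  · have a1 := hmono R u hu2
    have a2 := hPm R u hu2
    have a3 := hle1 u
    have a4 := hP1 u
    constructor <;> linarith only [hη, hRb, hMM, a1, a4, a2, a3, hMM.1, hMM.2]
  -- `-R < u < R`
  set i : ℕ := ⌊(u + R) * M / (2 * R)⌋₊ with hi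
  have hR0 : 0 < R := by linarith only [hR1]
  have hx0 : 0 ≤ (u + R) * M / (2 * R) := by
    have : 0 ≤ u + R := by linarith only [hu]
    positivity
  have hx1 : (u + R) * M / (2 * R) < M := by
    rw [div_lt_iff₀ (by positivity)]
    nlinarith only [hM0, hu2]
  have hiM : i < M := by
    have h5 : (i : ℝ) < M := lt_of_le_of_lt (Nat.floor_le hx0) hx1
    exact_mod_cast h5
  have hlo : -R + 2 * R * (i : ℝ) / M ≤ u := by
    have h5 := Nat.floor_le hx0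
    rw [← hi, le_div_iff₀ (by positivity)] at h5
    have h6 : 2 * R * (i : ℝ) / M ≤ u + R := by
      rw [div_le_iff₀ hM0]
      linarith only [h5]
    linarith only [h6]
  have hup : u ≤ -R + 2 * R * ((i + 1 : ℕ) : ℝ) / M := by
    have h5 := (Nat.lt_floor_add_one ((u + R) * M / (2 * R))).le
    rw [← hi, div_le_iff₀ (by positivity)] at h5
    have h6 : u + R ≤ 2 * R * ((i + 1 : ℕ) : ℝ) / M := by
      rw [le_div_iff₀ hM0]
      push_cast
      linarith only [h5]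
    linarith only [h6]
  have hgap : -R + 2 * R * ((i + 1 : ℕ) : ℝ) / M - (-R + 2 * R * (i : ℝ) / M) ≤ η / 4 := by
    have : -R + 2 * R * ((i + 1 : ℕ) : ℝ) / M - (-R + 2 * R * (i : ℝ) / M) = 2 * R / M := by
      push_cast
      field_simp
      ring
    rw [this]
    exact hstep
  have b1 := hgrid i hiM.le
  have b2 := hgrid (i + 1) hiM
  rw [abs_le] at b1 b2
  have c1 := hmono _ _ hlo
  have c2 := hmono _ _ hup
  have c3 := hPm _ _ hlo
  have c4 := hPm _ _ hup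
  have c5 := LevU_Phi (hlo.trans hup)
  constructor <;> linarith only [hη, hgap, b1, c1, c4, c5, b2, c2, c3, b1.1, b1.2, b2.1, b2.2]

end Pool.Agent.H43.CH

end

section

/-!
# CH Tel: replacement of the exponentials by cosines (telescoping)

`e(m) = exp(i θ μ(m))`, `c(m) = cos(θ μ(m))`; `e(m) - c(m) = i sin(θ μ(m)) = i μ(m) sin θ` (`μ(m) ∈ {-1, 0, 1}`), `‖e‖ = 1`, `|c| ≤ 1`, `|sin θ| ≤ |θ|`.
Claim by induction on `K`, for all `G` with `‖G n‖ ≤ 1` on `Ioc X (2X)`: `∑_{h ∈ [1,H]^K} ‖∑_n G(n) (∏_i e(n + h_i) - ∏_i c(n + h_i))‖ ≤ K H^K |θ| β`.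
`K + 1` (`Fin.cons`, compare `Ch1.lean` in the team store): `e_0 ∏ e - c_0 ∏ c = (e_0 - c_0) ∏ e + c_0 (∏ e - ∏ c)`.  First part: the other `h_i` fixed, `G'(n) = G(n) ∏_i e(n + h_i)`: `∑_{h_0} ≤ |sin θ| H β`, summed over the others: `H^{K+1} |θ| β`.
Second part: `h_0` fixed, `G''(n) = G(n) c(n + h_0)`: induction hypothesis, summed over `h_0`: `K H^{K+1} |θ| β`.  (`β ≥ 0` if `H ≥ 1`, from `hβ` with `G = 0`; `H = 0`: the sum is empty for `K ≥ 1`.)
-/

set_option autoImplicit false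

namespace Pool.Agent.H43.CH

open Finset
open Pool.Agent.H43.LM (mu)

theorem tel_mu (m : ℕ) : mu m = 0 ∨ mu m = 1 ∨ mu m = -1 := by
  unfold Pool.Agent.H43.LM.mu
  rcases ArithmeticFunction.moebius_eq_or m with h | h | h <;> rw [h] <;> simp

theorem tel_sin (θ : ℝ) (m : ℕ) : Real.sin (θ * mu m) = mu m * Real.sin θ := by
  rcases tel_mu m with h | h | h <;> rw [h] <;> simp

theorem tel_diff (θ : ℝ) (m : ℕ) : Complex.exp (((θ * mu m : ℝ) : ℂ) * Complex.I) - ((Real.cos (θ * mu m) : ℝ) : ℂ)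
    = (Real.sin θ : ℂ) * Complex.I * ((mu m : ℝ) : ℂ) := by
  rw [Complex.exp_mul_I, ← Complex.ofReal_cos, ← Complex.ofReal_sin, tel_sin]
  push_cast
  ring

theorem tel_cons (j : ℕ) (S : Finset ℕ) (f : (Fin (j + 1) → ℕ) → ℝ) :
    ∑ h ∈ Fintype.piFinset (fun _ : Fin (j + 1) => S), f h
      = ∑ x ∈ S, ∑ h ∈ Fintype.piFinset (fun _ : Fin j => S), f (Fin.cons x h) := by
  rw [← Finset.sum_product']
  refine (Finset.sum_nbij' (fun p : ℕ × (Fin j → ℕ) => (Fin.cons p.1 p.2 : Fin (j + 1) → ℕ)) (fun h => (h 0, Fin.tail h)) ?_ ?_ ?_ ?_ ?_).symm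
  · rintro ⟨x, h⟩ hp
    rw [mem_product, Fintype.mem_piFinset] at hp
    rw [Fintype.mem_piFinset]
    intro i
    refine Fin.cases ?_ (fun i => ?_) i
    · simpa using hp.1
    · simpa using hp.2 i
  · intro h hh
    rw [Fintype.mem_piFinset] at hh
    rw [mem_product, Fintype.mem_piFinset]
    exact ⟨hh 0, fun i => hh i.succ⟩
  · rintro ⟨x, h⟩ _
    simp
  · intro h _
    exact Fin.cons_self_tail h
  · rintro ⟨x, h⟩ _
    rfl

theorem tel_ind (X H : ℕ) (θ β : ℝ) (hβ : ∀ G : ℕ → ℂ, (∀ n ∈ Ioc X (2 * X), ‖G n‖ ≤ 1) →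
      ∑ h ∈ Icc 1 H, ‖∑ n ∈ Ioc X (2 * X), G n * ((mu (n + h) : ℝ) : ℂ)‖ ≤ H * β) (K : ℕ) :
    ∀ G : ℕ → ℂ, (∀ n ∈ Ioc X (2 * X), ‖G n‖ ≤ 1) →
    ∑ h ∈ Fintype.piFinset (fun _ : Fin K => Icc 1 H),
      ‖∑ n ∈ Ioc X (2 * X), G n * ((∏ i, Complex.exp (((θ * mu (n + h i) : ℝ) : ℂ) * Complex.I))
          - ∏ i, ((Real.cos (θ * mu (n + h i)) : ℝ) : ℂ))‖
      ≤ K * (H : ℝ) ^ K * |θ| * β := by
  induction K with
  | zero =>
    intro G _
    simp
  | succ K ih =>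
    intro G hG
    rw [tel_cons]
    have hE1 : ∀ m : ℕ, ‖Complex.exp (((θ * mu m : ℝ) : ℂ) * Complex.I)‖ = 1 := fun m => Complex.norm_exp_ofReal_mul_I _
    have hC1 : ∀ m : ℕ, ‖((Real.cos (θ * mu m) : ℝ) : ℂ)‖ ≤ 1 := fun m => by
      rw [Complex.norm_real, Real.norm_eq_abs]
      exact Real.abs_cos_le_one _
    have hsplit : ∀ x ∈ Icc 1 H, ∀ h ∈ Fintype.piFinset (fun _ : Fin K => Icc 1 H),
        ‖∑ n ∈ Ioc X (2 * X), G n * ((∏ i, Complex.exp (((θ * mu (n + (Fin.cons x h : Fin (K + 1) → ℕ) i) : ℝ) : ℂ) * Complex.I))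
          - ∏ i, ((Real.cos (θ * mu (n + (Fin.cons x h : Fin (K + 1) → ℕ) i)) : ℝ) : ℂ))‖
        ≤ |θ| * ‖∑ n ∈ Ioc X (2 * X), (G n * ∏ i, Complex.exp (((θ * mu (n + h i) : ℝ) : ℂ) * Complex.I)) * ((mu (n + x) : ℝ) : ℂ)‖
          + ‖∑ n ∈ Ioc X (2 * X), (G n * ((Real.cos (θ * mu (n + x)) : ℝ) : ℂ)) *
            ((∏ i, Complex.exp (((θ * mu (n + h i) : ℝ) : ℂ) * Complex.I)) - ∏ i, ((Real.cos (θ * mu (n + h i)) : ℝ) : ℂ))‖ := by
      intro x _ h _
      have e1 : ∑ n ∈ Ioc X (2 * X), G n * ((∏ i, Complex.exp (((θ * mu (n + (Fin.cons x h : Fin (K + 1) → ℕ) i) : ℝ) : ℂ) * Complex.I))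
          - ∏ i, ((Real.cos (θ * mu (n + (Fin.cons x h : Fin (K + 1) → ℕ) i)) : ℝ) : ℂ))
          = (Real.sin θ : ℂ) * Complex.I * (∑ n ∈ Ioc X (2 * X), (G n * ∏ i, Complex.exp (((θ * mu (n + h i) : ℝ) : ℂ) * Complex.I)) * ((mu (n + x) : ℝ) : ℂ))
            + ∑ n ∈ Ioc X (2 * X), (G n * ((Real.cos (θ * mu (n + x)) : ℝ) : ℂ)) *
            ((∏ i, Complex.exp (((θ * mu (n + h i) : ℝ) : ℂ) * Complex.I)) - ∏ i, ((Real.cos (θ * mu (n + h i)) : ℝ) : ℂ)) := by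
        rw [Finset.mul_sum, ← Finset.sum_add_distrib]
        refine Finset.sum_congr rfl fun n _ => ?_
        rw [Fin.prod_univ_succ, Fin.prod_univ_succ]
        simp only [Fin.cons_zero, Fin.cons_succ]
        have e2 := tel_diff θ (n + x)
        generalize (∏ i, Complex.exp (((θ * mu (n + h i) : ℝ) : ℂ) * Complex.I)) = A at *
        generalize (∏ i, ((Real.cos (θ * mu (n + h i)) : ℝ) : ℂ)) = B at *
        generalize Complex.exp (((θ * mu (n + x) : ℝ) : ℂ) * Complex.I) = E at *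
        linear_combination (G n * A) * e2
      rw [e1]
      refine (norm_add_le _ _).trans (add_le_add_left ?_ _)
      rw [norm_mul, norm_mul, Complex.norm_I, mul_one, Complex.norm_real, Real.norm_eq_abs]
      refine mul_le_mul_of_nonneg_right ?_ (norm_nonneg _)
      exact Real.abs_sin_le_abs
    have hcard : ((Fintype.piFinset (fun _ : Fin K => Icc 1 H)).card : ℝ) = (H : ℝ) ^ K := by
      rw [Fintype.card_piFinset]
      simp
    have hA : ∑ x ∈ Icc 1 H, ∑ h ∈ Fintype.piFinset (fun _ : Fin K => Icc 1 H),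
        |θ| * ‖∑ n ∈ Ioc X (2 * X), (G n * ∏ i, Complex.exp (((θ * mu (n + h i) : ℝ) : ℂ) * Complex.I)) * ((mu (n + x) : ℝ) : ℂ)‖
          ≤ (H : ℝ) ^ K * (|θ| * (H * β)) := by
      rw [Finset.sum_comm]
      have h1 : ∀ h ∈ Fintype.piFinset (fun _ : Fin K => Icc 1 H),
          ∑ x ∈ Icc 1 H, |θ| * ‖∑ n ∈ Ioc X (2 * X), (G n * ∏ i, Complex.exp (((θ * mu (n + h i) : ℝ) : ℂ) * Complex.I)) * ((mu (n + x) : ℝ) : ℂ)‖
            ≤ |θ| * (H * β) := by
        intro h _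
        rw [← Finset.mul_sum]
        refine mul_le_mul_of_nonneg_left (hβ (fun n => G n * ∏ i, Complex.exp (((θ * mu (n + h i) : ℝ) : ℂ) * Complex.I)) ?_) (abs_nonneg _)
        intro n hn
        rw [norm_mul, norm_prod, Finset.prod_eq_one fun i _ => hE1 _, mul_one]
        exact hG n hn
      refine (Finset.sum_le_sum h1).trans (le_of_eq ?_)
      rw [Finset.sum_const, nsmul_eq_mul, hcard]
    have hB : ∑ x ∈ Icc 1 H, ∑ h ∈ Fintype.piFinset (fun _ : Fin K => Icc 1 H),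
        ‖∑ n ∈ Ioc X (2 * X), (G n * ((Real.cos (θ * mu (n + x)) : ℝ) : ℂ)) *
            ((∏ i, Complex.exp (((θ * mu (n + h i) : ℝ) : ℂ) * Complex.I)) - ∏ i, ((Real.cos (θ * mu (n + h i)) : ℝ) : ℂ))‖
          ≤ H * (K * (H : ℝ) ^ K * |θ| * β) := by
      have h1 : ∀ x ∈ Icc 1 H, ∑ h ∈ Fintype.piFinset (fun _ : Fin K => Icc 1 H),
          ‖∑ n ∈ Ioc X (2 * X), (G n * ((Real.cos (θ * mu (n + x)) : ℝ) : ℂ)) *
            ((∏ i, Complex.exp (((θ * mu (n + h i) : ℝ) : ℂ) * Complex.I)) - ∏ i, ((Real.cos (θ * mu (n + h i)) : ℝ) : ℂ))‖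
            ≤ K * (H : ℝ) ^ K * |θ| * β := by
        intro x _
        refine ih (fun n => G n * ((Real.cos (θ * mu (n + x)) : ℝ) : ℂ)) ?_
        intro n hn
        rw [norm_mul]
        exact mul_le_one₀ (hG n hn) (norm_nonneg _) (hC1 _)
      refine (Finset.sum_le_sum h1).trans (le_of_eq ?_)
      rw [Finset.sum_const, nsmul_eq_mul, Nat.card_Icc, Nat.add_sub_cancel]
    have hfin := (Finset.sum_le_sum fun x hx => Finset.sum_le_sum fun h hh => hsplit x hx h hh).trans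
      (le_of_eq (by simp only [Finset.sum_add_distrib])) |>.trans (add_le_add hA hB)
    refine hfin.trans (le_of_eq ?_)
    push_cast
    ring

theorem tel (X H K : ℕ) (θ β : ℝ) (hβ : ∀ G : ℕ → ℂ, (∀ n ∈ Ioc X (2 * X), ‖G n‖ ≤ 1) →
      ∑ h ∈ Icc 1 H, ‖∑ n ∈ Ioc X (2 * X), G n * ((mu (n + h) : ℝ) : ℂ)‖ ≤ H * β) :
    ∑ h ∈ Fintype.piFinset (fun _ : Fin K => Icc 1 H),
      ‖∑ n ∈ Ioc X (2 * X), (Complex.exp (((θ * ∑ i, mu (n + h i) : ℝ) : ℂ) * Complex.I)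
          - ((∏ i, Real.cos (θ * mu (n + h i)) : ℝ) : ℂ))‖
      ≤ K * (H : ℝ) ^ K * |θ| * β := by
  have h := tel_ind X H θ β hβ K (fun _ => 1) (fun n _ => by simp)
  refine le_trans (le_of_eq ?_) h
  refine Finset.sum_congr rfl fun h _ => ?_
  congr 1
  refine Finset.sum_congr rfl fun n _ => ?_
  rw [one_mul, ← Complex.exp_sum, Complex.ofReal_prod, ← Finset.sum_mul, Finset.mul_sum, Complex.ofReal_sum]

end Pool.Agent.H43.CH

end

section

/-!
# CH Mwm: basic facts on the window sums `Mw` (measurability, bounds, integrability)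
-/

set_option autoImplicit false

namespace Pool.Agent.H43.CH

open Finset MeasureTheory
open Pool.Agent.H91.PK (ee)
open Pool.Agent.H43.LM (Win Mw)

/-- the window is the set of all natural numbers `n` with `|n - x| < H/2` -/
theorem mem_Win {x H : ℝ} (hH : 0 ≤ H) (n : ℕ) : n ∈ Win x H ↔ |(n : ℝ) - x| < H / 2 := by
  unfold Win
  rw [Finset.mem_filter, Finset.mem_range]
  refine ⟨fun h => h.2, fun h => ⟨?_, h⟩⟩
  have h1 := (abs_lt.1 h).2
  have h2 : (n : ℝ) < ((⌈x + H⌉₊ + 1 : ℕ) : ℝ) := by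
    push_cast
    have := Nat.le_ceil (x + H)
    linarith
  exact_mod_cast h2

/-- the window sum as a sum over a fixed range -/
theorem Mw_range (F : ℕ → ℝ) (x H α : ℝ) (hH : 0 ≤ H) (M : ℕ) (hM : x + H / 2 ≤ M) :
    Mw F x H α = ∑ n ∈ range M, if |(n : ℝ) - x| < H / 2 then (F n : ℂ) * ee (n * α) else 0 := by
  unfold Mw
  rw [← Finset.sum_filter]
  refine Finset.sum_congr ?_ fun _ _ => rfl
  ext n
  rw [mem_Win hH, Finset.mem_filter, Finset.mem_range]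
  refine ⟨fun h => ⟨?_, h⟩, fun h => h.2⟩
  have h1 := (abs_lt.1 h).2
  have h2 : (n : ℝ) < M := by linarith
  exact_mod_cast h2

theorem measurable_Mw (F : ℕ → ℝ) (H α : ℝ) (hH : 0 ≤ H) : Measurable (fun x : ℝ => Mw F x H α) := by
  have h1 : ∀ M : ℕ, Measurable (fun x : ℝ => ∑ n ∈ range M,
      if |(n : ℝ) - x| < H / 2 then (F n : ℂ) * ee (n * α) else 0) := by
    intro M
    refine Finset.measurable_fun_sum _ fun n _ => ?_
    refine Measurable.ite ?_ measurable_const measurable_const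
    exact measurableSet_lt (by fun_prop) measurable_const
  refine measurable_of_tendsto_metrizable h1 ?_
  rw [tendsto_pi_nhds]
  intro x
  refine tendsto_const_nhds.congr' ?_
  filter_upwards [Filter.eventually_ge_atTop ⌈x + H / 2⌉₊] with M hM
  exact Mw_range F x H α hH M ((Nat.le_ceil _).trans (by exact_mod_cast hM))

theorem card_Win (x H : ℝ) (hH : 0 ≤ H) : ((Win x H).card : ℝ) ≤ H + 1 := by
  have hsub : ((Win x H).image (fun n : ℕ => (n : ℤ))) ⊆ Finset.Ioo (⌊x - H / 2⌋) (⌈x + H / 2⌉) := by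
    intro z hz
    rw [Finset.mem_image] at hz
    obtain ⟨n, hn, rfl⟩ := hz
    rw [mem_Win hH] at hn
    have h1 := abs_lt.1 hn
    rw [Finset.mem_Ioo]
    constructor
    · rw [Int.floor_lt]
      push_cast
      linarith
    · rw [Int.lt_ceil]
      push_cast
      linarith
  have hcard := Finset.card_le_card hsub
  rw [Finset.card_image_of_injective _ (fun a b h => by exact_mod_cast h), Int.card_Ioo] at hcard
  have h2 : (⌈x + H / 2⌉ : ℝ) < x + H / 2 + 1 := Int.ceil_lt_add_one _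
  have h3 : x - H / 2 < (⌊x - H / 2⌋ : ℝ) + 1 := Int.lt_floor_add_one _
  have h4 : ((Win x H).card : ℤ) ≤ max (⌈x + H / 2⌉ - ⌊x - H / 2⌋ - 1) 0 := by
    have : (((⌈x + H / 2⌉ - ⌊x - H / 2⌋ - 1).toNat : ℕ) : ℤ) = max (⌈x + H / 2⌉ - ⌊x - H / 2⌋ - 1) 0 :=
      Int.toNat_eq_max _
    rw [← this]
    exact_mod_cast hcard
  rcases le_max_iff.1 h4 with h5 | h5
  · have h6 : ((Win x H).card : ℝ) ≤ (⌈x + H / 2⌉ : ℝ) - ⌊x - H / 2⌋ - 1 := by exact_mod_cast h5
    linarith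
  · have h6 : ((Win x H).card : ℝ) ≤ 0 := by exact_mod_cast h5
    linarith

theorem norm_Mw_le (F : ℕ → ℝ) (x H α B : ℝ) (hH : 0 ≤ H) (hF : ∀ n ∈ Win x H, |F n| ≤ B) (hB : 0 ≤ B) :
    ‖Mw F x H α‖ ≤ (H + 1) * B := by
  unfold Mw
  refine (norm_sum_le _ _).trans ?_
  have h1 : ∀ n ∈ Win x H, ‖(F n : ℂ) * ee (n * α)‖ ≤ B := by
    intro n hn
    rw [norm_mul, Pool.Agent.H91.PK.LSa_norm_ee, mul_one, Complex.norm_real, Real.norm_eq_abs]
    exact hF n hn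
  refine (Finset.sum_le_sum h1).trans ?_
  rw [Finset.sum_const, nsmul_eq_mul]
  exact mul_le_mul_of_nonneg_right (card_Win x H hH) hB

/-- bound for windows whose elements are `≥ 1` and `≤ N` -/
theorem norm_Mw_le' (F : ℕ → ℝ) (x H α B : ℝ) (N : ℕ) (hH : 0 ≤ H) (hx : H / 2 ≤ x) (hN : x + H / 2 ≤ N)
    (hF : ∀ n, 1 ≤ n → n ≤ N → |F n| ≤ B) (hB : 0 ≤ B) : ‖Mw F x H α‖ ≤ (H + 1) * B := by
  refine norm_Mw_le F x H α B hH (fun n hn => ?_) hB
  rw [mem_Win hH] at hn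
  have h1 := abs_lt.1 hn
  refine hF n ?_ ?_
  · rcases Nat.eq_zero_or_pos n with h0 | h0
    · exfalso
      rw [h0, Nat.cast_zero] at h1
      linarith
    · exact h0
  · have : (n : ℝ) < N := by linarith
    exact_mod_cast this.le

/-- `Mw` is bounded on bounded sets of `x` -/
theorem bdd_Mw (F : ℕ → ℝ) (H α : ℝ) (hH : 0 ≤ H) (R : ℝ) : ∃ C : ℝ, 0 ≤ C ∧ ∀ x ≤ R, ‖Mw F x H α‖ ≤ C := by
  refine ⟨∑ n ∈ range ⌈R + H / 2⌉₊, |F n|, Finset.sum_nonneg fun _ _ => abs_nonneg _, fun x hx => ?_⟩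
  rw [Mw_range F x H α hH ⌈R + H / 2⌉₊ (le_trans (by linarith) (Nat.le_ceil _))]
  refine (norm_sum_le _ _).trans (Finset.sum_le_sum fun n _ => ?_)
  split_ifs
  · rw [norm_mul, Pool.Agent.H91.PK.LSa_norm_ee, mul_one, Complex.norm_real, Real.norm_eq_abs]
  · rw [norm_zero]
    exact abs_nonneg _

theorem integrableOn_Mw (F : ℕ → ℝ) (H α : ℝ) (hH : 0 ≤ H) (a b : ℝ) :
    IntegrableOn (fun x : ℝ => Mw F x H α) (Set.Icc a b) := by
  obtain ⟨C, hC0, hC⟩ := bdd_Mw F H α hH b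
  refine Measure.integrableOn_of_bounded (M := C) ?_ (measurable_Mw F H α hH).aestronglyMeasurable ?_
  · exact (isCompact_Icc.measure_lt_top).ne
  · exact (ae_restrict_iff' measurableSet_Icc).2 (Filter.Eventually.of_forall fun x hx => hC x hx.2)

theorem integrableOn_Mw_norm (F : ℕ → ℝ) (H α : ℝ) (hH : 0 ≤ H) (a b : ℝ) :
    IntegrableOn (fun x : ℝ => ‖Mw F x H α‖) (Set.Icc a b) := (integrableOn_Mw F H α hH a b).norm

theorem integrableOn_Mw_sq (F : ℕ → ℝ) (H α : ℝ) (hH : 0 ≤ H) (a b : ℝ) :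
    IntegrableOn (fun x : ℝ => ‖Mw F x H α‖ ^ 2) (Set.Icc a b) := by
  obtain ⟨C, hC0, hC⟩ := bdd_Mw F H α hH b
  refine Measure.integrableOn_of_bounded (M := C ^ 2) ?_
    ((measurable_Mw F H α hH).norm.pow_const 2).aestronglyMeasurable ?_
  · exact (isCompact_Icc.measure_lt_top).ne
  · refine (ae_restrict_iff' measurableSet_Icc).2 (Filter.Eventually.of_forall fun x hx => ?_)
    rw [Real.norm_eq_abs, abs_of_nonneg (by positivity)]
    exact pow_le_pow_left₀ (norm_nonneg _) (hC x hx.2) 2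

/-- period 1 in the frequency -/
theorem Mw_add_int (F : ℕ → ℝ) (x H α : ℝ) (k : ℤ) : Mw F x H (α + k) = Mw F x H α := by
  unfold Mw
  refine Finset.sum_congr rfl fun n _ => ?_
  congr 1
  unfold ee
  rw [Complex.exp_eq_exp_iff_exists_int]
  refine ⟨n * k, ?_⟩
  push_cast
  ring

end Pool.Agent.H43.CH

end

section

/-!
# CH Blk: the sequence of blocks

`Q 0 = P1`, `Q (j+1) = Q j + Q j/W + 1` (natural division).  `(Q (j+1) - Q j) W = (Q j/W + 1) W ≤ Q j + W ≤ 2 Q j`, `Q (j+1) ≤ 2 Q j` (`W ≥ 2`, `Q j ≥ W ≥ 2`).  `Q (j+1) ≥ Q j (1 + 1/W)`, so `Q j ≥ (1 + 1/W)^j`; `J` = the least `j` with `Q j ≥ D`: `Q J ≤ 2 Q (J-1) ≤ 2D` (or `Q 0 = P1 ≤ 2D` if `J = 0`), and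
`(1 + 1/W)^{J-1} ≤ D`, `log(1 + 1/W) ≥ 1/(2W)`: `J ≤ 2 W log D + 1`.
-/

set_option autoImplicit false

namespace Pool.Agent.H43.CH

/-- the sequence of blocks -/
private def Blk_Q (W P1 : ℕ) : ℕ → ℕ
  | 0 => P1
  | j + 1 => Blk_Q W P1 j + Blk_Q W P1 j / W + 1

private theorem Blk_succ (W P1 j : ℕ) :
    Blk_Q W P1 (j + 1) = Blk_Q W P1 j + Blk_Q W P1 j / W + 1 := rfl

private theorem Blk_mono (W P1 : ℕ) : StrictMono (Blk_Q W P1) := by
  refine strictMono_nat_of_lt_succ fun j => ?_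
  rw [Blk_succ]
  exact Nat.lt_succ_of_le (Nat.le_add_right _ _)

private theorem Blk_ge (W P1 j : ℕ) : P1 ≤ Blk_Q W P1 j :=
  (Blk_mono W P1).monotone (Nat.zero_le j)

private theorem Blk_pow (W P1 : ℕ) (hW : 2 ≤ W) (hP : W ≤ P1) (j : ℕ) :
    (1 + 1 / (W : ℝ)) ^ j ≤ (Blk_Q W P1 j : ℝ) := by
  have hW0 : (0 : ℝ) < W := by
    have : 0 < W := by omega
    exact_mod_cast this
  induction j with
  | zero =>
    rw [pow_zero]
    have : 1 ≤ Blk_Q W P1 0 := by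
      have := Blk_ge W P1 0
      omega
    exact_mod_cast this
  | succ j ih =>
    rw [Blk_succ, pow_succ]
    push_cast
    have h1 : (Blk_Q W P1 j : ℝ) / W ≤ ((Blk_Q W P1 j / W : ℕ) : ℝ) + 1 := by
      rw [div_le_iff₀ hW0]
      have h2 : Blk_Q W P1 j < (Blk_Q W P1 j / W + 1) * W := by
        have := Nat.lt_div_mul_add (a := Blk_Q W P1 j) (b := W) (by omega)
        rw [add_mul, one_mul]
        exact this
      exact_mod_cast h2.le
    calc (1 + 1 / (W : ℝ)) ^ j * (1 + 1 / (W : ℝ)) ≤ (Blk_Q W P1 j : ℝ) * (1 + 1 / (W : ℝ)) :=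
          mul_le_mul_of_nonneg_right ih (by positivity)
      _ = (Blk_Q W P1 j : ℝ) + (Blk_Q W P1 j : ℝ) / W := by ring
      _ ≤ _ := by linarith

theorem blk (W P1 D : ℕ) (hW : 2 ≤ W) (hP : W ≤ P1) (hD : P1 ≤ D) : ∃ (Q : ℕ → ℕ) (J : ℕ), Q 0 = P1 ∧ StrictMono Q ∧
    (∀ j, Q (j + 1) ≤ 2 * Q j) ∧ (∀ j, (Q (j + 1) - Q j) * W ≤ 2 * Q j) ∧ D ≤ Q J ∧ Q J ≤ 2 * D ∧
    (J : ℝ) ≤ 2 * W * Real.log D + 1 := by
  have hmono := Blk_mono W P1
  have hge := Blk_ge W P1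
  have hdouble : ∀ j, Blk_Q W P1 (j + 1) ≤ 2 * Blk_Q W P1 j := by
    intro j
    rw [Blk_succ]
    have h1 := hge j
    have h2 : Blk_Q W P1 j / W ≤ Blk_Q W P1 j / 2 := Nat.div_le_div_left hW (by norm_num)
    generalize Blk_Q W P1 j / W = c at *
    omega
  have hex : ∃ J, D ≤ Blk_Q W P1 J := ⟨D, hmono.le_apply⟩
  classical
  have hW0 : (0 : ℝ) < W := by
    have : 0 < W := by omega
    exact_mod_cast this
  have hD2 : (2 : ℝ) ≤ D := by
    have : 2 ≤ D := by omega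
    exact_mod_cast this
  have hlog : 0 ≤ Real.log D := Real.log_nonneg (by linarith)
  refine ⟨Blk_Q W P1, Nat.find hex, rfl, hmono, hdouble, ?_, Nat.find_spec hex, ?_, ?_⟩
  · intro j
    have h1 := hge j
    have h2 : Blk_Q W P1 (j + 1) - Blk_Q W P1 j = Blk_Q W P1 j / W + 1 := by
      rw [Blk_succ, add_assoc, Nat.add_sub_cancel_left]
    rw [h2, add_mul, one_mul]
    have h3 := Nat.div_mul_le_self (Blk_Q W P1 j) W
    linarith
  · rcases Nat.eq_zero_or_pos (Nat.find hex) with h0 | hpos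
    · rw [h0]
      have : Blk_Q W P1 0 = P1 := rfl
      omega
    · obtain ⟨j, hj⟩ := Nat.exists_eq_succ_of_ne_zero hpos.ne'
      have h1 : ¬ D ≤ Blk_Q W P1 j := Nat.find_min hex (by omega)
      rw [hj]
      have h2 := hdouble j
      have h3 : Blk_Q W P1 j.succ = Blk_Q W P1 (j + 1) := rfl
      omega
  · rcases Nat.eq_zero_or_pos (Nat.find hex) with h0 | hpos
    · rw [h0]
      push_cast
      positivity
    · obtain ⟨j, hj⟩ := Nat.exists_eq_succ_of_ne_zero hpos.ne'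
      have h1 : ¬ D ≤ Blk_Q W P1 j := Nat.find_min hex (by omega)
      have h2 : (1 + 1 / (W : ℝ)) ^ j ≤ (D : ℝ) := by
        refine (Blk_pow W P1 hW hP j).trans ?_
        have : Blk_Q W P1 j ≤ D := by omega
        exact_mod_cast this
      have h3 : (j : ℝ) * Real.log (1 + 1 / (W : ℝ)) ≤ Real.log D := by
        rw [← Real.log_pow]
        exact Real.log_le_log (by positivity) h2
      have h4 : 1 / (2 * (W : ℝ)) ≤ Real.log (1 + 1 / (W : ℝ)) := by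
        refine le_trans ?_ (Real.one_sub_inv_le_log_of_pos (by positivity))
        have h5 : 1 - (1 + 1 / (W : ℝ))⁻¹ = 1 / ((W : ℝ) + 1) := by
          field_simp
          ring
        rw [h5]
        apply one_div_le_one_div_of_le (by positivity)
        have : (1 : ℝ) ≤ W := by
          have : 1 ≤ W := by omega
          exact_mod_cast this
        linarith
      have h6 : (j : ℝ) * (1 / (2 * (W : ℝ))) ≤ Real.log D :=
        (mul_le_mul_of_nonneg_left h4 (Nat.cast_nonneg j)).trans h3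
      have h7 : (j : ℝ) ≤ 2 * W * Real.log D := by
        have h8 : (j : ℝ) = (j : ℝ) * (1 / (2 * (W : ℝ))) * (2 * W) := by
          field_simp
        rw [h8]
        calc (j : ℝ) * (1 / (2 * (W : ℝ))) * (2 * W) ≤ Real.log D * (2 * W) :=
              mul_le_mul_of_nonneg_right h6 (by positivity)
          _ = 2 * W * Real.log D := by ring
      rw [hj]
      push_cast
      linarith

end Pool.Agent.H43.CH

end

section

/-!
# VKT (H97/VK of helper97 with the parameter `T0.t` in place of `9/10`, `t1` in place of `19/20`) Low: lower bound for the sieved `L`-functions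

Proof (compare `EHA/SwC.lean`).  `q = qm x d`, `ψ = ch x χ`, `ψ^2 = ch x (χ^2)` (`ch_sq`), `s = σ + iτ`.
3-4-1: `DirichletCharacter.norm_LSeries_product_ge_one` (`Mathlib/NumberTheory/LSeries/Nonvanishing.lean`; `Lk q ψ 0` is the `LSeries` of `ψ`):
`‖Lk q 1 0 σ‖^3 ‖Lk q ψ 0 (σ+iτ)‖^4 ‖Lk q ψ^2 0 (σ+2iτ)‖ ≥ 1`.
`zy_up`: `‖Lk q 1 0 σ‖ ≤ 2C/(η L9)` for `η = σ - 1 ≤ 1/L9`, `≤ 2C` for `η ≥ 1/L9`; `lk_up 0`: `‖Lk q ψ^2 0 (σ + 2iτ)‖ ≤ C LL` (`|2τ| ≤ 6 x^3`).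
(a) `η ≥ 1/L9`: `‖L‖ ≥ c LL^{-1/4} ≥ c/LL^7`.
(b) `1/L9 ≥ η ≥ η0 := c'/(L9 LL^9)`: `‖L‖ ≥ c1 (η L9)^{3/4} LL^{-1/4} ≥ c1 c'^{3/4} LL^{-7}`.
(c) `1/(4L) ≤ η ≤ η0`: `‖L(σ+iτ) - L(1+η0+iτ)‖ ≤ η0 C2 L9 LL^2 = C2 c' LL^{-7}` (`lk_up 1`, `Lk_hasDeriv`, mean value inequality on the segment), and
`C2 c' ≤ (c1/2) c'^{3/4}` for `c'` small.  (`η0 ≥ 1/(4L)` or not does not matter.)
-/

set_option autoImplicit false

namespace Pool.Agent.H76.VKT

open Finset
open Pool.Agent.H91.EHA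

/-- abstract 3-4-1 argument on `[u0, 1]` -/
private theorem Low_core (F : ℝ → ℝ) (u0 A D K : ℝ) (hu0 : 0 < u0) (hA : 1 ≤ A) (hD : 1 ≤ D) (hK : 1 ≤ K)
    (h1 : ∀ u, u0 ≤ u → u ≤ 1 → u ^ 3 ≤ A ^ 3 * K * F u ^ 4)
    (h2 : ∀ u u', u0 ≤ u → u ≤ u' → u' ≤ 1 → F u' ≤ F u + D * (u' - u))
    (h0 : ∀ u, u0 ≤ u → u ≤ 1 → 0 ≤ F u) (u : ℝ) (hu : u0 ≤ u) (hu1 : u ≤ 1) :
    1 / (32 * D ^ 3 * A ^ 3 * K) ≤ F u := by
  by_contra hcon
  push Not at hcon
  have hA3 : (1:ℝ) ≤ A ^ 3 := one_le_pow₀ hA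
  have hD3 : (1:ℝ) ≤ D ^ 3 := one_le_pow₀ hD
  have hD4 : (1:ℝ) ≤ D ^ 4 := one_le_pow₀ hD
  have hAK : (1:ℝ) ≤ A ^ 3 * K := by nlinarith only [hK, hA3]
  set P : ℝ := A ^ 3 * K with hP
  have hP0 : 0 < P := by linarith only [hAK]
  have hDp : 0 < D := by linarith only [hD]
  set η : ℝ := 1 / (32 * D ^ 4 * P) with hη
  have hη0 : 0 < η := by positivity
  have hη1 : η ≤ 1 / 32 := by
    rw [hη]
    apply one_div_le_one_div_of_le (by norm_num)
    nlinarith only [hD4, hAK, hD, mul_le_mul hD4 hAK (by norm_num) (by positivity)]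
  have hm : 1 / (32 * D ^ 3 * A ^ 3 * K) = D * η := by
    rw [hη, hP]; field_simp
  rw [hm] at hcon
  have hPη : 32 * D ^ 4 * P * η = 1 := by
    rw [hη]; field_simp
  have hF0 := h0 u hu hu1
  rcases le_or_gt η u with hc | hc
  · have h := h1 u hu hu1
    have h4 : F u ^ 4 ≤ (D * η) ^ 4 := pow_le_pow_left₀ hF0 hcon.le 4
    have h3 : η ^ 3 ≤ u ^ 3 := pow_le_pow_left₀ hη0.le hc 3
    have h5 : η ^ 3 ≤ P * (D * η) ^ 4 := by
      calc η ^ 3 ≤ u ^ 3 := h3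
        _ ≤ P * F u ^ 4 := h
        _ ≤ P * (D * η) ^ 4 := mul_le_mul_of_nonneg_left h4 hP0.le
    have h6 : P * (D * η) ^ 4 = η ^ 3 * (D ^ 4 * P * η) := by ring
    have h7 : D ^ 4 * P * η = 1 / 32 := by linarith only [hPη]
    rw [h6, h7] at h5
    have : 0 < η ^ 3 := by positivity
    linarith only [h5, this]
  · have h := h1 η (by linarith only [hu, hc]) (by linarith only [hu0, hu, hη1, hc])
    have hl := h2 u η hu hc.le (by linarith only [hu0, hu, hη1, hc])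
    have hl2 : F η ≤ 2 * (D * η) := by
      have : D * (η - u) ≤ D * η := mul_le_mul_of_nonneg_left (by linarith only [hu0, hu]) hDp.le
      linarith only [hcon, hl, this]
    have h4 : F η ^ 4 ≤ (2 * (D * η)) ^ 4 :=
      pow_le_pow_left₀ (h0 _ (by linarith only [hu, hc]) (by linarith only [hu0, hu, hη1, hc])) hl2 4
    have h5 : η ^ 3 ≤ P * (2 * (D * η)) ^ 4 := by
      calc η ^ 3 ≤ P * F η ^ 4 := h
        _ ≤ _ := mul_le_mul_of_nonneg_left h4 hP0.le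
    have h6 : P * (2 * (D * η)) ^ 4 = η ^ 3 * (16 * (D ^ 4 * P * η)) := by ring
    have h7 : D ^ 4 * P * η = 1 / 32 := by linarith only [hPη]
    rw [h6, h7] at h5
    have : 0 < η ^ 3 := by positivity
    linarith only [h5, this]

private theorem Low_Lk0 (q : ℕ) (χ : DirichletCharacter ℂ q) (s : ℂ) :
    Lk q χ 0 s = LSeries (fun n : ℕ => χ (n : ZMod q)) s := by
  unfold Lk; simp

private theorem Low_341 (q : ℕ) (χ : DirichletCharacter ℂ q) (σ t Z : ℝ) (h1 : 1 < σ)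
    (hZ : ‖Lk q 1 0 ((σ : ℂ))‖ ≤ Z) :
    1 ≤ Z ^ 3 * ‖Lk q (χ ^ 2) 0 ⟨σ, 2 * t⟩‖ * ‖Lk q χ 0 ⟨σ, t⟩‖ ^ 4 := by
  have hx : 0 < σ - 1 := by linarith
  have h := DirichletCharacter.norm_LSeries_product_ge_one χ hx t
  have e1 : (1 + ((σ - 1 : ℝ) : ℂ)) = (σ : ℂ) := by push_cast; ring
  have e2 : (σ : ℂ) + Complex.I * t = ⟨σ, t⟩ := by
    apply Complex.ext <;> simp
  have e3 : (σ : ℂ) + 2 * Complex.I * t = ⟨σ, 2 * t⟩ := by
    apply Complex.ext <;> simp
  rw [e1, e2, e3] at h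
  rw [norm_mul, norm_mul, norm_pow, norm_pow] at h
  rw [Low_Lk0 q χ, Low_Lk0 q (χ ^ 2)]
  rw [Low_Lk0 q 1] at hZ
  have hb3 := pow_le_pow_left₀ (norm_nonneg _) hZ 3
  set a := ‖LSeries (fun n : ℕ => (1 : DirichletCharacter ℂ q) (n : ZMod q)) (σ : ℂ)‖
  set b := ‖LSeries (fun n : ℕ => χ (n : ZMod q)) ⟨σ, t⟩‖
  set c := ‖LSeries (fun n : ℕ => (χ ^ 2) (n : ZMod q)) ⟨σ, 2 * t⟩‖
  have hc : 0 ≤ c := norm_nonneg _
  have hb0 : 0 ≤ b ^ 4 := by positivity
  calc (1:ℝ) ≤ a ^ 3 * b ^ 4 * c := h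
    _ ≤ Z ^ 3 * b ^ 4 * c := by gcongr
    _ = _ := by ring

private theorem Low_lip (q : ℕ) (χ : DirichletCharacter ℂ q) (S : Set ℂ) (hS : Convex ℝ S)
    (h1 : ∀ w ∈ S, 1 < w.re) (D : ℝ) (hD : ∀ w ∈ S, ‖Lk q χ 1 w‖ ≤ D) (a b : ℂ) (ha : a ∈ S)
    (hb : b ∈ S) : ‖Lk q χ 0 b - Lk q χ 0 a‖ ≤ D * ‖b - a‖ := by
  refine Convex.norm_image_sub_le_of_norm_hasDerivWithin_le (f' := fun w => -(Lk q χ (0 + 1) w))
    (fun w hw => (Lk_hasDeriv q χ 0 w (h1 w hw)).hasDerivWithinAt) (fun w hw => ?_) hS ha hb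
  rw [norm_neg]
  exact hD w hw

/-- the Lipschitz bound on a horizontal segment -/
private theorem Low_seg (q : ℕ) (χ : DirichletCharacter ℂ q) (t D σ0 : ℝ) (hσ0 : 1 < σ0)
    (hD : ∀ σ : ℝ, σ0 ≤ σ → σ ≤ 2 → ‖Lk q χ 1 ⟨σ, t⟩‖ ≤ D) (σ σ' : ℝ) (h1 : σ0 ≤ σ) (hle : σ ≤ σ')
    (h2 : σ' ≤ 2) : ‖Lk q χ 0 ⟨σ', t⟩‖ ≤ ‖Lk q χ 0 ⟨σ, t⟩‖ + D * (σ' - σ) := by
  set S : Set ℂ := {w | σ0 ≤ w.re ∧ w.re ≤ 2 ∧ w.im = t} with hSdef
  have hS : Convex ℝ S := by
    have e : S = {w | σ0 ≤ w.re} ∩ ({w | w.re ≤ 2} ∩ {w | w.im = t}) := by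
      ext w; simp [hSdef]
    rw [e]
    refine Convex.inter (convex_halfSpace_re_ge σ0) (Convex.inter (convex_halfSpace_re_le 2) ?_)
    have e2 : {w : ℂ | w.im = t} = {w | w.im ≤ t} ∩ {w | t ≤ w.im} := by
      ext w; simp [le_antisymm_iff]
    rw [e2]
    exact Convex.inter (convex_halfSpace_im_le t) (convex_halfSpace_im_ge t)
  have hb : ∀ w ∈ S, ‖Lk q χ 1 w‖ ≤ D := by
    rintro ⟨a, b⟩ ⟨h1, h2, h3⟩
    simp only at h1 h2 h3
    subst h3
    exact hD a h1 h2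
  have := Low_lip q χ S hS (fun w hw => lt_of_lt_of_le hσ0 hw.1) D hb ⟨σ, t⟩ ⟨σ', t⟩ ⟨h1, by simp; linarith only [hle, h2], rfl⟩
    ⟨by simp; linarith, h2, rfl⟩
  have e : ‖(⟨σ', t⟩ : ℂ) - ⟨σ, t⟩‖ = σ' - σ := by
    have : (⟨σ', t⟩ : ℂ) - ⟨σ, t⟩ = ((σ' - σ : ℝ) : ℂ) := by
      apply Complex.ext <;> simp
    rw [this, Complex.norm_real]
    exact abs_of_nonneg (by linarith)
  rw [e] at this
  have h4 := norm_sub_norm_le (Lk q χ 0 ⟨σ', t⟩) (Lk q χ 0 ⟨σ, t⟩)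
  linarith

/-- the scaled horizontal argument -/
private theorem Low_hor (q : ℕ) (χ : DirichletCharacter ℂ q) (t lam C D K η0 : ℝ) (hlam : 1 ≤ lam)
    (hη0 : 0 < η0) (hC : 1 ≤ C) (hD1 : 1 ≤ D) (hK1 : 1 ≤ K)
    (hZ : ∀ σ : ℝ, 1 < σ → σ ≤ 2 → ‖Lk q 1 0 ((σ : ℂ))‖ ≤ C * (1 + 1 / ((σ - 1) * lam)))
    (hD : ∀ σ : ℝ, 1 + η0 ≤ σ → σ ≤ 2 → ‖Lk q χ 1 ⟨σ, t⟩‖ ≤ lam * D)
    (hK : ∀ σ : ℝ, 1 + η0 ≤ σ → σ ≤ 2 → ‖Lk q (χ ^ 2) 0 ⟨σ, 2 * t⟩‖ ≤ K)
    (σ : ℝ) (h1 : 1 + η0 ≤ σ) (h2 : σ ≤ 2) :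
    1 / (32 * D ^ 3 * (2 * C) ^ 3 * K) ≤ ‖Lk q χ 0 ⟨σ, t⟩‖ := by
  have hlam0 : 0 < lam := by linarith
  rcases le_or_gt ((σ - 1) * lam) 1 with hc | hc
  · -- small
    have hu : ∀ u : ℝ, η0 * lam ≤ u → u ≤ 1 → 1 + η0 ≤ 1 + u / lam ∧ 1 + u / lam ≤ 2 := by
      intro u hu1 hu2
      have a1 : η0 ≤ u / lam := by rwa [le_div_iff₀ hlam0]
      have a2 : u / lam ≤ 1 := by
        rw [div_le_one hlam0]; linarith
      exact ⟨by linarith only [a1], by linarith⟩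
    have key := Low_core (fun u => ‖Lk q χ 0 ⟨1 + u / lam, t⟩‖) (η0 * lam) (2 * C) D K (by positivity)
      (by linarith) hD1 hK1 ?_ ?_ (fun _ _ _ => norm_nonneg _) ((σ - 1) * lam) ?_ hc
    · have e : 1 + (σ - 1) * lam / lam = σ := by
        field_simp
        ring
      simpa only [e] using key
    · intro u hu1 hu2
      obtain ⟨b1, b2⟩ := hu u hu1 hu2
      have hu0 : 0 < u := lt_of_lt_of_le (by positivity) hu1
      have hσ1 : 1 < 1 + u / lam := by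
        have : 0 < u / lam := by positivity
        linarith only [hη0, b1]
      have hz := hZ (1 + u / lam) hσ1 b2
      have hz2 : ‖Lk q 1 0 (((1 + u / lam : ℝ) : ℂ))‖ ≤ 2 * C / u := by
        refine hz.trans ?_
        have e : (1 + u / lam - 1) * lam = u := by
          field_simp
          ring
        rw [e]
        have h3 : (1:ℝ) ≤ 1 / u := by rw [le_div_iff₀ hu0]; linarith only [hu2]
        have h4 : C * (1 + 1 / u) ≤ C * (1 / u + 1 / u) :=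
          mul_le_mul_of_nonneg_left (by linarith only [h3]) (by linarith only [hC])
        refine h4.trans (le_of_eq ?_)
        ring
      have h := Low_341 q χ (1 + u / lam) t (2 * C / u) hσ1 hz2
      have hk := hK (1 + u / lam) b1 b2
      have hF : 0 ≤ ‖Lk q χ 0 ⟨1 + u / lam, t⟩‖ ^ 4 := by positivity
      have hu3 : 0 < u ^ 3 := by positivity
      have hC0 : 0 < 2 * C := by linarith only [hC]
      calc u ^ 3 = u ^ 3 * 1 := by ring
        _ ≤ u ^ 3 * ((2 * C / u) ^ 3 * ‖Lk q (χ ^ 2) 0 ⟨1 + u / lam, 2 * t⟩‖ *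
              ‖Lk q χ 0 ⟨1 + u / lam, t⟩‖ ^ 4) := mul_le_mul_of_nonneg_left h hu3.le
        _ ≤ u ^ 3 * ((2 * C / u) ^ 3 * K * ‖Lk q χ 0 ⟨1 + u / lam, t⟩‖ ^ 4) := by
              gcongr
        _ = (2 * C) ^ 3 * K * ‖Lk q χ 0 ⟨1 + u / lam, t⟩‖ ^ 4 := by
              field_simp
    · intro u u' hu1 hle hu2
      obtain ⟨b1, _⟩ := hu u hu1 (hle.trans hu2)
      obtain ⟨_, b2⟩ := hu u' (hu1.trans hle) hu2
      have h := Low_seg q χ t (lam * D) (1 + η0) (by linarith only [hη0]) hD (1 + u / lam) (1 + u' / lam) b1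
        (by gcongr) b2
      refine h.trans (le_of_eq ?_)
      field_simp
      ring
    · have : η0 ≤ σ - 1 := by linarith
      exact mul_le_mul_of_nonneg_right this hlam0.le
  · -- large
    have hσ1 : 1 < σ := by linarith
    have hz := hZ σ hσ1 h2
    have hz2 : ‖Lk q 1 0 ((σ : ℂ))‖ ≤ 2 * C := by
      refine hz.trans ?_
      have h3 : 1 / ((σ - 1) * lam) ≤ 1 := by
        rw [div_le_one (by linarith only [hc])]; exact hc.le
      have h4 : C * (1 + 1 / ((σ - 1) * lam)) ≤ C * (1 + 1) :=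
        mul_le_mul_of_nonneg_left (by linarith) (by linarith only [hC])
      linarith only [h4]
    have h := Low_341 q χ σ t (2 * C) hσ1 hz2
    have hk := hK σ h1 h2
    set F := ‖Lk q χ 0 ⟨σ, t⟩‖ with hF
    have hF0 : 0 ≤ F := norm_nonneg _
    have h5 : 1 ≤ (2 * C) ^ 3 * K * F ^ 4 := by
      refine h.trans ?_
      gcongr
    set P : ℝ := (2 * C) ^ 3 * K with hP
    have hP1 : 1 ≤ P := by
      have : (1:ℝ) ≤ (2 * C) ^ 3 := one_le_pow₀ (by linarith only [hC])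
      nlinarith only [hK1, this]
    have hP0 : 0 < P := by linarith only [hP1]
    have h6 : 1 / (32 * D ^ 3 * (2 * C) ^ 3 * K) ≤ 1 / P := by
      apply one_div_le_one_div_of_le hP0
      have hD3 : (1:ℝ) ≤ D ^ 3 := one_le_pow₀ hD1
      have : 32 * D ^ 3 * (2 * C) ^ 3 * K = 32 * D ^ 3 * P := by rw [hP]; ring
      rw [this]
      nlinarith only [hP1, hD3]
    refine h6.trans ?_
    by_contra hcon
    push Not at hcon
    have h7 : F ^ 4 ≤ (1 / P) ^ 4 := pow_le_pow_left₀ hF0 hcon.le 4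
    have hP3 : 1 ≤ P ^ 3 := one_le_pow₀ hP1
    -- F < 1/P ≤ 1
    have hF1 : F < 1 := lt_of_lt_of_le hcon (by rw [div_le_one hP0]; exact hP1)
    have h8 : F ^ 4 ≤ F := by
      have : F ^ 3 ≤ 1 := pow_le_one₀ hF0 hF1.le
      calc F ^ 4 = F ^ 3 * F := by ring
        _ ≤ 1 * F := mul_le_mul_of_nonneg_right this hF0
        _ = F := one_mul F
    have h9 : P * F < 1 := by
      have := mul_lt_mul_of_pos_left hcon hP0
      rwa [mul_one_div_cancel hP0.ne'] at this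
    have h10 : P * F ^ 4 ≤ P * F := mul_le_mul_of_nonneg_left h8 hP0.le
    linarith only [h5, h9, h10]

theorem lk_low_h [T0] (h_lk_up : lk_up_P) (h_zy_up : zy_up_P)  (B : ℕ) : ∃ c : ℝ, 0 < c ∧ c ≤ 1 ∧ ∃ K' x0 : ℕ, ∀ x : ℕ, x0 ≤ x → ∀ (d : ℕ) (χ : DirichletCharacter ℂ d) (s : ℂ),
    1 ≤ d → (d : ℝ) ≤ Real.log x ^ B → 1 + 1 / (4 * Real.log x) ≤ s.re → s.re ≤ 2 →
    Real.log x ^ K' ≤ |s.im| → |s.im| ≤ 3 * (x : ℝ) ^ (3 : ℕ) →
    c / LL x ^ 7 ≤ ‖Lk (qm x d) (ch x χ) 0 s‖ := by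
  obtain ⟨C0, hC0, K0, x0, h0⟩ := h_lk_up 0 B
  obtain ⟨C1, hC1, K1, x1, h1⟩ := h_lk_up 1 B
  obtain ⟨Cz, hCz, xz, hz⟩ := h_zy_up
  obtain ⟨xe, he⟩ := yx_ev
  have hpos : 0 < 32 * C1 ^ 3 * (2 * Cz) ^ 3 * C0 := by positivity
  refine ⟨1 / (32 * C1 ^ 3 * (2 * Cz) ^ 3 * C0), by positivity, ?_, max K0 K1,
    max (max x0 x1) (max xz xe), ?_⟩
  · rw [div_le_one hpos]
    have a1 : (1:ℝ) ≤ C1 ^ 3 := one_le_pow₀ hC1
    have a2 : (1:ℝ) ≤ (2 * Cz) ^ 3 := one_le_pow₀ (by linarith)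
    have a3 : (1:ℝ) ≤ C1 ^ 3 * (2 * Cz) ^ 3 := by nlinarith only [a1, a2]
    have a4 : (1:ℝ) ≤ C1 ^ 3 * (2 * Cz) ^ 3 * C0 := by nlinarith only [hC0, a3]
    nlinarith only [a4]
  · intro x hx d χ s hd hdB hs1 hs2 ht1 ht2
    have hx0 : x0 ≤ x := le_trans (le_trans (le_max_left _ _) (le_max_left _ _)) hx
    have hx1 : x1 ≤ x := le_trans (le_trans (le_max_right _ _) (le_max_left _ _)) hx
    have hxz : xz ≤ x := le_trans (le_trans (le_max_left _ _) (le_max_right _ _)) hx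
    have hxe : xe ≤ x := le_trans (le_trans (le_max_right _ _) (le_max_right _ _)) hx
    obtain ⟨_, _, _, hLL, hL9, hL, _⟩ := he x hxe
    obtain ⟨σ, t⟩ := s
    simp only at hs1 hs2 ht1 ht2
    have hη0 : 0 < 1 / (4 * Real.log x) := by positivity
    have hLL0 : 0 < LL x := by linarith only [hLL]
    have hp0 : Real.log x ^ K0 ≤ Real.log x ^ (max K0 K1) := pow_le_pow_right₀ hL (le_max_left _ _)
    have hp1 : Real.log x ^ K1 ≤ Real.log x ^ (max K0 K1) := pow_le_pow_right₀ hL (le_max_right _ _)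
    have hx3 : (0:ℝ) ≤ (x:ℝ) ^ (3:ℕ) := by positivity
    have habs : |2 * t| = 2 * |t| := by rw [abs_mul]; norm_num
    have hD1 : 1 ≤ C1 * LL x ^ 2 := by
      have : (1:ℝ) ≤ LL x ^ 2 := one_le_pow₀ hLL
      nlinarith only [this, hC1]
    have hK1' : 1 ≤ C0 * LL x := by nlinarith only [hC0, hLL]
    have key := Low_hor (qm x d) (ch x χ) t (L9 x) Cz (C1 * LL x ^ 2) (C0 * LL x)
      (1 / (4 * Real.log x)) hL9 hη0 hCz hD1 hK1'
      (fun σ' a1 a2 => by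
        have := hz x hxz d (σ' : ℂ) hd (by simpa using a1) (by simpa using a2)
        simpa using this)
      (fun σ' a1 a2 => by
        have := h1 x hx1 d χ ⟨σ', t⟩ hd hdB a1 a2 (hp1.trans ht1) (by show |t| ≤ _; linarith only [ht2, hx3])
        refine this.trans (le_of_eq ?_)
        ring)
      (fun σ' a1 a2 => by
        rw [ch_sq]
        have := h0 x hx0 d (χ ^ 2) ⟨σ', 2 * t⟩ hd hdB a1 a2
          (by show _ ≤ |2 * t|; rw [habs]; have := hp0.trans ht1; linarith only [ht1, hp0, abs_nonneg t])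
          (by show |2 * t| ≤ _; rw [habs]; linarith only [ht2])
        refine this.trans (le_of_eq ?_)
        ring)
      σ hs1 hs2
    refine le_trans (le_of_eq ?_) key
    field_simp

end Pool.Agent.H76.VKT

end

section

/-!
# CH Ch4L (lemmas of Ch4): almost all tuples of shifts

Proof.  `C(h,h') = ∑_{n ∈ Ioc X (2X)} μ(n + h) μ(n + h')`; `ch1` with `k = 2`, `δ/8`: `∑_{h,h' ≤ H} |C(h,h')| ≤ H^2 X/L^{2 - δ/4}`.  So `∑_{h ∈ [1,H]^K} ∑_{i ≠ j} |C(h_i,h_j)| ≤ K^2 H^{K-2} H^2 X/L^{2 - δ/4} ≤ K H^K X L^{-3δ/4}` (`K ≤ L^{2-δ}`).  Hence (Markov) for all but `H^K/L^{δ/4}` tuples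
`∑_{i≠j} |C(h_i,h_j)| ≤ K X L^{-δ/2}`, and then for all `c` with `‖c_i‖ ≤ 1`: `|∑_n ‖∑_i c_i μ(n + h_i)‖^2 - ∑_i ‖c_i‖^2 ∑_n μ(n + h_i)^2| ≤ K X L^{-δ/2}`; diagonal terms by `sqf` (`a = h_i ≤ X`): total error `≤ K X (L^{-δ/2} + C X^{-1/2}) ≤ K X L^{-δ/4}`.
-/

set_option autoImplicit false

namespace Pool.Agent.H43.CH

open Finset MeasureTheory
open Pool.Agent.H43.LM (mu)

/-- the two point correlation -/
noncomputable def Ch4_C (X a b : ℕ) : ℝ := ∑ n ∈ Ioc X (2 * X), mu (n + a) * mu (n + b)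

/-- sums over tuples of a function of two coordinates -/
theorem Ch4_pair (K H : ℕ) (F : ℕ → ℕ → ℝ) (i j : Fin K) (hij : i ≠ j) :
    (H : ℝ) ^ 2 * ∑ h ∈ Fintype.piFinset (fun _ : Fin K => Icc 1 H), F (h i) (h j) =
      (H : ℝ) ^ K * ∑ a ∈ Icc 1 H, ∑ b ∈ Icc 1 H, F a b := by
  classical
  set P := Fintype.piFinset (fun _ : Fin K => Icc 1 H) with hP
  have h1 : ∑ h ∈ P, F (h i) (h j) =
      ∑ a ∈ Icc 1 H, ∑ b ∈ Icc 1 H, ((P.filter (fun h => h i = a ∧ h j = b)).card : ℝ) * F a b := by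
    have e1 : ∑ h ∈ P, F (h i) (h j) = ∑ h ∈ P, ∑ a ∈ Icc 1 H, ∑ b ∈ Icc 1 H, if h i = a ∧ h j = b then F a b else 0 := by
      refine sum_congr rfl fun h hh => ?_
      rw [hP, Fintype.mem_piFinset] at hh
      rw [sum_eq_single_of_mem (h i) (hh i), sum_eq_single_of_mem (h j) (hh j)]
      · simp
      · intro b _ hb
        rw [if_neg]
        exact fun hc => hb hc.2.symm
      · intro a _ ha
        refine sum_eq_zero fun b _ => ?_
        rw [if_neg]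
        exact fun hc => ha hc.1.symm
    rw [e1, sum_comm]
    refine sum_congr rfl fun a _ => ?_
    rw [sum_comm]
    refine sum_congr rfl fun b _ => ?_
    rw [← sum_filter, sum_const, nsmul_eq_mul]
  have h2 : ∀ a ∈ Icc 1 H, ∀ b ∈ Icc 1 H, (H : ℝ) ^ 2 * ((P.filter (fun h => h i = a ∧ h j = b)).card : ℝ) = (H : ℝ) ^ K := by
    intro a ha b hb
    have e1 : P.filter (fun h => h i = a ∧ h j = b) =
        Fintype.piFinset (fun k : Fin K => if k = i then {a} else if k = j then {b} else Icc 1 H) := by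
      ext h
      rw [mem_filter, hP, Fintype.mem_piFinset, Fintype.mem_piFinset]
      constructor
      · rintro ⟨h1, h2, h3⟩ k
        split_ifs with hk hk'
        · rw [hk, mem_singleton]; exact h2
        · rw [hk', mem_singleton]; exact h3
        · exact h1 k
      · intro h1
        have h2 := h1 i
        rw [if_pos rfl, mem_singleton] at h2
        have h3 := h1 j
        rw [if_neg hij.symm, if_pos rfl, mem_singleton] at h3
        refine ⟨fun k => ?_, h2, h3⟩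
        by_cases hk : k = i
        · rw [hk, h2]; exact ha
        · by_cases hk' : k = j
          · rw [hk', h3]; exact hb
          · have h4 := h1 k
            rwa [if_neg hk, if_neg hk'] at h4
    rw [e1, Fintype.card_piFinset]
    have e2 : ∀ k : Fin K, (if k = i then ({a} : Finset ℕ) else if k = j then {b} else Icc 1 H).card =
        if k = i then 1 else if k = j then 1 else H := by
      intro k
      split_ifs <;> simp
    rw [prod_congr rfl fun k _ => e2 k]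
    have e3 : ∏ k : Fin K, (if k = i then H else 1) = H := by simp
    have e4 : ∏ k : Fin K, (if k = j then H else 1) = H := by simp
    have e5 : ∏ k : Fin K, H = H ^ K := by simp
    have e6 : (∏ k : Fin K, (if k = i then H else 1)) * (∏ k : Fin K, (if k = j then H else 1)) *
        ∏ k : Fin K, (if k = i then 1 else if k = j then 1 else H) = ∏ k : Fin K, H := by
      rw [← prod_mul_distrib, ← prod_mul_distrib]
      refine prod_congr rfl fun k _ => ?_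
      by_cases hk : k = i
      · rw [if_pos hk, if_pos hk, if_neg (fun h => hij (hk.symm.trans h))]
        ring
      · by_cases hk' : k = j
        · rw [if_neg hk, if_pos hk', if_neg hk, if_pos hk']
          ring
        · rw [if_neg hk, if_neg hk', if_neg hk, if_neg hk']
          ring
    rw [e3, e4, e5] at e6
    rw [← Nat.cast_pow H K, ← e6]
    push_cast
    ring
  rw [h1, mul_sum, mul_sum]
  refine sum_congr rfl fun a ha => ?_
  rw [mul_sum, mul_sum]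
  refine sum_congr rfl fun b hb => ?_
  rw [← mul_assoc, h2 a ha b hb]

/-- the sum of the squares of the absolute values -/
theorem Ch4_expand {K : ℕ} (N : Finset ℕ) (c : Fin K → ℂ) (m : Fin K → ℕ → ℝ) :
    ∑ n ∈ N, ‖∑ i, c i * ((m i n : ℝ) : ℂ)‖ ^ 2 =
      ∑ i, ∑ j, (c i * (starRingEnd ℂ) (c j)).re * ∑ n ∈ N, m i n * m j n := by
  have h1 : ∀ n, ‖∑ i, c i * ((m i n : ℝ) : ℂ)‖ ^ 2 = ∑ i, ∑ j, (c i * (starRingEnd ℂ) (c j)).re * (m i n * m j n) := by
    intro n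
    rw [← Complex.normSq_eq_norm_sq, ← Complex.ofReal_re (Complex.normSq _), Complex.normSq_eq_conj_mul_self, mul_comm, map_sum, sum_mul_sum,
      Complex.re_sum]
    refine sum_congr rfl fun i _ => ?_
    rw [Complex.re_sum]
    refine sum_congr rfl fun j _ => ?_
    rw [map_mul, Complex.conj_ofReal]
    have e : c i * ((m i n : ℝ) : ℂ) * ((starRingEnd ℂ) (c j) * ((m j n : ℝ) : ℂ)) =
        (c i * (starRingEnd ℂ) (c j)) * ((m i n * m j n : ℝ) : ℂ) := by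
      push_cast
      ring
    rw [e, Complex.re_mul_ofReal]
  simp only [h1]
  rw [sum_comm]
  refine sum_congr rfl fun i _ => ?_
  rw [sum_comm]
  refine sum_congr rfl fun j _ => ?_
  rw [mul_sum]

theorem Ch4_bound {K : ℕ} (X : ℕ) (A R : ℝ) (h : Fin K → ℕ) (c : Fin K → ℂ) (hc : ∀ i, ‖c i‖ ≤ 1)
    (hD : ∀ i, |Ch4_C X (h i) (h i) - A| ≤ R) :
    |∑ n ∈ Ioc X (2 * X), ‖∑ i, c i * ((mu (n + h i) : ℝ) : ℂ)‖ ^ 2 - A * ∑ i, ‖c i‖ ^ 2| ≤
      K * R + ∑ i, ∑ j ∈ univ.erase i, |Ch4_C X (h i) (h j)| := by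
  classical
  rw [Ch4_expand (Ioc X (2 * X)) c (fun i n => mu (n + h i))]
  have h1 : (∑ i, ∑ j, (c i * (starRingEnd ℂ) (c j)).re * ∑ n ∈ Ioc X (2 * X), mu (n + h i) * mu (n + h j)) - A * ∑ i, ‖c i‖ ^ 2 =
      ∑ i, (‖c i‖ ^ 2 * (Ch4_C X (h i) (h i) - A) + ∑ j ∈ univ.erase i, (c i * (starRingEnd ℂ) (c j)).re * Ch4_C X (h i) (h j)) := by
    rw [mul_sum, ← sum_sub_distrib]
    refine sum_congr rfl fun i _ => ?_
    rw [← add_sum_erase univ _ (mem_univ i)]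
    have e : (c i * (starRingEnd ℂ) (c i)).re = ‖c i‖ ^ 2 := by
      rw [Complex.mul_conj, Complex.ofReal_re, Complex.normSq_eq_norm_sq]
    rw [e]
    unfold Ch4_C
    ring
  rw [h1]
  refine (abs_sum_le_sum_abs _ _).trans ?_
  have h2 : ∀ i ∈ (univ : Finset (Fin K)), |‖c i‖ ^ 2 * (Ch4_C X (h i) (h i) - A) +
      ∑ j ∈ univ.erase i, (c i * (starRingEnd ℂ) (c j)).re * Ch4_C X (h i) (h j)| ≤
      R + ∑ j ∈ univ.erase i, |Ch4_C X (h i) (h j)| := by
    intro i _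
    refine (abs_add_le _ _).trans (add_le_add ?_ ?_)
    · rw [abs_mul, abs_of_nonneg (by positivity)]
      have e1 : ‖c i‖ ^ 2 ≤ 1 := pow_le_one₀ (norm_nonneg _) (hc i)
      calc ‖c i‖ ^ 2 * |Ch4_C X (h i) (h i) - A| ≤ 1 * |Ch4_C X (h i) (h i) - A| := mul_le_mul_of_nonneg_right e1 (abs_nonneg _)
        _ ≤ R := by rw [one_mul]; exact hD i
    · refine (abs_sum_le_sum_abs _ _).trans (sum_le_sum fun j _ => ?_)
      rw [abs_mul]
      have e1 : |(c i * (starRingEnd ℂ) (c j)).re| ≤ 1 := by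
        refine (Complex.abs_re_le_norm _).trans ?_
        rw [norm_mul, Complex.norm_conj]
        calc ‖c i‖ * ‖c j‖ ≤ 1 * 1 := mul_le_mul (hc i) (hc j) (norm_nonneg _) zero_le_one
          _ = 1 := one_mul 1
      calc |(c i * (starRingEnd ℂ) (c j)).re| * |Ch4_C X (h i) (h j)| ≤ 1 * |Ch4_C X (h i) (h j)| :=
            mul_le_mul_of_nonneg_right e1 (abs_nonneg _)
        _ = _ := one_mul _
  refine (sum_le_sum h2).trans (le_of_eq ?_)
  rw [sum_add_distrib, sum_const, card_univ, Fintype.card_fin, nsmul_eq_mul]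

theorem Ch4_diag (X a : ℕ) : Ch4_C X a a = ∑ n ∈ Ioc (X + a) (2 * X + a), mu n ^ 2 := by
  unfold Ch4_C
  have h := Finset.sum_image (s := Ioc X (2 * X)) (g := fun n => n + a) (f := fun n => mu n ^ 2)
    (fun x _ y _ hxy => Nat.add_right_cancel hxy)
  have h2 : (Ioc X (2 * X)).image (fun n => n + a) = Ioc (X + a) (2 * X + a) := by
    ext n
    simp only [mem_image, mem_Ioc]
    constructor
    · rintro ⟨m, h1, rfl⟩
      omega
    · intro h1
      exact ⟨n - a, by omega, by omega⟩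
  rw [h2] at h
  rw [h]
  exact sum_congr rfl fun n _ => (sq _).symm

end Pool.Agent.H43.CH

end
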