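import Pool.Agent.H43.PS.M04

/-! The parts of this file: H97.VK.BrunC, H76.VKT.BrunT. -/

section

/-!
# VK BrunC: the pure sieve of Brun, combinatorial part

`brun_ineq`: `g = gcd(n, y#)` is squarefree with `w` prime factors; the sum over `m ∣ g` with less than `r` prime factors of `μ(m)` is
`∑_{i<r} (-1)^i C(w,i)`, which is `1` for `w = 0` and `(-1)^{r-1} C(w-1,r-1)` for `w ≥ 1`, of absolute value `≤ C(w,r)` = the number of `m ∣ g` with `r` prime factors.
(`m ∣ y#` and `m ∣ n` iff `m ∣ g`; divisors of a squarefree number correspond to subsets of `primeFactors`: `Nat.sum_divisors_filter_squarefree`, `Finset.powerset`,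
`Nat.divisors_prod...`, `Nat.primeFactors_prod`; the partial alternating sum: `Int.alternating_sum_range_choose_eq_choose` or induction on `r`.)
`brun_tail`: `∑_{ω(m)=r} 1/m ≤ (∑_{p≤y} 1/p)^r / r!` (`Finset.sum_powersetCard...`, `Finset.esymm`-type inequality, e.g. induction on `r`, or count ordered
tuples), `r! ≥ (r/e)^r`, `∑_{p≤y} 1/p ≤ log log y + C` (`Pool.Agent.H91.PK.MR_sum_inv` for `y ≥ 65536`, see `rough_upper` in `H35/W/Rough.lean`).
`brun_sum`: `∑_{m ∣ y#} 1/m = ∏_{p ≤ y} (1 + 1/p) ≤ exp(∑ 1/p) ≤ C log y`.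
-/

set_option autoImplicit false

namespace Pool.Agent.H97.VK

open Finset

/-- the divisors of `y#` with exactly `r` prime factors -/
noncomputable def bd (y r : ℕ) : Finset ℕ := (primorial y).divisors.filter (fun m => m.primeFactors.card = r)

/-- the divisors of `y#` with less than `r` prime factors -/
noncomputable def bdl (y r : ℕ) : Finset ℕ := (primorial y).divisors.filter (fun m => m.primeFactors.card < r)

private theorem BrunC_dvd_iff (N : ℕ) (hN : Squarefree N) (P : ℕ → Prop) [DecidablePred P]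
    {M : Type*} [AddCommMonoid M] (F : ℕ → M) :
    ∑ m ∈ N.divisors.filter (fun m => P m.primeFactors.card), F m =
      ∑ T ∈ N.primeFactors.powerset.filter (fun T => P T.card), F (∏ p ∈ T, p) := by
  have hN0 : N ≠ 0 := hN.ne_zero
  have hpr : ∀ T : Finset ℕ, T ⊆ N.primeFactors → ∀ p ∈ T, p.Prime := fun T hT p hp =>
    Nat.prime_of_mem_primeFactors (hT hp)
  refine Finset.sum_nbij' (fun m => m.primeFactors) (fun T => ∏ p ∈ T, p) ?_ ?_ ?_ ?_ ?_
  · intro m hm
    rw [mem_filter, Nat.mem_divisors] at hm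
    rw [mem_filter, mem_powerset]
    exact ⟨Nat.primeFactors_mono hm.1.1 hN0, hm.2⟩
  · intro T hT
    rw [mem_filter, mem_powerset] at hT
    rw [mem_filter, Nat.mem_divisors, Nat.primeFactors_prod (hpr T hT.1)]
    refine ⟨⟨?_, hN0⟩, hT.2⟩
    have h := Finset.prod_dvd_prod_of_subset T N.primeFactors (fun p => p) hT.1
    rwa [Nat.prod_primeFactors_of_squarefree hN] at h
  · intro m hm
    rw [mem_filter, Nat.mem_divisors] at hm
    exact Nat.prod_primeFactors_of_squarefree (hN.squarefree_of_dvd hm.1.1)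
  · intro T hT
    rw [mem_filter, mem_powerset] at hT
    exact Nat.primeFactors_prod (hpr T hT.1)
  · intro m hm
    rw [mem_filter, Nat.mem_divisors] at hm
    rw [Nat.prod_primeFactors_of_squarefree (hN.squarefree_of_dvd hm.1.1)]

private theorem BrunC_mu (T : Finset ℕ) (hT : ∀ p ∈ T, p.Prime) :
    (ArithmeticFunction.moebius (∏ p ∈ T, p) : ℝ) = (-1) ^ T.card := by
  rw [ArithmeticFunction.isMultiplicative_moebius.map_prod_of_prime T hT]
  rw [Finset.prod_congr rfl (fun p hp => ArithmeticFunction.moebius_apply_prime (hT p hp)),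
    Finset.prod_const]
  push_cast
  rfl

private theorem BrunC_alt (A : Finset ℕ) (r : ℕ) :
    ∑ T ∈ A.powerset.filter (fun T => T.card < r), (-1 : ℝ) ^ T.card =
      ∑ i ∈ range r, (-1 : ℝ) ^ i * (A.card.choose i : ℝ) := by
  have h1 : ∑ T ∈ A.powerset.filter (fun T => T.card < r), (-1 : ℝ) ^ T.card =
      ∑ T ∈ A.powerset, (fun j : ℕ => if j < r then (-1 : ℝ) ^ j else 0) T.card := by
    rw [sum_filter]
  rw [h1, sum_powerset_apply_card (fun j : ℕ => if j < r then (-1 : ℝ) ^ j else 0)]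
  have h2 : ∑ j ∈ range (A.card + 1), A.card.choose j • (if j < r then (-1 : ℝ) ^ j else 0) =
      ∑ j ∈ range (max (A.card + 1) r), A.card.choose j • (if j < r then (-1 : ℝ) ^ j else 0) := by
    apply sum_subset
    · intro j hj
      rw [mem_range] at hj ⊢
      exact lt_of_lt_of_le hj (le_max_left _ _)
    · intro j _ hj
      rw [mem_range, not_lt] at hj
      rw [Nat.choose_eq_zero_of_lt (by omega), zero_nsmul]
  have h4 : ∑ j ∈ range r, (-1 : ℝ) ^ j * (A.card.choose j : ℝ) =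
      ∑ j ∈ range r, A.card.choose j • (if j < r then (-1 : ℝ) ^ j else 0) := by
    refine sum_congr rfl fun j hj => ?_
    rw [mem_range] at hj
    rw [if_pos hj, nsmul_eq_mul, mul_comm]
  rw [h2, h4]
  symm
  apply sum_subset
  · intro j hj
    rw [mem_range] at hj ⊢
    exact lt_of_lt_of_le hj (le_max_right _ _)
  · intro j _ hj
    rw [mem_range, not_lt] at hj
    rw [if_neg (by omega), smul_zero]

private theorem BrunC_abs (w r : ℕ) (hr : 1 ≤ r) :
    |(if w = 0 then (1 : ℝ) else 0) - ∑ i ∈ range r, (-1 : ℝ) ^ i * (w.choose i : ℝ)| ≤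
      (w.choose r : ℝ) := by
  obtain ⟨m, rfl⟩ : ∃ m, r = m + 1 := ⟨r - 1, by omega⟩
  rcases Nat.eq_zero_or_pos w with h | h
  · subst h
    rw [if_pos rfl, Finset.sum_range_succ']
    have : ∀ i ∈ range m, (-1 : ℝ) ^ (i + 1) * ((Nat.choose 0 (i + 1) : ℕ) : ℝ) = 0 := by
      intro i _
      rw [Nat.choose_zero_succ]
      simp
    rw [Finset.sum_eq_zero this]
    simp
  · obtain ⟨n, rfl⟩ : ∃ n, w = n + 1 := ⟨w - 1, by omega⟩
    rw [if_neg (by omega)]
    have h5 := Int.alternating_sum_range_choose_eq_choose (n := n) (m := m)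
    have h6 := congrArg (fun z : ℤ => (z : ℝ)) h5
    push_cast at h6
    rw [h6, zero_sub, abs_neg, abs_mul, abs_pow, abs_neg, abs_one, one_pow, one_mul,
      Nat.abs_cast]
    have h7 : n.choose m ≤ (n + 1).choose (m + 1) := by
      rw [Nat.choose_succ_succ]
      omega
    exact_mod_cast h7

private theorem BrunC_gcd (N n : ℕ) (hN : N ≠ 0) (P : ℕ → Prop) [DecidablePred P] :
    (N.divisors.filter (fun m => P m.primeFactors.card)).filter (fun m => m ∣ n) =
      (Nat.gcd n N).divisors.filter (fun m => P m.primeFactors.card) := by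
  ext m
  rw [mem_filter, mem_filter, mem_filter, Nat.mem_divisors, Nat.mem_divisors, Nat.dvd_gcd_iff]
  constructor
  · rintro ⟨⟨⟨h1, _⟩, h2⟩, h3⟩
    exact ⟨⟨⟨h3, h1⟩, Nat.gcd_ne_zero_right hN⟩, h2⟩
  · rintro ⟨⟨⟨h3, h1⟩, _⟩, h2⟩
    exact ⟨⟨⟨h1, hN⟩, h2⟩, h3⟩

theorem brun_ineq (y r n : ℕ) (hr : 1 ≤ r) (hn : 1 ≤ n) :
    |(if n.Coprime (primorial y) then (1 : ℝ) else 0) -
        ∑ m ∈ (bdl y r).filter (fun m => m ∣ n), (ArithmeticFunction.moebius m : ℝ)| ≤
      (((bd y r).filter (fun m => m ∣ n)).card : ℝ) := by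
  have hN0 : primorial y ≠ 0 := primorial_ne_zero y
  have hsq : Squarefree (Nat.gcd n (primorial y)) :=
    (squarefree_primorial y).squarefree_of_dvd (Nat.gcd_dvd_right _ _)
  obtain ⟨g, hg⟩ : ∃ g, g = Nat.gcd n (primorial y) := ⟨_, rfl⟩
  have e1 : ∑ m ∈ (bdl y r).filter (fun m => m ∣ n), (ArithmeticFunction.moebius m : ℝ) =
      ∑ i ∈ range r, (-1 : ℝ) ^ i * (g.primeFactors.card.choose i : ℝ) := by
    unfold bdl
    rw [BrunC_gcd (primorial y) n hN0 (fun j => j < r), ← hg]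
    rw [← hg] at hsq
    rw [BrunC_dvd_iff g hsq (fun j => j < r), ← BrunC_alt]
    refine Finset.sum_congr rfl fun T hT => ?_
    rw [mem_filter, mem_powerset] at hT
    exact BrunC_mu T fun p hp => Nat.prime_of_mem_primeFactors (hT.1 hp)
  have e2 : (((bd y r).filter (fun m => m ∣ n)).card : ℝ) = (g.primeFactors.card.choose r : ℝ) := by
    unfold bd
    rw [BrunC_gcd (primorial y) n hN0 (fun j => j = r), ← hg]
    rw [← hg] at hsq
    rw [Finset.card_eq_sum_ones, BrunC_dvd_iff g hsq (fun j => j = r), ← Finset.card_eq_sum_ones,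
      ← Finset.card_powersetCard r g.primeFactors, Finset.powersetCard_eq_filter]
  have e3 : (if n.Coprime (primorial y) then (1 : ℝ) else 0) =
      if g.primeFactors.card = 0 then 1 else 0 := by
    have h : n.Coprime (primorial y) ↔ g.primeFactors.card = 0 := by
      rw [Finset.card_eq_zero, Nat.primeFactors_eq_empty, hg]
      constructor
      · exact fun h => Or.inr h
      · rintro (h | h)
        · exact absurd h (Nat.gcd_ne_zero_right hN0)
        · exact h
    simp only [h]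
  rw [e1, e2, e3]
  exact BrunC_abs _ r hr

private theorem BrunC_upper : ∃ C : ℝ, 0 < C ∧ ∀ y : ℕ, 2 ≤ y →
    ∑ p ∈ (Icc 1 y).filter Nat.Prime, (1 : ℝ) / p ≤ Real.log (Real.log y) + C :=
  Pool.Agent.H43.MP.mrt_upper

private theorem BrunC_upper2 : ∃ C : ℝ, 0 < C ∧ ∀ y : ℕ, 2 ≤ y →
    ∑ p ∈ (primorial y).primeFactors, (1 : ℝ) / p ≤ Real.log (Real.log y) + C := by
  obtain ⟨C, hC, h⟩ := BrunC_upper
  refine ⟨C, hC, fun y hy => ?_⟩
  have e : (primorial y).primeFactors = (Icc 1 y).filter Nat.Prime := by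
    rw [primeFactors_primorial]
    ext p
    rw [Nat.mem_primesLE, mem_filter, mem_Icc]
    constructor
    · rintro ⟨h1, h2⟩
      exact ⟨⟨h2.one_lt.le, h1⟩, h2⟩
    · rintro ⟨⟨_, h1⟩, h2⟩
      exact ⟨h1, h2⟩
  rw [e]
  exact h y hy

private theorem BrunC_binom (A a : ℝ) (hA : 0 ≤ A) (ha : 0 ≤ a) (r : ℕ) :
    A ^ (r + 1) + (r + 1 : ℕ) * (a * A ^ r) ≤ (A + a) ^ (r + 1) := by
  induction r with
  | zero => simp
  | succ r ih =>
    have h1 : (A + a) ^ (r + 1 + 1) = (A + a) ^ (r + 1) * (A + a) := pow_succ _ _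
    rw [h1]
    have h2 := mul_le_mul_of_nonneg_right ih (add_nonneg hA ha)
    refine le_trans ?_ h2
    have h3 : (A ^ (r + 1) + ((r + 1 : ℕ) : ℝ) * (a * A ^ r)) * (A + a) =
        A ^ (r + 1 + 1) + ((r + 1 + 1 : ℕ) : ℝ) * (a * A ^ (r + 1)) +
          ((r + 1 : ℕ) : ℝ) * (a * a * A ^ r) := by
      push_cast
      ring
    rw [h3]
    have h4 : 0 ≤ ((r + 1 : ℕ) : ℝ) * (a * a * A ^ r) := by positivity
    linarith

private theorem BrunC_esymm (S : Finset ℕ) (a : ℕ → ℝ) (ha : ∀ p, 0 ≤ a p) (r : ℕ) :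
    (r.factorial : ℝ) * ∑ T ∈ S.powersetCard r, ∏ p ∈ T, a p ≤ (∑ p ∈ S, a p) ^ r := by
  induction S using Finset.induction_on generalizing r with
  | empty =>
    cases r with
    | zero => simp
    | succ r =>
      have h : (∅ : Finset ℕ).powersetCard (r + 1) = ∅ := by
        rw [Finset.powersetCard_eq_empty]
        simp
      rw [h]
      simp
  | insert q S hq ih =>
    cases r with
    | zero => simp
    | succ r =>
      rw [Finset.powersetCard_succ_insert hq, Finset.sum_union, Finset.sum_image,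
        Finset.sum_insert hq]
      · have e : ∀ T ∈ S.powersetCard r, ∏ p ∈ insert q T, a p = a q * ∏ p ∈ T, a p := by
          intro T hT
          rw [mem_powersetCard] at hT
          exact Finset.prod_insert fun h => hq (hT.1 h)
        rw [Finset.sum_congr rfl e, ← Finset.mul_sum]
        have h1 := ih (r + 1)
        have h2 := ih r
        have hA : 0 ≤ ∑ p ∈ S, a p := Finset.sum_nonneg fun p _ => ha p
        have h3 := BrunC_binom (∑ p ∈ S, a p) (a q) hA (ha q) r
        have h4 : ((r + 1).factorial : ℝ) = ((r + 1 : ℕ) : ℝ) * (r.factorial : ℝ) := by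
          rw [Nat.factorial_succ]
          push_cast
          ring
        have h5 := mul_le_mul_of_nonneg_left h2 (mul_nonneg (Nat.cast_nonneg (r + 1)) (ha q))
        rw [add_comm (a q)]
        refine le_trans ?_ h3
        rw [mul_add]
        refine add_le_add h1 ?_
        rw [h4]
        calc ((r + 1 : ℕ) : ℝ) * (r.factorial : ℝ) *
              (a q * ∑ T ∈ S.powersetCard r, ∏ p ∈ T, a p)
            = ((r + 1 : ℕ) : ℝ) * a q *
              ((r.factorial : ℝ) * ∑ T ∈ S.powersetCard r, ∏ p ∈ T, a p) := by ring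
          _ ≤ ((r + 1 : ℕ) : ℝ) * a q * (∑ p ∈ S, a p) ^ r := h5
          _ = ((r + 1 : ℕ) : ℝ) * (a q * (∑ p ∈ S, a p) ^ r) := by ring
      · intro T hT T' hT' h
        rw [mem_coe, mem_powersetCard] at hT hT'
        have h1 : q ∉ T := fun h => hq (hT.1 h)
        have h2 : q ∉ T' := fun h => hq (hT'.1 h)
        rw [← Finset.erase_insert h1, ← Finset.erase_insert h2]
        exact congrArg (fun U => U.erase q) h
      · rw [Finset.disjoint_left]
        intro T hT hT'
        rw [mem_powersetCard] at hT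
        rw [mem_image] at hT'
        obtain ⟨U, _, rfl⟩ := hT'
        exact hq (hT.1 (mem_insert_self q U))

private theorem BrunC_inv (T : Finset ℕ) :
    (1 : ℝ) / ((∏ p ∈ T, p : ℕ) : ℝ) = ∏ p ∈ T, (1 : ℝ) / p := by
  rw [Nat.cast_prod, Finset.prod_div_distrib, Finset.prod_const_one]

theorem brun_tail : ∃ C : ℝ, 1 ≤ C ∧ ∀ y r : ℕ, 3 ≤ y → 1 ≤ r →
    ∑ m ∈ bd y r, (1 : ℝ) / m ≤ (Real.exp 1 * (Real.log (Real.log y) + C) / r) ^ r := by
  obtain ⟨C, hC, hup⟩ := BrunC_upper2
  refine ⟨max 1 C, le_max_left _ _, fun y r hy hr => ?_⟩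
  have hr0 : (0 : ℝ) < r := by exact_mod_cast hr
  have e1 : ∑ m ∈ bd y r, (1 : ℝ) / m =
      ∑ T ∈ (primorial y).primeFactors.powersetCard r, ∏ p ∈ T, (1 : ℝ) / p := by
    unfold bd
    rw [BrunC_dvd_iff (primorial y) (squarefree_primorial y) (fun j => j = r),
      Finset.powersetCard_eq_filter]
    exact Finset.sum_congr rfl fun T _ => BrunC_inv T
  obtain ⟨A, hA⟩ : ∃ A, A = ∑ p ∈ (primorial y).primeFactors, (1 : ℝ) / p := ⟨_, rfl⟩
  have hA0 : 0 ≤ A := by rw [hA]; exact Finset.sum_nonneg fun p _ => by positivity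
  have h1 := BrunC_esymm (primorial y).primeFactors (fun p => (1 : ℝ) / p)
    (fun p => by positivity) r
  rw [← hA] at h1
  have h2 : A ≤ Real.log (Real.log y) + max 1 C := by
    rw [hA]
    exact (hup y (by omega)).trans (add_le_add le_rfl (le_max_right _ _))
  have h3 : (r : ℝ) ^ r / (r.factorial : ℝ) ≤ Real.exp r :=
    Real.pow_div_factorial_le_exp r hr0.le r
  have hf0 : (0 : ℝ) < (r.factorial : ℝ) := by exact_mod_cast Nat.factorial_pos r
  have h4 : Real.exp (r : ℝ) = Real.exp 1 ^ r := by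
    rw [← Real.exp_nat_mul, mul_one]
  rw [e1]
  have h5 : ∑ T ∈ (primorial y).primeFactors.powersetCard r, ∏ p ∈ T, (1 : ℝ) / p ≤
      A ^ r / (r.factorial : ℝ) := by
    rw [le_div_iff₀ hf0, mul_comm]
    exact h1
  refine h5.trans ?_
  have h6 : A ^ r / (r.factorial : ℝ) = (A / r) ^ r * ((r : ℝ) ^ r / (r.factorial : ℝ)) := by
    rw [div_pow]
    field_simp
  rw [h6]
  have h7 : (A / r) ^ r * ((r : ℝ) ^ r / (r.factorial : ℝ)) ≤ (A / r) ^ r * Real.exp 1 ^ r := by
    rw [← h4]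
    exact mul_le_mul_of_nonneg_left h3 (by positivity)
  refine h7.trans ?_
  rw [← mul_pow]
  refine pow_le_pow_left₀ (by positivity) ?_ r
  rw [mul_comm, mul_div_assoc']
  exact div_le_div_of_nonneg_right (mul_le_mul_of_nonneg_left h2 (Real.exp_pos 1).le) hr0.le

theorem brun_sum : ∃ C : ℝ, 1 ≤ C ∧ ∀ y r : ℕ, 3 ≤ y → ∑ m ∈ bdl y r, (1 : ℝ) / m ≤ C * Real.log y := by
  obtain ⟨C, hC, hup⟩ := BrunC_upper2
  refine ⟨Real.exp C, Real.one_le_exp hC.le, fun y r hy => ?_⟩
  have hy1 : (1 : ℝ) < y := by exact_mod_cast (by omega : 1 < y)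
  have hly : 0 < Real.log y := Real.log_pos hy1
  have h1 : ∑ m ∈ bdl y r, (1 : ℝ) / m ≤
      ∑ T ∈ (primorial y).primeFactors.powerset, ∏ p ∈ T, (1 : ℝ) / p := by
    unfold bdl
    rw [BrunC_dvd_iff (primorial y) (squarefree_primorial y) (fun j => j < r)]
    refine (Finset.sum_le_sum_of_subset_of_nonneg (filter_subset _ _)
      fun T _ _ => by positivity).trans (le_of_eq ?_)
    exact Finset.sum_congr rfl fun T _ => BrunC_inv T
  refine h1.trans ?_
  rw [← Finset.prod_one_add]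
  have h2 : ∏ p ∈ (primorial y).primeFactors, (1 + (1 : ℝ) / p) ≤
      Real.exp (∑ p ∈ (primorial y).primeFactors, (1 : ℝ) / p) := by
    rw [Real.exp_sum]
    refine Finset.prod_le_prod (fun p _ => by positivity) fun p _ => ?_
    have h := Real.add_one_le_exp ((1 : ℝ) / p)
    linarith
  refine h2.trans ?_
  have h3 : Real.exp C * Real.log y = Real.exp (Real.log (Real.log y) + C) := by
    rw [Real.exp_add, Real.exp_log hly, mul_comm]
  rw [h3]
  exact Real.exp_le_exp.2 (hup y (by omega))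

theorem bdl_le (y r m : ℕ) (hy : 1 ≤ y) (hm : m ∈ bdl y r) : m ≤ y ^ r := by
  unfold bdl at hm
  rw [mem_filter, Nat.mem_divisors] at hm
  have hsq : Squarefree m := (squarefree_primorial y).squarefree_of_dvd hm.1.1
  rw [← Nat.prod_primeFactors_of_squarefree hsq]
  have h1 : ∏ p ∈ m.primeFactors, p ≤ y ^ m.primeFactors.card := by
    refine Finset.prod_le_pow_card m.primeFactors (fun p => p) y fun p hp => ?_
    have h2 := Nat.primeFactors_mono hm.1.1 hm.1.2 hp
    rw [primeFactors_primorial, Nat.mem_primesLE] at h2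
    exact h2.1
  exact h1.trans (Nat.pow_le_pow_right hy hm.2.le)

end Pool.Agent.H97.VK

end

section

/-!
# VKT (H97/VK of helper97 with the parameter `T0.t` in place of `9/10`, `t1` in place of `19/20`) BrunT: twisted sums over rough numbers

Proof.  `y = Yx x`, `r = ⌈20 (A+1) LL⌉₊ + 1`, `log u ≥ D · LL · L9`, `D = 21(A+1) + 10`, so `u ≥ y^{r+3}` (`log y ≤ L9`).
`ch_apply`, `brun_ineq`: `|∑_{n≤u} ch(n) ee(t log n) - ∑_{m ∈ bdl y r} μ(m) ∑_{n ≤ u, m ∣ n} χ(n) ee(t log n)| ≤ ∑_{m ∈ bd y r} u/m`.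
`n = m k`: `χ(m) ee(t log m) ∑_{k ≤ u/m} χ(k) ee(t log k)`, `u/m ≥ y^{2} ≥ y + 1` (`bdl_le`, `m ≤ y^r`; natural division), `psum (A+3) B`: `≤ (u/m)/L^{A+3}`;
`brun_sum`: total `≤ C (log y) u/L^{A+3} ≤ u/(2 L^A)`.
`brun_tail`: `log log y ≤ LL` and `LL` large: `e (LL + C)/r ≤ 1/e`, so the sum is `≤ e^{-r} ≤ L^{-20(A+1)}`.
-/

set_option autoImplicit false

namespace Pool.Agent.H76.VKT

open Finset
open Pool.Agent.H91.PK (ee)
open Pool.Agent.H97.VK (bd bdl brun_ineq brun_tail brun_sum bdl_le)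

/-- the twisted character -/
private noncomputable def brunT_f {d : ℕ} (χ : DirichletCharacter ℂ d) (t : ℝ) (n : ℕ) : ℂ :=
  χ (n : ZMod d) * ee (t * Real.log n)

private theorem brunT_f_le {d : ℕ} (χ : DirichletCharacter ℂ d) (t : ℝ) (n : ℕ) :
    ‖brunT_f χ t n‖ ≤ 1 := by
  unfold brunT_f
  rw [norm_mul, Pool.Agent.H91.PK.LSa_norm_ee, mul_one]
  exact DirichletCharacter.norm_le_one _ _

private theorem brunT_f_mul {d : ℕ} (χ : DirichletCharacter ℂ d) (t : ℝ) (m k : ℕ) (hm : m ≠ 0)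
    (hk : k ≠ 0) : brunT_f χ t (m * k) = brunT_f χ t m * brunT_f χ t k := by
  unfold brunT_f
  have hm' : (m : ℝ) ≠ 0 := by exact_mod_cast hm
  have hk' : (k : ℝ) ≠ 0 := by exact_mod_cast hk
  rw [Nat.cast_mul, Nat.cast_mul, Real.log_mul hm' hk', mul_add, Pool.Agent.H91.PK.LSa_ee_add, map_mul]
  ring

private theorem brunT_multiples {M : Type} [AddCommMonoid M] (u m : ℕ) (hm : 1 ≤ m) (F : ℕ → M) :
    ∑ n ∈ (Icc 1 u).filter (fun n => m ∣ n), F n = ∑ k ∈ Icc 1 (u / m), F (m * k) := by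
  symm
  refine sum_bij (fun k _ => m * k) ?_ ?_ ?_ ?_
  · intro k hk
    rw [mem_Icc] at hk
    rw [mem_filter, mem_Icc]
    refine ⟨⟨Nat.mul_pos hm hk.1, ?_⟩, Dvd.intro _ rfl⟩
    calc m * k ≤ m * (u / m) := Nat.mul_le_mul_left _ hk.2
      _ ≤ u := Nat.mul_div_le _ _
  · intro a _ b _ hab
    exact Nat.eq_of_mul_eq_mul_left hm hab
  · intro n hn
    rw [mem_filter, mem_Icc] at hn
    obtain ⟨⟨h1, h2⟩, k, rfl⟩ := hn
    refine ⟨k, ?_, rfl⟩
    rw [mem_Icc]
    constructor
    · rcases Nat.eq_zero_or_pos k with h | h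
      · rw [h, mul_zero] at h1
        omega
      · exact h
    · rw [Nat.le_div_iff_mul_le hm]
      calc k * m = m * k := mul_comm _ _
        _ ≤ u := h2
  · intro k _
    rfl

/-- the main inequality. -/
private theorem brunT_main {d : ℕ} (χ : DirichletCharacter ℂ d) (t : ℝ) (y r u : ℕ) (hr : 1 ≤ r)
    (E : ℝ) (hE : ∀ m ∈ bdl y r, ‖∑ k ∈ Icc 1 (u / m), brunT_f χ t k‖ ≤ ((u / m : ℕ) : ℝ) * E)
    (hE0 : 0 ≤ E) :
    ‖∑ n ∈ Icc 1 u, (if n.Coprime (primorial y) then brunT_f χ t n else 0)‖ ≤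
      u * E * ∑ m ∈ bdl y r, (1 : ℝ) / m + u * ∑ m ∈ bd y r, (1 : ℝ) / m := by
  set f : ℕ → ℂ := brunT_f χ t with hf
  set h : ℕ → ℝ := fun n => ∑ m ∈ (bdl y r).filter (fun m => m ∣ n), (ArithmeticFunction.moebius m : ℝ)
    with hh
  set g : ℕ → ℝ := fun n => if n.Coprime (primorial y) then (1 : ℝ) else 0 with hg
  have hpos : ∀ m, m ∣ primorial y → 1 ≤ m := fun m hm => Nat.pos_of_dvd_of_pos hm (primorial_pos y)
  have hposl : ∀ m ∈ bdl y r, 1 ≤ m := fun m hm => by
    unfold bdl at hm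
    exact hpos m (Nat.dvd_of_mem_divisors (mem_filter.1 hm).1)
  have hposb : ∀ m ∈ bd y r, 1 ≤ m := fun m hm => by
    unfold bd at hm
    exact hpos m (Nat.dvd_of_mem_divisors (mem_filter.1 hm).1)
  have e1 : ∑ n ∈ Icc 1 u, (if n.Coprime (primorial y) then f n else 0) =
      ∑ n ∈ Icc 1 u, ((h n : ℝ) : ℂ) * f n + ∑ n ∈ Icc 1 u, (((g n - h n : ℝ)) : ℂ) * f n := by
    rw [← sum_add_distrib]
    refine sum_congr rfl fun n _ => ?_
    rw [hg]
    dsimp only
    split_ifs
    · push_cast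
      ring
    · push_cast
      ring
  -- the error term
  have e2 : ‖∑ n ∈ Icc 1 u, (((g n - h n : ℝ)) : ℂ) * f n‖ ≤ u * ∑ m ∈ bd y r, (1 : ℝ) / m := by
    calc ‖∑ n ∈ Icc 1 u, (((g n - h n : ℝ)) : ℂ) * f n‖
        ≤ ∑ n ∈ Icc 1 u, ‖(((g n - h n : ℝ)) : ℂ) * f n‖ := norm_sum_le _ _
      _ ≤ ∑ n ∈ Icc 1 u, (((bd y r).filter (fun m => m ∣ n)).card : ℝ) := by
          refine sum_le_sum fun n hn => ?_
          rw [norm_mul, Complex.norm_real, Real.norm_eq_abs]
          have h1 := brun_ineq y r n hr (mem_Icc.1 hn).1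
          have h2 := brunT_f_le χ t n
          calc |g n - h n| * ‖f n‖ ≤ |g n - h n| * 1 :=
                mul_le_mul_of_nonneg_left h2 (abs_nonneg _)
            _ = |g n - h n| := mul_one _
            _ ≤ _ := h1
      _ = ∑ m ∈ bd y r, (((Icc 1 u).filter (fun n => m ∣ n)).card : ℝ) := by
          have h3 : ∀ n, (((bd y r).filter (fun m => m ∣ n)).card : ℝ) =
              ∑ m ∈ bd y r, if m ∣ n then (1 : ℝ) else 0 := by
            intro n
            rw [card_filter]
            push_cast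
            rfl
          have h4 : ∀ m, (((Icc 1 u).filter (fun n => m ∣ n)).card : ℝ) =
              ∑ n ∈ Icc 1 u, if m ∣ n then (1 : ℝ) else 0 := by
            intro m
            rw [card_filter]
            push_cast
            rfl
          rw [sum_congr rfl fun n _ => h3 n, sum_comm, sum_congr rfl fun m _ => (h4 m).symm]
      _ ≤ ∑ m ∈ bd y r, (u : ℝ) * (1 / (m : ℝ)) := by
          refine sum_le_sum fun m hm => ?_
          have h5 : ((Icc 1 u).filter (fun n => m ∣ n)).card = u / m := by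
            rw [card_eq_sum_ones, brunT_multiples u m (hposb m hm), ← card_eq_sum_ones, Nat.card_Icc]
            simp
          rw [h5, mul_one_div]
          exact Nat.cast_div_le
      _ = u * ∑ m ∈ bd y r, (1 : ℝ) / m := by rw [mul_sum]
  -- the main term
  have e3 : ‖∑ n ∈ Icc 1 u, ((h n : ℝ) : ℂ) * f n‖ ≤ u * E * ∑ m ∈ bdl y r, (1 : ℝ) / m := by
    have e4 : ∑ n ∈ Icc 1 u, ((h n : ℝ) : ℂ) * f n =
        ∑ m ∈ bdl y r, ((ArithmeticFunction.moebius m : ℝ) : ℂ) * (f m * ∑ k ∈ Icc 1 (u / m), f k) := by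
      have h6 : ∀ n, ((h n : ℝ) : ℂ) * f n =
          ∑ m ∈ bdl y r, if m ∣ n then ((ArithmeticFunction.moebius m : ℝ) : ℂ) * f n else 0 := by
        intro n
        rw [hh]
        dsimp only
        rw [Complex.ofReal_sum, sum_mul, sum_filter]
      rw [sum_congr rfl fun n _ => h6 n, sum_comm]
      refine sum_congr rfl fun m hm => ?_
      rw [← sum_filter, ← mul_sum, brunT_multiples u m (hposl m hm)]
      congr 1
      rw [mul_sum]
      refine sum_congr rfl fun k hk => ?_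
      rw [hf]
      exact brunT_f_mul χ t m k (by have := hposl m hm; omega) (by have := (mem_Icc.1 hk).1; omega)
    rw [e4]
    calc ‖∑ m ∈ bdl y r, ((ArithmeticFunction.moebius m : ℝ) : ℂ) * (f m * ∑ k ∈ Icc 1 (u / m), f k)‖
        ≤ ∑ m ∈ bdl y r, ‖((ArithmeticFunction.moebius m : ℝ) : ℂ) * (f m * ∑ k ∈ Icc 1 (u / m), f k)‖ :=
          norm_sum_le _ _
      _ ≤ ∑ m ∈ bdl y r, (u : ℝ) * E * (1 / (m : ℝ)) := by
          refine sum_le_sum fun m hm => ?_
          rw [norm_mul, norm_mul, Complex.norm_real, Real.norm_eq_abs]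
          have h7 : |((ArithmeticFunction.moebius m : ℤ) : ℝ)| ≤ 1 := by
            have := ArithmeticFunction.abs_moebius_le_one (n := m)
            exact_mod_cast this
          have h8 : ‖f m‖ ≤ 1 := brunT_f_le χ t m
          have h9 : ‖∑ k ∈ Icc 1 (u / m), f k‖ ≤ ((u / m : ℕ) : ℝ) * E := hE m hm
          have h10 : ((u / m : ℕ) : ℝ) ≤ (u : ℝ) / m := Nat.cast_div_le
          calc |((ArithmeticFunction.moebius m : ℤ) : ℝ)| * (‖f m‖ * ‖∑ k ∈ Icc 1 (u / m), f k‖)
              ≤ 1 * (1 * (((u / m : ℕ) : ℝ) * E)) := by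
                refine mul_le_mul h7 ?_ (by positivity) zero_le_one
                exact mul_le_mul h8 h9 (norm_nonneg _) zero_le_one
            _ = ((u / m : ℕ) : ℝ) * E := by ring
            _ ≤ (u : ℝ) / m * E := mul_le_mul_of_nonneg_right h10 hE0
            _ = (u : ℝ) * E * (1 / (m : ℝ)) := by ring
      _ = u * E * ∑ m ∈ bdl y r, (1 : ℝ) / m := by rw [mul_sum]
  rw [e1]
  exact (norm_add_le _ _).trans (add_le_add e3 e2)

private theorem brunT_ev (c : ℝ) : ∃ x0 : ℕ, ∀ x : ℕ, x0 ≤ x → c ≤ LL x := by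
  have h1 : Filter.Tendsto (fun x : ℕ => LL x) Filter.atTop Filter.atTop := by
    unfold LL
    exact Real.tendsto_log_atTop.comp (Real.tendsto_log_atTop.comp tendsto_natCast_atTop_atTop)
  obtain ⟨x0, hx0⟩ := Filter.eventually_atTop.1 (h1.eventually_ge_atTop c)
  exact ⟨x0, hx0⟩

theorem rtw_h [T0] (h_psum : psum_P)  (A B : ℕ) : ∃ K' D x0 : ℕ, ∀ x : ℕ, x0 ≤ x → ∀ (d : ℕ) (χ : DirichletCharacter ℂ d) (t : ℝ) (u : ℕ),
    1 ≤ d → (d : ℝ) ≤ Real.log x ^ B → Real.log x ^ K' ≤ |t| → |t| ≤ (x : ℝ) ^ (3 : ℕ) → D * (LL x * L9 x) ≤ Real.log u →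
    ‖∑ n ∈ Icc 1 u, ch x χ (n : ZMod (qm x d)) * ee (t * Real.log n)‖ ≤ u / Real.log x ^ A := by
  obtain ⟨K', x1, hps⟩ := h_psum (A + 3) B
  obtain ⟨x2, hev⟩ := yx_ev
  obtain ⟨C1, hC1, htail⟩ := brun_tail
  obtain ⟨C2, hC2, hsum⟩ := brun_sum
  obtain ⟨x3, h3⟩ := brunT_ev (C1 + 2 * C2 + 2)
  refine ⟨K', 20 * (A + 1) + 4, max x1 (max x2 x3), ?_⟩
  intro x hx d χ t u hd hdB ht1 ht2 hu
  have hx1 : x1 ≤ x := (le_max_left _ _).trans hx
  have hx2 : x2 ≤ x := ((le_max_left _ _).trans (le_max_right _ _)).trans hx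
  have hx3 : x3 ≤ x := ((le_max_right _ _).trans (le_max_right _ _)).trans hx
  obtain ⟨hy3, hyL, _, hLL1, hL91, hL1, _⟩ := hev x hx2
  have hLLc := h3 x hx3
  set L : ℝ := Real.log x with hL
  set y : ℕ := Yx x with hy
  have hLLdef : LL x = Real.log L := rfl
  have hLpos : 0 < L := by linarith only [hL1]
  have hexpLL : Real.exp (LL x) = L := by rw [hLLdef, Real.exp_log hLpos]
  have hLbig : C1 + 2 * C2 + 2 ≤ L := by
    have h4 : LL x + 1 ≤ L := by
      have := Real.add_one_le_exp (LL x)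
      rwa [hexpLL] at this
    linarith only [hLLc, h4]
  have hL9L : L9 x ≤ L := by
    unfold L9
    calc L ^ T0.t ≤ L ^ (1 : ℝ) := Real.rpow_le_rpow_of_exponent_le hL1 T0.hi.le
      _ = L := Real.rpow_one L
  set r : ℕ := ⌈20 * ((A : ℝ) + 1) * LL x⌉₊ + 1 with hr
  have hr1 : 1 ≤ r := by omega
  have hA0 : (0 : ℝ) ≤ (A : ℝ) := Nat.cast_nonneg A
  have hrlow : 20 * ((A : ℝ) + 1) * LL x ≤ r := by
    have h5 := Nat.le_ceil (20 * ((A : ℝ) + 1) * LL x)
    rw [hr]
    push_cast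
    linarith only [h5]
  have hrup : (r : ℝ) ≤ 20 * ((A : ℝ) + 1) * LL x + 2 := by
    have h5 := Nat.ceil_lt_add_one (a := 20 * ((A : ℝ) + 1) * LL x) (by positivity)
    rw [hr]
    push_cast
    linarith only [h5]
  have hrpos : (0 : ℝ) < r := by exact_mod_cast hr1
  -- `y ^ (r + 2) ≤ u`
  have hypos : (0 : ℝ) < y := by
    have : 0 < y := by omega
    exact_mod_cast this
  have hlogu : ((r + 2 : ℕ) : ℝ) * Real.log y ≤ Real.log u := by
    have hly : 0 ≤ Real.log y := Real.log_natCast_nonneg y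
    have h6 : ((r + 2 : ℕ) : ℝ) ≤ ((20 * (A + 1) + 4 : ℕ) : ℝ) * LL x := by
      push_cast
      nlinarith only [hC1, hC2, hLLc, hrup]
    calc ((r + 2 : ℕ) : ℝ) * Real.log y ≤ ((r + 2 : ℕ) : ℝ) * L9 x :=
          mul_le_mul_of_nonneg_left hyL (Nat.cast_nonneg _)
      _ ≤ ((20 * (A + 1) + 4 : ℕ) : ℝ) * LL x * L9 x :=
          mul_le_mul_of_nonneg_right h6 (by linarith only [hL91])
      _ = ((20 * (A + 1) + 4 : ℕ) : ℝ) * (LL x * L9 x) := by ring
      _ ≤ Real.log u := hu
  have hupos : (0 : ℝ) < u := by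
    rcases Nat.eq_zero_or_pos u with h | h
    · exfalso
      rw [h] at hu
      simp only [Nat.cast_zero, Real.log_zero] at hu
      have h7 : (0 : ℝ) < ((20 * (A + 1) + 4 : ℕ) : ℝ) * (LL x * L9 x) := by
        have : (0 : ℝ) < ((20 * (A + 1) + 4 : ℕ) : ℝ) := by
          have : 0 < 20 * (A + 1) + 4 := by omega
          exact_mod_cast this
        have h8 : (0 : ℝ) < LL x * L9 x := by nlinarith only [hC1, hC2, hL91, hLLc, hLL1]
        exact mul_pos this h8
      linarith only [hu, h7]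
    · exact_mod_cast h
  have hyu : y ^ (r + 2) ≤ u := by
    have h7 : ((y : ℝ)) ^ (r + 2) ≤ u := by
      rw [← Real.log_le_log_iff (by positivity) hupos, Real.log_pow]
      exact hlogu
    exact_mod_cast h7
  have hdiv : ∀ m ∈ bdl y r, y + 1 ≤ u / m := by
    intro m hm
    have hm1 : 1 ≤ m := by
      unfold bdl at hm
      exact Nat.pos_of_dvd_of_pos (Nat.dvd_of_mem_divisors (mem_filter.1 hm).1) (primorial_pos y)
    rw [Nat.le_div_iff_mul_le hm1]
    have h8 : m ≤ y ^ r := bdl_le y r m (by omega) hm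
    calc (y + 1) * m ≤ (y * y) * y ^ r := by
          refine Nat.mul_le_mul ?_ h8
          nlinarith only [hy3]
      _ = y ^ (r + 2) := by ring
      _ ≤ u := hyu
  have hE : ∀ m ∈ bdl y r, ‖∑ k ∈ Icc 1 (u / m), brunT_f χ t k‖ ≤
      ((u / m : ℕ) : ℝ) * (1 / L ^ (A + 3)) := by
    intro m hm
    have h9 := hps x hx1 d χ t (u / m) hd hdB ht1 ht2 (hdiv m hm)
    unfold brunT_f
    rw [mul_one_div]
    exact h9
  have hmain := brunT_main χ t y r u hr1 (1 / L ^ (A + 3)) hE (by positivity)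
  have hrew : ∑ n ∈ Icc 1 u, ch x χ (n : ZMod (qm x d)) * ee (t * Real.log n) =
      ∑ n ∈ Icc 1 u, (if n.Coprime (primorial y) then brunT_f χ t n else 0) := by
    refine sum_congr rfl fun n _ => ?_
    rw [ch_apply x hd χ n]
    unfold brunT_f
    split_ifs
    · rfl
    · rw [zero_mul]
  rw [hrew]
  refine hmain.trans ?_
  have hLA : 0 < L ^ A := by positivity
  -- first part
  have p1 : (u : ℝ) * (1 / L ^ (A + 3)) * ∑ m ∈ bdl y r, (1 : ℝ) / m ≤ u / L ^ A / 2 := by
    have h10 := hsum y r hy3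
    have h11 : C2 * Real.log y ≤ C2 * L := mul_le_mul_of_nonneg_left (hyL.trans hL9L) (by linarith only [hC2])
    calc (u : ℝ) * (1 / L ^ (A + 3)) * ∑ m ∈ bdl y r, (1 : ℝ) / m
        ≤ (u : ℝ) * (1 / L ^ (A + 3)) * (C2 * L) :=
          mul_le_mul_of_nonneg_left (h10.trans h11) (by positivity)
      _ = (u : ℝ) / L ^ A * (C2 / L ^ 2) := by
          rw [pow_add]
          field_simp
      _ ≤ (u : ℝ) / L ^ A * (1 / 2) := by
          refine mul_le_mul_of_nonneg_left ?_ (by positivity)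
          rw [div_le_div_iff₀ (by positivity) (by norm_num)]
          nlinarith only [hC1, hC2, hLbig, hL1]
      _ = u / L ^ A / 2 := by ring
  -- second part
  have p2 : (u : ℝ) * ∑ m ∈ bd y r, (1 : ℝ) / m ≤ u / L ^ A / 2 := by
    have h12 := htail y r hy3 hr1
    have hlogy1 : 1 ≤ Real.log y := by
      have h13 : Real.exp 1 ≤ y := by
        have := Real.exp_one_lt_d9
        have h14 : (3 : ℝ) ≤ y := by exact_mod_cast hy3
        linarith only [this, h14]
      rw [← Real.log_exp 1]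
      exact Real.log_le_log (Real.exp_pos 1) h13
    have hll : Real.log (Real.log y) ≤ LL x := by
      rw [hLLdef]
      exact Real.log_le_log (by linarith) (hyL.trans hL9L)
    have hll0 : 0 ≤ Real.log (Real.log y) := Real.log_nonneg hlogy1
    have hbase : Real.exp 1 * (Real.log (Real.log y) + C1) / r ≤ Real.exp (-1) := by
      rw [div_le_iff₀ hrpos]
      have h15 : Real.log (Real.log y) + C1 ≤ 2 * LL x := by linarith only [hC2, hLLc, hll]
      have h16 : Real.exp 1 < 3 := by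
        have := Real.exp_one_lt_d9
        linarith only [this]
      have h17 : Real.exp 1 * Real.exp (-1) = 1 := by
        rw [← Real.exp_add]
        simp
      have h18 : (1 : ℝ) / 3 ≤ Real.exp (-1) := by
        have hp : 0 < Real.exp (-1) := Real.exp_pos _
        rw [div_le_iff₀ (by norm_num)]
        nlinarith only [h17, h16, hp]
      have h19 : 20 * LL x ≤ r := by nlinarith only [hrlow, hLL1]
      calc Real.exp 1 * (Real.log (Real.log y) + C1) ≤ 3 * (2 * LL x) := by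
            refine mul_le_mul h16.le h15 (by linarith only [hC1, hll0]) (by norm_num)
        _ ≤ 1 / 3 * r := by nlinarith only [hC1, hC2, hLLc, h19]
        _ ≤ Real.exp (-1) * r := mul_le_mul_of_nonneg_right h18 hrpos.le
    have hbase0 : 0 ≤ Real.exp 1 * (Real.log (Real.log y) + C1) / r := by
      have : 0 ≤ Real.log (Real.log y) + C1 := by linarith only [hC1, hll0]
      positivity
    have h20 : (Real.exp 1 * (Real.log (Real.log y) + C1) / r) ^ r ≤ 1 / L ^ A / 2 := by
      calc (Real.exp 1 * (Real.log (Real.log y) + C1) / r) ^ r ≤ Real.exp (-1) ^ r :=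
            pow_le_pow_left₀ hbase0 hbase r
        _ = Real.exp (-(r : ℝ)) := by
            rw [← Real.exp_nat_mul]
            congr 1
            ring
        _ ≤ Real.exp (-(((A : ℝ) + 1) * LL x)) := by
            refine Real.exp_le_exp.2 ?_
            nlinarith only [hrlow, hrpos]
        _ = 1 / L ^ (A + 1) := by
            rw [Real.exp_neg, one_div]
            congr 1
            have : ((A : ℝ) + 1) * LL x = ((A + 1 : ℕ) : ℝ) * LL x := by push_cast; ring
            rw [this, Real.exp_nat_mul, hexpLL]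
        _ ≤ 1 / L ^ A / 2 := by
            rw [div_div]
            refine one_div_le_one_div_of_le (by positivity) ?_
            rw [pow_succ]
            refine mul_le_mul_of_nonneg_left ?_ hLA.le
            linarith only [hC1, hC2, hLbig]
    calc (u : ℝ) * ∑ m ∈ bd y r, (1 : ℝ) / m ≤ u * (1 / L ^ A / 2) :=
          mul_le_mul_of_nonneg_left (h12.trans h20) hupos.le
      _ = u / L ^ A / 2 := by ring
  linarith only [p1, p2]

end Pool.Agent.H76.VKT

end
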