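import Pool.Agent.H43.PS.H76.VKT.Exp
import Pool.Agent.H43.PS.H76.VKT.SmShW
import Pool.Agent.H43.PS.H76.VKT.VkChiW
import Pool.Agent.H43.PS.H97.VK.VExp
import Pool.Agent.H43.PS.M12
import Pool.Agent.H43.PS.M16
import Pool.Agent.H43.PS.M18
import Pool.Agent.H43.PS.M19
import Pool.Agent.H43.PS.M20
import Pool.Agent.H43.PS.M21

/-! The parts of this file: H97.VK.VChain, H76.VKT.Chain, H76.VKT.VkClassW, H76.VKT.Main, H43.CH.Cd0. -/

section

set_option autoImplicit false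

namespace Pool.Agent.H97.VK

open Finset
open Pool.Agent.H91.PK (ee)

theorem vexp : ∃ c C : ℝ, 0 < c ∧ 1 ≤ C ∧ ∀ (κ N a b : ℕ) (β t : ℝ), 4 ≤ κ → (C * κ) ^ C ≤ N →
    N ≤ a → b ≤ 2 * N → 0 ≤ β → β ≤ 1 → (N : ℝ) ^ (4 * κ - 4) ≤ |t| → |t| ≤ (N : ℝ) ^ (4 * κ) →
    ‖∑ n ∈ Ioc a b, ee (t * Real.log (n + β))‖ ≤ C * (N : ℝ) ^ (1 - c / (κ : ℝ) ^ 2) :=
  vexp_h jv_eight

end Pool.Agent.H97.VK

end

section

set_option autoImplicit false

namespace Pool.Agent.H76.VKT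

open Finset
open Pool.Agent.H91.EHA
open Pool.Agent.H91.PK (ee)

theorem vk_exp [T0] (A : ℕ) : ∃ x0 : ℕ, ∀ x : ℕ, x0 ≤ x → ∀ (K a b : ℕ) (β t : ℝ),
    Real.exp (Real.log x ^ T0.t) ≤ K → K ≤ x → b ≤ K → 0 ≤ β → β ≤ 1 →
    1 ≤ |t| → |t| ≤ (x : ℝ) ^ (3 : ℕ) →
    ‖∑ n ∈ Ioc a b, ee (t * Real.log (n + β))‖ ≤ K * (100 / |t| + 1 / Real.log x ^ A) :=
  vk_exp_h Pool.Agent.H97.VK.vexp A

theorem psum [T0] (A B : ℕ) : ∃ K' x0 : ℕ, ∀ x : ℕ, x0 ≤ x → ∀ (d : ℕ) (χ : DirichletCharacter ℂ d) (t : ℝ) (v : ℕ),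
    1 ≤ d → (d : ℝ) ≤ Real.log x ^ B → Real.log x ^ K' ≤ |t| → |t| ≤ (x : ℝ) ^ (3 : ℕ) → Yx x + 1 ≤ v →
    ‖∑ n ∈ Icc 1 v, χ (n : ZMod d) * ee (t * Real.log n)‖ ≤ v / Real.log x ^ A :=
  psum_h vk_exp A B

theorem rtw [T0] (A B : ℕ) : ∃ K' D x0 : ℕ, ∀ x : ℕ, x0 ≤ x → ∀ (d : ℕ) (χ : DirichletCharacter ℂ d) (t : ℝ) (u : ℕ),
    1 ≤ d → (d : ℝ) ≤ Real.log x ^ B → Real.log x ^ K' ≤ |t| → |t| ≤ (x : ℝ) ^ (3 : ℕ) → D * (LL x * L9 x) ≤ Real.log u →
    ‖∑ n ∈ Icc 1 u, ch x χ (n : ZMod (qm x d)) * ee (t * Real.log n)‖ ≤ u / Real.log x ^ A :=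
  rtw_h psum A B

theorem lk_up [T0] (k B : ℕ) : ∃ C : ℝ, 1 ≤ C ∧ ∃ K' x0 : ℕ, ∀ x : ℕ, x0 ≤ x → ∀ (d : ℕ) (χ : DirichletCharacter ℂ d) (s : ℂ),
    1 ≤ d → (d : ℝ) ≤ Real.log x ^ B → 1 + 1 / (4 * Real.log x) ≤ s.re → s.re ≤ 2 →
    Real.log x ^ K' ≤ |s.im| → |s.im| ≤ 6 * (x : ℝ) ^ (3 : ℕ) →
    ‖Lk (qm x d) (ch x χ) k s‖ ≤ C * L9 x ^ k * LL x ^ (k + 1) :=
  lk_up_h rtw k B

theorem lk_low [T0] (B : ℕ) : ∃ c : ℝ, 0 < c ∧ c ≤ 1 ∧ ∃ K' x0 : ℕ, ∀ x : ℕ, x0 ≤ x → ∀ (d : ℕ) (χ : DirichletCharacter ℂ d) (s : ℂ),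
    1 ≤ d → (d : ℝ) ≤ Real.log x ^ B → 1 + 1 / (4 * Real.log x) ≤ s.re → s.re ≤ 2 →
    Real.log x ^ K' ≤ |s.im| → |s.im| ≤ 3 * (x : ℝ) ^ (3 : ℕ) →
    c / LL x ^ 7 ≤ ‖Lk (qm x d) (ch x χ) 0 s‖ :=
  lk_low_h lk_up zy_up B

theorem fk_up [T0] (k B : ℕ) : ∃ C : ℝ, 1 ≤ C ∧ ∃ K' x0 : ℕ, ∀ x : ℕ, x0 ≤ x → ∀ (d : ℕ) (χ : DirichletCharacter ℂ d) (s : ℂ),
    1 ≤ d → (d : ℝ) ≤ Real.log x ^ B → 1 + 1 / (4 * Real.log x) ≤ s.re → s.re ≤ 2 →
    Real.log x ^ K' ≤ |s.im| → |s.im| ≤ 3 * (x : ℝ) ^ (3 : ℕ) →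
    ‖Fk (qm x d) (ch x χ) k s‖ ≤ C * L9 x ^ (k + 1) * LL x ^ (20 * (k + 1)) :=
  fk_up_h lk_low lk_up k B

theorem sm_sharp_w [T0] (t1 : ℝ) (ht1' : T0.t < t1) (k κ B : ℕ) (hκ : 1 ≤ κ) : ∃ C : ℝ, 1 ≤ C ∧ ∃ K' x0 : ℕ, ∀ x : ℕ, x0 ≤ x →
    ∀ (d : ℕ) (χ : DirichletCharacter ℂ d) (t : ℝ) (v z : ℕ), 1 ≤ d → (d : ℝ) ≤ Real.log x ^ B →
    Real.exp (Real.log x ^ t1) ≤ z → z ≤ x ^ 2 → v ≤ z → Real.log x ^ K' ≤ |t| → |t| ≤ (x : ℝ) ^ (2 : ℕ) →
    ‖∑ n ∈ Icc 1 v, ((Lam n * Real.log n ^ k : ℝ) : ℂ) * ch x χ (n : ZMod (qm x d)) * ee (t * Real.log n)‖ ≤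
      C * z * (L9 x ^ (k + 1) * LL x ^ (20 * (k + 1)) * Real.log x ^ (3 * κ) +
        Real.log (2 * z) ^ (k + 1) / Real.log x ^ κ) :=
  sm_sharp_w_h fk_up t1 ht1' k κ B hκ

theorem vk_chi_w [T0] (t1 : ℝ) (ht1' : T0.t < t1) (K B : ℕ) : ∃ K' x0 : ℕ, ∀ x : ℕ, x0 ≤ x →
    ∀ (d : ℕ) (χ : DirichletCharacter ℂ d) (t : ℝ) (z : ℕ), 1 ≤ d → (d : ℝ) ≤ Real.log x ^ B →
    Real.exp (Real.log x ^ t1) ≤ z → z ≤ x ^ 2 → Real.log x ^ K' ≤ |t| → |t| ≤ (x : ℝ) ^ (2 : ℕ) →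
    ‖∑ n ∈ Icc 1 z, ((Lam n : ℝ) : ℂ) * χ (n : ZMod d) * ee (t * Real.log n)‖ ≤ z / Real.log x ^ K :=
  vk_chi_w_h sm_sharp_w t1 ht1' K B

end Pool.Agent.H76.VKT

end

section

/-!
# VKT (H97/VK of helper97 with the parameter `T0.t` in place of `9/10`, `t1` in place of `19/20`) VkClassW: `vk_class` for `z ≥ exp(L^{19/20})`

Proof.  `(u,d) = 1`: orthogonality (Mathlib `DirichletCharacter.sum_char_inv_mul_char_eq`, compare `swk1_orth` in `EHA/SwK1.lean`):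
`∑_{n ≡ u} Λ(n) ee(t log n) = (1/φ(d)) ∑_χ χ(u)^{-1} ∑_{n≤z} Λ(n) χ(n) ee(t log n)`, at most `φ(d)` characters, `vk_chi K B e0`.
`(u,d) > 1`: every `n ≡ u mod d` has a common factor with `d`, so `Λ(n) ≠ 0` only for powers of the primes `p ∣ d`:
at most `∑_{p ∣ d} log z ≤ d · log z ≤ z/L^K` (`DiA_psi_noncoprime` in `PK/DiA.lean`, or directly).
-/

set_option autoImplicit false

namespace Pool.Agent.H76.VKT

open Finset
open Pool.Agent.H91.EHA
open Pool.Agent.H91.PK (ee)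

private theorem VkClass_orth {z d u : ℕ} (hd : 1 ≤ d) (hu : Nat.Coprime u d) (f : ℕ → ℂ) :
    (d.totient : ℂ) * ∑ n ∈ (Icc 1 z).filter (fun n => n % d = u % d), f n =
      ∑ χ : DirichletCharacter ℂ d, χ ((u : ZMod d)⁻¹) *
        ∑ n ∈ Icc 1 z, f n * χ (n : ZMod d) := by
  have : NeZero d := ⟨by omega⟩
  have hun : IsUnit (u : ZMod d) := (ZMod.isUnit_iff_coprime u d).mpr hu
  simp only [mul_sum]
  rw [sum_comm, sum_filter]
  refine sum_congr rfl fun n _ => ?_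
  have h1 : ∀ χ : DirichletCharacter ℂ d,
      χ ((u : ZMod d)⁻¹) * (f n * χ (n : ZMod d))
      = (χ ((u : ZMod d)⁻¹) * χ (n : ZMod d)) * f n := by
    intro χ; ring
  simp only [h1]
  rw [← sum_mul, DirichletCharacter.sum_char_inv_mul_char_eq ℂ hun]
  have hiff : ((u : ZMod d) = (n : ZMod d)) ↔ n % d = u % d := by
    rw [eq_comm]
    exact ZMod.natCast_eq_natCast_iff' n u d
  by_cases h : n % d = u % d
  · rw [if_pos h, if_pos (hiff.mpr h)]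
  · rw [if_neg h, if_neg (fun h' => h (hiff.mp h'))]
    simp

private theorem VkClass_norm_ee (t : ℝ) : ‖ee t‖ = 1 := by
  unfold ee
  rw [show (2 * Real.pi * t * Complex.I : ℂ) = ((2 * Real.pi * t : ℝ) : ℂ) * Complex.I by
    push_cast; ring]
  exact Complex.norm_exp_ofReal_mul_I _

private theorem VkClass_norm_char_le {d : ℕ} (χ : DirichletCharacter ℂ d) (a : ZMod d) : ‖χ a‖ ≤ 1 :=
  DirichletCharacter.norm_le_one χ a

private theorem VkClass_noncop {z d u : ℕ} (hz : 1 ≤ z) (hd : 1 ≤ d) (hu : ¬ Nat.Coprime u d)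
    (t : ℝ) :
    ‖∑ n ∈ (Icc 1 z).filter (fun n => n % d = u % d),
      ((Lam n : ℝ) : ℂ) * ee (t * Real.log n)‖ ≤ d * Real.log z := by
  have h1 : ‖∑ n ∈ (Icc 1 z).filter (fun n => n % d = u % d),
      ((Lam n : ℝ) : ℂ) * ee (t * Real.log n)‖ ≤
      ∑ n ∈ (Icc 1 z).filter (fun n => n % d = u % d), ArithmeticFunction.vonMangoldt n := by
    refine (norm_sum_le _ _).trans (sum_le_sum fun n _ => ?_)
    rw [norm_mul, VkClass_norm_ee, mul_one, Complex.norm_real, Lam,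
      Real.norm_of_nonneg ArithmeticFunction.vonMangoldt_nonneg]
  have h2 : ∑ n ∈ (Icc 1 z).filter (fun n => n % d = u % d), ArithmeticFunction.vonMangoldt n ≤
      ∑ n ∈ (Icc 1 z).filter (fun n => ¬ Nat.Coprime n d), ArithmeticFunction.vonMangoldt n := by
    refine sum_le_sum_of_subset_of_nonneg ?_ (fun _ _ _ => ArithmeticFunction.vonMangoldt_nonneg)
    intro n hn
    rw [mem_filter] at hn ⊢
    refine ⟨hn.1, fun hc => hu ?_⟩
    have h3 : Nat.gcd n d = Nat.gcd u d := Nat.ModEq.gcd_eq hn.2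
    rw [Nat.Coprime, ← h3]
    exact hc
  have h4 := Pool.Agent.H91.PK.DiA_psi_noncoprime (N := z) (d := d) hz hd
  have h5 : (d.primeFactors.card : ℝ) ≤ d := by
    have : d.primeFactors.card ≤ (Icc 1 d).card := by
      refine card_le_card fun p hp => ?_
      rw [mem_Icc]
      exact ⟨(Nat.prime_of_mem_primeFactors hp).one_le,
        Nat.le_of_dvd hd (Nat.dvd_of_mem_primeFactors hp)⟩
    rw [Nat.card_Icc, Nat.add_sub_cancel] at this
    exact_mod_cast this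
  calc _ ≤ _ := h1
    _ ≤ _ := h2
    _ ≤ _ := h4
    _ ≤ _ := mul_le_mul_of_nonneg_right h5 (Real.log_natCast_nonneg z)

private theorem VkClassW_large (t1 : ℝ) (ht1 : 1 / 2 ≤ t1) (K B : ℕ) : ∃ x0 : ℕ, ∀ x : ℕ, x0 ≤ x →
    1 ≤ Real.log x ∧ 2 * Real.log x ^ (B + 1 + K) ≤ Real.exp (Real.log x ^ t1) := by
  have h1 : ∀ᶠ u : ℝ in Filter.atTop, 2 * u ^ (B + 1 + K) ≤ Real.exp (u ^ t1) := by
    have h := (isLittleO_pow_exp_pos_mul_atTop (2 * (B + 1 + K)) (show (0 : ℝ) < 1 by norm_num)).bound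
      (show (0 : ℝ) < 1 / 2 by norm_num)
    have h' := (tendsto_rpow_atTop (show (0 : ℝ) < t1 by linarith)).eventually h
    filter_upwards [h', Filter.eventually_ge_atTop (1 : ℝ)] with u hu hu1
    have hp : 0 ≤ u ^ t1 := Real.rpow_nonneg (by linarith) _
    rw [Real.norm_of_nonneg (by positivity), Real.norm_of_nonneg (by positivity), one_mul] at hu
    have h2 : u ^ (B + 1 + K) ≤ (u ^ t1) ^ (2 * (B + 1 + K)) := by
      rw [← Real.rpow_natCast (u ^ t1), ← Real.rpow_mul (by linarith),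
        ← Real.rpow_natCast u]
      refine Real.rpow_le_rpow_of_exponent_le hu1 ?_
      push_cast
      have h1 : (0 : ℝ) ≤ B := Nat.cast_nonneg _
      have h2 : (0 : ℝ) ≤ K := Nat.cast_nonneg _
      nlinarith
    linarith
  have h2 : ∀ᶠ x : ℝ in Filter.atTop, 1 ≤ Real.log x := Real.tendsto_log_atTop.eventually_ge_atTop 1
  have h3 := (tendsto_natCast_atTop_atTop (R := ℝ)).eventually
    ((Real.tendsto_log_atTop.eventually h1).and h2)
  obtain ⟨x0, hx0⟩ := Filter.eventually_atTop.mp h3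
  exact ⟨x0, fun x hx => ⟨(hx0 x hx).2, (hx0 x hx).1⟩⟩

theorem vk_class_w [T0] (t1 : ℝ) (ht1' : T0.t < t1) (K B : ℕ) : ∃ K' x0 : ℕ, ∀ x : ℕ, x0 ≤ x →
    ∀ (d u z : ℕ) (t : ℝ), 1 ≤ d → (d : ℝ) ≤ Real.log x ^ B →
    Real.exp (Real.log x ^ t1) ≤ z → z ≤ x ^ 2 → Real.log x ^ K' ≤ |t| → |t| ≤ (x : ℝ) ^ (2 : ℕ) →
    ‖∑ n ∈ (Icc 1 z).filter (fun n => n % d = u % d), ((Lam n : ℝ) : ℂ) * ee (t * Real.log n)‖ ≤
      z / Real.log x ^ K := by
  obtain ⟨K', x1, hchi⟩ := vk_chi_w t1 ht1' K B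
  obtain ⟨x2, hlarge⟩ := VkClassW_large t1 (by have := T0.lo; linarith) K B
  refine ⟨K', max (max x1 x2) 1, fun x hx d u z t hd hdB hz1 hz2 ht1 ht2 => ?_⟩
  have hx1 : x1 ≤ x := ((le_max_left _ _).trans (le_max_left _ _)).trans hx
  have hx2 : x2 ≤ x := ((le_max_right _ _).trans (le_max_left _ _)).trans hx
  have hx3 : 1 ≤ x := (le_max_right _ _).trans hx
  obtain ⟨hL1, hL2⟩ := hlarge x hx2
  have hL0 : 0 < Real.log x := by linarith
  have hLK : 0 < Real.log x ^ K := pow_pos hL0 K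
  have hz0 : (0 : ℝ) ≤ z := Nat.cast_nonneg z
  by_cases hu : Nat.Coprime u d
  · have : NeZero d := ⟨by omega⟩
    have horth := VkClass_orth (z := z) hd hu (fun n => ((Lam n : ℝ) : ℂ) * ee (t * Real.log n))
    have hphi : (0 : ℝ) < d.totient := by exact_mod_cast Nat.totient_pos.2 hd
    have h1 : (d.totient : ℝ) * ‖∑ n ∈ (Icc 1 z).filter (fun n => n % d = u % d),
        ((Lam n : ℝ) : ℂ) * ee (t * Real.log n)‖ ≤ d.totient * (z / Real.log x ^ K) := by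
      have h2 : (d.totient : ℝ) * ‖∑ n ∈ (Icc 1 z).filter (fun n => n % d = u % d),
          ((Lam n : ℝ) : ℂ) * ee (t * Real.log n)‖ =
          ‖(d.totient : ℂ) * ∑ n ∈ (Icc 1 z).filter (fun n => n % d = u % d),
          ((Lam n : ℝ) : ℂ) * ee (t * Real.log n)‖ := by
        rw [norm_mul, Complex.norm_natCast]
      rw [h2, horth]
      have h3 : ∀ χ : DirichletCharacter ℂ d, ‖χ ((u : ZMod d)⁻¹) *
          ∑ n ∈ Icc 1 z, ((Lam n : ℝ) : ℂ) * ee (t * Real.log n) * χ (n : ZMod d)‖ ≤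
          z / Real.log x ^ K := by
        intro χ
        have h4 := hchi x hx1 d χ t z hd hdB hz1 hz2 ht1 ht2
        have h5 : ∑ n ∈ Icc 1 z, ((Lam n : ℝ) : ℂ) * ee (t * Real.log n) * χ (n : ZMod d) =
            ∑ n ∈ Icc 1 z, ((Lam n : ℝ) : ℂ) * χ (n : ZMod d) * ee (t * Real.log n) :=
          sum_congr rfl fun n _ => by ring
        rw [norm_mul, h5]
        calc _ ≤ 1 * ‖∑ n ∈ Icc 1 z, ((Lam n : ℝ) : ℂ) * χ (n : ZMod d) *
              ee (t * Real.log n)‖ :=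
              mul_le_mul_of_nonneg_right (VkClass_norm_char_le χ _) (norm_nonneg _)
          _ ≤ _ := by rw [one_mul]; exact h4
      have h6 : (Finset.univ : Finset (DirichletCharacter ℂ d)).card = d.totient := by
        rw [card_univ, ← Nat.card_eq_fintype_card,
          DirichletCharacter.card_eq_totient_of_hasEnoughRootsOfUnity ℂ d]
      calc _ ≤ ∑ χ : DirichletCharacter ℂ d, ‖χ ((u : ZMod d)⁻¹) *
            ∑ n ∈ Icc 1 z, ((Lam n : ℝ) : ℂ) * ee (t * Real.log n) * χ (n : ZMod d)‖ :=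
            norm_sum_le _ _
        _ ≤ ∑ _χ : DirichletCharacter ℂ d, (z / Real.log x ^ K : ℝ) :=
            sum_le_sum fun χ _ => h3 χ
        _ = _ := by rw [sum_const, h6, nsmul_eq_mul]
    exact le_of_mul_le_mul_left h1 hphi
  · have hz3 : (1 : ℝ) ≤ z := by
      have h1 : (1 : ℝ) ≤ Real.exp (Real.log x ^ t1) :=
        Real.one_le_exp (Real.rpow_nonneg hL0.le _)
      linarith
    have hz4 : 1 ≤ z := by exact_mod_cast hz3
    have h1 := VkClass_noncop (z := z) (d := d) (u := u) hz4 hd hu t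
    have h2 : Real.log z ≤ 2 * Real.log x := by
      have h3 : (z : ℝ) ≤ (x : ℝ) ^ 2 := by exact_mod_cast hz2
      have h4 := Real.log_le_log (by linarith) h3
      rwa [Real.log_pow, Nat.cast_ofNat] at h4
    rw [le_div_iff₀ hLK]
    have hlz : 0 ≤ Real.log z := Real.log_natCast_nonneg z
    calc ‖∑ n ∈ (Icc 1 z).filter (fun n => n % d = u % d),
          ((Lam n : ℝ) : ℂ) * ee (t * Real.log n)‖ * Real.log x ^ K
        ≤ (d * Real.log z) * Real.log x ^ K := mul_le_mul_of_nonneg_right h1 hLK.le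
      _ ≤ (Real.log x ^ B * (2 * Real.log x)) * Real.log x ^ K := by
          refine mul_le_mul_of_nonneg_right ?_ hLK.le
          exact mul_le_mul hdB h2 hlz (pow_nonneg hL0.le B)
      _ = 2 * Real.log x ^ (B + 1 + K) := by rw [pow_add, pow_add]; ring
      _ ≤ Real.exp (Real.log x ^ t1) := hL2
      _ ≤ z := hz1

end Pool.Agent.H76.VKT

end

section

/-!
# VKT: the Vinogradov-Korobov library `Pool.Agent.H97.VK` with parameters

* `vk_exp_t`: exponential sums `∑ (n+β)^{2πit}` over intervals in `[0, K]`, `K ≥ exp((log x)^t0)`, every `t0 ∈ (2/3, 1)`;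
* `vk_class_t`: `∑_{n ≤ z, n ≡ u (d)} Λ(n) n^{2πit}`, `z ≥ exp((log x)^t1)`, every `t1 ∈ (2/3, 1)`, `d ≤ (log x)^B`.
-/

set_option autoImplicit false

namespace Pool.Agent.H76.VKT

open Finset
open Pool.Agent.H91.EHA
open Pool.Agent.H91.PK (ee)

theorem vk_class_t (t1 : ℝ) (h : 2 / 3 < t1) (h1 : t1 < 1) (K B : ℕ) : ∃ K' x0 : ℕ, ∀ x : ℕ, x0 ≤ x →
    ∀ (d u z : ℕ) (t : ℝ), 1 ≤ d → (d : ℝ) ≤ Real.log x ^ B →
    Real.exp (Real.log x ^ t1) ≤ z → z ≤ x ^ 2 → Real.log x ^ K' ≤ |t| → |t| ≤ (x : ℝ) ^ (2 : ℕ) →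
    ‖∑ n ∈ (Icc 1 z).filter (fun n => n % d = u % d), ((Lam n : ℝ) : ℂ) * ee (t * Real.log n)‖ ≤
      z / Real.log x ^ K :=
  @vk_class_w ⟨(2 / 3 + t1) / 2, by linarith, by linarith⟩ t1
    (show (2 / 3 + t1) / 2 < t1 by linarith) K B

end Pool.Agent.H76.VKT

end

section

/-!
# CH Cd0: the decomposition `μ = a + b` adapted to the length `H0`

`sav X H δ = loglog X/log H + (log X)^{δ-1}`.  `Sp A Bd τ ε X H0 a`: (1) `|a n| ≤ 4L` for `1 ≤ n ≤ 4X`; (2) mean squares of `a` cut to `(U, V] ⊆ (X, 4X]` over windows of length `2H`, `H0 ≤ H ≤ X^{1-ε} L^Bd`, at every frequency are `≤ X (2H)^2/L^A`;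
(3) sums of `|μ - a|` over progressions with difference `d ≤ L^Bd` and `H ≥ H0` terms are `≤ H τ`.
Proof.  As `Ch0.lean`, with `D = ⌈exp(min(log H0/13, L^{1-δ/2}))⌉₊`.
-/

set_option autoImplicit false

namespace Pool.Agent.H43.CH

open Finset MeasureTheory
open Pool.Agent.H43.LM (mu Mw)

theorem Cd0_log (c r : ℝ) (hr : 0 < r) : ∀ᶠ L : ℝ in Filter.atTop, c * Real.log L ≤ L ^ r := by
  have hc : (0 : ℝ) < |c| + 1 := by positivity
  have h := (isLittleO_log_rpow_atTop hr).bound (show (0 : ℝ) < 1 / (|c| + 1) by positivity)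
  filter_upwards [h, Filter.eventually_ge_atTop 1] with L h1 h2
  rw [Real.norm_of_nonneg (Real.log_nonneg h2), Real.norm_of_nonneg (by positivity)] at h1
  have h3 : c ≤ |c| + 1 := by linarith [le_abs_self c]
  calc c * Real.log L ≤ (|c| + 1) * Real.log L := mul_le_mul_of_nonneg_right h3 (Real.log_nonneg h2)
    _ ≤ (|c| + 1) * (1 / (|c| + 1) * L ^ r) := mul_le_mul_of_nonneg_left h1 hc.le
    _ = L ^ r := by field_simp

theorem cd0_h (h_msq : msq_P) (A Bd : ℕ) (δ ε : ℝ) (hδ : 0 < δ) (hδ1 : δ < 1) (hε : 0 < ε) (hε1 : ε < 1) : ∃ C : ℝ, 1 ≤ C ∧ ∃ X0 : ℕ, ∀ X : ℕ, X0 ≤ X →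
    ∀ H0 : ℕ, C * Real.log (Real.log X) ≤ Real.log H0 → ∃ a : ℕ → ℝ, Sp A Bd (C * sav X H0 δ) ε X H0 a := by
  have hV : Pool.Agent.H53.MIX.VKw (19 / 20) := fun K B =>
    Pool.Agent.H76.VKT.vk_class_t (19 / 20) (by norm_num) (by norm_num) K B
  obtain ⟨b, κ, X1, hmsq⟩ := h_msq hV (1 - δ / 4) (by linarith) (by linarith) A
  obtain ⟨C, hC0, hdec⟩ := dec_p
  set m : ℕ := b + Bd + 4 with hm
  have hmr : (0 : ℝ) ≤ m := Nat.cast_nonneg _
  refine ⟨13 * (m + 1) * (C + 1), by nlinarith only [hδ, hδ1, hC0], ?_⟩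
  have hev : ∀ᶠ L : ℝ in Filter.atTop, (100 : ℝ) ≤ L ∧ (m : ℝ) * Real.log L ≤ L ^ (1 - δ / 2) ∧ 2 ≤ L ^ (1 - δ / 2)
      ∧ 2 ≤ L ^ (δ / 4) ∧ 221 ≤ Real.log L ∧ ((Bd + κ + 1 : ℕ) / ε : ℝ) * Real.log L ≤ L ^ (1 : ℝ)
      ∧ Real.log L ≤ L ^ (δ / 2) := by
    have t1 := tendsto_rpow_atTop (show 0 < 1 - δ / 2 by linarith)
    have t2 := tendsto_rpow_atTop (show 0 < δ / 4 by linarith)
    filter_upwards [Filter.eventually_ge_atTop 100, Cd0_log m (1 - δ / 2) (by linarith), t1.eventually_ge_atTop 2,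
      t2.eventually_ge_atTop 2, Real.tendsto_log_atTop.eventually_ge_atTop 221, Cd0_log ((Bd + κ + 1 : ℕ) / ε : ℝ) 1 one_pos,
      Cd0_log 1 (δ / 2) (by linarith)] with L h1 h2 h3 h4 h5 h6 h7
    rw [one_mul] at h7
    exact ⟨h1, h2, h3, h4, h5, h6, h7⟩
  have htend : Filter.Tendsto (fun X : ℕ => Real.log X) Filter.atTop Filter.atTop :=
    Real.tendsto_log_atTop.comp tendsto_natCast_atTop_atTop
  obtain ⟨X2, hX2⟩ := Filter.eventually_atTop.1 (htend.eventually hev)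
  refine ⟨max (max X1 X2) 4, ?_⟩
  intro X hX H0 hH0
  have hXX1 : X1 ≤ X := (le_max_left _ _).trans ((le_max_left _ _).trans hX)
  have hX4 : 4 ≤ X := (le_max_right _ _).trans hX
  obtain ⟨hL, e2, e3, e4, e5, e6, e7⟩ := hX2 X ((le_max_right _ _).trans ((le_max_left _ _).trans hX))
  have hXr : (4 : ℝ) ≤ X := by exact_mod_cast hX4
  have hX0 : (0 : ℝ) < X := by linarith only [hδ, hδ1, hXr]
  have hXpow : ∀ r : ℝ, (X : ℝ) ^ r = Real.exp (Real.log X * r) := fun r => Real.rpow_def_of_pos hX0 r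
  set L : ℝ := Real.log X with hLdef
  have hL0 : (0 : ℝ) < L := by linarith only [hδ, hδ1, hL]
  have hL1 : (1 : ℝ) ≤ L := by linarith only [hδ, hδ1, hL]
  set ℓ : ℝ := Real.log L with hℓ
  have hℓ0 : 0 < ℓ := by linarith only [hδ, hδ1, e5]
  set h0 : ℝ := Real.log H0 with hh0
  -- the length `H0` is large
  have hCC : 13 * ((m : ℝ) + 1) ≤ 13 * (m + 1) * (C + 1) := by nlinarith only [hC0]
  have hh1 : 13 * ((m : ℝ) + 1) * ℓ ≤ h0 := le_trans (mul_le_mul_of_nonneg_right hCC hℓ0.le) hH0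
  have hh2 : 13 * ℓ ≤ h0 := by nlinarith only [hh1, e5]
  have hh3 : (m : ℝ) * ℓ ≤ h0 / 13 := by
    rw [le_div_iff₀ (by norm_num)]
    nlinarith only [hδ, hδ1, e5, hh1]
  have hh0pos : 0 < h0 := by linarith only [hδ, hδ1, e5, hh2]
  have hH0pos : (0 : ℝ) < H0 := by
    rcases Nat.eq_zero_or_pos H0 with h | h
    · exfalso
      rw [hh0, h, Nat.cast_zero, Real.log_zero] at hh0pos
      exact lt_irrefl _ hh0pos
    · exact_mod_cast h
  have hH0e : Real.exp h0 = H0 := Real.exp_log hH0pos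
  set l0 : ℝ := L ^ (1 - δ / 2) with hl0
  set l1 : ℝ := L ^ (1 - δ / 4) with hl1
  have hl01 : l1 = l0 * L ^ (δ / 4) := by
    rw [hl0, hl1, ← Real.rpow_add hL0]
    congr 1
    ring
  have f1 : l0 + 2 ≤ l1 := by
    rw [hl01]
    nlinarith only [e4, e3, hδ, hδ1]
  have hl1pos : 0 < l1 := by linarith only [hδ, hδ1, e3, f1]
  have f3 : l1 ≤ L := by
    rw [hl1]
    calc L ^ (1 - δ / 4) ≤ L ^ (1 : ℝ) := Real.rpow_le_rpow_of_exponent_le hL1 (by linarith only [hδ])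
      _ = L := Real.rpow_one L
  set lD : ℝ := min (h0 / 13) l0 with hlD
  have hlD1 : lD ≤ h0 / 13 := min_le_left _ _
  have hlD2 : lD ≤ l0 := min_le_right _ _
  have hlD3 : 2 ≤ lD := le_min (by rw [le_div_iff₀ (by norm_num)]; linarith only [hδ, hδ1, e5, hh2]) e3
  have hlD4 : (m : ℝ) * ℓ ≤ lD := le_min hh3 e2
  -- powers of `L`
  have hLpow : ∀ k : ℕ, L ^ k = Real.exp (k * Real.log L) := by
    intro k
    rw [← Real.rpow_natCast, Real.rpow_def_of_pos hL0]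
    congr 1
    ring
  set P1 : ℕ := ⌈L ^ m⌉₊ with hP1
  set W : ℕ := ⌈L ^ 3⌉₊ with hW
  set D : ℕ := ⌈Real.exp lD⌉₊ with hD
  have hP1ge : L ^ m ≤ P1 := Nat.le_ceil _
  have hWge : L ^ 3 ≤ W := Nat.le_ceil _
  have hDge : Real.exp lD ≤ D := Nat.le_ceil _
  have hLm1 : (1 : ℝ) ≤ L ^ m := one_le_pow₀ hL1
  have hL31 : (100 : ℝ) ≤ L ^ 3 := by
    calc (100 : ℝ) ≤ L := hL
      _ = L ^ 1 := (pow_one L).symm
      _ ≤ L ^ 3 := pow_le_pow_right₀ hL1 (by norm_num)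
  have hP1le : (P1 : ℝ) ≤ 2 * L ^ m := by
    have := Nat.ceil_lt_add_one (show (0 : ℝ) ≤ L ^ m by positivity)
    rw [← hP1] at this
    linarith only [hLm1, this]
  have hWle : (W : ℝ) ≤ 2 * L ^ 3 := by
    have := Nat.ceil_lt_add_one (show (0 : ℝ) ≤ L ^ 3 by positivity)
    rw [← hW] at this
    linarith only [hδ, hδ1, hL31, this]
  have hexp1 : (1 : ℝ) ≤ Real.exp lD := by
    have := Real.add_one_le_exp lD
    linarith only [hδ, hδ1, hlD3, this]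
  have hDle : (D : ℝ) ≤ 2 * Real.exp lD := by
    have := Nat.ceil_lt_add_one (show (0 : ℝ) ≤ Real.exp lD by positivity)
    rw [← hD] at this
    linarith only [hexp1, this]
  have hW2 : 2 ≤ W := by
    have : (2 : ℝ) ≤ W := by linarith only [hδ, hδ1, hWge, hL31]
    exact_mod_cast this
  have hWP : W ≤ P1 := Nat.ceil_mono (pow_le_pow_right₀ hL1 (by omega))
  have hPD : P1 ≤ D := by
    refine Nat.ceil_mono ?_
    rw [hLpow m]
    exact Real.exp_le_exp.2 hlD4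
  obtain ⟨Q, J, hQ0, hQm, hQ2, hQW, hDQ, hQD, hJ⟩ := blk W P1 D hW2 hWP hPD
  have hQmono : Monotone Q := hQm.monotone
  have hQ01 : 2 ≤ Q 0 := by
    rw [hQ0]
    omega
  have hDr : (0 : ℝ) < D := by linarith only [hδ, hδ1, hDge, hexp1]
  have hD2 : (2 : ℝ) ≤ D := by
    have : 2 ≤ D := by omega
    exact_mod_cast this
  have hQJr : (D : ℝ) ≤ Q J := by exact_mod_cast hDQ
  have hQJ0 : (0 : ℝ) < Q J := by linarith only [hδ, hδ1, hD2, hQJr]
  have h4e : (4 : ℝ) ≤ Real.exp 2 := by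
    have h3 := Real.add_one_le_exp (1 : ℝ)
    have h4 : Real.exp 2 = Real.exp 1 * Real.exp 1 := by rw [← Real.exp_add]; norm_num
    rw [h4]
    nlinarith only [h3]
  have hQJle' : (Q J : ℝ) ≤ Real.exp (lD + 2) := by
    have h1 : (Q J : ℝ) ≤ 2 * D := by exact_mod_cast hQD
    calc (Q J : ℝ) ≤ 2 * (2 * Real.exp lD) := by linarith only [hDle, h1]
      _ = 4 * Real.exp lD := by ring
      _ ≤ Real.exp 2 * Real.exp lD := mul_le_mul_of_nonneg_right h4e (by positivity)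
      _ = Real.exp (lD + 2) := by rw [← Real.exp_add]; congr 1; ring
  have hQJle : (Q J : ℝ) ≤ Real.exp l1 := hQJle'.trans (Real.exp_le_exp.2 (by linarith only [f1, hlD2]))
  have hlogQJ : Real.log (Q J) ≤ l1 := (Real.log_le_iff_le_exp hQJ0).2 hQJle
  have hlogQJ' : lD ≤ Real.log (Q J) := by
    rw [← Real.log_exp lD]
    exact Real.log_le_log (Real.exp_pos _) (hDge.trans hQJr)
  have hlogD : Real.log D ≤ Real.log (Q J) := Real.log_le_log hDr hQJr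
  have hlogD0 : 0 ≤ Real.log D := Real.log_nonneg (by linarith only [hδ, hδ1, hD2])
  have hJ5 : (J : ℝ) ≤ L ^ 5 := by
    have h1 : 2 * (W : ℝ) * Real.log D ≤ 2 * (2 * L ^ 3) * L := by
      have g1 : Real.log D ≤ L := hlogD.trans (hlogQJ.trans f3)
      have g2 : 2 * (W : ℝ) ≤ 2 * (2 * L ^ 3) := by linarith only [hWle]
      exact mul_le_mul g2 g1 hlogD0 (by positivity)
    have h2 : L ^ 5 = L ^ 4 * L := by ring
    have h3 : (1 : ℝ) ≤ L ^ 4 := one_le_pow₀ hL1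
    have h4 : 2 * (2 * L ^ 3) * L = 4 * L ^ 4 := by ring
    rw [h2]
    nlinarith only [hL31, hWle, hJ, f3, hlogQJ, hlogD, hL, hδ, hδ1, h1]
  have hQJ12 : (Q J : ℝ) ^ 12 ≤ H0 := by
    rw [← hH0e]
    calc (Q J : ℝ) ^ 12 ≤ Real.exp (lD + 2) ^ 12 := pow_le_pow_left₀ hQJ0.le hQJle' 12
      _ = Real.exp (12 * (lD + 2)) := by rw [← Real.exp_nat_mul]; norm_num
      _ ≤ Real.exp h0 := by
          refine Real.exp_le_exp.2 ?_
          linarith only [hδ, hδ1, e5, hh2, hlD1]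
  refine ⟨AN Q J, ?_, ?_, ?_⟩
  · -- bd
    intro n hn1 hn2
    have g1 := AN_le Q J n hQmono (by omega) (by omega)
    have g2 : Real.log n ≤ Real.log ((X : ℝ) ^ 2) := by
      refine Real.log_le_log (by exact_mod_cast hn1) ?_
      have g3 : (n : ℝ) ≤ 4 * X := by exact_mod_cast hn2
      nlinarith only [g3, hXr]
    rw [Real.log_pow] at g2
    push_cast at g2
    linarith only [g1, g2]
  · -- ms
    intro U V H α hU hVV hHl hHu
    have hHlr : (H0 : ℝ) ≤ H := by exact_mod_cast hHl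
    have h2H : (Q J : ℝ) ^ 12 ≤ 2 * (H : ℝ) := by linarith only [hH0pos, hQJ12, hHlr]
    have h2X : 2 * (H : ℝ) ≤ X / L ^ κ := by
      rw [le_div_iff₀ (by positivity)]
      have g1 : 2 * L ^ (Bd + κ) ≤ (X : ℝ) ^ ε := by
        rw [hXpow ε]
        calc 2 * L ^ (Bd + κ) ≤ L * L ^ (Bd + κ) := mul_le_mul_of_nonneg_right (by linarith only [hδ, hδ1, hL]) (by positivity)
          _ = L ^ (Bd + κ + 1) := by ring
          _ = Real.exp (((Bd + κ + 1 : ℕ) : ℝ) * Real.log L) := hLpow _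
          _ ≤ Real.exp (Real.log X * ε) := by
              refine Real.exp_le_exp.2 ?_
              rw [Real.rpow_one] at e6
              have g2 := mul_le_mul_of_nonneg_left e6 hε.le
              have g3 : ε * (((Bd + κ + 1 : ℕ) / ε : ℝ) * Real.log L) = ((Bd + κ + 1 : ℕ) : ℝ) * Real.log L := by
                field_simp
              rw [g3] at g2
              linarith only [g2]
      calc 2 * (H : ℝ) * L ^ κ ≤ 2 * ((X : ℝ) ^ (1 - ε) * L ^ Bd) * L ^ κ :=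
            mul_le_mul_of_nonneg_right (by linarith only [hHu]) (by positivity)
        _ = (X : ℝ) ^ (1 - ε) * (2 * L ^ (Bd + κ)) := by rw [pow_add]; ring
        _ ≤ (X : ℝ) ^ (1 - ε) * (X : ℝ) ^ ε := mul_le_mul_of_nonneg_left g1 (by positivity)
        _ = X := by rw [← Real.rpow_add hX0, show 1 - ε + ε = (1 : ℝ) by ring, Real.rpow_one]
    have hb : L ^ b ≤ Q 0 := by
      rw [hQ0]
      exact (pow_le_pow_right₀ hL1 (by omega)).trans hP1ge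
    exact hmsq X hXX1 Q J U V (2 * H) α hb hQmono hQ2 hQJle hJ5 h2H h2X hU hVV
  · -- sv
    intro d n0 q0 H hd1 hdL hHl
    have hHlr : (H0 : ℝ) ≤ H := by exact_mod_cast hHl
    have g1 : ∑ q ∈ Ioc q0 (q0 + H), |mu (n0 + d * q) - AN Q J (n0 + d * q)|
        ≤ ∑ q ∈ Ioc q0 (q0 + H), erN Q J (n0 + d * q) := by
      refine sum_le_sum fun q hq => dec_n Q J _ hQmono (by omega) ?_
      have hq1 : 1 ≤ q := by
        have := (mem_Ioc.1 hq).1
        omega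
      have : 1 ≤ d * q := Nat.mul_pos hd1 hq1
      omega
    have hJ4 : (J : ℝ) ≤ 4 * W * Real.log (Q J) := by
      have h1 : 2 * (W : ℝ) * Real.log D ≤ 2 * W * Real.log (Q J) :=
        mul_le_mul_of_nonneg_left hlogD (by positivity)
      have h2 : (1 : ℝ) ≤ 2 * W * Real.log (Q J) := by
        have h3 : (2 : ℝ) ≤ W := by exact_mod_cast hW2
        have h4 : (2 : ℝ) ≤ Real.log (Q J) := hlD3.trans hlogQJ'
        nlinarith only [hδ, hδ1, hWge, hL31, hlD3, hlogQJ']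
      linarith only [hJ, h1, h2]
    have hlogQJ0 : 0 ≤ Real.log (Q J) := by linarith only [hδ, hδ1, hlD3, hlogQJ']
    have hW3 : Real.log (Q J) ^ 3 ≤ W :=
      (pow_le_pow_left₀ hlogQJ0 (hlogQJ.trans f3) 3).trans hWge
    have hLP : L ≤ Q 0 := by
      rw [hQ0]
      calc L = L ^ 1 := (pow_one L).symm
        _ ≤ L ^ m := pow_le_pow_right₀ hL1 (by omega)
        _ ≤ P1 := hP1ge
    have hdP : d ≤ Q 0 := by
      have : (d : ℝ) ≤ Q 0 := by
        rw [hQ0]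
        exact hdL.trans ((pow_le_pow_right₀ hL1 (by omega)).trans hP1ge)
      exact_mod_cast this
    have hQ4 : Q J ^ 4 ≤ H := by
      have h1 : (Q J : ℝ) ^ 4 ≤ H := by
        refine le_trans ?_ (hQJ12.trans hHlr)
        exact pow_le_pow_right₀ (by linarith only [hδ, hδ1, hD2, hQJr]) (by norm_num)
      exact_mod_cast h1
    have g2 := hdec Q J W d n0 q0 H hQ01 hQmono (by omega) (fun j _ => hQW j) hJ4 hW3
      ((hlogQJ.trans f3).trans hLP) hd1 hdP hQ4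
    refine g1.trans (g2.trans ?_)
    have hlogQ0 : Real.log (Q 0) ≤ (m + 1) * ℓ := by
      rw [hQ0]
      have h1 : (P1 : ℝ) ≤ L ^ (m + 1) := by
        calc (P1 : ℝ) ≤ 2 * L ^ m := hP1le
          _ ≤ L * L ^ m := mul_le_mul_of_nonneg_right (by linarith only [hδ, hδ1, hL]) (by positivity)
          _ = L ^ (m + 1) := by ring
      have h2 := Real.log_le_log (by linarith only [hδ, hδ1, hP1ge, hLm1] : (0 : ℝ) < P1) h1
      rw [Real.log_pow] at h2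
      push_cast at h2
      exact h2
    have hlDpos : 0 < lD := by linarith only [hδ, hδ1, hlD3]
    have hl0pos : 0 < l0 := by linarith only [hδ, hδ1, e3]
    -- `ℓ/lD ≤ 13 ℓ/h0 + ℓ/l0 ≤ 13 sav`
    have hr0 : l0 = L ^ (1 - δ) * L ^ (δ / 2) := by
      rw [hl0, ← Real.rpow_add hL0]
      congr 1
      ring
    have hp1 : 0 < L ^ (1 - δ) := Real.rpow_pos_of_pos hL0 _
    have hp2 : 0 < L ^ (δ / 2) := Real.rpow_pos_of_pos hL0 _
    have hs1 : ℓ / l0 ≤ L ^ (δ - 1) := by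
      have h1 : L ^ (δ - 1) = 1 / L ^ (1 - δ) := by
        rw [show δ - 1 = -(1 - δ) by ring, Real.rpow_neg hL0.le, one_div]
      rw [h1, hr0, div_le_div_iff₀ (by positivity) hp1]
      nlinarith only [hδ, hδ1, e7, hp1]
    have hs2 : ℓ / lD ≤ 13 * sav X H0 δ := by
      have h1 : (0 : ℝ) ≤ L ^ (δ - 1) := (Real.rpow_pos_of_pos hL0 _).le
      have h2 : 0 ≤ ℓ / h0 := by positivity
      unfold sav
      rw [← hLdef, ← hℓ, ← hh0]
      rcases min_choice (h0 / 13) l0 with h | h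
      · rw [hlD, h]
        have h3 : ℓ / (h0 / 13) = 13 * (ℓ / h0) := by field_simp
        rw [h3]
        linarith only [h1]
      · rw [hlD, h]
        linarith only [hs1, h1, h2]
    have hsav0 : 0 ≤ sav X H0 δ := by
      have h1 : 0 ≤ ℓ / lD := by positivity
      linarith only [hs2, h1]
    calc C * H * Real.log (Q 0) / Real.log (Q J)
        ≤ C * H * ((m + 1) * ℓ) / lD := by
          have h1 : C * H * Real.log (Q 0) ≤ C * H * ((m + 1) * ℓ) :=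
            mul_le_mul_of_nonneg_left hlogQ0 (by positivity)
          have h2 : 0 ≤ C * H * ((m + 1) * ℓ) := by positivity
          exact div_le_div₀ h2 h1 hlDpos hlogQJ'
      _ = (C * (m + 1) * H) * (ℓ / lD) := by ring
      _ ≤ (C * (m + 1) * H) * (13 * sav X H0 δ) := mul_le_mul_of_nonneg_left hs2 (by positivity)
      _ = H * (13 * (m + 1) * C * sav X H0 δ) := by ring
      _ ≤ H * (13 * (m + 1) * (C + 1) * sav X H0 δ) := by
          refine mul_le_mul_of_nonneg_left ?_ (Nat.cast_nonneg _)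
          refine mul_le_mul_of_nonneg_right ?_ hsav0
          nlinarith only [hδ, hδ1]

end Pool.Agent.H43.CH

end
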