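import Pool.Agent.H43.PS.M09
import Pool.Agent.H43.PS.M12

/-! The parts of this file: H43.CH.LvR, H43.CH.LvT, H43.CH.LvB. -/

section

/-!
# CH LvR: large values of the class sums of the Möbius function (recursion)

Adaptation of `Pool.Agent.H76.MU.lvm` (file `H76/MU/LmR.lean`, 483 lines) with `SU c u` (all `u` prime to `c`) in place of `SL j P J`, `logsumc` in place of `logsum`; note that here only `y ≥ x^{4/5}` is claimed, with the
bound `y/L^K` (this is what CLAIM(I) there gives).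
-/

set_option autoImplicit false

namespace Pool.Agent.H43.CH

open Finset MeasureTheory
open Pool.Agent.H91.PK (ee)
open Pool.Agent.H53.MIX (VKw)
open Pool.Agent.H76.MU (nrm BS)
open Pool.Agent.H76.MU (nrm_nonneg nrm_mul nrm_sum nrm_add nrm_hm norm_ee log_pow_le exp_pow_le log_ge)
open Pool.Agent.H43.LM (mu mu_abs_le)

/-- the sum with the weight `log m` -/
noncomputable def LvR_W (a : ℕ → ℝ) (n : ℕ) (t : ℝ) : ℂ :=
  ∑ m ∈ Icc 1 n, ((a m * Real.log m : ℝ) : ℂ) * ee (t * Real.log m)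

/-- the sum without the weight -/
noncomputable def LvR_S (a : ℕ → ℝ) (n : ℕ) (t : ℝ) : ℂ :=
  ∑ m ∈ Icc 1 n, ((a m : ℝ) : ℂ) * ee (t * Real.log m)

theorem LvR_contW (a : ℕ → ℝ) (n : ℕ) : Continuous (LvR_W a n) :=
  Pool.Agent.H76.MU.cont_poly (Icc 1 n) (fun m => ((a m * Real.log m : ℝ) : ℂ))

theorem LvR_contS (a : ℕ → ℝ) (n : ℕ) : Continuous (LvR_S a n) :=
  Pool.Agent.H76.MU.cont_poly (Icc 1 n) (fun m => ((a m : ℝ) : ℂ))

/-- Abel summation -/
theorem LvR_abel (a : ℕ → ℝ) (y0 y : ℕ) (t : ℝ) (hy0 : 2 ≤ y0) (hy : y0 ≤ y) :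
    LvR_S a y t = LvR_S a y0 t + (((1 / Real.log y : ℝ) : ℂ) * LvR_W a y t +
      (((-(1 / Real.log y0) : ℝ) : ℂ) * LvR_W a y0 t +
        ∑ k ∈ Ico y0 y, ((1 / Real.log k - 1 / Real.log ((k : ℝ) + 1) : ℝ) : ℂ) * LvR_W a k t)) := by
  induction y, hy using Nat.le_induction with
  | base =>
    simp only [Finset.Ico_self, Finset.sum_empty]
    push_cast
    ring
  | succ n hn ih =>
    rw [Finset.sum_Ico_succ_top hn]
    have hW : LvR_W a (n + 1) t = LvR_W a n t +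
        ((a (n + 1) * Real.log ((n + 1 : ℕ) : ℝ) : ℝ) : ℂ) * ee (t * Real.log ((n + 1 : ℕ) : ℝ)) := by
      unfold LvR_W
      rw [Finset.sum_Icc_succ_top (by omega)]
    have hS : LvR_S a (n + 1) t = LvR_S a n t +
        ((a (n + 1) : ℝ) : ℂ) * ee (t * Real.log ((n + 1 : ℕ) : ℝ)) := by
      unfold LvR_S
      rw [Finset.sum_Icc_succ_top (by omega)]
    have hlog : Real.log ((n + 1 : ℕ) : ℝ) ≠ 0 := by
      apply Real.log_ne_zero_of_pos_of_ne_one
      · positivity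
      · have : (3 : ℝ) ≤ ((n + 1 : ℕ) : ℝ) := by exact_mod_cast (by omega : 3 ≤ n + 1)
        linarith only [this]
    have hlogC : ((Real.log ((n : ℝ) + 1) : ℝ) : ℂ) ≠ 0 := by
      have : Real.log ((n : ℝ) + 1) ≠ 0 := by
        have h := hlog
        push_cast at h
        exact h
      exact_mod_cast this
    rw [hS, ih, hW]
    push_cast
    field_simp
    ring

theorem LvR_key (η T : ℝ) (B : Set ℝ) (hB : BS η T B) (a : ℕ → ℝ) (y0 y : ℕ) (M : ℝ) (hy0 : 2 ≤ y0)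
    (hy : y0 ≤ y) (hM : ∀ n, y0 ≤ n → n ≤ y → nrm B (LvR_W a n) ≤ M) :
    nrm B (LvR_S a y) ≤ nrm B (LvR_S a y0) + 2 / Real.log y0 * M := by
  have hlogpos : ∀ k : ℕ, 2 ≤ k → 0 < Real.log (k : ℝ) := fun k hk =>
    Real.log_pos (by exact_mod_cast (by omega : 1 < k))
  have hM0 : 0 ≤ M := (nrm_nonneg _ _).trans (hM y0 le_rfl hy)
  have hfun : LvR_S a y = fun t => LvR_S a y0 t + (((1 / Real.log y : ℝ) : ℂ) * LvR_W a y t +
      (((-(1 / Real.log y0) : ℝ) : ℂ) * LvR_W a y0 t +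
        ∑ k ∈ Ico y0 y, ((1 / Real.log k - 1 / Real.log ((k : ℝ) + 1) : ℝ) : ℂ) * LvR_W a k t)) := by
    funext t
    exact LvR_abel a y0 y t hy0 hy
  have hc : ∀ (c : ℝ) (n : ℕ), Continuous (fun t : ℝ => ((c : ℝ) : ℂ) * LvR_W a n t) :=
    fun c n => continuous_const.mul (LvR_contW a n)
  have hcs : Continuous (fun t : ℝ => ∑ k ∈ Ico y0 y,
      ((1 / Real.log k - 1 / Real.log ((k : ℝ) + 1) : ℝ) : ℂ) * LvR_W a k t) :=
    continuous_finsetSum _ fun k _ => hc _ k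
  have hmul : ∀ (c C : ℝ) (n : ℕ), |c| ≤ C → 0 ≤ C → y0 ≤ n → n ≤ y →
      nrm B (fun t : ℝ => ((c : ℝ) : ℂ) * LvR_W a n t) ≤ C * M := by
    intro c C n hcC hC h1 h2
    refine (nrm_mul η T B hB (LvR_W a n) (fun _ => ((c : ℝ) : ℂ)) C (LvR_contW a n)
      continuous_const (fun t _ => ?_) hC).trans ?_
    · rw [Complex.norm_real, Real.norm_eq_abs]; exact hcC
    · exact mul_le_mul_of_nonneg_left (hM n h1 h2) hC
  have hw : ∀ k : ℕ, 2 ≤ k → 1 / Real.log ((k : ℝ) + 1) ≤ 1 / Real.log k := fun k hk =>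
    one_div_le_one_div_of_le (hlogpos k hk) (Real.log_le_log (by positivity) (by linarith only))
  have hsumw : ∑ k ∈ Ico y0 y, (1 / Real.log (k : ℝ) - 1 / Real.log ((k : ℝ) + 1))
      = 1 / Real.log y0 - 1 / Real.log y := by
    clear hM hfun hcs hmul
    induction y, hy using Nat.le_induction with
    | base => simp
    | succ n hn ih =>
      rw [Finset.sum_Ico_succ_top hn, ih]
      push_cast
      ring
  have h1 : nrm B (fun t : ℝ => ∑ k ∈ Ico y0 y,
      ((1 / Real.log k - 1 / Real.log ((k : ℝ) + 1) : ℝ) : ℂ) * LvR_W a k t)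
      ≤ (1 / Real.log y0 - 1 / Real.log y) * M := by
    refine (nrm_sum η T B hB (Ico y0 y) (fun k t =>
      ((1 / Real.log k - 1 / Real.log ((k : ℝ) + 1) : ℝ) : ℂ) * LvR_W a k t)
      (fun k _ => hc _ k)).trans ?_
    rw [← hsumw, Finset.sum_mul]
    refine Finset.sum_le_sum fun k hk => ?_
    rw [Finset.mem_Ico] at hk
    have := hw k (by omega)
    exact hmul _ _ k (le_of_eq (abs_of_nonneg (by linarith only [this]))) (by linarith only [this]) hk.1 (by omega)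
  have h2 := hmul (1 / Real.log y) (1 / Real.log y) y
    (le_of_eq (abs_of_nonneg (by have := hlogpos y (by omega); positivity)))
    (by have := hlogpos y (by omega); positivity) hy le_rfl
  have h3 := hmul (-(1 / Real.log y0)) (1 / Real.log y0) y0
    (le_of_eq (by rw [abs_neg]; exact abs_of_nonneg (by have := hlogpos y0 hy0; positivity)))
    (by have := hlogpos y0 hy0; positivity) le_rfl hy
  have h4 := nrm_add η T B hB (fun t => ((-(1 / Real.log y0) : ℝ) : ℂ) * LvR_W a y0 t)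
    (fun t => ∑ k ∈ Ico y0 y,
      ((1 / Real.log k - 1 / Real.log ((k : ℝ) + 1) : ℝ) : ℂ) * LvR_W a k t) (hc _ _) hcs
  have h5 := nrm_add η T B hB (fun t => ((1 / Real.log y : ℝ) : ℂ) * LvR_W a y t)
    (fun t => ((-(1 / Real.log y0) : ℝ) : ℂ) * LvR_W a y0 t + ∑ k ∈ Ico y0 y,
      ((1 / Real.log k - 1 / Real.log ((k : ℝ) + 1) : ℝ) : ℂ) * LvR_W a k t) (hc _ _)
    ((hc _ _).add hcs)
  have h6 := nrm_add η T B hB (LvR_S a y0)
    (fun t => ((1 / Real.log y : ℝ) : ℂ) * LvR_W a y t +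
      (((-(1 / Real.log y0) : ℝ) : ℂ) * LvR_W a y0 t + ∑ k ∈ Ico y0 y,
      ((1 / Real.log k - 1 / Real.log ((k : ℝ) + 1) : ℝ) : ℂ) * LvR_W a k t))
    (LvR_contS a y0) ((hc _ _).add ((hc _ _).add hcs))
  rw [← hfun] at h6
  have h7 : 2 / Real.log (y0 : ℝ) * M = (1 / Real.log y) * M + ((1 / Real.log y0) * M +
      (1 / Real.log y0 - 1 / Real.log y) * M) := by ring
  rw [h7]
  linarith only [h1, h2, h3, h4, h5, h6]

/-- the recursion -/
theorem LvR_ind (x K : ℕ) (η T : ℝ) (B : Set ℝ) (hB : BS η T B) (a : ℕ → ℕ → ℝ) (p : ℕ → Prop) (D1 Q : ℕ) (L c : ℝ)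
    (hLx : L = Real.log x) (hx : 1 ≤ x) (hL : 16 ≤ L) (hc0 : 0 ≤ c) (hc : c ≤ 1 / 3)
    (hcL : 12 * L ^ (19 / 20 : ℝ) = c * L)
    (hD1 : 1 ≤ D1) (hQ : 1 ≤ Q) (hQL : L ^ (K + 3) ≤ Q)
    (hS : ∀ (y : ℕ) (ψ : ℝ), (x : ℝ) ^ (3 / 4 : ℝ) ≤ y → y ≤ x → 0 ≤ ψ →
      (∀ j : ℕ, p j → ∀ z : ℕ, (y : ℝ) / (2 * D1) ≤ z → z ≤ y → nrm B (LvR_S (a j) z) ≤ ψ * z) →
      ∀ j : ℕ, p j → nrm B (LvR_W (a j) y) ≤ (2 * L ^ (19 / 20 : ℝ) * ψ + 1 / L ^ (K + 3)) * y)
    (hH : ∀ j : ℕ, p j → ∀ n : ℕ, (x : ℝ) ^ (1 / 20 : ℝ) ≤ n → n ≤ x →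
      nrm B (LvR_S (a j) n) ≤ L * n) (i : ℕ) :
    ∀ j : ℕ, p j → ∀ y : ℕ, (x : ℝ) ^ (3 / 4 : ℝ) * ((4 * D1 * Q : ℕ) : ℝ) ^ i ≤ y → y ≤ x →
      nrm B (LvR_S (a j) y) ≤ (L * c ^ i + 3 / L ^ (K + 2)) * y := by
  have hx1 : (1 : ℝ) ≤ x := by exact_mod_cast hx
  have hL0 : 0 < L := by linarith only [hL]
  have hXX : (x : ℝ) ^ (1 / 20 : ℝ) ≤ (x : ℝ) ^ (3 / 4 : ℝ) :=
    Real.rpow_le_rpow_of_exponent_le hx1 (by norm_num)
  have hX1 : (1 : ℝ) ≤ (x : ℝ) ^ (3 / 4 : ℝ) := Real.one_le_rpow hx1 (by norm_num)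
  induction i with
  | zero =>
    intro j hj y hy hyx
    rw [pow_zero, mul_one] at hy
    have h1 := hH j hj y (hXX.trans hy) hyx
    have h2 : 0 ≤ 3 / L ^ (K + 2) * y := by positivity
    rw [pow_zero]
    nlinarith only [h1, h2]
  | succ i ih =>
    intro j hj y hy hyx
    set X4 : ℝ := (x : ℝ) ^ (3 / 4 : ℝ) with hX4
    set R : ℝ := ((4 * D1 * Q : ℕ) : ℝ) with hR
    have hRe : R = 4 * D1 * Q := by rw [hR]; push_cast; ring
    have hD1' : (1 : ℝ) ≤ D1 := by exact_mod_cast hD1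
    have hQ' : (1 : ℝ) ≤ Q := by exact_mod_cast hQ
    have hR1 : 1 ≤ R := by rw [hRe]; nlinarith only [hD1', hQ']
    have hRi : 1 ≤ R ^ i := one_le_pow₀ hR1
    have hXR : 1 ≤ X4 * R ^ i := by nlinarith only [hX1, hRi]
    -- the natural number `y0`
    have hQy : Q ≤ y := by
      have h1 : (Q : ℝ) ≤ y := by
        refine le_trans ?_ hy
        rw [pow_succ, hRe]
        rw [hRe] at hXR
        have : (Q : ℝ) ≤ 4 * D1 * Q := by nlinarith only [hD1', hQ']
        nlinarith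
      exact_mod_cast h1
    set y0 : ℕ := y / Q with hy0
    have hy01 : 1 ≤ y0 := by
      rw [hy0, Nat.one_le_div_iff (by omega)]
      exact hQy
    have hyy : (y : ℝ) ≤ 2 * Q * y0 := by
      have h1 : y < Q * (y0 + 1) := by
        rw [hy0]
        exact Nat.lt_mul_div_succ y (by omega)
      have h2 : Q * (y0 + 1) ≤ 2 * Q * y0 := by nlinarith only [hy01]
      exact_mod_cast (h1.le.trans h2)
    have hy0y : y0 ≤ y := Nat.div_le_self _ _
    have hy0Q : (y0 : ℝ) * Q ≤ y := by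
      have : y0 * Q ≤ y := Nat.div_mul_le_self y Q
      exact_mod_cast this
    have hbig : X4 * R ^ i * (2 * D1) ≤ y0 := by
      have h1 : X4 * R ^ i * (4 * D1 * Q) ≤ 2 * Q * y0 := by
        refine le_trans ?_ hyy
        refine le_trans (le_of_eq ?_) hy
        rw [pow_succ, ← hRe]; ring
      have h2 : (0 : ℝ) < 2 * Q := by linarith only [hQ']
      have h3 : (2 * Q : ℝ) * (X4 * R ^ i * (2 * D1)) ≤ (2 * Q) * y0 := by
        refine le_trans (le_of_eq ?_) h1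
        ring
      exact le_of_mul_le_mul_left h3 h2
    have hX4y0 : X4 ≤ y0 := by
      refine le_trans ?_ hbig
      have : 1 ≤ R ^ i * (2 * D1) := by nlinarith only [hD1', hRi]
      nlinarith only [hD1', hRi, hX1, this]
    -- the bound for the weighted sums
    set ψ : ℝ := L * c ^ i + 3 / L ^ (K + 2) with hψ
    have hψ0 : 0 ≤ ψ := by positivity
    have hM : ∀ n, y0 ≤ n → n ≤ y →
        nrm B (LvR_W (a j) n) ≤ (2 * L ^ (19 / 20 : ℝ) * ψ + 1 / L ^ (K + 3)) * y := by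
      intro n hn1 hn2
      have hn1' : (y0 : ℝ) ≤ n := by exact_mod_cast hn1
      have hn2' : (n : ℝ) ≤ y := by exact_mod_cast hn2
      refine (hS n ψ (hX4y0.trans hn1') (hn2.trans hyx) hψ0 ?_ j hj).trans ?_
      · intro j' hj' z hz1 hz2
        refine ih j' hj' z ?_ (hz2.trans (hn2.trans hyx))
        refine le_trans ?_ hz1
        rw [le_div_iff₀ (by positivity)]
        exact hbig.trans hn1'
      · exact mul_le_mul_of_nonneg_left hn2' (by positivity)
    have hlogy0 : L / 2 ≤ Real.log y0 := by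
      have h1 : Real.log X4 ≤ Real.log y0 := Real.log_le_log (by linarith only [hX1]) hX4y0
      rw [hX4, Real.log_rpow (by linarith only [hx1]), ← hLx] at h1
      linarith only [hL, h1]
    have hy02 : 2 ≤ y0 := by
      by_contra hcon
      have : y0 = 1 := by omega
      rw [this] at hlogy0
      simp at hlogy0
      linarith only [hL, hlogy0]
    have hkey := LvR_key η T B hB (a j) y0 y _ hy02 hy0y hM
    have hS0 := hH j hj y0 (hXX.trans hX4y0) (hy0y.trans hyx)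
    have hy0' : (0 : ℝ) ≤ y := Nat.cast_nonneg _
    -- first term
    have hLK : 0 < L ^ (K + 2) := by positivity
    have h1 : L * y0 ≤ 1 / L ^ (K + 2) * y := by
      have h2 : (y0 : ℝ) * L ^ (K + 3) ≤ y :=
        (mul_le_mul_of_nonneg_left hQL (Nat.cast_nonneg _)).trans hy0Q
      rw [one_div, inv_mul_eq_div, le_div_iff₀ hLK]
      calc L * y0 * L ^ (K + 2) = y0 * L ^ (K + 3) := by ring
        _ ≤ y := h2
    -- second term
    have h2 : 2 / Real.log y0 ≤ 4 / L := by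
      rw [div_le_div_iff₀ (by linarith only [hL, hlogy0]) hL0]
      linarith only [hlogy0]
    have hMnn : 0 ≤ (2 * L ^ (19 / 20 : ℝ) * ψ + 1 / L ^ (K + 3)) * y := by positivity
    have h3 : 2 / Real.log y0 * ((2 * L ^ (19 / 20 : ℝ) * ψ + 1 / L ^ (K + 3)) * y)
        ≤ 4 / L * ((2 * L ^ (19 / 20 : ℝ) * ψ + 1 / L ^ (K + 3)) * y) :=
      mul_le_mul_of_nonneg_right h2 hMnn
    have h4 : 4 / L * ((2 * L ^ (19 / 20 : ℝ) * ψ + 1 / L ^ (K + 3)) * y)
        = (2 / 3 * c * ψ + 4 / L ^ (K + 4)) * y := by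
      have e1 : L ^ (19 / 20 : ℝ) = c * L / 12 := by linarith only [hcL]
      rw [e1]
      have e2 : L ^ (K + 4) = L * L ^ (K + 3) := by ring
      rw [e2]
      field_simp
      ring
    have h5 : 4 / L ^ (K + 4) ≤ 1 / L ^ (K + 2) := by
      rw [div_le_div_iff₀ (by positivity) hLK]
      have e2 : L ^ (K + 4) = L ^ 2 * L ^ (K + 2) := by ring
      have e3 : (4 : ℝ) ≤ L ^ 2 := by nlinarith only [hL]
      rw [e2, one_mul]
      exact mul_le_mul_of_nonneg_right e3 hLK.le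
    have h6 : c * ψ ≤ L * c ^ (i + 1) + 1 / L ^ (K + 2) := by
      rw [hψ]
      have e1 : c * (L * c ^ i + 3 / L ^ (K + 2)) = L * c ^ (i + 1) + (3 * c) * (1 / L ^ (K + 2)) := by
        ring
      rw [e1]
      have : (3 * c) * (1 / L ^ (K + 2)) ≤ 1 * (1 / L ^ (K + 2)) :=
        mul_le_mul_of_nonneg_right (by linarith only [hc]) (by positivity)
      linarith only [this]
    have h7 : 2 / 3 * c * ψ ≤ c * ψ := by nlinarith only [hc0, hψ0, mul_nonneg hc0 hψ0]
    have h8 : (2 / 3 * c * ψ + 4 / L ^ (K + 4)) * y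
        ≤ (L * c ^ (i + 1) + 1 / L ^ (K + 2) + 1 / L ^ (K + 2)) * y :=
      mul_le_mul_of_nonneg_right (by linarith only [h5, h6, h7]) hy0'
    have e9 : (L * c ^ (i + 1) + 3 / L ^ (K + 2)) * (y : ℝ)
        = 1 / L ^ (K + 2) * y + (L * c ^ (i + 1) + 1 / L ^ (K + 2) + 1 / L ^ (K + 2)) * y := by ring
    rw [e9]
    linarith only [hkey, hS0, h1, h3, h4, h8]

theorem LvR_exp (K : ℕ) (L : ℝ) (hL : 1 ≤ L) (hL2 : 16 * ((2 * K + 8).factorial : ℝ) ≤ L) :
    16 * L ^ (K + 3) ≤ Real.exp (L ^ (19 / 20 : ℝ)) := by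
  have h1 : L ^ (1 / 2 : ℝ) ≤ L ^ (19 / 20 : ℝ) := Real.rpow_le_rpow_of_exponent_le hL (by norm_num)
  have h0 : 0 ≤ L ^ (1 / 2 : ℝ) := by positivity
  have h2 := Real.pow_div_factorial_le_exp (L ^ (1 / 2 : ℝ)) h0 (2 * K + 8)
  have h3 : (L ^ (1 / 2 : ℝ)) ^ (2 * K + 8) = L ^ (K + 4) := by
    rw [← Real.rpow_natCast, ← Real.rpow_mul (by linarith only [hL]), ← Real.rpow_natCast]
    congr 1
    push_cast
    ring
  rw [h3] at h2
  refine le_trans ?_ (h2.trans (Real.exp_le_exp.2 h1))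
  rw [le_div_iff₀ (by positivity)]
  have h4 : 0 ≤ L ^ (K + 3) := by positivity
  calc 16 * L ^ (K + 3) * ((2 * K + 8).factorial : ℝ)
      = (16 * ((2 * K + 8).factorial : ℝ)) * L ^ (K + 3) := by ring
    _ ≤ L * L ^ (K + 3) := mul_le_mul_of_nonneg_right hL2 h4
    _ = L ^ (K + 4) := by ring

theorem LvR_SU (c u y : ℕ) : SU c u y = LvR_S (cl mu c u) y := by
  funext t
  unfold SU LvR_S cl
  rw [Finset.sum_filter]
  refine Finset.sum_congr rfl fun n _ => ?_
  split_ifs <;> simp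

theorem LvR_WU (c u y : ℕ) : (fun t => ∑ n ∈ (Icc 1 y).filter (fun n => n % c = u % c),
    ((mu n * Real.log n : ℝ) : ℂ) * ee (t * Real.log n)) = LvR_W (cl mu c u) y := by
  funext t
  unfold LvR_W cl
  rw [Finset.sum_filter]
  refine Finset.sum_congr rfl fun n _ => ?_
  split_ifs <;> simp

theorem LvR_abs (c u n : ℕ) : |cl mu c u n| ≤ 1 := by
  unfold cl
  split_ifs
  · exact mu_abs_le n
  · simp

theorem lvc_h (h_logsumc : logsumc_P) (hV : VKw (19 / 20)) : ∃ η : ℝ, 0 < η ∧ η ≤ 1 / 10 ∧ ∀ K B : ℕ,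
    ∃ K' x0 : ℕ, ∀ x : ℕ, x0 ≤ x → ∀ (c u y : ℕ) (T : ℝ) (Bs : Set ℝ), 1 ≤ c → (c : ℝ) ≤ Real.log x ^ B →
      Nat.Coprime u c → (x : ℝ) ^ (4 / 5 : ℝ) ≤ y → y ≤ x →
      Real.log x ^ K' ≤ T → T ≤ x → BS η T Bs → nrm Bs (SU c u y) ≤ y / Real.log x ^ K := by
  obtain ⟨η1, hη1, hη1', hls⟩ := h_logsumc hV
  obtain ⟨η2, hη2, hη2', x2, hhm⟩ := nrm_hm
  refine ⟨min η1 η2, lt_min hη1 hη2, (min_le_left _ _).trans hη1', fun K B => ?_⟩
  obtain ⟨K', x1, hls⟩ := hls (K + 3) B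
  set I : ℕ := 40 * (K + 2) with hI
  obtain ⟨x3, hx3⟩ := log_pow_le (3 / 20) 1 (by norm_num) (by norm_num) K
  obtain ⟨x4, hx4⟩ := exp_pow_le (1 / 20) (2 * I) (by norm_num) (by positivity)
  obtain ⟨x5, hx5⟩ := log_ge (max (36 ^ 20) (max (16 * ((2 * K + 8).factorial : ℝ)) (2 * 12 ^ I)))
  refine ⟨K', max 1 (max x1 (max x2 (max x3 (max x4 x5)))), ?_⟩
  intro x hx c u y T Bs hc1 hcB huc hysmall hyx hTL hTx hB
  have hx_1 : 1 ≤ x := (le_max_left _ _).trans hx
  have hx' := (le_max_right _ _).trans hx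
  have hxx1 : x1 ≤ x := (le_max_left _ _).trans hx'
  have hx'' := (le_max_right _ _).trans hx'
  have hxx2 : x2 ≤ x := (le_max_left _ _).trans hx''
  have hx''' := (le_max_right _ _).trans hx''
  have hxx3 : x3 ≤ x := (le_max_left _ _).trans hx'''
  have hx'''' := (le_max_right _ _).trans hx'''
  have hxx4 : x4 ≤ x := (le_max_left _ _).trans hx''''
  have hxx5 : x5 ≤ x := (le_max_right _ _).trans hx''''
  have hlog := hx5 x hxx5
  set L : ℝ := Real.log x with hLdef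
  have hL36 : (36 : ℝ) ^ 20 ≤ L := (le_max_left _ _).trans hlog
  have hL16 : 16 * ((2 * K + 8).factorial : ℝ) ≤ L :=
    (le_max_left _ _).trans ((le_max_right _ _).trans hlog)
  have hL12 : (2 : ℝ) * 12 ^ I ≤ L := (le_max_right _ _).trans ((le_max_right _ _).trans hlog)
  have hL' : (16 : ℝ) ≤ L := le_trans (by norm_num) hL36
  have hL0 : 0 < L := by linarith only [hη1, hη1', hL36]
  have hL1 : 1 ≤ L := by linarith only [hη1, hη1', hL36]
  have hx1 : (1 : ℝ) ≤ x := by exact_mod_cast hx_1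
  have hx0 : (0 : ℝ) < x := by linarith only [hη1, hη1', hx1]
  have hT1 : 1 ≤ T := (one_le_pow₀ hL1).trans hTL
  have hηnn : 0 ≤ min η1 η2 := (lt_min hη1 hη2).le
  set D1 : ℕ := ⌈Real.exp (L ^ (19 / 20 : ℝ))⌉₊ with hD1
  set Q : ℕ := ⌈L ^ (K + 3)⌉₊ with hQ
  have hexp1 : 1 ≤ Real.exp (L ^ (19 / 20 : ℝ)) := Real.one_le_exp (by positivity)
  have hD11 : 1 ≤ D1 := by
    rw [hD1]; exact Nat.one_le_ceil_iff.2 (by positivity)
  have hQ1 : 1 ≤ Q := by
    rw [hQ]; exact Nat.one_le_ceil_iff.2 (by positivity)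
  have hD1le : (D1 : ℝ) ≤ 2 * Real.exp (L ^ (19 / 20 : ℝ)) := by
    have := Nat.ceil_lt_add_one (a := Real.exp (L ^ (19 / 20 : ℝ))) (by positivity)
    rw [← hD1] at this
    linarith only [hexp1, this]
  have hQle : (Q : ℝ) ≤ 2 * L ^ (K + 3) := by
    have h1 := Nat.ceil_lt_add_one (a := L ^ (K + 3)) (by positivity)
    rw [← hQ] at h1
    have h2 : 1 ≤ L ^ (K + 3) := one_le_pow₀ hL1
    linarith only [h1, h2]
  set s : ℝ := L ^ (1 / 20 : ℝ) with hs
  have hs36 : 36 ≤ s := by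
    have h1 : ((36 : ℝ) ^ 20) ^ (1 / 20 : ℝ) ≤ L ^ (1 / 20 : ℝ) :=
      Real.rpow_le_rpow (by positivity) hL36 (by norm_num)
    have h2 : ((36 : ℝ) ^ 20) ^ (1 / 20 : ℝ) = 36 := by
      rw [← Real.rpow_natCast, ← Real.rpow_mul (by norm_num)]
      norm_num
    rw [h2] at h1
    exact h1
  have hs0 : 0 < s := by linarith only [hη1, hη1', hs36]
  have hsL : L ^ (19 / 20 : ℝ) * s = L := by
    rw [hs, ← Real.rpow_add hL0]
    norm_num
  have hspow : s ^ I = L ^ (2 * (K + 2)) := by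
    rw [hs, hI, ← Real.rpow_natCast, ← Real.rpow_mul (by linarith only [hη1, hη1', hL36]), ← Real.rpow_natCast]
    congr 1
    push_cast
    ring
  have hind := LvR_ind x K (min η1 η2) T Bs hB (fun v => cl mu c v) (fun v => Nat.Coprime v c) D1 Q L (12 / s) hLdef hx_1 hL'
    (by positivity)
    (by rw [div_le_div_iff₀ hs0 (by norm_num)]; linarith only [hs36])
    (by rw [div_mul_eq_mul_div, eq_div_iff hs0.ne', mul_assoc, hsL])
    hD11 hQ1 (Nat.le_ceil _)
    (fun y' ψ h1 h2 h3 h4 v hv => by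
      rw [← LvR_WU]
      exact hls x hxx1 c D1 y' T (min η1 η2) ψ Bs hc1 hcB hD1 h1 h2 hTL hTx hηnn (min_le_left _ _) hB h3
        (fun v' hv' z hz1 hz2 => by rw [LvR_SU]; exact h4 v' hv' z hz1 hz2) v hv)
    (fun v _ n h1 h2 => by
      have h3 := hhm x hxx2 n (fun m => ((cl mu c v m : ℝ) : ℂ)) T Bs (min η1 η2) hηnn
        (min_le_right _ _) h1 h2 hT1 hTx hB
      have h4 : ∑ m ∈ Icc 1 n, ‖((cl mu c v m : ℝ) : ℂ)‖ ^ 2 ≤ n := by
        refine (Finset.sum_le_card_nsmul _ _ 1 fun m _ => ?_).trans ?_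
        · rw [Complex.norm_real, Real.norm_eq_abs]
          have h5 := LvR_abs c v m
          have h6 := abs_nonneg (cl mu c v m)
          nlinarith only [h5, hη1, hη1', h6]
        · simp
      have h5 : nrm Bs (LvR_S (cl mu c v) n) ^ 2 ≤ (L * n) ^ 2 := by
        refine h3.trans ?_
        calc (n : ℝ) * L ^ 2 * ∑ m ∈ Icc 1 n, ‖((cl mu c v m : ℝ) : ℂ)‖ ^ 2
            ≤ (n : ℝ) * L ^ 2 * n := mul_le_mul_of_nonneg_left h4 (by positivity)
          _ = (L * n) ^ 2 := by ring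
      exact (pow_le_pow_iff_left₀ (nrm_nonneg _ _) (by positivity) two_ne_zero).1 h5)
    I u huc y ?_ hyx
  · -- conclusion
    have h12 : (12 / s) ^ I = 12 ^ I / L ^ (2 * (K + 2)) := by rw [div_pow, hspow]
    rw [h12] at hind
    have hLK : 0 < L ^ K := by positivity
    have hLK4 : 1 ≤ L ^ (K + 4) := one_le_pow₀ hL1
    have h1 : L * (12 ^ I / L ^ (2 * (K + 2))) ≤ 1 / 2 / L ^ K := by
      rw [mul_div_assoc', div_le_div_iff₀ (by positivity) hLK]
      have e1 : L ^ (2 * (K + 2)) = L ^ K * L ^ (K + 4) := by rw [← pow_add]; congr 1; ring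
      rw [e1]
      have e2 : L ^ (K + 4) = L ^ (K + 2) * (L * L) := by ring
      have e3 : 1 ≤ L ^ (K + 2) := one_le_pow₀ hL1
      have e4 : L * 12 ^ I ≤ 1 / 2 * L ^ (K + 4) := by
        rw [e2]
        have e5 : 1 * (L * L) ≤ L ^ (K + 2) * (L * L) :=
          mul_le_mul_of_nonneg_right e3 (mul_pos hL0 hL0).le
        have e6 : 12 ^ I * L ≤ 1 / 2 * L * L := mul_le_mul_of_nonneg_right (by linarith only [hL12]) hL0.le
        linarith only [e5, e6]
      calc L * 12 ^ I * L ^ K ≤ 1 / 2 * L ^ (K + 4) * L ^ K :=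
            mul_le_mul_of_nonneg_right e4 hLK.le
        _ = 1 / 2 * (L ^ K * L ^ (K + 4)) := by ring
    have h2 : 3 / L ^ (K + 2) ≤ 1 / 2 / L ^ K := by
      rw [div_le_div_iff₀ (by positivity) hLK]
      have e2 : L ^ (K + 2) = L ^ K * (L * L) := by ring
      rw [e2]
      have e3 : 3 ≤ 1 / 2 * (L * L) := by nlinarith only [hη1', hL36, hη1]
      calc 3 * L ^ K ≤ 1 / 2 * (L * L) * L ^ K := mul_le_mul_of_nonneg_right e3 hLK.le
        _ = 1 / 2 * (L ^ K * (L * L)) := by ring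
    have h3 : L * (12 ^ I / L ^ (2 * (K + 2))) + 3 / L ^ (K + 2) ≤ 1 / L ^ K := by
      have : 1 / L ^ K = 1 / 2 / L ^ K + 1 / 2 / L ^ K := by ring
      linarith only [h1, h2, this]
    rw [LvR_SU]
    refine hind.trans ((mul_le_mul_of_nonneg_right h3 (Nat.cast_nonneg _)).trans ?_)
    rw [one_div, inv_mul_eq_div]
  · -- the size of `Y I`
    refine le_trans ?_ hysmall
    have h1 : ((4 * D1 * Q : ℕ) : ℝ) ≤ Real.exp (2 * L ^ (19 / 20 : ℝ)) := by
      push_cast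
      have h2 := LvR_exp K L hL1 hL16
      have h3 : (4 : ℝ) * D1 * Q ≤ 4 * (2 * Real.exp (L ^ (19 / 20 : ℝ))) * (2 * L ^ (K + 3)) := by
        gcongr
      refine h3.trans ?_
      rw [two_mul (L ^ (19 / 20 : ℝ)), Real.exp_add]
      have h4 : 0 < Real.exp (L ^ (19 / 20 : ℝ)) := Real.exp_pos _
      nlinarith only [h2, hη1, hη1', hexp1]
    have h2 : ((4 * D1 * Q : ℕ) : ℝ) ^ I ≤ (x : ℝ) ^ (1 / 20 : ℝ) := by
      refine (pow_le_pow_left₀ (Nat.cast_nonneg _) h1 I).trans ?_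
      rw [← Real.exp_nat_mul]
      refine le_trans (le_of_eq ?_) (hx4 x hxx4)
      congr 1
      ring
    calc (x : ℝ) ^ (3 / 4 : ℝ) * ((4 * D1 * Q : ℕ) : ℝ) ^ I
        ≤ (x : ℝ) ^ (3 / 4 : ℝ) * (x : ℝ) ^ (1 / 20 : ℝ) :=
          mul_le_mul_of_nonneg_left h2 (by positivity)
      _ = (x : ℝ) ^ (4 / 5 : ℝ) := by
          rw [← Real.rpow_add hx0]
          norm_num

end Pool.Agent.H43.CH

end

section

/-!
# CH LvT: the Möbius function with additive characters, large values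

Proof (as part (2) of `H43/LM/SwB.lean`, where the needed identities are private lemmas: `SwB_gcd`, `SwB_ee_mod`; copy them with the sign of `ee` changed): split by `g = gcd(n, c)`, `g ∣ c`, `n = g n'`; only `n'` prime to `c` count
(`mu (g n') = mu g · mu n'` if `gcd(g, n') = 1`, else `0`); `ee(g n' b/c)` depends on `n' mod c` only; `ee(t log n) = ee(t log g) ee(t log n')`:
`ST c b y t = ∑_{g ∣ c} mu g ee(t log g) ∑_{r < c, (r,c) = 1} ee(g r b/c) SU c r (y/g) t`.  `y/g ≥ x^{5/6}/(2 L^B) ≥ x^{4/5}`; `lvc` (`K + 2B`): `nrm ≤ ∑_{g ∣ c} c · (y/g)/L^{K + 2B} ≤ y/L^K`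
(`nrm_sum`, `nrm_mul`; at most `c` divisors).
-/

set_option autoImplicit false

namespace Pool.Agent.H43.CH

open Finset MeasureTheory
open Pool.Agent.H91.PK (ee)
open Pool.Agent.H53.MIX (VKw)
open Pool.Agent.H76.MU (nrm BS nrm_sum nrm_mul nrm_nonneg cont_poly log_pow_le log_ge)
open Pool.Agent.H43.LM (mu mu_abs_le)

private theorem LvT_norm_ee (t : ℝ) : ‖ee t‖ = 1 := by
  unfold Pool.Agent.H91.PK.ee
  have e : 2 * Real.pi * (t : ℂ) * Complex.I = ((2 * Real.pi * t : ℝ) : ℂ) * Complex.I := by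
    push_cast
    ring
  rw [e, Complex.norm_exp_ofReal_mul_I]

private theorem LvT_ee_add (s t : ℝ) : ee (s + t) = ee s * ee t := by
  unfold Pool.Agent.H91.PK.ee
  rw [← Complex.exp_add]
  congr 1
  push_cast
  ring

private theorem LvT_mu_mul {g n : ℕ} (h : Nat.Coprime g n) : mu (g * n) = mu g * mu n := by
  unfold mu
  rw [ArithmeticFunction.isMultiplicative_moebius.map_mul_of_coprime h]
  push_cast
  rfl

private theorem LvT_mu_zero {g n : ℕ} (h : ¬ Nat.Coprime g n) : mu (g * n) = 0 := by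
  unfold mu
  rw [ArithmeticFunction.moebius_eq_zero_of_not_squarefree]
  · norm_num
  · rw [Nat.squarefree_mul_iff]
    tauto

/-- the integers `n` with `gcd(n, c) = g` -/
private theorem LvT_gcd (u c g : ℕ) (hc : 1 ≤ c) (hg : g ∣ c) (ψ : ℕ → ℂ) :
    ∑ n ∈ (Icc 1 u).filter (fun n => Nat.gcd n c = g), (mu n : ℂ) * ψ n =
      (mu g : ℂ) * ∑ n ∈ (Icc 1 (u / g)).filter (fun n => Nat.Coprime n c), (mu n : ℂ) * ψ (g * n) := by
  have hg0 : 0 < g := Nat.pos_of_dvd_of_pos hg (by omega)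
  have hcg : c = g * (c / g) := (Nat.mul_div_cancel' hg).symm
  have e1 : ∑ n ∈ (Icc 1 u).filter (fun n => Nat.gcd n c = g), (mu n : ℂ) * ψ n =
      ∑ n ∈ (Icc 1 (u / g)).filter (fun n => Nat.Coprime n (c / g)), (mu (g * n) : ℂ) * ψ (g * n) := by
    refine Finset.sum_bij' (fun n _ => n / g) (fun n _ => g * n) ?_ ?_ ?_ ?_ ?_
    · intro n hn
      rw [mem_filter, mem_Icc] at hn ⊢
      obtain ⟨⟨h1, h2⟩, h3⟩ := hn
      have hgn : g ∣ n := h3 ▸ Nat.gcd_dvd_left n c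
      refine ⟨⟨Nat.div_pos (Nat.le_of_dvd (by omega) hgn) hg0, Nat.div_le_div_right h2⟩, ?_⟩
      have h4 := Nat.coprime_div_gcd_div_gcd (m := n) (n := c) (by rw [h3]; exact hg0)
      rwa [h3] at h4
    · intro n hn
      rw [mem_filter, mem_Icc] at hn ⊢
      obtain ⟨⟨h1, h2⟩, h3⟩ := hn
      refine ⟨⟨Nat.mul_pos hg0 (by omega), ?_⟩, ?_⟩
      · calc g * n ≤ g * (u / g) := Nat.mul_le_mul_left g h2
          _ ≤ u := Nat.mul_div_le u g
      · rw [hcg, Nat.gcd_mul_left, h3, mul_one]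
    · intro n hn
      rw [mem_filter] at hn
      exact Nat.mul_div_cancel' (hn.2 ▸ Nat.gcd_dvd_left n c)
    · intro n _
      exact Nat.mul_div_cancel_left n hg0
    · intro n hn
      rw [mem_filter] at hn
      rw [Nat.mul_div_cancel' (hn.2 ▸ Nat.gcd_dvd_left n c)]
  rw [e1, Finset.mul_sum, Finset.sum_filter, Finset.sum_filter]
  refine Finset.sum_congr rfl fun n _ => ?_
  by_cases h1 : Nat.Coprime n c
  · have h2 : Nat.Coprime n g := Nat.Coprime.coprime_dvd_right hg h1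
    have h3 : Nat.Coprime n (c / g) := Nat.Coprime.coprime_dvd_right (Nat.div_dvd_of_dvd hg) h1
    rw [if_pos h1, if_pos h3, LvT_mu_mul h2.symm]
    push_cast
    ring
  · rw [if_neg h1]
    by_cases h3 : Nat.Coprime n (c / g)
    · rw [if_pos h3, LvT_mu_zero, Complex.ofReal_zero, zero_mul]
      intro h4
      apply h1
      rw [hcg]
      exact Nat.Coprime.mul_right h4.symm h3
    · rw [if_neg h3]

/-- the additive character depends only on the residue class -/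
private theorem LvT_ee_mod {c n r : ℕ} (g b : ℕ) (hc : 1 ≤ c) (h : n % c = r % c) :
    ee (((g * n : ℕ) : ℝ) * ((b : ℝ) / c)) = ee (((g * r : ℕ) : ℝ) * ((b : ℝ) / c)) := by
  have hc0 : (c : ℝ) ≠ 0 := by exact_mod_cast (by omega : c ≠ 0)
  have h1 : (c : ℤ) ∣ (n : ℤ) - r := by
    have : r ≡ n [MOD c] := h.symm
    exact (Nat.modEq_iff_dvd.mp this)
  obtain ⟨k, hk⟩ := h1
  have h2 : (n : ℝ) = r + c * k := by
    have : ((n : ℤ) : ℝ) = ((r + c * k : ℤ) : ℝ) := by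
      congr 1
      linarith
    push_cast at this
    exact this
  have h3 : ((g * n : ℕ) : ℝ) * ((b : ℝ) / c) = ((g * r : ℕ) : ℝ) * ((b : ℝ) / c) + (((g * b * k) : ℤ) : ℝ) := by
    push_cast
    rw [h2]
    field_simp
  rw [h3]
  unfold Pool.Agent.H91.PK.ee
  set w : ℝ := ((g * r : ℕ) : ℝ) * ((b : ℝ) / c) with hw
  set K : ℤ := g * b * k with hK
  have e : 2 * Real.pi * ((w + (K : ℝ) : ℝ) : ℂ) * Complex.I =
      2 * Real.pi * (w : ℂ) * Complex.I + K * (2 * Real.pi * Complex.I) := by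
    push_cast
    ring
  rw [e, Complex.exp_add, Complex.exp_int_mul_two_pi_mul_I, mul_one]

/-- the integers prime to `c` -/
private theorem LvT_cop (v c g b : ℕ) (hc : 1 ≤ c) (hg : 0 < g) (t : ℝ) :
    ∑ n ∈ (Icc 1 v).filter (fun n => Nat.Coprime n c), (mu n : ℂ) *
        (ee (((g * n : ℕ) : ℝ) * ((b : ℝ) / c)) * ee (t * Real.log ((g * n : ℕ) : ℝ))) =
      ∑ r ∈ (range c).filter (fun r => Nat.Coprime r c),
        (ee (((g * r : ℕ) : ℝ) * ((b : ℝ) / c)) * ee (t * Real.log g)) * SU c r v t := by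
  have hmaps : ∀ n ∈ (Icc 1 v).filter (fun n => Nat.Coprime n c), n % c ∈ (range c).filter (fun r => Nat.Coprime r c) := by
    intro n hn
    rw [mem_filter] at hn ⊢
    refine ⟨mem_range.mpr (Nat.mod_lt n (by omega)), ?_⟩
    have h1 := hn.2
    rw [Nat.coprime_iff_gcd_eq_one, ← Nat.gcd_rec, Nat.gcd_comm] at *
    first
      | exact h1
      | (rw [Nat.gcd_comm]; exact h1)
  rw [← Finset.sum_fiberwise_of_maps_to hmaps]
  refine Finset.sum_congr rfl fun r hr => ?_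
  rw [mem_filter, mem_range] at hr
  have hrc : r % c = r := Nat.mod_eq_of_lt hr.1
  have hset : ((Icc 1 v).filter (fun n => Nat.Coprime n c)).filter (fun n => n % c = r) =
      (Icc 1 v).filter (fun n => n % c = r % c) := by
    rw [Finset.filter_filter]
    refine Finset.filter_congr fun n _ => ?_
    rw [hrc]
    constructor
    · exact fun h => h.2
    · intro h
      refine ⟨?_, h⟩
      have h2 := hr.2
      rw [← h] at h2
      rw [Nat.coprime_iff_gcd_eq_one, ← Nat.gcd_rec, Nat.gcd_comm] at h2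
      exact h2
  rw [hset]
  unfold SU
  rw [Finset.mul_sum]
  refine Finset.sum_congr rfl fun n hn => ?_
  rw [mem_filter, mem_Icc] at hn
  have hn0 : n ≠ 0 := by omega
  rw [LvT_ee_mod g b hc hn.2]
  have h4 : ee (t * Real.log ((g * n : ℕ) : ℝ)) = ee (t * Real.log g) * ee (t * Real.log n) := by
    rw [← LvT_ee_add, ← mul_add, ← Real.log_mul (by exact_mod_cast hg.ne') (by exact_mod_cast hn0), Nat.cast_mul]
  rw [h4]
  ring

/-- the decomposition -/
private theorem LvT_dec (y c b : ℕ) (hc : 1 ≤ c) (t : ℝ) :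
    ST c b y t = ∑ g ∈ c.divisors, ∑ r ∈ (range c).filter (fun r => Nat.Coprime r c),
      ((mu g : ℂ) * (ee (((g * r : ℕ) : ℝ) * ((b : ℝ) / c)) * ee (t * Real.log g))) * SU c r (y / g) t := by
  have hmaps : ∀ n ∈ Icc 1 y, Nat.gcd n c ∈ c.divisors := by
    intro n _
    rw [Nat.mem_divisors]
    exact ⟨Nat.gcd_dvd_right n c, by omega⟩
  unfold ST
  rw [← Finset.sum_fiberwise_of_maps_to hmaps]
  refine Finset.sum_congr rfl fun g hg => ?_
  rw [Nat.mem_divisors] at hg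
  have hg0 : 0 < g := Nat.pos_of_dvd_of_pos hg.1 (by omega)
  have h1 := LvT_gcd y c g hc hg.1 (fun n => ee ((n : ℝ) * ((b : ℝ) / c)) * ee (t * Real.log n))
  simp only [← mul_assoc] at h1 ⊢
  rw [h1]
  have h2 := LvT_cop (y / g) c g b hc hg0 t
  simp only [← mul_assoc] at h2
  rw [h2, Finset.mul_sum]
  refine Finset.sum_congr rfl fun r _ => ?_
  ring

private theorem LvT_cont_SU (c u y : ℕ) : Continuous (SU c u y) := by
  unfold SU
  exact cont_poly _ _

theorem lvt_h (h_lvc : lvc_P) (hV : VKw (19 / 20)) : ∃ η : ℝ, 0 < η ∧ η ≤ 1 / 10 ∧ ∀ K B : ℕ,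
    ∃ K' x0 : ℕ, ∀ x : ℕ, x0 ≤ x → ∀ (c b y : ℕ) (T : ℝ) (Bs : Set ℝ), 1 ≤ c → (c : ℝ) ≤ Real.log x ^ B →
      (x : ℝ) ^ (5 / 6 : ℝ) ≤ y → y ≤ x →
      Real.log x ^ K' ≤ T → T ≤ x → BS η T Bs → nrm Bs (ST c b y) ≤ y / Real.log x ^ K := by
  obtain ⟨η, hη, hη1, H⟩ := h_lvc hV
  refine ⟨η, hη, hη1, fun K B => ?_⟩
  obtain ⟨K', x1, H1⟩ := H (K + 2 * B) B
  obtain ⟨x2, H2⟩ := log_pow_le (1 / 30) 2 (by norm_num) (by norm_num) B
  obtain ⟨x3, H3⟩ := log_ge 1
  refine ⟨K', max (max x1 x2) (max x3 1), fun x hx c b y T Bs hc hcB hy hyx hT hTx hBs => ?_⟩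
  have hx1 : x1 ≤ x := ((le_max_left _ _).trans (le_max_left _ _)).trans hx
  have hx2 : x2 ≤ x := ((le_max_right _ _).trans (le_max_left _ _)).trans hx
  have hx3 : x3 ≤ x := ((le_max_left _ _).trans (le_max_right _ _)).trans hx
  have hx4 : 1 ≤ x := ((le_max_right _ _).trans (le_max_right _ _)).trans hx
  have hL : 1 ≤ Real.log x := H3 x hx3
  have hL0 : 0 < Real.log x := by linarith
  have h30 := H2 x hx2
  have hx' : (1 : ℝ) ≤ x := by exact_mod_cast hx4
  have hx0 : (0 : ℝ) < x := by linarith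
  -- the range
  have hrange : ∀ g : ℕ, 0 < g → g ≤ c → (x : ℝ) ^ (4 / 5 : ℝ) ≤ ((y / g : ℕ) : ℝ) := by
    intro g hg hgc
    have h1 : (y : ℝ) < g * (((y / g : ℕ) : ℝ) + 1) := by
      exact_mod_cast Nat.lt_mul_div_succ y hg
    have h2 : (g : ℝ) ≤ Real.log x ^ B := le_trans (by exact_mod_cast hgc) hcB
    have h3 : (x : ℝ) ^ (5 / 6 : ℝ) = (x : ℝ) ^ (4 / 5 : ℝ) * (x : ℝ) ^ (1 / 30 : ℝ) := by
      rw [← Real.rpow_add hx0]
      norm_num
    have h4 : (1 : ℝ) ≤ (x : ℝ) ^ (4 / 5 : ℝ) := Real.one_le_rpow hx' (by norm_num)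
    have h5 : (0 : ℝ) < Real.log x ^ B := by positivity
    have h6 : (x : ℝ) ^ (4 / 5 : ℝ) * (2 * Real.log x ^ B) ≤ (x : ℝ) ^ (5 / 6 : ℝ) := by
      rw [h3]
      exact mul_le_mul_of_nonneg_left h30 (by positivity)
    have h7 : (g : ℝ) * (((y / g : ℕ) : ℝ) + 1) ≤ Real.log x ^ B * (((y / g : ℕ) : ℝ) + 1) :=
      mul_le_mul_of_nonneg_right h2 (by positivity)
    have h8 : Real.log x ^ B * (2 * (x : ℝ) ^ (4 / 5 : ℝ)) < Real.log x ^ B * (((y / g : ℕ) : ℝ) + 1) := by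
      calc Real.log x ^ B * (2 * (x : ℝ) ^ (4 / 5 : ℝ)) = (x : ℝ) ^ (4 / 5 : ℝ) * (2 * Real.log x ^ B) := by ring
        _ ≤ (x : ℝ) ^ (5 / 6 : ℝ) := h6
        _ ≤ y := hy
        _ < _ := h1
        _ ≤ _ := h7
    have h9 := lt_of_mul_lt_mul_left h8 h5.le
    linarith
  set D : ℝ := y / Real.log x ^ (K + 2 * B) with hD
  have hD0 : 0 ≤ D := by positivity
  -- one term
  have hterm : ∀ g ∈ c.divisors, ∀ r ∈ (range c).filter (fun r => Nat.Coprime r c),
      nrm Bs (fun t => ((mu g : ℂ) * (ee (((g * r : ℕ) : ℝ) * ((b : ℝ) / c)) * ee (t * Real.log g))) * SU c r (y / g) t) ≤ D := by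
    intro g hg r hr
    rw [Nat.mem_divisors] at hg
    rw [mem_filter] at hr
    have hg0 : 0 < g := Nat.pos_of_dvd_of_pos hg.1 (by omega)
    have hgc : g ≤ c := Nat.le_of_dvd (by omega) hg.1
    have h1 := H1 x hx1 c r (y / g) T Bs hc hcB hr.2 (hrange g hg0 hgc) ((Nat.div_le_self y g).trans hyx) hT hTx hBs
    have h2 := nrm_mul η T Bs hBs (SU c r (y / g))
      (fun t => (mu g : ℂ) * (ee (((g * r : ℕ) : ℝ) * ((b : ℝ) / c)) * ee (t * Real.log g))) 1
      (LvT_cont_SU c r (y / g)) (by unfold Pool.Agent.H91.PK.ee; fun_prop) ?_ zero_le_one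
    · refine h2.trans ?_
      rw [one_mul]
      refine h1.trans ?_
      rw [hD]
      refine div_le_div_of_nonneg_right ?_ (by positivity)
      exact_mod_cast Nat.div_le_self y g
    · intro t _
      rw [norm_mul, norm_mul, LvT_norm_ee, LvT_norm_ee, mul_one, mul_one, Complex.norm_real, Real.norm_eq_abs]
      exact mu_abs_le g
  have hcont : ∀ g r : ℕ, Continuous (fun t : ℝ =>
      ((mu g : ℂ) * (ee (((g * r : ℕ) : ℝ) * ((b : ℝ) / c)) * ee (t * Real.log g))) * SU c r (y / g) t) := by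
    intro g r
    refine Continuous.mul ?_ (LvT_cont_SU c r (y / g))
    unfold Pool.Agent.H91.PK.ee
    fun_prop
  have hcR : (0 : ℝ) ≤ c := Nat.cast_nonneg c
  have hcard : (((range c).filter (fun r => Nat.Coprime r c)).card : ℝ) ≤ c := by
    have := card_filter_le (range c) (fun r => Nat.Coprime r c)
    rw [card_range] at this
    exact_mod_cast this
  have hfun : ST c b y = fun t => ∑ g ∈ c.divisors, ∑ r ∈ (range c).filter (fun r => Nat.Coprime r c),
      ((mu g : ℂ) * (ee (((g * r : ℕ) : ℝ) * ((b : ℝ) / c)) * ee (t * Real.log g))) * SU c r (y / g) t := by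
    funext t
    exact LvT_dec y c b hc t
  rw [hfun]
  have hin : ∀ g ∈ c.divisors, nrm Bs (fun t => ∑ r ∈ (range c).filter (fun r => Nat.Coprime r c),
      ((mu g : ℂ) * (ee (((g * r : ℕ) : ℝ) * ((b : ℝ) / c)) * ee (t * Real.log g))) * SU c r (y / g) t) ≤ c * D := by
    intro g hg
    refine (nrm_sum η T Bs hBs _ (fun r t => ((mu g : ℂ) * (ee (((g * r : ℕ) : ℝ) * ((b : ℝ) / c)) *
      ee (t * Real.log g))) * SU c r (y / g) t) (fun r _ => hcont g r)).trans ?_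
    calc _ ≤ ∑ r ∈ (range c).filter (fun r => Nat.Coprime r c), D := Finset.sum_le_sum fun r hr => hterm g hg r hr
      _ = ((range c).filter (fun r => Nat.Coprime r c)).card * D := by rw [Finset.sum_const, nsmul_eq_mul]
      _ ≤ c * D := mul_le_mul_of_nonneg_right hcard hD0
  refine (nrm_sum η T Bs hBs _ (fun g t => ∑ r ∈ (range c).filter (fun r => Nat.Coprime r c),
      ((mu g : ℂ) * (ee (((g * r : ℕ) : ℝ) * ((b : ℝ) / c)) * ee (t * Real.log g))) * SU c r (y / g) t)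
      (fun g _ => continuous_finsetSum _ fun r _ => hcont g r)).trans ?_
  calc _ ≤ ∑ g ∈ c.divisors, (c : ℝ) * D := Finset.sum_le_sum hin
    _ = (c.divisors.card : ℝ) * (c * D) := by rw [Finset.sum_const, nsmul_eq_mul]
    _ ≤ c * (c * D) := by
        refine mul_le_mul_of_nonneg_right ?_ (by positivity)
        exact_mod_cast Nat.card_divisors_le_self c
    _ ≤ Real.log x ^ B * (Real.log x ^ B * D) :=
        mul_le_mul hcB (mul_le_mul_of_nonneg_right hcB hD0) (by positivity) (by positivity)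
    _ = y / Real.log x ^ K := by
        rw [hD]
        have h2 : Real.log x ^ (K + 2 * B) = Real.log x ^ K * (Real.log x ^ B * Real.log x ^ B) := by
          rw [← pow_add, ← pow_add]
          congr 1
          ring
        rw [h2]
        field_simp

end Pool.Agent.H43.CH

end

section

/-!
# CH LvB: the middle range (both factors long), primes in a residue class

Copy of `Pool.Agent.H76.MU.mid` (file `H76/MU/LmB.lean`, 495 lines; the proof uses only `box_dec`, `nrm_hm` and the pointwise bound `ps_vk`): `lam m = if m.Prime ∧ a < m ∧ m ≤ b ∧ m % c = r % c then log m else 0`,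
`psr_vk` in place of `ps_vk`.
-/

set_option autoImplicit false

namespace Pool.Agent.H43.CH

open Finset MeasureTheory
open Pool.Agent.H91.PK (ee)
open Pool.Agent.H53.MIX (VKw)
open Pool.Agent.H76.MU (nrm BS nrm_hm log_ge exp_pow_le cont_poly nrm_mul nrm_sum nrm_add)

private theorem LvB_exp_ge (C : ℝ) (c : ℕ) : ∃ x0 : ℕ, ∀ x : ℕ, x0 ≤ x →
    C * Real.log x ^ c ≤ Real.exp (Real.log x ^ (19 / 20 : ℝ)) := by
  have h0 : Filter.Tendsto (fun x : ℕ => Real.log x ^ (19 / 20 : ℝ)) Filter.atTop Filter.atTop :=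
    (tendsto_rpow_atTop (by norm_num)).comp
      (Real.tendsto_log_atTop.comp (tendsto_natCast_atTop_atTop (R := ℝ)))
  have h1 := (Real.isLittleO_pow_exp_atTop (n := 2 * c)).bound (c := 1 / (|C| + 1)) (by positivity)
  have h2 := h0.eventually (h1.and (Filter.eventually_ge_atTop (1 : ℝ)))
  have h3 := (Real.tendsto_log_atTop.comp (tendsto_natCast_atTop_atTop (R := ℝ))).eventually
    (Filter.eventually_ge_atTop 1)
  obtain ⟨x0, hx0⟩ := Filter.eventually_atTop.1 (h2.and h3)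
  refine ⟨x0, fun x hx => ?_⟩
  obtain ⟨⟨h4, h5⟩, h6⟩ := hx0 x hx
  simp only [Function.comp_apply] at h6
  have hL : 0 < Real.log x := by linarith only [h6]
  rw [Real.norm_eq_abs, Real.norm_eq_abs, abs_of_nonneg (by positivity),
    abs_of_pos (Real.exp_pos _), div_mul_eq_mul_div, one_mul, le_div_iff₀ (by positivity)] at h4
  have h7 : Real.log x ^ c ≤ (Real.log x ^ (19 / 20 : ℝ)) ^ (2 * c) := by
    have e1 : (Real.log x ^ (19 / 20 : ℝ)) ^ (2 * c) = (Real.log x ^ (19 / 10 : ℝ)) ^ c := by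
      rw [pow_mul, ← Real.rpow_natCast (Real.log x ^ (19 / 20 : ℝ)) 2, ← Real.rpow_mul hL.le]
      norm_num
    rw [e1]
    apply pow_le_pow_left₀ hL.le
    calc Real.log x = Real.log x ^ (1 : ℝ) := (Real.rpow_one _).symm
      _ ≤ Real.log x ^ (19 / 10 : ℝ) := Real.rpow_le_rpow_of_exponent_le h6 (by norm_num)
  have h8 : 0 ≤ Real.log x ^ c := by positivity
  calc C * Real.log x ^ c ≤ (|C| + 1) * Real.log x ^ c :=
        mul_le_mul_of_nonneg_right (by linarith only [le_abs_self C]) h8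
    _ ≤ (|C| + 1) * (Real.log x ^ (19 / 20 : ℝ)) ^ (2 * c) :=
        mul_le_mul_of_nonneg_left h7 (by positivity)
    _ = (Real.log x ^ (19 / 20 : ℝ)) ^ (2 * c) * (|C| + 1) := mul_comm _ _
    _ ≤ _ := h4

/-- the coefficients of the primes -/
private noncomputable def LvB_lam (a b c r m : ℕ) : ℝ :=
  if m.Prime ∧ a < m ∧ m ≤ b ∧ m % c = r % c then Real.log m else 0

/-- the coefficients of the cofactors -/
private noncomputable def LvB_cc (Z : ℕ) (w : ℕ → ℝ) (n : ℕ) : ℝ := if Z < n then w n else 0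

private theorem LvB_ee_mul (t : ℝ) (m n : ℕ) (hm : 1 ≤ m) (hn : 1 ≤ n) :
    ee (t * Real.log ((m * n : ℕ) : ℝ)) = ee (t * Real.log m) * ee (t * Real.log n) := by
  have h1 : (m : ℝ) ≠ 0 := by
    have : m ≠ 0 := by omega
    exact_mod_cast this
  have h2 : (n : ℝ) ≠ 0 := by
    have : n ≠ 0 := by omega
    exact_mod_cast this
  rw [← Pool.Agent.H91.PK.LSa_ee_add]
  congr 1
  push_cast
  rw [Real.log_mul h1 h2]
  ring

private theorem LvB_mem (a b c r p : ℕ) :
    p ∈ pIc a b c r ↔ ((a < p ∧ p ≤ b) ∧ p.Prime) ∧ p % c = r % c := by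
  unfold pIc pI
  rw [mem_filter, mem_filter, mem_Ioc]

private theorem LvB_lhs (y Z a b c r U : ℕ) (w : ℕ → ℝ) (t : ℝ) (hUa : U ≤ a) (hUZ : U ≤ Z) :
    ∑ p ∈ pIc a (min b y) c r,
        ((Real.log p : ℝ) : ℂ) * ee (t * Real.log p) *
          ∑ n ∈ Ioc Z (y / p), ((w n : ℝ) : ℂ) * ee (t * Real.log n)
    = ∑ m ∈ Ioc U y, ((LvB_lam a b c r m : ℝ) : ℂ) *
        ∑ n ∈ Ioc U (y / m), ((LvB_cc Z w n : ℝ) : ℂ) * ee (t * Real.log ((m * n : ℕ) : ℝ)) := by
  have hsub : pIc a (min b y) c r ⊆ Ioc U y := by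
    intro p hp
    rw [LvB_mem] at hp
    rw [mem_Ioc]
    have := hp.1.1.2
    have := hp.1.1.1
    have h2 := min_le_right b y
    omega
  rw [← Finset.sum_subset hsub (f := fun m => ((LvB_lam a b c r m : ℝ) : ℂ) *
        ∑ n ∈ Ioc U (y / m), ((LvB_cc Z w n : ℝ) : ℂ) * ee (t * Real.log ((m * n : ℕ) : ℝ)))]
  · apply Finset.sum_congr rfl
    intro p hp
    rw [LvB_mem] at hp
    have hpb : p ≤ b := hp.1.1.2.trans (min_le_left b y)
    have hlam : LvB_lam a b c r p = Real.log p := by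
      unfold LvB_lam
      rw [if_pos ⟨hp.1.2, hp.1.1.1, hpb, hp.2⟩]
    rw [hlam, mul_assoc]
    congr 1
    rw [Finset.mul_sum]
    have hsub2 : Ioc Z (y / p) ⊆ Ioc U (y / p) := Finset.Ioc_subset_Ioc_left hUZ
    rw [← Finset.sum_subset hsub2 (f := fun n => ((LvB_cc Z w n : ℝ) : ℂ) *
      ee (t * Real.log ((p * n : ℕ) : ℝ)))]
    · apply Finset.sum_congr rfl
      intro n hn
      rw [mem_Ioc] at hn
      have hcc : LvB_cc Z w n = w n := by
        unfold LvB_cc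
        rw [if_pos hn.1]
      rw [hcc, LvB_ee_mul t p n hp.1.2.one_lt.le (by omega)]
      ring
    · intro n hn hn2
      rw [mem_Ioc] at hn hn2
      have hcc : LvB_cc Z w n = 0 := by
        unfold LvB_cc
        rw [if_neg]
        intro h
        exact hn2 ⟨h, hn.2⟩
      rw [hcc]
      simp
  · intro m hm hm2
    rw [mem_Ioc] at hm
    have hlam : LvB_lam a b c r m = 0 := by
      unfold LvB_lam
      rw [if_neg]
      rintro ⟨h1, h2, h3, h4⟩
      apply hm2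
      rw [LvB_mem]
      exact ⟨⟨⟨h2, le_min h3 hm.2⟩, h1⟩, h4⟩
    rw [hlam]
    simp

private theorem LvB_box (a b c r Z U v v' N : ℕ) (w : ℕ → ℝ) (t : ℝ) (hUZ : U ≤ Z) :
    ∑ m ∈ Ioc v v', ((LvB_lam a b c r m : ℝ) : ℂ) *
        ∑ n ∈ Ioc U N, ((LvB_cc Z w n : ℝ) : ℂ) * ee (t * Real.log ((m * n : ℕ) : ℝ))
      = (∑ m ∈ Ioc v v', ((LvB_lam a b c r m : ℝ) : ℂ) * ee (t * Real.log m)) *
        ∑ n ∈ Icc 1 N, ((LvB_cc Z w n : ℝ) : ℂ) * ee (t * Real.log n) := by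
  have hsub : Ioc U N ⊆ Icc 1 N := by
    intro n hn
    rw [mem_Ioc] at hn
    rw [mem_Icc]
    omega
  have h1 : ∑ n ∈ Icc 1 N, ((LvB_cc Z w n : ℝ) : ℂ) * ee (t * Real.log n)
      = ∑ n ∈ Ioc U N, ((LvB_cc Z w n : ℝ) : ℂ) * ee (t * Real.log n) := by
    symm
    apply Finset.sum_subset hsub
    intro n hn hn2
    rw [mem_Icc] at hn
    rw [mem_Ioc] at hn2
    have hcc : LvB_cc Z w n = 0 := by
      unfold LvB_cc
      rw [if_neg]
      omega
    rw [hcc]
    simp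
  rw [h1, Finset.sum_mul]
  apply Finset.sum_congr rfl
  intro m hm
  rw [mem_Ioc] at hm
  rw [mul_assoc]
  congr 1
  rw [Finset.mul_sum]
  apply Finset.sum_congr rfl
  intro n hn
  rw [mem_Ioc] at hn
  rw [LvB_ee_mul t m n (by omega) (by omega)]
  ring

private theorem LvB_PS (a b c r v v' : ℕ) (t : ℝ) :
    ∑ m ∈ Ioc v v', ((LvB_lam a b c r m : ℝ) : ℂ) * ee (t * Real.log m) =
      PSr c r (max v a) (min v' b) t := by
  unfold PSr
  have hsub : pIc (max v a) (min v' b) c r ⊆ Ioc v v' := by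
    intro p hp
    rw [LvB_mem] at hp
    rw [mem_Ioc]
    exact ⟨(le_max_left v a).trans_lt hp.1.1.1, hp.1.1.2.trans (min_le_left _ _)⟩
  rw [← Finset.sum_subset hsub (f := fun m => ((LvB_lam a b c r m : ℝ) : ℂ) * ee (t * Real.log m))]
  · apply Finset.sum_congr rfl
    intro p hp
    rw [LvB_mem] at hp
    have hlam : LvB_lam a b c r p = Real.log p := by
      unfold LvB_lam
      rw [if_pos ⟨hp.1.2, (le_max_right v a).trans_lt hp.1.1.1,
        hp.1.1.2.trans (min_le_right _ _), hp.2⟩]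
    rw [hlam]
  · intro m hm hm2
    rw [mem_Ioc] at hm
    have hlam : LvB_lam a b c r m = 0 := by
      unfold LvB_lam
      rw [if_neg]
      rintro ⟨h1, h2, h3, h4⟩
      apply hm2
      rw [LvB_mem]
      exact ⟨⟨⟨max_lt hm.1 h2, le_min hm.2 h3⟩, h1⟩, h4⟩
    rw [hlam]
    simp

private theorem LvB_cc_abs (Z : ℕ) (w : ℕ → ℝ) (hc : ∀ n, |w n| ≤ 1) (n : ℕ) :
    |LvB_cc Z w n| ≤ 1 := by
  unfold LvB_cc
  split_ifs
  · exact hc n
  · simp

private theorem LvB_lam_le (a b c r m : ℕ) : |LvB_lam a b c r m| ≤ ArithmeticFunction.vonMangoldt m := by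
  unfold LvB_lam
  split_ifs with h
  · rw [ArithmeticFunction.vonMangoldt_apply_prime h.1,
      abs_of_nonneg (Real.log_nonneg (by exact_mod_cast h.1.one_lt.le))]
  · rw [abs_zero]
    exact ArithmeticFunction.vonMangoldt_nonneg

/-- the norm of a polynomial with bounded coefficients -/
private theorem LvB_nrm_le (Bs : Set ℝ) (f : ℝ → ℂ) (F : ℝ) (hF : 0 ≤ F)
    (h : nrm Bs f ^ 2 ≤ F ^ 2) : nrm Bs f ≤ F :=
  le_of_abs_le (abs_le_of_sq_le_sq h hF)

theorem midc_h (h_psr_vk : psr_vk_P) (hV : VKw (19 / 20)) : ∃ η : ℝ, 0 < η ∧ η ≤ 1 / 10 ∧ ∀ K B : ℕ, ∃ K' x0 : ℕ, ∀ x : ℕ, x0 ≤ x →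
    ∀ (y Z a b c r : ℕ) (w : ℕ → ℝ) (T η' : ℝ) (Bs : Set ℝ), 1 ≤ c → (c : ℝ) ≤ Real.log x ^ B →
      Real.exp (Real.log x ^ (19 / 20 : ℝ)) ≤ a → (x : ℝ) ^ (1 / 20 : ℝ) ≤ Z →
      (x : ℝ) ^ (1 / 2 : ℝ) ≤ y → y ≤ x → (∀ n, |w n| ≤ 1) →
      Real.log x ^ K' ≤ T → T ≤ x → 0 ≤ η' → η' ≤ η → BS η' T Bs →
      nrm Bs (fun t => ∑ p ∈ pIc a (min b y) c r, ((Real.log p : ℝ) : ℂ) * ee (t * Real.log p) *
          ∑ n ∈ Ioc Z (y / p), ((w n : ℝ) : ℂ) * ee (t * Real.log n)) ≤ y / Real.log x ^ K := by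
  obtain ⟨η, hη0, hη1, x1, hhm⟩ := nrm_hm
  refine ⟨η, hη0, hη1, fun K B => ?_⟩
  obtain ⟨K', x2, hvk⟩ := h_psr_vk hV (3 * K + 30) B
  obtain ⟨x3, hx3⟩ := log_ge 16
  obtain ⟨x4, hx4⟩ := exp_pow_le (1 / 20) 1 (by norm_num) one_pos
  obtain ⟨x5, hx5⟩ := LvB_exp_ge 4 (2 * K + 20)
  refine ⟨K', max (max (max x1 x2) (max x3 x4)) (max x5 2), ?_⟩
  intro x hx y Z a b c r w T η' Bs hc1 hcB h1 h2 h3 h4 hc hT1 hTx hη'0 hη' hB
  have hxx1 : x1 ≤ x := (((le_max_left _ _).trans (le_max_left _ _)).trans (le_max_left _ _)).trans hx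
  have hxx2 : x2 ≤ x := (((le_max_right _ _).trans (le_max_left _ _)).trans (le_max_left _ _)).trans hx
  have hxx3 : x3 ≤ x := (((le_max_left _ _).trans (le_max_right _ _)).trans (le_max_left _ _)).trans hx
  have hxx4 : x4 ≤ x := (((le_max_right _ _).trans (le_max_right _ _)).trans (le_max_left _ _)).trans hx
  have hxx5 : x5 ≤ x := ((le_max_left _ _).trans (le_max_right _ _)).trans hx
  have hx2 : 2 ≤ x := ((le_max_right _ _).trans (le_max_right _ _)).trans hx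
  have hL := hx3 x hxx3
  have hexp := hx4 x hxx4
  rw [one_mul] at hexp
  have hpw := hx5 x hxx5
  have hxr : (2 : ℝ) ≤ x := by exact_mod_cast hx2
  set L := Real.log x with hLdef
  have hL1 : 1 ≤ L := by linarith only [hη0, hη1, hL]
  have hL0 : 0 < L := by linarith only [hη0, hη1, hL]
  have hT : 1 ≤ T := le_trans (one_le_pow₀ hL1) hT1
  -- parameters
  set P := L ^ (2 * K + 20) with hPdef
  have hP1 : 1 ≤ P := one_le_pow₀ hL1
  obtain ⟨q, hqdef⟩ : ∃ q : ℕ, q = ⌈P⌉₊ := ⟨_, rfl⟩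
  obtain ⟨U, hUdef⟩ : ∃ U : ℕ, U = ⌈Real.exp (L ^ (19 / 20 : ℝ))⌉₊ := ⟨_, rfl⟩
  have hqP : P ≤ q := by rw [hqdef]; exact Nat.le_ceil P
  have hqP2 : (q : ℝ) ≤ P + 1 := by rw [hqdef]; exact (Nat.ceil_lt_add_one (by linarith only [hη0, hη1, hP1])).le
  have hq1 : 1 ≤ q := by
    have : (1 : ℝ) ≤ q := hP1.trans hqP
    exact_mod_cast this
  have hUe : Real.exp (L ^ (19 / 20 : ℝ)) ≤ U := by rw [hUdef]; exact Nat.le_ceil _
  have hU : 2 * q ≤ U := by
    have : (2 : ℝ) * q ≤ U := by linarith only [hpw, hP1, hqP2, hUe]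
    exact_mod_cast this
  have hUa : U ≤ a := by rw [hUdef]; exact Nat.ceil_le.2 h1
  have hUZ : U ≤ Z := by rw [hUdef]; exact Nat.ceil_le.2 (hexp.trans h2)
  have hxy20 : (x : ℝ) ^ (1 / 20 : ℝ) ≤ y :=
    (Real.rpow_le_rpow_of_exponent_le (by linarith only [hη0, hη1, hxr]) (by norm_num)).trans h3
  have hUy : U ≤ y := by rw [hUdef]; exact Nat.ceil_le.2 (hexp.trans hxy20)
  have hy1 : 1 ≤ y := by omega
  have hyr : (1 : ℝ) ≤ y := by exact_mod_cast hy1
  have hyx : (y : ℝ) ≤ x := by exact_mod_cast h4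
  have hlogy : Real.log y ≤ L := Real.log_le_log (by linarith only [hη0, hη1, hexp, hpw, hP1, hxy20]) hyx
  have hlogy0 : 0 ≤ Real.log y := Real.log_nonneg hyr
  obtain ⟨J, v, e, hJ, hvU, hvlt, hv2, he, he0, hid⟩ :=
    Pool.Agent.H80.LV.box_dec y U q hq1 hU hUy (LvB_lam a b c r) (LvB_cc Z w)
  let A : ℕ → ℝ → ℂ := fun j t =>
    ∑ m ∈ Ioc (v j) (v (j + 1)), ((LvB_lam a b c r m : ℝ) : ℂ) * ee (t * Real.log m)
  let Q : ℕ → ℝ → ℂ := fun j t =>
    ∑ n ∈ Icc 1 (y / v (j + 1)), ((LvB_cc Z w n : ℝ) : ℂ) * ee (t * Real.log n)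
  let R : ℝ → ℂ := fun t => ∑ k ∈ Icc 1 y, ((e k : ℝ) : ℂ) * ee (t * Real.log k)
  have hAc : ∀ j, Continuous (A j) := fun j => cont_poly _ _
  have hQc : ∀ j, Continuous (Q j) := fun j => cont_poly _ _
  have hRc : Continuous R := cont_poly _ _
  have hfun : (fun t => ∑ p ∈ pIc a (min b y) c r,
        ((Real.log p : ℝ) : ℂ) * ee (t * Real.log p) *
          ∑ n ∈ Ioc Z (y / p), ((w n : ℝ) : ℂ) * ee (t * Real.log n))
      = fun t => (∑ j ∈ range J, A j t * Q j t) + R t := by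
    funext t
    rw [LvB_lhs y Z a b c r U w t hUa hUZ, hid (fun k => ee (t * Real.log k))]
    congr 1
    apply Finset.sum_congr rfl
    intro j _
    exact LvB_box a b c r Z U (v j) (v (j + 1)) (y / v (j + 1)) w t hUZ
  rw [hfun]
  have hAbd : ∀ j ∈ range J, ∀ t ∈ Bs, ‖A j t‖ ≤ v (j + 1) / L ^ (3 * K + 30) := by
    intro j hj t ht
    rw [mem_range] at hj
    have hAe : A j t = PSr c r (max (v j) a) (min (v (j + 1)) b) t := LvB_PS a b c r (v j) (v (j + 1)) t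
    rw [hAe]
    by_cases hab : max (v j) a ≤ min (v (j + 1)) b
    · obtain ⟨ht1, ht2⟩ := hB.mem t ht
      have hbx : min (v (j + 1)) b ≤ x ^ 2 := by
        have h5 := hv2 j hj
        have h6 := min_le_left (v (j + 1)) b
        nlinarith only [h4, h5, h6, hx2]
      have h7 := hvk x hxx2 c r (max (v j) a) (min (v (j + 1)) b) t hc1 hcB
        (h1.trans (by exact_mod_cast le_max_right _ _)) hab hbx (hT1.trans ht1)
        (by
          have h8 : 2 * T ≤ 2 * (x : ℝ) := by linarith only [hTx]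
          have h9 : 2 * (x : ℝ) ≤ (x : ℝ) ^ 2 := by nlinarith only [hxr]
          linarith only [hTx, ht2, h9])
      refine h7.trans ?_
      apply div_le_div_of_nonneg_right _ (by positivity)
      exact_mod_cast min_le_left _ _
    · unfold PSr pIc pI
      rw [Finset.Ioc_eq_empty (fun h => hab h.le)]
      simp only [Finset.filter_empty, Finset.sum_empty, norm_zero]
      positivity
  have hQbd : ∀ j ∈ range J, nrm Bs (Q j) ≤ (y / v (j + 1) : ℕ) * L := by
    intro j _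
    by_cases hN : y / v (j + 1) ≤ Z
    · have hQ0 : Q j = fun _ => 0 := by
        funext t
        apply Finset.sum_eq_zero
        intro n hn
        rw [mem_Icc] at hn
        have hcc : LvB_cc Z w n = 0 := by
          unfold LvB_cc
          rw [if_neg]
          omega
        rw [hcc]
        simp
      rw [hQ0]
      have : nrm Bs (fun _ => (0 : ℂ)) = 0 := by
        unfold nrm
        simp
      rw [this]
      positivity
    · push Not at hN
      apply LvB_nrm_le _ _ _ (by positivity)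
      have hNZ : (Z : ℝ) ≤ ((y / v (j + 1) : ℕ) : ℝ) := by exact_mod_cast hN.le
      have hNy : y / v (j + 1) ≤ x := (Nat.div_le_self _ _).trans h4
      have h5 := hhm x hxx1 (y / v (j + 1)) (fun n => ((LvB_cc Z w n : ℝ) : ℂ)) T Bs η' hη'0 hη'
        (h2.trans hNZ) hNy hT hTx hB
      refine h5.trans ?_
      have h6 : ∑ n ∈ Icc 1 (y / v (j + 1)), ‖((LvB_cc Z w n : ℝ) : ℂ)‖ ^ 2
          ≤ ((y / v (j + 1) : ℕ) : ℝ) := by
        calc ∑ n ∈ Icc 1 (y / v (j + 1)), ‖((LvB_cc Z w n : ℝ) : ℂ)‖ ^ 2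
            ≤ ∑ n ∈ Icc 1 (y / v (j + 1)), (1 : ℝ) := by
              apply Finset.sum_le_sum
              intro n _
              rw [Complex.norm_real, Real.norm_eq_abs]
              exact pow_le_one₀ (abs_nonneg _) (LvB_cc_abs Z w hc n)
          _ = ((y / v (j + 1) : ℕ) : ℝ) := by simp
      calc ((y / v (j + 1) : ℕ) : ℝ) * L ^ 2 *
            ∑ n ∈ Icc 1 (y / v (j + 1)), ‖((LvB_cc Z w n : ℝ) : ℂ)‖ ^ 2
          ≤ ((y / v (j + 1) : ℕ) : ℝ) * L ^ 2 * ((y / v (j + 1) : ℕ) : ℝ) :=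
            mul_le_mul_of_nonneg_left h6 (by positivity)
        _ = (((y / v (j + 1) : ℕ) : ℝ) * L) ^ 2 := by ring
  have hbox : ∀ j ∈ range J, nrm Bs (fun t => A j t * Q j t) ≤ y * L / L ^ (3 * K + 30) := by
    intro j hj
    have h5 := nrm_mul η' T Bs hB (Q j) (A j) (v (j + 1) / L ^ (3 * K + 30)) (hQc j) (hAc j)
      (hAbd j hj) (by positivity)
    refine h5.trans ?_
    have h6 := mul_le_mul_of_nonneg_left (hQbd j hj)
      (show 0 ≤ (v (j + 1) : ℝ) / L ^ (3 * K + 30) by positivity)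
    refine h6.trans ?_
    have h7 : ((y / v (j + 1) : ℕ) : ℝ) * v (j + 1) ≤ y := by
      exact_mod_cast Nat.div_mul_le_self y (v (j + 1))
    calc (v (j + 1) : ℝ) / L ^ (3 * K + 30) * (((y / v (j + 1) : ℕ) : ℝ) * L)
        = (((y / v (j + 1) : ℕ) : ℝ) * v (j + 1)) * L / L ^ (3 * K + 30) := by ring
      _ ≤ y * L / L ^ (3 * K + 30) := by
          apply div_le_div_of_nonneg_right _ (by positivity)
          exact mul_le_mul_of_nonneg_right h7 hL0.le
  have hJ2 : (J : ℝ) ≤ P * L ^ 2 := by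
    have h5 : 4 * (q : ℝ) * Real.log y ≤ 4 * (P + 1) * L := by
      apply mul_le_mul (by linarith only [hqP2]) hlogy hlogy0 (by linarith only [hη0, hη1, hP1])
    have h6 : 1 ≤ P * L := by nlinarith only [hη1, hL, hP1, hη0]
    have h7 : P * L * 16 ≤ P * L * L := mul_le_mul_of_nonneg_left hL (by positivity)
    nlinarith only [hη1, hL, hJ, h5, h7, hP1, hη0]
  have hsum : nrm Bs (fun t => ∑ j ∈ range J, A j t * Q j t) ≤ y / L ^ (K + 7) := by
    refine (nrm_sum η' T Bs hB (range J) (fun j t => A j t * Q j t)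
      (fun j _ => (hAc j).mul (hQc j))).trans ?_
    calc ∑ j ∈ range J, nrm Bs (fun t => A j t * Q j t)
        ≤ ∑ j ∈ range J, y * L / L ^ (3 * K + 30) := Finset.sum_le_sum hbox
      _ = J * (y * L / L ^ (3 * K + 30)) := by
          rw [Finset.sum_const, Finset.card_range, nsmul_eq_mul]
      _ ≤ (P * L ^ 2) * (y * L / L ^ (3 * K + 30)) :=
          mul_le_mul_of_nonneg_right hJ2 (by positivity)
      _ = y / L ^ (K + 7) := by
          have e1 : L ^ (3 * K + 30) = P * L ^ 3 * L ^ (K + 7) := by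
            rw [hPdef, ← pow_add, ← pow_add]
            congr 1
            ring
          rw [e1]
          field_simp
  have hRbd : nrm Bs R ≤ y / L ^ (K + 7) := by
    apply LvB_nrm_le _ _ _ (by positivity)
    have h5 := hhm x hxx1 y (fun n => ((e n : ℝ) : ℂ)) T Bs η' hη'0 hη' hxy20 h4 hT hTx hB
    refine h5.trans ?_
    have heL : ∀ k ∈ Icc 1 y, |e k| ≤ L := by
      intro k hk
      rw [mem_Icc] at hk
      calc |e k| ≤ ∑ m ∈ k.divisors, |LvB_lam a b c r m| * |LvB_cc Z w (k / m)| := he k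
        _ ≤ ∑ m ∈ k.divisors, ArithmeticFunction.vonMangoldt m := by
            apply Finset.sum_le_sum
            intro m _
            calc |LvB_lam a b c r m| * |LvB_cc Z w (k / m)| ≤ ArithmeticFunction.vonMangoldt m * 1 :=
                  mul_le_mul (LvB_lam_le a b c r m) (LvB_cc_abs Z w hc _) (abs_nonneg _)
                    ArithmeticFunction.vonMangoldt_nonneg
              _ = _ := mul_one _
        _ = Real.log k := ArithmeticFunction.vonMangoldt_sum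
        _ ≤ L := by
            apply Real.log_le_log
            · exact_mod_cast (by omega : 0 < k)
            · exact le_trans (by exact_mod_cast hk.2) hyx
    have h6 : ∑ k ∈ Icc 1 y, ‖((e k : ℝ) : ℂ)‖ ^ 2 ≤ L ^ 2 * (2 * (y / q)) := by
      have h7 : ∑ k ∈ Icc 1 y, ‖((e k : ℝ) : ℂ)‖ ^ 2
          ≤ ∑ k ∈ Ioc (y - y / q - 1) y, L ^ 2 := by
        calc ∑ k ∈ Icc 1 y, ‖((e k : ℝ) : ℂ)‖ ^ 2
            = ∑ k ∈ (Icc 1 y).filter (fun k => k ∈ Ioc (y - y / q - 1) y),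
                ‖((e k : ℝ) : ℂ)‖ ^ 2 := by
              symm
              apply Finset.sum_subset (Finset.filter_subset _ _)
              intro k hk hk2
              rw [mem_filter] at hk2
              have : e k = 0 := he0 k (fun h => hk2 ⟨hk, h⟩)
              rw [this]
              simp
          _ ≤ ∑ k ∈ (Icc 1 y).filter (fun k => k ∈ Ioc (y - y / q - 1) y), L ^ 2 := by
              apply Finset.sum_le_sum
              intro k hk
              rw [mem_filter] at hk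
              rw [Complex.norm_real, Real.norm_eq_abs]
              exact pow_le_pow_left₀ (abs_nonneg _) (heL k hk.1) 2
          _ ≤ ∑ k ∈ Ioc (y - y / q - 1) y, L ^ 2 := by
              apply Finset.sum_le_sum_of_subset_of_nonneg
              · intro k hk
                exact (mem_filter.1 hk).2
              · intro k _ _
                positivity
      refine h7.trans ?_
      rw [Finset.sum_const, Nat.card_Ioc, nsmul_eq_mul, mul_comm]
      apply mul_le_mul_of_nonneg_left _ (by positivity)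
      have h8 : y - (y - y / q - 1) ≤ y / q + 1 := by
        generalize y / q = r
        omega
      have h9 : ((y / q : ℕ) : ℝ) ≤ (y : ℝ) / q := Nat.cast_div_le
      have hqy : (q : ℝ) ≤ y := by
        have : q ≤ y := by omega
        exact_mod_cast this
      have hq0 : (0 : ℝ) < q := by linarith only [hη0, hη1, hP1, hqP]
      have h10 : 1 ≤ (y : ℝ) / q := by rw [le_div_iff₀ hq0]; linarith only [hη0, hη1, hexp, hpw, hP1, hqP2, hxy20]
      calc ((y - (y - y / q - 1) : ℕ) : ℝ) ≤ ((y / q + 1 : ℕ) : ℝ) := by exact_mod_cast h8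
        _ = ((y / q : ℕ) : ℝ) + 1 := by push_cast; ring
        _ ≤ 2 * (y / q) := by linarith only [h9, h10]
    have hq0 : (0 : ℝ) < q := by linarith only [hη0, hη1, hP1, hqP]
    have h7 : (y : ℝ) / q ≤ y / P := div_le_div_of_nonneg_left (by linarith only [hη0, hη1, hexp, hpw, hP1, hxy20]) (by linarith only [hη0, hη1, hP1]) hqP
    calc (y : ℝ) * L ^ 2 * ∑ k ∈ Icc 1 y, ‖((e k : ℝ) : ℂ)‖ ^ 2
        ≤ y * L ^ 2 * (L ^ 2 * (2 * (y / P))) := by
          apply mul_le_mul_of_nonneg_left _ (by positivity)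
          refine h6.trans ?_
          apply mul_le_mul_of_nonneg_left _ (by positivity)
          linarith only [h7]
      _ = 2 * (y ^ 2 * L ^ 4 / P) := by ring
      _ ≤ L ^ 2 * (y ^ 2 * L ^ 4 / P) := by
          apply mul_le_mul_of_nonneg_right _ (by positivity)
          nlinarith only [hη1, hL, hη0]
      _ = (y / L ^ (K + 7)) ^ 2 := by
          have e1 : P = (L ^ (K + 7)) ^ 2 * L ^ 6 := by
            rw [hPdef, ← pow_mul, ← pow_add]
            congr 1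
            ring
          rw [e1]
          field_simp
  have hfin : nrm Bs (fun t => (∑ j ∈ range J, A j t * Q j t) + R t)
      ≤ nrm Bs (fun t => ∑ j ∈ range J, A j t * Q j t) + nrm Bs R :=
    nrm_add η' T Bs hB _ _ (continuous_finsetSum _ fun j _ => (hAc j).mul (hQc j)) hRc
  refine hfin.trans ?_
  calc nrm Bs (fun t => ∑ j ∈ range J, A j t * Q j t) + nrm Bs R
      ≤ y / L ^ (K + 7) + y / L ^ (K + 7) := add_le_add hsum hRbd
    _ = 2 * y / L ^ (K + 7) := by ring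
    _ ≤ y / L ^ K := by
        rw [div_le_div_iff₀ (by positivity) (by positivity)]
        have h5 : 2 ≤ L ^ 7 := by
          have := pow_le_pow_left₀ (by norm_num) hL 7
          norm_num at this
          linarith only [hη0, hη1, this]
        have h6 : L ^ (K + 7) = L ^ K * L ^ 7 := pow_add _ _ _
        rw [h6]
        have h7 : 0 ≤ (y : ℝ) * L ^ K := by positivity
        nlinarith only [h5, h7, mul_le_mul_of_nonneg_left h5 h7]

end Pool.Agent.H43.CH

end
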