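import Pool.Agent.H43.PS.M01
import Pool.Agent.H43.PS.M03
import Pool.Agent.H43.PS.M08

/-! The parts of this file: H76.EHB.Basic, H43.CH.Sqw, H43.CH.CosR, H76.EHB.SmallA, H35.W.JredE, H76.EHB.Planch, H35.W.MellE, H35.W.PowZ, H35.W.BadM, H35.W.BadN. -/

section

/-!
# EHB Basic: elementary facts on `ee`, `FF`, `ks`

Everything follows from `LSa_ee_add`, `LSa_norm_ee`, `LSa_conj_ee`, `LSa_int_ee`, `LSa_parseval` of
`Pool/Agent/H91/PK/LSa.lean` (for `FF_parseval` take `c = 0`, `s = Icc 1 N`, `b n = f n`).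
`sum_inv_ks`: the sum is `2 ∑_{k ≤ K} 1/k ≤ 2 (1 + log K)` (`harmonic_le_one_add_log`).
-/

set_option autoImplicit false

namespace Pool.Agent.H76.EHB

open Finset MeasureTheory
open Pool.Agent.H91.PK (ee)

theorem continuous_ee : Continuous ee := by
  unfold ee
  fun_prop

theorem ee_int (j : ℤ) : ee j = 1 := by
  unfold ee
  rw [Complex.exp_eq_one_iff]
  refine ⟨j, ?_⟩
  push_cast
  ring

theorem FF_continuous (f : ℕ → ℝ) (N : ℕ) : Continuous (FF f N) := by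
  unfold FF
  refine continuous_finsetSum _ fun n _ => ?_
  exact continuous_const.mul (continuous_ee.comp (continuous_const.mul continuous_id))

theorem norm_FF_le (f : ℕ → ℝ) (N : ℕ) (θ : ℝ) : ‖FF f N θ‖ ≤ ∑ n ∈ Icc 1 N, |f n| := by
  unfold FF
  refine (norm_sum_le _ _).trans (le_of_eq (sum_congr rfl fun n _ => ?_))
  rw [norm_mul, Pool.Agent.H91.PK.LSa_norm_ee, mul_one, Complex.norm_real, Real.norm_eq_abs]

/-- Cauchy-Schwarz -/
theorem norm_FF_sq_le (f : ℕ → ℝ) (N : ℕ) (θ : ℝ) : ‖FF f N θ‖ ^ 2 ≤ N * S2 f N := by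
  have h1 : ‖FF f N θ‖ ^ 2 ≤ (∑ n ∈ Icc 1 N, |f n|) ^ 2 :=
    pow_le_pow_left₀ (norm_nonneg _) (norm_FF_le f N θ) 2
  refine h1.trans ((sq_sum_le_card_mul_sum_sq).trans (le_of_eq ?_))
  unfold S2
  rw [Nat.card_Icc, Nat.add_sub_cancel]
  simp only [sq_abs]

theorem FF_parseval (f : ℕ → ℝ) (N : ℕ) (x : ℝ) :
    ∫ t in x..(x + 1), ‖FF f N t‖ ^ 2 = S2 f N := by
  have h := Pool.Agent.H91.PK.LSa_parseval (Icc 1 N) (fun n => (f n : ℂ)) 0 x
  simp only [sub_zero, Complex.norm_real, Real.norm_eq_abs, sq_abs] at h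
  exact h

theorem S2_nonneg (f : ℕ → ℝ) (N : ℕ) : 0 ≤ S2 f N := Finset.sum_nonneg fun _ _ => sq_nonneg _

end Pool.Agent.H76.EHB

end

section

/-!
# CH Sqw: squarefree numbers in windows, on average

`μ(m)^2` = the indicator function of the squarefree numbers.  The same proof as `Pool.Agent.H41.RG.sqf_win` (`H41/RG/SqfWin.lean` in the graded repository; windows there are `Wk k h`), with the windows `(n, n + H]`:
`μ(m)^2 = ∑_{d^2 ∣ m} μ(d)`; `d ≤ D = ⌊√H⌋`: `∑_{h ≤ H} 1_{d^2 ∣ n + h} = H/d^2 + O(1)`, total error `≤ D + H/D`; `d > D`: `∑_n ∑_h ∑_{d > D, d^2 ∣ n + h} 1 ≤ H ∑_{d > D, d^2 ≤ 3X} (X/d^2 + 1) ≤ H (X/D + √(3X))`; if `√(3X)` is too large compare with `X/√H` (`H ≤ X`: `√(3X) ≤ √3 X/√H`).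
All `≤ C X √H`.
-/

set_option autoImplicit false

namespace Pool.Agent.H43.CH

open Finset
open Pool.Agent.H43.LM (mu)

/-- `d² ∣ b² a` with `a` squarefree means `d ∣ b` -/
private theorem Sqw_dvd {a b d : ℕ} (ha : Squarefree a) (hb : 0 < b) :
    d ^ 2 ∣ b ^ 2 * a ↔ d ∣ b := by
  constructor
  · intro h
    have ha0 : a ≠ 0 := ha.ne_zero
    have hn0 : b ^ 2 * a ≠ 0 := mul_ne_zero (pow_ne_zero 2 hb.ne') ha0
    have hd0 : d ≠ 0 := by
      rintro rfl
      rw [zero_pow (by norm_num)] at h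
      exact hn0 (Nat.eq_zero_of_zero_dvd h)
    rw [← Nat.factorization_le_iff_dvd hd0 hb.ne']
    rw [← Nat.factorization_le_iff_dvd (pow_ne_zero 2 hd0) hn0] at h
    intro p
    have h1 := h p
    rw [Nat.factorization_mul (pow_ne_zero 2 hb.ne') ha0, Nat.factorization_pow,
      Nat.factorization_pow] at h1
    simp only [Finsupp.coe_add, Finsupp.coe_smul, Pi.add_apply, Pi.smul_apply, smul_eq_mul] at h1
    have h2 : a.factorization p ≤ 1 := ha.natFactorization_le_one p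
    omega
  · intro h
    exact Dvd.dvd.mul_right (pow_dvd_pow_of_dvd h 2) a

private theorem Sqw_moebius_sum (n : ℕ) :
    ∑ d ∈ n.divisors, (ArithmeticFunction.moebius d : ℤ) = if n = 1 then 1 else 0 := by
  rw [← ArithmeticFunction.coe_mul_zeta_apply, ArithmeticFunction.moebius_mul_coe_zeta,
    ArithmeticFunction.one_apply]

/-- the indicator of the squarefree numbers -/
private theorem Sqw_ind {n D : ℕ} (hn : 0 < n) (hD : ∀ d : ℕ, d ^ 2 ∣ n → d ≤ D) :
    ∑ d ∈ Icc 1 D, (if d ^ 2 ∣ n then (ArithmeticFunction.moebius d : ℤ) else 0) =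
      if Squarefree n then 1 else 0 := by
  obtain ⟨a, b, ha0, hb0, hab, ha⟩ := Nat.sq_mul_squarefree_of_pos hn
  have h1 : ∀ d, d ^ 2 ∣ n ↔ d ∣ b := by
    intro d
    rw [← hab]
    exact Sqw_dvd ha hb0
  rw [← sum_filter]
  have h2 : (Icc 1 D).filter (fun d => d ^ 2 ∣ n) = b.divisors := by
    ext d
    rw [mem_filter, Nat.mem_divisors, h1, mem_Icc]
    constructor
    · rintro ⟨_, h⟩
      exact ⟨h, hb0.ne'⟩
    · rintro ⟨h, _⟩
      refine ⟨⟨Nat.pos_of_dvd_of_pos h hb0, hD d ((h1 d).2 h)⟩, h⟩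
  rw [h2, Sqw_moebius_sum]
  have h3 : b = 1 ↔ Squarefree n := by
    constructor
    · intro h
      rw [← hab, h, one_pow, one_mul]
      exact ha
    · intro h
      have h4 : b * b ∣ n := by
        rw [← hab, pow_two]
        exact dvd_mul_right _ _
      exact Nat.isUnit_iff.1 (h b h4)
  simp only [h3]

private theorem Sqw_card_dvd (n d : ℕ) : ((Icc 1 n).filter (fun x => d ∣ x)).card = n / d := by
  rw [← Nat.Ioc_filter_dvd_card_eq_div]
  congr 1

/-- the series `∑ μ(d)/d²` -/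
private theorem Sqw_hasSum :
    HasSum (fun d : ℕ => (ArithmeticFunction.moebius d : ℝ) / (d : ℝ) ^ 2) (6 / Real.pi ^ 2) := by
  have hs : 1 < (2 : ℂ).re := by norm_num
  have h1 := ArithmeticFunction.LSeriesSummable_moebius_iff.2 hs
  have h2 := ArithmeticFunction.LSeries_zeta_mul_Lseries_moebius hs
  rw [ArithmeticFunction.LSeries_zeta_eq_riemannZeta hs, riemannZeta_two] at h2
  have hpi : (Real.pi : ℂ) ≠ 0 := by exact_mod_cast Real.pi_ne_zero
  have h3 : LSeries (fun n => (ArithmeticFunction.moebius n : ℂ)) 2 = ((6 / Real.pi ^ 2 : ℝ) : ℂ) := by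
    push_cast
    field_simp at h2 ⊢
    linear_combination h2
  have h4 := h1.hasSum
  have h5 : HasSum (fun d : ℕ => (((ArithmeticFunction.moebius d : ℝ) / (d : ℝ) ^ 2 : ℝ) : ℂ))
      ((6 / Real.pi ^ 2 : ℝ) : ℂ) := by
    rw [← h3]
    unfold LSeries
    convert h4 using 1
    funext d
    rcases eq_or_ne d 0 with rfl | hd
    · simp
    · rw [LSeries.term_of_ne_zero hd]
      push_cast
      norm_cast
  exact_mod_cast h5

private theorem Sqw_abs_moebius (d : ℕ) : |(ArithmeticFunction.moebius d : ℝ)| ≤ 1 := by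
  have h := ArithmeticFunction.abs_moebius_le_one (n := d)
  exact_mod_cast h

/-- the tail -/
private theorem Sqw_tail (D : ℕ) (hD : 1 ≤ D) :
    |6 / Real.pi ^ 2 - ∑ d ∈ Icc 1 D, (ArithmeticFunction.moebius d : ℝ) / (d : ℝ) ^ 2| ≤
      1 / (D : ℝ) := by
  have h1 := Sqw_hasSum.tendsto_sum_nat
  have h2 : Filter.Tendsto (fun M : ℕ => |∑ i ∈ range M, (ArithmeticFunction.moebius i : ℝ) /
      (i : ℝ) ^ 2 - ∑ d ∈ Icc 1 D, (ArithmeticFunction.moebius d : ℝ) / (d : ℝ) ^ 2|) Filter.atTop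
      (nhds |6 / Real.pi ^ 2 - ∑ d ∈ Icc 1 D, (ArithmeticFunction.moebius d : ℝ) / (d : ℝ) ^ 2|) :=
    (h1.sub_const _).abs
  refine le_of_tendsto h2 ?_
  filter_upwards [Filter.eventually_ge_atTop (D + 1)] with M hM
  obtain ⟨m, rfl⟩ : ∃ m, M = m + 1 := ⟨M - 1, by omega⟩
  have hDm : D ≤ m := by omega
  have h3 : range (m + 1) = insert 0 (Icc 1 D ∪ Ioc D m) := by
    ext x
    simp only [mem_range, mem_insert, mem_union, mem_Icc, mem_Ioc]
    omega
  have hdis : Disjoint (Icc 1 D) (Ioc D m) := by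
    rw [disjoint_left]
    intro x hx hx'
    rw [mem_Icc] at hx
    rw [mem_Ioc] at hx'
    omega
  rw [h3, sum_insert, sum_union hdis]
  · have h4 : (ArithmeticFunction.moebius 0 : ℝ) / ((0 : ℕ) : ℝ) ^ 2 = 0 := by simp
    rw [h4, zero_add, add_sub_cancel_left]
    refine (abs_sum_le_sum_abs _ _).trans ?_
    have h5 : ∑ i ∈ Ioc D m, |(ArithmeticFunction.moebius i : ℝ) / (i : ℝ) ^ 2| ≤
        ∑ i ∈ Ioc D m, ((i : ℝ) ^ 2)⁻¹ := by
      refine sum_le_sum fun i _ => ?_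
      rw [abs_div, abs_of_nonneg (sq_nonneg (i : ℝ)), div_eq_mul_inv]
      exact mul_le_of_le_one_left (inv_nonneg.2 (sq_nonneg _)) (Sqw_abs_moebius i)
    refine h5.trans ((sum_Ioc_inv_sq_le_sub (by omega) hDm).trans ?_)
    rw [one_div]
    have : (0 : ℝ) ≤ (m : ℝ)⁻¹ := by positivity
    linarith only [this]
  · simp only [mem_union, mem_Icc, mem_Ioc]
    omega

private theorem Sqw_card (a b q : ℕ) (hab : a ≤ b) (_hq : 0 < q) :
    (((Ioc a b).filter (fun x => q ∣ x)).card : ℝ) = ((b / q : ℕ) : ℝ) - ((a / q : ℕ) : ℝ) := by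
  have h1 : (Ioc 0 b).filter (fun x => q ∣ x) =
      (Ioc 0 a).filter (fun x => q ∣ x) ∪ (Ioc a b).filter (fun x => q ∣ x) := by
    rw [← filter_union, Ioc_union_Ioc_eq_Ioc (Nat.zero_le a) hab]
  have h2 : Disjoint ((Ioc 0 a).filter (fun x => q ∣ x)) ((Ioc a b).filter (fun x => q ∣ x)) := by
    rw [disjoint_left]
    intro x hx hx'
    rw [mem_filter, mem_Ioc] at hx hx'
    omega
  have h3 := congrArg card h1
  rw [card_union_of_disjoint h2, Nat.Ioc_filter_dvd_card_eq_div,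
    Nat.Ioc_filter_dvd_card_eq_div] at h3
  rw [h3]
  push_cast
  ring

private theorem Sqw_one {n H q : ℕ} (hq : 0 < q) :
    |(((Ioc n (n + H)).filter (fun x => q ∣ x)).card : ℝ) - H / (q : ℝ)| ≤ 1 := by
  have hq0 : (0 : ℝ) < q := by exact_mod_cast hq
  rw [Sqw_card _ _ _ (by omega) hq]
  have fl : ∀ n : ℕ, (((n / q : ℕ) : ℝ) ≤ (n : ℝ) / q) ∧ ((n : ℝ) / q < ((n / q : ℕ) : ℝ) + 1) := by
    intro n
    constructor
    · exact Nat.cast_div_le
    · rw [div_lt_iff₀ hq0]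
      have := Nat.lt_div_mul_add (a := n) hq
      have h2 : n < (n / q + 1) * q := by nlinarith only [this]
      exact_mod_cast h2
  have h1 := fl (n + H)
  have h2 := fl n
  have e : H / (q : ℝ) = ((n + H : ℕ) : ℝ) / q - (n : ℝ) / q := by
    rw [← sub_div]
    push_cast
    ring
  rw [e, abs_le]
  constructor <;> linarith only [h1, h2, h1.1, h1.2, h2.1, h2.2]

private theorem Sqw_sum {X H q : ℕ} (hX : H ≤ X) :
    ∑ n ∈ Ioc X (2 * X), (((Ioc n (n + H)).filter (fun x => q ∣ x)).card : ℝ) ≤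
      H * (3 * X) * ((q : ℝ))⁻¹ := by
  have h1 : ∀ k ∈ Ioc X (2 * X), ((Ioc k (k + H)).filter (fun x => q ∣ x)).card =
      ∑ n ∈ (Icc 1 (3 * X)).filter (fun x => q ∣ x), if k < n ∧ n ≤ k + H then 1 else 0 := by
    intro k hk
    rw [mem_Ioc] at hk
    rw [← card_filter, filter_filter]
    congr 1
    ext x
    simp only [mem_filter, mem_Ioc, mem_Icc]
    constructor
    · rintro ⟨⟨h2, h3⟩, h4⟩
      exact ⟨⟨by omega, by omega⟩, h4, h2, h3⟩
    · rintro ⟨_, h4, h2, h3⟩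
      exact ⟨⟨h2, h3⟩, h4⟩
  have h2 : ∑ k ∈ Ioc X (2 * X), ((Ioc k (k + H)).filter (fun x => q ∣ x)).card ≤
      (3 * X / q) * H := by
    rw [sum_congr rfl h1, sum_comm, ← Sqw_card_dvd (3 * X) q, ← smul_eq_mul]
    refine sum_le_card_nsmul _ _ _ fun n _ => ?_
    rw [← card_filter]
    have h3 : (Ioc X (2 * X)).filter (fun k => k < n ∧ n ≤ k + H) ⊆ Ico (n - H) n := by
      intro k hk
      rw [mem_filter, mem_Ioc] at hk
      rw [mem_Ico]
      omega
    refine (card_le_card h3).trans ?_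
    rw [Nat.card_Ico]
    omega
  have h3 : ((∑ k ∈ Ioc X (2 * X), ((Ioc k (k + H)).filter (fun x => q ∣ x)).card : ℕ) : ℝ) ≤
      (((3 * X / q) * H : ℕ) : ℝ) := by exact_mod_cast h2
  rw [Nat.cast_sum] at h3
  refine h3.trans ?_
  push_cast
  have h4 : ((3 * X / q : ℕ) : ℝ) ≤ (3 * X) * (q : ℝ)⁻¹ := by
    have := Nat.cast_div_le (α := ℝ) (m := 3 * X) (n := q)
    rw [div_eq_mul_inv] at this
    push_cast at this
    exact this
  calc ((3 * X / q : ℕ) : ℝ) * H ≤ ((3 * X) * (q : ℝ)⁻¹) * H :=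
        mul_le_mul_of_nonneg_right h4 (by positivity)
    _ = H * (3 * X) * ((q : ℝ))⁻¹ := by ring

private theorem Sqw_mu (n : ℕ) : mu n ^ 2 = if Squarefree n then 1 else 0 := by
  unfold LM.mu
  have h := ArithmeticFunction.moebius_sq (n := n)
  have h2 := congrArg (Int.cast : ℤ → ℝ) h
  rw [Int.cast_pow] at h2
  rw [h2]
  split_ifs <;> simp

private theorem Sqw_W {X H n : ℕ} (hX : H ≤ X) (hn : n ∈ Ioc X (2 * X)) :
    ∑ h ∈ Icc 1 H, mu (n + h) ^ 2 = ∑ d ∈ Icc 1 (3 * X), (ArithmeticFunction.moebius d : ℝ) *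
      (((Ioc n (n + H)).filter (fun x => d ^ 2 ∣ x)).card : ℝ) := by
  rw [mem_Ioc] at hn
  have e0 : ∑ h ∈ Icc 1 H, mu (n + h) ^ 2 = ∑ x ∈ Ioc n (n + H), mu x ^ 2 := by
    refine sum_bij' (fun h _ => n + h) (fun x _ => x - n) ?_ ?_ ?_ ?_ ?_
    · intro h hh
      rw [mem_Icc] at hh
      rw [mem_Ioc]
      omega
    · intro x hx
      rw [mem_Ioc] at hx
      rw [mem_Icc]
      omega
    · intro h hh
      simp
    · intro x hx
      rw [mem_Ioc] at hx
      omega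
    · intro h hh
      rfl
  rw [e0]
  have h1 : ∑ x ∈ Ioc n (n + H), (if Squarefree x then (1 : ℤ) else 0) =
      ∑ d ∈ Icc 1 (3 * X), (ArithmeticFunction.moebius d : ℤ) *
      (((Ioc n (n + H)).filter (fun x => d ^ 2 ∣ x)).card : ℤ) := by
    have h2 : ∀ x ∈ Ioc n (n + H), (if Squarefree x then (1 : ℤ) else 0) =
        ∑ d ∈ Icc 1 (3 * X), (if d ^ 2 ∣ x then (ArithmeticFunction.moebius d : ℤ) else 0) := by
      intro x hx
      rw [mem_Ioc] at hx
      rw [Sqw_ind (by omega)]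
      intro d hd
      have h3 : d ^ 2 ≤ x := Nat.le_of_dvd (by omega) hd
      nlinarith only [hn, hx, h3, hX]
    rw [sum_congr rfl h2, sum_comm]
    refine sum_congr rfl fun d _ => ?_
    rw [← sum_filter, sum_const, nsmul_eq_mul, mul_comm]
  have h := congrArg (Int.cast : ℤ → ℝ) h1
  rw [Int.cast_sum, Int.cast_sum] at h
  rw [sum_congr rfl fun x _ => Sqw_mu x]
  have e1 : ∑ x ∈ Ioc n (n + H), (if Squarefree x then (1 : ℝ) else 0) =
      ∑ x ∈ Ioc n (n + H), (((if Squarefree x then (1 : ℤ) else 0) : ℤ) : ℝ) := by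
    refine sum_congr rfl fun x _ => ?_
    split_ifs <;> simp
  rw [e1, h]
  refine sum_congr rfl fun d _ => ?_
  rw [Int.cast_mul, Int.cast_natCast]

theorem sqw : ∃ C : ℝ, 0 < C ∧ ∀ X H : ℕ, 1 ≤ H → H ≤ X →
    ∑ n ∈ Ioc X (2 * X), |∑ h ∈ Icc 1 H, mu (n + h) ^ 2 - 6 / Real.pi ^ 2 * H| ≤ C * X * Real.sqrt H := by
  refine ⟨9, by norm_num, ?_⟩
  intro X h h1 hX
  set D : ℕ := Nat.sqrt h with hD
  have hD1 : 1 ≤ D := by
    rw [hD, Nat.le_sqrt]
    omega
  have hD0 : (0 : ℝ) < D := by exact_mod_cast hD1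
  have hDsq : (D : ℝ) ^ 2 ≤ (h : ℝ) := by
    have := Nat.sqrt_le' h
    exact_mod_cast this
  have hDsq2 : (h : ℝ) ≤ (2 * (D : ℝ)) ^ 2 := by
    have h1 := Nat.lt_succ_sqrt' h
    rw [← hD] at h1
    have h2 : h ≤ (2 * D) ^ 2 := by
      have h3 : Nat.succ D ≤ 2 * D := by omega
      have h4 := Nat.pow_le_pow_left h3 2
      omega
    exact_mod_cast h2
  have hDle : (D : ℝ) ≤ Real.sqrt (h : ℝ) := Real.le_sqrt_of_sq_le hDsq
  have hsq : Real.sqrt (h : ℝ) ≤ 2 * (D : ℝ) := by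
    rw [Real.sqrt_le_left (by positivity)]
    exact hDsq2
  have hDX : D ≤ 3 * X := by
    have : D ≤ h := Nat.sqrt_le_self h
    omega
  have hsqh : Real.sqrt (h : ℝ) * Real.sqrt (h : ℝ) = h := Real.mul_self_sqrt (by positivity)
  -- h / D ≤ 2 √h
  have hhD : (h : ℝ) / D ≤ 2 * Real.sqrt h := by
    rw [div_le_iff₀ hD0]
    nlinarith only [hDsq2, hsqh, hDle, hsq, Real.sqrt_nonneg (h : ℝ)]
  set Nd : ℕ → ℕ → ℝ := fun k d =>
    (((Ioc k (k + h)).filter (fun x => d ^ 2 ∣ x)).card : ℝ) with hNd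
  have hpt : ∀ k ∈ Ioc X (2 * X), |∑ i ∈ Icc 1 h, mu (k + i) ^ 2 - 6 / Real.pi ^ 2 * h| ≤
      (D + h / D) + ∑ d ∈ Ioc D (3 * X), Nd k d := by
    intro k hk
    rw [Sqw_W hX hk]
    have hsplit : Icc 1 (3 * X) = Icc 1 D ∪ Ioc D (3 * X) := by
      ext x
      simp only [mem_union, mem_Icc, mem_Ioc]
      omega
    have hdis : Disjoint (Icc 1 D) (Ioc D (3 * X)) := by
      rw [disjoint_left]
      intro x hx hx'
      rw [mem_Icc] at hx
      rw [mem_Ioc] at hx'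
      omega
    rw [hsplit, sum_union hdis]
    have e1 : |∑ d ∈ Icc 1 D, (ArithmeticFunction.moebius d : ℝ) * Nd k d -
        h * ∑ d ∈ Icc 1 D, (ArithmeticFunction.moebius d : ℝ) / (d : ℝ) ^ 2| ≤ D := by
      rw [mul_sum, ← sum_sub_distrib]
      refine (abs_sum_le_sum_abs _ _).trans ?_
      have h2 : ∀ d ∈ Icc 1 D, |(ArithmeticFunction.moebius d : ℝ) * Nd k d -
          h * ((ArithmeticFunction.moebius d : ℝ) / (d : ℝ) ^ 2)| ≤ 1 := by
        intro d hd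
        rw [mem_Icc] at hd
        have e3 : (ArithmeticFunction.moebius d : ℝ) * Nd k d -
            h * ((ArithmeticFunction.moebius d : ℝ) / (d : ℝ) ^ 2) =
            (ArithmeticFunction.moebius d : ℝ) * (Nd k d - h / (((d ^ 2 : ℕ)) : ℝ)) := by
          push_cast; ring
        rw [e3, abs_mul]
        exact mul_le_one₀ (Sqw_abs_moebius d) (abs_nonneg _)
          (Sqw_one (pow_pos hd.1 2))
      refine (sum_le_sum h2).trans ?_
      rw [sum_const, Nat.card_Icc, nsmul_eq_mul, mul_one]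
      norm_num
    have e2 := Sqw_tail D hD1
    have e3 : |(h : ℝ) * ∑ d ∈ Icc 1 D, (ArithmeticFunction.moebius d : ℝ) / (d : ℝ) ^ 2 -
        6 / Real.pi ^ 2 * h| ≤ (h : ℝ) / (D : ℝ) := by
      have e4 : (h : ℝ) * ∑ d ∈ Icc 1 D, (ArithmeticFunction.moebius d : ℝ) / (d : ℝ) ^ 2 -
        6 / Real.pi ^ 2 * h = -(h * (6 / Real.pi ^ 2 -
          ∑ d ∈ Icc 1 D, (ArithmeticFunction.moebius d : ℝ) / (d : ℝ) ^ 2)) := by ring
      rw [e4, abs_neg, abs_mul, abs_of_nonneg (by positivity : (0 : ℝ) ≤ h)]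
      calc (h : ℝ) * |6 / Real.pi ^ 2 - ∑ d ∈ Icc 1 D,
            (ArithmeticFunction.moebius d : ℝ) / (d : ℝ) ^ 2| ≤ h * (1 / D) :=
            mul_le_mul_of_nonneg_left e2 (by positivity)
        _ = h / D := by ring
    have e5 : |∑ d ∈ Ioc D (3 * X), (ArithmeticFunction.moebius d : ℝ) * Nd k d| ≤
        ∑ d ∈ Ioc D (3 * X), Nd k d := by
      refine (abs_sum_le_sum_abs _ _).trans (sum_le_sum fun d _ => ?_)
      have hn : 0 ≤ Nd k d := by simp only [hNd]; positivity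
      rw [abs_mul, abs_of_nonneg hn]
      exact mul_le_of_le_one_left hn (Sqw_abs_moebius d)
    rw [abs_le] at e1 e3 e5 ⊢
    constructor
    · linarith only [e1, e3, e5, e1.1, e3.1, e5.1]
    · linarith only [e1, e3, e5, e1.2, e3.2, e5.2]
  refine (sum_le_sum hpt).trans ?_
  rw [sum_add_distrib, sum_const, Nat.card_Ioc, nsmul_eq_mul, sum_comm]
  have hcard : ((2 * X - X : ℕ) : ℝ) = X := by
    rw [show 2 * X - X = X by omega]
  rw [hcard]
  have t1 : ∑ d ∈ Ioc D (3 * X), ∑ k ∈ Ioc X (2 * X), Nd k d ≤ h * (3 * X) * (D : ℝ)⁻¹ := by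
    have t2 : ∀ d ∈ Ioc D (3 * X), ∑ k ∈ Ioc X (2 * X), Nd k d ≤
        h * (3 * X) * ((d : ℝ) ^ 2)⁻¹ := by
      intro d hd
      rw [mem_Ioc] at hd
      have := Sqw_sum (q := d ^ 2) hX
      push_cast at this
      exact this
    refine (sum_le_sum t2).trans ?_
    rw [← mul_sum]
    refine mul_le_mul_of_nonneg_left ?_ (by positivity)
    refine (sum_Ioc_inv_sq_le_sub (by omega) hDX).trans ?_
    have : (0 : ℝ) ≤ ((3 * X : ℕ) : ℝ)⁻¹ := by positivity
    linarith only [this]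
  have t3 : (h : ℝ) * (3 * X) * (D : ℝ)⁻¹ = 3 * X * (h / D) := by ring
  rw [t3] at t1
  have hX0 : (0 : ℝ) ≤ X := by positivity
  have t4 : (X : ℝ) * (D + h / D) ≤ X * (Real.sqrt h + 2 * Real.sqrt h) := by
    refine mul_le_mul_of_nonneg_left ?_ hX0
    linarith only [hDle, hhD]
  have t5 : 3 * (X : ℝ) * (h / D) ≤ 3 * X * (2 * Real.sqrt h) :=
    mul_le_mul_of_nonneg_left hhD (by positivity)
  calc (X : ℝ) * (D + h / D) + ∑ d ∈ Ioc D (3 * X), ∑ k ∈ Ioc X (2 * X), Nd k d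
      ≤ X * (Real.sqrt h + 2 * Real.sqrt h) + 3 * X * (2 * Real.sqrt h) :=
        add_le_add t4 (t1.trans t5)
    _ = 9 * X * Real.sqrt h := by ring

end Pool.Agent.H43.CH

end

section

/-!
# CH CosR: the product of the cosines is almost constant

`ρ = 6/π^2`, `σ = √(ρ K)` (`6 K/π^2 = ρ K`), `θ = t/σ`, `s_i = μ(n + h_i)^2 ∈ {0, 1}`, `R = ∑_i s_i ≤ K`, `p = (1/H) ∑_{h ≤ H} μ(n + h)^2 ∈ [0, 1]`.
(a) `cos(θ μ) = cos θ` if `μ ≠ 0` and `1` otherwise; `|cos θ - exp(-θ^2/2)| ≤ 2 θ^4` (all real `θ`); `|∏ a_i - ∏ b_i| ≤ ∑ |a_i - b_i|` for `|a_i|, |b_i| ≤ 1`: `|∏_i cos(θ μ(n + h_i)) - exp(-θ^2 R/2)| ≤ 2 K θ^4 = 2 t^4/(ρ^2 K)`.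
(b) `|exp(-a) - exp(-b)| ≤ |a - b|` for `a, b ≥ 0`: `|exp(-θ^2 R/2) - exp(-t^2/2)| ≤ (t^2/(2 ρ K)) |R - ρ K|`.
(c) `∑_h |R - K p| ≤ √K H^K`: Cauchy-Schwarz and `∑_h (∑_i f(h_i))^2 = K H^{K-1} ∑_{h ≤ H} f(h)^2 ≤ K H^K` for `f(h) = μ(n + h)^2 - p`, `∑_{h ≤ H} f(h) = 0`, `|f| ≤ 1` (induction on `K` with `Fin.cons`).
(d) `∑_n K |p - ρ| ≤ K C X √H/H` (`sqw`).
Total: `H^K X (2 t^4/(ρ^2 K) + (t^2/(2ρ)) (1/√K + C/√H)) ≤ η H^K X` for `H, K ≥ N0`.
-/

set_option autoImplicit false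

namespace Pool.Agent.H43.CH

open Finset
open Pool.Agent.H43.LM (mu)

private lemma cosR_exp_upper (y : ℝ) (hy : 0 ≤ y) : Real.exp (-y) ≤ 1 - y + y ^ 2 / 2 := by
  have h1 : 1 + y + y ^ 2 / 2 ≤ Real.exp y := Real.quadratic_le_exp_of_nonneg hy
  have h2 : 0 < 1 + y + y ^ 2 / 2 := by positivity
  rw [Real.exp_neg]
  have h3 : (Real.exp y)⁻¹ ≤ (1 + y + y ^ 2 / 2)⁻¹ := by
    apply inv_anti₀ h2 h1
  refine h3.trans ?_
  rw [inv_le_iff_one_le_mul₀ h2]
  nlinarith only [sq_nonneg (y ^ 2)]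

private lemma cosR_cos_exp (x : ℝ) : |Real.cos x - Real.exp (-(x ^ 2 / 2))| ≤ 2 * x ^ 4 := by
  by_cases hx : |x| ≤ 1
  · have h1 := Real.cos_bound hx
    have h2 := cosR_exp_upper (x ^ 2 / 2) (by positivity)
    have h3 := Real.add_one_le_exp (-(x ^ 2 / 2))
    have h4 : |x| ^ 4 = x ^ 4 := by
      rw [show (4 : ℕ) = 2 * 2 by norm_num, pow_mul, sq_abs, ← pow_mul]
    rw [h4] at h1
    have h5 := abs_le.mp h1
    have h6 : (x ^ 2 / 2) ^ 2 / 2 = x ^ 4 / 8 := by ring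
    rw [h6] at h2
    have h7 : 0 ≤ x ^ 4 := by positivity
    rw [abs_le]
    constructor
    · linarith only [h2, h3, h5, h5.1]
    · linarith only [h2, h3, h5, h5.2]
  · push Not at hx
    have h1 : 1 ≤ x ^ 4 := by
      have h4 : |x| ^ 4 = x ^ 4 := by
        rw [show (4 : ℕ) = 2 * 2 by norm_num, pow_mul, sq_abs, ← pow_mul]
      rw [← h4]
      exact one_le_pow₀ hx.le
    have h2 : Real.exp (-(x ^ 2 / 2)) ≤ 1 := by
      rw [Real.exp_le_one_iff]
      have := sq_nonneg x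
      linarith only [this]
    have h3 := Real.exp_pos (-(x ^ 2 / 2))
    have h4 := Real.cos_le_one x
    have h5 := Real.neg_one_le_cos x
    rw [abs_le]
    constructor <;> linarith only [h1, h2, h5, h3, h4]

private lemma cosR_prod {ι : Type*} (s : Finset ι) (a b : ι → ℝ) (ha : ∀ i ∈ s, |a i| ≤ 1)
    (hb : ∀ i ∈ s, |b i| ≤ 1) : |∏ i ∈ s, a i - ∏ i ∈ s, b i| ≤ ∑ i ∈ s, |a i - b i| := by
  classical
  induction s using Finset.induction_on with
  | empty => simp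
  | insert j s hj ih =>
    rw [Finset.prod_insert hj, Finset.prod_insert hj, Finset.sum_insert hj]
    have ih' := ih (fun i hi => ha i (Finset.mem_insert_of_mem hi))
      (fun i hi => hb i (Finset.mem_insert_of_mem hi))
    have h1 : |∏ i ∈ s, a i| ≤ 1 := by
      rw [Finset.abs_prod]
      exact Finset.prod_le_one (fun i _ => abs_nonneg _)
        (fun i hi => ha i (Finset.mem_insert_of_mem hi))
    have h2 : a j * ∏ i ∈ s, a i - b j * ∏ i ∈ s, b i
        = (a j - b j) * ∏ i ∈ s, a i + b j * (∏ i ∈ s, a i - ∏ i ∈ s, b i) := by ring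
    rw [h2]
    refine (abs_add_le _ _).trans ?_
    rw [abs_mul, abs_mul]
    have h3 : |a j - b j| * |∏ i ∈ s, a i| ≤ |a j - b j| :=
      mul_le_of_le_one_right (abs_nonneg _) h1
    have h4 : |b j| * |∏ i ∈ s, a i - ∏ i ∈ s, b i| ≤ |∏ i ∈ s, a i - ∏ i ∈ s, b i| :=
      mul_le_of_le_one_left (abs_nonneg _) (hb j (Finset.mem_insert_self _ _))
    linarith only [ih', h3, h4]

private lemma cosR_exp_lip (a b : ℝ) (ha : 0 ≤ a) (hb : 0 ≤ b) :
    |Real.exp (-a) - Real.exp (-b)| ≤ |a - b| := by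
  have key : ∀ u v : ℝ, 0 ≤ u → u ≤ v → |Real.exp (-u) - Real.exp (-v)| ≤ |u - v| := by
    intro u v hu huv
    have h1 : Real.exp (-v) = Real.exp (-u) * Real.exp (-(v - u)) := by
      rw [← Real.exp_add]; congr 1; ring
    have h2 := Real.add_one_le_exp (-(v - u))
    have h3 : Real.exp (-u) ≤ 1 := by rw [Real.exp_le_one_iff]; linarith
    have h4 := Real.exp_pos (-u)
    have h5 : Real.exp (-(v - u)) ≤ 1 := by rw [Real.exp_le_one_iff]; linarith only [huv]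
    rw [h1, abs_of_nonneg (by nlinarith only [h4, h5]), abs_of_nonpos (by linarith)]
    nlinarith only [huv, h3, h2, h4]
  rcases le_total a b with h | h
  · exact key a b ha h
  · rw [abs_sub_comm, abs_sub_comm a b]
    exact key b a hb h

private lemma cosR_mu_sq (n : ℕ) : mu n ^ 2 ≤ 1 ∧ 0 ≤ mu n ^ 2 ∧ mu n ^ 4 ≤ 1 := by
  have h : |mu n| ≤ 1 := by
    unfold mu
    have h0 := ArithmeticFunction.abs_moebius_le_one (n := n)
    have : ((|ArithmeticFunction.moebius n| : ℤ) : ℝ) ≤ 1 := by exact_mod_cast h0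
    rwa [Int.cast_abs] at this
  have h1 : mu n ^ 2 ≤ 1 := by
    rw [← sq_abs]
    exact pow_le_one₀ (abs_nonneg _) h
  refine ⟨h1, sq_nonneg _, ?_⟩
  have h2 : mu n ^ 4 = (mu n ^ 2) ^ 2 := by ring
  rw [h2]
  exact pow_le_one₀ (sq_nonneg _) h1

private lemma cosR_cross (K H : ℕ) (f : ℕ → ℝ) (hf : ∑ x ∈ Icc 1 H, f x = 0) (i j : Fin K)
    (hij : i ≠ j) :
    ∑ h ∈ Fintype.piFinset (fun _ : Fin K => Icc 1 H), f (h i) * f (h j) = 0 := by
  classical
  have h1 : ∀ h : Fin K → ℕ, f (h i) * f (h j)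
      = ∏ k, ((if k = i then f (h k) else 1) * (if k = j then f (h k) else 1)) := by
    intro h
    rw [Finset.prod_mul_distrib]
    simp [Finset.prod_ite_eq']
  simp_rw [h1]
  rw [← Finset.prod_univ_sum (fun _ : Fin K => Icc 1 H)
    (fun k x => (if k = i then f x else 1) * (if k = j then f x else 1))]
  apply Finset.prod_eq_zero (Finset.mem_univ i)
  simp only [if_true, if_neg hij, mul_one]
  exact hf

private lemma cosR_var (K H : ℕ) (f : ℕ → ℝ) (hf : ∑ x ∈ Icc 1 H, f x = 0)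
    (hb : ∀ x, |f x| ≤ 1) :
    ∑ h ∈ Fintype.piFinset (fun _ : Fin K => Icc 1 H), |∑ i, f (h i)|
      ≤ Real.sqrt K * (H : ℝ) ^ K := by
  classical
  set P := Fintype.piFinset (fun _ : Fin K => Icc 1 H) with hP
  have hcard : ((#P : ℕ) : ℝ) = (H : ℝ) ^ K := by
    rw [hP, Fintype.card_piFinset]
    simp
  have h1 : ∑ h ∈ P, (∑ i, f (h i)) ^ 2 ≤ K * (H : ℝ) ^ K := by
    have e1 : ∀ h : Fin K → ℕ, (∑ i, f (h i)) ^ 2 = ∑ i, ∑ j, f (h i) * f (h j) := by
      intro h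
      rw [sq, Finset.sum_mul_sum]
    simp_rw [e1]
    rw [Finset.sum_comm]
    have e2 : ∀ i : Fin K, ∑ h ∈ P, ∑ j, f (h i) * f (h j) ≤ (H : ℝ) ^ K := by
      intro i
      rw [Finset.sum_comm]
      rw [Finset.sum_eq_single i]
      · rw [← hcard]
        have : ∑ h ∈ P, f (h i) * f (h i) ≤ ∑ h ∈ P, (1 : ℝ) := by
          apply Finset.sum_le_sum
          intro h _
          have := hb (h i)
          rw [← sq, ← sq_abs]
          exact pow_le_one₀ (abs_nonneg _) this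
        simpa using this
      · intro j _ hj
        exact cosR_cross K H f hf i j (Ne.symm hj)
      · intro hi
        exact absurd (Finset.mem_univ i) hi
    calc ∑ i : Fin K, ∑ h ∈ P, ∑ j, f (h i) * f (h j) ≤ ∑ _i : Fin K, (H : ℝ) ^ K :=
          Finset.sum_le_sum (fun i _ => e2 i)
      _ = K * (H : ℝ) ^ K := by simp
  have h2 : (∑ h ∈ P, |∑ i, f (h i)|) ^ 2 ≤ #P * ∑ h ∈ P, |∑ i, f (h i)| ^ 2 :=
    sq_sum_le_card_mul_sum_sq
  have h3 : (∑ h ∈ P, |∑ i, f (h i)|) ^ 2 ≤ (Real.sqrt K * (H : ℝ) ^ K) ^ 2 := by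
    refine h2.trans ?_
    rw [hcard, mul_pow, Real.sq_sqrt (Nat.cast_nonneg K)]
    simp_rw [sq_abs]
    have h4 : (0 : ℝ) ≤ (H : ℝ) ^ K := by positivity
    calc (H : ℝ) ^ K * ∑ h ∈ P, (∑ i, f (h i)) ^ 2 ≤ (H : ℝ) ^ K * (K * (H : ℝ) ^ K) :=
          mul_le_mul_of_nonneg_left h1 h4
      _ = K * ((H : ℝ) ^ K) ^ 2 := by ring
  exact (pow_le_pow_iff_left₀ (Finset.sum_nonneg (fun _ _ => abs_nonneg _)) (by positivity)
    two_ne_zero).mp h3

private lemma cosR_point (t ρ : ℝ) (hρ : 0 < ρ) (K : ℕ) (hK : 1 ≤ K) (g : Fin K → ℕ) :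
    |∏ i, Real.cos (t / Real.sqrt (ρ * K) * mu (g i)) - Real.exp (-t ^ 2 / 2)|
      ≤ 2 * t ^ 4 / ρ ^ 2 / K + t ^ 2 / (2 * ρ) / K * |∑ i, mu (g i) ^ 2 - ρ * K| := by
  have hK0 : (0 : ℝ) < K := by exact_mod_cast hK
  have hs : Real.sqrt (ρ * K) ^ 2 = ρ * K := Real.sq_sqrt (by positivity)
  set θ := t / Real.sqrt (ρ * K) with hθ
  have hθ2 : θ ^ 2 = t ^ 2 / (ρ * K) := by rw [hθ, div_pow, hs]
  have hθ4 : θ ^ 4 = t ^ 4 / (ρ * K) ^ 2 := by
    rw [show (4 : ℕ) = 2 * 2 by norm_num, pow_mul, hθ2, div_pow, ← pow_mul]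
  have h1 : |∏ i, Real.cos (θ * mu (g i)) - ∏ i, Real.exp (-((θ * mu (g i)) ^ 2 / 2))|
      ≤ 2 * t ^ 4 / ρ ^ 2 / K := by
    have ha := cosR_prod (Finset.univ : Finset (Fin K)) (fun i => Real.cos (θ * mu (g i)))
      (fun i => Real.exp (-((θ * mu (g i)) ^ 2 / 2)))
      (fun i _ => Real.abs_cos_le_one _)
      (fun i _ => by
        rw [abs_of_pos (Real.exp_pos _), Real.exp_le_one_iff]
        have := sq_nonneg (θ * mu (g i))
        linarith only [this])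
    refine ha.trans ?_
    have hb : ∀ i ∈ (Finset.univ : Finset (Fin K)),
        |Real.cos (θ * mu (g i)) - Real.exp (-((θ * mu (g i)) ^ 2 / 2))| ≤ 2 * θ ^ 4 := by
      intro i _
      refine (cosR_cos_exp _).trans ?_
      rw [mul_pow]
      have h4 := (cosR_mu_sq (g i)).2.2
      have h5 : 0 ≤ θ ^ 4 := by positivity
      nlinarith only [h4, h5]
    refine (Finset.sum_le_sum hb).trans ?_
    rw [Finset.sum_const, Finset.card_univ, Fintype.card_fin, nsmul_eq_mul, hθ4]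
    apply le_of_eq
    field_simp
  have h2 : ∏ i, Real.exp (-((θ * mu (g i)) ^ 2 / 2))
      = Real.exp (-(t ^ 2 / (2 * ρ) / K * ∑ i, mu (g i) ^ 2)) := by
    rw [← Real.exp_sum]
    congr 1
    rw [Finset.mul_sum, ← Finset.sum_neg_distrib]
    apply Finset.sum_congr rfl
    intro i _
    rw [mul_pow, hθ2]
    field_simp
  have h3 : Real.exp (-t ^ 2 / 2) = Real.exp (-(t ^ 2 / (2 * ρ) / K * (ρ * K))) := by
    congr 1
    field_simp
  have h4 : |Real.exp (-(t ^ 2 / (2 * ρ) / K * ∑ i, mu (g i) ^ 2)) - Real.exp (-t ^ 2 / 2)|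
      ≤ t ^ 2 / (2 * ρ) / K * |∑ i, mu (g i) ^ 2 - ρ * K| := by
    rw [h3]
    have hc : 0 ≤ t ^ 2 / (2 * ρ) / K := by positivity
    refine (cosR_exp_lip _ _ (mul_nonneg hc (Finset.sum_nonneg (fun _ _ => sq_nonneg _)))
      (by positivity)).trans ?_
    rw [← mul_sub, abs_mul, abs_of_nonneg hc]
  rw [h2] at h1
  have h5 := abs_sub_le (∏ i, Real.cos (θ * mu (g i)))
    (Real.exp (-(t ^ 2 / (2 * ρ) / K * ∑ i, mu (g i) ^ 2))) (Real.exp (-t ^ 2 / 2))
  linarith only [h1, h4, h5]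

private lemma cosR_shift (H K : ℕ) (hH : 1 ≤ H) (n : ℕ) (ρ : ℝ) :
    ∑ h ∈ Fintype.piFinset (fun _ : Fin K => Icc 1 H), |∑ i, mu (n + h i) ^ 2 - ρ * K|
      ≤ Real.sqrt K * (H : ℝ) ^ K
        + (H : ℝ) ^ K * (K / H * |∑ x ∈ Icc 1 H, mu (n + x) ^ 2 - ρ * H|) := by
  classical
  have hH0 : (0 : ℝ) < H := by exact_mod_cast hH
  set S := ∑ x ∈ Icc 1 H, mu (n + x) ^ 2 with hS
  set p := S / H with hp
  have hS0 : 0 ≤ S := Finset.sum_nonneg (fun _ _ => sq_nonneg _)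
  have hS1 : S ≤ H := by
    rw [hS]
    calc ∑ x ∈ Icc 1 H, mu (n + x) ^ 2 ≤ ∑ _x ∈ Icc 1 H, (1 : ℝ) :=
          Finset.sum_le_sum (fun x _ => (cosR_mu_sq _).1)
      _ = H := by simp
  have hp0 : 0 ≤ p := by positivity
  have hp1 : p ≤ 1 := by rw [hp, div_le_one hH0]; exact hS1
  have hf : ∑ x ∈ Icc 1 H, (mu (n + x) ^ 2 - p) = 0 := by
    rw [Finset.sum_sub_distrib, ← hS, Finset.sum_const, Nat.card_Icc, nsmul_eq_mul, hp]
    simp only [Nat.add_sub_cancel]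
    field_simp
    ring
  have hv := cosR_var K H (fun x => mu (n + x) ^ 2 - p) hf (by
    intro x
    have h1 := (cosR_mu_sq (n + x)).1
    have h2 := (cosR_mu_sq (n + x)).2.1
    rw [abs_le]
    constructor <;> linarith only [hp1, h2, hp0, h1])
  have hcard : ((#(Fintype.piFinset (fun _ : Fin K => Icc 1 H)) : ℕ) : ℝ) = (H : ℝ) ^ K := by
    rw [Fintype.card_piFinset]
    simp
  have hpt : ∀ h ∈ Fintype.piFinset (fun _ : Fin K => Icc 1 H),
      |∑ i, mu (n + h i) ^ 2 - ρ * K| ≤ |∑ i, (mu (n + h i) ^ 2 - p)| + K / H * |S - ρ * H| := by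
    intro h _
    have e1 : ∑ i, mu (n + h i) ^ 2 - ρ * K = ∑ i, (mu (n + h i) ^ 2 - p) + K / H * (S - ρ * H) := by
      rw [Finset.sum_sub_distrib, Finset.sum_const, Finset.card_univ, Fintype.card_fin,
        nsmul_eq_mul, hp]
      field_simp
      ring
    rw [e1]
    refine (abs_add_le _ _).trans ?_
    rw [abs_mul, abs_of_nonneg (show (0 : ℝ) ≤ K / H by positivity)]
  refine (Finset.sum_le_sum hpt).trans ?_
  rw [Finset.sum_add_distrib, Finset.sum_const, nsmul_eq_mul, hcard]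
  linarith only [hv]

theorem cos_r (t η : ℝ) (hη : 0 < η) : ∃ N0 : ℕ, ∀ X H K : ℕ, N0 ≤ H → H ≤ X → N0 ≤ K →
    ∑ h ∈ Fintype.piFinset (fun _ : Fin K => Icc 1 H), ∑ n ∈ Ioc X (2 * X),
      |∏ i, Real.cos (t / Real.sqrt (6 * K / Real.pi ^ 2) * mu (n + h i)) - Real.exp (-t ^ 2 / 2)|
      ≤ η * (H : ℝ) ^ K * X := by
  classical
  obtain ⟨C, hC, hsq⟩ := sqw
  set ρ : ℝ := 6 / Real.pi ^ 2 with hρd
  have hρ : 0 < ρ := by rw [hρd]; positivity
  set A : ℝ := 2 * t ^ 4 / ρ ^ 2 with hA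
  set B : ℝ := t ^ 2 / (2 * ρ) with hB
  have hA0 : 0 ≤ A := by rw [hA]; positivity
  have hB0 : 0 ≤ B := by rw [hB]; positivity
  refine ⟨⌈1 + 3 * A / η + (3 * B / η) ^ 2 + (3 * B * C / η) ^ 2⌉₊, ?_⟩
  intro X H K hH hHX hK
  have hN : 1 + 3 * A / η + (3 * B / η) ^ 2 + (3 * B * C / η) ^ 2
      ≤ (⌈1 + 3 * A / η + (3 * B / η) ^ 2 + (3 * B * C / η) ^ 2⌉₊ : ℝ) := Nat.le_ceil _
  have hHr : 1 + 3 * A / η + (3 * B / η) ^ 2 + (3 * B * C / η) ^ 2 ≤ (H : ℝ) :=
    hN.trans (by exact_mod_cast hH)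
  have hKr : 1 + 3 * A / η + (3 * B / η) ^ 2 + (3 * B * C / η) ^ 2 ≤ (K : ℝ) :=
    hN.trans (by exact_mod_cast hK)
  have n1 : 0 ≤ 3 * A / η := by positivity
  have n2 : 0 ≤ (3 * B / η) ^ 2 := by positivity
  have n3 : 0 ≤ (3 * B * C / η) ^ 2 := by positivity
  have hH1 : (1 : ℝ) ≤ H := by linarith only [hHr, n1, n2, n3]
  have hK1 : (1 : ℝ) ≤ K := by linarith only [hKr, n1, n2, n3]
  have hH1' : 1 ≤ H := by exact_mod_cast hH1
  have hK1' : 1 ≤ K := by exact_mod_cast hK1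
  have hH0 : (0 : ℝ) < H := by linarith only [hHr, n1, n2, n3]
  have hK0 : (0 : ℝ) < K := by linarith only [hKr, n1, n2, n3]
  have hsK : (0 : ℝ) < Real.sqrt K := Real.sqrt_pos.mpr hK0
  have hsH : (0 : ℝ) < Real.sqrt H := Real.sqrt_pos.mpr hH0
  have hsKK : Real.sqrt K * Real.sqrt K = K := Real.mul_self_sqrt hK0.le
  have hsHH : Real.sqrt H * Real.sqrt H = H := Real.mul_self_sqrt hH0.le
  -- the three small quantities
  have b1 : A / K ≤ η / 3 := by
    rw [div_le_iff₀ hK0]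
    have : 3 * A / η ≤ K := by linarith only [hKr, n2, n3]
    rw [div_le_iff₀ hη] at this
    linarith only [this]
  have b2 : B / Real.sqrt K ≤ η / 3 := by
    rw [div_le_iff₀ hsK]
    have : 3 * B / η ≤ Real.sqrt K := by
      apply Real.le_sqrt_of_sq_le
      linarith only [hKr, n1, n3]
    rw [div_le_iff₀ hη] at this
    linarith only [this]
  have b3 : B * C / Real.sqrt H ≤ η / 3 := by
    rw [div_le_iff₀ hsH]
    have : 3 * B * C / η ≤ Real.sqrt H := by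
      apply Real.le_sqrt_of_sq_le
      linarith only [hHr, n1, n2]
    rw [div_le_iff₀ hη] at this
    linarith only [this]
  have hcard : ((#(Fintype.piFinset (fun _ : Fin K => Icc 1 H)) : ℕ) : ℝ) = (H : ℝ) ^ K := by
    rw [Fintype.card_piFinset]
    simp
  have hcardX : ((#(Ioc X (2 * X)) : ℕ) : ℝ) = X := by
    rw [Nat.card_Ioc]
    congr 1
    omega
  have hpt : ∀ h ∈ Fintype.piFinset (fun _ : Fin K => Icc 1 H), ∀ n ∈ Ioc X (2 * X),
      |∏ i, Real.cos (t / Real.sqrt (6 * K / Real.pi ^ 2) * mu (n + h i)) - Real.exp (-t ^ 2 / 2)|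
        ≤ A / K + B / K * |∑ i, mu (n + h i) ^ 2 - ρ * K| := by
    intro h _ n _
    have h1 := cosR_point t ρ hρ K hK1' (fun i => n + h i)
    have h2 : 6 * (K : ℝ) / Real.pi ^ 2 = ρ * K := by rw [hρd]; ring
    rw [h2]
    exact h1
  calc ∑ h ∈ Fintype.piFinset (fun _ : Fin K => Icc 1 H), ∑ n ∈ Ioc X (2 * X),
      |∏ i, Real.cos (t / Real.sqrt (6 * K / Real.pi ^ 2) * mu (n + h i)) - Real.exp (-t ^ 2 / 2)|
      ≤ ∑ h ∈ Fintype.piFinset (fun _ : Fin K => Icc 1 H), ∑ n ∈ Ioc X (2 * X),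
        (A / K + B / K * |∑ i, mu (n + h i) ^ 2 - ρ * K|) :=
        Finset.sum_le_sum (fun h hh => Finset.sum_le_sum (fun n hn => hpt h hh n hn))
    _ = (H : ℝ) ^ K * (X * (A / K)) + B / K * ∑ n ∈ Ioc X (2 * X),
        ∑ h ∈ Fintype.piFinset (fun _ : Fin K => Icc 1 H), |∑ i, mu (n + h i) ^ 2 - ρ * K| := by
        rw [Finset.sum_comm]
        simp only [Finset.sum_add_distrib, Finset.sum_const, nsmul_eq_mul, hcard, hcardX,
          Finset.mul_sum]
        ring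
    _ ≤ (H : ℝ) ^ K * (X * (A / K)) + B / K * ∑ n ∈ Ioc X (2 * X),
        (Real.sqrt K * (H : ℝ) ^ K
          + (H : ℝ) ^ K * (K / H * |∑ x ∈ Icc 1 H, mu (n + x) ^ 2 - ρ * H|)) := by
        have : 0 ≤ B / K := by positivity
        gcongr with n hn
        exact cosR_shift H K hH1' n ρ
    _ = (H : ℝ) ^ K * (X * (A / K)) + B / K * (X * (Real.sqrt K * (H : ℝ) ^ K)
          + (H : ℝ) ^ K * (K / H) * ∑ n ∈ Ioc X (2 * X),
            |∑ x ∈ Icc 1 H, mu (n + x) ^ 2 - ρ * H|) := by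
        rw [Finset.sum_add_distrib, Finset.sum_const, nsmul_eq_mul, hcardX, Finset.mul_sum]
        simp only [mul_assoc]
    _ ≤ (H : ℝ) ^ K * (X * (A / K)) + B / K * (X * (Real.sqrt K * (H : ℝ) ^ K)
          + (H : ℝ) ^ K * (K / H) * (C * X * Real.sqrt H)) := by
        have h1 := hsq X H hH1' hHX
        have : 0 ≤ B / K := by positivity
        gcongr
    _ = (H : ℝ) ^ K * X * (A / K + B / Real.sqrt K + B * C / Real.sqrt H) := by
        have e1 : B / K * (X * (Real.sqrt K * (H : ℝ) ^ K)) = (H : ℝ) ^ K * X * (B / Real.sqrt K) := by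
          field_simp
          rw [sq, hsKK]
          ring
        have e2 : B / K * ((H : ℝ) ^ K * (K / H) * (C * X * Real.sqrt H))
            = (H : ℝ) ^ K * X * (B * C / Real.sqrt H) := by
          field_simp
          rw [sq, hsHH]
          ring
        rw [mul_add, e1, e2]
        ring
    _ ≤ (H : ℝ) ^ K * X * η := by
        gcongr
        linarith only [b1, b2, b3]
    _ = η * (H : ℝ) ^ K * X := by ring

end Pool.Agent.H43.CH

end

section

/-!
# EHB SmallA: pairs with small difference; tails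

Fix a real `α` and `d ≥ 1`.
`near_pairs`: pairs `k1, k2 ∈ ks K`, `0 < |k2 - k1| < r0`, `d ∣ k2 - k1`, any measurable `S`:
 each `‖IpS‖ ≤ (Wk + Wk)/2 ≤ 2 A (1/|k1| + 1/|k2|) S2` (`IpS_le`, `Wk_le`; `|k| ≤ K ≤ A ≤ A |r|`), for given `k` there are at most
 `2 r0/d` integers `k'` with `d ∣ k' - k`, `0 < |k' - k| < r0`; so the sum is `≤ 4 A S2 (2 r0/d) ∑_k 1/|k| ≤ 16 A (1 + log K) (r0/d) S2`.
`equal_pairs`: pairs `k1 = k2 = k`, `S = Icc (-Y) Y`, `K Y ≤ 1/2`: `IpS` is `∫_{|y| ≤ Y} A |FF(α + k y)|^2 dy = (A/|k|) ∫_{|θ| ≤ |k| Y} |FF(α+θ)|^2`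
 `≤ (A/|k|) S2` (an interval of length ≤ 1, `FF_parseval`).
-/

set_option autoImplicit false

namespace Pool.Agent.H76.EHB

open Finset MeasureTheory

theorem SmallA_window (f : ℕ → ℝ) (N : ℕ) (u v : ℝ) (huv : u ≤ v) (hv : v ≤ u + 1) :
    ∫ t in u..v, ‖FF f N t‖ ^ 2 ≤ S2 f N := by
  rw [← FF_parseval f N u]
  apply intervalIntegral.integral_mono_interval le_rfl huv hv
  · exact Filter.Eventually.of_forall fun t => by positivity
  · exact (((FF_continuous f N).norm).pow 2).intervalIntegrable _ _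

end Pool.Agent.H76.EHB

end

section

/-!
# W JredE: from `JJT` to the damped integrals `II S (ge ..)`

Proof.  Compare `EHB.JJ_le` (`H76/EHB/Jred.lean`).  Split `[-Y, Y]` at 0.  For `0 < y ≤ Y`, `s = ±1`, `k ∈ S` (`k ≥ 1`):
`F(α + s k y) ee(-a s k y) = ge f N α a Θ s (k y) + F(α + s k y) ee(-a s k y) (1 - exp(-k y/Θ))`.  So
`‖∑_k F(α + s k y) ee(..)‖^2 ≤ 2 ‖∑_k ge(k y)‖^2 + 2 ‖E(y)‖^2`, `‖E(y)‖^2 ≤ |S| ∑_k (K Y/Θ)^2 |F(α + s k y)|^2`
(`0 ≤ 1 - e^{-u} ≤ u`), and `∫_0^Y |F(α + s k y)|^2 dy = (1/k) ∫_0^{kY} |F(α + s θ)|^2 dθ ≤ S2/k` as `k Y ≤ 1`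
(`SmallA_window`, `FF_parseval`).  Two halves: error `≤ 2 · 2 |S| (K Y/Θ)^2 (∑ 1/k) S2`.  The integral of `‖∑ ge‖^2` over
`(0, Y]` is at most that over `(0, ∞)` (integrability: `ge` is bounded by `(∑|f|) exp(-θ/Θ)` and measurable, `k ≥ 1`; if
`S` is empty everything is 0).
-/

set_option autoImplicit false

namespace Pool.Agent.H35.W

open Finset MeasureTheory
open Pool.Agent.H91.PK (ee)
open Pool.Agent.H76.EHB

private theorem JredE_norm_ee (t : ℝ) : ‖ee t‖ = 1 := Pool.Agent.H91.PK.LSa_norm_ee t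

theorem ge_measurable (f : ℕ → ℝ) (N : ℕ) (α a Θ s : ℝ) : Measurable (ge f N α a Θ s) := by
  unfold ge
  refine Measurable.ite (measurableSet_Ioi (a := (0 : ℝ))) ?_ measurable_const
  have h1 : Continuous (fun θ : ℝ => FF f N (α + s * θ)) :=
    (FF_continuous f N).comp (by fun_prop)
  have h2 : Continuous (fun θ : ℝ => ee (-(a * s * θ))) := continuous_ee.comp (by fun_prop)
  have h3 : Continuous (fun θ : ℝ => ((Real.exp (-(θ / Θ)) : ℝ) : ℂ)) := by fun_prop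
  exact ((h1.mul h2).mul h3).measurable

/-- the norm of `ge` at a positive point -/
private theorem JredE_norm_ge (f : ℕ → ℝ) (N : ℕ) (α a Θ s θ : ℝ) (hθ : 0 < θ) :
    ‖ge f N α a Θ s θ‖ = ‖FF f N (α + s * θ)‖ * Real.exp (-(θ / Θ)) := by
  unfold ge
  rw [if_pos hθ, norm_mul, norm_mul, JredE_norm_ee, mul_one, Complex.norm_real, Real.norm_eq_abs,
    abs_of_pos (Real.exp_pos _)]

theorem norm_ge_le (f : ℕ → ℝ) (N : ℕ) (α a Θ s θ : ℝ) (hθ : 0 < θ) :
    ‖ge f N α a Θ s θ‖ ≤ (∑ n ∈ Icc 1 N, |f n|) * Real.exp (-(θ / Θ)) := by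
  rw [JredE_norm_ge f N α a Θ s θ hθ]
  exact mul_le_mul_of_nonneg_right (norm_FF_le f N _) (Real.exp_pos _).le

/-- windows of length at most one, both signs -/
private theorem JredE_window (f : ℕ → ℝ) (N : ℕ) (α s u v : ℝ) (hs : s = 1 ∨ s = -1)
    (huv : u ≤ v) (hv : v ≤ u + 1) :
    ∫ θ in u..v, ‖FF f N (α + s * θ)‖ ^ 2 ≤ S2 f N := by
  rcases hs with rfl | rfl
  · have h := intervalIntegral.integral_comp_add_left (a := u) (b := v)
      (fun t => ‖FF f N t‖ ^ 2) α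
    simp only [one_mul]
    rw [h]
    exact SmallA_window f N _ _ (by linarith) (by linarith)
  · have h := intervalIntegral.integral_comp_sub_left (a := u) (b := v)
      (fun t => ‖FF f N t‖ ^ 2) α
    have e : ∀ θ : ℝ, α + -1 * θ = α - θ := fun θ => by ring
    simp only [e]
    rw [h]
    exact SmallA_window f N _ _ (by linarith) (by linarith)

private theorem JredE_FF_cont (f : ℕ → ℝ) (N : ℕ) (α s : ℝ) :
    Continuous (fun θ : ℝ => ‖FF f N (α + s * θ)‖ ^ 2) :=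
  (((FF_continuous f N).comp (by fun_prop : Continuous fun θ : ℝ => α + s * θ)).norm).pow 2

/-- the `L^2` norm of the damped function -/
theorem ge_L2 (f : ℕ → ℝ) (N : ℕ) (α a Θ s : ℝ) (hΘ0 : 0 < Θ) (hΘ : Θ ≤ 1) (hs : s = 1 ∨ s = -1) :
    ∫ θ in Set.Ioi (0 : ℝ), ‖ge f N α a Θ s θ‖ ^ 2 ≤ 2 * S2 f N := by
  have hS2 := S2_nonneg f N
  have hcont : Continuous (fun θ : ℝ => Real.exp (-(2 * θ)) * ‖FF f N (α + s * θ)‖ ^ 2) :=
    (by fun_prop : Continuous fun θ : ℝ => Real.exp (-(2 * θ))).mul (JredE_FF_cont f N α s)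
  have hint : IntegrableOn (fun θ : ℝ => Real.exp (-(2 * θ)) * ‖FF f N (α + s * θ)‖ ^ 2)
      (Set.Ioi (0 : ℝ)) := by
    have h1 : IntegrableOn (fun θ : ℝ => Real.exp (-2 * θ)) (Set.Ioi (0 : ℝ)) :=
      exp_neg_integrableOn_Ioi 0 (by norm_num)
    have h2 : IntegrableOn (fun θ : ℝ => ((N : ℝ) * S2 f N) * Real.exp (-2 * θ))
      (Set.Ioi (0 : ℝ)) := h1.const_mul _
    refine Integrable.mono' h2 hcont.aestronglyMeasurable ?_
    refine Filter.Eventually.of_forall fun θ => ?_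
    have h3 := norm_FF_sq_le f N (α + s * θ)
    rw [Real.norm_eq_abs, abs_of_nonneg (by positivity), mul_comm]
    have e : -(2 * θ) = -2 * θ := by ring
    rw [e]
    exact mul_le_mul_of_nonneg_right h3 (Real.exp_pos _).le
  have hle : ∫ θ in Set.Ioi (0 : ℝ), ‖ge f N α a Θ s θ‖ ^ 2
      ≤ ∫ θ in Set.Ioi (0 : ℝ), Real.exp (-(2 * θ)) * ‖FF f N (α + s * θ)‖ ^ 2 := by
    apply integral_mono_of_nonneg
    · exact Filter.Eventually.of_forall fun y => sq_nonneg _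
    · exact hint
    · refine (ae_restrict_iff' measurableSet_Ioi).2 (Filter.Eventually.of_forall ?_)
      intro θ hθ
      have hθ0 : (0 : ℝ) < θ := hθ
      simp only
      rw [JredE_norm_ge f N α a Θ s θ hθ0, mul_pow, mul_comm]
      apply mul_le_mul_of_nonneg_right _ (sq_nonneg _)
      rw [← Real.exp_nat_mul]
      apply Real.exp_le_exp.2
      have h1 : θ ≤ θ / Θ := by
        rw [le_div_iff₀ hΘ0]
        nlinarith
      push_cast
      linarith
  refine hle.trans ?_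
  have hlim := intervalIntegral_tendsto_integral_Ioi (μ := volume) (l := Filter.atTop)
    (b := fun M : ℕ => (M : ℝ)) 0 hint tendsto_natCast_atTop_atTop
  refine le_of_tendsto' hlim fun M => ?_
  have h1 : ∫ θ in (0 : ℝ)..(M : ℝ), Real.exp (-(2 * θ)) * ‖FF f N (α + s * θ)‖ ^ 2
      = ∑ k ∈ range M, ∫ θ in ((k : ℕ) : ℝ)..((k + 1 : ℕ) : ℝ),
          Real.exp (-(2 * θ)) * ‖FF f N (α + s * θ)‖ ^ 2 := by
    have h := intervalIntegral.sum_integral_adjacent_intervals (μ := volume)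
      (f := fun θ => Real.exp (-(2 * θ)) * ‖FF f N (α + s * θ)‖ ^ 2) (a := fun k : ℕ => (k : ℝ))
      (n := M) (fun k _ => hcont.intervalIntegrable _ _)
    rw [h, Nat.cast_zero]
  rw [h1]
  have h2 : ∀ k ∈ range M, ∫ θ in ((k : ℕ) : ℝ)..((k + 1 : ℕ) : ℝ),
      Real.exp (-(2 * θ)) * ‖FF f N (α + s * θ)‖ ^ 2 ≤ (1 / 2) ^ k * S2 f N := by
    intro k _
    have hk1 : ((k : ℕ) : ℝ) ≤ ((k + 1 : ℕ) : ℝ) := by
      push_cast
      linarith
    have h3 : ∫ θ in ((k : ℕ) : ℝ)..((k + 1 : ℕ) : ℝ),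
        Real.exp (-(2 * θ)) * ‖FF f N (α + s * θ)‖ ^ 2
        ≤ ∫ θ in ((k : ℕ) : ℝ)..((k + 1 : ℕ) : ℝ), (1 / 2) ^ k * ‖FF f N (α + s * θ)‖ ^ 2 := by
      apply intervalIntegral.integral_mono_on hk1
      · exact hcont.intervalIntegrable _ _
      · exact (continuous_const.mul (JredE_FF_cont f N α s)).intervalIntegrable _ _
      · rintro θ ⟨hθ1, _⟩
        apply mul_le_mul_of_nonneg_right _ (sq_nonneg _)
        have h4 : Real.exp (-1) ≤ 1 / 2 := by
          rw [Real.exp_neg, one_div]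
          apply inv_anti₀ (by norm_num)
          have := Real.add_one_le_exp (1 : ℝ)
          linarith
        calc Real.exp (-(2 * θ)) ≤ Real.exp (k * (-1)) := by
              apply Real.exp_le_exp.2
              have : (0 : ℝ) ≤ k := by positivity
              linarith
          _ = Real.exp (-1) ^ k := by rw [Real.exp_nat_mul]
          _ ≤ (1 / 2) ^ k := pow_le_pow_left₀ (Real.exp_pos _).le h4 k
    refine h3.trans ?_
    rw [intervalIntegral.integral_const_mul]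
    apply mul_le_mul_of_nonneg_left _ (by positivity)
    apply JredE_window f N α s _ _ hs hk1
    push_cast
    linarith
  refine (Finset.sum_le_sum h2).trans ?_
  rw [← Finset.sum_mul]
  apply mul_le_mul_of_nonneg_right _ hS2
  have h5 := geom_sum_eq (by norm_num : (1 / 2 : ℝ) ≠ 1) M
  have h6 : (0 : ℝ) ≤ (1 / 2) ^ M := by positivity
  have h7 : ((1 / 2 : ℝ) ^ M - 1) / (1 / 2 - 1) = 2 - 2 * (1 / 2) ^ M := by ring
  rw [h5, h7]
  linarith

end Pool.Agent.H35.W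

end

section

/-!
# EHB Planch: Plancherel for integrable square integrable functions

Route A: Mathlib's `MeasureTheory.Lp.norm_fourier_eq` (`Mathlib/Analysis/Fourier/LpSpace.lean`) plus the identification of
the `L²` Fourier transform with the integral: approximate `G` by Schwartz functions simultaneously in `L¹` and `L²`
(density, `SchwartzMap.toLp_fourier_eq`); the transforms converge uniformly and in `L²`, so the limits agree a.e.
Route B (elementary).  `Ĝ(ξ) = ∫ G(u) e(-uξ) du` is bounded and continuous.  For `ε > 0`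
`∫ |Ĝ(ξ)|^2 exp(-π (ε ξ)^2) dξ = ∫∫ G(u) conj G(v) (1/ε) exp(-π ((u-v)/ε)^2) du dv` (Fubini and the Gaussian transform, `gft2` scaled).
The right side is `∫ c(w) (1/ε) exp(-π (w/ε)^2) dw` with `c(w) = ∫ G(u + w) conj G(u) du`, a bounded continuous function of `w`
(continuity of translation in `L²`), `c(0) = ∫ |G|^2`, so it tends to `∫|G|^2` as `ε → 0` (for example by
`Real.tendsto_integral_gaussian_smul'` or directly).  The left side increases to `∫ |Ĝ|^2` (monotone convergence), which is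
therefore finite.
-/

set_option autoImplicit false

namespace Pool.Agent.H76.EHB

open Finset MeasureTheory
open Pool.Agent.H91.PK (ee)
open scoped FourierTransform ContDiff SchwartzMap

private theorem planch_eq (G : ℝ → ℂ) (ξ : ℝ) :
    ∫ u, G u * ee (-(u * ξ)) = FourierTransform.fourier G ξ := by
  rw [Real.fourier_real_eq_integral_exp_smul]
  apply integral_congr_ae
  filter_upwards with u
  rw [ee, smul_eq_mul, mul_comm]
  congr 2
  push_cast
  ring

private theorem planch_continuous (G : ℝ → ℂ) (h1 : Integrable G) :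
    Continuous (FourierTransform.fourier G : ℝ → ℂ) :=
  VectorFourier.fourierIntegral_continuous Real.continuous_fourierChar
    (by exact continuous_inner) h1

private theorem planch_ae (G : ℝ → ℂ) (h1 : Integrable G) (h2 : MemLp G 2) :
    (FourierTransform.fourier (h2.toLp G) : Lp (α := ℝ) ℂ 2) =ᵐ[volume]
      (FourierTransform.fourier G : ℝ → ℂ) := by
  apply ae_eq_of_integral_contDiff_smul_eq
  · exact (Lp.memLp _).locallyIntegrable one_le_two
  · exact (planch_continuous G h1).locallyIntegrable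
  · intro g g_smooth g_cpt
    have hg₁ : HasCompactSupport (Complex.ofRealCLM ∘ g) := g_cpt.comp_left rfl
    have hg₂ : ContDiff ℝ ∞ (Complex.ofRealCLM ∘ g) := by fun_prop
    set φ : 𝓢(ℝ, ℂ) := hg₁.toSchwartzMap hg₂ with hφ
    have e1 : ∫ x, g x • (FourierTransform.fourier (h2.toLp G) : Lp (α := ℝ) ℂ 2) x
        = Lp.toTemperedDistribution (FourierTransform.fourier (h2.toLp G) : Lp (α := ℝ) ℂ 2) φ := by
      rw [Lp.toTemperedDistribution_apply]
      rfl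
    have e2 : Lp.toTemperedDistribution (FourierTransform.fourier (h2.toLp G) : Lp (α := ℝ) ℂ 2) φ
        = Lp.toTemperedDistribution (h2.toLp G) (FourierTransform.fourier φ) := by
      rw [← Lp.fourier_toTemperedDistribution_eq]
      rfl
    have e3 : Lp.toTemperedDistribution (h2.toLp G) (FourierTransform.fourier φ)
        = ∫ x, (FourierTransform.fourier φ : 𝓢(ℝ, ℂ)) x • G x := by
      rw [Lp.toTemperedDistribution_apply]
      apply integral_congr_ae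
      filter_upwards [h2.coeFn_toLp] with x hx
      rw [hx]
    have e4 : ∫ x, (FourierTransform.fourier φ : 𝓢(ℝ, ℂ)) x • G x
        = ∫ x, φ x • (FourierTransform.fourier G : ℝ → ℂ) x := by
      have h := VectorFourier.integral_fourierIntegral_smul_eq_flip (L := innerₗ ℝ)
        (μ := volume) (ν := volume) (f := (φ : ℝ → ℂ)) (g := G)
        Real.continuous_fourierChar continuous_inner φ.integrable h1
      simpa using! h
    rw [e1, e2, e3, e4]
    rfl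

private theorem planch_sq (f : Lp (α := ℝ) ℂ 2) : ‖f‖ ^ 2 = ∫ u, ‖f u‖ ^ 2 := by
  have h : (RCLike.re (inner ℂ f f) : ℝ) = ‖f‖ ^ 2 := by
    rw [inner_self_eq_norm_sq]
  rw [← h, L2.inner_def]
  have h2 : ∫ a, (inner ℂ (f a) (f a) : ℂ) = ((∫ u, ‖f u‖ ^ 2 : ℝ) : ℂ) := by
    rw [← integral_complex_ofReal]
    apply integral_congr_ae
    filter_upwards with u
    rw [inner_self_eq_norm_sq_to_K]
    push_cast
    rfl
  rw [h2]
  exact Complex.ofReal_re _

theorem planch (G : ℝ → ℂ) (h1 : Integrable G) (h2 : MemLp G 2) :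
    Integrable (fun ξ : ℝ => ‖∫ u, G u * ee (-(u * ξ))‖ ^ 2) ∧
      ∫ ξ : ℝ, ‖∫ u, G u * ee (-(u * ξ))‖ ^ 2 = ∫ u, ‖G u‖ ^ 2 := by
  have hae := planch_ae G h1 h2
  have hmem : MemLp (FourierTransform.fourier G : ℝ → ℂ) 2 :=
    (memLp_congr_ae hae).1 (Lp.memLp _)
  have hfun : (fun ξ : ℝ => ‖∫ u, G u * ee (-(u * ξ))‖ ^ 2)
      = fun ξ : ℝ => ‖(FourierTransform.fourier G : ℝ → ℂ) ξ‖ ^ 2 := by
    funext ξ
    rw [planch_eq]
  rw [hfun]
  refine ⟨hmem.integrable_norm_pow (by norm_num), ?_⟩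
  have e1 : ∫ ξ : ℝ, ‖(FourierTransform.fourier G : ℝ → ℂ) ξ‖ ^ 2
      = ∫ ξ : ℝ, ‖(FourierTransform.fourier (h2.toLp G) : Lp (α := ℝ) ℂ 2) ξ‖ ^ 2 := by
    apply integral_congr_ae
    filter_upwards [hae] with ξ hξ
    rw [hξ]
  have e2 : ∫ u, ‖G u‖ ^ 2 = ∫ u, ‖(h2.toLp G) u‖ ^ 2 := by
    apply integral_congr_ae
    filter_upwards [h2.coeFn_toLp] with u hu
    rw [hu]
  rw [e1, e2, ← planch_sq, ← planch_sq, Lp.norm_fourier_eq]

end Pool.Agent.H76.EHB

end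

section

/-!
# W MellE: Mellin-Plancherel for exponentially decreasing functions

Same proofs as `EHB.mel_planch`, `mel_sum`, `int_sum_sq` (file `H76/EHB/Mell.lean`: copy it): there `g` is bounded with
bounded support; the only use is that `GG g u = exp(-u/2) g(exp(-u))` is integrable and in `L^2`.  Now
`‖g θ‖ ≤ B exp(-b θ)` for `θ > 0` gives `‖GG g u‖ ≤ B exp(-u/2) exp(-b exp(-u))`, integrable and square integrable.
-/

set_option autoImplicit false

namespace Pool.Agent.H35.W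

open Finset MeasureTheory
open Pool.Agent.H76.EHB
open Pool.Agent.H91.PK (ee)

private theorem melle_integrable {E : Type*} [NormedAddCommGroup E] {f : ℝ → E}
    (hf : AEStronglyMeasurable f) {c C C' : ℝ} (hc : 0 < c)
    (h1 : ∀ u, ‖f u‖ ≤ C * Real.exp (-c * u)) (h2 : ∀ u, ‖f u‖ ≤ C' * Real.exp (c * u)) :
    Integrable f := by
  rw [← integrableOn_univ, ← Set.Iic_union_Ioi (a := (0 : ℝ))]
  refine IntegrableOn.union ?_ ?_
  · exact Integrable.mono' ((integrableOn_exp_mul_Iic hc 0).const_mul C') hf.restrict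
      (Filter.Eventually.of_forall h2)
  · exact Integrable.mono' ((integrableOn_exp_mul_Ioi (neg_lt_zero.2 hc) 0).const_mul C) hf.restrict
      (Filter.Eventually.of_forall h1)

private theorem melle_subst (h : ℝ → ℝ) :
    ∫ θ in Set.Ioi (0 : ℝ), h θ = ∫ u, Real.exp (-u) * h (Real.exp (-u)) := by
  have him : (Real.exp ∘ Neg.neg) '' (Set.univ : Set ℝ) = Set.Ioi 0 := by
    rw [Set.image_comp, Set.image_univ_of_surjective neg_surjective, Set.image_univ, Real.range_exp]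
  have hder : ∀ x ∈ (Set.univ : Set ℝ),
      HasDerivWithinAt (Real.exp ∘ Neg.neg) (-Real.exp (-x)) Set.univ x := fun x _ =>
    mul_neg_one (Real.exp (-x)) ▸
      ((Real.hasDerivAt_exp (-x)).comp x (hasDerivAt_neg x)).hasDerivWithinAt
  have hinj : Set.InjOn (Real.exp ∘ Neg.neg) (Set.univ : Set ℝ) :=
    (Real.exp_injective.comp neg_injective).injOn
  rw [← him, integral_image_eq_integral_abs_deriv_smul MeasurableSet.univ hder hinj]
  simp

/-- the function `exp(-u/2) g(exp(-u))` -/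
private noncomputable def GG (g : ℝ → ℂ) (u : ℝ) : ℂ :=
  (Real.exp (-(1 / 2) * u) : ℝ) • g (Real.exp (-u))

private theorem GG_measurable (g : ℝ → ℂ) (hg : Measurable g) : Measurable (GG g) := by
  unfold GG
  exact (by fun_prop : Measurable fun u : ℝ => (Real.exp (-(1 / 2) * u) : ℝ)).smul
    (hg.comp (by fun_prop))

private theorem GG_norm (g : ℝ → ℂ) (u : ℝ) :
    ‖GG g u‖ = Real.exp (-(1 / 2) * u) * ‖g (Real.exp (-u))‖ := by
  unfold GG
  rw [norm_smul, Real.norm_of_nonneg (Real.exp_pos _).le]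

private theorem GG_norm_sq (g : ℝ → ℂ) (u : ℝ) :
    ‖GG g u‖ ^ 2 = Real.exp (-u) * ‖g (Real.exp (-u))‖ ^ 2 := by
  rw [GG_norm, mul_pow, ← Real.exp_nat_mul]
  congr 2
  push_cast
  ring

private theorem melle_B (g : ℝ → ℂ) {B b : ℝ} (hB : ∀ θ, 0 < θ → ‖g θ‖ ≤ B * Real.exp (-(b * θ))) :
    0 ≤ B := by
  have h := (norm_nonneg _).trans (hB 1 one_pos)
  exact nonneg_of_mul_nonneg_left h (Real.exp_pos _)

private theorem melle_exp {b : ℝ} (hb : 0 < b) (θ : ℝ) (hθ : 0 < θ) :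
    Real.exp (-(b * θ)) ≤ 1 / (b * θ) := by
  have h1 : 0 < b * θ := mul_pos hb hθ
  have h2 : b * θ ≤ Real.exp (b * θ) := by
    have := Real.add_one_le_exp (b * θ)
    linarith
  rw [Real.exp_neg, ← one_div]
  exact one_div_le_one_div_of_le h1 h2

private theorem GG_le1 (g : ℝ → ℂ) {B b : ℝ} (hb : 0 < b)
    (hB : ∀ θ, 0 < θ → ‖g θ‖ ≤ B * Real.exp (-(b * θ))) (u : ℝ) :
    ‖GG g u‖ ≤ B * Real.exp (-(1 / 2) * u) := by
  rw [GG_norm, mul_comm B]
  refine mul_le_mul_of_nonneg_left ?_ (Real.exp_pos _).le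
  refine (hB _ (Real.exp_pos _)).trans ?_
  have h1 : Real.exp (-(b * Real.exp (-u))) ≤ 1 := by
    rw [Real.exp_le_one_iff]
    have := mul_pos hb (Real.exp_pos (-u))
    linarith
  calc B * Real.exp (-(b * Real.exp (-u))) ≤ B * 1 :=
        mul_le_mul_of_nonneg_left h1 (melle_B g hB)
    _ = B := mul_one B

private theorem GG_le2 (g : ℝ → ℂ) {B b : ℝ} (hb : 0 < b)
    (hB : ∀ θ, 0 < θ → ‖g θ‖ ≤ B * Real.exp (-(b * θ))) (u : ℝ) :
    ‖GG g u‖ ≤ B / b * Real.exp ((1 / 2) * u) := by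
  rw [GG_norm]
  have h1 : ‖g (Real.exp (-u))‖ ≤ B * (1 / (b * Real.exp (-u))) :=
    (hB _ (Real.exp_pos _)).trans
      (mul_le_mul_of_nonneg_left (melle_exp hb _ (Real.exp_pos _)) (melle_B g hB))
  refine (mul_le_mul_of_nonneg_left h1 (Real.exp_pos _).le).trans (le_of_eq ?_)
  have h2 : Real.exp ((1 / 2) * u) = Real.exp (-(1 / 2) * u) * Real.exp u := by
    rw [← Real.exp_add]
    congr 1
    ring
  have h3 : Real.exp (-u) = (Real.exp u)⁻¹ := Real.exp_neg u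
  rw [h2, h3]
  have h4 := (Real.exp_pos u).ne'
  field_simp

private theorem GG_integrable (g : ℝ → ℂ) (hg : Measurable g) (B b : ℝ) (hb : 0 < b)
    (hB : ∀ θ, 0 < θ → ‖g θ‖ ≤ B * Real.exp (-(b * θ))) : Integrable (GG g) :=
  melle_integrable (GG_measurable g hg).aestronglyMeasurable (by norm_num : (0 : ℝ) < 1 / 2)
    (GG_le1 g hb hB) (GG_le2 g hb hB)

private theorem GG_memLp (g : ℝ → ℂ) (hg : Measurable g) (B b : ℝ) (hb : 0 < b)
    (hB : ∀ θ, 0 < θ → ‖g θ‖ ≤ B * Real.exp (-(b * θ))) : MemLp (GG g) 2 := by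
  rw [memLp_two_iff_integrable_sq_norm (GG_measurable g hg).aestronglyMeasurable]
  refine melle_integrable ((GG_measurable g hg).norm.pow_const 2).aestronglyMeasurable
    (c := 1) (C := B ^ 2) (C' := (B / b) ^ 2) one_pos (fun u => ?_) (fun u => ?_)
  · rw [Real.norm_of_nonneg (sq_nonneg _)]
    refine (pow_le_pow_left₀ (norm_nonneg _) (GG_le1 g hb hB u) 2).trans (le_of_eq ?_)
    rw [mul_pow, ← Real.exp_nat_mul]
    congr 2
    push_cast
    ring
  · rw [Real.norm_of_nonneg (sq_nonneg _)]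
    refine (pow_le_pow_left₀ (norm_nonneg _) (GG_le2 g hb hB u) 2).trans (le_of_eq ?_)
    rw [mul_pow, ← Real.exp_nat_mul]
    congr 2
    push_cast
    ring

private theorem melle_Mel_eq (g : ℝ → ℂ) (t : ℝ) :
    Mel g t = ∫ u, GG g u * ee (-(u * (-(1 / (2 * Real.pi)) * t))) := by
  unfold Mel
  rw [mellin_eq_fourier, Real.fourier_real_eq_integral_exp_smul]
  refine integral_congr_ae (Filter.Eventually.of_forall fun u => ?_)
  have hre : ((1 / 2 : ℂ) - t * Complex.I).re = 1 / 2 := by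
    simp
  have him : ((1 / 2 : ℂ) - t * Complex.I).im = -t := by
    simp
  simp only [hre, him]
  rw [smul_eq_mul, mul_comm]
  unfold GG ee
  congr 2
  push_cast
  ring

theorem mel_planch_e (g : ℝ → ℂ) (hg : Measurable g) (B b : ℝ) (hb : 0 < b)
    (hB : ∀ θ, 0 < θ → ‖g θ‖ ≤ B * Real.exp (-(b * θ))) :
    Integrable (fun t => ‖Mel g t‖ ^ 2) ∧
      ∫ t, ‖Mel g t‖ ^ 2 = 2 * Real.pi * ∫ θ in Set.Ioi (0 : ℝ), ‖g θ‖ ^ 2 := by
  obtain ⟨h1, h2⟩ := planch (GG g) (GG_integrable g hg B b hb hB) (GG_memLp g hg B b hb hB)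
  have hpi : (0 : ℝ) < 2 * Real.pi := by positivity
  have ha : -(1 / (2 * Real.pi)) ≠ 0 := neg_ne_zero.2 (by positivity)
  have hfun : (fun t => ‖Mel g t‖ ^ 2) =
      fun t => (fun ξ : ℝ => ‖∫ u, GG g u * ee (-(u * ξ))‖ ^ 2) (-(1 / (2 * Real.pi)) * t) := by
    funext t
    rw [melle_Mel_eq]
  rw [hfun]
  refine ⟨h1.comp_mul_left' ha, ?_⟩
  rw [Measure.integral_comp_mul_left
    (fun ξ : ℝ => ‖∫ u, GG g u * ee (-(u * ξ))‖ ^ 2) (-(1 / (2 * Real.pi))), h2, smul_eq_mul]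
  congr 1
  · rw [inv_neg, one_div, inv_inv, abs_neg, abs_of_pos hpi]
  · rw [melle_subst (fun θ => ‖g θ‖ ^ 2)]
    exact integral_congr_ae (Filter.Eventually.of_forall fun u => GG_norm_sq g u)

private theorem melle_conv (g : ℝ → ℂ) (hg : Measurable g) (B b : ℝ) (hb : 0 < b)
    (hB : ∀ θ, 0 < θ → ‖g θ‖ ≤ B * Real.exp (-(b * θ))) (t : ℝ) :
    MellinConvergent g (1 / 2 - t * Complex.I) := by
  unfold MellinConvergent
  have hmeas : AEStronglyMeasurable
      (fun θ : ℝ => (θ : ℂ) ^ ((1 / 2 : ℂ) - t * Complex.I - 1) • g θ)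
      (volume.restrict (Set.Ioi 0)) := by
    have hc : AEStronglyMeasurable (fun θ : ℝ => (θ : ℂ) ^ ((1 / 2 : ℂ) - t * Complex.I - 1))
        (volume.restrict (Set.Ioi 0)) := ?_
    · exact hc.smul hg.aestronglyMeasurable
    refine ContinuousOn.aestronglyMeasurable ?_ measurableSet_Ioi
    intro θ hθ
    exact (Complex.continuousAt_ofReal_cpow_const θ _ (Or.inr (ne_of_gt hθ))).continuousWithinAt
  have hI : IntegrableOn (fun θ : ℝ => θ ^ (-(1 / 2) : ℝ) * Real.exp (-b * θ ^ (1 : ℝ)) * B)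
      (Set.Ioi 0) :=
    (integrableOn_rpow_mul_exp_neg_mul_rpow (by norm_num) one_pos hb).mul_const B
  refine Integrable.mono' hI hmeas ?_
  refine (ae_restrict_iff' measurableSet_Ioi).2 (Filter.Eventually.of_forall fun θ hθ => ?_)
  have hθ' : (0 : ℝ) < θ := hθ
  rw [norm_smul, Complex.norm_cpow_eq_rpow_re_of_pos hθ']
  have hre : ((1 / 2 : ℂ) - t * Complex.I - 1).re = -(1 / 2) := by
    simp
    norm_num
  rw [hre, Real.rpow_one, mul_assoc]
  refine mul_le_mul_of_nonneg_left ?_ (Real.rpow_nonneg hθ'.le _)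
  refine (hB θ hθ').trans (le_of_eq ?_)
  rw [mul_comm, neg_mul]

private theorem melle_sum (S : Finset ℕ) (hS : ∀ k ∈ S, 1 ≤ k) (g : ℝ → ℂ) (hg : Measurable g)
    (B b : ℝ) (hb : 0 < b) (hB : ∀ θ, 0 < θ → ‖g θ‖ ≤ B * Real.exp (-(b * θ))) (t : ℝ) :
    Mel (fun y => ∑ k ∈ S, g (k * y)) t = ZZ S t * Mel g t := by
  unfold Mel ZZ
  have hconv := melle_conv g hg B b hb hB t
  rw [sum_mul]
  have h1 : mellin (fun y => ∑ k ∈ S, g (k * y)) (1 / 2 - t * Complex.I) =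
      ∑ k ∈ S, mellin (fun y => g (k * y)) (1 / 2 - t * Complex.I) := by
    unfold mellin
    simp only [smul_sum]
    refine integral_finsetSum S fun k hk => ?_
    have hk0 : (0 : ℝ) < k := by exact_mod_cast hS k hk
    exact (MellinConvergent.comp_mul_left hk0).2 hconv
  rw [h1]
  refine sum_congr rfl fun k hk => ?_
  have hk0 : (0 : ℝ) < k := by exact_mod_cast hS k hk
  rw [mellin_comp_mul_left g _ hk0, smul_eq_mul]
  congr 1
  push_cast
  congr 1
  ring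

theorem int_sum_sq_e (S : Finset ℕ) (hS : ∀ k ∈ S, 1 ≤ k) (g : ℝ → ℂ) (hg : Measurable g) (B b : ℝ)
    (hb : 0 < b) (hB : ∀ θ, 0 < θ → ‖g θ‖ ≤ B * Real.exp (-(b * θ))) :
    Integrable (fun t => ‖ZZ S t‖ ^ 2 * ‖Mel g t‖ ^ 2) ∧
      II S g = 1 / (2 * Real.pi) * ∫ t, ‖ZZ S t‖ ^ 2 * ‖Mel g t‖ ^ 2 := by
  have hfun : (fun t => ‖ZZ S t‖ ^ 2 * ‖Mel g t‖ ^ 2) =
      fun t => ‖Mel (fun y => ∑ k ∈ S, g (k * y)) t‖ ^ 2 := by
    funext t
    rw [melle_sum S hS g hg B b hb hB t, norm_mul, mul_pow]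
  have hm : Measurable (fun y : ℝ => ∑ k ∈ S, g (k * y)) :=
    Finset.measurable_sum S fun k _ => hg.comp (by fun_prop)
  have hB0 := melle_B g hB
  have hbd : ∀ y : ℝ, 0 < y → ‖∑ k ∈ S, g (k * y)‖ ≤ S.card * B * Real.exp (-(b * y)) := by
    intro y hy
    refine (norm_sum_le _ _).trans ?_
    have h3 : ∑ k ∈ S, ‖g ((k : ℝ) * y)‖ ≤ ∑ _k ∈ S, B * Real.exp (-(b * y)) := by
      refine sum_le_sum fun k hk => ?_
      have hk1 : (1 : ℝ) ≤ k := by exact_mod_cast hS k hk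
      have hky : y ≤ k * y := by nlinarith
      refine (hB _ (lt_of_lt_of_le hy hky)).trans (mul_le_mul_of_nonneg_left ?_ hB0)
      apply Real.exp_le_exp.2
      have := mul_le_mul_of_nonneg_left hky hb.le
      linarith
    refine h3.trans (le_of_eq ?_)
    rw [sum_const, nsmul_eq_mul, mul_assoc]
  obtain ⟨h1, h2⟩ := mel_planch_e (fun y => ∑ k ∈ S, g (k * y)) hm (S.card * B) b hb hbd
  rw [hfun]
  refine ⟨h1, ?_⟩
  rw [h2]
  unfold II
  have hpi : (2 * Real.pi) ≠ 0 := by positivity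
  field_simp

end Pool.Agent.H35.W

end

section

/-!
# W PowZ: powers of the prime sums

`ZZ S t ^ j = ∑_m a_m m^{-1/2+it}`, `a_m` the number of `(p_1, ..., p_j) ∈ S^j` with product `m`.
Recursion: `a^{(0)} = 1_{m = 1}`, `a^{(j+1)}(m) = ∑_{p ∈ S, p ∣ m} a^{(j)}(m/p)`.  If `a^{(j+1)}(m) ≠ 0` then `m` is a product of
`j+1` primes, so it has at most `j+1` prime divisors and `a^{(j+1)}(m) ≤ (j+1) a^{(j)}`-max `≤ (j+1)!`
(keep in the induction: `a^{(j)}(m) ≠ 0 → ArithmeticFunction.cardFactors m = j` (`m ≠ 0`), or `m.primeFactors.card ≤ j`).  The support is in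
`[1, (2P)^j]`, and `∑_m a_m/m = (∑_{p ∈ S} 1/p)^j ≤ 1` as `∑_{p ∈ S} 1/p ≤ P · (1/P)`.
-/

set_option autoImplicit false

namespace Pool.Agent.H35.W

open Finset
open Pool.Agent.H76.EHB

/-- the number of `j`-tuples of elements of `S` with product `m` -/
private def powzA (S : Finset ℕ) : ℕ → ℕ → ℕ
  | 0, m => if m = 1 then 1 else 0
  | j + 1, m => ∑ p ∈ S.filter (fun p => p ∣ m), powzA S j (m / p)

private theorem powzA_supp {P : ℕ} {S : Finset ℕ} (hS : S ⊆ pb P) (j : ℕ) :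
    ∀ m, powzA S j m ≠ 0 → m.primeFactors.card ≤ j ∧ 1 ≤ m ∧ m ≤ (2 * P) ^ j := by
  induction j with
  | zero =>
    intro m hm
    have h1 : m = 1 := by
      by_contra h
      exact hm (by simp [powzA, h])
    subst h1
    simp
  | succ j ih =>
    intro m hm
    unfold powzA at hm
    obtain ⟨p, hp, hpm⟩ := Finset.exists_ne_zero_of_sum_ne_zero hm
    rw [Finset.mem_filter] at hp
    have hpb := hS hp.1
    unfold pb at hpb
    rw [Finset.mem_filter, Finset.mem_Ioc] at hpb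
    obtain ⟨⟨_, hp2⟩, hpp⟩ := hpb
    obtain ⟨h1, h2, h3⟩ := ih _ hpm
    have hmul : p * (m / p) = m := Nat.mul_div_cancel' hp.2
    have hk : m / p ≠ 0 := by omega
    refine ⟨?_, ?_, ?_⟩
    · rw [← hmul, Nat.primeFactors_mul hpp.ne_zero hk, hpp.primeFactors]
      refine (Finset.card_union_le _ _).trans ?_
      rw [Finset.card_singleton]
      omega
    · rw [← hmul]
      exact Nat.mul_pos hpp.pos h2
    · rw [← hmul, pow_succ, mul_comm]
      exact Nat.mul_le_mul h3 hp2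

private theorem powzA_le {P : ℕ} {S : Finset ℕ} (hS : S ⊆ pb P) (j : ℕ) :
    ∀ m, powzA S j m ≤ j.factorial := by
  induction j with
  | zero =>
    intro m
    unfold powzA
    split_ifs <;> simp
  | succ j ih =>
    intro m
    by_cases hm : powzA S (j + 1) m = 0
    · rw [hm]
      exact Nat.zero_le _
    · obtain ⟨h1, h2, -⟩ := powzA_supp hS (j + 1) m hm
      unfold powzA
      refine (Finset.sum_le_sum fun p _ => ih (m / p)).trans ?_
      rw [Finset.sum_const, smul_eq_mul, Nat.factorial_succ]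
      refine Nat.mul_le_mul_right _ (le_trans (Finset.card_le_card ?_) h1)
      intro p hp
      rw [Finset.mem_filter] at hp
      have hpb := hS hp.1
      unfold pb at hpb
      rw [Finset.mem_filter] at hpb
      exact Nat.mem_primeFactors.2 ⟨hpb.2, hp.2, by omega⟩

private theorem powzA_sum {R : Type*} [CommSemiring R] {P : ℕ} {S : Finset ℕ} (hS : S ⊆ pb P)
    (h : ℕ → R) (h1 : h 1 = 1) (hm : ∀ p ∈ S, ∀ k, 1 ≤ k → h (p * k) = h p * h k) (j : ℕ) :
    ∑ m ∈ Icc 1 ((2 * P) ^ j), (powzA S j m : R) * h m = (∑ p ∈ S, h p) ^ j := by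
  induction j with
  | zero => simp [powzA, h1]
  | succ j ih =>
    have e1 : ∀ m ∈ Icc 1 ((2 * P) ^ (j + 1)), (powzA S (j + 1) m : R) * h m =
        ∑ p ∈ S, (if p ∣ m then (powzA S j (m / p) : R) * h m else 0) := by
      intro m _
      rw [← Finset.sum_filter]
      show ((∑ p ∈ S.filter (fun p => p ∣ m), powzA S j (m / p) : ℕ) : R) * h m = _
      rw [Nat.cast_sum, Finset.sum_mul]
    rw [Finset.sum_congr rfl e1, Finset.sum_comm, pow_succ' (∑ p ∈ S, h p), ← ih, Finset.sum_mul]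
    refine Finset.sum_congr rfl fun p hp => ?_
    have hpb := hS hp
    unfold pb at hpb
    rw [Finset.mem_filter, Finset.mem_Ioc] at hpb
    obtain ⟨⟨_, hp2⟩, hpp⟩ := hpb
    rw [← Finset.sum_filter, Finset.mul_sum]
    have hinj : Set.InjOn (fun k : ℕ => p * k) (Icc 1 ((2 * P) ^ j) : Finset ℕ) :=
      fun a _ b _ hab => Nat.eq_of_mul_eq_mul_left hpp.pos hab
    have e2 : ∑ k ∈ Icc 1 ((2 * P) ^ j), h p * ((powzA S j k : R) * h k) =
        ∑ m ∈ (Icc 1 ((2 * P) ^ j)).image (fun k => p * k), (powzA S j (m / p) : R) * h m := by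
      rw [Finset.sum_image hinj]
      refine Finset.sum_congr rfl fun k hk => ?_
      rw [Finset.mem_Icc] at hk
      rw [Nat.mul_div_cancel_left _ hpp.pos, hm p hp k hk.1]
      ring
    rw [e2]
    symm
    refine Finset.sum_subset ?_ ?_
    · intro m hm'
      rw [Finset.mem_image] at hm'
      obtain ⟨k, hk, rfl⟩ := hm'
      rw [Finset.mem_Icc] at hk
      rw [Finset.mem_filter, Finset.mem_Icc]
      refine ⟨⟨Nat.mul_pos hpp.pos hk.1, ?_⟩, Dvd.intro _ rfl⟩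
      rw [pow_succ, mul_comm]
      exact Nat.mul_le_mul hk.2 hp2
    · intro m hm' hn
      rw [Finset.mem_filter] at hm'
      have : powzA S j (m / p) = 0 := by
        by_contra h0
        obtain ⟨-, h2, h3⟩ := powzA_supp hS j _ h0
        refine hn (Finset.mem_image.2 ⟨m / p, Finset.mem_Icc.2 ⟨h2, h3⟩, ?_⟩)
        exact Nat.mul_div_cancel' hm'.2
      rw [this, Nat.cast_zero, zero_mul]

theorem pow_z (P j : ℕ) (S : Finset ℕ) (hP : 1 ≤ P) (hS : S ⊆ pb P) :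
    ∃ a : ℕ → ℝ, (∀ m, 0 ≤ a m ∧ a m ≤ (j.factorial : ℝ)) ∧
      (∀ t : ℝ, ZZ S t ^ j
        = ∑ m ∈ Icc 1 ((2 * P) ^ j), (a m : ℂ) * (m : ℂ) ^ (-(1 / 2 : ℂ) + t * Complex.I)) ∧
      ∑ m ∈ Icc 1 ((2 * P) ^ j), a m / m ≤ 1 := by
  refine ⟨fun m => (powzA S j m : ℝ), fun m => ⟨Nat.cast_nonneg _, ?_⟩, fun t => ?_, ?_⟩
  · show (powzA S j m : ℝ) ≤ (j.factorial : ℝ)
    exact_mod_cast powzA_le hS j m
  · have h1 := powzA_sum (R := ℂ) hS (fun m => (m : ℂ) ^ (-(1 / 2 : ℂ) + t * Complex.I)) (by simp)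
      (fun p _ k _ => by
        push_cast
        rw [Complex.natCast_mul_natCast_cpow]) j
    unfold ZZ
    rw [← h1]
    refine Finset.sum_congr rfl fun m _ => ?_
    push_cast
    rfl
  · have h1 := powzA_sum (R := ℝ) hS (fun m => (1 : ℝ) / m) (by simp)
      (fun p _ k _ => by
        push_cast
        rw [one_div_mul_one_div]) j
    have h2 : ∑ m ∈ Icc 1 ((2 * P) ^ j), (powzA S j m : ℝ) / m = (∑ p ∈ S, (1 : ℝ) / p) ^ j := by
      rw [← h1]
      refine Finset.sum_congr rfl fun m _ => ?_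
      rw [mul_one_div]
    have hP0 : (0 : ℝ) < P := by exact_mod_cast hP
    have h3 : ∑ p ∈ S, (1 : ℝ) / p ≤ 1 := by
      have h4 : ∀ p ∈ S, (1 : ℝ) / p ≤ 1 / P := by
        intro p hp
        have hpb := hS hp
        unfold pb at hpb
        rw [Finset.mem_filter, Finset.mem_Ioc] at hpb
        exact one_div_le_one_div_of_le hP0 (by exact_mod_cast hpb.1.1.le)
      refine (Finset.sum_le_sum h4).trans ?_
      rw [Finset.sum_const, nsmul_eq_mul, mul_one_div, div_le_one hP0]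
      have h5 : S.card ≤ P := by
        refine (Finset.card_le_card hS).trans ?_
        unfold pb
        refine (Finset.card_filter_le _ _).trans ?_
        rw [Nat.card_Ioc]
        omega
      exact_mod_cast h5
    show ∑ m ∈ Icc 1 ((2 * P) ^ j), (powzA S j m : ℝ) / m ≤ 1
    rw [h2]
    exact pow_le_one₀ (Finset.sum_nonneg fun p _ => by positivity) h3

end Pool.Agent.H35.W

end

section

/-!
# W BadM: the measure of the set where the prime sum is large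

Proof.  Markov: `(P/D)^j vol ≤ ∫_{-T}^T ‖ZZ S t‖^{2j} dt = ∫ ‖ZZ S t ^ j‖^2 ≤ (2T + 4X(1 + log X)) ∑ a_m^2/m`, `X = (2P)^j`
(`pow_z`, `mean_v`), `∑ a_m^2/m ≤ j! ∑ a_m/m ≤ j!`.  (`ZZ S` is continuous: finite sum.)
-/

set_option autoImplicit false

namespace Pool.Agent.H35.W

open Finset MeasureTheory
open Pool.Agent.H76.EHB

theorem bad_m (P j : ℕ) (S : Finset ℕ) (T D : ℝ) (hP : 1 ≤ P) (hS : S ⊆ pb P) (hT : 0 ≤ T)
    (hD : 0 < D) :
    volume.real {t : ℝ | |t| ≤ T ∧ P / D < ‖ZZ S t‖ ^ 2}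
      ≤ (D / P) ^ j * ((2 * T + 4 * (2 * P : ℝ) ^ j * (1 + Real.log ((2 * P : ℝ) ^ j)))
        * j.factorial) := by
  have hP0 : (0 : ℝ) < P := by exact_mod_cast hP
  obtain ⟨a, ha, hpow, hsum⟩ := pow_z P j S hP hS
  set X : ℕ := (2 * P) ^ j with hX
  have hX1 : 1 ≤ X := Nat.one_le_pow _ _ (by omega)
  have hXr : (X : ℝ) = (2 * P : ℝ) ^ j := by
    rw [hX]
    push_cast
    ring
  have hcont : Continuous fun t : ℝ => ZZ S t := by
    unfold ZZ
    refine continuous_finsetSum _ fun k hk => ?_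
    have hk1 : k.Prime := (Finset.mem_filter.1 (hS hk)).2
    refine Continuous.const_cpow (by fun_prop) (Or.inl ?_)
    exact_mod_cast hk1.ne_zero
  have hgcont : Continuous fun t : ℝ => ‖ZZ S t ^ j‖ ^ 2 := by fun_prop
  have hmean := mean_v (fun m => (a m : ℂ)) X T hX1 hT
  have hsq : ∑ m ∈ Icc 1 X, ‖(a m : ℂ)‖ ^ 2 / m ≤ j.factorial := by
    calc ∑ m ∈ Icc 1 X, ‖(a m : ℂ)‖ ^ 2 / m ≤ ∑ m ∈ Icc 1 X, (j.factorial : ℝ) * (a m / m) := by
          refine Finset.sum_le_sum fun m _ => ?_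
          obtain ⟨h0, h1⟩ := ha m
          rw [Complex.norm_real, Real.norm_eq_abs, sq_abs, ← mul_div_assoc]
          refine div_le_div_of_nonneg_right ?_ (Nat.cast_nonneg _)
          rw [sq]
          exact mul_le_mul_of_nonneg_right h1 h0
      _ = (j.factorial : ℝ) * ∑ m ∈ Icc 1 X, a m / m := by rw [Finset.mul_sum]
      _ ≤ (j.factorial : ℝ) * 1 := mul_le_mul_of_nonneg_left hsum (Nat.cast_nonneg _)
      _ = j.factorial := mul_one _
  have hK0 : 0 ≤ 2 * T + 4 * (X : ℝ) * (1 + Real.log X) := by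
    have h1 : 0 ≤ Real.log (X : ℝ) := Real.log_nonneg (by exact_mod_cast hX1)
    positivity
  have hint : ∫ t in (-T)..T, ‖ZZ S t ^ j‖ ^ 2 ≤
      (2 * T + 4 * (X : ℝ) * (1 + Real.log X)) * j.factorial := by
    have h1 : ∫ t in (-T)..T, ‖ZZ S t ^ j‖ ^ 2 =
        ∫ t in (-T)..T, ‖∑ m ∈ Icc 1 X, (a m : ℂ) * (m : ℂ) ^ (-(1 / 2 : ℂ) + t * Complex.I)‖ ^ 2 := by
      refine intervalIntegral.integral_congr fun t _ => ?_
      show ‖ZZ S t ^ j‖ ^ 2 = _
      rw [hpow t]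
    rw [h1]
    exact hmean.trans (mul_le_mul_of_nonneg_left hsq hK0)
  set B : Set ℝ := {t : ℝ | |t| ≤ T ∧ P / D < ‖ZZ S t‖ ^ 2} with hB
  have hBm : MeasurableSet B := by
    have m1 : MeasurableSet {t : ℝ | |t| ≤ T} := measurableSet_le (by fun_prop) measurable_const
    have m2 : MeasurableSet {t : ℝ | (P : ℝ) / D < ‖ZZ S t‖ ^ 2} :=
      measurableSet_lt measurable_const (hcont.norm.pow 2).measurable
    exact m1.inter m2
  have hBsub : B ⊆ Set.Icc (-T) T := by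
    intro t ht
    exact abs_le.1 ht.1
  have hc0 : 0 ≤ (P : ℝ) / D := by positivity
  have h1 : volume.real B * ((P : ℝ) / D) ^ j ≤ ∫ t in B, ‖ZZ S t ^ j‖ ^ 2 := by
    have h2 : ∫ _ in B, ((P : ℝ) / D) ^ j = volume.real B * ((P : ℝ) / D) ^ j := by
      rw [setIntegral_const, smul_eq_mul]
    rw [← h2]
    refine setIntegral_mono_on ?_ ?_ hBm ?_
    · exact (continuous_const.integrableOn_Icc).mono_set hBsub
    · exact (hgcont.integrableOn_Icc).mono_set hBsub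
    · intro t ht
      rw [norm_pow, ← pow_mul, mul_comm, pow_mul]
      exact pow_le_pow_left₀ hc0 ht.2.le j
  have h2 : ∫ t in B, ‖ZZ S t ^ j‖ ^ 2 ≤ ∫ t in (-T)..T, ‖ZZ S t ^ j‖ ^ 2 := by
    rw [intervalIntegral.integral_of_le (by linarith), ← integral_Icc_eq_integral_Ioc]
    refine setIntegral_mono_set hgcont.integrableOn_Icc ?_ hBsub.eventuallyLE
    exact Filter.Eventually.of_forall fun t => by positivity
  have h3 : volume.real B * ((P : ℝ) / D) ^ j ≤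
      (2 * T + 4 * (X : ℝ) * (1 + Real.log X)) * j.factorial := h1.trans (h2.trans hint)
  have h4 : volume.real B = (D / P) ^ j * (volume.real B * ((P : ℝ) / D) ^ j) := by
    have h5 : (D / P) ^ j * ((P : ℝ) / D) ^ j = 1 := by
      rw [← mul_pow]
      have : D / P * (P / D) = 1 := by
        field_simp
      rw [this, one_pow]
    calc volume.real B = 1 * volume.real B := (one_mul _).symm
      _ = _ := by rw [← h5]; ring
  rw [h4]
  have h6 : (0 : ℝ) ≤ (D / P) ^ j := by positivity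
  have h7 := mul_le_mul_of_nonneg_left h3 h6
  rw [hXr] at h7
  exact h7

end Pool.Agent.H35.W

end

section

/-!
# W BadN: the measure of the bad set, choice of the exponent

Proof.  We may assume `c ≤ 1`.  Take `j = ⌈log T / log P⌉₊ ≥ 1`, so `T ≤ P^j` and `j ≤ log T/log P + 1`.  By `bad_m` (with `2T`, `D = L^E`):
`vol ≤ L^{Ej} P^{-j} (4 P^j + 4 · 2^j P^j (1 + j log(2P))) j! ≤ L^{Ej} 2^j · 16 L^2 · j!` (for `P ≤ x`, `T ≤ x^3`,
`j ≤ 3L + 1 ≤ 4L`, `1 + j log (2P) ≤ 2 · 4L · 2L`-like; adapt the constants) and `j! ≤ j^j ≤ (4L)^j`.  So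
`vol ≤ C L^2 (8 L^{E+1})^j ≤ C L^2 L^{(E+2) j}` (`L ≥ 8`) and `L^{(E+2) j} ≤ L^{E+2} · L^{(E+2) log T/log P} ≤ L^{E+2} T^{(E+2)/b}`
as `log P ≥ b log L`.  With `b ≥ 2 (E+2)/c` this is `L^{E+2} T^{c/2}` and `C L^{E+4} ≤ L^{E+5} ≤ T^{c/2}` for `T ≥ L^m`,
`m ≥ 2(E+5)/c`.
-/

set_option autoImplicit false

namespace Pool.Agent.H35.W

open Finset MeasureTheory
open Pool.Agent.H76.EHB

theorem bad_n (E : ℕ) (c : ℝ) (hc : 0 < c) : ∃ b m x0 : ℕ, ∀ x : ℕ, x0 ≤ x →
    ∀ (P : ℕ) (S : Finset ℕ) (T : ℝ), Real.log x ^ b ≤ P → P ≤ x → S ⊆ pb P →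
      Real.log x ^ m ≤ T → T ≤ (x : ℝ) ^ (3 : ℕ) →
      volume.real {t : ℝ | |t| ≤ 2 * T ∧ P / Real.log x ^ E < ‖ZZ S t‖ ^ 2} ≤ T ^ c := by
  obtain ⟨b, hb⟩ := exists_nat_ge (2 * ((E : ℝ) + 2) / c + 1)
  obtain ⟨m, hm⟩ := exists_nat_ge (2 * ((E : ℝ) + 5) / c + 1)
  obtain ⟨x0, hx0⟩ := exists_nat_ge (Real.exp 40)
  refine ⟨b, m, x0, fun x hx P S T hP hPx hS hT1 hT2 => ?_⟩
  have hxr : Real.exp 40 ≤ (x : ℝ) := hx0.trans (by exact_mod_cast hx)
  have hx1 : (0 : ℝ) < x := (Real.exp_pos 40).trans_le hxr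
  set L := Real.log x with hL
  have hL40 : 40 ≤ L := (Real.le_log_iff_exp_le hx1).2 hxr
  have hL0 : 0 < L := by linarith only [hL40]
  have hE0 : 0 ≤ 2 * ((E : ℝ) + 2) / c := by positivity
  have hE1 : 0 ≤ 2 * ((E : ℝ) + 5) / c := by positivity
  have hb1 : (1 : ℝ) ≤ b := by linarith only [hb, hE0]
  have hm1 : (1 : ℝ) ≤ m := by linarith only [hm, hE1]
  set l := Real.log L with hl
  have hl1 : 1 ≤ l := by
    rw [hl, Real.le_log_iff_exp_le hL0]
    have := Real.exp_one_lt_d9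
    linarith only [hL40, this]
  have hLp : ∀ k : ℕ, L ^ k = Real.exp (k * l) := by
    intro k
    rw [Real.exp_nat_mul, hl, Real.exp_log hL0]
  have hLge1 : ∀ k : ℕ, 1 ≤ L ^ k := fun k => one_le_pow₀ (by linarith only [hL40])
  have hP1 : (1 : ℝ) ≤ P := (hLge1 b).trans hP
  have hP0 : (0 : ℝ) < P := by linarith only [hP1]
  have hPn : 1 ≤ P := by exact_mod_cast hP1
  have hT0 : 0 < T := lt_of_lt_of_le (by linarith only [hLge1, hLge1 m]) hT1
  have hlP : b * l ≤ Real.log P := by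
    rw [Real.le_log_iff_exp_le hP0, ← hLp]
    exact hP
  have hlT : m * l ≤ Real.log T := by
    rw [Real.le_log_iff_exp_le hT0, ← hLp]
    exact hT1
  have hlT2 : Real.log T ≤ 3 * L := by
    have h := Real.log_le_log hT0 hT2
    rw [Real.log_pow] at h
    push_cast at h
    exact h
  have hlP1 : 1 ≤ Real.log P := by nlinarith only [hb, hE0, hlP, hl1]
  have hlP0 : 0 < Real.log P := by linarith only [hlP1]
  have hlT0 : 0 ≤ Real.log T := le_trans (by positivity) hlT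
  set r := Real.log T / Real.log P with hr
  have hr0 : 0 ≤ r := div_nonneg hlT0 hlP0.le
  obtain ⟨j, hj⟩ : ∃ j, j = ⌈r⌉₊ := ⟨_, rfl⟩
  have hj1 : r ≤ j := hj ▸ Nat.le_ceil r
  have hj2 : (j : ℝ) ≤ r + 1 := hj ▸ (Nat.ceil_lt_add_one hr0).le
  have hrL : r ≤ 3 * L := by
    rw [hr, div_le_iff₀ hlP0]
    nlinarith only [hlT2, hlP1, hL40]
  have hj4 : (j : ℝ) ≤ 4 * L := by linarith only [hL40, hj2, hrL]
  have hTP : T ≤ (P : ℝ) ^ j := by
    rw [← Real.log_le_log_iff hT0 (by positivity), Real.log_pow]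
    have : r * Real.log P ≤ j * Real.log P := mul_le_mul_of_nonneg_right hj1 hlP0.le
    rw [hr, div_mul_cancel₀ _ hlP0.ne'] at this
    exact this
  have h2P : Real.log (2 * P) ≤ 2 * L := by
    have h1 : (2 * P : ℝ) ≤ (x : ℝ) ^ 2 := by
      have h2 : (2 : ℝ) ≤ x := by
        have := Real.add_one_le_exp (40 : ℝ)
        linarith only [hxr, this]
      have h3 : (P : ℝ) ≤ x := by exact_mod_cast hPx
      nlinarith only [h3, h2]
    have h := Real.log_le_log (by positivity) h1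
    rw [Real.log_pow] at h
    push_cast at h
    exact h
  have hmain := bad_m P j S (2 * T) (L ^ E) hPn hS (by positivity) (by positivity)
  refine hmain.trans ?_
  have h2j : (1 : ℝ) ≤ 2 ^ j := one_le_pow₀ (by norm_num)
  have hPj : (0 : ℝ) < (P : ℝ) ^ j := by positivity
  have hlog : Real.log ((2 * P : ℝ) ^ j) ≤ 8 * L ^ 2 := by
    rw [Real.log_pow]
    have h1 : 0 ≤ Real.log (2 * (P : ℝ)) := Real.log_nonneg (by linarith only [hP1])
    calc (j : ℝ) * Real.log (2 * P) ≤ (4 * L) * (2 * L) :=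
          mul_le_mul hj4 h2P h1 (by positivity)
      _ = 8 * L ^ 2 := by ring
  have hX : 2 * (2 * T) + 4 * (2 * P : ℝ) ^ j * (1 + Real.log ((2 * P : ℝ) ^ j)) ≤
      (P : ℝ) ^ j * (2 ^ j * (40 * L ^ 2)) := by
    have h1 : 2 * (2 * T) ≤ 4 * ((P : ℝ) ^ j * 2 ^ j) := by
      have h6 : (P : ℝ) ^ j * 1 ≤ (P : ℝ) ^ j * 2 ^ j := mul_le_mul_of_nonneg_left h2j hPj.le
      linarith only [hTP, h6]
    have h2 : 4 * (2 * P : ℝ) ^ j * (1 + Real.log ((2 * P : ℝ) ^ j)) ≤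
        4 * ((P : ℝ) ^ j * 2 ^ j) * (1 + 8 * L ^ 2) := by
      rw [mul_pow, mul_comm ((2 : ℝ) ^ j)]
      refine mul_le_mul_of_nonneg_left ?_ (by positivity)
      rw [mul_pow, mul_comm ((2 : ℝ) ^ j)] at hlog
      linarith only [hlog]
    have h3 : 0 < (P : ℝ) ^ j * 2 ^ j := by positivity
    have h4 : (1 : ℝ) ≤ L ^ 2 := hLge1 2
    refine (add_le_add h1 h2).trans ?_
    have h5 : 4 * ((P : ℝ) ^ j * 2 ^ j) + 4 * ((P : ℝ) ^ j * 2 ^ j) * (1 + 8 * L ^ 2) =
        ((P : ℝ) ^ j * 2 ^ j) * (8 + 32 * L ^ 2) := by ring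
    rw [h5, ← mul_assoc ((P : ℝ) ^ j)]
    exact mul_le_mul_of_nonneg_left (by linarith only [h4]) h3.le
  have hfac : (j.factorial : ℝ) ≤ (4 * L) ^ j := by
    have h1 : (j.factorial : ℝ) ≤ (j : ℝ) ^ j := by exact_mod_cast Nat.factorial_le_pow j
    exact h1.trans (pow_le_pow_left₀ (Nat.cast_nonneg _) hj4 j)
  have hstep : (L ^ E / P) ^ j * ((2 * (2 * T) + 4 * (2 * P : ℝ) ^ j * (1 + Real.log ((2 * P : ℝ) ^ j)))
      * j.factorial) ≤ 40 * L ^ 2 * (8 * L ^ (E + 1)) ^ j := by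
    have h0 : 0 ≤ (L ^ E / P) ^ j := by positivity
    have h1 : (2 * (2 * T) + 4 * (2 * P : ℝ) ^ j * (1 + Real.log ((2 * P : ℝ) ^ j))) * j.factorial ≤
        ((P : ℝ) ^ j * (2 ^ j * (40 * L ^ 2))) * (4 * L) ^ j :=
      mul_le_mul hX hfac (Nat.cast_nonneg _) (by positivity)
    refine (mul_le_mul_of_nonneg_left h1 h0).trans (le_of_eq ?_)
    have e1 : (8 * L ^ (E + 1)) ^ j = (L ^ E) ^ j * 2 ^ j * (4 * L) ^ j := by
      rw [← mul_pow, ← mul_pow]
      congr 1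
      ring
    rw [e1, div_pow]
    field_simp
  refine hstep.trans ?_
  have h8 : (8 * L ^ (E + 1)) ^ j ≤ (L ^ (E + 2)) ^ j := by
    refine pow_le_pow_left₀ (by positivity) ?_ j
    have e1 : L ^ (E + 2) = L * L ^ (E + 1) := by ring
    rw [e1]
    exact mul_le_mul_of_nonneg_right (by linarith only [hL40]) (by positivity)
  have h40 : 40 * L ^ 2 ≤ L ^ 3 := by
    have e1 : L ^ 3 = L * L ^ 2 := by ring
    rw [e1]
    exact mul_le_mul_of_nonneg_right hL40 (by positivity)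
  refine (mul_le_mul h40 h8 (by positivity) (by positivity)).trans ?_
  rw [← pow_mul, ← pow_add, hLp, Real.rpow_def_of_pos hT0, Real.exp_le_exp]
  have hf1 : l * ((E : ℝ) + 5) ≤ c / 2 * Real.log T := by
    have h1 : ((E : ℝ) + 5) ≤ c / 2 * m := by
      have h2 : 2 * ((E : ℝ) + 5) / c ≤ m := by linarith only [hm]
      rw [div_le_iff₀ hc] at h2
      linarith only [h2]
    calc l * ((E : ℝ) + 5) ≤ l * (c / 2 * m) := mul_le_mul_of_nonneg_left h1 (by linarith only [hl1])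
      _ = c / 2 * (m * l) := by ring
      _ ≤ c / 2 * Real.log T := mul_le_mul_of_nonneg_left hlT (by linarith only [hc])
  have hf2 : ((E : ℝ) + 2) * (l * r) ≤ c / 2 * Real.log T := by
    have h1 : l * r ≤ Real.log T / b := by
      rw [hr, le_div_iff₀ (by linarith only [hb, hE0]), mul_div_assoc', div_mul_eq_mul_div, div_le_iff₀ hlP0]
      calc l * Real.log T * b = Real.log T * (b * l) := by ring
        _ ≤ Real.log T * Real.log P := mul_le_mul_of_nonneg_left hlP hlT0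
    have h3 : ((E : ℝ) + 2) ≤ c / 2 * b := by
      have h2 : 2 * ((E : ℝ) + 2) / c ≤ b := by linarith only [hb]
      rw [div_le_iff₀ hc] at h2
      linarith only [h2]
    have h4 : 0 ≤ Real.log T / b := div_nonneg hlT0 (by linarith only [hb, hE0])
    calc ((E : ℝ) + 2) * (l * r) ≤ ((E : ℝ) + 2) * (Real.log T / b) :=
          mul_le_mul_of_nonneg_left h1 (by positivity)
      _ ≤ (c / 2 * b) * (Real.log T / b) := mul_le_mul_of_nonneg_right h3 h4
      _ = c / 2 * Real.log T := by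
          have : (b : ℝ) ≠ 0 := by linarith only [hb, hE0]
          field_simp
  push_cast
  have hf3 : ((E : ℝ) + 2) * (l * j) ≤ ((E : ℝ) + 2) * (l * (r + 1)) :=
    mul_le_mul_of_nonneg_left (mul_le_mul_of_nonneg_left hj2 (by linarith only [hl1])) (by positivity)
  have e1 : ((3 : ℝ) + ((E : ℝ) + 2) * j) * l = 3 * l + ((E : ℝ) + 2) * (l * j) := by ring
  have e2 : ((E : ℝ) + 2) * (l * (r + 1)) = ((E : ℝ) + 2) * (l * r) + ((E : ℝ) + 2) * l := by ring
  have e3 : l * ((E : ℝ) + 5) = 3 * l + ((E : ℝ) + 2) * l := by ring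
  rw [e1]
  linarith only [hf1, hf2, hf3]

end Pool.Agent.H35.W

end
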