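import Pool.Agent.H43.PS.M09
import Pool.Agent.H43.PS.M24

/-! The parts of this file: H76.MU.IIG, H76.MU.IIM, H43.CH.JmS. -/

section

/-!
# MU IIG: the high frequencies

Copy of `Pool/Agent/H76/SP/IIL.lean` (its lemmas are private: copy with a new prefix `IIG_`), with `α = 0`, general `Θ` (`1/x ≤ Θ ≤ 1/L^6`), `g` bounded by `1`
(`S2 g N ≤ N ≤ x`, `∑|g| ≤ x`) and only the frequencies `|t| > T0 = L^{4m}` (so the part (0) and the hypothesis `CorL.low` disappear).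
Notation: `G = ge g N 0 0 Θ s`, `T1 = L^4 (Θ x + 1) ≤ x/L^2 + L^4 ≤ x`, `M ≥ x/L^{C0}`.
`SP.mel_l` for `|t| ≤ T1`: `2|t|/(Θ M) ≤ 2 L^4 (Θ x + 1) L^{C0}/(Θ x) ≤ 4 L^{C0+4}` because `Θ x ≥ 1`; with `A_y(t) = cor g 0 M 0 (t/2π) y`
   `|Mel G t|^2 ≤ (L^{C7}/x) (|A_N(t)|^2 + (1/x) ∑_{y ∈ Ioc M N} |A_y(t)|^2)`, `C7 = 5 C0 + 13`.                           (*)
 (1) `T0 < |t| ≤ T1`, `|ZZ S t|^2 ≤ P/L^{E+3}`: `≤ (P/L^{E+3}) ∫ |Mel G|^2 ≤ (P/L^{E+3}) 2π · 2 S2 ≤ 13 P x/L^{E+3}` (`ge_L2`, Parseval for `Mel` as in `IIL`).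
 (2) `T0 < |t| ≤ T1`, `|ZZ S t|^2 > P/L^{E+3}`: dyadic sets as in `IIL` (`bad_n (E + 3) η`); after the substitution `t = 2 π τ` they satisfy `BS η T B'`,
     `T = 2^i T0/(2π) ≥ L^m`, `T ≤ x`; `CorM.large`: as in `IIL`, `K = C7 + E + 2`.
 (3) `|t| > T1`: `mel_tl` (`S0 = M`, `a0 = 0`, `a = 0`): `|Mel G t| ≤ 3 x exp(-|t|/(40 (Θ N + 1)))` and `T1/(40 (Θ N + 1)) ≥ L^4/40`, as in `IIL`, part (3).
`IIL_core` then gives the bound of `∫_{|t| > T0}` (drop its part (0): bound the integrand by the other three functions only for `|t| > T0`).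
-/

set_option autoImplicit false

namespace Pool.Agent.H76.MU

open Finset MeasureTheory
open Pool.Agent.H91.PK (ee)
open Pool.Agent.H76.EHB
open Pool.Agent.H35.W

/-- the splitting of the integral -/
private theorem IIG_core (F M : ℝ → ℝ) (P8 ZB T0 T1 K c3 : ℝ) (I : Finset ℕ) (𝓑 : ℕ → Set ℝ)
    (μ : ℕ → ℝ) (hF : ∀ t, 0 ≤ F t) (hF8 : ∀ t, F t ≤ P8) (hM : ∀ t, 0 ≤ M t)
    (hiM : Integrable M) (hK : ∫ t, M t ≤ K) (hiFM : Integrable (fun t => F t * M t))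
    (hZB : 0 ≤ ZB)
    (hBm : ∀ i ∈ I, MeasurableSet (𝓑 i))
    (hBμ : ∀ i ∈ I, ∫ t in 𝓑 i, M t ≤ μ i)
    (hcov : ∀ t, T0 < |t| → |t| ≤ T1 → ZB < F t → ∃ i ∈ I, t ∈ 𝓑 i)
    (hc3 : 0 ≤ c3) (htl : ∀ t, T1 < |t| → M t ≤ c3 * (1 + t ^ 2)⁻¹) :
    ∫ t in {t : ℝ | T0 < |t|}, F t * M t ≤ ZB * K + ∑ i ∈ I, P8 * μ i + P8 * c3 * Real.pi := by
  have hP8 : 0 ≤ P8 := (hF 0).trans (hF8 0)
  let g2 : ℝ → ℝ := fun t => ZB * M t
  let g3 : ℝ → ℝ := fun t => ∑ i ∈ I, (𝓑 i).indicator (fun t => P8 * M t) t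
  let g4 : ℝ → ℝ := fun t => (P8 * c3) * (1 + t ^ 2)⁻¹
  have hg2 : Integrable g2 := hiM.const_mul ZB
  have hg3i : ∀ i ∈ I, Integrable ((𝓑 i).indicator (fun t => P8 * M t)) := fun i hi =>
    (hiM.const_mul P8).indicator (hBm i hi)
  have hg3 : Integrable g3 := integrable_finsetSum I hg3i
  have hg4 : Integrable g4 := integrable_inv_one_add_sq.const_mul (P8 * c3)
  have hn2 : ∀ t, 0 ≤ g2 t := fun t => mul_nonneg hZB (hM t)
  have hn3i : ∀ i ∈ I, ∀ t, 0 ≤ (𝓑 i).indicator (fun t => P8 * M t) t := fun i hi t =>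
    Set.indicator_nonneg (fun u _ => mul_nonneg hP8 (hM u)) t
  have hn3 : ∀ t, 0 ≤ g3 t := fun t => Finset.sum_nonneg fun i hi => hn3i i hi t
  have hn4 : ∀ t, 0 ≤ g4 t := fun t => by positivity
  have hmeas : MeasurableSet {t : ℝ | T0 < |t|} :=
    (isOpen_lt continuous_const continuous_abs).measurableSet
  have hpt : ∀ t, {t : ℝ | T0 < |t|}.indicator (fun t => F t * M t) t ≤ g2 t + g3 t + g4 t := by
    intro t
    have a2 := hn2 t
    have a3 := hn3 t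
    have a4 := hn4 t
    by_cases h0 : T0 < |t|
    · rw [Set.indicator_of_mem (show t ∈ {t : ℝ | T0 < |t|} from h0)]
      by_cases h1 : |t| ≤ T1
      · by_cases h2 : ZB < F t
        · obtain ⟨i, hi, hti⟩ := hcov t h0 h1 h2
          have h3 : P8 * M t ≤ g3 t := by
            have h4 : (𝓑 i).indicator (fun t => P8 * M t) t ≤ g3 t :=
              Finset.single_le_sum (f := fun i => (𝓑 i).indicator (fun t => P8 * M t) t)
                (fun j hj => hn3i j hj t) hi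
            rwa [Set.indicator_of_mem hti] at h4
          have h4 : F t * M t ≤ P8 * M t := mul_le_mul_of_nonneg_right (hF8 t) (hM t)
          linarith only [a2, a4, h3, h4]
        · push Not at h2
          have h3 : F t * M t ≤ ZB * M t := mul_le_mul_of_nonneg_right h2 (hM t)
          have h4 : g2 t = ZB * M t := rfl
          linarith only [a3, a4, h3]
      · push Not at h1
        have h2 : F t * M t ≤ P8 * (c3 * (1 + t ^ 2)⁻¹) :=
          mul_le_mul (hF8 t) (htl t h1) (hM t) hP8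
        have h3 : g4 t = P8 * (c3 * (1 + t ^ 2)⁻¹) := by
          show (P8 * c3) * (1 + t ^ 2)⁻¹ = _
          ring
        linarith only [a2, a3, h2]
    · rw [Set.indicator_of_notMem (show t ∉ {t : ℝ | T0 < |t|} from h0)]
      linarith only [a2, a3, a4]
  rw [← integral_indicator hmeas]
  have hle : ∫ t, {t : ℝ | T0 < |t|}.indicator (fun t => F t * M t) t ≤
      ∫ t, (g2 t + g3 t + g4 t) :=
    integral_mono (hiFM.indicator hmeas) ((hg2.add hg3).add hg4) hpt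
  have e2 : ∫ t, g2 t ≤ ZB * K := by
    show ∫ t, ZB * M t ≤ _
    rw [integral_const_mul]
    exact mul_le_mul_of_nonneg_left hK hZB
  have e3 : ∫ t, g3 t ≤ ∑ i ∈ I, P8 * μ i := by
    show ∫ t, ∑ i ∈ I, (𝓑 i).indicator (fun t => P8 * M t) t ≤ _
    rw [integral_finsetSum I hg3i]
    refine Finset.sum_le_sum fun i hi => ?_
    rw [integral_indicator (hBm i hi), integral_const_mul]
    exact mul_le_mul_of_nonneg_left (hBμ i hi) hP8
  have e4 : ∫ t, g4 t = P8 * c3 * Real.pi := by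
    show ∫ t, (P8 * c3) * (1 + t ^ 2)⁻¹ = _
    rw [integral_const_mul, integral_univ_inv_one_add_sq]
  have e5 : ∫ t, (g2 t + g3 t + g4 t) = (∫ t, g2 t) + (∫ t, g3 t) + ∫ t, g4 t := by
    have k1 : ∫ t, (g2 t + g3 t + g4 t) = (∫ t, (g2 t + g3 t)) + ∫ t, g4 t :=
      integral_add (hg2.add hg3) hg4
    have k2 : ∫ t, (g2 t + g3 t) = (∫ t, g2 t) + ∫ t, g3 t := integral_add hg2 hg3
    rw [k1, k2]
  linarith only [hle, e2, e3, e4, e5]

/-- the exponential decay against `1/(1+t^2)` -/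
private theorem IIG_exp (t D T : ℝ) (hD : 1 ≤ D) (hT : 20 ≤ T) (ht : T * D ≤ |t|) :
    Real.exp (-(|t| / (20 * D))) ≤ 3208 * D ^ 2 * Real.exp (-(T / 40)) * (1 + t ^ 2)⁻¹ := by
  have hD0 : 0 < D := by linarith only [hD]
  set u := |t| / (20 * D) with hu
  have ht2 : |t| = 20 * D * u := by rw [hu]; field_simp
  have hu1 : T / 20 ≤ u := by
    rw [hu, le_div_iff₀ (by positivity)]
    calc T / 20 * (20 * D) = T * D := by ring
      _ ≤ |t| := ht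
  have hu2 : 1 ≤ u := by linarith only [hT, hu1]
  have h1 : t ^ 2 = 400 * D ^ 2 * u ^ 2 := by
    rw [← sq_abs, ht2]; ring
  have h2 : u ^ 2 ≤ 8 * Real.exp (u / 2) := by
    have := Real.quadratic_le_exp_of_nonneg (show 0 ≤ u / 2 by linarith only [hT, hu1])
    nlinarith only [hT, hu1, this]
  have h3 : 1 + t ^ 2 ≤ 401 * D ^ 2 * u ^ 2 := by
    rw [h1]
    have : 1 ≤ D ^ 2 * u ^ 2 := one_le_mul_of_one_le_of_one_le (one_le_pow₀ hD) (one_le_pow₀ hu2)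
    linarith only [this]
  rw [← div_eq_mul_inv, le_div_iff₀ (by positivity)]
  have h4 : Real.exp (-u) = Real.exp (-(u / 2)) * Real.exp (-(u / 2)) := by
    rw [← Real.exp_add]; congr 1; ring
  have h5 : Real.exp (-(u / 2)) * Real.exp (u / 2) = 1 := by
    rw [← Real.exp_add]; simp
  have h6 : Real.exp (-(u / 2)) ≤ Real.exp (-(T / 40)) := Real.exp_le_exp.2 (by linarith only [hu1])
  calc Real.exp (-u) * (1 + t ^ 2) ≤ Real.exp (-u) * (401 * D ^ 2 * (8 * Real.exp (u / 2))) := by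
        apply mul_le_mul_of_nonneg_left _ (Real.exp_pos _).le
        exact h3.trans (mul_le_mul_of_nonneg_left h2 (by positivity))
    _ = 3208 * D ^ 2 * Real.exp (-(u / 2)) * (Real.exp (-(u / 2)) * Real.exp (u / 2)) := by
        rw [h4]; ring
    _ = 3208 * D ^ 2 * Real.exp (-(u / 2)) := by rw [h5, mul_one]
    _ ≤ 3208 * D ^ 2 * Real.exp (-(T / 40)) := mul_le_mul_of_nonneg_left h6 (by positivity)

private theorem IIG_ZZ_cont (S : Finset ℕ) (hS : ∀ k ∈ S, 1 ≤ k) : Continuous (ZZ S) := by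
  unfold ZZ
  refine continuous_finsetSum _ fun k hk => ?_
  have hk0 : (k : ℂ) ≠ 0 := by
    have := hS k hk
    exact_mod_cast (by omega : k ≠ 0)
  exact Continuous.const_cpow (by fun_prop) (Or.inl hk0)

private theorem IIG_fin4 (X L P w : ℝ) (E : ℕ) (hX2 : 2 ≤ X) (hLbig : 1000000 ≤ L)
    (hP0 : 0 < P) (hw1 : 1 ≤ w) (hexp : Real.exp L = X) (hLE : L ^ (E + 3) ≤ X) (hLX : L ≤ X) :
    8 * P * (9 * (X ^ 2 * L ^ 2) * (3208 * (2 * X) ^ 2 * Real.exp (-(L ^ 4 / 40))))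
      * Real.pi ≤ 1 / 4 * (P * X / L ^ E * w ^ 2) := by
  have hL0 : 0 < L := by linarith
  have hL1 : 1 ≤ L := by linarith only [hLbig]
  have hX0 : 0 < X := by linarith only [hLbig, hLX]
  have hw2 : 1 ≤ w ^ 2 := one_le_pow₀ hw1
  have h1 : Real.exp (-(L ^ 4 / 40)) ≤ 1 / X ^ 5 := by
    have h2 : 5 * L ≤ L ^ 4 / 40 := by
      have h3 : L ^ 4 = L ^ 3 * L := by ring
      have h4 : 200 ≤ L ^ 3 := by
        calc (200 : ℝ) ≤ L := by linarith only [hLbig]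
          _ = L ^ 1 := (pow_one L).symm
          _ ≤ L ^ 3 := pow_le_pow_right₀ hL1 (by norm_num)
      have h5 : 200 * L ≤ L ^ 3 * L := mul_le_mul_of_nonneg_right h4 hL0.le
      linarith only [h5]
    calc Real.exp (-(L ^ 4 / 40)) ≤ Real.exp (-(5 * L)) := Real.exp_le_exp.2 (by linarith only [h2])
      _ = 1 / X ^ 5 := by
          rw [Real.exp_neg, ← hexp, ← Real.exp_nat_mul, one_div]
          norm_num
  have h2 : Real.pi ≤ 4 := Real.pi_lt_four.le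
  have h3 : L ^ (E + 2) * 3695616 * 16 ≤ X ^ 2 := by
    have h4 : L ^ (E + 3) = L * L ^ (E + 2) := by ring
    have h5 : 1000000 * L ^ (E + 2) ≤ L * L ^ (E + 2) :=
      mul_le_mul_of_nonneg_right hLbig (by positivity)
    have h6 : 1000000 * L ^ (E + 2) ≤ X := by linarith only [hLE, h4, h5]
    have h7 : 100 ≤ X := by linarith only [hLbig, hLX]
    have h8 : 100 * (1000000 * L ^ (E + 2)) ≤ X * X := mul_le_mul h7 h6 (by positivity) hX0.le
    have h9 : 0 < L ^ (E + 2) := by positivity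
    linarith only [h8, h9]
  calc 8 * P * (9 * (X ^ 2 * L ^ 2) * (3208 * (2 * X) ^ 2 * Real.exp (-(L ^ 4 / 40)))) * Real.pi
      ≤ 8 * P * (9 * (X ^ 2 * L ^ 2) * (3208 * (2 * X) ^ 2 * (1 / X ^ 5))) * 4 := by
        gcongr
    _ = P * X / L ^ E * ((L ^ (E + 2) * 3695616) / X ^ 2) := by
        field_simp
        ring
    _ ≤ P * X / L ^ E * (1 / 4) := by
        apply mul_le_mul_of_nonneg_left _ (by positivity)
        rw [div_le_div_iff₀ (by positivity) (by norm_num)]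
        have h9 : 0 < L ^ (E + 2) := by positivity
        linarith only [h3, h9]
    _ = 1 / 4 * (P * X / L ^ E * 1) := by ring
    _ ≤ 1 / 4 * (P * X / L ^ E * w ^ 2) := by gcongr

private theorem IIG_fin3 (X L P : ℝ) (C7 E K n : ℕ) (I : Finset ℕ) (hX1 : 1 ≤ X)
    (hLbig : 1000000 ≤ L) (hP0 : 0 < P) (hK : K = C7 + E + 2) (hn : n = ⌈4 * L⌉₊)
    (hI : I ⊆ range n) :
    ∑ _i ∈ I, 8 * P * (4 * Real.pi * X * L ^ C7 / L ^ K) ≤ 1 / 4 * (P * X / L ^ E) := by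
  have hL0 : 0 < L := by linarith only [hLbig]
  have hX0 : 0 < X := by linarith only [hX1]
  have h2 : (I.card : ℝ) ≤ 5 * L := by
    have h3 : I.card ≤ n := (Finset.card_le_card hI).trans (by rw [Finset.card_range])
    have h4 : (n : ℝ) < 4 * L + 1 := by
      rw [hn]
      exact Nat.ceil_lt_add_one (by positivity)
    have h5 : (I.card : ℝ) ≤ n := by exact_mod_cast h3
    linarith only [hLbig, h4, h5]
  have hpi : Real.pi ≤ 4 := Real.pi_lt_four.le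
  rw [Finset.sum_const, nsmul_eq_mul]
  calc (I.card : ℝ) * (8 * P * (4 * Real.pi * X * L ^ C7 / L ^ K))
      ≤ (5 * L) * (8 * P * (4 * 4 * X * L ^ C7 / L ^ K)) := by
        gcongr
    _ = (P * X / L ^ E) * (640 / L) := by
        rw [hK]
        field_simp
        ring
    _ ≤ (P * X / L ^ E) * (1 / 4) := by
        apply mul_le_mul_of_nonneg_left _ (by positivity)
        rw [div_le_iff₀ hL0]
        linarith only [hLbig]
    _ = 1 / 4 * (P * X / L ^ E) := by ring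

/-- the change of variables `t = 2 π τ` -/
private theorem IIG_cv (f : ℝ → ℝ) (B : Set ℝ) (hB : MeasurableSet B) :
    ∫ t in B, f (t / (2 * Real.pi)) =
      2 * Real.pi * ∫ τ in ((2 * Real.pi) * ·) ⁻¹' B, f τ := by
  have hpi : (0 : ℝ) < 2 * Real.pi := by positivity
  have hB' : MeasurableSet (((2 * Real.pi) * ·) ⁻¹' B) := (measurable_const_mul (2 * Real.pi)) hB
  rw [← integral_indicator hB, ← integral_indicator hB']
  have h1 : B.indicator (fun t => f (t / (2 * Real.pi))) =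
      fun t => ((((2 * Real.pi) * ·) ⁻¹' B).indicator f) (t / (2 * Real.pi)) := by
    funext t
    have h2 : 2 * Real.pi * (t / (2 * Real.pi)) = t := by field_simp
    by_cases ht : t ∈ B
    · rw [Set.indicator_of_mem ht, Set.indicator_of_mem]
      simp only [Set.mem_preimage]
      rw [h2]
      exact ht
    · rw [Set.indicator_of_notMem ht, Set.indicator_of_notMem]
      simp only [Set.mem_preimage]
      rw [h2]
      exact ht
  rw [h1, Measure.integral_comp_div, abs_of_pos hpi, smul_eq_mul]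

private theorem IIG_vol (B : Set ℝ) :
    volume.real (((2 * Real.pi) * ·) ⁻¹' B) = (2 * Real.pi)⁻¹ * volume.real B := by
  have hpi : (0 : ℝ) < 2 * Real.pi := by positivity
  rw [measureReal_def, measureReal_def, Real.volume_preimage_mul_left hpi.ne',
    ENNReal.toReal_mul, ENNReal.toReal_ofReal (abs_nonneg _), abs_of_pos (inv_pos.mpr hpi)]

private theorem IIG_piece (Mt : ℝ → ℝ) (f : ℕ → ℝ → ℝ) (B : Set ℝ) (a c J : ℝ) (N : ℕ)
    (s : Finset ℕ) (hB : MeasurableSet B) (hMi : IntegrableOn Mt B)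
    (hfi : ∀ y, IntegrableOn (f y) B) (ha : 0 ≤ a) (hc : 0 ≤ c) (hs : ∀ y ∈ s, y ≤ N)
    (hM : ∀ t ∈ B, Mt t ≤ a * (f N t + c * ∑ y ∈ s, f y t))
    (hJ : ∀ y, y ≤ N → ∫ t in B, f y t ≤ J) :
    ∫ t in B, Mt t ≤ a * (J + c * (s.card * J)) := by
  have h1 : IntegrableOn (fun t => ∑ y ∈ s, f y t) B := integrable_finsetSum s fun y _ => hfi y
  have h2 : IntegrableOn (fun t => f N t + c * ∑ y ∈ s, f y t) B := (hfi N).add (h1.const_mul c)
  refine (setIntegral_mono_on hMi (h2.const_mul a) hB hM).trans ?_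
  rw [integral_const_mul, integral_add (hfi N) (h1.const_mul c), integral_const_mul,
    integral_finsetSum s fun y _ => hfi y]
  apply mul_le_mul_of_nonneg_left _ ha
  apply add_le_add (hJ N le_rfl)
  apply mul_le_mul_of_nonneg_left _ hc
  refine (Finset.sum_le_sum fun y hy => hJ y (hs y hy)).trans ?_
  rw [Finset.sum_const, nsmul_eq_mul]

private theorem IIG_cor_cont (g : ℕ → ℝ) (M : ℕ) (α : ℝ) (y : ℕ) :
    Continuous (fun τ : ℝ => ‖cor g 0 M α τ y‖ ^ 2) := by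
  refine (Continuous.norm ?_).pow 2
  unfold cor
  refine continuous_finsetSum _ fun n _ => continuous_const.mul ?_
  exact continuous_ee.comp (by fun_prop)

/-- `∑ |g| ≤ N` -/
private theorem IIG_l1 (g : ℕ → ℝ) (N : ℕ) (X : ℝ) (hN : (N : ℝ) ≤ X) (hb : ∀ n, |g n| ≤ 1) :
    (∑ n ∈ Icc 1 N, |g n|) ^ 2 ≤ X ^ 2 := by
  have h1 : ∑ n ∈ Icc 1 N, |g n| ≤ N := by
    refine (Finset.sum_le_sum fun n _ => hb n).trans ?_
    simp
  exact pow_le_pow_left₀ (Finset.sum_nonneg fun n _ => abs_nonneg _) (h1.trans hN) 2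

private theorem IIG_S2 (g : ℕ → ℝ) (N : ℕ) (X : ℝ) (hN : (N : ℝ) ≤ X) (hb : ∀ n, |g n| ≤ 1) :
    S2 g N ≤ X := by
  have h1 : S2 g N ≤ N := by
    unfold S2
    refine (Finset.sum_le_sum (g := fun _ => (1 : ℝ)) fun n _ => ?_).trans ?_
    · have := hb n
      rw [← sq_abs]
      exact pow_le_one₀ (abs_nonneg _) this
    · simp
  exact h1.trans hN

private theorem IIG_fin2 (X L P ZB : ℝ) (E : ℕ) (hX0 : 0 < X) (hLbig : 1000000 ≤ L)
    (hP0 : 0 < P) (hZB : ZB = P / L ^ (E + 3)) :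
    ZB * (4 * Real.pi * X) ≤ 1 / 4 * (P * X / L ^ E) := by
  have hL0 : 0 < L := by linarith only [hLbig]
  have hL1 : 1 ≤ L := by linarith only [hLbig]
  rw [hZB]
  have h1 : P / L ^ (E + 3) * (4 * Real.pi * X) = (P * X / L ^ E) * (4 * Real.pi / L ^ 3) := by
    field_simp
    ring
  have h3 : L ≤ L ^ 3 := by
    calc L = L ^ 1 := (pow_one L).symm
      _ ≤ L ^ 3 := pow_le_pow_right₀ hL1 (by norm_num)
  have h2 : 4 * Real.pi / L ^ 3 ≤ 1 / 4 := by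
    rw [div_le_iff₀ (by positivity)]
    linarith only [hLbig, h3, Real.pi_lt_four]
  rw [h1]
  calc (P * X / L ^ E) * (4 * Real.pi / L ^ 3) ≤ (P * X / L ^ E) * (1 / 4) :=
        mul_le_mul_of_nonneg_left h2 (by positivity)
    _ = 1 / 4 * (P * X / L ^ E) := by ring

/-- the size of the Mellin transform in `|t| ≤ T1` -/
private theorem IIG_mel (g : ℕ → ℝ) (N M : ℕ) (α s t X L Θ : ℝ) (C0 : ℕ) (hs : s = 1 ∨ s = -1)
    (hX : 0 < X) (hL : 1000 ≤ L) (hΘ : 1 / X ≤ Θ) (hM : X / L ^ C0 ≤ M) (hM1 : 1 ≤ M)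
    (hN : (N : ℝ) ≤ X) (hg : ∀ n, n ∉ Ioc M N → g n = 0)
    (ht : |t| ≤ L ^ 4 * (Θ * X + 1)) :
    ‖Mel (ge g N α 0 Θ s) t‖ ^ 2
      ≤ L ^ (5 * C0 + 13) / X * (‖cor g 0 M α (t / (2 * Real.pi)) N‖ ^ 2
        + 1 / X * ∑ y ∈ Ioc M N, ‖cor g 0 M α (t / (2 * Real.pi)) y‖ ^ 2) := by
  have hL0 : 0 < L := by linarith only [hL]
  have hL1 : 1 ≤ L := by linarith only [hL]
  have hM0 : (0 : ℝ) < M := by exact_mod_cast hM1
  have hΘ0 : (0 : ℝ) < Θ := lt_of_lt_of_le (by positivity) hΘ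
  have hΘX : 1 ≤ Θ * X := by rwa [div_le_iff₀ hX] at hΘ
  refine (Pool.Agent.H76.SP.mel_l g N M α Θ s t hs hΘ0 hM1 hg).trans ?_
  set a := ‖cor g 0 M α (t / (2 * Real.pi)) N‖ ^ 2 with ha
  set b := ∑ y ∈ Ioc M N, ‖cor g 0 M α (t / (2 * Real.pi)) y‖ ^ 2 with hb
  have ha0 : 0 ≤ a := by positivity
  have hb0 : 0 ≤ b := Finset.sum_nonneg fun y _ => by positivity
  have hMinv : 1 / (M : ℝ) ≤ L ^ C0 / X := by
    rw [div_le_iff₀ (by positivity)] at hM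
    rw [div_le_div_iff₀ hM0 hX, one_mul]
    linarith only [hM]
  have h1 : 2 * |t| / (Θ * (M : ℝ)) ≤ 4 * L ^ (C0 + 4) := by
    have h2 : |t| ≤ L ^ 4 * (2 * (Θ * X)) := by
      refine ht.trans ?_
      apply mul_le_mul_of_nonneg_left _ (by positivity)
      linarith only [hΘX]
    calc 2 * |t| / (Θ * (M : ℝ)) = 2 * |t| / Θ * (1 / (M : ℝ)) := by field_simp
      _ ≤ 2 * (L ^ 4 * (2 * (Θ * X))) / Θ * (L ^ C0 / X) := by gcongr
      _ = 4 * L ^ (C0 + 4) := by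
          field_simp
          ring
  have h3 : 1 + 2 * |t| / (Θ * (M : ℝ)) ≤ 5 * L ^ (C0 + 4) := by
    have : 1 ≤ L ^ (C0 + 4) := one_le_pow₀ hL1
    linarith only [h1, this]
  have h4 : (1 + 2 * |t| / (Θ * (M : ℝ))) ^ 2 / (M : ℝ) ^ 2 * N ≤
      25 * L ^ (4 * C0 + 8) * (1 / X) := by
    calc (1 + 2 * |t| / (Θ * (M : ℝ))) ^ 2 / (M : ℝ) ^ 2 * N
        = (1 + 2 * |t| / (Θ * (M : ℝ))) ^ 2 * (1 / (M : ℝ)) ^ 2 * N := by
          field_simp
      _ ≤ (5 * L ^ (C0 + 4)) ^ 2 * (L ^ C0 / X) ^ 2 * X := by gcongr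
      _ = 25 * L ^ (4 * C0 + 8) * (1 / X) := by
          field_simp
          ring
  have h5 : 6 / (M : ℝ) ≤ 6 * L ^ C0 / X := by
    calc 6 / (M : ℝ) = 6 * (1 / (M : ℝ)) := by ring
      _ ≤ 6 * (L ^ C0 / X) := by linarith only [hMinv]
      _ = _ := by ring
  have h6 : 6 * L ^ C0 ≤ L ^ (5 * C0 + 13) := by
    have e1 : L ^ C0 ≤ L ^ (5 * C0 + 12) := pow_le_pow_right₀ hL1 (by omega)
    have e2 : L ^ (5 * C0 + 13) = L * L ^ (5 * C0 + 12) := by ring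
    rw [e2]
    have e3 : 0 < L ^ C0 := by positivity
    calc 6 * L ^ C0 ≤ L * L ^ C0 := mul_le_mul_of_nonneg_right (by linarith only [hL]) e3.le
      _ ≤ L * L ^ (5 * C0 + 12) := mul_le_mul_of_nonneg_left e1 hL0.le
  have h7 : 6 * L ^ C0 * (25 * L ^ (4 * C0 + 8)) ≤ L ^ (5 * C0 + 13) := by
    have e1 : L ^ (5 * C0 + 8) ≤ L ^ (5 * C0 + 12) := pow_le_pow_right₀ hL1 (by omega)
    have e2 : L ^ (5 * C0 + 13) = L * L ^ (5 * C0 + 12) := by ring
    rw [e2]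
    have e3 : 0 < L ^ (5 * C0 + 8) := by positivity
    calc 6 * L ^ C0 * (25 * L ^ (4 * C0 + 8)) = 150 * L ^ (5 * C0 + 8) := by ring
      _ ≤ L * L ^ (5 * C0 + 8) := mul_le_mul_of_nonneg_right (by linarith only [hL]) e3.le
      _ ≤ L * L ^ (5 * C0 + 12) := mul_le_mul_of_nonneg_left e1 hL0.le
  have hv : 0 ≤ (1 + 2 * |t| / (Θ * (M : ℝ))) ^ 2 / (M : ℝ) ^ 2 * N := by positivity
  have hu : 0 ≤ 6 * L ^ C0 / X := by positivity
  have hw : 0 ≤ (1 / X) * b := mul_nonneg (by positivity) hb0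
  clear_value a b
  calc 6 / (M : ℝ) * (a + (1 + 2 * |t| / (Θ * (M : ℝ))) ^ 2 / (M : ℝ) ^ 2 * N * b)
      ≤ 6 * L ^ C0 / X * (a + 25 * L ^ (4 * C0 + 8) * (1 / X) * b) := by
        exact mul_le_mul h5 (add_le_add le_rfl (mul_le_mul_of_nonneg_right h4 hb0))
          (add_nonneg ha0 (mul_nonneg hv hb0)) hu
    _ = (6 * L ^ C0) / X * a + (6 * L ^ C0 * (25 * L ^ (4 * C0 + 8))) / X * ((1 / X) * b) := by
        ring
    _ ≤ L ^ (5 * C0 + 13) / X * a + L ^ (5 * C0 + 13) / X * ((1 / X) * b) := by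
        apply add_le_add
        · apply mul_le_mul_of_nonneg_right _ ha0
          exact div_le_div_of_nonneg_right h6 hX.le
        · apply mul_le_mul_of_nonneg_right _ hw
          exact div_le_div_of_nonneg_right h7 hX.le
    _ = _ := by ring

theorem ii_g (C0 E : ℕ) (η : ℝ) (hη : 0 < η) (hη1 : η ≤ 1) : ∃ b K m0 : ℕ, ∀ m : ℕ, m0 ≤ m →
    ∃ x0 : ℕ, ∀ x : ℕ, x0 ≤ x → ∀ (g : ℕ → ℝ) (N M P : ℕ) (S : Finset ℕ) (Θ s : ℝ),
      CorM x m K η N M g → N ≤ x → x / Real.log x ^ C0 ≤ M → Real.log x ^ b ≤ P →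
      P ≤ x → S ⊆ pb P → 1 / (x : ℝ) ≤ Θ → Θ ≤ 1 / Real.log x ^ 6 → (s = 1 ∨ s = -1) →
      ∫ t in {t : ℝ | Real.log x ^ (4 * m) < |t|}, ‖ZZ S t‖ ^ 2 * ‖Mel (ge g N 0 0 Θ s) t‖ ^ 2
        ≤ P * x / Real.log x ^ E := by
  obtain ⟨b, mb, xb, hbad⟩ := bad_n (E + 3) η hη
  obtain ⟨C7, hC7⟩ : ∃ C7 : ℕ, C7 = 5 * C0 + 13 := ⟨_, rfl⟩
  obtain ⟨K, hKdef⟩ : ∃ K : ℕ, K = C7 + E + 2 := ⟨_, rfl⟩
  refine ⟨b, K, max mb 1, fun m hm => ?_⟩
  have hm1 : mb ≤ m := (le_max_left _ _).trans hm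
  have hm2 : 1 ≤ m := (le_max_right _ _).trans hm
  obtain ⟨x1, hx1⟩ := Pool.Agent.H91.EHA.log_ge 1000000
  obtain ⟨x4, hx4⟩ := Pool.Agent.H91.EHA.log_pow_le_rpow (E + 6 + C0) 1 (by norm_num)
  refine ⟨max xb (max x1 (max x4 2)), ?_⟩
  intro x hx g N M P S Θ s hcor hNx hM hP hPx hS hΘx hΘL hs
  simp only [max_le_iff] at hx
  obtain ⟨hxb, hxx1, hxx4, hxx5⟩ := hx
  have hLbig := hx1 x hxx1
  have hL4 := hx4 x hxx4
  have hX2 : (2 : ℝ) ≤ x := by exact_mod_cast hxx5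
  have hbx := hbad x hxb P S
  have hNX : (N : ℝ) ≤ x := by exact_mod_cast hNx
  have hPX : (P : ℝ) ≤ x := by exact_mod_cast hPx
  set L := Real.log x with hLdef
  obtain ⟨X, hXdef⟩ : ∃ X : ℝ, X = (x : ℝ) := ⟨_, rfl⟩
  have hLX : L ≤ X := by
    rw [hXdef, hLdef]
    linarith [Real.log_le_sub_one_of_pos (show (0:ℝ) < x by linarith)]
  have hexp : Real.exp L = X := by rw [hLdef, Real.exp_log (by linarith only [hX2]), hXdef]
  rw [Real.rpow_one] at hL4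
  rw [← hXdef] at hX2 hL4 hNX hPX hM hΘx ⊢
  have hX0 : 0 < X := by linarith only [hLbig, hLX]
  have hX1 : 1 ≤ X := by linarith only [hLbig, hLX]
  have hL0 : 0 < L := by linarith only [hLbig]
  have hL1 : 1 ≤ L := by linarith only [hLbig]
  have hPL : 1 ≤ (P : ℝ) := (one_le_pow₀ hL1).trans hP
  have hP0 : 0 < (P : ℝ) := by linarith only [hPL]
  have hL5 : L ^ 5 ≤ X := (pow_le_pow_right₀ hL1 (by omega)).trans hL4
  have hLE : L ^ (E + 3) ≤ X := (pow_le_pow_right₀ hL1 (by omega)).trans hL4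
  have hS0 : 1 ≤ X / L ^ C0 := by
    rw [one_le_div (by positivity)]
    exact (pow_le_pow_right₀ hL1 (by omega)).trans hL4
  have hM1 : 1 ≤ M := by
    have : (1 : ℝ) ≤ (M : ℝ) := hS0.trans hM
    exact_mod_cast this
  have hΘ0 : 0 < Θ := lt_of_lt_of_le (by positivity) hΘx
  have hΘ1 : Θ ≤ 1 := by
    refine hΘL.trans ?_
    rw [div_le_one (by positivity)]
    exact one_le_pow₀ hL1
  -- the parameters
  obtain ⟨T0, hT0⟩ : ∃ T0 : ℝ, T0 = L ^ (4 * m) := ⟨_, rfl⟩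
  obtain ⟨T1, hT1⟩ : ∃ T1 : ℝ, T1 = L ^ 4 * (Θ * X + 1) := ⟨_, rfl⟩
  have hT01 : 1 ≤ T0 := hT0 ▸ one_le_pow₀ hL1
  have hT00 : 0 < T0 := by linarith only [hT01]
  have hT1' : T1 ≤ X / L ^ 2 + L ^ 4 := by
    rw [hT1]
    calc L ^ 4 * (Θ * X + 1) ≤ L ^ 4 * (1 / L ^ 6 * X + 1) := by gcongr
      _ = X / L ^ 2 + L ^ 4 := by field_simp
  have hT1X' : T1 ≤ X := by
    refine hT1'.trans ?_
    have h1 : X / L ^ 2 ≤ X / 2 := by
      apply div_le_div_of_nonneg_left hX0.le (by norm_num)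
      nlinarith only [hLbig]
    have h2 : 2 * L ^ 4 ≤ L ^ 5 := by
      have : L ^ 5 = L * L ^ 4 := by ring
      rw [this]
      exact mul_le_mul_of_nonneg_right (by linarith only [hLbig]) (by positivity)
    linarith only [hL5, h1, h2]
  have hT1X : T1 ≤ X ^ 2 := by
    refine hT1X'.trans ?_
    rw [sq]
    exact le_mul_of_one_le_right hX0.le hX1
  have hT1pos : 0 < T1 := by rw [hT1]; positivity
  -- the function
  obtain ⟨G, hG⟩ : ∃ G : ℝ → ℂ, G = ge g N 0 0 Θ s := ⟨_, rfl⟩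
  have hS1 : ∀ k ∈ S, 1 ≤ k := fun k hk => by
    have h1 := hS hk
    simp only [pb, Finset.mem_filter, Finset.mem_Ioc] at h1
    omega
  have hS2 : S ⊆ Icc 1 (2 * P) := fun k hk => by
    have h1 := hS hk
    simp only [pb, Finset.mem_filter, Finset.mem_Ioc] at h1
    exact Finset.mem_Icc.2 ⟨by omega, h1.1.2⟩
  have hGm : Measurable G := hG ▸ ge_measurable g N _ 0 _ s
  have hGb : ∀ θ, 0 < θ → ‖G θ‖ ≤ (∑ n ∈ Icc 1 N, |g n|) * Real.exp (-(1 / Θ * θ)) := by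
    intro θ hθ
    rw [hG]
    have h1 := norm_ge_le g N 0 0 Θ s θ hθ
    have h2 : θ / Θ = 1 / Θ * θ := by ring
    rwa [h2] at h1
  obtain ⟨hI1, hI2⟩ := int_sum_sq_e S hS1 G hGm _ _ (one_div_pos.2 hΘ0) hGb
  obtain ⟨hJ1, hJ2⟩ := mel_planch_e G hGm _ _ (one_div_pos.2 hΘ0) hGb
  have hS2g : S2 g N ≤ X := IIG_S2 g N X hNX hcor.bd
  have hK : ∫ t, ‖Mel G t‖ ^ 2 ≤ 4 * Real.pi * X := by
    rw [hJ2]
    have h1 := ge_L2 g N 0 0 Θ s hΘ0 hΘ1 hs
    rw [← hG] at h1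
    have h2 : (0 : ℝ) ≤ 2 * Real.pi := by positivity
    calc 2 * Real.pi * ∫ θ in Set.Ioi (0 : ℝ), ‖G θ‖ ^ 2 ≤ 2 * Real.pi * (2 * X) :=
          mul_le_mul_of_nonneg_left (h1.trans (by linarith only [hS2g])) h2
      _ = 4 * Real.pi * X := by ring
  have hmel : ∀ t : ℝ, |t| ≤ T1 →
      ‖Mel G t‖ ^ 2 ≤ L ^ C7 / X * (‖cor g 0 M 0 (t / (2 * Real.pi)) N‖ ^ 2
        + 1 / X * ∑ y ∈ Ioc M N, ‖cor g 0 M 0 (t / (2 * Real.pi)) y‖ ^ 2) := by
    intro t ht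
    rw [hG, hC7]
    exact IIG_mel g N M _ s t X L Θ C0 hs hX0 (by linarith only [hLbig]) hΘx hM hM1 hNX hcor.supp (hT1 ▸ ht)
  have hcardN : ((Ioc M N).card : ℝ) ≤ X := by
    rw [Nat.card_Ioc]
    have : ((N - M : ℕ) : ℝ) ≤ (N : ℝ) := by exact_mod_cast Nat.sub_le _ _
    linarith only [hNX, this]
  -- the dyadic pieces
  obtain ⟨n, hn⟩ : ∃ n : ℕ, n = ⌈4 * L⌉₊ := ⟨_, rfl⟩
  obtain ⟨I, hI⟩ : ∃ I : Finset ℕ, I = (range n).filter (fun i => 2 ^ i * T0 ≤ T1) := ⟨_, rfl⟩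
  obtain ⟨ZB, hZB⟩ : ∃ ZB : ℝ, ZB = P / L ^ (E + 3) := ⟨_, rfl⟩
  obtain ⟨𝓑, h𝓑⟩ : ∃ 𝓑 : ℕ → Set ℝ, 𝓑 = fun i =>
    {t | (2 ^ i * T0 ≤ |t| ∧ |t| ≤ T1) ∧ |t| ≤ 2 * (2 ^ i * T0) ∧ ZB < ‖ZZ S t‖ ^ 2} := ⟨_, rfl⟩
  have hBmeas : ∀ i, MeasurableSet (𝓑 i) := by
    intro i
    rw [h𝓑]
    have hcont : Continuous (fun t => ‖ZZ S t‖ ^ 2) := (IIG_ZZ_cont S hS1).norm.pow 2
    apply MeasurableSet.inter
    · exact ((isClosed_le continuous_const continuous_abs).inter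
        (isClosed_le continuous_abs continuous_const)).measurableSet
    · exact (isClosed_le continuous_abs continuous_const).measurableSet.inter
        (isOpen_lt continuous_const hcont).measurableSet
  have hcore := IIG_core (fun t => ‖ZZ S t‖ ^ 2) (fun t => ‖Mel G t‖ ^ 2) (8 * P) ZB T0 T1
    (4 * Real.pi * X)
    (9 * (X ^ 2 * L ^ 2) * (3208 * (2 * X) ^ 2 * Real.exp (-(L ^ 4 / 40)))) I 𝓑
    (fun _ => 4 * Real.pi * X * L ^ C7 / L ^ K)
    (fun t => sq_nonneg _) (fun t => by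
      have h1 := norm_ZZ_sq_le (2 * P) S hS2 t
      push_cast at h1
      linarith only [h1]) (fun t => sq_nonneg _) hJ1 hK hI1 (by rw [hZB]; positivity)
    ?_ ?_ ?_ (by positivity) ?_
  rotate_left
  · -- measurability
    intro i _
    exact hBmeas i
  · -- the pieces
    intro i hi
    rw [hI, Finset.mem_filter] at hi
    have hTi : T0 ≤ 2 ^ i * T0 := le_mul_of_one_le_left hT00.le (one_le_pow₀ (by norm_num))
    have hTi' : L ^ mb ≤ 2 ^ i * T0 := by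
      have h0 : L ^ mb ≤ L ^ (4 * m) := pow_le_pow_right₀ hL1 (by omega)
      rw [← hT0] at h0
      exact h0.trans hTi
    have hTi0 : 0 < 2 ^ i * T0 := by positivity
    have h1 := hbx (2 ^ i * T0) hP hPx hS hTi' (by
        rw [← hXdef]
        refine hi.2.trans (hT1X.trans ?_)
        exact pow_le_pow_right₀ hX1 (by norm_num))
    have hvol : volume.real (𝓑 i) ≤ (2 ^ i * T0) ^ η := by
      refine le_trans (measureReal_mono ?_ ?_) h1
      · rw [h𝓑, hZB]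
        intro t ht
        exact ht.2
      · have h2 : {t : ℝ | |t| ≤ 2 * (2 ^ i * T0) ∧ P / L ^ (E + 3) < ‖ZZ S t‖ ^ 2} ⊆
            Set.Icc (-(2 * (2 ^ i * T0))) (2 * (2 ^ i * T0)) := fun t ht => abs_le.1 ht.1
        exact ne_top_of_le_ne_top (by rw [Real.volume_Icc]; exact ENNReal.ofReal_ne_top)
          (measure_mono h2)
    have hsub : 𝓑 i ⊆ Set.Icc (-T1) T1 := by
      rw [h𝓑]
      exact fun t ht => abs_le.1 ht.1.2
    have hpi0 : 0 < 2 * Real.pi := by positivity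
    have hpi1 : 1 ≤ 2 * Real.pi := by linarith only [hpi0, Real.pi_gt_three]
    have hJ : ∀ y, y ≤ N → ∫ t in 𝓑 i, ‖cor g 0 M 0 (t / (2 * Real.pi)) y‖ ^ 2 ≤
        2 * Real.pi * (X ^ 2 / L ^ K) := by
      intro y hy
      rw [IIG_cv (fun τ => ‖cor g 0 M 0 τ y‖ ^ 2) (𝓑 i) (hBmeas i)]
      apply mul_le_mul_of_nonneg_left _ hpi0.le
      have h2 := hcor.large y ((2 ^ i * T0) / (2 * Real.pi))
        (((2 * Real.pi) * ·) ⁻¹' (𝓑 i)) hy ?_ ?_
        ⟨(measurable_const_mul (2 * Real.pi)) (hBmeas i), ?_, ?_⟩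
      · rw [hXdef]
        exact h2
      · rw [le_div_iff₀ hpi0]
        have h3 : L ^ m * (2 * Real.pi) ≤ L ^ m * L := by
          apply mul_le_mul_of_nonneg_left _ (by positivity)
          linarith only [hLbig, Real.pi_lt_four]
        have h4 : L ^ m * L ≤ L ^ (4 * m) := by
          rw [← pow_succ]
          exact pow_le_pow_right₀ hL1 (by omega)
        exact h3.trans (h4.trans (hT0 ▸ hTi))
      · rw [← hXdef]
        have h3 : (2 ^ i * T0) / (2 * Real.pi) ≤ (2 ^ i * T0) / 2 :=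
          div_le_div_of_nonneg_left hTi0.le (by norm_num) (by linarith only [Real.pi_gt_three])
        have h4 := hi.2
        linarith only [hLbig, hLX, hT1X', hi, h3]
      · intro τ hτ
        rw [Set.mem_preimage, h𝓑] at hτ
        obtain ⟨⟨e1, _⟩, e2, _⟩ := hτ
        rw [abs_mul, abs_of_pos hpi0] at e1 e2
        constructor
        · rw [div_le_iff₀ hpi0]
          linarith only [e1]
        · have e3 : 2 * ((2 ^ i * T0) / (2 * Real.pi)) = (2 * (2 ^ i * T0)) / (2 * Real.pi) := by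
            ring
          rw [e3, le_div_iff₀ hpi0]
          linarith only [e2]
      · rw [IIG_vol, Real.div_rpow hTi0.le hpi0.le, inv_mul_eq_div]
        have h3 : (2 * Real.pi) ^ η ≤ 2 * Real.pi := by
          calc (2 * Real.pi) ^ η ≤ (2 * Real.pi) ^ (1 : ℝ) :=
                Real.rpow_le_rpow_of_exponent_le hpi1 hη1
            _ = 2 * Real.pi := Real.rpow_one _
        have h4 : 0 < (2 * Real.pi) ^ η := Real.rpow_pos_of_pos hpi0 _
        exact div_le_div₀ (Real.rpow_nonneg hTi0.le _) hvol h4 h3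
    have h2 := IIG_piece (fun t => ‖Mel G t‖ ^ 2)
      (fun y t => ‖cor g 0 M 0 (t / (2 * Real.pi)) y‖ ^ 2) (𝓑 i) (L ^ C7 / X) (1 / X)
      (2 * Real.pi * (X ^ 2 / L ^ K)) N (Ioc M N) (hBmeas i) hJ1.integrableOn
      (fun y => by
        have h3 : Continuous (fun t : ℝ =>
            ‖cor g 0 M 0 (t / (2 * Real.pi)) y‖ ^ 2) :=
          (IIG_cor_cont g M 0 y).comp (by fun_prop)
        exact (h3.integrableOn_Icc).mono_set hsub)
      (by positivity) (by positivity) (fun y hy => (Finset.mem_Ioc.1 hy).2)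
      (fun t ht => hmel t (by
        rw [h𝓑] at ht
        exact ht.1.2)) hJ
    refine h2.trans ?_
    have h3 : (1 / X) * ((Ioc M N).card * (2 * Real.pi * (X ^ 2 / L ^ K))) ≤
        (1 / X) * (X * (2 * Real.pi * (X ^ 2 / L ^ K))) := by
      gcongr
    calc L ^ C7 / X * (2 * Real.pi * (X ^ 2 / L ^ K) +
          1 / X * ((Ioc M N).card * (2 * Real.pi * (X ^ 2 / L ^ K))))
        ≤ L ^ C7 / X * (2 * Real.pi * (X ^ 2 / L ^ K) +
          (1 / X) * (X * (2 * Real.pi * (X ^ 2 / L ^ K)))) := by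
          apply mul_le_mul_of_nonneg_left _ (by positivity)
          linarith only [h3]
      _ = 4 * Real.pi * X * L ^ C7 / L ^ K := by
          field_simp
          ring
  · -- covering
    intro t ht0 ht1 htZ
    obtain ⟨i, hi1, hi2⟩ := exists_nat_pow_near (x := |t| / T0) (y := 2)
      ((one_le_div hT00).2 ht0.le) (by norm_num)
    rw [le_div_iff₀ hT00] at hi1
    rw [div_lt_iff₀ hT00] at hi2
    refine ⟨i, ?_, ?_⟩
    · rw [hI, Finset.mem_filter, Finset.mem_range]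
      refine ⟨?_, hi1.trans ht1⟩
      have h1 : (2 : ℝ) ^ i ≤ X ^ 2 := by
        calc (2 : ℝ) ^ i ≤ 2 ^ i * T0 := le_mul_of_one_le_right (by positivity) hT01
          _ ≤ X ^ 2 := hi1.trans (ht1.trans hT1X)
      have h2 : Real.log (2 ^ i) ≤ Real.log (X ^ 2) := Real.log_le_log (by positivity) h1
      rw [Real.log_pow, Real.log_pow] at h2
      have h3 : Real.log X = L := by rw [hXdef]
      rw [h3] at h2
      have h4 : (i : ℝ) < 4 * L := by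
        have h5 := Real.log_two_gt_d9
        push_cast at h2
        by_contra hcon
        push Not at hcon
        have h6 : 4 * L * Real.log 2 ≤ i * Real.log 2 :=
          mul_le_mul_of_nonneg_right hcon (by linarith only [h5])
        have h7 : 4 * L * (69 / 100) ≤ 4 * L * Real.log 2 :=
          mul_le_mul_of_nonneg_left (by linarith only [h5]) (by linarith only [hLbig])
        linarith only [hLbig, h2, h6, h7]
      rw [hn]
      exact Nat.lt_ceil.2 h4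
    · rw [h𝓑]
      refine ⟨⟨hi1, ht1⟩, ?_, htZ⟩
      have h1 : (2 : ℝ) ^ (i + 1) * T0 = 2 * (2 ^ i * T0) := by ring
      rw [h1] at hi2
      exact hi2.le
  · -- the tail
    intro t ht
    have h1 := mel_tl g N M 0 0 0 Θ s t (X / L ^ C0) hs hΘ0 hS0
      (by rw [Nat.cast_zero, zero_add]; exact hM)
      (by rw [Nat.cast_zero, sub_zero, abs_zero]; positivity)
      hcor.supp
    rw [← hG] at h1
    set D := Θ * (N : ℝ) + 1 with hD
    have hD1 : 1 ≤ D := by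
      rw [hD]
      have : 0 ≤ Θ * (N : ℝ) := by positivity
      linarith only [this]
    have hD2 : D ≤ 2 * X := by
      rw [hD]
      have : Θ * (N : ℝ) ≤ 1 * X := mul_le_mul hΘ1 hNX (Nat.cast_nonneg N) (by norm_num)
      linarith only [hLbig, hLX, this]
    have hD3 : L ^ 4 * D ≤ |t| := by
      refine le_trans ?_ ht.le
      rw [hT1, hD]
      have h2 : Θ * (N : ℝ) ≤ Θ * X := mul_le_mul_of_nonneg_left hNX hΘ0.le
      gcongr
    have hL4' : 20 ≤ L ^ 4 := by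
      calc (20 : ℝ) ≤ L := by linarith only [hLbig]
        _ = L ^ 1 := (pow_one L).symm
        _ ≤ L ^ 4 := pow_le_pow_right₀ hL1 (by norm_num)
    have h2 := IIG_exp t D (L ^ 4) hD1 hL4' hD3
    have h3 : ‖Mel G t‖ ^ 2 ≤ 9 * (∑ n ∈ Icc 1 N, |g n|) ^ 2 * Real.exp (-(|t| / (20 * D))) := by
      calc ‖Mel G t‖ ^ 2 ≤ (3 * (∑ n ∈ Icc 1 N, |g n|) * Real.exp (-(|t| / (40 * D)))) ^ 2 :=
            pow_le_pow_left₀ (norm_nonneg _) h1 2
        _ = 9 * (∑ n ∈ Icc 1 N, |g n|) ^ 2 * (Real.exp (-(|t| / (40 * D)))) ^ 2 := by ring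
        _ = 9 * (∑ n ∈ Icc 1 N, |g n|) ^ 2 * Real.exp (-(|t| / (20 * D))) := by
            rw [← Real.exp_nat_mul]
            congr 2
            field_simp
            ring
    have h4 : (∑ n ∈ Icc 1 N, |g n|) ^ 2 ≤ X ^ 2 * L ^ 2 := by
      refine (IIG_l1 g N X hNX hcor.bd).trans ?_
      exact le_mul_of_one_le_right (by positivity) (one_le_pow₀ hL1)
    calc ‖Mel G t‖ ^ 2 ≤ 9 * (∑ n ∈ Icc 1 N, |g n|) ^ 2 * Real.exp (-(|t| / (20 * D))) := h3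
      _ ≤ 9 * (X ^ 2 * L ^ 2) * (3208 * (2 * X) ^ 2 * Real.exp (-(L ^ 4 / 40)) * (1 + t ^ 2)⁻¹) := by
          apply mul_le_mul _ _ (Real.exp_pos _).le (by positivity)
          · linarith only [h4]
          · refine h2.trans ?_
            have h5 : D ^ 2 ≤ (2 * X) ^ 2 := pow_le_pow_left₀ (by linarith only [hD1]) hD2 2
            gcongr
      _ = _ := by ring
  -- the final estimate
  have hfin2 := IIG_fin2 X L P ZB E hX0 hLbig hP0 hZB
  have hfin3 := IIG_fin3 X L P C7 E K n I hX1 hLbig hP0 hKdef hn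
    (by rw [hI]; exact Finset.filter_subset _ _)
  have hfin4 := IIG_fin4 X L P 1 E hX2 hLbig hP0 le_rfl hexp hLE hLX
  rw [one_pow, mul_one] at hfin4
  have hpos : 0 ≤ P * X / L ^ E := by positivity
  rw [← hG, ← hT0]
  refine hcore.trans ?_
  linarith only [hfin2, hfin3, hfin4, hpos]

end Pool.Agent.H76.MU

end

section

/-!
# MU IIM: the difference of two damped sums

Proof.  `Θ = 1/L^6`, `κ = 6m + 2 C0 + E + 6`, `Θ1 = L^κ/x` (`1/x ≤ Θ1 ≤ Θ` for large `x`), `D = gd g N Θ Θ1 s`, `S ⊆ pb P`, `S2 ≤ x`.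
`int_sum_sq_e` (`H35/W/MellE.lean`; `|ge(θ)| ≤ (∑|g|) e^{-θ/Θ}`, `norm_ge_le`; for `D` use `b = 1/Θ` and twice the bound, as `e^{-θ/Θ1} ≤ e^{-θ/Θ}`):
`II S D = (1/2π) ∫ |ZZ S t|^2 |Mel D t|^2 dt`, all integrable; `Mel D = Mel(ge Θ) - Mel(ge Θ1)` (`mellin` of a difference; the Mellin integrals at `1/2 - i t` converge absolutely).
`|t| ≤ T0 = L^{4m}`: `mel_m`: `|Mel D t| ≤ 3 (1 + L^{4m}) x · L^{3 C0/2} x^{-3/2} · x/L^κ ≤ 6 √x L^{4m + 2 C0 - κ}`, `|ZZ S t|^2 ≤ 8 P` (as in `IIL`): contribution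
`≤ 2 T0 · 8 P · 36 x L^{8m + 4 C0 - 2κ} ≤ 576 P x L^{12 m + 4 C0 - 2κ} ≤ P x/(2 L^E)`.
`|t| > T0`: `|Mel D|^2 ≤ 2 |Mel(ge Θ)|^2 + 2 |Mel(ge Θ1)|^2` and `ii_g C0 (E + 3) η` twice: `≤ 4 P x/L^{E+3}`.
-/

set_option autoImplicit false

namespace Pool.Agent.H76.MU

open Finset MeasureTheory
open Pool.Agent.H91.PK (ee)
open Pool.Agent.H76.EHB
open Pool.Agent.H35.W

/-- the difference of two damped sums -/
noncomputable def gd (g : ℕ → ℝ) (N : ℕ) (Θ Θ1 s θ : ℝ) : ℂ :=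
  ge g N 0 0 Θ s θ - ge g N 0 0 Θ1 s θ

/-- convergence of the Mellin integral (copy of the private `melle_conv`) -/
private theorem IIM_conv (g : ℝ → ℂ) (hg : Measurable g) (B b : ℝ) (hb : 0 < b)
    (hB : ∀ θ, 0 < θ → ‖g θ‖ ≤ B * Real.exp (-(b * θ))) (t : ℝ) :
    MellinConvergent g (1 / 2 - t * Complex.I) := by
  unfold MellinConvergent
  have hmeas : AEStronglyMeasurable
      (fun θ : ℝ => (θ : ℂ) ^ ((1 / 2 : ℂ) - t * Complex.I - 1) • g θ)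
      (volume.restrict (Set.Ioi 0)) := by
    have hc : AEStronglyMeasurable (fun θ : ℝ => (θ : ℂ) ^ ((1 / 2 : ℂ) - t * Complex.I - 1))
        (volume.restrict (Set.Ioi 0)) := ?_
    · exact hc.smul hg.aestronglyMeasurable
    refine ContinuousOn.aestronglyMeasurable ?_ measurableSet_Ioi
    intro θ hθ
    exact (Complex.continuousAt_ofReal_cpow_const θ _ (Or.inr (ne_of_gt hθ))).continuousWithinAt
  have hI : IntegrableOn (fun θ : ℝ => θ ^ (-(1 / 2) : ℝ) * Real.exp (-b * θ ^ (1 : ℝ)) * B)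
      (Set.Ioi 0) :=
    (integrableOn_rpow_mul_exp_neg_mul_rpow (by norm_num) one_pos hb).mul_const B
  refine Integrable.mono' hI hmeas ?_
  refine (ae_restrict_iff' measurableSet_Ioi).2 (Filter.Eventually.of_forall fun θ hθ => ?_)
  have hθ' : (0 : ℝ) < θ := hθ
  rw [norm_smul, Complex.norm_cpow_eq_rpow_re_of_pos hθ']
  have hre : ((1 / 2 : ℂ) - t * Complex.I - 1).re = -(1 / 2) := by
    simp
    norm_num
  rw [hre, Real.rpow_one, mul_assoc]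
  refine mul_le_mul_of_nonneg_left ?_ (Real.rpow_nonneg hθ'.le _)
  refine (hB θ hθ').trans (le_of_eq ?_)
  rw [mul_comm, neg_mul]

/-- the Mellin transform of a difference -/
private theorem IIM_mel_sub (g1 g2 : ℝ → ℂ) (t : ℝ)
    (h1 : MellinConvergent g1 (1 / 2 - t * Complex.I))
    (h2 : MellinConvergent g2 (1 / 2 - t * Complex.I)) :
    Mel (fun θ => g1 θ - g2 θ) t = Mel g1 t - Mel g2 t := by
  unfold Mel mellin
  rw [← integral_sub h1 h2]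
  simp only [smul_sub]

/-- the final computation for small `t` -/
private theorem IIM_small (X L N M P : ℝ) (m C0 E κ : ℕ) (t : ℝ) (hX : 0 < X) (hL : 1000 ≤ L)
    (hN0 : 0 ≤ N) (hN : N ≤ X) (hM : X / L ^ C0 ≤ M) (ht : |t| ≤ L ^ (4 * m))
    (hκ : κ = 6 * m + 2 * C0 + E + 6) (hP : 0 ≤ P) :
    (3 * (1 + |t|) * N / (M * Real.sqrt M) / (L ^ κ / X)) ^ 2 * (8 * P) ≤
      P * X / (4 * L ^ E * L ^ (4 * m)) := by
  have hL0 : 0 < L := by linarith only [hL]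
  have hL1 : 1 ≤ L := by linarith only [hL]
  have hY : 0 < X / L ^ C0 := by positivity
  have hM0 : 0 < M := lt_of_lt_of_le hY hM
  have hsq : Real.sqrt M ^ 2 = M := Real.sq_sqrt hM0.le
  have e1 : (3 * (1 + |t|) * N / (M * Real.sqrt M) / (L ^ κ / X)) ^ 2 =
      9 * (1 + |t|) ^ 2 * N ^ 2 / (M ^ 3) / ((L ^ κ) ^ 2 / X ^ 2) := by
    rw [div_pow, div_pow, div_pow, mul_pow, mul_pow, mul_pow, hsq]
    ring
  rw [e1]
  have hT : 1 ≤ L ^ (4 * m) := one_le_pow₀ hL1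
  have h1 : (1 + |t|) ^ 2 ≤ (2 * L ^ (4 * m)) ^ 2 :=
    pow_le_pow_left₀ (by positivity) (by linarith only [ht, hT]) 2
  have h2 : N ^ 2 ≤ X ^ 2 := pow_le_pow_left₀ hN0 hN 2
  have h3 : (X / L ^ C0) ^ 3 ≤ M ^ 3 := pow_le_pow_left₀ hY.le hM 3
  have h4 : 9 * (1 + |t|) ^ 2 * N ^ 2 / (M ^ 3) / ((L ^ κ) ^ 2 / X ^ 2) ≤
      9 * (2 * L ^ (4 * m)) ^ 2 * X ^ 2 / ((X / L ^ C0) ^ 3) / ((L ^ κ) ^ 2 / X ^ 2) := by
    gcongr
  refine (mul_le_mul_of_nonneg_right h4 (by positivity)).trans ?_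
  have e2 : 9 * (2 * L ^ (4 * m)) ^ 2 * X ^ 2 / ((X / L ^ C0) ^ 3) / ((L ^ κ) ^ 2 / X ^ 2) * (8 * P)
      = P * X * (288 * (L ^ (4 * m)) ^ 2 * (L ^ C0) ^ 3 / (L ^ κ) ^ 2) := by
    field_simp
    ring
  rw [e2]
  have e3 : P * X / (4 * L ^ E * L ^ (4 * m)) = P * X * (1 / (4 * L ^ E * L ^ (4 * m))) := by ring
  rw [e3]
  apply mul_le_mul_of_nonneg_left _ (by positivity)
  rw [div_le_div_iff₀ (by positivity) (by positivity)]
  have e4 : 288 * (L ^ (4 * m)) ^ 2 * (L ^ C0) ^ 3 * (4 * L ^ E * L ^ (4 * m)) =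
      1152 * L ^ (12 * m + 3 * C0 + E) := by
    have : L ^ (12 * m + 3 * C0 + E) = (L ^ (4 * m)) ^ 3 * (L ^ C0) ^ 3 * L ^ E := by
      rw [← pow_mul, ← pow_mul, ← pow_add, ← pow_add]
      congr 1
      ring
    rw [this]; ring
  have e5 : (1 : ℝ) * (L ^ κ) ^ 2 = L ^ (12 * m + 3 * C0 + E) * L ^ (C0 + E + 12) := by
    rw [← pow_mul, ← pow_add, one_mul, hκ]
    congr 1
    ring
  rw [e4, e5, mul_comm (1152 : ℝ)]
  apply mul_le_mul_of_nonneg_left _ (by positivity)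
  have h5 : L ^ 2 ≤ L ^ (C0 + E + 12) := pow_le_pow_right₀ hL1 (by omega)
  nlinarith only [hL, h5]

theorem ii_m (C0 E : ℕ) (η : ℝ) (hη : 0 < η) (hη1 : η ≤ 1) : ∃ b K m0 : ℕ, ∀ m : ℕ, m0 ≤ m →
    ∃ κ x0 : ℕ, ∀ x : ℕ, x0 ≤ x → ∀ (g : ℕ → ℝ) (N M P : ℕ) (S : Finset ℕ) (s : ℝ),
      CorM x m K η N M g → N ≤ x → x / Real.log x ^ C0 ≤ M → Real.log x ^ b ≤ P →
      P ≤ x → S ⊆ pb P → (s = 1 ∨ s = -1) →
      II S (gd g N (1 / Real.log x ^ 6) (Real.log x ^ κ / x) s) ≤ P * x / Real.log x ^ E := by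
  obtain ⟨b, K, m0, hg⟩ := ii_g C0 (E + 3) η hη hη1
  refine ⟨b, K, m0, fun m hm => ?_⟩
  obtain ⟨xg, hxg⟩ := hg m hm
  obtain ⟨κ, hκ⟩ : ∃ κ : ℕ, κ = 6 * m + 2 * C0 + E + 6 := ⟨_, rfl⟩
  obtain ⟨x1, hx1⟩ := log_ge 1000
  obtain ⟨x2, hx2⟩ := log_pow_le 1 1 one_pos one_pos (κ + 6 + C0)
  refine ⟨κ, max xg (max x1 (max x2 2)), ?_⟩
  intro x hx g N M P S s hcor hNx hM hP hPx hS hs
  simp only [max_le_iff] at hx
  obtain ⟨hxxg, hxx1, hxx2, hxx3⟩ := hx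
  have hLbig := hx1 x hxx1
  have hLk := hx2 x hxx2
  have hgx := hxg x hxxg g N M P S
  have hX2 : (2 : ℝ) ≤ x := by exact_mod_cast hxx3
  have hNX : (N : ℝ) ≤ x := by exact_mod_cast hNx
  rw [Real.rpow_one, one_mul] at hLk
  set L := Real.log x with hLdef
  obtain ⟨X, hXdef⟩ : ∃ X : ℝ, X = (x : ℝ) := ⟨_, rfl⟩
  rw [← hXdef] at hX2 hLk hNX hM hgx ⊢
  have hX0 : 0 < X := by linarith only [hX2]
  have hL0 : 0 < L := by linarith only [hLbig]
  have hL1 : 1 ≤ L := by linarith only [hLbig]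
  have hPL : 1 ≤ (P : ℝ) := (one_le_pow₀ hL1).trans hP
  have hP0 : 0 < (P : ℝ) := by linarith only [hPL]
  have hLk6 : L ^ (κ + 6) ≤ X := (pow_le_pow_right₀ hL1 (by omega)).trans hLk
  have hL6 : L ^ 6 ≤ X := (pow_le_pow_right₀ hL1 (by omega)).trans hLk
  have hLC : L ^ C0 ≤ X := (pow_le_pow_right₀ hL1 (by omega)).trans hLk
  have hM1 : 1 ≤ M := by
    have h1 : 1 ≤ X / L ^ C0 := (one_le_div (by positivity)).2 hLC
    have : (1 : ℝ) ≤ (M : ℝ) := h1.trans hM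
    exact_mod_cast this
  obtain ⟨Θ, hΘ⟩ : ∃ Θ : ℝ, Θ = 1 / L ^ 6 := ⟨_, rfl⟩
  obtain ⟨Θ1, hΘ1⟩ : ∃ Θ1 : ℝ, Θ1 = L ^ κ / X := ⟨_, rfl⟩
  have hΘ0 : 0 < Θ := by rw [hΘ]; positivity
  have hΘ10 : 0 < Θ1 := by rw [hΘ1]; positivity
  have hΘΘ : Θ1 ≤ Θ := by
    rw [hΘ, hΘ1, div_le_div_iff₀ hX0 (by positivity), ← pow_add, one_mul]
    exact hLk6
  have hXΘ : 1 / X ≤ Θ := by
    rw [hΘ]
    exact one_div_le_one_div_of_le (by positivity) hL6
  have hXΘ1 : 1 / X ≤ Θ1 := by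
    rw [hΘ1]
    exact div_le_div_of_nonneg_right (one_le_pow₀ hL1) hX0.le
  have hgG := hgx Θ s hcor hNx hM hP hPx hS hXΘ (by rw [hΘ]) hs
  have hgG1 := hgx Θ1 s hcor hNx hM hP hPx hS hXΘ1 (by rw [← hΘ]; exact hΘΘ) hs
  rw [← hΘ, ← hΘ1]
  -- the functions
  obtain ⟨G, hG⟩ : ∃ G : ℝ → ℂ, G = ge g N 0 0 Θ s := ⟨_, rfl⟩
  obtain ⟨G1, hG1⟩ : ∃ G1 : ℝ → ℂ, G1 = ge g N 0 0 Θ1 s := ⟨_, rfl⟩
  have hD : gd g N Θ Θ1 s = fun θ => G θ - G1 θ := by
    funext θ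
    rw [hG, hG1]
    rfl
  have hGm : Measurable G := hG ▸ ge_measurable g N 0 0 Θ s
  have hG1m : Measurable G1 := hG1 ▸ ge_measurable g N 0 0 Θ1 s
  obtain ⟨A, hA⟩ : ∃ A : ℝ, A = ∑ n ∈ Icc 1 N, |g n| := ⟨_, rfl⟩
  have hA0 : 0 ≤ A := hA ▸ Finset.sum_nonneg fun n _ => abs_nonneg _
  have hGb : ∀ θ, 0 < θ → ‖G θ‖ ≤ A * Real.exp (-(1 / Θ * θ)) := by
    intro θ hθ
    rw [hG, hA]
    have h1 := norm_ge_le g N 0 0 Θ s θ hθ
    have h2 : θ / Θ = 1 / Θ * θ := by ring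
    rwa [h2] at h1
  have hG1b : ∀ θ, 0 < θ → ‖G1 θ‖ ≤ A * Real.exp (-(1 / Θ1 * θ)) := by
    intro θ hθ
    rw [hG1, hA]
    have h1 := norm_ge_le g N 0 0 Θ1 s θ hθ
    have h2 : θ / Θ1 = 1 / Θ1 * θ := by ring
    rwa [h2] at h1
  have hDm : Measurable (fun θ => G θ - G1 θ) := hGm.sub hG1m
  have hDb : ∀ θ, 0 < θ → ‖G θ - G1 θ‖ ≤ (2 * A) * Real.exp (-(1 / Θ * θ)) := by
    intro θ hθ
    have h1 : Real.exp (-(1 / Θ1 * θ)) ≤ Real.exp (-(1 / Θ * θ)) := by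
      apply Real.exp_le_exp.2
      have h2 : 1 / Θ ≤ 1 / Θ1 := one_div_le_one_div_of_le hΘ10 hΘΘ
      have h3 := mul_le_mul_of_nonneg_right h2 hθ.le
      linarith only [h3]
    calc ‖G θ - G1 θ‖ ≤ ‖G θ‖ + ‖G1 θ‖ := norm_sub_le _ _
      _ ≤ A * Real.exp (-(1 / Θ * θ)) + A * Real.exp (-(1 / Θ1 * θ)) :=
          add_le_add (hGb θ hθ) (hG1b θ hθ)
      _ ≤ A * Real.exp (-(1 / Θ * θ)) + A * Real.exp (-(1 / Θ * θ)) := by gcongr
      _ = (2 * A) * Real.exp (-(1 / Θ * θ)) := by ring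
  have hS1 : ∀ k ∈ S, 1 ≤ k := fun k hk => by
    have h1 := hS hk
    simp only [pb, Finset.mem_filter, Finset.mem_Ioc] at h1
    omega
  have hS2 : S ⊆ Icc 1 (2 * P) := fun k hk => by
    have h1 := hS hk
    simp only [pb, Finset.mem_filter, Finset.mem_Ioc] at h1
    exact Finset.mem_Icc.2 ⟨by omega, h1.1.2⟩
  obtain ⟨hI1, hI2⟩ := int_sum_sq_e S hS1 (fun θ => G θ - G1 θ) hDm _ _ (one_div_pos.2 hΘ0) hDb
  obtain ⟨hIG, _⟩ := int_sum_sq_e S hS1 G hGm _ _ (one_div_pos.2 hΘ0) hGb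
  obtain ⟨hIG1, _⟩ := int_sum_sq_e S hS1 G1 hG1m _ _ (one_div_pos.2 hΘ10) hG1b
  have hmel : ∀ t, Mel (fun θ => G θ - G1 θ) t = Mel G t - Mel G1 t := fun t =>
    IIM_mel_sub G G1 t (IIM_conv G hGm _ _ (one_div_pos.2 hΘ0) hGb t)
      (IIM_conv G1 hG1m _ _ (one_div_pos.2 hΘ10) hG1b t)
  have hZZ : ∀ t, ‖ZZ S t‖ ^ 2 ≤ 8 * P := by
    intro t
    have h1 := norm_ZZ_sq_le (2 * P) S hS2 t
    push_cast at h1
    linarith only [h1]
  rw [hD, hI2]
  obtain ⟨F, hF⟩ : ∃ F : ℝ → ℝ, F = fun t => ‖ZZ S t‖ ^ 2 * ‖Mel (fun θ => G θ - G1 θ) t‖ ^ 2 :=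
    ⟨_, rfl⟩
  obtain ⟨T0, hT0⟩ : ∃ T0 : ℝ, T0 = L ^ (4 * m) := ⟨_, rfl⟩
  have hT01 : 1 ≤ T0 := hT0 ▸ one_le_pow₀ hL1
  rw [← hT0, ← hG] at hgG
  rw [← hT0, ← hG1] at hgG1
  have hAm : MeasurableSet {t : ℝ | T0 < |t|} :=
    (isOpen_lt continuous_const continuous_abs).measurableSet
  have hAc : {t : ℝ | T0 < |t|}ᶜ = Set.Icc (-T0) T0 := by
    ext t
    simp only [Set.mem_compl_iff, Set.mem_ofPred_eq, not_lt, Set.mem_Icc]
    exact abs_le
  have hFi : Integrable F := hF ▸ hI1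
  have hsplit := integral_add_compl hAm hFi
  rw [hAc] at hsplit
  -- small t
  have hsm : ∫ t in Set.Icc (-T0) T0, F t ≤ 1 / 2 * (P * X / L ^ E) := by
    have hpt : ∀ t ∈ Set.Icc (-T0) T0, F t ≤ P * X / (4 * L ^ E * T0) := by
      intro t ht
      have ht' : |t| ≤ L ^ (4 * m) := by
        rw [← hT0]
        exact abs_le.2 ht
      have h1 := mel_m g N M Θ Θ1 s t hs hΘ10 hΘΘ hM1 hcor.supp hcor.bd
      rw [← hG, ← hG1, ← hmel] at h1
      have h2 := IIM_small X L N M P m C0 E κ t hX0 hLbig (Nat.cast_nonneg N) hNX hM ht' hκ hP0.le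
      rw [← hΘ1, ← hT0] at h2
      rw [hF]
      calc ‖ZZ S t‖ ^ 2 * ‖Mel (fun θ => G θ - G1 θ) t‖ ^ 2
          ≤ (8 * P) * (3 * (1 + |t|) * N / (M * Real.sqrt M) / Θ1) ^ 2 :=
            mul_le_mul (hZZ t) (pow_le_pow_left₀ (norm_nonneg _) h1 2) (sq_nonneg _) (by positivity)
        _ = (3 * (1 + |t|) * N / (M * Real.sqrt M) / Θ1) ^ 2 * (8 * P) := by ring
        _ ≤ P * X / (4 * L ^ E * T0) := h2
    have h3 : ∫ t in Set.Icc (-T0) T0, F t ≤ ∫ _t in Set.Icc (-T0) T0, P * X / (4 * L ^ E * T0) := by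
      apply setIntegral_mono_on hFi.integrableOn
      · exact integrableOn_const (by simp)
      · exact measurableSet_Icc
      · exact hpt
    refine h3.trans (le_of_eq ?_)
    rw [setIntegral_const, smul_eq_mul, Real.volume_real_Icc_of_le (by linarith only [hT01])]
    have : T0 ≠ 0 := by linarith only [hT01]
    field_simp
    ring
  -- large t
  have hlg : ∫ t in {t : ℝ | T0 < |t|}, F t ≤ 4 * (P * X / L ^ (E + 3)) := by
    have hpt : ∀ t, F t ≤ 2 * (‖ZZ S t‖ ^ 2 * ‖Mel G t‖ ^ 2) +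
        2 * (‖ZZ S t‖ ^ 2 * ‖Mel G1 t‖ ^ 2) := by
      intro t
      rw [hF]
      simp only
      rw [hmel]
      have h1 := norm_sub_le (Mel G t) (Mel G1 t)
      have h2 : ‖Mel G t - Mel G1 t‖ ^ 2 ≤ 2 * ‖Mel G t‖ ^ 2 + 2 * ‖Mel G1 t‖ ^ 2 := by
        nlinarith only [h1, sq_nonneg (‖Mel G t‖ - ‖Mel G1 t‖), norm_nonneg (Mel G t - Mel G1 t),
          norm_nonneg (Mel G t), norm_nonneg (Mel G1 t)]
      have h3 := mul_le_mul_of_nonneg_left h2 (sq_nonneg ‖ZZ S t‖)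
      linarith only [h3]
    have h4 : ∫ t in {t : ℝ | T0 < |t|}, F t ≤ ∫ t in {t : ℝ | T0 < |t|},
        (2 * (‖ZZ S t‖ ^ 2 * ‖Mel G t‖ ^ 2) + 2 * (‖ZZ S t‖ ^ 2 * ‖Mel G1 t‖ ^ 2)) := by
      apply setIntegral_mono hFi.integrableOn
      · exact ((hIG.const_mul 2).add (hIG1.const_mul 2)).integrableOn
      · exact hpt
    refine h4.trans ?_
    rw [integral_add (hIG.const_mul 2).integrableOn (hIG1.const_mul 2).integrableOn,
      integral_const_mul, integral_const_mul]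
    linarith only [hgG1, hgG]
  have htot : ∫ t, F t ≤ P * X / L ^ E := by
    rw [← hsplit]
    have h5 : 4 * (P * X / L ^ (E + 3)) ≤ 1 / 2 * (P * X / L ^ E) := by
      have e : 4 * (P * X / L ^ (E + 3)) = (P * X / L ^ E) * (4 / L ^ 3) := by
        field_simp
        ring
      rw [e, mul_comm]
      apply mul_le_mul_of_nonneg_right _ (by positivity)
      rw [div_le_iff₀ (by positivity)]
      have h6 : L ^ 1 ≤ L ^ 3 := pow_le_pow_right₀ hL1 (by norm_num)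
      rw [pow_one] at h6
      linarith only [hLbig, h6]
    linarith only [hsm, hlg, h5]
  have hI0 : 0 ≤ ∫ t, F t := by
    rw [hF]
    exact integral_nonneg fun t => by positivity
  have hpi1 : 1 / (2 * Real.pi) ≤ 1 := by
    rw [div_le_one (by positivity)]
    linarith only [Real.pi_gt_three]
  have hFe : ∫ t, ‖ZZ S t‖ ^ 2 * ‖Mel (fun θ => G θ - G1 θ) t‖ ^ 2 = ∫ t, F t := by rw [hF]
  rw [hFe]
  calc 1 / (2 * Real.pi) * ∫ t, F t ≤ 1 * ∫ t, F t := mul_le_mul_of_nonneg_right hpi1 hI0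
    _ ≤ P * X / L ^ E := by rw [one_mul]; exact htot

end Pool.Agent.H76.MU

end

section

/-!
# CH JmS: the integral over the middle frequencies, a set `S` of primes of the block

Copy of `Pool.Agent.H76.MU.jm` (file `H76/MU/JM.lean`) with `S ⊆ pb P` in place of `pb P`.
-/

set_option autoImplicit false

namespace Pool.Agent.H43.CH

open Finset MeasureTheory
open Pool.Agent.H91.PK (ee)
open Pool.Agent.H76.EHB
open Pool.Agent.H35.W
open Pool.Agent.H76.MU (CorM ii_m log_ge log_pow_le gd)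

private theorem JmS_norm_ge (f : ℕ → ℝ) (N : ℕ) (Θ s θ : ℝ) (hθ : 0 < θ) :
    ‖ge f N 0 0 Θ s θ‖ ≤ (∑ n ∈ Icc 1 N, |f n|) * Real.exp (-(θ / Θ)) :=
  norm_ge_le f N 0 0 Θ s θ hθ

/-- windows of length at most one, both signs -/
private theorem JmS_window (f : ℕ → ℝ) (N : ℕ) (s v : ℝ) (hs : s = 1 ∨ s = -1)
    (hv0 : 0 ≤ v) (hv : v ≤ 1) :
    ∫ θ in (0 : ℝ)..v, ‖FF f N (s * θ)‖ ^ 2 ≤ S2 f N := by
  rcases hs with rfl | rfl
  · simp only [one_mul]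
    exact SmallA_window f N _ _ hv0 (by linarith)
  · have h := intervalIntegral.integral_comp_neg (a := (0 : ℝ)) (b := v)
      (fun t => ‖FF f N t‖ ^ 2)
    have e : ∀ θ : ℝ, -1 * θ = -θ := fun θ => by ring
    simp only [e]
    rw [h]
    exact SmallA_window f N _ _ (by linarith) (by linarith)

private theorem JmS_FF_cont (f : ℕ → ℝ) (N k : ℕ) (s : ℝ) :
    Continuous (fun y : ℝ => ‖FF f N (k * (s * y))‖ ^ 2) :=
  (((FF_continuous f N).comp (by fun_prop : Continuous fun y : ℝ => (k : ℝ) * (s * y))).norm).pow 2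

private theorem JmS_scale (f : ℕ → ℝ) (N : ℕ) (s Y : ℝ) (k : ℕ) (hk : 1 ≤ k)
    (hs : s = 1 ∨ s = -1) (hY : 0 ≤ Y) (hkY : k * Y ≤ 1) :
    ∫ y in (0 : ℝ)..Y, ‖FF f N (k * (s * y))‖ ^ 2 ≤ (1 / (k : ℝ)) * S2 f N := by
  have hk0 : (k : ℝ) ≠ 0 := by
    have : (1 : ℝ) ≤ k := by exact_mod_cast hk
    linarith only [this]
  have h1 := intervalIntegral.integral_comp_mul_left (a := 0) (b := Y)
    (fun t => ‖FF f N (s * t)‖ ^ 2) hk0
  have e : ∀ y : ℝ, (k : ℝ) * (s * y) = s * (k * y) := fun y => by ring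
  simp only [e]
  rw [h1, smul_eq_mul, mul_zero, ← one_div]
  have hk1 : (0 : ℝ) ≤ (k : ℝ) * Y := by positivity
  exact mul_le_mul_of_nonneg_left (JmS_window f N s (k * Y) hs hk1 hkY) (by positivity)

private theorem JmS_int_ge (S : Finset ℕ) (hS : ∀ k ∈ S, 1 ≤ k) (f : ℕ → ℝ) (N : ℕ)
    (Θ s : ℝ) (hΘ : 0 < Θ) :
    IntegrableOn (fun y => ‖∑ k ∈ S, ge f N 0 0 Θ s (k * y)‖ ^ 2) (Set.Ioi (0 : ℝ)) := by
  obtain ⟨B, hB⟩ : ∃ B : ℝ, B = ∑ n ∈ Icc 1 N, |f n| := ⟨_, rfl⟩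
  have hB0 : 0 ≤ B := by
    rw [hB]
    exact Finset.sum_nonneg fun _ _ => abs_nonneg _
  have hmeas : Measurable (fun y => ‖∑ k ∈ S, ge f N 0 0 Θ s (k * y)‖ ^ 2) := by
    refine (Measurable.norm (Finset.measurable_sum S fun k _ => ?_)).pow_const 2
    exact (ge_measurable f N 0 0 Θ s).comp (measurable_const.mul measurable_id)
  have hi : IntegrableOn (fun y : ℝ => ((S.card : ℝ) * B) ^ 2 * Real.exp (-(1 / Θ) * y))
      (Set.Ioi (0 : ℝ)) :=
    (exp_neg_integrableOn_Ioi 0 (by positivity : 0 < 1 / Θ)).const_mul _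
  refine Integrable.mono' hi hmeas.aestronglyMeasurable ?_
  refine (ae_restrict_iff' measurableSet_Ioi).2 (Filter.Eventually.of_forall ?_)
  intro y hy
  have hy0 : (0 : ℝ) < y := hy
  rw [Real.norm_eq_abs, abs_of_nonneg (sq_nonneg _)]
  have h1 : ‖∑ k ∈ S, ge f N 0 0 Θ s (k * y)‖ ≤ (S.card : ℝ) * B * Real.exp (-(1 / Θ) * y) := by
    refine (norm_sum_le _ _).trans ?_
    have h2 : ∀ k ∈ S, ‖ge f N 0 0 Θ s (k * y)‖ ≤ B * Real.exp (-(1 / Θ) * y) := by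
      intro k hk
      have hk1 : (1 : ℝ) ≤ k := by exact_mod_cast hS k hk
      have hky : 0 < (k : ℝ) * y := by positivity
      refine (JmS_norm_ge f N Θ s _ hky).trans ?_
      rw [← hB]
      apply mul_le_mul_of_nonneg_left _ hB0
      apply Real.exp_le_exp.2
      have h3 : y ≤ k * y := by nlinarith only [hy0, hk1]
      have h4 : y / Θ ≤ k * y / Θ := by gcongr
      calc -(k * y / Θ) ≤ -(y / Θ) := by linarith only [h4]
        _ = -(1 / Θ) * y := by ring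
    refine (Finset.sum_le_sum h2).trans (le_of_eq ?_)
    rw [Finset.sum_const, nsmul_eq_mul]
    ring
  have h5 : Real.exp (-(1 / Θ) * y) ≤ 1 := by
    apply Real.exp_le_one_iff.2
    have : 0 ≤ 1 / Θ * y := by positivity
    linarith only [this]
  have h6 := Real.exp_pos (-(1 / Θ) * y)
  calc ‖∑ k ∈ S, ge f N 0 0 Θ s (k * y)‖ ^ 2
      ≤ ((S.card : ℝ) * B * Real.exp (-(1 / Θ) * y)) ^ 2 :=
        pow_le_pow_left₀ (norm_nonneg _) h1 2
    _ = ((S.card : ℝ) * B) ^ 2 * (Real.exp (-(1 / Θ) * y) * Real.exp (-(1 / Θ) * y)) := by ring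
    _ ≤ ((S.card : ℝ) * B) ^ 2 * (1 * Real.exp (-(1 / Θ) * y)) := by
        apply mul_le_mul_of_nonneg_left _ (sq_nonneg _)
        exact mul_le_mul_of_nonneg_right h5 h6.le
    _ = ((S.card : ℝ) * B) ^ 2 * Real.exp (-(1 / Θ) * y) := by ring

private theorem JmS_int_gd (S : Finset ℕ) (hS : ∀ k ∈ S, 1 ≤ k) (f : ℕ → ℝ) (N : ℕ)
    (Θ Θ1 s : ℝ) (hΘ : 0 < Θ) (hΘ1 : 0 < Θ1) :
    IntegrableOn (fun y => ‖∑ k ∈ S, gd f N Θ Θ1 s (k * y)‖ ^ 2) (Set.Ioi (0 : ℝ)) := by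
  have i1 := JmS_int_ge S hS f N Θ s hΘ
  have i2 := JmS_int_ge S hS f N Θ1 s hΘ1
  have hmeas : Measurable (fun y => ‖∑ k ∈ S, gd f N Θ Θ1 s (k * y)‖ ^ 2) := by
    refine (Measurable.norm (Finset.measurable_sum S fun k _ => ?_)).pow_const 2
    unfold gd
    exact ((ge_measurable f N 0 0 Θ s).comp (measurable_const.mul measurable_id)).sub
      ((ge_measurable f N 0 0 Θ1 s).comp (measurable_const.mul measurable_id))
  refine Integrable.mono' ((i1.const_mul 2).add (i2.const_mul 2)) hmeas.aestronglyMeasurable ?_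
  refine Filter.Eventually.of_forall fun y => ?_
  rw [Real.norm_eq_abs, abs_of_nonneg (sq_nonneg _)]
  simp only [Pi.add_apply]
  unfold gd
  rw [Finset.sum_sub_distrib]
  have h1 := norm_sub_le (∑ k ∈ S, ge f N 0 0 Θ s (k * y)) (∑ k ∈ S, ge f N 0 0 Θ1 s (k * y))
  have h2 := norm_nonneg (∑ k ∈ S, ge f N 0 0 Θ s (k * y) - ∑ k ∈ S, ge f N 0 0 Θ1 s (k * y))
  nlinarith only [h1, h2, sq_nonneg (‖∑ k ∈ S, ge f N 0 0 Θ s (k * y)‖ - ‖∑ k ∈ S, ge f N 0 0 Θ1 s (k * y)‖),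
    norm_nonneg (∑ k ∈ S, ge f N 0 0 Θ s (k * y)), norm_nonneg (∑ k ∈ S, ge f N 0 0 Θ1 s (k * y))]

private theorem JmS_gd_eq (f : ℕ → ℝ) (N : ℕ) (Θ Θ1 s θ : ℝ) (hθ : 0 < θ) :
    gd f N Θ Θ1 s θ = FF f N (s * θ) *
      ((Real.exp (-(θ / Θ)) - Real.exp (-(θ / Θ1)) : ℝ) : ℂ) := by
  have e0 : ee (-(0 * s * θ)) = 1 := by
    have : -(0 * s * θ) = ((0 : ℤ) : ℝ) := by push_cast; ring
    rw [this, ee_int]
  unfold gd ge
  rw [if_pos hθ, if_pos hθ, e0, zero_add]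
  push_cast
  ring

/-- the bound with abstract parameters -/
private theorem JmS_main (g : ℕ → ℝ) (N P : ℕ) (S : Finset ℕ) (hSP : S ⊆ pb P) (s Θ Θ1 Y0 Y c : ℝ) (hs : s = 1 ∨ s = -1)
    (hΘ : 0 < Θ) (hΘ1 : 0 < Θ1) (hY0 : 0 < Y0) (hY : 0 ≤ Y) (hPY : 2 * P * Y ≤ 1)
    (hc : ∀ k ∈ S, ∀ y : ℝ, Y0 ≤ y → y ≤ Y →
      |1 - (Real.exp (-(k * y / Θ)) - Real.exp (-(k * y / Θ1)))| ≤ c) :
    ∫ y in Set.Icc Y0 Y, ‖SGs g N S (s * y)‖ ^ 2
      ≤ 2 * II S (gd g N Θ Θ1 s)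
        + 2 * S.card * c ^ 2 * (∑ k ∈ S, 1 / (k : ℝ)) * S2 g N := by
  have hS1 : ∀ k ∈ S, 1 ≤ k := by
    intro k hk0
    have hk := hSP hk0
    unfold pb at hk
    have := (mem_Ioc.1 (mem_filter.1 hk).1).1
    omega
  have hSK : ∀ k ∈ S, k ≤ 2 * P := by
    intro k hk0
    have hk := hSP hk0
    unfold pb at hk
    exact (mem_Ioc.1 (mem_filter.1 hk).1).2
  have hsub0 : Set.Icc Y0 Y ⊆ Set.Ioc 0 Y := fun y hy => ⟨lt_of_lt_of_le hY0 hy.1, hy.2⟩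
  have hsub1 : Set.Icc Y0 Y ⊆ Set.Ioi 0 := fun y hy => lt_of_lt_of_le hY0 hy.1
  have i1 := JmS_int_gd S hS1 g N Θ Θ1 s hΘ hΘ1
  have j1 := i1.mono_set hsub1
  have m1 : ∫ y in Set.Icc Y0 Y, ‖∑ k ∈ S, gd g N Θ Θ1 s (k * y)‖ ^ 2
      ≤ II S (gd g N Θ Θ1 s) :=
    setIntegral_mono_set i1 (Filter.Eventually.of_forall fun y => sq_nonneg _)
      (LE.le.eventuallyLE hsub1)
  have hci : ∀ k : ℕ, IntegrableOn (fun y : ℝ => ‖FF g N (k * (s * y))‖ ^ 2)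
      (Set.Ioc (0 : ℝ) Y) := fun k =>
    ((JmS_FF_cont g N k s).integrableOn_Icc (a := 0) (b := Y)).mono_set Set.Ioc_subset_Icc_self
  have hci' : ∀ k : ℕ, IntegrableOn (fun y : ℝ => ‖FF g N (k * (s * y))‖ ^ 2)
      (Set.Icc Y0 Y) := fun k => (hci k).mono_set hsub0
  obtain ⟨C, hC⟩ : ∃ C : ℝ, C = 2 * S.card * c ^ 2 := ⟨_, rfl⟩
  have hC0 : 0 ≤ C := by
    rw [hC]
    positivity
  have j2 : IntegrableOn (fun y : ℝ => C * ∑ k ∈ S, ‖FF g N (k * (s * y))‖ ^ 2)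
      (Set.Icc Y0 Y) :=
    (integrable_finsetSum S fun k _ => hci' k).const_mul C
  have hpt : ∀ y ∈ Set.Icc Y0 Y, ‖SGs g N S (s * y)‖ ^ 2
        ≤ 2 * ‖∑ k ∈ S, gd g N Θ Θ1 s (k * y)‖ ^ 2
          + C * ∑ k ∈ S, ‖FF g N (k * (s * y))‖ ^ 2 := by
    rintro y ⟨hy0, hyY⟩
    have hy : 0 < y := lt_of_lt_of_le hY0 hy0
    obtain ⟨G, hG⟩ : ∃ G : ℂ, G = ∑ k ∈ S, gd g N Θ Θ1 s (k * y) := ⟨_, rfl⟩
    obtain ⟨E, hE⟩ : ∃ E : ℂ, E = ∑ k ∈ S, FF g N (k * (s * y)) *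
      ((1 - (Real.exp (-(k * y / Θ)) - Real.exp (-(k * y / Θ1))) : ℝ) : ℂ) := ⟨_, rfl⟩
    have hsum : SGs g N S (s * y) = G + E := by
      unfold SGs
      rw [hG, hE, ← Finset.sum_add_distrib]
      refine Finset.sum_congr rfl fun k hk => ?_
      have hk1 : (1 : ℝ) ≤ k := by exact_mod_cast hS1 k hk
      have hky : 0 < (k : ℝ) * y := by positivity
      rw [JmS_gd_eq g N Θ Θ1 s _ hky]
      have e : s * ((k : ℝ) * y) = k * (s * y) := by ring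
      rw [e]
      push_cast
      ring
    have hEn : ‖E‖ ≤ ∑ k ∈ S, c * ‖FF g N (k * (s * y))‖ := by
      rw [hE]
      refine (norm_sum_le _ _).trans (Finset.sum_le_sum fun k hk => ?_)
      rw [norm_mul, Complex.norm_real, Real.norm_eq_abs, mul_comm]
      exact mul_le_mul_of_nonneg_right (hc k hk y hy0 hyY) (norm_nonneg _)
    have hE2 : ‖E‖ ^ 2 ≤ S.card * (c ^ 2 * ∑ k ∈ S, ‖FF g N (k * (s * y))‖ ^ 2) := by
      calc ‖E‖ ^ 2 ≤ (∑ k ∈ S, c * ‖FF g N (k * (s * y))‖) ^ 2 :=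
            pow_le_pow_left₀ (norm_nonneg _) hEn 2
        _ ≤ S.card * ∑ k ∈ S, (c * ‖FF g N (k * (s * y))‖) ^ 2 :=
            sq_sum_le_card_mul_sum_sq
        _ = S.card * (c ^ 2 * ∑ k ∈ S, ‖FF g N (k * (s * y))‖ ^ 2) := by
            have e1 : ∑ k ∈ S, (c * ‖FF g N (k * (s * y))‖) ^ 2 =
                c ^ 2 * ∑ k ∈ S, ‖FF g N (k * (s * y))‖ ^ 2 := by
              rw [Finset.mul_sum]
              exact Finset.sum_congr rfl fun k _ => mul_pow _ _ 2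
            rw [e1]
    rw [hsum, ← hG]
    have h6 := norm_add_le G E
    have h7 := norm_nonneg (G + E)
    have h8 : ‖G + E‖ ^ 2 ≤ 2 * ‖G‖ ^ 2 + 2 * ‖E‖ ^ 2 := by
      nlinarith only [h6, h7, sq_nonneg (‖G‖ - ‖E‖), norm_nonneg G, norm_nonneg E]
    calc ‖G + E‖ ^ 2 ≤ 2 * ‖G‖ ^ 2 + 2 * ‖E‖ ^ 2 := h8
      _ ≤ 2 * ‖G‖ ^ 2 + 2 * (S.card * (c ^ 2 * ∑ k ∈ S, ‖FF g N (k * (s * y))‖ ^ 2)) := by
          linarith only [hE2]
      _ = 2 * ‖G‖ ^ 2 + C * ∑ k ∈ S, ‖FF g N (k * (s * y))‖ ^ 2 := by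
          rw [hC]
          ring
  calc ∫ y in Set.Icc Y0 Y, ‖SGs g N S (s * y)‖ ^ 2
      ≤ ∫ y in Set.Icc Y0 Y, (2 * ‖∑ k ∈ S, gd g N Θ Θ1 s (k * y)‖ ^ 2
          + C * ∑ k ∈ S, ‖FF g N (k * (s * y))‖ ^ 2) := by
        apply integral_mono_of_nonneg
        · exact Filter.Eventually.of_forall fun y => sq_nonneg _
        · exact (j1.const_mul 2).add j2
        · exact (ae_restrict_iff' measurableSet_Icc).2 (Filter.Eventually.of_forall hpt)
    _ = 2 * (∫ y in Set.Icc Y0 Y, ‖∑ k ∈ S, gd g N Θ Θ1 s (k * y)‖ ^ 2)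
          + C * ∑ k ∈ S, ∫ y in Set.Icc Y0 Y, ‖FF g N (k * (s * y))‖ ^ 2 := by
        rw [integral_add (j1.const_mul 2) j2, integral_const_mul, integral_const_mul,
          integral_finsetSum S fun k _ => hci' k]
    _ ≤ 2 * II S (gd g N Θ Θ1 s) + C * ∑ k ∈ S, (1 / (k : ℝ)) * S2 g N := by
        apply add_le_add
        · linarith
        · apply mul_le_mul_of_nonneg_left _ hC0
          refine Finset.sum_le_sum fun k hk => ?_
          have h1 : ∫ y in Set.Icc Y0 Y, ‖FF g N (k * (s * y))‖ ^ 2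
              ≤ ∫ y in Set.Ioc (0 : ℝ) Y, ‖FF g N (k * (s * y))‖ ^ 2 :=
            setIntegral_mono_set (hci k) (Filter.Eventually.of_forall fun y => sq_nonneg _)
              (LE.le.eventuallyLE hsub0)
          refine h1.trans ?_
          rw [← intervalIntegral.integral_of_le hY]
          have hkK : (k : ℝ) ≤ 2 * P := by exact_mod_cast hSK k hk
          exact JmS_scale g N s Y k (hS1 k hk) hs hY
            ((mul_le_mul_of_nonneg_right hkK hY).trans hPY)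
    _ = 2 * II S (gd g N Θ Θ1 s)
        + 2 * S.card * c ^ 2 * (∑ k ∈ S, 1 / (k : ℝ)) * S2 g N := by
        rw [hC, ← Finset.sum_mul]
        ring

private theorem JmS_card (P : ℕ) : (pb P).card ≤ P := by
  unfold pb
  refine (Finset.card_filter_le _ _).trans ?_
  rw [Nat.card_Ioc]
  omega

private theorem JmS_recip (P : ℕ) (hP : 1 ≤ P) : ∑ k ∈ pb P, 1 / (k : ℝ) ≤ 1 := by
  have hP' : (1 : ℝ) ≤ P := by exact_mod_cast hP
  have h1 : ∀ k ∈ pb P, 1 / (k : ℝ) ≤ 1 / P := by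
    intro k hk
    unfold pb at hk
    have h2 := (mem_Ioc.1 (mem_filter.1 hk).1).1
    have h3 : (P : ℝ) ≤ k := by exact_mod_cast h2.le
    exact one_div_le_one_div_of_le (by linarith only [hP']) h3
  refine (Finset.sum_le_sum h1).trans ?_
  rw [Finset.sum_const, nsmul_eq_mul]
  have h2 : ((pb P).card : ℝ) ≤ P := by exact_mod_cast JmS_card P
  rw [mul_one_div, div_le_one (by linarith only [hP'])]
  exact h2

private theorem JmS_S2 (g : ℕ → ℝ) (N : ℕ) (h : ∀ n, |g n| ≤ 1) : S2 g N ≤ N := by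
  unfold S2
  have h1 : ∀ n ∈ Icc 1 N, g n ^ 2 ≤ 1 := fun n _ => by
    rw [← sq_abs]
    exact pow_le_one₀ (abs_nonneg _) (h n)
  refine (Finset.sum_le_sum h1).trans ?_
  simp

theorem jms (C0 E : ℕ) (η : ℝ) (hη : 0 < η) (hη1 : η ≤ 1) : ∃ b K m0 : ℕ, ∀ m : ℕ, m0 ≤ m →
    ∃ κ x0 : ℕ, ∀ x : ℕ, x0 ≤ x → ∀ (g : ℕ → ℝ) (N M P : ℕ) (S : Finset ℕ) (Y s : ℝ),
      CorM x m K η N M g → N ≤ x → x / Real.log x ^ C0 ≤ M → Real.log x ^ b ≤ P → S ⊆ pb P →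
      P ≤ x → (s = 1 ∨ s = -1) → P * Y ≤ 1 / Real.log x ^ (E + 12) →
      ∫ y in Set.Icc (Real.log x ^ κ / (P * x)) Y, ‖SGs g N S (s * y)‖ ^ 2
        ≤ P * x / Real.log x ^ E := by
  obtain ⟨b, K, m0, hb⟩ := ii_m C0 (E + 3) η hη hη1
  refine ⟨b, K, m0, fun m hm => ?_⟩
  obtain ⟨κ1, x1, h1⟩ := hb m hm
  obtain ⟨x2, hx2⟩ := log_ge 3
  obtain ⟨x3, hx3⟩ := log_pow_le 1 1 one_pos one_pos (E + 6)
  refine ⟨κ1 + 2, max x1 (max x2 (max x3 1)), fun x hx g N M P S Y s hg hN hM hP hSP hPx hs hPY => ?_⟩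
  have hxx1 : x1 ≤ x := (le_max_left _ _).trans hx
  have hxx2 : x2 ≤ x := (le_max_left _ _).trans ((le_max_right _ _).trans hx)
  have hxx3 : x3 ≤ x :=
    (le_max_left _ _).trans ((le_max_right _ _).trans ((le_max_right _ _).trans hx))
  have hx1 : 1 ≤ x :=
    (le_max_right _ _).trans ((le_max_right _ _).trans ((le_max_right _ _).trans hx))
  have hxr : (1 : ℝ) ≤ x := by exact_mod_cast hx1
  have hx0 : (0 : ℝ) < x := by linarith only [hxr]
  have hII := h1 x hxx1 g N M P S s hg hN hM hP hPx hSP hs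
  have hL := hx2 x hxx2
  have hLx := hx3 x hxx3
  rw [one_mul, Real.rpow_one] at hLx
  obtain ⟨L, hLdef⟩ : ∃ L : ℝ, L = Real.log x := ⟨_, rfl⟩
  rw [← hLdef] at hII hL hLx hPY hP ⊢
  have hL0 : 0 < L := by linarith only [hL]
  have hP1 : (1 : ℝ) ≤ P := (one_le_pow₀ (by linarith only [hL] : (1 : ℝ) ≤ L)).trans hP
  have hP1' : 1 ≤ P := by exact_mod_cast hP1
  have hrhs : 0 ≤ P * x / L ^ E := by positivity
  obtain ⟨Y0, hY0def⟩ : ∃ Y0 : ℝ, Y0 = L ^ (κ1 + 2) / (P * x) := ⟨_, rfl⟩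
  rw [← hY0def]
  have hY0 : 0 < Y0 := by
    rw [hY0def]
    positivity
  rcases lt_or_ge Y Y0 with hYY | hYY
  · rw [Set.Icc_eq_empty (not_le.2 hYY), Measure.restrict_empty, integral_zero_measure]
    exact hrhs
  have hY : 0 < Y := lt_of_lt_of_le hY0 hYY
  have hLE : (2 : ℝ) ≤ L ^ (E + 12) := by
    have : L ^ 1 ≤ L ^ (E + 12) := pow_le_pow_right₀ (by linarith only [hL]) (by omega)
    rw [pow_one] at this
    linarith only [hL, this]
  have h2PY : 2 * P * Y ≤ 1 := by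
    have h2 : (1 : ℝ) / L ^ (E + 12) ≤ 1 / 2 := one_div_le_one_div_of_le (by norm_num) hLE
    linarith only [hPY, h2]
  -- the bound `c`
  have hexp : Real.exp (-(L ^ 2)) ≤ 1 / L ^ (E + 6) := by
    rw [Real.exp_neg, ← one_div]
    apply one_div_le_one_div_of_le (by positivity)
    have h3 : Real.exp L = x := by rw [hLdef, Real.exp_log hx0]
    have h4 : Real.exp L ≤ Real.exp (L ^ 2) := Real.exp_le_exp.2 (by nlinarith only [hL])
    linarith only [hLx, h3, h4]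
  have hc : ∀ k ∈ S, ∀ y : ℝ, Y0 ≤ y → y ≤ Y →
      |1 - (Real.exp (-(k * y / (1 / L ^ 6))) - Real.exp (-(k * y / (L ^ κ1 / x))))|
        ≤ 3 / L ^ (E + 6) := by
    intro k hk' y hy0 hyY
    have hk := hSP hk'
    have hyp : 0 < y := lt_of_lt_of_le hY0 hy0
    unfold pb at hk
    have hk1 := (mem_Ioc.1 (mem_filter.1 hk).1).1
    have hk2 := (mem_Ioc.1 (mem_filter.1 hk).1).2
    have hkP : (P : ℝ) ≤ k := by exact_mod_cast hk1.le
    have hkP2 : (k : ℝ) ≤ 2 * P := by exact_mod_cast hk2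
    have hk0 : (0 : ℝ) < k := by linarith only [hP1, hkP]
    -- first part
    have h5 : k * y / (1 / L ^ 6) ≤ 2 / L ^ (E + 6) := by
      have h6 : k * y ≤ 2 * (P * Y) := by
        have : (k : ℝ) * y ≤ 2 * P * Y := mul_le_mul hkP2 hyY hyp.le (by positivity)
        linarith only [this]
      have h7 : k * y ≤ 2 * (1 / L ^ (E + 12)) := by linarith only [hPY, h6]
      rw [div_div_eq_mul_div, div_one]
      calc k * y * L ^ 6 ≤ 2 * (1 / L ^ (E + 12)) * L ^ 6 :=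
            mul_le_mul_of_nonneg_right h7 (by positivity)
        _ = 2 / L ^ (E + 6) := by
            rw [show E + 12 = (E + 6) + 6 by ring, pow_add L (E + 6) 6]
            field_simp
    have h8 : 0 ≤ k * y / (1 / L ^ 6) := by positivity
    have h9 : Real.exp (-(k * y / (1 / L ^ 6))) ≤ 1 := Real.exp_le_one_iff.2 (by linarith only [h8])
    have h10 := Real.add_one_le_exp (-(k * y / (1 / L ^ 6)))
    -- second part
    have h11 : L ^ 2 ≤ k * y / (L ^ κ1 / x) := by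
      rw [le_div_iff₀ (by positivity)]
      have h12 : L ^ (κ1 + 2) / (P * x) ≤ y := by rw [← hY0def]; exact hy0
      have h13 : P * (L ^ (κ1 + 2) / (P * x)) ≤ k * y :=
        mul_le_mul hkP h12 (by positivity) hk0.le
      have h14 : P * (L ^ (κ1 + 2) / (P * x)) = L ^ 2 * (L ^ κ1 / x) := by
        rw [pow_add]
        field_simp
      linarith only [h13, h14]
    have h15 : Real.exp (-(k * y / (L ^ κ1 / x))) ≤ 1 / L ^ (E + 6) :=
      (Real.exp_le_exp.2 (by linarith only [h11])).trans hexp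
    have h16 := Real.exp_pos (-(k * y / (L ^ κ1 / x)))
    have h17 : (3 : ℝ) / L ^ (E + 6) = 2 / L ^ (E + 6) + 1 / L ^ (E + 6) := by ring
    rw [abs_of_nonneg (by linarith only [h9, h16]), h17]
    linarith only [h5, h10, h15]
  have hmain := JmS_main g N P S hSP s (1 / L ^ 6) (L ^ κ1 / x) Y0 Y (3 / L ^ (E + 6)) hs
    (by positivity) (by positivity) hY0 hY.le h2PY hc
  refine hmain.trans ?_
  have hcard : (S.card : ℝ) ≤ P := by exact_mod_cast (card_le_card hSP).trans (JmS_card P)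
  have hrec : ∑ k ∈ S, 1 / (k : ℝ) ≤ 1 :=
    (sum_le_sum_of_subset_of_nonneg hSP (fun k _ _ => by positivity)).trans (JmS_recip P hP1')
  have hrec0 : 0 ≤ ∑ k ∈ S, 1 / (k : ℝ) := Finset.sum_nonneg fun k _ => by positivity
  have hS2 : S2 g N ≤ x := (JmS_S2 g N hg.bd).trans (by exact_mod_cast hN)
  have hS20 := S2_nonneg g N
  have t1 : 2 * (S.card : ℝ) * (3 / L ^ (E + 6)) ^ 2 * (∑ k ∈ S, 1 / (k : ℝ)) * S2 g N
      ≤ 2 * P * (3 / L ^ (E + 6)) ^ 2 * 1 * x := by gcongr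
  have t2 : 2 * (P : ℝ) * (3 / L ^ (E + 6)) ^ 2 * 1 * x ≤ P * x / L ^ E * (18 / L ^ 4) := by
    have e1 : 2 * (P : ℝ) * (3 / L ^ (E + 6)) ^ 2 * 1 * x = P * x * (18 / (L ^ (E + 6)) ^ 2) := by
      ring
    have e2 : P * x / L ^ E * (18 / L ^ 4) = P * x * (18 / L ^ (E + 4)) := by
      rw [pow_add]
      field_simp
    rw [e1, e2]
    have : L ^ (E + 4) ≤ (L ^ (E + 6)) ^ 2 := by
      rw [← pow_mul]
      exact pow_le_pow_right₀ (by linarith only [hL]) (by omega)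
    gcongr
  have t3 : P * x / L ^ (E + 3) = P * x / L ^ E * (1 / L ^ 3) := by
    rw [pow_add]
    field_simp
  have t4 : 1 / L ^ 3 ≤ 1 / 27 := by
    apply one_div_le_one_div_of_le (by norm_num)
    calc (27 : ℝ) = 3 ^ 3 := by norm_num
      _ ≤ L ^ 3 := pow_le_pow_left₀ (by norm_num) hL 3
  have t5 : 18 / L ^ 4 ≤ 18 / 81 := by
    have : (81 : ℝ) ≤ L ^ 4 := by
      calc (81 : ℝ) = 3 ^ 4 := by norm_num
        _ ≤ L ^ 4 := pow_le_pow_left₀ (by norm_num) hL 4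
    gcongr
  rw [t3] at hII
  have t6 : P * x / L ^ E * (1 / L ^ 3) ≤ P * x / L ^ E * (1 / 27) :=
    mul_le_mul_of_nonneg_left t4 hrhs
  have t7 : P * x / L ^ E * (18 / L ^ 4) ≤ P * x / L ^ E * (18 / 81) :=
    mul_le_mul_of_nonneg_left t5 hrhs
  linarith only [hII, hrhs, t1, t2, t6, t7]

end Pool.Agent.H43.CH

end
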