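import Pool.Agent.H43.PS.M09
import Pool.Agent.H43.PS.M12

/-! The parts of this file: H43.CH.Cdm, H43.CH.LvS, H43.CH.LvV, H43.CH.Msq. -/

section

/-!
# CH Cdm: the second moment along random tuples on average, all lengths `H`

As `Mom2.lean`, with `cd1 2 2 (δ/4) ε` (`G = 1`): off diagonal terms `≤ K^2 H^K X · 2 C1^2 sav^2 ≤ K H^K X` since `K sav^2 ≤ 2/N0 + 2 L^{-δ/2}` is small.
-/

set_option autoImplicit false

namespace Pool.Agent.H43.CH

open Finset MeasureTheory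
open Pool.Agent.H43.LM (mu)

private theorem cdm_card (K : ℕ) (S : Finset ℕ) (i j : Fin K) (hij : i ≠ j) (p : ℕ × ℕ) :
    ((Fintype.piFinset (fun _ : Fin K => S)).filter (fun h => (h i, h j) = p)).card ≤ S.card ^ (K - 2) := by
  classical
  have h1 : (Fintype.piFinset (fun _ : Fin K => S)).filter (fun h => (h i, h j) = p)
      ⊆ Fintype.piFinset (fun k : Fin K => if k ∈ ({i, j} : Finset (Fin K)) then {if k = i then p.1 else p.2} else S) := by
    intro h hh
    rw [mem_filter, Fintype.mem_piFinset] at hh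
    obtain ⟨h2, h3⟩ := hh
    rw [Fintype.mem_piFinset]
    intro k
    by_cases hk : k ∈ ({i, j} : Finset (Fin K))
    · rw [if_pos hk, mem_singleton]
      by_cases hki : k = i
      · rw [if_pos hki, hki, ← h3]
      · rw [if_neg hki]
        rw [mem_insert, mem_singleton] at hk
        rcases hk with hk | hk
        · exact absurd hk hki
        · rw [hk, ← h3]
    · rw [if_neg hk]
      exact h2 k
  refine (card_le_card h1).trans ?_
  rw [Fintype.card_piFinset]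
  have h4 : ∀ k : Fin K, (if k ∈ ({i, j} : Finset (Fin K)) then ({if k = i then p.1 else p.2} : Finset ℕ) else S).card
      = if k ∈ ({i, j} : Finset (Fin K)) then 1 else S.card := by
    intro k
    split_ifs <;> simp
  rw [Finset.prod_congr rfl fun k _ => h4 k, Finset.prod_ite, Finset.prod_const_one, one_mul, Finset.prod_const]
  have h5 : (univ.filter fun k : Fin K => k ∉ ({i, j} : Finset (Fin K))).card = K - 2 := by
    have h6 : (univ.filter fun k : Fin K => k ∉ ({i, j} : Finset (Fin K))) = ({i, j} : Finset (Fin K))ᶜ := by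
      ext k
      simp
    rw [h6, card_compl, Fintype.card_fin, card_pair hij]
  rw [h5]

private theorem cdm_pair (K : ℕ) (S : Finset ℕ) (i j : Fin K) (hij : i ≠ j) (G : ℕ → ℕ → ℝ) (hG : ∀ x y, 0 ≤ G x y) :
    ∑ h ∈ Fintype.piFinset (fun _ : Fin K => S), G (h i) (h j)
      ≤ (S.card : ℝ) ^ (K - 2) * ∑ p ∈ S ×ˢ S, G p.1 p.2 := by
  classical
  rw [← Finset.sum_fiberwise_of_maps_to (t := S ×ˢ S) (g := fun h : Fin K → ℕ => (h i, h j)) (fun h hh => by
    rw [Fintype.mem_piFinset] at hh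
    exact mem_product.2 ⟨hh i, hh j⟩), mul_sum]
  refine Finset.sum_le_sum fun p _ => ?_
  have h1 : ∀ h ∈ (Fintype.piFinset (fun _ : Fin K => S)).filter (fun h => (h i, h j) = p), G (h i) (h j) = G p.1 p.2 := by
    intro h hh
    rw [mem_filter] at hh
    rw [← hh.2]
  rw [Finset.sum_congr rfl h1, sum_const, nsmul_eq_mul]
  refine mul_le_mul_of_nonneg_right ?_ (hG _ _)
  exact_mod_cast cdm_card K S i j hij p

private theorem cdm_two (S : Finset ℕ) (G : ℕ → ℕ → ℝ) :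
    ∑ p ∈ S ×ˢ S, G p.1 p.2 = ∑ h ∈ Fintype.piFinset (fun _ : Fin 2 => S), G (h 0) (h 1) := by
  refine Finset.sum_nbij' (fun p : ℕ × ℕ => (![p.1, p.2] : Fin 2 → ℕ)) (fun h => (h 0, h 1)) ?_ ?_ ?_ ?_ ?_
  · intro p hp
    rw [mem_product] at hp
    rw [Fintype.mem_piFinset]
    intro k
    fin_cases k
    · exact hp.1
    · exact hp.2
  · intro h hh
    rw [Fintype.mem_piFinset] at hh
    exact mem_product.2 ⟨hh 0, hh 1⟩
  · intro p _
    rfl
  · intro h _
    funext k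
    fin_cases k <;> rfl
  · intro p _
    rfl

private theorem cdm_ev (C δ : ℝ) (hδ : 0 < δ) : ∃ X2 : ℕ, ∀ X : ℕ, X2 ≤ X →
    1 ≤ Real.log X ∧ 0 < Real.log (Real.log X) ∧ 6 * C ^ 2 ≤ Real.log X ^ (δ / 2) := by
  have htend : Filter.Tendsto (fun X : ℕ => Real.log X) Filter.atTop Filter.atTop :=
    Real.tendsto_log_atTop.comp tendsto_natCast_atTop_atTop
  have h1 : ∀ᶠ L : ℝ in Filter.atTop, 1 < L ∧ 6 * C ^ 2 ≤ L ^ (δ / 2) :=
    (Filter.eventually_gt_atTop 1).and ((tendsto_rpow_atTop (show 0 < δ / 2 by linarith only [hδ])).eventually_ge_atTop _)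
  obtain ⟨X2, hX2⟩ := Filter.eventually_atTop.1 (htend.eventually h1)
  refine ⟨X2, fun X hX => ?_⟩
  obtain ⟨h2, h3⟩ := hX2 X hX
  exact ⟨h2.le, Real.log_pos h2, h3⟩

private theorem cdm_key (C δ L l h K N : ℝ) (hC : 1 ≤ C) (hδ : 0 < δ) (hL : 1 ≤ L) (hl : 0 < l) (hh : 0 < h) (hK0 : 0 ≤ K)
    (hN : 4 * C ^ 2 ≤ N) (hKN : N * K ≤ (h / l) ^ 2) (hK : K ≤ L ^ (2 - δ)) (hL6 : 6 * C ^ 2 ≤ L ^ (δ / 2)) :
    K * ((C * (l / h + L ^ (δ / 4 - 1))) ^ 2 + 1 / L ^ 2) ≤ 1 := by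
  have hL0 : 0 < L := by linarith only [hL]
  have hC0 : 0 < C := by linarith only [hC]
  set P : ℝ := L ^ (δ / 2) with hP
  have hP0 : 0 < P := Real.rpow_pos_of_pos hL0 _
  -- first part
  have a1 : 4 * C ^ 2 * K * (l / h) ^ 2 ≤ 1 := by
    have b1 : 4 * C ^ 2 * K ≤ (h / l) ^ 2 := (mul_le_mul_of_nonneg_right hN hK0).trans hKN
    have b2 : (h / l) ^ 2 * (l / h) ^ 2 = 1 := by
      rw [← mul_pow, div_mul_div_comm, mul_comm l h, div_self (by positivity), one_pow]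
    rw [← b2]
    exact mul_le_mul_of_nonneg_right b1 (by positivity)
  -- second part
  have a2 : K * (L ^ (δ / 4 - 1)) ^ 2 * P ≤ 1 := by
    have b1 : (L ^ (δ / 4 - 1)) ^ 2 = L ^ (δ / 2 - 2) := by
      rw [← Real.rpow_natCast, ← Real.rpow_mul hL0.le]
      congr 1
      push_cast
      ring
    rw [b1]
    have b2 : L ^ (2 - δ) * L ^ (δ / 2 - 2) * P = 1 := by
      rw [hP, ← Real.rpow_add hL0, ← Real.rpow_add hL0]
      have : 2 - δ + (δ / 2 - 2) + δ / 2 = 0 := by ring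
      rw [this, Real.rpow_zero]
    rw [← b2]
    refine mul_le_mul_of_nonneg_right (mul_le_mul_of_nonneg_right hK (Real.rpow_pos_of_pos hL0 _).le) hP0.le
  have a3 : K * (1 / L ^ 2) * P ≤ 1 := by
    have b1 : L ^ (2 - δ) * (1 / L ^ 2) * P ≤ 1 := by
      have b2 : (1 : ℝ) / L ^ 2 = L ^ (-2 : ℝ) := by
        rw [Real.rpow_neg hL0.le, one_div]
        norm_cast
      rw [b2, hP, ← Real.rpow_add hL0, ← Real.rpow_add hL0]
      have : 2 - δ + -2 + δ / 2 = - (δ / 2) := by ring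
      rw [this]
      exact Real.rpow_le_one_of_one_le_of_nonpos hL (by linarith only [hδ])
    refine le_trans ?_ b1
    refine mul_le_mul_of_nonneg_right (mul_le_mul_of_nonneg_right hK (by positivity)) hP0.le
  set u : ℝ := l / h with hu
  set v : ℝ := L ^ (δ / 4 - 1) with hv
  set w : ℝ := 1 / L ^ 2 with hw
  have hu0 : 0 < u := by positivity
  have hv0 : 0 < v := Real.rpow_pos_of_pos hL0 _
  have hw0 : 0 < w := by positivity
  have a4 : K * v ^ 2 * (6 * C ^ 2) ≤ 1 :=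
    (mul_le_mul_of_nonneg_left hL6 (by positivity)).trans a2
  have a5 : K * w * (6 * C ^ 2) ≤ 1 :=
    (mul_le_mul_of_nonneg_left hL6 (by positivity)).trans a3
  have a6 : (C * (u + v)) ^ 2 ≤ 2 * C ^ 2 * u ^ 2 + 2 * C ^ 2 * v ^ 2 := by
    nlinarith only [mul_nonneg (sq_nonneg C) (sq_nonneg (u - v))]
  have a7 : K * w ≤ K * w * C ^ 2 := by
    have : (1 : ℝ) ≤ C ^ 2 := by nlinarith only [hC]
    exact le_mul_of_one_le_right (by positivity) this
  have a8 : K * ((C * (u + v)) ^ 2 + w) ≤ K * (2 * C ^ 2 * u ^ 2 + 2 * C ^ 2 * v ^ 2) + K * w := by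
    rw [mul_add]
    exact add_le_add (mul_le_mul_of_nonneg_left a6 hK0) le_rfl
  nlinarith only [a1, a4, a5, a7, a8]

theorem cdm_h (h_cd1 : cd1_P) (δ ε : ℝ) (hδ : 0 < δ) (hδ1 : δ < 1) (hε : 0 < ε) (hε1 : ε < 1) : ∃ N0 : ℕ, ∀ X : ℕ, N0 ≤ X →
    ∀ H K : ℕ, 2 ≤ H → (H : ℝ) ≤ (X : ℝ) ^ (1 - ε) →
      (N0 : ℝ) * K ≤ (Real.log H / Real.log (Real.log X)) ^ 2 → (K : ℝ) ≤ Real.log X ^ (2 - δ) →
      ∑ h ∈ Fintype.piFinset (fun _ : Fin K => Icc 1 H), ∑ n ∈ Ioc X (2 * X), (∑ i, mu (n + h i)) ^ 2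
        ≤ 2 * K * (H : ℝ) ^ K * X := by
  classical
  obtain ⟨C, X1, hC, hX1⟩ := h_cd1 2 2 (δ / 4) ε (by positivity) (by linarith only [hδ, hδ1]) hε hε1
  obtain ⟨X2, hX2⟩ := cdm_ev C δ hδ
  refine ⟨max (max X1 3) (max X2 ⌈4 * C ^ 2⌉₊), fun X hX H K hH hH' hKN hK => ?_⟩
  have hXX1 : X1 ≤ X := ((le_max_left _ _).trans (le_max_left _ _)).trans hX
  have hX3 : 3 ≤ X := ((le_max_right _ _).trans (le_max_left _ _)).trans hX
  have hXX2 : X2 ≤ X := ((le_max_left _ _).trans (le_max_right _ _)).trans hX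
  have hN4 : 4 * C ^ 2 ≤ ((max (max X1 3) (max X2 ⌈4 * C ^ 2⌉₊) : ℕ) : ℝ) := by
    refine (Nat.le_ceil _).trans ?_
    exact_mod_cast (le_max_right _ _).trans (le_max_right _ _)
  obtain ⟨hL1, hLL, hL6⟩ := hX2 X hXX2
  have hX0 : (0 : ℝ) < X := by
    have : 0 < X := by omega
    exact_mod_cast this
  have hL : 0 < Real.log X := by linarith only [hδ, hδ1, hL1]
  have hH0 : (0 : ℝ) ≤ H := Nat.cast_nonneg H
  have hK0 : (0 : ℝ) ≤ K := Nat.cast_nonneg K
  have hlH : 0 < Real.log H := Real.log_pos (by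
    have : 1 < H := by omega
    exact_mod_cast this)
  set T : ℝ := (C * sav X H (δ / 4)) ^ 2 + 1 / Real.log X ^ 2 with hT
  have hT0 : 0 ≤ T := by positivity
  have hKT : (K : ℝ) * T ≤ 1 :=
    cdm_key C δ (Real.log X) (Real.log (Real.log X)) (Real.log H) K _ hC hδ hL1 hLL hlH hK0 hN4 hKN hK hL6
  have hc := hX1 X hXX1 H hH hH' (fun _ => 1) (fun _ _ => by simp)
  have hsumG : ∑ n ∈ Ioc X (2 * X), ‖(1 : ℂ)‖ = (X : ℝ) := by
    rw [norm_one, sum_const, Nat.card_Ioc, nsmul_eq_mul, mul_one]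
    have h4 : 2 * X - X = X := by omega
    rw [h4]
  rw [hsumG] at hc
  -- expansion of the square
  have hexp : ∑ h ∈ Fintype.piFinset (fun _ : Fin K => Icc 1 H), ∑ n ∈ Ioc X (2 * X), (∑ i, mu (n + h i)) ^ 2
      = ∑ i : Fin K, ∑ j : Fin K, ∑ h ∈ Fintype.piFinset (fun _ : Fin K => Icc 1 H),
        ∑ n ∈ Ioc X (2 * X), mu (n + h i) * mu (n + h j) := by
    have h1 : ∀ h : Fin K → ℕ, ∑ n ∈ Ioc X (2 * X), (∑ i, mu (n + h i)) ^ 2
        = ∑ i : Fin K, ∑ j : Fin K, ∑ n ∈ Ioc X (2 * X), mu (n + h i) * mu (n + h j) := by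
      intro h
      simp only [pow_two, Finset.sum_mul_sum]
      rw [Finset.sum_comm]
      exact Finset.sum_congr rfl fun i _ => Finset.sum_comm
    rw [Finset.sum_congr rfl fun h _ => h1 h, Finset.sum_comm]
    exact Finset.sum_congr rfl fun i _ => Finset.sum_comm
  rw [hexp]
  have hij : ∀ i j : Fin K, ∑ h ∈ Fintype.piFinset (fun _ : Fin K => Icc 1 H),
      ∑ n ∈ Ioc X (2 * X), mu (n + h i) * mu (n + h j)
      ≤ (if i = j then (H : ℝ) ^ K * X else 0) + (H : ℝ) ^ K * X * T := by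
    intro i j
    have hnn : 0 ≤ (H : ℝ) ^ K * X * T := by positivity
    by_cases h : i = j
    · rw [if_pos h, h]
      refine le_add_of_le_of_nonneg ?_ hnn
      have h2 : ∀ h ∈ Fintype.piFinset (fun _ : Fin K => Icc 1 H),
          ∑ n ∈ Ioc X (2 * X), mu (n + h j) * mu (n + h j) ≤ (X : ℝ) := by
        intro h _
        have h3 : ∀ n ∈ Ioc X (2 * X), mu (n + h j) * mu (n + h j) ≤ (1 : ℝ) := by
          intro n _
          have := Pool.Agent.H43.LM.mu_abs_le (n + h j)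
          rw [abs_le] at this
          nlinarith only [hδ, hδ1, this, this.1, this.2]
        refine (Finset.sum_le_sum h3).trans ?_
        rw [sum_const, Nat.card_Ioc, nsmul_eq_mul, mul_one]
        have h4 : 2 * X - X = X := by omega
        rw [h4]
      refine (Finset.sum_le_sum h2).trans ?_
      rw [sum_const, Fintype.card_piFinset_const, Nat.card_Icc, nsmul_eq_mul]
      push_cast
      simp
    · rw [if_neg h, zero_add]
      have hK2 : 2 ≤ K := by
        have h5 : (⟨i, i.2⟩ : Fin K) ≠ j := h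
        have := i.2
        have := j.2
        have h6 : (i : ℕ) ≠ j := fun hh => h (Fin.ext hh)
        omega
      have h7 : ∑ h ∈ Fintype.piFinset (fun _ : Fin K => Icc 1 H),
          ∑ n ∈ Ioc X (2 * X), mu (n + h i) * mu (n + h j)
          ≤ ∑ h ∈ Fintype.piFinset (fun _ : Fin K => Icc 1 H),
            (fun x y : ℕ => |∑ n ∈ Ioc X (2 * X), mu (n + x) * mu (n + y)|) (h i) (h j) :=
        Finset.sum_le_sum fun h _ => le_abs_self _
      refine h7.trans ?_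
      refine (cdm_pair K (Icc 1 H) i j h
        (fun x y : ℕ => |∑ n ∈ Ioc X (2 * X), mu (n + x) * mu (n + y)|) (fun x y => abs_nonneg _)).trans ?_
      rw [cdm_two (Icc 1 H) (fun x y : ℕ => |∑ n ∈ Ioc X (2 * X), mu (n + x) * mu (n + y)|)]
      have h8 : ∑ h ∈ Fintype.piFinset (fun _ : Fin 2 => Icc 1 H),
          (fun x y : ℕ => |∑ n ∈ Ioc X (2 * X), mu (n + x) * mu (n + y)|) (h 0) (h 1)
          ≤ (H : ℝ) ^ 2 * (X * T) := by
        have hc' : (H : ℝ) ^ 2 * ((C * sav X H (δ / 4)) ^ 2 * X + X / Real.log X ^ 2) = (H : ℝ) ^ 2 * (X * T) := by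
          rw [hT]
          ring
        rw [← hc']
        refine le_trans (le_of_eq ?_) hc
        refine Finset.sum_congr rfl fun h _ => ?_
        simp only [Fin.prod_univ_two, one_mul]
        rw [← Real.norm_eq_abs, ← Complex.norm_real]
        congr 1
        push_cast
        rfl
      refine (mul_le_mul_of_nonneg_left h8 (by positivity)).trans (le_of_eq ?_)
      rw [Nat.card_Icc, Nat.add_sub_cancel]
      have h9 : (H : ℝ) ^ K = (H : ℝ) ^ (K - 2) * (H : ℝ) ^ 2 := by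
        rw [← pow_add]
        congr 1
        omega
      rw [h9]
      ring
  refine (Finset.sum_le_sum fun i _ => Finset.sum_le_sum fun j _ => hij i j).trans ?_
  simp only [Finset.sum_add_distrib, Finset.sum_ite_eq, Finset.mem_univ, if_true, sum_const, card_univ,
    Fintype.card_fin, nsmul_eq_mul]
  have h10 : (K : ℝ) * ((H : ℝ) ^ K * X * T) ≤ (H : ℝ) ^ K * X := by
    have h12 : (K : ℝ) * ((H : ℝ) ^ K * X * T) = (H : ℝ) ^ K * X * (K * T) := by ring
    rw [h12]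
    exact mul_le_of_le_one_right (by positivity) hKT
  have h11 := mul_le_mul_of_nonneg_left h10 hK0
  linarith only [h11]

end Pool.Agent.H43.CH

end

section

/-!
# CH LvS: the class sums with the weight `log n`

Adaptation of `Pool.Agent.H76.MU.logsum` (file `H76/MU/LmS.lean`), which becomes simpler: no weights `j + Om`, no range `(P, P 2^J]`, but classes.  `D1 = ⌈exp(L^{19/20})⌉₊`; `η` = the least of the three (`nrm_hm`, `midc`, `longc`);
`mu_log`; `d` not prime to `c` contributes `0` (`cls`); for `d` prime to `c` the inner sum is `SU c v (y/d)` with `v` prime to `c`.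
(i) `d ≤ D1`: `nrm ≤ ∑_{d ≤ D1} Λ(d) ψ (y/d) ≤ ψ y (log D1 + C) ≤ 2 L^{19/20} ψ y` by the hypothesis (as there).
(ii) `d > D1` a prime power, not prime: as there (only `|mu| ≤ 1` is used): total `≤ y/(4 L^K)`.
(iii) primes `D1 < p ≤ y`; `Z = ⌈x^{1/20}⌉₊`; split the primes into the classes `r` modulo `c` (`r < c`, prime to `c`; at most `c ≤ L^B` classes); for `p ≡ r` the inner condition is `m ≡ v_r`:
 the inner sum is `∑_{l ≤ Z, l ≤ y/p} + ∑_{l ∈ Ioc Z (y/p)}` of `w_r(l) = mu l` if `l ≡ v_r (c)` and `0` otherwise.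
 Part `l > Z`: `midc` (`K + B + 3`) with `w_r`: `≤ c · y/L^{K+B+3}`.
 Part `l ≤ Z`: exchange: `∑_{l ≤ Z} w_r(l) ee(t log l) · PSr c r D1 (y/l) t`, `longc` (`K + B + 3`; `D1 ≤ x^{1/4}`, `y/l ≥ x^{3/4}/(2 x^{1/20}) ≥ x^{2/3}`): `≤ ∑_l (y/l)/L^{K+B+3} ≤ 2 y/L^{K+B+2}`.
-/

set_option autoImplicit false

namespace Pool.Agent.H43.CH

open Finset MeasureTheory
open Pool.Agent.H91.PK (ee)
open Pool.Agent.H53.MIX (VKw)
open Pool.Agent.H76.MU (nrm BS)
open Pool.Agent.H43.LM (mu)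

open Pool.Agent.H91.EHA (Lam)
open Pool.Agent.H43.LM (mu_abs_le)
open Pool.Agent.H76.MU (nrm_nonneg nrm_add nrm_sum nrm_mul nrm_triv nrm_hm cont_poly norm_ee log_ge log_pow_le exp_pow_le)

/-- Mertens, upper bound -/
private theorem LvS_mert (n : ℕ) (hn : 1 ≤ n) :
    ∑ d ∈ Ioc 0 n, Lam d / d ≤ Real.log n + (Real.log 4 + 4) := by
  have hn0 : (0 : ℝ) < n := by exact_mod_cast hn
  have h1 := Pool.Agent.H91.Gold.log_fact_eq n
  have h2 : ∑ k ∈ Ioc 0 n, Real.log k ≤ n * Real.log n := by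
    calc ∑ k ∈ Ioc 0 n, Real.log k ≤ ∑ k ∈ Ioc 0 n, Real.log n := by
          apply sum_le_sum
          intro k hk
          rw [mem_Ioc] at hk
          exact Real.log_le_log (by exact_mod_cast hk.1) (by exact_mod_cast hk.2)
      _ = n * Real.log n := by rw [sum_const, Nat.card_Ioc, nsmul_eq_mul]; simp
  have h3 := Chebyshev.psi_le_const_mul_self (x := (n : ℝ)) (by positivity)
  rw [Pool.Agent.H91.Gold.psi_eq] at h3
  have h4 : ∑ d ∈ Ioc 0 n, Lam d * ((n : ℝ) / d) ≤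
      ∑ d ∈ Ioc 0 n, Lam d * ((n / d : ℕ) : ℝ) + ∑ d ∈ Ioc 0 n, Lam d := by
    rw [← sum_add_distrib]
    apply sum_le_sum
    intro d hd
    rw [mem_Ioc] at hd
    have h5 : (n : ℝ) / d ≤ ((n / d : ℕ) : ℝ) + 1 := by
      rw [div_le_iff₀ (by exact_mod_cast hd.1)]
      have h6 := Nat.div_add_mod n d
      have h7 := Nat.mod_lt n hd.1
      have h8 : n ≤ (n / d + 1) * d := by nlinarith only [h6, h7]
      exact_mod_cast h8
    have h6 : 0 ≤ Lam d := ArithmeticFunction.vonMangoldt_nonneg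
    nlinarith only [h5, h6, mul_le_mul_of_nonneg_left h5 h6]
  have h5 : ∑ d ∈ Ioc 0 n, Lam d * ((n : ℝ) / d) = n * ∑ d ∈ Ioc 0 n, Lam d / d := by
    rw [mul_sum]
    exact sum_congr rfl fun d _ => by ring
  have h6 : (n : ℝ) * ∑ d ∈ Ioc 0 n, Lam d / d ≤ n * (Real.log n + (Real.log 4 + 4)) := by
    rw [← h5]
    have e1 : ∑ d ∈ Ioc 0 n, Lam d * ((n / d : ℕ) : ℝ) = ∑ k ∈ Ioc 0 n, Real.log k := h1.symm
    have e2 : ∑ d ∈ Ioc 0 n, Lam d = ∑ d ∈ Ioc 0 n, ArithmeticFunction.vonMangoldt d := rfl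
    rw [← e2] at h3
    nlinarith only [h2, h3, h4, e1]
  exact le_of_mul_le_mul_left h6 hn0

/-- proper prime powers: the tail of `∑ Λ(d)/d` -/
private theorem LvS_pp (D y : ℕ) (hD : 1 ≤ D) (hDy : D ≤ y) :
    ∑ d ∈ (Ioc D y).filter (fun d => ¬ d.Prime), Lam d / d ≤ 4 * Real.log y / Real.sqrt D := by
  set a : ℕ → ℝ := fun d => if ¬ d.Prime then Lam d else 0 with ha
  have ha0 : ∀ d, 0 ≤ a d := by
    intro d
    simp only [ha]
    split_ifs
    · exact le_rfl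
    · exact ArithmeticFunction.vonMangoldt_nonneg
  have hA : ∀ m : ℕ, 1 ≤ m → m ≤ y → ∑ d ∈ Ioc D m, a d ≤ 2 * Real.sqrt m * Real.log y := by
    intro m hm hmy
    have hm1 : (1 : ℝ) ≤ m := by exact_mod_cast hm
    have h1 := Chebyshev.abs_psi_sub_theta_le_sqrt_mul_log (x := (m : ℝ)) hm1
    rw [Chebyshev.psi_sub_theta_eq_sum_not_prime, Nat.floor_natCast] at h1
    have h2 : ∑ d ∈ Ioc D m, a d ≤ ∑ d ∈ Ioc 0 m, a d :=
      sum_le_sum_of_subset_of_nonneg (Ioc_subset_Ioc (Nat.zero_le _) le_rfl) fun d _ _ => ha0 d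
    have h3 : ∑ d ∈ Ioc 0 m, a d = ∑ n ∈ Ioc 0 m with ¬ n.Prime, ArithmeticFunction.vonMangoldt n := by
      rw [sum_filter]
      rfl
    have h4 : Real.log m ≤ Real.log y :=
      Real.log_le_log (by linarith only [hm1]) (by exact_mod_cast hmy)
    calc _ ≤ _ := h2
      _ = _ := h3
      _ ≤ _ := le_abs_self _
      _ ≤ 2 * Real.sqrt m * Real.log m := h1
      _ ≤ _ := by
          have : 0 ≤ Real.sqrt m := Real.sqrt_nonneg _
          nlinarith only [h4, this]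
  have hy0 : 0 ≤ Real.log y := Real.log_natCast_nonneg _
  have key : ∀ m : ℕ, D ≤ m → m ≤ y →
      ∑ d ∈ Ioc D m, a d / d ≤ (∑ d ∈ Ioc D m, a d) / m +
        4 * Real.log y * (1 / Real.sqrt D - 1 / Real.sqrt m) := by
    intro m hm
    induction m, hm using Nat.le_induction with
    | base => intro _; simp
    | succ m hm ih =>
      intro hmy
      have ih := ih (by omega)
      rw [sum_Ioc_succ_top (by omega), sum_Ioc_succ_top (by omega)]
      have hm0 : (0 : ℝ) < m := by exact_mod_cast (by omega : 0 < m)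
      have hA' := hA m (by omega) (by omega)
      set A := ∑ d ∈ Ioc D m, a d with hAd
      set s := Real.sqrt m with hs
      set s' := Real.sqrt ((m + 1 : ℕ) : ℝ) with hs'
      have hs0 : 0 < s := Real.sqrt_pos.2 hm0
      have hs0' : 0 < s' := Real.sqrt_pos.2 (by positivity)
      have e1 : s ^ 2 = m := Real.sq_sqrt hm0.le
      have e2 : s' ^ 2 = m + 1 := by
        rw [hs', Real.sq_sqrt (by positivity)]; push_cast; ring
      have hss : s ≤ s' := Real.sqrt_le_sqrt (by push_cast; linarith only)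
      have h1 : A / m - A / (m + 1) ≤ 4 * Real.log y * (1 / s - 1 / s') := by
        have h2 : A / m - A / (m + 1) = A / (m * (m + 1)) := by
          field_simp; ring
        rw [h2]
        have h3 : A / (m * (m + 1)) ≤ (2 * s * Real.log y) / (m * (m + 1)) :=
          div_le_div_of_nonneg_right hA' (by positivity)
        refine h3.trans ?_
        have h4 : (2 * s * Real.log y) / (m * (m + 1)) = 2 * Real.log y * (1 / (s * s' ^ 2)) := by
          rw [← e2, ← e1]; field_simp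
        have h5 : 1 / (s * s' ^ 2) ≤ 2 * (1 / s - 1 / s') := by
          have h6 : 2 * (1 / s - 1 / s') - 1 / (s * s' ^ 2)
              = (2 * s' ^ 2 - 2 * s * s' - 1) / (s * s' ^ 2) := by
            field_simp
          have h7 : 0 ≤ 2 * s' ^ 2 - 2 * s * s' - 1 := by nlinarith only [e1, e2, sq_nonneg (s' - s)]
          have h8 : 0 ≤ (2 * s' ^ 2 - 2 * s * s' - 1) / (s * s' ^ 2) := by positivity
          linarith only [h6, h8]
        rw [h4]
        nlinarith only [hy0, h5]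
      have h2 : (A + a (m + 1)) / ((m + 1 : ℕ) : ℝ) = A / (m + 1) + a (m + 1) / ((m + 1 : ℕ) : ℝ) := by
        push_cast; ring
      rw [h2]
      linarith only [ih, h1]
  have h1 := key y hDy le_rfl
  have h2 := hA y (by omega) le_rfl
  have hy1 : (0 : ℝ) < y := by exact_mod_cast (by omega : 0 < y)
  have h3 : (∑ d ∈ Ioc D y, a d) / y ≤ 2 * Real.log y / Real.sqrt y := by
    rw [div_le_div_iff₀ hy1 (Real.sqrt_pos.2 hy1)]
    have hs : Real.sqrt y * Real.sqrt y = y := Real.mul_self_sqrt hy1.le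
    have hs0 := Real.sqrt_nonneg (y : ℝ)
    calc (∑ d ∈ Ioc D y, a d) * Real.sqrt y ≤ (2 * Real.sqrt y * Real.log y) * Real.sqrt y :=
          mul_le_mul_of_nonneg_right h2 hs0
      _ = 2 * Real.log y * (Real.sqrt y * Real.sqrt y) := by ring
      _ = 2 * Real.log y * y := by rw [hs]
  have h4 : ∑ d ∈ (Ioc D y).filter (fun d => ¬ d.Prime), Lam d / d = ∑ d ∈ Ioc D y, a d / d := by
    rw [sum_filter]
    apply sum_congr rfl
    intro d _
    simp only [ha]
    split_ifs <;> simp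
  rw [h4]
  refine h1.trans ?_
  have h5 : 0 ≤ 1 / Real.sqrt y := by positivity
  have h6 : 2 * Real.log y / Real.sqrt y = 2 * Real.log y * (1 / Real.sqrt y) := by ring
  have h7 : 4 * Real.log y / Real.sqrt D = 4 * Real.log y * (1 / Real.sqrt D) := by ring
  rw [h7]
  rw [h6] at h3
  nlinarith only [h3, hy0, h5, mul_nonneg hy0 h5]

private theorem LvS_ee_cont (c : ℝ) : Continuous fun t : ℝ => ee (t * c) :=
  Pool.Agent.H80.LV.dual_ee_cont c

/-- the coefficients of the inner sums -/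
private noncomputable def LvS_w (c u d : ℕ) (m : ℕ) : ℝ := if (d * m) % c = u % c then mu m else 0

private theorem LvS_w_le (c u d m : ℕ) : |LvS_w c u d m| ≤ 1 := by
  unfold LvS_w
  split_ifs
  · exact mu_abs_le m
  · simp

/-- the inner sums -/
private noncomputable def LvS_S (w : ℕ → ℝ) (z : ℕ) (t : ℝ) : ℂ :=
  ∑ n ∈ Icc 1 z, ((w n : ℝ) : ℂ) * ee (t * Real.log n)

private theorem LvS_S_cont (w : ℕ → ℝ) (z : ℕ) : Continuous (LvS_S w z) := by
  have := cont_poly (Icc 1 z) (fun n => ((w n : ℝ) : ℂ))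
  exact this

/-- trivial bound in mean square -/
private theorem LvS_triv (w : ℕ → ℝ) (hw : ∀ n, |w n| ≤ 1) (z x : ℕ) (T η' : ℝ) (B : Set ℝ) (hη : 0 ≤ η')
    (hη1 : η' ≤ 1 / 10) (hT : 1 ≤ T) (hTx : T ≤ x) (hB : BS η' T B) :
    nrm B (LvS_S w z) ≤ z * (x : ℝ) ^ (1 / 20 : ℝ) := by
  have h1 := nrm_triv η' T x z B hB hη hT hTx (LvS_S w z) (LvS_S_cont w z) (by
    intro t _
    unfold LvS_S
    refine (norm_sum_le _ _).trans ?_
    calc ∑ n ∈ Icc 1 z, ‖((w n : ℝ) : ℂ) * ee (t * Real.log n)‖ ≤ ∑ n ∈ Icc 1 z, (1 : ℝ) := by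
          apply sum_le_sum
          intro n _
          rw [norm_mul, norm_ee, mul_one, Complex.norm_real]
          exact hw n
      _ = z := by simp) (by positivity)
  refine h1.trans ?_
  apply mul_le_mul_of_nonneg_left _ (by positivity)
  exact Real.rpow_le_rpow_of_exponent_le (hT.trans hTx) (by linarith only [hη1])

/-- Halasz-Montgomery bound -/
private theorem LvS_hm (w : ℕ → ℝ) (hw : ∀ n, |w n| ≤ 1) (z x : ℕ) (B : Set ℝ) (hx : 1 ≤ x)
    (h : nrm B (fun t => ∑ n ∈ Icc 1 z, ((w n : ℝ) : ℂ) * ee (t * Real.log n)) ^ 2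
        ≤ z * Real.log x ^ 2 * ∑ n ∈ Icc 1 z, ‖((w n : ℝ) : ℂ)‖ ^ 2) :
    nrm B (LvS_S w z) ≤ z * Real.log x := by
  have h1 : ∑ n ∈ Icc 1 z, ‖((w n : ℝ) : ℂ)‖ ^ 2 ≤ z := by
    calc ∑ n ∈ Icc 1 z, ‖((w n : ℝ) : ℂ)‖ ^ 2 ≤ ∑ n ∈ Icc 1 z, (1 : ℝ) := by
          apply sum_le_sum
          intro n _
          rw [Complex.norm_real]
          have h2 := hw n
          rw [Real.norm_eq_abs]
          have h3 := abs_nonneg (w n)
          nlinarith only [h2, h3]
      _ = z := by simp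
  have hL : 0 ≤ Real.log x := Real.log_nonneg (by exact_mod_cast hx)
  refine (sq_le_sq₀ (nrm_nonneg _ _) (by positivity)).1 (h.trans ?_)
  calc (z : ℝ) * Real.log x ^ 2 * ∑ n ∈ Icc 1 z, ‖((w n : ℝ) : ℂ)‖ ^ 2
      ≤ z * Real.log x ^ 2 * z := mul_le_mul_of_nonneg_left h1 (by positivity)
    _ = (z * Real.log x) ^ 2 := by ring

/-- exchange of the sums over `p` and `l ≤ Z` -/
private theorem LvS_exch (a c r y Z : ℕ) (u v : ℕ → ℂ) :
    ∑ p ∈ pIc a y c r, u p * ∑ l ∈ Icc 1 (min Z (y / p)), v l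
      = ∑ l ∈ Icc 1 Z, v l * ∑ p ∈ pIc a (y / l) c r, u p := by
  simp only [mul_sum]
  rw [sum_comm' (t' := Icc 1 Z) (s' := fun l => pIc a (y / l) c r)]
  · exact sum_congr rfl fun l _ => sum_congr rfl fun p _ => mul_comm _ _
  · intro p l
    simp only [pIc, pI, mem_filter, mem_Ioc, mem_Icc, le_min_iff]
    constructor
    · rintro ⟨⟨⟨⟨h1, h2⟩, h4⟩, h8⟩, h5, h6, h7⟩
      have h9 := (Nat.le_div_iff_mul_le h4.pos).1 h7
      exact ⟨⟨⟨⟨h1, (Nat.le_div_iff_mul_le (by omega)).2 (by rw [mul_comm]; exact h9)⟩, h4⟩, h8⟩, h5, h6⟩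
    · rintro ⟨⟨⟨⟨h1, h2⟩, h4⟩, h8⟩, h5, h6⟩
      have h9 := (Nat.le_div_iff_mul_le (by omega)).1 h2
      exact ⟨⟨⟨⟨h1, h2.trans (Nat.div_le_self _ _)⟩, h4⟩, h8⟩, h5, h6,
        (Nat.le_div_iff_mul_le h4.pos).2 (by rw [mul_comm]; exact h9)⟩

/-- one class of primes: splitting into `l ≤ Z` and `l > Z` -/
private theorem LvS_split (w : ℕ → ℝ) (a c r y Z : ℕ) (t : ℝ) :
    ∑ p ∈ pIc a y c r, ((Real.log p : ℝ) : ℂ) * ee (t * Real.log p) * LvS_S w (y / p) t
      = ∑ p ∈ pIc a y c r, ((Real.log p : ℝ) : ℂ) * ee (t * Real.log p) *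
          ∑ n ∈ Ioc Z (y / p), ((w n : ℝ) : ℂ) * ee (t * Real.log n)
        + ∑ l ∈ Icc 1 Z, (((w l : ℝ) : ℂ) * ee (t * Real.log l)) * PSr c r a (y / l) t := by
  unfold PSr
  rw [← LvS_exch a c r y Z (fun p => ((Real.log p : ℝ) : ℂ) * ee (t * Real.log p))
    (fun l => ((w l : ℝ) : ℂ) * ee (t * Real.log l)), ← sum_add_distrib]
  apply sum_congr rfl
  intro p _
  rw [← mul_add]
  congr 1
  unfold LvS_S
  rw [← sum_union]
  · apply sum_congr _ fun _ _ => rfl
    ext n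
    simp only [mem_union, mem_Ioc, mem_Icc, le_min_iff]
    omega
  · rw [disjoint_left]
    intro n hn hn'
    simp only [mem_Ioc, mem_Icc, le_min_iff] at hn hn'
    omega

/-- one term of the decomposition -/
private noncomputable def LvS_G (c u y d : ℕ) (t : ℝ) : ℂ :=
  ((Lam d : ℝ) : ℂ) * ee (t * Real.log d) * LvS_S (LvS_w c u d) (y / d) t

private theorem LvS_G_cont (c u y d : ℕ) : Continuous (LvS_G c u y d) := by
  unfold LvS_G
  exact (continuous_const.mul (LvS_ee_cont _)).mul (LvS_S_cont _ _)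

private theorem LvS_G_nrm (c u y d : ℕ) (T η' : ℝ) (B : Set ℝ) (hB : BS η' T B) :
    nrm B (LvS_G c u y d) ≤ Lam d * nrm B (LvS_S (LvS_w c u d) (y / d)) := by
  have h0 : 0 ≤ Lam d := ArithmeticFunction.vonMangoldt_nonneg
  have h := nrm_mul η' T B hB (LvS_S (LvS_w c u d) (y / d))
    (fun t => ((Lam d : ℝ) : ℂ) * ee (t * Real.log d)) (Lam d) (LvS_S_cont _ _)
    (continuous_const.mul (LvS_ee_cont _)) (by
      intro t _
      rw [norm_mul, norm_ee, mul_one, Complex.norm_real, Real.norm_eq_abs, abs_of_nonneg h0]) h0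
  exact h

/-- small `d` -/
private theorem LvS_p1 (c u D1 y : ℕ) (T η' ψ : ℝ) (B : Set ℝ) (hB : BS η' T B)
    (hψ : 0 ≤ ψ) (hD : 1 ≤ D1) (hyD : 2 * D1 ≤ y)
    (H : ∀ d : ℕ, ∀ z : ℕ, (y : ℝ) / (2 * D1) ≤ z → z ≤ y →
      nrm B (LvS_S (LvS_w c u d) z) ≤ ψ * z) :
    nrm B (fun t => ∑ d ∈ Icc 1 D1, LvS_G c u y d t) ≤ ψ * y * (Real.log D1 + (Real.log 4 + 4)) := by
  refine (nrm_sum η' T B hB (Icc 1 D1) (fun d => LvS_G c u y d) fun d _ => LvS_G_cont _ _ _ _).trans ?_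
  have hD0 : (0 : ℝ) < D1 := by exact_mod_cast hD
  have h1 : ∀ d ∈ Icc 1 D1, nrm B (LvS_G c u y d) ≤ ψ * y * (Lam d / d) := by
    intro d hd
    rw [mem_Icc] at hd
    have h0 : 0 ≤ Lam d := ArithmeticFunction.vonMangoldt_nonneg
    have hd0 : (0 : ℝ) < d := by exact_mod_cast hd.1
    have hdD : (d : ℝ) ≤ D1 := by exact_mod_cast hd.2
    refine (LvS_G_nrm c u y d T η' B hB).trans ?_
    have h2 : (y : ℝ) / d ≤ ((y / d : ℕ) : ℝ) + 1 := by
      rw [div_le_iff₀ hd0]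
      have h6 := Nat.div_add_mod y d
      have h7 := Nat.mod_lt y hd.1
      have h8 : y ≤ (y / d + 1) * d := by nlinarith only [h6, h7]
      exact_mod_cast h8
    have h3 : (y : ℝ) / D1 ≤ y / d := div_le_div_of_nonneg_left (by positivity) hd0 hdD
    have h4 : (1 : ℝ) ≤ y / (2 * D1) := by
      rw [le_div_iff₀ (by positivity)]
      have : ((2 * D1 : ℕ) : ℝ) ≤ y := by exact_mod_cast hyD
      push_cast at this
      linarith only [this]
    have h5 : (y : ℝ) / D1 = 2 * (y / (2 * D1)) := by field_simp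
    have h6 := H d (y / d) (by linarith only [h2, h3, h4, h5]) (Nat.div_le_self _ _)
    have h7 : ((y / d : ℕ) : ℝ) ≤ y / d := Nat.cast_div_le
    calc Lam d * nrm B (LvS_S (LvS_w c u d) (y / d)) ≤ Lam d * (ψ * (y / d)) := by
          apply mul_le_mul_of_nonneg_left _ h0
          exact h6.trans (mul_le_mul_of_nonneg_left h7 hψ)
      _ = ψ * y * (Lam d / d) := by ring
  refine (sum_le_sum h1).trans ?_
  rw [← mul_sum]
  apply mul_le_mul_of_nonneg_left _ (by positivity)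
  exact LvS_mert D1 hD

/-- proper prime powers -/
private theorem LvS_p2 (c u D1 D2 y : ℕ) (T η' E M z0 : ℝ) (B : Set ℝ) (hB : BS η' T B)
    (hD : 1 ≤ D1) (h12 : D1 ≤ D2) (h2y : D2 ≤ y) (hE : 0 ≤ E) (hM : 0 ≤ M)
    (hA : ∀ d : ℕ, ∀ z : ℕ, nrm B (LvS_S (LvS_w c u d) z) ≤ z * E)
    (hC : ∀ d : ℕ, ∀ z : ℕ, z0 ≤ z → z ≤ y → nrm B (LvS_S (LvS_w c u d) z) ≤ z * M)
    (hD2 : ∀ d : ℕ, 1 ≤ d → d ≤ D2 → z0 ≤ ((y / d : ℕ) : ℝ)) :
    nrm B (fun t => ∑ d ∈ (Ioc D1 y).filter (fun d => ¬ d.Prime), LvS_G c u y d t)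
      ≤ y * (M * (4 * Real.log y / Real.sqrt D1) + E * (4 * Real.log y / Real.sqrt D2)) := by
  refine (nrm_sum η' T B hB _ (fun d => LvS_G c u y d) fun d _ => LvS_G_cont _ _ _ _).trans ?_
  have h1 : ∀ d ∈ (Ioc D1 y).filter (fun d => ¬ d.Prime), nrm B (LvS_G c u y d)
      ≤ y * (M * (Lam d / d)) + y * (E * (if D2 < d then Lam d / d else 0)) := by
    intro d hd
    rw [mem_filter, mem_Ioc] at hd
    have h0 : 0 ≤ Lam d := ArithmeticFunction.vonMangoldt_nonneg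
    have hd1 : 1 ≤ d := by omega
    have hd0 : (0 : ℝ) < d := by exact_mod_cast hd1
    have h7 : ((y / d : ℕ) : ℝ) ≤ y / d := Nat.cast_div_le
    have h8 := LvS_G_nrm c u y d T η' B hB
    have h9 : 0 ≤ Lam d / d := by positivity
    split_ifs with hc
    · have h10 : Lam d * nrm B (LvS_S (LvS_w c u d) (y / d)) ≤ y * (E * (Lam d / d)) := by
        calc Lam d * nrm B (LvS_S (LvS_w c u d) (y / d)) ≤ Lam d * ((y / d) * E) := by
              apply mul_le_mul_of_nonneg_left _ h0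
              exact (hA _ _).trans (mul_le_mul_of_nonneg_right h7 hE)
          _ = y * (E * (Lam d / d)) := by ring
      have h11 : 0 ≤ (y : ℝ) * (M * (Lam d / d)) := by positivity
      linarith only [h8, h10, h11]
    · have h10 : Lam d * nrm B (LvS_S (LvS_w c u d) (y / d)) ≤ y * (M * (Lam d / d)) := by
        calc Lam d * nrm B (LvS_S (LvS_w c u d) (y / d)) ≤ Lam d * ((y / d) * M) := by
              apply mul_le_mul_of_nonneg_left _ h0
              exact (hC _ _ (hD2 d hd1 (by omega)) (Nat.div_le_self _ _)).trans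
                (mul_le_mul_of_nonneg_right h7 hM)
          _ = y * (M * (Lam d / d)) := by ring
      simp only [mul_zero, add_zero]
      linarith only [h8, h10]
  refine (sum_le_sum h1).trans ?_
  rw [sum_add_distrib, ← mul_sum, ← mul_sum, ← mul_sum, ← mul_sum, mul_add]
  have h3 := LvS_pp D1 y hD (h12.trans h2y)
  have h4 := LvS_pp D2 y (hD.trans h12) h2y
  have h5 : ∑ d ∈ (Ioc D1 y).filter (fun d => ¬ d.Prime), (if D2 < d then Lam d / d else 0)
      = ∑ d ∈ (Ioc D2 y).filter (fun d => ¬ d.Prime), Lam d / d := by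
    rw [← sum_filter, filter_filter]
    apply sum_congr _ fun _ _ => rfl
    ext d
    simp only [mem_filter, mem_Ioc]
    constructor
    · rintro ⟨⟨h6, h7⟩, h8, h9⟩
      exact ⟨⟨h9, h7⟩, h8⟩
    · rintro ⟨⟨h6, h7⟩, h8⟩
      exact ⟨⟨by omega, h7⟩, h8, h6⟩
  rw [h5]
  have hy : (0 : ℝ) ≤ y := by positivity
  gcongr

/-- one class of primes, as a function of `t` -/
private noncomputable def LvS_R (w : ℕ → ℝ) (a c r y : ℕ) (t : ℝ) : ℂ :=
  ∑ p ∈ pIc a y c r, ((Real.log p : ℝ) : ℂ) * ee (t * Real.log p) * LvS_S w (y / p) t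

private theorem LvS_R_cont (w : ℕ → ℝ) (a c r y : ℕ) : Continuous (LvS_R w a c r y) := by
  unfold LvS_R
  apply continuous_finsetSum _ fun p _ => ?_
  exact (continuous_const.mul (LvS_ee_cont _)).mul (LvS_S_cont _ _)

private theorem LvS_PS_cont (c r a b : ℕ) : Continuous (PSr c r a b) := by
  unfold PSr
  exact cont_poly _ (fun n => ((Real.log n : ℝ) : ℂ))

/-- one class of primes -/
private theorem LvS_p3 (w : ℕ → ℝ) (a c r y Z : ℕ) (T η' U V : ℝ) (B : Set ℝ) (hB : BS η' T B)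
    (hA : nrm B (fun t => ∑ p ∈ pIc a (min y y) c r,
        ((Real.log p : ℝ) : ℂ) * ee (t * Real.log p) *
          ∑ n ∈ Ioc Z (y / p), ((w n : ℝ) : ℂ) * ee (t * Real.log n)) ≤ U)
    (hC : nrm B (fun t => ∑ l ∈ Icc 1 Z, (((w l : ℝ) : ℂ) * ee (t * Real.log l)) *
      PSr c r a (y / l) t) ≤ V) :
    nrm B (LvS_R w a c r y) ≤ U + V := by
  rw [min_self] at hA
  have e : LvS_R w a c r y
      = fun t => (∑ p ∈ pIc a y c r,
        ((Real.log p : ℝ) : ℂ) * ee (t * Real.log p) *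
          ∑ n ∈ Ioc Z (y / p), ((w n : ℝ) : ℂ) * ee (t * Real.log n))
        + ∑ l ∈ Icc 1 Z, (((w l : ℝ) : ℂ) * ee (t * Real.log l)) * PSr c r a (y / l) t :=
    funext fun t => LvS_split w a c r y Z t
  rw [e]
  refine (nrm_add η' T B hB _ _ ?_ ?_).trans (add_le_add hA hC)
  · apply continuous_finsetSum _ fun p _ => ?_
    apply (continuous_const.mul (LvS_ee_cont _)).mul
    exact cont_poly (Ioc Z (y / p)) (fun n => ((w n : ℝ) : ℂ))
  · apply continuous_finsetSum _ fun l _ => ?_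
    exact (continuous_const.mul (LvS_ee_cont _)).mul (LvS_PS_cont _ _ _ _)

/-- small `l` -/
private theorem LvS_long (w : ℕ → ℝ) (hw : ∀ n, |w n| ≤ 1) (a c r y Z : ℕ) (T η' W : ℝ) (B : Set ℝ)
    (hB : BS η' T B) (hW : 0 ≤ W)
    (hC : ∀ l ∈ Icc 1 Z, nrm B (fun t => PSr c r a (y / l) t) ≤ ((y / l : ℕ) : ℝ) * W) :
    nrm B (fun t => ∑ l ∈ Icc 1 Z, (((w l : ℝ) : ℂ) * ee (t * Real.log l)) *
      PSr c r a (y / l) t) ≤ y * (1 + Real.log Z) * W := by
  refine (nrm_sum η' T B hB (Icc 1 Z) (fun l t => (((w l : ℝ) : ℂ) * ee (t * Real.log l)) *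
      PSr c r a (y / l) t) (fun l _ =>
        (continuous_const.mul (LvS_ee_cont _)).mul (LvS_PS_cont _ _ _ _))).trans ?_
  have h1 : ∀ l ∈ Icc 1 Z, nrm B (fun t => (((w l : ℝ) : ℂ) * ee (t * Real.log l)) *
      PSr c r a (y / l) t) ≤ (y * W) * ((l : ℝ)⁻¹) := by
    intro l hl
    have hl' := mem_Icc.1 hl
    have h2 := nrm_mul η' T B hB (fun t => PSr c r a (y / l) t)
      (fun t => ((w l : ℝ) : ℂ) * ee (t * Real.log l)) 1 (LvS_PS_cont _ _ _ _)
      (continuous_const.mul (LvS_ee_cont _)) (by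
        intro t _
        rw [norm_mul, norm_ee, mul_one, Complex.norm_real]
        exact hw l) (by norm_num)
    refine h2.trans ?_
    rw [one_mul]
    refine (hC l hl).trans ?_
    have h3 : ((y / l : ℕ) : ℝ) ≤ y / l := Nat.cast_div_le
    calc ((y / l : ℕ) : ℝ) * W ≤ (y / l) * W := mul_le_mul_of_nonneg_right h3 hW
      _ = (y * W) * ((l : ℝ)⁻¹) := by ring
  refine (sum_le_sum h1).trans ?_
  rw [← mul_sum]
  have h4 : ∑ l ∈ Icc 1 Z, ((l : ℝ)⁻¹) ≤ 1 + Real.log Z := by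
    have h5 := harmonic_le_one_add_log Z
    rw [harmonic_eq_sum_Icc] at h5
    push_cast at h5
    exact h5
  calc (y * W) * ∑ l ∈ Icc 1 Z, ((l : ℝ)⁻¹) ≤ (y * W) * (1 + Real.log Z) :=
        mul_le_mul_of_nonneg_left h4 (by positivity)
    _ = _ := by ring

/-- `exp ((log x)^(19/20)/2)` beats powers of `log x` -/
private theorem LvS_exp_large (C : ℝ) (hC : 0 < C) (c : ℕ) : ∃ x0 : ℕ, ∀ x : ℕ, x0 ≤ x →
    C * Real.log x ^ c ≤ Real.exp (Real.log x ^ (19 / 20 : ℝ) / 2) := by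
  have h1 : Filter.Tendsto (fun u : ℝ => u ^ (19 / 20 : ℝ) / 2) Filter.atTop Filter.atTop :=
    (tendsto_rpow_atTop (by norm_num)).atTop_div_const (by norm_num)
  have h2 := Real.isLittleO_pow_exp_atTop (n := 2 * c)
  have h3 := h2.bound (c := 1 / (C * 2 ^ (2 * c))) (by positivity)
  have h4 := h1.eventually h3
  have h5 := (Real.tendsto_log_atTop.comp (tendsto_natCast_atTop_atTop (R := ℝ))).eventually
    (h4.and (Filter.eventually_ge_atTop 1))
  obtain ⟨x0, hx0⟩ := Filter.eventually_atTop.1 h5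
  refine ⟨x0, fun x hx => ?_⟩
  obtain ⟨h6, h7⟩ := hx0 x hx
  simp only [Function.comp_apply] at h6 h7
  have hL : 0 < Real.log x := by linarith only [h7]
  set u := Real.log x ^ (19 / 20 : ℝ) with hu
  have hu0 : 0 < u := Real.rpow_pos_of_pos hL _
  rw [Real.norm_eq_abs, Real.norm_eq_abs, abs_of_nonneg (by positivity), Real.abs_exp] at h6
  have h8 : Real.log x ≤ u ^ 2 := by
    rw [hu, ← Real.rpow_natCast, ← Real.rpow_mul hL.le]
    calc Real.log x = Real.log x ^ (1 : ℝ) := (Real.rpow_one _).symm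
      _ ≤ _ := Real.rpow_le_rpow_of_exponent_le h7 (by norm_num)
  calc C * Real.log x ^ c ≤ C * (u ^ 2) ^ c := by gcongr
    _ = C * 2 ^ (2 * c) * (u / 2) ^ (2 * c) := by
        rw [div_pow, ← pow_mul]; field_simp
    _ ≤ C * 2 ^ (2 * c) * (1 / (C * 2 ^ (2 * c)) * Real.exp (u / 2)) := by gcongr
    _ = Real.exp (u / 2) := by field_simp

/-- the numerical facts for large `x` -/
private theorem LvS_large (K : ℕ) : ∃ x0 : ℕ, ∀ x : ℕ, x0 ≤ x → 400 ≤ Real.log x ∧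
    1000 * Real.log x ^ (K + 10) ≤ (x : ℝ) ^ (1 / 60 : ℝ) ∧
    1000 * Real.log x ^ (K + 10) ≤ Real.exp (Real.log x ^ (19 / 20 : ℝ) / 2) ∧
    Real.exp (Real.log x ^ (19 / 20 : ℝ)) ≤ (x : ℝ) ^ (1 / 20 : ℝ) := by
  obtain ⟨x1, h1⟩ := log_ge 400
  obtain ⟨x2, h2⟩ := log_pow_le (1 / 60) 1000 (by norm_num) (by norm_num) (K + 10)
  obtain ⟨x3, h3⟩ := LvS_exp_large 1000 (by norm_num) (K + 10)
  obtain ⟨x4, h4⟩ := exp_pow_le (1 / 20) 1 (by norm_num) (by norm_num)
  refine ⟨max x1 (max x2 (max x3 x4)), fun x hx => ?_⟩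
  simp only [max_le_iff] at hx
  refine ⟨h1 x hx.1, h2 x hx.2.1, h3 x hx.2.2.1, ?_⟩
  have := h4 x hx.2.2.2
  rwa [one_mul] at this

private theorem LvS_div (y d : ℕ) (hd : 1 ≤ d) : (y : ℝ) / d - 1 ≤ ((y / d : ℕ) : ℝ) := by
  have hd0 : (0 : ℝ) < d := by exact_mod_cast hd
  rw [sub_le_iff_le_add, div_le_iff₀ hd0]
  have h6 := Nat.div_add_mod y d
  have h7 := Nat.mod_lt y hd
  have h8 : y ≤ (y / d + 1) * d := by nlinarith only [h6, h7]
  exact_mod_cast h8

private theorem LvS_nrm_neg (B : Set ℝ) (f : ℝ → ℂ) : nrm B (fun t => -(f t)) = nrm B f := by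
  simp [nrm]

/-- the final numerical step -/
private theorem LvS_fin (y L M D1 D2 w u ψ : ℝ) (hy : 0 ≤ y) (hL : 400 ≤ L) (hM : 1 ≤ M)
    (hlogy : Real.log y ≤ L) (hD1 : 0 < D1)
    (hD1l : 1000 * (L ^ 10 * M) ≤ Real.sqrt D1) (hw : 1000 * (L ^ 10 * M) ≤ w)
    (hD2l : w ^ 38 ≤ D2) (hu : 20 ≤ u) (hψ : 0 ≤ ψ) (hD1u : Real.log D1 ≤ u + Real.log 2)
    (a1 a2 a5 : ℝ) (h1 : a1 ≤ ψ * y * (Real.log D1 + (Real.log 4 + 4)))
    (h2 : a2 ≤ y * (L * (4 * Real.log y / Real.sqrt D1) + w ^ 3 * (4 * Real.log y / Real.sqrt D2)))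
    (h5 : a5 ≤ y / (L ^ 3 * M) + y * L * (1 / (L ^ 3 * M))) :
    a1 + (a2 + a5) ≤ (2 * u * ψ + 1 / M) * y := by
  have hL0 : 0 < L := by linarith only [hL]
  have hM0 : 0 < M := by linarith only [hM]
  have hLp : ∀ k : ℕ, 1 ≤ L ^ k := fun k => one_le_pow₀ (by linarith only [hL])
  have hw1 : 1 ≤ w := by
    have : 1 ≤ L ^ 10 * M := one_le_mul_of_one_le_of_one_le (hLp 10) hM
    linarith only [hw, this]
  have hw0 : 0 < w := by linarith only [hw1]
  have b1 : a1 ≤ 2 * u * ψ * y := by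
    have e1 : Real.log 4 = 2 * Real.log 2 := by
      rw [show (4 : ℝ) = 2 ^ 2 by norm_num, Real.log_pow]; norm_num
    have e2 := Real.log_two_lt_d9
    have e3 : Real.log D1 + (Real.log 4 + 4) ≤ 2 * u := by linarith only [hu, hD1u, e1, e2]
    calc a1 ≤ _ := h1
      _ ≤ ψ * y * (2 * u) := mul_le_mul_of_nonneg_left e3 (by positivity)
      _ = _ := by ring
  have c1 : L * (4 * Real.log y / Real.sqrt D1) ≤ 1 / (10 * M) := by
    have hs : 0 < Real.sqrt D1 := Real.sqrt_pos.2 hD1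
    rw [← mul_div_assoc, div_le_div_iff₀ hs (by positivity)]
    have e1 : L ^ 10 = L ^ 8 * L ^ 2 := by ring
    have e2 : L * (4 * Real.log y) * (10 * M) ≤ L * (4 * L) * (10 * M) := by gcongr
    have e3 : 1 * (L ^ 2 * M) ≤ L ^ 8 * (L ^ 2 * M) :=
      mul_le_mul_of_nonneg_right (hLp 8) (by positivity)
    nlinarith only [hD1l, hs, e2, e3]
  have c2 : w ^ 3 * (4 * Real.log y / Real.sqrt D2) ≤ 1 / (10 * M) := by
    have hs : w ^ 19 ≤ Real.sqrt D2 := by
      apply Real.le_sqrt_of_sq_le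
      calc (w ^ 19) ^ 2 = w ^ 38 := by ring
        _ ≤ _ := hD2l
    have hs0 : 0 < Real.sqrt D2 := lt_of_lt_of_le (by positivity) hs
    rw [← mul_div_assoc, div_le_div_iff₀ hs0 (by positivity)]
    have e0 : L * M ≤ L ^ 10 * M := by
      apply mul_le_mul_of_nonneg_right _ hM0.le
      calc L = L ^ 1 := (pow_one L).symm
        _ ≤ L ^ 10 := pow_le_pow_right₀ (by linarith only [hL]) (by norm_num)
    calc w ^ 3 * (4 * Real.log y) * (10 * M) ≤ w ^ 3 * (4 * L) * (10 * M) := by gcongr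
      _ = w ^ 3 * (40 * (L * M)) := by ring
      _ ≤ w ^ 3 * w := by
          apply mul_le_mul_of_nonneg_left _ (by positivity)
          have : 0 ≤ L * M := by positivity
          linarith only [hw, hw1, e0]
      _ = w ^ 4 := by ring
      _ ≤ w ^ 19 := pow_le_pow_right₀ hw1 (by norm_num)
      _ ≤ 1 * Real.sqrt D2 := by linarith only [hs]
  have b2 : a2 ≤ y * (1 / (10 * M) + 1 / (10 * M)) :=
    h2.trans (mul_le_mul_of_nonneg_left (add_le_add c1 c2) hy)
  have d1 : 1 / (L ^ 3 * M) ≤ 1 / (1000 * M) := by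
    apply one_div_le_one_div_of_le (by positivity)
    apply mul_le_mul_of_nonneg_right _ hM0.le
    have : L ^ 3 = L * (L * L) := by ring
    nlinarith
  have d2 : L * (1 / (L ^ 3 * M)) ≤ 1 / (1000 * M) := by
    have e1 : L * (1 / (L ^ 3 * M)) = 1 / (L ^ 2 * M) := by field_simp
    rw [e1]
    apply one_div_le_one_div_of_le (by positivity)
    apply mul_le_mul_of_nonneg_right _ hM0.le
    nlinarith only [hL]
  have e1 : y / (L ^ 3 * M) = y * (1 / (L ^ 3 * M)) := by ring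
  have e2 : y * L * (1 / (L ^ 3 * M)) = y * (L * (1 / (L ^ 3 * M))) := by ring
  rw [e1] at h5
  rw [e2] at h5
  have f1 := mul_le_mul_of_nonneg_left d1 hy
  have f2 := mul_le_mul_of_nonneg_left d2 hy
  have f3 : 1 / (10 * M) = 1 / 10 * (1 / M) := by field_simp
  have f4 : 1 / (1000 * M) = 1 / 1000 * (1 / M) := by field_simp
  rw [f4] at f1 f2
  rw [f3] at b2
  have f5 : 0 ≤ y * (1 / M) := by positivity
  nlinarith only [h5, b1, b2, f1, f2, f5]

/-- the condition only depends on the class of `d` -/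
private theorem LvS_w_class (c u d : ℕ) : LvS_w c u d = LvS_w c u (d % c) := by
  funext m
  unfold LvS_w
  rw [Nat.mul_mod d m, Nat.mul_mod (d % c) m, Nat.mod_mod]

/-- the primes, class by class -/
private theorem LvS_classes (c u D1 y : ℕ) (hc : 1 ≤ c) (t : ℝ) :
    ∑ p ∈ (Ioc D1 y).filter Nat.Prime, LvS_G c u y p t
      = ∑ r ∈ range c, LvS_R (LvS_w c u r) D1 c r y t := by
  have e1 : ∑ p ∈ (Ioc D1 y).filter Nat.Prime, LvS_G c u y p t
      = ∑ r ∈ range c, ∑ p ∈ ((Ioc D1 y).filter Nat.Prime).filter (fun p => p % c = r), LvS_G c u y p t :=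
    (sum_fiberwise_of_maps_to (fun p _ => mem_range.2 (Nat.mod_lt p hc)) _).symm
  rw [e1]
  apply sum_congr rfl
  intro r hr
  have hr' : r % c = r := Nat.mod_eq_of_lt (mem_range.1 hr)
  unfold LvS_R pIc pI
  rw [hr']
  apply sum_congr rfl
  intro p hp
  rw [mem_filter, mem_filter] at hp
  have e6 : Lam p = Real.log p := ArithmeticFunction.vonMangoldt_apply_prime hp.1.2
  unfold LvS_G
  rw [e6, LvS_w_class c u p, hp.2]

/-- the decomposition -/
private theorem LvS_dec (c u D1 y : ℕ) (hc : 1 ≤ c) (t : ℝ) (hD : D1 ≤ y) :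
    ∑ n ∈ (Icc 1 y).filter (fun n => n % c = u % c), ((mu n * Real.log n : ℝ) : ℂ) * ee (t * Real.log n)
      = -(∑ d ∈ Icc 1 D1, LvS_G c u y d t
        + (∑ d ∈ (Ioc D1 y).filter (fun d => ¬ d.Prime), LvS_G c u y d t
        + ∑ r ∈ range c, LvS_R (LvS_w c u r) D1 c r y t)) := by
  rw [mu_log]
  have e1 : ∑ d ∈ Icc 1 y, ((Lam d : ℝ) : ℂ) * ee (t * Real.log d) *
          ∑ m ∈ (Icc 1 (y / d)).filter (fun m => (d * m) % c = u % c), ((mu m : ℝ) : ℂ) * ee (t * Real.log m)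
      = ∑ d ∈ Icc 1 y, LvS_G c u y d t := by
    apply sum_congr rfl
    intro d _
    unfold LvS_G LvS_S LvS_w
    rw [sum_filter]
    congr 1
    apply sum_congr rfl
    intro m _
    split_ifs
    · rfl
    · simp
  rw [e1]
  congr 1
  have e2 : Icc 1 y = Icc 1 D1 ∪ Ioc D1 y := by
    ext n
    simp only [mem_union, mem_Icc, mem_Ioc]
    omega
  rw [e2, sum_union (by
    rw [disjoint_left]
    intro n hn hn'
    simp only [mem_Icc, mem_Ioc] at hn hn'
    omega)]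
  congr 1
  rw [← sum_filter_add_sum_filter_not (Ioc D1 y) (fun d => ¬ d.Prime)]
  congr 1
  have e3 : (Ioc D1 y).filter (fun d => ¬ ¬ d.Prime) = (Ioc D1 y).filter Nat.Prime := by
    ext n; simp
  rw [e3]
  exact LvS_classes c u D1 y hc t

theorem logsumc_h (h_longc : longc_P) (h_midc : midc_P) (hV : VKw (19 / 20)) : ∃ η : ℝ, 0 < η ∧ η ≤ 1 / 10 ∧ ∀ K B : ℕ,
    ∃ K' x0 : ℕ, ∀ x : ℕ, x0 ≤ x → ∀ (c D1 y : ℕ) (T η' ψ : ℝ) (Bs : Set ℝ), 1 ≤ c → (c : ℝ) ≤ Real.log x ^ B →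
      D1 = ⌈Real.exp (Real.log x ^ (19 / 20 : ℝ))⌉₊ → (x : ℝ) ^ (3 / 4 : ℝ) ≤ y → y ≤ x →
      Real.log x ^ K' ≤ T → T ≤ x → 0 ≤ η' → η' ≤ η → BS η' T Bs → 0 ≤ ψ →
      (∀ u : ℕ, Nat.Coprime u c → ∀ z : ℕ, (y : ℝ) / (2 * D1) ≤ z → z ≤ y → nrm Bs (SU c u z) ≤ ψ * z) →
      ∀ u : ℕ, Nat.Coprime u c →
        nrm Bs (fun t => ∑ n ∈ (Icc 1 y).filter (fun n => n % c = u % c),
            ((mu n * Real.log n : ℝ) : ℂ) * ee (t * Real.log n))
          ≤ (2 * Real.log x ^ (19 / 20 : ℝ) * ψ + 1 / Real.log x ^ K) * y := by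
  obtain ⟨η1, h11, h12, x1, H1⟩ := nrm_hm
  obtain ⟨η2, h21, h22, H2⟩ := h_midc hV
  obtain ⟨η3, h31, h32, H3⟩ := h_longc hV
  refine ⟨min η1 (min η2 η3), lt_min h11 (lt_min h21 h31), (min_le_left _ _).trans h12,
    fun K Bc => ?_⟩
  obtain ⟨K2, x2, H2⟩ := H2 (K + Bc + 3) Bc
  obtain ⟨K3, x3, H3⟩ := H3 (K + Bc + 3) Bc
  obtain ⟨x4, H4⟩ := LvS_large K
  refine ⟨max K2 K3, max x1 (max x2 (max x3 x4)), ?_⟩
  intro x hx c D1 y T η' ψ B hc hcL hD1 hyl hyx hT hTx hη hη' hB hψ HH u hu'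
  simp only [max_le_iff] at hx
  obtain ⟨hx1, hx2, hx3, hx4⟩ := hx
  obtain ⟨n1, n2, n3, n4⟩ := H4 x hx4
  simp only [le_min_iff] at hη'
  obtain ⟨hη1, hη2, hη3⟩ := hη'
  -- notation
  set L := Real.log x with hL
  have hL0 : 0 < L := by linarith only [h11, h12, n1]
  have hL1 : 1 ≤ L := by linarith only [h11, h12, n1]
  have hx0 : (0 : ℝ) < x := by
    rcases Nat.eq_zero_or_pos x with h | h
    · rw [h] at hL; simp at hL; linarith only [h11, h12, n1, hL]
    · exact_mod_cast h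
  have hx1' : 1 ≤ x := by exact_mod_cast (by exact_mod_cast hx0 : 0 < x)
  set w := (x : ℝ) ^ (1 / 60 : ℝ) with hw
  have hpw : ∀ (k : ℕ) (s : ℝ), s = k / 60 → (x : ℝ) ^ s = w ^ k := by
    intro k s hs
    rw [hw, ← Real.rpow_natCast, ← Real.rpow_mul hx0.le, hs]
    congr 1
    ring
  have e20 : (x : ℝ) ^ (1 / 20 : ℝ) = w ^ 3 := hpw 3 _ (by norm_num)
  have e4 : (x : ℝ) ^ (1 / 4 : ℝ) = w ^ 15 := hpw 15 _ (by norm_num)
  have e34 : (x : ℝ) ^ (3 / 4 : ℝ) = w ^ 45 := hpw 45 _ (by norm_num)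
  have e23 : (x : ℝ) ^ (2 / 3 : ℝ) = w ^ 40 := hpw 40 _ (by norm_num)
  have e12 : (x : ℝ) ^ (1 / 2 : ℝ) = w ^ 30 := hpw 30 _ (by norm_num)
  have e1 : (x : ℝ) = w ^ 60 := by
    have := hpw 60 1 (by norm_num)
    rwa [Real.rpow_one] at this
  rw [e20] at n4
  rw [e34] at hyl
  have hT1 : 1 ≤ T := (one_le_pow₀ hL1).trans hT
  have hT2 : L ^ K2 ≤ T := (pow_le_pow_right₀ hL1 (le_max_left _ _)).trans hT
  have hT3 : L ^ K3 ≤ T := (pow_le_pow_right₀ hL1 (le_max_right _ _)).trans hT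
  have hLp : ∀ k : ℕ, 1 ≤ L ^ k := fun k => one_le_pow₀ hL1
  have hw1000 : 1000 ≤ w := by nlinarith only [n2, hLp, hLp (K + 10)]
  have hw0 : 0 < w := by linarith only [h11, h12, hw1000]
  have hw1 : 1 ≤ w := by linarith only [h11, h12, hw1000]
  have hwp : ∀ {a b : ℕ}, a ≤ b → w ^ a ≤ w ^ b := fun h => pow_le_pow_right₀ hw1 h
  have hwL : L ≤ w := by
    have h1 : L ^ 1 ≤ L ^ (K + 10) := pow_le_pow_right₀ hL1 (by omega)
    nlinarith only [h11, h12, n1, n2, h1]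
  -- `D1`
  set E := Real.exp (L ^ (19 / 20 : ℝ)) with hE
  have hE1 : 1 ≤ E := Real.one_le_exp (by positivity)
  have hD1l : E ≤ D1 := by rw [hD1]; exact Nat.le_ceil _
  have hD1u : (D1 : ℝ) ≤ 2 * E := by
    rw [hD1]
    have := Nat.ceil_lt_add_one (a := E) (by positivity)
    linarith only [hE1, this]
  have hD1w : (D1 : ℝ) ≤ w ^ 4 := by
    have : w ^ 4 = w * w ^ 3 := by ring
    nlinarith only [h12, hw1000, n4, hE1, hD1u, h11, pow_pos hw0 3]
  have hD11 : 1 ≤ D1 := by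
    have : (1 : ℝ) ≤ D1 := hE1.trans hD1l
    exact_mod_cast this
  -- `Z`
  set Z := ⌈w ^ 3⌉₊ with hZ
  have hZl : w ^ 3 ≤ Z := Nat.le_ceil _
  have hZu : (Z : ℝ) ≤ w ^ 4 := by
    have := Nat.ceil_lt_add_one (a := w ^ 3) (by positivity)
    have h4 : w ^ 4 = w * w ^ 3 := by ring
    nlinarith only [h12, hw1000, n4, hE1, this, h11, one_le_pow₀ (n := 3) hw1]
  have hZ1 : 1 ≤ Z := by
    have : (1 : ℝ) ≤ Z := (one_le_pow₀ hw1).trans hZl
    exact_mod_cast this
  -- `D2`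
  set D2 := ⌊w ^ 40⌋₊ with hD2
  have hD2u : (D2 : ℝ) ≤ w ^ 40 := Nat.floor_le (by positivity)
  have hD2l : w ^ 38 ≤ D2 := by
    have h3 := Nat.lt_floor_add_one (w ^ 40)
    have h4 : w ^ 40 = w ^ 2 * w ^ 38 := by ring
    have h5 : 1 ≤ w ^ 38 := one_le_pow₀ hw1
    have h6 : 2 ≤ w ^ 2 := by
      calc (2 : ℝ) ≤ w := by linarith only [h11, h12, hw1000]
        _ = w ^ 1 := (pow_one w).symm
        _ ≤ w ^ 2 := hwp (by norm_num)
    have h7 : 2 * w ^ 38 ≤ w ^ 2 * w ^ 38 := mul_le_mul_of_nonneg_right h6 (by linarith only [h11, h12, h5])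
    linarith only [h3, h5, h7]
  have hy45 : w ^ 45 ≤ y := hyl
  have hD12 : D1 ≤ D2 := by
    have : (D1 : ℝ) ≤ D2 := hD1w.trans ((hwp (by norm_num)).trans hD2l)
    exact_mod_cast this
  have h2y : D2 ≤ y := by
    have : (D2 : ℝ) ≤ y := hD2u.trans ((hwp (by norm_num)).trans hy45)
    exact_mod_cast this
  have hyD : 2 * D1 ≤ y := by
    have : ((2 * D1 : ℕ) : ℝ) ≤ y := by
      push_cast
      have h4 : w ^ 5 = w * w ^ 4 := by ring
      have h5 : w ^ 5 ≤ w ^ 45 := hwp (by norm_num)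
      nlinarith only [h12, hyl, hw1000, n4, hE1, hD1u, h5, h11, hD1w, pow_pos hw0 4]
    exact_mod_cast this
  have hy0 : (0 : ℝ) < y := lt_of_lt_of_le (by positivity) hy45
  have hlogy : Real.log y ≤ L := Real.log_le_log hy0 (by exact_mod_cast hyx)
  -- bounds of the inner sums
  have hA : ∀ d : ℕ, ∀ z : ℕ, nrm B (LvS_S (LvS_w c u d) z) ≤ z * w ^ 3 := by
    intro d z
    rw [← e20]
    exact LvS_triv _ (LvS_w_le c u d) z x T η' B hη (hη1.trans h12) hT1 hTx hB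
  have hC : ∀ d : ℕ, ∀ z : ℕ, w ^ 3 ≤ z → z ≤ y → nrm B (LvS_S (LvS_w c u d) z) ≤ z * L := by
    intro d z hz hzy
    exact LvS_hm _ (LvS_w_le c u d) z x B hx1' (H1 x hx1 z _ T B η' hη hη1 (by rw [e20]; exact hz)
      (hzy.trans hyx) hT1 hTx hB)
  have hH : ∀ d : ℕ, ∀ z : ℕ, (y : ℝ) / (2 * D1) ≤ z → z ≤ y →
      nrm B (LvS_S (LvS_w c u d) z) ≤ ψ * z := by
    intro d z hz hzy
    by_cases hdc : Nat.Coprime d c
    · obtain ⟨v, hv, hv'⟩ := (cls c u d hc hu').1 hdc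
      have e : LvS_S (LvS_w c u d) z = SU c v z := by
        funext t
        unfold LvS_S SU LvS_w
        rw [sum_filter]
        apply sum_congr rfl
        intro m _
        by_cases hm : m % c = v % c
        · rw [if_pos hm, if_pos ((hv' m).2 hm)]
        · rw [if_neg hm, if_neg (fun h => hm ((hv' m).1 h))]
          simp
      rw [e]
      exact HH v hv z hz hzy
    · have e : LvS_S (LvS_w c u d) z = fun _ => 0 := by
        funext t
        unfold LvS_S LvS_w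
        apply sum_eq_zero
        intro m _
        rw [if_neg ((cls c u d hc hu').2 hdc m)]
        simp
      rw [e]
      have e0 : nrm B (fun _ => (0 : ℂ)) = 0 := by simp [nrm]
      rw [e0]
      positivity
  have hdd : ∀ d : ℕ, 1 ≤ d → d ≤ D2 → w ^ 3 ≤ ((y / d : ℕ) : ℝ) := by
    intro d h1 h2
    have h3 := LvS_div y d h1
    have hd0 : (0 : ℝ) < d := by exact_mod_cast h1
    have h4 : (d : ℝ) ≤ w ^ 40 := le_trans (by exact_mod_cast h2) hD2u
    have h5 : w ^ 5 ≤ (y : ℝ) / d := by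
      rw [le_div_iff₀ hd0]
      calc w ^ 5 * d ≤ w ^ 5 * w ^ 40 := mul_le_mul_of_nonneg_left h4 (by positivity)
        _ = w ^ 45 := by ring
        _ ≤ y := hy45
    have h6 : 2 * w ^ 3 ≤ w ^ 2 * w ^ 3 := by
      apply mul_le_mul_of_nonneg_right _ (by positivity)
      calc (2 : ℝ) ≤ w := by linarith only [h11, h12, hw1000]
        _ = w ^ 1 := (pow_one w).symm
        _ ≤ w ^ 2 := hwp (by norm_num)
    have h7 : w ^ 5 = w ^ 2 * w ^ 3 := by ring
    have h8 : 1 ≤ w ^ 3 := one_le_pow₀ hw1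
    linarith only [n4, hE1, h3, h5, h6]
  have p1 := LvS_p1 c u D1 y T η' ψ B hB hψ hD11 hyD hH
  have p2 := LvS_p2 c u D1 D2 y T η' (w ^ 3) L (w ^ 3) B hB hD11 hD12 h2y (by positivity)
    hL0.le hA hC hdd
  -- the classes of primes
  have hx12 : (x : ℝ) ^ (1 / 2 : ℝ) ≤ y := by rw [e12]; exact (hwp (by norm_num)).trans hy45
  have hmid : ∀ r : ℕ,
      nrm B (fun t => ∑ p ∈ pIc D1 (min y y) c r,
        ((Real.log p : ℝ) : ℂ) * ee (t * Real.log p) *
          ∑ n ∈ Ioc Z (y / p), ((LvS_w c u r n : ℝ) : ℂ) * ee (t * Real.log n))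
        ≤ y / L ^ (K + Bc + 3) := by
    intro r
    exact H2 x hx2 y Z D1 y c r (LvS_w c u r) T η' B hc hcL hD1l
      (by rw [e20]; exact hZl) hx12 hyx (LvS_w_le c u r) hT2 hTx hη hη2 hB
  have hM1 : 1 ≤ L ^ K := hLp K
  have n2' : 1000 * (L ^ 10 * L ^ K) ≤ w := by
    calc 1000 * (L ^ 10 * L ^ K) = 1000 * L ^ (K + 10) := by ring
      _ ≤ w := n2
  have hlogZ : 1 + Real.log Z ≤ L := by
    have h1 : Real.log Z ≤ Real.log (w ^ 4) :=
      Real.log_le_log (by exact_mod_cast hZ1) hZu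
    rw [Real.log_pow, hw, Real.log_rpow hx0, ← hL] at h1
    push_cast at h1
    linarith only [h11, h12, n1, h1]
  have q3 : ∀ r : ℕ, nrm B (LvS_R (LvS_w c u r) D1 c r y)
      ≤ y / L ^ (K + Bc + 3) + y * (1 + Real.log Z) * (1 / L ^ (K + Bc + 3)) := fun r =>
    LvS_p3 (LvS_w c u r) D1 c r y Z T η' _ _ B hB (hmid r)
    (LvS_long _ (LvS_w_le c u r) D1 c r y Z T η' (1 / L ^ (K + Bc + 3)) B hB (by positivity) (by
      intro l hl
      rw [mem_Icc] at hl
      have h1 := H3 x hx3 c r D1 (y / l) T η' B hc hcL (by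
          rw [e4]
          exact hD1w.trans (hwp (by norm_num))) (by
          rw [e23]
          have h3 := LvS_div y l hl.1
          have hd0 : (0 : ℝ) < l := by exact_mod_cast hl.1
          have h4 : (l : ℝ) ≤ w ^ 4 := le_trans (by exact_mod_cast hl.2) hZu
          have h5 : w ^ 41 ≤ (y : ℝ) / l := by
            rw [le_div_iff₀ hd0]
            calc w ^ 41 * l ≤ w ^ 41 * w ^ 4 := mul_le_mul_of_nonneg_left h4 (by positivity)
              _ = w ^ 45 := by ring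
              _ ≤ y := hy45
          have h6 : 2 * w ^ 40 ≤ w * w ^ 40 :=
            mul_le_mul_of_nonneg_right (by linarith only [h11, h12, hw1000]) (by positivity)
          have h7 : w ^ 41 = w * w ^ 40 := by ring
          have h8 : 1 ≤ w ^ 40 := one_le_pow₀ hw1
          linarith only [h3, h5, h6, h8]) ((Nat.div_le_self _ _).trans hyx) hT3 hTx hη hη3 hB
      refine h1.trans (le_of_eq ?_)
      ring))
  have hu : 20 ≤ L ^ (19 / 20 : ℝ) := by
    calc (20 : ℝ) = Real.sqrt 400 := by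
          rw [show (400 : ℝ) = 20 ^ 2 by norm_num, Real.sqrt_sq (by norm_num)]
      _ ≤ Real.sqrt L := Real.sqrt_le_sqrt n1
      _ = L ^ (1 / 2 : ℝ) := Real.sqrt_eq_rpow L
      _ ≤ L ^ (19 / 20 : ℝ) := Real.rpow_le_rpow_of_exponent_le hL1 (by norm_num)
  have hD10 : (0 : ℝ) < D1 := by exact_mod_cast hD11
  have hsq : 1000 * (L ^ 10 * L ^ K) ≤ Real.sqrt D1 := by
    calc 1000 * (L ^ 10 * L ^ K) = 1000 * L ^ (K + 10) := by ring
      _ ≤ Real.exp (L ^ (19 / 20 : ℝ) / 2) := n3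
      _ ≤ Real.sqrt D1 := by
          apply Real.le_sqrt_of_sq_le
          rw [← Real.exp_nat_mul]
          refine le_trans (le_of_eq ?_) hD1l
          rw [hE]
          congr 1
          push_cast
          ring
  have hlogD1 : Real.log D1 ≤ L ^ (19 / 20 : ℝ) + Real.log 2 := by
    calc Real.log D1 ≤ Real.log (2 * E) := Real.log_le_log hD10 hD1u
      _ = _ := by rw [Real.log_mul (by norm_num) (by positivity), hE, Real.log_exp]; ring
  have hfun : (fun t => ∑ n ∈ (Icc 1 y).filter (fun n => n % c = u % c),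
        ((mu n * Real.log n : ℝ) : ℂ) * ee (t * Real.log n))
      = fun t => -(∑ d ∈ Icc 1 D1, LvS_G c u y d t
        + (∑ d ∈ (Ioc D1 y).filter (fun d => ¬ d.Prime), LvS_G c u y d t
        + ∑ r ∈ range c, LvS_R (LvS_w c u r) D1 c r y t)) :=
    funext fun t => LvS_dec c u D1 y hc t (by omega)
  rw [hfun, LvS_nrm_neg B (fun t => ∑ d ∈ Icc 1 D1, LvS_G c u y d t
        + (∑ d ∈ (Ioc D1 y).filter (fun d => ¬ d.Prime), LvS_G c u y d t
        + ∑ r ∈ range c, LvS_R (LvS_w c u r) D1 c r y t))]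
  have hcG : ∀ s : Finset ℕ, Continuous fun t => ∑ d ∈ s, LvS_G c u y d t :=
    fun s => continuous_finsetSum _ fun d _ => LvS_G_cont _ _ _ _
  have hcR : Continuous fun t => ∑ r ∈ range c, LvS_R (LvS_w c u r) D1 c r y t :=
    continuous_finsetSum _ fun r _ => LvS_R_cont _ _ _ _ _
  have s1 := nrm_add η' T B hB (fun t => ∑ d ∈ Icc 1 D1, LvS_G c u y d t)
    (fun t => ∑ d ∈ (Ioc D1 y).filter (fun d => ¬ d.Prime), LvS_G c u y d t
        + ∑ r ∈ range c, LvS_R (LvS_w c u r) D1 c r y t) (hcG _) ((hcG _).add hcR)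
  have s2 := nrm_add η' T B hB
    (fun t => ∑ d ∈ (Ioc D1 y).filter (fun d => ¬ d.Prime), LvS_G c u y d t)
    (fun t => ∑ r ∈ range c, LvS_R (LvS_w c u r) D1 c r y t) (hcG _) hcR
  have s3 := nrm_sum η' T B hB (range c) (fun r => LvS_R (LvS_w c u r) D1 c r y)
    (fun r _ => LvS_R_cont _ _ _ _ _)
  have q4 : nrm B (fun t => ∑ r ∈ range c, LvS_R (LvS_w c u r) D1 c r y t)
      ≤ y / (L ^ 3 * L ^ K) + y * L * (1 / (L ^ 3 * L ^ K)) := by
    refine s3.trans ?_
    have hq : ∀ r ∈ range c, nrm B (LvS_R (LvS_w c u r) D1 c r y)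
        ≤ (y + y * L) * (1 / (L ^ Bc * (L ^ 3 * L ^ K))) := by
      intro r _
      refine (q3 r).trans ?_
      have e : L ^ (K + Bc + 3) = L ^ Bc * (L ^ 3 * L ^ K) := by ring
      rw [e]
      have h1 : y * (1 + Real.log Z) ≤ y * L := mul_le_mul_of_nonneg_left hlogZ hy0.le
      have h2 : 0 ≤ 1 / (L ^ Bc * (L ^ 3 * L ^ K)) := by positivity
      calc (y : ℝ) / (L ^ Bc * (L ^ 3 * L ^ K)) + y * (1 + Real.log Z) * (1 / (L ^ Bc * (L ^ 3 * L ^ K)))
          ≤ (y : ℝ) / (L ^ Bc * (L ^ 3 * L ^ K)) + y * L * (1 / (L ^ Bc * (L ^ 3 * L ^ K))) :=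
            add_le_add le_rfl (mul_le_mul_of_nonneg_right h1 h2)
        _ = _ := by ring
    refine (sum_le_sum hq).trans ?_
    rw [sum_const, card_range, nsmul_eq_mul]
    have h2 : 0 ≤ ((y : ℝ) + y * L) * (1 / (L ^ Bc * (L ^ 3 * L ^ K))) := by positivity
    calc (c : ℝ) * (((y : ℝ) + y * L) * (1 / (L ^ Bc * (L ^ 3 * L ^ K))))
        ≤ L ^ Bc * (((y : ℝ) + y * L) * (1 / (L ^ Bc * (L ^ 3 * L ^ K)))) :=
          mul_le_mul_of_nonneg_right hcL h2
      _ = _ := by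
          field_simp
  have hfin := LvS_fin y L (L ^ K) D1 D2 w (L ^ (19 / 20 : ℝ)) ψ hy0.le n1 hM1 hlogy hD10
    hsq n2' hD2l hu hψ hlogD1 _ _ _ p1 p2 q4
  refine le_trans ?_ hfin
  refine s1.trans ?_
  exact add_le_add le_rfl s2

end Pool.Agent.H43.CH

end

section

/-!
# CH LvV: primes in intervals and residue classes, pointwise

Copy of `Pool.Agent.H76.MU.ps_vk` (file `H76/MU/LmV.lean`) with `VKw (19/20)` (`H53/MIX/Defs.lean`, cancellation in residue classes) in place of `VK1`: the prime powers are removed in the same way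
(the class condition only removes terms; `c ≤ L^B`).
-/

set_option autoImplicit false

namespace Pool.Agent.H43.CH

open Finset
open Pool.Agent.H91.PK (ee)
open Pool.Agent.H53.MIX (VKw)
open Pool.Agent.H91.EHA (Lam)
open Pool.Agent.H76.MU

/-- the sum of `Λ(n) n^{2πit}` over `n ≤ z`, `n ≡ r (c)` -/
private noncomputable def LvVs (c r z : ℕ) (t : ℝ) : ℂ :=
  ∑ n ∈ (Icc 1 z).filter (fun n => n % c = r % c), ((Lam n : ℝ) : ℂ) * ee (t * Real.log n)

/-- the prime powers -/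
private theorem LvV_diff (c r a b : ℕ) (t : ℝ) (hab : a ≤ b) (hb : 2 ≤ b) :
    ‖PSr c r a b t - (LvVs c r b t - LvVs c r a t)‖ ≤ 4 * Real.sqrt b * Real.log b ^ 2 := by
  have h1 : LvVs c r b t - LvVs c r a t
      = ∑ n ∈ (Ioc a b).filter (fun n => n % c = r % c), ((Lam n : ℝ) : ℂ) * ee (t * Real.log n) := by
    have h2 : (Icc 1 b).filter (fun n => n % c = r % c)
        = (Icc 1 a).filter (fun n => n % c = r % c) ∪ (Ioc a b).filter (fun n => n % c = r % c) := by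
      rw [← filter_union]
      congr 1
      ext n; simp only [mem_Icc, mem_union, mem_Ioc]; omega
    have h3 : Disjoint ((Icc 1 a).filter (fun n => n % c = r % c)) ((Ioc a b).filter (fun n => n % c = r % c)) := by
      rw [Finset.disjoint_left]; intro n hn hn'
      simp only [mem_Icc, mem_Ioc, mem_filter] at hn hn'; omega
    unfold LvVs
    rw [h2, sum_union h3]; ring
  have h4 : ∑ n ∈ (Ioc a b).filter (fun n => n % c = r % c), ((Lam n : ℝ) : ℂ) * ee (t * Real.log n)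
      = PSr c r a b t + ∑ n ∈ ((Ioc a b).filter (fun n => n % c = r % c)).filter (fun n => ¬ n.Prime),
        ((Lam n : ℝ) : ℂ) * ee (t * Real.log n) := by
    unfold PSr
    rw [← sum_filter_add_sum_filter_not ((Ioc a b).filter (fun n => n % c = r % c)) Nat.Prime]
    congr 1
    have h0 : pIc a b c r = ((Ioc a b).filter (fun n => n % c = r % c)).filter Nat.Prime := by
      unfold pIc pI
      rw [filter_filter, filter_filter]
      refine filter_congr fun n _ => ?_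
      exact and_comm
    rw [h0]
    refine sum_congr rfl fun n hn => ?_
    rw [mem_filter] at hn
    unfold Lam
    rw [ArithmeticFunction.vonMangoldt_apply_prime hn.2]
  rw [h1, h4]
  have h5 : ∀ z w : ℂ, z - (z + w) = -w := fun z w => by ring
  rw [h5, norm_neg]
  have h6 : ‖∑ n ∈ ((Ioc a b).filter (fun n => n % c = r % c)).filter (fun n => ¬ n.Prime), ((Lam n : ℝ) : ℂ) * ee (t * Real.log n)‖
      ≤ ∑ n ∈ (Ioc 0 b).filter (fun n => ¬ n.Prime), ArithmeticFunction.vonMangoldt n := by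
    refine (norm_sum_le _ _).trans ?_
    have h7 : ∑ n ∈ ((Ioc a b).filter (fun n => n % c = r % c)).filter (fun n => ¬ n.Prime), ‖((Lam n : ℝ) : ℂ) * ee (t * Real.log n)‖
        = ∑ n ∈ ((Ioc a b).filter (fun n => n % c = r % c)).filter (fun n => ¬ n.Prime), ArithmeticFunction.vonMangoldt n := by
      refine sum_congr rfl fun n _ => ?_
      rw [norm_mul, norm_ee, mul_one, Complex.norm_real, Real.norm_eq_abs]
      exact abs_of_nonneg ArithmeticFunction.vonMangoldt_nonneg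
    rw [h7]
    refine sum_le_sum_of_subset_of_nonneg ?_ fun n _ _ => ArithmeticFunction.vonMangoldt_nonneg
    intro n hn
    simp only [mem_filter, mem_Ioc] at hn ⊢
    exact ⟨⟨by omega, hn.1.1.2⟩, hn.2⟩
  have h8 := Chebyshev.psi_sub_theta_eq_sum_not_prime (b : ℝ)
  rw [Nat.floor_natCast] at h8
  have hb1 : (1 : ℝ) ≤ b := by exact_mod_cast (by omega : 1 ≤ b)
  have h9 := Chebyshev.psi_sub_theta_le hb1
  rw [h8] at h9
  refine h6.trans (h9.trans ?_)
  have hb2 : (2 : ℝ) ≤ b := by exact_mod_cast hb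
  have hl : (1 / 2 : ℝ) ≤ Real.log b := by
    have := Real.log_le_log (by norm_num) hb2
    have h2 := Real.log_two_gt_d9
    linarith
  have hs : 0 ≤ Real.sqrt b := Real.sqrt_nonneg _
  have h10 : Real.log b ≤ 2 * Real.log b ^ 2 := by nlinarith
  calc 2 * Real.sqrt b * Real.log b ≤ 2 * Real.sqrt b * (2 * Real.log b ^ 2) :=
        mul_le_mul_of_nonneg_left h10 (by positivity)
    _ = 4 * Real.sqrt b * Real.log b ^ 2 := by ring

private theorem LvV_large (K : ℕ) : ∃ x0 : ℕ, ∀ x : ℕ, x0 ≤ x →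
    32 * Real.log x ^ (K + 2) ≤ Real.exp (Real.log x ^ (19 / 20 : ℝ) / 2) := by
  have h1 := (isLittleO_rpow_exp_pos_mul_atTop ((20 / 19 : ℝ) * (K + 2)) (b := 1 / 2)
    (by norm_num)).bound (c := 1 / 32) (by norm_num)
  have h2 : Filter.Tendsto (fun y : ℝ => y ^ (19 / 20 : ℝ)) Filter.atTop Filter.atTop :=
    tendsto_rpow_atTop (by norm_num)
  have h3 := (h2.comp (Real.tendsto_log_atTop.comp
    (tendsto_natCast_atTop_atTop (R := ℝ)))).eventually h1
  have h4 := (Real.tendsto_log_atTop.comp (tendsto_natCast_atTop_atTop (R := ℝ))).eventually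
    (Filter.eventually_ge_atTop 1)
  obtain ⟨x0, hx0⟩ := Filter.eventually_atTop.1 (h3.and h4)
  refine ⟨x0, fun x hx => ?_⟩
  obtain ⟨h5, h6⟩ := hx0 x hx
  simp only [Function.comp_apply] at h5 h6
  have hL : 0 < Real.log x := by linarith
  rw [Real.norm_eq_abs, Real.norm_eq_abs, abs_of_nonneg (by positivity), abs_of_pos (Real.exp_pos _),
    ← Real.rpow_mul hL.le] at h5
  have h7 : (19 / 20 : ℝ) * (20 / 19 * (K + 2)) = ((K + 2 : ℕ) : ℝ) := by
    push_cast; ring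
  rw [h7, Real.rpow_natCast] at h5
  have h8 : Real.log x ^ (19 / 20 : ℝ) / 2 = 1 / 2 * Real.log x ^ (19 / 20 : ℝ) := by ring
  rw [h8]
  linarith

theorem psr_vk (hV : VKw (19 / 20)) : ∀ K B : ℕ, ∃ K' x0 : ℕ, ∀ x : ℕ, x0 ≤ x → ∀ (c r a b : ℕ) (t : ℝ), 1 ≤ c →
    (c : ℝ) ≤ Real.log x ^ B → Real.exp (Real.log x ^ (19 / 20 : ℝ)) ≤ a → a ≤ b → b ≤ x ^ 2 →
    Real.log x ^ K' ≤ |t| → |t| ≤ (x : ℝ) ^ (2 : ℕ) → ‖PSr c r a b t‖ ≤ b / Real.log x ^ K := by
  intro K B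
  obtain ⟨K', x1, hx1⟩ := hV (K + 1) B
  obtain ⟨x2, hx2⟩ := LvV_large K
  obtain ⟨x3, hx3⟩ := log_ge 4
  refine ⟨K', max (max x1 x2) x3, fun x hx c r a b t hc hcB ha hab hb ht1 ht2 => ?_⟩
  have hxx1 : x1 ≤ x := le_trans (le_trans (le_max_left _ _) (le_max_left _ _)) hx
  have hxx2 : x2 ≤ x := le_trans (le_trans (le_max_right _ _) (le_max_left _ _)) hx
  have hxx3 : x3 ≤ x := le_trans (le_max_right _ _) hx
  have hL4 := hx3 x hxx3
  have hL : 0 < Real.log x := by linarith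
  have hab' : (a : ℝ) ≤ b := by exact_mod_cast hab
  have e1 := hx1 x hxx1 c r b t hc hcB (ha.trans hab') hb ht1 ht2
  have e2 := hx1 x hxx1 c r a t hc hcB ha (hab.trans hb) ht1 ht2
  have hx0 : (1 : ℝ) ≤ x := by
    by_contra hc
    have : x = 0 := by
      have : (x : ℝ) < 1 := not_le.1 hc
      exact_mod_cast Nat.lt_one_iff.1 (by exact_mod_cast this)
    rw [this] at hL; simp at hL
  have hy1 : (1 : ℝ) ≤ Real.log x ^ (19 / 20 : ℝ) := Real.one_le_rpow (by linarith) (by norm_num)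
  have hb2 : (2 : ℝ) ≤ b := by
    have h1 := Real.add_one_le_exp (Real.log x ^ (19 / 20 : ℝ))
    linarith
  have hb2' : 2 ≤ b := by exact_mod_cast hb2
  have e3 := LvV_diff c r a b t hab hb2'
  have hb0 : (0 : ℝ) < b := by linarith
  have hlb : Real.log b ≤ 2 * Real.log x := by
    have h1 : (b : ℝ) ≤ (x : ℝ) ^ 2 := by exact_mod_cast hb
    have h2 := Real.log_le_log hb0 h1
    rw [Real.log_pow] at h2
    push_cast at h2
    exact h2
  have hlb0 : 0 ≤ Real.log b := Real.log_nonneg (by linarith)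
  have hsq : Real.exp (Real.log x ^ (19 / 20 : ℝ) / 2) ≤ Real.sqrt b := by
    apply Real.le_sqrt_of_sq_le
    rw [← Real.exp_nat_mul]
    have : ((2 : ℕ) : ℝ) * (Real.log x ^ (19 / 20 : ℝ) / 2) = Real.log x ^ (19 / 20 : ℝ) := by
      push_cast; ring
    rw [this]
    exact ha.trans hab'
  have hs0 : 0 ≤ Real.sqrt b := Real.sqrt_nonneg _
  have e4 : 4 * Real.sqrt b * Real.log b ^ 2 ≤ b / (2 * Real.log x ^ K) := by
    rw [le_div_iff₀ (by positivity)]
    have h1 : Real.log b ^ 2 ≤ (2 * Real.log x) ^ 2 := pow_le_pow_left₀ hlb0 hlb 2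
    have h2 := (hx2 x hxx2).trans hsq
    have h3 : (b : ℝ) = Real.sqrt b * Real.sqrt b := (Real.mul_self_sqrt hb0.le).symm
    calc 4 * Real.sqrt b * Real.log b ^ 2 * (2 * Real.log x ^ K)
        ≤ 4 * Real.sqrt b * (2 * Real.log x) ^ 2 * (2 * Real.log x ^ K) := by gcongr
      _ = Real.sqrt b * (32 * Real.log x ^ (K + 2)) := by ring
      _ ≤ Real.sqrt b * Real.sqrt b := mul_le_mul_of_nonneg_left h2 hs0
      _ = b := h3.symm
  have e5 : (b : ℝ) / Real.log x ^ (K + 1) ≤ b / (4 * Real.log x ^ K) := by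
    apply div_le_div_of_nonneg_left hb0.le (by positivity)
    rw [pow_succ]
    have : 0 < Real.log x ^ K := by positivity
    nlinarith
  have e6 : (a : ℝ) / Real.log x ^ (K + 1) ≤ b / (4 * Real.log x ^ K) :=
    (div_le_div_of_nonneg_right hab' (by positivity)).trans e5
  change ‖LvVs c r b t‖ ≤ _ at e1
  change ‖LvVs c r a t‖ ≤ _ at e2
  set A := LvVs c r b t
  set B' := LvVs c r a t
  have e7 : ‖PSr c r a b t‖ ≤ ‖PSr c r a b t - (A - B')‖ + (‖A‖ + ‖B'‖) := by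
    calc ‖PSr c r a b t‖ = ‖(PSr c r a b t - (A - B')) + (A - B')‖ := by congr 1; ring
      _ ≤ ‖PSr c r a b t - (A - B')‖ + ‖A - B'‖ := norm_add_le _ _
      _ ≤ _ := by gcongr; exact norm_sub_le _ _
  have e8 : (b : ℝ) / (4 * Real.log x ^ K) = (b / Real.log x ^ K) / 4 := by
    rw [mul_comm, div_mul_eq_div_div]
  have e9 : (b : ℝ) / (2 * Real.log x ^ K) = (b / Real.log x ^ K) / 2 := by
    rw [mul_comm, div_mul_eq_div_div]
  rw [e8] at e5 e6
  rw [e9] at e4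
  linarith

end Pool.Agent.H43.CH

end

section

/-!
# CH Msq: mean squares of the main part

Proof.  `f = cutf (AN Q J) U V`, `X ≤ U`, `V ≤ 4X`; `|AN Q J n| ≤ 2 log n ≤ 4L`.  `x ∈ [U + H/2, V - H/2]` (if nonempty; contained in `[X, 2X] ∪ [2X, 4X]`): `Mw f x H α = Mw (AN Q J) x H α = ∑_{j<J} Mw (FS ..) x H α`, `‖·‖^2 ≤ J ∑_j ‖·‖^2`, and
`fix_a` (`A' = A + 14`) at `X` and at `2X` (`b = b1 + 1`, `κ = κ1 + 1`: `(log 2X)^{b1} ≤ L^{b1+1}` for large `X`; `P ≤ exp(L^s) ≤ exp((log 2X)^s)`), `S = pI (Q j) (Q (j+1)) ⊆ pb (Q j)`: `≤ J^2 · 3 X H^2/L^{A'}`, `J ≤ L^5`.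
The other `x` with `Mw f x H α ≠ 0` have measure `≤ 2H` (near `U` and near `V`; also if `V - U < H`), there `‖Mw‖ ≤ 2H · 4L`: `≤ 2H · 64 H^2 L^2 ≤ X H^2/(2 L^A)`, as `H ≤ X/L^κ`.
-/

set_option autoImplicit false

namespace Pool.Agent.H43.CH

open Finset MeasureTheory
open Pool.Agent.H53.MIX (VKw)
open Pool.Agent.H43.LM (Mw)

open Pool.Agent.H91.PK (ee)
open Pool.Agent.H43.LM (mu Fr gP Win)

private theorem Msq_mem_Win {x H : ℝ} {n : ℕ} (hH : 0 ≤ H) : n ∈ Win x H ↔ |(n : ℝ) - x| < H / 2 := by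
  unfold Win
  rw [Finset.mem_filter, Finset.mem_range]
  refine ⟨fun h => h.2, fun h => ⟨?_, h⟩⟩
  rw [abs_lt] at h
  have h1 : (n : ℝ) ≤ ⌈x + H⌉₊ := le_trans (by linarith only [h, h.2]) (Nat.le_ceil _)
  have h2 : n ≤ ⌈x + H⌉₊ := by exact_mod_cast h1
  omega

private theorem Msq_card (x H : ℝ) (hH : 0 ≤ H) : ((Win x H).card : ℝ) ≤ H + 1 := by
  have h1 : Win x H ⊆ Ico ⌈x - H / 2⌉₊ (⌈x - H / 2⌉₊ + ⌈H⌉₊) := by
    intro n hn
    rw [Msq_mem_Win hH, abs_lt] at hn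
    rw [mem_Ico]
    refine ⟨Nat.ceil_le.2 (by linarith only [hn]), ?_⟩
    have h3 := Nat.le_ceil (x - H / 2)
    have h4 := Nat.le_ceil H
    have h5 : (n : ℝ) < (⌈x - H / 2⌉₊ : ℝ) + (⌈H⌉₊ : ℝ) := by linarith only [hn, h3, h4]
    exact_mod_cast h5
  have h2 := Finset.card_le_card h1
  rw [Nat.card_Ico] at h2
  have h3 : (Win x H).card ≤ ⌈H⌉₊ := by omega
  have h4 : ((Win x H).card : ℝ) ≤ ⌈H⌉₊ := by exact_mod_cast h3
  exact h4.trans (Nat.ceil_lt_add_one hH).le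

private theorem Msq_norm (F : ℕ → ℝ) (M0 x H α : ℝ) (hH : 0 ≤ H) (hM : 0 ≤ M0)
    (hF : ∀ n ∈ Win x H, |F n| ≤ M0) : ‖Mw F x H α‖ ≤ (H + 1) * M0 := by
  unfold Mw
  have h1 : ‖∑ n ∈ Win x H, (F n : ℂ) * ee (n * α)‖ ≤ ∑ n ∈ Win x H, M0 := by
    refine (norm_sum_le _ _).trans (Finset.sum_le_sum fun n hn => ?_)
    rw [norm_mul, Pool.Agent.H91.PK.LSa_norm_ee, mul_one, Complex.norm_real]
    exact hF n hn
  rw [Finset.sum_const, nsmul_eq_mul] at h1
  exact h1.trans (mul_le_mul_of_nonneg_right (Msq_card x H hH) hM)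

/-- measurability in `x` -/
private theorem Msq_meas (F : ℕ → ℝ) (H α : ℝ) (hH : 0 ≤ H) (N : ℕ) : ∃ g : ℝ → ℂ, Measurable g ∧
    (∃ C : ℝ, ∀ x, ‖g x‖ ≤ C) ∧ ∀ x : ℝ, x + H ≤ N → Mw F x H α = g x := by
  classical
  refine ⟨fun x => ∑ n ∈ range (N + 1), Set.indicator (Set.Ioo ((n : ℝ) - H / 2) ((n : ℝ) + H / 2))
    (fun _ => (F n : ℂ) * ee (n * α)) x, ?_, ?_, ?_⟩
  · apply Finset.measurable_fun_sum
    intro n _
    exact measurable_const.indicator measurableSet_Ioo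
  · refine ⟨∑ n ∈ range (N + 1), |F n|, fun x => ?_⟩
    refine (norm_sum_le _ _).trans (Finset.sum_le_sum fun n _ => ?_)
    rw [Set.indicator_apply]
    split_ifs
    · rw [norm_mul, Pool.Agent.H91.PK.LSa_norm_ee, mul_one, Complex.norm_real, Real.norm_eq_abs]
    · rw [norm_zero]
      exact abs_nonneg _
  · intro x hx
    unfold Mw
    have h1 : Win x H = (range (N + 1)).filter (fun n : ℕ => x ∈ Set.Ioo ((n : ℝ) - H / 2) ((n : ℝ) + H / 2)) := by
      ext n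
      rw [Msq_mem_Win hH, Finset.mem_filter, Finset.mem_range, Set.mem_Ioo, abs_lt]
      constructor
      · rintro ⟨h1, h2⟩
        refine ⟨?_, by linarith only [h2], by linarith only [h1]⟩
        have h3 : (n : ℝ) ≤ N := by linarith only [hx, h1, h2]
        have h4 : n ≤ N := by exact_mod_cast h3
        omega
      · rintro ⟨-, h2, h3⟩
        exact ⟨by linarith only [h3], by linarith only [h2]⟩
    rw [h1, Finset.sum_filter]
    refine Finset.sum_congr rfl fun n _ => ?_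
    rw [Set.indicator_apply]

private theorem Msq_int (F : ℕ → ℝ) (H α a b : ℝ) (hH : 0 ≤ H) :
    IntegrableOn (fun x => ‖Mw F x H α‖ ^ 2) (Set.Icc a b) := by
  obtain ⟨N, hN⟩ := exists_nat_ge (b + H)
  obtain ⟨g, hg, ⟨C, hC⟩, he⟩ := Msq_meas F H α hH N
  have h1 : IntegrableOn (fun x => ‖g x‖ ^ 2) (Set.Icc a b) := by
    refine Measure.integrableOn_of_bounded (M := C ^ 2) ?_ (hg.norm.pow_const 2).aestronglyMeasurable ?_
    · rw [Real.volume_Icc]
      exact ENNReal.ofReal_ne_top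
    · refine Filter.Eventually.of_forall fun x => ?_
      rw [Real.norm_eq_abs, abs_of_nonneg (by positivity)]
      exact pow_le_pow_left₀ (norm_nonneg _) (hC x) 2
  refine h1.congr_fun (fun x hx => ?_) measurableSet_Icc
  show ‖g x‖ ^ 2 = ‖Mw F x H α‖ ^ 2
  rw [he x (by linarith only [hN, hx, hx.2])]

private theorem Msq_sum (Q : ℕ → ℕ) (J : ℕ) (x H α : ℝ) :
    Mw (AN Q J) x H α = ∑ j ∈ range J, Mw (FS (gP (Q 0) (Q j)) (pI (Q j) (Q (j + 1)))) x H α := by
  unfold Mw AN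
  rw [Finset.sum_comm]
  refine Finset.sum_congr rfl fun n _ => ?_
  rw [← Finset.sum_mul]
  push_cast
  ring

private theorem Msq_sq (Q : ℕ → ℕ) (J : ℕ) (x H α : ℝ) :
    ‖Mw (AN Q J) x H α‖ ^ 2 ≤ J * ∑ j ∈ range J, ‖Mw (FS (gP (Q 0) (Q j)) (pI (Q j) (Q (j + 1)))) x H α‖ ^ 2 := by
  rw [Msq_sum]
  have h1 : ‖∑ j ∈ range J, Mw (FS (gP (Q 0) (Q j)) (pI (Q j) (Q (j + 1)))) x H α‖ ^ 2
      ≤ (∑ j ∈ range J, ‖Mw (FS (gP (Q 0) (Q j)) (pI (Q j) (Q (j + 1)))) x H α‖) ^ 2 :=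
    pow_le_pow_left₀ (norm_nonneg _) (norm_sum_le _ _) 2
  have h2 := sq_sum_le_card_mul_sum_sq (s := range J)
    (f := fun j => ‖Mw (FS (gP (Q 0) (Q j)) (pI (Q j) (Q (j + 1)))) x H α‖)
  rw [Finset.card_range] at h2
  exact h1.trans h2

/-- the large `X` -/
private theorem Msq_ev (C : ℝ) (X1 : ℕ) : ∃ X0 : ℕ, ∀ X : ℕ, X0 ≤ X → X1 ≤ X ∧ 4 ≤ X ∧ C ≤ Real.log X := by
  have h1 : Filter.Tendsto (fun n : ℕ => Real.log (n : ℝ)) Filter.atTop Filter.atTop :=
    Real.tendsto_log_atTop.comp tendsto_natCast_atTop_atTop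
  have h2 := (h1.eventually_ge_atTop C).and ((Filter.eventually_ge_atTop X1).and (Filter.eventually_ge_atTop 4))
  obtain ⟨X0, hX0⟩ := Filter.eventually_atTop.1 h2
  exact ⟨X0, fun X hX => ⟨(hX0 X hX).2.1, (hX0 X hX).2.2, (hX0 X hX).1⟩⟩

theorem msq_h (h_fix_a : fix_a_P) (hV : VKw (19 / 20)) (s : ℝ) (hs0 : 0 < s) (hs : s < 1) (A : ℕ) : ∃ b κ X0 : ℕ, ∀ X : ℕ, X0 ≤ X →
    ∀ (Q : ℕ → ℕ) (J U V : ℕ) (H α : ℝ), Real.log X ^ b ≤ Q 0 → Monotone Q → (∀ j, Q (j + 1) ≤ 2 * Q j) →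
      (Q J : ℝ) ≤ Real.exp (Real.log X ^ s) → (J : ℝ) ≤ Real.log X ^ 5 → (Q J : ℝ) ^ 12 ≤ H → H ≤ X / Real.log X ^ κ →
      X ≤ U → V ≤ 4 * X →
      ∫ x : ℝ, ‖Mw (cutf (AN Q J) U V) x H α‖ ^ 2 ≤ X * H ^ 2 / Real.log X ^ A := by
  obtain ⟨b1, κ1, X1, hfix⟩ := h_fix_a hV s hs0 hs (A + 14)
  obtain ⟨X0, hX0⟩ := Msq_ev (max 256 (2 ^ (b1 + κ1 + 1))) X1
  refine ⟨b1 + 1, κ1 + A + 3, X0, ?_⟩
  intro X hX Q J U V H α hQ0 hQm hQ2 hQJ hJ hQH hHX hXU hVX
  obtain ⟨hX1, hX4, hL⟩ := hX0 X hX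
  set L := Real.log X with hLdef
  have hL256 : 256 ≤ L := (le_max_left _ _).trans hL
  have hLp : (2 : ℝ) ^ (b1 + κ1 + 1) ≤ L := (le_max_right _ _).trans hL
  have hL0 : 0 < L := by linarith only [hs0, hs, hL256]
  have hL1 : 1 ≤ L := by linarith only [hs0, hs, hL256]
  have hXr : (4 : ℝ) ≤ X := by exact_mod_cast hX4
  have hX0' : (0 : ℝ) < X := by linarith only [hs0, hs, hXr]
  have hQ01 : 1 ≤ Q 0 := by
    have h1 : (1 : ℝ) ≤ Q 0 := (one_le_pow₀ hL1).trans hQ0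
    exact_mod_cast h1
  have hQJ1 : (1 : ℝ) ≤ Q J := by
    have h1 : 1 ≤ Q J := hQ01.trans (hQm (Nat.zero_le J))
    exact_mod_cast h1
  have hH1 : 1 ≤ H := (one_le_pow₀ hQJ1).trans hQH
  have hH0 : 0 < H := by linarith only [hs0, hs, hH1]
  -- the logarithm of 2X
  have hlog2 : Real.log ((2 * X : ℕ) : ℝ) ≤ 2 * L := by
    push_cast
    rw [Real.log_mul (by norm_num) (by linarith only [hs0, hs, hXr])]
    have h1 := Real.log_two_lt_d9
    linarith only [hs0, hs, hL256, h1]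
  have hlog1 : L ≤ Real.log ((2 * X : ℕ) : ℝ) := by
    push_cast
    exact Real.log_le_log hX0' (by linarith only [hs0, hs, hXr])
  have hlogp : ∀ k : ℕ, k ≤ b1 + κ1 → Real.log ((2 * X : ℕ) : ℝ) ^ k ≤ L ^ (k + 1) := by
    intro k hk
    have h1 : Real.log ((2 * X : ℕ) : ℝ) ^ k ≤ (2 * L) ^ k := pow_le_pow_left₀ (by linarith only [hs0, hs, hL256, hlog1]) hlog2 k
    have h2 : (2 : ℝ) ^ k ≤ 2 ^ (b1 + κ1 + 1) := pow_le_pow_right₀ (by norm_num) (by omega)
    calc Real.log ((2 * X : ℕ) : ℝ) ^ k ≤ (2 * L) ^ k := h1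
      _ = 2 ^ k * L ^ k := mul_pow _ _ _
      _ ≤ L * L ^ k := mul_le_mul_of_nonneg_right (h2.trans hLp) (by positivity)
      _ = L ^ (k + 1) := by rw [pow_succ]; ring
  -- the blocks
  have hblock : ∀ j ∈ range J, ∫ x in Set.Icc (X : ℝ) (4 * X),
      ‖Mw (FS (gP (Q 0) (Q j)) (pI (Q j) (Q (j + 1)))) x H α‖ ^ 2 ≤ 3 * (X * H ^ 2 / L ^ (A + 14)) := by
    intro j hj
    rw [mem_range] at hj
    have hQj0 : (Q 0 : ℝ) ≤ Q j := by exact_mod_cast hQm (Nat.zero_le j)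
    have hQjJ : (Q j : ℝ) ≤ Q J := by exact_mod_cast hQm hj.le
    have hS : pI (Q j) (Q (j + 1)) ⊆ Pool.Agent.H35.W.pb (Q j) := by
      intro p hp
      unfold pI at hp
      unfold Pool.Agent.H35.W.pb
      rw [Finset.mem_filter, Finset.mem_Ioc] at hp ⊢
      exact ⟨⟨hp.1.1, hp.1.2.trans (hQ2 j)⟩, hp.2⟩
    have hP12 : (Q j : ℝ) ^ 12 ≤ H := (pow_le_pow_left₀ (Nat.cast_nonneg _) hQjJ 12).trans hQH
    have e1 : L ^ b1 ≤ Q j := by
      refine (pow_le_pow_right₀ hL1 (Nat.le_succ b1)).trans (hQ0.trans hQj0)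
    have i1 := hfix X hX1 (Q 0) (Q j) (pI (Q j) (Q (j + 1))) H α e1 (hQjJ.trans hQJ) hP12
      (hHX.trans (div_le_div_of_nonneg_left hX0'.le (by positivity) (pow_le_pow_right₀ hL1 (by omega)))) hS
    have i2 := hfix (2 * X) (by omega) (Q 0) (Q j) (pI (Q j) (Q (j + 1))) H α
      ((hlogp b1 (by omega)).trans (hQ0.trans hQj0))
      ((hQjJ.trans hQJ).trans (Real.exp_le_exp.2 (Real.rpow_le_rpow hL0.le hlog1 hs0.le))) hP12
      (by
        have h1 : (X : ℝ) / L ^ (κ1 + A + 3) ≤ X / Real.log ((2 * X : ℕ) : ℝ) ^ κ1 := by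
          apply div_le_div_of_nonneg_left hX0'.le
          · have : 0 < Real.log ((2 * X : ℕ) : ℝ) := by linarith only [hs0, hs, hL256, hlog1]
            positivity
          · exact (hlogp κ1 (by omega)).trans (pow_le_pow_right₀ hL1 (by omega))
        have h2 : (X : ℝ) / Real.log ((2 * X : ℕ) : ℝ) ^ κ1 ≤ ((2 * X : ℕ) : ℝ) / Real.log ((2 * X : ℕ) : ℝ) ^ κ1 := by
          apply div_le_div_of_nonneg_right
          · push_cast; linarith only [hs0, hs, hXr]
          · have : 0 < Real.log ((2 * X : ℕ) : ℝ) := by linarith only [hs0, hs, hL256, hlog1]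
            positivity
        exact hHX.trans (h1.trans h2)) hS
    have i3 : ((2 * X : ℕ) : ℝ) * H ^ 2 / Real.log ((2 * X : ℕ) : ℝ) ^ (A + 14) ≤ 2 * (X * H ^ 2 / L ^ (A + 14)) := by
      have h1 : ((2 * X : ℕ) : ℝ) * H ^ 2 / Real.log ((2 * X : ℕ) : ℝ) ^ (A + 14)
          ≤ ((2 * X : ℕ) : ℝ) * H ^ 2 / L ^ (A + 14) :=
        div_le_div_of_nonneg_left (by positivity) (by positivity) (pow_le_pow_left₀ hL0.le hlog1 _)
      refine h1.trans (le_of_eq ?_)
      push_cast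
      ring
    have i4 : Set.Icc (X : ℝ) (4 * X) = Set.Icc (X : ℝ) (2 * X) ∪ Set.Ioc (2 * X : ℝ) (4 * X) := by
      rw [Set.Icc_union_Ioc_eq_Icc (by linarith only [hs0, hs, hXr]) (by linarith only [hs0, hs, hXr])]
    have i6 : Set.Ioc (2 * X : ℝ) (4 * X) ⊆ Set.Icc ((2 * X : ℕ) : ℝ) (2 * ((2 * X : ℕ) : ℝ)) := by
      intro x hx
      push_cast
      exact ⟨hx.1.le, by linarith only [hx, hx.2]⟩
    have hint1 := Msq_int (FS (gP (Q 0) (Q j)) (pI (Q j) (Q (j + 1)))) H α X (2 * X) hH0.le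
    have hint2 := Msq_int (FS (gP (Q 0) (Q j)) (pI (Q j) (Q (j + 1)))) H α ((2 * X : ℕ) : ℝ) (2 * ((2 * X : ℕ) : ℝ)) hH0.le
    have i5 : ∫ x in Set.Icc (X : ℝ) (4 * X), ‖Mw (FS (gP (Q 0) (Q j)) (pI (Q j) (Q (j + 1)))) x H α‖ ^ 2
        ≤ (∫ x in Set.Icc (X : ℝ) (2 * X), ‖Mw (FS (gP (Q 0) (Q j)) (pI (Q j) (Q (j + 1)))) x H α‖ ^ 2)
          + ∫ x in Set.Icc ((2 * X : ℕ) : ℝ) (2 * ((2 * X : ℕ) : ℝ)), ‖Mw (FS (gP (Q 0) (Q j)) (pI (Q j) (Q (j + 1)))) x H α‖ ^ 2 := by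
      rw [i4, setIntegral_union (Set.disjoint_left.2 fun x h1 h2 => absurd h1.2 (not_le.2 h2.1)) measurableSet_Ioc hint1
        (hint2.mono_set i6)]
      refine add_le_add le_rfl (setIntegral_mono_set hint2 (Filter.Eventually.of_forall fun x => by positivity)
        (Filter.Eventually.of_forall i6))
    linarith only [i1, i2, i3, i5]
  -- the middle part
  have hmid : ∫ x in Set.Icc (X : ℝ) (4 * X), ‖Mw (AN Q J) x H α‖ ^ 2 ≤ 3 * (X * H ^ 2 / L ^ (A + 4)) := by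
    have hi : ∀ j ∈ range J, IntegrableOn (fun x => ‖Mw (FS (gP (Q 0) (Q j)) (pI (Q j) (Q (j + 1)))) x H α‖ ^ 2)
        (Set.Icc (X : ℝ) (4 * X)) := fun j _ => Msq_int _ H α X (4 * X) hH0.le
    have h1 : ∫ x in Set.Icc (X : ℝ) (4 * X), ‖Mw (AN Q J) x H α‖ ^ 2
        ≤ ∫ x in Set.Icc (X : ℝ) (4 * X), J * ∑ j ∈ range J, ‖Mw (FS (gP (Q 0) (Q j)) (pI (Q j) (Q (j + 1)))) x H α‖ ^ 2 := by
      refine setIntegral_mono_on (Msq_int _ H α X (4 * X) hH0.le) ((integrable_finsetSum _ hi).const_mul _)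
        measurableSet_Icc fun x _ => Msq_sq Q J x H α
    rw [integral_const_mul, integral_finsetSum _ hi] at h1
    have h2 : ∑ j ∈ range J, ∫ x in Set.Icc (X : ℝ) (4 * X),
        ‖Mw (FS (gP (Q 0) (Q j)) (pI (Q j) (Q (j + 1)))) x H α‖ ^ 2 ≤ J * (3 * (X * H ^ 2 / L ^ (A + 14))) := by
      refine (Finset.sum_le_sum hblock).trans (le_of_eq ?_)
      rw [Finset.sum_const, Finset.card_range, nsmul_eq_mul]
    have hJ0 : (0 : ℝ) ≤ J := Nat.cast_nonneg _
    have h3 : (J : ℝ) * (J * (3 * (X * H ^ 2 / L ^ (A + 14)))) ≤ L ^ 5 * (L ^ 5 * (3 * (X * H ^ 2 / L ^ (A + 14)))) := by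
      have h0 : 0 ≤ 3 * (X * H ^ 2 / L ^ (A + 14)) := by positivity
      exact mul_le_mul hJ (mul_le_mul_of_nonneg_right hJ h0) (by positivity) (by positivity)
    have h4 : L ^ 5 * (L ^ 5 * (3 * (X * H ^ 2 / L ^ (A + 14)))) = 3 * (X * H ^ 2 / L ^ (A + 4)) := by
      have e : L ^ (A + 14) = L ^ (A + 4) * (L ^ 5 * L ^ 5) := by ring
      rw [e]
      field_simp
    calc ∫ x in Set.Icc (X : ℝ) (4 * X), ‖Mw (AN Q J) x H α‖ ^ 2
        ≤ J * (J * (3 * (X * H ^ 2 / L ^ (A + 14)))) := h1.trans (mul_le_mul_of_nonneg_left h2 hJ0)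
      _ ≤ _ := h3
      _ = _ := h4
  -- the bound for the other x
  set f := cutf (AN Q J) U V with hf
  have hfb : ∀ n : ℕ, |f n| ≤ 4 * L := by
    intro n
    rw [hf]
    unfold cutf
    split_ifs with hn
    · rw [mem_Ioc] at hn
      have hn0 : n ≠ 0 := by omega
      have h1 := AN_le Q J n hQm hQ01 hn0
      have h2 : (n : ℝ) ≤ 4 * X := by exact_mod_cast hn.2.trans hVX
      have h3 : Real.log n ≤ Real.log (4 * X) := Real.log_le_log (by exact_mod_cast Nat.pos_of_ne_zero hn0) h2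
      have h4 : Real.log (4 * X) ≤ 2 * L := by
        rw [Real.log_mul (by norm_num) (by linarith only [hs0, hs, hXr])]
        have : Real.log 4 ≤ L := Real.log_le_log (by norm_num) hXr
        linarith only [this]
      linarith only [h1, h3, h4]
    · rw [abs_zero]
      positivity
  have hfn : ∀ x : ℝ, ‖Mw f x H α‖ ^ 2 ≤ 64 * H ^ 2 * L ^ 2 := by
    intro x
    have h1 := Msq_norm f (4 * L) x H α hH0.le (by positivity) (fun n _ => hfb n)
    have h2 : (H + 1) * (4 * L) ≤ 8 * H * L := by nlinarith only [hH1, hs0, hs, hL256]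
    have h3 := pow_le_pow_left₀ (norm_nonneg _) (h1.trans h2) 2
    refine h3.trans (le_of_eq (by ring))
  -- the majorant
  set E : Set ℝ := Set.Icc (U - H / 2) (U + H / 2) ∪ Set.Icc (V - H / 2) (V + H / 2) with hE
  have hEm : MeasurableSet E := measurableSet_Icc.union measurableSet_Icc
  have hEfin : volume E ≤ ENNReal.ofReal (2 * H) := by
    refine (measure_union_le _ _).trans ?_
    rw [Real.volume_Icc, Real.volume_Icc, ← ENNReal.ofReal_add (by linarith only [hs0, hs, hH1]) (by linarith only [hs0, hs, hH1])]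
    apply ENNReal.ofReal_le_ofReal
    linarith only
  have hpt : ∀ x : ℝ, ‖Mw f x H α‖ ^ 2 ≤ (Set.Icc (X : ℝ) (4 * X)).indicator (fun x => ‖Mw (AN Q J) x H α‖ ^ 2) x
      + E.indicator (fun _ => 64 * H ^ 2 * L ^ 2) x := by
    intro x
    have hn1 : 0 ≤ (Set.Icc (X : ℝ) (4 * X)).indicator (fun x => ‖Mw (AN Q J) x H α‖ ^ 2) x :=
      Set.indicator_nonneg (fun x _ => by positivity) x
    have hn2 : 0 ≤ E.indicator (fun _ => 64 * H ^ 2 * L ^ 2) x :=
      Set.indicator_nonneg (fun x _ => by positivity) x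
    by_cases hxE : x ∈ E
    · have h1 : E.indicator (fun _ => 64 * H ^ 2 * L ^ 2) x = 64 * H ^ 2 * L ^ 2 := Set.indicator_of_mem hxE _
      rw [h1]
      linarith only [hn1, hfn, hfn x]
    · rw [hE, Set.mem_union, not_or, Set.mem_Icc, Set.mem_Icc, not_and, not_and, not_le, not_le] at hxE
      by_cases h1 : x < U - H / 2
      · have h0 : Mw f x H α = 0 := by
          unfold Mw
          refine Finset.sum_eq_zero fun n hn => ?_
          rw [Msq_mem_Win hH0.le, abs_lt] at hn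
          have h2 : f n = 0 := by
            rw [hf]
            unfold cutf
            rw [if_neg]
            rw [mem_Ioc, not_and_or]
            left
            have h3 : (n : ℝ) < U := by linarith only [h1, hn]
            have h4 : n < U := by exact_mod_cast h3
            omega
          rw [h2]
          simp
        rw [h0, norm_zero]
        have : (0 : ℝ) ^ 2 = 0 := by norm_num
        linarith only [hn1, hn2]
      · have h2 := hxE.1 (not_lt.1 h1)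
        by_cases h3 : V - H / 2 ≤ x
        · have h4 := hxE.2 h3
          have h0 : Mw f x H α = 0 := by
            unfold Mw
            refine Finset.sum_eq_zero fun n hn => ?_
            rw [Msq_mem_Win hH0.le, abs_lt] at hn
            have h2 : f n = 0 := by
              rw [hf]
              unfold cutf
              rw [if_neg]
              rw [mem_Ioc, not_and_or]
              right
              have h3 : (V : ℝ) < n := by linarith only [h4, hn]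
              have h4 : V < n := by exact_mod_cast h3
              omega
            rw [h2]
            simp
          rw [h0, norm_zero]
          have : (0 : ℝ) ^ 2 = 0 := by norm_num
          linarith only [hn1, hn2]
        · rw [not_le] at h3
          have hVr : (V : ℝ) ≤ 4 * X := by exact_mod_cast hVX
          have hUr : (X : ℝ) ≤ U := by exact_mod_cast hXU
          have hx1 : x ∈ Set.Icc (X : ℝ) (4 * X) := ⟨by linarith only [hs0, hs, hH1, h2, hUr], by linarith only [hs0, hs, hH1, h3, hVr]⟩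
          rw [Set.indicator_of_mem hx1]
          have h0 : Mw f x H α = Mw (AN Q J) x H α := by
            unfold Mw
            refine Finset.sum_congr rfl fun n hn => ?_
            rw [Msq_mem_Win hH0.le, abs_lt] at hn
            have h4 : f n = AN Q J n := by
              rw [hf]
              unfold cutf
              rw [if_pos]
              rw [mem_Ioc]
              constructor
              · have : (U : ℝ) < n := by linarith only [h2, hn]
                exact_mod_cast this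
              · have : (n : ℝ) < V := by linarith only [h3, hn]
                have h5 : n < V := by exact_mod_cast this
                exact h5.le
            rw [h4]
          rw [h0]
          linarith only [hn2]
  have hint1 : Integrable ((Set.Icc (X : ℝ) (4 * X)).indicator (fun x => ‖Mw (AN Q J) x H α‖ ^ 2)) :=
    (integrable_indicator_iff measurableSet_Icc).2 (Msq_int _ H α X (4 * X) hH0.le)
  have hint2 : Integrable (E.indicator (fun _ : ℝ => 64 * H ^ 2 * L ^ 2)) :=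
    (integrable_indicator_iff hEm).2 (integrableOn_const (ne_top_of_le_ne_top ENNReal.ofReal_ne_top hEfin))
  have hfinal : ∫ x : ℝ, ‖Mw f x H α‖ ^ 2 ≤ (∫ x in Set.Icc (X : ℝ) (4 * X), ‖Mw (AN Q J) x H α‖ ^ 2)
      + 2 * H * (64 * H ^ 2 * L ^ 2) := by
    refine (integral_mono_of_nonneg (Filter.Eventually.of_forall fun x => by positivity)
      (hint1.add hint2) (Filter.Eventually.of_forall hpt)).trans ?_
    have h1 : ∫ x, ((Set.Icc (X : ℝ) (4 * X)).indicator (fun x => ‖Mw (AN Q J) x H α‖ ^ 2) x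
        + E.indicator (fun _ : ℝ => 64 * H ^ 2 * L ^ 2) x)
        = (∫ x, (Set.Icc (X : ℝ) (4 * X)).indicator (fun x => ‖Mw (AN Q J) x H α‖ ^ 2) x)
          + ∫ x, E.indicator (fun _ : ℝ => 64 * H ^ 2 * L ^ 2) x := integral_add hint1 hint2
    refine (le_of_eq h1).trans ?_
    rw [integral_indicator measurableSet_Icc, integral_indicator_const _ hEm]
    have h2 : volume.real E ≤ 2 * H := by
      have := ENNReal.toReal_mono ENNReal.ofReal_ne_top hEfin
      rwa [ENNReal.toReal_ofReal (by linarith only [hs0, hs, hH1])] at this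
    rw [smul_eq_mul]
    have h3 : volume.real E * (64 * H ^ 2 * L ^ 2) ≤ 2 * H * (64 * H ^ 2 * L ^ 2) :=
      mul_le_mul_of_nonneg_right h2 (by positivity)
    linarith only [h3]
  -- numbers
  have hHX' : H * L ^ (A + 3) ≤ X := by
    have h1 : H * L ^ (κ1 + A + 3) ≤ X := by
      rwa [le_div_iff₀ (by positivity)] at hHX
    have h2 : L ^ (A + 3) ≤ L ^ (κ1 + A + 3) := pow_le_pow_right₀ hL1 (by omega)
    exact (mul_le_mul_of_nonneg_left h2 hH0.le).trans h1
  have h5 : 2 * H * (64 * H ^ 2 * L ^ 2) ≤ X * H ^ 2 / L ^ A / 2 := by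
    rw [div_div, le_div_iff₀ (by positivity)]
    have h6 : 256 * (H * L ^ (A + 2)) ≤ H * L ^ (A + 3) := by
      have e : H * L ^ (A + 3) = L * (H * L ^ (A + 2)) := by ring
      rw [e]
      exact mul_le_mul_of_nonneg_right hL256 (by positivity)
    have h7 : 256 * (H * L ^ (A + 2)) * H ^ 2 ≤ X * H ^ 2 :=
      mul_le_mul_of_nonneg_right (h6.trans hHX') (by positivity)
    calc 2 * H * (64 * H ^ 2 * L ^ 2) * (L ^ A * 2) = 256 * (H * L ^ (A + 2)) * H ^ 2 := by ring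
      _ ≤ _ := h7
  have h6 : 3 * (X * H ^ 2 / L ^ (A + 4)) ≤ X * H ^ 2 / L ^ A / 2 := by
    have e : X * H ^ 2 / L ^ (A + 4) = X * H ^ 2 / L ^ A / L ^ 4 := by
      rw [pow_add, div_div]
    rw [e]
    have h7 : (6 : ℝ) ≤ L ^ 4 := by
      have : L ≤ L ^ 4 := le_self_pow₀ hL1 (by norm_num)
      linarith only [hs0, hs, hL256, this]
    have h8 : X * H ^ 2 / L ^ A / L ^ 4 ≤ X * H ^ 2 / L ^ A / 6 :=
      div_le_div_of_nonneg_left (by positivity) (by norm_num) h7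
    linarith only [h8]
  calc ∫ x : ℝ, ‖Mw f x H α‖ ^ 2 ≤ _ := hfinal
    _ ≤ X * H ^ 2 / L ^ A / 2 + X * H ^ 2 / L ^ A / 2 := add_le_add (hmid.trans h6) h5
    _ = X * H ^ 2 / L ^ A := by ring

end Pool.Agent.H43.CH

end
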