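import Pool.Agent.H43.PS.M09
import Pool.Agent.H43.PS.M19

/-! The parts of this file: H43.CH.Cd3, H43.CH.Toep, H43.CH.AvA, H43.CH.Cd2, H43.CH.Cd1. -/

section

/-!
# CH Cd3: almost orthogonality along almost all progressions, all lengths `H`

As `Ch3.lean`, with `cd2 2 (δ/4) ε` (constant `C1`) in place of `ch2`.  `K0 = ⌊min((log H/loglog X)^2/N0, L^{2-δ})⌋₊` (`≤ L^2`), `sav^2 ≤ 2 (loglog X/log H)^2 + 2 L^{δ/2-2}`, so `K0 sav^2 ≤ 2/N0 + 2 L^{-δ/2}`:
`∑_q ∑_{d=1}^{K0} |C(q,d)| ≤ C1 H X K0 sav^2 ≤ ζ H X` with `ζ = C1 (2/N0 + 2 L^{-δ/2})`, as small as we like for `N0`, `X` large.  `E` = the `q` with `∑_{d ≤ K0} |C(q,d)| > (η/8) X`: `#E ≤ 8 ζ/η · H ≤ η H`.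
`q ∉ E`: as in `Ch3.lean` the error is `≤ (C X^{-1/2} + 2 η/8 + 4 L^4 X^{-ε}) ∑ |c_j|^2 ≤ η ∑ |c_j|^2`.  (If `K = 0` everything is `0`; `K ≥ 1` with `N0 K ≤ (log H/loglog X)^2` implies `K ≤ K0`.)
-/

set_option autoImplicit false

namespace Pool.Agent.H43.CH

open Finset MeasureTheory
open Pool.Agent.H43.LM (mu)

private lemma Cd3_schur (K : ℕ) (M : ℕ → ℕ → ℝ) (hs : ∀ i j, M i j = M j i) (R : ℝ)
    (hR : ∀ j ∈ range K, ∑ i ∈ range K, |M j i| ≤ R) (u : ℕ → ℝ) :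
    |∑ j ∈ range K, ∑ i ∈ range K, u j * u i * M j i| ≤ R * ∑ j ∈ range K, u j ^ 2 := by
  have h1 : |∑ j ∈ range K, ∑ i ∈ range K, u j * u i * M j i| ≤
      ∑ j ∈ range K, ∑ i ∈ range K, (u j ^ 2 / 2 * |M j i| + u i ^ 2 / 2 * |M j i|) := by
    refine (abs_sum_le_sum_abs _ _).trans (sum_le_sum fun j _ => ?_)
    refine (abs_sum_le_sum_abs _ _).trans (sum_le_sum fun i _ => ?_)
    rw [abs_mul, ← add_mul]
    apply mul_le_mul_of_nonneg_right _ (abs_nonneg _)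
    rw [abs_le]
    constructor
    · nlinarith only [sq_nonneg (u j + u i)]
    · nlinarith only [sq_nonneg (u j - u i)]
  refine h1.trans (le_of_eq_of_le ?_ (?_ : ∑ j ∈ range K, u j ^ 2 * ∑ i ∈ range K, |M j i| ≤ _))
  · have h2 : ∑ j ∈ range K, ∑ i ∈ range K, u i ^ 2 / 2 * |M j i| =
        ∑ j ∈ range K, ∑ i ∈ range K, u j ^ 2 / 2 * |M j i| := by
      rw [sum_comm]
      exact sum_congr rfl fun j _ => sum_congr rfl fun i _ => by rw [hs i j]
    simp only [sum_add_distrib]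
    rw [h2, ← sum_add_distrib]
    refine sum_congr rfl fun j _ => ?_
    rw [← sum_add_distrib, mul_sum]
    exact sum_congr rfl fun i _ => by ring
  · rw [mul_sum]
    refine sum_le_sum fun j hj => ?_
    rw [mul_comm]
    exact mul_le_mul_of_nonneg_right (hR j hj) (sq_nonneg _)

private lemma Cd3_inj (S T : Finset ℕ) (g : ℕ → ℕ) (y : ℕ → ℝ) (hy : ∀ d, 0 ≤ y d)
    (hg : ∀ x ∈ S, g x ∈ T) (hi : Set.InjOn g S) : ∑ x ∈ S, y (g x) ≤ ∑ d ∈ T, y d := by
  rw [← sum_image (f := y) hi]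
  exact sum_le_sum_of_subset_of_nonneg (image_subset_iff.2 hg) fun _ _ _ => hy _

private lemma Cd3_short (f : ℕ → ℝ) (hf : ∀ n, |f n| ≤ 1) (M a : ℕ) :
    |∑ n ∈ Ioc M (M + a), f n| ≤ a := by
  refine (abs_sum_le_sum_abs _ _).trans ((sum_le_sum fun n _ => hf n).trans ?_)
  simp

private lemma Cd3_shift (f : ℕ → ℝ) (hf : ∀ n, |f n| ≤ 1) (X a : ℕ) :
    |∑ n ∈ Ioc X (2 * X), f (n + a) - ∑ n ∈ Ioc X (2 * X), f n| ≤ 2 * a := by
  have e1 : ∑ n ∈ Ioc X (2 * X), f (n + a) = ∑ n ∈ Ioc (X + a) (2 * X + a), f n := by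
    rw [← Finset.map_add_right_Ioc, sum_map]
    rfl
  have e2 := Finset.sum_Ioc_consecutive f (show X ≤ 2 * X by omega) (show 2 * X ≤ 2 * X + a by omega)
  have e3 := Finset.sum_Ioc_consecutive f (show X ≤ X + a by omega) (show X + a ≤ 2 * X + a by omega)
  have b1 := abs_le.1 (Cd3_short f hf (2 * X) a)
  have b2 := abs_le.1 (Cd3_short f hf X a)
  rw [e1, abs_le]
  constructor <;> linarith only [e2, e3, b1, b2, b1.1, b1.2, b2.1, b2.2]

private lemma Cd3_off (X q j i : ℕ) (h : j < i) :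
    |∑ n ∈ Ioc X (2 * X), mu (n + q * j) * mu (n + q * i)| ≤
      |∑ n ∈ Ioc X (2 * X), mu n * mu (n + q * (i - j))| + 2 * ((q * j : ℕ) : ℝ) := by
  have h1 := Cd3_shift (fun n => mu n * mu (n + q * (i - j))) (fun n => by
    rw [abs_mul]
    exact mul_le_one₀ (Pool.Agent.H43.LM.mu_abs_le _) (abs_nonneg _)
      (Pool.Agent.H43.LM.mu_abs_le _)) X (q * j)
  have e : ∀ n, n + q * j + q * (i - j) = n + q * i := by
    intro n
    rw [add_assoc, ← mul_add, Nat.add_sub_of_le h.le]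
  simp only [e] at h1
  have h2 := abs_sub_abs_le_abs_sub (∑ n ∈ Ioc X (2 * X), mu (n + q * j) * mu (n + q * i))
    (∑ n ∈ Ioc X (2 * X), mu n * mu (n + q * (i - j)))
  linarith only [h1, h2]

private lemma Cd3_real (X q K K0 : ℕ) (s A D Q : ℝ) (hKK : K ≤ K0)
    (hD : ∑ d ∈ Icc 1 K0, |∑ n ∈ Ioc X (2 * X), mu n * mu (n + q * d)| ≤ D)
    (hQ : 2 * (q : ℝ) * K ≤ Q)
    (hd : ∀ j ∈ range K, |∑ n ∈ Ioc X (2 * X), mu (n + q * j) ^ 2 - s| ≤ A) (u : ℕ → ℝ) :
    |∑ n ∈ Ioc X (2 * X), (∑ j ∈ range K, u j * mu (n + q * j)) ^ 2 - s * ∑ j ∈ range K, u j ^ 2|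
      ≤ (A + 2 * D + K * Q) * ∑ j ∈ range K, u j ^ 2 := by
  set G : ℕ → ℕ → ℝ := fun j i => ∑ n ∈ Ioc X (2 * X), mu (n + q * j) * mu (n + q * i) with hG
  set y : ℕ → ℝ := fun d => |∑ n ∈ Ioc X (2 * X), mu n * mu (n + q * d)| with hy
  have hy0 : ∀ d, 0 ≤ y d := fun d => abs_nonneg _
  have hGs : ∀ i j, G i j = G j i := fun i j => sum_congr rfl fun n _ => mul_comm _ _
  set M : ℕ → ℕ → ℝ := fun j i => G j i - if j = i then s else 0 with hM
  have hMs : ∀ i j, M i j = M j i := by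
    intro i j
    simp only [hM]
    rw [hGs i j]
    by_cases hij : i = j
    · rw [if_pos hij, if_pos hij.symm]
    · rw [if_neg hij, if_neg (Ne.symm hij)]
  have hQ0 : 0 ≤ Q := le_trans (by positivity) hQ
  have hrow : ∀ j ∈ range K, ∑ i ∈ range K, |M j i| ≤ A + 2 * D + K * Q := by
    intro j hj
    have hjK : j < K := mem_range.1 hj
    have hq : ∀ m : ℕ, m < K → 2 * ((q * m : ℕ) : ℝ) ≤ Q := by
      intro m hm
      refine le_trans ?_ hQ
      push_cast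
      rw [mul_assoc]
      have : (m : ℝ) ≤ K := by exact_mod_cast hm.le
      gcongr
    have hpt : ∀ i ∈ range K, |M j i| ≤ (if i = j then A else 0) + (if i < j then y (j - i) else 0)
        + (if j < i then y (i - j) else 0) + Q := by
      intro i hi
      have hiK : i < K := mem_range.1 hi
      rcases lt_trichotomy i j with h | h | h
      · rw [if_neg h.ne, if_pos h, if_neg (by omega)]
        have h1 := Cd3_off X q i j h
        have h2 := hq i hiK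
        have e : M j i = G i j := by
          simp only [hM]
          rw [if_neg h.ne', sub_zero, hGs]
        rw [e]
        have h3 : |G i j| ≤ y (j - i) + 2 * ((q * i : ℕ) : ℝ) := h1
        linarith only [h1, h2]
      · subst h
        rw [if_pos rfl, if_neg (lt_irrefl _)]
        have h1 := hd i hi
        have e : M i i = ∑ n ∈ Ioc X (2 * X), mu (n + q * i) ^ 2 - s := by
          simp only [hM, hG, sq, if_true]
        rw [e]
        linarith only [hQ0, h1]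
      · rw [if_neg h.ne', if_neg (by omega), if_pos h]
        have h1 := Cd3_off X q j i h
        have h2 := hq j hjK
        have e : M j i = G j i := by
          simp only [hM]
          rw [if_neg h.ne, sub_zero]
        rw [e]
        have h3 : |G j i| ≤ y (i - j) + 2 * ((q * j : ℕ) : ℝ) := h1
        linarith only [h1, h2]
    refine (sum_le_sum hpt).trans ?_
    simp only [sum_add_distrib]
    have s1 : ∑ i ∈ range K, (if i = j then A else 0) ≤ A := by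
      rw [sum_ite_eq' (range K) j (fun _ => A), if_pos hj]
    have s2 : ∑ i ∈ range K, (if i < j then y (j - i) else 0) ≤ D := by
      rw [← sum_filter]
      refine (Cd3_inj _ (Icc 1 K0) (fun i => j - i) y hy0 ?_ ?_).trans hD
      · intro x hx
        rw [mem_filter] at hx
        rw [mem_Icc]
        omega
      · intro x hx z hz h
        rw [Finset.mem_coe, mem_filter] at hx hz
        simp only at h
        omega
    have s3 : ∑ i ∈ range K, (if j < i then y (i - j) else 0) ≤ D := by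
      rw [← sum_filter]
      refine (Cd3_inj _ (Icc 1 K0) (fun i => i - j) y hy0 ?_ ?_).trans hD
      · intro x hx
        rw [mem_filter, mem_range] at hx
        rw [mem_Icc]
        omega
      · intro x hx z hz h
        rw [Finset.mem_coe, mem_filter] at hx hz
        simp only at h
        omega
    have s4 : ∑ _i ∈ range K, Q = K * Q := by
      rw [sum_const, card_range, nsmul_eq_mul]
    rw [s4]
    linarith only [s1, s2, s3]
  have hmain := Cd3_schur K M hMs _ hrow u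
  have e1 : ∑ n ∈ Ioc X (2 * X), (∑ j ∈ range K, u j * mu (n + q * j)) ^ 2 =
      ∑ j ∈ range K, ∑ i ∈ range K, u j * u i * G j i := by
    have e2 : ∀ n, (∑ j ∈ range K, u j * mu (n + q * j)) ^ 2 =
        ∑ j ∈ range K, ∑ i ∈ range K, u j * u i * (mu (n + q * j) * mu (n + q * i)) := by
      intro n
      rw [sq, sum_mul_sum]
      exact sum_congr rfl fun j _ => sum_congr rfl fun i _ => by ring
    simp only [e2]
    rw [sum_comm]
    refine sum_congr rfl fun j _ => ?_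
    rw [sum_comm]
    refine sum_congr rfl fun i _ => ?_
    rw [← mul_sum]
  have e3 : ∑ n ∈ Ioc X (2 * X), (∑ j ∈ range K, u j * mu (n + q * j)) ^ 2 -
      s * ∑ j ∈ range K, u j ^ 2 = ∑ j ∈ range K, ∑ i ∈ range K, u j * u i * M j i := by
    rw [e1, mul_sum, ← sum_sub_distrib]
    refine sum_congr rfl fun j hj => ?_
    have e4 : ∑ i ∈ range K, u j * u i * M j i =
        ∑ i ∈ range K, u j * u i * G j i - ∑ i ∈ range K, (if j = i then u j * u i * s else 0) := by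
      rw [← sum_sub_distrib]
      refine sum_congr rfl fun i _ => ?_
      simp only [hM]
      by_cases hij : j = i
      · rw [if_pos hij, if_pos hij]
        ring
      · rw [if_neg hij, if_neg hij]
        ring
    rw [e4, sum_ite_eq (range K) j (fun i => u j * u i * s), if_pos hj]
    ring
  rw [e3]
  exact hmain

private lemma Cd3_cplx (X q K K0 : ℕ) (s A D Q : ℝ) (hKK : K ≤ K0)
    (hD : ∑ d ∈ Icc 1 K0, |∑ n ∈ Ioc X (2 * X), mu n * mu (n + q * d)| ≤ D)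
    (hQ : 2 * (q : ℝ) * K ≤ Q)
    (hd : ∀ j ∈ range K, |∑ n ∈ Ioc X (2 * X), mu (n + q * j) ^ 2 - s| ≤ A) (c : ℕ → ℂ) :
    |∑ n ∈ Ioc X (2 * X), ‖∑ j ∈ range K, c j * ((mu (n + q * j) : ℝ) : ℂ)‖ ^ 2
        - s * ∑ j ∈ range K, ‖c j‖ ^ 2|
      ≤ (A + 2 * D + K * Q) * ∑ j ∈ range K, ‖c j‖ ^ 2 := by
  have hu := Cd3_real X q K K0 s A D Q hKK hD hQ hd (fun j => (c j).re)
  have hv := Cd3_real X q K K0 s A D Q hKK hD hQ hd (fun j => (c j).im)
  have e0 : ∀ z : ℂ, ‖z‖ ^ 2 = z.re ^ 2 + z.im ^ 2 := by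
    intro z
    rw [Complex.sq_norm, Complex.normSq_apply]
    ring
  have e1 : ∑ j ∈ range K, ‖c j‖ ^ 2 = ∑ j ∈ range K, (c j).re ^ 2 + ∑ j ∈ range K, (c j).im ^ 2 := by
    rw [← sum_add_distrib]
    exact sum_congr rfl fun j _ => e0 _
  have e2 : ∑ n ∈ Ioc X (2 * X), ‖∑ j ∈ range K, c j * ((mu (n + q * j) : ℝ) : ℂ)‖ ^ 2 =
      ∑ n ∈ Ioc X (2 * X), (∑ j ∈ range K, (c j).re * mu (n + q * j)) ^ 2 +
        ∑ n ∈ Ioc X (2 * X), (∑ j ∈ range K, (c j).im * mu (n + q * j)) ^ 2 := by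
    rw [← sum_add_distrib]
    refine sum_congr rfl fun n _ => ?_
    rw [e0, Complex.re_sum, Complex.im_sum]
    simp only [Complex.re_mul_ofReal, Complex.im_mul_ofReal]
  rw [e1, e2, mul_add, mul_add, add_sub_add_comm]
  exact (abs_add_le _ _).trans (add_le_add hu hv)

theorem cd3_h (h_cd2 : cd2_P) (δ ε η : ℝ) (hδ : 0 < δ) (hδ1 : δ < 1) (hε : 0 < ε) (hε1 : ε < 1) (hη : 0 < η) : ∃ N0 : ℕ, ∀ X : ℕ, N0 ≤ X →
    ∀ H q0 : ℕ, 2 ≤ H → ((q0 + H : ℕ) : ℝ) ≤ (X : ℝ) ^ (1 - ε) →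
      ∃ E : Finset ℕ, (E.card : ℝ) ≤ η * H ∧ ∀ q ∈ Ioc q0 (q0 + H), q ∉ E →
        ∀ (K : ℕ) (c : ℕ → ℂ), (N0 : ℝ) * K ≤ (Real.log H / Real.log (Real.log X)) ^ 2 → (K : ℝ) ≤ Real.log X ^ (2 - δ) →
          |(1 / (X : ℝ)) * ∑ n ∈ Ioc X (2 * X), ‖∑ j ∈ range K, c j * ((mu (n + q * j) : ℝ) : ℂ)‖ ^ 2
              - 6 / Real.pi ^ 2 * ∑ j ∈ range K, ‖c j‖ ^ 2|
            ≤ η * ∑ j ∈ range K, ‖c j‖ ^ 2 := by
  obtain ⟨C1, X1, hC1, h1⟩ := h_cd2 2 (δ / 4) ε (by linarith only [hδ]) (by linarith only [hδ, hδ1]) hε hε1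
  obtain ⟨C, hC, hsq⟩ := sqf
  have ev0 : ∀ᶠ X : ℕ in Filter.atTop, (3 : ℝ) ≤ Real.log X :=
    (Real.tendsto_log_atTop.comp tendsto_natCast_atTop_atTop).eventually_ge_atTop _
  have ev1 : ∀ᶠ X : ℕ in Filter.atTop, 32 * C1 / η ^ 2 ≤ Real.log X ^ (δ / 2) :=
    ((tendsto_rpow_atTop (show 0 < δ / 2 by linarith only [hδ])).comp
      (Real.tendsto_log_atTop.comp tendsto_natCast_atTop_atTop)).eventually_ge_atTop _
  have ev2 : ∀ᶠ X : ℕ in Filter.atTop, 4 * C / η ≤ Real.sqrt X :=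
    (Real.tendsto_sqrt_atTop.comp tendsto_natCast_atTop_atTop).eventually_ge_atTop _
  have ev3 : ∀ᶠ X : ℕ in Filter.atTop, max 1 (8 / η) * Real.log X ^ 4 ≤ (X : ℝ) ^ ε := by
    have hm : (0 : ℝ) < max 1 (8 / η) := lt_of_lt_of_le one_pos (le_max_left _ _)
    have h := (isLittleO_log_rpow_rpow_atTop ((4 : ℕ) : ℝ) hε).bound (c := 1 / max 1 (8 / η))
      (by positivity)
    have h' := tendsto_natCast_atTop_atTop.eventually h
    filter_upwards [h', Filter.eventually_ge_atTop 1] with X hX hX1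
    have hX0 : (0 : ℝ) ≤ Real.log X := Real.log_nonneg (by exact_mod_cast hX1)
    rw [Real.rpow_natCast, Real.norm_of_nonneg (by positivity),
      Real.norm_of_nonneg (by positivity), one_div, inv_mul_eq_div, le_div_iff₀ hm] at hX
    linarith only [hX]
  obtain ⟨X2, h2⟩ := Filter.eventually_atTop.1
    (ev0.and (ev1.and (ev2.and (ev3.and (Filter.eventually_ge_atTop 1)))))
  refine ⟨max (max X1 X2) (⌈32 * C1 / η ^ 2⌉₊ + 1), fun X hX H q0 hH2 hHu => ?_⟩
  set N0 : ℕ := max (max X1 X2) (⌈32 * C1 / η ^ 2⌉₊ + 1) with hN0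
  obtain ⟨hL3, hLd, hLs, hLX, hX1⟩ := h2 X (((le_max_right _ _).trans (le_max_left _ _)).trans hX)
  have hC2 := h1 X (((le_max_left _ _).trans (le_max_left _ _)).trans hX) H q0
  have hN1 : (1 : ℝ) ≤ N0 := by
    have : 1 ≤ N0 := le_trans (by omega) (le_max_right _ _)
    exact_mod_cast this
  have hNC : 32 * C1 / η ^ 2 ≤ N0 := by
    have h3 : ⌈32 * C1 / η ^ 2⌉₊ ≤ N0 := le_trans (by omega) (le_max_right _ _)
    exact (Nat.le_ceil _).trans (by exact_mod_cast h3)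
  have hN00 : (0 : ℝ) < N0 := by linarith only [hδ, hδ1, hN1]
  set L : ℝ := Real.log X with hLdef
  have hL0 : 0 < L := by linarith only [hδ, hδ1, hL3]
  have hL1 : 1 ≤ L := by linarith only [hδ, hδ1, hL3]
  have hX0 : (0 : ℝ) < X := by exact_mod_cast hX1
  have hHr : (2 : ℝ) ≤ H := by exact_mod_cast hH2
  have hH0 : (0 : ℝ) < H := by linarith only [hδ, hδ1, hHr]
  have hlL : 0 < Real.log L := Real.log_pos (by linarith only [hδ, hδ1, hL3])
  have hlH : 0 < Real.log H := Real.log_pos (by linarith only [hδ, hδ1, hHr])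
  set r : ℝ := Real.log H / Real.log L with hr
  have hr0 : 0 < r := div_pos hlH hlL
  have hLd2 : L ^ (2 - δ) ≤ L ^ 2 := by
    have h := Real.rpow_le_rpow_of_exponent_le hL1 (show 2 - δ ≤ ((2 : ℕ) : ℝ) by push_cast; linarith only [hδ])
    rwa [Real.rpow_natCast] at h
  have hLd0 : 0 < L ^ (2 - δ) := Real.rpow_pos_of_pos hL0 _
  have hmin0 : 0 ≤ min (r ^ 2 / N0) (L ^ (2 - δ)) := le_min (by positivity) hLd0.le
  set K0 : ℕ := ⌊min (r ^ 2 / N0) (L ^ (2 - δ))⌋₊ with hK0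
  have hK0le : (K0 : ℝ) ≤ min (r ^ 2 / N0) (L ^ (2 - δ)) := Nat.floor_le hmin0
  have hK0a : (K0 : ℝ) ≤ r ^ 2 / N0 := hK0le.trans (min_le_left _ _)
  have hK0b : (K0 : ℝ) ≤ L ^ (2 - δ) := hK0le.trans (min_le_right _ _)
  -- the saving
  have hsav : sav X H (δ / 4) = 1 / r + L ^ (δ / 4 - 1) := by
    rw [sav, hr, one_div_div]
  set s : ℝ := sav X H (δ / 4) with hs
  have hp0 : 0 < L ^ (δ / 4 - 1) := Real.rpow_pos_of_pos hL0 _
  have hs2 : s ^ 2 ≤ 2 * (1 / r) ^ 2 + 2 * (L ^ (δ / 4 - 1)) ^ 2 := by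
    rw [hsav]
    nlinarith only [sq_nonneg (1 / r - L ^ (δ / 4 - 1))]
  have hpp : L ^ (2 - δ) * (L ^ (δ / 4 - 1)) ^ 2 = 1 / L ^ (δ / 2) := by
    rw [← Real.rpow_natCast (L ^ (δ / 4 - 1)) 2, ← Real.rpow_mul hL0.le, ← Real.rpow_add hL0,
      one_div, ← Real.rpow_neg hL0.le]
    congr 1
    push_cast
    ring
  have hKs : C1 * (K0 * s ^ 2) ≤ η ^ 2 / 8 := by
    have c1 : (K0 : ℝ) * s ^ 2 ≤ 2 / N0 + 2 * (1 / L ^ (δ / 2)) := by
      calc (K0 : ℝ) * s ^ 2 ≤ K0 * (2 * (1 / r) ^ 2 + 2 * (L ^ (δ / 4 - 1)) ^ 2) :=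
            mul_le_mul_of_nonneg_left hs2 (Nat.cast_nonneg _)
        _ = K0 * (2 * (1 / r) ^ 2) + K0 * (2 * (L ^ (δ / 4 - 1)) ^ 2) := by ring
        _ ≤ r ^ 2 / N0 * (2 * (1 / r) ^ 2) + L ^ (2 - δ) * (2 * (L ^ (δ / 4 - 1)) ^ 2) := by
            gcongr
        _ = 2 / N0 + 2 * (L ^ (2 - δ) * (L ^ (δ / 4 - 1)) ^ 2) := by
            field_simp
        _ = 2 / N0 + 2 * (1 / L ^ (δ / 2)) := by rw [hpp]
    have c2 : 2 * C1 / N0 ≤ η ^ 2 / 16 := by
      rw [div_le_iff₀ hN00]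
      rw [div_le_iff₀ (by positivity)] at hNC
      nlinarith only [hNC]
    have c3 : 2 * C1 * (1 / L ^ (δ / 2)) ≤ η ^ 2 / 16 := by
      have hq : 0 < L ^ (δ / 2) := Real.rpow_pos_of_pos hL0 _
      rw [mul_one_div, div_le_iff₀ hq]
      rw [div_le_iff₀ (by positivity)] at hLd
      nlinarith only [hLd]
    calc C1 * (K0 * s ^ 2) ≤ C1 * (2 / N0 + 2 * (1 / L ^ (δ / 2))) := by gcongr
      _ = 2 * C1 / N0 + 2 * C1 * (1 / L ^ (δ / 2)) := by ring
      _ ≤ η ^ 2 / 16 + η ^ 2 / 16 := add_le_add c2 c3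
      _ = η ^ 2 / 8 := by ring
  set y : ℕ → ℕ → ℝ := fun q d => |∑ n ∈ Ioc X (2 * X), mu n * mu (n + q * d)| with hy
  have hy0 : ∀ q d, 0 ≤ y q d := fun q d => abs_nonneg _
  refine ⟨(Ioc q0 (q0 + H)).filter (fun q => η / 8 * X < ∑ d ∈ Icc 1 K0, y q d), ?_, ?_⟩
  · set E := (Ioc q0 (q0 + H)).filter (fun q => η / 8 * X < ∑ d ∈ Icc 1 K0, y q d) with hE
    have a1 : (E.card : ℝ) * (η / 8 * X) ≤ ∑ q ∈ E, ∑ d ∈ Icc 1 K0, y q d := by
      rw [← nsmul_eq_mul, ← sum_const]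
      refine sum_le_sum fun q hq => ?_
      rw [hE, mem_filter] at hq
      exact hq.2.le
    have a2 : ∑ q ∈ E, ∑ d ∈ Icc 1 K0, y q d ≤ ∑ q ∈ Ioc q0 (q0 + H), ∑ d ∈ Icc 1 K0, y q d :=
      sum_le_sum_of_subset_of_nonneg (filter_subset _ _)
        fun q _ _ => sum_nonneg fun d _ => hy0 q d
    have a3 : ∑ q ∈ Ioc q0 (q0 + H), ∑ d ∈ Icc 1 K0, y q d ≤ K0 * (C1 * H * X * s ^ 2) := by
      rw [sum_comm]
      refine (sum_le_sum fun d hd => (?_ : _ ≤ C1 * H * X * s ^ 2)).trans ?_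
      · rw [mem_Icc] at hd
        have hd' : (d : ℝ) ≤ L ^ 2 := by
          have : (d : ℝ) ≤ K0 := by exact_mod_cast hd.2
          linarith only [hLd2, hK0b, this]
        exact hC2 d hH2 hHu hd.1 hd'
      · rw [sum_const, Nat.card_Icc, nsmul_eq_mul, Nat.add_sub_cancel]
    have a4 : (K0 : ℝ) * (C1 * H * X * s ^ 2) ≤ η * H * (η / 8 * X) := by
      calc (K0 : ℝ) * (C1 * H * X * s ^ 2) = H * X * (C1 * (K0 * s ^ 2)) := by ring
        _ ≤ H * X * (η ^ 2 / 8) := by gcongr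
        _ = η * H * (η / 8 * X) := by ring
    exact le_of_mul_le_mul_right (a1.trans (a2.trans (a3.trans a4))) (by positivity)
  · intro q hq hqE K c hKN hK
    have hqI := hq
    rw [mem_Ioc] at hq
    rw [mem_filter, not_and, not_lt] at hqE
    have hD := hqE hqI
    have hKK : K ≤ K0 := by
      refine Nat.le_floor (le_min ?_ hK)
      rw [le_div_iff₀ hN00, mul_comm]
      exact hKN
    have hKL : (K : ℝ) ≤ L ^ 2 := hK.trans hLd2
    have hqX : (q : ℝ) ≤ (X : ℝ) ^ (1 - ε) := by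
      refine le_trans ?_ hHu
      exact_mod_cast hq.2
    have hXe : (X : ℝ) ^ (1 - ε) * (X : ℝ) ^ ε = X := by
      rw [← Real.rpow_add hX0, sub_add_cancel, Real.rpow_one]
    have hXe0 : 0 < (X : ℝ) ^ (1 - ε) := Real.rpow_pos_of_pos hX0 _
    have hL40 : 0 < L ^ 4 := by positivity
    have hL4 : L ^ 4 ≤ (X : ℝ) ^ ε := by
      refine le_trans ?_ hLX
      exact le_mul_of_one_le_left hL40.le (le_max_left _ _)
    have hL4' : 8 / η * L ^ 4 ≤ (X : ℝ) ^ ε := by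
      refine le_trans ?_ hLX
      exact mul_le_mul_of_nonneg_right (le_max_right _ _) hL40.le
    have hqK : (q : ℝ) * L ^ 2 ≤ X := by
      calc (q : ℝ) * L ^ 2 ≤ (X : ℝ) ^ (1 - ε) * (X : ℝ) ^ ε := by
            apply mul_le_mul hqX _ (by positivity) hXe0.le
            exact (pow_le_pow_right₀ hL1 (by norm_num)).trans hL4
        _ = X := hXe
    have hd : ∀ j ∈ range K, |∑ n ∈ Ioc X (2 * X), mu (n + q * j) ^ 2 - 6 / Real.pi ^ 2 * X| ≤
        C * Real.sqrt X := by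
      intro j hj
      have e1 : ∑ n ∈ Ioc X (2 * X), mu (n + q * j) ^ 2 =
          ∑ n ∈ Ioc (X + q * j) (2 * X + q * j), mu n ^ 2 := by
        rw [← Finset.map_add_right_Ioc, sum_map]
        rfl
      rw [e1]
      apply hsq X (q * j) hX1
      have hjK : (j : ℝ) ≤ K := by exact_mod_cast (mem_range.1 hj).le
      have : ((q * j : ℕ) : ℝ) ≤ X := by
        push_cast
        refine le_trans ?_ hqK
        have : (j : ℝ) ≤ L ^ 2 := hjK.trans hKL
        gcongr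
      exact_mod_cast this
    have hmain := Cd3_cplx X q K K0 (6 / Real.pi ^ 2 * X) (C * Real.sqrt X) (η / 8 * X)
      (2 * (q : ℝ) * K) hKK hD le_rfl hd c
    set S : ℝ := ∑ j ∈ range K, ‖c j‖ ^ 2 with hS
    have hS0 : 0 ≤ S := sum_nonneg fun j _ => by positivity
    have b1 : C * Real.sqrt X ≤ η / 4 * X := by
      rw [div_le_iff₀ hη] at hLs
      have hsx : Real.sqrt X * Real.sqrt X = X := Real.mul_self_sqrt hX0.le
      have hsx0 : 0 ≤ Real.sqrt X := Real.sqrt_nonneg _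
      calc C * Real.sqrt X = (4 * C) * Real.sqrt X / 4 := by ring
        _ ≤ (Real.sqrt X * η) * Real.sqrt X / 4 := by gcongr
        _ = η / 4 * (Real.sqrt X * Real.sqrt X) := by ring
        _ = η / 4 * X := by rw [hsx]
    have b3 : (K : ℝ) * (2 * (q : ℝ) * K) ≤ η / 4 * X := by
      calc (K : ℝ) * (2 * (q : ℝ) * K) = q * (2 * (K * K)) := by ring
        _ ≤ (X : ℝ) ^ (1 - ε) * (2 * (L ^ 2 * L ^ 2)) := by gcongr
        _ = η / 4 * ((X : ℝ) ^ (1 - ε) * (8 / η * L ^ 4)) := by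
            field_simp
            ring
        _ ≤ η / 4 * ((X : ℝ) ^ (1 - ε) * (X : ℝ) ^ ε) := by gcongr
        _ = η / 4 * X := by rw [hXe]
    have b4 : C * Real.sqrt X + 2 * (η / 8 * X) + K * (2 * (q : ℝ) * K) ≤ η * X := by
      have : 0 < η * X := by positivity
      nlinarith only [b1, b3, this]
    have b5 := hmain.trans (mul_le_mul_of_nonneg_right b4 hS0)
    have e5 : (1 / (X : ℝ)) * ∑ n ∈ Ioc X (2 * X), ‖∑ j ∈ range K, c j * ((mu (n + q * j) : ℝ) : ℂ)‖ ^ 2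
        - 6 / Real.pi ^ 2 * S = (1 / (X : ℝ)) *
          (∑ n ∈ Ioc X (2 * X), ‖∑ j ∈ range K, c j * ((mu (n + q * j) : ℝ) : ℂ)‖ ^ 2 -
            6 / Real.pi ^ 2 * X * S) := by
      field_simp
    rw [e5, abs_mul, abs_of_pos (by positivity)]
    calc 1 / (X : ℝ) * _ ≤ 1 / (X : ℝ) * (η * X * S) := by
          apply mul_le_mul_of_nonneg_left b5 (by positivity)
      _ = η * S := by
          field_simp

end Pool.Agent.H43.CH

end

section

/-!
# CH Toep: bounded shifts (a Toeplitz form)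

For `x ∈ (m + t0, m + t0 + H0]` the window `|n - x| < H0` contains `m + h` for all `h ∈ T`.  Parseval on the points `j / R` gives
`∑_m ‖∑_h θ(h) fz f (m + h) 1_{|m + h - x| < H0}‖^2 = (1/R) ∑_j ‖Θ(j/R)‖^2 ‖Mw f x (2 H0) (j/R)‖^2`; integrate over `x`.
-/

set_option autoImplicit false

namespace Pool.Agent.H43.CH

open Finset MeasureTheory
open Pool.Agent.H91.PK (ee)
open Pool.Agent.H43.LM (Mw)

private lemma Toep_ee_add (s t : ℝ) : ee (s + t) = ee s * ee t := by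
  unfold ee
  rw [← Complex.exp_add]
  congr 1
  push_cast
  ring

private lemma Toep_conj_ee (t : ℝ) : (starRingEnd ℂ) (ee t) = ee (-t) := by
  unfold ee
  rw [← Complex.exp_conj]
  congr 1
  simp only [map_mul, Complex.conj_ofReal, Complex.conj_I, map_ofNat]
  push_cast
  ring

private lemma Toep_ee_nat (t : ℝ) (j : ℕ) : ee (j * t) = ee t ^ j := by
  unfold ee
  rw [← Complex.exp_nat_mul]
  congr 1
  push_cast
  ring

/-- geometric sums -/
private lemma Toep_geom {R : ℕ} (hR : 0 < R) (k : ℤ) (hk : ¬ (R : ℤ) ∣ k) :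
    ∑ j ∈ range R, ee ((k : ℝ) * ((j : ℝ) / R)) = 0 := by
  have hR' : (R : ℝ) ≠ 0 := by exact_mod_cast hR.ne'
  have h1 : ∀ j : ℕ, ee ((k : ℝ) * ((j : ℝ) / R)) = ee ((k : ℝ) / R) ^ j := by
    intro j
    rw [← Toep_ee_nat]
    congr 1
    field_simp
  rw [sum_congr rfl (fun j _ => h1 j)]
  have hne : ee ((k : ℝ) / R) ≠ 1 := by
    unfold ee
    intro h
    rw [Complex.exp_eq_one_iff] at h
    obtain ⟨n, hn⟩ := h
    apply hk
    refine ⟨n, ?_⟩
    have hRc : (R : ℂ) ≠ 0 := by exact_mod_cast hR.ne'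
    have hpi : (Real.pi : ℂ) ≠ 0 := by exact_mod_cast Real.pi_ne_zero
    have h2 : ((k : ℂ)) = R * n := by
      have h3 : (2 * Real.pi * Complex.I : ℂ) * ((k : ℂ) / R) = (2 * Real.pi * Complex.I) * n := by
        rw [mul_comm (2 * (Real.pi : ℂ) * Complex.I) (n : ℂ), ← hn]
        push_cast
        ring
      have h4 := mul_left_cancel₀ (mul_ne_zero (mul_ne_zero two_ne_zero hpi) Complex.I_ne_zero) h3
      field_simp at h4
      exact h4
    exact_mod_cast h2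
  have h2 : ee ((k : ℝ) / R) ^ R = 1 := by
    rw [← Toep_ee_nat, mul_div_cancel₀ _ hR']
    unfold ee
    rw [Complex.exp_eq_one_iff]
    exact ⟨k, by push_cast; ring⟩
  rw [geom_sum_eq hne, h2]
  simp

/-- Parseval on the points `j / R` -/
private lemma Toep_parseval {ι : Type*} {R : ℕ} (hR : 0 < R) (M : Finset ι) (φ : ι → ℤ)
    (hφ : ∀ m ∈ M, ∀ m' ∈ M, m ≠ m' → ¬ (R : ℤ) ∣ φ m - φ m') (c : ι → ℂ) :
    ∑ j ∈ range R, ‖∑ m ∈ M, c m * ee ((φ m : ℝ) * ((j : ℝ) / R))‖ ^ 2 = R * ∑ m ∈ M, ‖c m‖ ^ 2 := by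
  have key : ((∑ j ∈ range R, ‖∑ m ∈ M, c m * ee ((φ m : ℝ) * ((j : ℝ) / R))‖ ^ 2 : ℝ) : ℂ) =
      ((R * ∑ m ∈ M, ‖c m‖ ^ 2 : ℝ) : ℂ) := by
    push_cast
    have h1 : ∀ j : ℕ, ((‖∑ m ∈ M, c m * ee ((φ m : ℝ) * ((j : ℝ) / R))‖ : ℂ)) ^ 2 =
        ∑ m ∈ M, ∑ m' ∈ M, c m * (starRingEnd ℂ) (c m') * ee (((φ m - φ m' : ℤ) : ℝ) * ((j : ℝ) / R)) := by
      intro j
      rw [← Complex.mul_conj', map_sum, sum_mul_sum]
      refine sum_congr rfl (fun m _ => sum_congr rfl (fun m' _ => ?_))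
      rw [map_mul, Toep_conj_ee]
      have h2 : ee (((φ m - φ m' : ℤ) : ℝ) * ((j : ℝ) / R)) =
          ee ((φ m : ℝ) * ((j : ℝ) / R)) * ee (-((φ m' : ℝ) * ((j : ℝ) / R))) := by
        rw [← Toep_ee_add]
        congr 1
        push_cast
        ring
      rw [h2]
      ring
    rw [sum_congr rfl (fun j _ => h1 j), sum_comm, mul_sum]
    refine sum_congr rfl (fun m hm => ?_)
    rw [sum_comm, sum_eq_single_of_mem m hm]
    · have h3 : ∀ j : ℕ, ee (((φ m - φ m : ℤ) : ℝ) * ((j : ℝ) / R)) = 1 := by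
        intro j
        rw [sub_self]
        unfold ee
        simp
      rw [sum_congr rfl (fun j _ => by rw [h3 j])]
      rw [sum_const, card_range, nsmul_eq_mul, mul_one, Complex.mul_conj']
    · intro m' hm' hne
      rw [← mul_sum, Toep_geom hR _ (hφ m hm m' hm' hne.symm), mul_zero]
  exact_mod_cast key

/-- the cut function -/
private noncomputable def Toep_G (f : ℕ → ℝ) (H0 : ℕ) (x : ℝ) (z : ℤ) : ℝ :=
  if |(z : ℝ) - x| < H0 then fz f z else 0

private lemma Toep_G_zero {f : ℕ → ℝ} {N1 : ℕ} (hf : ∀ n, N1 < n → f n = 0) (H0 : ℕ) (x : ℝ) {z : ℤ}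
    (hz : z ∉ Icc (0 : ℤ) N1) : Toep_G f H0 x z = 0 := by
  unfold Toep_G fz
  split_ifs with h1 h2
  · rw [mem_Icc, not_and] at hz
    apply hf
    have := hz h2
    omega
  · rfl
  · rfl

private lemma Toep_mem_Win {H0 n : ℕ} {x : ℝ} :
    n ∈ Pool.Agent.H43.LM.Win x (2 * H0) ↔ |(n : ℝ) - x| < H0 := by
  unfold Pool.Agent.H43.LM.Win
  rw [mem_filter, mem_range, show (2 * (H0 : ℝ)) / 2 = H0 by ring]
  constructor
  · exact fun h => h.2
  · intro h
    refine ⟨?_, h⟩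
    have h1 : (n : ℝ) < x + H0 := by
      have := (abs_lt.1 h).2
      linarith
    have h2 := Nat.le_ceil (x + 2 * (H0 : ℝ))
    have h3 : (0 : ℝ) ≤ H0 := Nat.cast_nonneg _
    have h4 : (n : ℝ) < (⌈x + 2 * (H0 : ℝ)⌉₊ + 1 : ℕ) := by
      push_cast
      linarith
    exact_mod_cast h4

private lemma Toep_Mw (f : ℕ → ℝ) (H0 : ℕ) (x γ : ℝ) (M : Finset ℤ) (hM : ∀ z, z ∉ M → Toep_G f H0 x z = 0) :
    Mw f x (2 * H0) γ = ∑ z ∈ M, ((Toep_G f H0 x z : ℝ) : ℂ) * ee ((z : ℝ) * γ) := by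
  classical
  set A : Finset ℤ := (Pool.Agent.H43.LM.Win x (2 * H0)).map Nat.castEmbedding with hA
  have h1 : Mw f x (2 * H0) γ = ∑ z ∈ A, ((Toep_G f H0 x z : ℝ) : ℂ) * ee ((z : ℝ) * γ) := by
    rw [hA, sum_map]
    unfold Mw
    refine sum_congr rfl (fun n hn => ?_)
    have h2 := Toep_mem_Win.1 hn
    have h3 : Toep_G f H0 x (Nat.castEmbedding n) = f n := by
      unfold Toep_G fz
      rw [if_pos (by simpa using h2), if_pos (by simp)]
      simp
    rw [h3]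
    simp
  have h2 : ∀ z, z ∉ A → Toep_G f H0 x z = 0 := by
    intro z hz
    unfold Toep_G fz
    split_ifs with h3 h4
    · exfalso
      apply hz
      rw [hA, mem_map]
      refine ⟨z.toNat, ?_, ?_⟩
      · rw [Toep_mem_Win]
        have h5 : ((z.toNat : ℕ) : ℝ) = z := by
          have := Int.toNat_of_nonneg h4
          exact_mod_cast this
        rw [h5]
        exact h3
      · simpa using Int.toNat_of_nonneg h4
    · rfl
    · rfl
  rw [h1]
  have h3 : ∑ z ∈ A, ((Toep_G f H0 x z : ℝ) : ℂ) * ee ((z : ℝ) * γ) =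
      ∑ z ∈ A ∪ M, ((Toep_G f H0 x z : ℝ) : ℂ) * ee ((z : ℝ) * γ) := by
    apply sum_subset subset_union_left
    intro z _ hz
    rw [h2 z hz]
    simp
  have h4 : ∑ z ∈ M, ((Toep_G f H0 x z : ℝ) : ℂ) * ee ((z : ℝ) * γ) =
      ∑ z ∈ A ∪ M, ((Toep_G f H0 x z : ℝ) : ℂ) * ee ((z : ℝ) * γ) := by
    apply sum_subset subset_union_right
    intro z _ hz
    rw [hM z hz]
    simp
  rw [h3, h4]

private lemma Toep_int {f : ℕ → ℝ} {N1 : ℕ} (hf : ∀ n, N1 < n → f n = 0) (H0 : ℕ) (γ : ℝ) :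
    Integrable (fun x : ℝ => ‖Mw f x (2 * H0) γ‖ ^ 2) := by
  have h1 : (fun x : ℝ => Mw f x (2 * H0) γ) = fun x : ℝ => ∑ z ∈ Icc (0 : ℤ) N1,
      (Set.Ioo ((z : ℝ) - H0) (z + H0)).indicator (fun _ => ((fz f z : ℝ) : ℂ) * ee ((z : ℝ) * γ)) x := by
    funext x
    rw [Toep_Mw f H0 x γ (Icc (0 : ℤ) N1) (fun z hz => Toep_G_zero hf H0 x hz)]
    refine sum_congr rfl (fun z _ => ?_)
    by_cases h : |(z : ℝ) - x| < H0
    · rw [Set.indicator_of_mem]
      · unfold Toep_G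
        rw [if_pos h]
      · rw [abs_lt] at h
        exact ⟨by linarith [h.2], by linarith [h.1]⟩
    · rw [Set.indicator_of_notMem]
      · unfold Toep_G
        rw [if_neg h]
        simp
      · intro h2
        apply h
        rw [abs_lt]
        exact ⟨by linarith [h2.2], by linarith [h2.1]⟩
  have h2 : MemLp (fun x : ℝ => Mw f x (2 * H0) γ) 2 volume := by
    rw [h1]
    refine memLp_finset_sum _ (fun z _ => ?_)
    refine memLp_indicator_const _ measurableSet_Ioo _ (Or.inr ?_)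
    rw [Real.volume_Ioo]
    exact ENNReal.ofReal_ne_top
  exact h2.integrable_norm_pow (by norm_num)

theorem toep (f : ℕ → ℝ) (N1 H0 : ℕ) (hf : ∀ n, N1 < n → f n = 0) (hH : 1 ≤ H0) (Bd : ℝ)
    (hB : ∀ α : ℝ, ∫ x : ℝ, ‖Mw f x (2 * H0) α‖ ^ 2 ≤ Bd) (T W : Finset ℤ) (t0 : ℤ)
    (hT : ∀ h ∈ T, t0 < h ∧ h ≤ t0 + H0) (θ : ℤ → ℂ) :
    ∑ n ∈ W, ‖∑ h ∈ T, θ h * ((fz f (n + h) : ℝ) : ℂ)‖ ^ 2 ≤ (∑ h ∈ T, ‖θ h‖ ^ 2) * (Bd / H0) := by
  classical
  set K : ℕ := N1 + t0.natAbs + H0 + ∑ w ∈ W, w.natAbs with hK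
  set M : Finset ℤ := Icc (-(K : ℤ)) K with hM
  set R : ℕ := 2 * K + 1 with hR
  have hR0 : 0 < R := by omega
  have hRr : (0 : ℝ) < R := by exact_mod_cast hR0
  have hHr : (0 : ℝ) < H0 := by exact_mod_cast (by omega : 0 < H0)
  have hWM : W ⊆ M := by
    intro w hw
    have h1 := single_le_sum (f := fun w : ℤ => w.natAbs) (fun _ _ => Nat.zero_le _) hw
    rw [hM, mem_Icc]
    omega
  have hdiv : ∀ d : ℤ, |d| ≤ 2 * K → d ≠ 0 → ¬ (R : ℤ) ∣ d := by
    intro d h1 h2 h3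
    apply h2
    apply Int.eq_zero_of_abs_lt_dvd h3
    rw [hR]
    push_cast
    omega
  set Th : ℕ → ℂ := fun j => ∑ h ∈ T, θ h * ee (((-h : ℤ) : ℝ) * ((j : ℝ) / R)) with hTh
  have hThsum : ∑ j ∈ range R, ‖Th j‖ ^ 2 = R * ∑ h ∈ T, ‖θ h‖ ^ 2 := by
    refine Toep_parseval hR0 T (fun h => -h) ?_ θ
    intro h hh h' hh' hne
    apply hdiv
    · have h1 := hT h hh
      have h2 := hT h' hh'
      rw [abs_le]
      omega
    · intro h1
      apply hne
      omega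
  -- the pointwise identity
  have hpt : ∀ x : ℝ, R * ∑ m ∈ M, ‖∑ h ∈ T, θ h * ((Toep_G f H0 x (m + h) : ℝ) : ℂ)‖ ^ 2 =
      ∑ j ∈ range R, ‖Th j‖ ^ 2 * ‖Mw f x (2 * H0) ((j : ℝ) / R)‖ ^ 2 := by
    intro x
    rw [← Toep_parseval hR0 M (fun m => m) (by
      intro m hm m' hm' hne
      rw [hM, mem_Icc] at hm hm'
      apply hdiv
      · rw [abs_le]
        omega
      · intro h1
        apply hne
        omega) (fun m => ∑ h ∈ T, θ h * ((Toep_G f H0 x (m + h) : ℝ) : ℂ))]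
    refine sum_congr rfl (fun j _ => ?_)
    rw [← mul_pow, ← norm_mul]
    congr 2
    have h1 : ∀ h ∈ T, ∑ m ∈ M, ((Toep_G f H0 x (m + h) : ℝ) : ℂ) * ee (((m + h : ℤ) : ℝ) * ((j : ℝ) / R)) =
        Mw f x (2 * H0) ((j : ℝ) / R) := by
      intro h hh
      have h2 := hT h hh
      rw [Toep_Mw f H0 x ((j : ℝ) / R) (M.map (Equiv.addRight h).toEmbedding), sum_map]
      · rfl
      · intro z hz
        apply Toep_G_zero hf
        intro h3
        apply hz
        rw [mem_map]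
        rw [mem_Icc] at h3
        refine ⟨z - h, ?_, by simp⟩
        rw [hM, mem_Icc]
        omega
    rw [hTh]
    simp only
    rw [sum_mul]
    simp only [sum_mul]
    rw [sum_comm]
    refine sum_congr rfl (fun h hh => ?_)
    rw [← h1 h hh, mul_sum]
    refine sum_congr rfl (fun m _ => ?_)
    have h4 : ee ((m : ℝ) * ((j : ℝ) / R)) =
        ee (((-h : ℤ) : ℝ) * ((j : ℝ) / R)) * ee (((m + h : ℤ) : ℝ) * ((j : ℝ) / R)) := by
      rw [← Toep_ee_add]
      congr 1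
      push_cast
      ring
    rw [h4]
    ring
  -- the pointwise inequality
  have hineq : ∀ x : ℝ, ∑ m ∈ W, (Set.Ioc ((m : ℝ) + t0) (m + t0 + H0)).indicator
      (fun _ => ‖∑ h ∈ T, θ h * ((fz f (m + h) : ℝ) : ℂ)‖ ^ 2) x ≤
      ∑ j ∈ range R, (‖Th j‖ ^ 2 / R) * ‖Mw f x (2 * H0) ((j : ℝ) / R)‖ ^ 2 := by
    intro x
    have h1 : ∑ j ∈ range R, (‖Th j‖ ^ 2 / R) * ‖Mw f x (2 * H0) ((j : ℝ) / R)‖ ^ 2 =
        ∑ m ∈ M, ‖∑ h ∈ T, θ h * ((Toep_G f H0 x (m + h) : ℝ) : ℂ)‖ ^ 2 := by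
      have h2 : ∑ j ∈ range R, (‖Th j‖ ^ 2 / R) * ‖Mw f x (2 * H0) ((j : ℝ) / R)‖ ^ 2 =
          (∑ j ∈ range R, ‖Th j‖ ^ 2 * ‖Mw f x (2 * H0) ((j : ℝ) / R)‖ ^ 2) / R := by
        rw [sum_div]
        exact sum_congr rfl (fun j _ => by ring)
      rw [h2, ← hpt x, mul_div_cancel_left₀ _ hRr.ne']
    rw [h1]
    refine le_trans (sum_le_sum (fun m _ => ?_)) (sum_le_sum_of_subset_of_nonneg hWM (fun m _ _ => sq_nonneg _))
    by_cases hx : x ∈ Set.Ioc ((m : ℝ) + t0) (m + t0 + H0)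
    · rw [Set.indicator_of_mem hx]
      apply le_of_eq
      congr 2
      refine sum_congr rfl (fun h hh => ?_)
      have h2 := hT h hh
      have h3 : |((m + h : ℤ) : ℝ) - x| < H0 := by
        have h4 : ((t0 + 1 : ℤ) : ℝ) ≤ h := by exact_mod_cast h2.1
        have h5 : (h : ℝ) ≤ ((t0 + H0 : ℤ) : ℝ) := by exact_mod_cast h2.2
        push_cast at h4 h5 ⊢
        rw [abs_lt]
        exact ⟨by linarith [hx.2], by linarith [hx.1]⟩
      unfold Toep_G
      rw [if_pos h3]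
    · rw [Set.indicator_of_notMem hx]
      exact sq_nonneg _
  have hint1 : ∀ m ∈ W, Integrable ((Set.Ioc ((m : ℝ) + t0) (m + t0 + H0)).indicator
      (fun _ => ‖∑ h ∈ T, θ h * ((fz f (m + h) : ℝ) : ℂ)‖ ^ 2)) := by
    intro m _
    rw [integrable_indicator_iff measurableSet_Ioc]
    refine integrableOn_const (by rw [Real.volume_Ioc]; exact ENNReal.ofReal_ne_top) (by simp)
  have hint2 : ∀ j ∈ range R, Integrable (fun x : ℝ => (‖Th j‖ ^ 2 / R) * ‖Mw f x (2 * H0) ((j : ℝ) / R)‖ ^ 2) :=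
    fun j _ => (Toep_int hf H0 _).const_mul _
  have hmono := integral_mono (integrable_finset_sum W hint1) (integrable_finset_sum (range R) hint2) hineq
  rw [integral_finset_sum W hint1, integral_finset_sum (range R) hint2] at hmono
  have hL : ∀ m ∈ W, ∫ x : ℝ, (Set.Ioc ((m : ℝ) + t0) (m + t0 + H0)).indicator
      (fun _ => ‖∑ h ∈ T, θ h * ((fz f (m + h) : ℝ) : ℂ)‖ ^ 2) x =
      H0 * ‖∑ h ∈ T, θ h * ((fz f (m + h) : ℝ) : ℂ)‖ ^ 2 := by
    intro m _
    rw [integral_indicator_const _ measurableSet_Ioc, Real.volume_real_Ioc_of_le (by linarith), smul_eq_mul]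
    ring
  rw [sum_congr rfl hL, ← mul_sum] at hmono
  have hRsum : ∑ j ∈ range R, ∫ x : ℝ, (‖Th j‖ ^ 2 / R) * ‖Mw f x (2 * H0) ((j : ℝ) / R)‖ ^ 2 ≤
      (∑ h ∈ T, ‖θ h‖ ^ 2) * Bd := by
    have h1 : ∀ j ∈ range R, ∫ x : ℝ, (‖Th j‖ ^ 2 / R) * ‖Mw f x (2 * H0) ((j : ℝ) / R)‖ ^ 2 ≤
        (‖Th j‖ ^ 2 / R) * Bd := by
      intro j _
      rw [integral_const_mul]
      exact mul_le_mul_of_nonneg_left (hB _) (by positivity)
    refine (sum_le_sum h1).trans (le_of_eq ?_)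
    rw [← sum_mul, ← sum_div, hThsum, mul_div_cancel_left₀ _ hRr.ne']
  have hfin := hmono.trans hRsum
  rw [← mul_div_assoc, le_div_iff₀ hHr]
  linarith

end Pool.Agent.H43.CH

end

section

/-!
# CH AvA: correlations with a function of small mean squares, on average over the shift

Proof.  `θ(h) = ±1` the sign of `∑_n fz f (n+h) G n`, exchange the sums, Cauchy-Schwarz in `n ∈ W`, `toep` (`∑ ‖θ‖^2 = #T`).
Second statement (shift on the other factor; `f` vanishes outside `Ioc U V`): substitute `m = n + h`: `∑_{n ∈ Ioc U V} f(n) G(n + h) = ∑_{m ∈ W'} fz f (m - h) G(m)`, `W'` = the integers of `(U + t0, V + t0 + H0]`, and the first statement with `T' = {-h : h ∈ T}`, `t0' = -t0 - H0 - 1`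
(so `H0 + 1`?: `-h ∈ [-t0 - H0, -t0 - 1]`, that is `t0' = -t0 - H0 - 1 < -h ≤ t0' + H0`).
-/

set_option autoImplicit false

namespace Pool.Agent.H43.CH

open Finset MeasureTheory
open Pool.Agent.H43.LM (Mw)

theorem av_a (f : ℕ → ℝ) (N1 H0 : ℕ) (hf : ∀ n, N1 < n → f n = 0) (hH : 1 ≤ H0) (Bd : ℝ)
    (hB : ∀ α : ℝ, ∫ x : ℝ, ‖Mw f x (2 * H0) α‖ ^ 2 ≤ Bd) (T W : Finset ℤ) (t0 : ℤ)
    (hT : ∀ h ∈ T, t0 < h ∧ h ≤ t0 + H0) (G : ℤ → ℝ) (M : ℝ) (hM : 0 ≤ M) (hG : ∀ n ∈ W, |G n| ≤ M) :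
    ∑ h ∈ T, |∑ n ∈ W, fz f (n + h) * G n| ≤ M * Real.sqrt ((W.card : ℝ) * T.card * (Bd / H0)) := by
  classical
  set a : ℤ → ℝ := fun h => ∑ n ∈ W, fz f (n + h) * G n with ha
  set s : ℤ → ℝ := fun h => if 0 ≤ a h then 1 else -1 with hs
  have hsa : ∀ h, |a h| = s h * a h := by
    intro h
    simp only [hs]
    split_ifs with h0
    · rw [abs_of_nonneg h0, one_mul]
    · rw [abs_of_neg (lt_of_not_ge h0)]
      ring
  have hs1 : ∀ h, ‖((s h : ℝ) : ℂ)‖ ^ 2 = 1 := by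
    intro h
    rw [Complex.norm_real, Real.norm_eq_abs]
    simp only [hs]
    split_ifs <;> norm_num
  set S : ℤ → ℝ := fun n => ∑ h ∈ T, s h * fz f (n + h) with hS
  have hBd : 0 ≤ Bd := by
    refine le_trans ?_ (hB 0)
    exact integral_nonneg (fun x => by positivity)
  have hHr : (0 : ℝ) < H0 := by exact_mod_cast (by omega : 0 < H0)
  have h1 : ∑ h ∈ T, |a h| = ∑ n ∈ W, G n * S n := by
    calc ∑ h ∈ T, |a h| = ∑ h ∈ T, ∑ n ∈ W, s h * (fz f (n + h) * G n) := by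
          refine sum_congr rfl (fun h _ => ?_)
          rw [hsa h]
          simp only [ha]
          rw [mul_sum]
      _ = ∑ n ∈ W, ∑ h ∈ T, s h * (fz f (n + h) * G n) := sum_comm
      _ = ∑ n ∈ W, G n * S n := by
          refine sum_congr rfl (fun n _ => ?_)
          simp only [hS]
          rw [mul_sum]
          exact sum_congr rfl (fun h _ => by ring)
  have h2 : ∑ n ∈ W, G n * S n ≤ M * ∑ n ∈ W, |S n| := by
    rw [mul_sum]
    refine sum_le_sum (fun n hn => ?_)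
    calc G n * S n ≤ |G n * S n| := le_abs_self _
      _ = |G n| * |S n| := abs_mul _ _
      _ ≤ M * |S n| := mul_le_mul_of_nonneg_right (hG n hn) (abs_nonneg _)
  have h3 : (∑ n ∈ W, |S n|) ^ 2 ≤ (W.card : ℝ) * ∑ n ∈ W, |S n| ^ 2 := sq_sum_le_card_mul_sum_sq
  have h4 : ∑ n ∈ W, |S n| ^ 2 ≤ (T.card : ℝ) * (Bd / H0) := by
    have ht := toep f N1 H0 hf hH Bd hB T W t0 hT (fun h => ((s h : ℝ) : ℂ))
    have e1 : ∀ n : ℤ, ‖∑ h ∈ T, ((s h : ℝ) : ℂ) * ((fz f (n + h) : ℝ) : ℂ)‖ ^ 2 = |S n| ^ 2 := by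
      intro n
      have : (∑ h ∈ T, ((s h : ℝ) : ℂ) * ((fz f (n + h) : ℝ) : ℂ)) = ((S n : ℝ) : ℂ) := by
        simp only [hS]
        push_cast
        rfl
      rw [this, Complex.norm_real, Real.norm_eq_abs]
    rw [sum_congr rfl (fun n _ => e1 n), sum_congr rfl (fun h _ => hs1 h), sum_const, nsmul_eq_mul, mul_one] at ht
    exact ht
  have h5 : ∑ n ∈ W, |S n| ≤ Real.sqrt ((W.card : ℝ) * T.card * (Bd / H0)) := by
    refine Real.le_sqrt_of_sq_le ?_
    refine h3.trans ?_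
    rw [mul_assoc]
    exact mul_le_mul_of_nonneg_left h4 (Nat.cast_nonneg _)
  calc ∑ h ∈ T, |a h| = ∑ n ∈ W, G n * S n := h1
    _ ≤ M * ∑ n ∈ W, |S n| := h2
    _ ≤ _ := mul_le_mul_of_nonneg_left h5 hM

theorem av_b (f : ℕ → ℝ) (U V H0 : ℕ) (hf : ∀ n, n ∉ Ioc U V → f n = 0) (hH : 1 ≤ H0) (Bd : ℝ)
    (hB : ∀ α : ℝ, ∫ x : ℝ, ‖Mw f x (2 * H0) α‖ ^ 2 ≤ Bd) (T : Finset ℕ) (t0 : ℕ)
    (hT : ∀ h ∈ T, t0 < h ∧ h ≤ t0 + H0) (G : ℕ → ℝ) (M : ℝ) (hM : 0 ≤ M) (hG : ∀ n, n ≤ V + t0 + H0 → |G n| ≤ M) :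
    ∑ h ∈ T, |∑ n ∈ Ioc U V, f n * G (n + h)| ≤ M * Real.sqrt (((V : ℝ) + H0) * T.card * (Bd / H0)) := by
  classical
  have hBd : 0 ≤ Bd := by
    refine le_trans ?_ (hB 0)
    exact integral_nonneg (fun x => by positivity)
  have hHr : (0 : ℝ) < H0 := by exact_mod_cast (by omega : 0 < H0)
  set W : Finset ℤ := Ioc ((U : ℤ) + t0) ((V : ℤ) + t0 + H0) with hW
  set T' : Finset ℤ := T.image (fun h : ℕ => -(h : ℤ)) with hT'
  have hinj : Set.InjOn (fun h : ℕ => -(h : ℤ)) (T : Set ℕ) := by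
    intro x _ y _ hxy
    have : (x : ℤ) = y := neg_injective hxy
    exact_mod_cast this
  have hcardT : T'.card = T.card := by
    rw [hT']
    exact card_image_of_injOn hinj
  have hcardW : (W.card : ℝ) ≤ (V : ℝ) + H0 := by
    rw [hW, Int.card_Ioc]
    have h1 : ((V : ℤ) + t0 + H0 - ((U : ℤ) + t0)).toNat ≤ V + H0 := by omega
    calc ((((V : ℤ) + t0 + H0 - ((U : ℤ) + t0)).toNat : ℕ) : ℝ) ≤ ((V + H0 : ℕ) : ℝ) := by exact_mod_cast h1
      _ = (V : ℝ) + H0 := by push_cast; ring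
  have key := av_a f V H0 (fun n hn => hf n (by simp only [mem_Ioc]; omega)) hH Bd hB T' W (-(t0 : ℤ) - H0 - 1)
    (by
      intro h hh
      rw [hT', mem_image] at hh
      obtain ⟨k, hk, rfl⟩ := hh
      have := hT k hk
      constructor <;> omega)
    (fun z => G z.toNat) M hM
    (by
      intro n hn
      rw [hW, mem_Ioc] at hn
      exact hG _ (by omega))
  have hinner : ∀ h ∈ T, ∑ n ∈ W, fz f (n + (-(h : ℤ))) * G n.toNat = ∑ n ∈ Ioc U V, f n * G (n + h) := by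
    intro h hh
    have hTh := hT h hh
    symm
    have e1 : ∑ n ∈ Ioc U V, f n * G (n + h) =
        ∑ z ∈ (Ioc U V).image (fun n : ℕ => (n : ℤ) + h), fz f (z + (-(h : ℤ))) * G z.toNat := by
      rw [sum_image]
      · refine sum_congr rfl (fun n _ => ?_)
        have e2 : ((n : ℤ) + h) + (-(h : ℤ)) = n := by ring
        rw [e2]
        have e3 : ((n : ℤ) + h).toNat = n + h := by omega
        rw [e3]
        unfold fz
        rw [if_pos (by omega)]
        simp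
      · intro x _ y _ hxy
        have : (x : ℤ) = y := by
          have := hxy
          simp only at this
          linarith
        exact_mod_cast this
    rw [e1]
    refine sum_subset ?_ ?_
    · intro z hz
      rw [mem_image] at hz
      obtain ⟨n, hn, rfl⟩ := hz
      rw [mem_Ioc] at hn
      rw [hW, mem_Ioc]
      constructor <;> omega
    · intro z _ hz
      have : fz f (z + (-(h : ℤ))) = 0 := by
        unfold fz
        split_ifs with h0
        · refine hf _ (fun hmem => hz ?_)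
          rw [mem_image]
          refine ⟨(z + -(h : ℤ)).toNat, hmem, ?_⟩
          omega
        · rfl
      rw [this, zero_mul]
  have hsum : ∑ h ∈ T', |∑ n ∈ W, fz f (n + h) * G n.toNat| = ∑ h ∈ T, |∑ n ∈ Ioc U V, f n * G (n + h)| := by
    rw [hT', sum_image (fun x hx y hy hxy => hinj hx hy hxy)]
    exact sum_congr rfl (fun h hh => by rw [hinner h hh])
  rw [← hsum]
  refine key.trans ?_
  refine mul_le_mul_of_nonneg_left ?_ hM
  refine Real.sqrt_le_sqrt ?_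
  rw [hcardT]
  have : 0 ≤ Bd / H0 := div_nonneg hBd hHr.le
  exact mul_le_mul_of_nonneg_right (mul_le_mul_of_nonneg_right hcardW (Nat.cast_nonneg _)) this

end Pool.Agent.H43.CH

end

section

/-!
# CH Cd2: two point correlations along multiples, all lengths `H`

As `Ch2.lean` with `Sp` in place of `Split`: `cd0 (4B + 20) (B + 1) δ (ε/2)` (or similar parameters) gives `C1`.  Case `Real.log H < C1 loglog X`: trivial: the sum is `≤ H X`, and `sav ≥ 1/C1`.  Otherwise `H0 = H`: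
(i), (ii) of `Ch2.lean` give `≤ H X/L^2 ≤ H X sav^2` (`sav ≥ L^{δ-1} ≥ L^{-1}`);
(iii) `∑_n |b(n)| ∑_q |b(n + q d)| ≤ H τ ∑_{n ∈ Ioc X (2X)} |b n| ≤ H τ · X τ` (`sv` with `d`, length `H`; then with `d = 1`, `n0 = 0`, `q0 = X`, `H := X`), `τ = C1 sav`.
-/

set_option autoImplicit false

namespace Pool.Agent.H43.CH

open Finset MeasureTheory
open Pool.Agent.H43.LM (mu)

private lemma Cd2_sqrt (A B : ℕ) (hA : A = 4 * B + 20) (L c X W H d : ℝ) (hL : 1 ≤ L) (hX : 0 ≤ X)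
    (hH : 0 < H) (hd : 0 < d) (hdL : d ≤ L ^ B) (hc : 0 ≤ c) (hW : 4 * W ≤ c ^ 2 * X) :
    Real.sqrt (W * H * (X * (2 * (H * d)) ^ 2 / L ^ A / (H * d))) ≤ c * (H * X) / L ^ 10 := by
  have hL0 : 0 < L := by linarith only [hL]
  have e1 : W * H * (X * (2 * (H * d)) ^ 2 / L ^ A / (H * d)) = (4 * W) * X * H ^ 2 * (d / L ^ A) := by
    field_simp
    ring
  have h1 : d / L ^ A ≤ 1 / L ^ 20 := by
    rw [div_le_div_iff₀ (by positivity) (by positivity), hA, pow_add, one_mul]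
    apply mul_le_mul_of_nonneg_right _ (by positivity)
    exact hdL.trans (pow_le_pow_right₀ hL (by omega))
  have h2 : (4 * W) * X * H ^ 2 * (d / L ^ A) ≤ (c * (H * X) / L ^ 10) ^ 2 := by
    calc (4 * W) * X * H ^ 2 * (d / L ^ A) ≤ (c ^ 2 * X) * X * H ^ 2 * (1 / L ^ 20) := by
          gcongr
      _ = (c * (H * X) / L ^ 10) ^ 2 := by
          field_simp
  rw [e1]
  exact (Real.sqrt_le_sqrt h2).trans (by rw [Real.sqrt_sq (by positivity)])

theorem cd2_h (h_cd0 : cd0_P) (B : ℕ) (δ ε : ℝ) (hδ : 0 < δ) (hδ1 : δ < 1) (hε : 0 < ε) (hε1 : ε < 1) : ∃ (C : ℝ) (X0 : ℕ), 1 ≤ C ∧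
    ∀ X : ℕ, X0 ≤ X → ∀ H q0 d : ℕ, 2 ≤ H → ((q0 + H : ℕ) : ℝ) ≤ (X : ℝ) ^ (1 - ε) → 1 ≤ d → (d : ℝ) ≤ Real.log X ^ B →
      ∑ q ∈ Ioc q0 (q0 + H), |∑ n ∈ Ioc X (2 * X), mu n * mu (n + q * d)|
        ≤ C * H * X * sav X H δ ^ 2 := by
  obtain ⟨C1, hC1, X1, h1⟩ := h_cd0 (4 * B + 20) (B + 1) δ (ε / 2) hδ hδ1
    (by linarith only [hε]) (by linarith only [hδ, hδ1, hε1])
  have ev1 : ∀ᶠ X : ℕ in Filter.atTop, 3 ≤ Real.log X :=
    (Real.tendsto_log_atTop.comp tendsto_natCast_atTop_atTop).eventually_ge_atTop _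
  have ev2 : ∀ᶠ X : ℕ in Filter.atTop, Real.log X ^ B ≤ (X : ℝ) ^ ε := by
    have h := (isLittleO_log_rpow_rpow_atTop (B : ℝ) hε).bound (c := 1) one_pos
    have h' := tendsto_natCast_atTop_atTop.eventually h
    filter_upwards [h', Filter.eventually_ge_atTop 1] with X hX hX1
    have hX0 : (0 : ℝ) ≤ Real.log X := Real.log_nonneg (by exact_mod_cast hX1)
    rw [Real.rpow_natCast, Real.norm_of_nonneg (by positivity), one_mul,
      Real.norm_of_nonneg (by positivity)] at hX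
    exact hX
  obtain ⟨X2, h2⟩ := Filter.eventually_atTop.1 (ev1.and (ev2.and (Filter.eventually_ge_atTop 1)))
  refine ⟨C1 ^ 2 + 1, max X1 X2, by nlinarith only, fun X hX H q0 d hH2 hHu hd hdL => ?_⟩
  obtain ⟨hL3, hLX, hX1⟩ := h2 X ((le_max_right _ _).trans hX)
  set L : ℝ := Real.log X with hLdef
  have hL0 : 0 < L := by linarith only [hδ, hδ1, hL3]
  have hL1 : 1 ≤ L := by linarith only [hδ, hδ1, hL3]
  have hL2 : 2 ≤ L := by linarith
  have hXr : (1 : ℝ) ≤ X := by exact_mod_cast hX1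
  have hX0 : (0 : ℝ) < X := by linarith only [hδ, hδ1, hXr]
  have hdr : (1 : ℝ) ≤ d := by exact_mod_cast hd
  have hH2r : (2 : ℝ) ≤ H := by exact_mod_cast hH2
  have hH0 : (0 : ℝ) < H := by linarith only [hδ, hδ1, hH2r]
  have hHpos : 0 < H := by omega
  have hlH : 0 < Real.log H := Real.log_pos (by linarith only [hδ, hδ1, hH2r])
  have hLL : 0 ≤ Real.log L := Real.log_nonneg hL1
  have hsavdef : sav X H δ = Real.log L / Real.log H + L ^ (δ - 1) := rfl
  have hq1 : 0 ≤ Real.log L / Real.log H := by positivity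
  have hq2 : 0 ≤ L ^ (δ - 1) := by positivity
  have hsav0 : 0 ≤ sav X H δ := by rw [hsavdef]; linarith only [hq1, hq2]
  by_cases hcase : C1 * Real.log L ≤ Real.log H
  swap
  · -- the trivial case
    rw [not_le] at hcase
    have t1 : 1 / C1 ≤ sav X H δ := by
      have : 1 / C1 ≤ Real.log L / Real.log H := by
        rw [div_le_div_iff₀ (by linarith only [hδ, hδ1, hC1]) hlH]
        linarith only [hcase]
      rw [hsavdef]
      linarith only [hq2, this]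
    have t2 : 1 ≤ (C1 ^ 2 + 1) * sav X H δ ^ 2 := by
      have h3 : 1 ≤ C1 * sav X H δ := by
        have := mul_le_mul_of_nonneg_left t1 (show 0 ≤ C1 by linarith only [hδ, hδ1, hC1])
        rwa [mul_one_div_cancel (by linarith only [hδ, hδ1, hC1] : C1 ≠ 0)] at this
      have h4 : 1 ≤ (C1 * sav X H δ) ^ 2 := one_le_pow₀ h3
      nlinarith only [h4, sq_nonneg (sav X H δ)]
    have t3 : ∑ q ∈ Ioc q0 (q0 + H), |∑ n ∈ Ioc X (2 * X), mu n * mu (n + q * d)| ≤ H * X := by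
      have u1 : ∀ q ∈ Ioc q0 (q0 + H), |∑ n ∈ Ioc X (2 * X), mu n * mu (n + q * d)| ≤ X := by
        intro q _
        refine (abs_sum_le_sum_abs _ _).trans ?_
        have u2 : ∀ n ∈ Ioc X (2 * X), |mu n * mu (n + q * d)| ≤ 1 := by
          intro n _
          rw [abs_mul]
          exact mul_le_one₀ (Pool.Agent.H43.LM.mu_abs_le _) (abs_nonneg _) (Pool.Agent.H43.LM.mu_abs_le _)
        refine (sum_le_sum u2).trans ?_
        rw [sum_const, Nat.card_Ioc, nsmul_eq_mul, mul_one]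
        have : 2 * X - X = X := by omega
        rw [this]
      refine (sum_le_sum u1).trans ?_
      rw [sum_const, Nat.card_Ioc, nsmul_eq_mul]
      have : q0 + H - q0 = H := by omega
      rw [this]
    calc _ ≤ (H : ℝ) * X := t3
      _ = (H * X) * 1 := by ring
      _ ≤ (H * X) * ((C1 ^ 2 + 1) * sav X H δ ^ 2) := by gcongr
      _ = (C1 ^ 2 + 1) * H * X * sav X H δ ^ 2 := by ring
  obtain ⟨a, ha⟩ := h1 X ((le_max_left _ _).trans hX) H hcase
  -- sizes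
  have hsz : ((q0 + H : ℕ) : ℝ) * d ≤ X := by
    calc ((q0 + H : ℕ) : ℝ) * d ≤ (X : ℝ) ^ (1 - ε) * (X : ℝ) ^ ε :=
          mul_le_mul hHu (hdL.trans hLX) (by positivity) (by positivity)
      _ = X := by
          rw [← Real.rpow_add hX0]
          simp
  have hszn : (q0 + H) * d ≤ X := by exact_mod_cast hsz
  have hqd : ∀ q ∈ Ioc q0 (q0 + H), q0 * d < q * d ∧ q * d ≤ q0 * d + H * d ∧ q * d ≤ X := by
    intro q hq
    rw [mem_Ioc] at hq
    have h3 : q * d ≤ (q0 + H) * d := Nat.mul_le_mul_right d hq.2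
    refine ⟨Nat.mul_lt_mul_of_pos_right hq.1 (by omega), ?_, h3.trans hszn⟩
    rwa [← Nat.add_mul]
  have hHd1 : H ≤ H * d := Nat.le_mul_of_pos_right H (by omega)
  have hHd2 : ((H * d : ℕ) : ℝ) ≤ (X : ℝ) ^ (1 - ε / 2) * L ^ (B + 1) := by
    push_cast
    have e1 : (H : ℝ) ≤ (X : ℝ) ^ (1 - ε / 2) := by
      calc (H : ℝ) ≤ ((q0 + H : ℕ) : ℝ) := by push_cast; linarith only [(Nat.cast_nonneg q0 : (0:ℝ) ≤ q0)]
        _ ≤ (X : ℝ) ^ (1 - ε) := hHu
        _ ≤ (X : ℝ) ^ (1 - ε / 2) := Real.rpow_le_rpow_of_exponent_le hXr (by linarith only [hε])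
    have e2 : (d : ℝ) ≤ L ^ (B + 1) := hdL.trans (pow_le_pow_right₀ hL1 (by omega))
    exact mul_le_mul e1 e2 (by positivity) (by positivity)
  have hHle : (H * d : ℕ) ≤ X := (Nat.mul_le_mul_right d (Nat.le_add_left H q0)).trans hszn
  set b : ℕ → ℝ := fun n => mu n - a n with hb
  -- decomposition
  have hdec : ∀ q ∈ Ioc q0 (q0 + H), |∑ n ∈ Ioc X (2 * X), mu n * mu (n + q * d)| ≤
      |∑ n ∈ Ioc X (2 * X), mu n * a (n + q * d)| + |∑ n ∈ Ioc X (2 * X), a n * b (n + q * d)| +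
        ∑ n ∈ Ioc X (2 * X), |b n| * |b (n + q * d)| := by
    intro q _
    have e : ∑ n ∈ Ioc X (2 * X), mu n * mu (n + q * d) = ∑ n ∈ Ioc X (2 * X), mu n * a (n + q * d) +
        ∑ n ∈ Ioc X (2 * X), a n * b (n + q * d) + ∑ n ∈ Ioc X (2 * X), b n * b (n + q * d) := by
      rw [← sum_add_distrib, ← sum_add_distrib]
      apply sum_congr rfl
      intro n _
      simp only [hb]
      ring
    rw [e]
    refine (abs_add_le _ _).trans (add_le_add (abs_add_le _ _) ?_)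
    refine (abs_sum_le_sum_abs _ _).trans (le_of_eq ?_)
    apply sum_congr rfl
    intro n _
    rw [abs_mul]
  -- (i)
  have p1 : ∑ q ∈ Ioc q0 (q0 + H), |∑ n ∈ Ioc X (2 * X), mu n * a (n + q * d)| ≤
      2 * (H * X) / L ^ 10 := by
    have hms := fun α : ℝ => ha.ms X (4 * X) (H * d) α le_rfl le_rfl hHd1 hHd2
    have hinj : Set.InjOn (fun q : ℕ => ((q * d : ℕ) : ℤ)) (Ioc q0 (q0 + H) : Finset ℕ) := by
      intro x _ y _ hxy
      have hxy' : ((x * d : ℕ) : ℤ) = ((y * d : ℕ) : ℤ) := hxy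
      exact Nat.eq_of_mul_eq_mul_right (by omega) (Nat.cast_injective hxy')
    have hcast : Set.InjOn (fun n : ℕ => (n : ℤ)) (Ioc X (2 * X) : Finset ℕ) :=
      fun x _ y _ hxy => Nat.cast_injective hxy
    have h := av_a (cutf a X (4 * X)) (4 * X) (H * d)
      (fun n hn => by
        rw [cutf, if_neg]
        rw [mem_Ioc]
        omega) (Nat.mul_pos hHpos (by omega)) _ hms
      ((Ioc q0 (q0 + H)).image (fun q : ℕ => ((q * d : ℕ) : ℤ)))
      ((Ioc X (2 * X)).image (fun n : ℕ => (n : ℤ))) ((q0 * d : ℕ) : ℤ)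
      (fun h hh => by
        rw [mem_image] at hh
        obtain ⟨q, hq, rfl⟩ := hh
        obtain ⟨c1, c2, _⟩ := hqd q hq
        exact ⟨by exact_mod_cast c1, by exact_mod_cast c2⟩)
      (fun n => mu n.toNat) 1 zero_le_one (fun n _ => Pool.Agent.H43.LM.mu_abs_le _)
    rw [sum_image hinj, card_image_of_injOn hinj, card_image_of_injOn hcast] at h
    simp only [sum_image hcast, Nat.card_Ioc] at h
    have e1 : ∀ q ∈ Ioc q0 (q0 + H), |∑ n ∈ Ioc X (2 * X), mu n * a (n + q * d)| =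
        |∑ n ∈ Ioc X (2 * X), fz (cutf a X (4 * X)) ((n : ℤ) + ((q * d : ℕ) : ℤ)) *
          mu ((n : ℤ).toNat)| := by
      intro q hq
      congr 1
      apply sum_congr rfl
      intro n hn
      rw [mem_Ioc] at hn
      obtain ⟨_, _, c3⟩ := hqd q hq
      have e2 : (n : ℤ) + ((q * d : ℕ) : ℤ) = ((n + q * d : ℕ) : ℤ) := by push_cast; ring
      rw [e2, fz, if_pos (by positivity), Int.toNat_natCast, Int.toNat_natCast, cutf, if_pos, mul_comm]
      rw [mem_Ioc]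
      omega
    rw [sum_congr rfl e1]
    refine h.trans ?_
    rw [one_mul]
    have c1 : ((2 * X - X : ℕ) : ℝ) = X := by
      congr 1
      omega
    have c2 : ((q0 + H - q0 : ℕ) : ℝ) = H := by
      congr 1
      omega
    rw [c1, c2]
    push_cast
    exact Cd2_sqrt (4 * B + 20) B rfl L 2 X X H d hL1 hX0.le hH0 (by linarith only [hδ, hδ1, hdr]) hdL
      (by norm_num) (by linarith only)
  -- (ii)
  have p2 : ∑ q ∈ Ioc q0 (q0 + H), |∑ n ∈ Ioc X (2 * X), a n * b (n + q * d)| ≤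
      (5 * L) * (4 * (H * X) / L ^ 10) := by
    have hms := fun α : ℝ => ha.ms X (2 * X) (H * d) α le_rfl (by omega) hHd1 hHd2
    have hinj : Set.InjOn (fun q : ℕ => q * d) (Ioc q0 (q0 + H) : Finset ℕ) :=
      fun x _ y _ hxy => Nat.eq_of_mul_eq_mul_right (by omega) hxy
    have h := av_b (cutf a X (2 * X)) X (2 * X) (H * d)
      (fun n hn => by rw [cutf, if_neg hn]) (Nat.mul_pos hHpos (by omega)) _ hms
      ((Ioc q0 (q0 + H)).image (fun q : ℕ => q * d)) (q0 * d)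
      (fun h hh => by
        rw [mem_image] at hh
        obtain ⟨q, hq, rfl⟩ := hh
        obtain ⟨c1, c2, _⟩ := hqd q hq
        exact ⟨c1, c2⟩)
      (fun n => if n = 0 then 0 else b n) (5 * L) (by positivity)
      (fun n hn => by
        by_cases hn0 : n = 0
        · simp only [hn0, if_true, abs_zero]
          positivity
        · simp only [hn0, if_false]
          have hn4 : n ≤ 4 * X := by
            have : q0 * d + H * d ≤ X := by rw [← Nat.add_mul]; exact hszn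
            omega
          have c1 := ha.bd n (by omega) hn4
          have c2 := Pool.Agent.H43.LM.mu_abs_le n
          calc |b n| ≤ |mu n| + |a n| := abs_sub _ _
            _ ≤ 1 + 4 * L := add_le_add c2 c1
            _ ≤ 5 * L := by linarith only [hδ, hδ1, hL3])
    rw [sum_image hinj, card_image_of_injOn hinj] at h
    simp only [Nat.card_Ioc] at h
    have e1 : ∀ q ∈ Ioc q0 (q0 + H), |∑ n ∈ Ioc X (2 * X), a n * b (n + q * d)| =
        |∑ n ∈ Ioc X (2 * X), cutf a X (2 * X) n * (if n + q * d = 0 then 0 else b (n + q * d))| := by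
      intro q hq
      congr 1
      apply sum_congr rfl
      intro n hn
      rw [cutf, if_pos hn, if_neg]
      rw [mem_Ioc] at hn
      omega
    rw [sum_congr rfl e1]
    refine h.trans (mul_le_mul_of_nonneg_left ?_ (by positivity))
    have c2 : ((q0 + H - q0 : ℕ) : ℝ) = H := by
      congr 1
      omega
    rw [c2]
    push_cast
    have c3 : (H : ℝ) * d ≤ X := by exact_mod_cast hHle
    exact Cd2_sqrt (4 * B + 20) B rfl L 4 X (2 * X + H * d) H d hL1 hX0.le hH0 (by linarith only [hδ, hδ1, hdr]) hdL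
      (by norm_num) (by linarith only [hδ, hδ1, hXr, c3])
  -- (iii)
  have p3 : ∑ q ∈ Ioc q0 (q0 + H), ∑ n ∈ Ioc X (2 * X), |b n| * |b (n + q * d)| ≤
      (X * (C1 * sav X H δ)) * (H * (C1 * sav X H δ)) := by
    rw [sum_comm]
    have s1 : ∀ n ∈ Ioc X (2 * X), ∑ q ∈ Ioc q0 (q0 + H), |b n| * |b (n + q * d)| ≤
        |b n| * (H * (C1 * sav X H δ)) := by
      intro n _
      rw [← mul_sum]
      apply mul_le_mul_of_nonneg_left _ (abs_nonneg _)
      have := ha.sv d n q0 H hd (hdL.trans (pow_le_pow_right₀ hL1 (by omega))) le_rfl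
      simp only [hb]
      simpa only [mul_comm d] using this
    refine (sum_le_sum s1).trans ?_
    rw [← sum_mul]
    apply mul_le_mul_of_nonneg_right _ (by positivity)
    have hHX : H ≤ X := hHd1.trans hHle
    have := ha.sv 1 0 X X le_rfl (by
      rw [Nat.cast_one]
      exact one_le_pow₀ hL1) hHX
    simp only [one_mul, zero_add] at this
    rw [two_mul]
    exact this
  -- assembly
  have hsum := sum_le_sum hdec
  rw [sum_add_distrib, sum_add_distrib] at hsum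
  refine hsum.trans ((add_le_add (add_le_add p1 p2) p3).trans ?_)
  have f3 : 1 / L ^ 2 ≤ sav X H δ ^ 2 := by
    have g0 : 1 / L ≤ sav X H δ := by
      have : 1 / L ≤ L ^ (δ - 1) := by
        rw [one_div, ← Real.rpow_neg_one]
        exact Real.rpow_le_rpow_of_exponent_le hL1 (by linarith only [hδ])
      rw [hsavdef]
      linarith only [hq1, this]
    have g1 : (1 / L) ^ 2 ≤ sav X H δ ^ 2 := pow_le_pow_left₀ (by positivity) g0 2
    calc 1 / L ^ 2 = (1 / L) ^ 2 := by rw [div_pow, one_pow]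
      _ ≤ _ := g1
  have f4 : 2 * (H * X) / L ^ 10 + (5 * L) * (4 * (H * X) / L ^ 10) ≤
      (H * X) * sav X H δ ^ 2 := by
    have g1 : 2 * (H * X) / L ^ 10 + (5 * L) * (4 * (H * X) / L ^ 10) =
        (H * X) * ((2 + 20 * L) / L ^ 8 * (1 / L ^ 2)) := by
      field_simp
      ring
    have g2 : (2 + 20 * L) / L ^ 8 ≤ 1 := by
      rw [div_le_one (by positivity)]
      have : (2 : ℝ) ^ 7 ≤ L ^ 7 := pow_le_pow_left₀ (by norm_num) hL2 7
      have e : L ^ 8 = L ^ 7 * L := by ring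
      rw [e]
      nlinarith only [hL3, this, hδ, hδ1]
    rw [g1]
    calc (H * X) * ((2 + 20 * L) / L ^ 8 * (1 / L ^ 2))
        ≤ (H * X) * (1 * sav X H δ ^ 2) := by
          gcongr
      _ = (H * X) * sav X H δ ^ 2 := by ring
  have f5 : (X * (C1 * sav X H δ)) * (H * (C1 * sav X H δ)) = C1 ^ 2 * (H * X) * sav X H δ ^ 2 := by ring
  rw [f5]
  calc _ ≤ (H * X) * sav X H δ ^ 2 + C1 ^ 2 * (H * X) * sav X H δ ^ 2 := add_le_add f4 le_rfl
    _ = (C1 ^ 2 + 1) * H * X * sav X H δ ^ 2 := by ring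

end Pool.Agent.H43.CH

end

section

/-!
# CH Cd1: averaged correlations of order `k` against an arbitrary bounded sequence, all lengths `H`

As `ch1_b` in `Ch1G.lean` (same induction `E(k)`, private lemmas there), with `Sp` in place of `Split` and `τ = C1 sav` in place of `1/L^{1-δ}`; `cd0 (2 (B + k + 4)) 0 δ ε` gives `C1`, `X1`; `C = 2 C1` or so.
Case `Real.log H < C1 loglog X`: trivial: `(C sav)^k ≥ 1` (`sav ≥ loglog X/log H > 1/C1`, `H ≥ 2` so `log H > 0`) and the sum is `≤ H^k ∑ ‖G‖`.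
Otherwise (`H0 = H`): real and imaginary parts: `≤ 2 ((H τ)^k ∑ ‖G‖ + k (5L)^k H^k 2X/L^{B+k+4}) ≤ H^k ((2τ)^k ∑ ‖G‖ + X/L^B)` for `k ≥ 1`; `k = 0` trivial.
-/

set_option autoImplicit false

namespace Pool.Agent.H43.CH

open Finset MeasureTheory
open Pool.Agent.H43.LM (mu mu_abs_le)

private theorem Cd1_cons (j : ℕ) (S : Finset ℕ) (f : (Fin (j + 1) → ℕ) → ℝ) :
    ∑ h ∈ Fintype.piFinset (fun _ : Fin (j + 1) => S), f h
      = ∑ x ∈ S, ∑ h ∈ Fintype.piFinset (fun _ : Fin j => S), f (Fin.cons x h) := by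
  rw [← Finset.sum_product']
  refine (Finset.sum_nbij' (fun p : ℕ × (Fin j → ℕ) => (Fin.cons p.1 p.2 : Fin (j + 1) → ℕ)) (fun h => (h 0, Fin.tail h)) ?_ ?_ ?_ ?_ ?_).symm
  · rintro ⟨x, h⟩ hp
    rw [mem_product, Fintype.mem_piFinset] at hp
    rw [Fintype.mem_piFinset]
    intro i
    refine Fin.cases ?_ (fun i => ?_) i
    · simpa using hp.1
    · simpa using hp.2 i
  · intro h hh
    rw [Fintype.mem_piFinset] at hh
    rw [mem_product, Fintype.mem_piFinset]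
    exact ⟨hh 0, fun i => hh i.succ⟩
  · rintro ⟨x, h⟩ _
    simp
  · intro h _
    exact Fin.cons_self_tail h
  · rintro ⟨x, h⟩ _
    rfl

private theorem Cd1_apart {A : ℕ} {τ ε : ℝ} {X H : ℕ} {a : ℕ → ℝ} (hS : Sp (2 * A) 0 τ ε X H a) (hL : 0 < Real.log X)
    (hH1 : 1 ≤ H) (hH' : (H : ℝ) ≤ (X : ℝ) ^ (1 - ε)) (hHX : H ≤ 2 * X) (G : ℕ → ℝ) (M : ℝ)
    (hM : 0 ≤ M) (hG : ∀ n ∈ Ioc X (2 * X), |G n| ≤ M) :
    ∑ h ∈ Icc 1 H, |∑ n ∈ Ioc X (2 * X), G n * a (n + h)| ≤ M * H * (2 * X / Real.log X ^ A) := by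
  have h1 := av_a (cutf a X (4 * X)) (4 * X) H
    (fun n hn => by simp only [cutf]; rw [if_neg]; intro h; rw [mem_Ioc] at h; omega) hH1
    (X * (2 * (H : ℝ)) ^ 2 / Real.log X ^ (2 * A))
    (fun α => hS.ms X (4 * X) H α le_rfl le_rfl le_rfl (by simpa using hH'))
    ((Icc 1 H).map Nat.castEmbedding) ((Ioc X (2 * X)).map Nat.castEmbedding) 0
    (by
      intro h hh
      rw [mem_map] at hh
      obtain ⟨m, hm, rfl⟩ := hh
      rw [mem_Icc] at hm
      simp only [Nat.castEmbedding_apply]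
      omega) (fun z => G z.toNat) M hM
    (by
      intro h hh
      rw [mem_map] at hh
      obtain ⟨m, hm, rfl⟩ := hh
      simpa using hG m hm)
  have h2 : ∑ h ∈ (Icc 1 H).map (Nat.castEmbedding (R := ℤ)),
      |∑ n ∈ (Ioc X (2 * X)).map (Nat.castEmbedding (R := ℤ)), fz (cutf a X (4 * X)) (n + h) * G n.toNat|
      = ∑ h ∈ Icc 1 H, |∑ n ∈ Ioc X (2 * X), G n * a (n + h)| := by
    rw [Finset.sum_map]
    refine Finset.sum_congr rfl fun h hh => ?_
    rw [Finset.sum_map]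
    congr 1
    refine Finset.sum_congr rfl fun n hn => ?_
    rw [mem_Icc] at hh
    rw [mem_Ioc] at hn
    simp only [Nat.castEmbedding_apply, Int.toNat_natCast]
    have h3 : fz (cutf a X (4 * X)) ((n : ℤ) + (h : ℤ)) = a (n + h) := by
      unfold fz
      rw [if_pos (by positivity)]
      have h4 : ((n : ℤ) + (h : ℤ)).toNat = n + h := by omega
      rw [h4]
      unfold cutf
      rw [if_pos (by rw [mem_Ioc]; omega)]
    rw [h3, mul_comm]
  rw [h2] at h1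
  refine h1.trans (le_of_eq ?_)
  rw [card_map, card_map, Nat.card_Icc, Nat.card_Ioc]
  have h5 : (2 * X - X : ℕ) = X := by omega
  have h6 : H + 1 - 1 = H := by omega
  rw [h5, h6]
  have hH0 : (0 : ℝ) < H := by exact_mod_cast hH1
  have h7 : (X : ℝ) * H * (X * (2 * (H : ℝ)) ^ 2 / Real.log X ^ (2 * A) / H) = (H * (2 * X / Real.log X ^ A)) ^ 2 := by
    have hA : Real.log X ^ (2 * A) = (Real.log X ^ A) ^ 2 := by rw [mul_comm, pow_mul]
    rw [hA]
    have hp : (0 : ℝ) < Real.log X ^ A := pow_pos hL A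
    field_simp
  rw [h7, Real.sqrt_sq (by positivity), mul_assoc]

private theorem Cd1_ind {A : ℕ} {τ ε : ℝ} {X H : ℕ} {a : ℕ → ℝ} (hS : Sp (2 * A) 0 τ ε X H a) (hτ : 0 ≤ τ) (hL : 1 ≤ Real.log X)
    (hH1 : 1 ≤ H) (hH' : (H : ℝ) ≤ (X : ℝ) ^ (1 - ε)) (hHX : H ≤ X) (j : ℕ) :
    ∀ (G : ℕ → ℝ) (M : ℝ), 0 ≤ M → (∀ n ∈ Ioc X (2 * X), |G n| ≤ M) →
    ∑ h ∈ Fintype.piFinset (fun _ : Fin j => Icc 1 H), |∑ n ∈ Ioc X (2 * X), G n * ∏ i, mu (n + h i)|
      ≤ (H * τ) ^ j * ∑ n ∈ Ioc X (2 * X), |G n|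
        + j * M * (5 * Real.log X) ^ j * (H : ℝ) ^ j * (2 * X / Real.log X ^ A) := by
  have hL0 : 0 < Real.log X := lt_of_lt_of_le one_pos hL
  have hE0 : 0 ≤ 2 * (X : ℝ) / Real.log X ^ A := by positivity
  induction j with
  | zero =>
    intro G M hM hG
    simp only [Fintype.piFinset_of_isEmpty, univ_unique, sum_singleton, univ_eq_empty, prod_empty, mul_one, pow_zero, one_mul,
      Nat.cast_zero, zero_mul, add_zero]
    exact Finset.abs_sum_le_sum_abs _ _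
  | succ j ih =>
    intro G M hM hG
    rw [Cd1_cons]
    have hprod : ∀ (x : ℕ) (h : Fin j → ℕ) (n : ℕ), ∏ i, mu (n + (Fin.cons x h : Fin (j + 1) → ℕ) i) = mu (n + x) * ∏ i, mu (n + h i) := by
      intro x h n
      rw [Fin.prod_univ_succ]
      simp
    -- split of the inner sums
    have hsplit : ∀ x ∈ Icc 1 H, ∀ h ∈ Fintype.piFinset (fun _ : Fin j => Icc 1 H),
        |∑ n ∈ Ioc X (2 * X), G n * ∏ i, mu (n + (Fin.cons x h : Fin (j + 1) → ℕ) i)|
          ≤ |∑ n ∈ Ioc X (2 * X), (G n * ∏ i, mu (n + h i)) * a (n + x)|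
            + |∑ n ∈ Ioc X (2 * X), (G n * (mu (n + x) - a (n + x))) * ∏ i, mu (n + h i)| := by
      intro x _ h _
      refine le_trans (le_of_eq ?_) (abs_add_le _ _)
      rw [← Finset.sum_add_distrib]
      congr 1
      refine Finset.sum_congr rfl fun n _ => ?_
      rw [hprod]
      ring
    have hP1 : ∀ (h : Fin j → ℕ) (n : ℕ), |∏ i, mu (n + h i)| ≤ 1 := by
      intro h n
      rw [Finset.abs_prod]
      exact Finset.prod_le_one (fun _ _ => abs_nonneg _) fun i _ => mu_abs_le _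
    have hcard : ((Fintype.piFinset (fun _ : Fin j => Icc 1 H)).card : ℝ) = (H : ℝ) ^ j := by
      rw [Fintype.card_piFinset]
      simp
    -- the a-part
    have hA : ∑ x ∈ Icc 1 H, ∑ h ∈ Fintype.piFinset (fun _ : Fin j => Icc 1 H),
        |∑ n ∈ Ioc X (2 * X), (G n * ∏ i, mu (n + h i)) * a (n + x)| ≤ M * (H : ℝ) ^ (j + 1) * (2 * X / Real.log X ^ A) := by
      rw [Finset.sum_comm]
      have h1 : ∀ h ∈ Fintype.piFinset (fun _ : Fin j => Icc 1 H),
          ∑ x ∈ Icc 1 H, |∑ n ∈ Ioc X (2 * X), (G n * ∏ i, mu (n + h i)) * a (n + x)| ≤ M * H * (2 * X / Real.log X ^ A) := by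
        intro h _
        refine Cd1_apart hS hL0 hH1 hH' (by omega) (fun n => G n * ∏ i, mu (n + h i)) M hM ?_
        intro n hn
        rw [abs_mul]
        calc |G n| * |∏ i, mu (n + h i)| ≤ |G n| * 1 := mul_le_mul_of_nonneg_left (hP1 h n) (abs_nonneg _)
          _ ≤ M := by rw [mul_one]; exact hG n hn
      refine (Finset.sum_le_sum h1).trans (le_of_eq ?_)
      rw [Finset.sum_const, nsmul_eq_mul, hcard]
      ring
    -- the b-part
    have hB : ∑ x ∈ Icc 1 H, ∑ h ∈ Fintype.piFinset (fun _ : Fin j => Icc 1 H),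
        |∑ n ∈ Ioc X (2 * X), (G n * (mu (n + x) - a (n + x))) * ∏ i, mu (n + h i)|
          ≤ (H * τ) ^ (j + 1) * ∑ n ∈ Ioc X (2 * X), |G n|
            + H * (j * (M * (5 * Real.log X)) * (5 * Real.log X) ^ j * (H : ℝ) ^ j * (2 * X / Real.log X ^ A)) := by
      have h1 : ∀ x ∈ Icc 1 H, ∑ h ∈ Fintype.piFinset (fun _ : Fin j => Icc 1 H),
          |∑ n ∈ Ioc X (2 * X), (G n * (mu (n + x) - a (n + x))) * ∏ i, mu (n + h i)|
          ≤ (H * τ) ^ j * ∑ n ∈ Ioc X (2 * X), |G n * (mu (n + x) - a (n + x))|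
            + j * (M * (5 * Real.log X)) * (5 * Real.log X) ^ j * (H : ℝ) ^ j * (2 * X / Real.log X ^ A) := by
        intro x hx
        refine ih (fun n => G n * (mu (n + x) - a (n + x))) (M * (5 * Real.log X)) (by positivity) ?_
        intro n hn
        rw [mem_Icc] at hx
        have hn' := hn
        rw [mem_Ioc] at hn'
        rw [abs_mul]
        refine mul_le_mul (hG n hn) ?_ (abs_nonneg _) hM
        calc |mu (n + x) - a (n + x)| ≤ |mu (n + x)| + |a (n + x)| := abs_sub _ _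
          _ ≤ 1 + 4 * Real.log X := add_le_add (mu_abs_le _) (hS.bd (n + x) (by omega) (by omega))
          _ ≤ 5 * Real.log X := by linarith only [hL]
      refine (Finset.sum_le_sum h1).trans ?_
      rw [Finset.sum_add_distrib, Finset.sum_const, nsmul_eq_mul, ← Finset.mul_sum, Nat.card_Icc]
      have h6 : H + 1 - 1 = H := by omega
      rw [h6]
      refine add_le_add_left ?_ _
      rw [Finset.sum_comm, pow_succ, mul_assoc]
      have hq0 : 0 ≤ (H : ℝ) * τ := by positivity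
      refine mul_le_mul_of_nonneg_left ?_ (pow_nonneg hq0 j)
      rw [Finset.mul_sum]
      refine Finset.sum_le_sum fun n _ => ?_
      have h2 := hS.sv 1 n 0 H le_rfl (by simp) le_rfl
      have h3 : ∑ x ∈ Icc 1 H, |G n * (mu (n + x) - a (n + x))| = |G n| * ∑ q ∈ Ioc 0 (0 + H), |mu (n + 1 * q) - a (n + 1 * q)| := by
        rw [Finset.mul_sum, zero_add]
        have h4 : Icc 1 H = Ioc 0 H := by
          ext x
          rw [mem_Icc, mem_Ioc]
          omega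
        rw [h4]
        refine Finset.sum_congr rfl fun x _ => ?_
        rw [abs_mul, one_mul]
      rw [h3, mul_comm]
      exact mul_le_mul_of_nonneg_right h2 (abs_nonneg _)
    have hfin : ∑ x ∈ Icc 1 H, ∑ h ∈ Fintype.piFinset (fun _ : Fin j => Icc 1 H),
        |∑ n ∈ Ioc X (2 * X), G n * ∏ i, mu (n + (Fin.cons x h : Fin (j + 1) → ℕ) i)|
        ≤ M * (H : ℝ) ^ (j + 1) * (2 * X / Real.log X ^ A) + ((H * τ) ^ (j + 1) * ∑ n ∈ Ioc X (2 * X), |G n|
            + H * (j * (M * (5 * Real.log X)) * (5 * Real.log X) ^ j * (H : ℝ) ^ j * (2 * X / Real.log X ^ A))) := by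
      refine le_trans ?_ (add_le_add hA hB)
      rw [← Finset.sum_add_distrib]
      refine Finset.sum_le_sum fun x hx => ?_
      rw [← Finset.sum_add_distrib]
      exact Finset.sum_le_sum fun h hh => hsplit x hx h hh
    refine hfin.trans ?_
    have h8 : (1 : ℝ) ≤ (5 * Real.log X) ^ (j + 1) := one_le_pow₀ (by linarith only [hL])
    have h9 : M * (H : ℝ) ^ (j + 1) * (2 * X / Real.log X ^ A) ≤ (5 * Real.log X) ^ (j + 1) * (M * (H : ℝ) ^ (j + 1) * (2 * X / Real.log X ^ A)) :=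
      le_mul_of_one_le_left (by positivity) h8
    push_cast
    have h10 : ((j : ℝ) + 1) * M * (5 * Real.log X) ^ (j + 1) * (H : ℝ) ^ (j + 1) * (2 * X / Real.log X ^ A)
        = (5 * Real.log X) ^ (j + 1) * (M * (H : ℝ) ^ (j + 1) * (2 * X / Real.log X ^ A))
          + H * (j * (M * (5 * Real.log X)) * (5 * Real.log X) ^ j * (H : ℝ) ^ j * (2 * X / Real.log X ^ A)) := by
      ring
    rw [h10]
    linarith only [h9]

/-- real and imaginary parts -/
private theorem Cd1_reim (X k : ℕ) (G : ℕ → ℂ) (h : Fin k → ℕ) :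
    ‖∑ n ∈ Ioc X (2 * X), G n * ∏ i, ((mu (n + h i) : ℝ) : ℂ)‖
      ≤ |∑ n ∈ Ioc X (2 * X), (G n).re * ∏ i, mu (n + h i)| + |∑ n ∈ Ioc X (2 * X), (G n).im * ∏ i, mu (n + h i)| := by
  refine (Complex.norm_le_abs_re_add_abs_im _).trans (le_of_eq ?_)
  rw [Complex.re_sum, Complex.im_sum]
  congr 2
  · refine Finset.sum_congr rfl fun n _ => ?_
    rw [← Complex.ofReal_prod, Complex.re_mul_ofReal]
  · refine Finset.sum_congr rfl fun n _ => ?_
    rw [← Complex.ofReal_prod, Complex.im_mul_ofReal]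

theorem cd1_h (h_cd0 : cd0_P) (k B : ℕ) (δ ε : ℝ) (hδ : 0 < δ) (hδ1 : δ < 1) (hε : 0 < ε) (hε1 : ε < 1) : ∃ (C : ℝ) (X0 : ℕ), 1 ≤ C ∧
    ∀ X : ℕ, X0 ≤ X → ∀ H : ℕ, 2 ≤ H → (H : ℝ) ≤ (X : ℝ) ^ (1 - ε) →
      ∀ G : ℕ → ℂ, (∀ n ∈ Ioc X (2 * X), ‖G n‖ ≤ 1) →
        ∑ h ∈ Fintype.piFinset (fun _ : Fin k => Icc 1 H), ‖∑ n ∈ Ioc X (2 * X), G n * ∏ i, ((mu (n + h i) : ℝ) : ℂ)‖
          ≤ (H : ℝ) ^ k * ((C * sav X H δ) ^ k * (∑ n ∈ Ioc X (2 * X), ‖G n‖) + X / Real.log X ^ B) := by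
  obtain ⟨C1, hC1, X1, hX1⟩ := h_cd0 (2 * (B + k + 4)) 0 δ ε hδ hδ1 hε hε1
  have hlog : Filter.Tendsto (fun X : ℕ => Real.log X) Filter.atTop Filter.atTop :=
    Real.tendsto_log_atTop.comp tendsto_natCast_atTop_atTop
  obtain ⟨X2, hX2⟩ := Filter.eventually_atTop.1 (hlog.eventually_ge_atTop (max 3 (4 * k * 5 ^ k)))
  refine ⟨2 * C1, max (max X1 X2) 1, by linarith only [hδ, hδ1, hC1], fun X hX H hH2 hH' G hG => ?_⟩
  have hXX1 : X1 ≤ X := (le_max_left _ _).trans ((le_max_left _ _).trans hX)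
  have hXX2 : X2 ≤ X := (le_max_right _ _).trans ((le_max_left _ _).trans hX)
  have hX1' : 1 ≤ X := (le_max_right _ _).trans hX
  have hLL := hX2 X hXX2
  have hL3' : (3 : ℝ) ≤ Real.log X := (le_max_left _ _).trans hLL
  have hL : 1 ≤ Real.log X := by linarith only [hδ, hδ1, hL3']
  have hL3 : 4 * (k : ℝ) * 5 ^ k ≤ Real.log X := (le_max_right _ _).trans hLL
  have hL0 : 0 < Real.log X := lt_of_lt_of_le one_pos hL
  have hLLp : 0 < Real.log (Real.log X) := Real.log_pos (by linarith only [hδ, hδ1, hL3'])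
  have hXr : (1 : ℝ) ≤ X := by exact_mod_cast hX1'
  have hH1 : 1 ≤ H := by omega
  have hlH : 0 < Real.log H := Real.log_pos (by exact_mod_cast hH2)
  have hHX : H ≤ X := by
    have h1 : (X : ℝ) ^ (1 - ε) ≤ (X : ℝ) ^ (1 : ℝ) := Real.rpow_le_rpow_of_exponent_le hXr (by linarith only [hε])
    rw [Real.rpow_one] at h1
    exact_mod_cast hH'.trans h1
  have hrp : 0 < Real.log X ^ (δ - 1) := Real.rpow_pos_of_pos hL0 _
  have hsav0 : 0 < sav X H δ := by
    unfold sav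
    positivity
  have hC0 : 0 < C1 := by linarith only [hδ, hδ1, hC1]
  set S : ℝ := ∑ n ∈ Ioc X (2 * X), ‖G n‖ with hSdef
  have hS0 : 0 ≤ S := Finset.sum_nonneg fun _ _ => norm_nonneg _
  have hXB : 0 ≤ (X : ℝ) / Real.log X ^ B := by positivity
  rcases lt_or_ge (Real.log H) (C1 * Real.log (Real.log X)) with hlt | hge
  · -- the trivial case
    have h1 : 1 ≤ 2 * C1 * sav X H δ := by
      have h2 : 1 / C1 ≤ Real.log (Real.log X) / Real.log H := by
        rw [div_le_div_iff₀ hC0 hlH]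
        linarith only [hlt]
      have h3 : 1 / C1 ≤ sav X H δ := by
        unfold sav
        linarith only [hrp, h2]
      have h4 : 1 ≤ C1 * sav X H δ := by
        calc (1 : ℝ) = C1 * (1 / C1) := by field_simp
          _ ≤ C1 * sav X H δ := mul_le_mul_of_nonneg_left h3 hC0.le
      nlinarith only [hδ, hδ1, h4]
    have h5 : (1 : ℝ) ≤ (2 * C1 * sav X H δ) ^ k := one_le_pow₀ h1
    have hcard : ((Fintype.piFinset (fun _ : Fin k => Icc 1 H)).card : ℝ) = (H : ℝ) ^ k := by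
      rw [Fintype.card_piFinset]
      simp
    have h6 : ∀ h ∈ Fintype.piFinset (fun _ : Fin k => Icc 1 H),
        ‖∑ n ∈ Ioc X (2 * X), G n * ∏ i, ((mu (n + h i) : ℝ) : ℂ)‖ ≤ S := by
      intro h _
      refine (norm_sum_le _ _).trans (Finset.sum_le_sum fun n _ => ?_)
      rw [norm_mul]
      refine mul_le_of_le_one_right (norm_nonneg _) ?_
      rw [norm_prod]
      refine Finset.prod_le_one (fun _ _ => norm_nonneg _) fun i _ => ?_
      rw [Complex.norm_real, Real.norm_eq_abs]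
      exact mu_abs_le _
    refine (Finset.sum_le_sum h6).trans ?_
    rw [Finset.sum_const, nsmul_eq_mul, hcard]
    refine mul_le_mul_of_nonneg_left ?_ (by positivity)
    have h7 : S ≤ (2 * C1 * sav X H δ) ^ k * S := le_mul_of_one_le_left hS0 h5
    linarith only [hXB, h7]
  obtain ⟨a, hS⟩ := hX1 X hXX1 H hge
  set τ : ℝ := C1 * sav X H δ with hτdef
  have hτ : 0 ≤ τ := by positivity
  rcases Nat.eq_zero_or_pos k with hk | hk
  · subst hk
    simp only [Fintype.piFinset_of_isEmpty, univ_unique, sum_singleton, univ_eq_empty, prod_empty, mul_one, pow_zero, one_mul]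
    refine (norm_sum_le _ _).trans ?_
    linarith only [hXB]
  have hk1 : (1 : ℝ) ≤ k := by exact_mod_cast hk
  have hpart : ∀ g : ℕ → ℝ, (∀ n ∈ Ioc X (2 * X), |g n| ≤ ‖G n‖) →
      ∑ h ∈ Fintype.piFinset (fun _ : Fin k => Icc 1 H), |∑ n ∈ Ioc X (2 * X), g n * ∏ i, mu (n + h i)|
        ≤ (H * τ) ^ k * S + k * (5 * Real.log X) ^ k * (H : ℝ) ^ k * (2 * X / Real.log X ^ (B + k + 4)) := by
    intro g hg
    refine (Cd1_ind hS hτ hL hH1 hH' hHX k g 1 zero_le_one (fun n hn => (hg n hn).trans (hG n hn))).trans ?_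
    rw [mul_one]
    refine add_le_add_left ?_ _
    refine mul_le_mul_of_nonneg_left ?_ (by positivity)
    exact Finset.sum_le_sum hg
  have hre := hpart (fun n => (G n).re) fun n _ => Complex.abs_re_le_norm _
  have him := hpart (fun n => (G n).im) fun n _ => Complex.abs_im_le_norm _
  have hsum : ∑ h ∈ Fintype.piFinset (fun _ : Fin k => Icc 1 H), ‖∑ n ∈ Ioc X (2 * X), G n * ∏ i, ((mu (n + h i) : ℝ) : ℂ)‖
      ≤ ∑ h ∈ Fintype.piFinset (fun _ : Fin k => Icc 1 H), |∑ n ∈ Ioc X (2 * X), (G n).re * ∏ i, mu (n + h i)|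
        + ∑ h ∈ Fintype.piFinset (fun _ : Fin k => Icc 1 H), |∑ n ∈ Ioc X (2 * X), (G n).im * ∏ i, mu (n + h i)| := by
    rw [← Finset.sum_add_distrib]
    exact Finset.sum_le_sum fun h _ => Cd1_reim X k G h
  -- first term
  have hq : 2 * ((H * τ) ^ k * S) ≤ (H : ℝ) ^ k * ((2 * C1 * sav X H δ) ^ k * S) := by
    have e1 : 2 * C1 * sav X H δ = 2 * τ := by rw [hτdef]; ring
    rw [e1, mul_pow (H : ℝ) τ k, mul_pow (2 : ℝ) τ k]
    have h2 : (2 : ℝ) ≤ 2 ^ k := by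
      calc (2 : ℝ) = 2 ^ 1 := (pow_one _).symm
        _ ≤ 2 ^ k := pow_le_pow_right₀ (by norm_num) hk
    have h3 : 0 ≤ (H : ℝ) ^ k * (τ ^ k * S) := by positivity
    calc 2 * ((H : ℝ) ^ k * τ ^ k * S) = 2 * ((H : ℝ) ^ k * (τ ^ k * S)) := by ring
      _ ≤ 2 ^ k * ((H : ℝ) ^ k * (τ ^ k * S)) := mul_le_mul_of_nonneg_right h2 h3
      _ = (H : ℝ) ^ k * (2 ^ k * τ ^ k * S) := by ring
  -- second term
  have hs : 2 * ((k : ℝ) * (5 * Real.log X) ^ k * (H : ℝ) ^ k * (2 * X / Real.log X ^ (B + k + 4)))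
      ≤ (H : ℝ) ^ k * (X / Real.log X ^ B) := by
    have h4 : 2 * ((k : ℝ) * (5 * Real.log X) ^ k * (H : ℝ) ^ k * (2 * X / Real.log X ^ (B + k + 4)))
        = (H : ℝ) ^ k * (X / Real.log X ^ B) * (4 * k * 5 ^ k / Real.log X ^ 4) := by
      rw [mul_pow]
      have e1 : Real.log X ^ (B + k + 4) = Real.log X ^ B * Real.log X ^ k * Real.log X ^ 4 := by ring
      rw [e1]
      have hp : 0 < Real.log X ^ k := pow_pos hL0 k
      field_simp
      norm_num
    rw [h4]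
    refine mul_le_of_le_one_right (by positivity) ?_
    rw [div_le_one (by positivity)]
    have h6 : Real.log X ≤ Real.log X ^ 4 := by
      calc Real.log X = Real.log X ^ 1 := (pow_one _).symm
        _ ≤ Real.log X ^ 4 := pow_le_pow_right₀ hL (by norm_num)
    linarith only [hL3, h6]
  rw [mul_add]
  linarith only [hre, him, hsum, hq, hs]

end Pool.Agent.H43.CH

end
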