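import Pool.Agent.H43.PS.M09
import Pool.Agent.H43.PS.M14
import Pool.Agent.H43.PS.M24

/-! The parts of this file: H43.CH.MajR, H76.MU.Fou, H43.CH.VarS. -/

section

/-!
# CH MajR: mean square over real windows at a rational frequency

Proof.  `F = FS (gP P1 P) S`.  For `n = p m`, `p ≡ r`, `m ≡ u (c)`: `ee(n a/c) = ee(r u a/c)`, so `F(n) ee(n a/c) = ∑_{r < c} ∑_{u < c} ee(r u a/c) F_{r,u}(n)`, `F_{r,u} = FS (cl (gP P1 P) c u) (S.filter (· % c = r))`.  Cauchy-Schwarz: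
`‖Mw F x h (a/c)‖^2 ≤ c^2 ∑_{r,u} |∑_{n ∈ Win x h} F_{r,u}(n)|^2`.  `Win x h` = the integers of `(x - h/2, x + h/2)`; with `h0 = ⌊h⌋₊`, `j = ⌈x + h/2⌉₊` it differs from `Ico (j - h0) j` by at most 2 integers, and
`|F_{r,u}(n)| ≤ #{p ∣ n} ≤ 2 log n ≤ 4 L` (`2^{#} ≤ n`).  The number of `x ∈ [X, 2X]` (measure) with a given `j` is `≤ 1`, `X < j ≤ 2X + h/2 + 1`; `j ≤ 2X`: `maj_d` (`A' = A + 4B + 4`); `2X < j ≤ 2X + h`: trivially `(h+1)(h · 4L)^2 ≤ X h^2/L^{A'}`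
as `h ≤ X/L^κ`.  Total `≤ c^4 · (2 X h^2/L^{A'} + small) ≤ X h^2/L^A`.
-/

set_option autoImplicit false

namespace Pool.Agent.H43.CH

open Finset MeasureTheory
open Pool.Agent.H53.MIX (VKw)
open Pool.Agent.H35.W (pb)
open Pool.Agent.H43.LM (gP Mw Win)
open Pool.Agent.H91.PK (ee)
open Pool.Agent.H76.MU (Uw)

private theorem MajR_gP0 (P1 P : ℕ) : gP P1 P 0 = 0 := by
  unfold gP Pool.Agent.H43.LM.mu
  simp

/-- trivial bound -/
private theorem MajR_bd (P1 P c u n : ℕ) (S : Finset ℕ) (hS : S ⊆ pb P) {X : ℕ} (hX : 3 ≤ X) (hn : n ≤ 3 * X) :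
    |FS (cl (gP P1 P) c u) S n| ≤ 4 * Real.log X := by
  have hX' : (3 : ℝ) ≤ X := by exact_mod_cast hX
  have hL0 : 0 ≤ Real.log X := Real.log_nonneg (by linarith only [hX'])
  rcases Nat.eq_zero_or_pos n with h0 | h0
  · subst h0
    have : FS (cl (gP P1 P) c u) S 0 = 0 := by
      unfold FS
      refine Finset.sum_eq_zero fun p _ => ?_
      rw [Nat.zero_div]
      unfold cl
      rw [MajR_gP0]
      simp
    rw [this, abs_zero]
    positivity
  have hn0 : n ≠ 0 := by omega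
  have h1 : |FS (cl (gP P1 P) c u) S n| ≤ ((S.filter (fun p => p ∣ n)).card : ℝ) := by
    unfold FS
    refine (abs_sum_le_sum_abs _ _).trans ?_
    refine (sum_le_card_nsmul _ _ 1 fun p _ => ?_).trans (by simp)
    unfold cl
    split_ifs
    · exact Pool.Agent.H43.LM.gP_abs_le P1 P _
    · simp
  have h2 : S.filter (fun p => p ∣ n) ⊆ n.primeFactors := by
    intro p hp
    obtain ⟨hp1, hp2⟩ := mem_filter.1 hp
    have hp3 := hS hp1
    unfold pb at hp3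
    exact Nat.mem_primeFactors.2 ⟨(mem_filter.1 hp3).2, hp2, hn0⟩
  have h3 : 2 ^ n.primeFactors.card ≤ n := by
    calc 2 ^ n.primeFactors.card = ∏ _p ∈ n.primeFactors, 2 := by rw [prod_const]
      _ ≤ ∏ p ∈ n.primeFactors, p := by
          refine prod_le_prod' fun p hp => ?_
          exact (Nat.prime_of_mem_primeFactors hp).two_le
      _ ≤ n := Nat.le_of_dvd (Nat.pos_of_ne_zero hn0) (Nat.prod_primeFactors_dvd n)
  have h4 : (2 : ℝ) ^ n.primeFactors.card ≤ n := by exact_mod_cast h3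
  have h5 : (n.primeFactors.card : ℝ) * Real.log 2 ≤ Real.log n := by
    have := Real.log_le_log (by positivity) h4
    rwa [Real.log_pow] at this
  have h6 : (((S.filter (fun p => p ∣ n)).card : ℕ) : ℝ) ≤ n.primeFactors.card := by
    exact_mod_cast card_le_card h2
  have h7 : (1 / 2 : ℝ) ≤ Real.log 2 := by
    have := Real.log_two_gt_d9
    linarith only [this]
  have h8 : (n.primeFactors.card : ℝ) * (1 / 2) ≤ (n.primeFactors.card : ℝ) * Real.log 2 :=
    mul_le_mul_of_nonneg_left h7 (Nat.cast_nonneg _)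
  have h9 : Real.log n ≤ 2 * Real.log X := by
    have h10 : (n : ℝ) ≤ (X : ℝ) ^ 2 := by
      have h11 : (n : ℝ) ≤ 3 * X := by exact_mod_cast hn
      nlinarith only [h11, hX']
    have h12 : (0 : ℝ) < n := by exact_mod_cast h0
    have := Real.log_le_log h12 h10
    rwa [Real.log_pow] at this
  linarith only [h1, h5, h6, h8, h9]

/-- the exponential is periodic -/
private theorem MajR_ee_nat (t : ℝ) (k : ℕ) : ee (t + k) = ee t := by
  rw [Pool.Agent.H91.PK.LSa_ee_add]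
  have : ee (k : ℝ) = 1 := by
    unfold ee
    rw [Complex.exp_eq_one_iff]
    exact ⟨k, by push_cast; ring⟩
  rw [this, mul_one]

private theorem MajR_ee (n p c a : ℕ) (hc : 1 ≤ c) (hp : p ∣ n) :
    ee ((n : ℝ) * ((a : ℝ) / c)) = ee (((((p % c) * ((n / p) % c) : ℕ)) : ℝ) * ((a : ℝ) / c)) := by
  have hc' : (c : ℝ) ≠ 0 := by
    have : (1 : ℝ) ≤ c := by exact_mod_cast hc
    linarith only [this]
  have h1 : n = p * (n / p) := (Nat.mul_div_cancel' hp).symm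
  have h2 : (p % c) * ((n / p) % c) ≤ n := by
    conv_rhs => rw [h1]
    exact Nat.mul_le_mul (Nat.mod_le _ _) (Nat.mod_le _ _)
  have h3 : c ∣ n - (p % c) * ((n / p) % c) := by
    apply (Nat.modEq_iff_dvd' h2).1
    have h4 : (p % c) * ((n / p) % c) ≡ p * (n / p) [MOD c] := Nat.ModEq.mul (Nat.mod_modEq _ _) (Nat.mod_modEq _ _)
    rwa [← h1] at h4
  obtain ⟨k, hk⟩ := h3
  have h5 : n = (p % c) * ((n / p) % c) + c * k := by omega
  have h6 : (n : ℝ) = (((p % c) * ((n / p) % c) : ℕ) : ℝ) + c * k := by exact_mod_cast h5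
  have h7 : (n : ℝ) * ((a : ℝ) / c) = (((p % c) * ((n / p) % c) : ℕ) : ℝ) * ((a : ℝ) / c) + ((k * a : ℕ) : ℝ) := by
    conv_lhs => rw [h6]
    push_cast
    field_simp
  rw [h7, MajR_ee_nat]

/-- decomposition into classes -/
private theorem MajR_dec (g : ℕ → ℝ) (S : Finset ℕ) (n c a : ℕ) (hc : 1 ≤ c) :
    ((FS g S n : ℝ) : ℂ) * ee ((n : ℝ) * ((a : ℝ) / c)) =
      ∑ r ∈ range c, ∑ u ∈ range c, ee (((r * u : ℕ) : ℝ) * ((a : ℝ) / c)) *
        ((FS (cl g c u) (S.filter (fun p => p % c = r)) n : ℝ) : ℂ) := by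
  have hR : ∀ r ∈ range c, ∀ u ∈ range c, ee (((r * u : ℕ) : ℝ) * ((a : ℝ) / c)) *
        ((FS (cl g c u) (S.filter (fun p => p % c = r)) n : ℝ) : ℂ)
      = ∑ p ∈ S.filter (fun p => p ∣ n), (if p % c = r then (if (n / p) % c = u then
          ee (((r * u : ℕ) : ℝ) * ((a : ℝ) / c)) * ((g (n / p) : ℝ) : ℂ) else 0) else 0) := by
    intro r _ u hu
    have hu' : u % c = u := Nat.mod_eq_of_lt (Finset.mem_range.1 hu)
    unfold FS
    rw [Complex.ofReal_sum, Finset.mul_sum, Finset.filter_filter]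
    rw [← Finset.sum_filter, Finset.filter_filter]
    have : S.filter (fun p => p % c = r ∧ p ∣ n) = S.filter (fun p => p ∣ n ∧ p % c = r) := by
      apply Finset.filter_congr
      intro p _
      exact and_comm
    rw [this]
    refine Finset.sum_congr rfl fun p _ => ?_
    unfold cl
    rw [hu']
    split_ifs <;> simp
  rw [Finset.sum_congr rfl fun r hr => Finset.sum_congr rfl fun u hu => hR r hr u hu]
  have h1 : ∀ r ∈ range c, ∑ u ∈ range c, ∑ p ∈ S.filter (fun p => p ∣ n), (if p % c = r then (if (n / p) % c = u then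
          ee (((r * u : ℕ) : ℝ) * ((a : ℝ) / c)) * ((g (n / p) : ℝ) : ℂ) else 0) else 0)
      = ∑ p ∈ S.filter (fun p => p ∣ n), ∑ u ∈ range c, (if p % c = r then (if (n / p) % c = u then
          ee (((r * u : ℕ) : ℝ) * ((a : ℝ) / c)) * ((g (n / p) : ℝ) : ℂ) else 0) else 0) := fun r _ => Finset.sum_comm
  rw [Finset.sum_congr rfl h1, Finset.sum_comm]
  unfold FS
  rw [Complex.ofReal_sum, Finset.sum_mul]
  refine Finset.sum_congr rfl fun p hp => ?_
  have hpn : p ∣ n := (Finset.mem_filter.1 hp).2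
  have hr : p % c ∈ range c := Finset.mem_range.2 (Nat.mod_lt _ (by omega))
  have hu : (n / p) % c ∈ range c := Finset.mem_range.2 (Nat.mod_lt _ (by omega))
  rw [Finset.sum_eq_single_of_mem _ hr]
  · rw [Finset.sum_eq_single_of_mem _ hu]
    · rw [if_pos rfl, if_pos rfl, MajR_ee n p c a hc hpn]
      ring
    · intro u _ hne
      rw [if_pos rfl, if_neg (fun h => hne h.symm)]
  · intro r _ hne
    refine Finset.sum_eq_zero fun u _ => ?_
    rw [if_neg (fun h => hne h.symm)]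

/-- the window is an interval of integers -/
private theorem MajR_win {x H : ℝ} (ha : 0 ≤ x - H / 2) (hH : 0 ≤ H) :
    Win x H = Ico (⌊x - H / 2⌋₊ + 1) ⌈x + H / 2⌉₊ := by
  ext n
  simp only [Win, Finset.mem_filter, Finset.mem_range, Finset.mem_Ico]
  constructor
  · rintro ⟨-, h2⟩
    rw [abs_lt] at h2
    constructor
    · have : ⌊x - H / 2⌋₊ < n := (Nat.floor_lt ha).2 (by linarith only [h2])
      omega
    · exact Nat.lt_ceil.2 (by linarith only [h2])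
  · rintro ⟨h1, h2⟩
    have h3 : x - H / 2 < n := (Nat.floor_lt ha).1 (by omega)
    have h4 : (n : ℝ) < x + H / 2 := Nat.lt_ceil.1 h2
    refine ⟨?_, ?_⟩
    · have h5 : (n : ℝ) ≤ ⌈x + H⌉₊ := le_trans (by linarith only [h3, h4, hH]) (Nat.le_ceil _)
      have h6 : n ≤ ⌈x + H⌉₊ := by exact_mod_cast h5
      omega
    · rw [abs_lt]
      constructor <;> linarith only [h3, h4]

/-- the real window and the discrete window -/
private theorem MajR_w (F : ℕ → ℝ) (M0 : ℝ) (hM0 : 0 ≤ M0) (N : ℕ) (hF : ∀ n ≤ N, |F n| ≤ M0) (x h : ℝ) (hh : 1 ≤ h)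
    (hx : h ≤ x) (hN : x + h / 2 ≤ N) :
    |∑ n ∈ Win x h, F n| ≤ |Uw F ⌊h⌋₊ ⌈x + h / 2⌉₊| + M0 := by
  rw [MajR_win (by linarith only [hh, hx]) (by linarith only [hh])]
  unfold Uw
  set j := ⌈x + h / 2⌉₊ with hj
  set a' := ⌊x - h / 2⌋₊ + 1 with ha'
  set h0 := ⌊h⌋₊ with hh0
  have h1 : x + h / 2 ≤ j := Nat.le_ceil _
  have h2 : (j : ℝ) < x + h / 2 + 1 := Nat.ceil_lt_add_one (by linarith only [hh, hx])
  have h3 : x - h / 2 < a' := by
    rw [ha']
    push_cast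
    exact Nat.lt_floor_add_one _
  have h4 : (a' : ℝ) ≤ x - h / 2 + 1 := by
    rw [ha']
    push_cast
    have := Nat.floor_le (show (0 : ℝ) ≤ x - h / 2 by linarith only [hh, hx])
    linarith only [this]
  have h5 : (h0 : ℝ) ≤ h := Nat.floor_le (by linarith only [hh])
  have h6 : h < h0 + 1 := Nat.lt_floor_add_one _
  have h7 : h0 ≤ j := by
    have : (h0 : ℝ) ≤ j := by linarith only [hh, hx, h1, h5]
    exact_mod_cast this
  have h8 : ((j - h0 : ℕ) : ℝ) = j - h0 := by rw [Nat.cast_sub h7]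
  have h9 : a' ≤ (j - h0) + 1 := by
    have : (a' : ℝ) < ((j - h0 + 2 : ℕ) : ℝ) := by
      push_cast
      rw [h8]
      linarith only [h1, h4, h5]
    have : a' < j - h0 + 2 := by exact_mod_cast this
    omega
  have h10 : j - h0 ≤ a' + 1 := by
    have : ((j - h0 : ℕ) : ℝ) < ((a' + 2 : ℕ) : ℝ) := by
      push_cast
      rw [h8]
      linarith only [h2, h3, h6]
    have : j - h0 < a' + 2 := by exact_mod_cast this
    omega
  have haj : a' ≤ j := by
    have : (a' : ℝ) < j + 1 := by linarith only [hh, h1, h4]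
    have : a' < j + 1 := by exact_mod_cast this
    omega
  have hjN : ∀ n, n < j → |F n| ≤ M0 := by
    intro n hn
    apply hF
    have h11 : (n : ℝ) < x + h / 2 := Nat.lt_ceil.1 hn
    have : (n : ℝ) ≤ N := by linarith only [hN, h11]
    exact_mod_cast this
  have hh01 : 1 ≤ h0 := Nat.one_le_iff_ne_zero.2 (by
    intro h
    rw [h] at h6
    push_cast at h6
    linarith only [hh, h6])
  rcases le_total a' (j - h0) with h12 | h12
  · rw [← Finset.sum_Ico_consecutive F h12 (Nat.sub_le j h0)]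
    have h13 : |∑ n ∈ Ico a' (j - h0), F n| ≤ M0 := by
      rcases Nat.eq_or_lt_of_le h12 with h14 | h14
      · rw [h14]
        simp [hM0]
      · have : j - h0 = a' + 1 := by omega
        rw [this]
        simp only [Nat.Ico_succ_singleton, Finset.sum_singleton]
        exact hjN _ (by omega)
    have := abs_add_le (∑ n ∈ Ico a' (j - h0), F n) (∑ n ∈ Ico (j - h0) j, F n)
    linarith only [h13, this]
  · have h13 := Finset.sum_Ico_consecutive F h12 haj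
    have h14 : |∑ n ∈ Ico (j - h0) a', F n| ≤ M0 := by
      rcases Nat.eq_or_lt_of_le h12 with h14 | h14
      · rw [h14]
        simp [hM0]
      · have : a' = j - h0 + 1 := by omega
        rw [this]
        simp only [Nat.Ico_succ_singleton, Finset.sum_singleton]
        exact hjN _ (by omega)
    have h15 : ∑ n ∈ Ico a' j, F n = ∑ n ∈ Ico (j - h0) j, F n - ∑ n ∈ Ico (j - h0) a', F n := by linarith only [h13]
    rw [h15]
    have := abs_sub (∑ n ∈ Ico (j - h0) j, F n) (∑ n ∈ Ico (j - h0) a', F n)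
    linarith only [h14, this]

/-- trivial bound of a discrete window -/
private theorem MajR_Uw (F : ℕ → ℝ) (M0 : ℝ) (hM0 : 0 ≤ M0) (h0 j : ℕ) (hF : ∀ n < j, |F n| ≤ M0) :
    |Uw F h0 j| ≤ h0 * M0 := by
  unfold Uw
  refine (abs_sum_le_sum_abs _ _).trans ?_
  have h1 : ∑ n ∈ Ico (j - h0) j, |F n| ≤ ∑ n ∈ Ico (j - h0) j, M0 :=
    Finset.sum_le_sum fun n hn => hF n (Finset.mem_Ico.1 hn).2
  refine h1.trans ?_
  rw [Finset.sum_const, Nat.card_Ico, nsmul_eq_mul]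
  have h2 : j - (j - h0) ≤ h0 := by omega
  have h3 : ((j - (j - h0) : ℕ) : ℝ) ≤ h0 := by exact_mod_cast h2
  exact mul_le_mul_of_nonneg_right h3 hM0

/-- the pointwise bound -/
private theorem MajR_pt (P1 P c a X : ℕ) (S : Finset ℕ) (hS : S ⊆ pb P) (hc : 1 ≤ c) (hX : 3 ≤ X) (h : ℝ) (hh : 1 ≤ h) (hhX : h ≤ X)
    (x : ℝ) (hx : x ∈ Set.Icc (X : ℝ) (2 * X)) :
    ‖Mw (FS (gP P1 P) S) x h ((a : ℝ) / c)‖ ^ 2 ≤ (c : ℝ) ^ 2 * ∑ r ∈ range c, ∑ u ∈ range c,
      (2 * (Uw (FS (cl (gP P1 P) c u) (S.filter (fun p => p % c = r))) ⌊h⌋₊ ⌈x + h / 2⌉₊) ^ 2 + 32 * Real.log X ^ 2) := by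
  obtain ⟨hx1, hx2⟩ := hx
  have hX' : (3 : ℝ) ≤ X := by exact_mod_cast hX
  have hL0 : 0 ≤ Real.log X := Real.log_nonneg (by linarith only [hX'])
  set w : ℕ → ℕ → ℝ := fun r u => ∑ n ∈ Win x h, FS (cl (gP P1 P) c u) (S.filter (fun p => p % c = r)) n with hw
  have h1 : Mw (FS (gP P1 P) S) x h ((a : ℝ) / c) = ∑ r ∈ range c, ∑ u ∈ range c,
      ee (((r * u : ℕ) : ℝ) * ((a : ℝ) / c)) * ((w r u : ℝ) : ℂ) := by
    unfold Mw
    rw [Finset.sum_congr rfl fun n _ => MajR_dec (gP P1 P) S n c a hc]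
    rw [Finset.sum_comm]
    refine Finset.sum_congr rfl fun r _ => ?_
    rw [Finset.sum_comm]
    refine Finset.sum_congr rfl fun u _ => ?_
    rw [hw, Complex.ofReal_sum, Finset.mul_sum]
  have h2 : ‖Mw (FS (gP P1 P) S) x h ((a : ℝ) / c)‖ ≤ ∑ q ∈ range c ×ˢ range c, |w q.1 q.2| := by
    rw [h1, Finset.sum_product]
    refine (norm_sum_le _ _).trans (Finset.sum_le_sum fun r _ => ?_)
    refine (norm_sum_le _ _).trans (Finset.sum_le_sum fun u _ => ?_)
    rw [norm_mul, Pool.Agent.H91.PK.LSa_norm_ee, one_mul, Complex.norm_real, Real.norm_eq_abs]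
  have h3 : (∑ q ∈ range c ×ˢ range c, |w q.1 q.2|) ^ 2 ≤ (c : ℝ) ^ 2 * ∑ q ∈ range c ×ˢ range c, |w q.1 q.2| ^ 2 := by
    have := sq_sum_le_card_mul_sum_sq (s := range c ×ˢ range c) (f := fun q : ℕ × ℕ => |w q.1 q.2|)
    rw [Finset.card_product, Finset.card_range] at this
    push_cast at this
    rw [← sq] at this
    exact this
  have h4 : ∀ r u : ℕ, |w r u| ^ 2 ≤ 2 * (Uw (FS (cl (gP P1 P) c u) (S.filter (fun p => p % c = r))) ⌊h⌋₊ ⌈x + h / 2⌉₊) ^ 2
      + 32 * Real.log X ^ 2 := by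
    intro r u
    have h5 := MajR_w (FS (cl (gP P1 P) c u) (S.filter (fun p => p % c = r))) (4 * Real.log X) (by positivity) (3 * X)
      (fun n hn => MajR_bd P1 P c u n _ ((Finset.filter_subset _ _).trans hS) hX hn) x h hh (by linarith only [hhX, hx1])
      (by push_cast; linarith only [hhX, hx2, hX'])
    have h6 := abs_nonneg (w r u)
    have h7 := abs_nonneg (Uw (FS (cl (gP P1 P) c u) (S.filter (fun p => p % c = r))) ⌊h⌋₊ ⌈x + h / 2⌉₊)
    have h8 : |w r u| ^ 2 ≤ (|Uw (FS (cl (gP P1 P) c u) (S.filter (fun p => p % c = r))) ⌊h⌋₊ ⌈x + h / 2⌉₊| + 4 * Real.log X) ^ 2 :=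
      pow_le_pow_left₀ h6 h5 2
    rw [← sq_abs (Uw (FS (cl (gP P1 P) c u) (S.filter (fun p => p % c = r))) ⌊h⌋₊ ⌈x + h / 2⌉₊)]
    nlinarith only [h8, sq_nonneg (|Uw (FS (cl (gP P1 P) c u) (S.filter (fun p => p % c = r))) ⌊h⌋₊ ⌈x + h / 2⌉₊| - 4 * Real.log X)]
  calc ‖Mw (FS (gP P1 P) S) x h ((a : ℝ) / c)‖ ^ 2 ≤ (∑ q ∈ range c ×ˢ range c, |w q.1 q.2|) ^ 2 :=
        pow_le_pow_left₀ (norm_nonneg _) h2 2
    _ ≤ (c : ℝ) ^ 2 * ∑ q ∈ range c ×ˢ range c, |w q.1 q.2| ^ 2 := h3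
    _ ≤ _ := by
      apply mul_le_mul_of_nonneg_left _ (by positivity)
      rw [Finset.sum_product]
      exact Finset.sum_le_sum fun r _ => Finset.sum_le_sum fun u _ => h4 r u

/-- the integral of a function of `⌈x + h/2⌉₊` -/
private theorem MajR_int (T : ℕ → ℝ) (hT : ∀ j, 0 ≤ T j) (f : ℝ → ℝ) (hf0 : ∀ x, 0 ≤ f x) (X J : ℕ) (h : ℝ) (hh : 0 < h)
    (hJ : 2 * (X : ℝ) + h / 2 ≤ J) (hf : ∀ x ∈ Set.Icc (X : ℝ) (2 * X), f x ≤ T ⌈x + h / 2⌉₊) :
    ∫ x in Set.Icc (X : ℝ) (2 * X), f x ≤ ∑ j ∈ Ioc X J, T j := by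
  set I : ℕ → Set ℝ := fun j => Set.Ioc ((j : ℝ) - 1 - h / 2) ((j : ℝ) - h / 2) with hI
  have hIm : ∀ j, MeasurableSet (I j) := fun j => measurableSet_Ioc
  have hIv : ∀ j, volume (I j) = 1 := by
    intro j
    rw [hI]
    simp only [Real.volume_Ioc]
    rw [show (j : ℝ) - h / 2 - ((j : ℝ) - 1 - h / 2) = 1 by ring]
    simp
  have hint : ∀ j, Integrable ((I j).indicator (fun _ => T j)) volume := by
    intro j
    rw [integrable_indicator_iff (hIm j)]
    exact integrableOn_const (by rw [hIv j]; simp)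
  have hsum : Integrable (fun x => ∑ j ∈ Ioc X J, (I j).indicator (fun _ => T j) x) volume :=
    integrable_finsetSum _ fun j _ => hint j
  calc ∫ x in Set.Icc (X : ℝ) (2 * X), f x
      ≤ ∫ x in Set.Icc (X : ℝ) (2 * X), ∑ j ∈ Ioc X J, (I j).indicator (fun _ => T j) x := by
        apply integral_mono_of_nonneg (Filter.Eventually.of_forall hf0) hsum.integrableOn
        rw [Filter.EventuallyLE, ae_restrict_iff' measurableSet_Icc]
        refine Filter.Eventually.of_forall fun x hx => (hf x hx).trans ?_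
        set j := ⌈x + h / 2⌉₊ with hj
        have h1 : x + h / 2 ≤ j := Nat.le_ceil _
        have h0X : (0 : ℝ) ≤ X := Nat.cast_nonneg _
        have h2 : (j : ℝ) < x + h / 2 + 1 := Nat.ceil_lt_add_one (by linarith only [hh, hx, hx.1])
        have hjm : j ∈ Ioc X J := by
          rw [Finset.mem_Ioc]
          constructor
          · have : (X : ℝ) < j := by linarith only [hh, h1, hx, hx.1]
            exact_mod_cast this
          · apply Nat.ceil_le.2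
            linarith only [hJ, hx, hx.2]
        have hnn : ∀ i ∈ Ioc X J, 0 ≤ (I i).indicator (fun _ => T i) x := fun i _ =>
          Set.indicator_nonneg (fun _ _ => hT i) x
        have h3 := Finset.single_le_sum hnn hjm
        have h4 : (I j).indicator (fun _ => T j) x = T j := by
          apply Set.indicator_of_mem
          rw [hI]
          constructor
          · linarith only [h2]
          · linarith only [h1]
        rw [h4] at h3
        exact h3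
    _ ≤ ∫ x, ∑ j ∈ Ioc X J, (I j).indicator (fun _ => T j) x := by
        apply setIntegral_le_integral hsum
        refine Filter.Eventually.of_forall fun x => ?_
        exact Finset.sum_nonneg fun i _ => Set.indicator_nonneg (fun _ _ => hT i) x
    _ = ∑ j ∈ Ioc X J, T j := by
        rw [integral_finsetSum _ fun j _ => hint j]
        refine Finset.sum_congr rfl fun j _ => ?_
        rw [integral_indicator (hIm j), setIntegral_const, Measure.real, hIv j]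
        simp

theorem maj_r_h (h_maj_d : maj_d_P) (hV : VKw (19 / 20)) (s : ℝ) (hs0 : 0 < s) (hs : s < 1) (A B : ℕ) : ∃ b κ X0 : ℕ, ∀ X : ℕ, X0 ≤ X →
    ∀ (P1 P c a : ℕ) (S : Finset ℕ) (h : ℝ), Real.log X ^ b ≤ P → (P : ℝ) ≤ Real.exp (Real.log X ^ s) → (P : ℝ) ^ 11 ≤ h →
      h ≤ X / Real.log X ^ κ → S ⊆ pb P → 1 ≤ c → (c : ℝ) ≤ Real.log X ^ B →
      ∫ x in Set.Icc (X : ℝ) (2 * X), ‖Mw (FS (gP P1 P) S) x h ((a : ℝ) / c)‖ ^ 2 ≤ X * h ^ 2 / Real.log X ^ A := by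
  obtain ⟨b0, κ0, X0, hmaj⟩ := h_maj_d hV s hs0 hs (A + 4 * B + 4) B
  obtain ⟨X1, hX1⟩ := Pool.Agent.H76.MU.log_ge 23
  refine ⟨max b0 (A + 4 * B + 4), max κ0 (A + 4 * B + 4), max X0 (max X1 3), ?_⟩
  intro X hX P1 P c a S h hbP hPs hPh hhX hS hc hcB
  have hX0 : X0 ≤ X := (le_max_left _ _).trans hX
  have hXX1 : X1 ≤ X := ((le_max_left _ _).trans (le_max_right _ _)).trans hX
  have hX3 : 3 ≤ X := ((le_max_right _ _).trans (le_max_right _ _)).trans hX
  have hX3' : (3 : ℝ) ≤ X := by exact_mod_cast hX3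
  set L := Real.log X with hL
  have hL23 : 23 ≤ L := hX1 X hXX1
  have hL1 : 1 ≤ L := by linarith only [hs0, hs, hL23]
  have hL0 : 0 < L := by linarith only [hs0, hs, hL23]
  set D := A + 4 * B + 4 with hD
  have hPD : L ^ D ≤ P := (pow_le_pow_right₀ hL1 (le_max_right _ _)).trans hbP
  have hP1 : (1 : ℝ) ≤ P := (one_le_pow₀ hL1).trans hPD
  have hPh1 : (P : ℝ) ≤ h := by
    calc (P : ℝ) = (P : ℝ) ^ 1 := (pow_one _).symm
      _ ≤ (P : ℝ) ^ 11 := pow_le_pow_right₀ hP1 (by norm_num)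
      _ ≤ h := hPh
  have hh1 : 1 ≤ h := hP1.trans hPh1
  have hhD : L ^ D ≤ h := hPD.trans hPh1
  have hhκ : h ≤ X / L ^ D := by
    refine hhX.trans ?_
    apply div_le_div_of_nonneg_left (by positivity) (by positivity)
    exact pow_le_pow_right₀ hL1 (le_max_right _ _)
  have hhκ0 : h ≤ X / L ^ κ0 := by
    refine hhX.trans ?_
    apply div_le_div_of_nonneg_left (by positivity) (by positivity)
    exact pow_le_pow_right₀ hL1 (le_max_left _ _)
  have hhX1 : h ≤ X := by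
    refine hhκ.trans ?_
    apply div_le_self (by positivity)
    exact one_le_pow₀ hL1
  set h0 := ⌊h⌋₊ with hh0
  have h0h : (h0 : ℝ) ≤ h := Nat.floor_le (by linarith only [hs0, hs, hP1, hPh1])
  have hh01 : h < h0 + 1 := Nat.lt_floor_add_one _
  have h0X : h0 ≤ X := by
    have : (h0 : ℝ) ≤ X := h0h.trans hhX1
    exact_mod_cast this
  have hP10 : P ^ 10 ≤ h0 := by
    have h1 : P ^ 11 ≤ h0 := by
      apply Nat.le_floor
      push_cast
      exact hPh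
    have h2 : 1 ≤ P := by exact_mod_cast hP1
    exact (Nat.pow_le_pow_right h2 (by norm_num)).trans h1
  set G : ℕ → ℕ → ℕ → ℝ := fun r u => FS (cl (gP P1 P) c u) (S.filter (fun p => p % c = r)) with hG
  set T : ℕ → ℝ := fun j => (c : ℝ) ^ 2 * ∑ r ∈ range c, ∑ u ∈ range c, (2 * (Uw (G r u) h0 j) ^ 2 + 32 * L ^ 2) with hT
  have hT0 : ∀ j, 0 ≤ T j := fun j => by
    rw [hT]
    refine mul_nonneg (by positivity) (Finset.sum_nonneg fun r _ => Finset.sum_nonneg fun u _ => by positivity)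
  have hstep : ∫ x in Set.Icc (X : ℝ) (2 * X), ‖Mw (FS (gP P1 P) S) x h ((a : ℝ) / c)‖ ^ 2 ≤ ∑ j ∈ Ioc X (2 * X + h0 + 1), T j := by
    apply MajR_int T hT0 _ (fun x => by positivity) X (2 * X + h0 + 1) h (by linarith only [hs0, hs, hP1, hPh1]) (by push_cast; linarith only [hs0, hs, hP1, hPh1, hh01])
    intro x hx
    exact MajR_pt P1 P c a X S hS hc hX3 h hh1 hhX1 x hx
  refine hstep.trans ?_
  have hsplit : ∑ j ∈ Ioc X (2 * X + h0 + 1), T j = ∑ j ∈ Ioc X (2 * X), T j + ∑ j ∈ Ioc (2 * X) (2 * X + h0 + 1), T j :=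
    (Finset.sum_Ioc_consecutive T (by omega) (by omega)).symm
  rw [hsplit]
  have hGS : ∀ r, S.filter (fun p => p % c = r) ⊆ pb P := fun r => (Finset.filter_subset _ _).trans hS
  -- the main part
  have hmain : ∑ j ∈ Ioc X (2 * X), T j ≤ (c : ℝ) ^ 4 * (2 * (X * h ^ 2 / L ^ D) + 32 * L ^ 2 * X) := by
    rw [hT]
    simp only
    rw [← Finset.mul_sum, Finset.sum_comm]
    have h1 : ∀ r ∈ range c, ∑ j ∈ Ioc X (2 * X), ∑ u ∈ range c, (2 * (Uw (G r u) h0 j) ^ 2 + 32 * L ^ 2)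
        ≤ c * (2 * (X * h ^ 2 / L ^ D) + 32 * L ^ 2 * X) := by
      intro r _
      rw [Finset.sum_comm]
      have h2 : ∀ u ∈ range c, ∑ j ∈ Ioc X (2 * X), (2 * (Uw (G r u) h0 j) ^ 2 + 32 * L ^ 2)
          ≤ 2 * (X * h ^ 2 / L ^ D) + 32 * L ^ 2 * X := by
        intro u _
        rw [Finset.sum_add_distrib, ← Finset.mul_sum, Finset.sum_const, Nat.card_Ioc, nsmul_eq_mul]
        have h3 := hmaj X hX0 P1 P h0 c u (S.filter (fun p => p % c = r))
          ((pow_le_pow_right₀ hL1 (le_max_left _ _)).trans hbP) hPs hP10 (h0h.trans hhκ0) (hGS r) hc hcB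
        have h4 : (X : ℝ) * (h0 : ℝ) ^ 2 / L ^ D ≤ X * h ^ 2 / L ^ D := by
          apply div_le_div_of_nonneg_right _ (by positivity)
          apply mul_le_mul_of_nonneg_left _ (by positivity)
          exact pow_le_pow_left₀ (by positivity) h0h 2
        have h5 : ((2 * X - X : ℕ) : ℝ) = X := by
          have : 2 * X - X = X := by omega
          rw [this]
        rw [h5]
        have h6 := h3.trans h4
        nlinarith only [h3, h4]
      refine (Finset.sum_le_sum h2).trans ?_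
      rw [Finset.sum_const, Finset.card_range, nsmul_eq_mul]
    have h2 := Finset.sum_le_sum h1
    rw [Finset.sum_const, Finset.card_range, nsmul_eq_mul] at h2
    have h3 := mul_le_mul_of_nonneg_left h2 (show (0 : ℝ) ≤ (c : ℝ) ^ 2 by positivity)
    refine h3.trans (le_of_eq ?_)
    ring
  -- the rest
  have hrest : ∑ j ∈ Ioc (2 * X) (2 * X + h0 + 1), T j ≤ (c : ℝ) ^ 4 * (128 * h ^ 3 * L ^ 2) := by
    have h1 : ∀ j ∈ Ioc (2 * X) (2 * X + h0 + 1), T j ≤ (c : ℝ) ^ 4 * (64 * h ^ 2 * L ^ 2) := by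
      intro j hj
      rw [Finset.mem_Ioc] at hj
      have h2 : ∀ r u : ℕ, 2 * (Uw (G r u) h0 j) ^ 2 + 32 * L ^ 2 ≤ 64 * h ^ 2 * L ^ 2 := by
        intro r u
        have h3 := MajR_Uw (G r u) (4 * L) (by positivity) h0 j (fun n hn => MajR_bd P1 P c u n _ (hGS r) hX3 (by omega))
        have h4 : |Uw (G r u) h0 j| ≤ h * (4 * L) := h3.trans (mul_le_mul_of_nonneg_right h0h (by positivity))
        have h5 : (Uw (G r u) h0 j) ^ 2 ≤ (h * (4 * L)) ^ 2 := by
          rw [← sq_abs]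
          exact pow_le_pow_left₀ (abs_nonneg _) h4 2
        have h6 : L ^ 2 ≤ h ^ 2 * L ^ 2 := by
          have : 1 ≤ h ^ 2 := one_le_pow₀ hh1
          nlinarith only [this, sq_nonneg L]
        nlinarith only [h5, h6]
      rw [hT]
      simp only
      have h3 : ∑ r ∈ range c, ∑ u ∈ range c, (2 * (Uw (G r u) h0 j) ^ 2 + 32 * L ^ 2)
          ≤ ∑ r ∈ range c, ∑ u ∈ range c, (64 * h ^ 2 * L ^ 2) :=
        Finset.sum_le_sum fun r _ => Finset.sum_le_sum fun u _ => h2 r u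
      rw [Finset.sum_const, Finset.sum_const, Finset.card_range, nsmul_eq_mul, nsmul_eq_mul] at h3
      have h4 := mul_le_mul_of_nonneg_left h3 (show (0 : ℝ) ≤ (c : ℝ) ^ 2 by positivity)
      refine h4.trans (le_of_eq ?_)
      ring
    refine (Finset.sum_le_sum h1).trans ?_
    rw [Finset.sum_const, Nat.card_Ioc, nsmul_eq_mul]
    have h2 : ((2 * X + h0 + 1 - 2 * X : ℕ) : ℝ) ≤ 2 * h := by
      have h3 : 2 * X + h0 + 1 - 2 * X = h0 + 1 := by omega
      rw [h3]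
      push_cast
      linarith only [hP1, hPh1, h0h]
    have h3 : (0 : ℝ) ≤ (c : ℝ) ^ 4 * (64 * h ^ 2 * L ^ 2) := by positivity
    refine (mul_le_mul_of_nonneg_right h2 h3).trans (le_of_eq ?_)
    ring
  have hc4 : (c : ℝ) ^ 4 ≤ L ^ (4 * B) := by
    calc (c : ℝ) ^ 4 ≤ (L ^ B) ^ 4 := pow_le_pow_left₀ (by positivity) hcB 4
      _ = L ^ (4 * B) := by rw [← pow_mul, mul_comm]
  have htot : ∑ j ∈ Ioc X (2 * X), T j + ∑ j ∈ Ioc (2 * X) (2 * X + h0 + 1), T j ≤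
      L ^ (4 * B) * (2 * (X * h ^ 2 / L ^ D) + 32 * L ^ 2 * X + 128 * h ^ 3 * L ^ 2) := by
    have h1 : (0 : ℝ) ≤ 2 * (X * h ^ 2 / L ^ D) + 32 * L ^ 2 * X + 128 * h ^ 3 * L ^ 2 := by positivity
    have h2 := mul_le_mul_of_nonneg_right hc4 h1
    nlinarith only [hmain, hrest, h2]
  refine htot.trans ?_
  rw [le_div_iff₀ (by positivity)]
  have hLD : L ^ D = L ^ A * L ^ (4 * B) * L ^ 4 := by rw [hD, pow_add, pow_add]
  have hLD0 : 0 < L ^ D := by positivity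
  -- the three terms
  have e1 : L ^ (4 * B) * (2 * (X * h ^ 2 / L ^ D)) * L ^ A ≤ (1 / 4) * (X * h ^ 2) := by
    have h1 : L ^ (4 * B) * (2 * (X * h ^ 2 / L ^ D)) * L ^ A = 2 * (X * h ^ 2) / L ^ 4 := by
      rw [hLD]
      field_simp
    rw [h1, div_le_iff₀ (by positivity)]
    have h2 : (8 : ℝ) ≤ L ^ 4 := by
      calc (8 : ℝ) ≤ 23 := by norm_num
        _ ≤ L := hL23
        _ = L ^ 1 := (pow_one _).symm
        _ ≤ L ^ 4 := pow_le_pow_right₀ hL1 (by norm_num)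
    have h3 : (0 : ℝ) ≤ X * h ^ 2 := by positivity
    nlinarith only [hs0, hs, h2, h3]
  have hL2 : (529 : ℝ) ≤ L ^ 2 := by nlinarith only [hL23]
  have e2 : L ^ (4 * B) * (32 * L ^ 2 * X) * L ^ A ≤ (1 / 4) * (X * h ^ 2) := by
    have h1 : L ^ (4 * B) * (32 * L ^ 2 * X) * L ^ A * L ^ 2 = 32 * X * L ^ D := by
      rw [hLD]
      ring
    have h2 : L ^ D ≤ h ^ 2 := by nlinarith only [hPD, hP1, hPh1]
    have h3 : 32 * (X : ℝ) * L ^ D ≤ 32 * X * h ^ 2 := mul_le_mul_of_nonneg_left h2 (by positivity)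
    have h4 : (0 : ℝ) ≤ L ^ (4 * B) * (32 * L ^ 2 * X) * L ^ A := by positivity
    nlinarith only [h1, h2, hX3', hs0, hs, hL2, h4]
  have e3 : L ^ (4 * B) * (128 * h ^ 3 * L ^ 2) * L ^ A ≤ (1 / 4) * (X * h ^ 2) := by
    have h1 : L ^ (4 * B) * (128 * h ^ 3 * L ^ 2) * L ^ A * L ^ 2 = 128 * h ^ 2 * (h * L ^ D) := by
      rw [hLD]
      ring
    have h2 : h * L ^ D ≤ X := by rwa [le_div_iff₀ hLD0] at hhκ
    have h3 : 128 * h ^ 2 * (h * L ^ D) ≤ 128 * h ^ 2 * X := mul_le_mul_of_nonneg_left h2 (by positivity)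
    have h4 : (0 : ℝ) ≤ L ^ (4 * B) * (128 * h ^ 3 * L ^ 2) * L ^ A := by positivity
    nlinarith only [h1, h3, hX3', hs0, hs, hL2, h4]
  have h5 : (0 : ℝ) ≤ X * h ^ 2 := by positivity
  have e4 : L ^ (4 * B) * (2 * (X * h ^ 2 / L ^ D) + 32 * L ^ 2 * X + 128 * h ^ 3 * L ^ 2) * L ^ A
      = L ^ (4 * B) * (2 * (X * h ^ 2 / L ^ D)) * L ^ A + L ^ (4 * B) * (32 * L ^ 2 * X) * L ^ A
        + L ^ (4 * B) * (128 * h ^ 3 * L ^ 2) * L ^ A := by ring
  rw [e4]
  linarith only [e1, e2, e3, h5]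

end Pool.Agent.H43.CH

end

section

/-!
# MU Fou: comparison of two window lengths by Parseval

Proof.  `D j = Uw G h j/h - Uw G h' j/h'` vanishes outside `Icc 1 (N1 + h')` (for `j = 0` the window `Ico (0 - h) 0` is empty; `G 0 = 0`).
`FF D (N1 + h') θ = FF G N1 θ · (kap h θ - kap h' θ)`: `n ∈ Ico (j - h) j` iff `n < j ≤ n + h` (natural subtraction is harmless), so
`∑_j ee(j θ) Uw G h j = ∑_n G n ∑_{r=1}^h ee((n + r) θ)`.  Parseval (`FF_parseval` in `H76/EHB`, period 1; the integral over `[-1/2, 1/2]` equals that over `[0, 1]`):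
`∑_j D(j)^2 = ∫_{-1/2}^{1/2} |FF G|^2 |kap h - kap h'|^2`.  Now `|kap| ≤ 1`, `|kap h θ - 1| ≤ 2 π h |θ|` (`|ee(r θ) - 1| ≤ 2 π r |θ|`), `|kap h θ| ≤ 1/(2 h |θ|)` for `0 < |θ| ≤ 1/2`
(geometric sum; `|1 - ee θ| ≥ 4|θ|`; `Pool.Agent.H76.SP` has such a bound in `VinD.lean`).  `|θ| ≤ Y0`: the difference is `≤ 2 π (h + h')|θ| ≤ 13 h' Y0`; `|θ| ≥ Y`: `≤ 1/(h Y)`; in between `≤ 2`.
`∫ |FF G|^2 = S2 G N1`.
-/

set_option autoImplicit false

namespace Pool.Agent.H76.MU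

open Finset MeasureTheory
open Pool.Agent.H91.PK (ee)
open Pool.Agent.H76.EHB
open Pool.Agent.H35.W

private theorem fou_ee_eq (t : ℝ) : ee t = Complex.exp (Complex.I * ((2 * Real.pi * t : ℝ) : ℂ)) := by
  unfold ee
  congr 1
  push_cast
  ring

private theorem fou_ee_sub_one (t : ℝ) : ‖ee t - 1‖ ≤ 2 * Real.pi * |t| := by
  rw [fou_ee_eq]
  refine (Real.norm_exp_I_mul_ofReal_sub_one_le).trans (le_of_eq ?_)
  rw [Real.norm_eq_abs, abs_mul, abs_mul, abs_of_pos Real.pi_pos, abs_of_pos (by norm_num : (0 : ℝ) < 2)]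

private theorem fou_ee_sub_one_ge (t : ℝ) (ht : |t| ≤ 1 / 2) : 4 * |t| ≤ ‖ee t - 1‖ := by
  rw [fou_ee_eq, Complex.norm_exp_I_mul_ofReal_sub_one, Real.norm_eq_abs, abs_mul,
    abs_of_pos (by norm_num : (0 : ℝ) < 2)]
  have e1 : (2 * Real.pi * t) / 2 = Real.pi * t := by ring
  rw [e1]
  have h1 : |Real.sin (Real.pi * t)| = |Real.sin (Real.pi * |t|)| := by
    rcases abs_choice t with h | h
    · rw [h]
    · rw [h, mul_neg, Real.sin_neg, abs_neg]
  rw [h1]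
  have hp := Real.pi_pos
  have h2 : 2 / Real.pi * (Real.pi * |t|) ≤ Real.sin (Real.pi * |t|) := by
    apply Real.mul_le_sin (by positivity)
    nlinarith
  have h3 : 2 / Real.pi * (Real.pi * |t|) = 2 * |t| := by
    field_simp
  rw [h3] at h2
  have h4 := le_abs_self (Real.sin (Real.pi * |t|))
  linarith

private theorem fou_kap_le_one (h : ℕ) (h1 : 1 ≤ h) (θ : ℝ) : ‖kap h θ‖ ≤ 1 := by
  have hh : (0 : ℝ) < h := by exact_mod_cast h1
  unfold kap
  rw [norm_mul, norm_div, norm_one, Complex.norm_natCast]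
  have h2 : ‖∑ r ∈ Icc 1 h, ee (r * θ)‖ ≤ h := by
    refine (norm_sum_le _ _).trans (le_of_eq ?_)
    simp only [norm_ee, sum_const, Nat.card_Icc, Nat.add_sub_cancel, nsmul_eq_mul, mul_one]
  rw [one_div, inv_mul_le_iff₀ hh, mul_one]
  exact h2

private theorem fou_kap_near (h : ℕ) (h1 : 1 ≤ h) (θ : ℝ) :
    ‖kap h θ - 1‖ ≤ 2 * Real.pi * h * |θ| := by
  have hh : (0 : ℝ) < h := by exact_mod_cast h1
  have hc : (h : ℂ) ≠ 0 := by exact_mod_cast hh.ne'
  have hp := Real.pi_pos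
  have e1 : kap h θ - 1 = (1 / (h : ℂ)) * ∑ r ∈ Icc 1 h, (ee (r * θ) - 1) := by
    unfold kap
    rw [sum_sub_distrib, sum_const, Nat.card_Icc, Nat.add_sub_cancel, nsmul_eq_mul, mul_one, mul_sub,
      one_div, inv_mul_cancel₀ hc]
  rw [e1, norm_mul, norm_div, norm_one, Complex.norm_natCast]
  have h2 : ‖∑ r ∈ Icc 1 h, (ee (r * θ) - 1)‖ ≤ ∑ r ∈ Icc 1 h, 2 * Real.pi * h * |θ| := by
    refine (norm_sum_le _ _).trans (sum_le_sum fun r hr => ?_)
    refine (fou_ee_sub_one _).trans ?_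
    rw [abs_mul, Nat.abs_cast]
    have : (r : ℝ) ≤ h := by exact_mod_cast (mem_Icc.1 hr).2
    have h3 := abs_nonneg θ
    have : (r : ℝ) * |θ| ≤ h * |θ| := mul_le_mul_of_nonneg_right this h3
    nlinarith
  rw [sum_const, Nat.card_Icc, Nat.add_sub_cancel, nsmul_eq_mul] at h2
  rw [one_div, inv_mul_le_iff₀ hh]
  exact h2

private theorem fou_kap_far (h : ℕ) (h1 : 1 ≤ h) (θ : ℝ) (h0 : θ ≠ 0) (h2 : |θ| ≤ 1 / 2) :
    ‖kap h θ‖ ≤ 1 / (2 * h * |θ|) := by
  have hh : (0 : ℝ) < h := by exact_mod_cast h1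
  have ha : 0 < |θ| := abs_pos.2 h0
  have e1 : (∑ r ∈ Icc 1 h, ee (r * θ)) * (ee θ - 1) = ee ((h + 1) * θ) - ee θ := by
    have : ∀ k : ℕ, (∑ r ∈ Icc 1 k, ee (r * θ)) * (ee θ - 1) = ee ((k + 1) * θ) - ee θ := by
      intro k
      induction k with
      | zero => simp
      | succ k ih =>
        rw [Finset.sum_Icc_succ_top (by omega), add_mul, ih]
        have e2 : ee (((k + 1 : ℕ) : ℝ) * θ) * (ee θ - 1)
            = ee ((((k + 1 : ℕ) : ℝ) + 1) * θ) - ee (((k : ℝ) + 1) * θ) := by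
          rw [mul_sub, ← Pool.Agent.H91.PK.LSa_ee_add, mul_one]
          have e3 : ((k + 1 : ℕ) : ℝ) * θ + θ = (((k + 1 : ℕ) : ℝ) + 1) * θ := by ring
          rw [e3]
          push_cast
          ring
        rw [e2]
        ring
    exact this h
  have h3 : ‖∑ r ∈ Icc 1 h, ee (r * θ)‖ * ‖ee θ - 1‖ ≤ 2 := by
    rw [← norm_mul, e1]
    refine (norm_sub_le _ _).trans ?_
    rw [norm_ee, norm_ee]
    norm_num
  have h4 := fou_ee_sub_one_ge θ h2
  have h5 : ‖∑ r ∈ Icc 1 h, ee (r * θ)‖ * (4 * |θ|) ≤ 2 :=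
    (mul_le_mul_of_nonneg_left h4 (norm_nonneg _)).trans h3
  unfold kap
  rw [norm_mul, norm_div, norm_one, Complex.norm_natCast, one_div, inv_mul_le_iff₀ hh]
  have e4 : (h : ℝ) * (1 / (2 * h * |θ|)) = 1 / (2 * |θ|) := by
    field_simp
  rw [e4, le_div_iff₀ (by positivity)]
  linarith

private theorem fou_Uw (G : ℕ → ℝ) (N1 h j : ℕ) (hG : ∀ n, n ∉ Icc 1 N1 → G n = 0) :
    Uw G h j = ∑ n ∈ Icc 1 N1, if n ∈ Ico (j - h) j then G n else 0 := by
  unfold Uw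
  rw [← sum_filter]
  symm
  refine sum_subset (fun n hn => (mem_filter.1 hn).2) fun n hn hn' => hG n fun h2 => hn' ?_
  exact mem_filter.2 ⟨h2, hn⟩

private theorem fou_sum (G : ℕ → ℝ) (N1 h M : ℕ) (θ : ℝ) (hG : ∀ n, n ∉ Icc 1 N1 → G n = 0)
    (hM : N1 + h ≤ M) :
    ∑ j ∈ Icc 1 M, ((Uw G h j : ℝ) : ℂ) * ee (j * θ)
      = FF G N1 θ * ∑ r ∈ Icc 1 h, ee (r * θ) := by
  have e1 : ∀ j ∈ Icc 1 M, ((Uw G h j : ℝ) : ℂ) * ee (j * θ)
      = ∑ n ∈ Icc 1 N1, if n ∈ Ico (j - h) j then ((G n : ℝ) : ℂ) * ee (j * θ) else 0 := by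
    intro j _
    rw [fou_Uw G N1 h j hG]
    push_cast
    rw [sum_mul]
    refine sum_congr rfl fun n _ => ?_
    split_ifs <;> simp
  rw [sum_congr rfl e1, sum_comm]
  unfold FF
  rw [sum_mul]
  refine sum_congr rfl fun n hn => ?_
  rw [← sum_filter]
  have hn2 := mem_Icc.1 hn
  have e2 : (Icc 1 M).filter (fun j => n ∈ Ico (j - h) j) = Ioc n (n + h) := by
    ext j
    rw [mem_filter, mem_Icc, mem_Ico, mem_Ioc]
    omega
  rw [e2, mul_assoc, mul_sum, mul_sum]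
  refine sum_nbij' (fun j => j - n) (fun r => n + r) ?_ ?_ ?_ ?_ ?_
  · intro j hj
    rw [mem_Ioc] at hj
    rw [mem_Icc]
    omega
  · intro r hr
    rw [mem_Icc] at hr
    rw [mem_Ioc]
    omega
  · intro j hj
    rw [mem_Ioc] at hj
    omega
  · intro r hr
    omega
  · intro j hj
    rw [mem_Ioc] at hj
    rw [← Pool.Agent.H91.PK.LSa_ee_add]
    have : (j : ℝ) * θ = (n : ℝ) * θ + ((j - n : ℕ) : ℝ) * θ := by
      rw [Nat.cast_sub hj.1.le]
      ring
    rw [this]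

private theorem fou_FF (G : ℕ → ℝ) (N1 h h' : ℕ) (θ : ℝ) (hG : ∀ n, n ∉ Icc 1 N1 → G n = 0)
    (hh : h ≤ h') :
    FF (fun j => Uw G h j / h - Uw G h' j / h') (N1 + h') θ
      = FF G N1 θ * (kap h θ - kap h' θ) := by
  have e1 := fou_sum G N1 h (N1 + h') θ hG (by omega)
  have e2 := fou_sum G N1 h' (N1 + h') θ hG le_rfl
  unfold kap
  have e3 : FF (fun j => Uw G h j / h - Uw G h' j / h') (N1 + h') θ
      = (1 / (h : ℂ)) * ∑ j ∈ Icc 1 (N1 + h'), ((Uw G h j : ℝ) : ℂ) * ee (j * θ)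
        - (1 / (h' : ℂ)) * ∑ j ∈ Icc 1 (N1 + h'), ((Uw G h' j : ℝ) : ℂ) * ee (j * θ) := by
    unfold FF
    rw [mul_sum, mul_sum, ← sum_sub_distrib]
    refine sum_congr rfl fun j _ => ?_
    push_cast
    ring
  rw [e3, e1, e2]
  ring

theorem fou (G : ℕ → ℝ) (N1 h h' X : ℕ) (Y0 Y : ℝ) (hG : ∀ n, n ∉ Icc 1 N1 → G n = 0)
    (h1 : 1 ≤ h) (hh : h ≤ h') (hY0 : 0 ≤ Y0) (hY : Y0 ≤ Y) (hYp : 0 < Y) (hY2 : Y ≤ 1 / 2) :
    ∑ j ∈ Ioc X (2 * X), (Uw G h j / h - Uw G h' j / h') ^ 2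
      ≤ 4 * (∫ y in Set.Icc Y0 Y, ‖FF G N1 (1 * y)‖ ^ 2)
        + 4 * (∫ y in Set.Icc Y0 Y, ‖FF G N1 (-1 * y)‖ ^ 2)
        + ((13 * h' * Y0) ^ 2 + (1 / (h * Y)) ^ 2) * S2 G N1 := by
  have h1' : 1 ≤ h' := h1.trans hh
  have hhp : (0 : ℝ) < h := by exact_mod_cast h1
  have hhp' : (0 : ℝ) < h' := by exact_mod_cast h1'
  have hhr : (h : ℝ) ≤ h' := by exact_mod_cast hh
  have hpi := Real.pi_pos
  set D : ℕ → ℝ := fun j => Uw G h j / h - Uw G h' j / h' with hD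
  set F : ℝ → ℝ := fun t => ‖FF G N1 t‖ ^ 2 with hF
  set W : ℝ → ℝ := fun t => ‖FF D (N1 + h') t‖ ^ 2 with hW
  have hFc : Continuous F := (FF_continuous G N1).norm.pow 2
  have hWc : Continuous W := (FF_continuous D (N1 + h')).norm.pow 2
  have hF0 : ∀ t, 0 ≤ F t := fun t => sq_nonneg _
  -- the left side
  have hL : ∑ j ∈ Ioc X (2 * X), (Uw G h j / h - Uw G h' j / h') ^ 2 ≤ S2 D (N1 + h') := by
    unfold S2
    have e1 : ∑ j ∈ Ioc X (2 * X), (Uw G h j / h - Uw G h' j / h') ^ 2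
        = ∑ j ∈ (Ioc X (2 * X)).filter (fun j => j ∈ Icc 1 (N1 + h')), D j ^ 2 := by
      symm
      refine sum_subset (filter_subset _ _) fun j hj hj' => ?_
      have hj1 := mem_Ioc.1 hj
      have hj2 : N1 + h' < j := by
        by_contra hc
        exact hj' (mem_filter.2 ⟨hj, mem_Icc.2 ⟨by omega, by omega⟩⟩)
      have e2 : ∀ k : ℕ, k ≤ h' → Uw G k j = 0 := by
        intro k hk
        unfold Uw
        refine sum_eq_zero fun n hn => hG n fun h3 => ?_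
        have h4 := mem_Ico.1 hn
        have h5 := mem_Icc.1 h3
        omega
      simp only [hD, e2 h hh, e2 h' le_rfl, zero_div, sub_zero]
      norm_num
    rw [e1]
    exact sum_le_sum_of_subset_of_nonneg (fun j hj => (mem_filter.1 hj).2)
      fun _ _ _ => sq_nonneg _
  have hP : ∫ t in (-(1 / 2 : ℝ))..(1 / 2), W t = S2 D (N1 + h') := by
    have := FF_parseval D (N1 + h') (-(1 / 2))
    rw [show (-(1 / 2 : ℝ)) + 1 = 1 / 2 by norm_num] at this
    exact this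
  have hPG : ∫ t in (-(1 / 2 : ℝ))..(1 / 2), F t = S2 G N1 := by
    have := FF_parseval G N1 (-(1 / 2))
    rw [show (-(1 / 2 : ℝ)) + 1 = 1 / 2 by norm_num] at this
    exact this
  have hWF : ∀ t, W t = F t * ‖kap h t - kap h' t‖ ^ 2 := by
    intro t
    simp only [hW, hF]
    rw [hD, fou_FF G N1 h h' t hG hh, norm_mul, mul_pow]
  -- pointwise bounds
  have b1 : ∀ t, |t| ≤ Y0 → W t ≤ (13 * h' * Y0) ^ 2 * F t := by
    intro t ht
    rw [hWF, mul_comm]
    refine mul_le_mul_of_nonneg_right ?_ (hF0 t)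
    refine pow_le_pow_left₀ (norm_nonneg _) ?_ 2
    have e1 : kap h t - kap h' t = (kap h t - 1) - (kap h' t - 1) := by ring
    rw [e1]
    refine (norm_sub_le _ _).trans ?_
    have c1 := fou_kap_near h h1 t
    have c2 := fou_kap_near h' h1' t
    have c3 : 2 * Real.pi * h * |t| ≤ 2 * Real.pi * h' * Y0 := by
      apply mul_le_mul _ ht (abs_nonneg _) (by positivity)
      exact mul_le_mul_of_nonneg_left hhr (by positivity)
    have c4 : 2 * Real.pi * h' * |t| ≤ 2 * Real.pi * h' * Y0 :=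
      mul_le_mul_of_nonneg_left ht (by positivity)
    have c5 : 4 * Real.pi * (h' * Y0) ≤ 13 * (h' * Y0) := by
      apply mul_le_mul_of_nonneg_right _ (by positivity)
      have := Real.pi_lt_d2
      linarith
    linarith
  have b2 : ∀ t, W t ≤ 4 * F t := by
    intro t
    rw [hWF, mul_comm]
    refine mul_le_mul_of_nonneg_right ?_ (hF0 t)
    have c1 : ‖kap h t - kap h' t‖ ≤ 2 := by
      refine (norm_sub_le _ _).trans ?_
      have := fou_kap_le_one h h1 t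
      have := fou_kap_le_one h' h1' t
      linarith
    have := pow_le_pow_left₀ (norm_nonneg (kap h t - kap h' t)) c1 2
    linarith
  have b3 : ∀ t, Y ≤ |t| → |t| ≤ 1 / 2 → W t ≤ (1 / (h * Y)) ^ 2 * F t := by
    intro t ht ht2
    rw [hWF, mul_comm]
    refine mul_le_mul_of_nonneg_right ?_ (hF0 t)
    refine pow_le_pow_left₀ (norm_nonneg _) ?_ 2
    refine (norm_sub_le _ _).trans ?_
    have h0 : t ≠ 0 := by
      intro hc
      rw [hc, abs_zero] at ht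
      linarith
    have ha : 0 < |t| := abs_pos.2 h0
    have c1 := fou_kap_far h h1 t h0 ht2
    have c2 := fou_kap_far h' h1' t h0 ht2
    have c3 : 1 / (2 * h * |t|) ≤ 1 / (2 * h * Y) := by
      apply one_div_le_one_div_of_le (by positivity)
      exact mul_le_mul_of_nonneg_left ht (by positivity)
    have c4 : 1 / (2 * h' * |t|) ≤ 1 / (2 * h * Y) := by
      apply one_div_le_one_div_of_le (by positivity)
      apply mul_le_mul _ ht hYp.le (by positivity)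
      exact mul_le_mul_of_nonneg_left hhr (by norm_num)
    have c5 : 1 / (2 * h * Y) + 1 / (2 * h * Y) = 1 / ((h : ℝ) * Y) := by
      field_simp
      norm_num
    linarith
  -- splitting
  have iW : ∀ a b : ℝ, IntervalIntegrable W volume a b := fun a b => hWc.intervalIntegrable a b
  have iF : ∀ a b : ℝ, IntervalIntegrable F volume a b := fun a b => hFc.intervalIntegrable a b
  have sp : ∀ g : ℝ → ℝ, (∀ a b : ℝ, IntervalIntegrable g volume a b) →
      ∫ t in (-(1 / 2 : ℝ))..(1 / 2), g t = (∫ t in (-(1 / 2 : ℝ))..(-Y), g t)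
        + (∫ t in (-Y)..(-Y0), g t) + (∫ t in (-Y0)..Y0, g t) + (∫ t in Y0..Y, g t)
        + (∫ t in Y..(1 / 2), g t) := by
    intro g hg
    rw [intervalIntegral.integral_add_adjacent_intervals (hg _ _) (hg _ _),
      intervalIntegral.integral_add_adjacent_intervals (hg _ _) (hg _ _),
      intervalIntegral.integral_add_adjacent_intervals (hg _ _) (hg _ _),
      intervalIntegral.integral_add_adjacent_intervals (hg _ _) (hg _ _)]
  have sW := sp W iW
  have sF := sp F iF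
  have mono : ∀ (a b c : ℝ), a ≤ b → (∀ t ∈ Set.Icc a b, W t ≤ c * F t) →
      ∫ t in a..b, W t ≤ c * ∫ t in a..b, F t := by
    intro a b c hab hc
    rw [← intervalIntegral.integral_const_mul]
    exact intervalIntegral.integral_mono_on hab (iW a b) ((iF a b).const_mul c) hc
  have nn : ∀ (a b : ℝ), a ≤ b → 0 ≤ ∫ t in a..b, F t := fun a b hab =>
    intervalIntegral.integral_nonneg hab fun t _ => hF0 t
  have m1 := mono (-(1 / 2)) (-Y) ((1 / (h * Y)) ^ 2) (by linarith) (by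
    intro t ht
    have : |t| = -t := abs_of_nonpos (by linarith [ht.2])
    exact b3 t (by rw [this]; linarith [ht.2]) (by rw [this]; linarith [ht.1]))
  have m2 := mono (-Y) (-Y0) 4 (by linarith) (fun t _ => b2 t)
  have m3 := mono (-Y0) Y0 ((13 * h' * Y0) ^ 2) (by linarith) (fun t ht =>
    b1 t (abs_le.2 ⟨ht.1, ht.2⟩))
  have m4 := mono Y0 Y 4 hY (fun t _ => b2 t)
  have m5 := mono Y (1 / 2) ((1 / (h * Y)) ^ 2) hY2 (by
    intro t ht
    have : |t| = t := abs_of_nonneg (by linarith [ht.1])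
    exact b3 t (by rw [this]; exact ht.1) (by rw [this]; exact ht.2))
  have n1 := nn (-(1 / 2)) (-Y) (by linarith)
  have n2 := nn (-Y) (-Y0) (by linarith)
  have n3 := nn (-Y0) Y0 (by linarith)
  have n4 := nn Y0 Y hY
  have n5 := nn Y (1 / 2) hY2
  -- the right side
  have r1 : ∫ y in Set.Icc Y0 Y, ‖FF G N1 (1 * y)‖ ^ 2 = ∫ t in Y0..Y, F t := by
    rw [integral_Icc_eq_integral_Ioc, intervalIntegral.integral_of_le hY]
    simp only [one_mul, hF]
  have r2 : ∫ y in Set.Icc Y0 Y, ‖FF G N1 (-1 * y)‖ ^ 2 = ∫ t in (-Y)..(-Y0), F t := by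
    rw [← intervalIntegral.integral_comp_neg, integral_Icc_eq_integral_Ioc,
      intervalIntegral.integral_of_le hY]
    simp only [neg_mul, one_mul, hF]
  rw [r1, r2]
  refine hL.trans ?_
  rw [← hP, ← hPG, sW, sF]
  set c1 := (13 * (h' : ℝ) * Y0) ^ 2 with hc1
  set c2 := (1 / ((h : ℝ) * Y)) ^ 2 with hc2
  have hc10 : 0 ≤ c1 := sq_nonneg _
  have hc20 : 0 ≤ c2 := sq_nonneg _
  have k1 := mul_nonneg hc10 n1
  have k2 := mul_nonneg hc10 n2
  have k4 := mul_nonneg hc10 n4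
  have k5 := mul_nonneg hc10 n5
  have l2 := mul_nonneg hc20 n2
  have l3 := mul_nonneg hc20 n3
  have l4 := mul_nonneg hc20 n4
  linarith

end Pool.Agent.H76.MU

end

section

/-!
# CH VarS: short and long windows, the contribution of a set of primes

Adaptation of `Pool.Agent.H76.MU.var_da` (file `H76/MU/VarDA.lean`) and of `H76/MU/GP.lean`: general `f` with `|f| ≤ 1`, a set `S ⊆ pb P` of
primes; `CorM` for the cut function is a hypothesis.
-/

set_option autoImplicit false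

namespace Pool.Agent.H43.CH

open Finset MeasureTheory
open Pool.Agent.H91.PK (ee)
open Pool.Agent.H76.EHB
open Pool.Agent.H76.MU (CorM Uw log_ge log_pow_le fou)
open Pool.Agent.H35.W

private theorem VarS_pb {P k : ℕ} (hk : k ∈ pb P) : 0 < k ∧ k ≤ 2 * P ∧ k.Prime := by
  unfold pb at hk
  rw [mem_filter, mem_Ioc] at hk
  exact ⟨by omega, hk.1.2, hk.2⟩

private theorem VarS_zero (g : ℕ → ℝ) (N P N1 : ℕ) (hg : ∀ n, n ∉ Icc 1 N → g n = 0)
    (hN1 : 2 * P * N ≤ N1) (n : ℕ) (hn : n ∉ Icc 1 N1) (k : ℕ) (hk : k ∈ pb P) (hkn : k ∣ n) :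
    g (n / k) = 0 := by
  obtain ⟨hk0, hk1, _⟩ := VarS_pb hk
  apply hg
  intro h
  apply hn
  rw [mem_Icc] at h ⊢
  obtain ⟨m, rfl⟩ := hkn
  rw [Nat.mul_div_cancel_left m hk0] at h
  constructor
  · exact Nat.mul_pos hk0 h.1
  · calc k * m ≤ (2 * P) * N := Nat.mul_le_mul hk1 h.2
      _ ≤ N1 := hN1

private theorem VarS_supp (g : ℕ → ℝ) (N P N1 : ℕ) (S : Finset ℕ) (hSP : S ⊆ pb P) (hg : ∀ n, n ∉ Icc 1 N → g n = 0)
    (hN1 : 2 * P * N ≤ N1) (n : ℕ) (hn : n ∉ Icc 1 N1) : FS g S n = 0 := by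
  unfold FS
  refine sum_eq_zero fun k hk => ?_
  rw [mem_filter] at hk
  exact VarS_zero g N P N1 hg hN1 n hn k (hSP hk.1) hk.2

private theorem VarS_FF (g : ℕ → ℝ) (N P N1 : ℕ) (S : Finset ℕ) (hSP : S ⊆ pb P) (hg : ∀ n, n ∉ Icc 1 N → g n = 0)
    (hN1 : 2 * P * N ≤ N1) (θ : ℝ) : FF (FS g S) N1 θ = SGs g N S θ := by
  unfold FF SGs FS
  have h1 : ∀ n ∈ Icc 1 N1,
      ((∑ k ∈ S.filter (fun k => k ∣ n), g (n / k) : ℝ) : ℂ) * ee (n * θ) =
        ∑ k ∈ S, if k ∣ n then (g (n / k) : ℂ) * ee (n * θ) else 0 := by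
    intro n _
    rw [sum_filter, Complex.ofReal_sum, sum_mul]
    refine sum_congr rfl fun k _ => ?_
    split_ifs <;> simp
  rw [sum_congr rfl h1, sum_comm]
  refine sum_congr rfl fun k hk => ?_
  obtain ⟨hk0, hk1, _⟩ := VarS_pb (hSP hk)
  rw [← sum_filter]
  unfold FF
  have hinj : ∀ a ∈ Icc 1 N, ∀ b ∈ Icc 1 N, k * a = k * b → a = b := fun a _ b _ h =>
    Nat.eq_of_mul_eq_mul_left hk0 h
  have h2 : ∑ m ∈ Icc 1 N, (g m : ℂ) * ee (m * (k * θ)) =
      ∑ n ∈ (Icc 1 N).image (fun m => k * m), (g (n / k) : ℂ) * ee (n * θ) := by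
    rw [sum_image hinj]
    refine sum_congr rfl fun m _ => ?_
    rw [Nat.mul_div_cancel_left m hk0]
    push_cast
    congr 2
    ring
  rw [h2]
  symm
  refine sum_subset ?_ ?_
  · intro n hn
    rw [mem_image] at hn
    obtain ⟨m, hm, rfl⟩ := hn
    rw [mem_Icc] at hm
    rw [mem_filter, mem_Icc]
    refine ⟨⟨Nat.mul_pos hk0 hm.1, ?_⟩, dvd_mul_right k m⟩
    calc k * m ≤ (2 * P) * N := Nat.mul_le_mul hk1 hm.2
      _ ≤ N1 := hN1
  · intro n hn hn'
    rw [mem_filter] at hn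
    obtain ⟨_, m, rfl⟩ := hn
    have h3 : g (k * m / k) = 0 := by
      apply hg
      rw [Nat.mul_div_cancel_left m hk0]
      intro hm
      exact hn' (mem_image.2 ⟨m, hm, rfl⟩)
    rw [h3]
    simp

private theorem VarS_S2 (g : ℕ → ℝ) (P N1 : ℕ) (S0 : Finset ℕ) (hSP : S0 ⊆ pb P) (hb : ∀ n, |g n| ≤ 1) :
    S2 (FS g S0) N1 ≤ N1 * (2 * Real.log N1) ^ 2 := by
  unfold S2
  have h1 : ∀ n ∈ Icc 1 N1, FS g S0 n ^ 2 ≤ (2 * Real.log N1) ^ 2 := by
    intro n hn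
    rw [mem_Icc] at hn
    have hn0 : (0 : ℝ) < n := by exact_mod_cast (show 0 < n by omega)
    have hN0 : (1 : ℝ) ≤ N1 := by exact_mod_cast (show 1 ≤ N1 by omega)
    set S : Finset ℕ := S0.filter (fun k => k ∣ n) with hS
    have h2 : |FS g S0 n| ≤ (S.card : ℝ) := by
      unfold FS
      refine (abs_sum_le_sum_abs _ _).trans ?_
      refine (sum_le_sum fun k _ => hb (n / k)).trans ?_
      rw [sum_const, nsmul_eq_mul, mul_one]
    have h3 : ∏ p ∈ S, p ∣ n := by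
      refine Finset.prod_primes_dvd n (fun p hp => ?_) fun p hp => ?_
      · rw [hS, mem_filter] at hp
        exact (VarS_pb (hSP hp.1)).2.2.prime
      · rw [hS, mem_filter] at hp
        exact hp.2
    have h4 : 2 ^ S.card ≤ n := by
      refine le_trans ?_ (Nat.le_of_dvd (by omega) h3)
      rw [← prod_const]
      refine prod_le_prod' fun p hp => ?_
      rw [hS, mem_filter] at hp
      exact (VarS_pb (hSP hp.1)).2.2.two_le
    have h5 : (S.card : ℝ) * Real.log 2 ≤ Real.log N1 := by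
      have h6 : ((2 : ℝ) ^ S.card) ≤ N1 := by
        have : 2 ^ S.card ≤ N1 := h4.trans hn.2
        exact_mod_cast this
      have h7 := Real.log_le_log (by positivity) h6
      rwa [Real.log_pow] at h7
    have h8 := Real.log_two_gt_d9
    have h9 : (0 : ℝ) ≤ S.card := Nat.cast_nonneg _
    have h10 : (S.card : ℝ) ≤ 2 * Real.log N1 := by nlinarith only [h5, h8]
    rw [← sq_abs]
    exact pow_le_pow_left₀ (abs_nonneg _) (h2.trans h10) 2
  refine (sum_le_sum h1).trans ?_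
  rw [sum_const, Nat.card_Icc, nsmul_eq_mul, Nat.add_sub_cancel]

/-- The windows only see `(X/2, 2X]`, where the cut function agrees with `gl`. -/
private theorem VarS_win (f : ℕ → ℝ) (P X x M h j : ℕ) (S : Finset ℕ) (hSP : S ⊆ pb P) (hh : 2 * h ≤ X) (hM : 4 * P * M ≤ X)
    (hx : 2 * X < P * x) (hj : j ∈ Ioc X (2 * X)) :
    Uw (FS f S) h j = Uw (FS (cutf f M x) S) h j := by
  rw [Finset.mem_Ioc] at hj
  unfold Uw
  apply Finset.sum_congr rfl
  intro n hn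
  rw [Finset.mem_Ico] at hn
  unfold FS
  apply Finset.sum_congr rfl
  intro k hk
  rw [Finset.mem_filter] at hk
  obtain ⟨hk0, hkn⟩ := hk
  have hk := hSP hk0
  rw [pb, Finset.mem_filter, Finset.mem_Ioc] at hk
  obtain ⟨⟨hk1, hk2⟩, hkp⟩ := hk
  obtain ⟨q, hq⟩ := hkn
  have hkq : n / k = q := by
    rw [hq, Nat.mul_div_cancel_left q hkp.pos]
  rw [hkq]
  unfold cutf
  rw [if_pos]
  rw [Finset.mem_Ioc]
  have h2n : X < 2 * n := by omega
  have hn2 : n < 2 * X := by omega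
  constructor
  · by_contra hc
    push Not at hc
    have h1 : k * q ≤ 2 * P * M := Nat.mul_le_mul hk2 hc
    have h2 : 4 * P * M = 2 * (2 * P * M) := by ring
    rw [← hq] at h1
    omega
  · by_contra hc
    push Not at hc
    have h1 : P * x ≤ k * q := Nat.mul_le_mul hk1.le hc.le
    rw [← hq] at h1
    omega

private theorem VarS_fin (A : ℕ) (X L l P x h h' I1 I2 S : ℝ) (κ1 : ℕ) (hX : 0 < X)
    (hL : 200 * 2 ^ A ≤ L)
    (hl1 : L / 2 ≤ l) (hl2 : l ≤ L) (hP : L ^ (A + 4) ≤ P) (hPx1 : 3 * X ≤ P * x)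
    (hPx2 : P * x ≤ 4 * X)
    (hh : P ^ 10 ≤ h) (hh' : h' ≤ X / L ^ (κ1 + (A + 4))) (hh0 : 0 ≤ h')
    (hI1 : I1 ≤ P * x / l ^ (A + 2))
    (hI2 : I2 ≤ P * x / l ^ (A + 2)) (hS : S ≤ 128 * X * L ^ 2) (hS0 : 0 ≤ S) :
    4 * I1 + 4 * I2 + ((13 * h' * (l ^ κ1 / (P * x))) ^ 2
      + (1 / (h * (1 / (P * l ^ (A + 14))))) ^ 2) * S
      ≤ X / L ^ A := by
  have h2A : (1 : ℝ) ≤ 2 ^ A := one_le_pow₀ (by norm_num)
  have hL200 : 200 ≤ L := by linarith only [hL, h2A]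
  have hL0 : 0 < L := by linarith only [hL, h2A]
  have hL1 : 1 ≤ L := by linarith only [hL, h2A]
  have hl0 : 0 < l := by linarith only [hL, hl1, h2A]
  have hP0 : 0 < P := lt_of_lt_of_le (by positivity) hP
  have hL2 : 40000 * (2 : ℝ) ^ A ≤ L ^ 2 := by nlinarith only [hL, hl1, hl2, h2A]
  have hLA : 0 < L ^ A := by positivity
  have hA : P * x / l ^ (A + 2) ≤ 16 * 2 ^ A * X / L ^ (A + 2) := by
    rw [div_le_div_iff₀ (by positivity) (by positivity)]
    have h1 : (L / 2) ^ (A + 2) ≤ l ^ (A + 2) := pow_le_pow_left₀ (by positivity) hl1 _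
    have h2 : P * x * L ^ (A + 2) ≤ 4 * X * L ^ (A + 2) :=
      mul_le_mul_of_nonneg_right hPx2 (by positivity)
    have h3 : 16 * 2 ^ A * X * (L / 2) ^ (A + 2) ≤ 16 * 2 ^ A * X * l ^ (A + 2) :=
      mul_le_mul_of_nonneg_left h1 (by positivity)
    have h4 : 16 * 2 ^ A * X * (L / 2) ^ (A + 2) = 4 * X * L ^ (A + 2) := by
      rw [div_pow, pow_add (2 : ℝ)]
      field_simp
      ring
    linarith only [h2, h3, h4]
  have hA' : 8 * (16 * 2 ^ A * X / L ^ (A + 2)) ≤ 1 / 3 * (X / L ^ A) := by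
    have e : 1 / 3 * (X / L ^ A) = (X * L ^ 2 / 3) / L ^ (A + 2) := by
      rw [pow_add]
      field_simp
    rw [e, ← mul_div_assoc]
    apply div_le_div_of_nonneg_right _ (by positivity)
    have h5 : X * (40000 * 2 ^ A) ≤ X * L ^ 2 := mul_le_mul_of_nonneg_left hL2 hX.le
    have h6 : 0 ≤ X * 2 ^ A := by positivity
    nlinarith only [hS, hS0, h5]
  have hB : 13 * h' * (l ^ κ1 / (P * x)) ≤ 5 / L ^ (A + 4) := by
    have h1 : l ^ κ1 / (P * x) ≤ L ^ κ1 / (3 * X) := by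
      apply div_le_div₀ (by positivity) (pow_le_pow_left₀ hl0.le hl2 κ1) (by positivity) hPx1
    have h2 : 13 * h' * (l ^ κ1 / (P * x)) ≤
        13 * (X / L ^ (κ1 + (A + 4))) * (L ^ κ1 / (3 * X)) := by
      apply mul_le_mul (by linarith only [hh']) h1 _ (by positivity)
      have : 0 < P * x := by linarith only [hX, hPx1]
      positivity
    have h3 : 13 * (X / L ^ (κ1 + (A + 4))) * (L ^ κ1 / (3 * X)) = (13 / 3) / L ^ (A + 4) := by
      rw [pow_add L κ1]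
      field_simp
    rw [h3] at h2
    refine h2.trans ?_
    apply div_le_div_of_nonneg_right (by norm_num) (by positivity)
  have hB0 : 0 ≤ 13 * h' * (l ^ κ1 / (P * x)) := by
    have : 0 < P * x := by linarith only [hX, hPx1]
    positivity
  have hh1 : 0 < h := lt_of_lt_of_le (by positivity) hh
  have hC : 1 / (h * (1 / (P * l ^ (A + 14)))) ≤ 1 / L ^ (A + 4) := by
    have e1 : 1 / (h * (1 / (P * l ^ (A + 14)))) = P * l ^ (A + 14) / h := by
      field_simp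
    rw [e1, div_le_div_iff₀ hh1 (by positivity), one_mul]
    have h1 : l ^ (A + 14) ≤ L ^ (A + 14) := pow_le_pow_left₀ hl0.le hl2 _
    have h2 : (L ^ (A + 4)) ^ 9 ≤ P ^ 9 := pow_le_pow_left₀ (by positivity) hP 9
    have h3 : L ^ (A + 14 + (A + 4)) ≤ (L ^ (A + 4)) ^ 9 := by
      rw [← pow_mul]
      exact pow_le_pow_right₀ hL1 (by omega)
    calc P * l ^ (A + 14) * L ^ (A + 4) ≤ P * L ^ (A + 14) * L ^ (A + 4) := by
          apply mul_le_mul_of_nonneg_right _ (by positivity)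
          exact mul_le_mul_of_nonneg_left h1 hP0.le
      _ = P * L ^ (A + 14 + (A + 4)) := by rw [pow_add L (A + 14)]; ring
      _ ≤ P * P ^ 9 := mul_le_mul_of_nonneg_left (h3.trans h2) hP0.le
      _ = P ^ 10 := by ring
      _ ≤ h := hh
  have hC0 : 0 ≤ 1 / (h * (1 / (P * l ^ (A + 14)))) := by positivity
  have hB2 : (13 * h' * (l ^ κ1 / (P * x))) ^ 2 ≤ (5 / L ^ (A + 4)) ^ 2 :=
    pow_le_pow_left₀ hB0 hB 2
  have hC2 : (1 / (h * (1 / (P * l ^ (A + 14))))) ^ 2 ≤ (1 / L ^ (A + 4)) ^ 2 :=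
    pow_le_pow_left₀ hC0 hC 2
  have hD : ((13 * h' * (l ^ κ1 / (P * x))) ^ 2 + (1 / (h * (1 / (P * l ^ (A + 14))))) ^ 2) * S ≤
      ((5 / L ^ (A + 4)) ^ 2 + (1 / L ^ (A + 4)) ^ 2) * (128 * X * L ^ 2) :=
    mul_le_mul (add_le_add hB2 hC2) hS hS0 (by positivity)
  have hE : ((5 / L ^ (A + 4)) ^ 2 + (1 / L ^ (A + 4)) ^ 2) * (128 * X * L ^ 2)
      ≤ 1 / 3 * (X / L ^ A) := by
    have e2 : ((5 / L ^ (A + 4)) ^ 2 + (1 / L ^ (A + 4)) ^ 2) * (128 * X * L ^ 2)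
        = (X / L ^ A) * (3328 / (L ^ A * L ^ 6)) := by
      rw [pow_add L A 4]
      field_simp
      ring
    rw [e2, mul_comm (1 / 3 : ℝ)]
    apply mul_le_mul_of_nonneg_left _ (by positivity)
    rw [div_le_div_iff₀ (by positivity) (by norm_num)]
    have h7 : (1 : ℝ) ≤ L ^ A := one_le_pow₀ hL1
    have h8 : (40000 : ℝ) ≤ L ^ 6 := by
      have h9 : L ^ 2 ≤ L ^ 6 := pow_le_pow_right₀ hL1 (by norm_num)
      nlinarith only [h2A, hL2, h9]
    have h10 : 1 * L ^ 6 ≤ L ^ A * L ^ 6 := mul_le_mul_of_nonneg_right h7 (by positivity)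
    linarith only [h8, h10]
  have hF : 0 ≤ X / L ^ A := by positivity
  linarith only [hI1, hI2, hA, hA', hD, hE, hF]

private theorem VarS_M (P x X M l : ℝ) (hP : 0 < P) (h1 : X < 4 * P * (M + 1))
    (h2 : P * x ≤ 4 * X) (h4 : 100 ≤ x) (h5 : 0 ≤ M) (h6 : 100 ≤ l) : x ≤ M * l := by
  have h7 : P * x < P * (16 * (M + 1)) := by
    have : 4 * (4 * P * (M + 1)) = P * (16 * (M + 1)) := by ring
    linarith only [h1, h2]
  have h3 : x < 16 * (M + 1) := lt_of_mul_lt_mul_left h7 hP.le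
  have h8 : M * 100 ≤ M * l := mul_le_mul_of_nonneg_left h6 h5
  linarith only [h4, h3, h8]

private theorem VarS_pow_ge (A : ℝ) : ∃ X0 : ℕ, ∀ X : ℕ, X0 ≤ X → A ≤ (X : ℝ) ^ (9 / 10 : ℝ) := by
  have h1 : Filter.Tendsto (fun y : ℝ => y ^ (9 / 10 : ℝ)) Filter.atTop Filter.atTop :=
    tendsto_rpow_atTop (by norm_num)
  have h2 := (h1.comp (tendsto_natCast_atTop_atTop (R := ℝ))).eventually
    (Filter.eventually_ge_atTop A)
  exact Filter.eventually_atTop.1 h2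

private theorem VarS_le_root (a : ℕ) (X : ℝ) (h : (a : ℝ) ^ 10 ≤ X) :
    (a : ℝ) ≤ X ^ (1 / 10 : ℝ) := by
  have h1 : (a : ℝ) = ((a : ℝ) ^ 10) ^ (1 / 10 : ℝ) := by
    rw [← Real.rpow_natCast, ← Real.rpow_mul (Nat.cast_nonneg a)]
    norm_num
  rw [h1]
  exact Real.rpow_le_rpow (by positivity) h (by norm_num)

theorem var_s_h (h_jms : jms_P) (A : ℕ) (η : ℝ) (hη : 0 < η) (hη1 : η ≤ 1) : ∃ b K m0 : ℕ, ∀ m : ℕ, m0 ≤ m → ∃ κ X0 : ℕ,
    ∀ X : ℕ, X0 ≤ X → ∀ (P h h' : ℕ) (S : Finset ℕ) (f : ℕ → ℝ), Real.log X ^ b ≤ P → P ^ 10 ≤ h → h ≤ h' →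
      (h' : ℝ) ≤ X / Real.log X ^ κ → S ⊆ pb P → (∀ n, |f n| ≤ 1) →
      CorM (4 * X / P) m K η (4 * X / P) (X / (4 * P)) (cutf f (X / (4 * P)) (4 * X / P)) →
      ∑ j ∈ Ioc X (2 * X), (Uw (FS f S) h j / h - Uw (FS f S) h' j / h') ^ 2 ≤ X / Real.log X ^ A := by
  obtain ⟨b1, K, m0, hjm⟩ := h_jms 1 (A + 2) η hη (by linarith)
  refine ⟨max b1 (A + 4), K, m0, fun m hm => ?_⟩
  obtain ⟨κ1, x1, hjm1⟩ := hjm m hm
  obtain ⟨x3, hlog⟩ := log_pow_le 1 1 one_pos one_pos (κ1 + (A + 14))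
  obtain ⟨X1, hX1⟩ := VarS_pow_ge ((x1 : ℝ) + x3 + 100)
  obtain ⟨X2, hX2⟩ := log_ge (200 * 2 ^ A)
  refine ⟨κ1 + (A + 4), max X1 X2, ?_⟩
  intro X hX P h h' S f hP0 hQ hh hh' hSP hf hCor0
  have hXr : (x1 : ℝ) + x3 + 100 ≤ (X : ℝ) ^ (9 / 10 : ℝ) := hX1 X (le_trans (le_max_left _ _) hX)
  have hLA : 200 * 2 ^ A ≤ Real.log X := hX2 X (le_trans (le_max_right _ _) hX)
  have h2A : (1 : ℝ) ≤ 2 ^ A := one_le_pow₀ (by norm_num)
  have hL : 200 ≤ Real.log X := by linarith only [hLA, h2A]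
  clear hX1 hX2 hjm
  obtain ⟨L, hLdef⟩ : ∃ L : ℝ, L = Real.log X := ⟨_, rfl⟩
  rw [← hLdef] at hL hLA hP0 hh'
  have hL0 : 0 < L := by linarith only [h2A, hLA]
  have hL1 : 1 ≤ L := by linarith only [h2A, hLA]
  have hXpos : (0 : ℝ) < X := by
    rcases Nat.eq_zero_or_pos X with h0 | h0
    · exfalso
      rw [h0] at hLdef
      simp at hLdef
      linarith only [h2A, hLA, hLdef]
    · exact_mod_cast h0
  have hX1' : (1 : ℝ) ≤ X := by exact_mod_cast (Nat.pos_of_ne_zero (by rintro rfl; simp at hXpos))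
  -- the block
  have hPr : L ^ (max b1 (A + 4)) ≤ (P : ℝ) := hP0
  have hP4r : L ^ (A + 4) ≤ (P : ℝ) := (pow_le_pow_right₀ hL1 (le_max_right b1 (A + 4))).trans hPr
  have hPb1 : L ^ b1 ≤ (P : ℝ) := (pow_le_pow_right₀ hL1 (le_max_left b1 (A + 4))).trans hPr
  have hL4 : L ≤ L ^ (A + 4) := le_self_pow₀ hL1 (by omega)
  have hP200 : (200 : ℝ) ≤ P := by linarith only [h2A, hLA, hP4r, hL4]
  have hPpos : 0 < P := by
    have : (0 : ℝ) < P := by linarith only [h2A, hLA, hP4r, hL4]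
    exact_mod_cast this
  have hP4 : 4 ≤ P := by
    have : (4 : ℝ) ≤ P := by linarith only [h2A, hLA, hP4r, hL4]
    exact_mod_cast this
  have hLk : 1 ≤ L ^ (κ1 + (A + 4)) := one_le_pow₀ hL1
  have hh'X : (h' : ℝ) ≤ X := hh'.trans (div_le_self hXpos.le hLk)
  have hh'2 : 2 * (h' : ℝ) ≤ X := by
    have h1 : L ≤ L ^ (κ1 + (A + 4)) := le_self_pow₀ hL1 (by omega)
    have h2 : (h' : ℝ) ≤ X / 2 := by
      refine hh'.trans ?_
      apply div_le_div_of_nonneg_left hXpos.le (by norm_num)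
      linarith only [h2A, hLA, h1]
    linarith only [h2]
  have hh'2n : 2 * h' ≤ X := by exact_mod_cast hh'2
  have hh2n : 2 * h ≤ X := by omega
  have hQh : (P : ℝ) ^ 10 ≤ X := by
    have h1 : ((P ^ 10 : ℕ) : ℝ) ≤ h' := by exact_mod_cast hQ.trans hh
    rw [Nat.cast_pow] at h1
    linarith only [hh'X, h1]
  have hPh : (P : ℝ) ^ 10 ≤ h := by exact_mod_cast hQ
  have hhpos : 1 ≤ h := (Nat.pos_of_ne_zero (by positivity)).trans_le hQ
  have hProot : (P : ℝ) ≤ (X : ℝ) ^ (1 / 10 : ℝ) := VarS_le_root _ _ hQh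
  have hXsplit : (X : ℝ) = (X : ℝ) ^ (9 / 10 : ℝ) * (X : ℝ) ^ (1 / 10 : ℝ) := by
    rw [← Real.rpow_add hXpos]
    norm_num
  have hroot0 : 0 < (X : ℝ) ^ (1 / 10 : ℝ) := Real.rpow_pos_of_pos hXpos _
  have hroot9 : 0 < (X : ℝ) ^ (9 / 10 : ℝ) := Real.rpow_pos_of_pos hXpos _
  -- the scale
  obtain ⟨x, hx⟩ : ∃ x : ℕ, x = 4 * X / P := ⟨_, rfl⟩
  obtain ⟨M, hM⟩ : ∃ M : ℕ, M = X / (4 * P) := ⟨_, rfl⟩
  have hPx2n : P * x ≤ 4 * X := by rw [hx]; exact Nat.mul_div_le _ _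
  have hPx1n : 4 * X < P * (x + 1) := by rw [hx]; exact Nat.lt_mul_div_succ _ hPpos
  have hMn : 4 * P * M ≤ X := by rw [hM]; exact Nat.mul_div_le _ _
  have hMn2 : X < 4 * P * (M + 1) := by rw [hM]; exact Nat.lt_mul_div_succ _ (by omega)
  have hPx2 : (P : ℝ) * x ≤ 4 * X := by exact_mod_cast hPx2n
  have hPX : (P : ℝ) ≤ X := by
    have h1 : (P : ℝ) ≤ (P : ℝ) ^ 10 := le_self_pow₀ (by linarith only [h2A, hLA, hP4r, hL4]) (by norm_num)
    have h2 : (h : ℝ) ≤ h' := by exact_mod_cast hh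
    linarith only [h2A, hLA, hP4r, hL4, hh'2, hPh, h1, h2]
  have hPx1 : 3 * (X : ℝ) ≤ P * x := by
    have h1 : 4 * (X : ℝ) < P * (x + 1) := by exact_mod_cast hPx1n
    linarith only [hPX, h1]
  have hx9 : 3 * (X : ℝ) ^ (9 / 10 : ℝ) ≤ x := by
    have h1 : 3 * (X : ℝ) ≤ (X : ℝ) ^ (1 / 10 : ℝ) * x :=
      hPx1.trans (mul_le_mul_of_nonneg_right hProot (Nat.cast_nonneg x))
    have h2 : 3 * (X : ℝ) ^ (9 / 10 : ℝ) * (X : ℝ) ^ (1 / 10 : ℝ) ≤
        x * (X : ℝ) ^ (1 / 10 : ℝ) := by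
      rw [mul_assoc, ← hXsplit]
      linarith only [h1]
    exact le_of_mul_le_mul_right h2 hroot0
  have hx9' : (X : ℝ) ^ (9 / 10 : ℝ) ≤ x := by linarith only [hXr, hx9]
  have hxthr : (x1 : ℝ) + x3 + 100 ≤ x := hXr.trans hx9'
  have hxn : x1 + x3 + 100 ≤ x := by exact_mod_cast hxthr
  have hxpos : (0 : ℝ) < x := by
    have : 0 < x := by omega
    exact_mod_cast this
  have hxX : (x : ℝ) ≤ X := by
    have h1 : 4 * (x : ℝ) ≤ P * x := mul_le_mul_of_nonneg_right (by linarith only [h2A, hLA, hP4r, hL4]) hxpos.le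
    linarith only [hPx2, h1]
  obtain ⟨l, hl⟩ : ∃ l : ℝ, l = Real.log x := ⟨_, rfl⟩
  have hl2 : l ≤ L := by
    rw [hl, hLdef]
    exact Real.log_le_log hxpos hxX
  have hl1' : 9 / 10 * L ≤ l := by
    rw [hl, hLdef, ← Real.log_rpow hXpos]
    exact Real.log_le_log hroot9 hx9'
  have hl1 : L / 2 ≤ l := by linarith only [h2A, hLA, hl1']
  have hl100 : 100 ≤ l := by linarith only [h2A, hLA, hl1']
  have hl0 : 0 < l := by linarith only [h2A, hLA, hl1']
  have hPpr : (0 : ℝ) < P := by linarith only [h2A, hLA, hP4r, hL4]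
  have hroot_le : (X : ℝ) ^ (1 / 10 : ℝ) ≤ (x : ℝ) ^ (1 / 4 : ℝ) := by
    have h1 : ((X : ℝ) ^ (9 / 10 : ℝ)) ^ (1 / 4 : ℝ) ≤ (x : ℝ) ^ (1 / 4 : ℝ) :=
      Real.rpow_le_rpow hroot9.le hx9' (by norm_num)
    rw [← Real.rpow_mul hXpos.le] at h1
    refine le_trans ?_ h1
    exact Real.rpow_le_rpow_of_exponent_le hX1' (by norm_num)
  have hPlex : (P : ℝ) ≤ x := by
    have h1 : (X : ℝ) ^ (1 / 10 : ℝ) ≤ (X : ℝ) ^ (9 / 10 : ℝ) :=
      Real.rpow_le_rpow_of_exponent_le hX1' (by norm_num)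
    linarith only [h2A, hLA, hP4r, hL4, hProot, hx9, h1]
  -- the hypotheses of `jm`
  have hCor : CorM x m K η x M (cutf f M x) := by
    rw [hx, hM]
    exact hCor0
  have hMx : (x : ℝ) / Real.log x ^ 1 ≤ M := by
    rw [pow_one, ← hl, div_le_iff₀ hl0]
    have h1 : (X : ℝ) < 4 * P * (M + 1) := by exact_mod_cast hMn2
    have h4 : (100 : ℝ) ≤ x := by
      have : 100 ≤ x := by omega
      exact_mod_cast this
    exact VarS_M P x X M l hPpr h1 hPx2 h4 (Nat.cast_nonneg M) hl100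
  have hPb : Real.log x ^ b1 ≤ (P : ℝ) := by
    rw [← hl]
    exact (pow_le_pow_left₀ hl0.le hl2 b1).trans hPb1
  have hPxn : P ≤ x := by exact_mod_cast hPlex
  have hY : (P : ℝ) * (1 / (P * l ^ (A + 14))) ≤ 1 / Real.log x ^ (A + 2 + 12) := by
    rw [← hl]
    apply le_of_eq
    field_simp
  have hJ := fun (s : ℝ) (hs : s = 1 ∨ s = -1) => hjm1 x (by omega) (cutf f M x) x M P S
    (1 / (P * l ^ (A + 14))) s hCor le_rfl hMx hPb hSP hPxn hs hY
  have hl18 : 1 ≤ l ^ (A + 14) := one_le_pow₀ (by linarith only [h2A, hLA, hl1'])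
  have hY0Y : l ^ κ1 / ((P : ℝ) * x) ≤ 1 / (P * l ^ (A + 14)) := by
    have h1 := hlog x (by omega)
    rw [Real.rpow_one, one_mul, ← hl, pow_add] at h1
    rw [div_le_div_iff₀ (by positivity) (by positivity), one_mul]
    have e1 : l ^ κ1 * ((P : ℝ) * l ^ (A + 14)) = (P : ℝ) * (l ^ κ1 * l ^ (A + 14)) := by ring
    rw [e1]
    exact mul_le_mul_of_nonneg_left h1 hPpr.le
  have hYp : 0 < 1 / ((P : ℝ) * l ^ (A + 14)) := by positivity
  have hY2 : 1 / ((P : ℝ) * l ^ (A + 14)) ≤ 1 / 2 := by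
    apply one_div_le_one_div_of_le (by norm_num)
    have e1 : (P : ℝ) * 1 ≤ P * l ^ (A + 14) := mul_le_mul_of_nonneg_left hl18 hPpr.le
    linarith only [h2A, hLA, hP4r, hL4, e1]
  -- the support
  have hgs : ∀ n, n ∉ Icc 1 x → cutf f M x n = 0 := by
    intro n hn
    unfold cutf
    rw [if_neg]
    intro h1
    apply hn
    rw [Finset.mem_Ioc] at h1
    rw [Finset.mem_Icc]
    omega
  have hGs := VarS_supp (cutf f M x) x P (2 * P * x) S hSP hgs le_rfl
  have hfou := fou (FS (cutf f M x) S) (2 * P * x) h h' X (l ^ κ1 / (P * x)) (1 / (P * l ^ (A + 14)))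
    hGs hhpos hh (by positivity) hY0Y hYp hY2
  have hFF : ∀ θ : ℝ, FF (FS (cutf f M x) S) (2 * P * x) θ = SGs (cutf f M x) x S θ :=
    VarS_FF (cutf f M x) x P (2 * P * x) S hSP hgs le_rfl
  simp only [hFF] at hfou
  have hI1 := hJ 1 (Or.inl rfl)
  have hI2 := hJ (-1) (Or.inr rfl)
  rw [← hl] at hI1 hI2
  -- the sum of squares
  have hS := VarS_S2 (cutf f M x) P (2 * P * x) S hSP hCor.bd
  have hS0 : 0 ≤ S2 (FS (cutf f M x) S) (2 * P * x) :=
    Finset.sum_nonneg (fun _ _ => sq_nonneg _)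
  have hN1 : ((2 * P * x : ℕ) : ℝ) ≤ 8 * X := by
    push_cast
    linarith only [hPx2]
  have hN1pos : (1 : ℝ) ≤ ((2 * P * x : ℕ) : ℝ) := by
    push_cast
    linarith only [hXr, hPx1, hx9, hxX, hYp, hY2]
  have hlogN : Real.log ((2 * P * x : ℕ) : ℝ) ≤ 2 * L := by
    have h1 : ((2 * P * x : ℕ) : ℝ) ≤ X * X := by
      have h8 : (8 : ℝ) ≤ X := by linarith only [hXr, hx9, hxX, hYp, hY2]
      have h9 : 8 * (X : ℝ) ≤ X * X := mul_le_mul_of_nonneg_right h8 hXpos.le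
      linarith only [hN1, h9]
    have h2 := Real.log_le_log (by linarith only [hYp, hY2, hN1pos]) h1
    rw [Real.log_mul hXpos.ne' hXpos.ne', ← hLdef] at h2
    linarith only [h2]
  have hlogN0 : 0 ≤ Real.log ((2 * P * x : ℕ) : ℝ) := Real.log_nonneg hN1pos
  have hS' : S2 (FS (cutf f M x) S) (2 * P * x) ≤ 128 * X * L ^ 2 := by
    refine hS.trans ?_
    calc ((2 * P * x : ℕ) : ℝ) * (2 * Real.log ((2 * P * x : ℕ) : ℝ)) ^ 2
        ≤ (8 * X) * (2 * (2 * L)) ^ 2 := by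
          apply mul_le_mul hN1 _ (by positivity) (by positivity)
          apply pow_le_pow_left₀ (by positivity)
          linarith only [hlogN]
      _ = 128 * X * L ^ 2 := by ring
  have hfin := VarS_fin A X L l P x h h' _ _ _ κ1 hXpos hLA hl1 hl2 hP4r hPx1 hPx2 hPh hh'
    (Nat.cast_nonneg h') hI1 hI2 hS' hS0
  have hwx : 2 * X < P * x := by
    have : 2 * (X : ℝ) < P * x := by linarith only [hXr, hPx1, hx9, hxX, hYp, hY2]
    exact_mod_cast this
  have hcongr : ∑ j ∈ Ioc X (2 * X), (Uw (FS f S) h j / h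
        - Uw (FS f S) h' j / h') ^ 2 =
      ∑ j ∈ Ioc X (2 * X), (Uw (FS (cutf f M x) S) h j / h
        - Uw (FS (cutf f M x) S) h' j / h') ^ 2 := by
    apply Finset.sum_congr rfl
    intro j hj
    rw [VarS_win f P X x M h j S hSP hh2n hMn hwx hj, VarS_win f P X x M h' j S hSP hh'2n hMn hwx hj]
  rw [hcongr, ← hLdef]
  exact hfou.trans hfin

end Pool.Agent.H43.CH

end
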