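import Pool.Agent.H43.PS.M09
import Pool.Agent.H43.PS.M19
import Pool.Agent.H43.PS.M24

/-! The parts of this file: H43.CH.Cd5, H43.CH.LvK, H43.CH.Cd4. -/

section

/-!
# CH Cd5: Gaussian law along almost all tuples of shifts, all lengths `H`

As `Ch5.lean`, with `cd1 1 2 (δ/4) ε` (constant `C1`) and `cdm`: `β = X · 2 C1 sav`: `∑_h ‖∑_n G(n) μ(n + h)‖ ≤ H X (C1 sav + L^{-2}) ≤ H β` (`sav ≥ L^{-1}`), `K |θ| β ≤ 2 |t| √K · 2 C1 sav X`, `√K sav ≤ N0^{-1/2} + L^{-δ/4}`: as small as we like.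
`cos_r` needs `N0' ≤ H`: from `N0 ≤ K` and `N0 K ≤ (log H/loglog X)^2`, `loglog X ≥ 1`: `log H ≥ N0`.
-/

set_option autoImplicit false

namespace Pool.Agent.H43.CH

open Finset MeasureTheory ProbabilityTheory
open Pool.Agent.H43.LM (mu)

private theorem Cd5_markov {α : Type*} (P : Finset α) (f : α → ℝ) (hf : ∀ h ∈ P, 0 ≤ f h) (c A : ℝ)
    (hc : 0 < c) (hA : ∑ h ∈ P, f h ≤ A) (Q : α → Prop) [DecidablePred Q]
    (hQ : ∀ h ∈ P, Q h → c ≤ f h) : ((P.filter Q).card : ℝ) ≤ A / c := by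
  rw [le_div_iff₀ hc]
  calc ((P.filter Q).card : ℝ) * c = ∑ _h ∈ P.filter Q, c := by
        rw [Finset.sum_const, nsmul_eq_mul]
    _ ≤ ∑ h ∈ P.filter Q, f h := by
        refine Finset.sum_le_sum fun h hh => ?_
        rw [Finset.mem_filter] at hh
        exact hQ h hh.1 hh.2
    _ ≤ ∑ h ∈ P, f h := by
        refine Finset.sum_le_sum_of_subset_of_nonneg (Finset.filter_subset _ _) ?_
        intro h hh _
        exact hf h hh
    _ ≤ A := hA

private theorem Cd5_sigma (K : ℕ) (hK : 1 ≤ K) : 0 < Real.sqrt (6 * K / Real.pi ^ 2) ∧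
    (K : ℝ) ≤ 2 * Real.sqrt K * Real.sqrt (6 * K / Real.pi ^ 2) := by
  have hK0 : (0 : ℝ) < K := by exact_mod_cast hK
  have hpi := Real.pi_pos
  have hpi4 : Real.pi ≤ 4 := Real.pi_le_four
  have h0 : (0 : ℝ) < 6 * K / Real.pi ^ 2 := by positivity
  refine ⟨Real.sqrt_pos.2 h0, ?_⟩
  have h1 : 2 * Real.sqrt K * Real.sqrt (6 * K / Real.pi ^ 2) =
      Real.sqrt (4 * K * (6 * K / Real.pi ^ 2)) := by
    rw [Real.sqrt_mul (by positivity), Real.sqrt_mul (by norm_num)]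
    congr 2
    rw [show (4 : ℝ) = 2 ^ 2 by norm_num, Real.sqrt_sq (by norm_num)]
  rw [h1]
  refine Real.le_sqrt_of_sq_le ?_
  have h2 : 4 * (K : ℝ) * (6 * K / Real.pi ^ 2) = K ^ 2 * (24 / Real.pi ^ 2) := by
    field_simp
    ring
  rw [h2]
  have h3 : 1 ≤ 24 / Real.pi ^ 2 := by
    rw [le_div_iff₀ (by positivity)]
    nlinarith only [hpi4, hpi]
  nlinarith only [h3, sq_nonneg (K : ℝ)]

private theorem Cd5_beta (X H : ℕ) (β : ℝ) (G : ℕ → ℂ)
    (h : ∑ h ∈ Fintype.piFinset (fun _ : Fin 1 => Icc 1 H),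
      ‖∑ n ∈ Ioc X (2 * X), G n * ∏ i, ((mu (n + h i) : ℝ) : ℂ)‖ ≤ β) :
    ∑ h ∈ Icc 1 H, ‖∑ n ∈ Ioc X (2 * X), G n * ((mu (n + h) : ℝ) : ℂ)‖ ≤ β := by
  refine le_trans (le_of_eq ?_) h
  refine Finset.sum_nbij' (fun m => fun _ => m) (fun h => h 0) ?_ ?_ ?_ ?_ ?_
  · intro m hm
    rw [Fintype.mem_piFinset]
    exact fun _ => hm
  · intro g hg
    rw [Fintype.mem_piFinset] at hg
    exact hg 0
  · intro m _
    rfl
  · intro g _
    funext i
    rw [Subsingleton.elim i 0]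
  · intro m _
    simp

private theorem Cd5_sav (X H K N : ℕ) (δ : ℝ) (hL : 1 ≤ Real.log X) (hLL : 1 ≤ Real.log (Real.log X))
    (hH : 2 ≤ H) (hN : 1 ≤ N) (hNK : (N : ℝ) * K ≤ (Real.log H / Real.log (Real.log X)) ^ 2)
    (hK2 : (K : ℝ) ≤ Real.log X ^ (2 - δ)) :
    Real.sqrt K * sav X H (δ / 4) ≤ 1 / Real.sqrt N + Real.log X ^ (-(δ / 4)) := by
  have hL0 : 0 < Real.log X := by linarith only [hL]
  have hHr : (2 : ℝ) ≤ H := by exact_mod_cast hH
  have hlH : 0 < Real.log H := Real.log_pos (by linarith only [hHr])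
  have hNr : (1 : ℝ) ≤ N := by exact_mod_cast hN
  have hsN : 0 < Real.sqrt N := Real.sqrt_pos.2 (by linarith only [hNr])
  have h1 : Real.sqrt N * Real.sqrt K ≤ Real.log H / Real.log (Real.log X) := by
    rw [← Real.sqrt_mul (by linarith only [hNr])]
    refine Real.sqrt_le_iff.2 ⟨by positivity, hNK⟩
  have h2 : Real.sqrt K * (Real.log (Real.log X) / Real.log H) ≤ 1 / Real.sqrt N := by
    rw [le_div_iff₀ hsN, mul_div_assoc', div_mul_eq_mul_div, div_le_one hlH]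
    rw [le_div_iff₀ (by linarith only [hLL])] at h1
    linarith only [h1]
  have h3 : Real.sqrt K ≤ Real.log X ^ (1 - δ / 2) := by
    refine Real.sqrt_le_iff.2 ⟨by positivity, ?_⟩
    rw [← Real.rpow_natCast, ← Real.rpow_mul hL0.le]
    refine hK2.trans (le_of_eq ?_)
    congr 1
    push_cast
    ring
  have h4 : Real.sqrt K * Real.log X ^ (δ / 4 - 1) ≤ Real.log X ^ (-(δ / 4)) := by
    calc Real.sqrt K * Real.log X ^ (δ / 4 - 1)
        ≤ Real.log X ^ (1 - δ / 2) * Real.log X ^ (δ / 4 - 1) :=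
          mul_le_mul_of_nonneg_right h3 (by positivity)
      _ = Real.log X ^ (-(δ / 4)) := by
          rw [← Real.rpow_add hL0]
          congr 1
          ring
  unfold sav
  rw [mul_add]
  exact add_le_add h2 h4

private theorem Cd5_one (h_cd1 : cd1_P) (δ ε t κ : ℝ) (hδ : 0 < δ) (hδ1 : δ < 1) (hε : 0 < ε) (hε1 : ε < 1)
    (hκ : 0 < κ) : ∃ N0 : ℕ, ∀ X : ℕ, N0 ≤ X → ∀ H K : ℕ, 2 ≤ H →
      (H : ℝ) ≤ (X : ℝ) ^ (1 - ε) → N0 ≤ K →
      (N0 : ℝ) * K ≤ (Real.log H / Real.log (Real.log X)) ^ 2 → (K : ℝ) ≤ Real.log X ^ (2 - δ) →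
      ∑ h ∈ Fintype.piFinset (fun _ : Fin K => Icc 1 H), ‖∑ n ∈ Ioc X (2 * X),
        (Complex.exp (((t / Real.sqrt (6 * K / Real.pi ^ 2) * ∑ i, mu (n + h i) : ℝ) : ℂ) *
          Complex.I) - ((Real.exp (-t ^ 2 / 2) : ℝ) : ℂ))‖ ≤ κ * (H : ℝ) ^ K * X := by
  obtain ⟨C1, X1, hC1, h1⟩ := h_cd1 1 2 (δ / 4) ε (by linarith only [hδ]) (by linarith only [hδ, hδ1]) hε hε1
  obtain ⟨N1, h2⟩ := cos_r t (κ / 2) (by linarith)
  have hev2 : ∀ᶠ X : ℕ in Filter.atTop, 4 * C1 * |t| * (Real.log X) ^ (-(δ / 4)) ≤ κ / 4 := by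
    have h3 : Filter.Tendsto (fun X : ℕ => 4 * C1 * |t| * (Real.log X) ^ (-(δ / 4))) Filter.atTop
        (nhds (4 * C1 * |t| * 0)) :=
      ((tendsto_rpow_neg_atTop (by linarith only [hδ] : 0 < δ / 4)).comp
        (Real.tendsto_log_atTop.comp tendsto_natCast_atTop_atTop)).const_mul _
    rw [mul_zero] at h3
    exact h3.eventually_le_const (by linarith only [hκ])
  have hev3 : ∀ᶠ X : ℕ in Filter.atTop, (1 : ℝ) ≤ Real.log X :=
    (Real.tendsto_log_atTop.comp tendsto_natCast_atTop_atTop).eventually_ge_atTop _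
  have hev4 : ∀ᶠ X : ℕ in Filter.atTop, (1 : ℝ) ≤ Real.log (Real.log X) :=
    (Real.tendsto_log_atTop.comp (Real.tendsto_log_atTop.comp
      tendsto_natCast_atTop_atTop)).eventually_ge_atTop _
  obtain ⟨X2, hX2⟩ := Filter.eventually_atTop.1 (hev2.and (hev3.and hev4))
  have hev5 : ∀ᶠ N : ℕ in Filter.atTop, 16 * C1 * |t| / κ ≤ Real.sqrt N :=
    (Real.tendsto_sqrt_atTop.comp tendsto_natCast_atTop_atTop).eventually_ge_atTop _
  obtain ⟨N2, hN2⟩ := Filter.eventually_atTop.1 hev5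
  refine ⟨max (max X1 X2) (max (max N1 N2) 1), ?_⟩
  intro X hX H K hH1 hH2 hK1 hNK hK2
  set N0 : ℕ := max (max X1 X2) (max (max N1 N2) 1) with hN0
  have hN0X1 : X1 ≤ N0 := (le_max_left _ _).trans (le_max_left _ _)
  have hN0X2 : X2 ≤ N0 := (le_max_right _ _).trans (le_max_left _ _)
  have hN0N1 : N1 ≤ N0 := (le_max_left _ _).trans ((le_max_left _ _).trans (le_max_right _ _))
  have hN0N2 : N2 ≤ N0 := (le_max_right _ _).trans ((le_max_left _ _).trans (le_max_right _ _))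
  have hN01 : 1 ≤ N0 := (le_max_right _ _).trans (le_max_right _ _)
  have hXX1 : X1 ≤ X := hN0X1.trans hX
  have hXX2 : X2 ≤ X := hN0X2.trans hX
  have hX1 : 1 ≤ X := hN01.trans hX
  have hKN : N1 ≤ K := hN0N1.trans hK1
  have hK0 : 1 ≤ K := hN01.trans hK1
  obtain ⟨e2, e3, e4⟩ := hX2 X hXX2
  have e5 := hN2 N0 hN0N2
  have hXr : (1 : ℝ) ≤ X := by exact_mod_cast hX1
  have hHr : (2 : ℝ) ≤ H := by exact_mod_cast hH1
  have hlH : 0 < Real.log H := Real.log_pos (by linarith only [hδ, hδ1, hHr])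
  have hHX : H ≤ X := by
    have : (H : ℝ) ≤ X := by
      refine hH2.trans ?_
      calc (X : ℝ) ^ (1 - ε) ≤ (X : ℝ) ^ (1 : ℝ) :=
            Real.rpow_le_rpow_of_exponent_le hXr (by linarith only [hε])
        _ = X := Real.rpow_one _
    exact_mod_cast this
  have hNH : N1 ≤ H := by
    have hN0K : (N0 : ℝ) ≤ K := by exact_mod_cast hK1
    have hN0r : (1 : ℝ) ≤ N0 := by exact_mod_cast hN01
    have h6 : Real.log H / Real.log (Real.log X) ≤ Real.log H := div_le_self hlH.le e4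
    have h7 : (N0 : ℝ) ^ 2 ≤ Real.log H ^ 2 := by
      calc (N0 : ℝ) ^ 2 = N0 * N0 := by ring
        _ ≤ N0 * K := mul_le_mul_of_nonneg_left hN0K (by linarith only [hδ, hδ1, hN0r])
        _ ≤ (Real.log H / Real.log (Real.log X)) ^ 2 := hNK
        _ ≤ Real.log H ^ 2 := pow_le_pow_left₀ (by positivity) h6 2
    have h8 : (N0 : ℝ) ≤ Real.log H := by
      exact (pow_le_pow_iff_left₀ (by linarith only [hδ, hδ1, hN0r]) hlH.le (by norm_num)).1 h7
    have h9 : Real.log H ≤ H := by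
      have := Real.log_le_sub_one_of_pos (show (0 : ℝ) < H by linarith only [hδ, hδ1, hHr])
      linarith only [hδ, hδ1, this]
    have h10 : (N0 : ℝ) ≤ H := h8.trans h9
    have h11 : N0 ≤ H := by exact_mod_cast h10
    exact hN0N1.trans h11
  obtain ⟨hσ, hKσ⟩ := Cd5_sigma K hK0
  have hsav := Cd5_sav X H K N0 δ e3 e4 hH1 hN01 hNK hK2
  set σ : ℝ := Real.sqrt (6 * K / Real.pi ^ 2) with hσd
  have hS : 1 / Real.log X ^ 2 ≤ sav X H (δ / 4) := by
    have hL0 : 0 < Real.log X := by linarith only [hδ, hδ1, e3]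
    have h12 : Real.log X ^ (-2 : ℝ) ≤ Real.log X ^ (δ / 4 - 1) :=
      Real.rpow_le_rpow_of_exponent_le e3 (by linarith only [hδ, hδ1])
    have h13 : 1 / Real.log X ^ 2 = Real.log X ^ (-2 : ℝ) := by
      rw [Real.rpow_neg hL0.le, one_div]
      norm_num
    have h14 : 0 ≤ Real.log (Real.log X) / Real.log H := by positivity
    unfold sav
    rw [h13]
    linarith only [h12, h14]
  set L : ℝ := Real.log X with hL
  have hL0 : 0 < L := by linarith only [hδ, hδ1, e3]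
  set S : ℝ := sav X H (δ / 4) with hSd
  have hS0 : 0 ≤ S := le_trans (by positivity) hS
  have hβ : ∀ G : ℕ → ℂ, (∀ n ∈ Ioc X (2 * X), ‖G n‖ ≤ 1) →
      ∑ h ∈ Icc 1 H, ‖∑ n ∈ Ioc X (2 * X), G n * ((mu (n + h) : ℝ) : ℂ)‖ ≤
        H * (X * (2 * C1 * S)) := by
    intro G hG
    refine Cd5_beta X H _ G ?_
    have h4 := h1 X hXX1 H hH1 hH2 G hG
    refine h4.trans ?_
    rw [pow_one, pow_one, ← hL, ← hSd]
    have h15 : ∑ n ∈ Ioc X (2 * X), ‖G n‖ ≤ X := by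
      refine (Finset.sum_le_sum hG).trans (le_of_eq ?_)
      rw [Finset.sum_const, Nat.card_Ioc, nsmul_eq_mul, mul_one]
      congr 1
      omega
    refine mul_le_mul_of_nonneg_left ?_ (by positivity)
    have h16 : C1 * S * (∑ n ∈ Ioc X (2 * X), ‖G n‖) ≤ C1 * S * X :=
      mul_le_mul_of_nonneg_left h15 (by positivity)
    have h17 : (X : ℝ) / L ^ 2 ≤ X * (C1 * S) := by
      rw [div_eq_mul_one_div]
      refine mul_le_mul_of_nonneg_left (hS.trans ?_) (by positivity)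
      exact le_mul_of_one_le_left hS0 hC1
    calc C1 * S * (∑ n ∈ Ioc X (2 * X), ‖G n‖) + X / L ^ 2 ≤ C1 * S * X + X * (C1 * S) :=
          add_le_add h16 h17
      _ = X * (2 * C1 * S) := by ring
  have hT := tel X H K (t / σ) (X * (2 * C1 * S)) hβ
  have hC := h2 X H K hNH hHX hKN
  have hmain : ∑ h ∈ Fintype.piFinset (fun _ : Fin K => Icc 1 H), ‖∑ n ∈ Ioc X (2 * X),
        (Complex.exp (((t / σ * ∑ i, mu (n + h i) : ℝ) : ℂ) *
          Complex.I) - ((Real.exp (-t ^ 2 / 2) : ℝ) : ℂ))‖ ≤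
      K * (H : ℝ) ^ K * |t / σ| * (X * (2 * C1 * S)) + κ / 2 * (H : ℝ) ^ K * X := by
    refine le_trans ?_ (add_le_add hT hC)
    rw [← Finset.sum_add_distrib]
    refine Finset.sum_le_sum fun h _ => ?_
    have h5 : ∑ n ∈ Ioc X (2 * X), (Complex.exp (((t / σ * ∑ i, mu (n + h i) : ℝ) : ℂ) *
          Complex.I) - ((Real.exp (-t ^ 2 / 2) : ℝ) : ℂ)) =
        ∑ n ∈ Ioc X (2 * X), (Complex.exp (((t / σ * ∑ i, mu (n + h i) : ℝ) : ℂ) *
          Complex.I) - ((∏ i, Real.cos (t / σ * mu (n + h i)) : ℝ) : ℂ)) +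
        ∑ n ∈ Ioc X (2 * X), (((∏ i, Real.cos (t / σ * mu (n + h i))) -
          Real.exp (-t ^ 2 / 2) : ℝ) : ℂ) := by
      rw [← Finset.sum_add_distrib]
      refine Finset.sum_congr rfl fun n _ => ?_
      push_cast
      ring
    rw [h5]
    refine (norm_add_le _ _).trans (add_le_add le_rfl ?_)
    refine (norm_sum_le _ _).trans (Finset.sum_le_sum fun n _ => ?_)
    rw [Complex.norm_real, Real.norm_eq_abs]
  refine hmain.trans ?_
  have hKθ : (K : ℝ) * |t / σ| ≤ 2 * |t| * Real.sqrt K := by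
    rw [abs_div, abs_of_pos hσ, ← mul_div_assoc, div_le_iff₀ hσ]
    calc (K : ℝ) * |t| ≤ 2 * Real.sqrt K * σ * |t| :=
          mul_le_mul_of_nonneg_right hKσ (abs_nonneg _)
      _ = 2 * |t| * Real.sqrt K * σ := by ring
  have hHK : (0 : ℝ) ≤ (H : ℝ) ^ K := by positivity
  have hX0 : (0 : ℝ) ≤ X := by linarith only [hδ, hδ1, hXr]
  have hsN0 : 0 < Real.sqrt N0 := Real.sqrt_pos.2 (by exact_mod_cast hN01)
  have h18 : 4 * C1 * |t| * (1 / Real.sqrt N0) ≤ κ / 4 := by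
    rw [mul_one_div, div_le_iff₀ hsN0]
    rw [div_le_iff₀ hκ] at e5
    nlinarith only [e5]
  have h19 : 2 * |t| * Real.sqrt K * (2 * C1 * S) ≤ κ / 2 := by
    calc 2 * |t| * Real.sqrt K * (2 * C1 * S) = 4 * C1 * |t| * (Real.sqrt K * S) := by ring
      _ ≤ 4 * C1 * |t| * (1 / Real.sqrt N0 + L ^ (-(δ / 4))) :=
          mul_le_mul_of_nonneg_left hsav (by positivity)
      _ = 4 * C1 * |t| * (1 / Real.sqrt N0) + 4 * C1 * |t| * L ^ (-(δ / 4)) := by ring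
      _ ≤ κ / 4 + κ / 4 := add_le_add h18 e2
      _ = κ / 2 := by ring
  have hfin : K * (H : ℝ) ^ K * |t / σ| * (X * (2 * C1 * S)) ≤ κ / 2 * (H : ℝ) ^ K * X := by
    calc K * (H : ℝ) ^ K * |t / σ| * (X * (2 * C1 * S))
        = (H : ℝ) ^ K * X * ((K * |t / σ|) * (2 * C1 * S)) := by ring
      _ ≤ (H : ℝ) ^ K * X * ((2 * |t| * Real.sqrt K) * (2 * C1 * S)) := by
          refine mul_le_mul_of_nonneg_left (mul_le_mul_of_nonneg_right hKθ ?_)
            (mul_nonneg hHK hX0)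
          positivity
      _ ≤ (H : ℝ) ^ K * X * (κ / 2) :=
          mul_le_mul_of_nonneg_left h19 (mul_nonneg hHK hX0)
      _ = κ / 2 * (H : ℝ) ^ K * X := by ring
  linarith only [hfin]

open Classical in
theorem cd5_h (h_cd1 : cd1_P) (h_cdm : cdm_P) (δ ε η : ℝ) (hδ : 0 < δ) (hδ1 : δ < 1) (hε : 0 < ε) (hε1 : ε < 1) (hη : 0 < η) : ∃ N0 : ℕ, ∀ X : ℕ, N0 ≤ X →
    ∀ H K : ℕ, 2 ≤ H → (H : ℝ) ≤ (X : ℝ) ^ (1 - ε) → N0 ≤ K →
      (N0 : ℝ) * K ≤ (Real.log H / Real.log (Real.log X)) ^ 2 → (K : ℝ) ≤ Real.log X ^ (2 - δ) →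
      ((((Fintype.piFinset (fun _ : Fin K => Icc 1 H)).filter (fun h => ∃ u : ℝ,
          η < |(((Ioc X (2 * X)).filter (fun n => ∑ i, mu (n + h i) ≤ u * Real.sqrt (6 * K / Real.pi ^ 2))).card : ℝ) / X
              - (gaussianReal 0 1).real (Set.Iic u)|)).card : ℕ) : ℝ)
        ≤ η * (H : ℝ) ^ K := by
  have hpi := Real.pi_pos
  set ρ : ℝ := 6 / Real.pi ^ 2 with hρ
  have hρ0 : 0 < ρ := by positivity
  obtain ⟨T, ζ, hζ, hlev⟩ := levy_fin η (8 / (ρ * η)) hη (by positivity)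
  set κ : ℝ := ζ * η / (4 * (T.card + 1)) with hκ
  have hκ0 : 0 < κ := by positivity
  choose N hN using fun t => Cd5_one h_cd1 δ ε t κ hδ hδ1 hε hε1 hκ0
  obtain ⟨X1, hm2⟩ := h_cdm δ ε hδ hδ1 hε hε1
  refine ⟨max (max (T.sup N) X1) 1, ?_⟩
  intro X hX H K hH1 hH2 hK1 hNK hK2
  have hdom : ∀ M : ℕ, M ≤ max (max (T.sup N) X1) 1 → (M : ℝ) * K ≤ (Real.log H / Real.log (Real.log X)) ^ 2 := by
    intro M hM
    refine le_trans (mul_le_mul_of_nonneg_right ?_ (Nat.cast_nonneg _)) hNK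
    exact_mod_cast hM
  have hXN : T.sup N ≤ X := (le_max_left _ _).trans ((le_max_left _ _).trans hX)
  have hXX1 : X1 ≤ X := (le_max_right _ _).trans ((le_max_left _ _).trans hX)
  have hX1 : 1 ≤ X := (le_max_right _ _).trans hX
  have hKN : T.sup N ≤ K := (le_max_left _ _).trans ((le_max_left _ _).trans hK1)
  have hK0 : 1 ≤ K := (le_max_right _ _).trans hK1
  have hXr : (0 : ℝ) < X := by exact_mod_cast hX1
  have hKr : (0 : ℝ) < K := by exact_mod_cast hK0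
  obtain ⟨hσ, _⟩ := Cd5_sigma K hK0
  have hσ2 : Real.sqrt (6 * K / Real.pi ^ 2) ^ 2 = ρ * K := by
    rw [Real.sq_sqrt (by positivity), hρ]
    ring
  set σ : ℝ := Real.sqrt (6 * K / Real.pi ^ 2) with hσd
  set P := Fintype.piFinset (fun _ : Fin K => Icc 1 H) with hP
  have hcard : (Ioc X (2 * X)).card = X := by
    rw [Nat.card_Ioc]
    omega
  have hne : (Ioc X (2 * X)).Nonempty := by
    rw [Finset.nonempty_Ioc]
    omega
  have hHK : (0 : ℝ) ≤ (H : ℝ) ^ K := by positivity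
  -- the second moment
  have hA := hm2 X hXX1 H K hH1 hH2 (hdom X1 ((le_max_right _ _).trans (le_max_left _ _))) hK2
  have hBa : ((P.filter (fun h => 8 / η * K * X < ∑ n ∈ Ioc X (2 * X), (∑ i, mu (n + h i)) ^ 2)).card : ℝ)
      ≤ η / 4 * (H : ℝ) ^ K := by
    have h1 := Cd5_markov P (fun h => ∑ n ∈ Ioc X (2 * X), (∑ i, mu (n + h i)) ^ 2)
      (fun h _ => Finset.sum_nonneg fun n _ => sq_nonneg _) (8 / η * K * X) _ (by positivity) hA
      (fun h => 8 / η * K * X < ∑ n ∈ Ioc X (2 * X), (∑ i, mu (n + h i)) ^ 2)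
      (fun h _ hh => hh.le)
    refine h1.trans (le_of_eq ?_)
    field_simp
    ring
  -- the characteristic functions
  have hBt : ∀ t ∈ T, ((P.filter (fun h => ζ * X < ‖∑ n ∈ Ioc X (2 * X),
        (Complex.exp (((t / σ * ∑ i, mu (n + h i) : ℝ) : ℂ) * Complex.I) -
          ((Real.exp (-t ^ 2 / 2) : ℝ) : ℂ))‖)).card : ℝ)
      ≤ η / (4 * (T.card + 1)) * (H : ℝ) ^ K := by
    intro t ht
    have h2 := hN t X ((Finset.le_sup ht).trans hXN) H K hH1 hH2 ((Finset.le_sup ht).trans hKN)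
      (hdom (N t) ((Finset.le_sup ht).trans ((le_max_left _ _).trans (le_max_left _ _)))) hK2
    have h1 := Cd5_markov P (fun h => ‖∑ n ∈ Ioc X (2 * X),
        (Complex.exp (((t / σ * ∑ i, mu (n + h i) : ℝ) : ℂ) * Complex.I) -
          ((Real.exp (-t ^ 2 / 2) : ℝ) : ℂ))‖)
      (fun h _ => norm_nonneg _) (ζ * X) _ (by positivity) h2
      (fun h => ζ * X < ‖∑ n ∈ Ioc X (2 * X),
        (Complex.exp (((t / σ * ∑ i, mu (n + h i) : ℝ) : ℂ) * Complex.I) -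
          ((Real.exp (-t ^ 2 / 2) : ℝ) : ℂ))‖)
      (fun h _ hh => hh.le)
    refine h1.trans (le_of_eq ?_)
    rw [hκ]
    field_simp
  have hsub : P.filter (fun h => ∃ u : ℝ,
          η < |(((Ioc X (2 * X)).filter (fun n => ∑ i, mu (n + h i) ≤ u * σ)).card : ℝ) / X
              - (gaussianReal 0 1).real (Set.Iic u)|) ⊆
      P.filter (fun h => 8 / η * K * X < ∑ n ∈ Ioc X (2 * X), (∑ i, mu (n + h i)) ^ 2) ∪
      T.biUnion (fun t => P.filter (fun h => ζ * X < ‖∑ n ∈ Ioc X (2 * X),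
        (Complex.exp (((t / σ * ∑ i, mu (n + h i) : ℝ) : ℂ) * Complex.I) -
          ((Real.exp (-t ^ 2 / 2) : ℝ) : ℂ))‖)) := by
    intro h hh
    rw [Finset.mem_filter] at hh
    obtain ⟨hhP, u, hu⟩ := hh
    by_contra hcon
    rw [Finset.mem_union, Finset.mem_biUnion, not_or] at hcon
    obtain ⟨hc1, hc2⟩ := hcon
    rw [Finset.mem_filter, not_and] at hc1
    have hc1' := not_lt.1 (hc1 hhP)
    have h3 : ∀ t ∈ T, ‖∑ n ∈ Ioc X (2 * X),
        (Complex.exp (((t / σ * ∑ i, mu (n + h i) : ℝ) : ℂ) * Complex.I) -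
          ((Real.exp (-t ^ 2 / 2) : ℝ) : ℂ))‖ ≤ ζ * X := by
      intro t ht
      by_contra hlt
      exact hc2 ⟨t, ht, Finset.mem_filter.2 ⟨hhP, not_le.1 hlt⟩⟩
    have h4 := hlev (Ioc X (2 * X)) (fun n => (∑ i, mu (n + h i)) / σ) hne ?_ ?_ u
    · rw [hcard] at h4
      have h5 : (Ioc X (2 * X)).filter (fun n => (∑ i, mu (n + h i)) / σ ≤ u) =
          (Ioc X (2 * X)).filter (fun n => ∑ i, mu (n + h i) ≤ u * σ) := by
        refine Finset.filter_congr fun n _ => ?_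
        rw [div_le_iff₀ hσ]
      rw [h5] at h4
      exact absurd hu (not_lt.2 (by convert h4))
    · rw [hcard]
      have h6 : ∑ n ∈ Ioc X (2 * X), ((∑ i, mu (n + h i)) / σ) ^ 2 =
          (∑ n ∈ Ioc X (2 * X), (∑ i, mu (n + h i)) ^ 2) / (ρ * K) := by
        rw [Finset.sum_div]
        refine Finset.sum_congr rfl fun n _ => ?_
        rw [div_pow, hσ2]
      rw [h6, div_le_iff₀ (by positivity)]
      refine hc1'.trans (le_of_eq ?_)
      field_simp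
    · intro t ht
      rw [hcard]
      have h7 : (1 / (X : ℂ)) * ∑ n ∈ Ioc X (2 * X),
            Complex.exp (((t * ((∑ i, mu (n + h i)) / σ) : ℝ) : ℂ) * Complex.I) -
            ((Real.exp (-t ^ 2 / 2) : ℝ) : ℂ) =
          (1 / (X : ℂ)) * ∑ n ∈ Ioc X (2 * X),
            (Complex.exp (((t / σ * ∑ i, mu (n + h i) : ℝ) : ℂ) * Complex.I) -
          ((Real.exp (-t ^ 2 / 2) : ℝ) : ℂ)) := by
        rw [Finset.sum_sub_distrib, Finset.sum_const, hcard, nsmul_eq_mul, mul_sub]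
        have hXC : (X : ℂ) ≠ 0 := by exact_mod_cast hXr.ne'
        congr 1
        · congr 1
          refine Finset.sum_congr rfl fun n _ => ?_
          congr 3
          ring
        · field_simp
      rw [h7, norm_mul, norm_div, norm_one, Complex.norm_natCast, one_div,
        inv_mul_le_iff₀ hXr]
      refine (h3 t ht).trans (le_of_eq ?_)
      ring
  calc ((P.filter (fun h => ∃ u : ℝ,
          η < |(((Ioc X (2 * X)).filter (fun n => ∑ i, mu (n + h i) ≤ u * σ)).card : ℝ) / X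
              - (gaussianReal 0 1).real (Set.Iic u)|)).card : ℝ)
      ≤ ((P.filter (fun h => 8 / η * K * X < ∑ n ∈ Ioc X (2 * X), (∑ i, mu (n + h i)) ^ 2)).card : ℝ) +
        ∑ t ∈ T, ((P.filter (fun h => ζ * X < ‖∑ n ∈ Ioc X (2 * X),
        (Complex.exp (((t / σ * ∑ i, mu (n + h i) : ℝ) : ℂ) * Complex.I) -
          ((Real.exp (-t ^ 2 / 2) : ℝ) : ℂ))‖)).card : ℝ) := by
        have h8 := (Finset.card_le_card hsub).trans ((Finset.card_union_le _ _).trans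
          (Nat.add_le_add_left Finset.card_biUnion_le _))
        exact_mod_cast h8
    _ ≤ η / 4 * (H : ℝ) ^ K + ∑ t ∈ T, η / (4 * (T.card + 1)) * (H : ℝ) ^ K :=
        add_le_add hBa (Finset.sum_le_sum hBt)
    _ ≤ η * (H : ℝ) ^ K := by
        rw [Finset.sum_const, nsmul_eq_mul]
        have h9 : (T.card : ℝ) * (η / (4 * (T.card + 1)) * (H : ℝ) ^ K) ≤ η / 4 * (H : ℝ) ^ K := by
          have h10 : (T.card : ℝ) * (η / (4 * (T.card + 1))) ≤ η / 4 := by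
            rw [mul_div_assoc', div_le_div_iff₀ (by positivity) (by norm_num)]
            nlinarith only [hη]
          calc (T.card : ℝ) * (η / (4 * (T.card + 1)) * (H : ℝ) ^ K)
              = ((T.card : ℝ) * (η / (4 * (T.card + 1)))) * (H : ℝ) ^ K := by ring
            _ ≤ η / 4 * (H : ℝ) ^ K := mul_le_mul_of_nonneg_right h10 hHK
        nlinarith only [hBa, h9]

end Pool.Agent.H43.CH

end

section

/-!
# CH LvK: `CorM` for `gP P1 P` in a residue class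

Proof as `Pool.Agent.H76.MU.cor_m` (file `H76/MU/CorG.lean`, 137 lines): `g n = gP P1 P n` on `Ioc M N`, `n ≡ u (c)`, `0` outside.  `1_{n ≡ u (c)} = (1/c) ∑_{b < c} ee(b (n - u)/c)`, so for `M < y ≤ N`
`cor g 0 M 0 t y = (1/c) ∑_{b < c} ee(-b u/c) (GT P1 P c b y t - GT P1 P c b M t)`; `nrm` of it `≤ 2 x/L^{K+1}` by `lvg (K+1)`; `∫_B ‖cor‖^2 = nrm^2 ≤ x^2/L^K`.
-/

set_option autoImplicit false

namespace Pool.Agent.H43.CH

open Finset MeasureTheory
open Pool.Agent.H91.PK (ee)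
open Pool.Agent.H53.MIX (VKw)
open Pool.Agent.H76.MU (CorM nrm BS log_ge)
open Pool.Agent.H43.LM (gP gP_abs_le)
open Pool.Agent.H35.W (cor)
open Pool.Agent.H76.EHB (continuous_ee)

private theorem LvK_ee_add (s t : ℝ) : ee (s + t) = ee s * ee t := Pool.Agent.H91.PK.LSa_ee_add s t

private theorem LvK_ee_pow (t : ℝ) (k : ℕ) : ee (k * t) = ee t ^ k := by
  induction k with
  | zero => simp [ee]
  | succ k ih =>
    rw [pow_succ, ← ih, ← LvK_ee_add]
    congr 1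
    push_cast
    ring

private theorem LvK_ee_int (j : ℤ) : ee (j : ℝ) = 1 := Pool.Agent.H76.EHB.ee_int j

/-- orthogonality of the additive characters -/
private theorem LvK_orth (c n u : ℕ) (hc : 1 ≤ c) :
    ∑ b ∈ range c, ee (-((u : ℝ) * ((b : ℝ) / c))) * ee ((n : ℝ) * ((b : ℝ) / c)) =
      if n % c = u % c then (c : ℂ) else 0 := by
  have hc0 : (c : ℝ) ≠ 0 := by positivity
  have e1 : ∀ b ∈ range c, ee (-((u : ℝ) * ((b : ℝ) / c))) * ee ((n : ℝ) * ((b : ℝ) / c)) =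
      ee (((n : ℝ) - u) / c) ^ b := by
    intro b _
    rw [← LvK_ee_add, ← LvK_ee_pow]
    congr 1
    field_simp
    ring
  rw [Finset.sum_congr rfl e1]
  split_ifs with h
  · have h1 : ((c : ℤ)) ∣ (n : ℤ) - u := by
      have h2 : (u : ℤ) % c = (n : ℤ) % c := by exact_mod_cast h.symm
      exact Int.ModEq.dvd h2
    obtain ⟨k, hk⟩ := h1
    have h3 : ((n : ℝ) - u) / c = (k : ℤ) := by
      have h4 : (n : ℝ) - u = c * (k : ℝ) := by exact_mod_cast hk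
      rw [h4]
      field_simp
    rw [h3, LvK_ee_int]
    simp
  · have hz : ee (((n : ℝ) - u) / c) ^ c = 1 := by
      rw [← LvK_ee_pow]
      have h4 : (c : ℝ) * (((n : ℝ) - u) / c) = (((n : ℤ) - u : ℤ) : ℝ) := by
        push_cast
        field_simp
      rw [h4, LvK_ee_int]
    have hz1 : ee (((n : ℝ) - u) / c) ≠ 1 := by
      intro h1
      unfold ee at h1
      rw [Complex.exp_eq_one_iff] at h1
      obtain ⟨k, hk⟩ := h1
      have hpi : (2 * (Real.pi : ℂ) * Complex.I) ≠ 0 := by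
        simp [Real.pi_ne_zero, Complex.I_ne_zero]
      have h2 : ((((n : ℝ) - u) / c : ℝ) : ℂ) = k := by
        apply mul_left_cancel₀ hpi
        rw [← mul_comm (k : ℂ), ← hk]
        ring
      have h3 : ((n : ℝ) - u) / c = k := by exact_mod_cast h2
      have h4 : (n : ℝ) - u = k * c := by
        rw [div_eq_iff hc0] at h3
        exact h3
      have h5 : (n : ℤ) - u = k * c := by exact_mod_cast h4
      apply h
      have h6 : ((c : ℤ)) ∣ (n : ℤ) - u := ⟨k, by rw [h5, mul_comm]⟩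
      have h7 : (u : ℤ) % c = (n : ℤ) % c := (Int.modEq_iff_dvd.2 h6)
      exact_mod_cast h7.symm
    have h8 := geom_sum_eq hz1 c
    rw [h8, hz]
    simp

private theorem LvK_cont (P1 P c b y : ℕ) : Continuous (GT P1 P c b y) := by
  unfold GT
  exact continuous_finsetSum _ fun n _ =>
    continuous_const.mul (continuous_ee.comp (by fun_prop))

private theorem LvK_int (η T : ℝ) (B : Set ℝ) (hB : BS η T B) (f : ℝ → ℂ) (hf : Continuous f) :
    IntegrableOn (fun t => ‖f t‖ ^ 2) B := by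
  have h1 : IntegrableOn (fun t => ‖f t‖ ^ 2) (Set.Icc (-(2 * T)) (2 * T)) :=
    (hf.norm.pow 2).continuousOn.integrableOn_compact isCompact_Icc
  refine h1.mono_set fun t ht => ?_
  have h2 := (hB.mem t ht).2
  exact Set.mem_Icc.2 (abs_le.1 h2)

private theorem LvK_sq (B : Set ℝ) (f : ℝ → ℂ) : nrm B f ^ 2 = ∫ t in B, ‖f t‖ ^ 2 := by
  unfold nrm
  exact Real.sq_sqrt (integral_nonneg fun t => by positivity)

private theorem LvK_cor (P1 P c u M N y : ℕ) (hc : 1 ≤ c) (hMy : M < y) (hy : y ≤ N) (t : ℝ) :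
    (c : ℂ) * cor (cutf (cl (gP P1 P) c u) M N) 0 M 0 t y =
      ∑ b ∈ range c, ee (-((u : ℝ) * ((b : ℝ) / c))) * (GT P1 P c b y t - GT P1 P c b M t) := by
  have h1 : Icc 1 y = Icc 1 M ∪ Ioc M y := by
    ext n
    simp only [mem_Icc, mem_union, mem_Ioc]
    omega
  have h2 : Disjoint (Icc 1 M) (Ioc M y) := by
    rw [Finset.disjoint_left]
    intro n h3 h4
    rw [mem_Icc] at h3
    rw [mem_Ioc] at h4
    omega
  have h3 : ∀ b, GT P1 P c b y t - GT P1 P c b M t =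
      ∑ n ∈ Ioc M y, ((gP P1 P n : ℝ) : ℂ) * ee ((n : ℝ) * ((b : ℝ) / c)) * ee (t * Real.log n) := by
    intro b
    unfold GT
    rw [h1, Finset.sum_union h2, add_sub_cancel_left]
  simp only [h3, Finset.mul_sum]
  rw [Finset.sum_comm]
  unfold cor
  rw [Finset.mul_sum]
  refine Finset.sum_congr rfl fun n hn => ?_
  rw [mem_Ioc] at hn
  have h4 : cutf (cl (gP P1 P) c u) M N n = if n % c = u % c then gP P1 P n else 0 := by
    unfold cutf cl
    rw [if_pos (mem_Ioc.2 ⟨hn.1, hn.2.trans hy⟩)]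
  have h5 : ee ((n : ℝ) * 0 + t * Real.log ((n : ℝ) - ((0 : ℕ) : ℝ))) = ee (t * Real.log n) := by
    simp
  rw [h4, h5]
  have h6 : ∀ b ∈ range c, ee (-((u : ℝ) * ((b : ℝ) / c))) *
      (((gP P1 P n : ℝ) : ℂ) * ee ((n : ℝ) * ((b : ℝ) / c)) * ee (t * Real.log n)) =
      ee (-((u : ℝ) * ((b : ℝ) / c))) * ee ((n : ℝ) * ((b : ℝ) / c)) *
        (((gP P1 P n : ℝ) : ℂ) * ee (t * Real.log n)) := by
    intro b _
    ring
  rw [Finset.sum_congr rfl h6, ← Finset.sum_mul, LvK_orth c n u hc]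
  split_ifs
  · rfl
  · simp

private theorem LvK_bound (c : ℕ) (hc : 1 ≤ c) (z : ℂ) (w f g : ℕ → ℂ) (hw : ∀ b, ‖w b‖ = 1)
    (h : (c : ℂ) * z = ∑ b ∈ range c, w b * (f b - g b)) :
    ‖z‖ ^ 2 ≤ (1 / (c : ℝ)) * ∑ b ∈ range c, (2 * ‖f b‖ ^ 2 + 2 * ‖g b‖ ^ 2) := by
  have hc0 : (0 : ℝ) < c := by positivity
  have h1 : (c : ℝ) * ‖z‖ ≤ ∑ b ∈ range c, ‖f b - g b‖ := by
    calc (c : ℝ) * ‖z‖ = ‖(c : ℂ) * z‖ := by simp
      _ = ‖∑ b ∈ range c, w b * (f b - g b)‖ := by rw [h]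
      _ ≤ ∑ b ∈ range c, ‖w b * (f b - g b)‖ := norm_sum_le _ _
      _ = ∑ b ∈ range c, ‖f b - g b‖ := Finset.sum_congr rfl fun b _ => by
          rw [norm_mul, hw, one_mul]
  have h2 : (∑ b ∈ range c, ‖f b - g b‖) ^ 2 ≤ (c : ℝ) * ∑ b ∈ range c, ‖f b - g b‖ ^ 2 := by
    have := sq_sum_le_card_mul_sum_sq (s := range c) (f := fun b => ‖f b - g b‖)
    simpa using this
  have h3 : ∑ b ∈ range c, ‖f b - g b‖ ^ 2 ≤ ∑ b ∈ range c, (2 * ‖f b‖ ^ 2 + 2 * ‖g b‖ ^ 2) := by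
    refine Finset.sum_le_sum fun b _ => ?_
    have h4 := norm_sub_le (f b) (g b)
    have h5 := norm_nonneg (f b - g b)
    nlinarith [sq_nonneg (‖f b‖ - ‖g b‖), pow_le_pow_left₀ h5 h4 2]
  have h6 : ((c : ℝ) * ‖z‖) ^ 2 ≤ (c : ℝ) * ∑ b ∈ range c, (2 * ‖f b‖ ^ 2 + 2 * ‖g b‖ ^ 2) :=
    (pow_le_pow_left₀ (by positivity) h1 2).trans
      (h2.trans (mul_le_mul_of_nonneg_left h3 hc0.le))
  rw [one_div, ← div_eq_inv_mul, le_div_iff₀ hc0]
  have h7 : ((c : ℝ) * ‖z‖) ^ 2 = c * (‖z‖ ^ 2 * c) := by ring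
  rw [h7] at h6
  exact le_of_mul_le_mul_left h6 hc0

theorem cor_g_h (h_lvg : lvg_P) (hV : VKw (19 / 20)) (s : ℝ) (hs0 : 0 < s) (hs : s < 1) : ∃ η : ℝ, 0 < η ∧ η ≤ 1 / 10 ∧ ∀ K B : ℕ,
    ∃ m1 : ℕ, ∀ m : ℕ, m1 ≤ m → ∃ x0 : ℕ, ∀ x : ℕ, x0 ≤ x → ∀ P1 P c u M N : ℕ,
      (P : ℝ) ≤ Real.exp (Real.log x ^ s) → 1 ≤ c → (c : ℝ) ≤ Real.log x ^ B → N ≤ x →
      CorM x m K η N M (cutf (cl (gP P1 P) c u) M N) := by
  obtain ⟨η, h0, h1, h⟩ := h_lvg hV s hs0 hs
  refine ⟨η, h0, h1, fun K B => ?_⟩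
  obtain ⟨K', x0, hx⟩ := h (K + 1) B
  obtain ⟨x1, hx1⟩ := log_ge 2
  refine ⟨K', fun m hm => ⟨max x0 x1, fun x hxx P1 P c u M N hP hc hcB hN => ?_⟩⟩
  have hL : 2 ≤ Real.log x := hx1 x (le_trans (le_max_right _ _) hxx)
  have hL0 : 0 < Real.log x := by linarith
  have hL1 : (1 : ℝ) ≤ Real.log x := by linarith
  have hc0 : (0 : ℝ) < c := by exact_mod_cast hc
  refine ⟨?_, ?_, ?_⟩
  · intro n hn
    unfold cutf
    rw [if_neg hn]
  · intro n
    unfold cutf cl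
    split_ifs
    · exact gP_abs_le P1 P n
    · simp
    · simp
  · intro y T Bs hy hT hTx hB
    have hpos : 0 ≤ (x : ℝ) ^ 2 / Real.log x ^ K := by positivity
    by_cases hMy : M < y
    · have hy' : y ≤ x := hy.trans hN
      have hM' : M ≤ x := hMy.le.trans hy'
      have hT' : Real.log x ^ K' ≤ T := (pow_le_pow_right₀ hL1 hm).trans hT
      have hxx0 := le_trans (le_max_left _ _) hxx
      have e1 : ∀ b z, z ≤ x → ∫ t in Bs, ‖GT P1 P c b z t‖ ^ 2 ≤ ((x : ℝ) / Real.log x ^ (K + 1)) ^ 2 := by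
        intro b z hz
        rw [← LvK_sq Bs (GT P1 P c b z)]
        exact pow_le_pow_left₀ (Real.sqrt_nonneg _) (hx x hxx0 P1 P c b z T Bs hP hc hcB hz hT' hTx hB) 2
      have i1 : ∀ b z, IntegrableOn (fun t => ‖GT P1 P c b z t‖ ^ 2) Bs := fun b z =>
        LvK_int η T Bs hB _ (LvK_cont P1 P c b z)
      have i2 : ∀ b ∈ range c, Integrable (fun t => 2 * ‖GT P1 P c b y t‖ ^ 2 + 2 * ‖GT P1 P c b M t‖ ^ 2)
          (volume.restrict Bs) := fun b _ => ((i1 b y).const_mul 2).add ((i1 b M).const_mul 2)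
      have i3 : Integrable (fun t => (1 / (c : ℝ)) * ∑ b ∈ range c,
          (2 * ‖GT P1 P c b y t‖ ^ 2 + 2 * ‖GT P1 P c b M t‖ ^ 2)) (volume.restrict Bs) :=
        (integrable_finsetSum _ i2).const_mul _
      have s1 : ∫ t in Bs, ‖cor (cutf (cl (gP P1 P) c u) M N) 0 M 0 t y‖ ^ 2 ≤
          ∫ t in Bs, (1 / (c : ℝ)) * ∑ b ∈ range c,
            (2 * ‖GT P1 P c b y t‖ ^ 2 + 2 * ‖GT P1 P c b M t‖ ^ 2) := by
        refine integral_mono_of_nonneg (Filter.Eventually.of_forall fun t => by positivity) i3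
          (Filter.Eventually.of_forall fun t => ?_)
        exact LvK_bound c hc _ (fun b => ee (-((u : ℝ) * ((b : ℝ) / c)))) (fun b => GT P1 P c b y t)
          (fun b => GT P1 P c b M t) (fun b => Pool.Agent.H91.PK.LSa_norm_ee _)
          (LvK_cor P1 P c u M N y hc hMy hy t)
      rw [integral_const_mul, integral_finsetSum _ i2] at s1
      have s2 : ∀ b ∈ range c, ∫ t in Bs, (2 * ‖GT P1 P c b y t‖ ^ 2 + 2 * ‖GT P1 P c b M t‖ ^ 2) ≤
          4 * ((x : ℝ) / Real.log x ^ (K + 1)) ^ 2 := by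
        intro b _
        rw [integral_add ((i1 b y).const_mul 2) ((i1 b M).const_mul 2), integral_const_mul,
          integral_const_mul]
        linarith [e1 b y hy', e1 b M hM']
      have s3 : (1 / (c : ℝ)) * ∑ b ∈ range c,
          ∫ t in Bs, (2 * ‖GT P1 P c b y t‖ ^ 2 + 2 * ‖GT P1 P c b M t‖ ^ 2) ≤
          4 * ((x : ℝ) / Real.log x ^ (K + 1)) ^ 2 := by
        rw [one_div, ← div_eq_inv_mul, div_le_iff₀ hc0]
        refine (Finset.sum_le_card_nsmul _ _ _ s2).trans ?_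
        rw [card_range, nsmul_eq_mul]
        linarith
      have q3 : ((x : ℝ) / Real.log x ^ (K + 1)) ^ 2 * 4 ≤ (x : ℝ) ^ 2 / Real.log x ^ K := by
        rw [div_pow, div_mul_eq_mul_div, div_le_div_iff₀ (by positivity) (by positivity)]
        have h6 : Real.log x ^ K * 4 ≤ (Real.log x ^ (K + 1)) ^ 2 := by
          have h7 : (Real.log x ^ (K + 1)) ^ 2 = Real.log x ^ K * (Real.log x ^ K * Real.log x ^ 2) := by
            ring
          rw [h7]
          refine mul_le_mul_of_nonneg_left ?_ (by positivity)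
          have h8 : 1 ≤ Real.log x ^ K := one_le_pow₀ hL1
          have h9 : (4 : ℝ) ≤ Real.log x ^ 2 := by nlinarith only [hL]
          nlinarith only [h8, h9]
        calc (x : ℝ) ^ 2 * 4 * Real.log x ^ K = (x : ℝ) ^ 2 * (Real.log x ^ K * 4) := by ring
          _ ≤ (x : ℝ) ^ 2 * (Real.log x ^ (K + 1)) ^ 2 :=
            mul_le_mul_of_nonneg_left h6 (by positivity)
      linarith only [s1, s3, q3]
    · have h2 : ∀ t : ℝ, cor (cutf (cl (gP P1 P) c u) M N) 0 M 0 t y = 0 := by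
        intro t
        unfold cor
        rw [Finset.Ioc_eq_empty hMy, Finset.sum_empty]
      simp only [h2, norm_zero]
      simpa using hpos

end Pool.Agent.H43.CH

end

section

/-!
# CH Cd4: almost all tuples of shifts, all lengths `H`

As `Ch4.lean`, with `cd1 2 2 (δ/4) ε` (`G = 1`, constant `C1`; `∑ ‖G‖ = X`): `∑_{h,h' ≤ H} |C(h,h')| ≤ H^2 X (C1^2 sav^2 + L^{-2}) ≤ 2 C1^2 H^2 X sav^2` (`sav ≥ L^{-1}`), `K sav^2 ≤ 2/N0 + 2 L^{-δ/2}`; so
`∑_{h ∈ [1,H]^K} ∑_{i ≠ j} |C(h_i,h_j)| ≤ K^2 H^K X · 2 C1^2 sav^2 ≤ ζ K H^K X`, `ζ` as small as we like for `N0` large.  Markov with the bound `(η/2) K X`, diagonal terms by `sqf`.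
-/

set_option autoImplicit false

namespace Pool.Agent.H43.CH

open Finset MeasureTheory
open Pool.Agent.H43.LM (mu)

/-- the total over the tuples of the off-diagonal correlations -/
private theorem Cd4_total (X H K : ℕ) (hH : 0 < H) (B : ℝ) (hB : 0 ≤ B)
    (hpairs : ∑ a ∈ Icc 1 H, ∑ b ∈ Icc 1 H, |Ch4_C X a b| ≤ (H : ℝ) ^ 2 * B) :
    ∑ h ∈ Fintype.piFinset (fun _ : Fin K => Icc 1 H), ∑ i, ∑ j ∈ univ.erase i, |Ch4_C X (h i) (h j)| ≤ K * (K * ((H : ℝ) ^ K * B)) := by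
  classical
  set P := Fintype.piFinset (fun _ : Fin K => Icc 1 H) with hP
  have hH0 : (0 : ℝ) < H := by exact_mod_cast hH
  have e1 : ∑ h ∈ P, ∑ i, ∑ j ∈ univ.erase i, |Ch4_C X (h i) (h j)| = ∑ i : Fin K, ∑ j ∈ univ.erase i, ∑ h ∈ P, |Ch4_C X (h i) (h j)| := by
    rw [sum_comm]
    refine sum_congr rfl fun i _ => ?_
    rw [sum_comm]
  have e2 : ∀ i : Fin K, ∀ j ∈ univ.erase i, ∑ h ∈ P, |Ch4_C X (h i) (h j)| ≤ (H : ℝ) ^ K * B := by
    intro i j hj
    have e3 := Ch4_pair K H (fun a b => |Ch4_C X a b|) i j (ne_of_mem_erase hj).symm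
    have e4 : (H : ℝ) ^ 2 * ∑ h ∈ P, |Ch4_C X (h i) (h j)| ≤ (H : ℝ) ^ 2 * ((H : ℝ) ^ K * B) := by
      rw [e3]
      refine (mul_le_mul_of_nonneg_left hpairs (by positivity)).trans (le_of_eq ?_)
      ring
    exact le_of_mul_le_mul_left e4 (by positivity)
  rw [e1]
  have e6 : ∀ i ∈ (univ : Finset (Fin K)), ∑ j ∈ univ.erase i, ∑ h ∈ P, |Ch4_C X (h i) (h j)| ≤ K * ((H : ℝ) ^ K * B) := by
    intro i _
    refine (sum_le_card_nsmul _ _ _ (e2 i)).trans ?_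
    rw [nsmul_eq_mul]
    refine mul_le_mul_of_nonneg_right ?_ (by positivity)
    have : (univ.erase i).card ≤ K := by
      refine (card_le_card (erase_subset _ _)).trans ?_
      rw [card_univ, Fintype.card_fin]
    exact_mod_cast this
  refine (sum_le_card_nsmul _ _ _ e6).trans ?_
  rw [card_univ, Fintype.card_fin, nsmul_eq_mul]

open Classical in
theorem cd4_h (h_cd1 : cd1_P) (δ ε η : ℝ) (hδ : 0 < δ) (hδ1 : δ < 1) (hε : 0 < ε) (hε1 : ε < 1) (hη : 0 < η) : ∃ N0 : ℕ, ∀ X : ℕ, N0 ≤ X →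
    ∀ H K : ℕ, 2 ≤ H → (H : ℝ) ≤ (X : ℝ) ^ (1 - ε) → 1 ≤ K →
      (N0 : ℝ) * K ≤ (Real.log H / Real.log (Real.log X)) ^ 2 → (K : ℝ) ≤ Real.log X ^ (2 - δ) →
      ((((Fintype.piFinset (fun _ : Fin K => Icc 1 H)).filter (fun h => ∃ c : Fin K → ℂ, (∀ i, ‖c i‖ ≤ 1) ∧
          η * K < |(1 / (X : ℝ)) * ∑ n ∈ Ioc X (2 * X), ‖∑ i, c i * ((mu (n + h i) : ℝ) : ℂ)‖ ^ 2
              - 6 / Real.pi ^ 2 * ∑ i, ‖c i‖ ^ 2|)).card : ℕ) : ℝ)
        ≤ η * (H : ℝ) ^ K := by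
  obtain ⟨C1, x1, hC1, h1⟩ := h_cd1 2 2 (δ / 4) ε (by linarith only [hδ]) (by linarith only [hδ, hδ1]) hε hε1
  obtain ⟨C, hC, hsq⟩ := sqf
  set M : ℝ := 16 * C1 ^ 2 / η ^ 2 with hM
  have hM0 : 0 < M := by positivity
  obtain ⟨x3, h3⟩ := Pool.Agent.H76.MU.log_ge (max 3 (M ^ (2 / δ)))
  obtain ⟨x4, h4⟩ := exists_nat_ge ((2 * C / η) ^ 2)
  obtain ⟨x5, h5⟩ := exists_nat_ge M
  refine ⟨max (max x1 x3) (max (max x4 x5) 1), fun X hX H K hH2 hHX1 hK1 hK2 hK => ?_⟩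
  set N0 : ℕ := max (max x1 x3) (max (max x4 x5) 1) with hN0
  have hX1 : x1 ≤ X := (le_max_left _ _).trans ((le_max_left _ _).trans hX)
  have hX3 : x3 ≤ X := (le_max_right _ _).trans ((le_max_left _ _).trans hX)
  have hX4 : x4 ≤ X := (le_max_left _ _).trans ((le_max_left _ _).trans ((le_max_right _ _).trans hX))
  have hX5 : 1 ≤ X := (le_max_right _ _).trans ((le_max_right _ _).trans hX)
  have hN5 : x5 ≤ N0 := (le_max_right _ _).trans ((le_max_left _ _).trans (le_max_right _ _))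
  have hN1 : 1 ≤ N0 := (le_max_right _ _).trans (le_max_right _ _)
  have hN5r : M ≤ N0 := h5.trans (by exact_mod_cast hN5)
  have hN0r : (0 : ℝ) < N0 := by exact_mod_cast hN1
  have hXr : (1 : ℝ) ≤ X := by exact_mod_cast hX5
  have hX0 : (0 : ℝ) < X := by linarith only [hδ, hδ1, hXr]
  have hL3 : 3 ≤ Real.log X := (le_max_left _ _).trans (h3 X hX3)
  have hLM : M ^ (2 / δ) ≤ Real.log X := (le_max_right _ _).trans (h3 X hX3)
  have hC4 : (2 * C / η) ^ 2 ≤ X := h4.trans (by exact_mod_cast hX4)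
  have h1X := h1 X hX1 H hH2 hHX1 (fun _ => 1) (fun _ _ => by simp)
  have hH0 : (0 : ℝ) < H := by
    have : 0 < H := by omega
    exact_mod_cast this
  have hHX : H ≤ X := by
    have e : (H : ℝ) ≤ (X : ℝ) ^ (1 : ℝ) := hHX1.trans (Real.rpow_le_rpow_of_exponent_le hXr (by linarith only [hε]))
    rw [Real.rpow_one] at e
    exact_mod_cast e
  have hlH : 0 < Real.log H := Real.log_pos (by
    have : (2 : ℝ) ≤ H := by exact_mod_cast hH2
    linarith only [hδ, hδ1, this])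
  have hll : 0 < Real.log (Real.log X) := Real.log_pos (by linarith only [hδ, hδ1, hL3])
  have hKr : (1 : ℝ) ≤ K := by exact_mod_cast hK1
  have hK0 : (0 : ℝ) < K := by linarith only [hδ, hδ1, hKr]
  set s : ℝ := sav X H (δ / 4) with hs
  have hs1 : s = Real.log (Real.log X) / Real.log H + Real.log X ^ (δ / 4 - 1) := rfl
  generalize hLdef : Real.log (X : ℝ) = L at *
  generalize hldef : Real.log L / Real.log H = q at *
  have hL0 : 0 < L := by linarith only [hδ, hδ1, hL3]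
  have hL1 : 1 ≤ L := by linarith only [hδ, hδ1, hL3]
  have hq0 : 0 < q := by rw [← hldef]; positivity
  have hLp : 0 < L ^ (δ / 4 - 1) := Real.rpow_pos_of_pos hL0 _
  have hs0 : 0 < s := by rw [hs1]; positivity
  have hsL : 1 / L ≤ s := by
    have e1 : L ^ (-1 : ℝ) ≤ L ^ (δ / 4 - 1) := Real.rpow_le_rpow_of_exponent_le hL1 (by linarith only [hδ])
    rw [Real.rpow_neg_one] at e1
    rw [one_div, hs1]
    linarith only [hq0, e1]
  have hsL2 : 1 / L ^ 2 ≤ s ^ 2 := by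
    have e1 : (1 / L) ^ 2 ≤ s ^ 2 := pow_le_pow_left₀ (by positivity) hsL 2
    rwa [div_pow, one_pow] at e1
  -- the sum over pairs
  have hpairs : ∑ a ∈ Icc 1 H, ∑ b ∈ Icc 1 H, |Ch4_C X a b| ≤ (H : ℝ) ^ 2 * (2 * C1 ^ 2 * s ^ 2 * X) := by
    have e1 := Ch4_pair 2 H (fun a b => |Ch4_C X a b|) 0 1 (by decide)
    have e2 := mul_left_cancel₀ (pow_ne_zero 2 hH0.ne') e1
    rw [← e2]
    have e3 : ∑ h ∈ Fintype.piFinset (fun _ : Fin 2 => Icc 1 H), |Ch4_C X (h 0) (h 1)| ≤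
        (H : ℝ) ^ 2 * ((C1 * s) ^ 2 * X + X / L ^ 2) := by
      have e4 : ∑ n ∈ Ioc X (2 * X), ‖(1 : ℂ)‖ = X := by
        rw [norm_one, sum_const, Nat.card_Ioc, nsmul_eq_mul, mul_one]
        have : 2 * X - X = X := by omega
        rw [this]
      rw [e4] at h1X
      refine le_trans (le_of_eq ?_) h1X
      refine sum_congr rfl fun h _ => ?_
      unfold Ch4_C
      rw [← Real.norm_eq_abs, ← Complex.norm_real, Complex.ofReal_sum]
      congr 1
      refine sum_congr rfl fun n _ => ?_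
      simp [Fin.prod_univ_two]
    refine e3.trans (mul_le_mul_of_nonneg_left ?_ (by positivity))
    have e5 : (X : ℝ) / L ^ 2 ≤ s ^ 2 * X := by
      have := mul_le_mul_of_nonneg_right hsL2 hX0.le
      calc (X : ℝ) / L ^ 2 = 1 / L ^ 2 * X := by ring
        _ ≤ _ := this
    have e6 : s ^ 2 * X ≤ C1 ^ 2 * (s ^ 2 * X) := by
      have : 1 ≤ C1 ^ 2 := one_le_pow₀ hC1
      nlinarith only [hδ, hδ1, this, hs0, hX0, mul_pos (pow_pos hs0 2) hX0]
    nlinarith only [e5, e6]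
  -- the total over the tuples
  set P := Fintype.piFinset (fun _ : Fin K => Icc 1 H) with hP
  set S : (Fin K → ℕ) → ℝ := fun h => ∑ i, ∑ j ∈ univ.erase i, |Ch4_C X (h i) (h j)| with hS
  have hKs : K * s ^ 2 ≤ 4 / M := by
    have e1 : s ^ 2 ≤ 2 * q ^ 2 + 2 * (L ^ (δ / 4 - 1)) ^ 2 := by
      rw [hs1]
      nlinarith only [sq_nonneg (q - L ^ (δ / 4 - 1))]
    have e2 : K * q ^ 2 ≤ 1 / M := by
      have f1 : (Real.log H / Real.log L) = q⁻¹ := by rw [← hldef, inv_div]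
      rw [f1, inv_pow] at hK2
      have f2 : (N0 : ℝ) * (K * q ^ 2) ≤ 1 := by
        have := mul_le_mul_of_nonneg_right hK2 (sq_nonneg q)
        rw [inv_mul_cancel₀ (by positivity)] at this
        linarith only [this]
      have f3 : M * (K * q ^ 2) ≤ 1 := (mul_le_mul_of_nonneg_right hN5r (by positivity)).trans f2
      rw [le_div_iff₀ hM0]
      linarith only [f3]
    have e3 : K * (L ^ (δ / 4 - 1)) ^ 2 ≤ 1 / M := by
      have f1 : (L ^ (δ / 4 - 1)) ^ 2 = L ^ (δ / 2 - 2) := by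
        rw [← Real.rpow_natCast, ← Real.rpow_mul hL0.le]
        congr 1
        push_cast
        ring
      have f2 : K * L ^ (δ / 2 - 2) ≤ L ^ (2 - δ) * L ^ (δ / 2 - 2) := mul_le_mul_of_nonneg_right hK (Real.rpow_pos_of_pos hL0 _).le
      have f3 : L ^ (2 - δ) * L ^ (δ / 2 - 2) = (L ^ (δ / 2))⁻¹ := by
        rw [← Real.rpow_add hL0, ← Real.rpow_neg hL0.le]
        congr 1
        ring
      have f4 : M ≤ L ^ (δ / 2) := by
        calc M = (M ^ (2 / δ)) ^ (δ / 2) := by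
              rw [← Real.rpow_mul hM0.le, div_mul_div_comm, mul_comm 2 δ, div_self (by positivity), Real.rpow_one]
          _ ≤ L ^ (δ / 2) := Real.rpow_le_rpow (by positivity) hLM (by positivity)
      rw [f1]
      refine f2.trans ?_
      rw [f3, one_div]
      exact inv_anti₀ hM0 f4
    have e4 : K * s ^ 2 ≤ K * (2 * q ^ 2 + 2 * (L ^ (δ / 4 - 1)) ^ 2) := mul_le_mul_of_nonneg_left e1 hK0.le
    have e5 : (4 : ℝ) / M = 2 * (1 / M) + 2 * (1 / M) := by ring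
    rw [e5]
    linarith only [e2, e3, e4]
  have htot : ∑ h ∈ P, S h ≤ K * (H : ℝ) ^ K * X * (η ^ 2 / 2) := by
    have e1 := Cd4_total X H K (by omega) (2 * C1 ^ 2 * s ^ 2 * X) (by positivity) hpairs
    refine e1.trans ?_
    have e2 : 2 * C1 ^ 2 * (K * s ^ 2) ≤ η ^ 2 / 2 := by
      refine (mul_le_mul_of_nonneg_left hKs (by positivity)).trans (le_of_eq ?_)
      rw [hM]
      have : C1 ≠ 0 := by linarith only [hδ, hδ1, hC1]
      field_simp
      norm_num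
    have e3 : K * (K * ((H : ℝ) ^ K * (2 * C1 ^ 2 * s ^ 2 * X))) = K * (H : ℝ) ^ K * X * (2 * C1 ^ 2 * (K * s ^ 2)) := by ring
    rw [e3]
    exact mul_le_mul_of_nonneg_left e2 (by positivity)
  -- the bad tuples
  set T : ℝ := η / 2 * (K * X) with hT
  have hT0 : 0 < T := by positivity
  have hsub : (P.filter (fun h => ∃ c : Fin K → ℂ, (∀ i, ‖c i‖ ≤ 1) ∧
          η * K < |(1 / (X : ℝ)) * ∑ n ∈ Ioc X (2 * X), ‖∑ i, c i * ((mu (n + h i) : ℝ) : ℂ)‖ ^ 2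
              - 6 / Real.pi ^ 2 * ∑ i, ‖c i‖ ^ 2|)) ⊆ P.filter (fun h => T < S h) := by
    intro h hh
    rw [mem_filter] at hh ⊢
    obtain ⟨hh1, c, hc, hcb⟩ := hh
    refine ⟨hh1, ?_⟩
    by_contra hle
    rw [not_lt] at hle
    rw [hP, Fintype.mem_piFinset] at hh1
    have e1 := Ch4_bound X (6 / Real.pi ^ 2 * X) (C * Real.sqrt X) h c hc (fun i => by
      rw [Ch4_diag]
      exact hsq X (h i) hX5 ((mem_Icc.1 (hh1 i)).2.trans hHX))
    have e2 : (1 / (X : ℝ)) * ∑ n ∈ Ioc X (2 * X), ‖∑ i, c i * ((mu (n + h i) : ℝ) : ℂ)‖ ^ 2 - 6 / Real.pi ^ 2 * ∑ i, ‖c i‖ ^ 2 =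
        (1 / (X : ℝ)) * (∑ n ∈ Ioc X (2 * X), ‖∑ i, c i * ((mu (n + h i) : ℝ) : ℂ)‖ ^ 2 - 6 / Real.pi ^ 2 * X * ∑ i, ‖c i‖ ^ 2) := by
      field_simp
    rw [e2, abs_mul, abs_of_pos (by positivity)] at hcb
    have e3 : (1 / (X : ℝ)) * |∑ n ∈ Ioc X (2 * X), ‖∑ i, c i * ((mu (n + h i) : ℝ) : ℂ)‖ ^ 2 - 6 / Real.pi ^ 2 * X * ∑ i, ‖c i‖ ^ 2| ≤
        (1 / (X : ℝ)) * (K * (C * Real.sqrt X) + T) :=
      mul_le_mul_of_nonneg_left (e1.trans (add_le_add le_rfl hle)) (by positivity)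
    have e4 : (1 / (X : ℝ)) * (K * (C * Real.sqrt X) + T) ≤ η * K := by
      have f4 : Real.sqrt X * Real.sqrt X = X := Real.mul_self_sqrt hX0.le
      have f5 : 0 < Real.sqrt X := Real.sqrt_pos.2 hX0
      have f6 : 2 * C / η ≤ Real.sqrt X := Real.le_sqrt_of_sq_le hC4
      have f7 : C * Real.sqrt X ≤ η / 2 * X := by
        have g1 : C ≤ η / 2 * Real.sqrt X := by
          rw [div_le_iff₀ hη] at f6
          linarith only [f6]
        calc C * Real.sqrt X ≤ η / 2 * Real.sqrt X * Real.sqrt X := mul_le_mul_of_nonneg_right g1 f5.le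
          _ = η / 2 * X := by rw [mul_assoc, f4]
      rw [one_div, ← div_eq_inv_mul, div_le_iff₀ hX0, hT]
      have f8 := mul_le_mul_of_nonneg_left f7 hK0.le
      nlinarith only [f8]
    linarith only [hcb, e3, e4]
  have hmark : ((P.filter (fun h => T < S h)).card : ℝ) * T ≤ K * (H : ℝ) ^ K * X * (η ^ 2 / 2) := by
    refine le_trans ?_ htot
    have e1 : ((P.filter (fun h => T < S h)).card : ℝ) * T ≤ ∑ h ∈ P.filter (fun h => T < S h), S h := by
      have e2 := card_nsmul_le_sum (P.filter (fun h => T < S h)) S T (fun h hh => (mem_filter.1 hh).2.le)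
      rwa [nsmul_eq_mul] at e2
    refine e1.trans (sum_le_sum_of_subset_of_nonneg (filter_subset _ _) fun h _ _ => ?_)
    exact sum_nonneg fun i _ => sum_nonneg fun j _ => abs_nonneg _
  have hcard : ((P.filter (fun h => T < S h)).card : ℝ) ≤ η * (H : ℝ) ^ K := by
    have e1 : K * (H : ℝ) ^ K * X * (η ^ 2 / 2) = η * (H : ℝ) ^ K * T := by
      rw [hT]
      ring
    rw [e1] at hmark
    exact le_of_mul_le_mul_right hmark hT0
  refine le_trans ?_ hcard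
  exact_mod_cast card_le_card hsub

end Pool.Agent.H43.CH

end
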