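import Pool.Agent.H43.PS.H91.PK.Defs

/-! The parts of this file: H91.PK.LSa, H91.PK.Om, H91.EHA.SwG, H97.VK.VDefs, H97.VK.PropA. -/

section

/-!
PK LSa: the additive large sieve for Farey fractions (Gallagher's constant).

`∑_{r ≤ R} ∑_{b mod r, (b,r)=1} |∑_{K0 < n ≤ K0+K} a_n e(n b / r)|² ≤ (R² + π K) ∑ |a_n|²`.

Proof. If K = 0 both sides are 0 (resp. 0 ≤ ...).  Let c = K0 + (K+1)/2 (real) and
  S(α) = ∑_{K0<n≤K0+K} a_n e(n α),  S₁(α) = ∑ a_n e((n - c) α);  |S₁| = |S|.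
Sobolev-Gallagher: for a C¹ function F : ℝ → ℂ, α real and δ > 0,
  |F(α)|² ≤ (1/δ) ∫_{α-δ/2}^{α+δ/2} |F|² + ∫_{α-δ/2}^{α+δ/2} |F| |F'|.
  [g = |F|² (or normSq F) is C¹ with |g'| ≤ 2 |F||F'|; for t in the interval g(α) ≤ g(t) + ∫ |g'| over the
   part between t and α; averaging over t gives g(α) ≤ (1/δ)∫ g + (1/2)∫|g'| (the factor 1/2: for u in the right half
   the set of t beyond u has measure ≤ δ/2) .]
Apply it with F = S₁, δ = 1/R².  The points b/r (1 ≤ b ≤ r ≤ R, (b,r) = 1) lie in [1/R, 1], distinct ones differ by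
 at least 1/(r r') ≥ 1/R² = δ, so the open intervals (b/r - δ/2, b/r + δ/2) are disjoint and contained in
 [δ/2, 1 + δ/2] (1/R ≥ δ).  Summing: ∑ |S(b/r)|² ≤ R² ∫_{δ/2}^{1+δ/2} |S₁|² + ∫_{δ/2}^{1+δ/2} |S₁||S₁'|
  ≤ R² ‖S‖² + ‖S₁‖ ‖S₁'‖ (Cauchy-Schwarz for integrals) where over any interval of length one
  ∫|S₁|² = ∑|a_n|² and ∫|S₁'|² = ∑ |2π(n-c)|² |a_n|² ≤ (π K)² ∑|a_n|²  (|n - c| ≤ (K-1)/2).
  (Orthogonality: ∫ over an interval of length 1 of e((n-m) t) is 1 if n = m and 0 otherwise; the phases e(-c α)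
   cancel in |S₁|² and one can write S₁' = e(-cα) ∑ 2πi(n-c) a_n e(nα).)
-/

set_option autoImplicit false

namespace Pool.Agent.H91.PK

open Finset MeasureTheory intervalIntegral

/-- Sobolev-Gallagher inequality, real version. -/
theorem LSa_sobolev (g g' : ℝ → ℝ) (hg : ∀ t, HasDerivAt g (g' t) t) (hc : Continuous g')
    (α h : ℝ) (hh : 0 < h) :
    2 * h * g α ≤ ∫ t in (α - h)..(α + h), (g t + h * |g' t|) := by
  have hgc : Continuous g := continuous_iff_continuousAt.2 fun t => (hg t).continuousAt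
  have i1 : ∀ a b : ℝ, IntervalIntegrable g volume a b := fun a b => hgc.intervalIntegrable a b
  have i2 : ∀ a b : ℝ, IntervalIntegrable g' volume a b := fun a b => hc.intervalIntegrable a b
  have e1 : ∫ t in (α - h)..α, (t - (α - h)) * g' t
      = h * g α - ∫ t in (α - h)..α, g t := by
    have := integral_mul_deriv_eq_deriv_mul (a := α - h) (b := α) (u := fun t => t - (α - h))
      (u' := fun _ => 1) (v := g) (v' := g') (fun t _ => by simpa using (hasDerivAt_id t).sub_const (α - h))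
      (fun t _ => hg t) (continuous_const.intervalIntegrable _ _) (i2 _ _)
    rw [this]
    simp
  have e2 : ∫ t in α..(α + h), (t - (α + h)) * g' t
      = h * g α - ∫ t in α..(α + h), g t := by
    have := integral_mul_deriv_eq_deriv_mul (a := α) (b := α + h) (u := fun t => t - (α + h))
      (u' := fun _ => 1) (v := g) (v' := g') (fun t _ => by simpa using (hasDerivAt_id t).sub_const (α + h))
      (fun t _ => hg t) (continuous_const.intervalIntegrable _ _) (i2 _ _)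
    rw [this]
    simp
  have b1 : ∫ t in (α - h)..α, (t - (α - h)) * g' t ≤ ∫ t in (α - h)..α, h * |g' t| := by
    apply integral_mono_on (by linarith only [hh])
    · exact ((continuous_id.sub continuous_const).mul hc).intervalIntegrable _ _
    · exact (continuous_const.mul hc.abs).intervalIntegrable _ _
    · intro t ht
      have h1 : 0 ≤ t - (α - h) := by linarith only [ht, ht.1]
      have h2 : t - (α - h) ≤ h := by linarith [ht.2]
      calc (t - (α - h)) * g' t ≤ (t - (α - h)) * |g' t| :=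
            mul_le_mul_of_nonneg_left (le_abs_self _) h1
        _ ≤ h * |g' t| := mul_le_mul_of_nonneg_right h2 (abs_nonneg _)
  have b2 : ∫ t in α..(α + h), (t - (α + h)) * g' t ≤ ∫ t in α..(α + h), h * |g' t| := by
    apply integral_mono_on (by linarith)
    · exact ((continuous_id.sub continuous_const).mul hc).intervalIntegrable _ _
    · exact (continuous_const.mul hc.abs).intervalIntegrable _ _
    · intro t ht
      have h1 : 0 ≤ (α + h) - t := by linarith [ht.2]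
      have h2 : (α + h) - t ≤ h := by linarith [ht.1]
      calc (t - (α + h)) * g' t = ((α + h) - t) * (- g' t) := by ring
        _ ≤ ((α + h) - t) * |g' t| := mul_le_mul_of_nonneg_left (neg_le_abs _) h1
        _ ≤ h * |g' t| := mul_le_mul_of_nonneg_right h2 (abs_nonneg _)
  have s1 : ∫ t in (α - h)..(α + h), (g t + h * |g' t|)
      = (∫ t in (α - h)..α, g t) + (∫ t in α..(α + h), g t)
        + ((∫ t in (α - h)..α, h * |g' t|) + ∫ t in α..(α + h), h * |g' t|) := by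
    have j : ∀ a b : ℝ, IntervalIntegrable (fun t => h * |g' t|) volume a b :=
      fun a b => (continuous_const.mul hc.abs).intervalIntegrable a b
    rw [integral_add (i1 _ _) (j _ _), ← integral_add_adjacent_intervals (i1 _ α) (i1 α _),
      ← integral_add_adjacent_intervals (j _ α) (j α _)]
  rw [s1]
  linarith only [e1, e2, b1, b2]

/-- Sum over well spaced points. -/
theorem LSa_sum {ι : Type*} (J : Finset ι) (α : ι → ℝ) (δ x0 x1 : ℝ) (hδ : 0 < δ)
    (g g' : ℝ → ℝ) (hg : ∀ t, HasDerivAt g (g' t) t) (hc : Continuous g') (hg0 : ∀ t, 0 ≤ g t)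
    (h0 : ∀ j ∈ J, x0 ≤ α j - δ / 2) (h1 : ∀ j ∈ J, α j + δ / 2 ≤ x1) (hx : x0 ≤ x1)
    (hsep : ∀ i ∈ J, ∀ j ∈ J, i ≠ j → δ ≤ |α i - α j|) :
    δ * ∑ j ∈ J, g (α j) ≤ ∫ t in x0..x1, (g t + δ / 2 * |g' t|) := by
  have hgc : Continuous g := continuous_iff_continuousAt.2 fun t => (hg t).continuousAt
  set F : ℝ → ℝ := fun t => g t + δ / 2 * |g' t| with hF
  have hFc : Continuous F := hgc.add (continuous_const.mul hc.abs)
  have hF0 : ∀ t, 0 ≤ F t := fun t => add_nonneg (hg0 t) (mul_nonneg (by linarith only [hδ]) (abs_nonneg _))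
  have hFi : ∀ a b : ℝ, IntegrableOn F (Set.Ioc a b) volume := fun a b =>
    (hFc.integrableOn_Icc (a := a) (b := b)).mono_set Set.Ioc_subset_Icc_self
  have key : ∀ j ∈ J, δ * g (α j) ≤ ∫ t in Set.Ioc (α j - δ / 2) (α j + δ / 2), F t := by
    intro j _
    have := LSa_sobolev g g' hg hc (α j) (δ / 2) (by linarith only [hδ])
    rw [intervalIntegral.integral_of_le (by linarith only [hδ])] at this
    calc δ * g (α j) = 2 * (δ / 2) * g (α j) := by ring
      _ ≤ _ := this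
  rw [Finset.mul_sum]
  refine (sum_le_sum key).trans ?_
  rw [← integral_biUnion_finset J (fun i _ => measurableSet_Ioc) ?_ (fun i _ => hFi _ _),
    intervalIntegral.integral_of_le hx]
  · apply setIntegral_mono_set (hFi _ _) (Filter.Eventually.of_forall hF0)
    apply HasSubset.Subset.eventuallyLE
    intro t ht
    simp only [Set.mem_iUnion, Set.mem_Ioc, exists_prop] at ht
    obtain ⟨j, hj, h2, h3⟩ := ht
    exact ⟨lt_of_le_of_lt (h0 j hj) h2, h3.trans (h1 j hj)⟩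
  · intro i hi j hj hij
    rw [Function.onFun, Set.disjoint_left]
    intro t ht ht'
    have hs := hsep i hi j hj hij
    rw [Set.mem_Ioc] at ht ht'
    rcases abs_cases (α i - α j) with ⟨h, _⟩ | ⟨h, _⟩ <;> rw [h] at hs <;> linarith only [ht, ht', hs]

theorem LSa_ee_add (s t : ℝ) : ee (s + t) = ee s * ee t := by
  unfold ee
  rw [← Complex.exp_add]
  congr 1
  push_cast
  ring

theorem LSa_norm_ee (t : ℝ) : ‖ee t‖ = 1 := by
  unfold ee
  have : (2 * Real.pi * t * Complex.I : ℂ) = ((2 * Real.pi * t : ℝ) : ℂ) * Complex.I := by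
    push_cast; ring
  rw [this]
  exact Complex.norm_exp_ofReal_mul_I _

theorem LSa_conj_ee (t : ℝ) : (starRingEnd ℂ) (ee t) = ee (-t) := by
  unfold ee
  rw [← Complex.exp_conj]
  congr 1
  have h : (2 * Real.pi * t * Complex.I : ℂ) = ((2 * Real.pi * t : ℝ) : ℂ) * Complex.I := by
    push_cast; ring
  rw [h, map_mul, Complex.conj_ofReal, Complex.conj_I]
  push_cast
  ring

theorem LSa_int_ee (x : ℝ) (k : ℤ) (hk : k ≠ 0) :
    ∫ t in x..(x + 1), ee (k * t) = 0 := by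
  have hc : (2 * Real.pi * k * Complex.I : ℂ) ≠ 0 := by
    have h1 : (Real.pi : ℂ) ≠ 0 := by exact_mod_cast Real.pi_ne_zero
    have h2 : (k : ℂ) ≠ 0 := by exact_mod_cast hk
    simp [h1, h2]
  have h := integral_exp_mul_complex (a := x) (b := x + 1) hc
  have h3 : ∀ t : ℝ, ee (k * t) = Complex.exp ((2 * Real.pi * k * Complex.I) * t) := by
    intro t
    unfold ee
    congr 1
    push_cast
    ring
  simp_rw [h3]
  rw [h, div_eq_zero_iff]
  left
  have h4 : (2 * Real.pi * k * Complex.I : ℂ) * ((x + 1 : ℝ) : ℂ)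
      = (2 * Real.pi * k * Complex.I) * x + k * (2 * Real.pi * Complex.I) := by
    push_cast; ring
  rw [h4, Complex.exp_add, Complex.exp_int_mul_two_pi_mul_I, mul_one, sub_self]

/-- Parseval over an interval of length one. -/
theorem LSa_parseval (s : Finset ℕ) (b : ℕ → ℂ) (c x : ℝ) :
    ∫ t in x..(x + 1), ‖∑ n ∈ s, b n * ee (((n : ℝ) - c) * t)‖ ^ 2 = ∑ n ∈ s, ‖b n‖ ^ 2 := by
  have hc : ∀ y : ℝ, Continuous fun t : ℝ => ee (y * t) := by
    intro y
    unfold ee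
    fun_prop
  have h1 : ∀ t : ℝ, ((‖∑ n ∈ s, b n * ee (((n : ℝ) - c) * t)‖ ^ 2 : ℝ) : ℂ)
      = ∑ n ∈ s, ∑ m ∈ s, (b n * (starRingEnd ℂ) (b m)) * ee ((((n : ℤ) - (m : ℤ) : ℤ) : ℝ) * t) := by
    intro t
    push_cast
    rw [← Complex.mul_conj', map_sum, Finset.sum_mul_sum]
    refine sum_congr rfl fun n _ => sum_congr rfl fun m _ => ?_
    rw [map_mul, LSa_conj_ee]
    have : ee (((n : ℝ) - (m : ℝ)) * t)
        = ee (((n : ℝ) - c) * t) * ee (-(((m : ℝ) - c) * t)) := by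
      rw [← LSa_ee_add]; congr 1; ring
    rw [this]
    ring
  have h2 : ((∫ t in x..(x + 1), ‖∑ n ∈ s, b n * ee (((n : ℝ) - c) * t)‖ ^ 2 : ℝ) : ℂ)
      = ((∑ n ∈ s, ‖b n‖ ^ 2 : ℝ) : ℂ) := by
    rw [← intervalIntegral.integral_ofReal]
    simp_rw [h1]
    rw [intervalIntegral.integral_finsetSum]
    · rw [Complex.ofReal_sum]
      refine sum_congr rfl fun n hn => ?_
      rw [intervalIntegral.integral_finsetSum]
      · rw [Finset.sum_eq_single n]
        · rw [intervalIntegral.integral_const_mul]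
          have : ∀ t : ℝ, ee ((((n : ℤ) - (n : ℤ) : ℤ) : ℝ) * t) = 1 := by
            intro t; simp [ee]
          simp_rw [this]
          rw [Complex.mul_conj']
          simp
        · intro m _ hmn
          rw [intervalIntegral.integral_const_mul, LSa_int_ee _ _ (by omega), mul_zero]
        · intro h; exact absurd hn h
      · intro m _
        exact (continuous_const.mul (hc _)).intervalIntegrable _ _
    · intro n _
      refine (continuous_finsetSum _ fun m _ => continuous_const.mul (hc _)).intervalIntegrable _ _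
  exact_mod_cast h2

theorem LSa_hasDeriv (y t : ℝ) :
    HasDerivAt (fun t : ℝ => ee (y * t)) ((2 * Real.pi * y * Complex.I) * ee (y * t)) t := by
  have h1 : HasDerivAt (fun t : ℝ => (2 * Real.pi * y * Complex.I : ℂ) * ((t : ℝ) : ℂ))
      ((2 * Real.pi * y * Complex.I : ℂ) * 1) t :=
    (Complex.ofRealCLM.hasDerivAt (x := t)).const_mul _
  have h2 := h1.cexp
  have h3 : ∀ t : ℝ, ee (y * t) = Complex.exp ((2 * Real.pi * y * Complex.I : ℂ) * ((t : ℝ) : ℂ)) := by
    intro t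
    unfold ee
    congr 1
    push_cast
    ring
  have h4 : (fun t : ℝ => ee (y * t))
      = fun t : ℝ => Complex.exp ((2 * Real.pi * y * Complex.I : ℂ) * ((t : ℝ) : ℂ)) := funext h3
  rw [h4, h3 t]
  convert h2 using 1
  ring

theorem additive_ls (R : ℕ) (K0 K : ℕ) (a : ℕ → ℂ) :
    ∑ r ∈ Icc 1 R, ∑ b ∈ (Icc 1 r).filter (fun b => Nat.Coprime b r),
      ‖∑ n ∈ Ioc K0 (K0 + K), a n * ee ((n : ℝ) * b / r)‖ ^ 2
      ≤ ((R : ℝ) ^ 2 + Real.pi * K) * ∑ n ∈ Ioc K0 (K0 + K), ‖a n‖ ^ 2 := by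
  rcases Nat.eq_zero_or_pos K with rfl | hK
  · simp
  rcases Nat.eq_zero_or_pos R with rfl | hR
  · simp only [Nat.lt_one_iff, pos_of_gt, Icc_eq_empty_of_lt, sum_empty]
    have : 0 ≤ ∑ n ∈ Ioc K0 (K0 + K), ‖a n‖ ^ 2 := sum_nonneg fun _ _ => by positivity
    have hp := Real.pi_pos
    positivity
  have hKr : (1 : ℝ) ≤ K := by exact_mod_cast hK
  have hRr : (1 : ℝ) ≤ R := by exact_mod_cast hR
  have hpi := Real.pi_pos
  set c : ℝ := K0 + ((K : ℝ) + 1) / 2 with hcdef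
  set s : Finset ℕ := Ioc K0 (K0 + K) with hs
  set A : ℝ := ∑ n ∈ s, ‖a n‖ ^ 2 with hA
  have hA0 : 0 ≤ A := sum_nonneg fun _ _ => by positivity
  set S : ℝ → ℂ := fun t => ∑ n ∈ s, a n * ee (((n : ℝ) - c) * t) with hS
  set b' : ℕ → ℂ := fun n => a n * (2 * Real.pi * ((((n : ℝ) - c : ℝ)) : ℂ) * Complex.I) with hb'
  set S' : ℝ → ℂ := fun t => ∑ n ∈ s, b' n * ee (((n : ℝ) - c) * t) with hS'
  have hSd : ∀ t, HasDerivAt S (S' t) t := by
    intro t
    have := HasDerivAt.fun_sum (u := s) (A := fun n t => a n * ee (((n : ℝ) - c) * t))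
      (A' := fun n => b' n * ee (((n : ℝ) - c) * t)) (x := t) (fun n _ => by
        have h := (LSa_hasDeriv ((n : ℝ) - c) t).const_mul (a n)
        have e : b' n * ee (((n : ℝ) - c) * t)
            = a n * ((2 * Real.pi * ((((n : ℝ) - c : ℝ)) : ℂ) * Complex.I) * ee (((n : ℝ) - c) * t)) := by
          rw [hb']; ring
        rw [e]
        exact h)
    exact this
  have hcont : ∀ y : ℝ, Continuous fun t : ℝ => ee (y * t) := by
    intro y
    unfold ee
    fun_prop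
  have hSc : Continuous S := continuous_finsetSum _ fun n _ => continuous_const.mul (hcont _)
  have hSc' : Continuous S' := continuous_finsetSum _ fun n _ => continuous_const.mul (hcont _)
  set g : ℝ → ℝ := fun t => ‖S t‖ ^ 2 with hg
  set g' : ℝ → ℝ := fun t => 2 * @inner ℝ ℂ _ (S t) (S' t) with hg'
  have hgd : ∀ t, HasDerivAt g (g' t) t := fun t => (hSd t).norm_sq
  have hgc' : Continuous g' := continuous_const.mul (hSc.inner hSc')
  set δ : ℝ := 1 / (R : ℝ) ^ 2 with hδ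
  have hδ0 : 0 < δ := by positivity
  -- the points
  set J : Finset (Σ _ : ℕ, ℕ) :=
    (Icc 1 R).sigma (fun r => (Icc 1 r).filter (fun b => Nat.Coprime b r)) with hJ
  have hmem : ∀ j ∈ J, 1 ≤ j.1 ∧ j.1 ≤ R ∧ 1 ≤ j.2 ∧ j.2 ≤ j.1 ∧ Nat.Coprime j.2 j.1 := by
    intro j hj
    rw [hJ, mem_sigma, mem_Icc, mem_filter, mem_Icc] at hj
    exact ⟨hj.1.1, hj.1.2, hj.2.1.1, hj.2.1.2, hj.2.2⟩
  have hsep : ∀ i ∈ J, ∀ j ∈ J, i ≠ j → δ ≤ |(i.2 : ℝ) / i.1 - (j.2 : ℝ) / j.1| := by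
    rintro ⟨r, b⟩ hi ⟨q, d⟩ hj hne
    obtain ⟨r1, r2, b1, b2, b3⟩ := hmem _ hi
    obtain ⟨q1, q2, d1, d2, d3⟩ := hmem _ hj
    simp only at r1 r2 b1 b2 b3 q1 q2 d1 d2 d3 ⊢
    have hr0 : (0 : ℝ) < r := by exact_mod_cast r1
    have hq0 : (0 : ℝ) < q := by exact_mod_cast q1
    have hne' : (b : ℤ) * q - d * r ≠ 0 := by
      intro h0
      have h1 : b * q = d * r := by
        have : (b : ℤ) * q = d * r := by linarith only [h0]
        exact_mod_cast this
      have h2 : r ∣ q := by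
        have : r ∣ b * q := ⟨d, by rw [h1]; ring⟩
        exact (Nat.Coprime.dvd_mul_left b3.symm).1 this
      have h3 : q ∣ r := by
        have : q ∣ d * r := ⟨b, by rw [← h1]; ring⟩
        exact (Nat.Coprime.dvd_mul_left d3.symm).1 this
      have h4 : r = q := Nat.dvd_antisymm h2 h3
      subst h4
      have h5 : b = d := Nat.eq_of_mul_eq_mul_right r1 h1
      subst h5
      exact hne rfl
    have h6 : (1 : ℝ) ≤ |(b : ℝ) * q - d * r| := by
      have : (1 : ℤ) ≤ |(b : ℤ) * q - d * r| := Int.one_le_abs hne'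
      exact_mod_cast this
    have h7 : (b : ℝ) / r - (d : ℝ) / q = ((b : ℝ) * q - d * r) / (r * q) := by
      field_simp
    rw [h7, abs_div, abs_of_pos (mul_pos hr0 hq0), hδ]
    have h8 : (r : ℝ) * q ≤ (R : ℝ) ^ 2 := by
      have h9 : (r : ℝ) ≤ R := by exact_mod_cast r2
      have h10 : (q : ℝ) ≤ R := by exact_mod_cast q2
      nlinarith only [h9, h10]
    apply div_le_div₀ (by positivity) h6 (mul_pos hr0 hq0) h8
  have hδ1 : δ ≤ 1 / R := by
    rw [hδ]
    apply one_div_le_one_div_of_le (by positivity)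
    nlinarith only [hRr]
  have main := LSa_sum J (fun j => (j.2 : ℝ) / j.1) δ (δ / 2) (δ / 2 + 1) hδ0 g g' hgd hgc'
    (fun t => by positivity)
    (fun j hj => by
      obtain ⟨r1, r2, b1, b2, b3⟩ := hmem j hj
      have hr0 : (0 : ℝ) < j.1 := by exact_mod_cast r1
      have h1 : 1 / (R : ℝ) ≤ (j.2 : ℝ) / j.1 := by
        apply div_le_div₀ (by positivity) (by exact_mod_cast b1) hr0 (by exact_mod_cast r2)
      show δ / 2 ≤ (j.2 : ℝ) / j.1 - δ / 2
      linarith only [hδ1, h1])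
    (fun j hj => by
      obtain ⟨r1, r2, b1, b2, b3⟩ := hmem j hj
      have hr0 : (0 : ℝ) < j.1 := by exact_mod_cast r1
      have h1 : (j.2 : ℝ) / j.1 ≤ 1 := by
        rw [div_le_one hr0]; exact_mod_cast b2
      show (j.2 : ℝ) / j.1 + δ / 2 ≤ δ / 2 + 1
      linarith only [h1]) (by linarith only) hsep
  -- bound of the integral
  have hint : ∫ t in (δ / 2)..(δ / 2 + 1), (g t + δ / 2 * |g' t|) ≤ A + δ * (Real.pi * K * A) := by
    have hP1 := LSa_parseval s a c (δ / 2)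
    have hP2 := LSa_parseval s b' c (δ / 2)
    have hB : ∑ n ∈ s, ‖b' n‖ ^ 2 ≤ (Real.pi * K) ^ 2 * A := by
      rw [hA, Finset.mul_sum]
      apply sum_le_sum
      intro n hn
      rw [hs, mem_Ioc] at hn
      have h1 : |(n : ℝ) - c| ≤ K / 2 := by
        have h2 : (K0 : ℝ) + 1 ≤ n := by exact_mod_cast hn.1
        have h3 : (n : ℝ) ≤ K0 + K := by exact_mod_cast hn.2
        rw [hcdef, abs_le]
        constructor <;> linarith only [h2, h3]
      rw [hb']
      simp only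
      have h4 : ‖(2 * Real.pi * ((((n : ℝ) - c : ℝ)) : ℂ) * Complex.I : ℂ)‖ = 2 * Real.pi * |(n : ℝ) - c| := by
        rw [norm_mul, norm_mul, norm_mul, Complex.norm_I, Complex.norm_real, Complex.norm_real,
          Real.norm_of_nonneg hpi.le, Real.norm_eq_abs]
        simp
      rw [norm_mul, h4, mul_pow, mul_comm]
      apply mul_le_mul_of_nonneg_right _ (by positivity)
      apply pow_le_pow_left₀ (by positivity)
      nlinarith only [hpi, h1]
    have hpt : ∀ t, g t + δ / 2 * |g' t|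
        ≤ (1 + δ * (Real.pi * K) / 2) * ‖S t‖ ^ 2 + (δ / (2 * (Real.pi * K))) * ‖S' t‖ ^ 2 := by
      intro t
      have h1 : |g' t| ≤ 2 * (‖S t‖ * ‖S' t‖) := by
        rw [hg']
        simp only
        rw [abs_mul, abs_two]
        exact mul_le_mul_of_nonneg_left (abs_real_inner_le_norm _ _) (by norm_num)
      have hp : 0 < Real.pi * K := by positivity
      have h2 : ‖S t‖ * ‖S' t‖ ≤ (Real.pi * K) / 2 * ‖S t‖ ^ 2 + 1 / (2 * (Real.pi * K)) * ‖S' t‖ ^ 2 := by
        have h3 : 0 ≤ (Real.pi * K * ‖S t‖ - ‖S' t‖) ^ 2 / (2 * (Real.pi * K)) := by positivity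
        have h4 : (Real.pi * K * ‖S t‖ - ‖S' t‖) ^ 2 / (2 * (Real.pi * K))
            = (Real.pi * K) / 2 * ‖S t‖ ^ 2 + 1 / (2 * (Real.pi * K)) * ‖S' t‖ ^ 2 - ‖S t‖ * ‖S' t‖ := by
          field_simp
          ring
        linarith only [h3, h4]
      have h5 : δ / 2 * |g' t| ≤ δ * (‖S t‖ * ‖S' t‖) := by
        calc δ / 2 * |g' t| ≤ δ / 2 * (2 * (‖S t‖ * ‖S' t‖)) :=
              mul_le_mul_of_nonneg_left h1 (by positivity)
          _ = _ := by ring
      have h6 := mul_le_mul_of_nonneg_left h2 hδ0.le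
      have h7 : g t = ‖S t‖ ^ 2 := rfl
      rw [h7]
      calc ‖S t‖ ^ 2 + δ / 2 * |g' t| ≤ ‖S t‖ ^ 2
            + δ * ((Real.pi * K) / 2 * ‖S t‖ ^ 2 + 1 / (2 * (Real.pi * K)) * ‖S' t‖ ^ 2) := by linarith only [h5, h6]
        _ = _ := by
          field_simp
          ring
    have hgc : Continuous g := (hSc.norm).pow 2
    have hgc2 : Continuous fun t => ‖S' t‖ ^ 2 := (hSc'.norm).pow 2
    calc ∫ t in (δ / 2)..(δ / 2 + 1), (g t + δ / 2 * |g' t|)
        ≤ ∫ t in (δ / 2)..(δ / 2 + 1), ((1 + δ * (Real.pi * K) / 2) * ‖S t‖ ^ 2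
            + (δ / (2 * (Real.pi * K))) * ‖S' t‖ ^ 2) := by
          apply integral_mono_on (by linarith only)
          · exact (hgc.add (continuous_const.mul hgc'.abs)).intervalIntegrable _ _
          · exact ((continuous_const.mul hgc).add (continuous_const.mul hgc2)).intervalIntegrable _ _
          · intro t _; exact hpt t
      _ = (1 + δ * (Real.pi * K) / 2) * A + (δ / (2 * (Real.pi * K))) * ∑ n ∈ s, ‖b' n‖ ^ 2 := by
          rw [intervalIntegral.integral_add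
            (f := fun t => (1 + δ * (Real.pi * K) / 2) * ‖S t‖ ^ 2)
            (g := fun t => (δ / (2 * (Real.pi * K))) * ‖S' t‖ ^ 2)
            ((continuous_const.mul hgc).intervalIntegrable _ _)
            ((continuous_const.mul hgc2).intervalIntegrable _ _),
            intervalIntegral.integral_const_mul, intervalIntegral.integral_const_mul]
          rw [← hP2, hA, ← hP1]
      _ ≤ (1 + δ * (Real.pi * K) / 2) * A
            + (δ / (2 * (Real.pi * K))) * ((Real.pi * K) ^ 2 * A) := by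
          have : 0 ≤ δ / (2 * (Real.pi * K)) := by positivity
          have := mul_le_mul_of_nonneg_left hB this
          linarith only [this]
      _ = A + δ * (Real.pi * K * A) := by
          field_simp
          ring
  have hsum : ∑ j ∈ J, g ((j.2 : ℝ) / j.1)
      = ∑ r ∈ Icc 1 R, ∑ b ∈ (Icc 1 r).filter (fun b => Nat.Coprime b r),
      ‖∑ n ∈ s, a n * ee ((n : ℝ) * b / r)‖ ^ 2 := by
    rw [hJ, sum_sigma]
    refine sum_congr rfl fun r _ => sum_congr rfl fun b _ => ?_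
    show ‖∑ n ∈ s, a n * ee (((n : ℝ) - c) * ((b : ℝ) / r))‖ ^ 2 = _
    have h1 : ∑ n ∈ s, a n * ee (((n : ℝ) - c) * ((b : ℝ) / r))
        = (∑ n ∈ s, a n * ee ((n : ℝ) * b / r)) * ee (-(c * ((b : ℝ) / r))) := by
      rw [Finset.sum_mul]
      refine sum_congr rfl fun n _ => ?_
      rw [mul_assoc, ← LSa_ee_add]
      congr 2
      ring
    rw [h1, norm_mul, LSa_norm_ee, mul_one]
  rw [← hsum]
  have h1 : δ * ∑ j ∈ J, g ((j.2 : ℝ) / j.1) ≤ δ * (((R : ℝ) ^ 2 + Real.pi * K) * A) := by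
    calc δ * ∑ j ∈ J, g ((j.2 : ℝ) / j.1) ≤ A + δ * (Real.pi * K * A) := main.trans hint
      _ = δ * (((R : ℝ) ^ 2 + Real.pi * K) * A) := by
        rw [hδ]
        field_simp
  exact le_of_mul_le_mul_left h1 hδ0

end Pool.Agent.H91.PK

end

section

/-!
PK Om: the weight `om t = t(1-t)^2` and its Fourier representation.

* `0 ≤ om ≤ 4/27`, `om` is 1-Lipschitz on ℝ (on [0,1] the derivative (1-t)(1-3t) is in [-1/3, 1]; om(0)=om(1)=0).
* For β ≥ 0 let g(v) = e^{-βv} om(e^{-v}) = e^{-(β+1)v} (1-e^{-v})² for v ≥ 0 and 0 for v < 0.  g is continuous,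
  integrable and ∫ g(v) e^{-itv} dv = ∑ of three exponentials = 1/(s+1) - 2/(s+2) + 1/(s+3)
  = 2/((s+1)(s+2)(s+3)), s = β + it, i.e. = KK β t, which is integrable in t.  Fourier inversion
  (Mathlib: `MeasureTheory.Integrable.fourierInv_fourier_eq`, with the change of variable w = t/(2π)) gives
     g(v) = (1/2π) ∫ KK β t e^{itv} dt   for every real v.
* |KK β t| ≤ |KK 0 t| = 2/√((1+t²)(4+t²)(9+t²)) ≤ 0.4386/(1+t²)  since (4+u)(9+u) ≥ 20.797 (1+u) for u ≥ 0
  ((4+u)(9+u) - 20.797(1+u) = u² - 7.797u + 15.203 has negative discriminant 60.79-60.81) and 4/20.797 ≤ 0.4386².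
  Also |KK β t| ≤ 2/|t|³.
-/

set_option autoImplicit false

namespace Pool.Agent.H91.PK

open Finset MeasureTheory

private theorem om_lip01 {s t : ℝ} (hs0 : 0 ≤ s) (hs1 : s ≤ 1) (ht0 : 0 ≤ t) (ht1 : t ≤ 1) :
    |s * (1 - s) ^ 2 - t * (1 - t) ^ 2| ≤ |s - t| := by
  have e : s * (1 - s) ^ 2 - t * (1 - t) ^ 2 =
      (s - t) * ((1 - (s + t)) ^ 2 - s * t) := by ring
  rw [e, abs_mul]
  have h : |(1 - (s + t)) ^ 2 - s * t| ≤ 1 := by
    rw [abs_le]
    have hst : 0 ≤ s * t := mul_nonneg hs0 ht0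
    constructor
    · nlinarith [sq_nonneg (s - t), sq_nonneg (3 * (s + t) - 4)]
    · nlinarith [mul_nonneg (sub_nonneg.2 hs1) (sub_nonneg.2 ht1)]
  calc |s - t| * |(1 - (s + t)) ^ 2 - s * t| ≤ |s - t| * 1 := by gcongr
    _ = |s - t| := mul_one _

theorem om_lip (s t : ℝ) : |om s - om t| ≤ |s - t| := by
  have key : ∀ s : ℝ, om s = (max 0 (min s 1)) * (1 - max 0 (min s 1)) ^ 2 := by
    intro s
    unfold om
    split_ifs with h
    · rw [min_eq_left h.2, max_eq_right h.1]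
    · rcases lt_or_ge s 0 with h1 | h1
      · rw [min_eq_left (by linarith), max_eq_left h1.le]; ring
      · have h2 : 1 < s := by
          by_contra h3
          exact h ⟨h1, not_lt.1 h3⟩
        rw [min_eq_right h2.le, max_eq_right zero_le_one]; ring
  rw [key s, key t]
  have hb : ∀ s : ℝ, 0 ≤ max 0 (min s 1) ∧ max 0 (min s 1) ≤ 1 := fun s =>
    ⟨le_max_left _ _, max_le zero_le_one (min_le_right _ _)⟩
  refine (om_lip01 (hb s).1 (hb s).2 (hb t).1 (hb t).2).trans ?_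
  calc |max 0 (min s 1) - max 0 (min t 1)| ≤ max |(0 : ℝ) - 0| |min s 1 - min t 1| :=
        abs_max_sub_max_le_max _ _ _ _
    _ ≤ |s - t| := by
        refine max_le (by simp) ?_
        refine (abs_min_sub_min_le_max _ _ _ _).trans (max_le le_rfl (by simp))

theorem om_eq_zero {t : ℝ} (h : 1 ≤ t) : om t = 0 := by
  unfold om
  split_ifs with h1
  · have : t = 1 := le_antisymm h1.2 h
    rw [this]; norm_num
  · rfl

private theorem normSq_add (b t : ℝ) : ‖(b : ℂ) + t * Complex.I‖ ^ 2 = b ^ 2 + t ^ 2 := by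
  rw [← Complex.normSq_eq_norm_sq, Complex.normSq_add_mul_I]

private theorem KK_eq (β t : ℝ) : KK β t = 2 / ((((β + 1 : ℝ) : ℂ) + t * Complex.I) *
    (((β + 2 : ℝ) : ℂ) + t * Complex.I) * (((β + 3 : ℝ) : ℂ) + t * Complex.I)) := by
  unfold KK; push_cast; rfl

private theorem norm_KK (β t : ℝ) : ‖KK β t‖ = 2 / (‖((β + 1 : ℝ) : ℂ) + t * Complex.I‖ *
    ‖((β + 2 : ℝ) : ℂ) + t * Complex.I‖ * ‖((β + 3 : ℝ) : ℂ) + t * Complex.I‖) := by
  rw [KK_eq, norm_div, norm_mul, norm_mul, RCLike.norm_ofNat]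

theorem norm_KK_le (β t : ℝ) (hβ : 0 ≤ β) : ‖KK β t‖ ≤ 0.4386 / (1 + t ^ 2) := by
  rw [norm_KK]
  set a := ‖((β + 1 : ℝ) : ℂ) + t * Complex.I‖ with ha
  set b := ‖((β + 2 : ℝ) : ℂ) + t * Complex.I‖ with hb
  set c := ‖((β + 3 : ℝ) : ℂ) + t * Complex.I‖ with hc
  have ha2 : 1 + t ^ 2 ≤ a ^ 2 := by rw [ha, normSq_add]; nlinarith
  have hb2 : 4 + t ^ 2 ≤ b ^ 2 := by rw [hb, normSq_add]; nlinarith
  have hc2 : 9 + t ^ 2 ≤ c ^ 2 := by rw [hc, normSq_add]; nlinarith
  have ha0 : 0 ≤ a := norm_nonneg _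
  have hb0 : 0 ≤ b := norm_nonneg _
  have hc0 : 0 ≤ c := norm_nonneg _
  have ht : 0 < 1 + t ^ 2 := by positivity
  have h1 : (2 / 0.4386 * (1 + t ^ 2)) ^ 2 ≤ (a * b * c) ^ 2 := by
    have h2 : (1 + t ^ 2) * (4 + t ^ 2) * (9 + t ^ 2) ≤ a ^ 2 * b ^ 2 * c ^ 2 := by
      gcongr
    have h3 : (2 / 0.4386 : ℝ) ^ 2 * (1 + t ^ 2) ≤ (4 + t ^ 2) * (9 + t ^ 2) := by
      have h4 : (2 / 0.4386 : ℝ) ^ 2 ≤ 20.7935 := by norm_num
      have h5 : 20.7935 * (1 + t ^ 2) ≤ (4 + t ^ 2) * (9 + t ^ 2) := by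
        nlinarith [sq_nonneg (t ^ 2 - 3.89675)]
      calc (2 / 0.4386 : ℝ) ^ 2 * (1 + t ^ 2) ≤ 20.7935 * (1 + t ^ 2) := by gcongr
        _ ≤ _ := h5
    calc (2 / 0.4386 * (1 + t ^ 2)) ^ 2 = (1 + t ^ 2) * ((2 / 0.4386 : ℝ) ^ 2 * (1 + t ^ 2)) := by
          ring
      _ ≤ (1 + t ^ 2) * ((4 + t ^ 2) * (9 + t ^ 2)) := by gcongr
      _ = (1 + t ^ 2) * (4 + t ^ 2) * (9 + t ^ 2) := by ring
      _ ≤ a ^ 2 * b ^ 2 * c ^ 2 := h2
      _ = (a * b * c) ^ 2 := by ring
  have h6 : 2 / 0.4386 * (1 + t ^ 2) ≤ a * b * c :=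
    le_of_sq_le_sq h1 (by positivity)
  have h7 : 0 < a * b * c := lt_of_lt_of_le (by positivity) h6
  rw [div_le_div_iff₀ h7 ht]
  have : (0.4386 : ℝ) * (2 / 0.4386 * (1 + t ^ 2)) = 2 * (1 + t ^ 2) := by ring
  nlinarith

theorem norm_KK_le' (β t : ℝ) (hβ : 0 ≤ β) (ht : t ≠ 0) : ‖KK β t‖ ≤ 2 / |t| ^ 3 := by
  rw [norm_KK]
  have key : ∀ b : ℝ, |t| ≤ ‖(b : ℂ) + t * Complex.I‖ := by
    intro b
    refine le_of_sq_le_sq ?_ (norm_nonneg _)
    rw [normSq_add, sq_abs]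
    nlinarith [sq_nonneg b]
  have ht0 : 0 < |t| := abs_pos.2 ht
  have h1 := key (β + 1)
  have h2 := key (β + 2)
  have h3 := key (β + 3)
  have : |t| ^ 3 ≤ ‖((β + 1 : ℝ) : ℂ) + t * Complex.I‖ * ‖((β + 2 : ℝ) : ℂ) + t * Complex.I‖ *
      ‖((β + 3 : ℝ) : ℂ) + t * Complex.I‖ := by
    calc |t| ^ 3 = |t| * |t| * |t| := by ring
      _ ≤ _ := by gcongr
  gcongr

private theorem ne_zero_of_pos {b : ℝ} (hb : 0 < b) (t : ℝ) : (b : ℂ) + t * Complex.I ≠ 0 := by
  intro h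
  have := congrArg Complex.re h
  simp at this
  exact hb.ne' this

theorem KK_continuous (β : ℝ) (hβ : 0 ≤ β) : Continuous (fun t : ℝ => KK β t) := by
  have e : (fun t : ℝ => KK β t) = fun t : ℝ => 2 / ((((β + 1 : ℝ) : ℂ) + t * Complex.I) *
    (((β + 2 : ℝ) : ℂ) + t * Complex.I) * (((β + 3 : ℝ) : ℂ) + t * Complex.I)) := by
    funext t; exact KK_eq β t
  rw [e]
  refine Continuous.div continuous_const (by fun_prop) fun t => ?_
  exact mul_ne_zero (mul_ne_zero (ne_zero_of_pos (by linarith) t) (ne_zero_of_pos (by linarith) t))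
    (ne_zero_of_pos (by linarith) t)

theorem KK_integrable (β : ℝ) (hβ : 0 ≤ β) : Integrable (fun t : ℝ => KK β t) := by
  refine Integrable.mono' (integrable_inv_one_add_sq.const_mul 0.4386)
    (KK_continuous β hβ).aestronglyMeasurable (Filter.Eventually.of_forall fun t => ?_)
  simpa [div_eq_mul_inv] using norm_KK_le β t hβ

private theorem om_continuous : Continuous om := by
  rw [Metric.continuous_iff]
  intro t ε hε
  refine ⟨ε, hε, fun s hs => ?_⟩
  rw [Real.dist_eq] at hs ⊢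
  exact (om_lip s t).trans_lt hs

private noncomputable def gg (β v : ℝ) : ℂ := ((Real.exp (-β * v) * om (Real.exp (-v)) : ℝ) : ℂ)

private theorem gg_continuous (β : ℝ) : Continuous (gg β) := by
  unfold gg
  refine Complex.continuous_ofReal.comp ?_
  exact (by fun_prop : Continuous fun v : ℝ => Real.exp (-β * v)).mul
    (om_continuous.comp (by fun_prop))

private theorem gg_of_nonpos (β : ℝ) {v : ℝ} (hv : v ≤ 0) : gg β v = 0 := by
  unfold gg
  rw [om_eq_zero (Real.one_le_exp (by linarith)), mul_zero, Complex.ofReal_zero]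

/-- the exponent -/
private noncomputable def aa (β w : ℝ) (j : ℝ) : ℂ := -(((β + j : ℝ) : ℂ) + (2 * Real.pi * w : ℝ) * Complex.I)

private theorem aa_re (β w j : ℝ) : (aa β w j).re = -(β + j) := by
  unfold aa; simp

private theorem gg_of_pos (β w : ℝ) {v : ℝ} (hv : 0 < v) :
    Complex.exp ((-2 * Real.pi * v * w : ℝ) * Complex.I) • gg β v =
      Complex.exp (aa β w 1 * v) - 2 * Complex.exp (aa β w 2 * v) + Complex.exp (aa β w 3 * v) := by
  have h1 : om (Real.exp (-v)) = Real.exp (-v) * (1 - Real.exp (-v)) ^ 2 := by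
    unfold om
    rw [if_pos ⟨(Real.exp_pos _).le, Real.exp_le_one_iff.2 (by linarith)⟩]
  unfold gg
  rw [h1, smul_eq_mul]
  have e : ∀ j : ℕ, Complex.exp (aa β w j * v) =
      Complex.exp ((-2 * Real.pi * v * w : ℝ) * Complex.I) *
        ((Real.exp (-β * v) * Real.exp (-v) ^ j : ℝ) : ℂ) := by
    intro j
    rw [← Real.exp_nat_mul, ← Real.exp_add, Complex.ofReal_exp, ← Complex.exp_add]
    congr 1
    unfold aa
    push_cast
    ring
  have e1 := e 1
  have e2 := e 2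
  have e3 := e 3
  push_cast at e1 e2 e3
  rw [e1, e2, e3]
  push_cast
  ring

private theorem intOn_aa (β w j : ℝ) (h : 0 < β + j) :
    IntegrableOn (fun v : ℝ => Complex.exp (aa β w j * v)) (Set.Ioi 0) :=
  integrableOn_exp_mul_complex_Ioi (by rw [aa_re]; linarith) 0

private theorem int_aa (β w j : ℝ) (h : 0 < β + j) :
    ∫ v : ℝ in Set.Ioi 0, Complex.exp (aa β w j * v) =
      1 / (((β + j : ℝ) : ℂ) + (2 * Real.pi * w : ℝ) * Complex.I) := by
  rw [integral_exp_mul_complex_Ioi (by rw [aa_re]; linarith) 0]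
  unfold aa
  rw [Complex.ofReal_zero, mul_zero, Complex.exp_zero, neg_div_neg_eq]

private theorem gg_integrable (β : ℝ) (hβ : 0 ≤ β) : Integrable (gg β) := by
  have h1 : gg β = (Set.Ioi (0 : ℝ)).indicator (gg β) := by
    funext v
    by_cases hv : v ∈ Set.Ioi (0 : ℝ)
    · rw [Set.indicator_of_mem hv]
    · rw [Set.indicator_of_notMem hv, gg_of_nonpos β (not_lt.1 hv)]
  rw [h1, integrable_indicator_iff measurableSet_Ioi]
  have h2 : IntegrableOn (fun v : ℝ => Complex.exp (aa β 0 1 * v) - 2 * Complex.exp (aa β 0 2 * v)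
      + Complex.exp (aa β 0 3 * v)) (Set.Ioi 0) :=
    ((intOn_aa β 0 1 (by linarith)).sub ((intOn_aa β 0 2 (by linarith)).const_mul 2)).add
      (intOn_aa β 0 3 (by linarith))
  refine h2.congr_fun (fun v hv => ?_) measurableSet_Ioi
  have := gg_of_pos β 0 hv
  simp only [mul_zero, Complex.ofReal_zero, zero_mul, Complex.exp_zero, one_smul] at this
  exact this.symm

private theorem gg_fourier (β : ℝ) (hβ : 0 ≤ β) (w : ℝ) :
    FourierTransform.fourier (gg β) w = KK β (2 * Real.pi * w) := by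
  rw [Real.fourier_real_eq_integral_exp_smul]
  have h1 : ∫ v : ℝ, Complex.exp ((-2 * Real.pi * v * w : ℝ) * Complex.I) • gg β v =
      ∫ v : ℝ in Set.Ioi 0, (Complex.exp (aa β w 1 * v) - 2 * Complex.exp (aa β w 2 * v) +
        Complex.exp (aa β w 3 * v)) := by
    rw [← setIntegral_eq_integral_of_forall_compl_eq_zero (s := Set.Ioi (0 : ℝ))
      (fun v hv => by rw [gg_of_nonpos β (not_lt.1 hv), smul_zero])]
    exact setIntegral_congr_fun measurableSet_Ioi fun v hv => gg_of_pos β w hv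
  rw [h1, integral_add, integral_sub, integral_const_mul, int_aa β w 1 (by linarith),
    int_aa β w 2 (by linarith), int_aa β w 3 (by linarith)]
  · rw [KK_eq]
    have n1 := ne_zero_of_pos (show 0 < β + 1 by linarith) (2 * Real.pi * w)
    have n2 := ne_zero_of_pos (show 0 < β + 2 by linarith) (2 * Real.pi * w)
    have n3 := ne_zero_of_pos (show 0 < β + 3 by linarith) (2 * Real.pi * w)
    push_cast at n1 n2 n3 ⊢
    field_simp
    ring
  · exact intOn_aa β w 1 (by linarith)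
  · exact (intOn_aa β w 2 (by linarith)).const_mul 2
  · exact (intOn_aa β w 1 (by linarith)).sub ((intOn_aa β w 2 (by linarith)).const_mul 2)
  · exact intOn_aa β w 3 (by linarith)

/-- The Fourier representation. -/
theorem om_fourier (β v : ℝ) (hβ : 0 ≤ β) :
    ((Real.exp (-β * v) * om (Real.exp (-v)) : ℝ) : ℂ)
      = (1 / (2 * Real.pi)) * ∫ t : ℝ, KK β t * Complex.exp (t * v * Complex.I) := by
  have hF : FourierTransform.fourier (gg β) = fun w => KK β (2 * Real.pi * w) := by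
    funext w; exact gg_fourier β hβ w
  have hint : Integrable (FourierTransform.fourier (gg β)) := by
    rw [hF]
    exact (KK_integrable β hβ).comp_mul_left' (by positivity)
  have hinv := congrFun ((gg_continuous β).fourierInv_fourier_eq (gg_integrable β hβ) hint) v
  rw [hF, Real.fourierInv_eq'] at hinv
  show gg β v = _
  rw [← hinv]
  have h1 := Measure.integral_comp_mul_left
    (fun t : ℝ => KK β t * Complex.exp (t * v * Complex.I)) (2 * Real.pi)
  have h2 : ∫ w : ℝ, Complex.exp ((2 * Real.pi * inner ℝ w v : ℝ) * Complex.I) •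
      KK β (2 * Real.pi * w) = ∫ w : ℝ, KK β (2 * Real.pi * w) *
        Complex.exp (((2 * Real.pi * w : ℝ) : ℂ) * v * Complex.I) := by
    refine integral_congr_ae (Filter.Eventually.of_forall fun w => ?_)
    simp only [smul_eq_mul]
    rw [mul_comm]
    congr 2
    simp only [RCLike.inner_apply, conj_trivial]
    push_cast
    ring
  rw [h2, h1, abs_of_pos (by positivity)]
  rw [Complex.real_smul]
  push_cast
  ring

/-- In terms of `N / n`. -/
theorem om_fourier' (β : ℝ) (hβ : 0 ≤ β) {N n : ℕ} (hN : 1 ≤ N) (hn : 1 ≤ n) :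
    ((om ((n : ℝ) / N) : ℝ) : ℂ)
      = (((N : ℝ) / n) ^ β : ℝ) * ((1 / (2 * Real.pi)) *
        ∫ t : ℝ, KK β t * ((N : ℂ) ^ (t * Complex.I) * (n : ℂ) ^ (-(t * Complex.I)))) := by
  have hN0 : (0 : ℝ) < N := by exact_mod_cast hN
  have hn0 : (0 : ℝ) < n := by exact_mod_cast hn
  set v : ℝ := Real.log (N / n) with hv
  have hexp : Real.exp (-v) = n / N := by
    rw [Real.exp_neg, hv, Real.exp_log (by positivity), inv_div]
  have hβv : Real.exp (-β * v) = (((N : ℝ) / n) ^ β)⁻¹ := by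
    rw [Real.rpow_def_of_pos (by positivity), ← Real.exp_neg]
    congr 1
    rw [← hv]; ring
  have h := om_fourier β v hβ
  rw [hexp, hβv] at h
  have hint : ∫ t : ℝ, KK β t * ((N : ℂ) ^ (t * Complex.I) * (n : ℂ) ^ (-(t * Complex.I))) =
      ∫ t : ℝ, KK β t * Complex.exp (t * v * Complex.I) := by
    refine integral_congr_ae (Filter.Eventually.of_forall fun t => ?_)
    simp only
    congr 1
    have hNc : (N : ℂ) ≠ 0 := by exact_mod_cast hN0.ne'
    have hnc : (n : ℂ) ≠ 0 := by exact_mod_cast hn0.ne'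
    rw [Complex.cpow_def_of_ne_zero hNc, Complex.cpow_def_of_ne_zero hnc, ← Complex.exp_add]
    congr 1
    rw [hv, Real.log_div hN0.ne' hn0.ne', Complex.natCast_log.symm, Complex.natCast_log.symm]
    push_cast
    ring
  rw [hint, ← h]
  have hpos : (0 : ℝ) < ((N : ℝ) / n) ^ β := by positivity
  rw [← Complex.ofReal_mul]
  congr 1
  field_simp

end Pool.Agent.H91.PK

end

section

/-!
# Smooth sums from Dirichlet series bounds

`om(n/N) = (1/2π) ∫ KK β t (N/n)^{β+it} dt` (`om_fourier'` in `PK/Om.lean`; holds for all `n ≥ 1`, both sides are `0`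
for `n > N`).  Take `β = 1 + 1/log N` for `N ≥ 3`, `β = 2` for `N = 2`; interchange sum and integral
(absolutely convergent): `∑ a_n om(n/N) = (1/2π) ∫ KK β t N^{β+it} LSeries a (β+it) dt`;
`N^β ≤ 4 N`, `‖KK β t‖ ≤ 2/(1+t²)^{3/2}`-type decay against `log(|t|+3)^K`.
-/

set_option autoImplicit false

namespace Pool.Agent.H91.EHA

open Finset
open Pool.Agent.H91.PK
open MeasureTheory

/-- decay of the kernel against a power of the logarithm -/
private theorem swG_kernel (K : ℕ) (β t : ℝ) (hβ : 0 ≤ β) :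
    ‖KK β t‖ * Real.log (|t| + 3) ^ K ≤
      1.7544 / (1 / (2 * ((K : ℝ) + 1))) ^ K * (1 + ‖t‖) ^ (-(3 / 2 : ℝ)) := by
  set ε : ℝ := 1 / (2 * ((K : ℝ) + 1)) with hε
  have hK : (0 : ℝ) ≤ K := Nat.cast_nonneg K
  have hε0 : 0 < ε := by positivity
  have hεK : ε * K ≤ 1 / 2 := by
    rw [hε, div_mul_eq_mul_div, one_mul, div_le_div_iff₀ (by positivity) (by norm_num)]
    nlinarith
  have ht : 0 ≤ |t| := abs_nonneg t
  rw [Real.norm_eq_abs]
  have hx1 : (0 : ℝ) < 1 + |t| := by positivity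
  have h1 : ‖KK β t‖ ≤ 0.8772 / (1 + |t|) ^ 2 := by
    refine (norm_KK_le β t hβ).trans ?_
    rw [div_le_div_iff₀ (by positivity) (by positivity)]
    have : t ^ 2 = |t| ^ 2 := (sq_abs t).symm
    rw [this]
    nlinarith [sq_nonneg (1 - |t|)]
  have h2 : Real.log (|t| + 3) ^ K ≤ 2 / ε ^ K * (1 + |t|) ^ (1 / 2 : ℝ) := by
    have h3 : Real.log (|t| + 3) ≤ (|t| + 3) ^ ε / ε :=
      Real.log_le_rpow_div (by positivity) hε0
    have h4 : 0 ≤ Real.log (|t| + 3) := Real.log_nonneg (by linarith)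
    have h5 : Real.log (|t| + 3) ^ K ≤ ((|t| + 3) ^ ε / ε) ^ K := pow_le_pow_left₀ h4 h3 K
    have h6 : ((|t| + 3) ^ ε / ε) ^ K = (|t| + 3) ^ (ε * K) / ε ^ K := by
      rw [div_pow, ← Real.rpow_natCast ((|t| + 3) ^ ε) K, ← Real.rpow_mul (by positivity)]
    have h7 : (|t| + 3) ^ (ε * K) ≤ (|t| + 3) ^ (1 / 2 : ℝ) :=
      Real.rpow_le_rpow_of_exponent_le (by linarith) hεK
    have h8 : (|t| + 3) ^ (1 / 2 : ℝ) ≤ 2 * (1 + |t|) ^ (1 / 2 : ℝ) := by
      have h9 : (2 : ℝ) * (1 + |t|) ^ (1 / 2 : ℝ) = (4 * (1 + |t|)) ^ (1 / 2 : ℝ) := by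
        rw [Real.mul_rpow (by norm_num) (by positivity)]
        congr 1
        rw [← Real.sqrt_eq_rpow, show (4 : ℝ) = 2 ^ 2 by norm_num, Real.sqrt_sq (by norm_num)]
      rw [h9]
      exact Real.rpow_le_rpow (by positivity) (by linarith) (by norm_num)
    calc Real.log (|t| + 3) ^ K ≤ (|t| + 3) ^ (ε * K) / ε ^ K := by rw [← h6]; exact h5
      _ ≤ (2 * (1 + |t|) ^ (1 / 2 : ℝ)) / ε ^ K := by
          gcongr
          exact h7.trans h8
      _ = 2 / ε ^ K * (1 + |t|) ^ (1 / 2 : ℝ) := by ring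
  have h10 : (1 + |t|) ^ (-(3 / 2 : ℝ)) = (1 + |t|) ^ (1 / 2 : ℝ) / (1 + |t|) ^ 2 := by
    rw [← Real.rpow_natCast (1 + |t|) 2, ← Real.rpow_sub hx1]
    norm_num
  calc ‖KK β t‖ * Real.log (|t| + 3) ^ K
      ≤ (0.8772 / (1 + |t|) ^ 2) * (2 / ε ^ K * (1 + |t|) ^ (1 / 2 : ℝ)) := by
        apply mul_le_mul h1 h2 _ (by positivity)
        exact pow_nonneg (Real.log_nonneg (by linarith)) K
    _ = 1.7544 / ε ^ K * (1 + |t|) ^ (-(3 / 2 : ℝ)) := by
        rw [h10]; ring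

/-- the summand -/
private noncomputable def swG_F (a : ℕ → ℂ) (β : ℝ) (N n : ℕ) (t : ℝ) : ℂ :=
  KK β t * ((N : ℂ) ^ (t * Complex.I) * LSeries.term a ((β : ℂ) + t * Complex.I) n)

private theorem swG_F_eq (a : ℕ → ℂ) (β : ℝ) (N n : ℕ) (hn : 1 ≤ n) (t : ℝ) :
    swG_F a β N n t = (a n / (n : ℂ) ^ (β : ℂ)) *
      (KK β t * ((N : ℂ) ^ (t * Complex.I) * (n : ℂ) ^ (-(t * Complex.I)))) := by
  unfold swG_F
  have hn0 : (n : ℂ) ≠ 0 := by exact_mod_cast (by omega : n ≠ 0)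
  rw [LSeries.term_of_ne_zero (by omega), Complex.cpow_add _ _ hn0, Complex.cpow_neg]
  have h1 : (n : ℂ) ^ (β : ℂ) ≠ 0 := by
    rw [Complex.cpow_def_of_ne_zero hn0]; exact Complex.exp_ne_zero _
  have h2 : (n : ℂ) ^ ((t : ℂ) * Complex.I) ≠ 0 := by
    rw [Complex.cpow_def_of_ne_zero hn0]; exact Complex.exp_ne_zero _
  field_simp

private theorem swG_norm_F (a : ℕ → ℂ) (β : ℝ) (N n : ℕ) (hN : 1 ≤ N) (t : ℝ) :
    ‖swG_F a β N n t‖ = ‖LSeries.term a (β : ℂ) n‖ * ‖KK β t‖ := by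
  unfold swG_F
  rw [norm_mul, norm_mul, Complex.norm_natCast_cpow_of_pos (by omega)]
  have h1 : ((t : ℂ) * Complex.I).re = 0 := by simp
  have h2 : ‖LSeries.term a ((β : ℂ) + t * Complex.I) n‖ = ‖LSeries.term a (β : ℂ) n‖ := by
    rw [LSeries.norm_term_eq, LSeries.norm_term_eq]
    simp
  rw [h1, Real.rpow_zero, one_mul, h2, mul_comm]

private theorem swG_F_cont (a : ℕ → ℂ) (β : ℝ) (hβ : 0 ≤ β) (N n : ℕ) (hN : 1 ≤ N) :
    Continuous (swG_F a β N n) := by
  rcases Nat.eq_zero_or_pos n with rfl | hn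
  · have : swG_F a β N 0 = fun _ => 0 := by
      funext t; unfold swG_F; rw [LSeries.term_zero, mul_zero, mul_zero]
    rw [this]; exact continuous_const
  · have : swG_F a β N n = fun t : ℝ => (a n / (n : ℂ) ^ (β : ℂ)) *
      (KK β t * ((N : ℂ) ^ (t * Complex.I) * (n : ℂ) ^ (-(t * Complex.I)))) := by
      funext t; exact swG_F_eq a β N n hn t
    rw [this]
    have hn0 : (n : ℂ) ≠ 0 := by exact_mod_cast (by omega : n ≠ 0)
    have hN0 : (N : ℂ) ≠ 0 := by exact_mod_cast (by omega : N ≠ 0)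
    refine continuous_const.mul ((KK_continuous β hβ).mul (Continuous.mul ?_ ?_))
    · exact Continuous.const_cpow (by fun_prop) (Or.inl hN0)
    · exact Continuous.const_cpow (by fun_prop) (Or.inl hn0)

private theorem swG_F_int (a : ℕ → ℂ) (β : ℝ) (hβ : 0 ≤ β) (N n : ℕ) (hN : 1 ≤ N) :
    Integrable (swG_F a β N n) := by
  refine Integrable.mono' ((KK_integrable β hβ).norm.const_mul ‖LSeries.term a (β : ℂ) n‖)
    (swG_F_cont a β hβ N n hN).aestronglyMeasurable (Filter.Eventually.of_forall fun t => ?_)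
  rw [swG_norm_F a β N n hN t]

private theorem swG_identity (a : ℕ → ℂ) (β : ℝ) (hβ : 0 ≤ β) (N : ℕ) (hN : 1 ≤ N)
    (hs : LSeriesSummable a (β : ℂ)) :
    ∑ n ∈ Icc 1 N, a n * ((om ((n : ℝ) / N) : ℝ) : ℂ) =
      (((N : ℝ) ^ β : ℝ) : ℂ) * (1 / (2 * Real.pi)) *
        ∫ t : ℝ, KK β t * ((N : ℂ) ^ (t * Complex.I) * LSeries a ((β : ℂ) + t * Complex.I)) := by
  have hN0 : (0 : ℝ) < N := by exact_mod_cast hN
  have h1 : HasSum (fun n => ∫ t, swG_F a β N n t) (∫ t, ∑' n, swG_F a β N n t) := by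
    apply hasSum_integral_of_summable_integral_norm (swG_F_int a β hβ N · hN)
    have h2 : (fun n => ∫ t, ‖swG_F a β N n t‖) =
        fun n => ‖LSeries.term a (β : ℂ) n‖ * ∫ t, ‖KK β t‖ := by
      funext n
      simp only [swG_norm_F a β N n hN]
      rw [integral_const_mul]
    rw [h2]
    exact (Summable.norm hs).mul_right _
  have h3 : ∀ t : ℝ, ∑' n, swG_F a β N n t =
      KK β t * ((N : ℂ) ^ (t * Complex.I) * LSeries a ((β : ℂ) + t * Complex.I)) := by
    intro t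
    unfold swG_F LSeries
    rw [tsum_mul_left, tsum_mul_left]
  simp only [h3] at h1
  have h4 := h1.mul_left ((((N : ℝ) ^ β : ℝ) : ℂ) * (1 / (2 * Real.pi)))
  have hval : ∀ n : ℕ, 1 ≤ n → (((N : ℝ) ^ β : ℝ) : ℂ) * (1 / (2 * Real.pi)) *
      (∫ t, swG_F a β N n t) = a n * ((om ((n : ℝ) / N) : ℝ) : ℂ) := by
    intro n hn
    have hn0 : (0 : ℝ) < n := by exact_mod_cast hn
    have e1 : ∫ t, swG_F a β N n t = (a n / (n : ℂ) ^ (β : ℂ)) *
        ∫ t : ℝ, KK β t * ((N : ℂ) ^ (t * Complex.I) * (n : ℂ) ^ (-(t * Complex.I))) := by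
      simp only [swG_F_eq a β N n hn]
      rw [integral_const_mul]
    rw [e1, om_fourier' β hβ hN hn, Real.div_rpow hN0.le hn0.le]
    have e2 : (n : ℂ) ^ (β : ℂ) = (((n : ℝ) ^ β : ℝ) : ℂ) := by
      rw [Complex.ofReal_cpow hn0.le]; simp
    rw [e2]
    push_cast
    ring
  have h5 : HasSum (fun n => (((N : ℝ) ^ β : ℝ) : ℂ) * (1 / (2 * Real.pi)) *
      (∫ t, swG_F a β N n t)) (∑ n ∈ Icc 1 N, (((N : ℝ) ^ β : ℝ) : ℂ) * (1 / (2 * Real.pi)) *
      (∫ t, swG_F a β N n t)) := by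
    apply hasSum_sum_of_ne_finset_zero
    intro n hn
    rcases Nat.eq_zero_or_pos n with rfl | hn1
    · have : ∀ t, swG_F a β N 0 t = 0 := by
        intro t; unfold swG_F; rw [LSeries.term_zero, mul_zero, mul_zero]
      simp only [this, integral_zero, mul_zero]
    · rw [hval n hn1]
      have hnN : N < n := by
        by_contra h
        exact hn (Finset.mem_Icc.2 ⟨hn1, not_lt.1 h⟩)
      rw [om_eq_zero, Complex.ofReal_zero, mul_zero]
      rw [le_div_iff₀ hN0, one_mul]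
      exact_mod_cast hnN.le
  rw [← h5.unique h4]
  apply Finset.sum_congr rfl
  intro n hn
  rw [hval n (Finset.mem_Icc.1 hn).1]

theorem smooth_gen (K : ℕ) : ∃ C : ℝ, 0 < C ∧ ∀ (a : ℕ → ℂ) (B : ℝ), 0 ≤ B →
    (∀ s : ℂ, 1 < s.re → s.re ≤ 2 → LSeriesSummable a s ∧
      ‖LSeries a s‖ ≤ B * Real.log (|s.im| + 3) ^ K) →
    ∀ N : ℕ, 2 ≤ N → ‖∑ n ∈ Icc 1 N, a n * ((om ((n : ℝ) / N) : ℝ) : ℂ)‖ ≤ C * B * N := by
  set C0 : ℝ := 1.7544 / (1 / (2 * ((K : ℝ) + 1))) ^ K with hC0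
  have hC0pos : 0 < C0 := by positivity
  set I0 : ℝ := ∫ t : ℝ, (1 + ‖t‖) ^ (-(3 / 2 : ℝ)) with hI0
  have hI0nn : 0 ≤ I0 := integral_nonneg (fun t => by positivity)
  have hint : Integrable (fun t : ℝ => (1 + ‖t‖) ^ (-(3 / 2 : ℝ))) :=
    integrable_one_add_norm (by simp; norm_num)
  refine ⟨C0 * I0 + 1, by positivity, ?_⟩
  intro a B hB h N hN
  have hN0 : (0 : ℝ) < N := by exact_mod_cast (by omega : 0 < N)
  have hlog : 0 < Real.log N := Real.log_pos (by exact_mod_cast (by omega : 1 < N))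
  set β : ℝ := 1 + 1 / (1 + Real.log N) with hβ
  have hβ1 : 1 < β := by rw [hβ]; have : 0 < 1 / (1 + Real.log N) := by positivity
                         linarith
  have hβ2 : β ≤ 2 := by
    have : 1 / (1 + Real.log N) ≤ 1 := by
      rw [div_le_one (by positivity)]; linarith
    linarith
  have hs : LSeriesSummable a (β : ℂ) := (h (β : ℂ) (by simpa using hβ1) (by simpa using hβ2)).1
  rw [swG_identity a β (by linarith) N (by omega) hs]
  have hpow : (N : ℝ) ^ β ≤ Real.exp 1 * N := by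
    rw [hβ, Real.rpow_add hN0, Real.rpow_one, mul_comm]
    gcongr
    rw [Real.rpow_def_of_pos hN0, Real.exp_le_exp, mul_one_div, div_le_one (by positivity)]
    linarith
  have hbound : ‖∫ t : ℝ, KK β t * ((N : ℂ) ^ (t * Complex.I) *
      LSeries a ((β : ℂ) + t * Complex.I))‖ ≤ ∫ t : ℝ, B * (C0 * (1 + ‖t‖) ^ (-(3 / 2 : ℝ))) := by
    apply norm_integral_le_of_norm_le ((hint.const_mul C0).const_mul B)
    refine Filter.Eventually.of_forall fun t => ?_
    rw [norm_mul, norm_mul, Complex.norm_natCast_cpow_of_pos (by omega)]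
    have h1 : ((t : ℂ) * Complex.I).re = 0 := by simp
    have h2 := (h ((β : ℂ) + t * Complex.I) (by simpa using hβ1) (by simpa using hβ2)).2
    have h3 : ((β : ℂ) + t * Complex.I).im = t := by simp
    rw [h3] at h2
    rw [h1, Real.rpow_zero, one_mul]
    have h4 := swG_kernel K β t (by linarith)
    calc ‖KK β t‖ * ‖LSeries a ((β : ℂ) + t * Complex.I)‖
        ≤ ‖KK β t‖ * (B * Real.log (|t| + 3) ^ K) := by gcongr
      _ = B * (‖KK β t‖ * Real.log (|t| + 3) ^ K) := by ring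
      _ ≤ B * (C0 * (1 + ‖t‖) ^ (-(3 / 2 : ℝ))) := by
          apply mul_le_mul_of_nonneg_left h4 hB
  rw [integral_const_mul, integral_const_mul, ← hI0] at hbound
  have hpi : Real.exp 1 * (1 / (2 * Real.pi)) ≤ 1 := by
    have h1 := Real.exp_one_lt_d9
    have h2 := Real.pi_gt_three
    rw [mul_one_div, div_le_one (by positivity)]
    linarith
  rw [norm_mul, norm_mul]
  have e1 : ‖(((N : ℝ) ^ β : ℝ) : ℂ)‖ = (N : ℝ) ^ β := by
    rw [Complex.norm_real, Real.norm_of_nonneg (by positivity)]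
  have e2 : ‖(1 / (2 * Real.pi) : ℂ)‖ = 1 / (2 * Real.pi) := by
    have : (1 / (2 * Real.pi) : ℂ) = ((1 / (2 * Real.pi) : ℝ) : ℂ) := by push_cast; rfl
    rw [this, Complex.norm_real, Real.norm_of_nonneg (by positivity)]
  rw [e1, e2]
  have hpi0 : 0 < 1 / (2 * Real.pi) := by positivity
  calc (N : ℝ) ^ β * (1 / (2 * Real.pi)) * ‖∫ t : ℝ, KK β t * ((N : ℂ) ^ (t * Complex.I) *
        LSeries a ((β : ℂ) + t * Complex.I))‖
      ≤ (Real.exp 1 * N) * (1 / (2 * Real.pi)) * (B * (C0 * I0)) := by gcongr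
    _ = (Real.exp 1 * (1 / (2 * Real.pi))) * (C0 * I0 * B * N) := by ring
    _ ≤ 1 * (C0 * I0 * B * N) := by
        apply mul_le_mul_of_nonneg_right hpi (by positivity)
    _ ≤ (C0 * I0 + 1) * B * N := by
        have : 0 ≤ B * N := by positivity
        nlinarith

end Pool.Agent.H91.EHA

end

section

/-!
# PROJECT VK (for MP_967f73_nt): definitions for the Vinogradov mean value theorem

`ee(t) = exp(2 π i t)` (`Pool.Agent.H91.PK.ee`, lemmas `LSa_ee_add`, `LSa_norm_ee`, `LSa_conj_ee`).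
-/

set_option autoImplicit false

namespace Pool.Agent.H97.VK

open Finset
open Pool.Agent.H91.PK (ee)

/-- the box `[1,M]^s` -/
def box (s M : ℕ) : Finset (Fin s → ℕ) := Fintype.piFinset (fun _ => Icc 1 M)

/-- the vector of the power sums with exponents `1, ..., k` -/
def pv (k : ℕ) {s : ℕ} (x : Fin s → ℕ) (j : Fin k) : ℤ := ∑ i, (x i : ℤ) ^ ((j : ℕ) + 1)

/-- number of the solutions of the Vinogradov system of degree `k` in `2 s` variables in `[1,M]` -/
def JV (k s M : ℕ) : ℕ :=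
  (((box s M) ×ˢ (box s M)).filter (fun w => pv k w.1 = pv k w.2)).card

/-- the finite grid `[0,Q)^k` of frequencies -/
def grid (k Q : ℕ) : Finset (Fin k → ℕ) := Fintype.piFinset (fun _ => range Q)

/-- exponential sum of a finite set with values in `ℤ^k` -/
noncomputable def FS {ι : Type} {k : ℕ} (X : Finset ι) (φ : ι → Fin k → ℤ) (Q : ℕ)
    (α : Fin k → ℕ) : ℂ :=
  ∑ x ∈ X, ee ((∑ j, (α j : ℝ) * (φ x j : ℝ)) / Q)

/-- the solutions of `φ(w) + ∑ pv(u) = φ(w') + ∑ pv(v)` with `w, w' ∈ W`, `u, v ∈ A^s` -/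
def SC {ι : Type} {k : ℕ} (s : ℕ) (W : Finset ι) (φ : ι → Fin k → ℤ) (A : Finset ℕ) : ℕ :=
  (((W ×ˢ W) ×ˢ ((Fintype.piFinset (fun _ : Fin s => A)) ×ˢ (Fintype.piFinset (fun _ : Fin s => A)))).filter
    (fun z => ∀ j, φ z.1.1 j + pv k z.2.1 j = φ z.1.2 j + pv k z.2.2 j)).card

/-- the tuples in `[1,M]^k` with distinct residues modulo `p` -/
def inj (k p M : ℕ) : Finset (Fin k → ℕ) :=
  (box k M).filter (fun x => ∀ i i', i ≠ i' → x i % p ≠ x i' % p)

/-- the bilinear exponential sum -/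
noncomputable def bil (k X : ℕ) (α : Fin k → ℝ) : ℂ :=
  ∑ a ∈ Icc 1 X, ∑ b ∈ Icc 1 X, ee (∑ j : Fin k, α j * ((a : ℝ) * b) ^ ((j : ℕ) + 1))

/-- the one dimensional sum of geometric sums -/
noncomputable def GG (α : ℝ) (W : ℕ) : ℝ :=
  ∑ w ∈ Icc (-(W : ℤ)) W, ‖∑ v ∈ Icc (-(W : ℤ)) W, ee (α * w * v)‖

end Pool.Agent.H97.VK

end

section

set_option autoImplicit false

namespace Pool.Agent.H97.VK

open Finset
open Pool.Agent.H91.PK (ee)

/-- the statement of `jv_eight` -/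
def jv_eight_P : Prop :=
    ∃ C : ℝ, 1 ≤ C ∧ ∀ k M : ℕ, 2 ≤ k → 1 ≤ M →
    (JV k (8 * k ^ 2) M : ℝ) ≤ (C * k) ^ (C * k ^ 3) *
      (M : ℝ) ^ (16 * (k : ℝ) ^ 2 - (k : ℝ) * (k + 1) / 2 + (k : ℝ) ^ 2 / 1000)

/-- the statement of `vexp` -/
def vexp_P : Prop :=
    ∃ c C : ℝ, 0 < c ∧ 1 ≤ C ∧ ∀ (κ N a b : ℕ) (β t : ℝ), 4 ≤ κ → (C * κ) ^ C ≤ N →
    N ≤ a → b ≤ 2 * N → 0 ≤ β → β ≤ 1 → (N : ℝ) ^ (4 * κ - 4) ≤ |t| → |t| ≤ (N : ℝ) ^ (4 * κ) →
    ‖∑ n ∈ Ioc a b, ee (t * Real.log (n + β))‖ ≤ C * (N : ℝ) ^ (1 - c / (κ : ℝ) ^ 2)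

end Pool.Agent.H97.VK

end
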