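import Pool.Agent.H43.PS.M09
import Pool.Agent.H43.PS.M14
import Pool.Agent.H43.PS.M19

/-! The parts of this file: H43.CH.MinA, H43.CH.FixA. -/

section

/-!
# CH MinA: bilinear estimate in mean over windows, fixed frequency

Proof.  `F = FS g S`.  Choose `θ(x)` measurable, `‖θ‖ ≤ 1`, `θ(x) Mw F x H α = ‖Mw F x H α‖`.  `I = ∫_{[X,2X]} ‖Mw‖ = ∑_{m ≤ 3X/P} g(m) ∑_{p ∈ S} ee(p m α) G(p m)`, `G(y) = ∫_{[X,2X]} θ(x) 1_{|y - x| < H/2} dx`: `‖G‖ ≤ H`,
`‖G(y) - G(y')‖ ≤ 2 |y - y'|`, `G(y) = 0` for `y ≥ 3X` (`n = p m < 2X + H/2 < 3X`, so `m ≤ 3X/P`; `m ≥ 1` as `n > X - H/2 > 0`).  Cauchy-Schwarz in `m`: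
`I^2 ≤ (3X/P) ∑_{p, p' ∈ S} ∑_{m ≤ 3X/P} ee(m (p - p') α) G(p m) conj G(p' m)`.
`p = p'`: `≤ #S (3X/P) H^2`, `#S ≤ P`.  `p ≠ p'` with `nz((p - p') α) < τ`: `≤ (3X/P) H^2` each.  All other pairs (at most `P^2`): partial summation, `|∑_{m ≤ u} ee(m γ)| ≤ 1/(2 nz γ) ≤ 1/(2τ)`,
`Ψ(m) = G(p m) conj G(p' m)`, `‖Ψ(m+1) - Ψ(m)‖ ≤ H (2p + 2p') ≤ 8 P H`, `‖Ψ‖ ≤ H^2 ≤ X H`: `≤ (24 X H + X H)/(2τ)`.  Total `I^2 ≤ X^2 H^2 (9/P + 9 N2/P^2 + 38 P/(H τ))`.
-/

set_option autoImplicit false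

namespace Pool.Agent.H43.CH

open Finset MeasureTheory
open Pool.Agent.H35.W (pb)
open Pool.Agent.H43.LM (Mw)
open Pool.Agent.H53.MID (nz)

open Pool.Agent.H91.PK (ee LSa_ee_add LSa_norm_ee LSa_conj_ee)

/-! ### The exponential sum over `m` -/

private theorem MinA_ee_eq (t : ℝ) : ee t = Pool.Agent.H92.EH.e t := by
  unfold ee Pool.Agent.H92.EH.e
  congr 1
  push_cast
  ring

private theorem MinA_geom (y : ℕ) (t δ : ℝ) (hδ : 0 < δ) (h : δ ≤ nz t) :
    ‖∑ m ∈ Icc 1 y, ee (m * t)‖ ≤ 1 / δ := by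
  have h0 : ∀ m : ℤ, δ ≤ |t - m| := fun m => h.trans (Pool.Agent.H53.MID.nz_le_of t m)
  have h3 := Pool.Agent.H92.EH.le_norm_e_sub_one h0
  have h1 : ∑ n ∈ Icc 1 y, ee (n * t)
      = Pool.Agent.H92.EH.e t * ∑ n ∈ range y, Pool.Agent.H92.EH.e t ^ n := by
    clear h3
    induction y with
    | zero => simp
    | succ y ih =>
      rw [Finset.sum_Icc_succ_top (by omega), ih, sum_range_succ, mul_add]
      congr 1
      rw [MinA_ee_eq, Pool.Agent.H92.EH.e_nat_mul, pow_succ]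
      ring
  have h2 : (∑ n ∈ range y, Pool.Agent.H92.EH.e t ^ n) * (Pool.Agent.H92.EH.e t - 1)
      = Pool.Agent.H92.EH.e t ^ y - 1 := geom_sum_mul _ _
  have h4 : ‖(∑ n ∈ range y, Pool.Agent.H92.EH.e t ^ n)‖ * ‖Pool.Agent.H92.EH.e t - 1‖ ≤ 2 := by
    rw [← norm_mul, h2]
    refine (norm_sub_le _ _).trans ?_
    rw [norm_pow, Pool.Agent.H92.EH.norm_e, one_pow, norm_one]
    norm_num
  rw [h1, norm_mul, Pool.Agent.H92.EH.norm_e, one_mul, le_div_iff₀ (by positivity)]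
  have h5 : ‖(∑ n ∈ range y, Pool.Agent.H92.EH.e t ^ n)‖ * (4 * δ) ≤ 2 :=
    (mul_le_mul_of_nonneg_left h3 (norm_nonneg _)).trans h4
  have h6 : 0 ≤ ‖(∑ n ∈ range y, Pool.Agent.H92.EH.e t ^ n)‖ * δ := by positivity
  linarith only [h5]

private theorem MinA_abel_eq (u ψ : ℕ → ℂ) (B : ℕ) :
    ∑ m ∈ Icc 1 B, u m * ψ m = (∑ m ∈ Icc 1 B, u m) * ψ (B + 1)
      - ∑ m ∈ Icc 1 B, (∑ k ∈ Icc 1 m, u k) * (ψ (m + 1) - ψ m) := by
  induction B with
  | zero => simp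
  | succ B ih =>
    rw [Finset.sum_Icc_succ_top (by omega), ih,
      Finset.sum_Icc_succ_top (f := fun m => (∑ k ∈ Icc 1 m, u k) * (ψ (m + 1) - ψ m)) (by omega)]
    rw [Finset.sum_Icc_succ_top (f := u) (by omega)]
    ring

private theorem MinA_abel (u ψ : ℕ → ℂ) (B : ℕ) (K D0 D1 : ℝ) (hK : 0 ≤ K)
    (hu : ∀ y, ‖∑ m ∈ Icc 1 y, u m‖ ≤ K) (h0 : ∀ m, ‖ψ m‖ ≤ D0)
    (h1 : ∀ m, ‖ψ (m + 1) - ψ m‖ ≤ D1) :
    ‖∑ m ∈ Icc 1 B, u m * ψ m‖ ≤ K * (D0 + B * D1) := by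
  rw [MinA_abel_eq]
  have a1 : ‖(∑ m ∈ Icc 1 B, u m) * ψ (B + 1)‖ ≤ K * D0 := by
    rw [norm_mul]
    exact mul_le_mul (hu B) (h0 _) (norm_nonneg _) hK
  have a2 : ‖∑ m ∈ Icc 1 B, (∑ k ∈ Icc 1 m, u k) * (ψ (m + 1) - ψ m)‖ ≤ B * (K * D1) := by
    have : ‖∑ m ∈ Icc 1 B, (∑ k ∈ Icc 1 m, u k) * (ψ (m + 1) - ψ m)‖ ≤ ∑ _m ∈ Icc 1 B, K * D1 := by
      refine (norm_sum_le _ _).trans (Finset.sum_le_sum fun m _ => ?_)
      rw [norm_mul]
      exact mul_le_mul (hu m) (h1 _) (norm_nonneg _) hK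
    simpa [Finset.sum_const, nsmul_eq_mul] using this
  calc _ ≤ ‖(∑ m ∈ Icc 1 B, u m) * ψ (B + 1)‖
        + ‖∑ m ∈ Icc 1 B, (∑ k ∈ Icc 1 m, u k) * (ψ (m + 1) - ψ m)‖ := norm_sub_le _ _
    _ ≤ K * D0 + B * (K * D1) := add_le_add a1 a2
    _ = _ := by ring

/-! ### The window function -/

/-- the indicator function of the window -/
private noncomputable def MinA_w (H y x : ℝ) : ℂ := if |y - x| < H / 2 then 1 else 0

private theorem MinA_w_meas (H y : ℝ) : Measurable (MinA_w H y) := by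
  unfold MinA_w
  refine Measurable.ite ?_ measurable_const measurable_const
  exact measurableSet_lt (by fun_prop) measurable_const

private theorem MinA_w_norm (H y x : ℝ) : ‖MinA_w H y x‖ ≤ 1 := by
  unfold MinA_w
  split_ifs <;> simp

/-- the averages against `θ` -/
private noncomputable def MinA_G (θ : ℝ → ℂ) (a b H y : ℝ) : ℂ :=
  ∫ x in Set.Icc a b, θ x * MinA_w H y x

private theorem MinA_int_le (f : ℝ → ℂ) (D : Set ℝ) (hD : MeasurableSet D) (hDf : volume D ≠ ⊤)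
    (a b : ℝ) (h : ∀ x, ‖f x‖ ≤ D.indicator (fun _ => (1 : ℝ)) x) :
    ‖∫ x in Set.Icc a b, f x‖ ≤ (volume D).toReal := by
  have hfin : IsFiniteMeasure (volume.restrict (Set.Icc a b)) :=
    ⟨by rw [Measure.restrict_apply_univ]; exact measure_Icc_lt_top⟩
  have h1 : Integrable (D.indicator (fun _ => (1 : ℝ))) (volume.restrict (Set.Icc a b)) :=
    (integrable_const (1 : ℝ)).indicator hD
  refine (norm_integral_le_of_norm_le h1 (Filter.Eventually.of_forall h)).trans ?_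
  rw [integral_indicator_const _ hD, smul_eq_mul, mul_one]
  exact ENNReal.toReal_mono hDf (Measure.restrict_apply_le _ _)

private theorem MinA_G_le (θ : ℝ → ℂ) (hθ : ∀ x, ‖θ x‖ ≤ 1) (a b H y : ℝ) (hH : 0 ≤ H) :
    ‖MinA_G θ a b H y‖ ≤ H := by
  have h := MinA_int_le (fun x => θ x * MinA_w H y x) (Set.Ioo (y - H / 2) (y + H / 2))
    measurableSet_Ioo (by rw [Real.volume_Ioo]; exact ENNReal.ofReal_ne_top) a b ?_
  · rw [Real.volume_Ioo] at h
    have e : y + H / 2 - (y - H / 2) = H := by ring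
    rw [e, ENNReal.toReal_ofReal hH] at h
    exact h
  · intro x
    rw [norm_mul]
    by_cases hx : |y - x| < H / 2
    · have hx' : x ∈ Set.Ioo (y - H / 2) (y + H / 2) := by
        rw [abs_lt] at hx
        constructor <;> linarith only [hx, hx.1, hx.2]
      rw [Set.indicator_of_mem hx']
      calc ‖θ x‖ * ‖MinA_w H y x‖ ≤ 1 * 1 :=
            mul_le_mul (hθ x) (MinA_w_norm _ _ _) (norm_nonneg _) zero_le_one
        _ = 1 := one_mul 1
    · have : MinA_w H y x = 0 := by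
        unfold MinA_w
        rw [if_neg hx]
      rw [this, norm_zero, mul_zero]
      exact Set.indicator_nonneg (fun _ _ => zero_le_one) x

private theorem MinA_int (θ : ℝ → ℂ) (hm : Measurable θ) (hθ : ∀ x, ‖θ x‖ ≤ 1) (a b H y : ℝ) :
    Integrable (fun x => θ x * MinA_w H y x) (volume.restrict (Set.Icc a b)) := by
  have hfin : IsFiniteMeasure (volume.restrict (Set.Icc a b)) :=
    ⟨by rw [Measure.restrict_apply_univ]; exact measure_Icc_lt_top⟩
  refine Integrable.of_bound (hm.mul (MinA_w_meas H y)).aestronglyMeasurable 1 ?_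
  refine Filter.Eventually.of_forall fun x => ?_
  rw [norm_mul]
  calc ‖θ x‖ * ‖MinA_w H y x‖ ≤ 1 * 1 :=
        mul_le_mul (hθ x) (MinA_w_norm _ _ _) (norm_nonneg _) zero_le_one
    _ = 1 := one_mul 1

private theorem MinA_G_lip (θ : ℝ → ℂ) (hm : Measurable θ) (hθ : ∀ x, ‖θ x‖ ≤ 1) (a b H y y' : ℝ) :
    ‖MinA_G θ a b H y - MinA_G θ a b H y'‖ ≤ 2 * |y - y'| := by
  unfold MinA_G
  rw [← integral_sub (MinA_int θ hm hθ a b H y) (MinA_int θ hm hθ a b H y')]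
  set D : Set ℝ := Set.uIcc (y - H / 2) (y' - H / 2) ∪ Set.uIcc (y + H / 2) (y' + H / 2) with hD
  have hDm : MeasurableSet D := measurableSet_uIcc.union measurableSet_uIcc
  have hDv : volume D ≤ ENNReal.ofReal |y - y'| + ENNReal.ofReal |y - y'| := by
    refine (measure_union_le _ _).trans (add_le_add (le_of_eq ?_) (le_of_eq ?_))
    · rw [Real.volume_interval, abs_sub_comm]
      congr 2
      ring
    · rw [Real.volume_interval, abs_sub_comm]
      congr 2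
      ring
  have hDf : volume D ≠ ⊤ := by
    refine ne_top_of_le_ne_top ?_ hDv
    exact ENNReal.add_ne_top.2 ⟨ENNReal.ofReal_ne_top, ENNReal.ofReal_ne_top⟩
  have h := MinA_int_le (fun x => θ x * MinA_w H y x - θ x * MinA_w H y' x) D hDm hDf a b ?_
  · refine h.trans ?_
    have h2 := ENNReal.toReal_mono
      (ENNReal.add_ne_top.2 ⟨ENNReal.ofReal_ne_top, ENNReal.ofReal_ne_top⟩) hDv
    rw [ENNReal.toReal_add ENNReal.ofReal_ne_top ENNReal.ofReal_ne_top,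
      ENNReal.toReal_ofReal (abs_nonneg _)] at h2
    linarith
  · intro x
    have e : θ x * MinA_w H y x - θ x * MinA_w H y' x
        = θ x * (MinA_w H y x - MinA_w H y' x) := by ring
    have e2 : ‖θ x * MinA_w H y x - θ x * MinA_w H y' x‖ ≤ ‖MinA_w H y x - MinA_w H y' x‖ := by
      rw [e, norm_mul]
      calc ‖θ x‖ * ‖MinA_w H y x - MinA_w H y' x‖ ≤ 1 * ‖MinA_w H y x - MinA_w H y' x‖ :=
            mul_le_mul_of_nonneg_right (hθ x) (norm_nonneg _)
        _ = _ := one_mul _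
    refine e2.trans ?_
    have hnn : 0 ≤ D.indicator (fun _ => (1 : ℝ)) x :=
      Set.indicator_nonneg (fun _ _ => zero_le_one) x
    by_cases h1 : |y - x| < H / 2 <;> by_cases h2 : |y' - x| < H / 2
    · have : MinA_w H y x - MinA_w H y' x = 0 := by
        unfold MinA_w
        rw [if_pos h1, if_pos h2, sub_self]
      rw [this, norm_zero]
      exact hnn
    · have hx : x ∈ D := by
        rw [abs_lt] at h1
        rw [not_lt, le_abs] at h2
        rcases h2 with h2 | h2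
        · left
          rw [Set.mem_uIcc]
          left
          constructor <;> linarith only [h1, h2, h1.1, h1.2]
        · right
          rw [Set.mem_uIcc]
          right
          constructor <;> linarith only [h2, h1, h1.1, h1.2]
      rw [Set.indicator_of_mem hx]
      unfold MinA_w
      rw [if_pos h1, if_neg h2]
      simp
    · have hx : x ∈ D := by
        rw [abs_lt] at h2
        rw [not_lt, le_abs] at h1
        rcases h1 with h1 | h1
        · left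
          rw [Set.mem_uIcc]
          right
          constructor <;> linarith only [h2, h1, h2.1, h2.2]
        · right
          rw [Set.mem_uIcc]
          left
          constructor <;> linarith only [h1, h2, h2.1, h2.2]
      rw [Set.indicator_of_mem hx]
      unfold MinA_w
      rw [if_neg h1, if_pos h2]
      simp
    · have : MinA_w H y x - MinA_w H y' x = 0 := by
        unfold MinA_w
        rw [if_neg h1, if_neg h2, sub_self]
      rw [this, norm_zero]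
      exact hnn

/-! ### The expansion of the window sum -/

private theorem MinA_exp (g : ℕ → ℝ) (X P : ℕ) (S : Finset ℕ) (H α x : ℝ) (hP : 1 ≤ P) (hPX : P ≤ X)
    (hS : S ⊆ pb P) (hH1 : 1 ≤ H) (hHX : H ≤ X) (hx : x ∈ Set.Icc (X : ℝ) (2 * X)) :
    Mw (FS g S) x H α = ∑ m ∈ Icc 1 (3 * X / P), (g m : ℂ) *
      ∑ p ∈ S, ee (((p * m : ℕ) : ℝ) * α) * MinA_w H ((p * m : ℕ) : ℝ) x := by
  obtain ⟨hx1, hx2⟩ := hx
  have hX1 : (1 : ℝ) ≤ X := by exact_mod_cast hP.trans hPX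
  have e1 : Mw (FS g S) x H α = ∑ p ∈ S, ∑ n ∈ (Pool.Agent.H43.LM.Win x H).filter (fun n => p ∣ n),
      (g (n / p) : ℂ) * ee (n * α) := by
    unfold Mw FS
    have : ∀ n ∈ Pool.Agent.H43.LM.Win x H,
        ((∑ p ∈ S.filter (fun p => p ∣ n), g (n / p) : ℝ) : ℂ) * ee (n * α)
          = ∑ p ∈ S, if p ∣ n then (g (n / p) : ℂ) * ee (n * α) else 0 := by
      intro n _
      rw [← Finset.sum_filter]
      push_cast
      rw [Finset.sum_mul]
    rw [Finset.sum_congr rfl this, Finset.sum_comm]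
    refine Finset.sum_congr rfl fun p _ => ?_
    rw [Finset.sum_filter]
  have e2 : ∀ p ∈ S, ∑ n ∈ (Pool.Agent.H43.LM.Win x H).filter (fun n => p ∣ n),
      (g (n / p) : ℂ) * ee (n * α) = ∑ m ∈ Icc 1 (3 * X / P),
        (g m : ℂ) * (ee (((p * m : ℕ) : ℝ) * α) * MinA_w H ((p * m : ℕ) : ℝ) x) := by
    intro p hp
    have hp' := hS hp
    have hpb : P < p ∧ p ≤ 2 * P ∧ p.Prime := by
      unfold pb at hp'
      rw [Finset.mem_filter, Finset.mem_Ioc] at hp'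
      exact ⟨hp'.1.1, hp'.1.2, hp'.2⟩
    have hp0 : 0 < p := by omega
    have e3 : ∑ m ∈ Icc 1 (3 * X / P),
        (g m : ℂ) * (ee (((p * m : ℕ) : ℝ) * α) * MinA_w H ((p * m : ℕ) : ℝ) x)
        = ∑ m ∈ (Icc 1 (3 * X / P)).filter (fun m : ℕ => |((p * m : ℕ) : ℝ) - x| < H / 2),
          (g m : ℂ) * ee (((p * m : ℕ) : ℝ) * α) := by
      rw [Finset.sum_filter]
      refine Finset.sum_congr rfl fun m _ => ?_
      unfold MinA_w
      split_ifs <;> simp
    rw [e3]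
    refine Finset.sum_bij' (fun n _ => n / p) (fun m _ => p * m) ?_ ?_ ?_ ?_ ?_
    · intro n hn
      rw [Finset.mem_filter] at hn
      obtain ⟨hn1, k, rfl⟩ := hn
      rw [Pool.Agent.H43.LM.Win, Finset.mem_filter] at hn1
      have hn2 := hn1.2
      rw [Nat.mul_div_cancel_left _ hp0]
      rw [Finset.mem_filter, Finset.mem_Icc]
      refine ⟨⟨?_, ?_⟩, hn2⟩
      · rcases Nat.eq_zero_or_pos k with h0 | h0
        · exfalso
          rw [h0, abs_lt] at hn2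
          simp only [mul_zero, Nat.cast_zero] at hn2
          linarith only [hH1, hHX, hx1, hn2, hn2.1]
        · exact h0
      · rw [Nat.le_div_iff_mul_le (by omega)]
        rw [abs_lt] at hn2
        have h3 : ((p * k : ℕ) : ℝ) < ((3 * X : ℕ) : ℝ) := by
          push_cast
          push_cast at hn2
          linarith only [hH1, hHX, hx2, hn2, hn2.2]
        have h4 : p * k < 3 * X := by exact_mod_cast h3
        calc k * P ≤ k * p := Nat.mul_le_mul_left k hpb.1.le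
          _ = p * k := Nat.mul_comm _ _
          _ ≤ 3 * X := h4.le
    · intro m hm
      rw [Finset.mem_filter] at hm ⊢
      refine ⟨?_, Dvd.intro m rfl⟩
      rw [Pool.Agent.H43.LM.Win, Finset.mem_filter, Finset.mem_range]
      refine ⟨?_, hm.2⟩
      have h1 := hm.2
      rw [abs_lt] at h1
      have h2 : ((p * m : ℕ) : ℝ) ≤ ⌈x + H⌉₊ := le_trans (by linarith only [hH1, h1, h1.2]) (Nat.le_ceil _)
      have h3 : p * m ≤ ⌈x + H⌉₊ := by exact_mod_cast h2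
      omega
    · intro n hn
      rw [Finset.mem_filter] at hn
      exact Nat.mul_div_cancel' hn.2
    · intro m _
      exact Nat.mul_div_cancel_left _ hp0
    · intro n hn
      rw [Finset.mem_filter] at hn
      rw [Nat.mul_div_cancel' hn.2]
  rw [e1, Finset.sum_congr rfl e2, Finset.sum_comm]
  refine Finset.sum_congr rfl fun m _ => ?_
  rw [Finset.mul_sum]

/-! ### The bilinear form -/

private theorem MinA_bil (S : Finset ℕ) (B : ℕ) (α : ℝ) (G : ℕ → ℂ) :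
    ∑ m ∈ Icc 1 B, ‖∑ p ∈ S, ee (((p * m : ℕ) : ℝ) * α) * G (p * m)‖ ^ 2
      ≤ ∑ z ∈ S ×ˢ S, ‖∑ m ∈ Icc 1 B, ee ((m : ℝ) * (((z.1 : ℝ) - z.2) * α)) *
        (G (z.1 * m) * (starRingEnd ℂ) (G (z.2 * m)))‖ := by
  have h : ((∑ m ∈ Icc 1 B, ‖∑ p ∈ S, ee (((p * m : ℕ) : ℝ) * α) * G (p * m)‖ ^ 2 : ℝ) : ℂ)
      = ∑ z ∈ S ×ˢ S, ∑ m ∈ Icc 1 B, ee ((m : ℝ) * (((z.1 : ℝ) - z.2) * α)) *
        (G (z.1 * m) * (starRingEnd ℂ) (G (z.2 * m))) := by
    simp only [Complex.ofReal_sum, Complex.ofReal_pow]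
    rw [Finset.sum_comm]
    refine Finset.sum_congr rfl fun m _ => ?_
    rw [← Complex.mul_conj', map_sum, Finset.sum_mul_sum, ← Finset.sum_product']
    refine Finset.sum_congr rfl fun z _ => ?_
    rw [map_mul, LSa_conj_ee]
    have e : ee ((m : ℝ) * (((z.1 : ℝ) - z.2) * α))
        = ee (((z.1 * m : ℕ) : ℝ) * α) * ee (-(((z.2 * m : ℕ) : ℝ) * α)) := by
      rw [← LSa_ee_add]
      congr 1
      push_cast
      ring
    rw [e]
    ring
  have h2 : (∑ m ∈ Icc 1 B, ‖∑ p ∈ S, ee (((p * m : ℕ) : ℝ) * α) * G (p * m)‖ ^ 2)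
      = ‖((∑ m ∈ Icc 1 B, ‖∑ p ∈ S, ee (((p * m : ℕ) : ℝ) * α) * G (p * m)‖ ^ 2 : ℝ) : ℂ)‖ := by
    rw [Complex.norm_real, Real.norm_of_nonneg (by positivity)]
  rw [h2, h]
  exact norm_sum_le _ _

theorem min_a (g : ℕ → ℝ) (hg : ∀ n, |g n| ≤ 1) (X P : ℕ) (S : Finset ℕ) (H α τ : ℝ) (hP : 1 ≤ P) (hPX : P ≤ X) (hS : S ⊆ pb P)
    (hH1 : 1 ≤ H) (hHX : H ≤ X) (hτ : 0 < τ) (hτ1 : τ ≤ 1 / 2) :
    (∫ x in Set.Icc (X : ℝ) (2 * X), ‖Mw (FS g S) x H α‖) ^ 2
      ≤ 1000 * (X : ℝ) ^ 2 * H ^ 2 * (1 / P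
        + (((S ×ˢ S).filter (fun z : ℕ × ℕ => z.1 ≠ z.2 ∧ nz (((z.1 : ℝ) - z.2) * α) < τ)).card : ℝ) / (P : ℝ) ^ 2
        + P / (H * τ)) := by
  have hX1 : 1 ≤ X := hP.trans hPX
  have hXr : (1 : ℝ) ≤ X := by exact_mod_cast hX1
  have hPr : (1 : ℝ) ≤ P := by exact_mod_cast hP
  have hP0 : (0 : ℝ) < P := by linarith only [hτ, hτ1, hPr]
  have hH0 : 0 < H := by linarith only [hH1, hτ, hτ1]
  set B : ℕ := 3 * X / P with hB
  have hBr : (B : ℝ) ≤ 3 * X / P := by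
    rw [le_div_iff₀ hP0]
    have : B * P ≤ 3 * X := Nat.div_mul_le_self _ _
    exact_mod_cast this
  have hB0 : (0 : ℝ) ≤ B := Nat.cast_nonneg B
  -- the function
  set M : ℝ → ℂ := fun x => ∑ m ∈ Icc 1 B, (g m : ℂ) *
      ∑ p ∈ S, ee (((p * m : ℕ) : ℝ) * α) * MinA_w H ((p * m : ℕ) : ℝ) x with hM
  have hMm : Measurable M := by
    rw [hM]
    refine Finset.measurable_fun_sum _ fun m _ => ?_
    refine Measurable.const_mul ?_ _
    refine Finset.measurable_fun_sum _ fun p _ => ?_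
    exact (MinA_w_meas _ _).const_mul _
  set θ : ℝ → ℂ := fun x => (starRingEnd ℂ) (M x) / (‖M x‖ : ℂ) with hθdef
  have hθm : Measurable θ := by
    rw [hθdef]
    refine Measurable.div ?_ ?_
    · exact Complex.continuous_conj.measurable.comp hMm
    · exact Complex.measurable_ofReal.comp hMm.norm
  have hθ : ∀ x, ‖θ x‖ ≤ 1 := by
    intro x
    simp only [hθdef, norm_div, RCLike.norm_conj, Complex.norm_real, norm_norm]
    exact div_self_le_one _
  have hθM : ∀ x, θ x * M x = (‖M x‖ : ℂ) := by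
    intro x
    simp only [hθdef]
    by_cases h0 : M x = 0
    · simp [h0]
    · have hn : (‖M x‖ : ℂ) ≠ 0 := by
        rw [Ne, Complex.ofReal_eq_zero, norm_eq_zero]
        exact h0
      rw [div_mul_eq_mul_div, Complex.conj_mul', div_eq_iff hn]
      ring
  set a : ℝ := (X : ℝ) with ha
  set G : ℕ → ℂ := fun k => MinA_G θ a (2 * a) H (k : ℝ) with hG
  have hI1 : (∫ x in Set.Icc a (2 * a), ‖Mw (FS g S) x H α‖)
      = ∫ x in Set.Icc a (2 * a), ‖M x‖ := by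
    refine setIntegral_congr_fun measurableSet_Icc fun x hx => ?_
    rw [MinA_exp g X P S H α x hP hPX hS hH1 hHX hx]
  have hI2 : ((∫ x in Set.Icc a (2 * a), ‖M x‖ : ℝ) : ℂ)
      = ∑ m ∈ Icc 1 B, (g m : ℂ) * ∑ p ∈ S, ee (((p * m : ℕ) : ℝ) * α) * G (p * m) := by
    rw [← integral_complex_ofReal]
    have e1 : (∫ x in Set.Icc a (2 * a), ((‖M x‖ : ℝ) : ℂ))
        = ∫ x in Set.Icc a (2 * a), ∑ m ∈ Icc 1 B, ∑ p ∈ S,
          (g m : ℂ) * (ee (((p * m : ℕ) : ℝ) * α) * (θ x * MinA_w H ((p * m : ℕ) : ℝ) x)) := by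
      refine integral_congr_ae (Filter.Eventually.of_forall fun x => ?_)
      simp only
      rw [← hθM x]
      simp only [hM]
      rw [Finset.mul_sum]
      refine Finset.sum_congr rfl fun m _ => ?_
      rw [Finset.mul_sum, Finset.mul_sum]
      refine Finset.sum_congr rfl fun p _ => ?_
      ring
    rw [e1, integral_finsetSum]
    · refine Finset.sum_congr rfl fun m _ => ?_
      rw [integral_finsetSum]
      · rw [Finset.mul_sum]
        refine Finset.sum_congr rfl fun p _ => ?_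
        rw [integral_const_mul, integral_const_mul]
        rfl
      · intro p _
        exact ((MinA_int θ hθm hθ a (2 * a) H _).const_mul _).const_mul _
    · intro m _
      refine integrable_finsetSum _ fun p _ => ?_
      exact ((MinA_int θ hθm hθ a (2 * a) H _).const_mul _).const_mul _
  have hI3 : (∫ x in Set.Icc a (2 * a), ‖M x‖)
      ≤ ∑ m ∈ Icc 1 B, ‖∑ p ∈ S, ee (((p * m : ℕ) : ℝ) * α) * G (p * m)‖ := by
    have h0 : 0 ≤ ∫ x in Set.Icc a (2 * a), ‖M x‖ := integral_nonneg fun _ => norm_nonneg _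
    have h1 : (∫ x in Set.Icc a (2 * a), ‖M x‖)
        = ‖((∫ x in Set.Icc a (2 * a), ‖M x‖ : ℝ) : ℂ)‖ := by
      rw [Complex.norm_real, Real.norm_of_nonneg h0]
    rw [h1, hI2]
    refine (norm_sum_le _ _).trans (Finset.sum_le_sum fun m _ => ?_)
    rw [norm_mul, Complex.norm_real, Real.norm_eq_abs]
    calc |g m| * _ ≤ 1 * _ := mul_le_mul_of_nonneg_right (hg m) (norm_nonneg _)
      _ = _ := one_mul _
  have hI0 : 0 ≤ ∫ x in Set.Icc a (2 * a), ‖M x‖ := integral_nonneg fun _ => norm_nonneg _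
  -- Cauchy-Schwarz
  have hCS : (∫ x in Set.Icc a (2 * a), ‖M x‖) ^ 2
      ≤ B * ∑ z ∈ S ×ˢ S, ‖∑ m ∈ Icc 1 B, ee ((m : ℝ) * (((z.1 : ℝ) - z.2) * α)) *
        (G (z.1 * m) * (starRingEnd ℂ) (G (z.2 * m)))‖ := by
    calc (∫ x in Set.Icc a (2 * a), ‖M x‖) ^ 2
        ≤ (∑ m ∈ Icc 1 B, ‖∑ p ∈ S, ee (((p * m : ℕ) : ℝ) * α) * G (p * m)‖) ^ 2 :=
          pow_le_pow_left₀ hI0 hI3 2
      _ ≤ ((Icc 1 B).card : ℝ) *
          ∑ m ∈ Icc 1 B, ‖∑ p ∈ S, ee (((p * m : ℕ) : ℝ) * α) * G (p * m)‖ ^ 2 :=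
          sq_sum_le_card_mul_sum_sq
      _ ≤ _ := by
          rw [Nat.card_Icc, Nat.add_sub_cancel]
          exact mul_le_mul_of_nonneg_left (MinA_bil S B α G) hB0
  -- bounds for `G`
  have hGn : ∀ k, ‖G k‖ ≤ H := fun k => MinA_G_le θ hθ a (2 * a) H k hH0.le
  have hGl : ∀ k k' : ℕ, ‖G k - G k'‖ ≤ 2 * |(k : ℝ) - k'| := fun k k' =>
    MinA_G_lip θ hθm hθ a (2 * a) H k k'
  have hSp : ∀ p ∈ S, P < p ∧ p ≤ 2 * P := by
    intro p hp
    have hp' := hS hp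
    unfold pb at hp'
    rw [Finset.mem_filter, Finset.mem_Ioc] at hp'
    exact hp'.1
  have hcard : (S.card : ℝ) ≤ P := by
    have h1 : S.card ≤ (Ioc P (2 * P)).card := by
      apply Finset.card_le_card
      intro p hp
      rw [Finset.mem_Ioc]
      exact hSp p hp
    rw [Nat.card_Ioc] at h1
    have h2 : S.card ≤ P := by omega
    exact_mod_cast h2
  -- the trivial bound
  have hT0 : ∀ z : ℕ × ℕ, ‖∑ m ∈ Icc 1 B, ee ((m : ℝ) * (((z.1 : ℝ) - z.2) * α)) *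
        (G (z.1 * m) * (starRingEnd ℂ) (G (z.2 * m)))‖ ≤ B * H ^ 2 := by
    intro z
    have : ‖∑ m ∈ Icc 1 B, ee ((m : ℝ) * (((z.1 : ℝ) - z.2) * α)) *
        (G (z.1 * m) * (starRingEnd ℂ) (G (z.2 * m)))‖ ≤ ∑ _m ∈ Icc 1 B, H ^ 2 := by
      refine (norm_sum_le _ _).trans (Finset.sum_le_sum fun m _ => ?_)
      rw [norm_mul, LSa_norm_ee, one_mul, norm_mul, RCLike.norm_conj, sq]
      exact mul_le_mul (hGn _) (hGn _) (norm_nonneg _) hH0.le
    simpa [Finset.sum_const, nsmul_eq_mul] using this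
  -- the bound by partial summation
  have hT1 : ∀ z ∈ S ×ˢ S, τ ≤ nz (((z.1 : ℝ) - z.2) * α) →
      ‖∑ m ∈ Icc 1 B, ee ((m : ℝ) * (((z.1 : ℝ) - z.2) * α)) *
        (G (z.1 * m) * (starRingEnd ℂ) (G (z.2 * m)))‖ ≤ 25 * X * H / τ := by
    intro z hz hnz
    rw [Finset.mem_product] at hz
    have hz1 := hSp _ hz.1
    have hz2 := hSp _ hz.2
    have hz1r : (z.1 : ℝ) ≤ 2 * P := by exact_mod_cast hz1.2
    have hz2r : (z.2 : ℝ) ≤ 2 * P := by exact_mod_cast hz2.2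
    have hd : ∀ (c m : ℕ), (c : ℝ) ≤ 2 * P → ‖G (c * (m + 1)) - G (c * m)‖ ≤ 4 * P := by
      intro c m hc
      refine (hGl _ _).trans ?_
      push_cast
      have e : (c : ℝ) * (m + 1) - c * m = c := by ring
      rw [e, abs_of_nonneg (Nat.cast_nonneg c)]
      linarith only [hc]
    have h := MinA_abel (fun m : ℕ => ee ((m : ℝ) * (((z.1 : ℝ) - z.2) * α)))
      (fun m => G (z.1 * m) * (starRingEnd ℂ) (G (z.2 * m))) B (1 / τ) (H ^ 2) (8 * P * H)
      (by positivity) (fun y => MinA_geom y _ τ hτ hnz) ?_ ?_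
    · refine h.trans ?_
      have h1 : H ^ 2 ≤ X * H := by nlinarith only [hHX, hH1]
      have h2 : (B : ℝ) * (8 * P * H) ≤ 24 * X * H := by
        calc (B : ℝ) * (8 * P * H) ≤ (3 * X / P) * (8 * P * H) :=
              mul_le_mul_of_nonneg_right hBr (by positivity)
          _ = 24 * X * H := by
              field_simp
              ring
      calc 1 / τ * (H ^ 2 + B * (8 * P * H)) ≤ 1 / τ * (25 * X * H) :=
            mul_le_mul_of_nonneg_left (by linarith only [h1, h2]) (by positivity)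
        _ = 25 * X * H / τ := by ring
    · intro m
      rw [norm_mul, RCLike.norm_conj, sq]
      exact mul_le_mul (hGn _) (hGn _) (norm_nonneg _) hH0.le
    · intro m
      have e : G (z.1 * (m + 1)) * (starRingEnd ℂ) (G (z.2 * (m + 1)))
          - G (z.1 * m) * (starRingEnd ℂ) (G (z.2 * m))
          = (G (z.1 * (m + 1)) - G (z.1 * m)) * (starRingEnd ℂ) (G (z.2 * (m + 1)))
            + G (z.1 * m) * (starRingEnd ℂ) (G (z.2 * (m + 1)) - G (z.2 * m)) := by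
        rw [map_sub]
        ring
      rw [e]
      refine (norm_add_le _ _).trans ?_
      rw [norm_mul, norm_mul, RCLike.norm_conj, RCLike.norm_conj]
      have b1 := mul_le_mul (hd z.1 m hz1r) (hGn (z.2 * (m + 1))) (norm_nonneg _) (by positivity)
      have b2 := mul_le_mul (hGn (z.1 * m)) (hd z.2 m hz2r) (norm_nonneg _) hH0.le
      linarith only [b1, b2]
  -- summation over the pairs
  set N2 : Finset (ℕ × ℕ) := (S ×ˢ S).filter
    (fun z : ℕ × ℕ => z.1 ≠ z.2 ∧ nz (((z.1 : ℝ) - z.2) * α) < τ) with hN2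
  have hsum : ∑ z ∈ S ×ˢ S, ‖∑ m ∈ Icc 1 B, ee ((m : ℝ) * (((z.1 : ℝ) - z.2) * α)) *
        (G (z.1 * m) * (starRingEnd ℂ) (G (z.2 * m)))‖
      ≤ S.card * (B * H ^ 2) + N2.card * (B * H ^ 2) + (S.card : ℝ) ^ 2 * (25 * X * H / τ) := by
    have hc0 : 0 ≤ (B : ℝ) * H ^ 2 := by positivity
    have hc1 : 0 ≤ 25 * X * H / τ := by positivity
    have hpt : ∀ z ∈ S ×ˢ S, ‖∑ m ∈ Icc 1 B, ee ((m : ℝ) * (((z.1 : ℝ) - z.2) * α)) *
        (G (z.1 * m) * (starRingEnd ℂ) (G (z.2 * m)))‖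
        ≤ (if z.1 = z.2 then (B : ℝ) * H ^ 2 else 0)
          + (if z.1 ≠ z.2 ∧ nz (((z.1 : ℝ) - z.2) * α) < τ then (B : ℝ) * H ^ 2 else 0)
          + 25 * X * H / τ := by
      intro z hz
      by_cases h1 : z.1 = z.2
      · rw [if_pos h1, if_neg (by tauto)]
        linarith only [hc1, hT0, hT0 z]
      · by_cases h2 : nz (((z.1 : ℝ) - z.2) * α) < τ
        · rw [if_neg h1, if_pos ⟨h1, h2⟩]
          linarith only [hc1, hT0, hT0 z]
        · rw [if_neg h1, if_neg (by tauto)]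
          linarith only [hT1, hz, h2, hT1 z hz (not_lt.1 h2)]
    refine (Finset.sum_le_sum hpt).trans (le_of_eq ?_)
    rw [Finset.sum_add_distrib, Finset.sum_add_distrib, ← Finset.sum_filter, ← Finset.sum_filter,
      Finset.sum_const, Finset.sum_const, Finset.sum_const, Finset.card_product, nsmul_eq_mul,
      nsmul_eq_mul, nsmul_eq_mul]
    have hdiag : ((S ×ˢ S).filter (fun z : ℕ × ℕ => z.1 = z.2)).card = S.card := by
      have : (S ×ˢ S).filter (fun z : ℕ × ℕ => z.1 = z.2) = S.image (fun p => (p, p)) := by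
        ext ⟨u, v⟩
        simp only [Finset.mem_filter, Finset.mem_product, Finset.mem_image, Prod.mk.injEq]
        constructor
        · rintro ⟨⟨h1, _⟩, h3⟩
          exact ⟨u, h1, rfl, h3⟩
        · rintro ⟨w, hw, rfl, rfl⟩
          exact ⟨⟨hw, hw⟩, rfl⟩
      rw [this, Finset.card_image_of_injective]
      intro u v h
      exact (Prod.mk.inj h).1
    rw [hdiag]
    push_cast
    ring
  -- conclusion
  rw [hI1]
  have hN2c : (0 : ℝ) ≤ N2.card := Nat.cast_nonneg _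
  have hSc : (0 : ℝ) ≤ S.card := Nat.cast_nonneg _
  have hX0 : (0 : ℝ) < X := by linarith only [hH1, hτ, hτ1, hHX]
  have hB2 : (B : ℝ) ^ 2 ≤ 9 * X ^ 2 / P ^ 2 := by
    calc (B : ℝ) ^ 2 ≤ (3 * X / P) ^ 2 := pow_le_pow_left₀ hB0 hBr 2
      _ = 9 * X ^ 2 / P ^ 2 := by ring
  calc (∫ x in Set.Icc a (2 * a), ‖M x‖) ^ 2
      ≤ B * (S.card * (B * H ^ 2) + N2.card * (B * H ^ 2)
          + (S.card : ℝ) ^ 2 * (25 * X * H / τ)) :=
        hCS.trans (mul_le_mul_of_nonneg_left hsum hB0)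
    _ = (B : ℝ) ^ 2 * H ^ 2 * (S.card + N2.card) + B * (S.card : ℝ) ^ 2 * (25 * X * H / τ) := by
        ring
    _ ≤ 9 * X ^ 2 / P ^ 2 * H ^ 2 * (P + N2.card)
          + (3 * X / P) * (P : ℝ) ^ 2 * (25 * X * H / τ) := by
        apply add_le_add
        · apply mul_le_mul
          · exact mul_le_mul_of_nonneg_right hB2 (by positivity)
          · linarith only [hcard]
          · positivity
          · positivity
        · apply mul_le_mul_of_nonneg_right _ (by positivity)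
          exact mul_le_mul hBr (pow_le_pow_left₀ hSc hcard 2) (by positivity) (by positivity)
    _ = (X : ℝ) ^ 2 * H ^ 2 * (9 * (1 / P) + 9 * (N2.card / (P : ℝ) ^ 2) + 75 * (P / (H * τ))) := by
        field_simp
        ring
    _ ≤ 1000 * (X : ℝ) ^ 2 * H ^ 2 * (1 / P + N2.card / (P : ℝ) ^ 2 + P / (H * τ)) := by
        have c1 : 0 ≤ 1 / (P : ℝ) := by positivity
        have c2 : 0 ≤ (N2.card : ℝ) / (P : ℝ) ^ 2 := by positivity
        have c3 : 0 ≤ (P : ℝ) / (H * τ) := by positivity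
        have c4 : (9 * (1 / (P : ℝ)) + 9 * (N2.card / (P : ℝ) ^ 2) + 75 * (P / (H * τ)))
            ≤ 1000 * (1 / P + N2.card / (P : ℝ) ^ 2 + P / (H * τ)) := by linarith only [c1, c2, c3]
        calc _ ≤ (X : ℝ) ^ 2 * H ^ 2 * (1000 * (1 / P + N2.card / (P : ℝ) ^ 2 + P / (H * τ))) :=
              mul_le_mul_of_nonneg_left c4 (by positivity)
          _ = _ := by ring

end Pool.Agent.H43.CH

end

section

/-!
# CH FixA: mean square over windows, all frequencies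

Proof.  `F = FS (gP P1 P) S`, `C = 2A + 12`, `D = L^C`, `τ = D P/H ≤ 1/2`.  `b ≥ C`, `P^12 ≤ H`, so `D ≤ P`, `3 P^2 D^2 ≤ H`.  `N2` = the number of pairs in `min_a`.
Case `N2 ≤ 4P^2/D`: `min_a`: `∫ ‖Mw‖ ≤ X H (1000 (1/P + 5/D))^{1/2} ≤ 100 X H/L^{C/2}`, `‖Mw‖ ≤ 2H · 4L`, so `∫ ‖Mw‖^2 ≤ 800 X H^2 L^{1 - C/2} ≤ X H^2/L^A`.
Case `N2 > 4P^2/D`: `min_b`: `α = a/c + β`, `c ≤ D = L^C`, `|β| ≤ D^2/H = L^{2C}/H`; `a` may be made a natural number by adding a multiple of `c` (`Mw` has period 1 in `α`); `maj_a` with `B = C`, `E = 2C`.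
-/

set_option autoImplicit false

namespace Pool.Agent.H43.CH

open Finset MeasureTheory
open Pool.Agent.H53.MIX (VKw)
open Pool.Agent.H35.W (pb)
open Pool.Agent.H43.LM (gP Mw)

/-- trivial bound for `FS g S` with `|g| ≤ 1` and `S` a set of primes -/
theorem FS_abs_le (g : ℕ → ℝ) (hg : ∀ n, |g n| ≤ 1) (S : Finset ℕ) (hS : ∀ p ∈ S, p.Prime) (n : ℕ)
    (hn : n ≠ 0) : |FS g S n| ≤ 2 * Real.log n := by
  have h1 : |FS g S n| ≤ ((S.filter (fun p => p ∣ n)).card : ℝ) := by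
    unfold FS
    refine (abs_sum_le_sum_abs _ _).trans ?_
    refine (sum_le_card_nsmul _ _ 1 fun p _ => hg _).trans (by simp)
  have h2 : S.filter (fun p => p ∣ n) ⊆ n.primeFactors := by
    intro p hp
    obtain ⟨hp1, hp2⟩ := mem_filter.1 hp
    exact Nat.mem_primeFactors.2 ⟨hS p hp1, hp2, hn⟩
  have h3 : 2 ^ n.primeFactors.card ≤ n := by
    calc 2 ^ n.primeFactors.card = ∏ _p ∈ n.primeFactors, 2 := by rw [prod_const]
      _ ≤ ∏ p ∈ n.primeFactors, p := by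
          refine prod_le_prod' fun p hp => ?_
          exact (Nat.prime_of_mem_primeFactors hp).two_le
      _ ≤ n := Nat.le_of_dvd (Nat.pos_of_ne_zero hn) (Nat.prod_primeFactors_dvd n)
  have h4 : (2 : ℝ) ^ n.primeFactors.card ≤ n := by exact_mod_cast h3
  have h5 : (n.primeFactors.card : ℝ) * Real.log 2 ≤ Real.log n := by
    have := Real.log_le_log (by positivity) h4
    rwa [Real.log_pow] at this
  have h6 : ((S.filter (fun p => p ∣ n)).card : ℝ) ≤ n.primeFactors.card := by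
    exact_mod_cast card_le_card h2
  have h7 : (1 / 2 : ℝ) ≤ Real.log 2 := by
    have := Real.log_two_gt_d9
    linarith only [this]
  have h8 : (n.primeFactors.card : ℝ) * (1 / 2) ≤ (n.primeFactors.card : ℝ) * Real.log 2 :=
    mul_le_mul_of_nonneg_left h7 (Nat.cast_nonneg _)
  linarith only [h1, h5, h6, h8]

theorem fix_a_h (h_maj_a : maj_a_P) (hV : VKw (19 / 20)) (s : ℝ) (hs0 : 0 < s) (hs : s < 1) (A : ℕ) : ∃ b κ X0 : ℕ, ∀ X : ℕ, X0 ≤ X →
    ∀ (P1 P : ℕ) (S : Finset ℕ) (H α : ℝ), Real.log X ^ b ≤ P → (P : ℝ) ≤ Real.exp (Real.log X ^ s) → (P : ℝ) ^ 12 ≤ H →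
      H ≤ X / Real.log X ^ κ → S ⊆ pb P →
      ∫ x in Set.Icc (X : ℝ) (2 * X), ‖Mw (FS (gP P1 P) S) x H α‖ ^ 2 ≤ X * H ^ 2 / Real.log X ^ A := by
  set C : ℕ := 2 * A + 12 with hC
  obtain ⟨b0, κ, X1, hmaj⟩ := h_maj_a hV s hs0 hs A C (C * 2)
  have htend : Filter.Tendsto (fun X : ℕ => Real.log X) Filter.atTop Filter.atTop :=
    Real.tendsto_log_atTop.comp tendsto_natCast_atTop_atTop
  obtain ⟨X2, hX2⟩ := Filter.eventually_atTop.1 (htend.eventually_ge_atTop (100 : ℝ))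
  refine ⟨b0 + C, κ, max (max X1 X2) 3, ?_⟩
  intro X hX P1 P S H α hPL hPU hPH hHX hS
  have hXX1 : X1 ≤ X := (le_max_left _ _).trans ((le_max_left _ _).trans hX)
  have hL : (100 : ℝ) ≤ Real.log X := hX2 X ((le_max_right _ _).trans ((le_max_left _ _).trans hX))
  have hX3 : 3 ≤ X := (le_max_right _ _).trans hX
  set L : ℝ := Real.log X with hLdef
  have hL1 : (1 : ℝ) ≤ L := by linarith only [hs0, hs, hL]
  have hL0 : (0 : ℝ) < L := by linarith only [hs0, hs, hL]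
  have hXr : (3 : ℝ) ≤ X := by exact_mod_cast hX3
  have hX0 : (0 : ℝ) < X := by linarith only [hs0, hs, hXr]
  have hLb0 : L ^ b0 ≤ P := (pow_le_pow_right₀ hL1 (Nat.le_add_right _ _)).trans hPL
  have hLC : L ^ C ≤ P := (pow_le_pow_right₀ hL1 (Nat.le_add_left _ _)).trans hPL
  set D : ℝ := L ^ C with hD
  have hDL : L ≤ D := by
    rw [hD]
    calc L = L ^ 1 := (pow_one L).symm
      _ ≤ L ^ C := pow_le_pow_right₀ hL1 (by omega)
  have hD100 : (100 : ℝ) ≤ D := hL.trans hDL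
  have hD0 : (0 : ℝ) < D := by linarith only [hs0, hs, hL, hDL]
  have hPr : (100 : ℝ) ≤ P := hD100.trans hLC
  have hP0 : (0 : ℝ) < P := by linarith only [hs0, hs, hL, hLC, hDL]
  have hP1 : 1 ≤ P := by
    have : (1 : ℝ) ≤ P := by linarith only [hs0, hs, hL, hLC, hDL]
    exact_mod_cast this
  have hP12 : (P : ℝ) ^ 4 * 100 ≤ (P : ℝ) ^ 12 := by
    have e : (P : ℝ) ^ 12 = (P : ℝ) ^ 4 * (P : ℝ) ^ 8 := by ring
    rw [e]
    refine mul_le_mul_of_nonneg_left ?_ (by positivity)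
    calc (100 : ℝ) ≤ P := hPr
      _ = (P : ℝ) ^ 1 := (pow_one _).symm
      _ ≤ (P : ℝ) ^ 8 := pow_le_pow_right₀ (by linarith only [hs0, hs, hL, hLC, hDL]) (by norm_num)
  have hPle4 : (P : ℝ) ≤ (P : ℝ) ^ 4 := by
    calc (P : ℝ) = (P : ℝ) ^ 1 := (pow_one _).symm
      _ ≤ (P : ℝ) ^ 4 := pow_le_pow_right₀ (by linarith only [hs0, hs, hL, hLC, hDL]) (by norm_num)
  have hP4H : (P : ℝ) ^ 4 * 100 ≤ H := hP12.trans hPH
  have hPH' : (P : ℝ) * 100 ≤ H := (mul_le_mul_of_nonneg_right hPle4 (by norm_num)).trans hP4H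
  have hH100 : (100 : ℝ) ≤ H := by nlinarith only [hs0, hs, hPH, hL, hLC, hDL, hP12, hPle4]
  have hH0 : (0 : ℝ) < H := by linarith only [hs0, hs, hPH, hL, hLC, hDL, hP12, hPle4]
  have hHX' : H ≤ X := hHX.trans (div_le_self hX0.le (one_le_pow₀ hL1))
  have hPX : P ≤ X := by
    have : (P : ℝ) ≤ X := by nlinarith only [hs0, hs, hPH, hL, hLC, hDL, hP12, hPle4, hHX']
    exact_mod_cast this
  have hPsq : (P : ℝ) ^ 2 ≤ (P : ℝ) ^ 4 := pow_le_pow_right₀ (by linarith only [hs0, hs, hL, hLC, hDL]) (by norm_num)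
  set τ : ℝ := D * P / H with hτ
  have hτ0 : 0 < τ := by positivity
  have hτ1 : τ ≤ 1 / 2 := by
    rw [hτ, div_le_iff₀ hH0]
    have h1 : D * P ≤ P * P := mul_le_mul_of_nonneg_right hLC hP0.le
    nlinarith only [hs0, hs, hPH, hL, hLC, hDL, hP12, hPle4, hPsq, h1]
  have hHD : 3 * (P : ℝ) ^ 2 * D ^ 2 ≤ H := by
    have h1 : D ^ 2 ≤ (P : ℝ) ^ 2 := pow_le_pow_left₀ hD0.le hLC 2
    have h2 : 3 * (P : ℝ) ^ 2 * D ^ 2 ≤ 3 * (P : ℝ) ^ 2 * (P : ℝ) ^ 2 :=
      mul_le_mul_of_nonneg_left h1 (by positivity)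
    have h3 : 3 * (P : ℝ) ^ 2 * (P : ℝ) ^ 2 = 3 * (P : ℝ) ^ 4 := by ring
    have h4 : (0 : ℝ) ≤ (P : ℝ) ^ 4 := by positivity
    linarith only [hs0, hs, hPH, hL, hLC, hDL, hP12, hPle4, h2]
  have hSp : ∀ p ∈ S, p.Prime := fun p hp => (mem_filter.1 (hS hp)).2
  set F : ℕ → ℝ := FS (gP P1 P) S with hF
  rcases le_or_gt ((((S ×ˢ S).filter (fun z : ℕ × ℕ => z.1 ≠ z.2 ∧
      Pool.Agent.H53.MID.nz (((z.1 : ℝ) - z.2) * α) < τ)).card : ℝ)) (4 * (P : ℝ) ^ 2 / D) with hcase | hcase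
  · -- few pairs
    have hmin := min_a (gP P1 P) (Pool.Agent.H43.LM.gP_abs_le P1 P) X P S H α τ hP1 hPX hS (by linarith only [hs0, hs, hPH, hL, hLC, hDL, hP12, hPle4]) hHX' hτ0 hτ1
    rw [← hF] at hmin
    set N2 : ℝ := (((S ×ˢ S).filter (fun z : ℕ × ℕ => z.1 ≠ z.2 ∧
      Pool.Agent.H53.MID.nz (((z.1 : ℝ) - z.2) * α) < τ)).card : ℝ) with hN2
    have e1 : 1 / (P : ℝ) ≤ 1 / D := one_div_le_one_div_of_le hD0 hLC
    have e2 : N2 / (P : ℝ) ^ 2 ≤ 4 / D := by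
      rw [div_le_iff₀ (by positivity)]
      calc N2 ≤ 4 * (P : ℝ) ^ 2 / D := hcase
        _ = 4 / D * (P : ℝ) ^ 2 := by ring
    have e3 : (P : ℝ) / (H * τ) = 1 / D := by
      rw [hτ]
      field_simp
    have hI0 : 0 ≤ ∫ x in Set.Icc (X : ℝ) (2 * X), ‖Mw F x H α‖ :=
      integral_nonneg fun _ => norm_nonneg _
    set I : ℝ := ∫ x in Set.Icc (X : ℝ) (2 * X), ‖Mw F x H α‖ with hI
    have h6 : I ^ 2 ≤ (80 * (X * H) / L ^ (A + 6)) ^ 2 := by
      refine hmin.trans ?_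
      have h61 : 1 / (P : ℝ) + N2 / (P : ℝ) ^ 2 + P / (H * τ) ≤ 6 / D := by
        rw [e3]
        calc 1 / (P : ℝ) + N2 / (P : ℝ) ^ 2 + 1 / D ≤ 1 / D + 4 / D + 1 / D := by linarith only [e1, e2]
          _ = 6 / D := by ring
      calc 1000 * (X : ℝ) ^ 2 * H ^ 2 * (1 / (P : ℝ) + N2 / (P : ℝ) ^ 2 + P / (H * τ))
          ≤ 1000 * (X : ℝ) ^ 2 * H ^ 2 * (6 / D) := mul_le_mul_of_nonneg_left h61 (by positivity)
        _ = 6000 * (X * H) ^ 2 / D := by ring
        _ ≤ 6400 * (X * H) ^ 2 / D := by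
            refine div_le_div_of_nonneg_right ?_ hD0.le
            have : 0 ≤ (X * H) ^ 2 := by positivity
            linarith only [this]
        _ = (80 * (X * H) / L ^ (A + 6)) ^ 2 := by
            rw [hD, hC, div_pow, ← pow_mul, show (A + 6) * 2 = 2 * A + 12 by ring]
            ring
    have h7 : I ≤ 80 * (X * H) / L ^ (A + 6) := by
      refine (pow_le_pow_iff_left₀ hI0 (by positivity) (two_ne_zero)).1 h6
    -- pointwise bound
    have h8 : ∀ x ∈ Set.Icc (X : ℝ) (2 * X), ‖Mw F x H α‖ ≤ 8 * H * L := by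
      intro x hx
      have hb : ∀ n : ℕ, 1 ≤ n → n ≤ 3 * X → |F n| ≤ 4 * L := by
        intro n hn1 hn2
        have g1 := FS_abs_le (gP P1 P) (Pool.Agent.H43.LM.gP_abs_le P1 P) S hSp n (by omega)
        have g2 : Real.log n ≤ Real.log (X ^ 2) := by
          refine Real.log_le_log (by exact_mod_cast hn1) ?_
          have g3 : (n : ℝ) ≤ 3 * X := by exact_mod_cast hn2
          nlinarith only [g3, hXr]
        rw [Real.log_pow] at g2
        push_cast at g2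
        rw [hF]
        have g4 : 2 * Real.log (n : ℝ) ≤ 4 * L := by rw [hLdef]; linarith only [g2]
        exact g1.trans g4
      have g5 := norm_Mw_le' F x H α (4 * L) (3 * X) hH0.le (by linarith only [hs0, hs, hPH, hL, hLC, hDL, hP12, hPle4, hHX', hx, hx.1]) (by push_cast; linarith only [hs0, hs, hPH, hL, hLC, hDL, hP12, hPle4, hHX', hx, hx.2]) hb (by positivity)
      refine g5.trans ?_
      nlinarith only [hPH, hLC, hDL, hP12, hPle4, hL, hs0, hs]
    have h9 : ∫ x in Set.Icc (X : ℝ) (2 * X), ‖Mw F x H α‖ ^ 2 ≤ ∫ x in Set.Icc (X : ℝ) (2 * X), 8 * H * L * ‖Mw F x H α‖ := by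
      refine setIntegral_mono_on (integrableOn_Mw_sq F H α hH0.le _ _) ((integrableOn_Mw_norm F H α hH0.le _ _).const_mul _)
        measurableSet_Icc fun x hx => ?_
      rw [pow_two]
      exact mul_le_mul_of_nonneg_right (h8 x hx) (norm_nonneg _)
    rw [integral_const_mul, ← hI] at h9
    refine h9.trans ?_
    calc 8 * H * L * I ≤ 8 * H * L * (80 * (X * H) / L ^ (A + 6)) := mul_le_mul_of_nonneg_left h7 (by positivity)
      _ = (X * H ^ 2 / L ^ A) * (640 / L ^ 5) := by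
          rw [pow_add L A 6]
          field_simp
          ring
      _ ≤ (X * H ^ 2 / L ^ A) * 1 := by
          refine mul_le_mul_of_nonneg_left ?_ (by positivity)
          rw [div_le_one (by positivity)]
          calc (640 : ℝ) ≤ 100 ^ 5 := by norm_num
            _ ≤ L ^ 5 := pow_le_pow_left₀ (by norm_num) hL 5
      _ = X * H ^ 2 / L ^ A := mul_one _
  · -- many pairs
    obtain ⟨c, a, hc1, hcD, hcα⟩ := min_b P S H α D hP1 hS (by linarith only [hs0, hs, hL, hDL]) hLC hHD hcase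
    have hc0 : (c : ℤ) ≠ 0 := by exact_mod_cast (by omega : c ≠ 0)
    have hcr : (0 : ℝ) < c := by exact_mod_cast hc1
    have hr0 : 0 ≤ a % (c : ℤ) := Int.emod_nonneg a hc0
    set r : ℕ := (a % (c : ℤ)).toNat with hr
    have hr' : (r : ℤ) = a % (c : ℤ) := by rw [hr]; exact Int.toNat_of_nonneg hr0
    have hra : (a : ℝ) = r + c * ((a / (c : ℤ) : ℤ) : ℝ) := by
      have h1 := Int.emod_add_mul_ediv a (c : ℤ)
      rw [← hr'] at h1
      exact_mod_cast h1.symm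
    have hαe : α = ((r : ℝ) / c + (α - a / c)) + ((a / (c : ℤ) : ℤ) : ℝ) := by
      have : (a : ℝ) / c = r / c + ((a / (c : ℤ) : ℤ) : ℝ) := by
        rw [hra]
        field_simp
      linarith only [this]
    have hE : |α - a / c| ≤ L ^ (C * 2) / H := by
      rw [pow_mul]
      exact hcα
    have h10 := hmaj X hXX1 P1 P c r S H (α - a / c) hLb0 hPU hPH hHX hS hc1 hcD hE
    have h11 : ∀ x : ℝ, Mw F x H α = Mw F x H ((r : ℝ) / c + (α - a / c)) := by
      intro x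
      conv_lhs => rw [hαe]
      exact Mw_add_int F x H _ _
    simp only [h11]
    exact h10

end Pool.Agent.H43.CH

end
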